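import Mathlib

namespace Pool.Agent.Lib.helper23.AgA

open Filter Topology

noncomputable def w (j : ℕ) : ℝ := 1 / √((j : ℝ) + 1)

theorem w_pos (j : ℕ) : 0 < w j := by unfold w; positivity

theorem w_sq (j : ℕ) : w j ^ 2 = 1 / ((j : ℝ) + 1) := by
  unfold w; rw [div_pow, Real.sq_sqrt (by positivity), one_pow]

theorem w_le (j r : ℕ) (hr : 0 < r) (h : r ≤ j + 1) : w j ≤ 1 / √r := by
  unfold w
  have : (0 : ℝ) < r := by exact_mod_cast hr
  refine one_div_le_one_div_of_le (by positivity) (Real.sqrt_le_sqrt ?_)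
  exact_mod_cast h

theorem w_le_one (j : ℕ) : w j ≤ 1 := by simpa using w_le j 1 one_pos (by omega)

theorem sum_w (r : ℕ) : ∑ j ∈ Finset.range r, w j ≤ 2 * √r := by
  induction r with
  | zero => simp
  | succ r ih =>
    rw [Finset.sum_range_succ]
    have h1 : w r ≤ 2 * √((r : ℝ) + 1) - 2 * √r := by
      unfold w
      have a := Real.sq_sqrt (show (0 : ℝ) ≤ (r : ℝ) + 1 by positivity)
      have b := Real.sq_sqrt (show (0 : ℝ) ≤ (r : ℝ) by positivity)
      rw [div_le_iff₀ (by positivity)]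
      nlinarith [sq_nonneg (√((r : ℝ) + 1) - √r)]
    push_cast
    linarith

noncomputable def W (N j : ℕ) : ℝ := if j < N then w j else 0

theorem W_nonneg (N j : ℕ) : 0 ≤ W N j := by
  unfold W; split_ifs
  · exact (w_pos j).le
  · exact le_rfl

theorem W_le_one (N j : ℕ) : W N j ≤ 1 := by
  unfold W; split_ifs
  · exact w_le_one j
  · exact zero_le_one

theorem sum_W (m N r : ℕ) (h : N ≤ r) : ∑ q : Fin m × Bool, W N q.1 ≤ 4 * √r := by
  rw [Fintype.sum_prod_type]
  simp only [Finset.sum_const, Finset.card_univ, Fintype.card_bool, nsmul_eq_mul]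
  rw [← Finset.mul_sum, Fin.sum_univ_eq_sum_range (fun j => W N j)]
  have h1 : ∑ j ∈ Finset.range m, W N j ≤ ∑ j ∈ Finset.range r, w j := by
    unfold W
    rw [← Finset.sum_filter]
    refine Finset.sum_le_sum_of_subset_of_nonneg (fun j hj => ?_) fun j _ _ => (w_pos j).le
    simp only [Finset.mem_filter, Finset.mem_range] at hj ⊢
    omega
  have := sum_w r
  push_cast
  linarith

theorem W_sub (N r j : ℕ) (hr : 0 < r) : |W N j - W (min N r) j| ≤ 1 / √r := by
  unfold W
  by_cases h1 : j < min N r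
  · rw [if_pos h1, if_pos (by omega), sub_self, abs_zero]; positivity
  · rw [if_neg h1, sub_zero]
    split_ifs with h2
    · rw [abs_of_pos (w_pos j)]; exact w_le j r hr (by omega)
    · rw [abs_zero]; positivity

variable {C : Type} {len : C → ℕ} (g : (c : C) → Fin (len c) × Bool → ℕ)

noncomputable def phi (c : C × ℕ) (u : ℕ → ℝ) : ℝ :=
  ∑ q : Fin (len c.1) × Bool, W c.2 q.1 * u (g c.1 q)

theorem sum_comp_le {Q : Type} [Fintype Q] {f : Q → ℕ} (hf : Function.Injective f) (v : ℕ → ℝ)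
    (S : Finset ℕ) (hv : ∀ i, i ∉ S → v i = 0) : ∑ q, |v (f q)| ≤ ∑ i ∈ S, |v i| := by
  rw [← Finset.sum_image (s := Finset.univ) (g := f) (f := fun i => |v i|)
    (fun a _ b _ h => hf h)]
  rw [← Finset.sum_filter_of_ne (p := fun i => i ∈ S) fun i _ hi => by
    by_contra h
    exact hi (by rw [hv i h, abs_zero])]
  exact Finset.sum_le_sum_of_subset_of_nonneg (fun i hi => (Finset.mem_filter.1 hi).2)
    fun _ _ _ => abs_nonneg _

/-- The key estimate. -/
theorem phi_est (hg : ∀ c, Function.Injective (g c)) (y z : ℕ → ℝ) (M t : ℝ) (r : ℕ) (hr : 0 < r)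
    (S : Finset ℕ) (hy : ∀ c, |phi g c y| ≤ M) (hz : ∀ i, |z i| ≤ t) (ht : t * √r ≤ M)
    (hS : ∀ i, i ∉ S → z i - y i = 0) (hS' : ∑ i ∈ S, |z i - y i| ≤ 2 * √r * M) (c : C × ℕ) :
    |phi g c z| ≤ 8 * M := by
  have hr' : (0 : ℝ) < √r := Real.sqrt_pos.2 (by exact_mod_cast hr)
  have t0 : 0 ≤ t := (abs_nonneg _).trans (hz 0)
  let c' : C × ℕ := (c.1, min c.2 r)
  have e : phi g c z = phi g c' z + (phi g c y - phi g c' y) +
      ∑ q : Fin (len c.1) × Bool, (W c.2 q.1 - W (min c.2 r) q.1) * (z (g c.1 q) - y (g c.1 q)) := by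
    simp only [phi, c', ← Finset.sum_add_distrib, ← Finset.sum_sub_distrib]
    exact Finset.sum_congr rfl fun q _ => by ring
  have h1 : |phi g c' z| ≤ 4 * M := by
    refine (Finset.abs_sum_le_sum_abs _ _).trans ?_
    have : ∑ q : Fin (len c.1) × Bool, |W (min c.2 r) q.1 * z (g c.1 q)| ≤
        ∑ q : Fin (len c.1) × Bool, W (min c.2 r) q.1 * t := Finset.sum_le_sum fun q _ => by
      rw [abs_mul, abs_of_nonneg (W_nonneg _ _)]
      exact mul_le_mul_of_nonneg_left (hz _) (W_nonneg _ _)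
    refine this.trans ?_
    rw [← Finset.sum_mul]
    have := mul_le_mul_of_nonneg_right (sum_W (len c.1) _ r (min_le_right c.2 r)) t0
    nlinarith
  have h2 : |∑ q : Fin (len c.1) × Bool,
      (W c.2 q.1 - W (min c.2 r) q.1) * (z (g c.1 q) - y (g c.1 q))| ≤ 2 * M := by
    refine (Finset.abs_sum_le_sum_abs _ _).trans ?_
    have : ∑ q : Fin (len c.1) × Bool,
        |(W c.2 q.1 - W (min c.2 r) q.1) * (z (g c.1 q) - y (g c.1 q))| ≤
        ∑ q : Fin (len c.1) × Bool, 1 / √r * |z (g c.1 q) - y (g c.1 q)| :=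
      Finset.sum_le_sum fun q _ => by
        rw [abs_mul]
        exact mul_le_mul_of_nonneg_right (W_sub _ _ _ hr) (abs_nonneg _)
    refine this.trans ?_
    rw [← Finset.mul_sum]
    have h3 := (sum_comp_le (hg c.1) (fun i => z i - y i) S hS).trans hS'
    refine (mul_le_mul_of_nonneg_left h3 (by positivity)).trans (le_of_eq ?_)
    field_simp
  have h3 := hy c
  have h4 := hy c'
  rw [e]
  rw [abs_le] at *
  constructor <;> linarith [h1.1, h1.2, h2.1, h2.2, h3.1, h3.2, h4.1, h4.2]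

noncomputable abbrev Y (C : Type) := lp (fun _ : ℕ => ℝ) 2 × lp (fun _ : C × ℕ => ℝ) ⊤

theorem phi_single_le (hg : ∀ c, Function.Injective (g c)) (i : ℕ) (c : C × ℕ) :
    |phi g c (Pi.single i 1)| ≤ 1 := by
  refine (Finset.abs_sum_le_sum_abs _ _).trans ?_
  have h := sum_comp_le (hg c.1) (Pi.single i (1 : ℝ)) {i} fun j hj =>
    Pi.single_eq_of_ne (by simpa using hj) _
  simp only [Finset.sum_singleton, Pi.single_eq_same, abs_one] at h
  refine le_trans (Finset.sum_le_sum fun q _ => ?_) h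
  rw [abs_mul, abs_of_nonneg (W_nonneg _ _)]
  exact mul_le_of_le_one_left (abs_nonneg _) (W_le_one _ _)

noncomputable def x (hg : ∀ c, Function.Injective (g c)) (i : ℕ) : Y C :=
  (lp.single 2 i 1, ⟨fun c => phi g c (Pi.single i 1), memℓp_infty ⟨1, by
    rintro _ ⟨c, rfl⟩; exact phi_single_le g hg i c⟩⟩)

noncomputable def X (hg : ∀ c, Function.Injective (g c)) : Submodule ℝ (Y C) :=
  (Submodule.span ℝ (Set.range (x g hg))).topologicalClosure

variable {g} (hg : ∀ c, Function.Injective (g c))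

instance : CompleteSpace (X g hg) :=
  (Submodule.isClosed_topologicalClosure _).completeSpace_coe

noncomputable def e (i : ℕ) : X g hg :=
  ⟨x g hg i, Submodule.le_topologicalClosure _ (Submodule.subset_span ⟨i, rfl⟩)⟩

noncomputable def co (i : ℕ) : Y C →L[ℝ] ℝ :=
  (lp.evalCLM ℝ (fun _ : ℕ => ℝ) 2 i).comp (ContinuousLinearMap.fst ℝ _ _)

noncomputable def co2 (c : C × ℕ) : Y C →L[ℝ] ℝ :=
  (lp.evalCLM ℝ (fun _ : C × ℕ => ℝ) ⊤ c).comp (ContinuousLinearMap.snd ℝ _ _)

noncomputable def e' (i : ℕ) : X g hg →L[ℝ] ℝ := (co i).comp (X g hg).subtypeL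

theorem e'_apply (i : ℕ) (y : X g hg) : e' hg i y = y.1.1 i := rfl

theorem e'_e (i j : ℕ) : e' hg i (e hg j) = if i = j then 1 else 0 := by
  rw [e'_apply]
  change (lp.single 2 j (1 : ℝ) : lp (fun _ : ℕ => ℝ) 2) i = _
  rw [lp.single_apply, Pi.single_apply]

theorem snd_eq (y : X g hg) (c : C × ℕ) : y.1.2 c = phi g c fun i => e' hg i y := by
  let L : Y C →L[ℝ] ℝ := co2 c - ∑ q : Fin (len c.1) × Bool, W c.2 q.1 • co (g c.1 q)
  have hL : ∀ p : Y C, L p = p.2 c - phi g c fun i => p.1 i := fun p => by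
    simp only [L, sub_apply, sum_apply, smul_apply, smul_eq_mul]
    rfl
  have h1 : (Submodule.span ℝ (Set.range (x g hg)) : Set (Y C)) ⊆ L.ker := by
    refine Submodule.span_le.2 ?_
    rintro _ ⟨i, rfl⟩
    change L _ = 0
    rw [hL, sub_eq_zero]
    change phi g c (Pi.single i 1) = phi g c fun j => (lp.single 2 i (1 : ℝ) : lp (fun _ : ℕ => ℝ) 2) j
    congr 1
  have h2 : L y.1 = 0 := closure_minimal h1 L.isClosed_ker y.2
  rw [hL, sub_eq_zero] at h2
  exact h2

theorem dense_e : Dense ((Submodule.span ℝ (Set.range (e hg)) : Submodule ℝ (X g hg)) :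
    Set (X g hg)) := by
  refine Subtype.dense_iff.2 ?_
  have : ((↑) : X g hg → Y C) '' (Submodule.span ℝ (Set.range (e hg)) : Submodule ℝ (X g hg)) =
      (Submodule.span ℝ (Set.range (x g hg)) : Set (Y C)) := by
    have h := Submodule.map_span (X g hg).subtype (Set.range (e hg))
    rw [← Set.range_comp] at h
    exact congrArg (fun s : Submodule ℝ (Y C) => (s : Set (Y C))) h
  exact subset_rfl.trans (congrArg closure this).ge

theorem total (y : X g hg) (h : ∀ i, e' hg i y = 0) : y = 0 := by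
  refine Subtype.ext (Prod.ext (lp.ext (funext h)) (lp.ext (funext fun c => ?_)))
  rw [snd_eq]
  simp [phi, h]

theorem hasSum_sq (y : X g hg) : HasSum (fun i => e' hg i y ^ 2) (‖y.1.1‖ ^ 2) := by
  have := lp.hasSum_norm (p := 2) (by simp) y.1.1
  simp only [ENNReal.toReal_ofNat, Real.rpow_ofNat, Real.norm_eq_abs, sq_abs] at this
  exact this

theorem norm_le (y : X g hg) (M : ℝ) (h1 : ‖y.1.1‖ ≤ M)
    (h2 : ∀ c, |phi g c fun i => e' hg i y| ≤ M) : ‖y‖ ≤ M := by
  refine max_le h1 (lp.norm_le_of_forall_le ((norm_nonneg _).trans h1) fun c => ?_)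
  change |y.1.2 c| ≤ M
  rw [snd_eq]; exact h2 c

theorem fst_le (y : X g hg) : ‖y.1.1‖ ≤ ‖y‖ := norm_fst_le y.1

theorem phi_le (y : X g hg) (c : C × ℕ) : |phi g c fun i => e' hg i y| ≤ ‖y‖ := by
  rw [← snd_eq]
  exact (lp.norm_apply_le_norm (by simp) y.1.2 c).trans (norm_snd_le y.1)

theorem e'_proj (y : X g hg) (A : Finset ℕ) (j : ℕ) :
    e' hg j (∑ i ∈ A, e' hg i y • e hg i) = if j ∈ A then e' hg j y else 0 := by
  simp only [map_sum, map_smul, e'_e, smul_eq_mul, mul_ite, mul_one, mul_zero]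
  rw [Finset.sum_ite_eq]

theorem almost_greedy (u : X g hg) (A B : Finset ℕ)
    (hA : ∀ i ∈ A, ∀ j : ℕ, j ∉ A → ‖e' hg j u‖ ≤ ‖e' hg i u‖) (hB : B.card ≤ A.card) :
    ‖u - ∑ i ∈ A, e' hg i u • e hg i‖ ≤ 8 * ‖u - ∑ i ∈ B, e' hg i u • e hg i‖ := by
  set z := u - ∑ i ∈ A, e' hg i u • e hg i with hz
  set y := u - ∑ i ∈ B, e' hg i u • e hg i with hy
  have y0 := norm_nonneg y
  rcases (A \ B).eq_empty_or_nonempty with h0 | h0
  · have : A = B := Finset.eq_of_subset_of_card_le (Finset.sdiff_eq_empty_iff_subset.1 h0) hB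
    rw [hz, this, ← hy]; linarith
  have ez : ∀ j, e' hg j z = if j ∈ A then 0 else e' hg j u := fun j => by
    rw [hz, map_sub, e'_proj]; split_ifs <;> simp
  have ey : ∀ j, e' hg j y = if j ∈ B then 0 else e' hg j u := fun j => by
    rw [hy, map_sub, e'_proj]; split_ifs <;> simp
  obtain ⟨i0, hi0, hmin⟩ := (A \ B).exists_min_image (fun i => |e' hg i u|) h0
  set t := |e' hg i0 u|
  have t0 : 0 ≤ t := abs_nonneg _
  have hzt : ∀ j, j ∉ A → |e' hg j u| ≤ t := fun j hj => hA i0 (Finset.mem_sdiff.1 hi0).1 j hj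
  set r := (A \ B).card
  have hr : 0 < r := h0.card_pos
  have hD : (B \ A).card ≤ r := by
    have := Finset.card_sdiff_add_card_inter A B
    have := Finset.card_sdiff_add_card_inter B A
    rw [Finset.inter_comm] at this
    omega
  have hD' : ((B \ A).card : ℝ) ≤ r := by exact_mod_cast hD
  have s1 : r * t ^ 2 ≤ ∑ i ∈ A \ B, e' hg i u ^ 2 := by
    have := Finset.card_nsmul_le_sum (A \ B) (fun i => e' hg i u ^ 2) (t ^ 2) fun i hi => by
      rw [← sq_abs (e' hg i u)]; exact pow_le_pow_left₀ t0 (hmin i hi) 2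
    rwa [nsmul_eq_mul] at this
  have s2 : ∑ i ∈ B \ A, e' hg i u ^ 2 ≤ r * t ^ 2 := by
    have := Finset.sum_le_card_nsmul (B \ A) (fun i => e' hg i u ^ 2) (t ^ 2) fun i hi => by
      rw [← sq_abs (e' hg i u)]
      exact pow_le_pow_left₀ (abs_nonneg _) (hzt i (Finset.mem_sdiff.1 hi).2) 2
    rw [nsmul_eq_mul] at this
    exact this.trans (mul_le_mul_of_nonneg_right hD' (sq_nonneg t))
  have s3 : ∑ i ∈ A \ B, e' hg i u ^ 2 ≤ ‖y‖ ^ 2 := by
    have h1 := sum_le_hasSum (A \ B) (fun i _ => sq_nonneg _) (hasSum_sq hg y)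
    have h2 : ∑ i ∈ A \ B, e' hg i y ^ 2 = ∑ i ∈ A \ B, e' hg i u ^ 2 :=
      Finset.sum_congr rfl fun i hi => by rw [ey, if_neg (Finset.mem_sdiff.1 hi).2]
    rw [h2] at h1
    exact h1.trans (pow_le_pow_left₀ (norm_nonneg _) (fst_le hg y) 2)
  have hdisj : Disjoint (A \ B) (B \ A) := disjoint_sdiff_sdiff
  have hoff : ∀ i, i ∉ A \ B ∪ B \ A → e' hg i z = e' hg i y := fun i hi => by
    rw [ez, ey]
    simp only [Finset.mem_union, Finset.mem_sdiff] at hi
    by_cases h1 : i ∈ A <;> by_cases h2 : i ∈ B <;> simp_all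
  have sq : √r ^ 2 = r := Real.sq_sqrt (by positivity)
  have ht : t * √r ≤ ‖y‖ := by
    refine le_of_sq_le_sq ?_ y0
    rw [mul_pow, sq]; linarith
  refine norm_le hg z _ ?_ fun c => ?_
  · have h1 := (hasSum_sq hg y).sub (hasSum_sq hg z)
    have h2 : HasSum (fun i => e' hg i y ^ 2 - e' hg i z ^ 2)
        (∑ i ∈ A \ B ∪ B \ A, (e' hg i y ^ 2 - e' hg i z ^ 2)) :=
      hasSum_sum_of_ne_finset_zero fun i hi => by rw [hoff i hi, sub_self]
    have h3 := h1.unique h2
    rw [Finset.sum_union hdisj] at h3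
    have h4 : ∑ i ∈ A \ B, (e' hg i y ^ 2 - e' hg i z ^ 2) = ∑ i ∈ A \ B, e' hg i u ^ 2 :=
      Finset.sum_congr rfl fun i hi => by
        rw [ey, ez, if_neg (Finset.mem_sdiff.1 hi).2, if_pos (Finset.mem_sdiff.1 hi).1]; ring
    have h5 : ∑ i ∈ B \ A, (e' hg i y ^ 2 - e' hg i z ^ 2) = -∑ i ∈ B \ A, e' hg i u ^ 2 := by
      rw [← Finset.sum_neg_distrib]
      exact Finset.sum_congr rfl fun i hi => by
        rw [ey, ez, if_neg (Finset.mem_sdiff.1 hi).2, if_pos (Finset.mem_sdiff.1 hi).1]; ring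
    have h6 : ‖z.1.1‖ ≤ ‖y.1.1‖ := le_of_sq_le_sq (by linarith) (norm_nonneg _)
    linarith [fst_le hg y]
  · refine phi_est g hg (fun i => e' hg i y) _ ‖y‖ t r hr (A \ B ∪ B \ A) (phi_le hg y)
      (fun i => ?_) ht (fun i hi => by rw [hoff i hi, sub_self]) ?_ c
    · rw [ez]; split_ifs with h
      · simpa using t0
      · exact hzt i h
    · rw [Finset.sum_union hdisj]
      have h4 : ∑ i ∈ A \ B, |e' hg i z - e' hg i y| = ∑ i ∈ A \ B, |e' hg i u| :=
        Finset.sum_congr rfl fun i hi => by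
          rw [ey, ez, if_neg (Finset.mem_sdiff.1 hi).2, if_pos (Finset.mem_sdiff.1 hi).1]; simp
      have h5 : ∑ i ∈ B \ A, |e' hg i z - e' hg i y| ≤ r * t := by
        have := Finset.sum_le_card_nsmul (B \ A) (fun i => |e' hg i z - e' hg i y|) t
          fun i hi => by
            rw [ey, ez, if_neg (Finset.mem_sdiff.1 hi).2, if_pos (Finset.mem_sdiff.1 hi).1,
              sub_zero]
            exact hzt i (Finset.mem_sdiff.1 hi).2
        rw [nsmul_eq_mul] at this
        exact this.trans (mul_le_mul_of_nonneg_right hD' t0)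
      have h6 : ∑ i ∈ A \ B, |e' hg i u| ≤ √r * ‖y‖ := by
        refine le_of_sq_le_sq ?_ (by positivity)
        have := sq_sum_le_card_mul_sum_sq (s := A \ B) (f := fun i => |e' hg i u|)
        simp only [sq_abs] at this
        rw [mul_pow, sq]
        exact this.trans (mul_le_mul_of_nonneg_left s3 (by positivity))
      have h7 : r * t ≤ √r * ‖y‖ := by
        have := mul_le_mul_of_nonneg_left ht (Real.sqrt_nonneg r)
        nlinarith
      rw [h4]; linarith

theorem not_schauder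
    (H1 : ∀ c c', c ≠ c' → (Finset.univ.filter fun q => g c' q ∈ Set.range (g c)).card ≤ 2)
    (π : Equiv.Perm ℕ)
    (H2 : ∀ L : ℝ, ∃ (N : ℕ) (c : C), L ≤ ∑ j : Fin (len c),
      if π.symm (g c (j, true)) < N ∧ ¬ π.symm (g c (j, false)) < N then w j ^ 2 else 0) :
    ¬ ∀ y : X g hg, Tendsto (fun n : ℕ => ∑ k ∈ Finset.range n, e' hg (π k) y • e hg (π k))
      atTop (𝓝 y) := by
  intro hb
  let S : ℕ → X g hg →L[ℝ] X g hg := fun N =>
    ∑ k ∈ Finset.range N, (e' hg (π k)).smulRight (e hg (π k))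
  have hS : ∀ N y, S N y = ∑ k ∈ Finset.range N, e' hg (π k) y • e hg (π k) := by
    intro N y; simp [S]
  have hS' : ∀ N y j, e' hg j (S N y) = if π.symm j < N then e' hg j y else 0 := by
    intro N y j
    have := Finset.sum_map (Finset.range N) π.toEmbedding (fun i => e' hg i y • e hg i)
    simp only [Equiv.coe_toEmbedding] at this
    rw [hS, ← this, e'_proj]
    simp only [Finset.mem_map_equiv, Finset.mem_range]
  obtain ⟨K, hK⟩ : ∃ K, ∀ N, ‖S N‖ ≤ K := by
    refine banach_steinhaus fun y => ?_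
    obtain ⟨K, hK⟩ := ((hb y).norm).bddAbove_range
    exact ⟨K, fun N => hK ⟨N, by rw [hS]⟩⟩
  have hK0 : 0 ≤ K := (ContinuousLinearMap.opNorm_nonneg _).trans (hK 0)
  obtain ⟨N, c, hc⟩ := H2 (2 * K ^ 2 + 2)
  set s := ∑ j : Fin (len c),
      if π.symm (g c (j, true)) < N ∧ ¬ π.symm (g c (j, false)) < N then w j ^ 2 else 0 with hs
  let b : Fin (len c) → ℝ := fun j =>
    if π.symm (g c (j, true)) < N ∧ ¬ π.symm (g c (j, false)) < N then w j else 0
  let a : Fin (len c) × Bool → ℝ := fun q => if q.2 then b q.1 else -b q.1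
  have hb1 : ∀ j, |b j| ≤ 1 := fun j => by
    simp only [b]; split_ifs
    · rw [abs_of_pos (w_pos _)]; exact w_le_one _
    · simp
  let U : X g hg := ∑ q, a q • e hg (g c q)
  have hU1 : ∀ q, e' hg (g c q) U = a q := fun q => by
    simp only [U, map_sum, map_smul, e'_e, smul_eq_mul, mul_ite, mul_one, mul_zero,
      (hg c).eq_iff]
    rw [Finset.sum_ite_eq, if_pos (Finset.mem_univ _)]
  have hU2 : ∀ i, i ∉ Set.range (g c) → e' hg i U = 0 := fun i hi => by
    simp only [U, map_sum, map_smul, e'_e, smul_eq_mul]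
    exact Finset.sum_eq_zero fun q _ => by rw [if_neg fun h => hi ⟨q, h.symm⟩, mul_zero]
  have hU3 : ∀ i, |e' hg i U| ≤ 1 := fun i => by
    by_cases hi : i ∈ Set.range (g c)
    · obtain ⟨q, rfl⟩ := hi
      rw [hU1]; simp only [a]; split_ifs
      · exact hb1 _
      · rw [abs_neg]; exact hb1 _
    · rw [hU2 i hi]; simp
  have hn : ‖U.1.1‖ ^ 2 = 2 * s := by
    have h2 : HasSum (fun i => e' hg i U ^ 2) (∑ i ∈ Finset.univ.image (g c), e' hg i U ^ 2) :=
      hasSum_sum_of_ne_finset_zero fun i hi => by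
        rw [hU2 i (by simpa using hi)]; simp
    rw [(hasSum_sq hg U).unique h2, Finset.sum_image fun a _ b _ h => hg c h,
      Fintype.sum_prod_type, hs, Finset.mul_sum]
    refine Finset.sum_congr rfl fun j _ => ?_
    simp only [hU1, a, Fintype.sum_bool, if_true, Bool.false_eq_true, if_false, b]
    split_ifs <;> ring
  have hU : ‖U‖ ≤ √(2 * s) := by
    refine norm_le hg U _ (Real.le_sqrt_of_sq_le hn.le) fun c' => ?_
    refine le_trans ?_ (Real.le_sqrt_of_sq_le (x := 2) (by nlinarith))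
    obtain ⟨c', M⟩ := c'
    by_cases h : c = c'
    · subst h
      have : phi g (c, M) (fun i => e' hg i U) = 0 := by
        simp only [phi, Fintype.sum_prod_type, hU1, a, Fintype.sum_bool, if_true,
          Bool.false_eq_true, if_false]
        exact Finset.sum_eq_zero fun j _ => by ring
      rw [this]; simp
    · refine (Finset.abs_sum_le_sum_abs _ _).trans ?_
      rw [← Finset.sum_filter_of_ne (p := fun q => g c' q ∈ Set.range (g c)) fun q _ hq => by
        by_contra h'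
        exact hq (by simp only [hU2 _ h', mul_zero, abs_zero])]
      have := Finset.sum_le_card_nsmul (Finset.univ.filter fun q => g c' q ∈ Set.range (g c))
        (fun q => |W M q.1 * e' hg (g c' q) U|) 1 fun q _ => by
          rw [abs_mul, abs_of_nonneg (W_nonneg _ _)]
          exact mul_le_one₀ (W_le_one _ _) (abs_nonneg _) (hU3 _)
      rw [nsmul_eq_mul, mul_one] at this
      exact this.trans (by exact_mod_cast H1 c c' h)
  have h4 : phi g (c, len c) (fun i => e' hg i (S N U)) = s := by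
    simp only [phi, Fintype.sum_prod_type, hS', hU1, a, Fintype.sum_bool, if_true,
      Bool.false_eq_true, if_false, hs]
    refine Finset.sum_congr rfl fun j _ => ?_
    simp only [W, if_pos j.2, b]
    by_cases h1 : π.symm (g c (j, true)) < N <;> by_cases h2 : π.symm (g c (j, false)) < N <;>
      simp [h1, h2, sq]
  have h5 := phi_le hg (S N U) (c, len c)
  rw [h4] at h5
  have h6 := (le_abs_self s).trans (h5.trans (((S N).le_of_opNorm_le (hK N) U).trans
    (mul_le_mul_of_nonneg_left hU hK0)))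
  have s0 : 0 < s := by nlinarith
  have h7 := pow_le_pow_left₀ s0.le h6 2
  rw [mul_pow, Real.sq_sqrt (by positivity)] at h7
  nlinarith

end Pool.Agent.Lib.helper23.AgA
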