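import Mathlib
import Pool.Agent.Lib.helper23.AgA

namespace Pool.Agent.Lib.helper23.AgB

open Filter Topology Pool.Agent.Lib.helper23.AgA

theorem exists_p (n : ℕ) : ∃ p : ℕ, p.Prime ∧ 2 * n ≤ p ∧
    Fintype.card (Fin n × Bool → Fin (2 * n)) ≤ p := by
  obtain ⟨p, h1, h2⟩ := Nat.exists_infinite_primes
    (2 * n + Fintype.card (Fin n × Bool → Fin (2 * n)))
  exact ⟨p, h2, by omega, by omega⟩

noncomputable def p (n : ℕ) : ℕ := (exists_p n).choose

instance (n : ℕ) : Fact (p n).Prime := ⟨(exists_p n).choose_spec.1⟩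

theorem exists_k (n : ℕ) : Nonempty ((Fin n × Bool → Fin (2 * n)) ↪ ZMod (p n)) :=
  Function.Embedding.nonempty_of_card_le (by
    rw [ZMod.card]; exact (exists_p n).choose_spec.2.2)

noncomputable def κ (n : ℕ) : (Fin n × Bool → Fin (2 * n)) ↪ ZMod (p n) := (exists_k n).some

noncomputable def τ {n : ℕ} (t : Fin (2 * n)) : ZMod (p n) := ((t : ℕ) : ZMod (p n))

theorem τ_inj {n : ℕ} : Function.Injective (τ (n := n)) := fun a b h => by
  have hp : 2 * n ≤ p n := (exists_p n).choose_spec.2.1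
  have := congrArg ZMod.val h
  rw [τ, τ, ZMod.val_cast_of_lt (by omega), ZMod.val_cast_of_lt (by omega)] at this
  exact Fin.ext this

abbrev I := Σ n : ℕ, Fin (2 * n) × ZMod (p n)

instance : Infinite I :=
  Infinite.of_injective (fun n : ℕ => (⟨n + 1, ⟨0, by omega⟩, 0⟩ : I)) fun a b h => by
    simpa using congrArg Sigma.fst h

noncomputable def ι : I ≃ ℕ := nonempty_equiv_of_countable.some

abbrev C := Σ n : ℕ, {σ : Fin n × Bool → Fin (2 * n) // Function.Injective σ} ×
  ZMod (p n) × ZMod (p n)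

noncomputable def g (c : C) (q : Fin c.1 × Bool) : ℕ :=
  ι ⟨c.1, c.2.1.1 q, c.2.2.1 + c.2.2.2 * τ (c.2.1.1 q) + κ c.1 c.2.1.1 * τ (c.2.1.1 q) ^ 2⟩

theorem g_inj (c : C) : Function.Injective (g c) := fun a b h => by
  have := ι.injective h
  simp only [Sigma.mk.injEq, heq_eq_eq, true_and, Prod.mk.injEq] at this
  exact c.2.1.2 this.1

theorem three_roots {F : Type} [Field F] {a b k x y z : F} (hxy : x ≠ y) (hxz : x ≠ z)
    (hyz : y ≠ z) (hx : a + b * x + k * x ^ 2 = 0) (hy : a + b * y + k * y ^ 2 = 0)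
    (hz : a + b * z + k * z ^ 2 = 0) : a = 0 ∧ b = 0 ∧ k = 0 := by
  have h1 : b + k * (x + y) = 0 :=
    mul_left_cancel₀ (sub_ne_zero.2 hxy) (by linear_combination hx - hy)
  have h2 : b + k * (x + z) = 0 :=
    mul_left_cancel₀ (sub_ne_zero.2 hxz) (by linear_combination hx - hz)
  have h3 : k = 0 := mul_left_cancel₀ (sub_ne_zero.2 hyz) (by linear_combination h1 - h2)
  have h4 : b = 0 := by rw [h3] at h1; linear_combination h1
  refine ⟨?_, h4, h3⟩
  rw [h3, h4] at hx; linear_combination hx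

theorem H1 (c c' : C) (h : c ≠ c') :
    (Finset.univ.filter fun q => g c' q ∈ Set.range (g c)).card ≤ 2 := by
  by_contra hc
  obtain ⟨q1, q2, q3, h1, h2, h3, h12, h13, h23⟩ := Finset.two_lt_card_iff.1 (not_le.1 hc)
  obtain ⟨n, ⟨σ, hσ⟩, a, b⟩ := c
  obtain ⟨n', ⟨σ', hσ'⟩, a', b'⟩ := c'
  obtain ⟨r1, e1⟩ := (Finset.mem_filter.1 h1).2
  obtain rfl : n = n' := congrArg Sigma.fst (ι.injective e1)
  have key : ∀ q : Fin n × Bool, g ⟨n, ⟨σ', hσ'⟩, a', b'⟩ q ∈ Set.range (g ⟨n, ⟨σ, hσ⟩, a, b⟩) →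
      (a - a') + (b - b') * τ (σ' q) + (κ n σ - κ n σ') * τ (σ' q) ^ 2 = 0 := by
    rintro q ⟨r, e⟩
    have := ι.injective e
    simp only [Sigma.mk.injEq, heq_eq_eq, true_and, Prod.mk.injEq] at this
    obtain ⟨e1, e2⟩ := this
    rw [e1] at e2
    linear_combination e2
  have inj := τ_inj.comp hσ'
  obtain ⟨k1, k2, k3⟩ := three_roots (inj.ne h12) (inj.ne h13) (inj.ne h23)
    (key _ (Finset.mem_filter.1 h1).2) (key _ (Finset.mem_filter.1 h2).2)
    (key _ (Finset.mem_filter.1 h3).2)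
  obtain rfl := sub_eq_zero.1 k1
  obtain rfl := sub_eq_zero.1 k2
  obtain rfl := (κ n).injective (sub_eq_zero.1 k3)
  exact h rfl

theorem ivt (h : ℕ → ℕ) (h0 : h 0 = 0) (hs : ∀ N, h (N + 1) ≤ h N + 1) (n N0 : ℕ)
    (hn : n ≤ h N0) : ∃ N, h N = n := by
  induction N0 with
  | zero => exact ⟨0, by omega⟩
  | succ N0 ih =>
    by_cases h1 : n ≤ h N0
    · exact ih h1
    · exact ⟨N0 + 1, by have := hs N0; omega⟩

theorem avg {F : Type} [Field F] [Fintype F] (t t' k k' : F) (h : t ≠ t') (P Q : F → Prop)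
    [DecidablePred P] [DecidablePred Q] (v : ℝ) :
    ∑ ab : F × F, (if P (ab.1 + ab.2 * t + k) ∧ Q (ab.1 + ab.2 * t' + k') then v else 0) =
      v * ((Finset.univ.filter P).card * (Finset.univ.filter Q).card) := by
  have hb : Function.Bijective fun ab : F × F => (ab.1 + ab.2 * t + k, ab.1 + ab.2 * t' + k') := by
    refine Finite.injective_iff_bijective.1 fun x y e => ?_
    simp only [Prod.mk.injEq] at e
    have h2 : x.2 = y.2 :=
      mul_left_cancel₀ (sub_ne_zero.2 h) (by linear_combination e.1 - e.2)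
    refine Prod.ext ?_ h2
    have := e.1
    rw [h2] at this
    linear_combination this
  rw [hb.sum_comp (fun y : F × F => if P y.1 ∧ Q y.2 then v else 0), ← Finset.sum_filter,
    Finset.sum_const, ← Finset.univ_product_univ, Finset.filter_product, Finset.card_product,
    nsmul_eq_mul, mul_comm]
  push_cast
  rfl

theorem H2 (π : Equiv.Perm ℕ) (L : ℝ) : ∃ (N : ℕ) (c : C), L ≤ ∑ j : Fin c.1,
    if π.symm (g c (j, true)) < N ∧ ¬ π.symm (g c (j, false)) < N then w j ^ 2 else 0 := by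
  obtain ⟨n, hn⟩ := (Real.tendsto_sum_range_one_div_nat_succ_atTop.eventually_ge_atTop
    (4 * L)).exists
  have hp0 : 0 < p n := (Fact.out : (p n).Prime).pos
  let f : Fin (2 * n) → ZMod (p n) → ℕ := fun t y => π.symm (ι ⟨n, t, y⟩)
  let α : ℕ → Fin (2 * n) → ℕ := fun N t => (Finset.univ.filter fun y => f t y < N).card
  obtain ⟨N, hN⟩ := ivt (fun N => (Finset.univ.filter fun t => p n ≤ 2 * α N t).card)
    (by
      simp only [α, Nat.not_lt_zero, Finset.filter_false, Finset.card_empty, mul_zero]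
      rw [Finset.filter_false_of_mem fun _ _ => by omega, Finset.card_empty])
    (fun N => by
      have h2 : (Finset.univ.filter fun t => p n ≤ 2 * α (N + 1) t) ⊆
          (Finset.univ.filter fun t => p n ≤ 2 * α N t) ∪
            (Finset.univ.filter fun t => ∃ y, f t y = N) := by
        intro t ht
        simp only [Finset.mem_filter, Finset.mem_union, Finset.mem_univ, true_and] at ht ⊢
        by_cases h : ∃ y, f t y = N
        · exact Or.inr h
        · left
          have : α (N + 1) t = α N t := by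
            simp only [α]
            congr 1
            refine Finset.filter_congr fun y _ => ?_
            have : f t y ≠ N := fun e => h ⟨y, e⟩
            omega
          omega
      have h3 : (Finset.univ.filter fun t => ∃ y, f t y = N).card ≤ 1 :=
        Finset.card_le_one.2 fun a ha b hb => by
          obtain ⟨y, hy⟩ := (Finset.mem_filter.1 ha).2
          obtain ⟨y', hy'⟩ := (Finset.mem_filter.1 hb).2
          have := ι.injective (π.symm.injective (hy.trans hy'.symm))
          simp only [Sigma.mk.injEq, heq_eq_eq, true_and, Prod.mk.injEq] at this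
          exact this.1
      have := (Finset.card_le_card h2).trans (Finset.card_union_le _ _)
      omega) n ((Finset.univ.sup fun ty : Fin (2 * n) × ZMod (p n) => f ty.1 ty.2) + 1)
    (by
      rw [Finset.filter_true_of_mem, Finset.card_univ, Fintype.card_fin]
      · omega
      · intro t _
        simp only [α]
        rw [Finset.filter_true_of_mem, Finset.card_univ, ZMod.card]
        · omega
        · intro y _
          exact Nat.lt_succ_of_le (Finset.le_sup
            (f := fun ty : Fin (2 * n) × ZMod (p n) => f ty.1 ty.2) (Finset.mem_univ (t, y))))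
  set H := Finset.univ.filter fun t => p n ≤ 2 * α N t with hH
  have hH' : Hᶜ.card = n := by rw [Finset.card_compl, Fintype.card_fin, hN]; omega
  let σ : Fin n × Bool → Fin (2 * n) := fun q =>
    if q.2 then H.orderEmbOfFin hN q.1 else Hᶜ.orderEmbOfFin hH' q.1
  have m1 : ∀ j, σ (j, true) ∈ H := fun j => H.orderEmbOfFin_mem hN j
  have m2 : ∀ j, σ (j, false) ∉ H := fun j => Finset.mem_compl.1 (Hᶜ.orderEmbOfFin_mem hH' j)
  have hσ : Function.Injective σ := by
    rintro ⟨j, _ | _⟩ ⟨j', _ | _⟩ h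
    · exact Prod.ext ((Hᶜ.orderEmbOfFin hH').injective h) rfl
    · exact absurd (h ▸ m1 j') (m2 j)
    · exact absurd (h ▸ m1 j) (m2 j')
    · exact Prod.ext ((H.orderEmbOfFin hN).injective h) rfl
  have main : ∑ _ab : ZMod (p n) × ZMod (p n), L ≤ ∑ ab : ZMod (p n) × ZMod (p n), ∑ j : Fin n,
      if π.symm (g ⟨n, ⟨σ, hσ⟩, ab⟩ (j, true)) < N ∧
        ¬ π.symm (g ⟨n, ⟨σ, hσ⟩, ab⟩ (j, false)) < N then w j ^ 2 else 0 := by
    rw [Finset.sum_comm]
    have h1 : ∀ j : Fin n, w j ^ 2 * ((p n : ℝ) ^ 2 / 4) ≤ ∑ ab : ZMod (p n) × ZMod (p n),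
        if π.symm (g ⟨n, ⟨σ, hσ⟩, ab⟩ (j, true)) < N ∧
          ¬ π.symm (g ⟨n, ⟨σ, hσ⟩, ab⟩ (j, false)) < N then w j ^ 2 else 0 := by
      intro j
      have h2 := avg (τ (σ (j, true))) (τ (σ (j, false))) (κ n σ * τ (σ (j, true)) ^ 2)
        (κ n σ * τ (σ (j, false)) ^ 2) ((τ_inj.comp hσ).ne (by simp))
        (fun y => f (σ (j, true)) y < N) (fun y => ¬ f (σ (j, false)) y < N) (w j ^ 2)
      refine le_trans (mul_le_mul_of_nonneg_left ?_ (sq_nonneg _)) h2.ge
      have a1 : p n ≤ 2 * α N (σ (j, true)) := (Finset.mem_filter.1 (m1 j)).2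
      have a2 : ¬ p n ≤ 2 * α N (σ (j, false)) := fun h =>
        m2 j (Finset.mem_filter.2 ⟨Finset.mem_univ _, h⟩)
      have a3 := Finset.card_filter_add_card_filter_not (s := Finset.univ)
        (fun y => f (σ (j, false)) y < N)
      rw [Finset.card_univ, ZMod.card] at a3
      have a4 : p n ≤ 2 * (Finset.univ.filter fun y => ¬ f (σ (j, false)) y < N).card := by
        simp only [α] at a2; omega
      have a5 : (p n : ℝ) ≤ 2 * (Finset.univ.filter fun y => f (σ (j, true)) y < N).card := by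
        exact_mod_cast a1
      have a6 : (p n : ℝ) ≤ 2 * (Finset.univ.filter fun y => ¬ f (σ (j, false)) y < N).card := by
        exact_mod_cast a4
      have := mul_le_mul a5 a6 (Nat.cast_nonneg _) ((Nat.cast_nonneg _).trans a5)
      linarith
    refine le_trans ?_ (Finset.sum_le_sum fun j _ => h1 j)
    rw [← Finset.sum_mul, Fin.sum_univ_eq_sum_range (fun j => w j ^ 2), Finset.sum_const,
      Finset.card_univ, Fintype.card_prod, ZMod.card, nsmul_eq_mul,
      Finset.sum_congr rfl fun j _ => w_sq j, Nat.cast_mul]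
    nlinarith [sq_nonneg (p n : ℝ)]
  obtain ⟨ab, -, hab⟩ := Finset.exists_le_of_sum_le Finset.univ_nonempty main
  exact ⟨N, ⟨n, ⟨σ, hσ⟩, ab⟩, hab⟩

end Pool.Agent.Lib.helper23.AgB
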