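import Mathlib

set_option autoImplicit false
open Set Filter Topology

namespace Pool.Agent.Lib.helper23.Alm

/-- Gottschalk-Hedlund, along one orbit -/
lemma gh {Z : Type} [TopologicalSpace Z] [CompactSpace Z] [T2Space Z] {T : Z → Z} (hT : Continuous T)
    {φ : Z → ℝ} (hφ : Continuous φ) (x₀ : Z)
    (hmin : ∀ y ∈ closure (range fun n => T^[n] x₀), x₀ ∈ closure (range fun n => T^[n] y))
    {K : ℝ} (hK : ∀ n, |∑ i ∈ Finset.range n, φ (T^[i] x₀)| ≤ K) {η : ℝ} (hη : 0 < η) :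
    ∃ W : Set (Z × Z), IsClosed W ∧ (∀ z, (z, z) ∉ W) ∧ ∀ n m,
      η ≤ |∑ i ∈ Finset.range n, φ (T^[i] x₀) - ∑ i ∈ Finset.range m, φ (T^[i] x₀)| →
        (T^[n] x₀, T^[m] x₀) ∈ W := by
  let S : ℕ → ℝ := fun n => ∑ i ∈ Finset.range n, φ (T^[i] x₀)
  let Γ : Set (Z × ℝ) := closure (range fun n => (T^[n] x₀, S n))
  have hΓ : IsCompact Γ := by
    refine (isCompact_univ.prod (isCompact_Icc (a := -K) (b := K))).of_isClosed_subset
      isClosed_closure (closure_minimal ?_ (isClosed_univ.prod isClosed_Icc))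
    rintro _ ⟨n, rfl⟩
    exact ⟨trivial, abs_le.1 (hK n)⟩
  let F : Z × ℝ → Z × ℝ := fun p => (T p.1, p.2 + φ p.1)
  have hF : Continuous F := by fun_prop
  have hFΓ : MapsTo F Γ Γ := by
    refine MapsTo.closure ?_ hF
    rintro _ ⟨n, rfl⟩
    exact ⟨n + 1, by simp [F, S, Finset.sum_range_succ, Function.iterate_succ_apply']⟩
  let D : Set ((Z × ℝ) × (Z × ℝ)) := (Γ ×ˢ Γ) ∩ {p | p.1.1 = p.2.1}
  have hD : IsCompact D := (hΓ.prod hΓ).inter_right (isClosed_eq (by fun_prop) (by fun_prop))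
  have h0 : (x₀, S 0) ∈ Γ := subset_closure ⟨0, rfl⟩
  obtain ⟨p₀, hp₀, hmax⟩ := hD.exists_isMaxOn ⟨((x₀, S 0), (x₀, S 0)), ⟨h0, h0⟩, rfl⟩
    (f := fun p => p.1.2 - p.2.2) (by fun_prop)
  let c := p₀.1.2 - p₀.2.2
  let G : Set (Z × ℝ) := Γ ∩ {p | (p.1, p.2 - c) ∈ Γ}
  have hG : IsCompact G := hΓ.inter_right (isClosed_closure.preimage (by fun_prop))
  have hFG : MapsTo F G G := by
    intro p hp
    refine ⟨hFΓ hp.1, ?_⟩
    have := hFΓ hp.2
    simp only [F, mem_ofPred_eq] at this ⊢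
    convert this using 2
    ring
  have hFn (n : ℕ) (p : Z × ℝ) (hp : p ∈ G) :
      (T^[n] p.1, p.2 + ∑ i ∈ Finset.range n, φ (T^[i] p.1)) ∈ G := by
    induction n with
    | zero => simpa using hp
    | succ n ih =>
      have := hFG ih
      simp only [F] at this
      rwa [Function.iterate_succ_apply', Finset.sum_range_succ, ← add_assoc]
  have hgraph {y : Z} {s t : ℝ} (h1 : (y, s) ∈ G) (h2 : (y, t) ∈ G) : s ≤ t := by
    have := hmax (a := ((y, s), (y, t - c))) ⟨⟨h1.1, h2.2⟩, rfl⟩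
    simp only [mem_ofPred_eq, c] at this
    linarith
  have hp₀G : p₀.1 ∈ G := by
    refine ⟨hp₀.1.1, ?_⟩
    have := hp₀.1.2
    simp only [mem_ofPred_eq, c, sub_sub_cancel]
    rw [show p₀.1.1 = p₀.2.1 from hp₀.2]
    exact this
  have hx₀ : x₀ ∈ Prod.fst '' G := by
    have h1 : p₀.1.1 ∈ closure (range fun n => T^[n] x₀) := by
      refine map_mem_closure continuous_fst hp₀.1.1 ?_
      rintro _ ⟨n, rfl⟩
      exact ⟨n, rfl⟩
    refine closure_minimal ?_ (hG.image continuous_fst).isClosed (hmin _ h1)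
    rintro _ ⟨n, rfl⟩
    exact ⟨_, hFn n _ hp₀G, rfl⟩
  obtain ⟨⟨x, s₀⟩, hs₀, rfl⟩ := hx₀
  let B : Set ((Z × ℝ) × (Z × ℝ)) := (G ×ˢ G) ∩ {p | η ≤ |p.1.2 - p.2.2|}
  have hB : IsCompact B := (hG.prod hG).inter_right (isClosed_le (by fun_prop) (by fun_prop))
  refine ⟨(fun p => (p.1.1, p.2.1)) '' B, (hB.image (by fun_prop)).isClosed, ?_, fun n m h => ?_⟩
  · rintro z ⟨⟨⟨a, s⟩, ⟨b, t⟩⟩, ⟨⟨h1, h2⟩, h3⟩, e⟩
    simp only [Prod.mk.injEq] at e
    obtain ⟨rfl, rfl⟩ := e
    have := le_antisymm (hgraph h1 h2) (hgraph h2 h1)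
    simp only [mem_ofPred_eq, this, sub_self, abs_zero] at h3
    linarith
  · refine ⟨(_, _), ⟨⟨hFn n _ hs₀, hFn m _ hs₀⟩, ?_⟩, rfl⟩
    simpa using h

noncomputable def tau (d : ℕ) (t : ℝ) : ℝ :=
  if d = 0 then (if 1 ≤ t then t else 1) else if d = 1 then 1 / 2 else if d = 2 then 1
  else if d = 3 then -(1 / 2) else if d = 4 then 2 else if d = 5 then (if 1 ≤ t then 1 else t / 2)
  else 3

noncomputable def s (n : ℕ) : ℝ := if _h : n = 0 then 1 else tau (n % 7) (s (n / 7))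
decreasing_by omega

lemma s_eq (u d : ℕ) (hd : d < 7) : s (7 * u + d) = tau d (s u) := by
  rw [s]
  split_ifs with h
  · have h1 : u = 0 := by omega
    have h2 : d = 0 := by omega
    subst h1 h2
    rw [s]; simp [tau]
  · congr 1
    · omega
    · congr 1; omega

lemma s_zero : s 0 = 1 := by rw [s]; simp

def V (t : ℝ) : Prop := t = 1 ∨ t = 2 ∨ t = 3 ∨ (t ≠ 0 ∧ |t| ≤ 1 / 2)

lemma decomp (n : ℕ) : ∃ u d, d < 7 ∧ n = 7 * u + d := ⟨n / 7, n % 7, by omega, by omega⟩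

lemma sV (n : ℕ) : V (s n) := by
  induction n using Nat.strong_induction_on with
  | _ n ih =>
    rcases Nat.eq_zero_or_pos n with rfl | hn
    · rw [s_zero]; exact Or.inl rfl
    obtain ⟨u, d, hd, rfl⟩ := decomp n
    have h := ih u (by omega)
    rw [s_eq u d hd]
    unfold V at h ⊢
    unfold tau
    split_ifs with h0 h1 h1 h2 h3 h4 h5 h6
    · exact h
    · simp
    · right; right; right; norm_num [abs_of_pos]
    · simp
    · right; right; right; norm_num [abs_of_pos]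
    · simp
    · simp
    · right; right; right
      rcases h with h | h | h | h
      · linarith
      · linarith
      · linarith
      · refine ⟨by simpa using h.1, ?_⟩
        rw [abs_div, abs_two]
        linarith [h.2, abs_nonneg (s u)]
    · simp

lemma small {u d : ℕ} (hd : d < 7) (h : s (7 * u + d) < 1) :
    (d = 1 ∧ s (7 * u + d) = 1 / 2) ∨ (d = 3 ∧ s (7 * u + d) = -(1 / 2)) ∨
      (d = 5 ∧ s u < 1 ∧ s (7 * u + d) = s u / 2) := by
  rw [s_eq u d hd] at h ⊢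
  unfold tau at h ⊢
  split_ifs at h ⊢ with h0 h1 h1 h2 h3 h4 h5 h6 <;> first | linarith | simp_all

lemma rightP (p : ℕ) : ∀ p', s p < 1 → s p' < 1 → s p * s p' < 0 →
    ∃ q, 0 < q ∧ (∀ t, 0 < t → t < q → s (p + t) = s (p' + t)) ∧ 1 ≤ s (p + q) ∧ 1 ≤ s (p' + q) ∧
      s (p + q) ≠ s (p' + q) := by
  induction p using Nat.strong_induction_on with
  | _ p ih =>
    intro p' h1 h2 h3
    obtain ⟨u, d, hd, rfl⟩ := decomp p
    obtain ⟨u', d', hd', rfl⟩ := decomp p'
    by_cases e : d = 5 ∧ d' = 5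
    · obtain ⟨rfl, rfl⟩ := e
      have a1 := small hd h1
      have a2 := small hd h2
      simp only [Nat.reduceEqDiff, false_and, true_and, false_or] at a1 a2
      obtain ⟨q, hq, b1, b2, b3, b4⟩ := ih u (by omega) u' a1.1 a2.1 (by
        rw [a1.2, a2.2] at h3; nlinarith)
      have e1 : 7 * u + 5 + (7 * q - 5) = 7 * (u + q) + 0 := by omega
      have e2 : 7 * u' + 5 + (7 * q - 5) = 7 * (u' + q) + 0 := by omega
      refine ⟨7 * q - 5, by omega, fun t t0 t1 => ?_, ?_⟩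
      · obtain ⟨w, e, he, hw⟩ := decomp (t + 5)
        rw [show 7 * u + 5 + t = 7 * (u + w) + e by omega,
          show 7 * u' + 5 + t = 7 * (u' + w) + e by omega, s_eq _ _ he, s_eq _ _ he]
        rcases Nat.eq_zero_or_pos w with rfl | w0
        · have : e = 6 := by omega
          subst this
          simp [tau]
        · rw [b1 w w0 (by omega)]
      · rw [e1, e2, s_eq _ _ (by norm_num), s_eq _ _ (by norm_num)]
        simp [tau, b2, b3, b4]
    · refine ⟨1, one_pos, fun t a b => by omega, ?_⟩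
      rcases small hd h1 with ⟨rfl, a⟩ | ⟨rfl, a⟩ | ⟨rfl, -, a⟩ <;>
      rcases small hd' h2 with ⟨rfl, b⟩ | ⟨rfl, b⟩ | ⟨rfl, -, b⟩ <;>
      first
        | (exfalso; rw [a, b] at h3; norm_num at h3; done)
        | (exfalso; exact e ⟨rfl, rfl⟩)
        | (rw [add_assoc, add_assoc, s_eq _ _ (by norm_num), s_eq _ _ (by norm_num)]
           norm_num [tau])

lemma sparse (k : ℕ) : ∀ p p', p < p' → |s p| < (1 / 2) ^ k → |s p'| < (1 / 2) ^ k → p + k < p' := by
  induction k with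
  | zero => intro p p' h _ _; exact h
  | succ k ih =>
    intro p p' h h1 h2
    have hk : (1 / 2 : ℝ) ^ (k + 1) ≤ 1 / 2 := by
      rw [pow_succ]
      have : (1 / 2 : ℝ) ^ k ≤ 1 := pow_le_one₀ (by norm_num) (by norm_num)
      linarith
    have key (p : ℕ) (h1 : |s p| < (1 / 2) ^ (k + 1)) : ∃ u, p = 7 * u + 5 ∧ |s u| < (1 / 2) ^ k := by
      obtain ⟨u, d, hd, rfl⟩ := decomp p
      rcases small hd (by linarith [le_abs_self (s (7 * u + d))]) with ⟨rfl, a⟩ | ⟨rfl, a⟩ | ⟨rfl, -, a⟩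
      · rw [a, abs_of_pos (by norm_num)] at h1; linarith
      · rw [a, abs_neg, abs_of_pos (by norm_num)] at h1; linarith
      · refine ⟨u, rfl, ?_⟩
        rw [a, abs_div, abs_two, pow_succ] at h1
        linarith
    obtain ⟨u, rfl, a⟩ := key p h1
    obtain ⟨u', rfl, b⟩ := key p' h2
    have := ih u u' (by omega) a b
    omega

lemma recur (k : ℕ) : ∀ u u', s u = s u' → ∀ j < 7 ^ k, s (7 ^ k * u + j) = s (7 ^ k * u' + j) := by
  induction k with
  | zero => intro u u' h j hj; have : j = 0 := by omega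
            subst this; simpa using h
  | succ k ih =>
    intro u u' h j hj
    obtain ⟨w, e, he, rfl⟩ := decomp j
    rw [show 7 ^ (k + 1) * u + (7 * w + e) = 7 * (7 ^ k * u + w) + e by ring,
      show 7 ^ (k + 1) * u' + (7 * w + e) = 7 * (7 ^ k * u' + w) + e by ring, s_eq _ _ he, s_eq _ _ he,
      ih u u' h w (by rw [pow_succ] at hj; omega)]

lemma recur' (k n : ℕ) : ∃ i ≤ 7 ^ k * 9, ∀ j < k, s (n + i + j) = s j := by
  have hp : 0 < 7 ^ k * 7 := by positivity
  have h1 := Nat.div_add_mod n (7 ^ k * 7)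
  have h2 := Nat.mod_lt n hp
  refine ⟨7 ^ k * 9 - n % (7 ^ k * 7), Nat.sub_le _ _, fun j hj => ?_⟩
  have h3 := recur k (7 * (n / (7 ^ k * 7) + 1) + 2) 0 (by
    rw [s_eq _ _ (by norm_num), s_zero]; simp [tau]) j (hj.trans (Nat.lt_pow_self (by norm_num)))
  rw [mul_zero, zero_add] at h3
  rw [← h3]
  congr 1
  have : 7 ^ k * (7 * (n / (7 ^ k * 7) + 1) + 2) = 7 ^ k * 7 * (n / (7 ^ k * 7)) + 7 ^ k * 9 := by ring
  omega

def P : ℕ → ℕ → ℕ
  | 0, u => u
  | k + 1, u => 7 * P k u + 5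

lemma P_ge (k u : ℕ) : k ≤ P k u := by
  induction k with
  | zero => simp
  | succ k ih => simp only [P]; omega

lemma sP (k u : ℕ) (h : s u < 1) (h0 : |s u| ≤ 1 / 2) : s (P k u) = s u * (1 / 2) ^ k := by
  induction k with
  | zero => simp [P]
  | succ k ih =>
    have h1 : (1 / 2 : ℝ) ^ k ≤ 1 := pow_le_one₀ (by norm_num) (by norm_num)
    have h2 : (0 : ℝ) < (1 / 2 : ℝ) ^ k := by positivity
    have : ¬ 1 ≤ s (P k u) := by
      rw [ih]
      nlinarith [le_abs_self (s u)]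
    rw [P, s_eq _ _ (by norm_num)]
    simp only [tau, Nat.reduceEqDiff, if_false, if_true, this]
    rw [ih]; ring

lemma s_one : s 1 = 1 / 2 := by simpa [tau] using s_eq 0 1 (by norm_num)

lemma s_three : s 3 = -(1 / 2) := by simpa [tau] using s_eq 0 3 (by norm_num)

lemma sP1 (k : ℕ) : s (P k 1) = (1 / 2) ^ (k + 1) := by
  rw [sP k 1 (by rw [s_one]; norm_num) (by rw [s_one, abs_of_pos] <;> norm_num), s_one]; ring

lemma sP3 (k : ℕ) : s (P k 3) = -(1 / 2) ^ (k + 1) := by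
  rw [sP k 3 (by rw [s_three]; norm_num) (by rw [s_three, abs_neg, abs_of_pos] <;> norm_num), s_three]
  ring

lemma agree (k : ℕ) : ∀ n n', n + P k 3 = n' + P k 1 → n ≠ P k 1 → P k 1 ≤ n + k → n ≤ P k 1 + k →
    s n = s n' := by
  induction k with
  | zero => intro n n' _ h1 h2 h3; omega
  | succ k ih =>
    intro n n' h h1 h2 h3
    simp only [P] at h h1 h2 h3
    obtain ⟨w, e, he, rfl⟩ := decomp n
    obtain ⟨w', e', he', rfl⟩ := decomp n'
    have : e = e' := by omega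
    subst this
    rw [s_eq _ _ he, s_eq _ _ he]
    by_cases c : w = P k 1
    · have c' : w' = P k 3 := by omega
      have h1 : (0 : ℝ) < (1 / 2 : ℝ) ^ (k + 1) := by positivity
      have h2 : (1 / 2 : ℝ) ^ (k + 1) < 1 := pow_lt_one₀ (by norm_num) (by norm_num) (by omega)
      have a1 : ¬ 1 ≤ s w := by rw [c, sP1]; linarith
      have a2 : ¬ 1 ≤ s w' := by rw [c', sP3]; linarith
      have : e ≠ 5 := by omega
      simp [tau, a1, a2, this]
    · rw [ih w w' (by omega) c (by omega) (by omega)]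

end Pool.Agent.Lib.helper23.Alm
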