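import Pool.Agent.Lib.helper23.AlmA

set_option autoImplicit false
open Set Filter Topology

namespace Pool.Agent.Lib.helper23.Alm

noncomputable def orb (n : ℕ) : ℕ → ℝ := fun i => s (i + n)

def Kset : Set (ℕ → ℝ) := closure (range orb)

lemma Kcompact : IsCompact Kset := by
  refine (isCompact_univ_pi fun _ : ℕ => isCompact_Icc (a := (-1:ℝ)) (b := 3)).of_isClosed_subset
    isClosed_closure (closure_minimal ?_ (isClosed_set_pi fun _ _ => isClosed_Icc))
  rintro _ ⟨n, rfl⟩ i _
  rcases sV (i + n) with h | h | h | h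
  · simp only [orb, h]; norm_num
  · simp only [orb, h]; norm_num
  · simp only [orb, h]; norm_num
  · have := abs_le.1 h.2
    exact ⟨by simp only [orb]; linarith [this.1], by simp only [orb]; linarith [this.2]⟩

abbrev X : Type := ↥Kset

instance : CompactSpace X := isCompact_iff_compactSpace.1 Kcompact

lemma shift_maps : MapsTo (fun (y : ℕ → ℝ) (i : ℕ) => y (i + 1)) Kset Kset := by
  refine MapsTo.closure ?_ (by fun_prop)
  rintro _ ⟨n, rfl⟩
  exact ⟨n + 1, funext fun i => by simp only [orb]; congr 1; omega⟩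

def T (y : X) : X := ⟨fun i => y.1 (i + 1), shift_maps y.2⟩

lemma ev_cont (i : ℕ) : Continuous fun y : X => y.1 i :=
  (continuous_apply i).comp continuous_subtype_val

lemma T_cont : Continuous T := Continuous.subtype_mk (continuous_pi fun i => ev_cont (i + 1)) _

lemma T_iter (n : ℕ) (y : X) (i : ℕ) : (T^[n] y).1 i = y.1 (i + n) := by
  induction n generalizing y with
  | zero => rfl
  | succ n ih => rw [Function.iterate_succ_apply, ih]; rfl

noncomputable def pt (n : ℕ) : X := ⟨orb n, subset_closure ⟨n, rfl⟩⟩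

lemma T_pt (k n : ℕ) : T^[k] (pt n) = pt (k + n) :=
  Subtype.ext (funext fun i => by rw [T_iter]; simp only [pt, orb, add_assoc])

lemma pt_dense : DenseRange pt := by
  intro y
  rw [closure_subtype, ← range_comp]
  exact y.2

noncomputable def A (n : ℕ) : ℝ := if 0 < s n ∧ s n < 1 then 1 else 0

noncomputable def theta (n : ℕ) (t : ℝ) : ℝ := max 0 (min 1 (min (2 ^ n * t) (2 - 2 * t)))

noncomputable def f (n : ℕ) (y : X) : ℝ := ∑ i ∈ Finset.range n, theta n (y.1 i)

lemma f_cont (n : ℕ) : Continuous (f n) := by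
  have : Continuous (theta n) := by
    unfold theta
    fun_prop
  exact continuous_finsetSum _ fun i _ => this.comp (ev_cont i)

lemma atMostOne (d : ℕ → ℝ) (n : ℕ) (h1 : ∀ i, |d i| ≤ 1)
    (h2 : ∀ i j, i < j → j < n → d i ≠ 0 → d j ≠ 0 → False) : |∑ i ∈ Finset.range n, d i| ≤ 1 := by
  by_cases h : ∃ i < n, d i ≠ 0
  · obtain ⟨i, hi, hd⟩ := h
    rw [Finset.sum_eq_single i]
    · exact h1 i
    · intro j hj hne
      by_contra c
      rcases lt_or_gt_of_ne hne with l | l
      · exact h2 j i l hi c hd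
      · exact h2 i j l (Finset.mem_range.1 hj) hd c
    · intro c; exact absurd (Finset.mem_range.2 hi) c
  · push Not at h
    rw [Finset.sum_eq_zero fun i hi => h i (Finset.mem_range.1 hi)]
    simp

lemma A_mem (p : ℕ) : A p = 0 ∨ A p = 1 := by unfold A; split_ifs <;> simp

lemma theta_A (n p : ℕ) (h : theta n (s p) - A p ≠ 0) : |s p| < (1 / 2) ^ n := by
  by_contra c
  push Not at c
  apply h
  have h2 : (0:ℝ) < 2 ^ n := by positivity
  have h3 : (2:ℝ) ^ n * (1 / 2) ^ n = 1 := by rw [← mul_pow]; norm_num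
  unfold theta A
  by_cases c1 : 1 ≤ s p
  · rw [if_neg (by push Not; intro _; exact c1), sub_zero]
    exact max_eq_left ((min_le_right _ _).trans ((min_le_right _ _).trans (by linarith)))
  by_cases c2 : s p ≤ 0
  · rw [if_neg (by push Not; intro h; linarith), sub_zero]
    exact max_eq_left ((min_le_right _ _).trans ((min_le_left _ _).trans (by nlinarith)))
  push Not at c1 c2
  rw [if_pos ⟨c2, c1⟩, abs_of_pos c2] at *
  have h4 : s p ≤ 1 / 2 := by
    rcases sV p with h | h | h | h
    · linarith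
    · linarith
    · linarith
    · linarith [h.2, le_abs_self (s p)]
  rw [min_eq_left (le_min (by nlinarith) (by linarith))]
  simp

lemma fA (n j : ℕ) : |f n (pt j) - ∑ i ∈ Finset.range n, A (i + j)| ≤ 1 := by
  rw [f, ← Finset.sum_sub_distrib]
  refine atMostOne (fun i => theta n (s (i + j)) - A (i + j)) n (fun i => ?_) fun i i' h1 h2 a b => ?_
  · have a1 : 0 ≤ theta n (s (i + j)) := le_max_left _ _
    have a2 : theta n (s (i + j)) ≤ 1 := max_le zero_le_one (min_le_left _ _)
    rw [abs_le]
    rcases A_mem (i + j) with h | h <;> simp only [h] <;> constructor <;> linarith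
  · have := sparse n _ _ (by omega : i + j < i' + j) (theta_A _ _ a) (theta_A _ _ b)
    omega

lemma alm_add (n m : ℕ) (x : X) : |f (n + m) x - f n x - f m (T^[n] x)| ≤ 3 := by
  refine pt_dense.induction_on x (isClosed_le ?_ continuous_const) fun j => ?_
  · exact (((f_cont _).sub (f_cont _)).sub ((f_cont _).comp (T_cont.iterate n))).abs
  · have h1 := abs_le.1 (fA (n + m) j)
    have h2 := abs_le.1 (fA n j)
    have h3 := abs_le.1 (fA m (n + j))
    rw [Finset.sum_range_add] at h1
    have e : ∑ i ∈ Finset.range m, A (n + i + j) = ∑ i ∈ Finset.range m, A (i + (n + j)) :=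
      Finset.sum_congr rfl fun i _ => by congr 1; omega
    rw [T_pt, abs_le]
    constructor <;> linarith [h1.1, h1.2, h2.1, h2.2, h3.1, h3.2]

lemma gap {p p' : ℕ} (h : |s p - s p'| < 1 / 2) (hA : A p - A p' ≠ 0) :
    s p < 1 ∧ s p' < 1 ∧ s p * s p' < 0 := by
  have h' := abs_lt.1 h
  have v1 := sV p
  have v2 := sV p'
  unfold V at v1 v2
  simp only [abs_le] at v1 v2
  unfold A at hA
  split_ifs at hA with a b b
  · simp at hA
  · have b1 : s p' < 1 := by
      rcases v1 with v | v | v | v <;> linarith [a.2, h'.1]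
    have b2 : s p' < 0 := by
      rcases v2 with v | v | v | v
      · linarith
      · linarith
      · linarith
      · exact lt_of_le_of_ne (not_lt.1 fun c => b ⟨c, b1⟩) v.1
    exact ⟨a.2, b1, mul_neg_of_pos_of_neg a.1 b2⟩
  · have b1 : s p < 1 := by
      rcases v2 with v | v | v | v <;> linarith [b.2, h'.2]
    have b2 : s p < 0 := by
      rcases v1 with v | v | v | v
      · linarith
      · linarith
      · linarith
      · exact lt_of_le_of_ne (not_lt.1 fun c => a ⟨c, b1⟩) v.1
    exact ⟨b1, b.2, mul_neg_of_neg_of_pos b2 b.1⟩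
  · simp at hA

lemma marker_gap {p p' : ℕ} (h1 : 1 ≤ s p) (h2 : 1 ≤ s p') (h : s p ≠ s p') : 1 ≤ |s p - s p'| := by
  have v1 := sV p
  have v2 := sV p'
  unfold V at v1 v2
  simp only [abs_le] at v1 v2
  rcases v1 with v | v | v | v <;> rcases v2 with w | w | w | w <;>
    first
      | (exfalso; linarith [v.2.2])
      | (exfalso; linarith [w.2.2])
      | (exfalso; exact h (v.trans w.symm))
      | (rw [v, w]; norm_num)

lemma bv_orb (n j j' : ℕ) (h : ∀ i < n, |s (i + j) - s (i + j')| < 1 / 2) :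
    |f n (pt j) - f n (pt j')| ≤ 3 := by
  have h0 : |∑ i ∈ Finset.range n, (A (i + j) - A (i + j'))| ≤ 1 := by
    refine atMostOne _ n (fun i => ?_) fun i i' h1 h2 a b => ?_
    · rcases A_mem (i + j) with h | h <;> rcases A_mem (i + j') with h' | h' <;> simp [h, h']
    · obtain ⟨a1, a2, a3⟩ := gap (h i (by omega)) a
      obtain ⟨q, hq, b1, b2, b3, b4⟩ := rightP _ _ a1 a2 a3
      by_cases c : i' - i < q
      · have := b1 (i' - i) (by omega) c
        rw [show i + j + (i' - i) = i' + j by omega, show i + j' + (i' - i) = i' + j' by omega] at this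
        exact b (by simp [A, this])
      · have h3 := h (i + q) (by omega)
        have h4 := marker_gap b2 b3 b4
        rw [show i + q + j = i + j + q by omega, show i + q + j' = i + j' + q by omega] at h3
        linarith
  rw [Finset.sum_sub_distrib] at h0
  have h1 := abs_le.1 (fA n j)
  have h2 := abs_le.1 (fA n j')
  have h3 := abs_le.1 h0
  rw [abs_le]
  constructor <;> linarith [h1.1, h1.2, h2.1, h2.2, h3.1, h3.2]

lemma bv (n : ℕ) (x y : X) (h : ∀ i < n, |x.1 i - y.1 i| < 1 / 2) : |f n x - f n y| ≤ 3 := by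
  let U : Set (X × X) := ⋂ i ∈ Finset.range n, {p | |p.1.1 i - p.2.1 i| < 1 / 2}
  have hU : IsOpen U := isOpen_biInter_finset fun i _ => isOpen_lt
    (((ev_cont i).comp continuous_fst).sub ((ev_cont i).comp continuous_snd)).abs continuous_const
  have hd : Dense (range (Prod.map pt pt)) := pt_dense.prodMap pt_dense
  have hC : IsClosed {p : X × X | |f n p.1 - f n p.2| ≤ 3} :=
    isClosed_le (((f_cont n).comp continuous_fst).sub ((f_cont n).comp continuous_snd)).abs
      continuous_const
  have h1 : (x, y) ∈ U := mem_iInter₂.2 fun i hi => h i (Finset.mem_range.1 hi)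
  refine closure_minimal (s := U ∩ range (Prod.map pt pt)) ?_ hC (hd.open_subset_closure_inter hU h1)
  rintro _ ⟨hp, ⟨j, j'⟩, rfl⟩
  exact bv_orb n j j' fun i hi => mem_iInter₂.1 hp i (Finset.mem_range.2 hi)

lemma sep {Y E : Type} [TopologicalSpace Y] [CompactSpace Y] [MetricSpace E] (c : Y → ℕ → E)
    (hc : Continuous c)
    (hi : Function.Injective c) {W : Set (Y × Y)} (hW : IsClosed W) (hd : ∀ z, (z, z) ∉ W) :
    ∃ N : ℕ, ∀ y z, (∀ i < N, dist (c y i) (c z i) ≤ (1 / 2) ^ N) → (y, z) ∉ W := by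
  obtain ⟨N, hN⟩ := hW.isCompact.elim_directed_family_closed
    (fun N : ℕ => ⋂ i ∈ Finset.range N, {p : Y × Y | dist (c p.1 i) (c p.2 i) ≤ (1 / 2) ^ N})
    (fun N => isClosed_biInter fun i _ => isClosed_le (by fun_prop) continuous_const) (by
      refine eq_empty_of_forall_notMem fun p hp => hd p.1 ?_
      have : p.1 = p.2 := hi (funext fun i => by
        have : dist (c p.1 i) (c p.2 i) ≤ 0 := by
          refine ge_of_tendsto (tendsto_pow_atTop_nhds_zero_of_lt_one (r := (1 / 2 : ℝ)) (by norm_num)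
            (by norm_num)) ?_
          filter_upwards [eventually_gt_atTop i] with N hN
          exact mem_iInter₂.1 (mem_iInter.1 hp.2 N) i (Finset.mem_range.2 hN)
        exact dist_le_zero.1 this)
      have h1 := hp.1
      rwa [show p = (p.1, p.1) from Prod.ext rfl this.symm] at h1)
    (directed_of_isDirected_le fun N M h p hp => mem_iInter₂.2 fun i hi =>
      le_trans (mem_iInter₂.1 hp i (Finset.mem_range.2 ((Finset.mem_range.1 hi).trans_le h)))
        (pow_le_pow_of_le_one (a := (1 / 2 : ℝ)) (by norm_num) (by norm_num) h))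
  refine ⟨N, fun y z h c' => ?_⟩
  have : (y, z) ∈ W ∩ ⋂ i ∈ Finset.range N,
      {p : Y × Y | dist (c p.1 i) (c p.2 i) ≤ (1 / 2 : ℝ) ^ N} :=
    ⟨c', mem_iInter₂.2 fun i hi => h i (Finset.mem_range.1 hi)⟩
  rw [hN] at this
  exact this

abbrev Z : Type := X × (ℕ → Bool)

def TZ (z : Z) : Z := (T z.1, fun i => z.2 (i + 1))

lemma TZ_cont : Continuous TZ := (T_cont.comp continuous_fst).prodMk (by fun_prop)

open Classical in
noncomputable def zp (n : ℕ) : Z := (pt n, fun i => decide (0 < s (i + n) ∧ s (i + n) < 1))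

lemma TZ_iter (k : ℕ) (z : Z) : TZ^[k] z = (T^[k] z.1, fun i => z.2 (i + k)) := by
  induction k generalizing z with
  | zero => rfl
  | succ k ih => rw [Function.iterate_succ_apply, ih]; rfl

lemma TZ_zp (k : ℕ) : TZ^[k] (zp 0) = zp k := by
  rw [TZ_iter]; simp only [zp, T_pt, add_zero]

lemma zmin (y : Z) (hy : y ∈ closure (range fun n => TZ^[n] (zp 0))) :
    zp 0 ∈ closure (range fun n => TZ^[n] y) := by
  have h (k : ℕ) : ∃ i, ∀ j < k, y.1.1 (j + i) = s j ∧ y.2 (j + i) = (zp 0).2 j := by
    have hC : IsClosed (⋃ i ∈ Finset.range (7 ^ k * 9 + 1), ⋂ j ∈ Finset.range k,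
        {z : Z | z.1.1 (j + i) = s j ∧ z.2 (j + i) = (zp 0).2 j}) :=
      isClosed_biUnion_finset fun i _ => isClosed_biInter fun j _ =>
        (isClosed_eq ((ev_cont _).comp continuous_fst) continuous_const).inter
          (isClosed_eq (by fun_prop) continuous_const)
    have := closure_minimal (by
      rintro _ ⟨n, rfl⟩
      obtain ⟨i, hi, h⟩ := recur' k n
      refine mem_iUnion₂.2 ⟨i, Finset.mem_range.2 (by omega), mem_iInter₂.2 fun j hj => ?_⟩
      have := h j (Finset.mem_range.1 hj)
      rw [show n + i + j = j + i + n by omega] at this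
      simp only [TZ_zp]
      simp only [zp, pt, orb, mem_ofPred_eq, this, add_zero, and_self]) hC hy
    obtain ⟨i, _, hi⟩ := mem_iUnion₂.1 this
    exact ⟨i, fun j hj => mem_iInter₂.1 hi j (Finset.mem_range.2 hj)⟩
  choose i hi using h
  refine mem_closure_of_tendsto (f := fun k => TZ^[i k] y) (b := atTop) ?_
    (Eventually.of_forall fun k => ⟨i k, rfl⟩)
  simp only [TZ_iter]
  refine Tendsto.prodMk_nhds ?_ ?_
  · rw [tendsto_subtype_rng, tendsto_pi_nhds]
    intro j
    refine tendsto_const_nhds.congr' ?_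
    filter_upwards [eventually_gt_atTop j] with k hk
    rw [T_iter, (hi k j hk).1]
    rfl
  · rw [tendsto_pi_nhds]
    intro j
    refine tendsto_const_nhds.congr' ?_
    filter_upwards [eventually_gt_atTop j] with k hk
    exact (hi k j hk).2.symm

theorem no_g (g : X → ℝ) (hg : Continuous g) (B : ℝ)
    (hB : ∀ n : ℕ, 1 ≤ n → ∀ x : X, |f n x - ∑ k ∈ Finset.range n, g (T^[k] x)| ≤ B) : False := by
  let b : Bool → ℝ := fun t => if t then 1 else 0
  have hb : Continuous b := continuous_of_discreteTopology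
  let φ : Z → ℝ := fun z => b (z.2 0) - g z.1
  have hφ : Continuous φ := (hb.comp (by fun_prop)).sub (hg.comp continuous_fst)
  have e (i : ℕ) : φ (TZ^[i] (zp 0)) = A i - g (pt i) := by
    rw [TZ_zp]; simp [φ, b, zp, A]
  obtain ⟨W, hW, hd, h⟩ := gh TZ_cont hφ (zp 0) zmin (K := |B| + 1) (η := 1 / 4) (fun n => by
    rcases Nat.eq_zero_or_pos n with rfl | hn
    · simp; positivity
    have h1 := abs_le.1 (hB n hn (pt 0))
    have h2 := abs_le.1 (fA n 0)
    simp only [T_pt, add_zero] at h1 h2
    simp only [e, Finset.sum_sub_distrib]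
    rw [abs_le]
    constructor <;> linarith [h1.1, h1.2, h2.1, h2.2, le_abs_self B]) (by norm_num)
  simp only [e] at h
  simp only [TZ_zp] at h
  obtain ⟨j, hj⟩ := sep (fun (z : Z) (i : ℕ) => (z.1.1 i, b (z.2 i)))
    (continuous_pi fun i => ((ev_cont i).comp continuous_fst).prodMk (hb.comp (by fun_prop)))
    (fun z z' hz => by
      refine Prod.ext (Subtype.ext (funext fun i => congrArg Prod.fst (congrFun hz i)))
        (funext fun i => ?_)
      have : b (z.2 i) = b (z'.2 i) := congrArg Prod.snd (congrFun hz i)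
      revert this
      cases z.2 i <;> cases z'.2 i <;> simp [b]) hW hd
  have hj' (n m : ℕ) (hs : ∀ i < j, s (i + n) = s (i + m)) :
      |∑ i ∈ Finset.range n, (A i - g (pt i)) - ∑ i ∈ Finset.range m, (A i - g (pt i))| < 1 / 4 := by
    by_contra c
    refine hj _ _ (fun i hi => ?_) (h n m (not_lt.1 c))
    simp only [zp, pt, orb, hs i hi, dist_self]
    positivity
  obtain ⟨N, hN⟩ := sep (fun (y : X) (i : ℕ) => y.1 i) continuous_subtype_val Subtype.val_injective
    (W := {p | 1 / 4 / ((j : ℝ) + 1) ≤ |g p.1 - g p.2|})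
    (isClosed_le continuous_const ((hg.comp continuous_fst).sub (hg.comp continuous_snd)).abs)
    (fun z => by simp; positivity)
  obtain ⟨k, hk⟩ : ∃ k, k = j + N := ⟨_, rfl⟩
  obtain ⟨a, ha⟩ : ∃ a, P k 1 = a + j := ⟨P k 1 - j, by have := P_ge k 1; omega⟩
  obtain ⟨a', ha'⟩ : ∃ a, P k 3 = a + j := ⟨P k 3 - j, by have := P_ge k 3; omega⟩
  have ag (t : ℕ) (h1 : t ≠ j) (h2 : t ≤ j + k) : s (t + a) = s (t + a') :=
    agree k _ _ (by omega) (by omega) (by omega) (by omega)
  have h1 := abs_lt.1 (hj' a a' fun i hi => ag i (by omega) (by omega))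
  have h2 := abs_lt.1 (hj' (a + (j + 1)) (a' + (j + 1)) fun i hi => by
    rw [show i + (a + (j + 1)) = i + j + 1 + a by omega,
      show i + (a' + (j + 1)) = i + j + 1 + a' by omega]
    exact ag _ (by omega) (by omega))
  rw [Finset.sum_range_add, Finset.sum_range_add _ a'] at h2
  have h3 : ∑ i ∈ Finset.range (j + 1), (g (pt (a + i)) - g (pt (a' + i))) ≤
      ∑ i ∈ Finset.range (j + 1), 1 / 4 / ((j : ℝ) + 1) := by
    refine Finset.sum_le_sum fun i hi => (le_abs_self _).trans (not_le.1 (hN _ _ fun t ht => ?_)).le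
    have hi := Finset.mem_range.1 hi
    simp only [orb]
    by_cases c : t + i = j
    · rw [show t + (a + i) = P k 1 by omega, show t + (a' + i) = P k 3 by omega, sP1, sP3,
        Real.dist_eq, sub_neg_eq_add, abs_of_pos (by positivity), pow_succ]
      have := pow_le_pow_of_le_one (a := (1 / 2 : ℝ)) (by norm_num) (by norm_num) (show N ≤ k by omega)
      linarith
    · rw [show t + (a + i) = t + i + a by omega, show t + (a' + i) = t + i + a' by omega,
        ag _ c (by omega), dist_self]
      positivity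
  have h4 : ∑ i ∈ Finset.range (j + 1), (A (a + i) - A (a' + i)) = 1 := by
    rw [Finset.sum_range_succ, Finset.sum_eq_zero fun i hi => by
      have hi := Finset.mem_range.1 hi
      simp only [A, add_comm a, add_comm a', ag i (by omega) (by omega), sub_self]]
    have p1 : (0 : ℝ) < (1 / 2 : ℝ) ^ (k + 1) := by positivity
    have p2 : (1 / 2 : ℝ) ^ (k + 1) < 1 := pow_lt_one₀ (by norm_num) (by norm_num) (by omega)
    rw [A, A, ← ha, ← ha', sP1, sP3, if_pos ⟨p1, p2⟩, if_neg (fun c => by linarith [c.1])]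
    norm_num
  simp only [Finset.sum_sub_distrib, Finset.sum_const, Finset.card_range, nsmul_eq_mul] at h1 h2 h3 h4
  have h5 : ((j + 1 : ℕ) : ℝ) * (1 / 4 / ((j : ℝ) + 1)) = 1 / 4 := by
    push_cast; field_simp
  linarith [h1.1, h2.2]

end Pool.Agent.Lib.helper23.Alm
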