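import Mathlib

set_option autoImplicit false
open MeasureTheory Set Filter Topology

namespace Pool.Agent.Lib.helper23.AutA

/-- Lebesgue measure on the unit interval, as a measure on the line. -/
noncomputable abbrev mu : Measure ℝ := volume.restrict (Icc (0:ℝ) 1)

instance : IsProbabilityMeasure mu := ⟨by simp⟩

abbrev G : Type := {e : ℝ ≃ᵐ ℝ // MeasurePreserving (⇑e) mu mu}

lemma ae_mem : ∀ᵐ x ∂mu, x ∈ Icc (0:ℝ) 1 := ae_restrict_mem measurableSet_Icc

lemma integrable_id : Integrable (fun x : ℝ => x) mu :=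
  (continuous_id.integrableOn_Icc : IntegrableOn (fun x : ℝ => x) (Icc (0:ℝ) 1) volume)

lemma mp_integrable {f : ℝ → ℝ} (hf : MeasurePreserving f mu mu) : Integrable f mu :=
  hf.integrable_comp_of_integrable integrable_id

lemma mp_ae_mem {f : ℝ → ℝ} (hf : MeasurePreserving f mu mu) : ∀ᵐ x ∂mu, f x ∈ Icc (0:ℝ) 1 :=
  hf.quasiMeasurePreserving.ae ae_mem

lemma mp_integral {f : ℝ → ℝ} (hf : MeasurePreserving f mu mu) {h : ℝ → ℝ}
    (hh : AEStronglyMeasurable h mu) : ∫ x, h (f x) ∂mu = ∫ x, h x ∂mu := by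
  have := integral_map (μ := mu) hf.measurable.aemeasurable (f := h) (by rw [hf.map_eq]; exact hh)
  rw [hf.map_eq] at this
  exact this.symm

lemma unif_bound {φ : ℝ → ℝ} (hc : Continuous φ) (hs : HasCompactSupport φ) {ε : ℝ} (hε : 0 < ε) :
    ∃ C : ℝ, 0 ≤ C ∧ ∀ a b, |φ a - φ b| ≤ ε + C * |a - b| := by
  have hu := hc.uniformContinuous_of_tendsto_cocompact hs.is_zero_at_infty
  obtain ⟨δ, hδ, h⟩ := Metric.uniformContinuous_iff.1 hu ε hε
  obtain ⟨B, hB⟩ := hc.bounded_above_of_compact_support hs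
  have hB0 : 0 ≤ B := (norm_nonneg _).trans (hB 0)
  refine ⟨2 * B / δ, by positivity, fun a b => ?_⟩
  by_cases hab : |a - b| < δ
  · have := h (a := a) (b := b) (by rwa [Real.dist_eq])
    rw [Real.dist_eq] at this
    have : 0 ≤ 2 * B / δ * |a - b| := by positivity
    linarith
  · push Not at hab
    have h1 : |φ a - φ b| ≤ 2 * B := by
      have ha := hB a
      have hb := hB b
      rw [Real.norm_eq_abs] at ha hb
      have := abs_sub (φ a) (φ b)
      linarith
    have h2 : 2 * B ≤ 2 * B / δ * |a - b| := by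
      rw [div_mul_eq_mul_div, le_div_iff₀ hδ]
      nlinarith
    linarith

lemma key_est {h : ℝ → ℝ} (hh : Integrable h mu) {ε : ℝ} (hε : 0 < ε) :
    ∃ C : ℝ, 0 ≤ C ∧ ∀ S T : ℝ → ℝ, MeasurePreserving S mu mu → MeasurePreserving T mu mu →
      ∫ x, |h (S x) - h (T x)| ∂mu ≤ ε + C * ∫ x, |S x - T x| ∂mu := by
  obtain ⟨φ, hs, hφ, hc, hi⟩ := hh.exists_hasCompactSupport_integral_sub_le (ε := ε / 3) (by positivity)
  obtain ⟨C, hC, hb⟩ := unif_bound hc hs (ε := ε / 3) (by positivity)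
  refine ⟨C, hC, fun S T hS hT => ?_⟩
  have hd : Integrable (fun x => |h x - φ x|) mu := (hh.sub hi).abs
  have e1 : ∫ x, |h (S x) - φ (S x)| ∂mu ≤ ε / 3 := by
    rw [mp_integral hS (h := fun x => |h x - φ x|) hd.aestronglyMeasurable]
    simpa [Real.norm_eq_abs] using hφ
  have e2 : ∫ x, |h (T x) - φ (T x)| ∂mu ≤ ε / 3 := by
    rw [mp_integral hT (h := fun x => |h x - φ x|) hd.aestronglyMeasurable]
    simpa [Real.norm_eq_abs] using hφ
  have i1 : Integrable (fun x => |h (S x) - φ (S x)|) mu := hS.integrable_comp_of_integrable hd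
  have i2 : Integrable (fun x => |h (T x) - φ (T x)|) mu := hT.integrable_comp_of_integrable hd
  have i3 : Integrable (fun x => |S x - T x|) mu := ((mp_integrable hS).sub (mp_integrable hT)).abs
  have i4 : Integrable (fun x => |h (S x) - h (T x)|) mu :=
    ((hS.integrable_comp_of_integrable hh).sub (hT.integrable_comp_of_integrable hh)).abs
  have : ∫ x, |h (S x) - h (T x)| ∂mu ≤
      ∫ x, (|h (S x) - φ (S x)| + |h (T x) - φ (T x)| + (ε / 3 + C * |S x - T x|)) ∂mu := by
    refine integral_mono i4 ((i1.add i2).add ((integrable_const _).add (i3.const_mul C))) fun x => ?_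
    have a1 := hb (S x) (T x)
    have a2 : |h (S x) - h (T x)| ≤ |h (S x) - φ (S x)| + |φ (S x) - φ (T x)| + |h (T x) - φ (T x)| := by
      have := abs_sub_le (h (S x)) (φ (S x)) (h (T x))
      have := abs_sub_le (φ (S x)) (φ (T x)) (h (T x))
      have := abs_sub_comm (φ (T x)) (h (T x))
      linarith
    show _ ≤ _
    linarith
  have j1 : Integrable (fun x => |h (S x) - φ (S x)| + |h (T x) - φ (T x)|) mu := i1.add i2
  have j2 : Integrable (fun x => ε / 3 + C * |S x - T x|) mu :=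
    (integrable_const _).add (i3.const_mul C)
  rw [integral_add j1 j2, integral_add i1 i2,
    integral_add (integrable_const _) (i3.const_mul C), integral_const_mul] at this
  simp only [integral_const, probReal_univ, smul_eq_mul, one_mul] at this
  linarith

/-- a grid point separates two points of the unit interval that are more than `1/M` apart -/
lemma grid {M : ℕ} (hM : 0 < M) {x y : ℝ} (hx : x ∈ Icc (0:ℝ) 1)
    (h : x + 1 / M < y) : ∃ j : ℕ, j ≤ M ∧ x ≤ j / M ∧ (j : ℝ) / M < y := by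
  have hM' : (0:ℝ) < M := by exact_mod_cast hM
  refine ⟨⌈x * M⌉₊, ?_, ?_, ?_⟩
  · refine Nat.ceil_le.2 ?_
    nlinarith [hx.2]
  · rw [le_div_iff₀ hM']
    exact Nat.le_ceil _
  · have h1 : (⌈x * M⌉₊ : ℝ) < x * M + 1 := Nat.ceil_lt_add_one (mul_nonneg hx.1 hM'.le)
    rw [div_lt_iff₀ hM']
    have : (x + 1 / M) * M < y * M := mul_lt_mul_of_pos_right h hM'
    have e : (x + 1 / M) * M = x * M + 1 := by field_simp
    linarith

lemma ind_integral {S T : ℝ → ℝ} (hS : MeasurePreserving S mu mu) (hT : MeasurePreserving T mu mu)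
    {A : Set ℝ} (hA : MeasurableSet A) :
    ∫ x, |A.indicator (fun _ => (1:ℝ)) (S x) - A.indicator (fun _ => (1:ℝ)) (T x)| ∂mu =
      2 * (mu (T ⁻¹' A ∩ T ⁻¹' A)).toReal - 2 * (mu (S ⁻¹' A ∩ T ⁻¹' A)).toReal := by
  have mS := hS.measurable hA
  have mT := hT.measurable hA
  have e : (fun x => |A.indicator (fun _ => (1:ℝ)) (S x) - A.indicator (fun _ => (1:ℝ)) (T x)|) =
      fun x => (S ⁻¹' A).indicator (fun _ => (1:ℝ)) x + (T ⁻¹' A).indicator (fun _ => (1:ℝ)) x
        - 2 * (S ⁻¹' A ∩ T ⁻¹' A).indicator (fun _ => (1:ℝ)) x := by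
    funext x
    by_cases h1 : S x ∈ A <;> by_cases h2 : T x ∈ A <;> simp [indicator, h1, h2]
    norm_num
  have i (B : Set ℝ) (hB : MeasurableSet B) : Integrable (B.indicator (fun _ => (1:ℝ))) mu :=
    (integrable_const _).indicator hB
  have j1 : Integrable (fun x => (S ⁻¹' A).indicator (fun _ => (1:ℝ)) x +
      (T ⁻¹' A).indicator (fun _ => (1:ℝ)) x) mu := (i _ mS).add (i _ mT)
  rw [e, integral_sub j1 ((i _ (mS.inter mT)).const_mul 2),
    integral_add (i _ mS) (i _ mT), integral_const_mul, integral_indicator_const _ mS,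
    integral_indicator_const _ mT, integral_indicator_const _ (mS.inter mT)]
  simp only [smul_eq_mul, mul_one, inter_self, Measure.real]
  rw [hS.measure_preimage hA.nullMeasurableSet, hT.measure_preimage hA.nullMeasurableSet]
  ring

lemma tendsto_L1 {ι : Type} {l : Filter ι} {u : ι → ℝ → ℝ} {t : ℝ → ℝ}
    (hu : ∀ i, MeasurePreserving (u i) mu mu) (ht : MeasurePreserving t mu mu)
    (h : ∀ A B : Set ℝ, MeasurableSet A → MeasurableSet B →
      Tendsto (fun i => (mu (u i ⁻¹' A ∩ B)).toReal) l (𝓝 (mu (t ⁻¹' A ∩ B)).toReal)) :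
    Tendsto (fun i => ∫ x, |u i x - t x| ∂mu) l (𝓝 0) := by
  rw [Metric.tendsto_nhds]
  intro ε hε
  obtain ⟨M, hM⟩ := exists_nat_one_div_lt (half_pos hε)
  let χ : ℕ → ℝ → ℝ := fun j => (Iic ((j : ℝ) / ((M + 1 : ℕ) : ℝ))).indicator (fun _ => (1:ℝ))
  have hχ (j : ℕ) : Integrable (χ j) mu := (integrable_const _).indicator measurableSet_Iic
  have h1 (j : ℕ) : Tendsto (fun i => ∫ x, |χ j (u i x) - χ j (t x)| ∂mu) l (𝓝 0) := by
    simp only [χ, ind_integral (hu _) ht measurableSet_Iic]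
    have := (h (Iic ((j : ℝ) / ((M + 1 : ℕ) : ℝ))) _ measurableSet_Iic
      (ht.measurable (measurableSet_Iic (a := (j : ℝ) / ((M + 1 : ℕ) : ℝ))))).const_mul 2
    have := this.const_sub (2 * (mu (t ⁻¹' (Iic ((j : ℝ) / ((M + 1 : ℕ) : ℝ))) ∩
      t ⁻¹' (Iic ((j : ℝ) / ((M + 1 : ℕ) : ℝ))))).toReal)
    simpa using this
  have h2 : Tendsto (fun i => ∑ j ∈ Finset.range (M + 2), ∫ x, |χ j (u i x) - χ j (t x)| ∂mu) l
      (𝓝 0) := by
    simpa using tendsto_finsetSum (Finset.range (M + 2)) fun j _ => h1 j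
  filter_upwards [h2.eventually (gt_mem_nhds (half_pos hε))] with i hi
  have i3 : Integrable (fun x => |u i x - t x|) mu := ((mp_integrable (hu i)).sub (mp_integrable ht)).abs
  have i4 (j : ℕ) : Integrable (fun x => |χ j (u i x) - χ j (t x)|) mu :=
    (((hu i).integrable_comp_of_integrable (hχ j)).sub (ht.integrable_comp_of_integrable (hχ j))).abs
  have h3 : ∫ x, |u i x - t x| ∂mu ≤ ∫ x, (1 / ((M + 1 : ℕ) : ℝ) +
      ∑ j ∈ Finset.range (M + 2), |χ j (u i x) - χ j (t x)|) ∂mu := by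
    refine integral_mono_ae i3 ((integrable_const _).add (integrable_finsetSum _ fun j _ => i4 j)) ?_
    filter_upwards [mp_ae_mem (hu i), mp_ae_mem ht] with x hx hy
    have hs : 0 ≤ ∑ j ∈ Finset.range (M + 2), |χ j (u i x) - χ j (t x)| :=
      Finset.sum_nonneg fun j _ => abs_nonneg _
    have hp : (0:ℝ) < 1 / ((M + 1 : ℕ) : ℝ) := by positivity
    have h01 : |u i x - t x| ≤ 1 := by
      rw [abs_le]; constructor <;> linarith [hx.1, hx.2, hy.1, hy.2]
    have hone (j : ℕ) (hj : j ≤ M + 1) (hne : |χ j (u i x) - χ j (t x)| = 1) :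
        1 ≤ ∑ j ∈ Finset.range (M + 2), |χ j (u i x) - χ j (t x)| := by
      rw [← hne]
      exact Finset.single_le_sum (f := fun j => |χ j (u i x) - χ j (t x)|)
        (fun j _ => abs_nonneg _) (Finset.mem_range.2 (by omega))
    by_cases c1 : u i x + 1 / ((M + 1 : ℕ) : ℝ) < t x
    · obtain ⟨j, hj, a, b⟩ := grid (Nat.succ_pos M) hx c1
      have := hone j hj (by simp [χ, a, not_le.2 b, -Nat.cast_add])
      linarith
    by_cases c2 : t x + 1 / ((M + 1 : ℕ) : ℝ) < u i x
    · obtain ⟨j, hj, a, b⟩ := grid (Nat.succ_pos M) hy c2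
      have := hone j hj (by simp [χ, a, not_le.2 b, -Nat.cast_add])
      linarith
    · have : |u i x - t x| ≤ 1 / ((M + 1 : ℕ) : ℝ) := by
        rw [abs_le]; constructor <;> linarith
      linarith
  rw [integral_add (integrable_const _) (integrable_finsetSum _ fun j _ => i4 j),
    integral_finsetSum _ fun j _ => i4 j] at h3
  simp only [integral_const, probReal_univ, smul_eq_mul, one_mul] at h3
  rw [Real.dist_eq, sub_zero, abs_of_nonneg (integral_nonneg fun x => abs_nonneg _)]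
  push_cast at h3 hi ⊢
  linarith

lemma meas_diff_le {S T : ℝ → ℝ} (hS : Measurable S) (hT : Measurable T)
    {A B : Set ℝ} (hA : MeasurableSet A) (hB : MeasurableSet B) :
    |(mu (S ⁻¹' A ∩ B)).toReal - (mu (T ⁻¹' A ∩ B)).toReal| ≤
      ∫ x, |A.indicator (fun _ => (1:ℝ)) (S x) - A.indicator (fun _ => (1:ℝ)) (T x)| ∂mu := by
  have i (B : Set ℝ) (hB : MeasurableSet B) : Integrable (B.indicator (fun _ => (1:ℝ))) mu :=
    (integrable_const _).indicator hB
  have mS := (hS hA).inter hB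
  have mT := (hT hA).inter hB
  have e1 : (mu (S ⁻¹' A ∩ B)).toReal - (mu (T ⁻¹' A ∩ B)).toReal =
      ∫ x, ((S ⁻¹' A ∩ B).indicator (fun _ => (1:ℝ)) x - (T ⁻¹' A ∩ B).indicator (fun _ => (1:ℝ)) x) ∂mu := by
    rw [integral_sub (i _ mS) (i _ mT), integral_indicator_const _ mS, integral_indicator_const _ mT]
    simp [Measure.real]
  rw [e1]
  refine (abs_integral_le_integral_abs).trans (integral_mono ((i _ mS).sub (i _ mT)).abs
    ((i _ (hS hA)).sub (i _ (hT hA))).abs fun x => ?_)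
  show _ ≤ _
  by_cases h1 : S x ∈ A <;> by_cases h2 : T x ∈ A <;> by_cases h3 : x ∈ B <;>
    simp [indicator, h1, h2, h3]

/-- pass from an almost everywhere invertible map to a measurable equivalence -/
lemma mk_equiv {f g : ℝ → ℝ} (hf : MeasurePreserving f mu mu) (hg : MeasurePreserving g mu mu)
    (h1 : ∀ᵐ x ∂mu, g (f x) = x) (h2 : ∀ᵐ x ∂mu, f (g x) = x) :
    ∃ e : G, (⇑e.1 =ᵐ[mu] f) ∧ (⇑e.1.symm =ᵐ[mu] g) := by
  classical
  let P : Set ℝ := {x | g (f x) = x ∧ f (g x) = x}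
  have hP : MeasurableSet P :=
    (measurableSet_eq_fun (hg.measurable.comp hf.measurable) measurable_id).inter
      (measurableSet_eq_fun (hf.measurable.comp hg.measurable) measurable_id)
  have hPae : ∀ᵐ x ∂mu, x ∈ P := h1.and h2
  let X : Set ℝ := ⋂ n : ℕ, (f^[n] ⁻¹' P ∩ g^[n] ⁻¹' P)
  have hX : MeasurableSet X := MeasurableSet.iInter fun n =>
    ((hf.measurable.iterate n) hP).inter ((hg.measurable.iterate n) hP)
  have hXae : ∀ᵐ x ∂mu, x ∈ X := by
    simp only [X, mem_iInter]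
    rw [ae_all_iff]
    intro n
    exact ((hf.iterate n).quasiMeasurePreserving.ae hPae).and
      ((hg.iterate n).quasiMeasurePreserving.ae hPae)
  have hXP {x : ℝ} (hx : x ∈ X) : x ∈ P := (mem_iInter.1 hx 0).1
  have hfX {x : ℝ} (hx : x ∈ X) : f x ∈ X := by
    refine mem_iInter.2 fun n => ⟨(mem_iInter.1 hx (n + 1)).1, ?_⟩
    cases n with
    | zero => exact (mem_iInter.1 hx 1).1
    | succ m =>
      show g^[m + 1] (f x) ∈ P
      rw [Function.iterate_succ_apply, (hXP hx).1]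
      exact (mem_iInter.1 hx m).2
  have hgX {x : ℝ} (hx : x ∈ X) : g x ∈ X := by
    refine mem_iInter.2 fun n => ⟨?_, (mem_iInter.1 hx (n + 1)).2⟩
    cases n with
    | zero => exact (mem_iInter.1 hx 1).2
    | succ m =>
      show f^[m + 1] (g x) ∈ P
      rw [Function.iterate_succ_apply, (hXP hx).2]
      exact (mem_iInter.1 hx m).1
  let e : ℝ ≃ᵐ ℝ :=
    { toFun := X.piecewise f id
      invFun := X.piecewise g id
      left_inv := fun x => by
        by_cases hx : x ∈ X
        · rw [piecewise_eq_of_mem _ _ _ hx, piecewise_eq_of_mem _ _ _ (hfX hx), (hXP hx).1]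
        · rw [piecewise_eq_of_notMem _ _ _ hx, id, piecewise_eq_of_notMem _ _ _ hx, id]
      right_inv := fun x => by
        by_cases hx : x ∈ X
        · rw [piecewise_eq_of_mem _ _ _ hx, piecewise_eq_of_mem _ _ _ (hgX hx), (hXP hx).2]
        · rw [piecewise_eq_of_notMem _ _ _ hx, id, piecewise_eq_of_notMem _ _ _ hx, id]
      measurable_toFun := hf.measurable.piecewise hX measurable_id
      measurable_invFun := hg.measurable.piecewise hX measurable_id }
  have e1 : ⇑e =ᵐ[mu] f := by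
    filter_upwards [hXae] with x hx
    exact piecewise_eq_of_mem _ _ _ hx
  have e2 : ⇑e.symm =ᵐ[mu] g := by
    filter_upwards [hXae] with x hx
    exact piecewise_eq_of_mem _ _ _ hx
  exact ⟨⟨e, hf.congr e.measurable e1.symm⟩, e1, e2⟩

end Pool.Agent.Lib.helper23.AutA
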