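import Pool.Agent.Lib.helper23.AutA

set_option autoImplicit false
open MeasureTheory Set Filter Topology

namespace Pool.Agent.Lib.helper23.AutA

noncomputable def toL (f : ℝ → ℝ) (hf : MeasurePreserving f mu mu) : ℝ →₁[mu] ℝ :=
  (mp_integrable hf).toL1 f

lemma toL_coe (f : ℝ → ℝ) (hf : MeasurePreserving f mu mu) : ⇑(toL f hf) =ᵐ[mu] f :=
  Integrable.coeFn_toL1 _

lemma dist_L1 (a b : ℝ →₁[mu] ℝ) {f g : ℝ → ℝ} (ha : ⇑a =ᵐ[mu] f) (hb : ⇑b =ᵐ[mu] g) :
    dist a b = ∫ x, |f x - g x| ∂mu := by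
  rw [L1.dist_eq_integral_dist]
  refine integral_congr_ae ?_
  filter_upwards [ha, hb] with x h1 h2
  rw [h1, h2, Real.dist_eq]

noncomputable def Phi (T : G) : (ℝ →₁[mu] ℝ) × (ℝ →₁[mu] ℝ) :=
  (toL T.1 T.2, toL T.1.symm (T.2.symm T.1))

lemma phi1 (T : G) : ⇑(Phi T).1 =ᵐ[mu] ⇑T.1 := toL_coe _ T.2

lemma phi2 (T : G) : ⇑(Phi T).2 =ᵐ[mu] ⇑T.1.symm := toL_coe _ (T.2.symm T.1)

lemma mp_of_lim (a : ℝ →₁[mu] ℝ)
    (h : ∀ ε > 0, ∃ T : ℝ → ℝ, MeasurePreserving T mu mu ∧ ∫ x, |a x - T x| ∂mu < ε) :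
    MeasurePreserving (⇑a) mu mu := by
  have hm : Measurable (⇑a) := (Lp.stronglyMeasurable a).measurable
  refine ⟨hm, ?_⟩
  have : IsProbabilityMeasure (mu.map a) := Measure.isProbabilityMeasure_map hm.aemeasurable
  refine Measure.ext_of_charFun ?_
  funext t
  have hc : Continuous fun x : ℝ => Complex.exp (t * x * Complex.I) := by fun_prop
  have hb (x : ℝ) : ‖Complex.exp (t * x * Complex.I)‖ = 1 := by
    rw [← Complex.ofReal_mul, Complex.norm_exp_ofReal_mul_I]
  have hi {f : ℝ → ℝ} (hf : Measurable f) :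
      Integrable (fun x => Complex.exp (t * f x * Complex.I)) mu :=
    Integrable.of_bound (hc.measurable.comp hf).aestronglyMeasurable 1
      (Eventually.of_forall fun x => (hb _).le)
  rw [charFun_apply_real, charFun_apply_real, integral_map hm.aemeasurable hc.aestronglyMeasurable]
  refine eq_of_forall_dist_le fun ε hε => ?_
  obtain ⟨T, hT, hd⟩ := h (ε / (|t| + 1)) (by positivity)
  have e1 : ∫ x : ℝ, Complex.exp (t * x * Complex.I) ∂mu =
      ∫ x : ℝ, Complex.exp (t * T x * Complex.I) ∂mu := by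
    have := integral_map (μ := mu) hT.measurable.aemeasurable
      (f := fun x : ℝ => Complex.exp (t * x * Complex.I)) hc.aestronglyMeasurable
    rw [hT.map_eq] at this
    exact this
  rw [e1, dist_eq_norm, ← integral_sub (hi hm) (hi hT.measurable)]
  have i3 : Integrable (fun x => |a x - T x|) mu := ((L1.integrable_coeFn a).sub (mp_integrable hT)).abs
  have : ‖∫ x, (Complex.exp (t * a x * Complex.I) - Complex.exp (t * T x * Complex.I)) ∂mu‖ ≤
      ∫ x, |t| * |a x - T x| ∂mu := by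
    refine norm_integral_le_of_norm_le (i3.const_mul _) (Eventually.of_forall fun x => ?_)
    have e2 : Complex.exp (t * a x * Complex.I) - Complex.exp (t * T x * Complex.I) =
        Complex.exp (t * T x * Complex.I) *
          (Complex.exp (Complex.I * ((t * (a x - T x) : ℝ) : ℂ)) - 1) := by
      rw [mul_sub, mul_one, ← Complex.exp_add]
      congr 2
      push_cast
      ring
    rw [e2, norm_mul, hb, one_mul, ← abs_mul, ← Real.norm_eq_abs]
    exact Real.norm_exp_I_mul_ofReal_sub_one_le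
  rw [integral_const_mul] at this
  have h0 : 0 ≤ ∫ x, |a x - T x| ∂mu := integral_nonneg fun x => abs_nonneg _
  rw [lt_div_iff₀ (by positivity)] at hd
  nlinarith [abs_nonneg t]

lemma comp_of_lim {f g : ℝ → ℝ} (hf : MeasurePreserving f mu mu) (hg : MeasurePreserving g mu mu)
    (h : ∀ ε > 0, ∃ T U : ℝ → ℝ, MeasurePreserving T mu mu ∧ MeasurePreserving U mu mu ∧
      (∀ x, U (T x) = x) ∧ ∫ x, |f x - T x| ∂mu < ε ∧ ∫ x, |g x - U x| ∂mu < ε) :
    ∀ᵐ x ∂mu, g (f x) = x := by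
  have i0 : Integrable (fun x => |g (f x) - x|) mu :=
    ((mp_integrable (hg.comp hf)).sub integrable_id).abs
  have h0 : ∫ x, |g (f x) - x| ∂mu ≤ 0 := by
    refine le_of_forall_pos_le_add fun ε hε => ?_
    obtain ⟨C, hC, hb⟩ := key_est (mp_integrable hg) (half_pos hε)
    obtain ⟨T, U, hT, hU, hUT, h1, h2⟩ := h (ε / 2 / (C + 1)) (by positivity)
    have a1 := hb f T hf hT
    have i1 : Integrable (fun x => |g (f x) - g (T x)|) mu :=
      ((mp_integrable (hg.comp hf)).sub (mp_integrable (hg.comp hT))).abs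
    have i2 : Integrable (fun x => |g x - U x|) mu := ((mp_integrable hg).sub (mp_integrable hU)).abs
    have i3 : Integrable (fun x => |g (T x) - U (T x)|) mu := hT.integrable_comp_of_integrable i2
    have a2 : ∫ x, |g (T x) - U (T x)| ∂mu = ∫ x, |g x - U x| ∂mu :=
      mp_integral hT (h := fun x => |g x - U x|) i2.aestronglyMeasurable
    have a3 : ∫ x, |g (f x) - x| ∂mu ≤ ∫ x, (|g (f x) - g (T x)| + |g (T x) - U (T x)|) ∂mu := by
      refine integral_mono i0 (i1.add i3) fun x => ?_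
      show _ ≤ _
      rw [hUT]
      exact abs_sub_le _ _ _
    rw [integral_add i1 i3, a2] at a3
    rw [lt_div_iff₀ (by positivity)] at h1 h2
    have b1 : 0 ≤ ∫ x, |f x - T x| ∂mu := integral_nonneg fun x => abs_nonneg _
    have b2 : 0 ≤ ∫ x, |g x - U x| ∂mu := integral_nonneg fun x => abs_nonneg _
    rcases le_total (∫ x, |f x - T x| ∂mu) (∫ x, |g x - U x| ∂mu) with c | c <;> nlinarith
  have h1 : ∫ x, |g (f x) - x| ∂mu = 0 := le_antisymm h0 (integral_nonneg fun x => abs_nonneg _)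
  rw [integral_eq_zero_iff_of_nonneg (fun x => abs_nonneg _) i0] at h1
  filter_upwards [h1] with x hx
  simpa [sub_eq_zero] using hx

lemma closed_range : IsClosed (range Phi) := by
  refine isClosed_of_closure_subset fun p hp => ?_
  rw [Metric.mem_closure_iff] at hp
  have h (ε : ℝ) (hε : 0 < ε) : ∃ T : G, ∫ x, |p.1 x - T.1 x| ∂mu < ε ∧
      ∫ x, |p.2 x - T.1.symm x| ∂mu < ε := by
    obtain ⟨_, ⟨T, rfl⟩, hT⟩ := hp ε hε
    rw [Prod.dist_eq, max_lt_iff] at hT
    refine ⟨T, ?_, ?_⟩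
    · rw [← dist_L1 p.1 (Phi T).1 (EventuallyEq.refl _ _) (phi1 T)]
      exact hT.1
    · rw [← dist_L1 p.2 (Phi T).2 (EventuallyEq.refl _ _) (phi2 T)]
      exact hT.2
  have h1 : MeasurePreserving (⇑p.1) mu mu := mp_of_lim _ fun ε hε =>
    let ⟨T, a, _⟩ := h ε hε; ⟨T.1, T.2, a⟩
  have h2 : MeasurePreserving (⇑p.2) mu mu := mp_of_lim _ fun ε hε =>
    let ⟨T, _, a⟩ := h ε hε; ⟨T.1.symm, T.2.symm T.1, a⟩
  obtain ⟨e, e1, e2⟩ := mk_equiv h1 h2
    (comp_of_lim h1 h2 fun ε hε => let ⟨T, a, b⟩ := h ε hε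
      ⟨T.1, T.1.symm, T.2, T.2.symm T.1, T.1.symm_apply_apply, a, b⟩)
    (comp_of_lim h2 h1 fun ε hε => let ⟨T, a, b⟩ := h ε hε
      ⟨T.1.symm, T.1, T.2.symm T.1, T.2, T.1.apply_symm_apply, b, a⟩)
  exact ⟨e, Prod.ext (Lp.ext ((phi1 e).trans e1)) (Lp.ext ((phi2 e).trans e2))⟩

lemma top_eq (τ : TopologicalSpace G)
    (hτ : τ = ⨅ (A : Set ℝ) (_ : MeasurableSet A) (B : Set ℝ) (_ : MeasurableSet B),
      TopologicalSpace.induced (fun T : G => (mu ((⇑T.1) ⁻¹' A ∩ B)).toReal)
        (inferInstance : TopologicalSpace ℝ)) :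
    τ = TopologicalSpace.induced Phi inferInstance := by
  refine le_antisymm ?_ ?_
  · rw [← continuous_iff_le_induced]
    have hc (A B : Set ℝ) (hA : MeasurableSet A) (hB : MeasurableSet B) :
        Continuous (fun T : G => (mu ((⇑T.1) ⁻¹' A ∩ B)).toReal) := by
      rw [continuous_iff_le_induced, hτ]
      exact (iInf₂_le A hA).trans (iInf₂_le B hB)
    refine continuous_iff_continuousAt.2 fun T => ?_
    refine Tendsto.prodMk_nhds ?_ ?_
    · rw [tendsto_iff_dist_tendsto_zero]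
      simp only [dist_L1 _ _ (toL_coe _ _) (toL_coe _ _)]
      exact tendsto_L1 (u := fun S : G => ⇑S.1) (fun S => S.2) T.2 fun A B hA hB =>
        (hc A B hA hB).tendsto T
    · rw [tendsto_iff_dist_tendsto_zero]
      simp only [dist_L1 _ _ (toL_coe _ _) (toL_coe _ _)]
      refine tendsto_L1 (u := fun S : G => ⇑S.1.symm) (fun S => S.2.symm S.1) (T.2.symm T.1)
        fun A B hA hB => ?_
      have e (S : G) : mu (⇑S.1.symm ⁻¹' A ∩ B) = mu (⇑S.1 ⁻¹' B ∩ A) := by
        rw [← S.2.measure_preimage ((S.1.symm.measurable hA).inter hB).nullMeasurableSet]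
        congr 1
        ext x
        simp [and_comm]
      simp only [e]
      exact (hc B A hB hA).tendsto T
  · rw [hτ]
    refine le_iInf₂ fun A hA => le_iInf₂ fun B hB => ?_
    let _ : PseudoMetricSpace G := PseudoMetricSpace.induced Phi inferInstance
    rw [← continuous_iff_le_induced]
    refine Metric.continuous_iff.2 fun T ε hε => ?_
    obtain ⟨C, hC, hb⟩ := key_est (h := A.indicator fun _ => (1:ℝ))
      ((integrable_const _).indicator hA) (half_pos hε)
    refine ⟨ε / 2 / (C + 1), by positivity, fun S hS => ?_⟩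
    have h1 : dist (Phi S).1 (Phi T).1 < ε / 2 / (C + 1) :=
      lt_of_le_of_lt (le_max_left _ _) (show max (dist (Phi S).1 (Phi T).1)
        (dist (Phi S).2 (Phi T).2) < _ from hS)
    rw [dist_L1 _ _ (phi1 S) (phi1 T), lt_div_iff₀ (by positivity)] at h1
    have h2 := meas_diff_le S.2.measurable T.2.measurable hA hB
    have h3 := hb S.1 T.1 S.2 T.2
    have b1 : 0 ≤ ∫ x, |S.1 x - T.1 x| ∂mu := integral_nonneg fun x => abs_nonneg _
    rw [Real.dist_eq]
    nlinarith

lemma not_meagre : ¬ @IsMeagre G (TopologicalSpace.induced Phi inferInstance) univ := by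
  let _ : PseudoMetricSpace G := PseudoMetricSpace.induced Phi inferInstance
  have hu : IsUniformInducing Phi := ⟨rfl⟩
  have : CompleteSpace G := hu.completeSpace closed_range.isComplete
  exact not_isMeagre_of_isOpen isOpen_univ ⟨⟨MeasurableEquiv.refl ℝ, MeasurePreserving.id _⟩, trivial⟩

/-- indicator of an interval as an element of `L¹` -/
noncomputable def ind (p : ℝ × ℝ) : ℝ →₁[mu] ℝ :=
  indicatorConstLp 1 (measurableSet_Ioc (a := p.1) (b := p.2)) (measure_ne_top _ _) (1:ℝ)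

lemma ind_cont : Continuous ind := by
  refine continuous_indicatorConstLp_set ENNReal.one_ne_top fun p => ?_
  have hle (q : ℝ × ℝ) : mu (symmDiff (Ioc q.1 q.2) (Ioc p.1 p.2)) ≤
      ENNReal.ofReal (|q.1 - p.1|) + ENNReal.ofReal (|q.2 - p.2|) := by
    have : symmDiff (Ioc q.1 q.2) (Ioc p.1 p.2) ⊆ uIcc p.1 q.1 ∪ uIcc p.2 q.2 := by
      intro x hx
      simp only [mem_symmDiff, mem_Ioc, mem_union, mem_uIcc, not_and_or, not_lt, not_le] at hx ⊢
      rcases hx with ⟨⟨a, b⟩, c | c⟩ | ⟨⟨a, b⟩, c | c⟩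
      · exact Or.inl (Or.inr ⟨a.le, c⟩)
      · exact Or.inr (Or.inl ⟨c.le, b⟩)
      · exact Or.inl (Or.inl ⟨a.le, c⟩)
      · exact Or.inr (Or.inr ⟨c.le, b⟩)
    refine (measure_mono this).trans ((measure_union_le _ _).trans (add_le_add ?_ ?_)) <;>
    · rw [← Real.volume_interval]
      exact Measure.restrict_apply_le _ _
  have hc : Continuous fun q : ℝ × ℝ =>
      ENNReal.ofReal (|q.1 - p.1|) + ENNReal.ofReal (|q.2 - p.2|) :=
    (ENNReal.continuous_ofReal.comp (by fun_prop)).add (ENNReal.continuous_ofReal.comp (by fun_prop))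
  have := hc.tendsto p
  simp only [sub_self, abs_zero, ENNReal.ofReal_zero, add_zero] at this
  exact tendsto_of_tendsto_of_tendsto_of_le_of_le tendsto_const_nhds this (fun _ => zero_le) hle

/-- step functions with `N` steps -/
def steps (N : ℕ) : Set (ℝ →₁[mu] ℝ) :=
  (fun w : Fin N → ℝ × ℝ × ℝ => ∑ j, (w j).1 • ind (w j).2) ''
    (univ.pi fun _ => Icc (0:ℝ) 1 ×ˢ (Icc (0:ℝ) 1 ×ˢ Icc (0:ℝ) 1))

lemma steps_compact (N : ℕ) : IsCompact (steps N) := by
  refine (isCompact_univ_pi fun _ => isCompact_Icc.prod (isCompact_Icc.prod isCompact_Icc)).image ?_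
  refine continuous_finsetSum _ fun j _ => ?_
  have h1 : Continuous fun w : Fin N → ℝ × ℝ × ℝ => (w j).1 := by fun_prop
  have h2 : Continuous fun w : Fin N → ℝ × ℝ × ℝ => (w j).2 := by fun_prop
  exact h1.smul (ind_cont.comp h2)

def core (N : ℕ → ℕ) : Set (ℝ →₁[mu] ℝ) := ⋂ n : ℕ, Metric.cthickening (1 / ((n:ℝ) + 1)) (steps (N n))

lemma core_compact (N : ℕ → ℕ) : IsCompact (core N) := by
  refine TotallyBounded.isCompact_of_isClosed ?_ (isClosed_iInter fun n => Metric.isClosed_cthickening)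
  rw [Metric.totallyBounded_iff]
  intro ε hε
  obtain ⟨n, hn⟩ := exists_nat_one_div_lt (half_pos hε)
  obtain ⟨t, ht, hs⟩ := Metric.totallyBounded_iff.1 (steps_compact (N n)).totallyBounded _ (half_pos hε)
  refine ⟨t, ht, fun a ha => ?_⟩
  have h1 := Metric.cthickening_subset_thickening' (half_pos hε) hn _ (mem_iInter.1 ha n)
  obtain ⟨z, hz, hd⟩ := Metric.mem_thickening_iff.1 h1
  obtain ⟨y, hy, hzy⟩ := mem_iUnion₂.1 (hs hz)
  refine mem_iUnion₂.2 ⟨y, hy, ?_⟩
  rw [Metric.mem_ball] at hzy ⊢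
  linarith [dist_triangle a z y]

lemma K_compact (N : ℕ → ℕ) :
    @IsCompact G (TopologicalSpace.induced Phi inferInstance) (Phi ⁻¹' (core N ×ˢ core N)) := by
  let _ : TopologicalSpace G := TopologicalSpace.induced Phi inferInstance
  exact (IsInducing.mk rfl).isCompact_preimage closed_range ((core_compact N).prod (core_compact N))

end Pool.Agent.Lib.helper23.AutA
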