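import Pool.Agent.Lib.helper23.AutB

set_option autoImplicit false
open MeasureTheory Set Filter Topology ProbabilityTheory

namespace Pool.Agent.Lib.helper23.AutA

noncomputable def code (f : ℤ × ℚ → Bool) : ℝ :=
  Cardinal.cantorFunction (1 / 3) fun k => f ((Denumerable.eqv (ℤ × ℚ)).symm k)

lemma aux_le (f : ℕ → Bool) (n : ℕ) : Cardinal.cantorFunctionAux (1 / 3) f n ≤ (1 / 3) ^ n := by
  cases h : f n <;> simp [h]

lemma code_cont : Continuous code := by
  refine continuous_tsum (u := fun n => (1 / 3 : ℝ) ^ n) (fun n => ?_)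
    (summable_geometric_of_lt_one (by norm_num) (by norm_num)) fun n f => ?_
  · exact (continuous_of_discreteTopology (f := fun b : Bool => cond b ((1 / 3 : ℝ) ^ n) 0)).comp
      (continuous_apply _)
  · rw [Real.norm_eq_abs, abs_of_nonneg (Cardinal.cantorFunctionAux_nonneg (by norm_num))]
    exact aux_le _ _

lemma code_inj : Function.Injective code := by
  intro f g h
  have := Cardinal.cantorFunction_injective (c := 1 / 3) (by norm_num) (by norm_num) h
  funext p
  simpa using congrFun this (Denumerable.eqv (ℤ × ℚ) p)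

lemma code_mem (f : ℤ × ℚ → Bool) : code f ∈ Icc (0:ℝ) 2 := by
  refine ⟨tsum_nonneg fun n => Cardinal.cantorFunctionAux_nonneg (by norm_num), ?_⟩
  have := (Cardinal.summable_cantor_function (c := 1 / 3)
    (fun k => f ((Denumerable.eqv (ℤ × ℚ)).symm k)) (by norm_num) (by norm_num)).tsum_le_tsum
    (aux_le _) (summable_geometric_of_lt_one (by norm_num) (by norm_num))
  rw [tsum_geometric_of_lt_one (by norm_num) (by norm_num)] at this
  refine this.trans (by norm_num)

lemma code_sep (s : Finset (ℤ × ℚ)) :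
    ∃ δ > 0, ∀ f g, |code f - code g| < δ → ∀ k ∈ s, f k = g k := by
  let W : Set ((ℤ × ℚ → Bool) × (ℤ × ℚ → Bool)) := ⋃ k ∈ s, {p | p.1 k = !(p.2 k)}
  have hW : IsCompact W := by
    refine IsClosed.isCompact (isClosed_biUnion_finset fun k _ => isClosed_eq ?_ ?_)
    · fun_prop
    · exact (continuous_of_discreteTopology (f := fun b : Bool => !b)).comp (by fun_prop)
  have hc : Continuous fun p : (ℤ × ℚ → Bool) × (ℤ × ℚ → Bool) => |code p.1 - code p.2| :=
    ((code_cont.comp continuous_fst).sub (code_cont.comp continuous_snd)).abs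
  obtain ⟨δ, hδ, h⟩ := hW.exists_forall_le' (a := 0) hc.continuousOn (by
    intro p hp
    obtain ⟨k, _, hk⟩ := mem_iUnion₂.1 hp
    refine abs_pos.2 (sub_ne_zero.2 fun e => ?_)
    have := congrFun (code_inj e) k
    simp [this] at hk)
  refine ⟨δ, hδ, fun f g hfg k hk => ?_⟩
  by_contra hne
  have := h (f, g) (mem_iUnion₂.2 ⟨k, hk, by
    show f k = !(g k)
    cases hf : f k <;> cases hg : g k <;> simp_all⟩)
  linarith

lemma code_close {δ : ℝ} (hδ : 0 < δ) :
    ∃ s : Finset (ℤ × ℚ), ∀ f g, (∀ k ∈ s, f k = g k) → |code f - code g| < δ := by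
  have hc : Continuous fun p : (ℤ × ℚ → Bool) × (ℤ × ℚ → Bool) => |code p.1 - code p.2| :=
    ((code_cont.comp continuous_fst).sub (code_cont.comp continuous_snd)).abs
  have hW : IsCompact {p : (ℤ × ℚ → Bool) × (ℤ × ℚ → Bool) | δ ≤ |code p.1 - code p.2|} :=
    (isClosed_le continuous_const hc).isCompact
  obtain ⟨s, hs⟩ := hW.elim_finite_subfamily_closed
    (fun k : ℤ × ℚ => {p : (ℤ × ℚ → Bool) × (ℤ × ℚ → Bool) | p.1 k = p.2 k})
    (fun k => isClosed_eq (by fun_prop) (by fun_prop)) (by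
      refine eq_empty_of_forall_notMem fun p hp => ?_
      have e : p.1 = p.2 := funext fun k => mem_iInter.1 hp.2 k
      have := hp.1
      simp only [mem_ofPred_eq, e, sub_self, abs_zero] at this
      linarith)
  refine ⟨s, fun f g h => ?_⟩
  by_contra hne
  have : (f, g) ∈ ({p : (ℤ × ℚ → Bool) × (ℤ × ℚ → Bool) | δ ≤ |code p.1 - code p.2|} ∩
      ⋂ k ∈ s, {p : (ℤ × ℚ → Bool) × (ℤ × ℚ → Bool) | p.1 k = p.2 k}) :=
    ⟨not_lt.1 hne, mem_iInter₂.2 h⟩
  rw [hs] at this
  exact this

/-- probability integral transform -/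
lemma pit (ν : Measure ℝ) [IsProbabilityMeasure ν] [NullSingletonClass ν] :
    MeasurePreserving (cdf ν) ν mu := by
  have hm : Measurable (cdf ν) := (monotone_cdf ν).measurable
  refine ⟨hm, ?_⟩
  have : IsProbabilityMeasure (ν.map (cdf ν)) := Measure.isProbabilityMeasure_map hm.aemeasurable
  refine Measure.ext_of_Iic _ _ fun t => ?_
  rw [Measure.map_apply hm measurableSet_Iic, Measure.restrict_apply measurableSet_Iic]
  rcases lt_or_ge t 0 with h0 | h0
  · have e1 : cdf ν ⁻¹' Iic t = ∅ :=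
      eq_empty_of_forall_notMem fun s hs => by
        linarith [cdf_nonneg ν s, (show cdf ν s ≤ t from hs)]
    have e2 : Iic t ∩ Icc (0:ℝ) 1 = ∅ :=
      eq_empty_of_forall_notMem fun s hs => by linarith [hs.2.1, mem_Iic.1 hs.1]
    rw [e1, e2]; simp
  rcases le_or_gt 1 t with h1 | h1
  · have e1 : cdf ν ⁻¹' Iic t = univ :=
      eq_univ_of_forall fun s => (cdf_le_one ν s).trans h1
    have e2 : Iic t ∩ Icc (0:ℝ) 1 = Icc 0 1 :=
      inter_eq_right.2 fun s hs => hs.2.trans h1
    rw [e1, e2]; simp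
  have e2 : Iic t ∩ Icc (0:ℝ) 1 = Icc 0 t := by
    ext s
    simp only [mem_inter_iff, mem_Iic, mem_Icc]
    constructor
    · rintro ⟨a, b, _⟩; exact ⟨b, a⟩
    · rintro ⟨a, b⟩; exact ⟨b, a, by linarith⟩
  rw [e2, Real.volume_Icc, sub_zero]
  rcases eq_empty_or_nonempty (cdf ν ⁻¹' Iic t) with he | hne
  · have : t ≤ 0 := ge_of_tendsto' (tendsto_cdf_atBot ν) fun s => by
      by_contra hlt
      have : s ∈ cdf ν ⁻¹' Iic t := (not_le.1 hlt).le
      rw [he] at this
      exact this
    rw [he, ENNReal.ofReal_of_nonpos this]; simp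
  have hb : BddAbove (cdf ν ⁻¹' Iic t) := by
    obtain ⟨b, hb⟩ := eventually_atTop.1 ((tendsto_cdf_atTop ν).eventually (lt_mem_nhds h1))
    refine ⟨b, fun s hs => ?_⟩
    by_contra hlt
    have := hb s (not_le.1 hlt).le
    linarith [(show cdf ν s ≤ t from hs)]
  obtain ⟨m, hmm⟩ : ∃ m, IsLUB (cdf ν ⁻¹' Iic t) m := ⟨_, isLUB_csSup hne hb⟩
  have s1 : Iio m ⊆ cdf ν ⁻¹' Iic t := fun s hs => by
    obtain ⟨r, hr, hsr, _⟩ := hmm.exists_between hs
    exact (monotone_cdf ν hsr.le).trans hr
  have s2 : cdf ν ⁻¹' Iic t ⊆ Iic m := hmm.1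
  have a1 : t ≤ cdf ν m := by
    have := ((cdf ν).right_continuous m).mono Ioi_subset_Ici_self
    refine ge_of_tendsto this ?_
    filter_upwards [self_mem_nhdsWithin] with s hs
    by_contra hlt
    exact not_le.2 (show m < s from hs) (show s ≤ m from s2 (not_le.1 hlt).le)
  have a2 : cdf ν m ≤ t := by
    have z := (cdf ν).measure_singleton m
    rw [measure_cdf, measure_singleton] at z
    have z1 := ENNReal.ofReal_eq_zero.1 z.symm
    have z2 : Function.leftLim (cdf ν) m ≤ t := by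
      refine le_of_tendsto ((monotone_cdf ν).tendsto_leftLim m) ?_
      filter_upwards [self_mem_nhdsWithin] with s hs
      exact s1 hs
    linarith
  have a3 : ν (Iic m) = ENNReal.ofReal t := by rw [← ofReal_cdf, le_antisymm a2 a1]
  refine le_antisymm ((measure_mono s2).trans a3.le) (le_trans ?_ (measure_mono s1))
  rw [measure_congr Iio_ae_eq_Iic, a3]

lemma cdf_good (ν : Measure ℝ) [IsProbabilityMeasure ν] [NullSingletonClass ν] :
    ∀ᵐ s ∂ν, ∀ q : ℚ, (q : ℝ) < s → cdf ν q < cdf ν s := by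
  rw [ae_all_iff]
  intro q
  let U : Set ℝ := {s | (q : ℝ) < s ∧ cdf ν s ≤ cdf ν q}
  have hU : ν U = 0 := by
    have : U ⊆ (⋃ r : {r : ℚ // cdf ν r ≤ cdf ν q}, Ioc (q : ℝ) r.1) ∪ {s | IsGreatest U s} := by
      intro s hs
      by_cases hg : IsGreatest U s
      · exact Or.inr hg
      · left
        have : ∃ s' ∈ U, s < s' := by
          by_contra hn
          push Not at hn
          exact hg ⟨hs, hn⟩
        obtain ⟨s', hs', hlt⟩ := this
        obtain ⟨r, h1, h2⟩ := exists_rat_btwn hlt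
        exact mem_iUnion.2 ⟨⟨r, (monotone_cdf ν h2.le).trans hs'.2⟩, hs.1, h1.le⟩
    refine measure_mono_null this (measure_union_null (measure_iUnion_null fun r => ?_) ?_)
    · have z := (cdf ν).measure_Ioc q r.1
      rw [measure_cdf] at z
      rw [z, ENNReal.ofReal_eq_zero]
      linarith [r.2]
    · exact Set.Subsingleton.measure_zero (fun a ha b hb => ha.unique hb) _
  rw [ae_iff]
  refine measure_mono_null (fun s hs => ?_) hU
  simpa [U] using hs

end Pool.Agent.Lib.helper23.AutA
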