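import Pool.Agent.Lib.helper23.AutC

set_option autoImplicit false
open MeasureTheory Set Filter Topology ProbabilityTheory

namespace Pool.Agent.Lib.helper23.AutA

noncomputable def orb (T : G) (n : ℤ) : ℝ → ℝ := ⇑((T.1.toEquiv : Equiv.Perm ℝ) ^ n)

lemma orb_zero (T : G) (x : ℝ) : orb T 0 x = x := by simp [orb]

lemma orb_add (T : G) (m n : ℤ) (x : ℝ) : orb T (m + n) x = orb T m (orb T n x) := by
  simp [orb, zpow_add]

lemma orb_one (T : G) (x : ℝ) : orb T 1 x = T.1 x := by simp [orb]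

lemma orb_neg_one (T : G) (x : ℝ) : orb T (-1) x = T.1.symm x := by
  simp [orb, Equiv.Perm.inv_def]

lemma orb_meas (T : G) (n : ℤ) : Measurable (orb T n) := by
  induction n using Int.induction_on with
  | zero =>
    have : orb T 0 = id := funext (orb_zero T)
    rw [this]; exact measurable_id
  | succ n ih =>
    have : orb T (n + 1) = orb T n ∘ T.1 := funext fun x => by
      rw [orb_add, orb_one]; rfl
    rw [this]; exact ih.comp T.1.measurable
  | pred n ih =>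
    have : orb T (-n - 1) = orb T (-n) ∘ T.1.symm := funext fun x => by
      rw [sub_eq_add_neg, orb_add, orb_neg_one]; rfl
    rw [this]; exact ih.comp T.1.symm.measurable

open Classical in
noncomputable def bits (T : G) (x : ℝ) : ℤ × ℚ → Bool := fun p => decide (orb T p.1 x ≤ p.2)

noncomputable def psi (T : G) (x : ℝ) : ℝ := code (bits T x)

lemma psi_meas (T : G) : Measurable (psi T) := by
  refine code_cont.measurable.comp (measurable_pi_lambda _ fun p => ?_)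
  refine measurable_to_bool ?_
  have : (fun x => bits T x p) ⁻¹' {true} = orb T p.1 ⁻¹' Iic p.2 := by
    ext x; simp [bits]
  rw [this]
  exact orb_meas T _ measurableSet_Iic

lemma psi_inj (T : G) : Function.Injective (psi T) := by
  intro x y h
  have h1 := code_inj h
  have h2 (q : ℚ) : x ≤ q ↔ y ≤ q := by
    simpa [bits, orb_zero] using congrFun h1 (0, q)
  rcases lt_trichotomy x y with c | c | c
  · obtain ⟨q, a, b⟩ := exists_rat_btwn c
    exact absurd ((h2 q).1 a.le) (not_le.2 b)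
  · exact c
  · obtain ⟨q, a, b⟩ := exists_rat_btwn c
    exact absurd ((h2 q).2 a.le) (not_le.2 b)

noncomputable def nu (T : G) : Measure ℝ := mu.map (psi T)

instance (T : G) : IsProbabilityMeasure (nu T) :=
  Measure.isProbabilityMeasure_map (psi_meas T).aemeasurable

instance (T : G) : NullSingletonClass (nu T) := ⟨fun s => by
  rw [nu, Measure.map_apply (psi_meas T) (measurableSet_singleton s)]
  exact (Set.subsingleton_singleton.preimage (psi_inj T)).measure_zero _⟩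

lemma psi_mp (T : G) : MeasurePreserving (psi T) mu (nu T) := ⟨psi_meas T, rfl⟩

noncomputable def R0 (T : G) (x : ℝ) : ℝ := cdf (nu T) (psi T x)

lemma R0_mp (T : G) : MeasurePreserving (R0 T) mu mu := (pit (nu T)).comp (psi_mp T)

lemma good (T : G) : ∀ᵐ x ∂mu, ∀ q : ℚ, (q : ℝ) < psi T x → cdf (nu T) q < R0 T x :=
  (psi_mp T).quasiMeasurePreserving.ae (cdf_good (nu T))

lemma exists_R (T : G) : ∃ R : G, ⇑R.1 =ᵐ[mu] R0 T := by
  classical
  let X : Set ℝ := {x | ∀ q : ℚ, (q : ℝ) < psi T x → cdf (nu T) q < R0 T x}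
  have hX : MeasurableSet X := by
    have : X = ⋂ q : ℚ, ((psi T ⁻¹' Ioi q)ᶜ ∪ R0 T ⁻¹' Ioi (cdf (nu T) q)) := by
      ext x
      simp only [X, mem_ofPred_eq, mem_iInter, mem_union, mem_compl_iff, mem_preimage, mem_Ioi,
        imp_iff_not_or]
    rw [this]
    exact MeasurableSet.iInter fun q => (psi_meas T measurableSet_Ioi).compl.union
      ((R0_mp T).measurable measurableSet_Ioi)
  let f : ℝ → ℝ := X.piecewise (R0 T) fun x => 2 + psi T x
  have hf : Measurable f := (R0_mp T).measurable.piecewise hX ((psi_meas T).const_add 2)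
  have hfe : f =ᵐ[mu] R0 T := by
    filter_upwards [good T] with x hx
    exact piecewise_eq_of_mem _ _ _ hx
  have hlt {x y : ℝ} (hy : y ∈ X) (h : psi T x < psi T y) : R0 T x < R0 T y := by
    obtain ⟨q, a, b⟩ := exists_rat_btwn h
    exact (monotone_cdf (nu T) a.le).trans_lt (hy q b)
  have hinj : Function.Injective f := by
    intro x y h
    by_cases hx : x ∈ X <;> by_cases hy : y ∈ X
    · simp only [f, piecewise_eq_of_mem _ _ _ hx, piecewise_eq_of_mem _ _ _ hy] at h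
      rcases lt_trichotomy (psi T x) (psi T y) with c | c | c
      · exact absurd h (hlt hy c).ne
      · exact psi_inj T c
      · exact absurd h (hlt hx c).ne'
    · simp only [f, piecewise_eq_of_mem _ _ _ hx, piecewise_eq_of_notMem _ _ _ hy] at h
      have := cdf_le_one (nu T) (psi T x)
      have := (code_mem (bits T y)).1
      simp only [R0, psi] at *
      linarith
    · simp only [f, piecewise_eq_of_notMem _ _ _ hx, piecewise_eq_of_mem _ _ _ hy] at h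
      have := cdf_le_one (nu T) (psi T y)
      have := (code_mem (bits T x)).1
      simp only [R0, psi] at *
      linarith
    · simp only [f, piecewise_eq_of_notMem _ _ _ hx, piecewise_eq_of_notMem _ _ _ hy] at h
      exact psi_inj T (add_left_cancel h)
  have he := hf.measurableEmbedding hinj
  have fm : MeasurePreserving f mu mu := (R0_mp T).congr hf hfe.symm
  have gm : MeasurePreserving he.invFun mu mu := by
    refine ⟨he.measurable_invFun, ?_⟩
    conv_lhs => rw [← fm.map_eq]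
    rw [Measure.map_map he.measurable_invFun hf, he.leftInverse_invFun.comp_eq_id, Measure.map_id]
  obtain ⟨e, e1, _⟩ := mk_equiv fm gm (Eventually.of_forall he.leftInverse_invFun) (by
    have hs : MeasurableSet {x | f (he.invFun x) = x} :=
      measurableSet_eq_fun (hf.comp he.measurable_invFun) measurable_id
    have : ∀ᵐ x ∂(mu.map f), f (he.invFun x) = x := by
      rw [ae_map_iff hf.aemeasurable hs]
      exact Eventually.of_forall fun x => by rw [he.leftInverse_invFun]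
    rwa [fm.map_eq] at this)
  exact ⟨e, e1.trans hfe⟩

lemma R0_cont {ε : ℝ} (hε : 0 < ε) :
    ∃ δ > 0, ∀ (T : G) (x y : ℝ), |psi T x - psi T y| < δ → |R0 T x - R0 T y| ≤ ε := by
  obtain ⟨M, hM⟩ := exists_nat_one_div_lt (half_pos hε)
  obtain ⟨δ, hδ, h⟩ := code_sep ((Finset.range (M + 2)).image
    fun j : ℕ => ((0 : ℤ), (j : ℚ) / ((M + 1 : ℕ) : ℚ)))
  refine ⟨δ, hδ, fun T => ?_⟩
  have key (x y : ℝ) (hxy : psi T x ≤ psi T y) (hd : |psi T x - psi T y| < δ) :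
      R0 T y - R0 T x ≤ ε := by
    have z := (cdf (nu T)).measure_Ioc (psi T x) (psi T y)
    rw [measure_cdf] at z
    rw [← ENNReal.ofReal_le_ofReal_iff hε.le, R0, R0, ← z,
      ← (psi_mp T).measure_preimage measurableSet_Ioc.nullMeasurableSet,
      Measure.restrict_apply (psi_meas T measurableSet_Ioc)]
    have hb (u : ℝ) (hu : psi T u ∈ Ioc (psi T x) (psi T y)) (j : ℕ) (hj : j ≤ M + 1) :
        u ≤ (j : ℝ) / ((M + 1 : ℕ) : ℝ) ↔ x ≤ (j : ℝ) / ((M + 1 : ℕ) : ℝ) := by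
      have h1 : |psi T u - psi T x| < δ := by
        rw [abs_lt] at hd ⊢
        constructor <;> linarith [hu.1, hu.2]
      have := h _ _ h1 ((0 : ℤ), (j : ℚ) / ((M + 1 : ℕ) : ℚ))
        (Finset.mem_image.2 ⟨j, Finset.mem_range.2 (by omega), rfl⟩)
      simpa [bits, orb_zero] using this
    rcases eq_empty_or_nonempty (psi T ⁻¹' Ioc (psi T x) (psi T y) ∩ Icc 0 1) with he | ⟨u, hu⟩
    · rw [he]; simp
    have : psi T ⁻¹' Ioc (psi T x) (psi T y) ∩ Icc 0 1 ⊆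
        Icc (u - 1 / ((M + 1 : ℕ) : ℝ)) (u + 1 / ((M + 1 : ℕ) : ℝ)) := by
      intro v hv
      constructor
      · by_contra c
        obtain ⟨j, hj, a, b⟩ := grid (Nat.succ_pos M) hv.2 (y := u) (by linarith [not_le.1 c])
        exact not_le.2 b ((hb u hu.1 j hj).2 ((hb v hv.1 j hj).1 a))
      · by_contra c
        obtain ⟨j, hj, a, b⟩ := grid (Nat.succ_pos M) hu.2 (y := v) (not_le.1 c)
        exact not_le.2 b ((hb v hv.1 j hj).2 ((hb u hu.1 j hj).1 a))
    refine (measure_mono this).trans ?_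
    rw [Real.volume_Icc]
    refine ENNReal.ofReal_le_ofReal ?_
    push_cast
    linarith
  intro x y hd
  rcases le_total (psi T x) (psi T y) with c | c
  · rw [abs_sub_comm, abs_of_nonneg (sub_nonneg.2 (show R0 T x ≤ R0 T y from monotone_cdf (nu T) c))]
    exact key x y c hd
  · rw [abs_of_nonneg (sub_nonneg.2 (show R0 T y ≤ R0 T x from monotone_cdf (nu T) c))]
    exact key y x c (by rwa [abs_sub_comm])

lemma equicont {ε : ℝ} (hε : 0 < ε) (k : ℤ) :
    ∃ δ > 0, ∀ (T : G) (x y : ℝ), |psi T x - psi T y| < δ →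
      |R0 T (orb T k x) - R0 T (orb T k y)| ≤ ε := by
  obtain ⟨δ₁, hδ₁, h1⟩ := R0_cont hε
  obtain ⟨s, hs⟩ := code_close hδ₁
  obtain ⟨δ, hδ, h⟩ := code_sep (s.image fun p => (p.1 + k, p.2))
  refine ⟨δ, hδ, fun T x y hd => h1 T _ _ (hs _ _ fun p hp => ?_)⟩
  have := h _ _ hd (p.1 + k, p.2) (Finset.mem_image.2 ⟨p, hp, rfl⟩)
  simpa [bits, orb_add] using this

lemma approx {δ : ℝ} (hδ : 0 < δ) : ∃ N : ℕ, ∀ (T : G) (ε : ℝ) (h : ℝ → ℝ),
    (∀ x, h x ∈ Icc (0:ℝ) 1) → (∀ x y, |psi T x - psi T y| < δ → |h x - h y| ≤ ε) →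
    ∃ w : Fin N → ℝ × ℝ × ℝ, (∀ j, w j ∈ Icc (0:ℝ) 1 ×ˢ (Icc (0:ℝ) 1 ×ˢ Icc (0:ℝ) 1)) ∧
      ∀ᵐ x ∂mu, |h x - ∑ j, (w j).1 * (Ioc (w j).2.1 (w j).2.2).indicator (fun _ => (1:ℝ)) (R0 T x)|
        ≤ ε := by
  classical
  obtain ⟨M, hM⟩ := exists_nat_one_div_lt hδ
  have hM0 : (0:ℝ) < (M:ℝ) + 1 := by positivity
  refine ⟨2 * (M + 1) + 1, fun T ε h h01 hc => ?_⟩
  let p : ℕ → ℚ := fun j => ((j : ℚ) - 1) / ((M : ℚ) + 1)
  have hp (j : ℕ) : (p j : ℝ) = ((j : ℝ) - 1) / ((M : ℝ) + 1) := by simp [p]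
  let v : ℕ → ℝ := fun j =>
    if hx : ∃ x, psi T x ∈ Ioc (p j : ℝ) (p (j + 1)) then h hx.choose else 0
  refine ⟨fun j => (v j, cdf (nu T) (p j), cdf (nu T) (p (j + 1))), fun j => ⟨?_,
    ⟨cdf_nonneg _ _, cdf_le_one _ _⟩, ⟨cdf_nonneg _ _, cdf_le_one _ _⟩⟩, ?_⟩
  · simp only [v]
    split_ifs
    · exact h01 _
    · simp
  filter_upwards [good T] with x hx
  have hiff (q : ℚ) : cdf (nu T) q < R0 T x ↔ (q : ℝ) < psi T x :=
    ⟨fun a => by
      by_contra c
      exact not_le.2 a (monotone_cdf (nu T) (not_lt.1 c)), hx q⟩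
  have hmem (j : ℕ) : R0 T x ∈ Ioc (cdf (nu T) (p j)) (cdf (nu T) (p (j + 1))) ↔
      (j : ℝ) - 1 < psi T x * ((M : ℝ) + 1) ∧ psi T x * ((M : ℝ) + 1) ≤ j := by
    rw [mem_Ioc, hiff, ← not_lt, hiff, not_lt, hp, hp, div_lt_iff₀ hM0, le_div_iff₀ hM0]
    simp
  have h0 := code_mem (bits T x)
  have h0' : 0 ≤ psi T x * ((M : ℝ) + 1) := mul_nonneg h0.1 hM0.le
  have hj0 : ⌈psi T x * ((M : ℝ) + 1)⌉₊ < 2 * (M + 1) + 1 := by
    refine Nat.lt_succ_of_le (Nat.ceil_le.2 ?_)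
    push_cast
    exact mul_le_mul_of_nonneg_right h0.2 hM0.le
  have a1 : ((⌈psi T x * ((M : ℝ) + 1)⌉₊ : ℕ) : ℝ) - 1 < psi T x * ((M : ℝ) + 1) := by
    linarith [Nat.ceil_lt_add_one h0']
  have a2 := Nat.le_ceil (psi T x * ((M : ℝ) + 1))
  rw [Finset.sum_eq_single ⟨_, hj0⟩]
  · rw [indicator_of_mem ((hmem _).2 ⟨a1, a2⟩), mul_one]
    have hex : ∃ y, psi T y ∈ Ioc (p ⌈psi T x * ((M : ℝ) + 1)⌉₊ : ℝ)
        (p (⌈psi T x * ((M : ℝ) + 1)⌉₊ + 1)) := by
      refine ⟨x, ?_⟩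
      rw [mem_Ioc, hp, hp, div_lt_iff₀ hM0, le_div_iff₀ hM0]
      simpa using ⟨by linarith, a2⟩
    simp only [v, dif_pos hex]
    refine hc _ _ ?_
    have b := hex.choose_spec
    generalize hex.choose = y at b
    rw [mem_Ioc, hp, hp, div_lt_iff₀ hM0, le_div_iff₀ hM0] at b
    push_cast at b
    rw [div_lt_iff₀ hM0] at hM
    refine lt_of_mul_lt_mul_right (a := (M : ℝ) + 1) ?_ hM0.le
    rw [← abs_of_pos hM0, ← abs_mul, abs_of_pos hM0, sub_mul]
    refine lt_trans ?_ hM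
    rw [abs_lt]
    constructor <;> linarith [b.1, b.2]
  · intro j _ hj
    rw [indicator_of_notMem, mul_zero]
    intro c
    obtain ⟨c1, c2⟩ := (hmem j).1 c
    refine hj (Fin.ext ?_)
    have d1 : (j : ℝ) < ⌈psi T x * ((M : ℝ) + 1)⌉₊ + 1 := by linarith
    have d2 : (⌈psi T x * ((M : ℝ) + 1)⌉₊ : ℝ) < j + 1 := by linarith
    have d3 : (j : ℕ) < ⌈psi T x * ((M : ℝ) + 1)⌉₊ + 1 := by exact_mod_cast d1
    have d4 : ⌈psi T x * ((M : ℝ) + 1)⌉₊ < j + 1 := by exact_mod_cast d2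
    show (j : ℕ) = ⌈psi T x * ((M : ℝ) + 1)⌉₊
    omega
  · intro c
    exact absurd (Finset.mem_univ _) c

lemma in_thick {N : ℕ} {ε : ℝ} (R : G) {r h : ℝ → ℝ} (hr : ⇑R.1 =ᵐ[mu] r) (a : ℝ →₁[mu] ℝ)
    {S : ℝ → ℝ} (ha : ⇑a =ᵐ[mu] S) (hS : ∀ᵐ x ∂mu, S (R.1 x) = h x)
    (w : Fin N → ℝ × ℝ × ℝ) (hw : ∀ j, w j ∈ Icc (0:ℝ) 1 ×ˢ (Icc (0:ℝ) 1 ×ˢ Icc (0:ℝ) 1))
    (he : ∀ᵐ x ∂mu, |h x - ∑ j, (w j).1 * (Ioc (w j).2.1 (w j).2.2).indicator (fun _ => (1:ℝ)) (r x)|
        ≤ ε) : a ∈ Metric.cthickening ε (steps N) := by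
  refine Metric.mem_cthickening_of_dist_le a (∑ j, (w j).1 • ind (w j).2) ε _
    ⟨w, fun j _ => hw j, rfl⟩ ?_
  have hb : ⇑(∑ j, (w j).1 • ind (w j).2) =ᵐ[mu]
      fun y => ∑ j, (w j).1 * (Ioc (w j).2.1 (w j).2.2).indicator (fun _ => (1:ℝ)) y := by
    have h1 : ∀ᵐ y ∂mu, ∀ j, ((w j).1 • ind (w j).2) y =
        (w j).1 * (Ioc (w j).2.1 (w j).2.2).indicator (fun _ => (1:ℝ)) y := by
      rw [ae_all_iff]
      intro j
      filter_upwards [Lp.coeFn_smul (w j).1 (ind (w j).2),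
        (indicatorConstLp_coeFn : ⇑(ind (w j).2) =ᵐ[mu] _)] with y a b
      rw [a, Pi.smul_apply, smul_eq_mul, ← b]
      rfl
    filter_upwards [Lp.coeFn_fun_finsetSum Finset.univ (fun j => (w j).1 • ind (w j).2), h1]
      with y a b
    rw [a]
    exact Finset.sum_congr rfl fun j _ => b j
  have hi : Integrable (fun y => |S y - ∑ j, (w j).1 *
      (Ioc (w j).2.1 (w j).2.2).indicator (fun _ => (1:ℝ)) y|) mu :=
    (((L1.integrable_coeFn a).congr ha).sub ((L1.integrable_coeFn _).congr hb)).abs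
  rw [dist_L1 _ _ ha hb, ← mp_integral R.2 hi.aestronglyMeasurable]
  have : ∫ _ : ℝ, ε ∂mu = ε := by simp
  rw [← this]
  refine integral_mono_of_nonneg (Eventually.of_forall fun x => abs_nonneg _) (integrable_const _) ?_
  filter_upwards [hr, hS, he] with x a b c
  rw [b, a]
  exact c

theorem all_conj : ∃ N : ℕ → ℕ, ∀ T : G, ∃ R S : G, S ∈ Phi ⁻¹' (core N ×ˢ core N) ∧
    ∀ x, T.1 x = R.1.symm (S.1 (R.1 x)) := by
  have h (n : ℕ) : ∃ δ > 0, ∀ (T : G) (x y : ℝ), |psi T x - psi T y| < δ →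
      |R0 T (T.1 x) - R0 T (T.1 y)| ≤ 1 / ((n:ℝ) + 1) ∧
      |R0 T (T.1.symm x) - R0 T (T.1.symm y)| ≤ 1 / ((n:ℝ) + 1) := by
    obtain ⟨δ₁, a1, b1⟩ := equicont (ε := 1 / ((n:ℝ) + 1)) (by positivity) 1
    obtain ⟨δ₂, a2, b2⟩ := equicont (ε := 1 / ((n:ℝ) + 1)) (by positivity) (-1)
    refine ⟨min δ₁ δ₂, lt_min a1 a2, fun T x y hd => ⟨?_, ?_⟩⟩
    · simpa only [orb_one] using b1 T x y (hd.trans_le (min_le_left _ _))
    · simpa only [orb_neg_one] using b2 T x y (hd.trans_le (min_le_right _ _))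
  choose δ hδ h using h
  choose N hN using fun n => approx (hδ n)
  refine ⟨N, fun T => ?_⟩
  obtain ⟨R, hR⟩ := exists_R T
  let S : G := ⟨R.1.symm.trans (T.1.trans R.1), (R.2.comp T.2).comp (R.2.symm R.1)⟩
  refine ⟨R, S, ⟨mem_iInter.2 fun n => ?_, mem_iInter.2 fun n => ?_⟩, fun x => by simp [S]⟩
  · obtain ⟨w, hw, he⟩ := hN n T _ (fun x => R0 T (T.1 x))
      (fun x => ⟨cdf_nonneg _ _, cdf_le_one _ _⟩) fun x y hd => (h n T x y hd).1
    refine in_thick R hR _ (phi1 S) ?_ w hw he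
    filter_upwards [T.2.quasiMeasurePreserving.ae hR] with x hx
    simpa [S] using hx
  · obtain ⟨w, hw, he⟩ := hN n T _ (fun x => R0 T (T.1.symm x))
      (fun x => ⟨cdf_nonneg _ _, cdf_le_one _ _⟩) fun x y hd => (h n T x y hd).2
    refine in_thick R hR _ (phi2 S) ?_ w hw he
    filter_upwards [(T.2.symm T.1).quasiMeasurePreserving.ae hR] with x hx
    simpa [S] using hx

end Pool.Agent.Lib.helper23.AutA
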