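import Mathlib

namespace Pool.Agent.Lib.helper23.BkA

open Finset
open Classical

variable {V : Type} [Fintype V] (G : Digraph V)

noncomputable def N1 (v : V) : Finset V := univ.filter (fun w => G.Adj v w)
noncomputable def N2 (v : V) : Finset V :=
  univ.filter (fun w => w ≠ v ∧ ¬ G.Adj v w ∧ ∃ u, G.Adj v u ∧ G.Adj u w)
def Good (v : V) : Prop := (N1 G v).card ≤ (N2 G v).card

def R : ℕ → V → Prop
  | 0, v => Good G v
  | m + 1, v => Good G v ∨ ∃ w, G.Adj v w ∧ R m w

variable {G}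

@[simp] lemma mem_N1 {v w : V} : w ∈ N1 G v ↔ G.Adj v w := by simp [N1]
lemma mem_N2 {v w : V} : w ∈ N2 G v ↔ w ≠ v ∧ ¬ G.Adj v w ∧ ∃ u, G.Adj v u ∧ G.Adj u w := by
  simp [N2]

lemma count (h : ∀ u w : V, G.Adj u w → ¬ G.Adj w u) (A : Finset V) :
    2 * ∑ a ∈ A, (A ∩ N1 G a).card + A.card ≤ A.card * A.card := by
  have e1 : ∀ a, (A ∩ N1 G a).card = ∑ b ∈ A, if G.Adj a b then 1 else 0 := by
    intro a
    rw [← Finset.card_filter]
    congr 1
    ext b; simp
  have e2 : ∑ a ∈ A, ∑ b ∈ A, (if G.Adj a b then 1 else 0 : ℕ) =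
      ∑ a ∈ A, ∑ b ∈ A, (if G.Adj b a then 1 else 0 : ℕ) := Finset.sum_comm
  have e3 : ∑ a ∈ A, ∑ b ∈ A, (if a = b then 1 else 0 : ℕ) = A.card := by
    rw [Finset.card_eq_sum_ones]
    refine Finset.sum_congr rfl fun a ha => ?_
    simp [ha]
  have e4 : ∑ a ∈ A, ∑ b ∈ A, (1 : ℕ) = A.card * A.card := by simp
  simp only [e1]
  rw [two_mul]
  nth_rewrite 2 [e2]
  rw [← e4]
  nth_rewrite 1 [← e3]
  simp only [← Finset.sum_add_distrib]
  refine Finset.sum_le_sum fun a _ => Finset.sum_le_sum fun b _ => ?_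
  by_cases h1 : G.Adj a b
  · have h2 := h a b h1
    have h3 : a ≠ b := by rintro rfl; exact h2 h1
    simp [h1, h2, h3]
  · by_cases h2 : G.Adj b a
    · have h3 : a ≠ b := by rintro rfl; exact h1 h2
      simp [h1, h2, h3]
    · simp only [h1, h2, if_false]
      split_ifs <;> simp

lemma sub (h : ∀ u w : V, G.Adj u w → ¬ G.Adj w u) {x a : V} (hxa : G.Adj x a) :
    N1 G a ⊆ N1 G x ∪ N2 G x := by
  intro w hw
  rw [mem_N1] at hw
  by_cases h1 : G.Adj x w
  · simp [h1]
  · refine Finset.mem_union_right _ (mem_N2.2 ⟨?_, h1, a, hxa, hw⟩)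
    rintro rfl
    exact h _ _ hxa hw

lemma split {a : V} {A Z : Finset V} (hs : N1 G a ⊆ A ∪ Z) :
    (N1 G a).card ≤ (A ∩ N1 G a).card + (Z ∩ N1 G a).card := by
  refine le_trans (Finset.card_le_card ?_) (Finset.card_union_le _ _)
  intro w hw
  have := hs hw
  simp only [Finset.mem_union, Finset.mem_inter] at this ⊢
  tauto

lemma sub_of_card {a : V} {Z : Finset V} (hc : Z.card ≤ (Z ∩ N1 G a).card) :
    ∀ z ∈ Z, G.Adj a z := by
  intro z hz
  have : Z ∩ N1 G a = Z := Finset.eq_of_subset_of_card_le Finset.inter_subset_left hc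
  rw [← this] at hz
  simpa using (Finset.mem_inter.1 hz).2

lemma sum_ge {A : Finset V} {f : V → ℕ} (h1 : ∀ a ∈ A, 1 ≤ f a) {u : V} (hu : u ∈ A) :
    A.card + f u ≤ ∑ a ∈ A, f a + 1 := by
  rw [← Finset.add_sum_erase A f hu]
  have : (A.erase u).card ≤ ∑ a ∈ A.erase u, f a := by
    rw [Finset.card_eq_sum_ones]
    exact Finset.sum_le_sum fun a ha => h1 a (Finset.mem_of_mem_erase ha)
  rw [Finset.card_erase_of_mem hu] at this
  have := Finset.card_pos.2 ⟨u, hu⟩
  omega

lemma tri (h : ∀ u w : V, G.Adj u w → ¬ G.Adj w u) (A Z : Finset V) (hA0 : A.Nonempty)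
    (hA : A.card ≤ 3)
    (hZ : Z.card ≤ 2) (hs : ∀ a ∈ A, N1 G a ⊆ A ∪ Z) (hd : ∀ a ∈ A, 3 ≤ (N1 G a).card)
    (hz : ∀ z ∈ Z, 2 ≤ (N1 G z).card) : ∃ a ∈ A, Good G a := by
  have hZc : ∀ a, (Z ∩ N1 G a).card ≤ Z.card := fun a => Finset.card_le_card Finset.inter_subset_left
  have h1 : ∀ a ∈ A, 1 ≤ (A ∩ N1 G a).card := by
    intro a ha
    have := split (hs a ha); have := hd a ha; have := hZc a; omega
  have hc := count h A
  have h2 : ∀ a ∈ A, (A ∩ N1 G a).card ≤ 1 := by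
    intro a ha
    have := sum_ge h1 ha
    have := h1 a ha
    have := Finset.card_pos.2 hA0
    generalize A.card = n at *
    interval_cases n <;> omega
  have h3 : ∀ a ∈ A, ∀ z ∈ Z, G.Adj a z := by
    intro a ha
    apply sub_of_card
    have := split (hs a ha); have := hd a ha; have := h2 a ha; omega
  obtain ⟨a, ha⟩ := hA0
  have hZ2 : Z.card = 2 := by
    have := split (hs a ha); have := hd a ha; have := h2 a ha; have := hZc a; omega
  obtain ⟨c, d, hcd, hdc⟩ : ∃ c d, Z = {c, d} ∧ ¬ G.Adj d c := by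
    obtain ⟨c, d, -, rfl⟩ := Finset.card_eq_two.1 hZ2
    by_cases q : G.Adj d c
    · exact ⟨d, c, Finset.pair_comm _ _, h _ _ q⟩
    · exact ⟨c, d, rfl, q⟩
  have hdZ : d ∈ Z := by simp [hcd]
  obtain ⟨a1, ha1⟩ := Finset.card_pos.1 (h1 a ha)
  have ha1' := Finset.mem_inter.1 ha1
  obtain ⟨a2, ha2⟩ := Finset.card_pos.1 (h1 a1 ha1'.1)
  have ha2' := Finset.mem_inter.1 ha2
  have b1 : G.Adj a a1 := by simpa using ha1'.2
  have b2 : G.Adj a1 a2 := by simpa using ha2'.2
  refine ⟨a, ha, ?_⟩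
  have k1 : insert a2 (N1 G d) ⊆ N2 G a := by
    intro w hw
    rcases Finset.mem_insert.1 hw with rfl | hw
    · refine mem_N2.2 ⟨?_, ?_, a1, b1, b2⟩
      · rintro rfl; exact h _ _ b1 b2
      · intro q
        have : w = a1 := Finset.card_le_one.1 (h2 a ha) _ (by simp [ha2'.1, q]) _ ha1
        subst this; exact h _ _ b2 b2
    · rw [mem_N1] at hw
      refine mem_N2.2 ⟨?_, ?_, d, h3 a ha d hdZ, hw⟩
      · rintro rfl; exact h _ _ hw (h3 w ha d hdZ)
      · intro q
        rcases Finset.mem_union.1 (hs a ha (mem_N1.2 q)) with q2 | q2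
        · exact h _ _ hw (h3 w q2 d hdZ)
        · rw [hcd] at q2
          rcases Finset.mem_insert.1 q2 with rfl | q2
          · exact hdc hw
          · rw [Finset.mem_singleton.1 q2] at hw; exact h _ _ hw hw
  have k2 : a2 ∉ N1 G d := fun q => h _ _ (mem_N1.1 q) (h3 a2 ha2'.1 d hdZ)
  have k3 := Finset.card_le_card k1
  rw [Finset.card_insert_of_notMem k2] at k3
  have := split (hs a ha); have := h2 a ha; have := hZc a; have := hz d hdZ
  unfold Good; omega

lemma P0 {v : V} (hv : (N1 G v).card ≤ 0) : R G 0 v := by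
  show (N1 G v).card ≤ _; omega

lemma small (h : ∀ u w : V, G.Adj u w → ¬ G.Adj w u) {x : V} (k : ℕ) (hk : k ≤ 2)
    (hv : (N1 G x).card ≤ k) (hg : ¬ Good G x) (hd : ∀ a, G.Adj x a → k ≤ (N1 G a).card) :
    False := by
  unfold Good at hg
  have h1 : ∀ a ∈ N1 G x, 1 ≤ (N1 G x ∩ N1 G a).card := by
    intro a ha
    have := split (sub h (mem_N1.1 ha)); have := hd a (mem_N1.1 ha)
    have : (N2 G x ∩ N1 G a).card ≤ (N2 G x).card := Finset.card_le_card Finset.inter_subset_left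
    omega
  obtain ⟨a, ha⟩ := Finset.card_pos.1 (show 0 < (N1 G x).card by omega)
  have := sum_ge h1 ha
  have := h1 a ha
  have hc := count h (N1 G x)
  have : (N1 G x).card ≤ 2 := by omega
  generalize (N1 G x).card = n at *
  interval_cases n <;> omega

lemma P1 (h : ∀ u w : V, G.Adj u w → ¬ G.Adj w u) {v : V} (hv : (N1 G v).card ≤ 1) :
    R G 1 v := by
  by_contra hn
  simp only [R, not_or, not_exists, not_and] at hn
  refine small h 1 (by omega) hv hn.1 fun a ha => ?_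
  by_contra q
  exact hn.2 a ha (P0 (by omega))

lemma P2 (h : ∀ u w : V, G.Adj u w → ¬ G.Adj w u) {v : V} (hv : (N1 G v).card ≤ 2) :
    R G 2 v := by
  by_contra hn
  rw [R] at hn
  simp only [not_or, not_exists, not_and] at hn
  refine small h 2 (by omega) hv hn.1 fun a ha => ?_
  by_contra q
  exact hn.2 a ha (P1 h (by omega))

lemma P3 (h : ∀ u w : V, G.Adj u w → ¬ G.Adj w u) {v : V} (hv : (N1 G v).card ≤ 3) :
    R G 3 v := by
  by_contra hn
  rw [R] at hn
  simp only [not_or, not_exists, not_and] at hn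
  have hg := hn.1
  unfold Good at hg
  obtain ⟨a, ha, hga⟩ := tri h (N1 G v) (N2 G v) (Finset.card_pos.1 (by omega)) hv (by omega)
    (fun a ha => sub h (mem_N1.1 ha))
    (fun a ha => by
      by_contra q
      exact hn.2 a (mem_N1.1 ha) (P2 h (by omega)))
    (fun z hz => by
      by_contra q
      obtain ⟨-, -, u, hu, huz⟩ := mem_N2.1 hz
      exact hn.2 u hu (Or.inr ⟨z, huz, P1 h (by omega)⟩))
  exact hn.2 a (mem_N1.1 ha) (Or.inl hga)

lemma path (m : ℕ) : ∀ v : V, R G m v → ∃ m' ≤ m, ∃ p : Fin (m' + 1) → V, p 0 = v ∧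
    (∀ i : Fin m', G.Adj (p i.castSucc) (p i.succ)) ∧ Good G (p (Fin.last m')) := by
  induction m with
  | zero => intro v hv; exact ⟨0, le_rfl, fun _ => v, rfl, fun i => i.elim0, hv⟩
  | succ m ih =>
    intro v hv
    rcases hv with hv | ⟨w, hw, hr⟩
    · exact ⟨0, by omega, fun _ => v, rfl, fun i => i.elim0, hv⟩
    · obtain ⟨m', hm, p, p0, pa, pg⟩ := ih w hr
      refine ⟨m' + 1, by omega, Fin.cons v p, rfl, fun i => ?_, ?_⟩
      · refine Fin.cases ?_ (fun j => ?_) i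
        · simpa [p0] using hw
        · have := pa j
          rw [← Fin.succ_castSucc]
          simpa using this
      · rw [← Fin.succ_last]
        simpa using pg

end Pool.Agent.Lib.helper23.BkA
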