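import Mathlib
import Pool.Agent.Lib.helper23.BkA

namespace Pool.Agent.Lib.helper23.BkA

open Finset
open Classical

variable {V : Type} [Fintype V] {G : Digraph V}

lemma cross (h : ∀ u w : V, G.Adj u w → ¬ G.Adj w u) (A B : Finset V) :
    ∑ b ∈ B, (A ∩ N1 G b).card + ∑ a ∈ A, (B ∩ N1 G a).card ≤ A.card * B.card := by
  have e1 : ∀ (S : Finset V) a, (S ∩ N1 G a).card = ∑ b ∈ S, if G.Adj a b then 1 else 0 := by
    intro S a
    rw [← Finset.card_filter]
    congr 1
    ext b; simp
  have e4 : ∑ a ∈ A, ∑ b ∈ B, (1 : ℕ) = A.card * B.card := by simp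
  simp only [e1]
  rw [Finset.sum_comm, ← e4]
  simp only [← Finset.sum_add_distrib]
  refine Finset.sum_le_sum fun a _ => Finset.sum_le_sum fun b _ => ?_
  by_cases h1 : G.Adj a b
  · have h2 := h a b h1
    simp [h1, h2]
  · simp only [h1, if_false]
    split_ifs <;> simp

lemma sum_const_le {A : Finset V} {f : V → ℕ} (c : ℕ) (h1 : ∀ a ∈ A, c ≤ f a) :
    A.card * c ≤ ∑ a ∈ A, f a := by
  simpa using Finset.card_nsmul_le_sum A f c h1

lemma P4 (h : ∀ u w : V, G.Adj u w → ¬ G.Adj w u) {x : V} (hv : (N1 G x).card ≤ 4) :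
    R G 4 x := by
  by_contra hn
  rw [R] at hn
  simp only [not_or, not_exists, not_and] at hn
  have hg := hn.1
  unfold Good at hg
  set A := N1 G x with hA
  set B := N2 G x with hB
  set Z := (B.biUnion (N1 G)) \ (A ∪ B) with hZ
  have hs : ∀ a ∈ A, N1 G a ⊆ A ∪ B := fun a ha => sub h (mem_N1.1 ha)
  have nA : ∀ a ∈ A, ¬ R G 3 a := fun a ha => hn.2 a (mem_N1.1 ha)
  have nB : ∀ b ∈ B, ¬ R G 2 b := by
    intro b hb q
    obtain ⟨-, -, u, hu, hub⟩ := mem_N2.1 hb
    exact hn.2 u hu (Or.inr ⟨b, hub, q⟩)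
  have mZ : ∀ z, z ∈ Z ↔ (∃ b ∈ B, G.Adj b z) ∧ z ∉ A ∧ z ∉ B := by
    intro z
    simp only [hZ, Finset.mem_sdiff, Finset.mem_biUnion, mem_N1, Finset.mem_union, not_or]
  have nZ : ∀ z ∈ Z, ¬ R G 1 z := by
    intro z hz q
    obtain ⟨⟨b, hb, hbz⟩, -⟩ := (mZ z).1 hz
    exact nB b hb (Or.inr ⟨z, hbz, q⟩)
  have dA : ∀ a ∈ A, 4 ≤ (N1 G a).card := fun a ha => by
    by_contra q; exact nA a ha (P3 h (by omega))
  have dB : ∀ b ∈ B, 3 ≤ (N1 G b).card := fun b hb => by
    by_contra q; exact nB b hb (P2 h (by omega))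
  have dZ : ∀ z ∈ Z, 2 ≤ (N1 G z).card := fun z hz => by
    by_contra q; exact nZ z hz (P1 h (by omega))
  have hBc : ∀ a, (B ∩ N1 G a).card ≤ B.card := fun a => Finset.card_le_card Finset.inter_subset_left
  have hc := count h A
  have hA4 : A.card = 4 := by
    by_contra q
    have := sum_const_le (A := A) (f := fun a => (A ∩ N1 G a).card) 2 (fun a ha => by
      have := split (hs a ha); have := dA a ha; have := hBc a; omega)
    have : A.card ≤ 3 := by omega
    generalize A.card = n at *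
    interval_cases n <;> omega
  rw [hA4] at hc
  have h1 : ∀ a ∈ A, 1 ≤ (A ∩ N1 G a).card := fun a ha => by
    have := split (hs a ha); have := dA a ha; have := hBc a; omega
  have full : ∀ a ∈ A, (A ∩ N1 G a).card ≤ 1 → ∀ b ∈ B, G.Adj a b := fun a ha q => by
    apply sub_of_card
    have := split (hs a ha); have := dA a ha; omega
  obtain ⟨a, ha, fa⟩ : ∃ a ∈ A, (A ∩ N1 G a).card ≤ 1 := by
    by_contra q
    have := sum_const_le (A := A) (f := fun a => (A ∩ N1 G a).card) 2 (fun a ha => by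
      by_contra q2
      exact q ⟨a, ha, by omega⟩)
    omega
  have hB3 : B.card = 3 := by
    have := split (hs a ha); have := dA a ha; have := hBc a; omega
  have key : ∀ a ∈ A, (A ∩ N1 G a).card ≤ 1 → ∀ a1 ∈ A ∩ N1 G a,
      Z ∪ (A ∩ N1 G a1) ⊆ N2 G a ∧ Disjoint Z (A ∩ N1 G a1) ∧ (N2 G a).card ≤ 3 := by
    intro a ha fa a1 ha1
    have b1 : G.Adj a a1 := by simpa using (Finset.mem_inter.1 ha1).2
    refine ⟨?_, ?_, ?_⟩
    · intro w hw
      rcases Finset.mem_union.1 hw with hw | hw
      · obtain ⟨⟨b, hb, hbz⟩, w1, w2⟩ := (mZ w).1 hw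
        refine mem_N2.2 ⟨?_, ?_, b, full a ha fa b hb, hbz⟩
        · rintro rfl; exact w1 ha
        · intro q
          rcases Finset.mem_union.1 (hs a ha (mem_N1.2 q)) with q2 | q2
          · exact w1 q2
          · exact w2 q2
      · have b2 : G.Adj a1 w := by simpa using (Finset.mem_inter.1 hw).2
        refine mem_N2.2 ⟨?_, ?_, a1, b1, b2⟩
        · rintro rfl; exact h _ _ b1 b2
        · intro q
          have : w = a1 := Finset.card_le_one.1 fa _
            (Finset.mem_inter.2 ⟨(Finset.mem_inter.1 hw).1, mem_N1.2 q⟩) _ ha1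
          subst this; exact h _ _ b2 b2
    · rw [Finset.disjoint_left]
      intro w hw hw2
      exact ((mZ w).1 hw).2.1 (Finset.mem_inter.1 hw2).1
    · have q : ¬ Good G a := fun q => nA a ha (Or.inl q)
      unfold Good at q
      have := split (hs a ha); have := hBc a; omega
  have key2 : ∀ a ∈ A, (A ∩ N1 G a).card ≤ 1 → ∀ a1 ∈ A ∩ N1 G a,
      Z.card + (A ∩ N1 G a1).card ≤ 3 := by
    intro a ha fa a1 ha1
    obtain ⟨k1, k2, k3⟩ := key a ha fa a1 ha1
    have := Finset.card_le_card k1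
    rw [Finset.card_union_of_disjoint k2] at this
    omega
  obtain ⟨a1, ha1⟩ := Finset.card_pos.1 (h1 a ha)
  have ha1A := (Finset.mem_inter.1 ha1).1
  have b1 : G.Adj a a1 := by simpa using (Finset.mem_inter.1 ha1).2
  have k0 := key2 a ha fa a1 ha1
  have k00 := h1 a1 ha1A
  by_cases hZ2 : 2 ≤ Z.card
  · have f1 : (A ∩ N1 G a1).card ≤ 1 := by omega
    have noA : ∀ b ∈ B, ∀ w ∈ A, ¬ G.Adj b w := by
      intro b hb w hw q
      have nf : ¬ (A ∩ N1 G w).card ≤ 1 := fun q2 => h _ _ q (full w hw q2 b hb)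
      obtain ⟨k1, k2, k3⟩ := key a ha fa a1 ha1
      have w1 : w ∉ Z ∪ (A ∩ N1 G a1) := by
        intro q2
        rcases Finset.mem_union.1 q2 with q2 | q2
        · exact ((mZ w).1 q2).2.1 hw
        · have := key2 a1 ha1A f1 w q2
          omega
      have w2 : w ∈ N2 G a := by
        refine mem_N2.2 ⟨?_, ?_, b, full a ha fa b hb, q⟩
        · rintro rfl; exact nf fa
        · intro q2
          have : w = a1 := Finset.card_le_one.1 fa _ (Finset.mem_inter.2 ⟨hw, mem_N1.2 q2⟩) _ ha1
          subst this; exact nf f1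
      have := Finset.card_le_card (Finset.insert_subset w2 k1)
      rw [Finset.card_insert_of_notMem w1, Finset.card_union_of_disjoint k2] at this
      omega
    obtain ⟨b, hb, gb⟩ := tri h B Z (Finset.card_pos.1 (by omega)) (by omega) (by omega)
      (fun b hb w hw => by
        rw [mem_N1] at hw
        by_cases q : w ∈ B
        · exact Finset.mem_union_left _ q
        · exact Finset.mem_union_right _ ((mZ w).2 ⟨⟨b, hb, hw⟩, fun q2 => noA b hb w q2 hw, q⟩))
      dB dZ
    exact nB b hb (Or.inl gb)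
  · have c1 := count h B
    have c2 := cross h A B
    rw [hB3] at c1
    rw [hA4, hB3] at c2
    have c3 := sum_const_le (A := A)
      (f := fun a => (A ∩ N1 G a).card + (B ∩ N1 G a).card) 4 (fun a ha => by
        have := split (hs a ha); have := dA a ha; omega)
    have c4 := sum_const_le (A := B)
      (f := fun b => (A ∩ N1 G b).card + (B ∩ N1 G b).card) 2 (fun b hb => by
        have s1 : N1 G b ⊆ (A ∪ B) ∪ Z := by
          intro w hw
          by_cases q : w ∈ A ∪ B
          · exact Finset.mem_union_left _ q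
          · rw [Finset.mem_union, not_or] at q
            exact Finset.mem_union_right _ ((mZ w).2 ⟨⟨b, hb, mem_N1.1 hw⟩, q⟩)
        have s2 := split s1
        rw [Finset.union_inter_distrib_right] at s2
        have s3 := Finset.card_union_le (A ∩ N1 G b) (B ∩ N1 G b)
        have s4 : (Z ∩ N1 G b).card ≤ Z.card := Finset.card_le_card Finset.inter_subset_left
        have := dB b hb
        omega)
    rw [Finset.sum_add_distrib, hA4] at c3
    rw [Finset.sum_add_distrib, hB3] at c4
    omega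

end Pool.Agent.Lib.helper23.BkA
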