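import Mathlib

namespace Pool.Agent.Lib.helper23.BrA

open Finset Filter Topology Complex

noncomputable def w (n j : ℕ) : ℂ := 4 ^ n - (j + 1) * I

noncomputable def p (n : ℕ) (z : ℂ) : ℂ := ∏ j ∈ range (2 ^ n), (1 + -z / w n j)

noncomputable def q (n : ℕ) (x y : ℝ) : ℝ := ∏ j ∈ range (2 ^ n), ((x - 4 ^ n) ^ 2 + (y + j + 1) ^ 2)

noncomputable def G (z : ℂ) : ℂ := ∏' n, (1 + (p n z - 1))

theorem w_re (n j : ℕ) : (w n j).re = 4 ^ n := by
  simp [w, show (4 : ℂ) ^ n = ((4 ^ n : ℝ) : ℂ) by push_cast; rfl, -ofReal_pow]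

theorem w_im (n j : ℕ) : (w n j).im = -(j + 1) := by
  simp [w, show (4 : ℂ) ^ n = ((4 ^ n : ℝ) : ℂ) by push_cast; rfl, -ofReal_pow]

theorem w_norm (n j : ℕ) : (4 : ℝ) ^ n ≤ ‖w n j‖ := by
  rw [← w_re n j]; exact re_le_norm _

theorem q_pos (n : ℕ) (x y : ℝ) (hy : 0 ≤ y) : 0 < q n x y := prod_pos fun j _ => by positivity

theorem norm_p (n : ℕ) (z : ℂ) : ‖p n z‖ ^ 2 = q n z.re z.im / q n 0 0 := by
  rw [p, norm_prod, ← prod_pow, q, q, ← prod_div_distrib]
  refine prod_congr rfl fun j _ => ?_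
  have h : w n j ≠ 0 := norm_pos_iff.1 (lt_of_lt_of_le (by positivity) (w_norm n j))
  rw [show 1 + -z / w n j = (w n j - z) / w n j by field_simp; ring, norm_div, div_pow,
    Complex.sq_norm, Complex.sq_norm, normSq_apply, normSq_apply, sub_re, sub_im, w_re, w_im]
  congr 1 <;> ring

theorem p_sub (n : ℕ) (z : ℂ) : ‖p n z - 1‖ ≤ Real.exp (‖z‖ * (1 / 2) ^ n) - 1 := by
  refine (Finset.norm_prod_one_add_sub_one_le _ _).trans (sub_le_sub_right (Real.exp_le_exp.2 ?_) _)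
  refine (sum_le_card_nsmul _ _ (‖z‖ / 4 ^ n) fun j _ => ?_).trans_eq ?_
  · rw [norm_div, norm_neg]
    exact div_le_div_of_nonneg_left (norm_nonneg _) (by positivity) (w_norm n j)
  · rw [card_range, nsmul_eq_mul, show (4 : ℝ) = 2 * 2 by norm_num, mul_pow, one_div, inv_pow]
    push_cast; field_simp

theorem p_sub' (n : ℕ) (z : ℂ) (R : ℝ) (hz : ‖z‖ ≤ R) :
    ‖p n z - 1‖ ≤ R * Real.exp R * (1 / 2) ^ n := by
  refine (p_sub n z).trans ?_
  have h0 := norm_nonneg z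
  have h1 : (1 / 2 : ℝ) ^ n ≤ 1 := pow_le_one₀ (by norm_num) (by norm_num)
  have h2 : (0 : ℝ) < (1 / 2) ^ n := by positivity
  set y := ‖z‖ * (1 / 2) ^ n
  have h3 : y ≤ R * (1 / 2) ^ n := mul_le_mul_of_nonneg_right hz h2.le
  have h4 : Real.exp y ≤ Real.exp R := Real.exp_le_exp.2 (by nlinarith)
  have h5 := mul_le_mul_of_nonneg_left (Real.add_one_le_exp (-y)) (Real.exp_pos y).le
  rw [← Real.exp_add, add_neg_cancel, Real.exp_zero] at h5
  have h6 := mul_le_mul h3 h4 (Real.exp_pos y).le ((mul_nonneg h0 h2.le).trans h3)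
  nlinarith

theorem summ (z : ℂ) : Summable fun n => ‖p n z - 1‖ :=
  (summable_geometric_two.mul_left _).of_nonneg_of_le (fun _ => norm_nonneg _)
    fun n => p_sub' n z _ le_rfl

theorem diff_p (n : ℕ) : Differentiable ℂ (p n) := by
  unfold p; fun_prop

theorem diff_G : Differentiable ℂ G := fun z => by
  have h := Summable.hasProdLocallyUniformlyOn_nat_one_add
    (f := fun n z => p n z - 1) (K := Metric.ball 0 (‖z‖ + 1)) Metric.isOpen_ball
    (summable_geometric_two.mul_left ((‖z‖ + 1) * Real.exp (‖z‖ + 1)))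
    (.of_forall fun n x hx => p_sub' n x _ (mem_ball_zero_iff.1 hx).le)
    fun n => ((diff_p n).continuous.sub continuous_const).continuousOn
  refine (TendstoLocallyUniformlyOn.differentiableOn h (.of_forall fun s => ?_)
    Metric.isOpen_ball).differentiableAt (Metric.isOpen_ball.mem_nhds (by simp))
  simp only [add_sub_cancel]
  exact (Differentiable.fun_finsetProd fun n _ => diff_p n).differentiableOn

theorem G_ne (z : ℂ) (hz : 0 ≤ z.im) : G z ≠ 0 := by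
  refine tprod_one_add_ne_zero_of_summable (fun n h => ?_) (summ z)
  have h1 := norm_p n z
  rw [show p n z = 0 by simpa using h] at h1
  have := div_pos (q_pos n z.re _ hz) (q_pos n 0 0 le_rfl)
  simp only [norm_zero] at h1
  linarith

theorem transfer (z z' : ℂ) (c : ℕ → ℝ) (C : ℝ) (h : ∀ n, ‖p n z‖ ^ 2 ≤ c n * ‖p n z'‖ ^ 2)
    (hC : ∀ᶠ N in atTop, ∏ n ∈ range N, c n ≤ C) : ‖G z‖ ^ 2 ≤ C * ‖G z'‖ ^ 2 := by
  have h1 : ∀ z, Tendsto (fun N => ‖∏ n ∈ range N, (1 + (p n z - 1))‖ ^ 2) atTop (𝓝 (‖G z‖ ^ 2)) :=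
    fun z => (multipliable_one_add_of_summable (summ z)).hasProd.tendsto_prod_nat.norm.pow 2
  refine le_of_tendsto_of_tendsto (h1 z) ((h1 z').const_mul C) (hC.mono fun N hN => ?_)
  simp only [add_sub_cancel, norm_prod, ← prod_pow]
  refine (prod_le_prod (fun _ _ => by positivity) fun n _ => h n).trans ?_
  rw [prod_mul_distrib]
  exact mul_le_mul_of_nonneg_right hN (prod_nonneg fun _ _ => by positivity)

theorem transfer' (z z' : ℂ) (c : ℕ → ℝ) (C : ℝ) (h : ∀ n, q n z.re z.im ≤ c n * q n z'.re z'.im)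
    (hC : ∀ᶠ N in atTop, ∏ n ∈ range N, c n ≤ C) : ‖G z‖ ^ 2 ≤ C * ‖G z'‖ ^ 2 :=
  transfer z z' c C (fun n => by
    rw [norm_p, norm_p, ← mul_div_assoc]
    exact div_le_div_of_nonneg_right (h n) (q_pos n 0 0 le_rfl).le) hC

theorem G_conj (z : ℂ) (hz : 0 ≤ z.im) : ‖G (starRingEnd ℂ z)‖ ≤ ‖G z‖ := by
  refine (sq_le_sq₀ (norm_nonneg _) (norm_nonneg _)).1 (le_of_le_of_eq
    (transfer' _ z (fun _ => 1) 1 (fun n => ?_) (by simp)) (one_mul _))
  rw [one_mul, conj_re, conj_im]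
  refine prod_le_prod (fun _ _ => by positivity) fun j _ => ?_
  nlinarith [Nat.cast_nonneg (α := ℝ) j]

theorem G_exp (z : ℂ) : ‖G z‖ ≤ ‖G 0‖ * Real.exp (2 * ‖z‖) := by
  refine (sq_le_sq₀ (norm_nonneg _) (by positivity)).1 (le_of_le_of_eq
    (transfer z 0 (fun n => Real.exp (‖z‖ * (1 / 2) ^ n) ^ 2) (Real.exp (2 * ‖z‖) ^ 2) (fun n => ?_)
      (.of_forall fun N => ?_)) (by ring))
  · rw [show p n 0 = 1 by simp [p], norm_one, one_pow, mul_one]
    have := p_sub n z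
    have := norm_le_norm_sub_add (p n z) 1
    rw [norm_one] at this
    gcongr; linarith
  · rw [prod_pow, ← Real.exp_sum, ← mul_sum, mul_comm]
    have := summable_geometric_two.sum_le_tsum (range N) fun _ _ => by positivity
    rw [tsum_geometric_two] at this
    gcongr

theorem tele (s : ℝ) (m : ℕ) :
    ∑ j ∈ range m, (|s| + 1) / (s ^ 2 + ((j : ℝ) + 1) ^ 2) ≤ 4 * (m / (|s| + 1 + m)) := by
  induction m with
  | zero => simp
  | succ m ih =>
    rw [sum_range_succ]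
    have h0 := abs_nonneg s
    have h1 : (0 : ℝ) ≤ m := Nat.cast_nonneg m
    have h2 : (|s| + 1) / (s ^ 2 + ((m : ℝ) + 1) ^ 2) ≤
        4 * (|s| + 1) / ((|s| + 1 + m) * (|s| + 1 + m + 1)) := by
      rw [div_le_div_iff₀ (by positivity) (by positivity), ← sq_abs s]
      nlinarith [mul_nonneg (by positivity : 0 ≤ |s| + 1) (sq_nonneg (|s| - (m + 1))),
        mul_nonneg (by positivity : 0 ≤ |s| + 1)
          (mul_nonneg (by positivity : 0 ≤ |s| + 1 + m) (by positivity : 0 ≤ |s| + m))]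
    refine (add_le_add ih h2).trans_eq ?_
    push_cast; field_simp; ring

theorem lac (t : ℝ) (N : ℕ) :
    ∑ n ∈ range N, ((2 ^ n : ℕ) : ℝ) / (|t - 4 ^ n| + 1 + (2 ^ n : ℕ)) ≤ 5 := by
  have h1 : ∀ n ∈ range N, ((2 ^ n : ℕ) : ℝ) / (|t - 4 ^ n| + 1 + (2 ^ n : ℕ)) ≤
      (if |t - 4 ^ n| < 4 ^ n / 2 then 1 else 0) + 2 * (1 / 2) ^ n := fun n _ => by
    have h0 := abs_nonneg (t - 4 ^ n)
    split_ifs with h
    · refine le_add_of_le_of_nonneg ((div_le_one (by positivity)).2 (by linarith)) (by positivity)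
    · rw [zero_add, div_le_iff₀ (by positivity)]
      have h2 : (2 : ℝ) * (1 / 2) ^ n * (4 ^ n / 2) = 2 ^ n := by
        rw [show (4 : ℝ) = 2 * 2 by norm_num, mul_pow, one_div, inv_pow]; field_simp
      push_cast
      rw [← h2]
      gcongr
      have : (0 : ℝ) < 2 ^ n := by positivity
      linarith
  refine (sum_le_sum h1).trans ?_
  rw [sum_add_distrib, ← mul_sum, sum_boole]
  have h2 := summable_geometric_two.sum_le_tsum (range N) fun _ _ => by positivity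
  rw [tsum_geometric_two] at h2
  have key : ∀ a b : ℕ, |t - 4 ^ a| < 4 ^ a / 2 → |t - 4 ^ b| < 4 ^ b / 2 → ¬ a < b :=
    fun a b ha hb hab => by
      have : (4 : ℝ) ^ (a + 1) ≤ 4 ^ b := pow_le_pow_right₀ (by norm_num) hab
      rw [pow_succ] at this
      have : (0 : ℝ) < 4 ^ a := by positivity
      linarith [(abs_lt.1 ha).2, (abs_lt.1 hb).1]
  have h3 : ((range N).filter fun n => |t - 4 ^ n| < 4 ^ n / 2).card ≤ 1 :=
    card_le_one.2 fun a ha b hb => by
      have := key a b (mem_filter.1 ha).2 (mem_filter.1 hb).2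
      have := key b a (mem_filter.1 hb).2 (mem_filter.1 ha).2
      omega
  have h4 : (((range N).filter fun n => |t - 4 ^ n| < 4 ^ n / 2).card : ℝ) ≤ 1 := by
    exact_mod_cast h3
  linarith

theorem G_real (t x : ℝ) : ‖G (t + x)‖ ≤ Real.exp (10 * (2 * |x| + x ^ 2)) * ‖G t‖ := by
  set c := 2 * |x| + x ^ 2 with hc
  have hc0 : 0 ≤ c := by positivity
  refine (sq_le_sq₀ (norm_nonneg _) (by positivity)).1 (le_of_le_of_eq
    (transfer' _ t (fun n => Real.exp (c * (4 * ((2 ^ n : ℕ) / (|t - 4 ^ n| + 1 + (2 ^ n : ℕ))))))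
      (Real.exp (10 * c) ^ 2) (fun n => ?_) (.of_forall fun N => ?_)) (by ring))
  · refine le_trans ?_ (mul_le_mul_of_nonneg_right (Real.exp_le_exp.2
      (mul_le_mul_of_nonneg_left (tele (t - 4 ^ n) (2 ^ n)) hc0)) (q_pos _ _ _ (by simp)).le)
    rw [mul_sum, Real.exp_sum, q, q, ← prod_mul_distrib]
    refine prod_le_prod (fun _ _ => by positivity) fun j _ => ?_
    simp only [add_re, add_im, ofReal_re, ofReal_im, zero_add]
    set s := t - 4 ^ n with hs
    refine le_trans ?_ (mul_le_mul_of_nonneg_right (Real.add_one_le_exp _) (by positivity))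
    rw [add_mul, mul_assoc, div_mul_cancel₀ _ (by positivity), show t + x - 4 ^ n = s + x by ring]
    have h1 : s * x ≤ |s| * |x| := by rw [← abs_mul]; exact le_abs_self _
    nlinarith [abs_nonneg s, abs_nonneg x, mul_nonneg (abs_nonneg s) (sq_nonneg x)]
  · rw [← Real.exp_sum, ← mul_sum, ← mul_sum, ← Real.exp_nat_mul]
    have := lac t N
    push_cast at this ⊢
    exact Real.exp_le_exp.2 (by nlinarith)

theorem tele2 (s : ℝ) (m : ℕ) :
    (s ^ 2 + 1) * (s ^ 2 + 4) * ∏ j ∈ range m, (s ^ 2 + (2 + (j : ℝ) + 1) ^ 2) =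
      (s ^ 2 + ((m : ℝ) + 1) ^ 2) * (s ^ 2 + ((m : ℝ) + 2) ^ 2) *
        ∏ j ∈ range m, (s ^ 2 + (0 + (j : ℝ) + 1) ^ 2) := by
  induction m with
  | zero => norm_num
  | succ m ih => rw [prod_range_succ, prod_range_succ, ← mul_assoc, ih]; push_cast; ring

theorem G_imag (n : ℕ) (t : ℝ) (ht : |t - 4 ^ n| ≤ 1) :
    ‖G t‖ ^ 2 ≤ 10 / 16 ^ n * ‖G (t + 2 * I)‖ ^ 2 := by
  refine transfer' _ _ (fun k => if k = n then 10 / 16 ^ n else 1) _ (fun k => ?_)
    ((eventually_gt_atTop n).mono fun N hN => by simp [hN])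
  simp only [add_re, add_im, ofReal_re, ofReal_im, mul_re, mul_im, I_re, I_im, re_ofNat, im_ofNat,
    mul_zero, mul_one, add_zero, zero_add, sub_zero]
  split_ifs with h
  · subst h
    have h1 := tele2 (t - 4 ^ k) (2 ^ k)
    have h2 := q_pos k t 0 le_rfl
    have h3 := q_pos k t 2 (by norm_num)
    unfold q at h2 h3 ⊢
    rw [div_mul_eq_mul_div, le_div_iff₀ (by positivity)]
    set s := t - 4 ^ k
    have h4 : s ^ 2 ≤ 1 := by rw [← sq_abs]; exact pow_le_one₀ (abs_nonneg _) ht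
    have h5 : (16 : ℝ) ^ k ≤ (s ^ 2 + (((2 ^ k : ℕ) : ℝ) + 1) ^ 2) *
        (s ^ 2 + (((2 ^ k : ℕ) : ℝ) + 2) ^ 2) := by
      rw [show (16 : ℝ) ^ k = ((2 ^ k : ℕ) : ℝ) ^ 2 * ((2 ^ k : ℕ) : ℝ) ^ 2 by
        push_cast; rw [← pow_mul, mul_comm k, pow_mul, ← mul_pow]; norm_num]
      have : (0 : ℝ) ≤ (2 ^ k : ℕ) := Nat.cast_nonneg _
      gcongr <;> nlinarith [sq_nonneg s]
    have h6 : (s ^ 2 + 1) * (s ^ 2 + 4) ≤ 10 := by nlinarith [sq_nonneg s]
    nlinarith [mul_le_mul_of_nonneg_right h5 h2.le, mul_le_mul_of_nonneg_right h6 h3.le]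
  · rw [one_mul]
    refine prod_le_prod (fun _ _ => by positivity) fun j _ => ?_
    nlinarith [Nat.cast_nonneg (α := ℝ) j]

end Pool.Agent.Lib.helper23.BrA
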