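import Mathlib

namespace Pool.Agent.Lib.helper23.Bw

open Matrix
open scoped ComplexOrder

variable {ι κ μ : Type} [Fintype ι] [Fintype κ] [Fintype μ]

noncomputable def fro (W : Matrix ι κ ℂ) : ℝ := (Wᴴ * W).trace.re

lemma fro_eq (W : Matrix ι κ ℂ) : fro W = ∑ i, ∑ j, ‖W i j‖ ^ 2 := by
  simp only [fro, trace, diag_apply, mul_apply, conjTranspose_apply, Complex.re_sum]
  rw [Finset.sum_comm]
  refine Finset.sum_congr rfl fun i _ => Finset.sum_congr rfl fun j _ => ?_
  rw [Complex.star_def, Complex.conj_mul']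
  norm_cast

lemma fro_nonneg (W : Matrix ι κ ℂ) : 0 ≤ fro W := by rw [fro_eq]; positivity

lemma fro_cast (W : Matrix ι κ ℂ) : (Wᴴ * W).trace = (fro W : ℂ) := by
  have h := (posSemidef_conjTranspose_mul_self W).trace_nonneg
  rw [fro]
  exact (Complex.ext rfl (by simpa using (Complex.le_def.1 h).2.symm))

lemma fro_eq_zero {W : Matrix ι κ ℂ} (h : fro W ≤ 0) : W = 0 := by
  have : fro W = 0 := le_antisymm h (fro_nonneg W)
  rw [← trace_conjTranspose_mul_self_eq_zero_iff, fro_cast, this]; simp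

lemma fro_star (W : Matrix ι κ ℂ) : fro Wᴴ = fro W := by
  rw [fro, fro, conjTranspose_conjTranspose, trace_mul_comm]

lemma fro_smul (c : ℂ) (W : Matrix ι κ ℂ) : fro (c • W) = ‖c‖ ^ 2 * fro W := by
  simp [fro_eq, Finset.mul_sum, mul_pow]

lemma fro_add (S T : Matrix ι κ ℂ) : fro (S + T) = fro S + fro T + 2 * (Sᴴ * T).trace.re := by
  have : (Tᴴ * S).trace.re = (Sᴴ * T).trace.re := by
    rw [← Complex.conj_re, ← Complex.star_def, ← trace_conjTranspose]; simp
  simp only [fro, conjTranspose_add, Matrix.add_mul, Matrix.mul_add, trace_add, Complex.add_re,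
    this]
  ring

lemma fro_sub (S T : Matrix ι κ ℂ) : fro (S - T) = fro S + fro T - 2 * (Sᴴ * T).trace.re := by
  have := fro_add S ((-1 : ℂ) • T)
  rw [fro_smul] at this
  simp only [neg_smul, one_smul, Matrix.mul_neg, trace_neg, Complex.neg_re, norm_neg, norm_one]
    at this
  rw [sub_eq_add_neg, this]; ring

lemma fro_sub_le (S T : Matrix ι κ ℂ) : fro (S - T) ≤ 2 * (fro S + fro T) := by
  have h1 := fro_nonneg (S + T)
  rw [fro_add] at h1
  rw [fro_sub]; linarith

lemma psd_tr {S : Matrix ι ι ℂ} (hS : S.PosSemidef) (W : Matrix ι κ ℂ) :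
    0 ≤ (Wᴴ * S * W).trace.re :=
  (Complex.le_def.1 (hS.conjTranspose_mul_mul_same W).trace_nonneg).1

variable [DecidableEq ι]

lemma fro_mul_le {X : Matrix μ ι ℂ} {P : Matrix ι ι ℂ} (hP : Pᴴ * P = P) {s b : ℝ}
    (h : ((b : ℂ) • (1 : Matrix ι ι ℂ) + (s : ℂ) • P - Xᴴ * X).PosSemidef) (W : Matrix ι κ ℂ) :
    fro (X * W) ≤ b * fro W + s * fro (P * W) := by
  have h1 := psd_tr h W
  have e1 : fro (X * W) = (Wᴴ * (Xᴴ * X) * W).trace.re := by
    rw [fro, conjTranspose_mul]; simp only [Matrix.mul_assoc]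
  have e2 : fro (P * W) = (Wᴴ * P * W).trace.re := by
    rw [fro, conjTranspose_mul, Matrix.mul_assoc, ← Matrix.mul_assoc Pᴴ, hP, Matrix.mul_assoc]
  rw [e1, e2, fro]
  simp only [Matrix.mul_sub, Matrix.sub_mul, Matrix.mul_add, Matrix.add_mul, Matrix.mul_smul,
    Matrix.smul_mul, Matrix.mul_one, trace_sub, trace_add, trace_smul, smul_eq_mul,
    Complex.sub_re, Complex.add_re, Complex.re_ofReal_mul] at h1
  linarith

lemma fro_proj {P : Matrix ι ι ℂ} (hP : Pᴴ = P) (hPP : P * P = P) (W : Matrix ι κ ℂ) :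
    fro W = fro (P * W) + fro ((1 - P) * W) := by
  have e : W = P * W + (1 - P) * W := by rw [← Matrix.add_mul]; simp
  nth_rewrite 1 [e]
  rw [fro_add, conjTranspose_mul, hP, Matrix.mul_assoc, ← Matrix.mul_assoc P, Matrix.mul_sub,
    hPP]
  simp

/-- the adjoint of a matrix bounded by `b` is bounded by `b` -/
lemma fro_adj_le {X : Matrix ι ι ℂ} {b : ℝ} (hb : 0 ≤ b)
    (h : ∀ W : Matrix ι ι ℂ, fro (X * W) ≤ b * fro W) (W : Matrix ι ι ℂ) :
    fro (Xᴴ * W) ≤ b * fro W := by
  have h1 := h (Xᴴ * W)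
  have e : (Wᴴ * (X * (Xᴴ * W))).trace = fro (Xᴴ * W) := by
    rw [← fro_cast, conjTranspose_mul, conjTranspose_conjTranspose]
    simp only [Matrix.mul_assoc]
  rcases hb.eq_or_lt with rfl | hb
  · have : X * (Xᴴ * W) = 0 := fro_eq_zero (by simpa using h1)
    rw [this] at e
    simp only [Matrix.mul_zero, trace_zero] at e
    have : fro (Xᴴ * W) = 0 := by exact_mod_cast e.symm
    simp [this]
  · have h2 := fro_nonneg ((b : ℂ) • W - X * (Xᴴ * W))
    rw [fro_sub, fro_smul, conjTranspose_smul, Matrix.smul_mul, trace_smul, e] at h2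
    simp only [Complex.norm_real, Real.norm_eq_abs, sq_abs, RCLike.star_def, Complex.conj_ofReal,
      smul_eq_mul, ← Complex.ofReal_mul, Complex.ofReal_re] at h2
    nlinarith

/-- sharpened Boettcher-Wenzel inequality -/
theorem bw {X P : Matrix ι ι ℂ} {a b : ℝ} (hb : 0 ≤ b) (hab : b ≤ a) (hP : Pᴴ = P)
    (hPP : P * P = P) (hrk : ∀ T : Matrix ι ι ℂ, P * T * P = (P * T).trace • P)
    (hG : Xᴴ * X * P = (a : ℂ) • P)
    (h : ((b : ℂ) • (1 : Matrix ι ι ℂ) + ((a - b : ℝ) : ℂ) • P - Xᴴ * X).PosSemidef)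
    (Y : Matrix ι ι ℂ) : fro (X * Y - Y * X) ≤ 2 * (a + b) * fro Y := by
  have hP' : Pᴴ * P = P := by rw [hP, hPP]
  have l1 := fun W : Matrix ι ι ℂ => fro_mul_le hP' h W
  rcases (hb.trans hab).eq_or_lt with rfl | ha
  · have hb0 : b = 0 := le_antisymm hab hb
    have : X = 0 := by
      have := l1 1
      rw [hb0, Matrix.mul_one] at this
      exact fro_eq_zero (by simpa using this)
    simp [this, hb0, fro]
  have ha' : (a : ℂ) ≠ 0 := by exact_mod_cast ha.ne'
  set Q : Matrix ι ι ℂ := (a : ℂ)⁻¹ • (X * P * Xᴴ) with hQ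
  have hQH : Qᴴ = Q := by
    rw [hQ, conjTranspose_smul, conjTranspose_mul, conjTranspose_mul, hP,
      conjTranspose_conjTranspose, Matrix.mul_assoc]
    simp
  have hQX : Q * X = X * P := by
    have e : P * (Xᴴ * X) = (a : ℂ) • P := by
      have := congrArg conjTranspose hG
      rw [conjTranspose_mul, conjTranspose_mul, conjTranspose_conjTranspose, hP,
        conjTranspose_smul, hP] at this
      simpa using this
    rw [hQ, Matrix.smul_mul, Matrix.mul_assoc, Matrix.mul_assoc, e, Matrix.mul_smul, smul_smul,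
      inv_mul_cancel₀ ha', one_smul]
  have hQQ : Q * Q = Q := by
    nth_rewrite 2 [hQ]
    rw [Matrix.mul_smul, ← Matrix.mul_assoc, ← Matrix.mul_assoc, hQX, Matrix.mul_assoc X P P, hPP]
  have hXQ : Xᴴ * Q = P * Xᴴ := by
    have := congrArg conjTranspose hQX
    rwa [conjTranspose_mul, conjTranspose_mul, hQH, hP] at this
  have l2 : ∀ W : Matrix ι ι ℂ, fro (Xᴴ * W) ≤ b * fro W + (a - b) * fro (Q * W) := by
    intro W
    have e1 : fro (P * (Xᴴ * W)) = a * fro (Q * W) := by
      have : (P * (Xᴴ * W))ᴴ * (P * (Xᴴ * W)) = (a : ℂ) • ((Q * W)ᴴ * (Q * W)) := by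
        rw [conjTranspose_mul, conjTranspose_mul, conjTranspose_mul, hP, hQH,
          conjTranspose_conjTranspose]
        calc Wᴴ * X * P * (P * (Xᴴ * W)) = Wᴴ * (X * (P * P) * Xᴴ) * W := by
              simp only [Matrix.mul_assoc]
          _ = (a : ℂ) • (Wᴴ * Q * W) := by
              rw [hPP, hQ, Matrix.mul_smul, Matrix.smul_mul, smul_smul, mul_inv_cancel₀ ha',
                one_smul]
          _ = (a : ℂ) • (Wᴴ * (Q * Q) * W) := by rw [hQQ]
          _ = _ := by simp only [Matrix.mul_assoc]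
      rw [fro, this, trace_smul, fro]; simp
    have e2 : (1 - P) * (Xᴴ * W) = (X * (1 - P))ᴴ * ((1 - Q) * W) := by
      rw [conjTranspose_mul, conjTranspose_sub, conjTranspose_one, hP, Matrix.mul_assoc,
        ← Matrix.mul_assoc Xᴴ, Matrix.mul_sub Xᴴ, hXQ, Matrix.mul_one, Matrix.sub_mul Xᴴ,
        Matrix.mul_sub, Matrix.mul_assoc P, ← Matrix.mul_assoc (1 - P) P, Matrix.sub_mul 1 P P,
        hPP]
      simp
    have e3 : fro ((X * (1 - P))ᴴ * ((1 - Q) * W)) ≤ b * fro ((1 - Q) * W) := by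
      refine fro_adj_le hb (fun V => ?_) _
      have h1 := l1 ((1 - P) * V)
      rw [← Matrix.mul_assoc P, Matrix.mul_sub P, hPP, Matrix.mul_one, sub_self,
        Matrix.zero_mul] at h1
      have h2 := fro_proj hP hPP V
      have h3 := fro_nonneg (P * V)
      have h4 : fro (0 : Matrix ι ι ℂ) = 0 := by simp [fro]
      rw [Matrix.mul_assoc]
      rw [h4] at h1
      nlinarith
    rw [fro_proj hP hPP (Xᴴ * W), e1, e2, fro_proj hQH hQQ W]
    linarith
  -- the bound on the hyperplane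
  have l3 : ∀ W : Matrix ι ι ℂ, (P * (W * X)).trace = 0 →
      fro (X * W - W * X) ≤ 2 * (a + b) * fro W := by
    intro W hW
    have e0 : P * W * Q = 0 := by
      have := hrk (W * X)
      rw [hW, zero_smul] at this
      rw [hQ, Matrix.mul_smul]
      calc (a : ℂ)⁻¹ • (P * W * (X * P * Xᴴ)) = (a : ℂ)⁻¹ • (P * (W * X) * P * Xᴴ) := by
            simp only [Matrix.mul_assoc]
        _ = 0 := by rw [this]; simp
    have e1 : fro (W * X) ≤ b * fro W + (a - b) * fro (W * Q) := by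
      have := l2 Wᴴ
      rwa [← conjTranspose_mul, fro_star, fro_star, ← hQH, ← conjTranspose_mul, fro_star] at this
    have e2 : fro (P * W) + fro (W * Q) ≤ fro W := by
      rw [fro_proj hP hPP W, fro_proj hP hPP (W * Q), ← Matrix.mul_assoc, e0]
      have h4 : fro (0 : Matrix ι ι ℂ) = 0 := by simp [fro]
      have h5 := fro_proj hQH hQQ ((1 - P) * W)ᴴ
      have h6 : Q * ((1 - P) * W)ᴴ = ((1 - P) * (W * Q))ᴴ := by
        rw [← Matrix.mul_assoc, conjTranspose_mul _ Q, hQH]
      rw [fro_star, h6, fro_star] at h5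
      have h7 := fro_nonneg ((1 - Q) * ((1 - P) * W)ᴴ)
      rw [h4]; linarith
    have e3 := fro_sub_le (X * W) (W * X)
    have e4 := l1 W
    nlinarith [mul_le_mul_of_nonneg_left e2 (sub_nonneg.2 hab)]
  set K := X * Y - Y * X with hK
  set c := fro K with hc
  set y := fro Y with hy
  rcases (fro_nonneg K).eq_or_lt with h0 | h0
  · rw [hc, ← h0]; have := fro_nonneg Y; positivity
  have hy0 : 0 < y := by
    by_contra hy0
    have : Y = 0 := fro_eq_zero (not_lt.1 hy0)
    rw [hK, this] at h0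
    simp [fro] at h0
  obtain ⟨α, β, hαβ, hφ⟩ : ∃ α β : ℂ, (α ≠ 0 ∨ β ≠ 0) ∧
      (P * ((α • Y + β • Kᴴ) * X)).trace = 0 := by
    by_cases h1 : (P * (Y * X)).trace = 0
    · exact ⟨1, 0, Or.inl one_ne_zero, by simpa using h1⟩
    · refine ⟨(P * (Kᴴ * X)).trace, -(P * (Y * X)).trace, Or.inr (neg_ne_zero.2 h1), ?_⟩
      simp only [Matrix.add_mul, Matrix.mul_add, Matrix.smul_mul, Matrix.mul_smul, trace_add,
        trace_smul, smul_eq_mul]
      ring
  have skew : ∀ S T : Matrix ι ι ℂ, (S * (X * T - T * X)).trace = -(T * (X * S - S * X)).trace := by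
    intro S T
    simp only [Matrix.mul_sub, trace_sub]
    rw [trace_mul_comm S (X * T), trace_mul_comm S (T * X), trace_mul_comm T (S * X)]
    simp only [Matrix.mul_assoc]
    rw [trace_mul_comm X (T * S), trace_mul_comm S (X * T)]
    simp only [Matrix.mul_assoc]
    rw [trace_mul_comm X (T * S)]
    simp only [Matrix.mul_assoc]
    ring
  have sk0 : ∀ S : Matrix ι ι ℂ, (S * (X * S - S * X)).trace = 0 := fun S => by
    linear_combination (1 / 2 : ℂ) * skew S S
  have t1 : (Kᴴ * (X * Y - Y * X)).trace = c := fro_cast K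
  have t2 : (Y * (X * Kᴴ - Kᴴ * X)).trace = -c := by rw [skew, t1]
  have t3 : (Yᴴ * Kᴴ).trace = 0 := by
    rw [← conjTranspose_mul, trace_conjTranspose, trace_mul_comm, hK, sk0, star_zero]
  have comb : ∀ γ δ : ℂ, fro (γ • Y + δ • Kᴴ) = ‖γ‖ ^ 2 * y + ‖δ‖ ^ 2 * c := by
    intro γ δ
    rw [fro_add, fro_smul, fro_smul, fro_star, conjTranspose_smul, Matrix.smul_mul,
      Matrix.mul_smul, trace_smul, trace_smul, t3]
    simp [hc, hy]
  set w := ‖α‖ ^ 2 * y + ‖β‖ ^ 2 * c with hw
  have hw0 : 0 < w := by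
    rcases hαβ with h | h
    · have := norm_pos_iff.2 h
      positivity
    · have := norm_pos_iff.2 h
      positivity
  set W := α • Y + β • Kᴴ with hW
  set V := (-(star β) * c) • Y + (star α * y) • Kᴴ with hV
  have u1 := l3 W hφ
  rw [hW, comb, ← hW, ← hw] at u1
  have u2 : fro V = c * y * w := by
    rw [hV, comb, hw]
    simp only [norm_mul, norm_neg, norm_star, Complex.norm_real, Real.norm_eq_abs, mul_pow,
      sq_abs]
    ring
  have u3 : (V * (X * W - W * X)).trace = ((c * w : ℝ) : ℂ) := by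
    have e : X * W - W * X = α • (X * Y - Y * X) + β • (X * Kᴴ - Kᴴ * X) := by
      rw [hW]
      simp only [Matrix.add_mul, Matrix.mul_add, Matrix.smul_mul, Matrix.mul_smul]
      module
    rw [e, hV]
    simp only [Matrix.add_mul, Matrix.mul_add, Matrix.smul_mul, Matrix.mul_smul, trace_add,
      trace_smul, smul_eq_mul, sk0, t1, t2, hw]
    push_cast
    rw [← Complex.conj_mul' α, ← Complex.conj_mul' β, Complex.star_def]
    ring
  have u4 := fro_nonneg (Vᴴ - (y : ℂ) • (X * W - W * X))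
  rw [fro_sub, fro_star, fro_smul, conjTranspose_conjTranspose, Matrix.mul_smul, trace_smul, u3,
    u2] at u4
  simp only [Complex.norm_real, Real.norm_eq_abs, sq_abs, smul_eq_mul, ← Complex.ofReal_mul,
    Complex.ofReal_re] at u4
  have u5 : y * w * c ≤ y * w * (2 * (a + b) * y) := by
    nlinarith [mul_le_mul_of_nonneg_left u1 (sq_nonneg y)]
  exact le_of_mul_le_mul_left u5 (by positivity)

end Pool.Agent.Lib.helper23.Bw
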