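import Mathlib

namespace Pool.Agent.Lib.helper23.CkA

open Finset Filter Topology

abbrev H := lp (fun _ : ℕ => ℝ) 2
abbrev L := lp (fun _ : ℕ => ℝ) ⊤

noncomputable def e (n : ℕ) : H := lp.single 2 n 1

theorem e_apply (n i : ℕ) : e n i = if i = n then 1 else 0 := by
  simp [e, lp.single_apply, Pi.single_apply]

theorem inner_e (n : ℕ) (z : H) : inner ℝ (e n) z = z n := by simp [e, lp.inner_single_left]

theorem co_le (z : H) (i : ℕ) : |z i| ≤ ‖z‖ := lp.norm_apply_le_norm (by norm_num) z i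

theorem two (a b : ℝ) (n : ℕ) : ‖a • e 0 + b • e (n + 1)‖ ^ 2 = a ^ 2 + b ^ 2 := by
  have h : ∀ n, ‖e n‖ = 1 := fun n => by simp [e]
  rw [norm_add_sq_real, inner_smul_left, inner_smul_right, inner_e, e_apply, norm_smul, norm_smul,
    h, h]
  simp

noncomputable def B : H →ₗ[ℝ] L where
  toFun h := ⟨fun n => h 0 / 2 + h (n + 1), memℓp_infty ⟨2 * ‖h‖, by
    rintro _ ⟨n, rfl⟩
    have h1 := abs_le.1 (co_le h 0)
    have h2 := abs_le.1 (co_le h (n + 1))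
    exact abs_le.2 ⟨by linarith [norm_nonneg h], by linarith [norm_nonneg h]⟩⟩⟩
  map_add' x y := lp.ext (funext fun n => by
    change (x 0 + y 0) / 2 + (x (n + 1) + y (n + 1)) = x 0 / 2 + x (n + 1) + (y 0 / 2 + y (n + 1))
    ring)
  map_smul' c x := lp.ext (funext fun n => by
    change c * x 0 / 2 + c * x (n + 1) = c * (x 0 / 2 + x (n + 1))
    ring)

noncomputable def d (n : ℕ) : ℝ := if n = 0 then 2 else 1 / n

theorem d_le (n : ℕ) : |d n| ≤ 2 := by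
  unfold d
  split_ifs with h
  · simp
  · rw [abs_of_nonneg (by positivity), div_le_iff₀ (by positivity)]
    have : (1 : ℝ) ≤ n := by exact_mod_cast Nat.pos_of_ne_zero h
    linarith

noncomputable def D : H →ₗ[ℝ] H where
  toFun z := ⟨fun n => d n * z n, (lp.memℓp ((2 : ℝ) • z)).mono' fun i => by
    simpa using mul_le_mul_of_nonneg_right (d_le i) (abs_nonneg (z i))⟩
  map_add' x y := lp.ext (funext fun n => mul_add _ _ _)
  map_smul' c x := lp.ext (funext fun n => mul_left_comm _ _ _)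

theorem D_apply (z : H) (n : ℕ) : D z n = d n * z n := rfl

theorem D_le (z : H) (c : ℝ) (hc : 0 ≤ c) (h : ∀ n, z n ≠ 0 → |d n| ≤ c) : ‖D z‖ ≤ c * ‖z‖ := by
  refine (lp.norm_mono (by norm_num) (y := c • z) fun i => ?_).trans_eq ?_
  · rw [D_apply, lp.coeFn_smul, Pi.smul_apply, norm_smul, norm_mul, Real.norm_of_nonneg hc]
    rcases eq_or_ne (z i) 0 with h1 | h1
    · simp [h1]
    · exact mul_le_mul_of_nonneg_right (h i h1) (norm_nonneg _)
  · rw [norm_smul, Real.norm_of_nonneg hc]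

theorem exists_rho0 : ∃ ρ : Seminorm ℝ H, (∀ z h, ρ z ^ 2 ≤ ‖B h‖ ^ 2 + ‖D z - h‖ ^ 2) ∧
    ∀ z δ, 0 < δ → ∃ h, ‖B h‖ ^ 2 + ‖D z - h‖ ^ 2 ≤ (ρ z + δ) ^ 2 := by
  let W := (WithLp.linearEquiv 2 ℝ (L × H)).symm.toLinearMap
  let M : Submodule ℝ (WithLp 2 (L × H)) := LinearMap.range (W ∘ₗ B.prod (-LinearMap.id))
  have key : ∀ z h, M.mkQ (W (0, D z)) = M.mkQ (W (B h, D z - h)) := fun z h => by
    refine ((Submodule.Quotient.eq M).2 ⟨h, ?_⟩).symm
    rw [← map_sub]; simp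
  have hn : ∀ a b, ‖W (a, b)‖ ^ 2 = ‖a‖ ^ 2 + ‖b‖ ^ 2 := fun a b =>
    WithLp.prod_norm_sq_eq_of_L2 _
  refine ⟨(normSeminorm ℝ _).comp (M.mkQ ∘ₗ W ∘ₗ (0 : H →ₗ[ℝ] L).prod D), fun z h => ?_,
    fun z δ hδ => ?_⟩
  · change ‖M.mkQ (W (0, D z))‖ ^ 2 ≤ _
    rw [key z h, ← hn]
    exact pow_le_pow_left₀ (norm_nonneg _) (Submodule.Quotient.norm_mk_le M _) 2
  · obtain ⟨m, h1, h2⟩ := Submodule.Quotient.norm_mk_lt (M.mkQ (W (0, D z))) hδ
    obtain ⟨h, h3⟩ := (Submodule.Quotient.eq M).1 h1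
    refine ⟨h, ?_⟩
    have h4 : m = W (B h, D z - h) := by
      rw [← sub_add_cancel m (W (0, D z)), ← h3, LinearMap.comp_apply, ← map_add]
      simp [sub_eq_neg_add]
    rw [← hn, ← h4]
    exact pow_le_pow_left₀ (norm_nonneg _) h2.le 2

theorem exists_rho : ∃ ρ : Seminorm ℝ H, (∀ z, ρ z ≤ ‖D z‖) ∧
    (∀ z v, ρ (z + v) ^ 2 + ρ (z - v) ^ 2 ≤ 2 * ρ z ^ 2 + 8 * ‖v‖ ^ 2) ∧
    (∀ (z : H) (n : ℕ), 2 / 3 * |z 0 + 1 / (n + 1) * z (n + 1)| ≤ ρ z) ∧
    ∀ n : ℕ, ρ ((-(1 / (n + 1) / 4) : ℝ) • e 0 + (1 : ℝ) • e (n + 1)) ≤ 1 / (n + 1) / 2 := by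
  obtain ⟨ρ, h1, h2⟩ := exists_rho0
  have lim : ∀ (z : H) (a : ℝ), (∀ δ, 0 < δ → a ≤ (ρ z + δ) ^ 2) → a ≤ ρ z ^ 2 := fun z a h => by
    have : Tendsto (fun δ : ℝ => (ρ z + δ) ^ 2) (𝓝[>] 0) (𝓝 ((ρ z + 0) ^ 2)) :=
      (Continuous.tendsto (by fun_prop) 0).mono_left nhdsWithin_le_nhds
    rw [add_zero] at this
    exact ge_of_tendsto this (eventually_mem_nhdsWithin.mono h)
  refine ⟨ρ, fun z => ?_, fun z v => ?_, fun z n => ?_, fun n => ?_⟩
  · exact (sq_le_sq₀ (apply_nonneg _ _) (norm_nonneg _)).1 (by simpa using h1 z 0)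
  · have := lim z ((ρ (z + v) ^ 2 + ρ (z - v) ^ 2) / 2 - 4 * ‖v‖ ^ 2) fun δ hδ => by
      obtain ⟨h, h3⟩ := h2 z δ hδ
      have h4 := h1 (z + v) h
      have h5 := h1 (z - v) h
      have h6 := parallelogram_law_with_norm ℝ (D z - h) (D v)
      rw [map_add D, add_sub_right_comm] at h4
      rw [map_sub D, sub_right_comm] at h5
      have h7 := pow_le_pow_left₀ (norm_nonneg _) (D_le v 2 (by norm_num) fun n _ => d_le n) 2
      nlinarith
    linarith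
  · refine (sq_le_sq₀ (by positivity) (apply_nonneg _ _)).1 (lim z _ fun δ hδ => ?_)
    obtain ⟨h, h3⟩ := h2 z δ hδ
    refine le_trans ?_ h3
    have h4 : |h 0 / 2 + h (n + 1)| ≤ ‖B h‖ := lp.norm_apply_le_norm (by simp) (B h) n
    have h5 := abs_real_inner_le_norm ((1 / 2 : ℝ) • e 0 + (1 : ℝ) • e (n + 1)) (D z - h)
    have h6 := two (1 / 2) 1 n
    rw [inner_add_left, inner_smul_left, inner_smul_left, inner_e, inner_e] at h5
    simp only [lp.coeFn_sub, Pi.sub_apply, D_apply, d, conj_trivial, if_true,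
      if_neg n.succ_ne_zero, Nat.cast_succ] at h5
    have h7 := pow_le_pow_left₀ (abs_nonneg _) h5 2
    have h8 := pow_le_pow_left₀ (abs_nonneg _) h4 2
    rw [mul_pow, h6, sq_abs] at h7
    rw [sq_abs] at h8
    rw [mul_pow, sq_abs]
    set a := h 0 / 2 + h (n + 1) with ha
    set b := 1 / 2 * (2 * z 0 - h 0) + 1 * (1 / (n + 1) * z (n + 1) - h (n + 1)) with hb
    rw [show z 0 + 1 / (n + 1) * z (n + 1) = a + b by rw [ha, hb]; ring]
    nlinarith [sq_nonneg (5 * a - 4 * b)]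
  · set ε : ℝ := 1 / (n + 1) with hε
    have hε0 : 0 < ε := by positivity
    have h3 := h1 ((-(ε / 4)) • e 0 + (1 : ℝ) • e (n + 1))
      ((-(2 * ε / 3)) • e 0 + (2 * ε / 3) • e (n + 1))
    have h4 : D ((-(ε / 4)) • e 0 + (1 : ℝ) • e (n + 1)) -
        ((-(2 * ε / 3)) • e 0 + (2 * ε / 3) • e (n + 1)) = (ε / 6) • e 0 + (ε / 3) • e (n + 1) := by
      refine lp.ext (funext fun i => ?_)
      simp only [lp.coeFn_sub, Pi.sub_apply, D_apply, d, lp.coeFn_add, Pi.add_apply, lp.coeFn_smul,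
        Pi.smul_apply, e_apply, smul_eq_mul]
      split_ifs with g1 g2 g2
      · omega
      · ring
      · rw [g2, Nat.cast_succ, ← hε]; ring
      · ring
    have h5 : ‖B ((-(2 * ε / 3)) • e 0 + (2 * ε / 3) • e (n + 1))‖ ≤ ε / 3 :=
      lp.norm_le_of_forall_le (by positivity) fun i => by
        change |(-(2 * ε / 3) * e 0 0 + 2 * ε / 3 * e (n + 1) 0) / 2 +
          (-(2 * ε / 3) * e 0 (i + 1) + 2 * ε / 3 * e (n + 1) (i + 1))| ≤ _
        simp only [e_apply]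
        split_ifs <;> first | contradiction | omega | exact abs_le.2 ⟨by linarith, by linarith⟩
    rw [h4, two] at h3
    have h6 := pow_le_pow_left₀ (norm_nonneg _) h5 2
    exact (sq_le_sq₀ (apply_nonneg _ _) (by positivity)).1 (by nlinarith)

noncomputable def P (N : ℕ) : H →L[ℝ] H := ∑ i ∈ range N, (innerSL ℝ (e i)).smulRight (e i)

theorem P_eq (N : ℕ) (z : H) : P N z = ∑ i ∈ range N, z i • e i := by
  simp [P, inner_e]

theorem P_apply (N : ℕ) (z : H) (j : ℕ) : P N z j = if j < N then z j else 0 := by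
  rw [← inner_e, P_eq, real_inner_comm, sum_inner]
  simp [inner_smul_left, inner_e, e_apply]

theorem pyth (N : ℕ) (z w : H) (hw : ∀ i < N, w i = 0) :
    ‖P N z + w‖ ^ 2 = ‖P N z‖ ^ 2 + ‖w‖ ^ 2 := by
  have : inner ℝ (P N z) w = 0 := by
    rw [P_eq, sum_inner]
    exact sum_eq_zero fun i hi => by rw [inner_smul_left, inner_e, hw i (mem_range.1 hi), mul_zero]
  rw [norm_add_sq_real, this]; ring

theorem tail (N : ℕ) (z : H) : ∀ i < N, (z - P N z) i = 0 := fun i hi => by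
  simp [P_apply, hi]

theorem tail_le (N : ℕ) (z : H) : ‖z - P N z‖ ≤ ‖z‖ := by
  have := pyth N z _ (tail N z)
  rw [add_sub_cancel] at this
  exact (sq_le_sq₀ (norm_nonneg _) (norm_nonneg _)).1 (by nlinarith [sq_nonneg ‖P N z‖])

theorem riesz (N : ℕ) (φ : H →L[ℝ] ℝ) : ∃ (β : ℝ) (v : H), (∀ i < N, v i = 0) ∧ ‖v‖ ≤ 1 ∧
    φ v = β ∧ ∀ z, φ (z - P N z) ≤ β * ‖z - P N z‖ := by
  obtain ⟨a, ha⟩ := (InnerProductSpace.toDual ℝ H).surjective (φ - φ.comp (P N))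
  have h1 : ∀ z, φ (z - P N z) = inner ℝ a z := fun z => by
    have := congrArg (fun f : StrongDual ℝ H => f z) ha
    simp only [InnerProductSpace.toDual_apply_apply] at this
    rw [this]; simp
  refine ⟨‖a‖, ‖a‖⁻¹ • (a - P N a), fun i hi => ?_, ?_, ?_, fun z => ?_⟩
  · rw [lp.coeFn_smul, Pi.smul_apply, tail N a i hi, smul_zero]
  · rw [norm_smul, norm_inv, norm_norm]
    exact inv_mul_le_one_of_le₀ (tail_le N a) (norm_nonneg _)
  · rw [map_smul, h1, real_inner_self_eq_norm_mul_norm, smul_eq_mul, ← mul_assoc,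
      inv_mul_mul_self]
  · have h2 : P N (z - P N z) = 0 := by
      rw [P_eq]; exact sum_eq_zero fun i hi => by rw [tail N z i (mem_range.1 hi), zero_smul]
    have h3 := h1 (z - P N z)
    rw [h2, sub_zero] at h3
    rw [h3]; exact real_inner_le_norm _ _

theorem key (ρ : Seminorm ℝ H) (hρ : ∀ z, ρ z ≤ ‖D z‖) (N : ℕ) (hN : 0 < N) (c η : ℝ) (hc : 0 ≤ c)
    (hη : 0 ≤ η) (φ ψ : H →L[ℝ] ℝ) (hφ : ∀ z : H, z 0 = 0 → φ z ≤ c * (‖z‖ + ρ z))
    (hψ : ∀ z : H, z 0 = 0 → ψ z ≤ c * (‖z‖ + ρ z)) (h : ∀ z, |φ (P N z) - ψ (P N z)| ≤ η * ‖z‖)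
    (z w : H) (h0 : z 0 + w 0 = 0) :
    φ z + ψ w ≤ c * (‖z‖ + ρ z) + c * (‖w‖ + ρ w) + (2 * c / N + η) * (‖z‖ + ‖w‖) := by
  obtain ⟨β, v, a1, a2, a3, a4⟩ := riesz N φ
  obtain ⟨γ, u, b1, b2, b3, b4⟩ := riesz N ψ
  wlog hβ : γ ≤ β generalizing φ ψ z w β γ v u
  · have := this ψ φ hψ hφ (fun z => by rw [abs_sub_comm]; exact h z) w z (by linarith) γ u b1 b2 b3
      b4 β v a1 a2 a3 a4 (not_le.1 hβ).le
    linarith
  have ht : ∀ y : H, (∀ i < N, y i = 0) → ρ y ≤ 1 / N * ‖y‖ := fun y hy =>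
    (hρ y).trans (D_le y _ (by positivity) fun n hn => by
      have h1 : N ≤ n := not_lt.1 fun h1 => hn (hy n h1)
      rw [d, if_neg (by omega), abs_of_nonneg (by positivity)]
      gcongr)
  have h1 : ∀ y : H, ‖P N y + ‖y - P N y‖ • v‖ ≤ ‖y‖ ∧
      ρ (P N y + ‖y - P N y‖ • v) ≤ ρ y + 2 / N * ‖y‖ := fun y => by
    have g1 : ∀ i < N, (‖y - P N y‖ • v) i = 0 := fun i hi => by
      rw [lp.coeFn_smul, Pi.smul_apply, a1 i hi, smul_zero]
    have g2 : ‖‖y - P N y‖ • v‖ ≤ ‖y - P N y‖ := by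
      rw [norm_smul, norm_norm]; exact mul_le_of_le_one_right (norm_nonneg _) a2
    constructor
    · have g3 := pyth N y _ (tail N y)
      rw [add_sub_cancel] at g3
      refine (sq_le_sq₀ (norm_nonneg _) (norm_nonneg _)).1 ?_
      rw [pyth N y _ g1, g3]
      gcongr
    · have g3 := map_add_le_add ρ (P N y) (‖y - P N y‖ • v)
      have g4 := map_sub_le_add ρ y (y - P N y)
      rw [sub_sub_cancel] at g4
      have g5 := (ht _ g1).trans (mul_le_mul_of_nonneg_left (g2.trans (tail_le N y)) (by positivity))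
      have g6 := (ht _ (tail N y)).trans (mul_le_mul_of_nonneg_left (tail_le N y) (by positivity))
      rw [show (2 : ℝ) / N = 2 * (1 / N) by ring]
      linarith
  have h2 := hφ (P N z + ‖z - P N z‖ • v + (P N w + ‖w - P N w‖ • v)) (by
    simp [P_apply, hN, a1 0 hN, h0])
  have h3 := norm_add_le (P N z + ‖z - P N z‖ • v) (P N w + ‖w - P N w‖ • v)
  have h4 := map_add_le_add ρ (P N z + ‖z - P N z‖ • v) (P N w + ‖w - P N w‖ • v)
  have h5 := h2.trans (mul_le_mul_of_nonneg_left (add_le_add (h3.trans (add_le_add (h1 z).1 (h1 w).1))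
    (h4.trans (add_le_add (h1 z).2 (h1 w).2))) hc)
  simp only [map_add, map_smul, smul_eq_mul, a3] at h5
  have h6 := a4 z
  have h7 := (b4 w).trans (mul_le_mul_of_nonneg_right hβ (norm_nonneg _))
  rw [map_sub] at h6 h7
  have h8 := (abs_le.1 (h w)).1
  have h9 := mul_nonneg hη (norm_nonneg z)
  rw [show 2 * c / N = c * (2 / N) by ring]
  nlinarith

theorem select (ρ : Seminorm ℝ H) (hρ : ∀ z, ρ z ≤ ‖D z‖) (K : Type) [TopologicalSpace K]
    [CompactSpace K] [T2Space K] (φ : K → H →L[ℝ] ℝ) (hφ : ∀ z, Continuous fun k => φ k z)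
    (c : ℝ) (hc : 0 < c) (h : ∀ k (z : H), z 0 = 0 → φ k z ≤ c * (‖z‖ + ρ z)) (ε : ℝ) (hε : 0 < ε) :
    ∃ f : C(K, ℝ), ∀ k (z : H), z 0 = 1 → |φ k z - f k| ≤ (1 + ε) * c * (‖z‖ + ρ z) := by
  obtain ⟨N, hN⟩ := exists_nat_gt (4 / ε)
  have hN0 : (0 : ℝ) < N := lt_trans (by positivity) hN
  refine exists_continuous_forall_mem_convex_of_local_const
    (t := fun k => {t : ℝ | ∀ z : H, z 0 = 1 → |φ k z - t| ≤ (1 + ε) * c * (‖z‖ + ρ z)})
    (fun k => ?_) fun k0 => ?_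
  · refine convex_iff_ordConnected.2 ⟨fun a ha b hb t ht z hz => ?_⟩
    exact abs_le.2 ⟨by linarith [(abs_le.1 (hb z hz)).1, ht.2],
      by linarith [(abs_le.1 (ha z hz)).2, ht.1]⟩
  let U := {k | ∀ i ∈ range N, |φ k (e i) - φ k0 (e i)| < c * ε / 4 / N}
  have hU : U ∈ 𝓝 k0 := (eventually_all_finset _).2 fun i _ =>
    (((hφ _).sub continuous_const).abs.tendsto k0).eventually_lt_const (by simp; positivity)
  have h1 : ∀ k ∈ U, ∀ l ∈ U, ∀ z w : H, z 0 = 1 → w 0 = 1 →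
      φ k z - (1 + ε) * c * (‖z‖ + ρ z) ≤ φ l w + (1 + ε) * c * (‖w‖ + ρ w) := by
    intro k hk l hl z w hz hw
    have h2 := key ρ hρ N (by exact_mod_cast hN0) c (c * ε / 2) hc.le (by positivity) _ _ (h k) (h l)
      (fun y => ?_) z (-w) (by simp [hz, hw])
    · rw [map_neg, norm_neg, map_neg_eq_map] at h2
      have h3 : 2 * c / N ≤ c * ε / 2 := by
        rw [div_lt_iff₀ hε] at hN
        rw [div_le_iff₀ hN0]; nlinarith
      have h4 := mul_le_mul_of_nonneg_right h3 (add_nonneg (norm_nonneg z) (norm_nonneg w))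
      have h5 := mul_nonneg (mul_pos hc hε).le (add_nonneg (apply_nonneg ρ z) (apply_nonneg ρ w))
      nlinarith
    · simp only [P_eq, map_sum, map_smul, smul_eq_mul, ← sum_sub_distrib, ← mul_sub]
      refine (abs_sum_le_sum_abs _ _).trans ((sum_le_card_nsmul _ _ (‖y‖ * (2 * (c * ε / 4 / N)))
        fun i hi => ?_).trans_eq ?_)
      · rw [abs_mul]
        refine mul_le_mul (co_le y i) (abs_le.2 ⟨?_, ?_⟩) (abs_nonneg _) (norm_nonneg _) <;>
          linarith [abs_lt.1 (hk i hi), abs_lt.1 (hl i hi)]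
      · rw [card_range, nsmul_eq_mul]; field_simp; ring
  obtain ⟨t, h2, h3⟩ := exists_between_of_forall_le
    (s := {a | ∃ k ∈ U, ∃ z : H, z 0 = 1 ∧ a = φ k z - (1 + ε) * c * (‖z‖ + ρ z)})
    (t := {a | ∃ k ∈ U, ∃ z : H, z 0 = 1 ∧ a = φ k z + (1 + ε) * c * (‖z‖ + ρ z)})
    ⟨_, k0, mem_of_mem_nhds hU, e 0, by simp [e_apply], rfl⟩
    ⟨_, k0, mem_of_mem_nhds hU, e 0, by simp [e_apply], rfl⟩ (by
      rintro _ ⟨k, hk, z, hz, rfl⟩ _ ⟨l, hl, w, hw, rfl⟩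
      exact h1 k hk l hl z w hz hw)
  refine ⟨t, Filter.mem_of_superset hU fun k hk z hz => abs_le.2 ⟨?_, ?_⟩⟩
  · linarith [h3 ⟨k, hk, z, hz, rfl⟩]
  · linarith [h2 ⟨k, hk, z, hz, rfl⟩]

end Pool.Agent.Lib.helper23.CkA
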