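import Mathlib
import Pool.Agent.Lib.helper23.CkA

namespace Pool.Agent.Lib.helper23.CkB

open Finset Filter Topology Pool.Agent.Lib.helper23.CkA

def Syn (Y : Type) : Type := Y

theorem renorm (Y : Type) [NormedAddCommGroup Y] [NormedSpace ℝ Y] (q : Seminorm ℝ Y) (C : ℝ)
    (h1 : ∀ x, ‖x‖ ≤ q x) (h2 : ∀ x, q x ≤ C * ‖x‖) :
    ∃ (X : Type) (_ : NormedAddCommGroup X) (_ : NormedSpace ℝ X) (J : Y ≃L[ℝ] X),
      ∀ x, ‖J x‖ = q x := by
  let : AddCommGroup (Syn Y) := inferInstanceAs (AddCommGroup Y)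
  let : Module ℝ (Syn Y) := inferInstanceAs (Module ℝ Y)
  let : NormedAddCommGroup (Syn Y) := AddGroupNorm.toNormedAddCommGroup
    { toFun := fun x => q x
      map_zero' := map_zero q
      add_le' := map_add_le_add q
      neg' := map_neg_eq_map q
      eq_zero_of_map_eq_zero' := fun x hx => norm_le_zero_iff.1 ((h1 x).trans_eq hx) }
  let : NormedSpace ℝ (Syn Y) := ⟨fun c x => (map_smul_eq_mul q c x).le⟩
  exact ⟨Syn Y, inferInstance, inferInstance, LinearEquiv.toContinuousLinearEquivOfBounds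
    (E := Y) (F := Syn Y) (LinearEquiv.refl ℝ Y) C 1 h2
    (fun x => (h1 x).trans_eq (one_mul _).symm), fun _ => rfl⟩

theorem refl_of {X : Type} [NormedAddCommGroup X] [NormedSpace ℝ X] (J : H ≃L[ℝ] X) :
    Function.Surjective (NormedSpace.inclusionInDoubleDual ℝ X) := fun Φ => by
  let A : H →L[ℝ] StrongDual ℝ X :=
    ((ContinuousLinearMap.compL ℝ X H ℝ).flip (J.symm : X →L[ℝ] H)).comp (innerSL ℝ)
  obtain ⟨x, hx⟩ := (InnerProductSpace.toDual ℝ H).surjective (Φ.comp A)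
  refine ⟨J x, ContinuousLinearMap.ext fun f => ?_⟩
  obtain ⟨v, hv⟩ := (InnerProductSpace.toDual ℝ H).surjective (f.comp (J : H →L[ℝ] X))
  have h1 : ∀ y, inner ℝ v y = f (J y) := fun y => congrArg (fun g : StrongDual ℝ H => g y) hv
  have h2 : A v = f := ContinuousLinearMap.ext fun y => by simpa [A] using h1 (J.symm y)
  have h3 : inner ℝ x v = Φ (A v) := congrArg (fun g : StrongDual ℝ H => g v) hx
  rw [NormedSpace.dual_def, ← h1, real_inner_comm, h3, h2]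

theorem sq_bd (a b r s : ℝ) (hr : 0 < r) (hs : 0 ≤ s) (h : a ^ 2 + b ^ 2 ≤ 2 * r ^ 2 + 8 * s) :
    a + b ≤ 2 * r + 4 / r * s := by
  refine le_trans (le_abs_self _) (abs_le_of_sq_le_sq ?_ (by positivity))
  have : r * (4 / r * s) = 4 * s := by field_simp
  nlinarith [sq_nonneg (a - b), sq_nonneg (4 / r * s)]

theorem gat {X : Type} [NormedAddCommGroup X] [NormedSpace ℝ X] (x : X) (hx : x ≠ 0) (C : ℝ)
    (h : ∀ v, ‖x + v‖ + ‖x - v‖ ≤ 2 * ‖x‖ + C * ‖v‖ ^ 2) :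
    ∃ f : X →L[ℝ] ℝ, ∀ v : X, HasLineDerivAt ℝ (fun y : X => ‖y‖) (f v) x v := by
  obtain ⟨f, h1, h2⟩ := exists_dual_vector ℝ x (norm_ne_zero_iff.2 hx)
  have h3 : ∀ y, f y ≤ ‖y‖ := fun y => (le_abs_self _).trans (by simpa [h1] using f.le_opNorm y)
  refine ⟨f, fun v => HasFDerivAt.hasLineDerivAt ?_ v⟩
  refine hasFDerivAt_iff_isLittleO_nhds_zero.2 (Asymptotics.IsBigO.trans_isLittleO
    (Asymptotics.IsBigO.of_bound' (g := fun v : X => C * ‖v‖ ^ 2) (.of_forall fun v => ?_))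
    ((Asymptotics.isLittleO_norm_pow_id (by norm_num)).const_mul_left C))
  have h4 := h3 (x + v)
  have h5 := h3 (x - v)
  rw [map_add, h2] at h4
  rw [map_sub, h2] at h5
  simp only [RCLike.ofReal_real_eq_id, id] at h4 h5
  rw [Real.norm_of_nonneg (by linarith)]
  exact le_trans (by linarith [h v]) (le_abs_self _)

theorem tend (z : H) : Tendsto (fun n => z n) atTop (𝓝 0) := by
  have h := ((lp.memℓp z).summable (by norm_num)).tendsto_atTop_zero
  have h2 := (Real.continuous_sqrt.tendsto 0).comp h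
  rw [Real.sqrt_zero] at h2
  refine tendsto_zero_iff_norm_tendsto_zero.2 (h2.congr fun n => ?_)
  simp [Real.sqrt_sq_eq_abs]

theorem exists_space : ∃ (ρ : Seminorm ℝ H) (X : Type) (_ : NormedAddCommGroup X)
    (_ : NormedSpace ℝ X) (J : H ≃L[ℝ] X), (∀ x, ‖J x‖ = ‖x‖ + ρ x) ∧ (∀ z, ρ z ≤ ‖D z‖) ∧
    (∀ x : X, x ≠ 0 → ∃ f : X →L[ℝ] ℝ, ∀ v : X, HasLineDerivAt ℝ (fun y : X => ‖y‖) (f v) x v) ∧
    (∀ (z : H) (n : ℕ), 2 / 3 * |z 0 + 1 / (n + 1) * z (n + 1)| ≤ ρ z) ∧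
    ∀ n : ℕ, ρ ((-(1 / (n + 1) / 4) : ℝ) • e 0 + (1 : ℝ) • e (n + 1)) ≤ 1 / (n + 1) / 2 := by
  obtain ⟨ρ, h1, h2, h3, h4⟩ := exists_rho
  obtain ⟨X, i1, i2, J, hJ⟩ := renorm H (normSeminorm ℝ H + ρ) 3
    (fun x => le_add_of_nonneg_right (apply_nonneg ρ x)) fun x => by
      have := (h1 x).trans (D_le x 2 (by norm_num) fun n _ => d_le n)
      change ‖x‖ + ρ x ≤ _
      linarith
  replace hJ : ∀ x, ‖J x‖ = ‖x‖ + ρ x := hJ
  refine ⟨ρ, X, i1, i2, J, hJ, h1, fun x hx => ?_, h3, h4⟩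
  obtain ⟨z, rfl⟩ := J.surjective x
  have hz : z ≠ 0 := fun h => hx (by rw [h, map_zero])
  have hz1 := norm_pos_iff.2 hz
  have hz2 : 0 < ρ z := by
    refine (apply_nonneg ρ z).lt_of_ne' fun h => hz ?_
    have h5 : ∀ n : ℕ, z 0 + 1 / (n + 1) * z (n + 1) = 0 := fun n =>
      abs_nonpos_iff.1 (by linarith [h3 z n])
    have h6 := (tendsto_one_div_add_atTop_nhds_zero_nat.mul
      ((tend z).comp (tendsto_add_atTop_nat 1))).const_add (z 0)
    have h7 : z 0 = 0 := by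
      simpa using tendsto_nhds_unique h6 (tendsto_const_nhds.congr fun n => (h5 n).symm)
    refine lp.ext (funext fun n => ?_)
    cases n with
    | zero => exact h7
    | succ n =>
      have := h5 n
      rw [h7, zero_add] at this
      exact (mul_eq_zero.1 this).resolve_left (by positivity)
  refine gat _ hx (4 / ‖z‖ + 4 / ρ z) fun v => ?_
  obtain ⟨v, rfl⟩ := J.surjective v
  have h5 := sq_bd _ _ _ _ hz2 (sq_nonneg ‖v‖) (h2 z v)
  have h6 := sq_bd ‖z + v‖ ‖z - v‖ _ _ hz1 (sq_nonneg ‖v‖) (by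
    nlinarith [parallelogram_law_with_norm ℝ z v, sq_nonneg ‖v‖])
  have h7 : ‖v‖ ^ 2 ≤ ‖J v‖ ^ 2 := by
    rw [hJ]; gcongr; exact le_add_of_nonneg_right (apply_nonneg ρ v)
  have h8 := mul_le_mul_of_nonneg_left h7 (by positivity : 0 ≤ 4 / ‖z‖ + 4 / ρ z)
  rw [← map_add, ← map_sub, hJ, hJ, hJ z]
  nlinarith

end Pool.Agent.Lib.helper23.CkB
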