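import Mathlib

namespace Pool.Agent.Lib.helper23.Cl

open Matrix

variable {ι : Type} [Fintype ι] [DecidableEq ι]

noncomputable def nsq (v : ι → ℂ) : ℝ := ∑ i, ‖v i‖ ^ 2

noncomputable def qf (T : Matrix ι ι ℂ) (v : ι → ℂ) : ℝ := (star v ⬝ᵥ T *ᵥ v).re

omit [DecidableEq ι] in
lemma nsq_nonneg (v : ι → ℂ) : 0 ≤ nsq v := Finset.sum_nonneg fun _ _ => by positivity

omit [DecidableEq ι] in
lemma nsq_eq (v : ι → ℂ) : nsq v = (star v ⬝ᵥ v).re := by
  simp only [nsq, dotProduct, Pi.star_apply, Complex.re_sum]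
  refine Finset.sum_congr rfl fun i _ => ?_
  rw [Complex.star_def, Complex.conj_mul']
  norm_cast

omit [DecidableEq ι] in
lemma nsq_pos {v : ι → ℂ} (h : v ≠ 0) : 0 < nsq v := by
  obtain ⟨i, hi⟩ := Function.ne_iff.1 h
  refine Finset.sum_pos' (fun _ _ => by positivity) ⟨i, Finset.mem_univ _, ?_⟩
  have : 0 < ‖v i‖ := norm_pos_iff.2 hi
  positivity

omit [DecidableEq ι] in
lemma eq_zero_of_nsq {v : ι → ℂ} (h : nsq v ≤ 0) : v = 0 := by
  by_contra h'
  exact absurd (nsq_pos h') (not_lt.2 h)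

omit [DecidableEq ι] in
lemma nsq_mulVec (T : Matrix ι ι ℂ) (v : ι → ℂ) : nsq (T *ᵥ v) = qf (Tᴴ * T) v := by
  rw [nsq_eq, qf, star_mulVec, ← Matrix.mulVec_mulVec, Matrix.dotProduct_mulVec (star v)]

lemma qf_one (v : ι → ℂ) : qf 1 v = nsq v := by rw [qf, one_mulVec, nsq_eq]

omit [DecidableEq ι] in
lemma qf_add (S T : Matrix ι ι ℂ) (v : ι → ℂ) : qf (S + T) v = qf S v + qf T v := by
  simp [qf, add_mulVec]

omit [DecidableEq ι] in
lemma qf_sub (S T : Matrix ι ι ℂ) (v : ι → ℂ) : qf (S - T) v = qf S v - qf T v := by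
  simp [qf, sub_mulVec]

omit [DecidableEq ι] in
lemma qf_smul (r : ℝ) (T : Matrix ι ι ℂ) (v : ι → ℂ) : qf ((r : ℂ) • T) v = r * qf T v := by
  simp [qf, smul_mulVec]

omit [DecidableEq ι] in
lemma qf_sum {α : Type} (s : Finset α) (T : α → Matrix ι ι ℂ) (v : ι → ℂ) :
    qf (∑ a ∈ s, T a) v = ∑ a ∈ s, qf (T a) v := by
  simp [qf, sum_mulVec, dotProduct_sum]

omit [DecidableEq ι] in
lemma qf_congr {S T : Matrix ι ι ℂ} {v : ι → ℂ} (h : S *ᵥ v = T *ᵥ v) : qf S v = qf T v := by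
  rw [qf, qf, h]

omit [DecidableEq ι] in
lemma qf_conj (S T : Matrix ι ι ℂ) (v : ι → ℂ) : qf S (T *ᵥ v) = qf (Tᴴ * S * T) v := by
  rw [qf, qf, star_mulVec, ← Matrix.mulVec_mulVec, ← Matrix.mulVec_mulVec,
    Matrix.dotProduct_mulVec (star v)]

omit [DecidableEq ι] in
lemma qf_self_nonneg (T : Matrix ι ι ℂ) (v : ι → ℂ) : 0 ≤ qf (Tᴴ * T) v := by
  rw [← nsq_mulVec]; exact nsq_nonneg _

/-- functional calculus with respect to a fixed diagonalisation -/
noncomputable def F (U : Matrix ι ι ℂ) (l : ι → ℝ) (φ : ℝ → ℝ) : Matrix ι ι ℂ :=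
  U * diagonal (fun i => (φ (l i) : ℂ)) * Uᴴ

section
variable {U : Matrix ι ι ℂ} {l : ι → ℝ}

lemma F_mul (hU : Uᴴ * U = 1) (φ ψ : ℝ → ℝ) :
    F U l φ * F U l ψ = F U l (fun t => φ t * ψ t) := by
  unfold F
  calc U * diagonal (fun i => (φ (l i) : ℂ)) * Uᴴ * (U * diagonal (fun i => (ψ (l i) : ℂ)) * Uᴴ)
      = U * (diagonal (fun i => (φ (l i) : ℂ)) * (Uᴴ * U) * diagonal (fun i => (ψ (l i) : ℂ))) * Uᴴ := by
        simp only [Matrix.mul_assoc]
    _ = _ := by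
        rw [hU, Matrix.mul_one, diagonal_mul_diagonal]
        simp

lemma F_congr {φ ψ : ℝ → ℝ} (h : ∀ i, φ (l i) = ψ (l i)) : F U l φ = F U l ψ := by
  unfold F
  simp only [h]

lemma F_one (hU : U * Uᴴ = 1) : F U l (fun _ => 1) = 1 := by
  unfold F
  simp [hU]

lemma F_zero : F U l (fun _ => 0) = 0 := by
  unfold F
  simp

lemma F_sub (φ ψ : ℝ → ℝ) : F U l φ - F U l ψ = F U l (fun t => φ t - ψ t) := by
  unfold F
  rw [← Matrix.sub_mul, ← Matrix.mul_sub, diagonal_sub]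
  simp

lemma F_smul (r : ℝ) (φ : ℝ → ℝ) : (r : ℂ) • F U l φ = F U l (fun t => r * φ t) := by
  unfold F
  rw [← Matrix.smul_mul, ← Matrix.mul_smul, ← diagonal_smul]
  congr 3
  ext i
  simp

lemma F_herm (φ : ℝ → ℝ) : (F U l φ)ᴴ = F U l φ := by
  unfold F
  rw [conjTranspose_mul, conjTranspose_mul, conjTranspose_conjTranspose, diagonal_conjTranspose,
    Matrix.mul_assoc]
  congr 3
  ext i
  simp

lemma qf_F_nonneg (hU : Uᴴ * U = 1) {φ : ℝ → ℝ} (h : ∀ i, 0 ≤ φ (l i)) (v : ι → ℂ) :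
    0 ≤ qf (F U l φ) v := by
  have : F U l φ = (F U l (fun t => √(φ t)))ᴴ * F U l (fun t => √(φ t)) := by
    rw [F_herm, F_mul hU]
    exact F_congr fun i => (Real.mul_self_sqrt (h i)).symm
  rw [this]
  exact qf_self_nonneg _ _

lemma F_shift (hU : Uᴴ * U = 1) (hU' : U * Uᴴ = 1) {T : Matrix ι ι ℂ} {k : ℝ}
    (h : F U l id * T = T * F U l id + (k : ℂ) • T) (φ : ℝ → ℝ) :
    F U l φ * T = T * F U l (fun t => φ (t + k)) := by
  set T' := Uᴴ * T * U with hT'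
  have hT : T = U * T' * Uᴴ := by
    rw [hT']
    calc T = (U * Uᴴ) * T * (U * Uᴴ) := by rw [hU']; simp
      _ = _ := by simp only [Matrix.mul_assoc]
  have e1 : ∀ φ : ℝ → ℝ, Uᴴ * (F U l φ * T) * U = diagonal (fun i => (φ (l i) : ℂ)) * T' := by
    intro φ
    rw [hT', F]
    calc _ = (Uᴴ * U) * diagonal (fun i => (φ (l i) : ℂ)) * (Uᴴ * T * U) := by
          simp only [Matrix.mul_assoc]
      _ = _ := by rw [hU, Matrix.one_mul]
  have e2 : ∀ φ : ℝ → ℝ, Uᴴ * (T * F U l φ) * U = T' * diagonal (fun i => (φ (l i) : ℂ)) := by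
    intro φ
    rw [hT', F]
    calc _ = (Uᴴ * T * U) * diagonal (fun i => (φ (l i) : ℂ)) * (Uᴴ * U) := by
          simp only [Matrix.mul_assoc]
      _ = _ := by rw [hU, Matrix.mul_one]
  have h1 : diagonal (fun i => ((id (l i) : ℝ) : ℂ)) * T' =
      T' * diagonal (fun i => ((id (l i) : ℝ) : ℂ)) + (k : ℂ) • T' := by
    rw [← e1, ← e2, h, Matrix.mul_add, Matrix.add_mul, Matrix.mul_smul, Matrix.smul_mul]
  have h2 : diagonal (fun i => (φ (l i) : ℂ)) * T' =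
      T' * diagonal (fun i => (φ (l i + k) : ℂ)) := by
    ext i j
    have h3 := congrFun (congrFun h1 i) j
    simp only [diagonal_mul, mul_diagonal, Matrix.add_apply, Matrix.smul_apply, smul_eq_mul,
      id] at h3 ⊢
    by_cases h0 : T' i j = 0
    · simp [h0]
    · have : (l i : ℂ) = l j + k := by
        apply mul_right_cancel₀ h0
        rw [h3]; ring
      have h4 : l i = l j + k := by exact_mod_cast this
      rw [h4, mul_comm]
  have h5 : Uᴴ * (F U l φ * T) * U = Uᴴ * (T * F U l (fun t => φ (t + k))) * U := by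
    rw [e1, e2, h2]
  calc F U l φ * T = (U * Uᴴ) * (F U l φ * T) * (U * Uᴴ) := by rw [hU']; simp
    _ = U * (Uᴴ * (F U l φ * T) * U) * Uᴴ := by simp only [Matrix.mul_assoc]
    _ = (U * Uᴴ) * (T * F U l (fun t => φ (t + k))) * (U * Uᴴ) := by
        rw [h5]; simp only [Matrix.mul_assoc]
    _ = _ := by rw [hU']; simp

lemma F_comm (hU : Uᴴ * U = 1) (hU' : U * Uᴴ = 1) {T : Matrix ι ι ℂ}
    (h : F U l id * T = T * F U l id) (φ : ℝ → ℝ) : F U l φ * T = T * F U l φ := by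
  have := F_shift (l := l) hU hU' (k := 0) (T := T) (by simpa using h) φ
  simpa using this

lemma trace_F (hU : Uᴴ * U = 1) (φ : ℝ → ℝ) : (F U l φ).trace = ∑ i, (φ (l i) : ℂ) := by
  unfold F
  rw [Matrix.trace_mul_comm, ← Matrix.mul_assoc, hU, Matrix.one_mul, trace_diagonal]

lemma nsq_F_le (hU : Uᴴ * U = 1) (hU' : U * Uᴴ = 1) {φ : ℝ → ℝ} (h : ∀ i, φ (l i) * φ (l i) ≤ 1)
    (v : ι → ℂ) : nsq (F U l φ *ᵥ v) ≤ nsq v := by
  rw [nsq_mulVec, F_herm, F_mul hU, ← qf_one, ← F_one (l := l) hU', ← sub_nonneg, ← qf_sub, F_sub]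
  exact qf_F_nonneg hU (fun i => by simpa using h i) v

end

lemma exists_diag {N : Matrix ι ι ℂ} (hN : N.IsHermitian) :
    ∃ (U : Matrix ι ι ℂ) (l : ι → ℝ), Uᴴ * U = 1 ∧ U * Uᴴ = 1 ∧ N = F U l id := by
  refine ⟨hN.eigenvectorUnitary, hN.eigenvalues, ?_, ?_, ?_⟩
  · exact Unitary.coe_star_mul_self hN.eigenvectorUnitary
  · exact Unitary.coe_mul_star_self hN.eigenvectorUnitary
  · conv_lhs => rw [hN.spectral_theorem, Unitary.conjStarAlgAut_apply]
    rfl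

lemma kernel_of_trace {Q B G : Matrix ι ι ℂ} (hQ : Q * Q = Q) (h1 : G * Q = Q * G)
    (h2 : G * B = -(B * G)) (ht : (G * Q).trace ≠ 0) :
    ∃ v : ι → ℂ, v ≠ 0 ∧ Q *ᵥ v = v ∧ Q *ᵥ (B *ᵥ v) = 0 := by
  set H := Q * B * Q + (1 - Q) with hH
  have hdet : H.det = 0 := by
    by_contra hd
    have hu : IsUnit H.det := isUnit_iff_ne_zero.2 hd
    have e1 : H * (G * Q) = Q * B * G * Q := by
      rw [hH, h1]
      calc (Q * B * Q + (1 - Q)) * (Q * G) = Q * B * (Q * Q) * G + (Q - Q * Q) * G := by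
            noncomm_ring
        _ = Q * B * (Q * G) := by rw [hQ]; noncomm_ring
        _ = _ := by rw [← h1]; noncomm_ring
    have e2 : (G * Q) * H = -(Q * B * G * Q) := by
      rw [hH]
      calc (G * Q) * (Q * B * Q + (1 - Q)) = G * (Q * Q) * B * Q + G * (Q - Q * Q) := by
            noncomm_ring
        _ = (G * Q) * B * Q := by rw [hQ]; noncomm_ring
        _ = Q * (G * B) * Q := by rw [h1]; noncomm_ring
        _ = _ := by rw [h2]; noncomm_ring
    have e3 : (G * Q).trace = -(G * Q).trace := by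
      calc (G * Q).trace = (H⁻¹ * H * (G * Q)).trace := by
            rw [Matrix.nonsing_inv_mul _ hu, Matrix.one_mul]
        _ = (H⁻¹ * (-((G * Q) * H))).trace := by rw [Matrix.mul_assoc, e1, e2, neg_neg]
        _ = -((G * Q) * H * H⁻¹).trace := by
            rw [Matrix.mul_neg, trace_neg, Matrix.trace_mul_comm]
        _ = _ := by rw [Matrix.mul_assoc, Matrix.mul_nonsing_inv _ hu, Matrix.mul_one]
    apply ht
    linear_combination (1 / 2 : ℂ) * e3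
  obtain ⟨v, hv, hv0⟩ := Matrix.exists_mulVec_eq_zero_iff.2 hdet
  have e4 : (1 - Q) * H = 1 - Q := by
    rw [hH]
    calc (1 - Q) * (Q * B * Q + (1 - Q)) = (Q - Q * Q) * B * Q + (1 - Q - Q + Q * Q) := by
          noncomm_ring
      _ = _ := by rw [hQ]; noncomm_ring
  have e5 : Q *ᵥ v = v := by
    have : (1 - Q) *ᵥ v = 0 := by rw [← e4, ← Matrix.mulVec_mulVec, hv0, mulVec_zero]
    rw [sub_mulVec, one_mulVec, sub_eq_zero] at this
    exact this.symm
  refine ⟨v, hv, e5, ?_⟩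
  rw [hH, add_mulVec, sub_mulVec, one_mulVec, e5, sub_self, add_zero, ← Matrix.mulVec_mulVec, e5,
    ← Matrix.mulVec_mulVec] at hv0
  exact hv0

end Pool.Agent.Lib.helper23.Cl
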