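import Pool.Agent.Lib.helper23.ClA

namespace Pool.Agent.Lib.helper23.Cl

open Matrix

variable {ι : Type} [Fintype ι] [DecidableEq ι]

noncomputable def cle (N : ℝ) (t : ℝ) : ℝ := if t ≤ N then 1 else 0
noncomputable def cz (t : ℝ) : ℝ := if t = 0 then 1 else 0
noncomputable def ctop (N : ℝ) (t : ℝ) : ℝ := if N - 1 < t ∧ t ≤ N then 1 else 0

theorem contra {U : Matrix ι ι ℂ} {l : ι → ℝ} (hU : Uᴴ * U = 1) (hU' : U * Uᴴ = 1)
    (hl0 : ∃ i, l i = 0) {B Mp G : Matrix ι ι ℂ} {s N C δ : ℝ} (hs : 0 < s) (hN : 1 < N)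
    (hC : 0 ≤ C)
    (hB : Bᴴ = B) (hBN : F U l id * B = B * F U l id)
    (hBB : B * B * F U l (cle N) = (s : ℂ) • F U l id * F U l (cle N))
    (hMp : F U l id * Mp = Mp * F U l id + ((1 : ℝ) : ℂ) • Mp)
    (hMC : ∀ v, nsq ((Mp + Mpᴴ) *ᵥ v) ≤ C * nsq v)
    (hGN : F U l id * G = G * F U l id) (hGB : G * B = -(B * G))
    (hGM : G * (Mp + Mpᴴ) = -((Mp + Mpᴴ) * G)) (hG0 : G * F U l cz = F U l cz)
    (hgap : ∀ v, F U l (cle N) *ᵥ v = v → δ * nsq v ≤ nsq ((Mp + Mpᴴ - B) *ᵥ v))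
    (hbig : C ^ 2 < δ * (s * (N - 1))) : False := by
  set P := F U l (cle N) with hP
  set P0 := F U l cz with hP0
  set P1 := F U l (ctop N) with hP1
  set M := Mp + Mpᴴ with hM
  have hPP : P * P = P := by
    rw [hP, F_mul hU]; exact F_congr fun i => by unfold cle; split_ifs <;> simp
  have hQ : P - P0 = F U l (fun t => cle N t - cz t) := F_sub _ _
  have hQQ : (P - P0) * (P - P0) = P - P0 := by
    rw [hQ, F_mul hU]
    refine F_congr fun i => ?_
    unfold cle cz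
    split_ifs with h1 h2 h2 <;> simp
    linarith
  have hBF : ∀ φ, F U l φ * B = B * F U l φ := F_comm hU hU' hBN
  have hGF : ∀ φ, F U l φ * G = G * F U l φ := F_comm hU hU' hGN
  -- first trace computation
  have t1 : (G * (P - P0)).trace = 0 := by
    by_contra ht
    obtain ⟨v, hv, h1, h2⟩ := kernel_of_trace hQQ (by rw [hQ, hGF]) hGB ht
    have h3 : B *ᵥ v = 0 := by
      rw [Matrix.mulVec_mulVec, hQ, hBF, ← Matrix.mulVec_mulVec, ← hQ, h1] at h2
      exact h2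
    have h4 : P *ᵥ v = v := by
      have : P * (P - P0) = P - P0 := by
        rw [hQ, hP, F_mul hU]
        refine F_congr fun i => ?_
        unfold cle cz
        split_ifs with h1 h2 h2 <;> simp
        linarith
      rw [← h1, Matrix.mulVec_mulVec, this]
    have h5 : F U l id *ᵥ v = 0 := by
      have e : (B * B * P) *ᵥ v = 0 := by
        rw [← Matrix.mulVec_mulVec, h4, ← Matrix.mulVec_mulVec, h3, mulVec_zero]
      rw [hBB, ← Matrix.mulVec_mulVec, h4, smul_mulVec, smul_eq_zero] at e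
      exact e.resolve_left (by exact_mod_cast hs.ne')
    have h6 : P - P0 = F U l (fun t => (cle N t - cz t) / t) * F U l id := by
      rw [hQ, F_mul hU]
      refine F_congr fun i => ?_
      by_cases h0 : l i = 0
      · simp [h0, cle, cz, show (0 : ℝ) ≤ N by linarith]
      · simp [h0]
    apply hv
    rw [← h1, h6, ← Matrix.mulVec_mulVec, h5, mulVec_zero]
  have t2 : (G * P).trace ≠ 0 := by
    rw [Matrix.mul_sub, trace_sub, hG0, sub_eq_zero] at t1
    rw [t1, hP0, trace_F hU]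
    obtain ⟨i, hi⟩ := hl0
    have : (0 : ℝ) < ∑ i, cz (l i) :=
      Finset.sum_pos' (fun j _ => by unfold cz; split_ifs <;> simp)
        ⟨i, Finset.mem_univ _, by simp [cz, hi]⟩
    exact_mod_cast this.ne'
  obtain ⟨v, hv, h1, h2⟩ := kernel_of_trace (B := M - B) hPP (by rw [hP, hGF])
    (by rw [Matrix.mul_sub, Matrix.sub_mul, hGM, hGB]; abel) t2
  have hMm : F U l id * Mpᴴ = Mpᴴ * F U l id + ((-1 : ℝ) : ℂ) • Mpᴴ := by
    have := congrArg conjTranspose hMp
    rw [conjTranspose_add, conjTranspose_mul, conjTranspose_mul, F_herm, conjTranspose_smul] at this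
    rw [this]
    simp
  have hR : 1 - P = F U l (fun t => 1 - cle N t) := by rw [← F_one (l := l) hU', hP, F_sub]
  have k1 : (1 - P) * M * P = (1 - P) * M * P1 := by
    rw [hM, Matrix.mul_add, hR, F_shift hU hU' hMp, F_shift hU hU' hMm, Matrix.add_mul,
      Matrix.add_mul, Matrix.mul_assoc, Matrix.mul_assoc, Matrix.mul_assoc, Matrix.mul_assoc,
      hP, hP1, F_mul hU, F_mul hU, F_mul hU, F_mul hU]
    congr 2
    · refine F_congr fun i => ?_
      unfold cle ctop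
      by_cases a1 : l i ≤ N <;> by_cases a2 : l i + 1 ≤ N <;> by_cases a3 : N - 1 < l i <;>
        simp [a1, a2, a3] <;> linarith
    · refine F_congr fun i => ?_
      unfold cle ctop
      by_cases a1 : l i ≤ N <;> by_cases a2 : l i + -1 ≤ N <;> by_cases a3 : N - 1 < l i <;>
        simp [a1, a2, a3] <;> linarith
  have k2 : (M - B) *ᵥ v = (1 - P) *ᵥ (M *ᵥ (P1 *ᵥ v)) := by
    have e1 : (M - B) *ᵥ v = (1 - P) *ᵥ ((M - B) *ᵥ v) := by
      rw [sub_mulVec 1 P, one_mulVec, h2, sub_zero]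
    have e2 : (1 - P) *ᵥ (B *ᵥ v) = 0 := by
      rw [Matrix.mulVec_mulVec, hR, hBF, ← hR, ← Matrix.mulVec_mulVec, sub_mulVec, one_mulVec, h1,
        sub_self, mulVec_zero]
    rw [e1, sub_mulVec M B, mulVec_sub, e2, sub_zero, Matrix.mulVec_mulVec, Matrix.mulVec_mulVec,
      Matrix.mulVec_mulVec, ← k1, ← Matrix.mulVec_mulVec _ _ P, h1]
  have hP1P : P1 * P = P1 := by
    rw [hP1, hP, F_mul hU]
    refine F_congr fun i => ?_
    unfold cle ctop
    by_cases a1 : l i ≤ N <;> simp [a1]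
  have hPP1 : P * P1 = P1 := by
    rw [hP1, hP, F_mul hU]
    refine F_congr fun i => ?_
    unfold cle ctop
    by_cases a1 : l i ≤ N <;> simp [a1]
  have k3 : nsq ((M - B) *ᵥ v) ≤ C * nsq (P1 *ᵥ v) := by
    rw [k2, hR]
    refine (nsq_F_le hU hU' (fun i => ?_) _).trans (hMC _)
    unfold cle; split_ifs <;> simp
  have k4 : B *ᵥ (P1 *ᵥ v) = P1 *ᵥ (M *ᵥ v) := by
    have e1 : P1 *ᵥ ((M - B) *ᵥ v) = 0 := by
      rw [← hP1P, ← Matrix.mulVec_mulVec, h2, mulVec_zero]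
    rw [sub_mulVec, mulVec_sub, sub_eq_zero] at e1
    rw [e1, Matrix.mulVec_mulVec, Matrix.mulVec_mulVec, hP1, hBF]
  have k5 : nsq (B *ᵥ (P1 *ᵥ v)) ≤ C * nsq v := by
    rw [k4, hP1]
    refine (nsq_F_le hU hU' (fun i => ?_) _).trans (hMC _)
    unfold ctop; split_ifs <;> simp
  have k6 : s * (N - 1) * nsq (P1 *ᵥ v) ≤ nsq (B *ᵥ (P1 *ᵥ v)) := by
    have e1 : (Bᴴ * B) *ᵥ (P1 *ᵥ v) = ((s : ℂ) • F U l id) *ᵥ (P1 *ᵥ v) := by
      rw [hB, ← hPP1, ← Matrix.mulVec_mulVec v P P1, Matrix.mulVec_mulVec _ _ P, hBB,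
        ← Matrix.mulVec_mulVec]
    rw [nsq_mulVec B, qf_congr e1, qf_smul, mul_assoc]
    refine mul_le_mul_of_nonneg_left ?_ hs.le
    rw [qf_conj, nsq_mulVec, hP1, F_herm, F_mul hU, F_mul hU, F_mul hU, ← qf_smul, F_smul,
      ← sub_nonneg, ← qf_sub, F_sub]
    refine qf_F_nonneg hU (fun i => ?_) v
    unfold ctop
    split_ifs with h
    · simp only [id]; linarith [h.1]
    · simp
  have k7 := hgap v h1
  have k8 := nsq_pos hv
  have k9 := nsq_nonneg (P1 *ᵥ v)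
  have hsN : 0 < s * (N - 1) := mul_pos hs (by linarith)
  have k10 : δ * (s * (N - 1)) * nsq v ≤ C ^ 2 * nsq v := by
    calc δ * (s * (N - 1)) * nsq v = s * (N - 1) * (δ * nsq v) := by ring
      _ ≤ s * (N - 1) * (C * nsq (P1 *ᵥ v)) := mul_le_mul_of_nonneg_left (k7.trans k3) hsN.le
      _ = C * (s * (N - 1) * nsq (P1 *ᵥ v)) := by ring
      _ ≤ C * (C * nsq v) := mul_le_mul_of_nonneg_left (k6.trans k5) hC
      _ = C ^ 2 * nsq v := by ring
  nlinarith

end Pool.Agent.Lib.helper23.Cl
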