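import Pool.Agent.Lib.helper23.ClB

namespace Pool.Agent.Lib.helper23.Cl

open Matrix

variable {ι : Type} [Fintype ι] [DecidableEq ι]

lemma cstar {x y : Matrix ι ι ℂ} (h : Commute x y) : Commute xᴴ yᴴ := by
  have := congrArg conjTranspose h.eq
  rw [conjTranspose_mul, conjTranspose_mul] at this
  exact this.symm

lemma cstar' {x y : Matrix ι ι ℂ} (h : Commute x yᴴ) : Commute xᴴ y := by
  simpa using cstar h

lemma astar {x y : Matrix ι ι ℂ} (h : x * y = -(y * x)) : xᴴ * yᴴ = -(yᴴ * xᴴ) := by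
  have := congrArg conjTranspose h
  rw [conjTranspose_neg, conjTranspose_mul, conjTranspose_mul] at this
  rw [this, neg_neg]

lemma mul4 {α β α' β' : Matrix ι ι ℂ} (h : Commute β α') :
    (α * β) * (α' * β') = (α * α') * (β * β') := by
  calc (α * β) * (α' * β') = α * (β * α') * β' := by noncomm_ring
    _ = _ := by rw [h.eq]; noncomm_ring

lemma anti4 {α β α' β' : Matrix ι ι ℂ} (h1 : Commute α α') (h2 : Commute β α')
    (h3 : Commute β' α) (h4 : β * β' = -(β' * β)) :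
    (α * β) * (α' * β') = -((α' * β') * (α * β)) := by
  rw [mul4 h2, mul4 h3, h4, h1.eq]; noncomm_ring

lemma sq_sum {d : ℕ} (b : Fin d → Matrix ι ι ℂ) (h : ∀ j k, j ≠ k → b j * b k = -(b k * b j)) :
    (∑ j, b j) * (∑ j, b j) = ∑ j, b j * b j := by
  have h1 : (∑ j, b j) * (∑ j, b j) = ∑ j, ∑ k, b j * b k := Finset.sum_mul_sum _ _ _ _
  have h2 : (∑ j, b j) * (∑ j, b j) = ∑ j, ∑ k, b k * b j := by rw [h1, Finset.sum_comm]
  have h3 : (2 : ℂ) • ((∑ j, b j) * (∑ j, b j)) = (2 : ℂ) • ∑ j, b j * b j := by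
    rw [two_smul, two_smul]
    nth_rewrite 1 [h1]
    rw [h2, ← Finset.sum_add_distrib, ← Finset.sum_add_distrib]
    refine Finset.sum_congr rfl fun j _ => ?_
    rw [← Finset.sum_add_distrib, Finset.sum_eq_single j]
    · intro k _ hk
      rw [h j k hk.symm]; simp
    · simp
  exact smul_right_injective _ (two_ne_zero) h3

lemma anti_sum {d : ℕ} (b c : Fin d → Matrix ι ι ℂ) (h : ∀ j k, b j * c k = -(c k * b j)) :
    (∑ j, b j) * (∑ j, c j) = -((∑ j, c j) * (∑ j, b j)) := by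
  rw [Finset.sum_mul_sum, Finset.sum_mul_sum, Finset.sum_comm, ← Finset.sum_neg_distrib]
  refine Finset.sum_congr rfl fun k _ => ?_
  rw [← Finset.sum_neg_distrib]
  exact Finset.sum_congr rfl fun j _ => h j k

def Sh (N T : Matrix ι ι ℂ) (k : ℝ) : Prop := N * T = T * N + (k : ℂ) • T

lemma Sh.mul {N T S : Matrix ι ι ℂ} {k m : ℝ} (h1 : Sh N T k) (h2 : Sh N S m) :
    Sh N (T * S) (k + m) := by
  unfold Sh at *
  rw [← Matrix.mul_assoc, h1, Matrix.add_mul, Matrix.mul_assoc, h2, Matrix.mul_add,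
    Matrix.smul_mul, Matrix.mul_smul, Matrix.mul_assoc]
  push_cast
  rw [add_smul]; abel

lemma Sh.add {N T S : Matrix ι ι ℂ} {k : ℝ} (h1 : Sh N T k) (h2 : Sh N S k) :
    Sh N (T + S) k := by
  unfold Sh at *
  rw [Matrix.mul_add, h1, h2, Matrix.add_mul, smul_add]; abel

lemma Sh.sub {N T S : Matrix ι ι ℂ} {k : ℝ} (h1 : Sh N T k) (h2 : Sh N S k) :
    Sh N (T - S) k := by
  unfold Sh at *
  rw [Matrix.mul_sub, h1, h2, Matrix.sub_mul, smul_sub]; abel

lemma Sh.smul {N T : Matrix ι ι ℂ} {k : ℝ} (c : ℂ) (h1 : Sh N T k) : Sh N (c • T) k := by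
  unfold Sh at *
  rw [Matrix.mul_smul, h1, Matrix.smul_mul, smul_add, smul_comm]

lemma Sh.sum {N : Matrix ι ι ℂ} {k : ℝ} {d : ℕ} {T : Fin d → Matrix ι ι ℂ}
    (h : ∀ j, Sh N (T j) k) : Sh N (∑ j, T j) k := by
  unfold Sh at *
  rw [Finset.mul_sum, Finset.sum_mul, Finset.smul_sum, ← Finset.sum_add_distrib]
  exact Finset.sum_congr rfl fun j _ => h j

lemma Sh.star {N T : Matrix ι ι ℂ} {k : ℝ} (hN : Nᴴ = N) (h1 : Sh N T k) : Sh N Tᴴ (-k) := by
  unfold Sh at *
  have := congrArg conjTranspose h1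
  rw [conjTranspose_add, conjTranspose_mul, conjTranspose_mul, hN, conjTranspose_smul] at this
  rw [this]
  simp

lemma Sh.of_comm {N T : Matrix ι ι ℂ} (h : Commute N T) : Sh N T 0 := by
  unfold Sh; simpa using h.eq

lemma Sh.comm {N T : Matrix ι ι ℂ} (h : Sh N T 0) : N * T = T * N := by
  unfold Sh at h; simpa using h

lemma Sh.cast {N T : Matrix ι ι ℂ} {k m : ℝ} (h : Sh N T k) (e : k = m) : Sh N T m := e ▸ h

lemma lower_kill {U : Matrix ι ι ℂ} {l : ι → ℝ} (hU : Uᴴ * U = 1) (hU' : U * Uᴴ = 1)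
    {T : Matrix ι ι ℂ} (h : Sh (F U l id) T (-1)) {μ : ℝ} (hμ : ∀ i, μ ≤ l i) :
    T * F U l (fun t => if t = μ then 1 else 0) = 0 := by
  have h1 := F_shift hU hU' h (fun t => if μ ≤ t then 1 else 0)
  have h2 : F U l (fun t => if μ ≤ t then 1 else 0) = 1 := by
    rw [← F_one (l := l) hU']
    exact F_congr fun i => by simp [hμ i]
  rw [h2, Matrix.one_mul] at h1
  rw [h1, Matrix.mul_assoc, F_mul hU]
  have h3 : F U l (fun t => (if μ ≤ t + -1 then 1 else 0) * if t = μ then 1 else 0) = 0 := by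
    rw [← F_zero (U := U) (l := l)]
    refine F_congr fun i => ?_
    by_cases e : l i = μ
    · simp [e]
    · simp [e]
  rw [h3, Matrix.mul_zero]

lemma exists_grading {d : ℕ} (f : Fin d → Matrix ι ι ℂ) (hff : ∀ j k, f j * f k = -(f k * f j))
    (hff' : ∀ j k, j ≠ k → f j * (f k)ᴴ = -((f k)ᴴ * f j))
    (hcar : ∀ j, f j * (f j)ᴴ + (f j)ᴴ * f j = 1) (s : Finset (Fin d)) :
    ∃ G : Matrix ι ι ℂ, (∀ k ∈ s, G * f k = -(f k * G) ∧ G * (f k)ᴴ = -((f k)ᴴ * G)) ∧
      (∀ k ∉ s, Commute G (f k) ∧ Commute G (f k)ᴴ) ∧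
      (∀ T, (∀ j, Commute T (f j) ∧ Commute T (f j)ᴴ) → Commute G T) ∧
      (∀ T : Matrix ι ι ℂ, (∀ j, f j * T = 0) → G * T = T) := by
  have hsq : ∀ j, f j * f j = 0 := by
    intro j
    have h : (2 : ℂ) • (f j * f j) = 0 := by
      rw [two_smul]; nth_rewrite 1 [hff j j]; simp
    exact (smul_eq_zero.1 h).resolve_left two_ne_zero
  have hsq' : ∀ j, (f j)ᴴ * (f j)ᴴ = 0 := by
    intro j; rw [← conjTranspose_mul, hsq, conjTranspose_zero]
  have hn1 : ∀ j k, j ≠ k → Commute ((f j)ᴴ * f j) (f k) := by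
    intro j k hjk
    have e1 := hff j k
    have e2 := hff' k j hjk.symm
    change (f j)ᴴ * f j * f k = f k * ((f j)ᴴ * f j)
    rw [Matrix.mul_assoc, e1, ← Matrix.mul_assoc (f k), e2]; noncomm_ring
  have hn2 : ∀ j k, j ≠ k → Commute ((f j)ᴴ * f j) (f k)ᴴ := by
    intro j k hjk
    simpa using cstar (hn1 j k hjk)
  induction s using Finset.induction_on with
  | empty => exact ⟨1, by simp, by simp, by simp, by simp⟩
  | insert j s hj ih =>
    obtain ⟨G, h1, h2, h3, h4⟩ := ih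
    set t : Matrix ι ι ℂ := 1 - ((f j)ᴴ * f j + (f j)ᴴ * f j) with ht
    have ta : t * f j = -(f j * t) := by
      have e : f j * (f j)ᴴ * f j = f j := by
        have := congrArg (· * f j) (hcar j)
        simp only [Matrix.add_mul, Matrix.mul_assoc, hsq, Matrix.mul_zero, add_zero,
          Matrix.one_mul] at this
        rw [Matrix.mul_assoc, this]
      rw [ht]
      simp only [Matrix.sub_mul, Matrix.add_mul, Matrix.mul_sub, Matrix.mul_add, Matrix.one_mul,
        Matrix.mul_one, ← Matrix.mul_assoc, e]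
      simp only [Matrix.mul_assoc, hsq]
      simp
    have tH : tᴴ = t := by rw [ht]; simp
    have ta' : t * (f j)ᴴ = -((f j)ᴴ * t) := by
      have := astar ta
      rwa [tH] at this
    have tc : ∀ k, j ≠ k → Commute t (f k) ∧ Commute t (f k)ᴴ := fun k hk =>
      ⟨(Commute.one_left _).sub_left ((hn1 j k hk).add_left (hn1 j k hk)),
        (Commute.one_left _).sub_left ((hn2 j k hk).add_left (hn2 j k hk))⟩
    refine ⟨t * G, ?_, ?_, ?_, ?_⟩
    · intro k hk
      rcases Finset.mem_insert.1 hk with rfl | hk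
      · constructor
        · rw [Matrix.mul_assoc, (h2 k hj).1.eq, ← Matrix.mul_assoc, ta]; noncomm_ring
        · rw [Matrix.mul_assoc, (h2 k hj).2.eq, ← Matrix.mul_assoc, ta']; noncomm_ring
      · have hjk : j ≠ k := fun e => hj (e ▸ hk)
        constructor
        · rw [Matrix.mul_assoc, (h1 k hk).1, Matrix.mul_neg, ← Matrix.mul_assoc,
            (tc k hjk).1.eq, Matrix.mul_assoc]
        · rw [Matrix.mul_assoc, (h1 k hk).2, Matrix.mul_neg, ← Matrix.mul_assoc,
            (tc k hjk).2.eq, Matrix.mul_assoc]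
    · intro k hk
      rw [Finset.mem_insert, not_or] at hk
      exact ⟨(tc k (Ne.symm hk.1)).1.mul_left (h2 k hk.2).1,
        (tc k (Ne.symm hk.1)).2.mul_left (h2 k hk.2).2⟩
    · intro T hT
      have c1 : Commute ((f j)ᴴ * f j) T := (hT j).2.symm.mul_left (hT j).1.symm
      exact ((Commute.one_left _).sub_left (c1.add_left c1)).mul_left (h3 T hT)
    · intro T hT
      rw [Matrix.mul_assoc, h4 T hT, ht]
      simp [Matrix.sub_mul, Matrix.add_mul, Matrix.mul_assoc, hT]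

end Pool.Agent.Lib.helper23.Cl
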