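import Pool.Agent.Lib.helper23.ClC

namespace Pool.Agent.Lib.helper23.Cl

open Matrix

variable {ι : Type} [Fintype ι] [DecidableEq ι]

theorem mid [Nonempty ι] {d : ℕ} (a E f A : Fin d → Matrix ι ι ℂ) {Mr r N C g : ℝ}
    (haa : ∀ j k, j ≠ k → Commute (a j) (a k)) (haa' : ∀ j k, j ≠ k → Commute (a j) (a k)ᴴ)
    (haf : ∀ j k, Commute (a j) (f k)) (haf' : ∀ j k, Commute (a j) (f k)ᴴ)
    (haA : ∀ j k, Commute (a j) (A k)) (hA : ∀ j, (A j)ᴴ = A j)
    (hAf : ∀ j k, Commute (A j) (f k))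
    (hccr : ∀ j, a j * (a j)ᴴ = (a j)ᴴ * a j + 1 - (Mr : ℂ) • E j)
    (hE : ∀ j, (E j)ᴴ = E j) (hEE : ∀ j, E j * E j = E j) (haE : ∀ j, (a j)ᴴ * E j = 0)
    (hff : ∀ j k, f j * f k = -(f k * f j))
    (hff' : ∀ j k, j ≠ k → f j * (f k)ᴴ = -((f k)ᴴ * f j))
    (hcar : ∀ j, f j * (f j)ᴴ + (f j)ᴴ * f j = 1)
    (hr : 0 < r) (hN : 1 < N) (hNM : N < Mr) (hC : 0 ≤ C)
    (hMC : ∀ v, nsq ((∑ j, A j * (f j + (f j)ᴴ)) *ᵥ v) ≤ C * nsq v)
    (hgap : ∀ v, g * nsq v ≤
      nsq ((∑ j, (A j - (r : ℂ) • (a j + (a j)ᴴ)) * (f j + (f j)ᴴ)) *ᵥ v))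
    (hbig : C ^ 2 < (g - 2 * d * r ^ 2) * (4 * r ^ 2 * (N - 1))) : False := by
  have hM0 : (Mr : ℂ) ≠ 0 := by exact_mod_cast (by linarith : Mr ≠ 0)
  have hsq : ∀ j, f j * f j = 0 := by
    intro j
    have h : (2 : ℂ) • (f j * f j) = 0 := by
      rw [two_smul]; nth_rewrite 1 [hff j j]; simp
    exact (smul_eq_zero.1 h).resolve_left two_ne_zero
  have hsq' : ∀ j, (f j)ᴴ * (f j)ᴴ = 0 := by
    intro j; rw [← conjTranspose_mul, hsq, conjTranspose_zero]
  have hn1 : ∀ j k, j ≠ k → Commute ((f j)ᴴ * f j) (f k) := by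
    intro j k hjk
    have e1 := hff j k
    have e2 := hff' k j hjk.symm
    change (f j)ᴴ * f j * f k = f k * ((f j)ᴴ * f j)
    rw [Matrix.mul_assoc, e1, ← Matrix.mul_assoc (f k), e2]; noncomm_ring
  have hfff : ∀ j, f j * ((f j)ᴴ * f j) = f j := by
    intro j
    have := congrArg (· * f j) (hcar j)
    simpa only [Matrix.add_mul, Matrix.mul_assoc, hsq, Matrix.mul_zero, add_zero,
      Matrix.one_mul] using this
  have hsf : ∀ j k, Commute (a j)ᴴ (f k) := fun j k => cstar' (haf' j k)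
  have hsf' : ∀ j k, Commute (a j)ᴴ (f k)ᴴ := fun j k => cstar (haf j k)
  have hsA : ∀ j k, Commute (a j)ᴴ (A k) := fun j k => cstar' (by rw [hA]; exact haA j k)
  have hAf' : ∀ j k, Commute (A j) (f k)ᴴ := fun j k => by
    have := cstar (hAf j k); rwa [hA] at this
  have hff'' : ∀ j k, (f j)ᴴ * (f k)ᴴ = -((f k)ᴴ * (f j)ᴴ) := fun j k => astar (hff j k)
  have hf'f : ∀ j k, j ≠ k → (f j)ᴴ * f k = -(f k * (f j)ᴴ) := fun j k h => by
    rw [hff' k j h.symm, neg_neg]
  have hEa : ∀ j, E j * a j = 0 := by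
    intro j
    have := congrArg conjTranspose (haE j)
    rwa [conjTranspose_mul, hE, conjTranspose_conjTranspose, conjTranspose_zero] at this
  set Nn : Matrix ι ι ℂ := ∑ j, ((a j)ᴴ * a j + (f j)ᴴ * f j) with hNn
  have hNH : Nnᴴ = Nn := by
    rw [hNn, conjTranspose_sum]
    exact Finset.sum_congr rfl fun j _ => by simp
  have shA : ∀ k, Sh Nn (a k) (-1) := by
    intro k
    have h : ∀ j, ((a j)ᴴ * a j + (f j)ᴴ * f j) * a k =
        a k * ((a j)ᴴ * a j + (f j)ᴴ * f j) + if j = k then -(a k) else 0 := by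
      intro j
      have c1 : Commute ((f j)ᴴ * f j) (a k) := (haf' k j).symm.mul_left (haf k j).symm
      split_ifs with h
      · subst h
        rw [Matrix.add_mul, Matrix.mul_add, c1.eq, ← Matrix.mul_assoc (a j) (a j)ᴴ, hccr,
          Matrix.sub_mul, Matrix.add_mul, Matrix.smul_mul, hEa]
        simp only [Matrix.one_mul, smul_zero, sub_zero]
        abel
      · rw [add_zero]
        exact (((haa' k j (Ne.symm h)).symm.mul_left (haa j k h)).add_left c1).eq
    unfold Sh
    rw [hNn, Finset.sum_mul, Finset.mul_sum]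
    simp only [h, Finset.sum_add_distrib, Finset.sum_ite_eq', Finset.mem_univ, if_true]
    simp
  have shF : ∀ k, Sh Nn (f k) (-1) := by
    intro k
    have h : ∀ j, ((a j)ᴴ * a j + (f j)ᴴ * f j) * f k =
        f k * ((a j)ᴴ * a j + (f j)ᴴ * f j) + if j = k then -(f k) else 0 := by
      intro j
      have c1 : Commute ((a j)ᴴ * a j) (f k) := (hsf j k).mul_left (haf j k)
      split_ifs with h
      · subst h
        rw [Matrix.add_mul, Matrix.mul_add, c1.eq, hfff, Matrix.mul_assoc, hsq]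
        simp
      · rw [add_zero]
        exact (c1.add_left (hn1 j k h)).eq
    unfold Sh
    rw [hNn, Finset.sum_mul, Finset.mul_sum]
    simp only [h, Finset.sum_add_distrib, Finset.sum_ite_eq', Finset.mem_univ, if_true]
    simp
  have shAA : ∀ k, Sh Nn (A k) 0 := by
    intro k
    refine Sh.of_comm (Commute.sum_left _ _ _ fun j _ => ?_)
    exact ((hsA j k).mul_left (haA j k)).add_left ((hAf' k j).symm.mul_left (hAf k j).symm)
  have shE : ∀ j, Sh Nn (E j) 0 := by
    intro j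
    have e : E j = (Mr : ℂ)⁻¹ • ((a j)ᴴ * a j + 1 - a j * (a j)ᴴ) := by
      rw [hccr, sub_sub_cancel, smul_smul, inv_mul_cancel₀ hM0, one_smul]
    rw [e]
    refine Sh.smul _ (Sh.sub (Sh.add ?_ (Sh.of_comm (Commute.one_right _))) ?_)
    · exact (((shA j).star hNH).mul (shA j)).cast (by ring)
    · exact ((shA j).mul ((shA j).star hNH)).cast (by ring)
  have hEn : ∀ j, Commute (E j) ((f j)ᴴ * f j) := by
    intro j
    have e : E j = (Mr : ℂ)⁻¹ • ((a j)ᴴ * a j + 1 - a j * (a j)ᴴ) := by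
      rw [hccr, sub_sub_cancel, smul_smul, inv_mul_cancel₀ hM0, one_smul]
    have c1 : Commute (a j) ((f j)ᴴ * f j) := (haf' j j).mul_right (haf j j)
    have c2 : Commute (a j)ᴴ ((f j)ᴴ * f j) := (hsf' j j).mul_right (hsf j j)
    rw [e]
    exact (((c2.mul_left c1).add_left (Commute.one_left _)).sub_left (c1.mul_left c2)).smul_left _
  obtain ⟨U, l, hU, hU', hNF⟩ := exists_diag (N := Nn) hNH
  -- the bottom of the spectrum
  obtain ⟨i0, hi0⟩ := Finite.exists_min l
  have hkill : Nn * F U l (fun t => if t = l i0 then 1 else 0) = 0 := by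
    rw [hNn, Finset.sum_mul]
    refine Finset.sum_eq_zero fun j _ => ?_
    rw [Matrix.add_mul, Matrix.mul_assoc, Matrix.mul_assoc,
      lower_kill hU hU' (hNF ▸ shA j) hi0, lower_kill hU hU' (hNF ▸ shF j) hi0]
    simp
  have hl0 : l i0 = 0 := by
    rw [hNF, F_mul hU] at hkill
    have h1 := congrArg trace hkill
    rw [trace_F hU, trace_zero] at h1
    have h2 : ∑ i, (if l i = l i0 then l i0 else 0) = 0 := by
      have : ((∑ i, (if l i = l i0 then l i0 else 0) : ℝ) : ℂ) = 0 := by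
        rw [← h1]
        push_cast
        refine Finset.sum_congr rfl fun i _ => ?_
        split_ifs with h <;> simp [h]
      exact_mod_cast this
    rw [← Finset.sum_filter, Finset.sum_const, nsmul_eq_mul, mul_eq_zero] at h2
    refine h2.resolve_left ?_
    have : 0 < (Finset.univ.filter fun i => l i = l i0).card :=
      Finset.card_pos.2 ⟨i0, by simp⟩
    exact_mod_cast this.ne'
  have hfP0 : ∀ j, f j * F U l cz = 0 := by
    intro j
    have := lower_kill hU hU' (hNF ▸ shF j) hi0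
    rw [hl0] at this
    exact this
  obtain ⟨G, hG1, -, hG3, hG4⟩ := exists_grading f hff hff' hcar Finset.univ
  have gf : ∀ k, G * f k = -(f k * G) := fun k => (hG1 k (Finset.mem_univ _)).1
  have gf' : ∀ k, G * (f k)ᴴ = -((f k)ᴴ * G) := fun k => (hG1 k (Finset.mem_univ _)).2
  have ga : ∀ k, Commute G (a k) := fun k => hG3 _ fun j => ⟨haf k j, haf' k j⟩
  have gs : ∀ k, Commute G (a k)ᴴ := fun k => hG3 _ fun j => ⟨hsf k j, hsf' k j⟩
  have gA : ∀ k, Commute G (A k) := fun k => hG3 _ fun j => ⟨hAf k j, hAf' k j⟩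
  have godd : ∀ x y : Matrix ι ι ℂ, Commute G x → G * y = -(y * G) →
      G * (x * y) = -((x * y) * G) := by
    intro x y h1 h2
    rw [← Matrix.mul_assoc, h1.eq, Matrix.mul_assoc, h2]; noncomm_ring
  set b : Fin d → Matrix ι ι ℂ := fun j => (a j)ᴴ * f j + a j * (f j)ᴴ with hb
  set B : Matrix ι ι ℂ := ((2 * r : ℝ) : ℂ) • ∑ j, b j with hB
  set Mp : Matrix ι ι ℂ := ∑ j, A j * (f j)ᴴ with hMp
  have hMsum : Mp + Mpᴴ = ∑ j, A j * (f j + (f j)ᴴ) := by
    rw [hMp, conjTranspose_sum, ← Finset.sum_add_distrib]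
    refine Finset.sum_congr rfl fun j _ => ?_
    rw [conjTranspose_mul, conjTranspose_conjTranspose, hA, ← (hAf j j).eq, Matrix.mul_add,
      add_comm]
  have hBH : Bᴴ = B := by
    rw [hB, conjTranspose_smul, conjTranspose_sum]
    congr 1
    · simp
    · refine Finset.sum_congr rfl fun j _ => ?_
      simp only [hb, conjTranspose_add, conjTranspose_mul, conjTranspose_conjTranspose]
      rw [← (haf' j j).eq, ← (hsf j j).eq, add_comm]
  have shB : Sh Nn B 0 := by
    refine Sh.smul _ (Sh.sum fun j => Sh.add ?_ ?_)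
    · exact (((shA j).star hNH).mul (shF j)).cast (by ring)
    · exact ((shA j).mul ((shF j).star hNH)).cast (by ring)
  have hbanti : ∀ j k, j ≠ k → b j * b k = -(b k * b j) := by
    intro j k h
    simp only [hb, Matrix.add_mul, Matrix.mul_add]
    rw [anti4 (cstar (haa j k h)) (hsf k j).symm (hsf j k).symm (hff j k),
      anti4 (haa' j k h) (hsf' k j).symm (haf j k).symm (hf'f j k h),
      anti4 (haa' k j h.symm).symm (haf k j).symm (hsf' j k).symm (hff' j k h),
      anti4 (haa j k h) (haf' k j).symm (haf' j k).symm (hff'' j k)]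
    abel
  have hbsq : ∀ j, b j * b j =
      (a j)ᴴ * a j + (f j)ᴴ * f j - (Mr : ℂ) • (E j * ((f j)ᴴ * f j)) := by
    intro j
    simp only [hb, Matrix.add_mul, Matrix.mul_add]
    rw [mul4 (hsf j j).symm, mul4 (hsf' j j).symm, mul4 (haf j j).symm, mul4 (haf' j j).symm, hsq,
      hsq', hccr, eq_sub_of_add_eq (hcar j)]
    simp only [Matrix.mul_zero, Matrix.sub_mul, Matrix.add_mul, Matrix.mul_sub, Matrix.one_mul,
      Matrix.mul_one, Matrix.smul_mul]
    abel
  have hBB0 : B * B = ((4 * r ^ 2 : ℝ) : ℂ) •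
      (Nn - (Mr : ℂ) • ∑ j, E j * ((f j)ᴴ * f j)) := by
    rw [hB, Matrix.smul_mul, Matrix.mul_smul, smul_smul, sq_sum b hbanti, hNn, Finset.smul_sum,
      Finset.smul_sum, ← Finset.sum_sub_distrib, Finset.smul_sum]
    refine Finset.sum_congr rfl fun j _ => ?_
    rw [hbsq]
    congr 1
    push_cast; ring
  have hqN : ∀ j v, qf ((a j)ᴴ * a j + (f j)ᴴ * f j) v ≤ qf Nn v := by
    intro j v
    rw [hNn, qf_sum]
    refine Finset.single_le_sum (f := fun j => qf ((a j)ᴴ * a j + (f j)ᴴ * f j) v)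
      (fun k _ => ?_) (Finset.mem_univ j)
    rw [qf_add]
    exact add_nonneg (qf_self_nonneg _ _) (qf_self_nonneg _ _)
  have hGP : ∀ j, E j * ((f j)ᴴ * f j) * F U l (cle N) = 0 := by
    intro j
    set T := E j * ((f j)ᴴ * f j) with hT
    have shT : Sh Nn T 0 :=
      ((shE j).mul (((shF j).star hNH).mul (shF j))).cast (by ring)
    have hTF : ∀ φ, F U l φ * T = T * F U l φ := F_comm hU hU' (hNF ▸ shT.comm)
    have hNE : (a j)ᴴ * a j * E j = (Mr : ℂ) • E j - E j := by
      have := congrArg (· * E j) (hccr j)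
      simp only [Matrix.sub_mul, Matrix.add_mul, Matrix.smul_mul, hEE, Matrix.one_mul] at this
      rw [Matrix.mul_assoc, haE, Matrix.mul_zero] at this
      rw [eq_sub_iff_add_eq, ← sub_eq_zero, ← this]
    have hTT : ((a j)ᴴ * a j + (f j)ᴴ * f j) * T = (Mr : ℂ) • T := by
      rw [hT, Matrix.add_mul, ← Matrix.mul_assoc _ (E j), hNE, ← Matrix.mul_assoc _ (E j),
        ← (hEn j).eq, Matrix.mul_assoc (E j), Matrix.mul_assoc (f j)ᴴ, hfff, Matrix.sub_mul,
        Matrix.smul_mul]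
      abel
    refine Matrix.ext_of_mulVec_single fun i => ?_
    set w : ι → ℂ := Pi.single i 1
    rw [zero_mulVec]
    apply eq_zero_of_nsq
    set φ := (T * F U l (cle N)) *ᵥ w with hφ
    have h1 : Mr * nsq φ ≤ qf Nn φ := by
      refine le_trans (le_of_eq ?_) (hqN j φ)
      rw [← qf_one, ← qf_smul]
      apply qf_congr
      rw [hφ, Matrix.mulVec_mulVec, Matrix.mulVec_mulVec, ← Matrix.mul_assoc (_ + _) T,
        hTT, Matrix.smul_mul, Matrix.smul_mul, Matrix.one_mul]
    have h2 : qf Nn φ ≤ N * nsq φ := by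
      rw [hφ, ← hTF, ← Matrix.mulVec_mulVec, qf_conj, nsq_mulVec, hNF, F_herm, F_mul hU, F_mul hU,
        F_mul hU, ← qf_smul, F_smul, ← sub_nonneg, ← qf_sub, F_sub]
      refine qf_F_nonneg hU (fun i => ?_) _
      unfold cle
      split_ifs with h
      · simp only [id]; linarith
      · simp
    nlinarith [nsq_nonneg φ]
  have hBB : B * B * F U l (cle N) = ((4 * r ^ 2 : ℝ) : ℂ) • F U l id * F U l (cle N) := by
    have e : (∑ j, E j * ((f j)ᴴ * f j)) * F U l (cle N) = 0 := by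
      rw [Finset.sum_mul]; exact Finset.sum_eq_zero fun j _ => hGP j
    rw [hBB0, Matrix.smul_mul, Matrix.sub_mul, Matrix.smul_mul, e, ← hNF,
      Matrix.smul_mul, smul_zero, sub_zero]
  refine contra (B := B) (Mp := Mp) (G := G) (s := 4 * r ^ 2) (N := N) (C := C)
    (δ := g - 2 * d * r ^ 2) hU hU' ⟨i0, hl0⟩ (by positivity) hN hC hBH (hNF ▸ shB.comm) hBB ?_ ?_
    ?_ ?_ ?_ (hG4 _ hfP0) ?_ hbig
  · rw [← hNF]
    exact Sh.sum fun j => ((shAA j).mul ((shF j).star hNH)).cast (by ring)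
  · rw [hMsum]; exact hMC
  · rw [← hNF]
    refine (Commute.sum_right _ _ _ fun j _ => ((gs j).mul_right (ga j)).add_right ?_).symm.eq
    change G * ((f j)ᴴ * f j) = (f j)ᴴ * f j * G
    rw [← Matrix.mul_assoc, gf', Matrix.neg_mul, Matrix.mul_assoc, gf]; noncomm_ring
  · rw [hB, Matrix.mul_smul, Matrix.smul_mul, ← smul_neg, Finset.mul_sum, Finset.sum_mul,
      ← Finset.sum_neg_distrib]
    congr 1
    refine Finset.sum_congr rfl fun j _ => ?_
    simp only [hb]
    rw [Matrix.mul_add, Matrix.add_mul, godd _ _ (gs j) (gf j), godd _ _ (ga j) (gf' j)]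
    abel
  · rw [hMsum, Finset.mul_sum, Finset.sum_mul, ← Finset.sum_neg_distrib]
    refine Finset.sum_congr rfl fun j _ => godd _ _ (gA j) ?_
    rw [Matrix.mul_add, Matrix.add_mul, gf, gf']; abel
  · intro v hv
    rw [hMsum]
    set M := ∑ j, A j * (f j + (f j)ᴴ) with hM
    set X := ∑ j, ((r : ℂ) • (a j + (a j)ᴴ)) * (f j + (f j)ᴴ) with hX
    have hL : ∑ j, (A j - (r : ℂ) • (a j + (a j)ᴴ)) * (f j + (f j)ᴴ) = M - X := by
      rw [hM, hX, ← Finset.sum_sub_distrib]
      exact Finset.sum_congr rfl fun j _ => Matrix.sub_mul _ _ _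
    have hPX : B - X = ∑ j, ((r : ℂ) • ((a j)ᴴ - a j)) * (f j - (f j)ᴴ) := by
      rw [hB, hX, Finset.smul_sum, ← Finset.sum_sub_distrib]
      refine Finset.sum_congr rfl fun j _ => ?_
      simp only [hb, Matrix.smul_mul, Matrix.add_mul, Matrix.sub_mul, Matrix.mul_add,
        Matrix.mul_sub]
      push_cast
      module
    have hanti : (B - X) * M = -(M * (B - X)) := by
      rw [hPX, hM]
      refine anti_sum _ _ fun j k => anti4 ?_ ?_ ?_ ?_
      · exact ((hsA j k).sub_left (haA j k)).smul_left _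
      · exact (hAf k j).symm.sub_left (hAf' k j).symm
      · exact (((hsf j k).add_right (hsf' j k)).sub_left
          ((haf j k).add_right (haf' j k))).smul_left _ |>.symm
      · by_cases h : j = k
        · subst h
          simp only [Matrix.add_mul, Matrix.sub_mul, Matrix.mul_add, Matrix.mul_sub, hsq, hsq']
          abel
        · simp only [Matrix.add_mul, Matrix.sub_mul, Matrix.mul_add, Matrix.mul_sub]
          rw [hff j k, hff' j k h, hf'f j k h, hff'' j k]
          abel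
    have hcc : ∀ j, (f j + (f j)ᴴ) * (f j + (f j)ᴴ) = 1 := by
      intro j
      simp only [Matrix.add_mul, Matrix.mul_add, hsq, hsq']
      rw [← hcar j]; abel
    have hxf : ∀ j k, Commute (f k + (f k)ᴴ) ((r : ℂ) • (a j + (a j)ᴴ)) := fun j k =>
      (((haf j k).add_right (haf' j k)).add_left ((hsf j k).add_right (hsf' j k))).smul_left _
        |>.symm
    have hXX : X * X = ∑ j, ((r ^ 2 : ℝ) : ℂ) • ((a j + (a j)ᴴ) * (a j + (a j)ᴴ)) := by
      rw [hX, sq_sum]
      · refine Finset.sum_congr rfl fun j _ => ?_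
        rw [mul4 (hxf j j), hcc, Matrix.mul_one, Matrix.smul_mul, Matrix.mul_smul, smul_smul]
        congr 1
        push_cast; ring
      · intro j k h
        refine anti4 ?_ (hxf k j) (hxf j k) ?_
        · exact ((((haa j k h).add_right (haa' j k h)).add_left
            ((haa' k j h.symm).symm.add_right (cstar (haa j k h)))).smul_left _).smul_right _
        · simp only [Matrix.add_mul, Matrix.mul_add]
          rw [hff j k, hff' j k h, hf'f j k h, hff'' j k]
          abel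
    have hMH : Mᴴ = M := by rw [← hMsum]; simp [add_comm]
    have hXH : Xᴴ = X := by
      rw [hX, conjTranspose_sum]
      refine Finset.sum_congr rfl fun j _ => ?_
      rw [conjTranspose_mul, ← (hxf j j).eq]
      simp [add_comm]
    have hid : (M - B)ᴴ * (M - B) = (M - X)ᴴ * (M - X) + B * B - X * X := by
      rw [conjTranspose_sub, conjTranspose_sub, hMH, hBH, hXH]
      have : (M - B) * (M - B) =
          (M - X) * (M - X) + B * B - X * X - ((B - X) * M + M * (B - X)) := by noncomm_ring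
      rw [this, hanti]; simp
    have q1 : qf (B * B) v = 4 * r ^ 2 * qf Nn v := by
      rw [← qf_smul]
      apply qf_congr
      rw [← hv, Matrix.mulVec_mulVec, hBB, ← hNF, Matrix.mulVec_mulVec]
    have q2 : ∀ j, qf ((a j + (a j)ᴴ) * (a j + (a j)ᴴ)) v ≤
        4 * qf ((a j)ᴴ * a j + (f j)ᴴ * f j) v + 2 * nsq v := by
      intro j
      have e : (a j + (a j)ᴴ) * (a j + (a j)ᴴ) + (a j - (a j)ᴴ)ᴴ * (a j - (a j)ᴴ) +
          ((2 * Mr : ℝ) : ℂ) • ((E j)ᴴ * E j) =
          ((4 : ℝ) : ℂ) • ((a j)ᴴ * a j) + ((2 : ℝ) : ℂ) • (1 : Matrix ι ι ℂ) := by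
        rw [hE, hEE, conjTranspose_sub, conjTranspose_conjTranspose]
        simp only [Matrix.add_mul, Matrix.sub_mul, Matrix.mul_add, Matrix.mul_sub, hccr]
        push_cast
        module
      have e2 := congrArg (fun T => qf T v) e
      simp only [qf_add, qf_smul, qf_one] at e2 ⊢
      have := qf_self_nonneg (a j - (a j)ᴴ) v
      have := qf_self_nonneg (E j) v
      have := qf_self_nonneg (f j) v
      nlinarith
    have q3 : qf (X * X) v ≤ 4 * r ^ 2 * qf Nn v + 2 * d * r ^ 2 * nsq v := by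
      rw [hXX, qf_sum, hNn, qf_sum]
      calc ∑ j, qf (((r ^ 2 : ℝ) : ℂ) • ((a j + (a j)ᴴ) * (a j + (a j)ᴴ))) v
          ≤ ∑ j : Fin d, (4 * r ^ 2 * qf ((a j)ᴴ * a j + (f j)ᴴ * f j) v + 2 * r ^ 2 * nsq v) := by
            refine Finset.sum_le_sum fun j _ => ?_
            rw [qf_smul]
            nlinarith [q2 j, sq_nonneg r]
        _ = _ := by
            rw [Finset.sum_add_distrib, ← Finset.mul_sum]
            simp; ring
    have q4 := hgap v
    rw [hL, nsq_mulVec] at q4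
    rw [nsq_mulVec, hid, qf_sub, qf_add, q1]
    linarith

end Pool.Agent.Lib.helper23.Cl
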