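import Pool.Agent.Lib.helper23.ClD

namespace Pool.Agent.Lib.helper23.Cl

open Matrix
open scoped Kronecker

lemma osc0 (m : ℕ) : ∃ a E : Matrix (Fin (m + 1)) (Fin (m + 1)) ℂ,
    a * aᴴ = aᴴ * a + 1 - (((m + 1 : ℕ) : ℝ) : ℂ) • E ∧ Eᴴ = E ∧ E * E = E ∧ aᴴ * E = 0 := by
  let c : Fin m → ℂ := fun i => ((√((i : ℝ) + 1) : ℝ) : ℂ)
  have hc : ∀ i, c i * c i = (i : ℂ) + 1 := by
    intro i
    simp only [c]
    rw [← Complex.ofReal_mul, Real.mul_self_sqrt (by positivity)]
    push_cast; rfl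
  have hH : (∑ i : Fin m, Matrix.single i.castSucc i.succ (c i))ᴴ =
      ∑ i : Fin m, Matrix.single i.succ i.castSucc (c i) := by
    rw [conjTranspose_sum]
    refine Finset.sum_congr rfl fun i _ => ?_
    rw [conjTranspose_single]
    simp [c]
  refine ⟨∑ i : Fin m, Matrix.single i.castSucc i.succ (c i),
    Matrix.single (Fin.last m) (Fin.last m) 1, ?_, ?_, ?_, ?_⟩
  · rw [hH, Finset.sum_mul_sum, Finset.sum_mul_sum]
    have e1 : ∀ i : Fin m, ∑ j : Fin m, Matrix.single i.castSucc i.succ (c i) *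
        Matrix.single j.succ j.castSucc (c j) =
        Matrix.single i.castSucc i.castSucc (((i.castSucc : Fin (m + 1)) : ℂ) + 1) := by
      intro i
      rw [Finset.sum_eq_single i]
      · rw [single_mul_single_same, hc]; simp
      · intro j _ hj
        exact single_mul_single_of_ne _ _ _ _ (fun h => hj (Fin.succ_injective _ h).symm) _
      · simp
    have e2 : ∀ i : Fin m, ∑ j : Fin m, Matrix.single i.succ i.castSucc (c i) *
        Matrix.single j.castSucc j.succ (c j) =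
        Matrix.single i.succ i.succ ((i.succ : Fin (m + 1)) : ℂ) := by
      intro i
      rw [Finset.sum_eq_single i]
      · rw [single_mul_single_same, hc]; simp
      · intro j _ hj
        exact single_mul_single_of_ne _ _ _ _ (fun h => hj (Fin.castSucc_injective _ h).symm) _
      · simp
    simp only [e1, e2]
    have e3 := Fin.sum_univ_castSucc
      (fun i : Fin (m + 1) => Matrix.single i i ((i : ℂ) + 1))
    have e4 := Fin.sum_univ_succ (fun i : Fin (m + 1) => Matrix.single i i ((i : ℂ)))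
    have e5 : ∑ i : Fin (m + 1), Matrix.single i i ((i : ℂ) + 1) =
        ∑ i : Fin (m + 1), Matrix.single i i ((i : ℂ)) + 1 := by
      rw [← sum_single_one, ← Finset.sum_add_distrib]
      exact Finset.sum_congr rfl fun i _ => single_add _ _ _ _
    rw [e5, e4] at e3
    rw [eq_sub_iff_add_eq, smul_single]
    simp only [Fin.val_zero, Nat.cast_zero, single_zero, zero_add, Fin.val_last] at e3
    rw [e3]
    simp
  · rw [conjTranspose_single]; simp
  · rw [single_mul_single_same]; simp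
  · rw [hH, Finset.sum_mul]
    exact Finset.sum_eq_zero fun i _ =>
      single_mul_single_of_ne _ _ _ _ (Fin.castSucc_lt_last i).ne _

lemma osc (m : ℕ) : ∃ (a E : Matrix (Fin (m + 1)) (Fin (m + 1)) ℂ) (ξ : Fin (m + 1) → ℝ),
    a * aᴴ = aᴴ * a + 1 - (((m + 1 : ℕ) : ℝ) : ℂ) • E ∧ Eᴴ = E ∧ E * E = E ∧ aᴴ * E = 0 ∧
      a + aᴴ = diagonal fun i => (ξ i : ℂ) := by
  obtain ⟨a, E, h1, h2, h3, h4⟩ := osc0 m
  obtain ⟨U, l, hU, hU', hF⟩ := exists_diag (N := a + aᴴ) (by simp [IsHermitian, add_comm])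
  have cm : ∀ x y : Matrix (Fin (m + 1)) (Fin (m + 1)) ℂ,
      (Uᴴ * x * U) * (Uᴴ * y * U) = Uᴴ * (x * y) * U := by
    intro x y
    calc _ = Uᴴ * x * (U * Uᴴ) * y * U := by simp only [Matrix.mul_assoc]
      _ = _ := by rw [hU']; simp only [Matrix.mul_assoc, Matrix.one_mul]
  have cs : ∀ x : Matrix (Fin (m + 1)) (Fin (m + 1)) ℂ, (Uᴴ * x * U)ᴴ = Uᴴ * xᴴ * U := by
    intro x; simp [Matrix.mul_assoc]
  refine ⟨Uᴴ * a * U, Uᴴ * E * U, l, ?_, ?_, ?_, ?_, ?_⟩
  · rw [cs, cm, cm, h1, Matrix.mul_sub, Matrix.mul_add, Matrix.sub_mul, Matrix.add_mul,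
      Matrix.mul_one, hU, Matrix.mul_smul, Matrix.smul_mul]
  · rw [cs, h2]
  · rw [cm, h3]
  · rw [cs, cm, h4]; simp
  · rw [cs, ← Matrix.add_mul, ← Matrix.mul_add, hF, F]
    calc _ = (Uᴴ * U) * diagonal (fun i => ((id (l i) : ℝ) : ℂ)) * (Uᴴ * U) := by
          simp only [Matrix.mul_assoc]
      _ = _ := by rw [hU]; simp

section slot
variable {d : ℕ} {μ : Type} [Fintype μ] [DecidableEq μ]

noncomputable def tens (T : Fin d → Matrix μ μ ℂ) : Matrix (Fin d → μ) (Fin d → μ) ℂ :=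
  Matrix.of fun i k => ∏ j, T j (i j) (k j)

lemma tens_mul (S T : Fin d → Matrix μ μ ℂ) : tens S * tens T = tens (S * T) := by
  ext i k
  simp only [tens, Matrix.mul_apply, Matrix.of_apply, Pi.mul_apply]
  rw [Finset.prod_univ_sum, Fintype.piFinset_univ]
  exact Finset.sum_congr rfl fun x _ => Finset.prod_mul_distrib.symm

noncomputable def slot (j : Fin d) (A : Matrix μ μ ℂ) : Matrix (Fin d → μ) (Fin d → μ) ℂ :=
  tens (Pi.mulSingle j A)

lemma slot_apply (j : Fin d) (A : Matrix μ μ ℂ) (i k : Fin d → μ) :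
    slot j A i k = A (i j) (k j) * ∏ l ∈ Finset.univ.erase j, (1 : Matrix μ μ ℂ) (i l) (k l) := by
  simp only [slot, tens, Matrix.of_apply]
  rw [← Finset.mul_prod_erase _ _ (Finset.mem_univ j), Pi.mulSingle_eq_same]
  congr 1
  refine Finset.prod_congr rfl fun l hl => ?_
  rw [Pi.mulSingle_eq_of_ne (Finset.ne_of_mem_erase hl)]

lemma slot_mul (j : Fin d) (A B : Matrix μ μ ℂ) : slot j A * slot j B = slot j (A * B) := by
  rw [slot, slot, tens_mul, slot, Pi.mulSingle_mul]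

lemma slot_comm {j k : Fin d} (h : j ≠ k) (A B : Matrix μ μ ℂ) :
    Commute (slot j A) (slot k B) := by
  change _ * _ = _ * _
  rw [slot, slot, tens_mul, tens_mul,
    (Pi.mulSingle_commute (f := fun _ : Fin d => Matrix μ μ ℂ) h A B).eq]

lemma slot_add (j : Fin d) (A B : Matrix μ μ ℂ) : slot j (A + B) = slot j A + slot j B := by
  ext i k; simp [slot_apply, add_mul]

lemma slot_sub (j : Fin d) (A B : Matrix μ μ ℂ) : slot j (A - B) = slot j A - slot j B := by
  ext i k; simp [slot_apply, sub_mul]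

lemma slot_smul (j : Fin d) (c : ℂ) (A : Matrix μ μ ℂ) : slot j (c • A) = c • slot j A := by
  ext i k; simp [slot_apply, mul_assoc]

lemma slot_zero (j : Fin d) : slot j (0 : Matrix μ μ ℂ) = 0 := by
  ext i k; simp [slot_apply]

lemma slot_star (j : Fin d) (A : Matrix μ μ ℂ) : (slot j A)ᴴ = slot j Aᴴ := by
  ext i k
  simp only [conjTranspose_apply, slot_apply, star_mul', star_prod]
  congr 1
  refine Finset.prod_congr rfl fun l _ => ?_
  simp [Matrix.one_apply, eq_comm]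

lemma slot_diag (j : Fin d) (ξ : μ → ℂ) :
    slot j (diagonal ξ) = diagonal fun i : Fin d → μ => ξ (i j) := by
  ext i k
  rw [slot_apply]
  by_cases h : i = k
  · subst h; simp
  · rw [diagonal_apply_ne _ h]
    obtain ⟨l, hl⟩ := Function.ne_iff.1 h
    by_cases hlj : l = j
    · subst hlj; rw [diagonal_apply_ne _ hl, zero_mul]
    · exact mul_eq_zero_of_right _
        (Finset.prod_eq_zero (Finset.mem_erase.2 ⟨hlj, Finset.mem_univ l⟩) (one_apply_ne hl))

lemma slot_one (j : Fin d) : slot j (1 : Matrix μ μ ℂ) = 1 := by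
  rw [← diagonal_one, slot_diag, diagonal_one]

end slot

section blocks
variable {p κ : Type} [Fintype p] [DecidableEq p] [Fintype κ] [DecidableEq κ]

lemma nsq_prod (v : p × κ → ℂ) : nsq v = ∑ i, nsq fun y => v (i, y) := by
  simp only [nsq, Fintype.sum_prod_type]

lemma block_mulVec (T : p → Matrix κ κ ℂ) (S : Matrix (p × κ) (p × κ) ℂ)
    (h : ∀ i x k y, S (i, x) (k, y) = if i = k then T i x y else 0) (v : p × κ → ℂ) (i : p) :
    (fun x => (S *ᵥ v) (i, x)) = T i *ᵥ fun y => v (i, y) := by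
  ext x
  simp only [mulVec, dotProduct, Fintype.sum_prod_type, h]
  rw [Finset.sum_eq_single i]
  · simp
  · intro k _ hk; simp [hk.symm]
  · simp

end blocks

variable {κ : Type} [Fintype κ] [DecidableEq κ]

lemma exists_bound (T : Matrix κ κ ℂ) : ∃ C : ℝ, 0 ≤ C ∧ ∀ v, nsq (T *ᵥ v) ≤ C * nsq v := by
  refine ⟨∑ i, ∑ j, ‖T i j‖ ^ 2, by positivity, fun v => ?_⟩
  rw [Finset.sum_mul, nsq]
  refine Finset.sum_le_sum fun i _ => ?_
  refine le_trans ?_ (Finset.sum_mul_sq_le_sq_mul_sq _ (fun j => ‖T i j‖) (fun j => ‖v j‖))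
  gcongr
  simp only [mulVec, dotProduct]
  exact (norm_sum_le _ _).trans (le_of_eq (Finset.sum_congr rfl fun j _ => norm_mul _ _))

lemma nsq_sub_le (u w : κ → ℂ) : nsq (u - w) ≤ 2 * nsq u + 2 * nsq w := by
  simp only [nsq, Finset.mul_sum, ← Finset.sum_add_distrib, Pi.sub_apply]
  refine Finset.sum_le_sum fun i _ => ?_
  have h := norm_sub_le (u i) (w i)
  have h2 : ‖u i - w i‖ ^ 2 ≤ (‖u i‖ + ‖w i‖) ^ 2 := by gcongr
  nlinarith [sq_nonneg (‖u i‖ - ‖w i‖)]

lemma nsq_smul (c : ℝ) (v : κ → ℂ) : nsq ((c : ℂ) • v) = c ^ 2 * nsq v := by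
  simp [nsq, Finset.mul_sum, mul_pow]

lemma gap [Nonempty κ] {d : ℕ} (A c : Fin d → Matrix κ κ ℂ) (hc : ∀ j, (c j)ᴴ = c j)
    (hcc : ∀ j, c j * c j = 1) (hc' : ∀ j k, j ≠ k → c j * c k = -(c k * c j))
    (h : ∀ x : Fin d → ℝ, (∑ j, (A j - (x j : ℂ) • 1) * c j).det ≠ 0) :
    ∃ g : ℝ, 0 < g ∧ ∀ (x : Fin d → ℝ) v,
      g * nsq v ≤ nsq ((∑ j, (A j - (x j : ℂ) • 1) * c j) *ᵥ v) := by
  obtain ⟨C, hC, hCb⟩ := exists_bound (∑ j, A j * c j)
  let Φ : (Fin d → ℝ) × (κ → ℂ) → ℝ :=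
    fun z => nsq ((∑ j, (A j - (z.1 j : ℂ) • 1) * c j) *ᵥ z.2)
  have hΦ : Continuous Φ := by
    simp only [Φ, nsq]
    fun_prop
  have hK : IsCompact ((Metric.closedBall (0 : Fin d → ℝ) (2 * C + 2)) ×ˢ
      (Metric.sphere (0 : κ → ℂ) 1)) := (isCompact_closedBall _ _).prod (isCompact_sphere _ _)
  have hne : ((Metric.closedBall (0 : Fin d → ℝ) (2 * C + 2)) ×ˢ
      (Metric.sphere (0 : κ → ℂ) 1)).Nonempty :=
    ⟨(0, 1), by simp; positivity, by simp⟩
  obtain ⟨z, hz, hmin⟩ := hK.exists_isMinOn hne hΦ.continuousOn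
  have hz0 : 0 < Φ z := by
    apply nsq_pos
    intro h0
    have h1 : z.2 ≠ 0 := by
      intro e
      have := hz.2
      simp [e] at this
    exact h z.1 (Matrix.exists_mulVec_eq_zero_iff.1 ⟨z.2, h1, h0⟩)
  have hcard : (0 : ℝ) < Fintype.card κ := by exact_mod_cast Fintype.card_pos
  refine ⟨min 1 (Φ z / Fintype.card κ), lt_min one_pos (by positivity), fun x v => ?_⟩
  by_cases hx : 2 * C + 2 ≤ ∑ j, x j ^ 2
  · have e1 : ∑ j, (A j - (x j : ℂ) • 1) * c j = ∑ j, A j * c j - ∑ j, (x j : ℂ) • c j := by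
      rw [← Finset.sum_sub_distrib]
      exact Finset.sum_congr rfl fun j _ => by simp [Matrix.sub_mul]
    have e2 : nsq ((∑ j, (x j : ℂ) • c j) *ᵥ v) = (∑ j, x j ^ 2) * nsq v := by
      have : (∑ j, (x j : ℂ) • c j)ᴴ = ∑ j, (x j : ℂ) • c j := by
        rw [conjTranspose_sum]; exact Finset.sum_congr rfl fun j _ => by simp [hc]
      rw [nsq_mulVec, this, sq_sum, qf_sum, Finset.sum_mul]
      · refine Finset.sum_congr rfl fun j _ => ?_
        rw [Matrix.smul_mul, Matrix.mul_smul, hcc, smul_smul, ← Complex.ofReal_mul, qf_smul,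
          qf_one, sq]
      · intro j k hjk
        rw [Matrix.smul_mul, Matrix.mul_smul, Matrix.smul_mul, Matrix.mul_smul, hc' j k hjk,
          smul_neg, smul_neg, smul_comm]
    have e3 := nsq_sub_le ((∑ j, A j * c j) *ᵥ v) ((∑ j, (A j - (x j : ℂ) • 1) * c j) *ᵥ v)
    rw [← sub_mulVec] at e3
    nth_rewrite 1 [e1] at e3
    rw [sub_sub_cancel, e2] at e3
    have e4 := hCb v
    have e5 := nsq_nonneg v
    have e6 : min 1 (Φ z / Fintype.card κ) * nsq v ≤ 1 * nsq v := by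
      gcongr; exact min_le_left _ _
    nlinarith
  · by_cases hv : v = 0
    · subst hv; simp [nsq]
    have hnv : 0 < ‖v‖ := norm_pos_iff.2 hv
    have hmem : (x, ((‖v‖⁻¹ : ℝ) : ℂ) • v) ∈ (Metric.closedBall (0 : Fin d → ℝ) (2 * C + 2)) ×ˢ
        (Metric.sphere (0 : κ → ℂ) 1) := by
      refine ⟨?_, ?_⟩
      · rw [mem_closedBall_zero_iff, pi_norm_le_iff_of_nonneg (by positivity)]
        intro j
        have : x j ^ 2 ≤ ∑ j, x j ^ 2 :=
          Finset.single_le_sum (f := fun j => x j ^ 2) (fun _ _ => by positivity)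
            (Finset.mem_univ j)
        rw [Real.norm_eq_abs]
        nlinarith [abs_nonneg (x j), sq_abs (x j)]
      · simp [norm_smul, hnv.ne']
    have h1 : Φ z ≤ Φ (x, ((‖v‖⁻¹ : ℝ) : ℂ) • v) := hmin hmem
    simp only [Φ] at h1
    rw [mulVec_smul, nsq_smul] at h1
    have h2 : nsq v ≤ Fintype.card κ * ‖v‖ ^ 2 := by
      rw [nsq, ← nsmul_eq_mul, ← Finset.card_univ, ← Finset.sum_const]
      refine Finset.sum_le_sum fun i _ => ?_
      gcongr
      exact norm_le_pi_norm v i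
    calc min 1 (Φ z / Fintype.card κ) * nsq v ≤ (Φ z / Fintype.card κ) *
          (Fintype.card κ * ‖v‖ ^ 2) :=
          mul_le_mul (min_le_right _ _) h2 (nsq_nonneg _) (by positivity)
      _ = Φ z * ‖v‖ ^ 2 := by field_simp
      _ ≤ _ := by
          have := mul_le_mul_of_nonneg_right h1 (sq_nonneg ‖v‖)
          refine this.trans (le_of_eq ?_)
          field_simp

end Pool.Agent.Lib.helper23.Cl
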