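import Pool.Agent.Lib.helper23.ClE

namespace Pool.Agent.Lib.helper23.Cl

open Matrix
open scoped Kronecker

section
variable {p κ : Type} [Fintype p] [DecidableEq p] [Fintype κ] [DecidableEq κ]

noncomputable def lf (κ : Type) [DecidableEq κ] (S : Matrix p p ℂ) : Matrix (p × κ) (p × κ) ℂ :=
  S ⊗ₖ (1 : Matrix κ κ ℂ)

noncomputable def rt (p : Type) [DecidableEq p] (T : Matrix κ κ ℂ) : Matrix (p × κ) (p × κ) ℂ :=
  (1 : Matrix p p ℂ) ⊗ₖ T

lemma lf_mul (S S' : Matrix p p ℂ) : lf κ S * lf κ S' = lf κ (S * S') := by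
  simp only [lf]; rw [← mul_kronecker_mul, Matrix.one_mul]

lemma rt_mul (T T' : Matrix κ κ ℂ) : rt p T * rt p T' = rt p (T * T') := by
  simp only [rt]; rw [← mul_kronecker_mul, Matrix.one_mul]

lemma lf_rt (S : Matrix p p ℂ) (T : Matrix κ κ ℂ) : Commute (lf κ S) (rt p T) := by
  change _ * _ = _ * _
  simp only [lf, rt]
  rw [← mul_kronecker_mul, ← mul_kronecker_mul]; simp

lemma lf_star (S : Matrix p p ℂ) : (lf κ S)ᴴ = lf κ Sᴴ := by
  simp only [lf]; rw [conjTranspose_kronecker, conjTranspose_one]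

lemma rt_star (T : Matrix κ κ ℂ) : (rt p T)ᴴ = rt p Tᴴ := by
  simp only [rt]; rw [conjTranspose_kronecker, conjTranspose_one]

lemma lf_add (S S' : Matrix p p ℂ) : lf κ (S + S') = lf κ S + lf κ S' := add_kronecker _ _ _
lemma rt_add (T T' : Matrix κ κ ℂ) : rt p (T + T') = rt p T + rt p T' := kronecker_add _ _ _
lemma lf_smul (c : ℂ) (S : Matrix p p ℂ) : lf κ (c • S) = c • lf κ S := smul_kronecker _ _ _
lemma lf_one : lf κ (1 : Matrix p p ℂ) = 1 := one_kronecker_one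
lemma rt_one : rt p (1 : Matrix κ κ ℂ) = 1 := one_kronecker_one
lemma lf_zero : lf κ (0 : Matrix p p ℂ) = 0 := zero_kronecker _
lemma lf_sub (S S' : Matrix p p ℂ) : lf κ (S - S') = lf κ S - lf κ S' := by
  rw [eq_sub_iff_add_eq, ← lf_add, sub_add_cancel]
lemma rt_neg (T : Matrix κ κ ℂ) : rt p (-T) = -rt p T := by
  rw [eq_neg_iff_add_eq_zero, ← rt_add, neg_add_cancel]; exact kronecker_zero _
lemma lf_comm {S S' : Matrix p p ℂ} (h : Commute S S') : Commute (lf κ S) (lf κ S') := by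
  change _ * _ = _ * _
  rw [lf_mul, lf_mul, h.eq]
lemma rt_comm {T T' : Matrix κ κ ℂ} (h : Commute T T') : Commute (rt p T) (rt p T') := by
  change _ * _ = _ * _
  rw [rt_mul, rt_mul, h.eq]

lemma blk {d : ℕ} (A c : Fin d → Matrix κ κ ℂ) (x : Fin d → p → ℂ) (i : p) (y : κ) (k : p) (z : κ) :
    (∑ j, (rt p (A j) - lf κ (diagonal (x j))) * rt p (c j)) (i, y) (k, z) =
      if i = k then (∑ j, (A j - x j i • 1) * c j) y z else 0 := by
  have e : ∀ j, (rt p (A j) - lf κ (diagonal (x j))) * rt p (c j) =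
      (1 : Matrix p p ℂ) ⊗ₖ (A j * c j) - diagonal (x j) ⊗ₖ c j := by
    intro j
    rw [Matrix.sub_mul, rt_mul]
    simp only [lf, rt]
    rw [← mul_kronecker_mul]; simp
  simp only [e, Matrix.sum_apply, Matrix.sub_apply, kronecker_apply, Matrix.sub_mul,
    Matrix.smul_mul, Matrix.one_mul, Matrix.smul_apply, smul_eq_mul]
  split_ifs with h
  · subst h; simp
  · simp [h]

end

theorem core {κ : Type} [Fintype κ] [DecidableEq κ] [Nonempty κ] {d : ℕ}
    (A c c' : Fin d → Matrix κ κ ℂ) (hA : ∀ j, (A j)ᴴ = A j)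
    (hc : ∀ j, (c j)ᴴ = c j) (hcc : ∀ j, c j * c j = 1)
    (hca : ∀ j k, j ≠ k → c j * c k = -(c k * c j))
    (hc' : ∀ j, (c' j)ᴴ = c' j) (hcc' : ∀ j, c' j * c' j = 1)
    (hca' : ∀ j k, j ≠ k → c' j * c' k = -(c' k * c' j))
    (hx : ∀ j k, c j * c' k = -(c' k * c j))
    (hAc : ∀ j k, Commute (A j) (c k)) (hAc' : ∀ j k, Commute (A j) (c' k)) :
    ∃ x : Fin d → ℝ, (∑ j, (A j - (x j : ℂ) • 1) * c j).det = 0 := by
  by_contra hcon
  push Not at hcon
  obtain ⟨g, hg, hgap⟩ := gap A c hc hcc hca hcon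
  obtain ⟨C, hC, hCb⟩ := exists_bound (∑ j, A j * c j)
  set r : ℝ := √(g / (4 * (d + 1))) with hr
  have hr0 : 0 < r := Real.sqrt_pos.2 (by positivity)
  have hr2 : r ^ 2 = g / (4 * (d + 1)) := Real.sq_sqrt (by positivity)
  have hδ : 0 < g - 2 * d * r ^ 2 := by
    have : r ^ 2 * (4 * (d + 1)) = g := by rw [hr2]; field_simp
    nlinarith [sq_nonneg r, (Nat.cast_nonneg d : (0 : ℝ) ≤ d), mul_nonneg (sq_nonneg r)
      (Nat.cast_nonneg d : (0 : ℝ) ≤ d)]
  set N : ℝ := 1 + (C ^ 2 + 1) / ((g - 2 * d * r ^ 2) * (4 * r ^ 2)) with hN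
  have hN1 : 1 < N := by
    have : 0 < (C ^ 2 + 1) / ((g - 2 * d * r ^ 2) * (4 * r ^ 2)) := by positivity
    linarith
  obtain ⟨a, E, ξ, o1, o2, o3, o4, o5⟩ := osc ⌈N⌉₊
  let f : Fin d → Matrix κ κ ℂ := fun j => (1 / 2 : ℂ) • (c j + Complex.I • c' j)
  have hfs : ∀ j, (f j)ᴴ = (1 / 2 : ℂ) • (c j - Complex.I • c' j) := by
    intro j
    simp only [f, conjTranspose_smul, conjTranspose_add, hc, hc']
    simp [sub_eq_add_neg]
  have hx' : ∀ j k, c' j * c k = -(c k * c' j) := fun j k => by rw [hx, neg_neg]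
  have hI : Complex.I * Complex.I = -1 := Complex.I_mul_I
  have hfc : ∀ j, f j + (f j)ᴴ = c j := by
    intro j; rw [hfs]; simp only [f]; module
  have hff : ∀ j k, f j * f k = -(f k * f j) := by
    intro j k
    simp only [f, Matrix.smul_mul, Matrix.mul_smul, Matrix.add_mul, Matrix.mul_add, smul_add,
      smul_smul]
    by_cases h : j = k
    · subst h
      rw [hcc, hcc', hx' j j]
      match_scalars
      · linear_combination (1 / 2 : ℂ) * hI
      · ring
    · rw [hca j k h, hca' j k h, hx j k, hx' j k]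
      module
  have hff' : ∀ j k, j ≠ k → f j * (f k)ᴴ = -((f k)ᴴ * f j) := by
    intro j k h
    rw [hfs]
    simp only [f, Matrix.smul_mul, Matrix.mul_smul, Matrix.add_mul, Matrix.mul_add, Matrix.sub_mul,
      Matrix.mul_sub, smul_add, smul_sub, smul_smul]
    rw [hca j k h, hca' j k h, hx j k, hx' j k]
    module
  have hcar : ∀ j, f j * (f j)ᴴ + (f j)ᴴ * f j = 1 := by
    intro j
    rw [hfs]
    simp only [f, Matrix.smul_mul, Matrix.mul_smul, Matrix.add_mul, Matrix.mul_add, Matrix.sub_mul,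
      Matrix.mul_sub, smul_add, smul_sub, smul_smul]
    rw [hcc, hcc', hx' j j]
    match_scalars
    · linear_combination (-1 / 2 : ℂ) * hI
    · ring
  let p := Fin d → Fin (⌈N⌉₊ + 1)
  have key : ∀ (x : Fin d → p → ℝ) (v : p × κ → ℂ),
      nsq ((∑ j, (rt p (A j) - lf κ (diagonal fun i => (x j i : ℂ))) * rt p (c j)) *ᵥ v) =
        ∑ i, nsq ((∑ j, (A j - (x j i : ℂ) • 1) * c j) *ᵥ fun y => v (i, y)) := by
    intro x v
    rw [nsq_prod]
    refine Finset.sum_congr rfl fun i _ => ?_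
    rw [block_mulVec (fun i => ∑ j, (A j - (x j i : ℂ) • 1) * c j) _
      (fun i y k z => blk A c (fun j i => (x j i : ℂ)) i y k z)]
  refine mid (ι := p × κ) (fun j => lf κ (slot j a)) (fun j => lf κ (slot j E))
    (fun j => rt p (f j)) (fun j => rt p (A j)) (Mr := ((⌈N⌉₊ + 1 : ℕ) : ℝ)) (r := r) (N := N)
    (C := C) (g := g) ?_ ?_ ?_ ?_ ?_ ?_ ?_ ?_ ?_ ?_ ?_ ?_ ?_ ?_ hr0 hN1 ?_ hC ?_ ?_ ?_
  · exact fun j k h => lf_comm (slot_comm h _ _)
  · intro j k h
    rw [lf_star, slot_star]; exact lf_comm (slot_comm h _ _)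
  · exact fun j k => lf_rt _ _
  · intro j k; rw [rt_star]; exact lf_rt _ _
  · exact fun j k => lf_rt _ _
  · intro j; rw [rt_star, hA]
  · exact fun j k => rt_comm (((hAc j k).add_right ((hAc' j k).smul_right _)).smul_right _)
  · intro j
    rw [lf_star, slot_star, lf_mul, lf_mul, slot_mul, slot_mul, o1, slot_sub, slot_add, slot_smul,
      slot_one, lf_sub, lf_add, lf_smul, lf_one]
  · intro j; rw [lf_star, slot_star, o2]
  · intro j; rw [lf_mul, slot_mul, o3]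
  · intro j; rw [lf_star, slot_star, lf_mul, slot_mul, o4, slot_zero, lf_zero]
  · intro j k; rw [rt_mul, rt_mul, hff, rt_neg]
  · intro j k h; rw [rt_star, rt_mul, rt_mul, hff' j k h, rt_neg]
  · intro j; rw [rt_star, rt_mul, rt_mul, ← rt_add, hcar, rt_one]
  · push_cast; linarith [Nat.le_ceil N]
  · intro v
    have e : ∑ j, rt p (A j) * (rt p (f j) + (rt p (f j))ᴴ) =
        ∑ j, (rt p (A j) - lf κ (diagonal fun _ => ((0 : ℝ) : ℂ))) * rt p (c j) := by
      refine Finset.sum_congr rfl fun j _ => ?_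
      rw [rt_star, ← rt_add, hfc]
      simp [lf_zero]
    rw [e, key (fun _ _ => 0), nsq_prod v, Finset.mul_sum]
    refine Finset.sum_le_sum fun i _ => ?_
    simpa using hCb _
  · intro v
    have e : ∑ j, (rt p (A j) - (r : ℂ) • (lf κ (slot j a) + (lf κ (slot j a))ᴴ)) *
        (rt p (f j) + (rt p (f j))ᴴ) =
        ∑ j, (rt p (A j) - lf κ (diagonal fun i : p => ((r * ξ (i j) : ℝ) : ℂ))) * rt p (c j) := by
      refine Finset.sum_congr rfl fun j _ => ?_
      rw [rt_star, ← rt_add, hfc, lf_star, slot_star, ← lf_add, ← slot_add, o5, slot_diag,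
        ← lf_smul, ← diagonal_smul]
      congr 4
      ext i
      simp
    rw [e, key (fun j i => r * ξ (i j)), nsq_prod v, Finset.mul_sum]
    exact Finset.sum_le_sum fun i _ => hgap (fun j => r * ξ (i j)) _
  · have : (g - 2 * d * r ^ 2) * (4 * r ^ 2 * (N - 1)) = C ^ 2 + 1 := by
      rw [hN]; field_simp; ring
    rw [this]; linarith

theorem clifford_nonempty (n d m : ℕ) (hn : 0 < n) (hm : 0 < m)
    (A : Fin d → Matrix (Fin n) (Fin n) ℂ) (γ : Fin d → Matrix (Fin m) (Fin m) ℂ)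
    (hA : ∀ j, (A j).IsHermitian) (hγ : ∀ j, (γ j).IsHermitian) (h1 : ∀ j, γ j * γ j = 1)
    (h2 : ∀ j k, j ≠ k → γ j * γ k = -(γ k * γ j)) :
    ∃ x : Fin d → ℝ, (∑ j : Fin d,
      Matrix.kronecker (A j - ((x j : ℂ)) • (1 : Matrix (Fin n) (Fin n) ℂ)) (γ j)).det = 0 := by
  haveI : Nonempty (Fin n) := ⟨⟨0, hn⟩⟩
  haveI : Nonempty (Fin m) := ⟨⟨0, hm⟩⟩
  let s1 : Matrix (Fin 2) (Fin 2) ℂ := !![0, 1; 1, 0]
  let s2 : Matrix (Fin 2) (Fin 2) ℂ := !![1, 0; 0, -1]
  have a1 : s1ᴴ = s1 := by ext i j; fin_cases i <;> fin_cases j <;> simp [s1]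
  have a2 : s2ᴴ = s2 := by ext i j; fin_cases i <;> fin_cases j <;> simp [s2]
  have b1 : s1 * s1 = 1 := by ext i j; fin_cases i <;> fin_cases j <;> simp [s1]
  have b2 : s2 * s2 = 1 := by ext i j; fin_cases i <;> fin_cases j <;> simp [s2]
  have b3 : s1 * s2 = (-1 : ℂ) • (s2 * s1) := by
    ext i j; fin_cases i <;> fin_cases j <;> simp [s1, s2]
  have h2' : ∀ j k, j ≠ k → γ j * γ k = (-1 : ℂ) • (γ k * γ j) := fun j k h => by
    rw [h2 j k h, neg_one_smul]
  obtain ⟨x, hx⟩ := core (κ := (Fin n × Fin m) × (Fin m × Fin 2))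
    (fun j => (A j ⊗ₖ (1 : Matrix (Fin m) (Fin m) ℂ)) ⊗ₖ (1 : Matrix (Fin m × Fin 2) _ ℂ))
    (fun j => ((1 : Matrix (Fin n) (Fin n) ℂ) ⊗ₖ γ j) ⊗ₖ ((1 : Matrix (Fin m) (Fin m) ℂ) ⊗ₖ s1))
    (fun j => (1 : Matrix (Fin n × Fin m) _ ℂ) ⊗ₖ (γ j ⊗ₖ s2))
    (fun j => by simp only [conjTranspose_kronecker, conjTranspose_one, (hA j).eq])
    (fun j => by simp only [conjTranspose_kronecker, conjTranspose_one, (hγ j).eq, a1])
    (fun j => by simp only [← mul_kronecker_mul, h1, b1, Matrix.one_mul, one_kronecker_one])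
    (fun j k h => by
      simp only [← mul_kronecker_mul, h2' j k h, b1, Matrix.one_mul, kronecker_smul,
        smul_kronecker]
      exact neg_one_smul _ _)
    (fun j => by simp only [conjTranspose_kronecker, conjTranspose_one, (hγ j).eq, a2])
    (fun j => by simp only [← mul_kronecker_mul, h1, b2, Matrix.one_mul, one_kronecker_one])
    (fun j k h => by
      simp only [← mul_kronecker_mul, h2' j k h, b2, Matrix.one_mul, kronecker_smul,
        smul_kronecker]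
      exact neg_one_smul _ _)
    (fun j k => by
      simp only [← mul_kronecker_mul, b3, Matrix.one_mul, Matrix.mul_one, kronecker_smul]
      exact neg_one_smul _ _)
    (fun j k => by
      change _ * _ = _ * _
      simp only [← mul_kronecker_mul, Matrix.one_mul, Matrix.mul_one])
    (fun j k => by
      change _ * _ = _ * _
      simp only [← mul_kronecker_mul, Matrix.one_mul, Matrix.mul_one])
  refine ⟨x, ?_⟩
  have e : ∑ j, ((A j ⊗ₖ (1 : Matrix (Fin m) (Fin m) ℂ)) ⊗ₖ (1 : Matrix (Fin m × Fin 2) _ ℂ) -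
      (x j : ℂ) • 1) *
      (((1 : Matrix (Fin n) (Fin n) ℂ) ⊗ₖ γ j) ⊗ₖ ((1 : Matrix (Fin m) (Fin m) ℂ) ⊗ₖ s1)) =
      (∑ j : Fin d,
        Matrix.kronecker (A j - ((x j : ℂ)) • (1 : Matrix (Fin n) (Fin n) ℂ)) (γ j)) ⊗ₖ
        ((1 : Matrix (Fin m) (Fin m) ℂ) ⊗ₖ s1) := by
    simp only [Matrix.sub_mul, Matrix.smul_mul, ← mul_kronecker_mul, Matrix.one_mul,
      Matrix.mul_one]
    ext i k
    simp only [Matrix.sum_apply, Matrix.sub_apply, Matrix.smul_apply, kronecker_apply,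
      Matrix.kronecker, kroneckerMap_apply, smul_eq_mul, Finset.sum_mul]
    exact Finset.sum_congr rfl fun j _ => by ring
  rw [e, det_kronecker, det_kronecker, mul_eq_zero] at hx
  rcases hx with hx | hx
  · exact pow_eq_zero_iff (by simp; omega) |>.1 hx
  · exfalso
    have : s1.det = -1 := by simp [s1, det_fin_two]
    rw [this] at hx
    simp at hx

end Pool.Agent.Lib.helper23.Cl
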