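import Mathlib

namespace Pool.Agent.Lib.helper23.CompA

open Filter Topology

abbrev D := Σ N : ℕ, (ZMod (N + 1) → Fin 3)

def zOf (d : D) (i : ℤ) : ℕ := (d.2 (i : ZMod (d.1 + 1))).val % 2

theorem zOf_lt (d : D) (i : ℤ) : zOf d i < 2 := Nat.mod_lt _ (by norm_num)

theorem zOf_per (d : D) (i c : ℤ) : zOf d (i + (d.1 + 1 : ℕ) * c) = zOf d i := by
  unfold zOf
  congr 3
  rw [Int.cast_add, Int.cast_mul, Int.cast_natCast, ZMod.natCast_self, zero_mul, add_zero]

theorem exists_enum : ∃ g : ℕ → D, Function.Surjective g :=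
  haveI : Nonempty D := ⟨⟨0, fun _ => 0⟩⟩
  exists_surjective_nat D

noncomputable def en (j : ℕ) : D := exists_enum.choose (Nat.unpair j).1

theorem en_freq (d : D) (m : ℕ) : ∃ j, m ≤ j ∧ en j = d := by
  obtain ⟨c, hc⟩ := exists_enum.choose_spec d
  exact ⟨Nat.pair c m, Nat.right_le_pair c m, by simp [en, hc]⟩

/-- shifted copies of the `j`-th periodic point -/
noncomputable def xx (j : ℕ) (a : ℤ) : ℤ → ℕ :=
  fun i => if ((j + 1 : ℕ) : ℤ) ∣ i + a then 2 else zOf (en j) (i + a)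

noncomputable def per (j : ℕ) : ℕ := ((en j).1 + 1) * (j + 1)

theorem per_pos (j : ℕ) : 0 < per j := by unfold per; positivity

theorem xx_per (j : ℕ) (a c : ℤ) : xx j (a + per j * c) = xx j a := by
  funext i
  unfold xx
  have e1 : i + (a + per j * c) = i + a + ((en j).1 + 1 : ℕ) * (((j + 1 : ℕ) : ℤ) * c) := by
    unfold per; push_cast; ring
  rw [e1, zOf_per]
  have : ((j + 1 : ℕ) : ℤ) ∣ ((en j).1 + 1 : ℕ) * (((j + 1 : ℕ) : ℤ) * c) :=
    Dvd.dvd.mul_left (Dvd.intro _ rfl) _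
  simp only [dvd_add_left this]

theorem xx_two (j : ℕ) (a i : ℤ) : xx j a i = 2 ↔ ((j + 1 : ℕ) : ℤ) ∣ i + a := by
  unfold xx
  split_ifs with h
  · exact ⟨fun _ => h, fun _ => rfl⟩
  · have := zOf_lt (en j) (i + a)
    simp only [h, iff_false]; omega

theorem xx_lt (j : ℕ) (a i : ℤ) : xx j a i < 3 := by
  unfold xx
  split_ifs
  · norm_num
  · have := zOf_lt (en j) (i + a); omega

theorem xx_mod (j : ℕ) (a : ℤ) : ∃ b ∈ Finset.range (per j), xx j a = xx j b := by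
  have hp : (0 : ℤ) < per j := by exact_mod_cast per_pos j
  refine ⟨(a % per j).toNat, ?_, ?_⟩
  · rw [Finset.mem_range]
    have := Int.emod_lt_of_pos a hp
    have h2 := Int.emod_nonneg a hp.ne'
    omega
  · rw [Int.toNat_of_nonneg (Int.emod_nonneg a hp.ne'), ← xx_per j (a % per j) (a / per j),
      Int.emod_add_mul_ediv]

theorem orb_finite (j : ℕ) : (Set.range (xx j)).Finite := by
  refine Set.Finite.subset ((Finset.range (per j)).finite_toSet.image (fun b : ℕ => xx j b)) ?_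
  rintro _ ⟨a, rfl⟩
  obtain ⟨b, hb, e⟩ := xx_mod j a
  exact ⟨b, hb, e.symm⟩

def Gap (x : ℤ → ℕ) (i : ℤ) (j : ℕ) : Prop :=
  x i = 2 ∧ x (i + (j + 1 : ℕ)) = 2 ∧ ∀ t ∈ Finset.range j, x (i + (t + 1 : ℕ)) ≠ 2

theorem gap_clopen (i : ℤ) (j : ℕ) : IsClopen {x : ℤ → ℕ | Gap x i j} := by
  have h : ∀ m : ℤ, IsClopen {x : ℤ → ℕ | x m = 2} := fun m =>
    (isClopen_discrete {2}).preimage (continuous_apply m)
  have e : {x : ℤ → ℕ | Gap x i j} = {x | x i = 2} ∩ ({x | x (i + (j + 1 : ℕ)) = 2} ∩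
      ⋂ t ∈ Finset.range j, {x | x (i + (t + 1 : ℕ)) = 2}ᶜ) := by
    ext x; simp [Gap]
  rw [e]
  exact (h _).inter ((h _).inter (isClopen_biInter_finset fun t _ => (h _).compl))

def X : Set (ℤ → ℕ) := {x | (∀ i, x i < 3) ∧ ∀ i j, Gap x i j → x ∈ Set.range (xx j)}

theorem gap_xx (j : ℕ) (a i : ℤ) (j' : ℕ) (h : Gap (xx j a) i j') : j' = j := by
  obtain ⟨h1, h2, h3⟩ := h
  rw [xx_two] at h1 h2
  have h4 : ((j + 1 : ℕ) : ℤ) ∣ ((j' + 1 : ℕ) : ℤ) := by
    have := Int.dvd_sub h2 h1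
    have e : i + ((j' + 1 : ℕ) : ℤ) + a - (i + a) = ((j' + 1 : ℕ) : ℤ) := by ring
    rwa [e] at this
  have h5 : j + 1 ≤ j' + 1 := Nat.le_of_dvd (by omega) (Int.natCast_dvd_natCast.1 h4)
  by_contra hne
  refine h3 j (Finset.mem_range.2 (by omega)) ?_
  rw [xx_two]
  have e : i + ((j + 1 : ℕ) : ℤ) + a = (i + a) + ((j + 1 : ℕ) : ℤ) := by ring
  rw [e]
  exact dvd_add h1 dvd_rfl

theorem xx_mem (j : ℕ) (a : ℤ) : xx j a ∈ X :=
  ⟨xx_lt j a, fun i j' h => by rw [gap_xx j a i j' h]; exact ⟨a, rfl⟩⟩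

theorem bin_mem (x : ℤ → ℕ) (h : ∀ i, x i < 2) : x ∈ X :=
  ⟨fun i => by have := h i; omega, fun i j hg => by have := h i; have := hg.1; omega⟩

theorem X_closed : IsClosed X := by
  have e : X = (⋂ i, {x : ℤ → ℕ | x i < 3}) ∩
      ⋂ i, ⋂ j, ({x : ℤ → ℕ | Gap x i j}ᶜ ∪ Set.range (xx j)) := by
    ext x
    simp only [X, Set.mem_ofPred_eq, Set.mem_inter_iff, Set.mem_iInter, Set.mem_union,
      Set.mem_compl_iff, imp_iff_not_or]
  rw [e]
  refine (isClosed_iInter fun i => ?_).inter (isClosed_iInter fun i => isClosed_iInter fun j =>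
    (gap_clopen i j).compl.isClosed.union (orb_finite j).isClosed)
  exact (isClosed_discrete {n : ℕ | n < 3}).preimage
    (continuous_apply (A := fun _ : ℤ => ℕ) i)

theorem X_compact : IsCompact X := by
  have h : IsCompact (Set.pi Set.univ fun _ : ℤ => {n : ℕ | n < 3}) :=
    isCompact_univ_pi fun _ => (Set.finite_lt_nat 3).isCompact
  exact h.of_isClosed_subset X_closed fun x hx i _ => hx.1 i

theorem X_shift (x : ℤ → ℕ) (c : ℤ) (hx : x ∈ X) : (fun m => x (m + c)) ∈ X := by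
  refine ⟨fun i => hx.1 _, fun i j hg => ?_⟩
  have : Gap x (i + c) j := by
    obtain ⟨h1, h2, h3⟩ := hg
    refine ⟨h1, by rw [add_right_comm]; exact h2, fun t ht h => h3 t ht ?_⟩
    rw [add_right_comm] at h; exact h
  obtain ⟨a, rfl⟩ := hx.2 _ _ this
  refine ⟨c + a, ?_⟩
  funext m
  simp only [xx, add_assoc]

theorem iter_shift (x : ℤ → ℕ) (n : ℕ) :
    (fun (z : ℤ → ℕ) (m : ℤ) => z (m + 1))^[n] x = fun m => x (m + n) := by
  induction n with
  | zero => simp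
  | succ n ih =>
    rw [Function.iterate_succ_apply', ih]
    funext m
    exact congrArg x (by push_cast; ring)

theorem xx_shift (j : ℕ) (a c : ℤ) : (fun m => xx j a (m + c)) = xx j (a + c) := by
  funext m
  simp only [xx]
  rw [show m + c + a = m + (a + c) by ring]

def pr (x : ℤ → ℕ) : ℤ → ℕ := fun i => if x i = 2 then 2 else 0

theorem pr_cont : Continuous pr :=
  continuous_pi fun i => (continuous_of_discreteTopology
    (f := fun n : ℕ => if n = 2 then 2 else 0)).comp (continuous_apply i)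

theorem pr_two (x : ℤ → ℕ) (i : ℤ) : pr x i = 2 ↔ x i = 2 := by
  unfold pr; split_ifs with h <;> simp [h]

theorem gap_pr (x : ℤ → ℕ) (i : ℤ) (j : ℕ) : Gap (pr x) i j ↔ Gap x i j := by
  simp only [Gap, ne_eq, pr_two]

theorem gap_exists (j : ℕ) (a : ℤ) : ∃ i ∈ Finset.range (j + 1), Gap (xx j a) (i : ℕ) j := by
  have hp : (0 : ℤ) < ((j + 1 : ℕ) : ℤ) := by positivity
  have h0 := Int.emod_nonneg (-a) hp.ne'
  have h1 := Int.emod_lt_of_pos (-a) hp
  have hd : ((j + 1 : ℕ) : ℤ) ∣ (-a) % ((j + 1 : ℕ) : ℤ) + a := by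
    refine ⟨-((-a) / ((j + 1 : ℕ) : ℤ)), ?_⟩
    have := Int.emod_add_mul_ediv (-a) ((j + 1 : ℕ) : ℤ)
    linarith
  refine ⟨((-a) % ((j + 1 : ℕ) : ℤ)).toNat, Finset.mem_range.2 (by omega), ?_⟩
  rw [Int.toNat_of_nonneg h0]
  refine ⟨(xx_two _ _ _).2 hd, (xx_two _ _ _).2 ?_, fun t ht h => ?_⟩
  · rw [add_right_comm]; exact dvd_add hd dvd_rfl
  · rw [xx_two, add_right_comm, dvd_add_right hd] at h
    have := Nat.le_of_dvd (by omega) (Int.natCast_dvd_natCast.1 h)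
    have := Finset.mem_range.1 ht
    omega

/-- words of the factor -/
theorem Y_words (x : ℤ → ℕ) (hx : x ∈ X) (n : ℕ) :
    ∃ a ∈ Finset.range (n + 1), ∃ p ∈ Finset.range (n + 1), ∀ i < n,
      (x (i : ℕ) = 2 ↔ a ≤ i ∧ (p + 1) ∣ (i - a)) := by
  classical
  by_cases h0 : ∃ i, i < n ∧ x (i : ℕ) = 2
  swap
  · push Not at h0
    refine ⟨n, by simp, 0, by simp, fun i hi => ⟨fun h => absurd h (h0 i hi), fun h => ?_⟩⟩
    omega
  set a := Nat.find h0 with ha
  have ha1 := Nat.find_spec h0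
  have ha2 : ∀ i < a, x (i : ℕ) ≠ 2 := fun i hi h =>
    Nat.find_min h0 hi ⟨by omega, h⟩
  by_cases h1 : ∃ p, a + (p + 1) < n ∧ x ((a : ℤ) + (p + 1 : ℕ)) = 2
  swap
  · push Not at h1
    refine ⟨a, Finset.mem_range.2 (by omega), n, by simp, fun i hi => ⟨fun h => ?_, fun h => ?_⟩⟩
    · have h2 : a ≤ i := by by_contra hc; exact ha2 i (by omega) h
      refine ⟨h2, ?_⟩
      by_cases h3 : i = a
      · simp [h3]
      · exfalso
        refine h1 (i - a - 1) (by omega) ?_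
        rw [← h]; congr 1; omega
    · have : i - a = 0 := Nat.eq_zero_of_dvd_of_lt h.2 (by omega)
      have : i = a := by omega
      rw [this]; exact ha1.2
  set p := Nat.find h1 with hp
  have hp1 := Nat.find_spec h1
  have hg : Gap x a p := ⟨ha1.2, hp1.2, fun t ht h =>
    Nat.find_min h1 (Finset.mem_range.1 ht) ⟨by have := Finset.mem_range.1 ht; omega, h⟩⟩
  obtain ⟨c, hc⟩ := hx.2 _ _ hg
  have two : ∀ i, x i = 2 ↔ ((p + 1 : ℕ) : ℤ) ∣ i + c := fun i => by rw [← hc, xx_two]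
  refine ⟨a, Finset.mem_range.2 (by omega), p, Finset.mem_range.2 (by omega), fun i hi => ?_⟩
  have hd := (two _).1 ha1.2
  constructor
  · intro h
    have h2 : a ≤ i := by by_contra hc; exact ha2 i (by omega) h
    refine ⟨h2, ?_⟩
    rw [two] at h
    have := Int.dvd_sub h hd
    rw [← Int.natCast_dvd_natCast, Nat.cast_sub h2]
    have e : (i : ℤ) + c - ((a : ℤ) + c) = i - a := by ring
    rwa [e] at this
  · rintro ⟨h2, h3⟩
    rw [← Int.natCast_dvd_natCast, Nat.cast_sub h2] at h3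
    rw [two]
    have e : (i : ℤ) + c = (i - a) + (a + c) := by ring
    rw [e]
    exact dvd_add h3 hd

end Pool.Agent.Lib.helper23.CompA
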