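import Mathlib
import Pool.Agent.Lib.helper23.CompA

namespace Pool.Agent.Lib.helper23.CompB

open Filter Topology Pool.Agent.Lib.helper23.CompA

noncomputable def cell (S : Set (ℤ → ℕ)) (g : (ℤ → ℕ) → ℝ) (n : ℕ) (w : Fin n → Fin 3) : ℝ :=
  sSup ((fun x : ℤ → ℕ => Real.exp (∑ j ∈ Finset.range n,
    g ((fun (z : ℤ → ℕ) (m : ℤ) => z (m + 1))^[j] x))) ''
    {x : ℤ → ℕ | x ∈ S ∧ ∀ i : Fin n, x ((i : ℕ) : ℤ) = ((w i : ℕ))})

theorem cell_le (S : Set (ℤ → ℕ)) (g : (ℤ → ℕ) → ℝ) (n : ℕ) (w : Fin n → Fin 3) (B : ℝ)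
    (hB : 0 ≤ B) (h : ∀ x ∈ S, (∀ i : Fin n, x ((i : ℕ) : ℤ) = ((w i : ℕ))) →
      Real.exp (∑ j ∈ Finset.range n, g (fun m => x (m + j))) ≤ B) : cell S g n w ≤ B := by
  refine Real.sSup_le ?_ hB
  rintro _ ⟨x, ⟨h1, h2⟩, rfl⟩
  simp only [iter_shift]
  exact h x h1 h2

theorem cell_nonneg (S : Set (ℤ → ℕ)) (g : (ℤ → ℕ) → ℝ) (n : ℕ) (w : Fin n → Fin 3) :
    0 ≤ cell S g n w := by
  refine Real.sSup_nonneg ?_
  rintro _ ⟨x, _, rfl⟩
  exact (Real.exp_pos _).le

theorem le_cell (S : Set (ℤ → ℕ)) (g : (ℤ → ℕ) → ℝ) (n : ℕ) (w : Fin n → Fin 3) (M : ℝ)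
    (hS : ∀ x ∈ S, ∀ c : ℤ, (fun m => x (m + c)) ∈ S) (hM : ∀ x ∈ S, g x ≤ M)
    (x : ℤ → ℕ) (hx : x ∈ S) (hw : ∀ i : Fin n, x ((i : ℕ) : ℤ) = ((w i : ℕ))) :
    Real.exp (∑ j ∈ Finset.range n, g (fun m => x (m + j))) ≤ cell S g n w := by
  refine le_csSup ⟨Real.exp (n * M), ?_⟩ ⟨x, ⟨hx, hw⟩, by simp only [iter_shift]⟩
  rintro _ ⟨y, ⟨h1, _⟩, rfl⟩
  simp only [iter_shift]
  refine Real.exp_le_exp.2 ?_
  have := Finset.sum_le_card_nsmul (Finset.range n) (fun j : ℕ => g (fun m => y (m + j))) M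
    (fun j _ => hM _ (hS y h1 j))
  simpa using this

theorem one_le_Z (S : Set (ℤ → ℕ)) (g : (ℤ → ℕ) → ℝ) (n : ℕ) (M : ℝ)
    (hS : ∀ x ∈ S, ∀ c : ℤ, (fun m => x (m + c)) ∈ S) (hM : ∀ x ∈ S, g x ≤ M)
    (x : ℤ → ℕ) (hx : x ∈ S) (h3 : ∀ i, x i < 3) :
    Real.exp (∑ j ∈ Finset.range n, g (fun m => x (m + j))) ≤ ∑ w, cell S g n w :=
  (le_cell S g n (fun i => ⟨x (i : ℕ), h3 _⟩) M hS hM x hx (fun _ => rfl)).trans
    (Finset.single_le_sum (f := fun w => cell S g n w) (fun w _ => cell_nonneg S g n w)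
      (Finset.mem_univ _))

def Y : Set (ℤ → ℕ) := pr '' X

theorem Y_shift (y : ℤ → ℕ) (hy : y ∈ Y) (c : ℤ) : (fun m => y (m + c)) ∈ Y := by
  obtain ⟨x, hx, rfl⟩ := hy
  exact ⟨_, X_shift x c hx, rfl⟩

theorem Y_lt (y : ℤ → ℕ) (hy : y ∈ Y) (i : ℤ) : y i < 3 := by
  obtain ⟨x, _, rfl⟩ := hy
  unfold pr; split_ifs <;> norm_num

theorem sum_per (F : (ℤ → ℕ) → ℝ) (j : ℕ) (a : ℤ) :
    ∑ b ∈ Finset.range (per j), F (xx j (a + b)) = ∑ b ∈ Finset.range (per j), F (xx j b) := by
  have step : ∀ a : ℤ, ∑ b ∈ Finset.range (per j), F (xx j (a + 1 + b)) =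
      ∑ b ∈ Finset.range (per j), F (xx j (a + b)) := by
    intro a
    have h1 := Finset.sum_range_succ (fun b : ℕ => F (xx j (a + b))) (per j)
    have h2 := Finset.sum_range_succ' (fun b : ℕ => F (xx j (a + b))) (per j)
    have h3 : xx j (a + per j) = xx j (a + (0 : ℕ)) := by
      have := xx_per j a 1
      simpa using this
    rw [h3] at h1
    have h4 : ∀ b : ℕ, a + ((b + 1 : ℕ) : ℤ) = a + 1 + b := fun b => by push_cast; ring
    simp only [h4] at h2
    linarith
  induction a using Int.induction_on with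
  | zero => simp
  | succ i ih => rw [step, ih]
  | pred i ih => rw [← step, sub_add_cancel, ih]

theorem sum_mul_per (F : (ℤ → ℕ) → ℝ) (j : ℕ) (a : ℤ) (m : ℕ) :
    ∑ b ∈ Finset.range (per j * m), F (xx j (a + b)) =
      m * ∑ b ∈ Finset.range (per j), F (xx j b) := by
  induction m with
  | zero => simp
  | succ m ih =>
    rw [mul_add, mul_one, Finset.sum_range_add, ih, ← sum_per F j (a + (per j * m : ℕ))]
    push_cast
    rw [sum_per F j (a + per j * m), add_mul, one_mul]
    congr 1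
    rw [← sum_per F j (a + per j * m)]
    refine Finset.sum_congr rfl fun b _ => ?_
    rw [add_assoc]

def Hyp (F : (ℤ → ℕ) → ℝ) : Prop :=
  ∀ φ : (ℤ → ℕ) → ℝ, ContinuousOn φ Y → ∃ L : ℝ,
    Tendsto (fun n : ℕ => Real.log (∑ w, cell Y φ n w) / (n : ℝ)) atTop (𝓝 L) ∧
    Tendsto (fun n : ℕ => Real.log (∑ w, cell X (fun x => φ (pr x) + F x) n w) / (n : ℝ))
      atTop (𝓝 L)

theorem stepA (F : (ℤ → ℕ) → ℝ) (M : ℝ) (hM : ∀ x ∈ X, |F x| ≤ M) (h : Hyp F) (j : ℕ) :
    0 ≤ ∑ b ∈ Finset.range (per j), F (xx j b) := by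
  classical
  by_contra hneg
  push Not at hneg
  set s := ∑ b ∈ Finset.range (per j), F (xx j b) with hs
  set P := per j with hP
  have hP0 : (0 : ℝ) < P := by exact_mod_cast per_pos j
  set t : ℝ := M + Real.log 3 - s / P with ht
  have hM0 : 0 ≤ M := (abs_nonneg _).trans (hM _ (xx_mem 0 0))
  have hl3 : 0 < Real.log 3 := Real.log_pos (by norm_num)
  have hsP : s / P < 0 := div_neg_of_neg_of_pos hneg hP0
  have ht0 : 0 ≤ t := by linarith
  let U : Set (ℤ → ℕ) := ⋃ i ∈ Finset.range (j + 1), {y | Gap y (i : ℕ) j}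
  have hU : IsClopen U := isClopen_biUnion_finset fun i _ => gap_clopen _ _
  let φ : (ℤ → ℕ) → ℝ := fun y => if y ∈ U then 0 else -t
  have hφ : Continuous φ := by
    refine continuous_if' ?_ ?_ continuous_const.continuousOn continuous_const.continuousOn
    all_goals
      intro a ha
      have : frontier {y | y ∈ U} = ∅ := hU.frontier_eq
      rw [this] at ha
      exact absurd ha (Set.notMem_empty _)
  have hφ0 : ∀ y, φ y ≤ 0 := fun y => by simp only [φ]; split_ifs <;> linarith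
  have hφ1 : ∀ a, φ (pr (xx j a)) = 0 := fun a => by
    obtain ⟨i, hi, hg⟩ := gap_exists j a
    have : pr (xx j a) ∈ U := Set.mem_iUnion₂.2 ⟨i, hi, (gap_pr _ _ _).2 hg⟩
    simp only [φ, if_pos this]
  have hφ2 : ∀ x ∈ X, x ∉ Set.range (xx j) → ∀ c : ℤ, φ (pr fun m => x (m + c)) = -t := by
    intro x hx hn c
    have : (pr fun m => x (m + c)) ∉ U := by
      intro hu
      obtain ⟨i, _, hg⟩ := Set.mem_iUnion₂.1 hu
      obtain ⟨a, ha⟩ := (X_shift x c hx).2 _ _ ((gap_pr _ _ _).1 hg)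
      refine hn ⟨a + -c, ?_⟩
      rw [← xx_shift, ha]
      funext m; simp
    simp only [φ, if_neg this]
  obtain ⟨L, h1, h2⟩ := h φ hφ.continuousOn
  have hL : 0 ≤ L := by
    refine ge_of_tendsto' h1 fun n => div_nonneg (Real.log_nonneg ?_) (Nat.cast_nonneg n)
    have := one_le_Z Y φ n 0 Y_shift (fun y _ => hφ0 y) (pr (xx j 0)) ⟨_, xx_mem j 0, rfl⟩
      (Y_lt _ ⟨_, xx_mem j 0, rfl⟩)
    have e : ∀ c : ℕ, φ (fun m => pr (xx j 0) (m + c)) = 0 := fun c => by
      have := hφ1 (0 + c)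
      rw [← xx_shift] at this
      exact this
    simpa [e] using this
  have hsub : Tendsto (fun m : ℕ => P * m) atTop atTop :=
    tendsto_id.const_mul_atTop' (per_pos j)
  have h3 := h2.comp hsub
  have hb : ∀ m : ℕ, ∑ w, cell X (fun x => φ (pr x) + F x) (P * m) w ≤
      (P + 1) * Real.exp (m * s) := by
    intro m
    set n := P * m with hn
    let W : Finset (Fin n → Fin 3) :=
      (Finset.range P).image fun b : ℕ => fun i : Fin n => ⟨xx j b (i : ℕ), xx_lt _ _ _⟩
    have hW : (W.card : ℝ) ≤ P := by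
      have : W.card ≤ P := Finset.card_image_le.trans (by simp)
      exact_mod_cast this
    have hc : ∀ w, cell X (fun x => φ (pr x) + F x) n w ≤
        Real.exp (n * (M - t)) + if w ∈ W then Real.exp (m * s) else 0 := by
      intro w
      refine cell_le _ _ _ _ _ (by split_ifs <;> positivity) fun x hx hw => ?_
      by_cases hr : x ∈ Set.range (xx j)
      · obtain ⟨a, rfl⟩ := hr
        obtain ⟨b, hb, e⟩ := xx_mod j a
        have hwW : w ∈ W := by
          refine Finset.mem_image.2 ⟨b, hb, ?_⟩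
          funext i
          apply Fin.ext
          rw [← hw i, e]
        rw [if_pos hwW]
        simp only [xx_shift, hφ1, zero_add]
        rw [hn, hP, sum_mul_per]
        have := Real.exp_pos (((per j * m : ℕ) : ℝ) * (M - t))
        linarith
      · have : ∑ c ∈ Finset.range n, (φ (pr fun m => x (m + c)) + F fun m => x (m + c)) ≤
            n * (M - t) := by
          have := Finset.sum_le_card_nsmul (Finset.range n)
            (fun c : ℕ => φ (pr fun m => x (m + c)) + F fun m => x (m + c)) (M - t)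
            (fun c _ => by
              have := (abs_le.1 (hM _ (X_shift x c hx))).2
              rw [hφ2 x hx hr]; linarith)
          simpa using this
        refine (Real.exp_le_exp.2 this).trans ?_
        split_ifs
        · have := Real.exp_pos (m * s); linarith
        · simp
    refine (Finset.sum_le_sum fun w _ => hc w).trans ?_
    rw [Finset.sum_add_distrib, Finset.sum_const, Finset.sum_ite_mem, Finset.univ_inter,
      Finset.sum_const, Finset.card_univ, Fintype.card_fun, Fintype.card_fin, Fintype.card_fin,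
      nsmul_eq_mul, nsmul_eq_mul]
    have e1 : ((3 ^ n : ℕ) : ℝ) * Real.exp (n * (M - t)) = Real.exp (m * s) := by
      have : ((3 ^ n : ℕ) : ℝ) = Real.exp (n * Real.log 3) := by
        rw [Real.exp_nat_mul, Real.exp_log (by norm_num)]; push_cast; rfl
      rw [this, ← Real.exp_add]
      congr 1
      rw [ht, hn]; push_cast; field_simp; ring
    rw [e1]
    have := mul_le_mul_of_nonneg_right hW (Real.exp_pos (m * s)).le
    linarith
  have hlim : Tendsto (fun m : ℕ => Real.log (P + 1) / P / (m : ℝ) + s / P) atTop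
      (𝓝 (0 + s / P)) := (tendsto_const_div_atTop_nhds_zero_nat _).add tendsto_const_nhds
  have hle : L ≤ 0 + s / P := by
    refine le_of_tendsto_of_tendsto h3 hlim ?_
    filter_upwards [eventually_gt_atTop 0] with m hm
    have hm0 : (0 : ℝ) < m := by exact_mod_cast hm
    have hpos : 0 < ∑ w, cell X (fun x => φ (pr x) + F x) (P * m) w :=
      (Real.exp_pos _).trans_le (one_le_Z X _ (P * m) M (fun x hx c => X_shift x c hx)
        (fun x hx => by have := (abs_le.1 (hM x hx)).2; have := hφ0 (pr x); linarith)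
        (xx j 0) (xx_mem j 0) (xx_lt j 0))
    have hlog := Real.log_le_log hpos (hb m)
    rw [Real.log_mul (by positivity) (Real.exp_pos _).ne', Real.log_exp] at hlog
    simp only [Function.comp]
    rw [div_le_iff₀ (by push_cast; positivity)]
    refine hlog.trans (le_of_eq ?_)
    push_cast; field_simp
  linarith

theorem local_r (F : (ℤ → ℕ) → ℝ) (hF : ContinuousOn F X) (p : ℤ → ℕ) (hp : p ∈ X) (ε : ℝ)
    (hε : 0 < ε) : ∃ r : ℕ, ∀ x ∈ X, (∀ i : ℤ, |i| ≤ r → x i = p i) → F x ≤ F p + ε := by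
  have h1 : ∀ᶠ x in 𝓝[X] p, F x < F p + ε :=
    (hF p hp).eventually (gt_mem_nhds (by linarith))
  rw [eventually_nhdsWithin_iff, nhds_pi, Filter.Eventually, mem_pi'] at h1
  obtain ⟨I, t, ht, hsub⟩ := h1
  refine ⟨I.sup Int.natAbs, fun x hx h => (hsub (fun i hi => ?_) hx).le⟩
  rw [h i]
  · exact mem_of_mem_nhds (ht i)
  · have : i.natAbs ≤ I.sup Int.natAbs := Finset.le_sup (f := Int.natAbs) hi
    rw [Int.abs_eq_natAbs]; exact_mod_cast this

theorem stepB (F : (ℤ → ℕ) → ℝ) (hF : ContinuousOn F X) (M : ℝ) (hM : ∀ x ∈ X, |F x| ≤ M)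
    (h : ∀ j, 0 ≤ ∑ b ∈ Finset.range (per j), F (xx j b)) (d : D) :
    0 ≤ ∑ b ∈ Finset.range (d.1 + 1), F (fun m => zOf d (m + b)) := by
  classical
  set N := d.1 + 1 with hN
  set s := ∑ b ∈ Finset.range N, F (fun m => zOf d (m + b)) with hs
  have hN0 : (0 : ℝ) < N := by rw [hN]; positivity
  have hM0 : 0 ≤ M := (abs_nonneg _).trans (hM _ (xx_mem 0 0))
  have hz : ∀ b : ℤ, (fun m => zOf d (m + b)) ∈ X := fun b => bin_mem _ fun i => zOf_lt _ _
  refine le_of_forall_pos_le_add fun ε hε => ?_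
  have hε' : 0 < ε / (2 * N) := by positivity
  choose r hr using fun b : ℕ => local_r F hF _ (hz b) _ hε'
  set R := (Finset.range N).sup r with hR
  have hmod : ∀ b : ℕ, (fun m => zOf d (m + b)) = fun m => zOf d (m + (b % N : ℕ)) := by
    intro b
    funext m
    rw [← zOf_per d (m + (b % N : ℕ)) (b / N : ℕ)]
    congr 1
    have := Nat.mod_add_div b N
    rw [add_assoc]
    congr 1
    exact_mod_cast this.symm
  have hsum : ∀ k : ℕ, ∑ b ∈ Finset.range (N * k), F (fun m => zOf d (m + b)) = k * s := by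
    intro k
    induction k with
    | zero => simp
    | succ k ih =>
      rw [mul_add, mul_one, Finset.sum_range_add, ih]
      push_cast
      rw [add_mul, one_mul, hs]
      congr 1
      refine Finset.sum_congr rfl fun b _ => ?_
      congr 1
      funext m
      rw [← zOf_per d (m + b) k]
      congr 1
      rw [hN]; push_cast; ring
  obtain ⟨K, hK⟩ := exists_nat_ge (2 * M * ((2 * R + 1) * N) * 2 / ε)
  obtain ⟨j, hj, hjd⟩ := en_freq d K
  have hper : per j = N * (j + 1) := by rw [per, hjd]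
  let bad : ℕ → Prop := fun b => ∃ i ∈ Finset.Icc (-(R : ℤ)) R, ((j + 1 : ℕ) : ℤ) ∣ i + b
  have hbad : (((Finset.range (per j)).filter bad).card : ℝ) ≤ (2 * R + 1) * N := by
    have e : (Finset.range (per j)).filter bad = (Finset.Icc (-(R : ℤ)) R).biUnion fun i =>
        (Finset.range (per j)).filter fun b : ℕ => ((j + 1 : ℕ) : ℤ) ∣ i + b := by
      ext b
      simp only [bad, Finset.mem_filter, Finset.mem_biUnion]
      constructor
      · rintro ⟨h1, i, h2, h3⟩; exact ⟨i, h2, h1, h3⟩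
      · rintro ⟨i, h2, h1, h3⟩; exact ⟨h1, i, h2, h3⟩
    have h1 : ∀ i ∈ Finset.Icc (-(R : ℤ)) R, ((Finset.range (per j)).filter
        fun b : ℕ => ((j + 1 : ℕ) : ℤ) ∣ i + b).card ≤ N := by
      intro i _
      rw [← Finset.card_range N]
      refine Finset.card_le_card_of_injOn (fun b => b / (j + 1)) ?_ ?_
      · intro b hb
        have := Finset.mem_range.1 (Finset.mem_filter.1 hb).1
        rw [hper] at this
        exact Finset.mem_range.2 (Nat.div_lt_of_lt_mul (by rwa [mul_comm]))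
      · intro b hb b' hb' hbb
        have h1 := (Finset.mem_filter.1 hb).2
        have h2 := (Finset.mem_filter.1 hb').2
        have h3 := Int.dvd_sub h1 h2
        have e : i + (b : ℤ) - (i + b') = b - b' := by ring
        rw [e] at h3
        have h4 : b' % (j + 1) = b % (j + 1) := (Nat.modEq_iff_dvd.2 h3)
        have h5 := Nat.mod_add_div b (j + 1)
        have h6 := Nat.mod_add_div b' (j + 1)
        simp only at hbb
        rw [hbb, ← h4] at h5
        omega
    have h2 := Finset.card_biUnion_le_card_mul _ _ _ h1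
    rw [← e, Int.card_Icc] at h2
    have h3 : ((R : ℤ) + 1 - -(R : ℤ)).toNat = 2 * R + 1 := by omega
    rw [h3] at h2
    exact_mod_cast h2
  have hpt : ∀ b : ℕ, F (xx j b) ≤ F (fun m => zOf d (m + b)) + ε / (2 * N) +
      if bad b then 2 * M else 0 := by
    intro b
    split_ifs with hb
    · have := (abs_le.1 (hM _ (xx_mem j b))).2
      have := (abs_le.1 (hM _ (hz b))).1
      linarith
    · rw [add_zero, hmod b]
      refine hr (b % N) _ (xx_mem j b) fun i hi => ?_
      have hle : r (b % N) ≤ R :=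
        Finset.le_sup (f := r) (Finset.mem_range.2 (Nat.mod_lt _ (by omega)))
      have hnd : ¬ ((j + 1 : ℕ) : ℤ) ∣ i + b := fun hd => hb ⟨i, by
        rw [Finset.mem_Icc]; rw [abs_le] at hi; omega, hd⟩
      have := congrFun (hmod b) i
      rw [← this, xx, if_neg hnd, hjd]
  have h1 := (h j).trans (Finset.sum_le_sum fun b _ => hpt b)
  rw [Finset.sum_add_distrib, Finset.sum_add_distrib, ← Finset.sum_filter, Finset.sum_const,
    Finset.sum_const, Finset.card_range, nsmul_eq_mul, nsmul_eq_mul] at h1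
  have h2 := mul_le_mul_of_nonneg_right hbad (by positivity : (0 : ℝ) ≤ 2 * M)
  rw [hper] at h1 h2
  rw [hsum] at h1
  have hj1 : (0 : ℝ) < ((j + 1 : ℕ) : ℝ) := by positivity
  have hKj : (K : ℝ) ≤ ((j + 1 : ℕ) : ℝ) := by exact_mod_cast (by omega : K ≤ j + 1)
  have h3 : 2 * M * ((2 * R + 1) * N) * 2 ≤ ((j + 1 : ℕ) : ℝ) * ε := by
    rw [div_le_iff₀ hε] at hK
    exact hK.trans (mul_le_mul_of_nonneg_right hKj hε.le)
  have h4 : ((N * (j + 1) : ℕ) : ℝ) * (ε / (2 * N)) = ((j + 1 : ℕ) : ℝ) * ε / 2 := by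
    rw [Nat.cast_mul]; field_simp
  rw [h4] at h1
  have h5 : 0 ≤ ((j + 1 : ℕ) : ℝ) * (s + ε) := by nlinarith
  exact nonneg_of_mul_nonneg_right h5 hj1 |> fun h => by linarith

theorem no_comp (F : (ℤ → ℕ) → ℝ) (hF : ContinuousOn F X) (h : Hyp F) : False := by
  classical
  obtain ⟨M, hM⟩ := X_compact.exists_bound_of_continuousOn hF
  have hB := stepB F hF M hM (stepA F M hM h)
  obtain ⟨L, h1, h2⟩ := h (fun _ => 0) continuousOn_const
  have hlow : Real.log 2 ≤ L := by
    refine ge_of_tendsto h2 ?_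
    filter_upwards [eventually_gt_atTop 0] with n hn
    obtain ⟨N, rfl⟩ : ∃ N, n = N + 1 := ⟨n - 1, by omega⟩
    rw [le_div_iff₀ (by positivity), mul_comm, ← Real.log_pow]
    refine Real.log_le_log (by positivity) ?_
    let W : Finset (Fin (N + 1) → Fin 3) := Fintype.piFinset fun _ => {0, 1}
    have hW : W.card = 2 ^ (N + 1) := by
      rw [Fintype.card_piFinset]; simp
    have hc : ∀ w ∈ W, (1 : ℝ) ≤ cell X (fun x => (0 : ℝ) + F x) (N + 1) w := by
      intro w hw
      have := le_cell X (fun x => (0 : ℝ) + F x) (N + 1) w M (fun x hx c => X_shift x c hx)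
        (fun x hx => by have := (abs_le.1 (hM x hx)).2; linarith) (zOf ⟨N, w⟩)
        (bin_mem _ (zOf_lt _)) (fun i => by
          have e : (((i : ℕ) : ℤ) : ZMod (N + 1)) = i := by
            rw [Int.cast_natCast]; exact ZMod.natCast_zmod_val (n := N + 1) i
          unfold zOf
          simp only
          rw [e]
          have := Fintype.mem_piFinset.1 hw i
          simp only [Finset.mem_insert, Finset.mem_singleton] at this
          rcases this with h | h <;> rw [h] <;> rfl)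
      refine le_trans (Real.one_le_exp ?_) this
      simpa using hB ⟨N, w⟩
    calc (2 : ℝ) ^ (N + 1) = ∑ _w ∈ W, (1 : ℝ) := by simp [hW]
      _ ≤ ∑ w ∈ W, cell X (fun x => (0 : ℝ) + F x) (N + 1) w := Finset.sum_le_sum hc
      _ ≤ _ := Finset.sum_le_sum_of_subset_of_nonneg (Finset.subset_univ _)
          fun w _ _ => cell_nonneg _ _ _ _
  have hup : ∀ n : ℕ, ∑ w, cell Y (fun _ => 0) n w ≤ ((n : ℝ) + 1) ^ 2 := by
    intro n
    let W : Finset (Fin n → Fin 3) := (Finset.range (n + 1) ×ˢ Finset.range (n + 1)).image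
      fun q => fun i : Fin n => if q.1 ≤ (i : ℕ) ∧ (q.2 + 1) ∣ ((i : ℕ) - q.1) then 2 else 0
    have hW : (W.card : ℝ) ≤ ((n : ℝ) + 1) ^ 2 := by
      have : W.card ≤ (n + 1) ^ 2 := Finset.card_image_le.trans (by simp [sq])
      exact_mod_cast this
    have hc : ∀ w, cell Y (fun _ => 0) n w ≤ if w ∈ W then 1 else 0 := by
      intro w
      refine cell_le _ _ _ _ _ (by split_ifs <;> norm_num) ?_
      rintro _ ⟨x, hx, rfl⟩ hw
      obtain ⟨a, ha, p, hp, hap⟩ := Y_words x hx n
      have hwW : w ∈ W := by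
        refine Finset.mem_image.2 ⟨(a, p), Finset.mem_product.2 ⟨ha, hp⟩, ?_⟩
        funext i
        apply Fin.ext
        rw [← hw i]
        simp only [← hap i i.2, pr]
        split_ifs <;> rfl
      simp [hwW]
    refine (Finset.sum_le_sum fun w _ => hc w).trans ?_
    rw [Finset.sum_ite_mem, Finset.univ_inter, Finset.sum_const, nsmul_eq_mul, mul_one]
    exact hW
  have hlim : Tendsto (fun n : ℕ => Real.log (((n : ℝ) + 1) ^ 2) / n) atTop (𝓝 0) := by
    have a1 : Tendsto (fun x : ℝ => Real.log x ^ 1 / (1 * x + -1)) atTop (𝓝 0) :=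
      Real.tendsto_pow_log_div_mul_add_atTop 1 (-1) 1 one_ne_zero
    have a2 : Tendsto (fun n : ℕ => (n : ℝ) + 1) atTop atTop :=
      tendsto_atTop_add_const_right _ _ tendsto_natCast_atTop_atTop
    have a3 := (a1.comp a2).const_mul 2
    rw [mul_zero] at a3
    refine a3.congr fun n => ?_
    simp only [Function.comp, Real.log_pow]
    push_cast; ring_nf
  have hL : L ≤ 0 := by
    refine le_of_tendsto_of_tendsto' h1 hlim fun n => ?_
    refine div_le_div_of_nonneg_right (Real.log_le_log ?_ (hup n)) (Nat.cast_nonneg n)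
    exact (Real.exp_pos _).trans_le (one_le_Z Y _ n 0 Y_shift (fun _ _ => le_rfl)
      (pr (xx 0 0)) ⟨_, xx_mem 0 0, rfl⟩ (Y_lt _ ⟨_, xx_mem 0 0, rfl⟩))
  have := Real.log_pos (by norm_num : (1 : ℝ) < 2)
  linarith

end Pool.Agent.Lib.helper23.CompB
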