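import Mathlib

namespace Pool.Agent.Lib.helper23.DbA

open Finset Filter Topology
open scoped InnerProductSpace

variable {H : Type} [NormedAddCommGroup H] [InnerProductSpace ℂ H] (U : H →ₗᵢ[ℂ] H) (v : H)

noncomputable def T : Module.End ℂ H :=
  U.toLinearMap - ((innerₛₗ ℂ v).comp U.toLinearMap).smulRight v

theorem T_apply (x : H) : T U v x = U x - ⟪v, U x⟫_ℂ • v := rfl

noncomputable def θ : ℕ → ℂ
  | 0 => 0
  | n + 1 => ⟪v, U ((T U v ^ n) v)⟫_ℂ

noncomputable def st (g : ℕ → ℂ) (n : ℕ) : H := ∑ k ∈ range n, g k • (T U v ^ (n - k)) v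

def conv (a g : ℕ → ℂ) (n : ℕ) : ℂ := ∑ k ∈ range (n + 1), a k * g (n - k)

theorem st_add (g : ℕ → ℂ) (n : ℕ) :
    st U v g n + g n • v = ∑ k ∈ range (n + 1), g k • (T U v ^ (n - k)) v := by
  rw [sum_range_succ, st]; simp

theorem st_succ (g : ℕ → ℂ) (n : ℕ) : st U v g (n + 1) = T U v (st U v g n + g n • v) := by
  rw [st_add, st, map_sum]
  refine sum_congr rfl fun k hk => ?_
  rw [map_smul, show n + 1 - k = n - k + 1 by have := mem_range.1 hk; omega, pow_succ']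
  rfl

theorem conv_zero (g : ℕ → ℂ) : conv (θ U v) g 0 = 0 := by simp [conv, θ]

theorem conv_succ (g : ℕ → ℂ) (n : ℕ) :
    conv (θ U v) g (n + 1) = ⟪v, U (st U v g n + g n • v)⟫_ℂ := by
  rw [st_add, map_sum, inner_sum, conv, sum_range_succ', ← sum_flip]
  simp only [θ, zero_mul, add_zero, map_smul, inner_smul_right]
  refine sum_congr rfl fun k hk => ?_
  rw [show n + 1 - (n - k + 1) = k by have := mem_range.1 hk; omega, mul_comm]

variable {v} (hv : ‖v‖ = 1)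
include hv

theorem pyth {x : H} (hx : ⟪v, x⟫_ℂ = 0) (c : ℂ) : ‖x + c • v‖ ^ 2 = ‖x‖ ^ 2 + ‖c‖ ^ 2 := by
  have := norm_add_sq_eq_norm_sq_add_norm_sq_of_inner_eq_zero (𝕜 := ℂ) x (c • v)
    (by rw [inner_smul_right, inner_eq_zero_symm.1 hx, mul_zero])
  rw [norm_smul, hv, mul_one] at this
  simpa only [pow_two] using this

theorem inner_T (x : H) : ⟪v, T U v x⟫_ℂ = 0 := by
  rw [T_apply, inner_sub_right, inner_smul_right, inner_self_eq_norm_sq_to_K, hv]; simp

theorem norm_T (x : H) : ‖T U v x‖ ^ 2 + ‖⟪v, U x⟫_ℂ‖ ^ 2 = ‖x‖ ^ 2 := by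
  rw [← pyth hv (inner_T U hv x), T_apply, sub_add_cancel, U.norm_map]

theorem norm_pow_anti (x : H) : Antitone fun n => ‖(T U v ^ n) x‖ ^ 2 :=
  antitone_nat_of_succ_le fun n => by
    have := norm_T U hv ((T U v ^ n) x)
    rw [pow_succ' (T U v), Module.End.mul_apply]
    nlinarith [sq_nonneg ‖⟪v, U ((T U v ^ n) x)⟫_ℂ‖]

theorem norm_pow_le (x : H) (n : ℕ) : ‖(T U v ^ n) x‖ ≤ ‖x‖ := by
  have := norm_pow_anti U hv x (Nat.zero_le n)
  simp only [pow_zero, Module.End.one_apply] at this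
  exact abs_le_of_sq_le_sq' this (norm_nonneg _) |>.2

theorem inner_st (g : ℕ → ℂ) (n : ℕ) : ⟪v, st U v g n⟫_ℂ = 0 := by
  cases n with
  | zero => simp [st]
  | succ n => rw [st_succ, inner_T U hv]

theorem energy (g : ℕ → ℂ) (N : ℕ) :
    ∑ n ∈ range (N + 1), ‖conv (θ U v) g n‖ ^ 2 + ‖st U v g N‖ ^ 2 = ∑ n ∈ range N, ‖g n‖ ^ 2 := by
  induction N with
  | zero => simp [conv_zero, st]
  | succ N ih =>
    rw [sum_range_succ, sum_range_succ (fun n => ‖g n‖ ^ 2), ← ih, conv_succ, st_succ]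
    have h1 := norm_T U hv (st U v g N + g N • v)
    rw [pyth hv (inner_st U hv g N)] at h1
    linarith

theorem renewal (n : ℕ) : conv (θ U v) (fun k => ⟪v, (U ^ k) v⟫_ℂ) (n + 1) =
    ⟪v, (U ^ (n + 1)) v⟫_ℂ := by
  have h : ∀ n, st U v (fun k => ⟪v, (U ^ k) v⟫_ℂ) n + ⟪v, (U ^ n) v⟫_ℂ • v = (U ^ n) v := by
    intro n
    induction n with
    | zero => simp [st, inner_self_eq_norm_sq_to_K, hv]
    | succ n ih => rw [st_succ, ih, T_apply, pow_succ']; simp
  rw [conv_succ, h, pow_succ']; rfl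

theorem decay (e : ℕ → H) (l : ℕ → ℂ) (w : ℕ → ℝ) (hl : ∀ i, ‖l i‖ = 1)
    (he : ∀ i, U (e i) = l i • e i) (hw : ∀ i, ⟪v, e i⟫_ℂ = w i) (hw0 : ∀ i, 0 < w i)
    (hs : HasSum e v) : Tendsto (fun n => ‖(T U v ^ n) v‖) atTop (𝓝 0) := by
  have h1 : ∀ i n, ‖(T U v ^ (n + 1)) (e i)‖ ^ 2 = ‖(T U v ^ n) (e i)‖ ^ 2 -
      2 * w i * (⟪(T U v ^ n) (e i), (T U v ^ n) v⟫_ℂ).re + w i ^ 2 * ‖(T U v ^ n) v‖ ^ 2 := by
    intro i n
    have : T U v (e i) = l i • (e i - (w i : ℂ) • v) := by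
      rw [T_apply, he, inner_smul_right, hw, smul_sub, smul_smul]
    rw [pow_succ (T U v), Module.End.mul_apply, this, map_smul, norm_smul, hl, one_mul, map_sub, map_smul,
      norm_sub_sq (𝕜 := ℂ), inner_smul_right, norm_smul, mul_pow, Complex.norm_real,
      Real.norm_eq_abs, sq_abs]
    simp only [RCLike.re_to_complex, Complex.re_ofReal_mul]
    ring
  have h2 : ∀ i, Tendsto (fun n => (‖(T U v ^ n) (e i)‖ ^ 2 - ‖(T U v ^ (n + 1)) (e i)‖ ^ 2) / w i)
      atTop (𝓝 0) := fun i => by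
    have h3 := tendsto_atTop_ciInf (norm_pow_anti U hv (e i)) ⟨0, by rintro _ ⟨n, rfl⟩; positivity⟩
    have := (h3.sub (h3.comp (tendsto_add_atTop_nat 1))).div_const (w i)
    simpa using this
  have h3 : Tendsto (fun n => ‖(T U v ^ n) v‖ ^ 2) atTop (𝓝 0) := by
    refine Metric.tendsto_atTop.2 fun ε hε => ?_
    obtain ⟨I, hI⟩ := Metric.tendsto_atTop.1 hs.tendsto_sum_nat (ε / 4) (by positivity)
    replace hI := hI I le_rfl
    rw [dist_eq_norm] at hI
    set r := ∑ i ∈ range I, e i - v with hr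
    have h4 := tendsto_finsetSum (range I) fun i _ => h2 i
    rw [sum_const_zero] at h4
    obtain ⟨N, hN⟩ := Metric.tendsto_atTop.1 h4 (ε / 4) (by positivity)
    refine ⟨N, fun n hn => ?_⟩
    replace hN := (abs_lt.1 (hN n hn)).2
    rw [Real.dist_eq, sub_zero, abs_of_nonneg (by positivity)]
    have h5 : ∀ i ∈ range I, (‖(T U v ^ n) (e i)‖ ^ 2 - ‖(T U v ^ (n + 1)) (e i)‖ ^ 2) / w i =
        2 * (⟪(T U v ^ n) (e i), (T U v ^ n) v⟫_ℂ).re - w i * ‖(T U v ^ n) v‖ ^ 2 := fun i _ => by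
      rw [h1, div_eq_iff (hw0 i).ne']; ring
    rw [sum_congr rfl h5, sum_sub_distrib, ← mul_sum, ← sum_mul, ← Complex.re_sum, ← sum_inner,
      ← map_sum, show ∑ i ∈ range I, e i = v + r by rw [hr]; abel, map_add, inner_add_left,
      Complex.add_re] at hN
    have h6 : (⟪(T U v ^ n) v, (T U v ^ n) v⟫_ℂ).re = ‖(T U v ^ n) v‖ ^ 2 :=
      inner_self_eq_norm_sq (𝕜 := ℂ) _
    have h7 := norm_pow_le U hv v n
    have h8 := norm_pow_le U hv r n
    have h9 := (abs_le.1 ((Complex.abs_re_le_norm _).trans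
      (norm_inner_le_norm (𝕜 := ℂ) ((T U v ^ n) r) ((T U v ^ n) v)))).1
    have h10 : ∑ i ∈ range I, w i ≤ 1 + ‖r‖ := by
      have : ((∑ i ∈ range I, w i : ℝ) : ℂ) = ⟪v, v + r⟫_ℂ := by
        rw [hr, add_sub_cancel, inner_sum]; simp [hw]
      have h11 := congrArg norm this
      rw [Complex.norm_real] at h11
      have h12 := norm_inner_le_norm (𝕜 := ℂ) v (v + r)
      have h13 := norm_add_le v r
      rw [hv] at h12 h13
      linarith [Real.le_norm_self (∑ i ∈ range I, w i)]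
    rw [hv] at h7
    have h14 : ‖(T U v ^ n) r‖ * ‖(T U v ^ n) v‖ ≤ ‖r‖ * 1 := by gcongr
    have h15 : ‖(T U v ^ n) v‖ ^ 2 ≤ 1 := pow_le_one₀ (norm_nonneg _) h7
    have h16 : (∑ i ∈ range I, w i) * ‖(T U v ^ n) v‖ ^ 2 ≤ (1 + ‖r‖) * ‖(T U v ^ n) v‖ ^ 2 := by
      gcongr
    nlinarith [norm_nonneg r]
  have := h3.sqrt
  simpa using this

theorem st_tendsto (hd : Tendsto (fun n => ‖(T U v ^ n) v‖) atTop (𝓝 0)) (g : ℕ → ℂ)
    (hg : Summable fun n => ‖g n‖ ^ 2) : Tendsto (fun n => st U v g n) atTop (𝓝 0) := by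
  refine Metric.tendsto_atTop.2 fun ε hε => ?_
  obtain ⟨M, hM⟩ := Metric.tendsto_atTop.1 hg.hasSum.tendsto_sum_nat ((ε / 2) ^ 2) (by positivity)
  replace hM := (abs_lt.1 (hM M le_rfl)).1
  have h1 : Tendsto (fun n => ∑ k ∈ range M, g k • (T U v ^ (n - k)) v) atTop (𝓝 0) := by
    have := tendsto_finsetSum (range M) fun k _ =>
      ((tendsto_zero_iff_norm_tendsto_zero.2 hd).comp (tendsto_sub_atTop_nat k)).const_smul (g k)
    simpa using this
  obtain ⟨N, hN⟩ := Metric.tendsto_atTop.1 h1 (ε / 2) (by positivity)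
  refine ⟨max M N, fun n hn => ?_⟩
  replace hN := hN n (le_of_max_le_right hn)
  have hn' := le_of_max_le_left hn
  rw [dist_zero_right] at hN ⊢
  have h2 : st U v g n = ∑ k ∈ range M, g k • (T U v ^ (n - k)) v +
      st U v (fun k => if k < M then 0 else g k) n := by
    simp only [st, ite_smul, zero_smul]
    rw [sum_ite, sum_const_zero, zero_add, ← sum_filter_add_sum_filter_not (range n) (· < M)]
    congr 2
    ext k; simp only [mem_filter, mem_range]; omega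
  have h3 := energy U hv (fun k => if k < M then 0 else g k) n
  have h4 : ∑ k ∈ range n, ‖if k < M then 0 else g k‖ ^ 2 + ∑ k ∈ range M, ‖g k‖ ^ 2 =
      ∑ k ∈ range n, ‖g k‖ ^ 2 := by
    simp only [apply_ite norm, norm_zero, ite_pow, ne_eq, OfNat.ofNat_ne_zero, not_false_eq_true,
      zero_pow]
    rw [sum_ite, sum_const_zero, zero_add, ← sum_filter_add_sum_filter_not (range n) (· < M),
      add_comm]
    congr 2
    ext k; simp only [mem_filter, mem_range]; omega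
  have h5 := hg.sum_le_tsum (range n) fun _ _ => by positivity
  have h6 : 0 ≤ ∑ k ∈ range (n + 1), ‖conv (θ U v) (fun k => if k < M then 0 else g k) k‖ ^ 2 := by
    positivity
  have h7 : ‖st U v (fun k => if k < M then 0 else g k) n‖ < ε / 2 :=
    lt_of_pow_lt_pow_left₀ 2 (by positivity) (by linarith)
  rw [h2]
  linarith [norm_add_le (∑ k ∈ range M, g k • (T U v ^ (n - k)) v)
    (st U v (fun k => if k < M then 0 else g k) n)]

theorem isom (hd : Tendsto (fun n => ‖(T U v ^ n) v‖) atTop (𝓝 0)) (g : ℕ → ℂ)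
    (hg : Summable fun n => ‖g n‖ ^ 2) :
    HasSum (fun n => ‖conv (θ U v) g n‖ ^ 2) (∑' n, ‖g n‖ ^ 2) := by
  rw [hasSum_iff_tendsto_nat_of_nonneg fun _ => by positivity, ← tendsto_add_atTop_iff_nat 1]
  have := hg.hasSum.tendsto_sum_nat.sub ((st_tendsto U hv hd g hg).norm.pow 2)
  simp only [← energy U hv g, add_sub_cancel_right] at this
  simpa using this

end Pool.Agent.Lib.helper23.DbA
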