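import Mathlib

namespace Pool.Agent.Lib.helper23.DbB

open Finset Filter Topology
open scoped InnerProductSpace

noncomputable def I (ψ : ℕ → ℕ → ℂ) (m : ℕ) (f : ℕ → ℂ) (N M : ℕ) : ℂ :=
  ∑ k ∈ Ico N M, ψ m k * f k

noncomputable def Q (f : ℕ → ℂ) (N M : ℕ) : ℝ := ∑ k ∈ Ico N M, ‖f k‖ ^ 2

variable {ψ : ℕ → ℕ → ℂ}

theorem I_add (m : ℕ) (f : ℕ → ℂ) {N M L : ℕ} (h1 : N ≤ M) (h2 : M ≤ L) :
    I ψ m f N L = I ψ m f N M + I ψ m f M L := (sum_Ico_consecutive _ h1 h2).symm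

theorem Q_add (f : ℕ → ℂ) {N M L : ℕ} (h1 : N ≤ M) (h2 : M ≤ L) :
    Q f N L = Q f N M + Q f M L := (sum_Ico_consecutive _ h1 h2).symm

theorem I_congr (m : ℕ) {f g : ℕ → ℂ} {N M : ℕ} (h : ∀ k, N ≤ k → k < M → f k = g k) :
    I ψ m f N M = I ψ m g N M :=
  sum_congr rfl fun k hk => by rw [h k (mem_Ico.1 hk).1 (mem_Ico.1 hk).2]

theorem Q_congr {f g : ℕ → ℂ} {N M : ℕ} (h : ∀ k, N ≤ k → k < M → f k = g k) :
    Q f N M = Q g N M :=
  sum_congr rfl fun k hk => by rw [h k (mem_Ico.1 hk).1 (mem_Ico.1 hk).2]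

theorem I_smul (m : ℕ) (f : ℕ → ℂ) (c : ℂ) (N M : ℕ) :
    I ψ m (fun k => c * f k) N M = c * I ψ m f N M := by
  simp only [I, mul_sum]; exact sum_congr rfl fun _ _ => by ring

theorem Q_smul (f : ℕ → ℂ) (c : ℂ) (N M : ℕ) :
    Q (fun k => c * f k) N M = ‖c‖ ^ 2 * Q f N M := by
  simp only [Q, mul_sum, norm_mul, mul_pow]

def Piece (ψ : ℕ → ℕ → ℂ) : Prop :=
  ∀ j, ∃ C : ℝ, 0 ≤ C ∧ ∀ η > 0, ∀ N, ∃ N', N < N' ∧ ∃ σ : ℕ → ℂ, Q σ N N' ≤ C ∧
    ‖I ψ j σ N N' - 1‖ ≤ η ∧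
    ∀ m < j, ‖I ψ m σ N N'‖ ≤ η ∧ ∀ M, N ≤ M → M ≤ N' → ‖I ψ m σ N M‖ ≤ C

theorem kfold {j : ℕ} {C η : ℝ} (hC : 0 ≤ C) (hη : 0 ≤ η) (h : ∀ N, ∃ N', N < N' ∧ ∃ σ : ℕ → ℂ,
    Q σ N N' ≤ C ∧ ‖I ψ j σ N N' - 1‖ ≤ η ∧
    ∀ m < j, ‖I ψ m σ N N'‖ ≤ η ∧ ∀ M, N ≤ M → M ≤ N' → ‖I ψ m σ N M‖ ≤ C) (N K : ℕ) :
    ∃ N', N + K ≤ N' ∧ ∃ σ : ℕ → ℂ, Q σ N N' ≤ K * C ∧ ‖I ψ j σ N N' - K‖ ≤ K * η ∧
    ∀ m < j, ‖I ψ m σ N N'‖ ≤ K * η ∧ ∀ M, N ≤ M → M ≤ N' → ‖I ψ m σ N M‖ ≤ K * η + C := by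
  induction K with
  | zero =>
    refine ⟨N, le_rfl, 0, by simp [Q], by simp [I], fun m _ => ⟨by simp [I], fun M _ _ => ?_⟩⟩
    simpa [I] using hC
  | succ K ih =>
    obtain ⟨N1, h1, σ, h2, h3, h4⟩ := ih
    obtain ⟨N2, h5, τ, h6, h7, h8⟩ := h N1
    have e1 : ∀ M ≤ N1, ∀ k, N ≤ k → k < M → (if k < N1 then σ k else τ k) = σ k :=
      fun M _ k _ _ => if_pos (by omega)
    have e2 : ∀ M k, N1 ≤ k → k < M → (if k < N1 then σ k else τ k) = τ k :=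
      fun M k _ _ => if_neg (by omega)
    have e3 : ∀ m M, N1 ≤ M → I ψ m (fun k => if k < N1 then σ k else τ k) N M =
        I ψ m σ N N1 + I ψ m τ N1 M := fun m M hM => by
      rw [I_add m _ (show N ≤ N1 by omega) hM, I_congr m (e1 _ le_rfl), I_congr m (e2 _)]
    refine ⟨N2, by omega, fun k => if k < N1 then σ k else τ k, ?_, ?_, fun m hm => ⟨?_, ?_⟩⟩
    · rw [Q_add _ (show N ≤ N1 by omega) h5.le, Q_congr (e1 _ le_rfl), Q_congr (e2 _)]
      push_cast; linarith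
    · rw [e3 _ _ h5.le]
      push_cast
      refine le_of_eq_of_le (congrArg _ ?_) ((norm_add_le_of_le h3 h7).trans_eq (by ring))
      ring
    · rw [e3 _ _ h5.le]
      push_cast
      exact (norm_add_le_of_le (h4 m hm).1 (h8 m hm).1).trans_eq (by ring)
    · intro M h9 h10
      push_cast
      rcases le_total M N1 with h11 | h11
      · rw [I_congr m (e1 _ h11)]
        linarith [(h4 m hm).2 M h9 h11]
      · rw [e3 _ _ h11]
        linarith [norm_add_le_of_le (h4 m hm).1 ((h8 m hm).2 M h11 h10)]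

theorem step (h : Piece ψ) (j : ℕ) (ε : ℝ) (hε : 0 < ε) (p : ℕ × (ℕ → ℂ)) :
    ∃ q : ℕ × (ℕ → ℂ), p.1 < q.1 ∧ (∀ k < p.1, q.2 k = p.2 k) ∧ Q q.2 p.1 q.1 ≤ ε ∧
      ‖I ψ j q.2 0 q.1‖ ≤ ε ∧ ∀ m < j, ∀ M, p.1 ≤ M → M ≤ q.1 → ‖I ψ m q.2 p.1 M‖ ≤ ε := by
  obtain ⟨N, F⟩ := p
  obtain ⟨C, hC, h⟩ := h j
  set A := I ψ j F 0 N with hA
  obtain ⟨K, hK⟩ := exists_nat_gt ((C * ‖A‖ ^ 2 + (1 + C) * ‖A‖) / ε)
  have hK0 : (0 : ℝ) < K := lt_of_le_of_lt (by positivity) hK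
  have hK1 : 0 < K := by exact_mod_cast hK0
  rw [div_lt_iff₀ hε] at hK
  obtain ⟨N', h1, σ, h2, h3, h4⟩ := kfold hC (by positivity) (h (1 / K) (by positivity)) N K
  rw [mul_one_div_cancel hK0.ne'] at h3 h4
  have e2 : ∀ M k, N ≤ k → k < M → (if k < N then F k else -A / K * σ k) = -A / K * σ k :=
    fun M k _ _ => if_neg (by omega)
  have hn : ‖-A / K‖ = ‖A‖ / K := by simp
  have h5 : 0 ≤ C * ‖A‖ ^ 2 := by positivity
  have h6 : 0 ≤ C * ‖A‖ := by positivity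
  refine ⟨(N', fun k => if k < N then F k else -A / K * σ k), by simp only; omega,
    fun k hk => if_pos hk, ?_, ?_, fun m hm M h7 h8 => ?_⟩
  · simp only
    rw [Q_congr (e2 _), Q_smul, hn]
    refine (mul_le_mul_of_nonneg_left h2 (by positivity)).trans ?_
    rw [show (‖A‖ / K) ^ 2 * (K * C) = C * ‖A‖ ^ 2 / K by field_simp, div_le_iff₀ hK0]
    nlinarith [norm_nonneg A]
  · simp only
    have hK2 : (K : ℂ) ≠ 0 := by exact_mod_cast hK1.ne'
    rw [I_add j _ (Nat.zero_le N) (show N ≤ N' by omega), I_congr j (e2 _), I_smul,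
      I_congr (g := F) j fun k _ hk => if_pos hk, ← hA,
      show A + -A / K * I ψ j σ N N' = -A / K * (I ψ j σ N N' - K) by field_simp; ring,
      norm_mul, hn]
    refine (mul_le_mul_of_nonneg_left h3 (by positivity)).trans ?_
    rw [mul_one, div_le_iff₀ hK0]
    nlinarith [norm_nonneg A]
  · simp only at h7 h8 ⊢
    rw [I_congr m (e2 _), I_smul, norm_mul, hn]
    refine (mul_le_mul_of_nonneg_left ((h4 m hm).2 M h7 h8) (by positivity)).trans ?_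
    rw [div_mul_eq_mul_div, div_le_iff₀ hK0]
    nlinarith [norm_nonneg A]

theorem exists_f (h : Piece ψ) : ∃ f c : ℕ → ℂ, f 0 = 1 ∧ (∀ M, Q f 1 M ≤ 1 / 8) ∧
    (∀ m, Tendsto (fun M => I ψ m f 0 M) atTop (𝓝 (c m))) ∧ ∀ m, ‖c m‖ ≤ 1 / 8 * (1 / 2) ^ m := by
  let ε : ℕ → ℝ := fun j => 1 / 16 * (1 / 2) ^ j
  have hε : ∀ j, 0 < ε j := fun j => by positivity
  have hε' : ∀ j, ε j = 2 * ε (j + 1) := fun j => by simp only [ε]; ring
  choose g hg using fun j => step h j (ε j) (hε j)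
  let p : ℕ → ℕ × (ℕ → ℂ) := fun j => Nat.rec (1, fun _ => 1) g j
  have hp : ∀ j, p (j + 1) = g j (p j) := fun _ => rfl
  let N : ℕ → ℕ := fun j => (p j).1
  have hN : StrictMono N := strictMono_nat_of_lt_succ fun j => (hg j (p j)).1
  have hN0 : N 0 = 1 := rfl
  have hN1 : ∀ j, j < N j := fun j => by
    have := hN.add_le_nat j 0
    rw [add_zero] at this
    omega
  have h1 : ∀ j i, j ≤ i → ∀ k < N j, (p i).2 k = (p j).2 k := fun j i hji k hk => by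
    induction i, hji using Nat.le_induction with
    | base => rfl
    | succ i hji ih => rw [← ih]; exact (hg i (p i)).2.1 k (hk.trans_le (hN.monotone hji))
  let f : ℕ → ℂ := fun k => (p k).2 k
  have h2 : ∀ j k, k < N j → f k = (p j).2 k := fun j k hk => by
    rcases le_total k j with h | h
    · exact (h1 k j h k (hN1 k)).symm
    · exact h1 j k h k hk
  have h3 : ∀ j, Q f (N j) (N (j + 1)) ≤ ε j := fun j => by
    rw [Q_congr fun k _ hk => h2 (j + 1) k hk]; exact (hg j (p j)).2.2.1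
  have h4 : ∀ j, ‖I ψ j f 0 (N (j + 1))‖ ≤ ε j := fun j => by
    rw [I_congr j fun k _ hk => h2 (j + 1) k hk]; exact (hg j (p j)).2.2.2.1
  have h5 : ∀ j, ∀ m < j, ∀ M, N j ≤ M → M ≤ N (j + 1) → ‖I ψ m f (N j) M‖ ≤ ε j :=
    fun j m hm M h6 h7 => by
      rw [I_congr m fun k _ hk => h2 (j + 1) k (hk.trans_le h7)]
      exact (hg j (p j)).2.2.2.2 m hm M h6 h7
  have h6 : ∀ j, Q f 1 (N j) ≤ 2 * ε 0 - 2 * ε j := fun j => by
    induction j with
    | zero => simp [Q, hN0]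
    | succ j ih =>
      rw [Q_add f (show 1 ≤ N j by have := hN1 j; omega) (hN.monotone (Nat.le_succ j))]
      linarith [h3 j, hε' j]
  have h7 : ∀ j, ∀ m < j, ∀ i, j ≤ i → ∀ M, N j ≤ M → M ≤ N i →
      ‖I ψ m f (N j) M‖ ≤ 2 * ε j - 2 * ε i := fun j m hm i hji => by
    induction i, hji using Nat.le_induction with
    | base => intro M h7 h8; rw [le_antisymm h8 h7]; simp [I]
    | succ i hji ih =>
      intro M h7 h8
      rcases le_total M (N i) with h9 | h9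
      · linarith [ih M h7 h9, hε' i, hε (i + 1)]
      · rw [I_add m f (hN.monotone hji) h9]
        linarith [norm_add_le_of_le (ih _ (hN.monotone hji) le_rfl) (h5 i m (by omega) M h9 h8),
          hε' i]
  have h8 : ∀ j, ∀ m < j, ∀ M, N j ≤ M → ‖I ψ m f (N j) M‖ ≤ 2 * ε j := fun j m hm M hM => by
    have := h7 j m hm (max j M) (le_max_left _ _) M hM
      ((hN1 M).le.trans (hN.monotone (le_max_right _ _)))
    linarith [hε (max j M)]
  have h9 : ∀ m, ∃ c, Tendsto (fun M => I ψ m f 0 M) atTop (𝓝 c) := fun m => by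
    refine cauchySeq_tendsto_of_complete (Metric.cauchySeq_iff'.2 fun η hη => ?_)
    obtain ⟨j, hj⟩ := exists_pow_lt_of_lt_one hη (show (1 / 2 : ℝ) < 1 by norm_num)
    refine ⟨N (j + m + 1), fun M hM => ?_⟩
    rw [dist_eq_norm, I_add m f (Nat.zero_le _) hM, add_sub_cancel_left]
    refine (h8 (j + m + 1) m (by omega) M hM).trans_lt (lt_of_le_of_lt ?_ hj)
    have : (1 / 2 : ℝ) ^ (j + m + 1) ≤ (1 / 2) ^ j :=
      pow_le_pow_of_le_one (by norm_num) (by norm_num) (by omega)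
    have : (0 : ℝ) < (1 / 2) ^ j := by positivity
    simp only [ε]; linarith
  choose c hc using h9
  refine ⟨f, c, rfl, fun M => ?_, hc, fun m => le_of_tendsto (hc m).norm ?_⟩
  · have h10 : Q f 1 M ≤ Q f 1 (N M) := sum_le_sum_of_subset_of_nonneg
      (Ico_subset_Ico_right (hN1 M).le) fun _ _ _ => by positivity
    have h11 := h6 M
    have h12 := hε M
    rw [show ε 0 = 1 / 16 by simp [ε]] at h11
    generalize ε M = t at h11 h12
    linarith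
  · filter_upwards [eventually_ge_atTop (N (m + 1))] with M hM
    rw [I_add m f (Nat.zero_le _) hM]
    refine (norm_add_le_of_le (h4 m) (h8 (m + 1) m (by omega) M hM)).trans_eq ?_
    simp only [ε]; ring

variable {H : Type} [NormedAddCommGroup H] [InnerProductSpace ℂ H]

theorem exists_dual (u : ℕ → H) (j : ℕ) (hu : ∀ c : ℕ → ℂ, ∑ m ∈ range j, c m • u m ≠ u j) :
    ∃ p : ℕ → ℂ, ∀ m ≤ j, ∑ l ∈ range (j + 1), 2 * ⟪u l, u m⟫_ℂ * p l = if m = j then 1 else 0 := by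
  let K := Submodule.span ℂ (u '' (range j : Finset ℕ))
  have : FiniteDimensional ℂ K := FiniteDimensional.span_of_finite ℂ (Set.toFinite _)
  obtain ⟨y, hy, z, hz, h⟩ := K.exists_add_mem_mem_orthogonal (u j)
  obtain ⟨c, hc⟩ := (Submodule.mem_span_image_finset_iff_exists_fun' ℂ).1 hy
  have hz0 : z ≠ 0 := fun h0 => hu c (by rw [hc, h, h0, add_zero])
  have h1 : ⟪z, z⟫_ℂ ≠ 0 := inner_self_ne_zero.2 hz0
  have h2 : ∀ x ∈ K, ⟪z, x⟫_ℂ = 0 := (K.mem_orthogonal' z).1 hz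
  have h3 : ∀ x, ∑ l ∈ range (j + 1), ⟪u l, x⟫_ℂ * (if l < j then -starRingEnd ℂ (c l) else 1) =
      ⟪z, x⟫_ℂ := fun x => by
    rw [sum_range_succ, if_neg (lt_irrefl _), show z = u j - y by rw [h]; abel, ← hc,
      inner_sub_left, sum_inner, mul_one, add_comm, sub_eq_add_neg, ← sum_neg_distrib]
    congr 1
    refine sum_congr rfl fun l hl => ?_
    rw [if_pos (mem_range.1 hl), inner_smul_left]; ring
  refine ⟨fun l => (if l < j then -starRingEnd ℂ (c l) else 1) / (2 * ⟪z, z⟫_ℂ), fun m hm => ?_⟩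
  have h4 : ∑ l ∈ range (j + 1), 2 * ⟪u l, u m⟫_ℂ *
      ((if l < j then -starRingEnd ℂ (c l) else 1) / (2 * ⟪z, z⟫_ℂ)) = ⟪z, u m⟫_ℂ / ⟪z, z⟫_ℂ := by
    rw [← h3 (u m), sum_div]
    exact sum_congr rfl fun l _ => by field_simp
  rw [h4]
  split_ifs with h5
  · rw [h5, h, inner_add_right, h2 y hy, zero_add, div_self h1]
  · rw [h2 _ (Submodule.subset_span ⟨m, by simp; omega, rfl⟩), zero_div]

theorem piece (U : H →ₗᵢ[ℂ] H) (v : H) (hv : ‖v‖ = 1)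
    (hψ : ∀ m k, m < k → ψ m k = 2 * ⟪(U ^ k) v, (U ^ m) v⟫_ℂ)
    (hu : ∀ j (c : ℕ → ℂ), ∑ m ∈ range j, c m • (U ^ m) v ≠ (U ^ j) v)
    (hr : ∀ η > 0, ∀ N, ∃ N', N ≤ N' ∧ ‖(U ^ N') v - v‖ ≤ η) : Piece ψ := by
  intro j
  obtain ⟨p, hp⟩ := exists_dual (fun m => (U ^ m) v) j (hu j)
  set B := ∑ l ∈ range (j + 1), ‖p l‖ with hB
  have hB0 : 0 ≤ B := by positivity
  refine ⟨∑ l ∈ range (j + 1), ‖p l‖ ^ 2 + 2 * B, by positivity, fun η hη N => ?_⟩
  obtain ⟨N1, h1, h2⟩ := hr (η / (2 * B + 1)) (by positivity) (max N (j + 1))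
  have h3 := le_of_max_le_left h1
  have h4 := le_of_max_le_right h1
  have key : ∀ {β : Type} [AddCommMonoid β] (G : ℕ → ℂ → β), (∀ k, G k 0 = 0) →
      ∑ k ∈ Ico N (N1 + (j + 1)), G k (if k < N1 then 0 else p (k - N1)) =
      ∑ l ∈ range (j + 1), G (N1 + l) (p l) := fun G hG => by
    rw [← sum_Ico_consecutive _ h3 (Nat.le_add_right _ _), sum_eq_zero fun k hk => by
      rw [if_pos (mem_Ico.1 hk).2, hG], zero_add, sum_Ico_eq_sum_range, Nat.add_sub_cancel_left]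
    exact sum_congr rfl fun l _ => by rw [if_neg (by omega), Nat.add_sub_cancel_left]
  have hn : ∀ k, ‖(U ^ k) v‖ = 1 := fun k => by rw [(U ^ k).norm_map, hv]
  have h5 : ∀ m ≤ j, ‖I ψ m (fun k => if k < N1 then 0 else p (k - N1)) N (N1 + (j + 1)) -
      if m = j then 1 else 0‖ ≤ η := fun m hm => by
    rw [I, key (fun k x => ψ m k * x) (by simp), ← hp m hm, ← sum_sub_distrib]
    refine (norm_sum_le_of_le _ (n := fun l => 2 * (η / (2 * B + 1)) * ‖p l‖) fun l _ => ?_).trans ?_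
    · rw [hψ _ _ (by omega), ← sub_mul, ← mul_sub, ← inner_sub_left, norm_mul, norm_mul, add_comm N1,
        pow_add, Complex.norm_two]
      gcongr
      refine (norm_inner_le_norm _ _).trans ?_
      rw [hn, mul_one]
      change ‖(U ^ l) ((U ^ N1) v) - _‖ ≤ _
      rwa [← map_sub, (U ^ l).norm_map]
    · rw [← mul_sum, ← hB, show 2 * (η / (2 * B + 1)) * B = η * (2 * B / (2 * B + 1)) by ring]
      exact mul_le_of_le_one_right hη.le ((div_le_one (by positivity)).2 (by linarith))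
  refine ⟨N1 + (j + 1), by omega, fun k => if k < N1 then 0 else p (k - N1), ?_, ?_,
    fun m hm => ⟨?_, fun M _ h7 => ?_⟩⟩
  · rw [Q, key (fun _ x => ‖x‖ ^ 2) (by simp)]
    linarith
  · simpa using h5 j le_rfl
  · simpa [hm.ne] using h5 m hm.le
  · refine (norm_sum_le _ _).trans ((sum_le_sum_of_subset_of_nonneg (Ico_subset_Ico_right h7)
      fun _ _ _ => norm_nonneg _).trans ?_)
    rw [key (fun k x => ‖ψ m k * x‖) (by simp)]
    refine (sum_le_sum (g := fun l => 2 * ‖p l‖) fun l _ => ?_).trans ?_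
    · rw [hψ _ _ (by omega), norm_mul, norm_mul, Complex.norm_two]
      gcongr
      refine mul_le_of_le_one_right (by norm_num) ((norm_inner_le_norm _ _).trans ?_)
      rw [hn, hn, mul_one]
    · rw [← mul_sum, ← hB]
      have : 0 ≤ ∑ l ∈ range (j + 1), ‖p l‖ ^ 2 := by positivity
      linarith

end Pool.Agent.Lib.helper23.DbB
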