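import Mathlib
import Pool.Agent.Lib.helper23.DbA
import Pool.Agent.Lib.helper23.DbB

namespace Pool.Agent.Lib.helper23.DbC

open Finset Filter Topology Pool.Agent.Lib.helper23.DbA Pool.Agent.Lib.helper23.DbB
open scoped InnerProductSpace

noncomputable def l (i : ℕ) : ℂ := Complex.exp (2 * Real.pi * Complex.I / (2 ^ i : ℕ))

theorem l_prim (i : ℕ) : IsPrimitiveRoot (l i) (2 ^ i) :=
  Complex.isPrimitiveRoot_exp _ (by positivity)

theorem l_norm (i : ℕ) : ‖l i‖ = 1 :=
  Complex.norm_eq_one_of_pow_eq_one (l_prim i).pow_eq_one (by positivity)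

theorem l_inj : Function.Injective l := fun i j h =>
  Nat.pow_right_injective le_rfl ((l_prim i).unique (h ▸ l_prim j))

noncomputable abbrev H := lp (fun _ : ℕ => ℂ) 2

noncomputable def U : H →ₗᵢ[ℂ] H where
  toFun x := ⟨fun i => l i * x i, (lp.memℓp x).mono' fun i => by rw [norm_mul, l_norm, one_mul]⟩
  map_add' x y := lp.ext (funext fun i => mul_add _ _ _)
  map_smul' c x := lp.ext (funext fun i => mul_left_comm _ _ _)
  norm_map' x := by
    rw [lp.norm_eq_tsum_rpow (by norm_num), lp.norm_eq_tsum_rpow (by norm_num) x]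
    congr 2
    funext i
    change ‖l i * x i‖ ^ _ = _
    rw [norm_mul, l_norm, one_mul]

theorem U_pow (n : ℕ) (x : H) (i : ℕ) : (U ^ n) x i = l i ^ n * x i := by
  induction n with
  | zero => simp
  | succ n ih =>
    rw [pow_succ', pow_succ', mul_assoc, ← ih]; rfl

theorem exists_v : ∃ v : H, ‖v‖ = 1 ∧ ∀ i, v i ≠ 0 := by
  let u : H := ⟨fun i => (1 / 2) ^ i, memℓp_gen (by
    refine (summable_geometric_of_lt_one (r := 1 / 4) (by norm_num) (by norm_num)).congr fun i => ?_
    simp only [ENNReal.toReal_ofNat, Real.rpow_ofNat, norm_pow]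
    rw [← pow_mul, mul_comm, pow_mul]
    norm_num)⟩
  have hu : ∀ i, u i ≠ 0 := fun i => by
    change (1 / 2 : ℂ) ^ i ≠ 0
    exact pow_ne_zero _ (by norm_num)
  have h0 : ‖u‖ ≠ 0 := norm_ne_zero_iff.2 fun h => hu 0 (by rw [h]; rfl)
  refine ⟨((‖u‖⁻¹ : ℝ) : ℂ) • u, by simp [norm_smul, h0], fun i => ?_⟩
  exact mul_ne_zero (Complex.ofReal_ne_zero.2 (inv_ne_zero h0)) (hu i)

theorem model : ∃ v : H, ‖v‖ = 1 ∧ Tendsto (fun n => ‖(T U v ^ n) v‖) atTop (𝓝 0) ∧
    (∀ j (c : ℕ → ℂ), ∑ m ∈ range j, c m • (U ^ m) v ≠ (U ^ j) v) ∧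
    ∀ η > 0, ∀ N, ∃ N', N ≤ N' ∧ ‖(U ^ N') v - v‖ ≤ η := by
  obtain ⟨v, hv, hv0⟩ := exists_v
  have hs := lp.hasSum_single (p := 2) (by simp) v
  refine ⟨v, hv, decay U hv (fun i => lp.single 2 i (v i)) l (fun i => ‖v i‖ ^ 2) l_norm
    (fun i => lp.ext (funext fun j => ?_)) (fun i => ?_) (fun i => by have := hv0 i; positivity) hs,
    fun j c h => ?_, fun η hη N => ?_⟩
  · change l j * (lp.single 2 i (v i) : H) j = l i * (lp.single 2 i (v i) : H) j
    by_cases h : j = i
    · rw [h]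
    · rw [lp.single_apply_ne _ _ _ h, mul_zero, mul_zero]
  · rw [lp.inner_single_right, inner_self_eq_norm_sq_to_K]; simp
  · have h1 : (Polynomial.X ^ j - ∑ m ∈ range j, Polynomial.C (c m) * Polynomial.X ^ m :
        Polynomial ℂ) = 0 := by
      refine Polynomial.eq_zero_of_infinite_isRoot _
        ((Set.infinite_range_of_injective l_inj).mono ?_)
      rintro _ ⟨i, rfl⟩
      have h2 := congrArg (fun x : H => x i) h
      simp only [lp.coeFn_sum, Finset.sum_apply, lp.coeFn_smul, Pi.smul_apply, U_pow, smul_eq_mul,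
        ← mul_assoc, ← sum_mul] at h2
      simp [Polynomial.eval_finsetSum, mul_right_cancel₀ (hv0 i) h2]
    have h2 := congrArg (fun p => Polynomial.coeff p j) h1
    simp only [Polynomial.coeff_sub, Polynomial.coeff_X_pow_self, Polynomial.finsetSum_coeff,
      Polynomial.coeff_C_mul_X_pow, Polynomial.coeff_zero] at h2
    rw [sum_eq_zero fun m hm => if_neg (mem_range.1 hm).ne'] at h2
    simp at h2
  · obtain ⟨M, hM⟩ := Metric.tendsto_atTop.1 hs.tendsto_sum_nat (η / 2) (by positivity)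
    replace hM := hM (max M N) (le_max_left _ _)
    set J := max M N with hJ
    set y : H := ∑ i ∈ range J, lp.single 2 i (v i) with hy
    refine ⟨2 ^ J, (le_max_right M N).trans Nat.lt_two_pow_self.le, ?_⟩
    have h1 : (U ^ 2 ^ J) y = y := by
      refine lp.ext (funext fun j => ?_)
      rw [U_pow]
      by_cases h : j < J
      · rw [(l_prim j).pow_eq_one_iff_dvd _ |>.2 (pow_dvd_pow 2 h.le), one_mul]
      · have : y j = 0 := by
          rw [hy, lp.coeFn_sum, Finset.sum_apply]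
          exact sum_eq_zero fun i hi => lp.single_apply_ne _ _ _ (by have := mem_range.1 hi; omega)
        rw [this, mul_zero]
    rw [dist_eq_norm] at hM
    rw [show (U ^ 2 ^ J) v - v = (y - v) - (U ^ 2 ^ J) (y - v) by rw [map_sub, h1]; abel]
    refine (norm_sub_le _ _).trans ?_
    rw [(U ^ 2 ^ J).norm_map]
    linarith

/-- A contractive convolution kernel `t` with `t 0 = 0` has no fixed vector of its adjoint. -/
theorem outer0 (t : ℕ → ℂ) (h0 : t 0 = 0)
    (ht : ∀ (g : ℕ → ℂ) (N : ℕ), ∑ n ∈ range (N + 1), ‖conv t g n‖ ^ 2 ≤ ∑ n ∈ range N, ‖g n‖ ^ 2)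
    (g : ℕ → ℂ) (hg : Summable fun n => ‖g n‖ ^ 2)
    (h : ∀ j, HasSum (fun n => t n * starRingEnd ℂ (g (n + j))) (starRingEnd ℂ (g j))) :
    g 0 = 0 := by
  have h1 : ∀ J, ∑ j ∈ range J, ‖g j‖ ^ 2 ≤ ∑' n, ‖g n‖ ^ 2 - ‖g 0‖ ^ 2 := fun J => by
    let p : ℕ → ℂ := fun k => if k < J then g k else 0
    have h2 : ∀ j, HasSum (fun k => if j ≤ k then t (k - j) * starRingEnd ℂ (g k) else 0)
        (starRingEnd ℂ (g j)) := fun j => by
      rw [← hasSum_nat_add_iff' j, sum_eq_zero fun k hk => if_neg (by simpa using hk), sub_zero]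
      simpa using h j
    have h3 := hasSum_sum (s := range J) fun j _ => (h2 j).mul_left (g j)
    have h4 : ∀ k, ∑ j ∈ range J, g j * (if j ≤ k then t (k - j) * starRingEnd ℂ (g k) else 0) =
        conv t p k * starRingEnd ℂ (g k) := fun k => by
      rw [conv, ← sum_flip, sum_mul]
      simp only [p, mul_ite, mul_zero, ite_mul, zero_mul]
      rw [sum_congr rfl (s₁ := range (k + 1)) (g := fun j => if j < J then
        g j * (t (k - j) * starRingEnd ℂ (g k)) else 0) fun j hj => by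
          rw [show k - (k - j) = j by have := mem_range.1 hj; omega]
          split_ifs <;> ring, ← sum_filter, ← sum_filter]
      congr 1
      ext j; simp only [mem_filter, mem_range]; omega
    simp only [h4, Complex.mul_conj, Complex.normSq_eq_norm_sq] at h3
    have h5 := h3.tendsto_sum_nat.norm
    rw [← Complex.ofReal_sum, Complex.norm_real, Real.norm_of_nonneg (by positivity)] at h5
    have h6 : ∀ N, ∑ n ∈ range N, ‖p n‖ ^ 2 ≤ ∑ j ∈ range J, ‖g j‖ ^ 2 := fun N => by
      simp only [p, apply_ite norm, norm_zero, ite_pow, ne_eq, OfNat.ofNat_ne_zero,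
        not_false_eq_true, zero_pow]
      rw [← sum_filter]
      exact sum_le_sum_of_subset_of_nonneg (fun k hk => mem_range.2 (mem_filter.1 hk).2)
        fun _ _ _ => by positivity
    have h7 := le_of_tendsto' (h5.comp (tendsto_add_atTop_nat 1))
      (b := (∑ j ∈ range J, ‖g j‖ ^ 2 + (∑' n, ‖g n‖ ^ 2 - ‖g 0‖ ^ 2)) / 2) fun N => by
        have h8 := (ht p N).trans (h6 N)
        have h9 := hg.sum_le_tsum (range (N + 1)) fun _ _ => by positivity
        have h10 : conv t p 0 = 0 := by simp [conv, h0]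
        rw [sum_range_succ'] at h8 h9
        simp only [Function.comp]
        rw [sum_range_succ', h10, zero_mul, add_zero]
        refine (norm_sum_le_of_le _ (n := fun k => (‖conv t p (k + 1)‖ ^ 2 + ‖g (k + 1)‖ ^ 2) / 2)
          fun k _ => ?_).trans ?_
        · rw [norm_mul, Complex.norm_conj]
          nlinarith [sq_nonneg (‖conv t p (k + 1)‖ - ‖g (k + 1)‖)]
        · rw [← sum_div, sum_add_distrib]
          nlinarith [sq_nonneg ‖conv t p 0‖]
    linarith
  have h2 := le_of_tendsto' hg.hasSum.tendsto_sum_nat h1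
  have h3 : ‖g 0‖ ^ 2 = 0 := le_antisymm (by linarith) (by positivity)
  simpa using h3

theorem conv_lin (t g : ℕ → ℂ) (s : ℂ) (n : ℕ) :
    ∑ k ∈ range (n + 1), ((Pi.single 0 1 : ℕ → ℂ) k + s * t k) / 2 * g (n - k) =
      (g n + s * conv t g n) / 2 := by
  have : ∑ k ∈ range (n + 1), (Pi.single 0 1 : ℕ → ℂ) k * g (n - k) = g n := by
    rw [sum_range_succ']; simp
  rw [← this, conv, mul_sum, ← sum_add_distrib, sum_div]
  exact sum_congr rfl fun _ _ => by ring

theorem summ {x y : ℕ → ℂ} (hx : Summable fun n => ‖x n‖ ^ 2) (hy : Summable fun n => ‖y n‖ ^ 2)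
    (a b : ℂ) : Summable fun n => ‖a * x n + b * y n‖ ^ 2 := by
  refine Summable.of_nonneg_of_le (fun _ => by positivity) (fun n => ?_)
    ((hx.mul_left (2 * ‖a‖ ^ 2)).add (hy.mul_left (2 * ‖b‖ ^ 2)))
  have := norm_add_le (a * x n) (b * y n)
  rw [norm_mul, norm_mul] at this
  have h1 := pow_le_pow_left₀ (norm_nonneg _) this 2
  nlinarith [sq_nonneg (‖a‖ * ‖x n‖ - ‖b‖ * ‖y n‖)]

end Pool.Agent.Lib.helper23.DbC
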