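import Mathlib

/-! Point-pair invariant integral operators on the upper half plane. -/

namespace Pool.Agent.Lib.H23Maass

open UpperHalfPlane MeasureTheory Complex Filter Topology
open scoped MatrixGroups ComplexConjugate

/-- the point-pair invariant -/
noncomputable def uC (z w : ℂ) : ℝ := normSq (z - w) / (4 * z.im * w.im)

theorem uC_comm (z w : ℂ) : uC z w = uC w z := by
  unfold uC
  rw [← normSq_neg, neg_sub]; ring_nf

theorem uC_smul (g : GL (Fin 2) ℝ) (z w : ℍ) : uC (g • z : ℍ) (g • w : ℍ) = uC z w := by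
  have h1 := denom_ne_zero g z
  have h2 := denom_ne_zero g w
  have h3 : (g.det.val : ℝ) ≠ 0 := g.det.ne_zero
  have e : num g z / denom g z - num g w / denom g w =
      (g.det.val : ℝ) * (z - w) / (denom g z * denom g w) := by
    field_simp
    simp only [num, denom, Matrix.GeneralLinearGroup.val_det_apply, Matrix.det_fin_two]
    push_cast
    ring
  unfold uC
  rw [coe_im, coe_im, im_smul_eq_div_normSq, im_smul_eq_div_normSq, coe_smul, coe_smul, ← map_sub,
    normSq_eq_norm_sq, norm_σ, ← normSq_eq_norm_sq, e, normSq_div, normSq_mul, normSq_mul,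
    normSq_ofReal, coe_im, coe_im]
  have h4 := normSq_denom_ne_zero g z.im_ne_zero
  have h5 := normSq_denom_ne_zero g w.im_ne_zero
  have h6 := z.im_ne_zero
  have h7 := w.im_ne_zero
  have h8 : |g.det.val| ≠ 0 := abs_ne_zero.2 h3
  rw [← abs_mul_abs_self (g.det.val : ℝ)]
  field_simp

theorem cosh_eq (z w : ℍ) : Real.cosh (dist z w) = 1 + 2 * uC z w := by
  rw [cosh_dist, uC, Complex.dist_eq, normSq_eq_norm_sq, coe_im, coe_im]
  have h6 := z.im_ne_zero
  have h7 := w.im_ne_zero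
  field_simp
  ring

theorem dist_gl (g : GL (Fin 2) ℝ) (z w : ℍ) : dist (g • z) (g • w) = dist z w := by
  have h : Real.cosh (dist (g • z) (g • w)) = Real.cosh (dist z w) := by
    rw [cosh_eq, cosh_eq, uC_smul]
  have h1 := Real.cosh_le_cosh.1 h.le
  have h2 := Real.cosh_le_cosh.1 h.ge
  rw [abs_of_nonneg dist_nonneg, abs_of_nonneg dist_nonneg] at h1 h2
  exact le_antisymm h1 h2

theorem uC_ge {R : ℝ} {z w : ℍ} (h : 1 + 2 * R ≤ dist z w) : R ≤ uC z w := by
  have h1 := cosh_eq z w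
  have h2 := Real.self_le_sinh_iff.2 (dist_nonneg (x := z) (y := w))
  have h3 := Real.sinh_lt_cosh (dist z w)
  linarith

theorem uC_cont : Continuous fun p : ℍ × ℍ => uC p.1 p.2 := by
  have : (fun p : ℍ × ℍ => uC p.1 p.2) = fun p => (Real.cosh (dist p.1 p.2) - 1) / 2 := by
    funext p; rw [cosh_eq]; ring
  rw [this]; fun_prop

/-- admissible kernels -/
structure Ker (κ : ℝ → ℂ) (R : ℝ) : Prop where
  cont : Continuous κ
  supp : ∀ t, R ≤ t → κ t = 0

/-- bounded measurable functions -/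
structure Bd (f : ℍ → ℂ) (M : ℝ) : Prop where
  meas : StronglyMeasurable f
  bd : ∀ w, ‖f w‖ ≤ M

noncomputable def Op (κ : ℝ → ℂ) (f : ℍ → ℂ) (z : ℍ) : ℂ := ∫ w : ℍ, κ (uC z w) * f w

variable {κ κ' : ℝ → ℂ} {R R' M M' : ℝ} {f h : ℍ → ℂ}

theorem Bd.nonneg (hf : Bd f M) : 0 ≤ M := (norm_nonneg _).trans (hf.bd I)

theorem Ker.cont2 (hκ : Ker κ R) : Continuous fun p : ℍ × ℍ => κ (uC p.1 p.2) :=
  hκ.cont.comp uC_cont

theorem Ker.cont1 (hκ : Ker κ R) (z : ℍ) : Continuous fun w : ℍ => κ (uC z w) :=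
  hκ.cont2.comp (Continuous.prodMk_right z)

theorem Ker.zero (hκ : Ker κ R) {z w : ℍ} (h : 1 + 2 * R ≤ dist z w) : κ (uC z w) = 0 :=
  hκ.supp _ (uC_ge h)

theorem Ker.integrable (hκ : Ker κ R) (z : ℍ) : Integrable fun w : ℍ => κ (uC z w) := by
  refine (hκ.cont1 z).integrable_of_hasCompactSupport ?_
  refine HasCompactSupport.intro (isCompact_closedBall z (1 + 2 * R)) fun w hw => hκ.zero ?_
  rw [Metric.mem_closedBall, dist_comm] at hw
  exact (not_le.1 hw).le

theorem Ker.integrable_mul (hκ : Ker κ R) (hf : Bd f M) (z : ℍ) :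
    Integrable fun w : ℍ => κ (uC z w) * f w :=
  (hκ.integrable z).mul_bdd hf.meas.aestronglyMeasurable (Eventually.of_forall hf.bd)

theorem int_smul {E : Type} [NormedAddCommGroup E] [NormedSpace ℝ E] (F : ℍ → E)
    (g : GL (Fin 2) ℝ) : ∫ w : ℍ, F (g • w) = ∫ w : ℍ, F w :=
  integral_smul_eq_self F

theorem Op_smul (κ : ℝ → ℂ) (f : ℍ → ℂ) (g : GL (Fin 2) ℝ) (z : ℍ) :
    Op κ (fun w => f (g • w)) z = Op κ f (g • z) := by
  unfold Op
  rw [← int_smul (fun w => κ (uC (g • z : ℍ) w) * f w) g]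
  simp only [uC_smul]

/-- the `L¹` norm of the kernel -/
noncomputable def nK (κ : ℝ → ℂ) : ℝ := ∫ w : ℍ, ‖κ (uC (I : ℍ) w)‖

theorem int_norm (κ : ℝ → ℂ) (z : ℍ) : ∫ w : ℍ, ‖κ (uC z w)‖ = nK κ := by
  obtain ⟨g, rfl⟩ := MulAction.exists_smul_eq (GL (Fin 2) ℝ) (I : ℍ) z
  rw [← int_smul (fun w => ‖κ (uC (g • (I : ℍ) : ℍ) w)‖) g]
  simp only [uC_smul]
  rfl

theorem norm_Op_le (hκ : Ker κ R) (hf : Bd f M) (z : ℍ) : ‖Op κ f z‖ ≤ nK κ * M := by
  rw [← int_norm κ z, ← integral_mul_const]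
  refine norm_integral_le_of_norm_le ((hκ.integrable z).norm.mul_const M)
    (Eventually.of_forall fun w => ?_)
  rw [norm_mul]
  exact mul_le_mul_of_nonneg_left (hf.bd w) (norm_nonneg _)

theorem modulus (hκ : Ker κ R) {ε : ℝ} (hε : 0 < ε) : ∃ δ > 0, ∀ z z' : ℍ, dist z z' < δ →
    ∫ w : ℍ, ‖κ (uC z w) - κ (uC z' w)‖ ≤ ε := by
  have hc : Continuous fun z' : ℍ => ∫ w in Metric.closedBall (I : ℍ) (2 + 2 * R),
      ‖κ (uC (I : ℍ) w) - κ (uC z' w)‖ := by
    refine continuous_parametric_integral_of_continuous ?_ (isCompact_closedBall _ _)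
    exact (((hκ.cont1 I).comp continuous_snd).sub hκ.cont2).norm
  obtain ⟨δ, hδ, h⟩ := Metric.continuousAt_iff.1 (hc.continuousAt (x := UpperHalfPlane.I)) ε hε
  refine ⟨min δ 1, by positivity, fun z z' hz => ?_⟩
  obtain ⟨g, rfl⟩ := MulAction.exists_smul_eq (GL (Fin 2) ℝ) (I : ℍ) z
  obtain ⟨z', rfl⟩ : ∃ y : ℍ, z' = g • y := ⟨g⁻¹ • z', by simp⟩
  rw [dist_gl] at hz
  rw [← int_smul (fun w => ‖κ (uC (g • (I : ℍ) : ℍ) w) - κ (uC (g • z' : ℍ) w)‖) g]
  simp only [uC_smul]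
  have h1 := h (x := z') (by rw [dist_comm]; exact hz.trans_le (min_le_left _ _))
  simp only [sub_self, norm_zero, integral_zero, dist_zero_right] at h1
  rw [setIntegral_eq_integral_of_forall_compl_eq_zero] at h1
  · exact ((le_abs_self _).trans_lt h1).le
  · intro w hw
    rw [Metric.mem_closedBall, not_le] at hw
    have h2 := dist_triangle w z' I
    have h3 : dist (I : ℍ) z' < 1 := hz.trans_le (min_le_right _ _)
    rw [dist_comm z'] at h2
    rw [hκ.zero (by rw [dist_comm]; linarith), hκ.zero (by rw [dist_comm]; linarith)]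
    simp

theorem Op_sub_le (hκ : Ker κ R) (hf : Bd f M) (z z' : ℍ) :
    ‖Op κ f z - Op κ f z'‖ ≤ (∫ w : ℍ, ‖κ (uC z w) - κ (uC z' w)‖) * M := by
  unfold Op
  rw [← integral_sub (hκ.integrable_mul hf z) (hκ.integrable_mul hf z'), ← integral_mul_const]
  refine norm_integral_le_of_norm_le (((hκ.integrable z).sub (hκ.integrable z')).norm.mul_const M)
    (Eventually.of_forall fun w => ?_)
  rw [← sub_mul, norm_mul]
  exact mul_le_mul_of_nonneg_left (hf.bd w) (norm_nonneg _)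

theorem Op_equi (hκ : Ker κ R) {ε : ℝ} (hε : 0 < ε) : ∃ δ > 0, ∀ (f : ℍ → ℂ) (M : ℝ), Bd f M →
    ∀ z z' : ℍ, dist z z' < δ → ‖Op κ f z - Op κ f z'‖ ≤ ε * M := by
  obtain ⟨δ, hδ, h⟩ := modulus hκ hε
  exact ⟨δ, hδ, fun f M hf z z' hz => (Op_sub_le hκ hf z z').trans
    (mul_le_mul_of_nonneg_right (h z z' hz) hf.nonneg)⟩

theorem Op_cont (hκ : Ker κ R) (hf : Bd f M) : Continuous (Op κ f) := by
  refine Metric.continuous_iff.2 fun z ε hε => ?_
  have hM := hf.nonneg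
  obtain ⟨δ, hδ, h⟩ := Op_equi hκ (ε := ε / (M + 1)) (by positivity)
  refine ⟨δ, hδ, fun z' hz => ?_⟩
  rw [dist_eq_norm]
  refine (h f M hf z' z hz).trans_lt ?_
  rw [div_mul_eq_mul_div, div_lt_iff₀ (by positivity)]
  nlinarith

theorem Op_bd (hκ : Ker κ R) (hf : Bd f M) : Bd (Op κ f) (nK κ * M) :=
  ⟨(Op_cont hκ hf).stronglyMeasurable, norm_Op_le hκ hf⟩

theorem exists_swap (z v : ℍ) : ∃ g : GL (Fin 2) ℝ, g • z = v ∧ g • v = z := by
  have hz := z.im_pos
  have hv := v.im_pos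
  let a := z.re * v.im + v.re * z.im
  let c := z.im + v.im
  let b := c * (z.re * v.re - z.im * v.im) - a * (z.re + v.re)
  have hd : (!![a, b; c, -a] : Matrix (Fin 2) (Fin 2) ℝ).det =
      z.im * v.im * ((z.re - v.re) ^ 2 + (z.im + v.im) ^ 2) := by
    rw [Matrix.det_fin_two_of]; simp only [a, b, c]; ring
  have hpos : 0 < (!![a, b; c, -a] : Matrix (Fin 2) (Fin 2) ℝ).det := by rw [hd]; positivity
  let g : GL (Fin 2) ℝ := .mkOfDetNeZero !![a, b; c, -a] hpos.ne'
  have hg : 0 < g.det.val := hpos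
  refine ⟨g, ?_, ?_⟩
  · apply UpperHalfPlane.ext
    rw [coe_smul_of_det_pos hg, div_eq_iff (denom_ne_zero g z)]
    apply Complex.ext <;> simp [g, num, denom, a, b, c] <;> ring
  · apply UpperHalfPlane.ext
    rw [coe_smul_of_det_pos hg, div_eq_iff (denom_ne_zero g v)]
    apply Complex.ext <;> simp [g, num, denom, a, b, c] <;> ring

theorem Op_Op (hκ : Ker κ R) (hκ' : Ker κ' R') (hf : Bd f M) (z : ℍ) :
    Op κ (Op κ' f) z = ∫ v : ℍ, (∫ w : ℍ, κ (uC z w) * κ' (uC w v)) * f v := by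
  unfold Op
  simp only [← integral_const_mul, ← integral_mul_const]
  rw [integral_integral_swap]
  · simp only [mul_assoc]
  · have h1 : Integrable (fun p : ℍ × ℍ => κ (uC z p.1) * κ' (uC p.1 p.2))
        ((volume : Measure ℍ).prod volume) := by
      refine Continuous.integrable_of_hasCompactSupport
        (((hκ.cont1 z).comp continuous_fst).mul hκ'.cont2) ?_
      refine HasCompactSupport.intro ((isCompact_closedBall z (1 + 2 * R)).prod
        (isCompact_closedBall z (1 + 2 * R + (1 + 2 * R')))) fun p hp => ?_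
      by_cases c : dist p.1 z ≤ 1 + 2 * R
      · have c2 : ¬ dist p.2 z ≤ 1 + 2 * R + (1 + 2 * R') := fun c2 => hp ⟨c, c2⟩
        have := dist_triangle p.2 p.1 z
        rw [hκ'.zero (by rw [dist_comm]; linarith), mul_zero]
      · rw [hκ.zero (by rw [dist_comm]; linarith), zero_mul]
    have h2 := h1.mul_bdd (g := fun p : ℍ × ℍ => f p.2) (c := M)
      (hf.meas.comp_measurable measurable_snd).aestronglyMeasurable
      (Eventually.of_forall fun p => hf.bd p.2)
    refine h2.congr (Eventually.of_forall fun p => ?_)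
    simp [Function.uncurry, mul_assoc]

theorem Op_comm (hκ : Ker κ R) (hκ' : Ker κ' R') (hf : Bd f M) (z : ℍ) :
    Op κ (Op κ' f) z = Op κ' (Op κ f) z := by
  rw [Op_Op hκ hκ' hf, Op_Op hκ' hκ hf]
  congr 1
  funext v
  congr 1
  obtain ⟨g, h1, h2⟩ := exists_swap z v
  rw [← int_smul (fun w => κ (uC z w) * κ' (uC w v)) g]
  congr 1
  funext w
  have e1 : uC z (g • w : ℍ) = uC w v := by rw [← h2, uC_smul, uC_comm]
  have e2 : uC (g • w : ℍ) v = uC z w := by rw [← h1, uC_smul, uC_comm]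
  rw [e1, e2, mul_comm]

end Pool.Agent.Lib.H23Maass
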