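import Mathlib
import Pool.Agent.Lib.helper23.MaassOp

/-! Symmetry of point-pair invariant operators on the modular surface. -/

namespace Pool.Agent.Lib.H23Maass

open UpperHalfPlane MeasureTheory Complex Filter Topology
open scoped MatrixGroups ComplexConjugate Modular Pointwise

theorem vol_re (c : ℝ) : volume {z : ℂ | z.re = c} = 0 := by
  have h := Complex.volume_preserving_equiv_real_prod.measure_preimage
    (s := ({c} : Set ℝ) ×ˢ (Set.univ : Set ℝ))
    ((measurableSet_singleton c).prod MeasurableSet.univ).nullMeasurableSet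
  rw [Measure.volume_eq_prod, Measure.prod_prod] at h
  simp only [Real.volume_singleton, zero_mul] at h
  rw [← h]
  congr 1
  ext z
  simp

theorem vol_bdry : volume (𝒟 \ 𝒟ᵒ) = 0 := by
  rw [volume_eq_lintegral]
  apply setLIntegral_measure_zero
  refine measure_mono_null (t := (Metric.sphere (0 : ℂ) 1 ∪ {z : ℂ | z.re = 1 / 2}) ∪
    {z : ℂ | z.re = -(1 / 2)}) ?_ ?_
  · rintro _ ⟨z, ⟨⟨h1, h2⟩, h3⟩, rfl⟩
    by_cases c1 : 1 < normSq (z : ℂ)
    · have c2 : ¬ |z.re| < 1 / 2 := fun c2 => h3 ⟨c1, c2⟩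
      have c3 : |z.re| = 1 / 2 := le_antisymm h2 (not_lt.1 c2)
      rcases (abs_eq (by norm_num)).1 c3 with c | c
      · exact Or.inl (Or.inr c)
      · exact Or.inr c
    · have c3 : normSq (z : ℂ) = 1 := le_antisymm (not_lt.1 c1) h1
      refine Or.inl (Or.inl ?_)
      rw [mem_sphere_zero_iff_norm]
      rw [normSq_eq_norm_sq] at c3
      exact (sq_eq_sq₀ (norm_nonneg _) zero_le_one).1 (by simpa using c3)
  · rw [measure_union_null_iff, measure_union_null_iff]
    exact ⟨⟨Measure.addHaar_sphere _ _ _, vol_re _⟩, vol_re _⟩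

theorem vol_fd : volume 𝒟 < ⊤ := by
  rw [volume_eq_lintegral]
  let S : Set (ℝ × ℝ) := Set.Icc (-1 : ℝ) 1 ×ˢ Set.Ioi (1 / 2 : ℝ)
  have hS : MeasurableSet S := measurableSet_Icc.prod measurableSet_Ioi
  have h1 : UpperHalfPlane.coe '' 𝒟 ⊆ Complex.measurableEquivRealProd ⁻¹' S := by
    rintro _ ⟨z, hz, rfl⟩
    have a1 := ModularGroup.three_le_four_mul_im_sq_of_mem_fd hz
    have a2 := abs_le.1 hz.2
    have a3 := z.im_pos
    refine ⟨⟨?_, ?_⟩, ?_⟩
    · show -1 ≤ z.re
      linarith [a2.1]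
    · show z.re ≤ 1
      linarith [a2.2]
    · show 1 / 2 < z.im
      nlinarith
  refine (lintegral_mono_set h1).trans_lt ?_
  have h2 := Complex.volume_preserving_equiv_real_prod.setLIntegral_comp_preimage_emb
    Complex.measurableEquivRealProd.measurableEmbedding
    (fun p : ℝ × ℝ => (((1 / ‖p.2‖₊) ^ 2 : NNReal) : ENNReal)) S
  refine lt_of_eq_of_lt h2 ?_
  rw [Measure.volume_eq_prod, ← Measure.prod_restrict, lintegral_prod _ (by fun_prop)]
  simp only [lintegral_const, Measure.restrict_apply_univ, Real.volume_Icc]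
  refine ENNReal.mul_lt_top ?_ ENNReal.ofReal_lt_top
  have h3 := (integrableOn_Ioi_rpow_of_lt (a := -2) (by norm_num) (c := 1 / 2) (by norm_num)).2
  refine lt_of_eq_of_lt ?_ h3
  refine setLIntegral_congr_fun measurableSet_Ioi fun y hy => ?_
  have hy0 : 0 < y := lt_trans (by norm_num) hy
  simp only [enorm_eq_nnnorm, ENNReal.coe_inj]
  apply NNReal.eq
  simp [Real.rpow_neg hy0.le]

/-- `PSL(2, ℤ)` as a group of permutations of the upper half plane -/
noncomputable abbrev PG : Subgroup (Equiv.Perm ℍ) := (MulAction.toPermHom SL(2, ℤ) ℍ).range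

theorem PG_ex (g : PG) : ∃ γ : SL(2, ℤ), ∀ z : ℍ, g • z = γ • z := by
  obtain ⟨_, γ, rfl⟩ := g
  exact ⟨γ, fun _ => rfl⟩

instance : Countable PG := by
  have : Countable (Matrix (Fin 2) (Fin 2) ℤ) := inferInstanceAs (Countable (Fin 2 → Fin 2 → ℤ))
  have : Countable SL(2, ℤ) := Subtype.val_injective.countable
  exact (MulAction.toPermHom SL(2, ℤ) ℍ).rangeRestrict_surjective.countable

theorem PG_mp (g : PG) : MeasurePreserving (fun z : ℍ => g • z) volume volume := by
  obtain ⟨γ, hγ⟩ := PG_ex g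
  simp only [hγ]
  exact measurePreserving_smul (γ : GL (Fin 2) ℝ) volume

theorem PG_mp2 (g : PG) : MeasurePreserving (fun p : ℍ × ℍ => g • p)
    ((volume : Measure ℍ).prod volume) ((volume : Measure ℍ).prod volume) :=
  (PG_mp g).prod (PG_mp g)

instance : MeasurableConstSMul PG (ℍ × ℍ) := ⟨fun g => (PG_mp2 g).measurable⟩

instance : SMulInvariantMeasure PG (ℍ × ℍ) ((volume : Measure ℍ).prod volume) :=
  ⟨fun g _ hs => (PG_mp2 g).measure_preimage hs.nullMeasurableSet⟩

theorem PG_disj (g : PG) (hg : g ≠ 1) {z : ℍ} (h1 : g⁻¹ • z ∈ 𝒟) (h2 : z ∈ 𝒟) : z ∈ 𝒟 \ 𝒟ᵒ := by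
  refine ⟨h2, fun h3 => hg ?_⟩
  obtain ⟨γ, hγ⟩ := PG_ex g⁻¹
  rw [hγ] at h1
  rw [← inv_eq_one]
  ext w
  change ((g⁻¹ • w : ℍ) : ℂ) = w
  rw [hγ]
  rcases ModularGroup.eq_one_or_neg_one_of_mem_fdo_mem_fd h3 h1 with rfl | rfl
  · simp
  · simp

theorem fd_meas : MeasurableSet 𝒟 := ModularGroup.isClosed_fd.measurableSet

theorem fd1 : IsFundamentalDomain PG (𝒟 ×ˢ (Set.univ : Set ℍ))
    ((volume : Measure ℍ).prod volume) := by
  refine IsFundamentalDomain.mk'' (fd_meas.prod MeasurableSet.univ).nullMeasurableSet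
    (Eventually.of_forall fun p => ?_) (fun g hg => ?_)
    fun g => (PG_mp2 g).quasiMeasurePreserving
  · obtain ⟨γ, hγ⟩ := ModularGroup.exists_smul_mem_fd p.1
    exact ⟨⟨_, γ, rfl⟩, hγ, trivial⟩
  · refine measure_mono_null (t := (𝒟 \ 𝒟ᵒ) ×ˢ (Set.univ : Set ℍ)) ?_ ?_
    · rintro p ⟨h1, h2⟩
      rw [Set.mem_smul_set_iff_inv_smul_mem] at h1
      exact ⟨PG_disj g hg h1.1 h2.1, trivial⟩
    · rw [Measure.prod_prod, vol_bdry, zero_mul]

theorem fd2 : IsFundamentalDomain PG ((Set.univ : Set ℍ) ×ˢ 𝒟)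
    ((volume : Measure ℍ).prod volume) := by
  refine IsFundamentalDomain.mk'' (MeasurableSet.univ.prod fd_meas).nullMeasurableSet
    (Eventually.of_forall fun p => ?_) (fun g hg => ?_)
    fun g => (PG_mp2 g).quasiMeasurePreserving
  · obtain ⟨γ, hγ⟩ := ModularGroup.exists_smul_mem_fd p.2
    exact ⟨⟨_, γ, rfl⟩, trivial, hγ⟩
  · refine measure_mono_null (t := (Set.univ : Set ℍ) ×ˢ (𝒟 \ 𝒟ᵒ)) ?_ ?_
    · rintro p ⟨h1, h2⟩
      rw [Set.mem_smul_set_iff_inv_smul_mem] at h1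
      exact ⟨trivial, PG_disj g hg h1.2 h2.2⟩
    · rw [Measure.prod_prod, vol_bdry, mul_zero]

variable {κ : ℝ → ℂ} {R M M' : ℝ} {f h : ℍ → ℂ}

instance : IsFiniteMeasure ((volume : Measure ℍ).restrict 𝒟) :=
  ⟨by rw [Measure.restrict_apply_univ]; exact vol_fd⟩

theorem int_prod (hκ : Ker κ R) (hf : Bd f M) (hh : Bd h M') :
    Integrable (fun p : ℍ × ℍ => κ (uC p.1 p.2) * f p.2 * h p.1)
      (((volume : Measure ℍ).restrict 𝒟).prod volume) := by
  have h0 : Integrable (fun p : ℍ × ℍ => κ (uC p.1 p.2))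
      (((volume : Measure ℍ).restrict 𝒟).prod volume) := by
    rw [integrable_prod_iff hκ.cont2.aestronglyMeasurable]
    refine ⟨Eventually.of_forall fun z => hκ.integrable z, ?_⟩
    simp only [int_norm]
    exact integrable_const _
  exact (h0.mul_bdd (g := fun p : ℍ × ℍ => f p.2) (c := M)
      (hf.meas.comp_measurable measurable_snd).aestronglyMeasurable
      (Eventually.of_forall fun p => hf.bd p.2)).mul_bdd (g := fun p : ℍ × ℍ => h p.1) (c := M')
      (hh.meas.comp_measurable measurable_fst).aestronglyMeasurable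
      (Eventually.of_forall fun p => hh.bd p.1)

theorem Op_symm (hκ : Ker κ R) (hf : Bd f M) (hh : Bd h M')
    (i1 : ∀ (γ : SL(2, ℤ)) z, f (γ • z) = f z) (i2 : ∀ (γ : SL(2, ℤ)) z, h (γ • z) = h z) :
    ∫ z in 𝒟, Op κ f z * h z = ∫ z in 𝒟, f z * Op κ h z := by
  have k := fd1.setIntegral_eq fd2 (f := fun p : ℍ × ℍ => κ (uC p.1 p.2) * f p.2 * h p.1) (by
    intro g p
    obtain ⟨γ, hγ⟩ := PG_ex g
    simp only [Prod.smul_fst, Prod.smul_snd, hγ, i1, i2]
    rw [ModularGroup.sl_moeb, ModularGroup.sl_moeb, uC_smul])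
  rw [← Measure.prod_restrict, ← Measure.prod_restrict, Measure.restrict_univ,
    integral_prod _ (int_prod hκ hf hh), integral_prod_symm] at k
  · simp only [Op, ← integral_mul_const, ← integral_const_mul]
    rw [k]
    congr 1; funext z; congr 1; funext w
    rw [uC_comm]; ring
  · have := (int_prod hκ hh hf).swap
    refine this.congr (Eventually.of_forall fun p => ?_)
    simp only [Function.comp, Prod.fst_swap, Prod.snd_swap]
    rw [uC_comm]; ring

end Pool.Agent.Lib.H23Maass
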