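import Mathlib
import Pool.Agent.Lib.helper23.MaassSym

/-! A nonzero eigenvalue of a point-pair operator on odd automorphic functions. -/

namespace Pool.Agent.Lib.H23Maass

open UpperHalfPlane MeasureTheory Complex Filter Topology BoundedContinuousFunction
open scoped MatrixGroups ComplexConjugate Modular Pointwise

theorem abstract_eig {X : Type} [NormedAddCommGroup X] [NormedSpace ℂ X] [CompleteSpace X]
    (T : X →L[ℂ] X) (hT : IsCompactOperator T) (N : X → ℝ) (C : ℝ)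
    (h1 : ∀ x, N x ≤ C * ‖x‖ ^ 2) (h0 : ∀ x, 0 ≤ N x)
    (h2 : ∀ x, ∀ t > 0, 2 * N (T x) ≤ t * N x + N (T (T x)) / t) (x : X) (hx : 0 < N (T x)) :
    ∃ μ : ℂ, μ ≠ 0 ∧ Module.End.HasEigenvalue (T : Module.End ℂ X) μ := by
  have hx0 : x ≠ 0 := by
    rintro rfl
    have := h1 (T 0)
    simp only [map_zero, norm_zero] at this hx
    linarith
  haveI : Nontrivial X := ⟨x, 0, hx0⟩
  obtain ⟨μ, hμ, e⟩ := spectrum.exists_nnnorm_eq_spectralRadius T
  suffices c : μ ≠ 0 from ⟨μ, c, (hT.hasEigenvalue_iff_mem_spectrum c).2 hμ⟩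
  rintro rfl
  have hl := spectrum.pow_norm_pow_one_div_tendsto_nhds_spectralRadius T
  rw [← e] at hl
  simp only [nnnorm_zero, ENNReal.coe_zero] at hl
  set r : ℝ := N (T x) / (N x + 1) with hr
  have hN := h0 x
  have r0 : 0 < r := by positivity
  have step : ∀ n : ℕ, r * N ((T ^ n) x) ≤ N ((T ^ (n + 1)) x) := by
    intro n
    induction n with
    | zero =>
      simp only [pow_zero, one_apply_eq_self, zero_add, pow_one]
      rw [hr, div_mul_eq_mul_div, div_le_iff₀ (by positivity)]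
      nlinarith
    | succ n ih =>
      have := h2 ((T ^ n) x) r r0
      have e1 : T ((T ^ n) x) = (T ^ (n + 1)) x := by rw [pow_succ']; rfl
      have e2 : T ((T ^ (n + 1)) x) = (T ^ (n + 1 + 1)) x := by rw [pow_succ' T (n + 1)]; rfl
      rw [e1, e2] at this
      have h3 : N ((T ^ (n + 1)) x) ≤ N ((T ^ (n + 1 + 1)) x) / r := by linarith
      rw [le_div_iff₀ r0] at h3
      linarith
  have low : ∀ n : ℕ, r ^ n * N (T x) ≤ N ((T ^ (n + 1)) x) := by
    intro n
    induction n with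
    | zero => simp
    | succ n ih =>
      refine le_trans ?_ (step (n + 1))
      rw [pow_succ', mul_assoc]
      exact mul_le_mul_of_nonneg_left ih r0.le
  set ρ : ℝ := √r / 2 with hρ
  have ρ0 : 0 < ρ := by positivity
  have hρ2 : ρ ^ 2 = r / 4 := by rw [hρ, div_pow, Real.sq_sqrt r0.le]; norm_num
  have hC : 0 ≤ C := by
    have a1 := (h0 x).trans (h1 x)
    have a2 : 0 < ‖x‖ ^ 2 := by positivity
    exact nonneg_of_mul_nonneg_left a1 a2
  have ev : ∀ᶠ n : ℕ in atTop, ‖T ^ n‖ ≤ ρ ^ n := by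
    filter_upwards [hl.eventually (gt_mem_nhds (ENNReal.ofReal_pos.2 ρ0)), eventually_gt_atTop 0]
      with n hn n0
    rw [ENNReal.ofReal_lt_ofReal_iff ρ0] at hn
    have := pow_le_pow_left₀ (by positivity) hn.le n
    rwa [← Real.rpow_natCast, ← Real.rpow_mul (norm_nonneg _), one_div_mul_cancel (by positivity),
      Real.rpow_one] at this
  have lim : Tendsto (fun n : ℕ => C * ‖T x‖ ^ 2 * (1 / 4 : ℝ) ^ n) atTop (𝓝 (C * ‖T x‖ ^ 2 * 0)) :=
    (tendsto_pow_atTop_nhds_zero_of_lt_one (by norm_num) (by norm_num)).const_mul _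
  rw [mul_zero] at lim
  obtain ⟨n, hn1, hn2⟩ := (ev.and (lim.eventually (gt_mem_nhds hx))).exists
  have a1 := (low n).trans (h1 _)
  have a2 : ‖(T ^ (n + 1)) x‖ ≤ ρ ^ n * ‖T x‖ := by
    have : (T ^ (n + 1)) x = (T ^ n) (T x) := by rw [pow_succ]; rfl
    rw [this]
    exact ((T ^ n).le_opNorm _).trans (mul_le_mul_of_nonneg_right hn1 (norm_nonneg _))
  have a3 : ‖(T ^ (n + 1)) x‖ ^ 2 ≤ r ^ n * ((1 / 4 : ℝ) ^ n * ‖T x‖ ^ 2) := by
    refine (pow_le_pow_left₀ (norm_nonneg _) a2 2).trans (le_of_eq ?_)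
    rw [mul_pow, ← pow_mul, mul_comm n 2, pow_mul, hρ2, ← mul_assoc, ← mul_pow]
    congr 2; ring
  have a4 : r ^ n * N (T x) ≤ r ^ n * (C * ‖T x‖ ^ 2 * (1 / 4 : ℝ) ^ n) := by
    refine a1.trans ((mul_le_mul_of_nonneg_left a3 hC).trans (le_of_eq ?_))
    ring
  have := le_of_mul_le_mul_left a4 (by positivity)
  linarith

theorem common_eig {X ι : Type} [AddCommGroup X] [Module ℂ X] (A : ι → Module.End ℂ X)
    (hc : ∀ i j x, A i (A j x) = A j (A i x)) (E : Submodule ℂ X) [FiniteDimensional ℂ E]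
    (hE : E ≠ ⊥) (hA : ∀ i, ∀ x ∈ E, A i x ∈ E) :
    ∃ x ∈ E, x ≠ 0 ∧ ∀ i, ∃ c : ℂ, A i x = c • x := by
  classical
  have hex : ∃ n, ∃ F : Submodule ℂ X, F ≤ E ∧ F ≠ ⊥ ∧ (∀ i, ∀ x ∈ F, A i x ∈ F) ∧
      Module.finrank ℂ F = n := ⟨_, E, le_rfl, hE, hA, rfl⟩
  obtain ⟨F, h1, h2, h3, h4⟩ := Nat.find_spec hex
  haveI : FiniteDimensional ℂ F := Submodule.finiteDimensional_of_le h1
  haveI : Nontrivial F := Submodule.nontrivial_iff_ne_bot.2 h2
  obtain ⟨x, hx, hx0⟩ := Submodule.exists_mem_ne_zero_of_ne_bot h2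
  refine ⟨x, h1 hx, hx0, fun i => ?_⟩
  obtain ⟨c, hc'⟩ := Module.End.exists_eigenvalue ((A i).restrict (h3 i))
  obtain ⟨y, hy⟩ := hc'.exists_hasEigenvector
  let G : Submodule ℂ X := F ⊓ Module.End.eigenspace (A i) c
  have hG : G ≠ ⊥ := by
    rw [Submodule.ne_bot_iff]
    refine ⟨y.1, ⟨y.2, ?_⟩, fun e => hy.2 (Subtype.ext e)⟩
    have := congrArg Subtype.val hy.apply_eq_smul
    exact Module.End.mem_eigenspace_iff.2 this
  have hm := Nat.find_min' hex ⟨G, inf_le_left.trans h1, hG, fun j z hz => ⟨h3 j z hz.1, by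
    have := Module.End.mem_eigenspace_iff.1 hz.2
    exact Module.End.mem_eigenspace_iff.2 (by rw [hc, this, map_smul])⟩, rfl⟩
  have e : G = F := Submodule.eq_of_le_of_finrank_le inf_le_left (h4 ▸ hm)
  rw [← e] at hx
  exact ⟨c, Module.End.mem_eigenspace_iff.1 hx.2⟩

/-- odd and invariant -/
structure Inv (f : ℍ → ℂ) : Prop where
  hT : ∀ z, f (ModularGroup.T • z) = f z
  hS : ∀ z, f (ModularGroup.S • z) = f z
  hJ : ∀ z, f (J • z) = -f z

theorem inv_all {α : Type} {f : ℍ → α} (hT : ∀ z, f (ModularGroup.T • z) = f z)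
    (hS : ∀ z, f (ModularGroup.S • z) = f z) (γ : SL(2, ℤ)) : ∀ z, f (γ • z) = f z := by
  have : γ ∈ Subgroup.closure {ModularGroup.S, ModularGroup.T} := by
    simp [SpecialLinearGroup.SL2Z_generators]
  induction this using Subgroup.closure_induction with
  | one => simp
  | mem g hg =>
    rcases hg with rfl | rfl
    · exact hS
    · exact hT
  | mul a b _ _ ha hb => intro z; rw [mul_smul, ha, hb]
  | inv a _ ha => intro z; rw [← ha, smul_inv_smul]

theorem Inv.all {f : ℍ → ℂ} (h : Inv f) (γ : SL(2, ℤ)) : ∀ z, f (γ • z) = f z :=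
  inv_all h.hT h.hS γ

theorem Inv.op {f : ℍ → ℂ} (h : Inv f) (κ : ℝ → ℂ) : Inv (Op κ f) := by
  refine ⟨fun z => ?_, fun z => ?_, fun z => ?_⟩
  · rw [ModularGroup.sl_moeb, ← Op_smul]
    simp only [← ModularGroup.sl_moeb, h.hT]
  · rw [ModularGroup.sl_moeb, ← Op_smul]
    simp only [← ModularGroup.sl_moeb, h.hS]
  · rw [← Op_smul]
    simp only [h.hJ, Op, mul_neg, integral_neg]

/-- bounded continuous odd invariant functions -/
def BB : Submodule ℂ (ℍ →ᵇ ℂ) where
  carrier := {f | Inv f}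
  zero_mem' := ⟨fun _ => rfl, fun _ => rfl, fun _ => by simp⟩
  add_mem' := fun {f g} hf hg => ⟨fun z => by simp [-ModularGroup.sl_moeb, hf.hT, hg.hT],
    fun z => by simp [-ModularGroup.sl_moeb, hf.hS, hg.hS],
    fun z => by simp [hf.hJ, hg.hJ]; ring⟩
  smul_mem' := fun c f hf => ⟨fun z => by simp [-ModularGroup.sl_moeb, hf.hT],
    fun z => by simp [-ModularGroup.sl_moeb, hf.hS], fun z => by simp [hf.hJ]⟩

theorem BB_closed : IsClosed (BB : Set (ℍ →ᵇ ℂ)) := by
  have : (BB : Set (ℍ →ᵇ ℂ)) = (⋂ z, {f : ℍ →ᵇ ℂ | f (ModularGroup.T • z) = f z}) ∩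
      ((⋂ z, {f : ℍ →ᵇ ℂ | f (ModularGroup.S • z) = f z}) ∩
        ⋂ z, {f : ℍ →ᵇ ℂ | f (J • z) = -f z}) := by
    ext f
    simp only [Set.mem_inter_iff, Set.mem_iInter]
    exact ⟨fun h => ⟨h.hT, h.hS, h.hJ⟩, fun h => ⟨h.1, h.2.1, h.2.2⟩⟩
  rw [this]
  refine (isClosed_iInter fun z => isClosed_eq ?_ ?_).inter
    ((isClosed_iInter fun z => isClosed_eq ?_ ?_).inter
      (isClosed_iInter fun z => isClosed_eq ?_ ?_)) <;> fun_prop

instance : CompleteSpace BB := BB_closed.completeSpace_coe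

theorem bd_of (f : ℍ →ᵇ ℂ) : Bd f ‖f‖ := ⟨f.continuous.stronglyMeasurable, f.norm_coe_le_norm⟩

variable {κ : ℝ → ℂ} {R M : ℝ}

/-- the element of `BB` given by applying the operator -/
noncomputable def mkB (hκ : Ker κ R) {f : ℍ → ℂ} (hf : Bd f M) (hi : Inv f) : BB :=
  ⟨ofNormedAddCommGroup (Op κ f) (Op_cont hκ hf) (nK κ * M) (norm_Op_le hκ hf), hi.op κ⟩

theorem nK_nonneg (κ : ℝ → ℂ) : 0 ≤ nK κ := integral_nonneg fun _ => norm_nonneg _

noncomputable def TB (hκ : Ker κ R) : BB →L[ℂ] BB :=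
  LinearMap.mkContinuous
    { toFun := fun f => mkB hκ (bd_of f.1) f.2
      map_add' := fun f g => by
        ext z
        change Op κ (f.1 + g.1) z = Op κ f.1 z + Op κ g.1 z
        simp only [Op, Pi.add_apply, mul_add]
        exact integral_add (hκ.integrable_mul (bd_of f.1) z) (hκ.integrable_mul (bd_of g.1) z)
      map_smul' := fun c f => by
        ext z
        change Op κ (c • f.1) z = c * Op κ f.1 z
        simp only [Op, ← integral_const_mul, Pi.smul_apply, smul_eq_mul]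
        congr 1; funext w; ring }
    (nK κ) fun f => (BoundedContinuousFunction.norm_le
      (mul_nonneg (nK_nonneg κ) (norm_nonneg _))).2 (norm_Op_le hκ (bd_of f.1))

theorem TB_apply (hκ : Ker κ R) (f : BB) (z : ℍ) : (TB hκ f).1 z = Op κ f.1 z := rfl

theorem dist_J {z : ℍ} (hz : z ∈ 𝒟) : dist z (J • z) ≤ 1 / z.im := by
  refine (dist_le_dist_coe_div_sqrt _ _).trans ?_
  have e : (J • z).im = z.im := by
    rw [← coe_im, coe_J_smul]; simp
  rw [e, Real.sqrt_mul_self z.im_pos.le, coe_J_smul]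
  refine div_le_div_of_nonneg_right ?_ z.im_pos.le
  rw [Complex.dist_eq, sub_neg_eq_add, Complex.add_conj, Complex.norm_real, Real.norm_eq_abs,
    abs_mul, coe_re]
  have := hz.2
  norm_num at this ⊢
  linarith

theorem TB_compact (hκ : Ker κ R) : IsCompactOperator (TB hκ) := by
  refine (isCompactOperator_iff_isCompact_closure_image_closedBall (TB hκ).toLinearMap
    zero_lt_one).2 ?_
  refine isCompact_iff_totallyBounded_isComplete.2 ⟨TotallyBounded.closure ?_,
    isClosed_closure.isComplete⟩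
  refine Metric.totallyBounded_of_finite_discretization fun ε hε => ?_
  obtain ⟨δ, hδ, hd⟩ := Op_equi hκ (ε := ε / 5) (by positivity)
  obtain ⟨s, -, sf, hs⟩ := finite_cover_balls_of_compact
    (ModularGroup.isCompact_truncatedFundamentalDomain (1 / δ)) hδ
  obtain ⟨t, -, tf, ht⟩ := finite_cover_balls_of_compact
    (isCompact_closedBall (0 : ℂ) (nK κ)) (show 0 < ε / 5 by positivity)
  haveI := sf.fintype
  haveI := tf.fintype
  have key : ∀ y : (TB hκ).toLinearMap '' Metric.closedBall 0 1,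
      (∀ z z' : ℍ, dist z z' < δ → ‖y.1.1 z - y.1.1 z'‖ ≤ ε / 5) ∧ ∀ z, ‖y.1.1 z‖ ≤ nK κ := by
    rintro ⟨_, f, hf, rfl⟩
    rw [mem_closedBall_zero_iff] at hf
    have hb : Bd f.1 1 := ⟨(bd_of f.1).meas, fun w => ((bd_of f.1).bd w).trans hf⟩
    exact ⟨fun z z' h => by simpa [TB_apply] using hd f.1 1 hb z z' h,
      fun z => by simpa [TB_apply] using norm_Op_le hκ hb z⟩
  have ch : ∀ (y : (TB hκ).toLinearMap '' Metric.closedBall 0 1) (i : s),
      ∃ j : t, ‖y.1.1 i - j‖ < ε / 5 := by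
    intro y i
    have := ht (mem_closedBall_zero_iff.2 ((key y).2 i))
    simp only [Set.mem_iUnion, Metric.mem_ball, Complex.dist_eq] at this
    obtain ⟨j, hj, h⟩ := this
    exact ⟨⟨j, hj⟩, h⟩
  choose F hF using ch
  classical
  refine ⟨s → t, inferInstance, F, fun x y hxy => ?_⟩
  refine lt_of_le_of_lt (b := 4 * (ε / 5)) ?_ (by linarith)
  rw [Subtype.dist_eq, BoundedContinuousFunction.dist_le (by positivity)]
  intro w
  obtain ⟨γ, hγ⟩ := ModularGroup.exists_smul_mem_fd w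
  rw [← x.1.2.all γ w, ← y.1.2.all γ w, Complex.dist_eq]
  generalize γ • w = z at hγ
  by_cases c : z.im ≤ 1 / δ
  · have := hs ⟨hγ, c⟩
    simp only [Set.mem_iUnion, Metric.mem_ball] at this
    obtain ⟨i, hi, h⟩ := this
    have a1 := (key x).1 z i h
    have a2 := (key y).1 z i h
    have a3 := hF x ⟨i, hi⟩
    have a4 := hF y ⟨i, hi⟩
    rw [hxy] at a3
    have : x.1.1 z - y.1.1 z = (x.1.1 z - x.1.1 i) - (y.1.1 z - y.1.1 i) +
        ((x.1.1 i - F y ⟨i, hi⟩) - (y.1.1 i - F y ⟨i, hi⟩)) := by ring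
    rw [this]
    refine (norm_add_le _ _).trans ?_
    have b1 := norm_sub_le (x.1.1 z - x.1.1 i) (y.1.1 z - y.1.1 i)
    have b2 := norm_sub_le (x.1.1 i - F y ⟨i, hi⟩) (y.1.1 i - F y ⟨i, hi⟩)
    simp only at a3 a4
    linarith
  · have h : dist z (J • z) < δ := by
      refine (dist_J hγ).trans_lt ?_
      rw [not_le, div_lt_iff₀ hδ] at c
      rw [div_lt_iff₀ z.im_pos]
      linarith
    have a1 := (key x).1 _ _ h
    have a2 := (key y).1 _ _ h
    rw [x.1.2.hJ, sub_neg_eq_add, ← two_mul, norm_mul] at a1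
    rw [y.1.2.hJ, sub_neg_eq_add, ← two_mul, norm_mul] at a2
    have b1 := norm_sub_le (x.1.1 z) (y.1.1 z)
    simp only [Complex.norm_ofNat] at a1 a2
    linarith

noncomputable def NN (f : ℍ → ℂ) : ℝ := ∫ z in 𝒟, ‖f z‖ ^ 2

theorem NN_nonneg (f : ℍ → ℂ) : 0 ≤ NN f := integral_nonneg fun _ => by positivity

theorem Bd.int_sq {f : ℍ → ℂ} (hf : Bd f M) : IntegrableOn (fun z => ‖f z‖ ^ 2) 𝒟 :=
  Integrable.of_bound (hf.meas.norm.pow 2).aestronglyMeasurable (M ^ 2)
    (Eventually.of_forall fun z => by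
      rw [Real.norm_eq_abs, abs_of_nonneg (by positivity)]
      exact pow_le_pow_left₀ (norm_nonneg _) (hf.bd z) 2)

theorem NN_le {f : ℍ → ℂ} (hf : Bd f M) : NN f ≤ (volume : Measure ℍ).real 𝒟 * M ^ 2 := by
  have := integral_mono hf.int_sq (integrable_const (M ^ 2))
    fun z => pow_le_pow_left₀ (norm_nonneg _) (hf.bd z) 2
  simpa [NN] using this

theorem Bd.conj {f : ℍ → ℂ} (hf : Bd f M) : Bd (fun z => conj (f z)) M :=
  ⟨Complex.continuous_conj.comp_stronglyMeasurable hf.meas, fun w => by simpa using hf.bd w⟩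

theorem NN_ineq (hκ : Ker κ R) (hr : ∀ t, conj (κ t) = κ t) {f : ℍ → ℂ} (hf : Bd f M) (hi : Inv f)
    {t : ℝ} (ht : 0 < t) : 2 * NN (Op κ f) ≤ t * NN f + NN (Op κ (Op κ f)) / t := by
  have h1 := Op_bd hκ hf
  have h2 := Op_bd hκ h1
  have k := Op_symm hκ hf h1.conj hi.all fun γ z => by rw [(hi.op κ).all]
  have e1 : ∀ z, Op κ (fun z => conj (Op κ f z)) z = conj (Op κ (Op κ f) z) := by
    intro z
    conv_rhs => rw [Op, ← integral_conj]
    simp only [map_mul, hr]
    rfl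
  simp only [Complex.mul_conj', e1] at k
  have e2 : ((NN (Op κ f) : ℝ) : ℂ) = ∫ z in 𝒟, ((‖Op κ f z‖ : ℝ) : ℂ) ^ 2 := by
    rw [NN, ← integral_complex_ofReal]; simp
  have e3 : NN (Op κ f) ≤ ‖∫ z in 𝒟, f z * conj (Op κ (Op κ f) z)‖ := by
    rw [← k, ← e2, Complex.norm_real]; exact le_abs_self _
  have e4 := norm_integral_le_of_norm_le (f := fun z => f z * conj (Op κ (Op κ f) z))
    (((hf.int_sq.const_mul t).add (h2.int_sq.div_const t)).div_const 2)
    (Eventually.of_forall fun z => by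
      simp only [norm_mul, Complex.norm_conj, Pi.add_apply]
      generalize ‖f z‖ = a
      generalize ‖Op κ (Op κ f) z‖ = b
      rw [le_div_iff₀ two_pos, ← sub_nonneg]
      have : t * a ^ 2 + b ^ 2 / t - a * b * 2 = (t * a - b) ^ 2 / t := by field_simp; ring
      rw [this]; positivity)
  rw [integral_div] at e4
  simp only [Pi.add_apply] at e4
  rw [integral_add (hf.int_sq.const_mul t) (h2.int_sq.div_const t), integral_const_mul,
    integral_div] at e4
  unfold NN at *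
  linarith

theorem vol_pos {U : Set ℍ} (hU : IsOpen U) (hne : U.Nonempty) : volume U ≠ 0 := by
  intro h
  rw [volume_eq_lintegral, lintegral_eq_zero_iff (by fun_prop)] at h
  have hm : MeasurableSet (UpperHalfPlane.coe '' U) :=
    (isOpenEmbedding_coe.isOpenMap U hU).measurableSet
  have h2 : ∀ᵐ z ∂(volume.restrict (UpperHalfPlane.coe '' U)), False := by
    filter_upwards [h, ae_restrict_mem hm] with z h1 h2
    obtain ⟨w, -, rfl⟩ := h2
    simp [w.im_ne_zero] at h1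
  rw [eventually_false_iff_eq_bot, ae_eq_bot, Measure.restrict_eq_zero] at h2
  exact (isOpenEmbedding_coe.isOpenMap U hU).measure_ne_zero volume (hne.image _) h2

instance : Measure.IsOpenPosMeasure (volume : Measure ℍ) := ⟨fun _ hU hne => vol_pos hU hne⟩

theorem NN_pos {f : ℍ → ℂ} (hf : Bd f M) (hc : Continuous f) {z : ℍ} (hz : z ∈ 𝒟ᵒ)
    (h : f z ≠ 0) : 0 < NN f := by
  rw [NN, setIntegral_pos_iff_support_of_nonneg_ae (Eventually.of_forall fun _ => by positivity)
    hf.int_sq]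
  refine lt_of_lt_of_le (pos_iff_ne_zero.2 (vol_pos (U := {w | f w ≠ 0} ∩ 𝒟ᵒ)
    ((isOpen_ne_fun hc continuous_const).inter ModularGroup.isOpen_fdo) ⟨z, h, hz⟩))
    (measure_mono ?_)
  rintro w ⟨h1, h2⟩
  exact ⟨by simpa using h1, ModularGroup.fdo_subset_fd h2⟩

theorem JJ (z : ℍ) : J • J • z = z := by rw [← mul_smul, ← sq, J_sq, one_smul]

theorem coe_T (z : ℍ) : ((ModularGroup.T • z : ℍ) : ℂ) = z + 1 := by
  rw [modular_T_smul]; simp [add_comm]

theorem coe_S (z : ℍ) : ((ModularGroup.S • z : ℍ) : ℂ) = -(z : ℂ)⁻¹ := by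
  rw [modular_S_smul]; simp [inv_neg]

theorem JT (z : ℍ) : ModularGroup.T • J • ModularGroup.T • z = J • z := by
  apply UpperHalfPlane.ext
  rw [coe_T, coe_J_smul, coe_T, coe_J_smul]; simp

theorem JS (z : ℍ) : J • ModularGroup.S • z = ModularGroup.S • J • z := by
  apply UpperHalfPlane.ext
  rw [coe_S, coe_J_smul, coe_S, coe_J_smul]; simp

theorem exists_ker : ∃ (κ : ℝ → ℂ) (R : ℝ) (hκ : Ker κ R), ContDiff ℝ (⊤ : ℕ∞) κ ∧
    ∃ μ : ℂ, μ ≠ 0 ∧ Module.End.HasEigenvalue (TB hκ : Module.End ℂ BB) μ := by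
  classical
  let z0 : ℍ := ⟨⟨1 / 4, 2⟩, by norm_num⟩
  have hz0 : z0 ∈ 𝒟ᵒ ∩ {z : ℍ | 0 < z.re} := by
    refine ⟨⟨?_, ?_⟩, ?_⟩
    · simp [z0, normSq_apply]; norm_num
    · simp [z0]; norm_num
    · simp [z0]
  obtain ⟨ρ, hρ, hb⟩ := Metric.isOpen_iff.1
    (ModularGroup.isOpen_fdo.inter (isOpen_lt continuous_const UpperHalfPlane.continuous_re)) z0 hz0
  set R : ℝ := (Real.cosh ρ - 1) / 2 with hR
  have R0 : 0 < R := by have := Real.one_lt_cosh.2 hρ.ne'; linarith
  let b : ContDiffBump (0 : ℝ) := ⟨R / 2, R, by positivity, by linarith⟩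
  let κ : ℝ → ℂ := fun t => (b t : ℝ)
  have hsm : ContDiff ℝ (⊤ : ℕ∞) κ := Complex.ofRealCLM.contDiff.comp b.contDiff
  have hκ : Ker κ R := ⟨hsm.continuous, fun t ht => by
    have : b t = 0 := b.zero_of_le_dist (by
      rw [dist_zero_right]; exact ht.trans (le_abs_self _))
    simp [κ, this]⟩
  have hr : ∀ t, conj (κ t) = κ t := fun t => Complex.conj_ofReal _
  refine ⟨κ, R, hκ, hsm, ?_⟩
  let P : Set ℍ := {w | ∃ γ : SL(2, ℤ), γ • w ∈ Metric.ball z0 ρ}
  have hP : IsOpen P := by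
    have : P = ⋃ γ : SL(2, ℤ), (fun w : ℍ => (γ : GL (Fin 2) ℝ) • w) ⁻¹' Metric.ball z0 ρ := by
      ext w; simp [P]
    rw [this]
    exact isOpen_iUnion fun γ => Metric.isOpen_ball.preimage (continuous_const_smul _)
  have hPi : ∀ (γ : SL(2, ℤ)) w, γ • w ∈ P ↔ w ∈ P := fun γ w =>
    ⟨fun ⟨g, h⟩ => ⟨g * γ, by rwa [mul_smul]⟩, fun ⟨g, h⟩ => ⟨g * γ⁻¹, by
      rwa [mul_smul, inv_smul_smul]⟩⟩
  let e : ℍ → ℂ := P.indicator 1
  have he : ∀ (γ : SL(2, ℤ)) w, e (γ • w) = e w := fun γ w => by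
    simp only [e, Set.indicator_apply, hPi, Pi.one_apply]
  have hem : StronglyMeasurable e := stronglyMeasurable_one.indicator hP.measurableSet
  have heb : ∀ w, ‖e w‖ ≤ 1 := fun w => by
    simp only [e, Set.indicator_apply]; split_ifs <;> simp
  let f0 : ℍ → ℂ := fun w => e w - e (J • w)
  have hf0 : Bd f0 2 := ⟨hem.sub (hem.comp_measurable (continuous_const_smul J).measurable),
    fun w => (norm_sub_le _ _).trans (by linarith [heb w, heb (J • w)])⟩
  have hi0 : Inv f0 := ⟨fun z => by simp only [f0]; rw [he, ← JT z, he],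
    fun z => by simp only [f0]; rw [he, JS, he], fun z => by simp only [f0, JJ]; ring⟩
  have hone : ∀ w ∈ Metric.ball z0 ρ, f0 w = 1 := by
    intro w hw
    have h1 : w ∈ P := ⟨1, by simpa using hw⟩
    have h2 : J • w ∉ P := by
      rintro ⟨γ, hγ⟩
      have a1 := hb hw
      have a2 := hb hγ
      have re1 : (J • w).re = -w.re := by rw [← coe_re, coe_J_smul]; simp
      have a3 : J • w ∈ 𝒟ᵒ := by
        refine ⟨?_, ?_⟩
        · rw [coe_J_smul]; simpa using a1.1.1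
        · rw [re1, abs_neg]; exact a1.1.2
      rw [← ModularGroup.eq_smul_self_of_mem_fdo_mem_fdo a3 a2.1] at a2
      have b1 : 0 < w.re := a1.2
      have b2 : 0 < (J • w).re := a2.2
      linarith
    simp [f0, e, h1, h2]
  have hval : Op κ f0 z0 ≠ 0 := by
    have : Op κ f0 z0 = ((∫ w : ℍ, b (uC z0 w) : ℝ) : ℂ) := by
      rw [Op, ← integral_complex_ofReal]
      congr 1; funext w
      by_cases c : w ∈ Metric.ball z0 ρ
      · rw [hone w c, mul_one]
      · have h1 : κ (uC z0 w) = 0 := by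
          apply hκ.supp
          rw [Metric.mem_ball, not_lt, dist_comm] at c
          have := Real.cosh_le_cosh.2 (show |ρ| ≤ |dist z0 w| by
            rwa [abs_of_pos hρ, abs_of_nonneg dist_nonneg])
          rw [cosh_eq] at this
          linarith
        rw [h1, zero_mul]; exact h1.symm
    rw [this, Complex.ofReal_ne_zero]
    refine (Continuous.integral_pos_of_hasCompactSupport_nonneg_nonzero (x := z0)
      (b.continuous.comp (uC_cont.comp (Continuous.prodMk_right z0))) ?_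
      (fun w => b.nonneg) ?_).ne'
    · refine HasCompactSupport.intro (isCompact_closedBall z0 (1 + 2 * R)) fun w hw => ?_
      rw [Metric.mem_closedBall, dist_comm] at hw
      exact Complex.ofReal_eq_zero.1 (hκ.zero (not_le.1 hw).le)
    · have : uC z0 z0 = 0 := by simp [uC]
      change b (uC z0 z0) ≠ 0
      rw [this, b.one_of_mem_closedBall (Metric.mem_closedBall_self b.rIn_pos.le)]
      exact one_ne_zero
  have p1 : 0 < NN (Op κ f0) := NN_pos (Op_bd hκ hf0) (Op_cont hκ hf0) hz0.1 hval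
  refine abstract_eig (TB hκ) (TB_compact hκ) (fun f => NN f.1) ((volume : Measure ℍ).real 𝒟)
    (fun f => NN_le (bd_of f.1)) (fun f => NN_nonneg _)
    (fun f t ht => NN_ineq hκ hr (bd_of f.1) f.2 ht) (mkB hκ hf0 hi0) ?_
  change 0 < NN (Op κ (Op κ f0))
  refine lt_of_le_of_ne (NN_nonneg _) fun h => ?_
  have n0 := NN_nonneg f0
  have := NN_ineq hκ hr hf0 hi0 (t := NN (Op κ f0) / (NN f0 + 1)) (by positivity)
  rw [← h, zero_div, add_zero, div_mul_eq_mul_div, le_div_iff₀ (by positivity)] at this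
  nlinarith

theorem eig_fd (hκ : Ker κ R) {μ : ℂ} (hμ : μ ≠ 0) :
    FiniteDimensional ℂ (Module.End.eigenspace (TB hκ : Module.End ℂ BB) μ) := by
  set E := Module.End.eigenspace (TB hκ : Module.End ℂ BB) μ with hE
  have hc : IsClosed (E : Set BB) := by
    have : (E : Set BB) = {f | TB hκ f = μ • f} := by
      ext f; exact Module.End.mem_eigenspace_iff
    rw [this]
    exact isClosed_eq (TB hκ).continuous (continuous_const_smul μ)
  have hm : ∀ x ∈ E, (TB hκ : Module.End ℂ BB) x ∈ E := fun x hx => by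
    rw [Module.End.mem_eigenspace_iff.1 hx]; exact E.smul_mem _ hx
  have h1 := ((TB_compact hκ).restrict (f := (TB hκ : Module.End ℂ BB)) hm hc).smul μ⁻¹
  apply FiniteDimensional.of_isCompactOperator_id
  convert! h1 using 1
  funext x
  apply Subtype.ext
  change x.1 = μ⁻¹ • (TB hκ : Module.End ℂ BB) x.1
  rw [Module.End.mem_eigenspace_iff.1 x.2, smul_smul, inv_mul_cancel₀ hμ, one_smul]

end Pool.Agent.Lib.H23Maass
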