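import Mathlib

/-! Fourier coefficients of periodic functions on the upper half plane. -/

namespace Pool.Agent.Lib.H23Maass

open MeasureTheory Complex Filter Topology
open scoped Real ComplexConjugate

noncomputable def ee (x : ℝ) : ℂ := cexp (2 * π * I * x)

theorem ee_add (x y : ℝ) : ee (x + y) = ee x * ee y := by
  unfold ee; rw [← Complex.exp_add]; congr 1; push_cast; ring

theorem ee_int (n : ℤ) : ee n = 1 := by
  unfold ee
  rw [ofReal_intCast, mul_comm]
  exact exp_int_mul_two_pi_mul_I n

@[fun_prop]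
theorem ee_cont : Continuous ee := by unfold ee; fun_prop

theorem norm_ee (x : ℝ) : ‖ee x‖ = 1 := by
  unfold ee
  rw [show (2 * π * I * x : ℂ) = ((2 * π * x : ℝ) : ℂ) * I by push_cast; ring,
    norm_exp_ofReal_mul_I]

theorem ee_ne {n : ℤ} {p : ℕ} (hp : 0 < p) (h : ¬ (p : ℤ) ∣ n) : ee (-(n / p)) ≠ 1 := by
  intro e
  obtain ⟨k, hk⟩ := exp_eq_one_iff.1 e
  apply h
  have h1 : (2 * π * I : ℂ) ≠ 0 := two_pi_I_ne_zero
  rw [mul_comm (k : ℂ), mul_right_inj' h1] at hk
  have h2 : (-(n / p) : ℝ) = k := by exact_mod_cast hk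
  have h3 : (p : ℝ) ≠ 0 := by positivity
  field_simp at h2
  have h4 : -n = p * k := by exact_mod_cast h2
  exact (dvd_neg).1 ⟨k, h4⟩

theorem ee_deriv (c x : ℝ) : HasDerivAt (fun x => ee (c * x)) (2 * π * I * c * ee (c * x)) x := by
  have := (((hasDerivAt_id x).const_mul c).ofReal_comp.const_mul (2 * π * I)).cexp
  convert! this using 1
  simp [ee]; ring

noncomputable def cf (g : ℝ → ℂ) (n : ℤ) : ℂ := ∫ x in (0 : ℝ)..1, g x * ee (-n * x)

variable {g : ℝ → ℂ}

theorem per_ee (hp : Function.Periodic g 1) (n : ℤ) :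
    Function.Periodic (fun x => g x * ee (-n * x)) 1 := by
  intro x
  simp only [hp x]
  rw [mul_add, ee_add, mul_one, ← Int.cast_neg, ee_int, mul_one]

theorem cf_up (hc : Continuous g) (hp : Function.Periodic g 1) {p : ℕ} (h0 : 0 < p) (n : ℤ) :
    cf (fun x => g (p * x)) n = if (p : ℤ) ∣ n then cf g (n / p) else 0 := by
  have h3 : (p : ℝ) ≠ 0 := by positivity
  split_ifs with c
  · obtain ⟨m, rfl⟩ := c
    rw [Int.mul_ediv_cancel_left _ (by positivity)]
    have h1 := (per_ee hp m).intervalIntegral_add_zsmul_eq p 0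
      fun a b => (hc.mul (by fun_prop)).intervalIntegrable a b
    have h2 := intervalIntegral.integral_comp_mul_left (a := 0) (b := 1)
      (fun x => g x * ee (-m * x)) h3
    simp only [zero_add, smul_eq_mul, mul_one, mul_zero, zsmul_eq_mul, Int.cast_natCast] at h1 h2
    rw [h1, real_smul, ← mul_assoc] at h2
    unfold cf
    rw [show (((p : ℝ)⁻¹ : ℝ) : ℂ) * p = 1 by
      push_cast; exact inv_mul_cancel₀ (by exact_mod_cast h3), one_mul] at h2
    rw [← h2]
    congr 1; funext x; congr 2; push_cast; ring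
  · have hq : Function.Periodic (fun x => g (p * x)) 1 := fun x => by
      simp only [mul_add, mul_one]
      simpa using hp.nat_mul p (p * x)
    have h1 := (per_ee hq n).intervalIntegral_add_eq (1 / p) 0
    have h2 := intervalIntegral.integral_comp_add_right (a := 0) (b := 1)
      (fun x => g (p * x) * ee (-n * x)) (1 / p)
    rw [zero_add, add_comm, h1, zero_add] at h2
    have h4 : ∀ x : ℝ, g (p * (x + 1 / p)) * ee (-n * (x + 1 / p)) =
        ee (-(n / p)) * (g (p * x) * ee (-n * x)) := by
      intro x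
      rw [mul_add, mul_one_div_cancel h3, hp, mul_add, ee_add,
        show (-n * (1 / p) : ℝ) = -(n / p) by ring]
      ring
    simp only [h4, intervalIntegral.integral_const_mul] at h2
    have h5 := ee_ne h0 c
    unfold cf
    by_contra h6
    exact h5 (mul_right_cancel₀ h6 (h2.trans (one_mul _).symm))

theorem cf_down (hc : Continuous g) {p : ℕ} (h0 : 0 < p) (n : ℤ) :
    cf (fun x => ∑ b ∈ Finset.range p, g ((x + b) / p)) n = p * cf g (n * p) := by
  have h3 : (p : ℝ) ≠ 0 := by positivity
  unfold cf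
  simp only [Finset.sum_mul]
  rw [intervalIntegral.integral_finsetSum fun b _ =>
    (Continuous.intervalIntegrable (by fun_prop) _ _)]
  have h1 : ∀ b ∈ Finset.range p, ∫ x in (0 : ℝ)..1, g ((x + b) / p) * ee (-n * x) =
      ∫ x in (b : ℝ)..(b + 1 : ℕ), g (x / p) * ee (-n * x) := by
    intro b _
    have := intervalIntegral.integral_comp_add_right (a := 0) (b := 1)
      (fun x => g (x / p) * ee (-n * x)) (b : ℝ)
    rw [zero_add, add_comm] at this
    rw [Nat.cast_succ, ← this]
    congr 1; funext x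
    rw [mul_add, ee_add, show (-n * b : ℝ) = ((-n * b : ℤ) : ℝ) by push_cast; ring, ee_int, mul_one]
  rw [Finset.sum_congr rfl h1, intervalIntegral.sum_integral_adjacent_intervals
    (a := fun b : ℕ => (b : ℝ)) fun b _ => (Continuous.intervalIntegrable (by fun_prop) _ _)]
  have h2 := intervalIntegral.integral_comp_div (a := 0) (b := p)
    (fun x => g x * ee (-(n * p : ℤ) * x)) h3
  rw [zero_div, div_self h3, real_smul] at h2
  rw [Nat.cast_zero, ← ofReal_natCast, ← h2]
  congr 1; funext x; congr 2; push_cast; field_simp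

theorem cf_sum (hc : Continuous g) (hp : Function.Periodic g 1) (hs : Summable (cf g)) (x : ℝ) :
    HasSum (fun n => cf g n * ee (n * x)) (g x) := by
  haveI : Fact ((0 : ℝ) < 1) := ⟨one_pos⟩
  let F : C(AddCircle (1 : ℝ), ℂ) := ⟨hp.lift, continuous_coinduced_dom.mpr hc⟩
  have e : fourierCoeff F = cf g := by
    funext n
    rw [fourierCoeff_eq_intervalIntegral _ _ 0, zero_add, div_one, one_smul, cf]
    congr 1; funext x
    rw [fourier_coe_apply, smul_eq_mul, mul_comm]
    congr 1
    unfold ee; congr 1; push_cast; ring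
  have := has_pointwise_sum_fourier_series_of_summable (f := F) (e ▸ hs) (x : AddCircle (1 : ℝ))
  rw [e] at this
  convert! this using 2 with n
  rw [fourier_coe_apply, smul_eq_mul]
  congr 1
  unfold ee; congr 1; push_cast; ring

theorem cf_deriv {g' : ℝ → ℂ} (hd : ∀ x, HasDerivAt g (g' x) x) (hc : Continuous g')
    (hp : Function.Periodic g 1) (n : ℤ) : cf g' n = 2 * π * I * n * cf g n := by
  have c0 : Continuous g := continuous_iff_continuousAt.2 fun x => (hd x).continuousAt
  have h := intervalIntegral.integral_eq_sub_of_hasDerivAt (a := 0) (b := 1)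
    (fun x _ => (hd x).mul (ee_deriv (-n) x)) (Continuous.intervalIntegrable (by fun_prop) _ _)
  have h1 := per_ee hp n 0
  simp only [zero_add] at h1
  simp only [Pi.mul_apply] at h
  rw [h1, sub_self, intervalIntegral.integral_add (Continuous.intervalIntegrable (by fun_prop) _ _)
    (Continuous.intervalIntegrable (by fun_prop) _ _), add_eq_zero_iff_eq_neg] at h
  unfold cf
  rw [h, ← intervalIntegral.integral_neg, ← intervalIntegral.integral_const_mul]
  congr 1; funext x; push_cast; ring

theorem cf_odd (hp : Function.Periodic g 1) (ho : ∀ x, g (-x) = -g x) (n : ℤ) :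
    cf g (-n) = -cf g n := by
  have h1 := (per_ee hp (-n)).intervalIntegral_add_eq (-1) 0
  have h2 := intervalIntegral.integral_comp_neg (a := 0) (b := 1)
    (fun x => g x * ee (-(-n : ℤ) * x))
  rw [neg_add_cancel, zero_add] at h1
  rw [neg_zero, h1] at h2
  unfold cf
  rw [← h2, ← intervalIntegral.integral_neg]
  congr 1; funext x
  rw [ho, neg_mul]
  congr 3; push_cast; ring

theorem cf_le {M : ℝ} (h : ∀ x, ‖g x‖ ≤ M) (n : ℤ) : ‖cf g n‖ ≤ M := by
  have := intervalIntegral.norm_integral_le_of_norm_le_const (a := 0) (b := 1) (C := M)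
    (f := fun x => g x * ee (-n * x)) fun x _ => by rw [norm_mul, norm_ee, mul_one]; exact h x
  simpa [cf] using this

theorem cf_add {h : ℝ → ℂ} (hg : Continuous g) (hh : Continuous h) (n : ℤ) :
    cf (fun x => g x + h x) n = cf g n + cf h n := by
  unfold cf
  simp only [add_mul]
  exact intervalIntegral.integral_add (Continuous.intervalIntegrable (by fun_prop) _ _)
    (Continuous.intervalIntegrable (by fun_prop) _ _)

theorem cf_smul (c : ℂ) (n : ℤ) : cf (fun x => c * g x) n = c * cf g n := by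
  unfold cf
  simp only [mul_assoc, intervalIntegral.integral_const_mul]

/-- continuous periodic functions on the upper half plane -/
structure Per (U : ℂ → ℂ) : Prop where
  cont : ContinuousOn U {z | 0 < z.im}
  per : ∀ z, 0 < z.im → U (z + 1) = U z

/-- Fourier coefficients on the line of height `y` -/
noncomputable def co (U : ℂ → ℂ) (n : ℤ) (y : ℝ) : ℂ := cf (fun x => U (x + y * I)) n

variable {U V : ℂ → ℂ} {y : ℝ}

theorem Per.c (h : Per U) (hy : 0 < y) : Continuous fun x : ℝ => U (x + y * I) :=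
  h.cont.comp_continuous (by fun_prop) fun x => by simpa using hy

theorem Per.p (h : Per U) (hy : 0 < y) : Function.Periodic (fun x : ℝ => U (x + y * I)) 1 := by
  intro x
  have := h.per (x + y * I) (by simpa using hy)
  simp only [← this]
  congr 1; push_cast; ring

theorem Per.int (h : Per U) (n : ℤ) {z : ℂ} (hz : 0 < z.im) : U (z + n) = U z := by
  have := (h.p hz).int_mul n z.re
  simp only [mul_one] at this
  rw [re_add_im] at this
  rw [← this]
  congr 1
  apply Complex.ext <;> simp

theorem co_congr (h : ∀ z, 0 < z.im → U z = V z) (n : ℤ) (hy : 0 < y) : co U n y = co V n y := by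
  unfold co
  congr 1; funext x
  exact h _ (by simpa using hy)

theorem Per.ext (hU : Per U) (hV : Per V) (h : ∀ n y, 0 < y → co U n y = co V n y) {z : ℂ}
    (hz : 0 < z.im) : U z = V z := by
  have e : cf (fun x : ℝ => U (x + z.im * I) + (-1) * V (x + z.im * I)) = 0 := by
    funext n
    rw [cf_add (hU.c hz) ((hV.c hz).const_mul _), cf_smul]
    have := h n _ hz
    unfold co at this
    simp [this]
  have := cf_sum ((hU.c hz).add ((hV.c hz).const_mul (-1)))
    (fun x => by
      have a := hU.p hz x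
      have b := hV.p hz x
      simp only [Pi.add_apply] at a b ⊢
      rw [a, b]) (by
      have : Summable (0 : ℤ → ℂ) := summable_zero
      rw [← e] at this
      exact this) z.re
  have e2 : cf ((fun x : ℝ => U (x + z.im * I)) + fun x : ℝ => (-1) * V (x + z.im * I)) = 0 := e
  rw [e2] at this
  simp only [Pi.zero_apply, zero_mul, Pi.add_apply, re_add_im] at this
  have h0 := this.unique hasSum_zero
  linear_combination h0

/-- the Hecke operator -/
noncomputable def Hk (p : ℕ) (U : ℂ → ℂ) (z : ℂ) : ℂ :=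
  U (p * z) + ∑ b ∈ Finset.range p, U ((z + b) / p)

theorem im_div {p : ℕ} (h0 : 0 < p) {z : ℂ} (hz : 0 < z.im) (b : ℤ) : 0 < ((z + b) / p).im := by
  rw [div_natCast_im]
  simp only [add_im, intCast_im, add_zero]
  positivity

theorem Per.hk (h : Per U) {p : ℕ} (h0 : 0 < p) : Per (Hk p U) := by
  have i1 : ∀ z : ℂ, 0 < z.im → 0 < (p * z : ℂ).im := fun z hz => by simp; positivity
  constructor
  · refine ContinuousOn.add (h.cont.comp (by fun_prop) i1)
      (continuousOn_finsetSum _ fun b _ => h.cont.comp (by fun_prop) fun z hz => ?_)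
    simpa using im_div h0 hz b
  · intro z hz
    unfold Hk
    have a := h.int p (i1 z hz)
    have b := Finset.sum_range_succ' (fun b : ℕ => U ((z + b) / p)) p
    rw [Finset.sum_range_succ] at b
    have c := h.per _ (im_div h0 hz 0)
    have h3 : (p : ℂ) ≠ 0 := by exact_mod_cast h0.ne'
    rw [show (z + (0 : ℤ)) / p + 1 = (z + p) / p by field_simp; simp] at c
    rw [c] at b
    simp only [Int.cast_zero, Nat.cast_zero, add_left_inj, Int.cast_natCast] at a b
    rw [mul_add, mul_one, a, b]
    congr 2; funext b; congr 2; push_cast; ring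

theorem co_hk (h : Per U) {p : ℕ} (h0 : 0 < p) (n : ℤ) (hy : 0 < y) :
    co (Hk p U) n y = (if (p : ℤ) ∣ n then co U (n / p) (p * y) else 0) +
      p * co U (n * p) (y / p) := by
  have y1 : 0 < p * y := by positivity
  have y2 : 0 < y / p := by positivity
  unfold co
  rw [← cf_up (h.c y1) (h.p y1) h0, ← cf_down (h.c y2) h0, ← cf_add]
  · congr 1; funext x
    unfold Hk
    congr 1
    · congr 1; push_cast; ring
    · congr 1; funext b; congr 1; push_cast; ring
  · exact (h.c y1).comp (by fun_prop)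
  · exact continuous_finsetSum _ fun b _ => (h.c y2).comp (by fun_prop)

theorem hk_comm (h : Per U) {p q : ℕ} (hp : p.Prime) (hq : q.Prime) {z : ℂ} (hz : 0 < z.im) :
    Hk p (Hk q U) z = Hk q (Hk p U) z := by
  by_cases e : p = q
  · rw [e]
  have co1 : IsCoprime (p : ℤ) q := Nat.isCoprime_iff_coprime.2 ((Nat.coprime_primes hp hq).2 e)
  have p0 := hp.pos
  have q0 := hq.pos
  refine ((h.hk q0).hk p0).ext ((h.hk p0).hk q0) (fun n y hy => ?_) hz
  rw [co_hk (h.hk q0) p0 n hy, co_hk (h.hk p0) q0 n hy, co_hk h q0 _ (by positivity),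
    co_hk h q0 _ (by positivity), co_hk h p0 _ (by positivity), co_hk h p0 _ (by positivity)]
  have p1 : (p : ℤ) ≠ 0 := by positivity
  have q1 : (q : ℤ) ≠ 0 := by positivity
  have r1 : y / p / q = y / q / p := by ring
  have r2 : (q : ℝ) * (y / p) = q * y / p := by ring
  have r3 : (p : ℝ) * (y / q) = p * y / q := by ring
  have r4 : (q : ℝ) * (p * y) = p * (q * y) := by ring
  have r5 : n * p * q = n * q * p := by ring
  rw [r1, r2, r3, r4, r5]
  by_cases c1 : (p : ℤ) ∣ n <;> by_cases c2 : (q : ℤ) ∣ n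
  · obtain ⟨m, rfl⟩ := co1.mul_dvd c1 c2
    have a1 : p * q * m / p = q * m := by rw [mul_assoc, Int.mul_ediv_cancel_left _ p1]
    have a2 : p * q * m / q = p * m := by
      rw [mul_comm (p : ℤ), mul_assoc, Int.mul_ediv_cancel_left _ q1]
    have a3 : p * q * m * p / q = p * m * p := by
      rw [show (p : ℤ) * q * m * p = q * (p * m * p) by ring, Int.mul_ediv_cancel_left _ q1]
    have a4 : p * q * m * q / p = q * m * q := by
      rw [show (p : ℤ) * q * m * q = p * (q * m * q) by ring, Int.mul_ediv_cancel_left _ p1]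
    rw [if_pos c1, if_pos c2, a1, a2, a3, a4, if_pos (Dvd.intro _ rfl), if_pos (Dvd.intro _ rfl),
      if_pos (c2.mul_right _), if_pos (c1.mul_right _), Int.mul_ediv_cancel_left _ p1,
      Int.mul_ediv_cancel_left _ q1]
    ring
  · obtain ⟨m, rfl⟩ := c1
    have c3 : ¬ (q : ℤ) ∣ m := fun h => c2 (h.mul_left _)
    have c4 : ¬ (q : ℤ) ∣ p * m * p := fun h => c2 (co1.symm.dvd_of_dvd_mul_right h)
    have a4 : p * m * q / p = m * q := by rw [mul_assoc, Int.mul_ediv_cancel_left _ p1]
    rw [if_pos (Dvd.intro _ rfl), if_neg c2, Int.mul_ediv_cancel_left _ p1, if_neg c3, if_neg c4,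
      if_pos ((Dvd.intro _ rfl).mul_right _), a4]
    ring
  · obtain ⟨m, rfl⟩ := c2
    have c3 : ¬ (p : ℤ) ∣ m := fun h => c1 (h.mul_left _)
    have c4 : ¬ (p : ℤ) ∣ q * m * q := fun h => c1 (co1.dvd_of_dvd_mul_right h)
    have a4 : q * m * p / q = m * p := by rw [mul_assoc, Int.mul_ediv_cancel_left _ q1]
    rw [if_pos (Dvd.intro _ rfl), if_neg c1, Int.mul_ediv_cancel_left _ q1, if_neg c3, if_neg c4,
      if_pos ((Dvd.intro _ rfl).mul_right _), a4]
    ring
  · have c3 : ¬ (q : ℤ) ∣ n * p := fun h => c2 (co1.symm.dvd_of_dvd_mul_right h)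
    have c4 : ¬ (p : ℤ) ∣ n * q := fun h => c1 (co1.dvd_of_dvd_mul_right h)
    rw [if_neg c1, if_neg c2, if_neg c3, if_neg c4]
    ring

/-- directional derivative -/
noncomputable def DD (v : ℂ) (U : ℂ → ℂ) (z : ℂ) : ℂ := fderiv ℝ U z v

/-- smooth periodic functions -/
structure Sm (U : ℂ → ℂ) : Prop where
  sm : ContDiffOn ℝ (⊤ : ℕ∞) U {z | 0 < z.im}
  per : ∀ z, 0 < z.im → U (z + 1) = U z

theorem hopen : IsOpen {z : ℂ | 0 < z.im} := isOpen_lt continuous_const continuous_im

theorem Sm.toPer (h : Sm U) : Per U := ⟨h.sm.continuousOn, h.per⟩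

theorem Sm.dd (h : Sm U) (v : ℂ) : Sm (DD v U) := by
  constructor
  · exact ((contDiffOn_infty_iff_fderiv_of_isOpen hopen).1 h.sm).2.clm_apply contDiffOn_const
  · intro z hz
    unfold DD
    rw [← fderiv_comp_add_right]
    congr 1
    apply Filter.EventuallyEq.fderiv_eq
    filter_upwards [hopen.mem_nhds hz] with w hw
    exact h.per w hw

theorem Sm.chain (h : Sm U) {w : ℝ → ℂ} {t r : ℝ} {v : ℂ} (hw : HasDerivAt w (r * v) t)
    (h0 : 0 < (w t).im) : HasDerivAt (fun t => U (w t)) (r * DD v U (w t)) t := by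
  have a := ((h.sm.contDiffAt (hopen.mem_nhds h0)).differentiableAt (by simp)).hasFDerivAt
  convert! a.comp_hasDerivAt t hw using 1
  rw [← real_smul, ← real_smul, map_smul]
  rfl

theorem Sm.line (h : Sm U) (z v : ℂ) {t : ℝ} (h0 : 0 < (z + t * v).im) :
    HasDerivAt (fun t : ℝ => U (z + t * v)) (DD v U (z + t * v)) t := by
  have := h.chain (w := fun t : ℝ => z + t * v) (r := 1) (v := v) (t := t)
    (((hasDerivAt_id t).ofReal_comp.mul_const v).const_add z) h0
  simpa using this

theorem Sm.second (h : Sm U) {z : ℂ} (hz : 0 < z.im) (v : ℂ) :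
    deriv (deriv fun t : ℝ => U (z + t * v)) 0 = DD v (DD v U) z := by
  have a := ((h.dd v).line z v (t := 0) (by simpa using hz)).deriv
  simp only [ofReal_zero, zero_mul, add_zero] at a
  rw [← a]
  apply Filter.EventuallyEq.deriv_eq
  have c : Continuous fun t : ℝ => z + t * v := by fun_prop
  filter_upwards [(hopen.preimage c).mem_nhds (show (0 : ℝ) ∈ _ by simpa using hz)] with t ht
  exact (h.line z v ht).deriv

theorem Sm.cox (h : Sm U) (n : ℤ) (hy : 0 < y) :
    co (DD 1 U) n y = 2 * π * I * n * co U n y := by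
  refine cf_deriv (fun x => ?_) ((h.dd 1).toPer.c hy) (h.toPer.p hy) n
  have := h.line (y * I) 1 (t := x) (by simpa using hy)
  simpa only [mul_one, add_comm] using this

theorem Sm.coy (h : Sm U) (n : ℤ) (hy : 0 < y) :
    HasDerivAt (co U n) (co (DD I U) n y) y := by
  have hb : ∀ t ∈ Metric.closedBall y (y / 2), 0 < t := fun t ht => by
    rw [Metric.mem_closedBall, Real.dist_eq, abs_le] at ht
    linarith
  obtain ⟨C, hC⟩ := ((isCompact_closedBall y (y / 2)).prod
    (isCompact_uIcc (a := (0 : ℝ)) (b := 1))).exists_bound_of_continuousOn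
    (f := fun p : ℝ × ℝ => DD I U (p.2 + p.1 * I))
    ((h.dd I).sm.continuousOn.comp (by fun_prop) fun p hp => by simpa using hb _ hp.1)
  refine (intervalIntegral.hasDerivAt_integral_of_dominated_loc_of_deriv_le
    (F := fun (t x : ℝ) => U (x + t * I) * ee (-n * x))
    (F' := fun (t x : ℝ) => DD I U (x + t * I) * ee (-n * x)) (bound := fun _ => C)
    (Metric.closedBall_mem_nhds y (half_pos hy)) ?_ ?_ ?_
    (Eventually.of_forall fun x hx t ht => ?_) intervalIntegrable_const
    (Eventually.of_forall fun x hx t ht => ?_)).2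
  · filter_upwards [Ioi_mem_nhds hy] with t ht
    exact ((h.toPer.c ht).mul (by fun_prop)).aestronglyMeasurable
  · exact ((h.toPer.c hy).mul (by fun_prop)).intervalIntegrable _ _
  · exact (((h.dd I).toPer.c hy).mul (by fun_prop)).aestronglyMeasurable
  · rw [norm_mul, norm_ee, mul_one]
    exact hC (t, x) ⟨ht, Set.uIoc_subset_uIcc hx⟩
  · exact (h.line x I (by simpa using hb t ht)).mul_const _

theorem Sm.ode (h : Sm U) {μ : ℂ} (hL : ∀ z : ℂ, 0 < z.im → -((z.im : ℂ)) ^ 2 *
      (deriv (deriv fun t : ℝ => U (z + t)) 0 + deriv (deriv fun t : ℝ => U (z + t * I)) 0) =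
      μ * U z) (hy : 0 < y) :
    co (DD I (DD I U)) 1 y = (4 * π ^ 2 - μ / y ^ 2) * co U 1 y := by
  have y0 : (y : ℂ) ≠ 0 := by exact_mod_cast hy.ne'
  have e : co (DD I (DD I U)) 1 y =
      cf (fun x : ℝ => (-μ / y ^ 2) * U (x + y * I) + (-1) * DD 1 (DD 1 U) (x + y * I)) 1 := by
    unfold co
    congr 1; funext x
    have hz : 0 < (x + y * I : ℂ).im := by simpa using hy
    have a := hL _ hz
    have b := h.second hz 1
    simp only [mul_one] at b
    rw [b, h.second hz I] at a
    simp only [add_im, ofReal_im, mul_im, ofReal_re, I_im, I_re, mul_one, mul_zero, zero_add,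
      add_zero] at a
    field_simp
    linear_combination -a
  rw [e, cf_add ((h.toPer.c hy).const_mul _) ((((h.dd 1).dd 1).toPer.c hy).const_mul _), cf_smul,
    cf_smul]
  have a := (h.dd 1).cox 1 hy
  rw [h.cox 1 hy] at a
  unfold co at a ⊢
  rw [a]
  simp only [Int.cast_one]
  linear_combination (-4 * π ^ 2 * cf (fun x : ℝ => U (x + y * I)) 1) * I_sq

end Pool.Agent.Lib.H23Maass
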