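import Mathlib
import Pool.Agent.Lib.helper23.MaassF

/-! Odd modular invariant functions, Hecke operators and twists. -/

namespace Pool.Agent.Lib.H23Maass

open MeasureTheory Complex Filter Topology
open scoped Real ComplexConjugate

/-- invariant and odd -/
structure InvC (U : ℂ → ℂ) : Prop where
  sl : ∀ a b c d : ℤ, a * d - b * c = 1 → ∀ z : ℂ, 0 < z.im →
    U ((a * z + b) / (c * z + d)) = U z
  odd : ∀ z : ℂ, 0 < z.im → U (-conj z) = -U z

variable {U : ℂ → ℂ}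

theorem InvC.tr (h : InvC U) (n : ℤ) {z : ℂ} (hz : 0 < z.im) : U (z + n) = U z := by
  simpa using h.sl 1 n 0 1 (by simp) z hz

theorem InvC.inv (h : InvC U) {z : ℂ} (hz : 0 < z.im) : U (-z⁻¹) = U z := by
  have := h.sl 0 (-1) 1 0 (by simp) z hz
  simpa [neg_div] using this

theorem ne0 {z : ℂ} (hz : 0 < z.im) : z ≠ 0 := by
  rintro rfl; simp at hz

theorem im_inv {z : ℂ} (hz : 0 < z.im) : 0 < (-z⁻¹).im := by
  have := normSq_pos.2 (ne0 hz)
  simp only [neg_im, inv_im, neg_div, neg_neg]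
  positivity

/-- translates by rationals with a fixed denominator -/
noncomputable def gz (U : ℂ → ℂ) (q : ℕ) (z : ℂ) (a : ZMod q) : ℂ := U ((z + a.val) / q)

theorem gz_int (h : ∀ (n : ℤ) (z : ℂ), 0 < z.im → U (z + n) = U z) {q : ℕ} [NeZero q] {z : ℂ}
    (hz : 0 < z.im) (n : ℤ) : gz U q z n = U ((z + n) / q) := by
  have q0 := NeZero.pos q
  have h3 : (q : ℂ) ≠ 0 := by exact_mod_cast q0.ne'
  have h1 : (((n : ZMod q).val : ℤ) : ℂ) = ((n % q : ℤ) : ℂ) := by rw [ZMod.val_intCast]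
  have h2 : (n : ℂ) = ((n % q + q * (n / q) : ℤ) : ℂ) := by rw [Int.emod_add_mul_ediv]
  unfold gz
  rw [← h (n / q) _ (by simpa using im_div q0 hz ((n : ZMod q).val : ℤ))]
  congr 1
  rw [Int.cast_natCast] at h1
  rw [h1]
  conv_rhs => rw [h2]
  push_cast
  field_simp
  ring

theorem gz_sum (U : ℂ → ℂ) (q : ℕ) [NeZero q] (z : ℂ) :
    ∑ b ∈ Finset.range q, U ((z + b) / q) = ∑ a, gz U q z a := by
  obtain ⟨k, rfl⟩ := Nat.exists_eq_succ_of_ne_zero (NeZero.ne q)
  exact (Fin.sum_univ_eq_sum_range (fun b : ℕ => U ((z + b) / (k + 1 : ℕ))) (k + 1)).symm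

theorem gz_S (h : InvC U) {q : ℕ} [NeZero q] {z : ℂ} (hz : 0 < z.im) {a b : ZMod q}
    (e : a * b = -1) : gz U q (-z⁻¹) a = gz U q z b := by
  have q0 := NeZero.pos q
  have h3 : (q : ℂ) ≠ 0 := by exact_mod_cast q0.ne'
  have : (((a.val : ℤ) * b.val + 1 : ℤ) : ZMod q) = 0 := by
    push_cast
    rw [ZMod.natCast_zmod_val, ZMod.natCast_zmod_val, e]; simp
  obtain ⟨k, hk⟩ := (ZMod.intCast_zmod_eq_zero_iff_dvd _ _).1 this
  have hk' : ((a.val : ℂ) * b.val + 1) = q * k := by exact_mod_cast hk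
  unfold gz
  rw [← h.sl a.val (-k) q (-b.val) (by linarith) ((z + b.val) / q)
    (by simpa using im_div q0 hz (b.val : ℤ))]
  congr 1
  have := ne0 hz
  push_cast
  rw [mul_div_cancel₀ _ h3, add_neg_cancel_right]
  field_simp
  linear_combination -hk'

theorem gz_J (h : InvC U) {q : ℕ} [NeZero q] {z : ℂ} (hz : 0 < z.im) (a : ZMod q) :
    gz U q (-conj z) a = -gz U q z (-a) := by
  have q0 := NeZero.pos q
  have := gz_int (fun n z hz => h.tr n hz) (q := q) hz (-a.val)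
  rw [Int.cast_neg, Int.cast_natCast, ZMod.natCast_zmod_val] at this
  rw [this, ← h.odd _ (im_div q0 hz _)]
  unfold gz
  congr 1
  generalize a.val = m
  simp [neg_div, add_div]
  ring

theorem exists_sigma (q : ℕ) : ∃ σ : ZMod q ≃ ZMod q, (∀ a, IsUnit a → a * σ a = -1) ∧
    ∀ a, ¬ IsUnit a → σ a = a := by
  classical
  let s : ZMod q → ZMod q := fun a => if IsUnit a then -Ring.inverse a else a
  have hs : Function.Involutive s := by
    intro a
    by_cases c : IsUnit a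
    · obtain ⟨u, rfl⟩ := c
      have e : s u = ((-u⁻¹ : (ZMod q)ˣ) : ZMod q) := by simp [s]
      rw [e]
      simp only [s, Units.isUnit, if_true, Ring.inverse_unit]
      simp
    · simp [s, c]
  refine ⟨hs.toPerm, fun a c => ?_, fun a c => ?_⟩
  · simp [s, c, Ring.mul_inverse_cancel]
  · simp [s, c]

theorem hk_S (h : InvC U) {p : ℕ} (hp : p.Prime) {z : ℂ} (hz : 0 < z.im) :
    Hk p U (-z⁻¹) = Hk p U z := by
  haveI := Fact.mk hp
  have p0 := hp.pos
  have h3 : (p : ℂ) ≠ 0 := by exact_mod_cast p0.ne'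
  have z0 := ne0 hz
  obtain ⟨σ, s1, s2⟩ := exists_sigma p
  unfold Hk
  rw [gz_sum, gz_sum, ← σ.sum_comp (gz U p z), ← Finset.add_sum_erase _ _ (Finset.mem_univ 0),
    ← Finset.add_sum_erase _ _ (Finset.mem_univ 0), s2 0 not_isUnit_zero,
    Finset.sum_congr rfl fun a ha => gz_S h hz (s1 a (Finset.ne_of_mem_erase ha).isUnit)]
  have a1 : U (p * -z⁻¹) = gz U p z 0 := by
    unfold gz
    rw [← h.inv (z := (z + (0 : ZMod p).val) / p) (by simpa using im_div p0 hz 0)]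
    congr 1; simp; field_simp
  have a2 : gz U p (-z⁻¹) 0 = U (p * z) := by
    unfold gz
    rw [← h.inv (z := p * z) (by simp; positivity)]
    congr 1; simp; field_simp
  rw [a1, a2]; ring

theorem hk_J (h : InvC U) {p : ℕ} (hp : p.Prime) {z : ℂ} (hz : 0 < z.im) :
    Hk p U (-conj z) = -Hk p U z := by
  haveI := Fact.mk hp
  have p0 := hp.pos
  unfold Hk
  rw [gz_sum, gz_sum, ← Equiv.sum_comp (Equiv.neg (ZMod p)) (gz U p z), neg_add,
    ← h.odd (p * z) (by simp; positivity), ← Finset.sum_neg_distrib]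
  simp only [gz_J h hz]
  simp

/-- the twist -/
noncomputable def Tw (U : ℂ → ℂ) {q : ℕ} [NeZero q] (χ : DirichletCharacter ℂ q) (z : ℂ) : ℂ :=
  ∑ a, χ a * gz U q z a

theorem Tw_S (h : InvC U) {q : ℕ} [NeZero q] {χ : DirichletCharacter ℂ q} (hχ : χ ^ 2 = 1)
    {z : ℂ} (hz : 0 < z.im) : Tw U χ (-z⁻¹) = χ (-1) * Tw U χ z := by
  obtain ⟨σ, s1, s2⟩ := exists_sigma q
  unfold Tw
  rw [← σ.sum_comp (fun a => χ a * gz U q z a), Finset.mul_sum]
  refine Finset.sum_congr rfl fun a _ => ?_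
  by_cases c : IsUnit a
  · rw [gz_S h hz (s1 a c), ← s1 a c, map_mul]
    have hu : IsUnit (σ a) := isUnit_of_mul_isUnit_right (s1 a c ▸ isUnit_one.neg)
    have e : χ (σ a) * χ (σ a) = 1 := by
      rw [← MulChar.mul_apply, ← sq, hχ, MulChar.one_apply hu]
    linear_combination (-χ a * gz U q z (σ a)) * e
  · rw [s2 a c, χ.map_nonunit c]; simp

theorem gauss_ne {q : ℕ} [NeZero q] {χ : DirichletCharacter ℂ q} (hχ : χ.IsPrimitive) :
    gaussSum χ ZMod.stdAddChar ≠ 0 := by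
  intro h
  have : ZMod.dft (χ : ZMod q → ℂ) = 0 := by
    funext k
    rw [hχ.fourierTransform_eq_inv_mul_gaussSum, h]; simp
  rw [LinearEquiv.map_eq_zero_iff] at this
  have := congrFun this 1
  simp at this

theorem gauss_ee {q : ℕ} [NeZero q] {χ : DirichletCharacter ℂ q} (hχ : χ.IsPrimitive)
    (h2 : χ ^ 2 = 1) (n : ℤ) :
    ∑ a : ZMod q, χ a * ee (n * (a.val / q)) = χ n * gaussSum χ ZMod.stdAddChar := by
  have e : χ⁻¹ = χ := by rw [inv_eq_iff_mul_eq_one, ← sq, h2]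
  have := gaussSum_mulShift_of_isPrimitive ZMod.stdAddChar hχ (n : ZMod q)
  rw [e] at this
  rw [← this, gaussSum]
  refine Finset.sum_congr rfl fun a _ => ?_
  rw [AddChar.mulShift_apply]
  have h1 := ZMod.stdAddChar_coe (N := q) (n * a.val)
  rw [Int.cast_mul, Int.cast_natCast, ZMod.natCast_zmod_val] at h1
  rw [h1]
  unfold ee
  congr 2
  push_cast
  ring

theorem Tw_sum (h : Per U) {q : ℕ} [NeZero q] {χ : DirichletCharacter ℂ q} (hχ : χ.IsPrimitive)
    (h2 : χ ^ 2 = 1) {y : ℝ} (hy : 0 < y) (hs : Summable fun n => co U n y) :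
    HasSum (fun n : ℤ => gaussSum χ ZMod.stdAddChar * (χ n * co U n y)) (Tw U χ (q * y * I)) := by
  have h3 : (q : ℂ) ≠ 0 := by exact_mod_cast NeZero.ne q
  have := hasSum_sum (s := Finset.univ) fun (a : ZMod q) _ =>
    (cf_sum (h.c hy) (h.p hy) hs (a.val / q)).mul_left (χ a)
  convert! this using 1
  · funext n
    rw [← mul_assoc, mul_comm _ (χ n), ← gauss_ee hχ h2, Finset.sum_mul]
    refine Finset.sum_congr rfl fun a _ => ?_
    unfold co; ring
  · unfold Tw gz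
    refine Finset.sum_congr rfl fun a _ => ?_
    congr 2
    push_cast
    field_simp
    ring

/-- the properties of an odd Hecke-Maass form -/
structure HM (U : ℂ → ℂ) (μ : ℂ) (t : ℕ → ℂ) (M : ℝ) : Prop where
  sm : Sm U
  inv : InvC U
  lap : ∀ z : ℂ, 0 < z.im → -((z.im : ℂ)) ^ 2 *
      (deriv (deriv fun t : ℝ => U (z + t)) 0 + deriv (deriv fun t : ℝ => U (z + t * I)) 0) =
      μ * U z
  bd : ∀ z : ℂ, 0 < z.im → ‖U z‖ ≤ M
  ne : ∃ z : ℂ, 0 < z.im ∧ U z ≠ 0
  hk : ∀ p : ℕ, p.Prime → ∀ z : ℂ, 0 < z.im → Hk p U z = t p * U z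

end Pool.Agent.Lib.H23Maass
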