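import Mathlib
import Pool.Agent.Lib.helper23.MaassOp

/-! Smoothness and the Laplacian of point-pair operators. -/

namespace Pool.Agent.Lib.H23Maass

open UpperHalfPlane MeasureTheory Complex Filter Topology
open scoped MatrixGroups ComplexConjugate Convolution

noncomputable def Phi (κ : ℝ → ℂ) (f : ℍ → ℂ) (z : ℂ) : ℂ := ∫ w : ℍ, κ (uC z w) * f w

variable {κ : ℝ → ℂ} {R M : ℝ} {f : ℍ → ℂ}

theorem Phi_smooth (hκ : Ker κ R) (hs : ContDiff ℝ (⊤ : ℕ∞) κ) (hf : Bd f M) :
    ContDiffOn ℝ (⊤ : ℕ∞) (Phi κ f) {z : ℂ | 0 < z.im} := by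
  intro z hz
  apply ContDiffAt.contDiffWithinAt
  let z0 : ℍ := ⟨z, hz⟩
  let K : Set ℍ := Metric.closedBall z0 (2 + 2 * R)
  have hK : IsCompact K := isCompact_closedBall _ _
  let s : Set ℂ := UpperHalfPlane.coe '' Metric.ball z0 1
  have hso : IsOpen s := isOpenEmbedding_coe.isOpenMap _ Metric.isOpen_ball
  have hzs : z ∈ s := ⟨z0, Metric.mem_ball_self one_pos, rfl⟩
  let k : Set ℂ := (fun w : ℍ => -(w : ℂ)) '' K
  have hk : IsCompact k := hK.image (by fun_prop)
  haveI : IsFiniteMeasure ((volume : Measure ℍ).restrict K) :=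
    ⟨by rw [Measure.restrict_apply_univ]; exact hK.measure_lt_top⟩
  let μ : Measure ℂ := ((volume : Measure ℍ).restrict K).map UpperHalfPlane.coe
  let g : ℂ → ℂ → ℂ := fun p x => if x.im < 0 then κ (uC p (-x)) else 0
  have hz1 : ∀ p ∈ s, ∀ w : ℍ, w ∉ K → κ (uC p w) = 0 := by
    rintro _ ⟨p, hp, rfl⟩ w hw
    apply hκ.zero
    rw [Metric.mem_ball] at hp
    rw [Metric.mem_closedBall, not_le] at hw
    have := dist_triangle w p z0
    rw [dist_comm]; linarith
  have hg0 : ∀ p x, p ∈ s → x ∉ k → g p x = 0 := by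
    intro p x hp hx
    simp only [g]
    split_ifs with c
    · refine hz1 p hp ⟨-x, by simpa using c⟩ fun h => hx ⟨_, h, by simp⟩
    · rfl
  have hfi : Integrable (fun x : ℂ => f (ofComplex x)) μ := by
    rw [measurableEmbedding_coe.integrable_map_iff]
    refine Integrable.of_bound (C := M) ?_ (Eventually.of_forall fun w => hf.bd _)
    have : (fun x : ℂ => f (ofComplex x)) ∘ UpperHalfPlane.coe = f := by
      funext w; simp
    rw [this]
    exact hf.meas.aestronglyMeasurable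
  have hg : ContDiffOn ℝ (⊤ : ℕ∞) ↿g (s ×ˢ Set.univ) := by
    rintro ⟨p, x⟩ ⟨hp, -⟩
    apply ContDiffAt.contDiffWithinAt
    by_cases c : x.im < 0
    · have hp0 : 0 < p.im := by obtain ⟨q, -, rfl⟩ := hp; exact q.im_pos
      have e : ↿g =ᶠ[𝓝 (p, x)] fun q : ℂ × ℂ => κ (uC q.1 (-q.2)) := by
        have : ∀ᶠ q : ℂ × ℂ in 𝓝 (p, x), q.2.im < 0 :=
          (isOpen_lt (by fun_prop) continuous_const).mem_nhds c
        filter_upwards [this] with q hq
        exact if_pos hq
      refine ContDiffAt.congr_of_eventuallyEq ?_ e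
      refine hs.contDiffAt.comp (p, x) ?_
      have r : ContDiff ℝ (⊤ : ℕ∞) Complex.re := Complex.reCLM.contDiff
      have i : ContDiff ℝ (⊤ : ℕ∞) Complex.im := Complex.imCLM.contDiff
      simp only [uC, normSq_apply]
      refine ContDiffAt.div (by fun_prop) (by fun_prop) ?_
      simp only [neg_im]
      have : 0 < -x.im := by linarith
      positivity
    · have hx : x ∉ k := by
        rintro ⟨w, -, rfl⟩
        exact c (by simpa using w.im_pos)
      have e : ↿g =ᶠ[𝓝 (p, x)] fun _ => 0 := by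
        filter_upwards [(hso.prod hk.isClosed.isOpen_compl).mem_nhds (x := (p, x)) ⟨hp, hx⟩]
          with q hq
        exact hg0 _ _ hq.1 hq.2
      exact contDiffAt_const.congr_of_eventuallyEq e
  have main := contDiffOn_convolution_right_with_param (μ := μ) (ContinuousLinearMap.mul ℝ ℂ)
    hso hk hg0 hfi.locallyIntegrable hg
  have m2 : ContDiffAt ℝ (⊤ : ℕ∞) (fun p : ℂ =>
      ((fun x : ℂ => f (ofComplex x)) ⋆[ContinuousLinearMap.mul ℝ ℂ, μ] g p) 0) z :=
    (main.contDiffAt ((hso.prod isOpen_univ).mem_nhds (x := (z, 0)) ⟨hzs, trivial⟩)).comp z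
      (f := fun p : ℂ => (p, (0 : ℂ))) (by fun_prop)
  refine m2.congr_of_eventuallyEq ?_
  filter_upwards [hso.mem_nhds hzs] with p hp
  rw [convolution_def, measurableEmbedding_coe.integral_map, Phi,
    ← setIntegral_eq_integral_of_forall_compl_eq_zero (s := K)
      fun w hw => by rw [hz1 p hp w hw, zero_mul]]
  congr 1; funext w
  simp [g, w.im_pos, mul_comm]

theorem deriv_under {A A' : ℝ → ℍ → ℂ} {δ : ℝ} {K : Set ℍ} (hK : IsCompact K) (hf : Bd f M)
    (h1 : ∀ t ∈ Set.Ioo (-δ) δ, ∀ w, HasDerivAt (A · w) (A' t w) t)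
    (h2 : ∀ t ∈ Set.Ioo (-δ) δ, Continuous (A t))
    (h3 : ContinuousOn (fun p : ℝ × ℍ => A' p.1 p.2) (Set.Ioo (-δ) δ ×ˢ Set.univ))
    (h4 : ∀ t ∈ Set.Ioo (-δ) δ, ∀ w ∉ K, A t w = 0 ∧ A' t w = 0)
    {t0 : ℝ} (ht : t0 ∈ Set.Ioo (-δ) δ) :
    HasDerivAt (fun t => ∫ w, A t w * f w) (∫ w, A' t0 w * f w) t0 := by
  obtain ⟨ε, hε, hb⟩ := Metric.nhds_basis_closedBall.mem_iff.1 (isOpen_Ioo.mem_nhds ht)
  obtain ⟨C, hC⟩ := ((isCompact_closedBall t0 ε).prod hK).exists_bound_of_continuousOn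
    (h3.mono (Set.prod_mono hb (Set.subset_univ _)))
  have c3 : Continuous (A' t0) := by
    rw [← continuousOn_univ]
    exact h3.comp (f := fun w : ℍ => (t0, w)) (by fun_prop) fun w _ => ⟨ht, trivial⟩
  refine (hasDerivAt_integral_of_dominated_loc_of_deriv_le (F := fun t w => A t w * f w)
    (F' := fun t w => A' t w * f w) (bound := K.indicator fun _ => C * M)
    (Metric.closedBall_mem_nhds t0 hε) ?_ ?_
    (c3.aestronglyMeasurable.mul hf.meas.aestronglyMeasurable)
    (Eventually.of_forall fun w t h => ?_) ?_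
    (Eventually.of_forall fun w t h => (h1 t (hb h) w).mul_const _)).2
  · filter_upwards [isOpen_Ioo.mem_nhds ht] with t h
    exact (h2 t h).aestronglyMeasurable.mul hf.meas.aestronglyMeasurable
  · exact ((h2 t0 ht).integrable_of_hasCompactSupport
      (HasCompactSupport.intro hK fun w hw => (h4 t0 ht w hw).1)).mul_bdd
      hf.meas.aestronglyMeasurable (Eventually.of_forall hf.bd)
  · by_cases c : w ∈ K
    · rw [Set.indicator_of_mem c, norm_mul]
      have := hC (t, w) ⟨h, c⟩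
      exact mul_le_mul this (hf.bd w) (norm_nonneg _) ((norm_nonneg _).trans this)
    · simp [c, (h4 t (hb h) w c).2]
  · rw [integrable_indicator_iff hK.measurableSet]
    exact integrableOn_const hK.measure_lt_top.ne

theorem second {κ1 κ2 : ℝ → ℂ} (hκ : Ker κ R) (hκ1 : Ker κ1 R) (hκ2 : Ker κ2 R)
    (d1 : ∀ t, HasDerivAt κ (κ1 t) t) (d2 : ∀ t, HasDerivAt κ1 (κ2 t) t)
    {u u1 u2 : ℝ → ℍ → ℝ} {δ : ℝ} (hδ : 0 < δ) {K : Set ℍ} (hK : IsCompact K) (hf : Bd f M)
    (e1 : ∀ t ∈ Set.Ioo (-δ) δ, ∀ w, HasDerivAt (u · w) (u1 t w) t)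
    (e2 : ∀ t ∈ Set.Ioo (-δ) δ, ∀ w, HasDerivAt (u1 · w) (u2 t w) t)
    (c0 : ContinuousOn (fun p : ℝ × ℍ => u p.1 p.2) (Set.Ioo (-δ) δ ×ˢ Set.univ))
    (c1 : ContinuousOn (fun p : ℝ × ℍ => u1 p.1 p.2) (Set.Ioo (-δ) δ ×ˢ Set.univ))
    (c2 : ContinuousOn (fun p : ℝ × ℍ => u2 p.1 p.2) (Set.Ioo (-δ) δ ×ˢ Set.univ))
    (h4 : ∀ t ∈ Set.Ioo (-δ) δ, ∀ w ∉ K, R ≤ u t w) :
    Integrable (fun w => (κ2 (u 0 w) * u1 0 w ^ 2 + κ1 (u 0 w) * u2 0 w) * f w) ∧
    deriv (deriv fun t => ∫ w, κ (u t w) * f w) 0 =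
      ∫ w, (κ2 (u 0 w) * u1 0 w ^ 2 + κ1 (u 0 w) * u2 0 w) * f w := by
  have sl : ∀ {F : ℝ × ℍ → ℂ}, ContinuousOn F (Set.Ioo (-δ) δ ×ˢ Set.univ) →
      ∀ t ∈ Set.Ioo (-δ) δ, Continuous fun w => F (t, w) := by
    intro F hF t ht
    rw [← continuousOn_univ]
    exact hF.comp (f := fun w : ℍ => (t, w)) (by fun_prop) fun w _ => ⟨ht, trivial⟩
  have k0 := hκ.cont.comp_continuousOn c0
  have k1 : ContinuousOn (fun p : ℝ × ℍ => κ1 (u p.1 p.2) * (u1 p.1 p.2 : ℂ))
      (Set.Ioo (-δ) δ ×ˢ Set.univ) :=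
    (hκ1.cont.comp_continuousOn c0).mul (continuous_ofReal.comp_continuousOn c1)
  have k2 : ContinuousOn (fun p : ℝ × ℍ => κ2 (u p.1 p.2) * (u1 p.1 p.2 : ℂ) ^ 2 +
      κ1 (u p.1 p.2) * (u2 p.1 p.2 : ℂ)) (Set.Ioo (-δ) δ ×ˢ Set.univ) :=
    ((hκ2.cont.comp_continuousOn c0).mul ((continuous_ofReal.comp_continuousOn c1).pow 2)).add
      ((hκ1.cont.comp_continuousOn c0).mul (continuous_ofReal.comp_continuousOn c2))
  have h0 : (0 : ℝ) ∈ Set.Ioo (-δ) δ := ⟨by linarith, hδ⟩
  have D1 : ∀ t ∈ Set.Ioo (-δ) δ, HasDerivAt (fun t => ∫ w, κ (u t w) * f w)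
      (∫ w, (κ1 (u t w) * u1 t w) * f w) t := fun t ht =>
    deriv_under (A := fun t w => κ (u t w)) (A' := fun t w => κ1 (u t w) * u1 t w) hK hf
      (fun t ht w => by
        have := (d1 (u t w)).scomp t (e1 t ht w)
        rw [real_smul, mul_comm] at this
        exact this)
      (sl k0) k1 (fun t ht w hw => by simp [hκ.supp _ (h4 t ht w hw), hκ1.supp _ (h4 t ht w hw)]) ht
  have D2 := deriv_under (A := fun t w => κ1 (u t w) * u1 t w)
    (A' := fun t w => κ2 (u t w) * u1 t w ^ 2 + κ1 (u t w) * u2 t w) hK hf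
      (fun t ht w => by
        have a := (d2 (u t w)).scomp t (e1 t ht w)
        have b := (e2 t ht w).ofReal_comp
        convert! a.mul b using 1
        simp only [real_smul, Function.comp]
        ring)
      (sl k1) k2
      (fun t ht w hw => by simp [hκ2.supp _ (h4 t ht w hw), hκ1.supp _ (h4 t ht w hw)]) h0
  refine ⟨((sl k2 0 h0).integrable_of_hasCompactSupport
      (HasCompactSupport.intro hK fun w hw => by
        simp [hκ2.supp _ (h4 0 h0 w hw), hκ1.supp _ (h4 0 h0 w hw)])).mul_bdd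
      hf.meas.aestronglyMeasurable (Eventually.of_forall hf.bd), ?_⟩
  rw [← D2.deriv]
  apply Filter.EventuallyEq.deriv_eq
  filter_upwards [isOpen_Ioo.mem_nhds h0] with t ht
  exact (D1 t ht).deriv

theorem Ker.mono (hκ : Ker κ R) {R' : ℝ} (h : R ≤ R') : Ker κ R' :=
  ⟨hκ.cont, fun t ht => hκ.supp t (h.trans ht)⟩

theorem Ker.deriv (hκ : Ker κ R) (hs : Continuous (deriv κ)) : Ker (deriv κ) (R + 1) := by
  refine ⟨hs, fun t ht => ?_⟩
  have : κ =ᶠ[𝓝 t] fun _ => 0 := by
    filter_upwards [Ioi_mem_nhds (show R < t by linarith)] with x hx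
    exact hκ.supp x (le_of_lt hx)
  rw [this.deriv_eq]; simp

/-- the kernel of the Laplacian of the operator -/
noncomputable def kL (κ : ℝ → ℂ) (t : ℝ) : ℂ :=
  -((t ^ 2 + t) * deriv (deriv κ) t + (2 * t + 1) * deriv κ t)

theorem lap (hκ : Ker κ R) (hs : ContDiff ℝ (⊤ : ℕ∞) κ) :
    Ker (kL κ) (R + 2) ∧ ∀ (f : ℍ → ℂ) (M : ℝ), Bd f M → ∀ z : ℍ,
      -((z.im : ℂ)) ^ 2 * (deriv (deriv fun t : ℝ => Phi κ f (z + t)) 0 +
        deriv (deriv fun t : ℝ => Phi κ f (z + t * Complex.I)) 0) = Op (kL κ) f z := by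
  have s1 : ContDiff ℝ (⊤ : ℕ∞) (deriv κ) := (contDiff_infty_iff_deriv.1 hs).2
  have s2 : ContDiff ℝ (⊤ : ℕ∞) (deriv (deriv κ)) := (contDiff_infty_iff_deriv.1 s1).2
  have k0 : Ker κ (R + 2) := hκ.mono (by linarith)
  have k1 : Ker (deriv κ) (R + 2) := (hκ.deriv s1.continuous).mono (by linarith)
  have k2 : Ker (deriv (deriv κ)) (R + 2) :=
    ((hκ.deriv s1.continuous).deriv s2.continuous).mono (by linarith)
  have d1 : ∀ t, HasDerivAt κ (deriv κ t) t := fun t =>
    (hs.differentiable (by simp) t).hasDerivAt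
  have d2 : ∀ t, HasDerivAt (deriv κ) (deriv (deriv κ) t) t := fun t =>
    (s1.differentiable (by simp) t).hasDerivAt
  refine ⟨⟨?_, fun t ht => by simp [kL, k1.supp t ht, k2.supp t ht]⟩, fun f M hf z => ?_⟩
  · have a := s1.continuous
    have b := s2.continuous
    unfold kL
    fun_prop
  have hy := z.im_pos
  obtain ⟨δ0, hδ0, hb⟩ := Metric.isOpen_iff.1
    (isOpenEmbedding_coe.isOpenMap _ (Metric.isOpen_ball (x := z) (ε := 1))) z
    ⟨z, Metric.mem_ball_self one_pos, rfl⟩
  have far : ∀ v : ℂ, ‖v‖ < δ0 → ∀ w ∉ Metric.closedBall z (2 + 2 * (R + 2)),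
      R + 2 ≤ uC (z + v) w := by
    intro v hv w hw
    obtain ⟨p, hp, e⟩ := hb (show (z : ℂ) + v ∈ _ by simpa using hv)
    rw [← e]
    apply uC_ge
    rw [Metric.mem_ball] at hp
    rw [Metric.mem_closedBall, not_le] at hw
    have := dist_triangle w p z
    rw [dist_comm]; linarith
  set δ := min δ0 (z.im / 2) with hδ
  have δ0' : 0 < δ := by positivity
  have hl : ∀ t ∈ Set.Ioo (-δ) δ, |t| < δ0 ∧ 0 < z.im + t := fun t ht =>
    ⟨(abs_lt.2 ht).trans_le (min_le_left _ _), by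
      have := ht.1; have := min_le_right δ0 (z.im / 2); linarith⟩
  have wne : ∀ w : ℍ, w.im ≠ 0 := fun w => w.im_ne_zero
  have X := second k0 k1 k2 d1 d2 (u := fun t w => uC (z + t) w)
    (u1 := fun t w => (z.re + t - w.re) / (2 * z.im * w.im))
    (u2 := fun _ w => 1 / (2 * z.im * w.im)) δ0' (isCompact_closedBall z (2 + 2 * (R + 2))) hf
    (fun t _ w => by
      have : (fun t : ℝ => uC (z + t) w) = fun t =>
          ((z.re + t - w.re) ^ 2 + (z.im - w.im) ^ 2) / (4 * z.im * w.im) := by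
        funext t; simp [uC, normSq_apply]; ring
      rw [this]
      have := wne w
      convert! ((((hasDerivAt_id t).const_add z.re).sub_const w.re).pow 2).add_const
        ((z.im - w.im) ^ 2) |>.div_const (4 * z.im * w.im) using 1
      simp; field_simp; ring)
    (fun t _ w => by
      convert! (((hasDerivAt_id t).const_add z.re).sub_const w.re).div_const
        (2 * z.im * w.im) using 1)
    (by
      simp only [uC]
      refine ContinuousOn.div (by fun_prop) (by fun_prop) fun p _ => ?_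
      have := p.2.im_pos
      simp only [add_im, ofReal_im, add_zero, coe_im]
      positivity)
    (ContinuousOn.div (by fun_prop) (by fun_prop) fun p _ => by have := p.2.im_pos; positivity)
    (ContinuousOn.div (by fun_prop) (by fun_prop) fun p _ => by have := p.2.im_pos; positivity)
    (fun t ht w hw => far t (by simpa using (hl t ht).1) w hw)
  have Y := second k0 k1 k2 d1 d2 (u := fun t w => uC (z + t * Complex.I) w)
    (u1 := fun t w => 1 / (4 * w.im) -
      ((z.re - w.re) ^ 2 + w.im ^ 2) / (4 * w.im) / (z.im + t) ^ 2)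
    (u2 := fun t w => ((z.re - w.re) ^ 2 + w.im ^ 2) / (2 * w.im) / (z.im + t) ^ 3)
    δ0' (isCompact_closedBall z (2 + 2 * (R + 2))) hf
    (fun t ht w => by
      have : (fun t : ℝ => uC (z + t * Complex.I) w) = fun t =>
          ((z.re - w.re) ^ 2 + (z.im + t - w.im) ^ 2) / (4 * (z.im + t) * w.im) := by
        funext t; simp [uC, normSq_apply]; ring
      rw [this]
      have := wne w
      have h2 := (hl t ht).2.ne'
      convert! (((((hasDerivAt_id t).const_add z.im).sub_const w.im).pow 2).const_add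
        ((z.re - w.re) ^ 2)).div ((((hasDerivAt_id t).const_add z.im).const_mul 4).mul_const w.im)
        (by simp [this, h2]) using 1
      simp; field_simp; ring)
    (fun t ht w => by
      have := wne w
      have h2 := (hl t ht).2.ne'
      convert! ((hasDerivAt_const t (((z.re - w.re) ^ 2 + w.im ^ 2) / (4 * w.im))).div
        (((hasDerivAt_id t).const_add z.im).pow 2) (by simp [h2])).const_sub (1 / (4 * w.im))
        using 1
      simp; field_simp; ring)
    (by
      simp only [uC]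
      refine ContinuousOn.div (by fun_prop) (by fun_prop) fun p hp => ?_
      have := p.2.im_pos
      have h2 := (hl p.1 hp.1).2
      simp only [add_im, mul_im, ofReal_re, Complex.I_im, ofReal_im, Complex.I_re, mul_one, mul_zero, add_zero,
        coe_im]
      positivity)
    (ContinuousOn.sub (ContinuousOn.div (by fun_prop) (by fun_prop)
        fun p _ => by have := p.2.im_pos; positivity)
      (ContinuousOn.div (ContinuousOn.div (by fun_prop) (by fun_prop)
        fun p _ => by have := p.2.im_pos; positivity) (by fun_prop)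
        fun p hp => by have h2 := (hl p.1 hp.1).2; positivity))
    (ContinuousOn.div (ContinuousOn.div (by fun_prop) (by fun_prop)
        fun p _ => by have := p.2.im_pos; positivity) (by fun_prop)
        fun p hp => by have h2 := (hl p.1 hp.1).2; positivity)
    (fun t ht w hw => far (t * Complex.I) (by simpa using (hl t ht).1) w hw)
  unfold Phi
  rw [X.2, Y.2, ← integral_add X.1 Y.1, ← integral_const_mul, Op]
  congr 1; funext w
  simp only [ofReal_zero, zero_mul, add_zero, kL]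
  have e : uC z w = ((z.re - w.re) ^ 2 + (z.im - w.im) ^ 2) / (4 * z.im * w.im) := by
    simp [uC, normSq_apply]; ring
  generalize deriv (deriv κ) (uC z w) = a
  generalize deriv κ (uC z w) = b
  rw [e]
  have h1 : (w.im : ℂ) ≠ 0 := by exact_mod_cast wne w
  have h2 : (z.im : ℂ) ≠ 0 := by exact_mod_cast hy.ne'
  push_cast
  field_simp
  ring

end Pool.Agent.Lib.H23Maass
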