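import Mathlib
import Pool.Agent.Lib.helper23.MaassG
import Pool.Agent.Lib.helper23.MaassEig
import Pool.Agent.Lib.helper23.MaassSm

/-! Existence of an odd Hecke-Maass cusp form of level one. -/

namespace Pool.Agent.Lib.H23Maass

open UpperHalfPlane MeasureTheory Complex Filter Topology BoundedContinuousFunction
open scoped MatrixGroups ComplexConjugate

/-- extension to the plane -/
noncomputable def Uf (f : ℍ → ℂ) (z : ℂ) : ℂ := f (ofComplex z)

theorem Uf_coe (f : ℍ → ℂ) (z : ℍ) : Uf f z = f z := by simp [Uf]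

theorem invC_of {f : ℍ → ℂ} (h : Inv f) : InvC (Uf f) := by
  constructor
  · intro a b c d e z hz
    let γ : SL(2, ℤ) := ⟨!![a, b; c, d], by rw [Matrix.det_fin_two_of]; exact e⟩
    have h1 := h.all γ ⟨z, hz⟩
    rw [← Uf_coe f (γ • _), ← Uf_coe f ⟨z, hz⟩, coe_specialLinearGroup_apply] at h1
    simpa [γ] using h1
  · intro z hz
    have h1 := h.hJ ⟨z, hz⟩
    rw [← Uf_coe f (J • _), ← Uf_coe f ⟨z, hz⟩, coe_J_smul] at h1
    exact h1

theorem per_of {f : ℍ → ℂ} (hc : Continuous f) (h : Inv f) : Per (Uf f) := by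
  refine ⟨?_, fun z hz => by simpa using (invC_of h).tr 1 hz⟩
  intro z hz
  refine (hc.continuousAt.comp ?_).continuousWithinAt
  exact (contMDiffAt_ofComplex (n := 0) hz).continuousAt

theorem exists_aff {a : ℝ} (ha : 0 < a) (b : ℝ) :
    ∃ g : GL (Fin 2) ℝ, ∀ z : ℍ, ofComplex (a * z + b) = g • z := by
  have hpos : 0 < (!![a, b; 0, 1] : Matrix (Fin 2) (Fin 2) ℝ).det := by
    rw [Matrix.det_fin_two_of]; simpa using ha
  let g : GL (Fin 2) ℝ := .mkOfDetNeZero !![a, b; 0, 1] hpos.ne'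
  have hg : 0 < g.det.val := hpos
  refine ⟨g, fun z => ?_⟩
  rw [← ofComplex_apply (g • z), coe_smul_of_det_pos hg]
  congr 1
  simp [g, num, denom]

theorem hk_form {p : ℕ} (h0 : 0 < p) : ∃ (g0 : GL (Fin 2) ℝ) (g : ℕ → GL (Fin 2) ℝ),
    ∀ (f : ℍ → ℂ) (z : ℍ), Hk p (Uf f) z = f (g0 • z) + ∑ b ∈ Finset.range p, f (g b • z) := by
  obtain ⟨g0, h1⟩ := exists_aff (a := p) (by positivity) 0
  choose g h2 using fun b : ℕ => exists_aff (a := 1 / p) (by positivity) (b / p)
  refine ⟨g0, g, fun f z => ?_⟩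
  simp only [← h1, ← h2, Hk, Uf]
  congr 1
  · simp
  · refine Finset.sum_congr rfl fun b _ => ?_
    congr 2; push_cast; ring

theorem hk_bd {p : ℕ} (h0 : 0 < p) (f : ℍ →ᵇ ℂ) (z : ℍ) :
    ‖Hk p (Uf f) z‖ ≤ (1 + p) * ‖f‖ := by
  obtain ⟨g0, g, h⟩ := hk_form h0
  rw [h, add_mul, one_mul]
  refine (norm_add_le _ _).trans (add_le_add (f.norm_coe_le_norm _) ?_)
  refine (norm_sum_le _ _).trans ?_
  simpa using Finset.sum_le_card_nsmul (Finset.range p) (fun b => ‖f (g b • z)‖) ‖f‖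
    fun b _ => f.norm_coe_le_norm _

theorem hk_cont {p : ℕ} (h0 : 0 < p) (f : ℍ →ᵇ ℂ) : Continuous fun z : ℍ => Hk p (Uf f) z := by
  obtain ⟨g0, g, h⟩ := hk_form h0
  simp only [h]
  exact (f.continuous.comp (continuous_const_smul _)).add
    (continuous_finsetSum _ fun b _ => f.continuous.comp (continuous_const_smul _))

/-- Hecke operators on `BB` -/
noncomputable def HB (p : Nat.Primes) : Module.End ℂ BB where
  toFun f := ⟨ofNormedAddCommGroup (fun z : ℍ => Hk p (Uf f.1) z) (hk_cont p.2.pos f.1)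
    ((1 + p) * ‖f.1‖) (hk_bd p.2.pos f.1),
    ⟨fun z => by
      change Hk p (Uf f.1) (ModularGroup.T • z : ℍ) = Hk p (Uf f.1) z
      rw [coe_T]
      exact ((per_of f.1.continuous f.2).hk p.2.pos).per _ z.im_pos,
    fun z => by
      change Hk p (Uf f.1) (ModularGroup.S • z : ℍ) = Hk p (Uf f.1) z
      rw [coe_S]
      exact hk_S (invC_of f.2) p.2 z.im_pos,
    fun z => by
      change Hk p (Uf f.1) (J • z : ℍ) = -Hk p (Uf f.1) z
      rw [coe_J_smul]
      exact hk_J (invC_of f.2) p.2 z.im_pos⟩⟩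
  map_add' f g := by
    ext z
    change Hk p (Uf (f.1 + g.1)) z = Hk p (Uf f.1) z + Hk p (Uf g.1) z
    simp only [Hk, Uf, Pi.add_apply, Finset.sum_add_distrib]
    ring
  map_smul' c f := by
    ext z
    change Hk p (Uf (c • f.1)) z = c * Hk p (Uf f.1) z
    simp only [Hk, Uf, Pi.smul_apply, smul_eq_mul, mul_add, Finset.mul_sum]

theorem HB_apply (p : Nat.Primes) (f : BB) (z : ℍ) : (HB p f).1 z = Hk p (Uf f.1) z := rfl

theorem hk_congr {U V : ℂ → ℂ} (h : ∀ z, 0 < z.im → U z = V z) {p : ℕ} (h0 : 0 < p) {z : ℂ}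
    (hz : 0 < z.im) : Hk p U z = Hk p V z := by
  unfold Hk
  rw [h _ (by simp; positivity)]
  congr 1
  exact Finset.sum_congr rfl fun b _ => h _ (by simpa using im_div h0 hz b)

theorem Uf_HB (p : Nat.Primes) (f : BB) {z : ℂ} (hz : 0 < z.im) :
    Uf (HB p f).1 z = Hk p (Uf f.1) z := by
  rw [Uf, HB_apply, ofComplex_apply_of_im_pos hz]

theorem HB_comm (p q : Nat.Primes) (f : BB) : HB p (HB q f) = HB q (HB p f) := by
  ext z
  rw [HB_apply, HB_apply, hk_congr (fun w hw => Uf_HB q f hw) p.2.pos z.im_pos,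
    hk_congr (fun w hw => Uf_HB p f hw) q.2.pos z.im_pos]
  exact hk_comm (per_of f.1.continuous f.2) p.2 q.2 z.im_pos

theorem HB_TB {κ : ℝ → ℂ} {R : ℝ} (hκ : Ker κ R) (p : Nat.Primes) (f : BB) :
    HB p (TB hκ f) = TB hκ (HB p f) := by
  ext z
  obtain ⟨g0, g, h⟩ := hk_form p.2.pos
  have i : ∀ g : GL (Fin 2) ℝ, Integrable fun w : ℍ => κ (uC z w) * f.1 (g • w) := fun g =>
    hκ.integrable_mul (f := fun w => f.1 (g • w)) (M := ‖f.1‖)
      ⟨(f.1.continuous.comp (continuous_const_smul _)).stronglyMeasurable,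
        fun w => f.1.norm_coe_le_norm _⟩ z
  rw [HB_apply, h, TB_apply hκ (HB p f)]
  simp only [TB_apply, ← Op_smul]
  simp only [Op, HB_apply, h, mul_add, Finset.mul_sum]
  rw [integral_add (i _) (integrable_finsetSum _ fun b _ => i _),
    integral_finsetSum _ fun b _ => i _]

theorem TB_comm {κ κ' : ℝ → ℂ} {R R' : ℝ} (hκ : Ker κ R) (hκ' : Ker κ' R') (f : BB) :
    TB hκ (TB hκ' f) = TB hκ' (TB hκ f) := by
  ext z
  exact Op_comm hκ hκ' (bd_of f.1) z

theorem exists_HM : ∃ U μ t M, HM U μ t M := by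
  classical
  obtain ⟨κ, R, hκ, hs, m, m0, hm⟩ := exists_ker
  obtain ⟨hL, lp⟩ := lap hκ hs
  haveI := eig_fd hκ m0
  let A : Option Nat.Primes → Module.End ℂ BB := fun i =>
    match i with
    | none => (TB hL : Module.End ℂ BB)
    | some p => HB p
  obtain ⟨f, hf, f0, hA⟩ := common_eig A
    (fun i j x => by
      rcases i with _ | p <;> rcases j with _ | q
      · rfl
      · exact (HB_TB hL q x).symm
      · exact HB_TB hL p x
      · exact HB_comm p q x)
    (Module.End.eigenspace (TB hκ : Module.End ℂ BB) m) hm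
    (fun i x hx => by
      have e : TB hκ x = m • x := Module.End.mem_eigenspace_iff.1 hx
      apply Module.End.mem_eigenspace_iff.2
      rcases i with _ | p
      · change TB hκ (TB hL x) = m • TB hL x
        rw [TB_comm, e, map_smul]
      · change TB hκ (HB p x) = m • HB p x
        rw [← HB_TB, e, map_smul])
  have e : TB hκ f = m • f := Module.End.mem_eigenspace_iff.1 hf
  have e1 : ∀ z : ℂ, 0 < z.im → Phi κ f.1 z = m * Uf f.1 z := fun z hz => by
    have := congrArg (fun g : BB => g.1 ⟨z, hz⟩) e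
    rw [Uf, ofComplex_apply_of_im_pos hz]
    exact this
  have hP := per_of f.1.continuous f.2
  have hsm : Sm (Uf f.1) := ⟨(contDiffOn_const.mul (Phi_smooth hκ hs (bd_of f.1))).congr
    (f₁ := Uf f.1) (f := fun z => m⁻¹ * Phi κ f.1 z) fun z hz => by
      rw [e1 z hz, inv_mul_cancel_left₀ m0], hP.per⟩
  choose c hc using hA
  refine ⟨Uf f.1, c none / m, fun p => if h : p.Prime then c (some ⟨p, h⟩) else 0, ‖f.1‖, hsm,
    invC_of f.2, fun z hz => ?_, fun z _ => f.1.norm_coe_le_norm _, ?_, fun p hp z hz => ?_⟩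
  · have a := lp f.1 _ (bd_of f.1) ⟨z, hz⟩
    have b : Op (kL κ) f.1 ⟨z, hz⟩ = c none * Uf f.1 z := by
      have := congrArg (fun g : BB => g.1 ⟨z, hz⟩) (hc none)
      rw [Uf, ofComplex_apply_of_im_pos hz]
      exact this
    have d : ∀ v : ℂ, deriv (deriv fun t : ℝ => Phi κ f.1 (z + t * v)) 0 =
        m * deriv (deriv fun t : ℝ => Uf f.1 (z + t * v)) 0 := by
      intro v
      rw [← deriv_const_mul_field, ← deriv_const_mul_field']
      apply Filter.EventuallyEq.deriv_eq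
      apply Filter.EventuallyEq.deriv
      have c : Continuous fun t : ℝ => z + t * v := by fun_prop
      filter_upwards [(hopen.preimage c).mem_nhds (show (0 : ℝ) ∈ _ by simpa using hz)] with t ht
      exact e1 _ ht
    have d1 := d 1
    simp only [mul_one] at d1
    rw [b] at a
    change -((z.im : ℂ)) ^ 2 * (deriv (deriv fun t : ℝ => Phi κ f.1 (z + t)) 0 +
      deriv (deriv fun t : ℝ => Phi κ f.1 (z + t * Complex.I)) 0) = _ at a
    rw [d1, d] at a
    field_simp
    linear_combination a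
  · by_contra h
    push Not at h
    apply f0
    ext z
    simpa [Uf_coe] using h z z.im_pos
  · have := congrArg (fun g : BB => g.1 ⟨z, hz⟩) (hc (some ⟨p, hp⟩))
    rw [dif_pos hp, Uf, ofComplex_apply_of_im_pos hz]
    exact this

end Pool.Agent.Lib.H23Maass
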