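import Mathlib

/-! The Bessel function `K`, its differential equation and Mellin transform. -/

namespace Pool.Agent.Lib.H23Maass

open MeasureTheory Complex Filter Topology

noncomputable def EK (ν : ℂ) (x τ : ℝ) : ℂ := cexp (-(x * Real.cosh τ : ℝ) + ν * τ)

noncomputable def KB (ν : ℂ) (x : ℝ) : ℂ := ∫ τ, EK ν x τ

theorem norm_EK (ν : ℂ) (x τ : ℝ) : ‖EK ν x τ‖ = Real.exp (-(x * Real.cosh τ) + ν.re * τ) := by
  rw [EK, Complex.norm_exp]
  simp only [add_re, neg_re, ofReal_re, mul_re, ofReal_im, mul_zero, sub_zero]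

theorem cosh_ge (τ : ℝ) : 1 + τ ^ 2 / 4 ≤ Real.cosh τ := by
  have h := Real.quadratic_le_exp_of_nonneg (abs_nonneg τ)
  have h2 := Real.exp_pos (-|τ|)
  have h3 := Real.add_one_le_exp (-|τ|)
  rw [← Real.cosh_abs, Real.cosh_eq, ← sq_abs]
  nlinarith

theorem EK_cont (ν : ℂ) (x : ℝ) : Continuous (EK ν x) := by unfold EK; fun_prop

theorem EK_int (ν : ℂ) {x : ℝ} (hx : 0 < x) : Integrable (EK ν x) := by
  have h := (integrable_cexp_quadratic (b := ((x / 4 : ℝ) : ℂ)) (by simpa using hx)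
    (ν.re : ℂ) 0).norm
  refine h.mono' (EK_cont ν x).aestronglyMeasurable (Eventually.of_forall fun τ => ?_)
  rw [norm_EK, Complex.norm_exp]
  apply Real.exp_le_exp.2
  have : (-((x / 4 : ℝ) : ℂ) * (τ : ℂ) ^ 2 + (ν.re : ℂ) * τ + 0) =
      ((-(x / 4) * τ ^ 2 + ν.re * τ : ℝ) : ℂ) := by push_cast; ring
  rw [this, ofReal_re]
  nlinarith [cosh_ge τ]

theorem EK_shift (ν : ℂ) (x τ : ℝ) : EK (ν + 1) x τ = EK ν x τ * cexp τ ∧
    EK (ν - 1) x τ = EK ν x τ * cexp (-τ) := by
  unfold EK
  rw [← Complex.exp_add, ← Complex.exp_add]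
  constructor <;> congr 1 <;> ring

theorem KB_deriv (ν : ℂ) {x : ℝ} (hx : 0 < x) :
    HasDerivAt (KB ν) (-(KB (ν + 1) x + KB (ν - 1) x) / 2) x := by
  have h := (hasDerivAt_integral_of_dominated_loc_of_deriv_le (μ := volume) (F := EK ν)
    (F' := fun x τ => -(EK (ν + 1) x τ + EK (ν - 1) x τ) / 2)
    (bound := fun τ => (‖EK (ν + 1) (x / 2) τ‖ + ‖EK (ν - 1) (x / 2) τ‖) / 2)
    (Ioi_mem_nhds (show x / 2 < x by linarith))
    (Eventually.of_forall fun y => (EK_cont ν y).aestronglyMeasurable) (EK_int ν hx)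
    (((EK_cont _ x).add (EK_cont _ x)).neg.div_const 2).aestronglyMeasurable
    (Eventually.of_forall fun τ y hy => ?_)
    (((EK_int _ (half_pos hx)).norm.add (EK_int _ (half_pos hx)).norm).div_const 2)
    (Eventually.of_forall fun τ y _ => ?_)).2
  · convert! h using 1
    rw [integral_div, integral_neg, integral_add (EK_int _ hx) (EK_int _ hx)]
    rfl
  · have m : ∀ ν : ℂ, ‖EK ν y τ‖ ≤ ‖EK ν (x / 2) τ‖ := fun ν => by
      rw [norm_EK, norm_EK]
      apply Real.exp_le_exp.2
      have : x / 2 < y := hy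
      nlinarith [Real.cosh_pos τ]
    rw [norm_div, norm_neg, Complex.norm_ofNat]
    have := norm_add_le (EK (ν + 1) y τ) (EK (ν - 1) y τ)
    linarith [m (ν + 1), m (ν - 1)]
  · have a : HasDerivAt (fun y : ℝ => (-(y * Real.cosh τ : ℝ) + ν * τ : ℂ))
        (-(Real.cosh τ : ℝ)) y := by
      have := ((hasDerivAt_id y).mul_const (Real.cosh τ)).ofReal_comp.neg.add_const (ν * τ)
      simpa using this
    convert! a.cexp using 1
    rw [(EK_shift ν y τ).1, (EK_shift ν y τ).2, ofReal_cosh, Complex.cosh]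
    unfold EK
    rw [ofReal_mul, ofReal_cosh, Complex.cosh]
    ring

theorem KB_rec (ν : ℂ) {x : ℝ} (hx : 0 < x) :
    ν * KB ν x = x * (KB (ν + 1) x - KB (ν - 1) x) / 2 := by
  have h := integral_eq_zero_of_hasDerivAt_of_integrable (f := EK ν x)
    (f' := fun τ => ν * EK ν x τ - x * (EK (ν + 1) x τ - EK (ν - 1) x τ) / 2) (fun τ => ?_)
    (((EK_int ν hx).const_mul ν).sub ((((EK_int _ hx).sub (EK_int _ hx)).const_mul _).div_const 2))
    (EK_int ν hx)
  · have i2 : Integrable fun τ => x * (EK (ν + 1) x τ - EK (ν - 1) x τ) / 2 :=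
      (((EK_int _ hx).sub (EK_int _ hx)).const_mul _).div_const 2
    rw [integral_sub ((EK_int ν hx).const_mul ν) i2, integral_const_mul,
      integral_div, integral_const_mul, integral_sub (EK_int _ hx) (EK_int _ hx), sub_eq_zero] at h
    exact h
  · have a : HasDerivAt (fun τ : ℝ => (-(x * Real.cosh τ : ℝ) + ν * τ : ℂ))
        (-(x * Real.sinh τ : ℝ) + ν) τ := by
      have := ((Real.hasDerivAt_cosh τ).const_mul x).ofReal_comp.neg.add
        ((hasDerivAt_id τ).ofReal_comp.const_mul ν)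
      convert! this using 1
      simp
    convert! a.cexp using 1
    rw [(EK_shift ν x τ).1, (EK_shift ν x τ).2, ofReal_mul x (Real.sinh τ), ofReal_sinh,
      Complex.sinh]
    unfold EK
    ring

theorem KB_bound (ν : ℂ) {x0 : ℝ} (h0 : 0 < x0) :
    ∃ C, ∀ x, x0 ≤ x → ‖KB ν x‖ ≤ C * Real.exp (-x) := by
  refine ⟨(∫ τ, ‖EK ν x0 τ‖) * Real.exp x0, fun x hx => ?_⟩
  rw [← integral_mul_const, ← integral_mul_const]
  refine norm_integral_le_of_norm_le (((EK_int ν h0).norm.mul_const _).mul_const _)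
    (Eventually.of_forall fun τ => ?_)
  rw [norm_EK, norm_EK, ← Real.exp_add, ← Real.exp_add]
  apply Real.exp_le_exp.2
  nlinarith [Real.one_le_cosh τ]

noncomputable def gG (a : ℂ) (r : ℝ) : ℂ := cexp (-(Real.exp r : ℝ) + a * r)

theorem exp_image : Real.exp '' Set.univ = Set.Ioi 0 := by
  rw [Set.image_univ, Real.range_exp]

theorem exp_cpow (r : ℝ) (w : ℂ) : ((Real.exp r : ℝ) : ℂ) ^ w = cexp (r * w) := by
  rw [cpow_def_of_ne_zero (by exact_mod_cast (Real.exp_pos r).ne'),
    ← ofReal_log (Real.exp_pos r).le, Real.log_exp]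

theorem gG_eq (a : ℂ) (r : ℝ) : gG a r =
    |Real.exp r| • ((Real.exp (-Real.exp r) : ℝ) * (Real.exp r : ℂ) ^ (a - 1)) := by
  rw [abs_of_pos (Real.exp_pos r), real_smul, exp_cpow, ofReal_exp (-Real.exp r)]
  conv_rhs => rw [ofReal_exp r]
  rw [← Complex.exp_add, ← Complex.exp_add, gG]
  congr 1
  push_cast
  ring

theorem gG_int {a : ℂ} (ha : 0 < a.re) : Integrable (gG a) := by
  have h := Complex.GammaIntegral_convergent ha
  rw [← exp_image, integrableOn_image_iff_integrableOn_abs_deriv_smul MeasurableSet.univ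
    (fun x _ => (Real.hasDerivAt_exp x).hasDerivWithinAt) Real.exp_injective.injOn,
    integrableOn_univ] at h
  exact h.congr (Eventually.of_forall fun r => (gG_eq a r).symm)

theorem gG_integral {a : ℂ} (ha : 0 < a.re) : ∫ r, gG a r = Gamma a := by
  rw [Complex.Gamma_eq_integral ha, GammaIntegral, ← exp_image,
    integral_image_eq_integral_abs_deriv_smul MeasurableSet.univ
    (fun x _ => (Real.hasDerivAt_exp x).hasDerivWithinAt) Real.exp_injective.injOn,
    Measure.restrict_univ]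
  simp only [gG_eq]

theorem gG_cont (a : ℂ) : Continuous (gG a) := by unfold gG; fun_prop

theorem int_two {E : Type} [NormedAddCommGroup E] [NormedSpace ℝ E] (g : ℝ → E) (r : ℝ) :
    ∫ σ, g (2 * σ - r) = (1 / 2 : ℝ) • ∫ σ, g σ := by
  have := Measure.integral_comp_mul_left (fun x => g (x - r)) 2
  rw [integral_sub_right_eq_self g r] at this
  rw [this]; norm_num

theorem KB_mellin (ν s : ℂ) (ha : 0 < ((s + ν) / 2).re) (hb : 0 < ((s - ν) / 2).re) :
    mellin (KB ν) s = 2 ^ s / 2 * (Gamma ((s + ν) / 2) * Gamma ((s - ν) / 2)) := by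
  have im : (fun σ : ℝ => 2 * Real.exp σ) '' Set.univ = Set.Ioi 0 := by
    ext x
    simp only [Set.image_univ, Set.mem_range, Set.mem_Ioi]
    constructor
    · rintro ⟨σ, rfl⟩; positivity
    · intro hx; exact ⟨Real.log (x / 2), by rw [Real.exp_log (by positivity)]; ring⟩
  rw [mellin, ← im, integral_image_eq_integral_abs_deriv_smul MeasurableSet.univ
    (fun x _ => ((Real.hasDerivAt_exp x).const_mul 2).hasDerivWithinAt)
    (fun x _ y _ h => Real.exp_injective (by linarith)), Measure.restrict_univ]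
  have e : ∀ σ : ℝ, |2 * Real.exp σ| • (((2 * Real.exp σ : ℝ) : ℂ) ^ (s - 1) •
      KB ν (2 * Real.exp σ)) =
      2 ^ s * ∫ r, gG ((s + ν) / 2) (2 * σ - r) * gG ((s - ν) / 2) r := by
    intro σ
    have e1 : |2 * Real.exp σ| • (((2 * Real.exp σ : ℝ) : ℂ) ^ (s - 1) • KB ν (2 * Real.exp σ)) =
        2 ^ s * (cexp (σ * s) * KB ν (2 * Real.exp σ)) := by
      rw [abs_of_pos (by positivity), real_smul, smul_eq_mul, ← mul_assoc, ← mul_assoc]
      congr 1
      have h0 : ((2 * Real.exp σ : ℝ) : ℂ) ≠ 0 := by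
        exact_mod_cast (by positivity : 2 * Real.exp σ ≠ 0)
      rw [cpow_sub _ _ h0, cpow_one, mul_div_cancel₀ _ h0, ofReal_mul,
        mul_cpow_ofReal_nonneg zero_le_two (Real.exp_pos σ).le, exp_cpow]
      rfl
    rw [e1, KB, ← integral_sub_left_eq_self (EK ν (2 * Real.exp σ)) volume σ,
      ← integral_const_mul]
    congr 2
    funext r
    unfold gG EK
    rw [← Complex.exp_add, ← Complex.exp_add]
    congr 1
    have : 2 * Real.exp σ * Real.cosh (σ - r) = Real.exp (2 * σ - r) + Real.exp r := by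
      rw [Real.cosh_eq, show 2 * σ - r = σ + (σ - r) by ring, Real.exp_add]
      conv_rhs => rw [show r = σ + -(σ - r) by ring, Real.exp_add]
      ring_nf
    rw [this]
    simp only [ofReal_add, ofReal_sub, ofReal_mul, ofReal_ofNat]
    ring
  simp only [e]
  rw [integral_const_mul, integral_integral_swap]
  · simp only [integral_mul_const, int_two, gG_integral ha, integral_const_mul, gG_integral hb]
    simp; ring
  · have c : Continuous (Function.uncurry fun σ r : ℝ =>
        gG ((s + ν) / 2) (2 * σ - r) * gG ((s - ν) / 2) r) := by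
      have := gG_cont ((s + ν) / 2)
      have := gG_cont ((s - ν) / 2)
      fun_prop
    rw [integrable_prod_iff' c.aestronglyMeasurable]
    refine ⟨Eventually.of_forall fun r => ?_, ?_⟩
    · exact (((gG_int ha).comp_sub_right r).comp_mul_left' two_ne_zero).mul_const
        (gG ((s - ν) / 2) r)
    · simp only [Function.uncurry, norm_mul, integral_mul_const]
      simp only [int_two fun x => ‖gG ((s + ν) / 2) x‖]
      exact (gG_int hb).norm.const_mul _

theorem ode_zero (q : ℝ → ℂ) (hq : ContinuousOn q (Set.Ioi 0)) (v v1 : ℝ → ℂ)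
    (h1 : ∀ y, 0 < y → HasDerivAt v (v1 y) y) (h2 : ∀ y, 0 < y → HasDerivAt v1 (q y * v y) y)
    {y0 : ℝ} (hy0 : 0 < y0) (e0 : v y0 = 0) (e1 : v1 y0 = 0) {y : ℝ} (hy : 0 < y) : v y = 0 := by
  have ha : 0 < min y y0 / 2 := by positivity
  obtain ⟨C, hC⟩ := (isCompact_Icc (a := min y y0 / 2) (b := max y y0 + 1)).exists_bound_of_continuousOn
    (hq.mono fun t ht => lt_of_lt_of_le ha ht.1)
  have m1 := min_le_left y y0
  have m2 := min_le_right y y0
  have m3 := le_max_left y y0
  have m4 := le_max_right y y0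
  have := ODE_solution_unique_of_mem_Ioo (v := fun t (p : ℂ × ℂ) => (p.2, q t * p.1))
    (s := fun _ => Set.univ) (K := Real.toNNReal (max 1 C)) (a := min y y0 / 2)
    (b := max y y0 + 1) (f := fun t => (v t, v1 t)) (g := fun _ => 0) (t₀ := y0)
    (fun t ht => by
      refine LipschitzWith.lipschitzOnWith (LipschitzWith.of_dist_le' fun p p' => ?_)
      rw [Prod.dist_eq, Prod.dist_eq, max_le_iff]
      have hC' := hC t (Set.Ioo_subset_Icc_self ht)
      constructor
      · exact (le_max_right _ _).trans (le_mul_of_one_le_left (by positivity) (le_max_left _ _))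
      · simp only [dist_eq_norm, ← mul_sub, norm_mul]
        exact mul_le_mul (hC'.trans (le_max_right _ _)) (le_max_left _ _) (norm_nonneg _)
          (by positivity))
    ⟨by linarith, by linarith⟩
    (fun t ht => ⟨(h1 t (ha.trans ht.1)).prodMk (h2 t (ha.trans ht.1)), trivial⟩)
    (fun t _ => ⟨by
      convert! hasDerivAt_const t (0 : ℂ × ℂ) using 1
      simp, trivial⟩)
    (by simp [e0, e1])
  exact congrArg Prod.fst (this (x := y) ⟨by linarith, by linarith⟩)

theorem KB_ne (ν : ℂ) : ∃ x, 0 < x ∧ KB ν x ≠ 0 := by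
  by_contra h
  push Not at h
  have a1 : 0 < ((((‖ν‖ + 1 : ℝ) : ℂ) + ν) / 2).re := by
    have := abs_le.1 (abs_re_le_norm ν)
    simp; linarith
  have a2 : 0 < ((((‖ν‖ + 1 : ℝ) : ℂ) - ν) / 2).re := by
    have := abs_le.1 (abs_re_le_norm ν)
    simp; linarith
  have := KB_mellin ν _ a1 a2
  rw [mellin, setIntegral_congr_fun (g := fun _ => 0) measurableSet_Ioi
    fun x hx => by simp [h x hx]] at this
  simp only [integral_zero] at this
  refine absurd this.symm (mul_ne_zero (div_ne_zero ?_ two_ne_zero)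
    (mul_ne_zero (Gamma_ne_zero_of_re_pos a1) (Gamma_ne_zero_of_re_pos a2)))
  simp

theorem whittaker (ν : ℂ) (W W1 : ℝ → ℂ) (M : ℝ)
    (h1 : ∀ y, 0 < y → HasDerivAt W (W1 y) y)
    (h2 : ∀ y, 0 < y →
      HasDerivAt W1 ((4 * Real.pi ^ 2 - (1 / 4 - ν ^ 2) / y ^ 2) * W y) y)
    (hb : ∀ y, 0 < y → ‖W y‖ ≤ M) :
    ∃ c : ℂ, ∀ y, 0 < y → W y = c * ((√y : ℝ) * KB ν (2 * Real.pi * y)) := by
  let q : ℝ → ℂ := fun y => 4 * Real.pi ^ 2 - (1 / 4 - ν ^ 2) / y ^ 2
  let V : ℝ → ℂ := fun y => (√y : ℝ) * KB ν (2 * Real.pi * y)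
  let V1 : ℝ → ℂ := fun y => KB ν (2 * Real.pi * y) / (2 * (√y : ℝ)) -
    Real.pi * (√y : ℝ) * (KB (ν + 1) (2 * Real.pi * y) + KB (ν - 1) (2 * Real.pi * y))
  have pi0 := Real.pi_pos
  have dK : ∀ (ν : ℂ) y, 0 < y → HasDerivAt (fun y => KB ν (2 * Real.pi * y))
      (-Real.pi * (KB (ν + 1) (2 * Real.pi * y) + KB (ν - 1) (2 * Real.pi * y))) y := by
    intro ν y hy
    have := (KB_deriv ν (show 0 < 2 * Real.pi * y by positivity)).scomp y
      ((hasDerivAt_id y).const_mul (2 * Real.pi))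
    convert! this using 1
    rw [real_smul]; push_cast; ring
  have dS : ∀ y, 0 < y → HasDerivAt (fun y : ℝ => ((√y : ℝ) : ℂ)) (1 / (2 * (√y : ℝ))) y := by
    intro y hy
    have := (Real.hasDerivAt_sqrt hy.ne').ofReal_comp
    convert! this using 1
    push_cast; rfl
  have s0 : ∀ y, 0 < y → ((√y : ℝ) : ℂ) ≠ 0 := fun y hy => by
    exact_mod_cast (Real.sqrt_pos.2 hy).ne'
  have dV : ∀ y, 0 < y → HasDerivAt V (V1 y) y := by
    intro y hy
    convert! (dS y hy).mul (dK ν y hy) using 1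
    simp only [V1]; ring
  have dV1 : ∀ y, 0 < y → HasDerivAt V1 (q y * V y) y := by
    intro y hy
    have hx : 0 < 2 * Real.pi * y := by positivity
    have r0 := KB_rec ν hx
    have r1 := KB_rec (ν + 1) hx
    have r2 := KB_rec (ν - 1) hx
    have := ((dK ν y hy).div ((dS y hy).const_mul 2) (mul_ne_zero two_ne_zero (s0 y hy))).sub
      (((dS y hy).const_mul (Real.pi : ℂ)).mul ((dK (ν + 1) y hy).add (dK (ν - 1) y hy)))
    convert! this using 1
    simp only [q, V, add_sub_cancel_right, sub_add_cancel, Pi.add_apply] at r1 r2 ⊢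
    have hs := s0 y hy
    have hq : (y : ℂ) = ((√y : ℝ) : ℂ) ^ 2 := by
      rw [← ofReal_pow, Real.sq_sqrt hy.le]
    push_cast at r0 r1 r2
    generalize KB ν (2 * Real.pi * y) = k0 at *
    generalize KB (ν + 1) (2 * Real.pi * y) = k1 at *
    generalize KB (ν - 1) (2 * Real.pi * y) = k2 at *
    generalize KB (ν + 1 + 1) (2 * Real.pi * y) = k3 at *
    generalize KB (ν - 1 - 1) (2 * Real.pi * y) = k4 at *
    rw [hq] at r0 r1 r2 ⊢
    generalize ((√y : ℝ) : ℂ) = s at *
    field_simp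
    linear_combination (16 * ν) * r0 + (16 * Real.pi * s ^ 2) * r1 - (16 * Real.pi * s ^ 2) * r2
  have hq : ContinuousOn q (Set.Ioi 0) := by
    refine continuousOn_const.sub (continuousOn_const.div (by fun_prop) fun y hy => ?_)
    exact pow_ne_zero 2 (ofReal_ne_zero.2 (ne_of_gt hy))
  have dWr : ∀ y, 0 < y → HasDerivAt (fun y => W y * V1 y - W1 y * V y) 0 y := by
    intro y hy
    convert! ((h1 y hy).mul (dV1 y hy)).sub ((h2 y hy).mul (dV y hy)) using 1
    simp only [q]; ring
  have cst : ∀ y, 0 < y → ∀ y', 0 < y' → W y * V1 y - W1 y * V y = W y' * V1 y' - W1 y' * V y' :=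
    fun y hy y' hy' => isOpen_Ioi.is_const_of_deriv_eq_zero (isPreconnected_Ioi (a := (0 : ℝ)))
      (fun y hy => (dWr y hy).differentiableAt.differentiableWithinAt)
      (fun y hy => (dWr y hy).deriv) hy hy'
  have M0 : 0 ≤ M := (norm_nonneg _).trans (hb 1 one_pos)
  set Q : ℝ := (4 * Real.pi ^ 2 + ‖1 / 4 - ν ^ 2‖) * M with hQ
  have bW1 : ∀ y, 1 ≤ y → ‖W1 y‖ ≤ (‖W1 1‖ + Q) * y := by
    intro y hy
    have := (convex_Ici (1 : ℝ)).norm_image_sub_le_of_norm_hasDerivWithin_le (C := Q)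
      (f := W1) (f' := fun y => q y * W y)
      (fun t ht => (h2 t (lt_of_lt_of_le one_pos ht)).hasDerivWithinAt)
      (fun t ht => by
        have t1 : (1 : ℝ) ≤ t := ht
        rw [norm_mul]
        refine mul_le_mul ((norm_sub_le _ _).trans (add_le_add (le_of_eq ?_) ?_))
          (hb t (by linarith)) (norm_nonneg _) (by positivity)
        · simp
        · rw [norm_div]
          refine div_le_self (norm_nonneg _) ?_
          rw [norm_pow, norm_real, Real.norm_eq_abs, abs_of_pos (by linarith)]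
          nlinarith)
      (Set.self_mem_Ici (a := (1 : ℝ))) hy
    have h3 := norm_sub_norm_le (W1 y) (W1 1)
    rw [Real.norm_eq_abs, abs_of_nonneg (by linarith)] at this
    have Q0 : 0 ≤ Q := by positivity
    nlinarith [norm_nonneg (W1 1)]
  obtain ⟨C0, b0⟩ := KB_bound ν one_pos
  obtain ⟨C1, b1⟩ := KB_bound (ν + 1) one_pos
  obtain ⟨C2, b2⟩ := KB_bound (ν - 1) one_pos
  have lim : Tendsto (fun y => W y * V1 y - W1 y * V y) atTop (𝓝 0) := by
    have l0 := (Real.tendsto_pow_mul_exp_neg_atTop_nhds_zero 2).const_mul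
      (M * (|C0| + Real.pi * (|C1| + |C2|)) + (‖W1 1‖ + Q) * |C0|)
    rw [mul_zero] at l0
    refine squeeze_zero_norm' ?_ l0
    filter_upwards [eventually_ge_atTop (1 : ℝ)] with y hy
    have hx : y ≤ 2 * Real.pi * y := by nlinarith [Real.pi_gt_three]
    have ee : Real.exp (-(2 * Real.pi * y)) ≤ Real.exp (-y) := Real.exp_le_exp.2 (by linarith)
    have bb : ∀ {z : ℂ} {C : ℝ}, ‖z‖ ≤ C * Real.exp (-(2 * Real.pi * y)) →
        ‖z‖ ≤ |C| * Real.exp (-y) := fun h =>
      h.trans (mul_le_mul (le_abs_self _) ee (by positivity) (abs_nonneg _))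
    have c0 := bb (b0 _ (hy.trans hx))
    have c1 := bb (b1 _ (hy.trans hx))
    have c2 := bb (b2 _ (hy.trans hx))
    have q1 : 1 ≤ √y := Real.one_le_sqrt.2 hy
    have q2 : √y ≤ y := Real.sqrt_le_iff.2 ⟨by linarith, by nlinarith⟩
    have y2 : y ≤ y ^ 2 := by nlinarith
    have E0 := Real.exp_pos (-y)
    have nV : ‖V y‖ ≤ y * (|C0| * Real.exp (-y)) := by
      simp only [V, norm_mul, norm_real, Real.norm_eq_abs, abs_of_nonneg (Real.sqrt_nonneg y)]
      exact mul_le_mul q2 c0 (norm_nonneg _) (by linarith)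
    have nV1 : ‖V1 y‖ ≤ (|C0| + Real.pi * (|C1| + |C2|)) * (y ^ 2 * Real.exp (-y)) := by
      refine (norm_sub_le _ _).trans ?_
      rw [add_mul]
      apply add_le_add
      · rw [norm_div]
        refine (div_le_self (norm_nonneg _) ?_).trans (c0.trans ?_)
        · simp only [norm_mul, norm_real, Real.norm_eq_abs, abs_of_nonneg (Real.sqrt_nonneg y),
            Complex.norm_ofNat]
          linarith
        · refine mul_le_mul_of_nonneg_left ?_ (abs_nonneg _)
          nlinarith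
      · simp only [norm_mul, norm_real, Real.norm_eq_abs, abs_of_nonneg (Real.sqrt_nonneg y),
          abs_of_pos pi0]
        have := (norm_add_le _ _).trans (add_le_add c1 c2)
        calc _ ≤ Real.pi * y ^ 2 * (|C1| * Real.exp (-y) + |C2| * Real.exp (-y)) :=
              mul_le_mul (mul_le_mul_of_nonneg_left (q2.trans y2) pi0.le) this (norm_nonneg _)
                (by positivity)
          _ = _ := by ring
    refine (norm_sub_le _ _).trans ?_
    rw [norm_mul, norm_mul, add_mul, mul_assoc M]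
    refine add_le_add (mul_le_mul (hb y (by linarith)) nV1 (norm_nonneg _) M0) ?_
    calc _ ≤ (‖W1 1‖ + Q) * y * (y * (|C0| * Real.exp (-y))) :=
          mul_le_mul (bW1 y hy) nV (norm_nonneg _) (by positivity)
      _ = _ := by ring
  have wr : ∀ y, 0 < y → W y * V1 y - W1 y * V y = 0 := by
    intro y hy
    refine tendsto_nhds_unique (l := atTop) tendsto_const_nhds (lim.congr' ?_)
    filter_upwards [eventually_gt_atTop (0 : ℝ)] with t ht
    exact cst t ht y hy
  obtain ⟨x, hx, hx'⟩ := KB_ne ν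
  have hy0 : 0 < x / (2 * Real.pi) := by positivity
  have hV : V (x / (2 * Real.pi)) ≠ 0 := by
    simp only [V]
    rw [mul_div_cancel₀ _ (by positivity)]
    exact mul_ne_zero (s0 _ hy0) hx'
  generalize x / (2 * Real.pi) = y0 at hy0 hV
  refine ⟨W y0 / V y0, fun y hy => ?_⟩
  have := ode_zero q hq (fun y => W y - W y0 / V y0 * V y) (fun y => W1 y - W y0 / V y0 * V1 y)
    (fun y hy => (h1 y hy).sub ((dV y hy).const_mul _))
    (fun y hy => by
      convert! (h2 y hy).sub ((dV1 y hy).const_mul (W y0 / V y0)) using 1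
      simp only [q]; ring)
    hy0 (by field_simp; ring) (by field_simp; linear_combination -wr y0 hy0) hy
  exact sub_eq_zero.1 this

end Pool.Agent.Lib.H23Maass
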