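import Mathlib
import Pool.Agent.Lib.helper23.MaassK

/-! Mellin transforms of series and Euler products. -/

namespace Pool.Agent.Lib.H23Maass

open MeasureTheory Complex Filter Topology Asymptotics
open scoped Real

/-- bounded and rapidly decreasing -/
def Dec (W : ℝ → ℂ) : Prop := ∀ k : ℕ, ∃ B : ℝ, ∀ t : ℝ, 0 < t → ‖W t‖ * t ^ k ≤ B

theorem Dec.le {W : ℝ → ℂ} (h : Dec W) (k : ℕ) :
    ∃ B : ℝ, 0 ≤ B ∧ ∀ t : ℝ, 0 < t → ‖W t‖ ≤ B * (t ^ k)⁻¹ := by
  obtain ⟨B, hB⟩ := h k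
  refine ⟨B, le_trans (by positivity) (hB 1 one_pos), fun t ht => ?_⟩
  rw [← div_eq_mul_inv, le_div_iff₀ (by positivity)]
  exact hB t ht

theorem Dec.scale {W : ℝ → ℂ} (h : Dec W) (A : ℂ) {q : ℝ} (hq : 0 < q) :
    Dec fun t => A * W (t / q) := fun k => by
  obtain ⟨B, hB⟩ := h k
  refine ⟨‖A‖ * (B * q ^ k), fun t ht => ?_⟩
  rw [norm_mul, mul_assoc]
  refine mul_le_mul_of_nonneg_left ?_ (norm_nonneg _)
  have := hB (t / q) (by positivity)
  rwa [div_pow, ← mul_div_assoc, div_le_iff₀ (by positivity)] at this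

theorem Dec.mul {W : ℝ → ℂ} (h : Dec W) (A : ℂ) : Dec fun t => A * t * W t := fun k => by
  obtain ⟨B, hB⟩ := h (k + 1)
  refine ⟨‖A‖ * B, fun t ht => ?_⟩
  rw [norm_mul, norm_mul, norm_real, Real.norm_eq_abs, abs_of_pos ht, mul_assoc, mul_assoc]
  refine mul_le_mul_of_nonneg_left ((le_of_eq ?_).trans (hB t ht)) (norm_nonneg _)
  ring

theorem Dec.summable {W : ℝ → ℂ} (h : Dec W) {d : ℕ → ℂ} {C : ℝ} (hd : ∀ n, ‖d n‖ ≤ C)
    {y : ℝ} (hy : 0 < y) : Summable fun n : ℕ => d n * W (n * y) := by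
  obtain ⟨B, B0, hB⟩ := h.le 2
  refine .of_norm_bounded_eventually_nat
    ((Real.summable_nat_pow_inv.2 one_lt_two).mul_left (C * (B * (y ^ 2)⁻¹))) ?_
  filter_upwards [eventually_gt_atTop 0] with n hn
  rw [norm_mul]
  refine (mul_le_mul (hd n) (hB _ (by positivity)) (norm_nonneg _)
    ((norm_nonneg _).trans (hd n))).trans (le_of_eq ?_)
  rw [mul_pow, mul_inv]; ring

theorem big_top {W : ℝ → ℂ} {B : ℝ} {k : ℕ} (h : ∀ t : ℝ, 1 ≤ t → ‖W t‖ ≤ B * (t ^ k)⁻¹) :
    W =O[atTop] (· ^ (-(k : ℝ))) := by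
  refine IsBigO.of_bound B ?_
  filter_upwards [eventually_ge_atTop 1] with t ht
  have : 0 < t := by linarith
  rw [Real.rpow_neg this.le, Real.rpow_natCast, Real.norm_eq_abs, abs_of_pos (by positivity)]
  exact h t ht

theorem mellin_series {g W : ℝ → ℂ} {d : ℕ → ℂ} {C : ℝ} (hd : ∀ n, ‖d n‖ ≤ C) (h0 : d 0 = 0)
    (hW : ContinuousOn W (Set.Ioi 0)) (hb : Dec W) (hg : ContinuousOn g (Set.Ioi 0))
    (hs : ∀ y, 0 < y → HasSum (fun n : ℕ => d n * W (n * y)) (g y))
    (hf : ∀ y, 0 < y → g y⁻¹ = -g y) :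
    Differentiable ℂ (mellin g) ∧ mellin g 0 = 0 ∧ ∀ w : ℂ, 1 < w.re →
      mellin g w = (∑' n, d n * (n : ℂ) ^ (-w)) * mellin W w := by
  have C0 : 0 ≤ C := (norm_nonneg _).trans (hd 0)
  have gb : ∀ k : ℕ, ∃ B : ℝ, ∀ t : ℝ, 1 ≤ t → ‖g t‖ ≤ B * (t ^ k)⁻¹ := by
    intro k
    obtain ⟨B, B0, hB⟩ := hb.le (k + 2)
    have s2 := Real.summable_nat_pow_inv.2 one_lt_two
    refine ⟨C * B * ∑' n : ℕ, ((n : ℝ) ^ 2)⁻¹, fun t ht => ?_⟩
    have t0 : 0 < t := by linarith
    have := (hs t t0).norm_le_of_bounded ((s2.hasSum.mul_left (C * B)).mul_right (t ^ k)⁻¹)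
      fun n => ?_
    · exact this
    rcases n.eq_zero_or_pos with rfl | hn
    · simp [h0]
    rw [norm_mul, mul_assoc, mul_assoc]
    refine mul_le_mul (hd n) ((hB _ (by positivity)).trans ?_) (norm_nonneg _) C0
    refine mul_le_mul_of_nonneg_left ?_ B0
    rw [← mul_inv]
    refine inv_anti₀ (by positivity) ?_
    have n1 : (1 : ℝ) ≤ n := by exact_mod_cast hn
    rw [mul_pow]
    exact mul_le_mul (pow_le_pow_right₀ n1 (by omega)) (pow_le_pow_right₀ ht (by omega))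
      (by positivity) (by positivity)
  refine ⟨fun w => ?_, ?_, fun w hw => ?_⟩
  · obtain ⟨k, hk⟩ := exists_nat_gt |w.re|
    obtain ⟨B, hB⟩ := gb k
    refine mellin_differentiableAt_of_isBigO_rpow (a := k) (b := -k)
      (hg.locallyIntegrableOn measurableSet_Ioi) (big_top hB) ((le_abs_self _).trans_lt hk) ?_
      (by linarith [neg_abs_le w.re])
    refine IsBigO.of_bound B ?_
    filter_upwards [Ioo_mem_nhdsGT one_pos] with t ht
    have := hB t⁻¹ ((one_le_inv₀ ht.1).2 ht.2.le)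
    rw [hf t ht.1, norm_neg, inv_pow, inv_inv] at this
    rw [neg_neg, Real.rpow_natCast, Real.norm_eq_abs, abs_of_pos (pow_pos ht.1 k)]
    exact this
  · have a := mellin_comp_inv g 0
    rw [neg_zero] at a
    have b : mellin (fun t => g t⁻¹) 0 = -mellin g 0 := by
      unfold mellin
      rw [← integral_neg]
      exact setIntegral_congr_fun measurableSet_Ioi fun t ht => by
        simp only [hf t ht, smul_neg]
    linear_combination (b - a) / 2
  · have cW : MellinConvergent W w := by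
      obtain ⟨k, hk⟩ := exists_nat_gt w.re
      obtain ⟨B, -, hB⟩ := hb.le k
      obtain ⟨B0, -, hB0⟩ := hb.le 0
      refine mellinConvergent_of_isBigO_rpow (a := k) (b := 0)
        (hW.locallyIntegrableOn measurableSet_Ioi) (big_top fun t ht => hB t (by linarith)) hk ?_
        (by linarith)
      refine IsBigO.of_bound B0 ?_
      filter_upwards [self_mem_nhdsWithin] with t ht
      simpa using hB0 t ht
    let F : ℕ → ℝ → ℂ := fun n t => d n * ((t : ℂ) ^ (w - 1) • W (n * t))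
    have i1 : ∀ n, Integrable (F n) (volume.restrict (Set.Ioi 0)) := by
      intro n
      rcases n.eq_zero_or_pos with rfl | hn
      · simp [F, h0]
      · exact Integrable.const_mul
          ((MellinConvergent.comp_mul_left (a := n) (by positivity)).2 cW) _
    have i2 : Summable fun n => ∫ t in Set.Ioi 0, ‖F n t‖ := by
      refine .of_norm_bounded_eventually_nat
        ((Real.summable_nat_rpow.2 (show -w.re < -1 by linarith)).mul_left
          (C * ∫ t in Set.Ioi (0 : ℝ), ‖(t : ℂ) ^ (w - 1) • W t‖)) ?_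
      filter_upwards [eventually_gt_atTop 0] with n hn
      have n0 : (0 : ℝ) < n := by positivity
      have e := integral_comp_mul_left_Ioi (fun t : ℝ => ‖(t : ℂ) ^ (w - 1) • W t‖) 0 n0
      rw [mul_zero] at e
      have e2 : ∫ t in Set.Ioi 0, ‖F n t‖ = ‖d n‖ * (n : ℝ) ^ (1 - w.re) *
          ∫ t in Set.Ioi (0 : ℝ), ‖((n * t : ℝ) : ℂ) ^ (w - 1) • W (n * t)‖ := by
        rw [← integral_const_mul]
        refine setIntegral_congr_fun measurableSet_Ioi fun t ht => ?_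
        have t0 : 0 < t := ht
        simp only [F, norm_mul, norm_smul]
        rw [norm_cpow_eq_rpow_re_of_pos t0, norm_cpow_eq_rpow_re_of_pos (by positivity),
          Real.mul_rpow n0.le t0.le, sub_re, one_re, ← neg_sub w.re, Real.rpow_neg n0.le]
        have := Real.rpow_pos_of_pos n0 (w.re - 1)
        field_simp
      rw [Real.norm_of_nonneg (integral_nonneg fun _ => norm_nonneg _), e2, e, smul_eq_mul,
        sub_eq_add_neg 1 w.re, Real.rpow_add n0, Real.rpow_one]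
      have I0 : 0 ≤ ∫ t in Set.Ioi (0 : ℝ), ‖(t : ℂ) ^ (w - 1) • W t‖ :=
        integral_nonneg fun _ => norm_nonneg _
      generalize ∫ t in Set.Ioi (0 : ℝ), ‖(t : ℂ) ^ (w - 1) • W t‖ = J at *
      have := Real.rpow_pos_of_pos n0 (-w.re)
      calc _ = ‖d n‖ * (J * (n : ℝ) ^ (-w.re)) := by field_simp
        _ ≤ C * (J * (n : ℝ) ^ (-w.re)) := mul_le_mul_of_nonneg_right (hd n) (by positivity)
        _ = _ := by ring
    have H := hasSum_integral_of_summable_integral_norm i1 i2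
    have e1 : ∫ t in Set.Ioi 0, ∑' n, F n t = mellin g w := by
      refine setIntegral_congr_fun measurableSet_Ioi fun t ht => ?_
      have := ((hs t ht).mul_left ((t : ℂ) ^ (w - 1))).tsum_eq
      simp only [F, smul_eq_mul, ← this]
      congr 1; funext n; ring
    rw [e1] at H
    rw [← H.tsum_eq, ← tsum_mul_right]
    congr 1; funext n
    rcases n.eq_zero_or_pos with rfl | hn
    · simp [F, h0]
    · have := mellin_comp_mul_left W w (a := n) (by positivity)
      simp only [F, integral_const_mul]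
      rw [mul_assoc]
      congr 1

theorem final_L {g W : ℝ → ℂ} {d : ℕ → ℂ} {C : ℝ} (hd : ∀ n, ‖d n‖ ≤ C) (h0 : d 0 = 0)
    (hW : ContinuousOn W (Set.Ioi 0)) (hb : Dec W) (hg : ContinuousOn g (Set.Ioi 0))
    (hs : ∀ y, 0 < y → HasSum (fun n : ℕ => d n * W (n * y)) (g y))
    (hf : ∀ y, 0 < y → g y⁻¹ = -g y) {A e ν : ℂ} {β : ℝ} (hA : A ≠ 0) (he : 0 ≤ e.re)
    (hβ : 0 < β) (hK : ∀ t : ℝ, 0 < t → W t = A * ((t : ℂ) ^ e * KB ν (β * t))) :
    ∃ L : ℂ → ℂ, Differentiable ℂ L ∧ L (1 / 2) = 0 ∧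
      ∀ s : ℂ, ‖ν‖ + 3 / 2 < s.re → L s = ∑' n, d n * (n : ℂ) ^ (-(s - 1 / 2)) := by
  obtain ⟨h1, h2, h3⟩ := mellin_series hd h0 hW hb hg hs hf
  have β0 : (β : ℂ) ≠ 0 := by exact_mod_cast hβ.ne'
  refine ⟨fun s => mellin g (s - 1 / 2) * (A⁻¹ * (β : ℂ) ^ (s - 1 / 2 + e) *
    (2 * 2 ^ (-(s - 1 / 2 + e))) * ((Gamma ((s - 1 / 2 + e + ν) / 2))⁻¹ *
      (Gamma ((s - 1 / 2 + e - ν) / 2))⁻¹)), ?_, by simp [h2], fun s hs => ?_⟩
  · refine (h1.comp (by fun_prop)).mul (((differentiable_const _).mul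
      (Differentiable.const_cpow (by fun_prop) (.inl β0))).mul ((differentiable_const _).mul
      (Differentiable.const_cpow (by fun_prop) (.inl two_ne_zero))) |>.mul ?_)
    exact (differentiable_one_div_Gamma.comp (by fun_prop)).mul
      (differentiable_one_div_Gamma.comp (by fun_prop))
  · have n0 := norm_nonneg ν
    have r := abs_le.1 (abs_re_le_norm ν)
    have a1 : 0 < ((s - 1 / 2 + e + ν) / 2).re := by simp; linarith
    have a2 : 0 < ((s - 1 / 2 + e - ν) / 2).re := by simp; linarith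
    have m : mellin W (s - 1 / 2) = A * ((β : ℂ) ^ (-(s - 1 / 2 + e)) *
        mellin (KB ν) (s - 1 / 2 + e)) := by
      rw [← smul_eq_mul, ← smul_eq_mul, ← mellin_comp_mul_left _ _ hβ, ← mellin_cpow_smul,
        ← mellin_const_smul]
      exact setIntegral_congr_fun measurableSet_Ioi fun t ht => by simp only [hK t ht, smul_eq_mul]
    have g1 := Gamma_ne_zero_of_re_pos a1
    have g2 := Gamma_ne_zero_of_re_pos a2
    have c1 : (β : ℂ) ^ (s - 1 / 2 + e) ≠ 0 := by simp [β0]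
    have c2 : (2 : ℂ) ^ (s - 1 / 2 + e) ≠ 0 := by simp
    simp only
    rw [h3 _ (by simp; linarith), m, KB_mellin _ _ a1 a2, cpow_neg, cpow_neg]
    generalize Gamma ((s - 1 / 2 + e + ν) / 2) = G1 at g1
    generalize Gamma ((s - 1 / 2 + e - ν) / 2) = G2 at g2
    generalize (β : ℂ) ^ (s - 1 / 2 + e) = B1 at c1
    generalize (2 : ℂ) ^ (s - 1 / 2 + e) = B2 at c2
    generalize ∑' n : ℕ, d n * (n : ℂ) ^ (-(s - 1 / 2)) = D
    field_simp

theorem coef_mul {c t : ℕ → ℂ} (h1 : c 1 = 1) (h0 : c 0 = 0)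
    (hr : ∀ p m : ℕ, p.Prime → 0 < m →
      t p * c m = p * c (m * p) + if p ∣ m then c (m / p) else 0) (n : ℕ) :
    ∀ m, Nat.Coprime m n → c (m * n) = c m * c n := by
  induction n using Nat.strong_induction_on with
  | _ n ih =>
  intro m hm
  rcases m.eq_zero_or_pos with rfl | m0
  · simp [h0]
  rcases n.eq_zero_or_pos with rfl | n0
  · simp [h0]
  by_cases e : n = 1
  · simp [e, h1]
  obtain ⟨p, hp, k, rfl⟩ := Nat.exists_prime_and_dvd e
  have k0 : 0 < k := Nat.pos_of_mul_pos_left n0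
  have lt : k < p * k := by nlinarith [hp.two_le]
  have c1 : Nat.Coprime m k := Nat.Coprime.coprime_mul_left_right hm
  have c2 : Nat.Coprime p m := (Nat.Coprime.coprime_mul_right_right hm).symm
  have a := hr p (m * k) hp (by positivity)
  have b := hr p k hp k0
  have p0 : (p : ℂ) ≠ 0 := by exact_mod_cast hp.ne_zero
  rw [ih k lt m c1] at a
  apply mul_left_cancel₀ p0
  rw [mul_comm p k, ← mul_assoc m]
  by_cases c3 : p ∣ k
  · rw [if_pos (c3.mul_left m), Nat.mul_div_assoc m c3,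
      ih (k / p) ((Nat.div_le_self _ _).trans_lt lt) m
        (c1.coprime_dvd_right (Nat.div_dvd_of_dvd c3))] at a
    rw [if_pos c3] at b
    linear_combination c m * b - a
  · rw [if_neg fun h => c3 (c2.dvd_of_dvd_mul_left h)] at a
    rw [if_neg c3] at b
    linear_combination c m * b - a

theorem euler {c t : ℕ → ℂ} {C : ℝ} (hd : ∀ n, ‖c n‖ ≤ C) (h1 : c 1 = 1) (h0 : c 0 = 0)
    (hr : ∀ p m : ℕ, p.Prime → 0 < m →
      t p * c m = p * c (m * p) + if p ∣ m then c (m / p) else 0)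
    {q : ℕ} (χ : DirichletCharacter ℂ q) {s : ℂ} (hs : 3 / 2 < s.re) :
    HasProd (fun p : Nat.Primes => (1 - t p / (√(p : ℕ) : ℝ) * χ (p : ℕ) * (p : ℕ) ^ (-s) +
      χ (p : ℕ) ^ 2 * (p : ℕ) ^ (-2 * s))⁻¹) (∑' n : ℕ, χ n * c n * (n : ℂ) ^ (-(s - 1 / 2))) := by
  let f : ℕ → ℂ := fun n => χ n * c n * (n : ℂ) ^ (-(s - 1 / 2))
  have hs : Summable (‖f ·‖) := by
    refine .of_norm_bounded_eventually_nat
      ((Real.summable_nat_rpow.2 (show -(s.re - 1 / 2) < -1 by linarith)).mul_left C) ?_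
    filter_upwards [eventually_gt_atTop 0] with n hn
    simp only [f, norm_norm, norm_mul]
    rw [norm_natCast_cpow_of_pos hn]
    refine mul_le_mul ((mul_le_of_le_one_left (norm_nonneg _) (χ.norm_le_one _)).trans (hd n))
      (le_of_eq ?_) (by positivity) ((norm_nonneg _).trans (hd n))
    congr 1; simp
  have H := EulerProduct.eulerProduct_hasProd (f := f) (by simp [f, h1])
    (fun {m n} h => by
      simp only [f, coef_mul h1 h0 hr n m h, Nat.cast_mul, map_mul, natCast_mul_natCast_cpow]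
      ring) hs (by simp [f, h0])
  convert! H using 1
  funext ⟨p, hp⟩
  have p0 : (p : ℂ) ≠ 0 := by exact_mod_cast hp.ne_zero
  set X : ℂ := χ p * (p : ℂ) ^ (-(s - 1 / 2)) with hX
  have fe : ∀ e : ℕ, f (p ^ e) = c (p ^ e) * X ^ e := by
    intro e
    simp only [f, hX, Nat.cast_pow, map_pow, mul_pow]
    rw [← natCast_cpow_natCast_mul, cpow_nat_mul]
    ring
  have s0 : Summable fun e : ℕ => f (p ^ e) :=
    hs.of_norm.comp_injective (Nat.pow_right_injective hp.two_le)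
  have s1 := (summable_nat_add_iff 1).2 s0
  have e0 := s0.tsum_eq_zero_add
  have e1 := s1.tsum_eq_zero_add
  have e2 : ∑' e : ℕ, f (p ^ (e + 1 + 1)) =
      t p / p * X * ∑' e : ℕ, f (p ^ (e + 1)) - X ^ 2 / p * ∑' e : ℕ, f (p ^ e) := by
    rw [← tsum_mul_left, ← tsum_mul_left, ← (s1.mul_left _).tsum_sub (s0.mul_left _)]
    congr 1; funext e
    have := hr p (p ^ (e + 1)) hp (pow_pos hp.pos _)
    rw [if_pos (dvd_pow_self p (by omega)), ← pow_succ, pow_succ p e,
      Nat.mul_div_cancel _ hp.pos, ← pow_succ] at this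
    simp only [fe]
    field_simp
    linear_combination (-X ^ (e + 2)) * this
  have e3 := hr p 1 hp one_pos
  rw [if_neg hp.not_dvd_one, h1, one_mul p] at e3
  rw [e2, zero_add, fe 1, pow_one, pow_one] at e1
  rw [fe 0, pow_zero, pow_zero, h1] at e0
  have sq : ((√p : ℝ) : ℂ) * (√p : ℝ) = p := by
    rw [← ofReal_mul, Real.mul_self_sqrt (Nat.cast_nonneg p), ofReal_natCast]
  have sq0 : ((√p : ℝ) : ℂ) ≠ 0 := fun h => p0 (by rw [← sq, h, zero_mul])
  have x1 : X = χ p * ((p : ℂ) ^ (-s) * (√p : ℝ)) := by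
    rw [hX, neg_sub', sub_neg_eq_add, cpow_add _ _ p0, Real.sqrt_eq_rpow,
      ofReal_cpow (Nat.cast_nonneg p)]
    simp
  have x2 : (p : ℂ) ^ (-2 * s) = ((p : ℂ) ^ (-s)) ^ 2 := by
    rw [← cpow_nat_mul]; congr 1; push_cast; ring
  have x3 : 1 - t p / (√p : ℝ) * χ p * (p : ℂ) ^ (-s) + χ p ^ 2 * (p : ℂ) ^ (-2 * s) =
      1 - t p / p * X + X ^ 2 / p := by
    rw [x1, x2]
    generalize ((√p : ℝ) : ℂ) = r at sq sq0
    generalize χ p = x
    generalize (p : ℂ) ^ (-s) = P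
    rw [← sq]
    field_simp
  simp only
  rw [x3]
  symm
  apply eq_inv_of_mul_eq_one_left
  have e4 : c p = t p / p := by field_simp; linear_combination -e3
  rw [e4] at e1
  linear_combination e0 + e1 - t p / p * X * e0

end Pool.Agent.Lib.H23Maass
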