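import Mathlib
import Pool.Agent.Lib.helper23.MaassM
import Pool.Agent.Lib.helper23.MaassH

/-! Central vanishing of all quadratic twists of an odd Hecke-Maass form of level one. -/

namespace Pool.Agent.Lib.H23Maass

open MeasureTheory Complex Filter Topology Asymptotics
open scoped Real ComplexConjugate

variable {U : ℂ → ℂ} {μ : ℂ} {t : ℕ → ℂ} {M : ℝ}

theorem HM.co_neg (h : HM U μ t M) (n : ℤ) {y : ℝ} (hy : 0 < y) : co U (-n) y = -co U n y := by
  refine cf_odd (h.sm.toPer.p hy) (fun x => ?_) n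
  rw [← h.inv.odd _ (by simpa using hy)]
  congr 1; simp; ring

theorem HM.co_zero (h : HM U μ t M) {y : ℝ} (hy : 0 < y) : co U 0 y = 0 := by
  have := h.co_neg 0 hy
  rw [neg_zero] at this
  linear_combination this / 2

theorem HM.co_le (h : HM U μ t M) (n : ℤ) {y : ℝ} (hy : 0 < y) : ‖co U n y‖ ≤ M :=
  cf_le (fun x => h.bd _ (by simpa using hy)) n

theorem HM.rel (h : HM U μ t M) {p m : ℕ} (hp : p.Prime) (hm : 0 < m) {y : ℝ} (hy : 0 < y) :
    t p * co U m (y / m) = p * co U (m * p : ℕ) (y / (m * p : ℕ)) +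
      if p ∣ m then co U (m / p : ℕ) (y / (m / p : ℕ)) else 0 := by
  have y0 : 0 < y / m := by positivity
  have a := co_hk h.sm.toPer hp.pos m y0
  rw [co_congr (h.hk p hp) m y0] at a
  have b : co (fun z => t p * U z) m (y / m) = t p * co U m (y / m) := cf_smul _ _
  rw [← b, a, add_comm, div_div]
  congr 1
  · push_cast; rfl
  · simp only [Int.natCast_dvd_natCast]
    split_ifs with c
    · obtain ⟨k, rfl⟩ := c
      have p0 : (p : ℝ) ≠ 0 := by exact_mod_cast hp.ne_zero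
      rw [Nat.mul_div_cancel_left _ hp.pos, Nat.cast_mul,
        Int.mul_ediv_cancel_left _ (by exact_mod_cast hp.ne_zero)]
      congr 1
      push_cast
      field_simp
    · rfl

theorem HM.coef (h : HM U μ t M) : ∃ (c : ℕ → ℂ) (C : ℝ), (∀ n, ‖c n‖ ≤ C) ∧ c 1 = 1 ∧ c 0 = 0 ∧
    (∀ p m : ℕ, p.Prime → 0 < m → t p * c m = p * c (m * p) + if p ∣ m then c (m / p) else 0) ∧
    (∀ (n : ℕ) (y : ℝ), 0 < y → co U n y = c n * co U 1 (n * y)) ∧
    ∃ y, 0 < y ∧ co U 1 y ≠ 0 := by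
  have ex : ∀ n : ℕ, 0 < n → ∃ c : ℂ, ∀ y, 0 < y → co U n (y / n) = c * co U 1 y := by
    intro n
    induction n using Nat.strong_induction_on with
    | _ n ih =>
    intro n0
    by_cases e : n = 1
    · exact ⟨1, fun y _ => by simp [e]⟩
    obtain ⟨p, hp, k, rfl⟩ := Nat.exists_prime_and_dvd e
    have k0 : 0 < k := Nat.pos_of_mul_pos_left n0
    have lt : k < p * k := by nlinarith [hp.two_le]
    have p0 : (p : ℂ) ≠ 0 := by exact_mod_cast hp.ne_zero
    obtain ⟨c1, h1⟩ := ih k lt k0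
    rw [mul_comm p k]
    by_cases c : p ∣ k
    · obtain ⟨c2, h2⟩ := ih (k / p) ((Nat.div_le_self _ _).trans_lt lt)
        (Nat.div_pos (Nat.le_of_dvd k0 c) hp.pos)
      refine ⟨(t p * c1 - c2) / p, fun y hy => ?_⟩
      have := h.rel hp k0 hy
      rw [if_pos c, h1 y hy, h2 y hy] at this
      field_simp
      linear_combination -this
    · refine ⟨t p * c1 / p, fun y hy => ?_⟩
      have := h.rel hp k0 hy
      rw [if_neg c, h1 y hy] at this
      field_simp
      linear_combination -this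
  choose! c hc using ex
  have hc2 : ∀ n : ℕ, 0 < n → ∀ y : ℝ, 0 < y → co U n y = c n * co U 1 (n * y) := by
    intro n hn y hy
    rw [← hc n hn _ (by positivity), mul_div_cancel_left₀ _ (by positivity)]
  have ne : ∃ y, 0 < y ∧ co U 1 y ≠ 0 := by
    by_contra hn
    push Not at hn
    obtain ⟨z, hz, h0⟩ := h.ne
    have z0 : ∀ (n : ℕ) (y : ℝ), 0 < y → co U n y = 0 := fun n y hy => by
      rcases n.eq_zero_or_pos with rfl | n0
      · exact h.co_zero hy
      · rw [hc2 n n0 y hy, hn _ (by positivity), mul_zero]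
    refine h0 (h.sm.toPer.ext (V := fun _ => 0) ⟨continuousOn_const, fun _ _ => rfl⟩
      (fun n y hy => ?_) hz)
    have : co (fun _ => 0) n y = 0 := by simp [co, cf]
    rw [this]
    obtain ⟨m, rfl | rfl⟩ := n.eq_nat_or_neg
    · exact z0 m y hy
    · rw [h.co_neg _ hy, z0 m y hy, neg_zero]
  obtain ⟨y0, hy0, w0⟩ := ne
  have M0 : 0 ≤ M := (norm_nonneg _).trans (h.co_le 0 one_pos)
  refine ⟨fun n => if n = 0 then 0 else c n, M / ‖co U 1 y0‖, fun n => ?_, ?_, by simp,
    fun p m hp hm => ?_, fun n y hy => ?_, y0, hy0, w0⟩ <;> beta_reduce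
  · split_ifs with e
    · rw [norm_zero]; positivity
    · have n0 : 0 < n := Nat.pos_of_ne_zero e
      rw [le_div_iff₀ (norm_pos_iff.2 w0), ← norm_mul, ← hc n n0 y0 hy0]
      exact h.co_le _ (by positivity)
  · have := hc 1 one_pos y0 hy0
    simp only [Nat.cast_one, div_one] at this
    rw [if_neg one_ne_zero]
    exact mul_right_cancel₀ w0 (by rw [← this, one_mul])
  · have := h.rel hp hm hy0
    have p0 := hp.pos
    rw [hc m hm y0 hy0, hc _ (by positivity) y0 hy0] at this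
    rw [if_neg hm.ne', if_neg (by positivity)]
    apply mul_right_cancel₀ w0
    by_cases c : p ∣ m
    · have k0 := Nat.div_pos (Nat.le_of_dvd hm c) hp.pos
      rw [if_pos c, hc _ k0 y0 hy0] at this
      rw [if_pos c, if_neg k0.ne']
      linear_combination this
    · rw [if_neg c] at this ⊢
      linear_combination this
  · rcases n.eq_zero_or_pos with rfl | n0
    · simpa using h.co_zero hy
    · rw [if_neg n0.ne', hc2 n n0 y hy]

theorem HM.whit (h : HM U μ t M) {ν : ℂ} (hν : μ = 1 / 4 - ν ^ 2) :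
    ∃ c : ℂ, ∀ y, 0 < y → co U 1 y = c * ((√y : ℝ) * KB ν (2 * π * y)) :=
  whittaker ν (co U 1) (co (DD I U) 1) M (fun y hy => h.sm.coy 1 hy)
    (fun y hy => by
      have := (h.sm.dd I).coy 1 hy
      rwa [h.sm.ode h.lap hy, hν] at this) fun y hy => h.co_le 1 hy

theorem HM.dec (h : HM U μ t M) {ν c : ℂ}
    (hc : ∀ y, 0 < y → co U 1 y = c * ((√y : ℝ) * KB ν (2 * π * y))) : Dec (co U 1) := by
  intro k
  obtain ⟨C, hC⟩ := KB_bound ν one_pos
  have M0 : 0 ≤ M := (norm_nonneg _).trans (h.co_le 0 one_pos)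
  refine ⟨M + ‖c‖ * (|C| * (k + 1).factorial), fun y hy => ?_⟩
  rcases le_total y 1 with c1 | c1
  · refine le_add_of_le_of_nonneg ?_ (by positivity)
    exact (mul_le_of_le_one_right (norm_nonneg _) (pow_le_one₀ hy.le c1)).trans (h.co_le 1 hy)
  · refine le_add_of_nonneg_of_le M0 ?_
    rw [hc y hy, norm_mul, mul_assoc]
    refine mul_le_mul_of_nonneg_left ?_ (norm_nonneg _)
    have hx : y ≤ 2 * π * y := by nlinarith [Real.pi_gt_three]
    have a : ‖KB ν (2 * π * y)‖ ≤ |C| * Real.exp (-y) := (hC _ (c1.trans hx)).trans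
      (mul_le_mul (le_abs_self _) (Real.exp_le_exp.2 (by linarith)) (by positivity) (abs_nonneg _))
    have q2 : √y ≤ y := Real.sqrt_le_iff.2 ⟨by linarith, by nlinarith⟩
    have b := Real.pow_div_factorial_le_exp y hy.le (k + 1)
    rw [div_le_iff₀ (by positivity)] at b
    rw [norm_mul, norm_real, Real.norm_eq_abs, abs_of_nonneg (Real.sqrt_nonneg y)]
    calc _ ≤ y * (|C| * Real.exp (-y)) * y ^ k := by gcongr
      _ = |C| * (Real.exp (-y) * y ^ (k + 1)) := by ring
      _ ≤ |C| * (Real.exp (-y) * (Real.exp y * (k + 1).factorial)) := by gcongr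
      _ = _ := by rw [← mul_assoc (Real.exp _), ← Real.exp_add]; simp

theorem Tw_cont {V : ℂ → ℂ} (hV : Per V) {q : ℕ} [NeZero q] (χ : DirichletCharacter ℂ q) :
    ContinuousOn (fun y : ℝ => Tw V χ (y * I)) (Set.Ioi 0) := by
  unfold Tw gz
  refine continuousOn_finsetSum _ fun a _ => continuousOn_const.mul
    (hV.cont.comp (by fun_prop) fun y hy => ?_)
  have := im_div (NeZero.pos q) (z := y * I) (by simpa using hy) a.val
  rwa [Int.cast_natCast] at this

theorem tw_series {V : ℂ → ℂ} (hV : Per V) {q : ℕ} [NeZero q] {χ : DirichletCharacter ℂ q}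
    (hχ : χ.IsPrimitive) (h2 : χ ^ 2 = 1) {r W : ℝ → ℂ} {c : ℕ → ℂ} {C : ℝ}
    (hr : ∀ y, 0 < y → r y ≠ 0) (hd : ∀ n, ‖c n‖ ≤ C) (h0 : c 0 = 0) (hW : Dec W)
    (hc : ∀ (n : ℕ) (y : ℝ), 0 < y → r y * co V n y = c n * W (n * y))
    (hn : ∀ (n : ℕ) (y : ℝ), 0 < y → co V (-n) y = χ (-1) * co V n y) {y : ℝ} (hy : 0 < y) :
    HasSum (fun n : ℕ => (χ n * c n) * (2 * gaussSum χ ZMod.stdAddChar * W (n * y / q)))
      (r (y / q) * Tw V χ (y * I)) := by
  have q0 : (0 : ℝ) < q := by exact_mod_cast NeZero.pos q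
  have y0 : 0 < y / q := by positivity
  have s1 : Summable fun n : ℕ => co V n (y / q) := by
    refine ((hW.summable hd y0).mul_left (r (y / q))⁻¹).congr fun n => ?_
    rw [← hc n _ y0, inv_mul_cancel_left₀ (hr _ y0)]
  have s2 : Summable fun n : ℤ => co V n (y / q) :=
    .of_nat_of_neg s1 ((s1.mul_left (χ (-1))).congr fun n => (hn n _ y0).symm)
  have H := ((Tw_sum hV hχ h2 y0 s2).mul_left (r (y / q))).nat_add_neg
  have e : χ (-1) * χ (-1) = 1 := by rw [← map_mul]; simp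
  convert! H using 1
  · funext n
    rw [hn n _ y0, Int.cast_neg, Int.cast_natCast, neg_eq_neg_one_mul, map_mul, mul_div_assoc]
    linear_combination (-2 * χ n * gaussSum χ ZMod.stdAddChar) * hc n _ y0 -
      (r (y / q) * gaussSum χ ZMod.stdAddChar * χ n * co V n (y / q)) * e
  · have := hc 0 _ y0
    rw [h0, zero_mul, Nat.cast_zero] at this
    rw [show ((q : ℂ) * ((y / q : ℝ) : ℂ)) = y by
      rw [← ofReal_natCast, ← ofReal_mul, mul_div_cancel₀ _ q0.ne']]
    linear_combination (-gaussSum χ ZMod.stdAddChar * χ ((0 : ℤ) : ZMod q)) * this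

theorem Tw_deriv (h : Sm U) {q : ℕ} [NeZero q] (χ : DirichletCharacter ℂ q) {w : ℝ → ℂ}
    {x r : ℝ} (hw : HasDerivAt w r x) (h0 : 0 < (w x).im) :
    HasDerivAt (fun x => Tw U χ (w x)) (r / q * Tw (DD 1 U) χ (w x)) x := by
  unfold Tw gz
  rw [Finset.mul_sum]
  refine HasDerivAt.fun_sum fun a _ => ?_
  have := im_div (NeZero.pos q) h0 a.val
  rw [Int.cast_natCast] at this
  have b := h.chain (w := fun x => (w x + a.val) / q) (r := r / q) (v := 1)
    (by simpa using (hw.add_const (a.val : ℂ)).div_const (q : ℂ)) this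
  convert! b.const_mul (χ a) using 1
  push_cast; ring

theorem HM.vanish (h : HM U μ t M) {q : ℕ} {χ : DirichletCharacter ℂ q} (hq : 0 < q)
    (hχ : χ.IsPrimitive) (h2 : χ ^ 2 = 1) :
    ∃ L : ℂ → ℂ, Differentiable ℂ L ∧ L (1 / 2) = 0 ∧ ∃ σ : ℝ, ∀ s : ℂ, σ < s.re →
      HasProd (fun p : Nat.Primes => (1 - t p / (√(p : ℕ) : ℝ) * χ (p : ℕ) * (p : ℕ) ^ (-s) +
        χ (p : ℕ) ^ 2 * (p : ℕ) ^ (-2 * s))⁻¹) (L s) := by
  haveI : NeZero q := ⟨hq.ne'⟩
  obtain ⟨c, C, hd, h1, h0, hr, hc, y0, hy0, w0⟩ := h.coef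
  obtain ⟨ν, hν⟩ := IsAlgClosed.exists_pow_nat_eq (1 / 4 - μ) two_pos
  obtain ⟨c0, hc0⟩ := h.whit (ν := ν) (by rw [hν]; ring)
  have c00 : c0 ≠ 0 := by
    rintro rfl
    exact w0 (by rw [hc0 y0 hy0, zero_mul])
  have hD := h.dec hc0
  have τ0 := gauss_ne hχ
  have q0 : (0 : ℝ) < q := by exact_mod_cast hq
  have q1 : (q : ℂ) ≠ 0 := by exact_mod_cast hq.ne'
  have hd' : ∀ n : ℕ, ‖χ n * c n‖ ≤ C := fun n => by
    rw [norm_mul]
    exact (mul_le_of_le_one_left (norm_nonneg _) (χ.norm_le_one _)).trans (hd n)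
  have cW : ContinuousOn (fun y : ℝ => co U 1 (y / q)) (Set.Ioi 0) := fun y hy =>
    ((h.sm.coy 1 (div_pos hy q0)).continuousAt.comp (f := fun y : ℝ => y / q)
      (by fun_prop)).continuousWithinAt
  have sq0 : ((√q : ℝ) : ℂ) ≠ 0 := by exact_mod_cast (Real.sqrt_pos.2 q0).ne'
  have hK : ∀ y : ℝ, 0 < y → co U 1 (y / q) =
      c0 / (√q : ℝ) * ((y : ℂ) ^ (1 / 2 : ℂ) * KB ν (2 * π / q * y)) := by
    intro y hy
    rw [hc0 _ (by positivity), Real.sqrt_div hy.le, Real.sqrt_eq_rpow y, ofReal_div,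
      ofReal_cpow hy.le, show 2 * π * (y / q) = 2 * π / q * y by ring]
    push_cast; ring
  have iI : ∀ y : ℝ, 0 < y → ((y⁻¹ : ℝ) : ℂ) * I = -((y : ℂ) * I)⁻¹ := fun y hy => by
    simp; ring
  suffices H : ∃ L : ℂ → ℂ, Differentiable ℂ L ∧ L (1 / 2) = 0 ∧ ∀ s : ℂ, ‖ν‖ + 3 / 2 < s.re →
      L s = ∑' n : ℕ, χ n * c n * (n : ℂ) ^ (-(s - 1 / 2)) by
    obtain ⟨L, l1, l2, l3⟩ := H
    refine ⟨L, l1, l2, ‖ν‖ + 3 / 2, fun s hs => ?_⟩
    rw [l3 s hs]
    exact euler hd h1 h0 hr χ (by linarith [norm_nonneg ν])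
  rcases χ.even_or_odd with e | e
  · have e' : χ (-1) = 1 := e
    have S := fun y hy => tw_series (h.sm.dd 1).toPer hχ h2 (r := fun y => (y : ℂ))
      (W := fun y => 2 * π * I * y * co U 1 y) (y := y)
      (fun y hy => by exact_mod_cast hy.ne') hd h0 (hD.mul _)
      (fun n y hy => by rw [h.sm.cox n hy, hc n y hy]; push_cast; ring)
      (fun n y hy => by rw [h.sm.cox _ hy, h.sm.cox _ hy, h.co_neg _ hy, e']; push_cast; ring) hy
    refine final_L hd' (by simp [h0])
      (W := fun y => 2 * gaussSum χ ZMod.stdAddChar * (2 * π * I * (y / q : ℝ) * co U 1 (y / q)))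
      (continuousOn_const.mul (ContinuousOn.mul (by fun_prop) cW)) ((hD.mul _).scale _ q0)
      (ContinuousOn.mul (by fun_prop) (Tw_cont (h.sm.dd 1).toPer χ)) S (fun y hy => ?_)
      (A := 2 * gaussSum χ ZMod.stdAddChar * (2 * π * I / q * (c0 / (√q : ℝ)))) (e := 1 + 1 / 2)
      (β := 2 * π / q) (mul_ne_zero (mul_ne_zero two_ne_zero τ0)
        (mul_ne_zero (div_ne_zero two_pi_I_ne_zero q1) (div_ne_zero c00 sq0))) (by norm_num)
      (by positivity) fun y hy => ?_
    · have y1 : (y : ℂ) ≠ 0 := by exact_mod_cast hy.ne'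
      have p1 : ∀ x : ℝ, 0 < ((y : ℂ) * I + x).im := fun x => by simpa using hy
      have d1 := Tw_deriv h.sm χ (w := fun x : ℝ => y * I + x) (r := 1) (x := 0)
        ((hasDerivAt_id (0 : ℝ)).ofReal_comp.const_add _) (p1 0)
      have d2 := Tw_deriv h.sm χ (w := fun x : ℝ => -(y * I + x)⁻¹) (r := -(y ^ 2)⁻¹) (x := 0)
        (by
          convert! (((hasDerivAt_id (0 : ℝ)).ofReal_comp.const_add (y * I)).inv
            (ne0 (p1 0))).neg using 1
          simp [mul_pow]) (im_inv (p1 0))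
      simp only [Tw_S h.inv h2 (p1 _), e', one_mul] at d2
      have := d1.unique d2
      simp only [ofReal_zero, add_zero] at this
      simp only [Pi.mul_apply]
      rw [iI y hy]
      generalize Tw (DD 1 U) χ (-(↑y * I)⁻¹) = A at this ⊢
      generalize Tw (DD 1 U) χ (↑y * I) = B at this ⊢
      push_cast at this ⊢
      field_simp at this ⊢
      linear_combination this
    · have y1 : (y : ℂ) ≠ 0 := by exact_mod_cast hy.ne'
      simp only [hK y hy]
      rw [cpow_add _ _ y1, cpow_one]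
      push_cast; ring
  · have e' : χ (-1) = -1 := e
    have S := fun y hy => tw_series h.sm.toPer hχ h2 (r := fun _ => 1) (W := co U 1) (y := y)
      (fun _ _ => one_ne_zero) hd h0 hD
      (fun n y hy => by rw [hc n y hy, one_mul])
      (fun n y hy => by rw [h.co_neg _ hy, e', neg_one_mul]) hy
    refine final_L hd' (by simp [h0])
      (W := fun y => 2 * gaussSum χ ZMod.stdAddChar * co U 1 (y / q))
      (continuousOn_const.mul cW) (hD.scale _ q0)
      (continuousOn_const.mul (Tw_cont h.sm.toPer χ)) S (fun y hy => ?_)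
      (A := 2 * gaussSum χ ZMod.stdAddChar * (c0 / (√q : ℝ))) (e := 1 / 2)
      (β := 2 * π / q) (mul_ne_zero (mul_ne_zero two_ne_zero τ0) (div_ne_zero c00 sq0))
      (by norm_num) (by positivity) fun y hy => ?_
    · simp only [Pi.mul_apply]
      rw [iI y hy, Tw_S h.inv h2 (by simpa using hy), e']; ring
    · simp only [hK y hy]; ring

end Pool.Agent.Lib.H23Maass
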