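import Mathlib
import Pool.Agent.Lib.helper23.MaassL

/-! The discriminant is a Hecke eigenform; central values of its quadratic twists. -/

namespace Pool.Agent.Lib.H23Maass

open MeasureTheory Complex Filter Topology Asymptotics UpperHalfPlane
open scoped Real ComplexConjugate MatrixGroups ModularForm

/-- weight twelve automorphy -/
def Wt (U : ℂ → ℂ) : Prop := ∀ a b c d : ℤ, a * d - b * c = 1 → ∀ z : ℂ, 0 < z.im →
  U ((a * z + b) / (c * z + d)) = (c * z + d) ^ 12 * U z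

variable {U : ℂ → ℂ}

theorem wt_of (f : CuspForm 𝒮ℒ 12) : Wt (Uf f) := by
  intro a b c d e z hz
  let γ : SL(2, ℤ) := ⟨!![a, b; c, d], by rw [Matrix.det_fin_two_of]; exact e⟩
  have h1 := SlashInvariantForm.slash_action_eqn' f (Γ := 𝒮ℒ) (γ := γ)
    (MonoidHom.mem_range.2 ⟨γ, rfl⟩) ⟨z, hz⟩
  rw [← ModularGroup.sl_moeb, ← Uf_coe f (γ • _), ← Uf_coe f ⟨z, hz⟩,
    coe_specialLinearGroup_apply] at h1
  simpa [γ, zpow_ofNat] using h1

theorem Wt.tr (h : Wt U) (n : ℤ) {z : ℂ} (hz : 0 < z.im) : U (z + n) = U z := by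
  simpa using h 1 n 0 1 (by simp) z hz

theorem Wt.inv (h : Wt U) {z : ℂ} (hz : 0 < z.im) : U (-z⁻¹) = z ^ 12 * U z := by
  have := h 0 (-1) 1 0 (by simp) z hz
  simpa [neg_div] using this

theorem Wt.gz_S (h : Wt U) {q : ℕ} [NeZero q] {z : ℂ} (hz : 0 < z.im) {a b : ZMod q}
    (e : a * b = -1) : gz U q (-z⁻¹) a = z ^ 12 * gz U q z b := by
  have q0 := NeZero.pos q
  have h3 : (q : ℂ) ≠ 0 := by exact_mod_cast q0.ne'
  have : (((a.val : ℤ) * b.val + 1 : ℤ) : ZMod q) = 0 := by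
    push_cast
    rw [ZMod.natCast_zmod_val, ZMod.natCast_zmod_val, e]; simp
  obtain ⟨k, hk⟩ := (ZMod.intCast_zmod_eq_zero_iff_dvd _ _).1 this
  have hk' : ((a.val : ℂ) * b.val + 1) = q * k := by exact_mod_cast hk
  unfold gz
  have := h a.val (-k) q (-b.val) (by linarith) ((z + b.val) / q)
    (by simpa using im_div q0 hz (b.val : ℤ))
  push_cast at this
  rw [mul_div_cancel₀ _ h3, add_neg_cancel_right] at this
  rw [← this]
  congr 1
  have := ne0 hz
  field_simp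
  linear_combination -hk'

theorem Wt.Tw_S (h : Wt U) {q : ℕ} [NeZero q] {χ : DirichletCharacter ℂ q} (hχ : χ ^ 2 = 1)
    {z : ℂ} (hz : 0 < z.im) : Tw U χ (-z⁻¹) = χ (-1) * z ^ 12 * Tw U χ z := by
  obtain ⟨σ, s1, s2⟩ := exists_sigma q
  unfold Tw
  rw [← σ.sum_comp (fun a => χ a * gz U q z a), Finset.mul_sum]
  refine Finset.sum_congr rfl fun a _ => ?_
  by_cases c : IsUnit a
  · rw [h.gz_S hz (s1 a c), ← s1 a c, map_mul]
    have hu : IsUnit (σ a) := isUnit_of_mul_isUnit_right (s1 a c ▸ isUnit_one.neg)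
    have e : χ (σ a) * χ (σ a) = 1 := by
      rw [← MulChar.mul_apply, ← sq, hχ, MulChar.one_apply hu]
    linear_combination (-χ a * z ^ 12 * gz U q z (σ a)) * e
  · rw [s2 a c, χ.map_nonunit c]; simp

/-- `p` times the Hecke operator of weight twelve -/
noncomputable def Hw (p : ℕ) (U : ℂ → ℂ) (z : ℂ) : ℂ :=
  p ^ 12 * U (p * z) + ∑ b ∈ Finset.range p, U ((z + b) / p)

theorem Wt.hw_S (h : Wt U) {p : ℕ} (hp : p.Prime) {z : ℂ} (hz : 0 < z.im) :
    Hw p U (-z⁻¹) = z ^ 12 * Hw p U z := by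
  have := Fact.mk hp
  have p0 := hp.pos
  have h3 : (p : ℂ) ≠ 0 := by exact_mod_cast p0.ne'
  have z0 := ne0 hz
  obtain ⟨σ, s1, s2⟩ := exists_sigma p
  unfold Hw
  rw [gz_sum, gz_sum, ← σ.sum_comp (gz U p z), ← Finset.add_sum_erase _ _ (Finset.mem_univ 0),
    ← Finset.add_sum_erase _ _ (Finset.mem_univ 0), s2 0 not_isUnit_zero,
    Finset.sum_congr rfl fun a ha => h.gz_S hz (s1 a (Finset.ne_of_mem_erase ha).isUnit),
    ← Finset.mul_sum]
  have a1 : U (p * -z⁻¹) = (z / p) ^ 12 * gz U p z 0 := by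
    unfold gz
    simp only [ZMod.val_zero, Nat.cast_zero, add_zero]
    rw [← h.inv (z := z / p) (by simpa using im_div p0 hz 0)]
    congr 1; simp; field_simp
  have a2 : gz U p (-z⁻¹) 0 = (p * z) ^ 12 * U (p * z) := by
    unfold gz
    rw [← h.inv (z := p * z) (by simp; positivity)]
    congr 1; simp; field_simp
  rw [a1, a2]
  field_simp
  ring

theorem Wt.hw_T (h : Wt U) {p : ℕ} (h0 : 0 < p) {z : ℂ} (hz : 0 < z.im) :
    Hw p U (z + 1) = Hw p U z := by
  unfold Hw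
  have a := h.tr p (z := p * z) (by simp; positivity)
  have b := Finset.sum_range_succ' (fun b : ℕ => U ((z + b) / p)) p
  rw [Finset.sum_range_succ] at b
  have c := h.tr 1 (im_div h0 hz 0)
  have h3 : (p : ℂ) ≠ 0 := by exact_mod_cast h0.ne'
  rw [show (z + (0 : ℤ)) / p + (1 : ℤ) = (z + p) / p by field_simp; simp] at c
  rw [c] at b
  simp only [Int.cast_zero, Nat.cast_zero, add_left_inj, Int.cast_natCast] at a b
  rw [mul_add, mul_one, a, b]
  congr 2; funext b; congr 2; push_cast; ring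

theorem zero_aff {f : ℍ → ℂ} (hf : IsZeroAtImInfty f) {a : ℝ} (ha : 0 < a) (b : ℝ) :
    IsZeroAtImInfty fun z : ℍ => Uf f (a * z + b) := by
  rw [isZeroAtImInfty_iff] at hf ⊢
  intro ε hε
  obtain ⟨A, hA⟩ := hf ε hε
  refine ⟨A / a, fun z hz => ?_⟩
  have := z.im_pos
  have h0 : 0 < (a * z + b : ℂ).im := by simp; positivity
  rw [Uf, ofComplex_apply_of_im_pos h0]
  apply hA
  rw [div_le_iff₀ ha] at hz
  simpa [← coe_im, mul_comm] using hz

theorem hw_cusp (f : CuspForm 𝒮ℒ 12) {p : ℕ} (hp : p.Prime) :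
    ∃ g : CuspForm 𝒮ℒ 12, ∀ z : ℍ, g z = Hw p (Uf f) z := by
  have p0 := hp.pos
  have hS : (fun z : ℍ => Hw p (Uf f) z) ∣[(12 : ℤ)] ModularGroup.S = fun z : ℍ => Hw p (Uf f) z := by
    funext z
    rw [ModularForm.SL_slash_apply, coe_S, (wt_of f).hw_S hp z.im_pos]
    have := z.ne_zero
    simp [denom, ModularGroup.S, zpow_ofNat]
    field_simp
  have hT : (fun z : ℍ => Hw p (Uf f) z) ∣[(12 : ℤ)] ModularGroup.T = fun z : ℍ => Hw p (Uf f) z := by
    funext z
    rw [ModularForm.SL_slash_apply, coe_T, (wt_of f).hw_T p0 z.im_pos]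
    simp [denom, ModularGroup.T]
  have hd : DifferentiableOn ℂ (Uf f) {z | 0 < z.im} :=
    UpperHalfPlane.mdifferentiable_iff.1 f.holo'
  have hz : IsZeroAtImInfty f := CuspFormClass.zero_at_infty f
  refine ⟨⟨⟨fun z : ℍ => Hw p (Uf f) z, ?_⟩, ?_, fun hc => ?_⟩, fun _ => rfl⟩
  · rintro _ ⟨A, rfl⟩
    exact SlashInvariantForm.slash_action_generators_SL2Z hS hT A
  · rw [UpperHalfPlane.mdifferentiable_iff]
    refine DifferentiableOn.congr (f := Hw p (Uf f)) ?_ fun z hz => by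
      simp [ofComplex_apply_of_im_pos hz]
    refine DifferentiableOn.add (DifferentiableOn.const_mul (hd.comp (by fun_prop)
      fun z hz => ?_) _) (DifferentiableOn.fun_sum fun b _ => hd.comp (by fun_prop) fun z hz => ?_)
    · have : 0 < z.im := hz
      simp; positivity
    · simpa using im_div p0 hz b
  · rw [Subgroup.IsArithmetic.isCusp_iff_isCusp_SL2Z] at hc
    rw [OnePoint.isZeroAt_iff_forall_SL2Z hc]
    intro γ _
    change IsZeroAtImInfty ((fun z : ℍ => Hw p (Uf f) z) ∣[(12 : ℤ)] γ)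
    rw [SlashInvariantForm.slash_action_generators_SL2Z hS hT]
    have a := (zero_aff hz (a := p) (by positivity) 0).const_mul ((p : ℂ) ^ 12)
    have b := tendsto_finsetSum (Finset.range p)
      fun b _ => zero_aff hz (a := 1 / p) (by positivity) ((b : ℕ) / p)
    have := a.add b
    simp only [mul_zero, Finset.sum_const_zero, add_zero] at this
    refine this.congr fun z => ?_
    unfold Hw
    congr 1
    · simp
    · refine Finset.sum_congr rfl fun b _ => ?_
      congr 1; push_cast; ring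

theorem delta_eig {p : ℕ} (hp : p.Prime) : ∃ c : ℂ, ∀ z : ℂ, 0 < z.im →
    Hw p (Uf CuspForm.discriminant) z = c * Uf CuspForm.discriminant z := by
  obtain ⟨g, hg⟩ := hw_cusp CuspForm.discriminant hp
  obtain ⟨c, hc⟩ := g.exists_smul_discriminant_of_weight_eq_twelve
  refine ⟨c, fun z hz => ?_⟩
  have := hg ⟨z, hz⟩
  rw [← hc] at this
  rw [Uf, ofComplex_apply_of_im_pos hz]
  exact this.symm

/-- the Whittaker function of weight twelve -/
noncomputable def W6 (y : ℝ) : ℂ := (y : ℂ) ^ 6 * cexp (-(2 * π * y))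

theorem W6_ne {y : ℝ} (hy : 0 < y) : W6 y ≠ 0 :=
  mul_ne_zero (pow_ne_zero _ (by exact_mod_cast hy.ne')) (Complex.exp_ne_zero _)

theorem W6_dec : Dec W6 := by
  intro k
  refine ⟨(k + 6).factorial, fun y hy => ?_⟩
  have b := Real.pow_div_factorial_le_exp y hy.le (k + 6)
  rw [div_le_iff₀ (by positivity)] at b
  have e : ‖W6 y‖ = y ^ 6 * Real.exp (-(2 * π * y)) := by
    rw [W6, norm_mul, norm_pow, norm_real, Real.norm_eq_abs, abs_of_pos hy, Complex.norm_exp]
    simp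
  have hx : y ≤ 2 * π * y := by nlinarith [Real.pi_gt_three]
  have a : Real.exp (-(2 * π * y)) ≤ Real.exp (-y) := Real.exp_le_exp.2 (by linarith)
  rw [e]
  calc _ ≤ y ^ 6 * Real.exp (-y) * y ^ k := by gcongr
    _ = Real.exp (-y) * y ^ (k + 6) := by ring
    _ ≤ Real.exp (-y) * (Real.exp y * (k + 6).factorial) := by gcongr
    _ = _ := by rw [← mul_assoc (Real.exp _), ← Real.exp_add]; simp

/-- the coefficients -/
noncomputable def aa (f : CuspForm 𝒮ℒ 12) (n : ℕ) : ℂ := (qExpansion 1 f).coeff n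

theorem aa_zero (f : CuspForm 𝒮ℒ 12) : aa f 0 = 0 :=
  CuspFormClass.qExpansion_coeff_zero f one_pos one_mem_strictPeriods_SL

theorem co_aa (f : CuspForm 𝒮ℒ 12) (n : ℕ) {y : ℝ} (hy : 0 < y) :
    co (fun z => (z.im : ℂ) ^ 6 * Uf f z) n y = aa f n / n ^ 6 * W6 (n * y) := by
  have h := ModularFormClass.qExpansion_coeff_eq_intervalIntegral f one_pos
    one_mem_strictPeriods_SL n hy
  have e : co (fun z => (z.im : ℂ) ^ 6 * Uf f z) n y =
      (y : ℂ) ^ 6 * cexp (-(2 * π * (n * y : ℝ))) * aa f n := by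
    rw [aa, h]
    simp only [co, cf, ofReal_one, div_one, one_mul, ← intervalIntegral.integral_const_mul]
    congr 1; funext x
    have h0 : 0 < (x + y * Complex.I : ℂ).im := by simpa using hy
    rw [Uf, ofComplex_apply_of_im_pos h0, Function.Periodic.qParam, ← Complex.exp_nat_mul, one_div,
      ← Complex.exp_neg, ee]
    have : cexp (2 * π * Complex.I * ((-(n : ℤ) * x : ℝ) : ℂ)) =
        cexp (-(2 * π * (n * y : ℝ))) *
          cexp (-(n * (2 * π * Complex.I * (x + y * Complex.I) / (1 : ℝ)))) := by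
      rw [← Complex.exp_add]
      congr 1
      push_cast
      linear_combination (2 * π * n * y) * I_sq
    rw [this]
    simp
    ring
  rw [e]
  rcases n.eq_zero_or_pos with rfl | hn
  · simp [aa_zero]
  · have : (n : ℂ) ≠ 0 := by exact_mod_cast hn.ne'
    unfold W6
    push_cast
    field_simp

theorem per_V (f : CuspForm 𝒮ℒ 12) : Per fun z => (z.im : ℂ) ^ 6 * Uf f z := by
  refine ⟨ContinuousOn.mul (by fun_prop)
    (UpperHalfPlane.mdifferentiable_iff.1 f.holo').continuousOn, fun z hz => ?_⟩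
  have := (wt_of f).tr 1 hz
  simp only [Int.cast_one] at this
  simp [this]

theorem aa_bd (f : CuspForm 𝒮ℒ 12) : ∃ C, ∀ n : ℕ, ‖aa f n / n ^ 6‖ ≤ C := by
  obtain ⟨M, hM⟩ := CuspFormClass.exists_bound f
  have b : ∀ z : ℂ, 0 < z.im → ‖(z.im : ℂ) ^ 6 * Uf f z‖ ≤ M := fun z hz => by
    have := hM ⟨z, hz⟩
    rw [show ((12 : ℤ) / 2 : ℝ) = (6 : ℕ) by norm_num, Real.rpow_natCast,
      le_div_iff₀ (pow_pos (UpperHalfPlane.im_pos _) 6)] at this
    rw [Uf, ofComplex_apply_of_im_pos hz, norm_mul, norm_pow, norm_real, Real.norm_eq_abs,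
      abs_of_pos hz, mul_comm]
    exact this
  have w := norm_pos_iff.2 (W6_ne one_pos)
  have M0 : 0 ≤ M := (norm_nonneg _).trans (b Complex.I (by simp))
  refine ⟨M / ‖W6 1‖, fun n => ?_⟩
  rcases n.eq_zero_or_pos with rfl | hn
  · rw [aa_zero, zero_div, norm_zero]; positivity
  · have y0 : (0 : ℝ) < (n : ℝ)⁻¹ := by positivity
    have := co_aa f n y0
    rw [mul_inv_cancel₀ (by positivity)] at this
    rw [le_div_iff₀ w, ← norm_mul, ← this]
    exact cf_le (fun x => b _ (by simpa using hn)) _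

theorem aa_rel (f : CuspForm 𝒮ℒ 12) {p m : ℕ} (hp : p.Prime) (hm : 0 < m) {c : ℂ}
    (hc : ∀ z : ℂ, 0 < z.im → Hw p (Uf f) z = c * Uf f z) :
    c / p ^ 6 * (aa f m / m ^ 6) = p * (aa f (m * p) / (m * p : ℕ) ^ 6) +
      if p ∣ m then aa f (m / p) / (m / p : ℕ) ^ 6 else 0 := by
  have p0 := hp.pos
  have p1 : (p : ℂ) ≠ 0 := by exact_mod_cast p0.ne'
  have a := co_hk (per_V f) p0 m one_pos
  rw [co_congr (V := fun z => c / p ^ 6 * ((z.im : ℂ) ^ 6 * Uf f z)) (fun z hz => by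
    have := hc z hz
    unfold Hw at this
    unfold Hk
    simp only [div_natCast_im, add_im, natCast_im, add_zero, ← Finset.mul_sum, mul_im,
      natCast_re, zero_mul]
    push_cast
    field_simp
    linear_combination (z.im : ℂ) ^ 6 * this) m one_pos] at a
  have b : co (fun z => c / p ^ 6 * ((z.im : ℂ) ^ 6 * Uf f z)) m 1 =
    c / p ^ 6 * co (fun z => (z.im : ℂ) ^ 6 * Uf f z) m 1 := cf_smul _ _
  rw [b, co_aa f m one_pos, ← Nat.cast_mul, co_aa f _ (by positivity),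
    show ((m * p : ℕ) : ℝ) * (1 / p) = m * 1 by push_cast; field_simp] at a
  apply mul_right_cancel₀ (W6_ne (y := m * 1) (by positivity))
  simp only [Int.natCast_dvd_natCast] at a
  split_ifs at a ⊢ with e
  · rw [← Int.natCast_div, co_aa f _ (by positivity),
      show ((m / p : ℕ) : ℝ) * (p * 1) = m * 1 by
        rw [← mul_assoc, ← Nat.cast_mul, Nat.div_mul_cancel e]] at a
    linear_combination a
  · linear_combination a

theorem tw_aa (f : CuspForm 𝒮ℒ 12) {q : ℕ} [NeZero q] {χ : DirichletCharacter ℂ q}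
    (hχ : χ.IsPrimitive) (h2 : χ ^ 2 = 1) {y : ℝ} (hy : 0 < y) :
    HasSum (fun n : ℕ => (χ n * (aa f n / n ^ 6)) * (gaussSum χ ZMod.stdAddChar * W6 (n * y / q)))
      (((y / q : ℝ) : ℂ) ^ 6 * Tw (Uf f) χ (y * Complex.I)) := by
  have q0 := NeZero.pos q
  have h3 : (q : ℂ) ≠ 0 := by exact_mod_cast q0.ne'
  have h0 : ∀ a : ZMod q, 0 < ((y * Complex.I + a.val) / q : ℂ).im := fun a => by
    have := im_div q0 (z := y * Complex.I) (by simpa using hy) a.val
    rwa [Int.cast_natCast] at this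
  have := (hasSum_sum (s := Finset.univ) fun (a : ZMod q) _ =>
    (ModularForm.hasSum_qExpansion f one_pos one_mem_strictPeriods_SL ⟨_, h0 a⟩).mul_left
      (χ a)).mul_left (((y / q : ℝ) : ℂ) ^ 6)
  convert! this using 1
  · funext n
    have g := gauss_ee hχ h2 n
    rw [Int.cast_natCast, Int.cast_natCast] at g
    have e : ∀ a : ZMod q, Function.Periodic.qParam 1 ((y * Complex.I + a.val) / q) ^ n =
        ee (n * (a.val / q)) * cexp (-(2 * π * (n * y / q : ℝ))) := by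
      intro a
      rw [Function.Periodic.qParam, ← Complex.exp_nat_mul, ee, ← Complex.exp_add]
      congr 1
      push_cast
      linear_combination (2 * π * n * y / q) * I_sq
    simp only [e]
    have e2 : ∑ a : ZMod q, χ a * ((qExpansion 1 f).coeff n *
        (ee (n * (a.val / q)) * cexp (-(2 * π * (n * y / q : ℝ))))) =
        aa f n * cexp (-(2 * π * (n * y / q : ℝ))) * ∑ a : ZMod q, χ a * ee (n * (a.val / q)) := by
      rw [Finset.mul_sum]
      exact Finset.sum_congr rfl fun a _ => by unfold aa; ring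
    rw [e2, g]
    rcases n.eq_zero_or_pos with rfl | hn
    · simp [aa_zero]
    · have : (n : ℂ) ≠ 0 := by exact_mod_cast hn.ne'
      unfold W6
      push_cast
      field_simp
  · unfold Tw gz
    congr 1
    refine Finset.sum_congr rfl fun a _ => ?_
    rw [Uf, ofComplex_apply_of_im_pos (h0 a)]

theorem mellin_ent {g W : ℝ → ℂ} {d : ℕ → ℂ} {C : ℝ} (hd : ∀ n, ‖d n‖ ≤ C) (h0 : d 0 = 0)
    (hb : Dec W) (hg : ContinuousOn g (Set.Ioi 0))
    (hs : ∀ y, 0 < y → HasSum (fun n : ℕ => d n * W (n * y)) (g y))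
    (hf : ∀ y, 0 < y → ‖g y⁻¹‖ = ‖g y‖) : Differentiable ℂ (mellin g) := by
  have C0 : 0 ≤ C := (norm_nonneg _).trans (hd 0)
  have gb : ∀ k : ℕ, ∃ B : ℝ, ∀ t : ℝ, 1 ≤ t → ‖g t‖ ≤ B * (t ^ k)⁻¹ := by
    intro k
    obtain ⟨B, B0, hB⟩ := hb.le (k + 2)
    have s2 := Real.summable_nat_pow_inv.2 one_lt_two
    refine ⟨C * B * ∑' n : ℕ, ((n : ℝ) ^ 2)⁻¹, fun t ht => ?_⟩
    have t0 : 0 < t := by linarith
    have := (hs t t0).norm_le_of_bounded ((s2.hasSum.mul_left (C * B)).mul_right (t ^ k)⁻¹)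
      fun n => ?_
    · exact this
    rcases n.eq_zero_or_pos with rfl | hn
    · simp [h0]
    rw [norm_mul, mul_assoc, mul_assoc]
    refine mul_le_mul (hd n) ((hB _ (by positivity)).trans ?_) (norm_nonneg _) C0
    refine mul_le_mul_of_nonneg_left ?_ B0
    rw [← mul_inv]
    refine inv_anti₀ (by positivity) ?_
    have n1 : (1 : ℝ) ≤ n := by exact_mod_cast hn
    rw [mul_pow]
    exact mul_le_mul (pow_le_pow_right₀ n1 (by omega)) (pow_le_pow_right₀ ht (by omega))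
      (by positivity) (by positivity)
  intro w
  obtain ⟨k, hk⟩ := exists_nat_gt |w.re|
  obtain ⟨B, hB⟩ := gb k
  refine mellin_differentiableAt_of_isBigO_rpow (a := k) (b := -k)
    (hg.locallyIntegrableOn measurableSet_Ioi) (big_top hB) ((le_abs_self _).trans_lt hk) ?_
    (by linarith [neg_abs_le w.re])
  refine IsBigO.of_bound B ?_
  filter_upwards [Ioo_mem_nhdsGT one_pos] with t ht
  have := hB t⁻¹ ((one_le_inv₀ ht.1).2 ht.2.le)
  rw [hf t ht.1, inv_pow, inv_inv] at this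
  rw [neg_neg, Real.rpow_natCast, Real.norm_eq_abs, abs_of_pos (pow_pos ht.1 k)]
  exact this

theorem mellin_ser {g W : ℝ → ℂ} {d : ℕ → ℂ} {C : ℝ} (hd : ∀ n, ‖d n‖ ≤ C) (h0 : d 0 = 0)
    (hW : ContinuousOn W (Set.Ioi 0)) (hb : Dec W)
    (hs : ∀ y, 0 < y → HasSum (fun n : ℕ => d n * W (n * y)) (g y)) {w : ℂ} (hw : 1 < w.re) :
    mellin g w = (∑' n, d n * (n : ℂ) ^ (-w)) * mellin W w := by
  have cW : MellinConvergent W w := by
    obtain ⟨k, hk⟩ := exists_nat_gt w.re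
    obtain ⟨B, -, hB⟩ := hb.le k
    obtain ⟨B0, -, hB0⟩ := hb.le 0
    refine mellinConvergent_of_isBigO_rpow (a := k) (b := 0)
      (hW.locallyIntegrableOn measurableSet_Ioi) (big_top fun t ht => hB t (by linarith)) hk ?_
      (by linarith)
    refine IsBigO.of_bound B0 ?_
    filter_upwards [self_mem_nhdsWithin] with t ht
    simpa using hB0 t ht
  let F : ℕ → ℝ → ℂ := fun n t => d n * ((t : ℂ) ^ (w - 1) • W (n * t))
  have i1 : ∀ n, Integrable (F n) (volume.restrict (Set.Ioi 0)) := by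
    intro n
    rcases n.eq_zero_or_pos with rfl | hn
    · simp [F, h0]
    · exact Integrable.const_mul
        ((MellinConvergent.comp_mul_left (a := n) (by positivity)).2 cW) _
  have i2 : Summable fun n => ∫ t in Set.Ioi 0, ‖F n t‖ := by
    refine .of_norm_bounded_eventually_nat
      ((Real.summable_nat_rpow.2 (show -w.re < -1 by linarith)).mul_left
        (C * ∫ t in Set.Ioi (0 : ℝ), ‖(t : ℂ) ^ (w - 1) • W t‖)) ?_
    filter_upwards [eventually_gt_atTop 0] with n hn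
    have n0 : (0 : ℝ) < n := by positivity
    have e := integral_comp_mul_left_Ioi (fun t : ℝ => ‖(t : ℂ) ^ (w - 1) • W t‖) 0 n0
    rw [mul_zero] at e
    have e2 : ∫ t in Set.Ioi 0, ‖F n t‖ = ‖d n‖ * (n : ℝ) ^ (1 - w.re) *
        ∫ t in Set.Ioi (0 : ℝ), ‖((n * t : ℝ) : ℂ) ^ (w - 1) • W (n * t)‖ := by
      rw [← integral_const_mul]
      refine setIntegral_congr_fun measurableSet_Ioi fun t ht => ?_
      have t0 : 0 < t := ht
      simp only [F, norm_mul, norm_smul]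
      rw [norm_cpow_eq_rpow_re_of_pos t0, norm_cpow_eq_rpow_re_of_pos (by positivity),
        Real.mul_rpow n0.le t0.le, sub_re, one_re, ← neg_sub w.re, Real.rpow_neg n0.le]
      have := Real.rpow_pos_of_pos n0 (w.re - 1)
      field_simp
    rw [Real.norm_of_nonneg (integral_nonneg fun _ => norm_nonneg _), e2, e, smul_eq_mul,
      sub_eq_add_neg 1 w.re, Real.rpow_add n0, Real.rpow_one]
    have I0 : 0 ≤ ∫ t in Set.Ioi (0 : ℝ), ‖(t : ℂ) ^ (w - 1) • W t‖ :=
      integral_nonneg fun _ => norm_nonneg _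
    generalize ∫ t in Set.Ioi (0 : ℝ), ‖(t : ℂ) ^ (w - 1) • W t‖ = J at *
    have := Real.rpow_pos_of_pos n0 (-w.re)
    calc _ = ‖d n‖ * (J * (n : ℝ) ^ (-w.re)) := by field_simp
      _ ≤ C * (J * (n : ℝ) ^ (-w.re)) := mul_le_mul_of_nonneg_right (hd n) (by positivity)
      _ = _ := by ring
  have H := hasSum_integral_of_summable_integral_norm i1 i2
  have e1 : ∫ t in Set.Ioi 0, ∑' n, F n t = mellin g w := by
    refine setIntegral_congr_fun measurableSet_Ioi fun t ht => ?_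
    have := ((hs t ht).mul_left ((t : ℂ) ^ (w - 1))).tsum_eq
    simp only [F, smul_eq_mul, ← this]
    congr 1; funext n; ring
  rw [e1] at H
  rw [← H.tsum_eq, ← tsum_mul_right]
  congr 1; funext n
  rcases n.eq_zero_or_pos with rfl | hn
  · simp [F, h0]
  · have := mellin_comp_mul_left W w (a := n) (by positivity)
    simp only [F, integral_const_mul]
    rw [mul_assoc]
    congr 1

theorem mellin_W6 {w : ℂ} (hw : 0 < w.re) :
    mellin W6 w = (1 / (2 * π : ℝ)) ^ (w + 6) * Gamma (w + 6) := by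
  rw [← integral_cpow_mul_exp_neg_mul_Ioi (by simp; linarith) (by positivity), mellin]
  refine setIntegral_congr_fun measurableSet_Ioi fun t ht => ?_
  have t0 : (t : ℂ) ≠ 0 := by exact_mod_cast (ne_of_gt ht)
  simp only [W6, smul_eq_mul]
  rw [show w + 6 - 1 = (w - 1) + (6 : ℕ) by push_cast; ring, cpow_add _ _ t0, cpow_natCast]
  push_cast; ring

theorem twist12 (f : CuspForm 𝒮ℒ 12) {q : ℕ} (hq : 0 < q) {χ : DirichletCharacter ℂ q}
    (hχ : χ.IsPrimitive) (h2 : χ ^ 2 = 1) :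
    ∃ L : ℂ → ℂ, Differentiable ℂ L ∧ (χ (-1) = -1 → L (1 / 2) = 0) ∧ ∀ s : ℂ, 3 / 2 < s.re →
      L s = ∑' n : ℕ, χ n * (aa f n / n ^ 6) * (n : ℂ) ^ (-(s - 1 / 2)) := by
  have : NeZero q := ⟨hq.ne'⟩
  obtain ⟨C, hd⟩ := aa_bd f
  have τ0 := gauss_ne hχ
  have q0 : (0 : ℝ) < q := by exact_mod_cast hq
  have q1 : (q : ℂ) ≠ 0 := by exact_mod_cast hq.ne'
  have hd' : ∀ n : ℕ, ‖χ n * (aa f n / n ^ 6)‖ ≤ C := fun n => by
    rw [norm_mul]
    exact (mul_le_of_le_one_left (norm_nonneg _) (χ.norm_le_one _)).trans (hd n)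
  have h0 : χ (0 : ℕ) * (aa f 0 / (0 : ℕ) ^ 6) = 0 := by simp [aa_zero]
  let g : ℝ → ℂ := fun y => ((y / q : ℝ) : ℂ) ^ 6 * Tw (Uf f) χ (y * Complex.I)
  let W : ℝ → ℂ := fun y => gaussSum χ ZMod.stdAddChar * W6 (y / q)
  have S : ∀ y, 0 < y → HasSum (fun n : ℕ => (χ n * (aa f n / n ^ 6)) * W (n * y)) (g y) :=
    fun y hy => tw_aa f hχ h2 hy
  have hP : Per (Uf f) := ⟨(UpperHalfPlane.mdifferentiable_iff.1 f.holo').continuousOn,
    fun z hz => by simpa using (wt_of f).tr 1 hz⟩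
  have cg : ContinuousOn g (Set.Ioi 0) := ContinuousOn.mul (by fun_prop) (Tw_cont hP χ)
  have cW : ContinuousOn W (Set.Ioi 0) := by simp only [W, W6]; fun_prop
  have dW : Dec W := W6_dec.scale _ q0
  have fe : ∀ y, 0 < y → g y⁻¹ = χ (-1) * g y := fun y hy => by
    have y1 : (y : ℂ) ≠ 0 := by exact_mod_cast hy.ne'
    simp only [g]
    rw [show ((y⁻¹ : ℝ) : ℂ) * Complex.I = -((y : ℂ) * Complex.I)⁻¹ by simp; ring,
      (wt_of f).Tw_S h2 (by simpa using hy), mul_pow,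
      show Complex.I ^ 12 = 1 by rw [show 12 = 4 * 3 by rfl, pow_mul, I_pow_four, one_pow]]
    push_cast
    field_simp
  have n1 : ‖χ (-1)‖ = 1 := by
    rcases χ.even_or_odd with e | e
    · rw [show χ (-1) = 1 from e, norm_one]
    · rw [show χ (-1) = -1 from e, norm_neg, norm_one]
  have h1 := mellin_ent hd' h0 dW cg S fun y hy => by rw [fe y hy, norm_mul, n1, one_mul]
  have c0 : (1 / (2 * π : ℝ) : ℂ) ≠ 0 := by
    have := Real.pi_pos
    exact one_div_ne_zero (by exact_mod_cast (by positivity : (2 * π : ℝ) ≠ 0))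
  refine ⟨fun s => mellin g (s - 1 / 2) * ((gaussSum χ ZMod.stdAddChar)⁻¹ *
    ((q : ℝ)⁻¹ : ℝ) ^ (s - 1 / 2) * (1 / (2 * π : ℝ)) ^ (-(s - 1 / 2 + 6)) *
      (Gamma (s - 1 / 2 + 6))⁻¹), ?_, fun e => ?_, fun s hs => ?_⟩
  · refine (h1.comp (by fun_prop)).mul ((((differentiable_const _).mul
      (Differentiable.const_cpow (by fun_prop) (.inl (by simpa using hq.ne')))).mul
      (Differentiable.const_cpow (by fun_prop) (.inl c0))).mul ?_)
    exact differentiable_one_div_Gamma.comp (by fun_prop)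
  · have := (mellin_series hd' h0 cW dW cg S fun y hy => by rw [fe y hy, e, neg_one_mul]).2.1
    simp [this]
  · have m : mellin W (s - 1 / 2) = gaussSum χ ZMod.stdAddChar *
        ((((q : ℝ)⁻¹ : ℝ) : ℂ) ^ (-(s - 1 / 2)) * mellin W6 (s - 1 / 2)) := by
      rw [← smul_eq_mul, ← smul_eq_mul, ← mellin_comp_mul_left _ _ (inv_pos.2 q0),
        ← mellin_const_smul]
      simp only [W, smul_eq_mul, div_eq_inv_mul]
    have g1 : Gamma (s - 1 / 2 + 6) ≠ 0 := Gamma_ne_zero_of_re_pos (by simp; linarith)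
    have c1 : (((q : ℝ)⁻¹ : ℝ) : ℂ) ^ (s - 1 / 2) ≠ 0 := by simp [hq.ne']
    have c2 : (1 / (2 * π : ℝ) : ℂ) ^ (s - 1 / 2 + 6) ≠ 0 := by
      rw [Ne, cpow_eq_zero_iff]; exact fun h => c0 h.1
    simp only
    rw [mellin_ser hd' h0 cW dW S (by simp; linarith), m, mellin_W6 (by simp; linarith), cpow_neg,
      cpow_neg]
    generalize Gamma (s - 1 / 2 + 6) = G1 at g1
    generalize (((q : ℝ)⁻¹ : ℝ) : ℂ) ^ (s - 1 / 2) = B1 at c1
    generalize (1 / (2 * π : ℝ) : ℂ) ^ (s - 1 / 2 + 6) = B2 at c2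
    generalize ∑' n : ℕ, χ n * (aa f n / n ^ 6) * (n : ℂ) ^ (-(s - 1 / 2)) = D
    field_simp

theorem aa_one : aa CuspForm.discriminant 1 = 1 := ModularForm.discriminant_qExpansion_coeff_one

theorem delta_hecke {p : ℕ} (hp : p.Prime) (z : ℂ) (hz : 0 < z.im) :
    Hw p (Uf CuspForm.discriminant) z =
      p * aa CuspForm.discriminant p * Uf CuspForm.discriminant z := by
  obtain ⟨c, hc⟩ := delta_eig hp
  have := aa_rel _ hp one_pos hc
  rw [if_neg hp.not_dvd_one, aa_one, one_mul p] at this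
  have p1 : (p : ℂ) ≠ 0 := by exact_mod_cast hp.ne_zero
  rw [hc z hz]
  congr 1
  field_simp at this
  linear_combination this

theorem delta_L {q : ℕ} (hq : 0 < q) {χ : DirichletCharacter ℂ q}
    (hχ : χ.IsPrimitive) (h2 : χ ^ 2 = 1) :
    ∃ L : ℂ → ℂ, Differentiable ℂ L ∧ (χ (-1) = -1 → L (1 / 2) = 0) ∧ ∀ s : ℂ, 3 / 2 < s.re →
      HasProd (fun p : Nat.Primes => (1 - aa CuspForm.discriminant p / (p : ℕ) ^ (11 / 2 : ℂ) *
        χ (p : ℕ) * (p : ℕ) ^ (-s) + χ (p : ℕ) ^ 2 * (p : ℕ) ^ (-2 * s))⁻¹) (L s) := by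
  obtain ⟨L, l1, l2, l3⟩ := twist12 CuspForm.discriminant hq hχ h2
  obtain ⟨C, hd⟩ := aa_bd CuspForm.discriminant
  refine ⟨L, l1, l2, fun s hs => ?_⟩
  rw [l3 s hs]
  have := euler (t := fun p => p * aa CuspForm.discriminant p / p ^ 6) hd (by simp [aa_one])
    (by simp [aa_zero]) (fun p m hp hm => aa_rel _ hp hm (delta_hecke hp)) χ hs
  convert! this using 6 with p
  have p1 : ((p : ℕ) : ℂ) ≠ 0 := by exact_mod_cast p.2.ne_zero
  have e : ((p : ℕ) : ℂ) ^ (11 / 2 : ℂ) = (p : ℕ) ^ 5 * (√(p : ℕ) : ℝ) := by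
    rw [show (11 / 2 : ℂ) = (5 : ℕ) + 1 / 2 by norm_num, cpow_add _ _ p1, cpow_natCast,
      Real.sqrt_eq_rpow, ofReal_cpow (Nat.cast_nonneg _)]
    simp
  rw [e]
  field_simp

end Pool.Agent.Lib.H23Maass
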