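import Mathlib

namespace Pool.Agent.Lib.helper23.DetA

open Filter Topology MeasureTheory

noncomputable def ee (x : ℝ) : ℂ := Complex.exp (Complex.I * (2 * Real.pi * x : ℝ))

theorem ee_add (x y : ℝ) : ee (x + y) = ee x * ee y := by
  unfold ee; rw [← Complex.exp_add]; congr 1; push_cast; ring

theorem ee_zero : ee 0 = 1 := by simp [ee]

theorem norm_ee (x : ℝ) : ‖ee x‖ = 1 := Complex.norm_exp_I_mul_ofReal _

theorem ee_sum {ι : Type*} (s : Finset ι) (f : ι → ℝ) : ee (∑ i ∈ s, f i) = ∏ i ∈ s, ee (f i) := by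
  classical
  induction s using Finset.induction_on with
  | empty => simp [ee_zero]
  | insert a s ha ih => rw [Finset.sum_insert ha, Finset.prod_insert ha, ee_add, ih]

theorem ee_lip (x y : ℝ) : ‖ee x - ee y‖ ≤ 2 * Real.pi * |x - y| := by
  have e : ee x - ee y = ee y * (ee (x - y) - 1) := by
    rw [mul_sub, ← ee_add, add_sub_cancel, mul_one]
  rw [e, norm_mul, norm_ee, one_mul]
  refine Real.norm_exp_I_mul_ofReal_sub_one_le.trans (le_of_eq ?_)
  rw [Real.norm_eq_abs, abs_mul, abs_of_pos (by positivity)]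

theorem continuous_ee : Continuous ee := by unfold ee; fun_prop

theorem fourier_eq (h : ℤ) (x : ℝ) : fourier h (x : AddCircle (1 : ℝ)) = ee (h * x) := by
  rw [fourier_coe_apply, ee]; congr 1; push_cast; ring

/-- Weyl's condition for a real sequence. -/
def Weyl (u : ℕ → ℝ) : Prop :=
  ∀ h : ℤ, h ≠ 0 → Tendsto (fun N : ℕ => (N : ℝ)⁻¹ • ∑ n ∈ Finset.range N, ee (h * u n))
    atTop (𝓝 0)

theorem weyl_cont (u : ℕ → ℝ) (hu : Weyl u) (f : C(AddCircle (1 : ℝ), ℂ)) :
    Tendsto (fun N : ℕ => (N : ℝ)⁻¹ • ∑ n ∈ Finset.range N, f (u n)) atTop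
      (𝓝 (∫ t, f t ∂AddCircle.haarAddCircle)) := by
  have hint : ∀ g : C(AddCircle (1 : ℝ), ℂ), Integrable g AddCircle.haarAddCircle := fun g =>
    g.continuous.integrable_of_hasCompactSupport (HasCompactSupport.of_compactSpace _)
  have hspan : ∀ g ∈ Submodule.span ℂ (Set.range (@fourier 1)),
      Tendsto (fun N : ℕ => (N : ℝ)⁻¹ • ∑ n ∈ Finset.range N, g (u n)) atTop
        (𝓝 (∫ t, g t ∂AddCircle.haarAddCircle)) := by
    intro g hg
    induction hg using Submodule.span_induction with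
    | mem g hg =>
      obtain ⟨h, rfl⟩ := hg
      by_cases h0 : h = 0
      · subst h0
        simp only [fourier_zero, integral_const, probReal_univ, one_smul]
        exact (tendsto_const_nhds (x := (1 : ℂ))).cesaro_smul
      · rw [integral_eq_zero_of_add_right_eq_neg (μ := AddCircle.haarAddCircle)
          (fourier_add_half_inv_index h0 one_pos)]
        simp only [fourier_eq]
        exact hu h h0
    | zero => simp
    | add g g' _ _ ih ih' =>
      simp only [ContinuousMap.add_apply, Finset.sum_add_distrib, smul_add]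
      rw [integral_add (hint g) (hint g')]
      exact ih.add ih'
    | smul c g _ ih =>
      simp only [ContinuousMap.smul_apply, ← Finset.smul_sum]
      rw [integral_smul]
      refine (ih.const_smul c).congr fun N => smul_comm _ _ _
  rw [Metric.tendsto_atTop]
  intro ε hε
  have hf : f ∈ closure (Submodule.span ℂ (Set.range (@fourier 1)) : Set C(AddCircle (1 : ℝ), ℂ)) := by
    rw [← Submodule.topologicalClosure_coe, span_fourier_closure_eq_top]; trivial
  obtain ⟨g, hg, hfg⟩ := Metric.mem_closure_iff.1 hf (ε / 3) (by positivity)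
  obtain ⟨N0, hN0⟩ := Metric.tendsto_atTop.1 (hspan g hg) (ε / 3) (by positivity)
  have hp : ∀ t, ‖f t - g t‖ ≤ dist f g := fun t => by
    rw [← dist_eq_norm]; exact ContinuousMap.dist_apply_le_dist t
  refine ⟨N0, fun N hN => ?_⟩
  have a1 : dist ((N : ℝ)⁻¹ • ∑ n ∈ Finset.range N, f (u n))
      ((N : ℝ)⁻¹ • ∑ n ∈ Finset.range N, g (u n)) ≤ dist f g := by
    rw [dist_eq_norm, ← smul_sub, ← Finset.sum_sub_distrib, norm_smul, Real.norm_eq_abs,
      abs_of_nonneg (by positivity)]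
    have := (norm_sum_le _ _).trans (Finset.sum_le_card_nsmul (Finset.range N)
      (fun n => ‖f (u n) - g (u n)‖) (dist f g) fun n _ => hp _)
    rw [Finset.card_range, nsmul_eq_mul] at this
    rcases Nat.eq_zero_or_pos N with h | h
    · simp [h]
    · rw [inv_mul_le_iff₀ (by exact_mod_cast h)]; exact this
  have a2 : dist (∫ t, g t ∂AddCircle.haarAddCircle) (∫ t, f t ∂AddCircle.haarAddCircle) ≤
      dist f g := by
    rw [dist_comm, dist_eq_norm, ← integral_sub (hint f) (hint g)]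
    have := norm_integral_le_of_norm_le_const (μ := AddCircle.haarAddCircle)
      (f := fun t => f t - g t) (C := dist f g) (Eventually.of_forall hp)
    simpa using this
  have := dist_triangle4 ((N : ℝ)⁻¹ • ∑ n ∈ Finset.range N, f (u n))
    ((N : ℝ)⁻¹ • ∑ n ∈ Finset.range N, g (u n)) (∫ t, g t ∂AddCircle.haarAddCircle)
    (∫ t, f t ∂AddCircle.haarAddCircle)
  have := hN0 N hN
  linarith

theorem weyl_lower (u : ℕ → ℝ) (hu : Weyl u) (R : ℕ) (hR : 0 < R) (v : ℕ) (hv : v < R) (ε : ℝ)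
    (hε : 0 < ε) : ∀ᶠ N : ℕ in atTop, 1 / (R : ℝ) - ε ≤
      (((Finset.range N).filter fun n => ⌊u n * R⌋ % (R : ℤ) = v).card : ℝ) / N := by
  have hR0 : (0 : ℝ) < R := by exact_mod_cast hR
  have hR1 : (1 : ℝ) ≤ R := by exact_mod_cast hR
  set ρ : ℝ := 1 / (2 * R) with hρ
  set c : ℝ := (v + 1 / 2) / R with hc
  set δ : ℝ := ε / 4 with hδ
  have hδ0 : 0 < δ := by positivity
  let g : AddCircle (1 : ℝ) → ℝ := fun t => max 0 (min 1 ((ρ - dist t (c : AddCircle (1 : ℝ))) / δ))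
  have hg : Continuous g := by fun_prop
  have hgi : Integrable g AddCircle.haarAddCircle :=
    hg.integrable_of_hasCompactSupport (HasCompactSupport.of_compactSpace _)
  have h1 := weyl_cont u hu ⟨fun t => (g t : ℂ), Complex.continuous_ofReal.comp hg⟩
  have h2 : Tendsto (fun N : ℕ => (N : ℝ)⁻¹ * ∑ n ∈ Finset.range N, g (u n)) atTop
      (𝓝 (∫ t, g t ∂AddCircle.haarAddCircle)) := by
    have := (Complex.continuous_re.tendsto _).comp h1
    simp only [ContinuousMap.coe_mk, integral_complex_ofReal, Complex.ofReal_re] at this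
    refine this.congr fun N => ?_
    simp [Function.comp]
  have h3 : 1 / (R : ℝ) - ε / 2 ≤ ∫ t, g t ∂AddCircle.haarAddCircle := by
    have hm : MeasurableSet (Metric.closedBall (c : AddCircle (1 : ℝ)) (ρ - δ)) :=
      Metric.isClosed_closedBall.measurableSet
    have hle : (Metric.closedBall (c : AddCircle (1 : ℝ)) (ρ - δ)).indicator (1 : AddCircle (1 : ℝ) → ℝ) ≤ g := by
      intro t
      by_cases ht : t ∈ Metric.closedBall (c : AddCircle (1 : ℝ)) (ρ - δ)
      · rw [Set.indicator_of_mem ht]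
        refine le_max_of_le_right (le_min le_rfl ?_)
        rw [Metric.mem_closedBall] at ht
        change 1 ≤ _
        rw [le_div_iff₀ hδ0]; linarith
      · rw [Set.indicator_of_notMem ht]; exact le_max_left _ _
    have := integral_mono ((integrable_const (1 : ℝ)).indicator hm) hgi hle
    refine le_trans ?_ this
    change _ ≤ ∫ t, (Metric.closedBall (c : AddCircle (1 : ℝ)) (ρ - δ)).indicator
      (1 : AddCircle (1 : ℝ) → ℝ) t ∂AddCircle.haarAddCircle
    rw [integral_indicator_one hm]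
    have hv := AddCircle.volume_closedBall (T := 1) (x := (c : AddCircle (1 : ℝ))) (ρ - δ)
    rw [AddCircle.volume_eq_smul_haarAddCircle, ENNReal.ofReal_one, one_smul] at hv
    rw [Measure.real, hv, ENNReal.toReal_ofReal']
    refine le_max_of_le_left (le_min ?_ (le_of_eq ?_))
    · have : 1 / (R : ℝ) ≤ 1 := by rw [div_le_one hR0]; exact hR1
      linarith
    · rw [hρ, hδ]; field_simp; ring
  have h4 : ∀ n, g (u n) ≤ if ⌊u n * R⌋ % (R : ℤ) = v then 1 else 0 := by
    intro n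
    split_ifs with h
    · exact max_le zero_le_one (min_le_left _ _)
    · refine max_le le_rfl ((min_le_right _ _).trans ?_)
      refine div_nonpos_of_nonpos_of_nonneg ?_ hδ0.le
      by_contra hc'
      push Not at hc'
      apply h
      have hd : dist (u n : AddCircle (1 : ℝ)) (c : AddCircle (1 : ℝ)) < ρ := by linarith
      rw [dist_eq_norm, ← AddCircle.coe_sub, UnitAddCircle.norm_eq, abs_lt] at hd
      set z := round (u n - c)
      have e1 : ρ * R = 1 / 2 := by rw [hρ]; field_simp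
      have e2 : c * R = v + 1 / 2 := by rw [hc]; field_simp
      have : ⌊u n * R⌋ = v + R * z := by
        rw [Int.floor_eq_iff]
        push_cast
        constructor <;> nlinarith [hd.1, hd.2]
      rw [this, Int.add_mul_emod_self_left]
      exact Int.emod_eq_of_lt (by positivity) (by exact_mod_cast hv)
  filter_upwards [h2.eventually (lt_mem_nhds (by linarith :
    1 / (R : ℝ) - ε < ∫ t, g t ∂AddCircle.haarAddCircle))] with N hN
  refine hN.le.trans ?_
  rw [div_eq_inv_mul]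
  refine mul_le_mul_of_nonneg_left ?_ (by positivity)
  refine (Finset.sum_le_sum fun n _ => h4 n).trans (le_of_eq ?_)
  simp

theorem weyl_freq (u : ℕ → ℝ) (hu : Weyl u) (R : ℕ) (hR : 0 < R) (v : ℕ) (hv : v < R) :
    Tendsto (fun N : ℕ =>
      (((Finset.range N).filter fun n => ⌊u n * R⌋ % (R : ℤ) = v).card : ℝ) / N) atTop
      (𝓝 (1 / (R : ℝ))) := by
  have hR0 : (0 : ℝ) < R := by exact_mod_cast hR
  rw [Metric.tendsto_atTop']
  intro ε hε
  have hε' : 0 < ε / (2 * R) := by positivity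
  have h1 : ∀ᶠ N : ℕ in atTop, ∀ w ∈ Finset.range R, 1 / (R : ℝ) - ε / (2 * R) ≤
      (((Finset.range N).filter fun n => ⌊u n * R⌋ % (R : ℤ) = w).card : ℝ) / N :=
    (Finset.eventually_all _).2 fun w hw => weyl_lower u hu R hR w (Finset.mem_range.1 hw) _ hε'
  obtain ⟨N0, hN0⟩ := eventually_atTop.1 h1
  refine ⟨N0, fun N hN => ?_⟩
  have hNpos : (0 : ℝ) < N := by exact_mod_cast (by omega : 0 < N)
  have h2 := hN0 N hN.le
  have hRz : (0 : ℤ) < R := by exact_mod_cast hR
  have hsum : ∑ w ∈ Finset.range R,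
      (((Finset.range N).filter fun n => ⌊u n * R⌋ % (R : ℤ) = (w : ℕ)).card : ℝ) / N = 1 := by
    rw [← Finset.sum_div, div_eq_one_iff_eq hNpos.ne']
    have := Finset.card_eq_sum_card_fiberwise (s := Finset.range N) (t := Finset.range R)
      (f := fun n => (⌊u n * R⌋ % (R : ℤ)).toNat) (fun n _ => by
        have := Int.emod_lt_of_pos ⌊u n * R⌋ hRz
        have := Int.emod_nonneg ⌊u n * R⌋ hRz.ne'
        exact Finset.mem_coe.2 (Finset.mem_range.2 (by simp only; omega)))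
    rw [Finset.card_range] at this
    conv_rhs => rw [this]
    push_cast
    refine Finset.sum_congr rfl fun w _ => ?_
    congr 2
    refine Finset.filter_congr fun n _ => ?_
    have := Int.emod_nonneg ⌊u n * R⌋ hRz.ne'
    constructor <;> intro h <;> omega
  have hvR : v ∈ Finset.range R := Finset.mem_range.2 hv
  rw [← Finset.add_sum_erase _ _ hvR] at hsum
  have h3 := Finset.card_nsmul_le_sum ((Finset.range R).erase v) (fun w : ℕ =>
    (((Finset.range N).filter fun n => ⌊u n * R⌋ % (R : ℤ) = (w : ℕ)).card : ℝ) / N)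
    (1 / (R : ℝ) - ε / (2 * R)) fun w hw => h2 w (Finset.mem_of_mem_erase hw)
  rw [Finset.card_erase_of_mem hvR, Finset.card_range, nsmul_eq_mul, Nat.cast_sub hR] at h3
  have h4 := h2 v hvR
  have h5 : ((R : ℝ) - (1 : ℕ)) * (1 / (R : ℝ) - ε / (2 * R)) =
      1 - 1 / R - ε / 2 + ε / (2 * R) := by push_cast; field_simp; ring
  have h6 : ε / (2 * R) ≤ ε / 2 := by
    have : (1 : ℝ) ≤ R := by exact_mod_cast hR
    exact div_le_div_of_nonneg_left hε.le (by norm_num) (by linarith)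
  rw [Real.dist_eq, abs_lt]
  constructor <;> linarith

theorem digit_eq (r k : ℕ) (hr : 0 < r) (t : ℝ) (j : Fin k) :
    ⌊t * (r : ℝ) ^ ((j : ℕ) + 1)⌋ % (r : ℤ) =
      (⌊t * ((r ^ k : ℕ) : ℝ)⌋ % ((r ^ k : ℕ) : ℤ)) / (r : ℤ) ^ (j.rev : ℕ) % r := by
  have hj : k = (j : ℕ) + 1 + (j.rev : ℕ) := by rw [Fin.val_rev]; omega
  have hr0 : (r : ℝ) ≠ 0 := by exact_mod_cast hr.ne'
  have e : t * (r : ℝ) ^ ((j : ℕ) + 1) = t * ((r ^ k : ℕ) : ℝ) / ((r ^ (j.rev : ℕ) : ℕ) : ℝ) := by
    have : (r : ℝ) ^ k = (r : ℝ) ^ ((j : ℕ) + 1) * (r : ℝ) ^ (j.rev : ℕ) := by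
      rw [← pow_add, ← hj]
    push_cast
    rw [this]; field_simp
  rw [e, Int.floor_div_natCast]
  set U := ⌊t * ((r ^ k : ℕ) : ℝ)⌋
  have hz : ((r : ℤ) ^ (j.rev : ℕ)) ≠ 0 := pow_ne_zero _ (by exact_mod_cast hr.ne')
  have e2 : U = U % ((r ^ k : ℕ) : ℤ) +
      (r : ℤ) ^ (j.rev : ℕ) * (r * ((r : ℤ) ^ (j : ℕ) * (U / ((r ^ k : ℕ) : ℤ)))) := by
    conv_lhs => rw [← Int.emod_add_mul_ediv U ((r ^ k : ℕ) : ℤ)]
    congr 1
    have : ((r ^ k : ℕ) : ℤ) = (r : ℤ) ^ (j.rev : ℕ) * (r * (r : ℤ) ^ (j : ℕ)) := by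
      rw [← pow_succ', ← pow_add, add_comm, ← hj]; push_cast; rfl
    rw [← mul_assoc (r : ℤ), ← mul_assoc, ← this]
  conv_lhs => rw [e2]
  push_cast
  rw [Int.add_mul_ediv_left _ _ hz, Int.add_mul_emod_self_left]

theorem digits_iff (r k : ℕ) (hr : 0 < r) (t : ℝ) (w : Fin k → Fin r) :
    (∀ j : Fin k, ⌊t * (r : ℝ) ^ ((j : ℕ) + 1)⌋ % (r : ℤ) = ((w j : ℕ) : ℤ)) ↔
      ⌊t * ((r ^ k : ℕ) : ℝ)⌋ % ((r ^ k : ℕ) : ℤ) =
        ((finFunctionFinEquiv (w ∘ Fin.rev) : ℕ) : ℤ) := by
  have hRz : (0 : ℤ) < ((r ^ k : ℕ) : ℤ) := by positivity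
  set U := ⌊t * ((r ^ k : ℕ) : ℝ)⌋ % ((r ^ k : ℕ) : ℤ) with hU
  have h0 : 0 ≤ U := Int.emod_nonneg _ hRz.ne'
  have h1 : U < ((r ^ k : ℕ) : ℤ) := Int.emod_lt_of_pos _ hRz
  let V : Fin (r ^ k) := ⟨U.toNat, by omega⟩
  have hV : ((V : ℕ) : ℤ) = U := Int.toNat_of_nonneg h0
  have hd : ∀ j : Fin k, ⌊t * (r : ℝ) ^ ((j : ℕ) + 1)⌋ % (r : ℤ) =
      ((finFunctionFinEquiv.symm V j.rev : ℕ) : ℤ) := by
    intro j
    rw [digit_eq r k hr, ← hU, ← hV, finFunctionFinEquiv_symm_apply_val]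
    push_cast; rfl
  rw [← hV, Nat.cast_inj, Fin.val_inj, ← Equiv.symm_apply_eq]
  simp only [hd, Nat.cast_inj, Fin.val_inj]
  constructor
  · intro h; funext b
    have := h b.rev
    rwa [Fin.rev_rev] at this
  · intro h j
    rw [h, Function.comp, Fin.rev_rev]

theorem normal_of_weyl (r : ℕ) (hr : 0 < r) (x : ℝ) (hx : Weyl fun n => x * (r : ℝ) ^ n) (k : ℕ)
    (w : Fin k → Fin r) :
    Tendsto (fun N : ℕ => ((((Finset.range N).filter (fun i => ∀ j : Fin k,
      ⌊x * (r : ℝ) ^ (i + (j : ℕ) + 1)⌋ % (r : ℤ) = ((w j : ℕ) : ℤ))).card : ℝ) / (N : ℝ)))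
      atTop (𝓝 (1 / (r : ℝ) ^ k)) := by
  have := weyl_freq _ hx (r ^ k) (by positivity) _ (finFunctionFinEquiv (w ∘ Fin.rev)).2
  rw [Nat.cast_pow] at this
  refine this.congr fun N => ?_
  congr 2
  refine congrArg _ (Finset.filter_congr fun i _ => ?_)
  rw [← Nat.cast_pow r k, ← digits_iff r k hr]
  refine forall_congr' fun j => ?_
  rw [mul_assoc, ← pow_add, add_assoc]

theorem entropy_of_weyl (r : ℕ) (hr : 0 < r) (x : ℝ) (hx : Weyl fun n => x * (r : ℝ) ^ n) (k : ℕ) :
    Tendsto (fun N : ℕ => ∑ w : Fin k → Fin r, Real.negMulLog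
      ((((Finset.range N).filter (fun i => ∀ j : Fin k,
      ⌊x * (r : ℝ) ^ (i + (j : ℕ) + 1)⌋ % (r : ℤ) = ((w j : ℕ) : ℤ))).card : ℝ) / (N : ℝ)))
      atTop (𝓝 (k * Real.log r)) := by
  have h := tendsto_finsetSum Finset.univ fun (w : Fin k → Fin r) _ =>
    (Real.continuous_negMulLog.tendsto _).comp (normal_of_weyl r hr x hx k w)
  have hr0 : (0 : ℝ) < r := by exact_mod_cast hr
  have e : ∑ _w : Fin k → Fin r, Real.negMulLog (1 / (r : ℝ) ^ k) = k * Real.log r := by
    rw [Finset.sum_const, Finset.card_univ, Fintype.card_fun, Fintype.card_fin, Fintype.card_fin,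
      nsmul_eq_mul, Real.negMulLog, one_div, Real.log_inv, Real.log_pow]
    push_cast; field_simp
  rw [e] at h
  exact h

theorem entropy_of_sparse (r : ℕ) (d : ℕ → ℤ)
    (hd : Tendsto (fun N : ℕ => (((Finset.range N).filter fun n => d n ≠ 0).card : ℝ) / N)
      atTop (𝓝 0)) :
    Tendsto (fun N : ℕ => ∑ w : Fin 1 → Fin r, Real.negMulLog
      ((((Finset.range N).filter (fun i => ∀ j : Fin 1,
      d (i + (j : ℕ)) = ((w j : ℕ) : ℤ))).card : ℝ) / (N : ℝ))) atTop (𝓝 0) := by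
  have h := tendsto_finsetSum Finset.univ (fun (w : Fin 1 → Fin r) _ =>
    show Tendsto (fun N : ℕ => Real.negMulLog ((((Finset.range N).filter (fun i => ∀ j : Fin 1,
      d (i + (j : ℕ)) = ((w j : ℕ) : ℤ))).card : ℝ) / (N : ℝ))) atTop (𝓝 0) from ?_)
  · simpa using h
  simp only [Fin.forall_fin_one, Fin.val_zero, add_zero]
  by_cases hw : (w 0 : ℕ) = 0
  · rw [← Real.negMulLog_one]
    refine (Real.continuous_negMulLog.tendsto _).comp ?_
    have := hd.const_sub 1
    rw [sub_zero] at this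
    refine this.congr' ?_
    filter_upwards [eventually_gt_atTop 0] with N hN
    have hN0 : (N : ℝ) ≠ 0 := by exact_mod_cast hN.ne'
    have := Finset.card_filter_add_card_filter_not (s := Finset.range N) (fun n => d n = 0)
    rw [Finset.card_range] at this
    rw [hw, eq_div_iff hN0, sub_mul, div_mul_cancel₀ _ hN0, one_mul, sub_eq_iff_eq_add]
    exact_mod_cast this.symm
  · rw [← Real.negMulLog_zero]
    refine (Real.continuous_negMulLog.tendsto _).comp ?_
    refine squeeze_zero (fun N => by positivity) (fun N => ?_) hd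
    refine div_le_div_of_nonneg_right ?_ (Nat.cast_nonneg N)
    exact_mod_cast Finset.card_le_card fun n hn => by
      rw [Finset.mem_filter] at hn ⊢
      exact ⟨hn.1, by rw [hn.2]; exact_mod_cast hw⟩

end Pool.Agent.Lib.helper23.DetA
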