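import Mathlib
import Pool.Agent.Lib.helper23.DetA

namespace Pool.Agent.Lib.helper23.DetB

open Filter Topology MeasureTheory Pool.Agent.Lib.helper23.DetA

theorem exists_far (θ : ℝ) (hθ : Irrational θ) (R : ℕ) (hR : 2 ≤ R) (s0 : ℕ) :
    ∃ s, s0 ≤ s ∧ 1 / (2 * (R : ℝ)) ≤ |θ * R ^ s - round (θ * R ^ s)| := by
  by_contra hc
  push Not at hc
  have hR0 : (0 : ℝ) < R := by positivity
  have hR2 : (2 : ℝ) ≤ R := by exact_mod_cast hR
  set ε : ℕ → ℝ := fun s => θ * R ^ s - round (θ * R ^ s) with hε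
  have step : ∀ s, s0 ≤ s → ε (s + 1) = R * ε s := by
    intro s hs
    have h1 := hc s hs
    have h2 := abs_sub_round (θ * R ^ (s + 1))
    have h3 : |(R : ℝ) * ε s| < 1 / 2 := by
      rw [abs_mul, abs_of_pos hR0]
      have := mul_lt_mul_of_pos_left h1 hR0
      have e : (R : ℝ) * (1 / (2 * R)) = 1 / 2 := by field_simp
      rw [e] at this
      exact this
    have h4 : ε (s + 1) - R * ε s = ((R * round (θ * R ^ s) - round (θ * R ^ (s + 1)) : ℤ) : ℝ) := by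
      simp only [hε]; push_cast; ring
    have h5 : |ε (s + 1) - R * ε s| < 1 := by
      have := abs_sub (ε (s + 1)) (R * ε s)
      change |ε (s + 1)| ≤ _ at h2
      linarith
    rw [h4, ← Int.cast_abs] at h5
    have h6 : |R * round (θ * R ^ s) - round (θ * R ^ (s + 1))| < 1 := by exact_mod_cast h5
    rw [Int.abs_lt_one_iff] at h6
    rw [h6] at h4
    simpa [sub_eq_zero] using h4
  have it : ∀ j, ε (s0 + j) = R ^ j * ε s0 := by
    intro j
    induction j with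
    | zero => simp
    | succ j ih => rw [← add_assoc, step _ (by omega), ih]; ring
  have h0 : ε s0 = 0 := by
    by_contra hne
    have hp : 0 < |ε s0| := abs_pos.2 hne
    obtain ⟨j, hj⟩ := pow_unbounded_of_one_lt (1 / |ε s0|) (by linarith : (1 : ℝ) < R)
    have h2 := abs_sub_round (θ * R ^ (s0 + j))
    change |ε (s0 + j)| ≤ _ at h2
    rw [it, abs_mul, abs_of_pos (by positivity)] at h2
    rw [div_lt_iff₀ hp] at hj
    linarith
  have h1 : Irrational (θ * ((R ^ s0 : ℕ) : ℝ)) := hθ.mul_natCast (by positivity)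
  refine h1.ne_int (round (θ * R ^ s0)) ?_
  push_cast
  exact sub_eq_zero.1 h0

theorem half_le_one (θ : ℝ) : ‖(1 + ee θ) / 2‖ ≤ 1 := by
  rw [norm_div]
  have := norm_add_le 1 (ee θ)
  rw [norm_ee, norm_one] at this
  simp only [Complex.norm_ofNat]
  linarith

theorem half_le (δ : ℝ) (hδ : 0 < δ) : ∃ ρ : ℝ, 0 ≤ ρ ∧ ρ < 1 ∧
    ∀ θ : ℝ, δ ≤ |θ - round θ| → ‖(1 + ee θ) / 2‖ ≤ ρ := by
  by_cases hδ2 : δ ≤ 1 / 2
  swap
  · exact ⟨0, le_rfl, one_pos, fun θ h => absurd (h.trans (abs_sub_round θ)) hδ2⟩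
  have hpi := Real.pi_pos
  have hc : Real.cos (2 * Real.pi * δ) < 1 := by
    rw [← Real.cos_zero]
    exact Real.cos_lt_cos_of_nonneg_of_le_pi le_rfl (by nlinarith) (by positivity)
  refine ⟨Real.sqrt ((1 + Real.cos (2 * Real.pi * δ)) / 2), Real.sqrt_nonneg _, ?_, fun θ h => ?_⟩
  · rw [Real.sqrt_lt' one_pos]; linarith
  · apply Real.le_sqrt_of_sq_le
    have h1 : Real.cos (2 * Real.pi * θ) ≤ Real.cos (2 * Real.pi * δ) := by
      have e : Real.cos (2 * Real.pi * θ) = Real.cos (2 * Real.pi * |θ - round θ|) := by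
        rw [← abs_of_pos (by positivity : 0 < 2 * Real.pi), ← abs_mul, Real.cos_abs,
          abs_of_pos (by positivity : 0 < 2 * Real.pi), mul_sub, mul_comm (2 * Real.pi) (round θ : ℝ),
          Real.cos_sub_int_mul_two_pi]
      rw [e]
      have := abs_sub_round θ
      exact Real.cos_le_cos_of_nonneg_of_le_pi (by positivity) (by nlinarith) (by nlinarith)
    have h2 : ‖(1 + ee θ) / 2‖ ^ 2 = (1 + Real.cos (2 * Real.pi * θ)) / 2 := by
      rw [norm_div, div_pow, Complex.sq_norm, Complex.normSq_apply, ee, mul_comm Complex.I]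
      simp only [Complex.add_re, Complex.one_re, Complex.exp_ofReal_mul_I_re, Complex.add_im,
        Complex.one_im, Complex.exp_ofReal_mul_I_im, Complex.norm_ofNat]
      have := Real.sin_sq_add_cos_sq (2 * Real.pi * θ)
      nlinarith
    linarith

theorem prod_anti (f : ℕ → ℝ) {J J' : ℕ} (h : J ≤ J') :
    ∏ s ∈ Finset.range J', ‖(1 + ee (f s)) / 2‖ ≤ ∏ s ∈ Finset.range J, ‖(1 + ee (f s)) / 2‖ :=
  Finset.prod_le_prod_of_subset_of_le_one (Finset.range_mono h) (fun _ _ => norm_nonneg _)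
    fun _ _ _ => half_le_one _

theorem prod_small (θ : ℝ) (hθ : Irrational θ) (R : ℕ) (hR : 2 ≤ R) (ε : ℝ) (hε : 0 < ε) :
    ∃ J, ∏ s ∈ Finset.range J, ‖(1 + ee (θ * R ^ s)) / 2‖ < ε := by
  obtain ⟨ρ, h0, h1, hρ⟩ := half_le (1 / (2 * (R : ℝ))) (by positivity)
  have key : ∀ j : ℕ, ∃ J, ∏ s ∈ Finset.range J, ‖(1 + ee (θ * R ^ s)) / 2‖ ≤ ρ ^ j := by
    intro j
    induction j with
    | zero => exact ⟨0, by simp⟩
    | succ j ih =>
      obtain ⟨J, hJ⟩ := ih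
      obtain ⟨s, hs, hf⟩ := exists_far θ hθ R hR J
      refine ⟨s + 1, ?_⟩
      rw [Finset.prod_range_succ, pow_succ]
      exact mul_le_mul ((prod_anti (fun s => θ * R ^ s) hs).trans hJ) (hρ _ hf) (norm_nonneg _)
        (by positivity)
  obtain ⟨j, hj⟩ := exists_pow_lt_of_lt_one hε h1
  obtain ⟨J, hJ⟩ := key j
  exact ⟨J, hJ.trans_lt hj⟩

theorem prod_small_unif {Ω : Type*} [TopologicalSpace Ω] [CompactSpace Ω] (b : Ω → ℝ)
    (hb : Continuous b) (hi : ∀ ω, Irrational (b ω)) (R : ℕ) (hR : 2 ≤ R) (ε : ℝ) (hε : 0 < ε) :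
    ∀ᶠ J in atTop, ∀ ω, ∏ s ∈ Finset.range J, ‖(1 + ee (b ω * R ^ s)) / 2‖ ≤ ε := by
  let U : ℕ → Set Ω := fun J => {ω | ∏ s ∈ Finset.range J, ‖(1 + ee (b ω * R ^ s)) / 2‖ < ε}
  have hU : ∀ J, IsOpen (U J) := fun J => by
    refine isOpen_lt (continuous_finsetProd _ fun s _ => ?_) continuous_const
    have := continuous_ee
    fun_prop
  have hm : Monotone U := fun J J' h ω hω => (prod_anti (fun s => b ω * R ^ s) h).trans_lt hω
  obtain ⟨J, hJ⟩ := isCompact_univ.elim_directed_cover U hU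
    (fun ω _ => Set.mem_iUnion.2 (prod_small _ (hi ω) R hR ε hε)) hm.directed_le
  filter_upwards [eventually_ge_atTop J] with J' h ω
  exact (hm h (hJ (Set.mem_univ ω))).le

abbrev Om := ℕ → ZMod 2

instance : MeasurableSpace Om := borel _
instance : BorelSpace Om := ⟨rfl⟩

noncomputable def mu : Measure Om := Measure.addHaarMeasure ⊤

instance : mu.IsAddHaarMeasure := by unfold mu; infer_instance
instance : IsProbabilityMeasure mu := ⟨Measure.addHaarMeasure_self⟩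

theorem cint {G : Om → ℂ} (h : Continuous G) : Integrable G mu :=
  h.integrable_of_hasCompactSupport (HasCompactSupport.of_compactSpace _)

theorem flip (G : Om → ℂ) (m : ℕ) : ∫ ξ, G (ξ + Pi.single m 1) ∂mu = ∫ ξ, G ξ ∂mu :=
  integral_add_right_eq_self G _

theorem cont_eval (f : Om → ZMod 2 → ℂ) (hf : ∀ z, Continuous fun ξ => f ξ z) (m : ℕ) :
    Continuous fun ξ => f ξ (ξ m) := by
  have e : (fun ξ => f ξ (ξ m)) = fun ξ => ∑ z : ZMod 2, (if ξ m = z then 1 else 0) * f ξ z := by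
    funext ξ; simp
  rw [e]
  refine continuous_finsetSum _ fun z _ => Continuous.mul ?_ (hf z)
  exact (continuous_of_discreteTopology (f := fun w : ZMod 2 => if w = z then (1 : ℂ) else 0)).comp
    (continuous_apply m)

theorem prod_avg (f : ℕ → Om → ZMod 2 → ℂ) (hf : ∀ m z, Continuous fun ξ => f m ξ z)
    (B : Finset ℕ) (hinv : ∀ m ∈ B, ∀ m' ξ z, f m' (ξ + Pi.single m 1) z = f m' ξ z)
    (G : Om → ℂ) (hG : Continuous G) (hGi : ∀ m ∈ B, ∀ ξ, G (ξ + Pi.single m 1) = G ξ) :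
    ∫ ξ, G ξ * ∏ m ∈ B, f m ξ (ξ m) ∂mu = ∫ ξ, G ξ * ∏ m ∈ B, (f m ξ 0 + f m ξ 1) / 2 ∂mu := by
  classical
  induction B using Finset.induction_on generalizing G with
  | empty => simp
  | insert a B ha ih =>
    simp only [Finset.prod_insert ha, ← mul_assoc]
    rw [ih (fun m hm => hinv m (Finset.mem_insert_of_mem hm)) (fun ξ => G ξ * f a ξ (ξ a))
      (hG.mul (cont_eval _ (hf a) a)) (fun m hm ξ => by
        have : m ≠ a := fun h => ha (h ▸ hm)
        rw [hGi m (Finset.mem_insert_of_mem hm), hinv m (Finset.mem_insert_of_mem hm), Pi.add_apply,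
          Pi.single_eq_of_ne this.symm, add_zero])]
    set P : Om → ℂ := fun ξ => ∏ m ∈ B, (f m ξ 0 + f m ξ 1) / 2 with hP
    have hPc : Continuous P := continuous_finsetProd _ fun m _ => ((hf m 0).add (hf m 1)).div_const _
    have hPi : ∀ ξ, P (ξ + Pi.single a 1) = P ξ := fun ξ =>
      Finset.prod_congr rfl fun m _ => by
        rw [hinv a (Finset.mem_insert_self _ _), hinv a (Finset.mem_insert_self _ _)]
    set H : Om → ℂ := fun ξ => G ξ * f a ξ (ξ a) * P ξ with hH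
    have hHc : Continuous H := (hG.mul (cont_eval _ (hf a) a)).mul hPc
    have hHc' : Continuous fun ξ => H (ξ + Pi.single a 1) := 
      hHc.comp (f := fun ξ : Om => ξ + Pi.single a 1) (by fun_prop)
    have e1 : ∫ ξ, H ξ ∂mu = ∫ ξ, (H ξ + H (ξ + Pi.single a 1)) / 2 ∂mu := by
      rw [integral_div, integral_add (cint hHc) (cint hHc'), flip H a]; ring
    change ∫ ξ, H ξ ∂mu = ∫ ξ, G ξ * ((f a ξ 0 + f a ξ 1) / 2) * P ξ ∂mu
    rw [e1]
    refine integral_congr_ae (Eventually.of_forall fun ξ => ?_)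
    simp only [hH]
    rw [hPi, hGi a (Finset.mem_insert_self _ _), hinv a (Finset.mem_insert_self _ _), Pi.add_apply,
      Pi.single_eq_same]
    have : ∀ z : ZMod 2, z = 0 ∨ z = 1 := by decide
    rcases this (ξ a) with h | h
    · rw [h, zero_add]; ring
    · rw [h, show (1 : ZMod 2) + 1 = 0 by decide]; ring

theorem second_moment (Y : ℕ → Om → ℂ) (hc : ∀ n, Continuous (Y n)) (hb : ∀ n ξ, ‖Y n ξ‖ ≤ 2)
    (ho : ∀ n n', n' + 2 * Nat.sqrt n ≤ n →
      ∫ ξ, (starRingEnd ℂ) (Y n' ξ) * Y n ξ ∂mu = 0) (N : ℕ) :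
    ∫ ξ, ‖∑ n ∈ Finset.range N, Y n ξ‖ ^ 2 ∂mu ≤ 4 * N * (4 * Nat.sqrt N + 1) := by
  set W := Nat.sqrt N with hW
  have hcc : ∀ n n', Continuous fun ξ => (starRingEnd ℂ) (Y n' ξ) * Y n ξ := fun n n' =>
    (Complex.continuous_conj.comp (hc n')).mul (hc n)
  have e1 : ((∫ ξ, ‖∑ n ∈ Finset.range N, Y n ξ‖ ^ 2 ∂mu : ℝ) : ℂ) =
      ∑ n' ∈ Finset.range N, ∑ n ∈ Finset.range N,
        ∫ ξ, (starRingEnd ℂ) (Y n' ξ) * Y n ξ ∂mu := by
    rw [← integral_complex_ofReal]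
    simp_rw [← integral_finsetSum _ fun n _ => cint (hcc n _)]
    rw [← integral_finsetSum _ fun n' _ => cint (continuous_finsetSum _ fun n _ => hcc n n')]
    refine integral_congr_ae (Eventually.of_forall fun ξ => ?_)
    simp only
    rw [← Finset.sum_mul_sum, ← map_sum, Complex.conj_mul']
    push_cast; rfl
  have h4 : ∀ n n', ‖∫ ξ, (starRingEnd ℂ) (Y n' ξ) * Y n ξ ∂mu‖ ≤ 4 := fun n n' => by
    have := norm_integral_le_of_norm_le_const (μ := mu)
      (f := fun ξ => (starRingEnd ℂ) (Y n' ξ) * Y n ξ) (C := 4) (Eventually.of_forall fun ξ => by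
        rw [norm_mul, Complex.norm_conj]
        nlinarith [hb n ξ, hb n' ξ, norm_nonneg (Y n ξ), norm_nonneg (Y n' ξ)])
    simpa using this
  have h5 : ∀ n' ∈ Finset.range N, ∀ n ∈ Finset.range N,
      ‖∫ ξ, (starRingEnd ℂ) (Y n' ξ) * Y n ξ ∂mu‖ ≤
        if n ∈ Finset.Icc (n' - 2 * W) (n' + 2 * W) then 4 else 0 := by
    intro n' hn' n hn
    split_ifs with h
    · exact h4 n n'
    · rw [Finset.mem_range] at hn hn'
      rw [Finset.mem_Icc] at h
      have s1 : Nat.sqrt n ≤ W := Nat.sqrt_le_sqrt hn.le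
      have s2 : Nat.sqrt n' ≤ W := Nat.sqrt_le_sqrt hn'.le
      by_cases h' : n' + 2 * Nat.sqrt n ≤ n
      · rw [ho n n' h', norm_zero]
      · have := ho n' n (by omega)
        have e : ∫ ξ, (starRingEnd ℂ) (Y n' ξ) * Y n ξ ∂mu =
            (starRingEnd ℂ) (∫ ξ, (starRingEnd ℂ) (Y n ξ) * Y n' ξ ∂mu) := by
          rw [← integral_conj]
          refine integral_congr_ae (Eventually.of_forall fun ξ => ?_)
          simp [mul_comm]
        rw [e, this, map_zero, norm_zero]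
  have h6 : ∀ n' ∈ Finset.range N, ‖∑ n ∈ Finset.range N,
      ∫ ξ, (starRingEnd ℂ) (Y n' ξ) * Y n ξ ∂mu‖ ≤ 4 * (4 * W + 1) := by
    intro n' hn'
    refine (norm_sum_le _ _).trans ((Finset.sum_le_sum (h5 n' hn')).trans ?_)
    rw [Finset.sum_ite_mem, Finset.sum_const, nsmul_eq_mul]
    have : (Finset.range N ∩ Finset.Icc (n' - 2 * W) (n' + 2 * W)).card ≤ 4 * W + 1 := by
      refine (Finset.card_le_card Finset.inter_subset_right).trans ?_
      rw [Nat.card_Icc]; omega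
    have : ((Finset.range N ∩ Finset.Icc (n' - 2 * W) (n' + 2 * W)).card : ℝ) ≤ 4 * W + 1 := by
      exact_mod_cast this
    linarith
  have h7 := (norm_sum_le _ _).trans (Finset.sum_le_card_nsmul _ _ _ h6)
  rw [← e1, Complex.norm_real, Finset.card_range, nsmul_eq_mul] at h7
  have := (le_abs_self _).trans h7
  linarith

theorem ae_avg (Y : ℕ → Om → ℂ) (hc : ∀ n, Continuous (Y n)) (hb : ∀ n ξ, ‖Y n ξ‖ ≤ 2)
    (ho : ∀ n n', n' + 2 * Nat.sqrt n ≤ n →
      ∫ ξ, (starRingEnd ℂ) (Y n' ξ) * Y n ξ ∂mu = 0) :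
    ∀ᵐ ξ ∂mu, Tendsto (fun N : ℕ => (N : ℝ)⁻¹ • ∑ n ∈ Finset.range N, Y n ξ) atTop (𝓝 0) := by
  let F : ℕ → Om → ℝ := fun j ξ =>
    ‖∑ n ∈ Finset.range ((j + 1) ^ 4), Y n ξ‖ ^ 2 / ((j : ℝ) + 1) ^ 8
  have hFc : ∀ j, Continuous (F j) := fun j =>
    ((continuous_finsetSum _ fun n _ => hc n).norm.pow 2).div_const _
  have hFi : ∀ j, Integrable (F j) mu := fun j =>
    (hFc j).integrable_of_hasCompactSupport (HasCompactSupport.of_compactSpace _)
  have hF0 : ∀ j ξ, 0 ≤ F j ξ := fun j ξ => by positivity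
  have hF : ∀ j : ℕ, ∫ ξ, F j ξ ∂mu ≤ 20 * (1 / ((j + 1 : ℕ) : ℝ) ^ 2) := by
    intro j
    have h1 := second_moment Y hc hb ho ((j + 1) ^ 4)
    have e : Nat.sqrt ((j + 1) ^ 4) = (j + 1) ^ 2 := by
      rw [show (j + 1) ^ 4 = ((j + 1) ^ 2) ^ 2 by ring, Nat.sqrt_eq']
    rw [e] at h1
    simp only [F]
    rw [integral_div, div_le_iff₀ (by positivity)]
    refine h1.trans ?_
    push_cast
    have h2 : (1 : ℝ) ≤ ((j : ℝ) + 1) ^ 2 := one_le_pow₀ (by linarith [Nat.cast_nonneg (α := ℝ) j])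
    have h3 : 20 * (1 / ((j : ℝ) + 1) ^ 2) * ((j : ℝ) + 1) ^ 8 =
        4 * ((j : ℝ) + 1) ^ 4 * (5 * ((j : ℝ) + 1) ^ 2) := by field_simp; ring
    rw [h3]
    exact mul_le_mul_of_nonneg_left (by linarith) (by positivity)
  have hs : Summable fun j : ℕ => 20 * (1 / ((j + 1 : ℕ) : ℝ) ^ 2) :=
    ((summable_nat_add_iff 1).2 (Real.summable_one_div_nat_pow.2 one_lt_two)).mul_left 20
  have hfin : ∫⁻ ξ, ∑' j, ENNReal.ofReal (F j ξ) ∂mu ≠ ⊤ := by
    rw [lintegral_tsum fun j => (hFc j).measurable.ennreal_ofReal.aemeasurable]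
    refine ne_top_of_le_ne_top (ENNReal.ofReal_ne_top (r := ∑' j : ℕ,
      20 * (1 / ((j + 1 : ℕ) : ℝ) ^ 2))) ?_
    rw [ENNReal.ofReal_tsum_of_nonneg (fun _ => by positivity) hs]
    refine ENNReal.tsum_le_tsum fun j => ?_
    rw [← ofReal_integral_eq_lintegral_ofReal (hFi j) (Eventually.of_forall (hF0 j))]
    exact ENNReal.ofReal_le_ofReal (hF j)
  have hae := ae_lt_top (Measurable.tsum fun j => (hFc j).measurable.ennreal_ofReal) hfin
  filter_upwards [hae] with ξ hξ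
  have h1 : Tendsto (fun j => F j ξ) atTop (𝓝 0) := by
    have := (ENNReal.tendsto_toReal ENNReal.zero_ne_top).comp
      (ENNReal.tendsto_atTop_zero_of_tsum_ne_top hξ.ne)
    refine this.congr fun j => ?_
    simp [hF0 j ξ]
  have h2 : Tendsto (fun j : ℕ => ‖∑ n ∈ Finset.range (j ^ 4), Y n ξ‖ / (j : ℝ) ^ 4) atTop
      (𝓝 0) := by
    rw [← tendsto_add_atTop_iff_nat 1]
    have := h1.sqrt
    rw [Real.sqrt_zero] at this
    refine this.congr fun j => ?_
    simp only [F]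
    rw [show ((j : ℝ) + 1) ^ 8 = (((j : ℝ) + 1) ^ 4) ^ 2 by ring, ← div_pow,
      Real.sqrt_sq (by positivity)]
    push_cast; rfl
  have hsq : Tendsto Nat.sqrt atTop atTop :=
    tendsto_atTop_atTop_of_monotone (fun a b h => Nat.sqrt_le_sqrt h)
      fun b => ⟨b * b, by rw [Nat.sqrt_eq]⟩
  have hJ := hsq.comp hsq
  have h3 := (h2.add (tendsto_const_div_atTop_nhds_zero_nat 30)).comp hJ
  rw [add_zero] at h3
  refine squeeze_zero_norm' ?_ h3
  filter_upwards [hJ.eventually_ge_atTop 1] with N hN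
  simp only [Function.comp] at hN ⊢
  set j := Nat.sqrt (Nat.sqrt N) with hj
  have a1 : j ^ 4 ≤ N := by
    have b1 : j ^ 2 ≤ Nat.sqrt N := Nat.sqrt_le' _
    have b2 := Nat.sqrt_le' N
    calc j ^ 4 = (j ^ 2) ^ 2 := by ring
      _ ≤ (Nat.sqrt N) ^ 2 := Nat.pow_le_pow_left b1 2
      _ ≤ N := b2
  have a2 : N ≤ (j + 1) ^ 4 := by
    have b1 : Nat.sqrt N < (j + 1) ^ 2 := Nat.lt_succ_sqrt' _
    have b2 : N < (Nat.sqrt N + 1) ^ 2 := Nat.lt_succ_sqrt' _
    calc N ≤ (Nat.sqrt N + 1) ^ 2 := b2.le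
      _ ≤ ((j + 1) ^ 2) ^ 2 := Nat.pow_le_pow_left b1 2
      _ = (j + 1) ^ 4 := by ring
  have hj1 : (1 : ℝ) ≤ j := by exact_mod_cast hN
  have a1' : (j : ℝ) ^ 4 ≤ N := by exact_mod_cast a1
  have a2' : (N : ℝ) ≤ ((j : ℝ) + 1) ^ 4 := by exact_mod_cast a2
  have hj4 : (0 : ℝ) < (j : ℝ) ^ 4 := by positivity
  have a3 : ‖∑ n ∈ Finset.range N, Y n ξ‖ ≤ ‖∑ n ∈ Finset.range (j ^ 4), Y n ξ‖ + 30 * j ^ 3 := by
    rw [← Finset.sum_range_add_sum_Ico _ a1]
    refine (norm_add_le _ _).trans (add_le_add le_rfl ?_)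
    refine (norm_sum_le _ _).trans ((Finset.sum_le_card_nsmul _ _ 2 fun n _ => hb n ξ).trans ?_)
    rw [Nat.card_Ico, nsmul_eq_mul, Nat.cast_sub a1]
    push_cast
    have c1 : (j : ℝ) ≤ j ^ 2 := by nlinarith
    have c2 : (j : ℝ) ^ 2 ≤ j ^ 3 := by nlinarith
    nlinarith
  rw [norm_smul, Real.norm_eq_abs, abs_of_nonneg (by positivity), inv_mul_eq_div]
  refine (div_le_div₀ (by positivity) a3 hj4 a1').trans (le_of_eq ?_)
  field_simp

end Pool.Agent.Lib.helper23.DetB
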