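import Mathlib
import Pool.Agent.Lib.helper23.DetB

namespace Pool.Agent.Lib.helper23.DetC

open Filter Topology MeasureTheory Pool.Agent.Lib.helper23.DetA Pool.Agent.Lib.helper23.DetB

noncomputable def tl (r : ℕ) (d : Om) : ℝ := ∑' m, ((d m).val : ℝ) / (r : ℝ) ^ (m + 1)

theorem val_le (z : ZMod 2) : (z.val : ℝ) ≤ 1 := by
  have := ZMod.val_lt z
  exact_mod_cast (by omega : z.val ≤ 1)

theorem term_le (r : ℕ) (hr : 2 ≤ r) (z : ZMod 2) (m : ℕ) :
    (z.val : ℝ) / (r : ℝ) ^ (m + 1) ≤ 1 / 2 / 2 ^ m := by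
  have h2 : (2 : ℝ) ≤ r := by exact_mod_cast hr
  rw [div_div, ← pow_succ']
  exact div_le_div₀ zero_le_one (val_le z) (by positivity) (pow_le_pow_left₀ (by norm_num) h2 _)

theorem tl_summable (r : ℕ) (hr : 2 ≤ r) (d : Om) :
    Summable fun m => ((d m).val : ℝ) / (r : ℝ) ^ (m + 1) :=
  Summable.of_nonneg_of_le (fun _ => by positivity) (fun m => term_le r hr _ m)
    (summable_geometric_two' 1)

theorem tl_nonneg (r : ℕ) (d : Om) : 0 ≤ tl r d := tsum_nonneg fun _ => by positivity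

theorem tl_le (r : ℕ) (hr : 2 ≤ r) (d : Om) : tl r d ≤ 1 := by
  rw [← tsum_geometric_two' 1]
  exact (tl_summable r hr d).tsum_le_tsum (fun m => term_le r hr _ m) (summable_geometric_two' 1)

theorem tl_lt (r : ℕ) (hr : 2 ≤ r) (d : Om) (j : ℕ) (hj : d j = 0) : tl r d < 1 := by
  rw [← tsum_geometric_two' 1]
  refine (tl_summable r hr d).tsum_lt_tsum (i := j) (fun m => term_le r hr _ m) ?_
    (summable_geometric_two' 1)
  simp [hj]

theorem tl_cont (r : ℕ) (hr : 2 ≤ r) : Continuous (tl r) := by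
  refine continuous_tsum (fun m => ?_) (summable_geometric_two' 1) fun m d => ?_
  · exact ((continuous_of_discreteTopology (f := fun z : ZMod 2 => (z.val : ℝ))).comp
      (continuous_apply m)).div_const _
  · rw [Real.norm_of_nonneg (by positivity)]; exact term_le r hr _ m

theorem tl_step (r : ℕ) (hr : 2 ≤ r) (d : Om) :
    tl r d * r = (d 0).val + tl r fun j => d (j + 1) := by
  have h0 : (r : ℝ) ≠ 0 := by positivity
  unfold tl
  rw [(tl_summable r hr d).tsum_eq_zero_add, add_mul, ← tsum_mul_right]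
  congr 1
  · simp [h0]
  · refine tsum_congr fun m => ?_
    rw [pow_succ _ (m + 1)]; field_simp

def II (r : ℕ) (d : Om) : ℕ → ℤ
  | 0 => 1
  | n + 1 => r * II r d n + (d n).val

theorem split (r : ℕ) (hr : 2 ≤ r) (d : Om) (n : ℕ) :
    (1 + tl r d) * (r : ℝ) ^ n = II r d n + tl r fun j => d (j + n) := by
  induction n with
  | zero => simp [II]
  | succ n ih =>
    rw [pow_succ, ← mul_assoc, ih, add_mul, tl_step r hr, II]
    simp only [zero_add]
    have : (fun j => d (j + 1 + n)) = fun j => d (j + (n + 1)) := by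
      funext j; congr 1; ring
    rw [this]; push_cast; ring

theorem II_congr (r : ℕ) (d d' : Om) (n : ℕ) (h : ∀ m < n, d m = d' m) : II r d n = II r d' n := by
  induction n with
  | zero => rfl
  | succ n ih => rw [II, II, ih fun m hm => h m (by omega), h n (by omega)]

theorem close (r : ℕ) (hr : 2 ≤ r) (d d' : Om) (n : ℕ) (h : ∀ m < n, d m = d' m) :
    |(1 + tl r d) - (1 + tl r d')| ≤ 1 / (r : ℝ) ^ n := by
  have h0 : (0 : ℝ) < (r : ℝ) ^ n := by positivity
  rw [le_div_iff₀ h0, ← abs_of_pos h0, ← abs_mul, sub_mul, split r hr, split r hr,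
    II_congr r d d' n h, abs_le]
  have := tl_nonneg r fun j => d (j + n)
  have := tl_nonneg r fun j => d' (j + n)
  have := tl_le r hr fun j => d (j + n)
  have := tl_le r hr fun j => d' (j + n)
  constructor <;> linarith

theorem digit (r : ℕ) (hr : 2 ≤ r) (d : Om) (hd : ∀ m, m % 4 = 3 → d m = 0) (n : ℕ) :
    ⌊(1 + tl r d) * (r : ℝ) ^ (n + 1)⌋ % (r : ℤ) = (d n).val := by
  have h1 : ⌊(1 + tl r d) * (r : ℝ) ^ (n + 1)⌋ = II r d (n + 1) := by
    rw [split r hr, Int.floor_intCast_add, Int.floor_eq_zero_iff.2, add_zero]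
    exact ⟨tl_nonneg _ _, tl_lt r hr _ (3 * (n + 1) + 3) (hd _ (by omega))⟩
  rw [h1, II, add_comm, Int.add_mul_emod_self_left]
  have := ZMod.val_lt (d n)
  exact Int.emod_eq_of_lt (by positivity) (by omega)

def comb (β ξ : Om) : Om := fun m => if m % 2 = 0 then ξ m else β m

open Classical in
noncomputable def bet (ζ : Om) : Om :=
  fun m => if ∃ j, m = 2 ^ (j + 2) + 1 then ζ (Nat.log 2 (m - 1) - 2) else 0

theorem comb_three (ζ ξ : Om) (m : ℕ) (hm : m % 4 = 3) : comb (bet ζ) ξ m = 0 := by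
  rw [comb, if_neg (by omega), bet, if_neg]
  rintro ⟨j, rfl⟩
  rw [pow_add] at hm
  omega

theorem comb_pos (ζ ξ : Om) (j : ℕ) : comb (bet ζ) ξ (2 ^ (j + 2) + 1) = ζ j := by
  rw [comb, if_neg (by rw [pow_add]; omega), bet, if_pos ⟨j, rfl⟩, Nat.add_sub_cancel,
    Nat.log_pow (by norm_num), Nat.add_sub_cancel]

theorem exists_zeta (r : ℕ) (hr : 2 ≤ r) (S : Set ℝ) (hS : S.Countable) :
    ∃ ζ : Om, ∀ ξ, 1 + tl r (comb (bet ζ) ξ) ∉ S := by
  let g : ℝ → Om := fun y j => ((⌊y * (r : ℝ) ^ (2 ^ (j + 2) + 1 + 1)⌋ % (r : ℤ) : ℤ) : ZMod 2)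
  by_contra hc
  push Not at hc
  have hsub : (Set.univ : Set Om) ⊆ g '' S := by
    intro ζ _
    obtain ⟨ξ, hξ⟩ := hc ζ
    refine ⟨_, hξ, ?_⟩
    funext j
    simp only [g]
    rw [digit r hr _ (comb_three ζ ξ), comb_pos]
    simp
  obtain ⟨f, hf⟩ := ((hS.image g).mono hsub).exists_eq_range Set.univ_nonempty
  obtain ⟨n, hn⟩ : (fun j => f j j + 1) ∈ Set.range f := hf ▸ Set.mem_univ _
  have := congrFun hn n
  simp at this

theorem comb_cont (β : Om) : Continuous (comb β) := by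
  refine continuous_pi fun m => ?_
  unfold comb
  split_ifs
  · exact continuous_apply m
  · exact continuous_const

theorem sparse_density (p : ℕ → Prop) [DecidablePred p]
    (h : ∀ k : ℕ, ∃ n0, ∀ m, n0 ≤ m → p m → 2 ^ k ∣ m ∨ 2 ^ k ∣ (m - 1)) :
    Tendsto (fun N : ℕ => (((Finset.range N).filter p).card : ℝ) / N) atTop (𝓝 0) := by
  rw [Metric.tendsto_atTop']
  intro ε hε
  obtain ⟨k, hk⟩ := exists_pow_lt_of_lt_one (by positivity : 0 < ε / 4) (by norm_num : (1 / 2 : ℝ) < 1)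
  obtain ⟨n0, hn0⟩ := h k
  obtain ⟨N0, hN0⟩ := exists_nat_ge (((n0 : ℝ) + 3) / (ε / 2))
  refine ⟨N0, fun N hN => ?_⟩
  have hN' : (0 : ℝ) < N := by exact_mod_cast (by omega : 0 < N)
  have hcnt : ∀ c : ℕ, (((Finset.range N).filter fun m => c ≤ m ∧ 2 ^ k ∣ (m - c)).card : ℝ) ≤
      N / 2 ^ k + 1 := by
    intro c
    have : ((Finset.range N).filter fun m => c ≤ m ∧ 2 ^ k ∣ (m - c)).card ≤
        (Finset.range (N / 2 ^ k + 1)).card := by
      refine Finset.card_le_card_of_injOn (fun m => (m - c) / 2 ^ k) ?_ ?_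
      · intro m hm
        have := Finset.mem_range.1 (Finset.mem_filter.1 hm).1
        exact Finset.mem_coe.2 (Finset.mem_range.2
          (Nat.lt_succ_of_le (Nat.div_le_div_right (by omega))))
      · intro m hm m' hm' e
        have h1 := (Finset.mem_filter.1 hm).2
        have h2 := (Finset.mem_filter.1 hm').2
        have h3 := Nat.div_mul_cancel h1.2
        have h4 := Nat.div_mul_cancel h2.2
        simp only at e
        rw [e, h4] at h3
        omega
    rw [Finset.card_range] at this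
    have h2 : ((N / 2 ^ k : ℕ) : ℝ) ≤ N / 2 ^ k := by
      have := @Nat.cast_div_le ℝ _ _ _ N (2 ^ k)
      simpa using this
    have h3 : ((((Finset.range N).filter fun m => c ≤ m ∧ 2 ^ k ∣ (m - c)).card : ℕ) : ℝ) ≤
      ((N / 2 ^ k + 1 : ℕ) : ℝ) := by exact_mod_cast this
    push_cast at h3
    linarith
  have hsub : (Finset.range N).filter p ⊆ Finset.range (n0 + 1) ∪
      (((Finset.range N).filter fun m => 0 ≤ m ∧ 2 ^ k ∣ (m - 0)) ∪
      ((Finset.range N).filter fun m => 1 ≤ m ∧ 2 ^ k ∣ (m - 1))) := by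
    intro m hm
    rw [Finset.mem_filter] at hm
    simp only [Finset.mem_union, Finset.mem_filter]
    by_cases h1 : m < n0 + 1
    · exact Or.inl (Finset.mem_range.2 h1)
    · rcases hn0 m (by omega) hm.2 with h2 | h2
      · exact Or.inr (Or.inl ⟨hm.1, by omega, by simpa using h2⟩)
      · exact Or.inr (Or.inr ⟨hm.1, by omega, h2⟩)
  have h1 := (Finset.card_le_card hsub).trans ((Finset.card_union_le _ _).trans
    (Nat.add_le_add_left (Finset.card_union_le _ _) _))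
  rw [Finset.card_range] at h1
  have h2 : (((Finset.range N).filter p).card : ℝ) ≤ n0 + 1 + (N / 2 ^ k + 1 + (N / 2 ^ k + 1)) := by
    have h3 := (Nat.cast_le (α := ℝ)).2 h1
    push_cast at h3
    linarith [hcnt 0, hcnt 1]
  rw [Real.dist_eq, sub_zero, abs_of_nonneg (by positivity), div_lt_iff₀ hN']
  have h4 : (N : ℝ) / 2 ^ k < ε / 4 * N := by
    rw [one_div, inv_pow] at hk
    rw [div_eq_inv_mul]
    exact mul_lt_mul_of_pos_right hk hN'
  have h5 : (n0 : ℝ) + 3 ≤ N * (ε / 2) := by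
    rw [div_le_iff₀ (by positivity)] at hN0
    have : (N0 : ℝ) ≤ N := by exact_mod_cast hN.le
    nlinarith
  linarith

theorem sqrt_top : Tendsto Nat.sqrt atTop atTop :=
  tendsto_atTop_atTop_of_monotone (fun _ _ h => Nat.sqrt_le_sqrt h)
    fun b => ⟨b * b, by rw [Nat.sqrt_eq]⟩

theorem exists_kappa (r : ℕ) (hr : 2 ≤ r) (b : Om → ℝ) (hb : Continuous b)
    (hi : ∀ ω, Irrational (b ω)) :
    ∃ κ : ℕ → ℕ, Monotone κ ∧ Tendsto κ atTop atTop ∧ ∀ h : ℤ, h ≠ 0 → ∀ ε : ℝ, 0 < ε →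
      ∀ᶠ n in atTop, ∃ J, 2 ^ (κ n + 1) * J ≤ Nat.sqrt n ∧ ∀ c < 2 ^ (κ n + 1), ∀ ω,
        ∏ s ∈ Finset.range J, ‖(1 + ee (h * (r : ℝ) ^ c * b ω *
          ((r ^ 2 ^ (κ n + 1) : ℕ) : ℝ) ^ s)) / 2‖ ≤ ε := by
  classical
  have hJ : ∀ k : ℕ, ∃ J, ∀ h ∈ (Finset.Icc (-(k : ℤ)) k).erase 0,
      ∀ c ∈ Finset.range (2 ^ (k + 1)), ∀ ω, ∏ s ∈ Finset.range J,
        ‖(1 + ee (h * (r : ℝ) ^ c * b ω * ((r ^ 2 ^ (k + 1) : ℕ) : ℝ) ^ s)) / 2‖ ≤
          1 / ((k : ℝ) + 1) := by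
    intro k
    refine Eventually.exists (f := atTop) ?_
    refine (Finset.eventually_all _).2 fun h hh => (Finset.eventually_all _).2 fun c _ => ?_
    refine prod_small_unif (fun ω => h * (r : ℝ) ^ c * b ω) (by fun_prop) (fun ω => ?_) _
      (hr.trans (Nat.le_self_pow (by positivity) r)) _ (by positivity)
    have := (hi ω).intCast_mul (m := h * (r : ℤ) ^ c)
      (mul_ne_zero (Finset.ne_of_mem_erase hh) (by positivity))
    simpa using this
  choose J hJ using hJ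
  let P : ℕ → ℕ → Prop := fun n k => ∀ j ≤ k, 2 ^ (j + 1) * J j ≤ Nat.sqrt n
  have hev : ∀ k, ∀ᶠ n in atTop, k ≤ n ∧ P n k := fun k =>
    (eventually_ge_atTop k).and (by
      have : ∀ᶠ n in atTop, ∀ j ∈ Finset.range (k + 1), 2 ^ (j + 1) * J j ≤ Nat.sqrt n :=
        (Finset.eventually_all _).2 fun j _ => sqrt_top.eventually_ge_atTop _
      filter_upwards [this] with n hn j hj
      exact hn j (Finset.mem_range.2 (by omega)))
  have htop : Tendsto (fun n => Nat.findGreatest (P n) n) atTop atTop :=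
    tendsto_atTop.2 fun k => (hev k).mono fun n hn => Nat.le_findGreatest hn.1 hn.2
  refine ⟨fun n => Nat.findGreatest (P n) n, fun n n' h => Nat.findGreatest_mono
    (fun k hk j hj => (hk j hj).trans (Nat.sqrt_le_sqrt h)) h, htop, fun h hh ε hε => ?_⟩
  have h1 : ∀ᶠ k : ℕ in atTop, 1 / ((k : ℝ) + 1) ≤ ε :=
    (tendsto_one_div_add_atTop_nhds_zero_nat.eventually (ge_mem_nhds hε))
  filter_upwards [hev 0, htop.eventually h1, htop.eventually_ge_atTop h.natAbs] with n h2 h3 h4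
  have h5 := Nat.findGreatest_spec h2.1 h2.2
  refine ⟨J _, h5 _ le_rfl, fun c hc ω => (hJ _ h ?_ c (Finset.mem_range.2 hc) ω).trans h3⟩
  rw [Finset.mem_erase, Finset.mem_Icc]
  omega

end Pool.Agent.Lib.helper23.DetC
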