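import Mathlib
import Pool.Agent.Lib.helper23.DetC

namespace Pool.Agent.Lib.helper23.DetD

open Filter Topology MeasureTheory Pool.Agent.Lib.helper23.DetA Pool.Agent.Lib.helper23.DetB
  Pool.Agent.Lib.helper23.DetC

def mk (κ : ℕ → ℕ) (a : ℕ) (ξ : Om) : Om :=
  fun m => if m < a ∧ 2 ^ (κ m + 1) ∣ m then ξ m else 0

def msk (κ : ℕ → ℕ) (ξ : Om) : Om := fun m => if 2 ^ (κ m + 1) ∣ m then ξ m else 0

theorem mk_cont (κ : ℕ → ℕ) (a : ℕ) : Continuous (mk κ a) := by
  refine continuous_pi fun m => ?_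
  unfold mk
  split_ifs
  · exact continuous_apply m
  · exact continuous_const

theorem mk_flip (κ : ℕ → ℕ) (a m : ℕ) (h : a ≤ m) (ξ : Om) :
    mk κ a (ξ + Pi.single m 1) = mk κ a ξ := by
  funext i
  unfold mk
  split_ifs with hi
  · rw [Pi.add_apply, Pi.single_eq_of_ne (by omega), add_zero]
  · rfl

theorem diff_fin (r : ℕ) (hr : 2 ≤ r) (κ : ℕ → ℕ) (β ξ : Om) (a u : ℕ) (hau : a ≤ u) :
    (1 + tl r (comb β (mk κ u ξ))) - (1 + tl r (comb β (mk κ a ξ))) =
      ∑ m ∈ (Finset.Ico a u).filter (fun m => 2 ^ (κ m + 1) ∣ m),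
        ((ξ m).val : ℝ) / (r : ℝ) ^ (m + 1) := by
  rw [add_sub_add_left_eq_sub, tl, tl, ← (tl_summable r hr _).tsum_sub (tl_summable r hr _),
    tsum_eq_sum (s := (Finset.Ico a u).filter (fun m => 2 ^ (κ m + 1) ∣ m))]
  · refine Finset.sum_congr rfl fun m hm => ?_
    rw [Finset.mem_filter, Finset.mem_Ico] at hm
    have : m % 2 = 0 := Nat.mod_eq_zero_of_dvd ((dvd_pow_self 2 (by omega)).trans hm.2)
    simp only [comb, if_pos this, mk]
    rw [if_pos ⟨hm.1.2, hm.2⟩, if_neg (by omega)]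
    simp
  · intro m hm
    rw [Finset.mem_filter, Finset.mem_Ico] at hm
    rw [sub_eq_zero]
    congr 3
    unfold comb mk
    by_cases h1 : m % 2 = 0
    · rw [if_pos h1, if_pos h1]
      by_cases h2 : 2 ^ (κ m + 1) ∣ m
      · simp only [h2, and_true] at hm ⊢
        by_cases h3 : m < a
        · rw [if_pos h3, if_pos (by omega)]
        · rw [if_neg h3, if_neg (by omega)]
      · simp [h2]
    · rw [if_neg h1, if_neg h1]

theorem diff_tail (r : ℕ) (hr : 2 ≤ r) (κ : ℕ → ℕ) (β ξ : Om) (a : ℕ) :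
    |(1 + tl r (comb β (msk κ ξ))) - (1 + tl r (comb β (mk κ a ξ)))| ≤ 1 / (r : ℝ) ^ a := by
  refine close r hr _ _ a fun m hm => ?_
  simp [comb, mk, msk, hm]

theorem main (r : ℕ) (hr : 2 ≤ r) (Φ Φ' : ℝ → ℝ) (C : ℝ) (hΦ : ContinuousOn Φ (Set.Icc 1 2))
    (hΦ' : ContinuousOn Φ' (Set.Icc 1 2)) (hb : ∀ y ∈ Set.Icc (1 : ℝ) 2, |Φ' y| ≤ C)
    (htay : ∀ y ∈ Set.Icc (1 : ℝ) 2, ∀ y' ∈ Set.Icc (1 : ℝ) 2,
      |Φ y' - Φ y - Φ' y * (y' - y)| ≤ C * (y' - y) ^ 2)
    (hcount : {y | ¬ Irrational (Φ' y)}.Countable) :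
    ∃ y ∈ Set.Icc (1 : ℝ) 2, Tendsto (fun N : ℕ => (((Finset.range N).filter
      fun n => ⌊y * (r : ℝ) ^ (n + 1)⌋ % (r : ℤ) ≠ 0).card : ℝ) / N) atTop (𝓝 0) ∧
      Weyl fun n => Φ y * (r : ℝ) ^ n := by
  obtain ⟨ζ, hζ⟩ := exists_zeta r hr _ hcount
  set β := bet ζ with hβ
  let y : Om → ℝ := fun ξ => 1 + tl r (comb β ξ)
  have hy : ∀ ξ, y ξ ∈ Set.Icc (1 : ℝ) 2 := fun ξ =>
    ⟨by have := tl_nonneg r (comb β ξ); simp only [y]; linarith,
      by have := tl_le r hr (comb β ξ); simp only [y]; linarith⟩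
  have hyc : Continuous y := continuous_const.add ((tl_cont r hr).comp (comb_cont β))
  have hΦy : Continuous fun ξ => Φ (y ξ) := hΦ.comp_continuous hyc hy
  have hΦy' : Continuous fun ξ => Φ' (y ξ) := hΦ'.comp_continuous hyc hy
  have hC : 0 ≤ C := (abs_nonneg _).trans (hb _ (hy 0))
  have hr0 : (0 : ℝ) < r := by positivity
  have hr2 : (2 : ℝ) ≤ r := by exact_mod_cast hr
  obtain ⟨κ, hκ1, hκ2, hκ3⟩ := exists_kappa r hr (fun ξ => Φ' (y ξ)) hΦy'
    (fun ξ => not_not.1 (hζ ξ))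
  let a : ℕ → ℕ := fun n => n - Nat.sqrt n
  let u : ℕ → ℕ := fun n => n + Nat.sqrt n
  let B : ℕ → Finset ℕ := fun n => (Finset.Ico (a n) (u n)).filter (fun m => 2 ^ (κ m + 1) ∣ m)
  let P : ℤ → ℕ → Om → ℂ := fun h n ξ => ee (h * (Φ (y (mk κ (a n) ξ)) * (r : ℝ) ^ n))
  let f : ℤ → ℕ → ℕ → Om → ZMod 2 → ℂ := fun h n m ξ z =>
    ee (h * (Φ' (y (mk κ (a n) ξ)) * ((z.val : ℝ) / (r : ℝ) ^ (m + 1)) * (r : ℝ) ^ n))
  let X : ℤ → ℕ → Om → ℂ := fun h n ξ => P h n ξ * ∏ m ∈ B n, f h n m ξ (ξ m)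
  let Z : ℤ → ℕ → Om → ℂ := fun h n ξ => P h n ξ * ∏ m ∈ B n, (f h n m ξ 0 + f h n m ξ 1) / 2
  have hPc : ∀ h n, Continuous (P h n) := fun h n =>
    continuous_ee.comp (continuous_const.mul ((hΦy.comp (mk_cont κ _)).mul continuous_const))
  have hfc : ∀ h n m z, Continuous fun ξ => f h n m ξ z := fun h n m z =>
    continuous_ee.comp (continuous_const.mul
      (((hΦy'.comp (mk_cont κ _)).mul continuous_const).mul continuous_const))
  have hXc : ∀ h n, Continuous (X h n) := fun h n =>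
    (hPc h n).mul (continuous_finsetProd _ fun m _ => cont_eval _ (hfc h n m) m)
  have hZc : ∀ h n, Continuous (Z h n) := fun h n =>
    (hPc h n).mul (continuous_finsetProd _ fun m _ => ((hfc h n m 0).add (hfc h n m 1)).div_const _)
  have hf0 : ∀ h n m ξ, f h n m ξ 0 = 1 := fun h n m ξ => by simp [f, ee_zero]
  have hX1 : ∀ h n ξ, ‖X h n ξ‖ = 1 := fun h n ξ => by
    simp only [X, P, f, norm_mul, norm_prod, norm_ee]; simp
  have hZn : ∀ h n ξ, ‖Z h n ξ‖ = ∏ m ∈ B n, ‖(1 + f h n m ξ 1) / 2‖ := fun h n ξ => by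
    simp only [Z, P, norm_mul, norm_prod, norm_ee, hf0, one_mul]
  have hZ1 : ∀ h n ξ, ‖Z h n ξ‖ ≤ 1 := fun h n ξ => by
    rw [hZn]
    exact Finset.prod_le_one (fun _ _ => norm_nonneg _) fun _ _ => half_le_one _
  have hBm : ∀ n, ∀ m ∈ B n, a n ≤ m ∧ m < u n := fun n m hm =>
    Finset.mem_Ico.1 (Finset.mem_filter.1 hm).1
  have hae : ∀ h : ℤ, ∀ᵐ ξ ∂mu, Tendsto (fun N : ℕ => (N : ℝ)⁻¹ •
      ∑ n ∈ Finset.range N, (X h n ξ - Z h n ξ)) atTop (𝓝 0) := by
    intro h
    refine ae_avg (fun n ξ => X h n ξ - Z h n ξ) (fun n => (hXc h n).sub (hZc h n))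
      (fun n ξ => by linarith [norm_sub_le (X h n ξ) (Z h n ξ), hX1 h n ξ, hZ1 h n ξ]) ?_
    intro n n' hnn
    have hs : Nat.sqrt n' ≤ Nat.sqrt n := Nat.sqrt_le_sqrt (by omega)
    have hua : u n' ≤ a n := by simp only [u, a]; omega
    have hau : a n' ≤ u n' := by simp only [u, a]; omega
    let G : Om → ℂ := fun ξ => (starRingEnd ℂ) (X h n' ξ - Z h n' ξ) * P h n ξ
    have hGc : Continuous G :=
      (Complex.continuous_conj.comp ((hXc h n').sub (hZc h n'))).mul (hPc h n)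
    have key := prod_avg (f h n) (hfc h n) (B n)
      (fun m hm m' ξ z => by simp only [f]; rw [mk_flip κ _ m (hBm n m hm).1]) G hGc
      (fun m hm ξ => by
        have h1 := (hBm n m hm).1
        have h2 : ∀ m' ∈ B n', f h n' m' (ξ + Pi.single m 1) ((ξ + Pi.single m 1 : Om) m') =
            f h n' m' ξ (ξ m') := by
          intro m' hm'
          have := (hBm n' m' hm').2
          simp only [f]
          rw [mk_flip κ _ m (by omega), Pi.add_apply, Pi.single_eq_of_ne (by omega), add_zero]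
        simp only [G, X, Z]
        rw [Finset.prod_congr rfl h2]
        simp only [P, f]
        rw [mk_flip κ _ m h1, mk_flip κ (a n') m (by omega)])
    have e : ∀ ξ, (starRingEnd ℂ) (X h n' ξ - Z h n' ξ) * (X h n ξ - Z h n ξ) =
        G ξ * ∏ m ∈ B n, f h n m ξ (ξ m) - G ξ * ∏ m ∈ B n, (f h n m ξ 0 + f h n m ξ 1) / 2 := by
      intro ξ
      simp only [G]
      generalize (starRingEnd ℂ) (X h n' ξ - Z h n' ξ) = w
      simp only [X, Z]; ring
    simp only [e]
    have i1 : Integrable (fun ξ => G ξ * ∏ m ∈ B n, f h n m ξ (ξ m)) mu :=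
      cint (hGc.mul (continuous_finsetProd _ fun m _ => cont_eval _ (hfc h n m) m))
    have i2 : Integrable (fun ξ => G ξ * ∏ m ∈ B n, (f h n m ξ 0 + f h n m ξ 1) / 2) mu :=
      cint (hGc.mul (continuous_finsetProd _ fun m _ =>
        ((hfc h n m 0).add (hfc h n m 1)).div_const _))
    rw [integral_sub i1 i2, key, sub_self]
  obtain ⟨ξ, hξ⟩ := (ae_all_iff.2 hae).exists
  refine ⟨y (msk κ ξ), hy _, ?_, fun h hh => ?_⟩
  · refine sparse_density _ fun k => ?_
    obtain ⟨n0, hn0⟩ := eventually_atTop.1 (hκ2.eventually_ge_atTop k)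
    refine ⟨n0 + 2 ^ k + 1, fun m hm hne => ?_⟩
    simp only [y] at hne
    rw [digit r hr _ (comb_three ζ _)] at hne
    by_cases h1 : m % 2 = 0
    · left
      by_contra h2
      apply hne
      rw [comb, if_pos h1, msk, if_neg]
      · simp
      · exact fun h3 => h2 ((pow_dvd_pow 2 (by have := hn0 m (by omega); omega)).trans h3)
    · right
      by_contra h2
      apply hne
      rw [comb, if_neg h1, bet, if_neg]
      · simp
      · rintro ⟨j, rfl⟩
        rw [Nat.add_sub_cancel] at h2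
        refine h2 (pow_dvd_pow 2 ?_)
        exact (Nat.pow_le_pow_iff_right (by norm_num : 1 < 2)).1 (by omega)
  · have t1 : Tendsto (fun n => ee (h * (Φ (y (msk κ ξ)) * (r : ℝ) ^ n)) - X h n ξ) atTop (𝓝 0) := by
      have g0 : Tendsto (fun n => 2 * Real.pi * (|(h : ℝ)| * (2 * C * (1 / 2 : ℝ) ^ Nat.sqrt n)))
          atTop (𝓝 (2 * Real.pi * (|(h : ℝ)| * (2 * C * 0)))) :=
        ((((tendsto_pow_atTop_nhds_zero_of_lt_one (by norm_num) (by norm_num)).comp
          sqrt_top).const_mul _).const_mul _).const_mul _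
      rw [mul_zero, mul_zero, mul_zero] at g0
      refine squeeze_zero_norm' ?_ g0
      filter_upwards [sqrt_top.eventually_ge_atTop 3] with n hn
      have hsq : Nat.sqrt n * Nat.sqrt n ≤ n := Nat.sqrt_le n
      have h3 : 3 * Nat.sqrt n ≤ n := (Nat.mul_le_mul_right _ hn).trans hsq
      have hau : a n ≤ u n := by simp only [u, a]; omega
      have eX : X h n ξ = ee (h * ((Φ (y (mk κ (a n) ξ)) + Φ' (y (mk κ (a n) ξ)) *
          (y (mk κ (u n) ξ) - y (mk κ (a n) ξ))) * (r : ℝ) ^ n)) := by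
        simp only [X, P, f]
        rw [← ee_sum, ← ee_add, ← Finset.mul_sum, ← Finset.sum_mul, ← Finset.mul_sum,
          ← diff_fin r hr κ β ξ _ _ hau]
        congr 1; ring
      rw [eX]
      refine (ee_lip _ _).trans (mul_le_mul_of_nonneg_left ?_ (by positivity))
      rw [← mul_sub, abs_mul, ← sub_mul, abs_mul, abs_of_pos (by positivity : 0 < (r : ℝ) ^ n)]
      refine mul_le_mul_of_nonneg_left ?_ (abs_nonneg _)
      set y0 := y (msk κ ξ)
      set ya := y (mk κ (a n) ξ)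
      set yu := y (mk κ (u n) ξ)
      have d1 : |y0 - ya| ≤ 1 / (r : ℝ) ^ a n := diff_tail r hr κ β ξ _
      have d2 : |y0 - yu| ≤ 1 / (r : ℝ) ^ u n := diff_tail r hr κ β ξ _
      have d3 := htay ya (hy _) y0 (hy _)
      have d4 : (y0 - ya) ^ 2 ≤ (1 / (r : ℝ) ^ a n) ^ 2 := by
        rw [← sq_abs]; exact pow_le_pow_left₀ (abs_nonneg _) d1 2
      have d5 : |Φ' ya * (y0 - yu)| ≤ C * (1 / (r : ℝ) ^ u n) := by
        rw [abs_mul]; exact mul_le_mul (hb _ (hy _)) d2 (abs_nonneg _) hC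
      have d6 : |Φ y0 - (Φ ya + Φ' ya * (yu - ya))| ≤
          C * (1 / (r : ℝ) ^ a n) ^ 2 + C * (1 / (r : ℝ) ^ u n) := by
        have e : Φ y0 - (Φ ya + Φ' ya * (yu - ya)) =
            (Φ y0 - Φ ya - Φ' ya * (y0 - ya)) + Φ' ya * (y0 - yu) := by ring
        rw [e]
        have := mul_le_mul_of_nonneg_left d4 hC
        linarith [abs_add_le (Φ y0 - Φ ya - Φ' ya * (y0 - ya)) (Φ' ya * (y0 - yu))]
      have gen : ∀ p : ℕ, n + Nat.sqrt n ≤ p →
          1 / (r : ℝ) ^ p * (r : ℝ) ^ n ≤ (1 / 2 : ℝ) ^ Nat.sqrt n := by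
        intro p hp
        rw [div_mul_eq_mul_div, one_mul, one_div, inv_pow, ← one_div,
          div_le_div_iff₀ (by positivity) (by positivity), one_mul]
        calc (r : ℝ) ^ n * 2 ^ Nat.sqrt n ≤ (r : ℝ) ^ n * (r : ℝ) ^ Nat.sqrt n := by gcongr
          _ = (r : ℝ) ^ (n + Nat.sqrt n) := by rw [pow_add]
          _ ≤ (r : ℝ) ^ p := pow_le_pow_right₀ (by linarith) hp
      have g1 := gen (a n * 2) (by simp only [a]; omega)
      have g2 := gen (u n) le_rfl
      rw [pow_mul, ← one_pow 2, ← div_pow, one_pow] at g1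
      have g3 := mul_le_mul_of_nonneg_right d6 (by positivity : 0 ≤ (r : ℝ) ^ n)
      have g4 := mul_le_mul_of_nonneg_left g1 hC
      have g5 := mul_le_mul_of_nonneg_left g2 hC
      nlinarith
    have t2 : Tendsto (fun n => Z h n ξ) atTop (𝓝 0) := by
      rw [NormedAddGroup.tendsto_nhds_zero]
      intro ε hε
      filter_upwards [hκ3 h hh (ε / 2) (by positivity), eventually_ge_atTop 1] with n hn hn1
      obtain ⟨J, hJ1, hJ2⟩ := hn
      set Q := 2 ^ (κ n + 1) with hQ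
      have hQ0 : 0 < Q := by positivity
      set c := (n - 1) % Q with hc
      have hcQ : c < Q := Nat.mod_lt _ hQ0
      have hsn : Nat.sqrt n ≤ n := Nat.sqrt_le_self n
      have hlt : ∀ s < J, c + Q * s < Nat.sqrt n := fun s hs => by
        have : Q * (s + 1) ≤ Q * J := Nat.mul_le_mul_left _ hs
        rw [mul_add, mul_one] at this
        omega
      have hsub : (Finset.range J).image (fun s => n - 1 - (c + Q * s)) ⊆ B n := by
        intro m hm
        obtain ⟨s, hs, rfl⟩ := Finset.mem_image.1 hm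
        have h1 := hlt s (Finset.mem_range.1 hs)
        refine Finset.mem_filter.2 ⟨Finset.mem_Ico.2 (by simp only [a, u]; omega), ?_⟩
        refine (pow_dvd_pow 2 (Nat.succ_le_succ (hκ1 (by omega)))).trans (b := Q) ?_
        rw [← Nat.sub_sub]
        exact Nat.dvd_sub (Nat.dvd_sub_mod _) (Dvd.intro _ rfl)
      rw [hZn]
      refine lt_of_le_of_lt ?_ (half_lt_self hε)
      refine (Finset.prod_le_prod_of_subset_of_le_one hsub (fun _ _ => norm_nonneg _)
        fun _ _ _ => half_le_one _).trans ?_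
      rw [Finset.prod_image]
      · refine le_trans (le_of_eq ?_) (hJ2 c hcQ (mk κ (a n) ξ))
        refine Finset.prod_congr rfl fun s hs => ?_
        have h1 := hlt s (Finset.mem_range.1 hs)
        congr 4
        have e : (r : ℝ) ^ n = (r : ℝ) ^ (n - 1 - (c + Q * s) + 1) * ((r : ℝ) ^ c * ((r : ℝ) ^ Q) ^ s) := by
          rw [← pow_mul, ← pow_add, ← pow_add]; congr 1; omega
        rw [e, ZMod.val_one]
        push_cast
        field_simp
      · intro s hs s' hs' e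
        have h1 := hlt s (Finset.mem_range.1 hs)
        have h2 := hlt s' (Finset.mem_range.1 hs')
        simp only at e
        exact Nat.eq_of_mul_eq_mul_left hQ0 (by omega)
    have := (t1.cesaro_smul.add (hξ h)).add t2.cesaro_smul
    rw [add_zero, add_zero] at this
    refine this.congr fun N => ?_
    rw [← smul_add, ← smul_add, ← Finset.sum_add_distrib, ← Finset.sum_add_distrib]
    congr 1
    exact Finset.sum_congr rfl fun n _ => by ring

end Pool.Agent.Lib.helper23.DetD
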