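import Mathlib
import Pool.Agent.Lib.helper23.DetD

namespace Pool.Agent.Lib.helper23.DetE

open Filter Topology Pool.Agent.Lib.helper23.DetA Pool.Agent.Lib.helper23.DetD

theorem inv_main (r : ℕ) (hr : 2 ≤ r) :
    ∃ y ∈ Set.Icc (1 : ℝ) 2, Tendsto (fun N : ℕ => (((Finset.range N).filter
      fun n => ⌊y * (r : ℝ) ^ (n + 1)⌋ % (r : ℤ) ≠ 0).card : ℝ) / N) atTop (𝓝 0) ∧
      Weyl fun n => y⁻¹ * (r : ℝ) ^ n := by
  refine main r hr (fun y => y⁻¹) (fun y => -(y ^ 2)⁻¹) 1 ?_ ?_ ?_ ?_ ?_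
  · exact continuousOn_id.inv₀ fun y hy => by have := hy.1; simp only [id]; positivity
  · exact ((continuousOn_id.pow 2).inv₀ fun y hy => by
      have := hy.1; exact pow_ne_zero 2 (by simp only [id]; positivity)).neg
  · intro y hy
    have := hy.1
    rw [abs_neg, abs_of_pos (by positivity)]
    exact inv_le_one_of_one_le₀ (one_le_pow₀ this)
  · intro y hy y' hy'
    have h1 := hy.1
    have h2 := hy'.1
    have e : y'⁻¹ - y⁻¹ - -(y ^ 2)⁻¹ * (y' - y) = (y' - y) ^ 2 / (y ^ 2 * y') := by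
      field_simp; ring
    rw [e, abs_of_nonneg (by positivity), one_mul]
    exact div_le_self (by positivity) (one_le_mul_of_one_le_of_one_le (one_le_pow₀ h1) h2)
  · refine ((Set.countable_range fun q : ℚ => Real.sqrt q).union
      (Set.countable_range fun q : ℚ => -Real.sqrt q)).mono fun y hy => ?_
    obtain ⟨q, hq⟩ := not_not.1 hy
    have e : ((-q⁻¹ : ℚ) : ℝ) = y ^ 2 := by push_cast; rw [hq]; simp
    rcases le_total 0 y with h | h
    · exact Or.inl ⟨-q⁻¹, by simp only [e]; exact Real.sqrt_sq h⟩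
    · exact Or.inr ⟨-q⁻¹, by simp only [e]; rw [Real.sqrt_sq_eq_abs, abs_of_nonpos h, neg_neg]⟩

theorem mul_main (r : ℕ) (hr : 2 ≤ r) (b : ℝ) (hb : Irrational b) :
    ∃ y ∈ Set.Icc (1 : ℝ) 2, Tendsto (fun N : ℕ => (((Finset.range N).filter
      fun n => ⌊y * (r : ℝ) ^ (n + 1)⌋ % (r : ℤ) ≠ 0).card : ℝ) / N) atTop (𝓝 0) ∧
      Weyl fun n => (b * y) * (r : ℝ) ^ n := by
  refine main r hr (fun y => b * y) (fun _ => b) |b| (by fun_prop) continuousOn_const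
    (fun _ _ => le_rfl) (fun y _ y' _ => ?_) (by simp [hb])
  rw [show b * y' - b * y - b * (y' - y) = 0 by ring, abs_zero]
  positivity

theorem digit_sub (r : ℕ) (hr : 2 ≤ r) (y : ℝ) (m : ℕ) :
    ⌊y * (r : ℝ) ^ (m + 1)⌋ - (r : ℤ) * ⌊y * (r : ℝ) ^ m⌋ = ⌊y * (r : ℝ) ^ (m + 1)⌋ % (r : ℤ) := by
  have h0 : (r : ℝ) ≠ 0 := by positivity
  have e : y * (r : ℝ) ^ m = y * (r : ℝ) ^ (m + 1) / r := by rw [pow_succ]; field_simp
  rw [e, Int.floor_div_natCast, Int.emod_def]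

end Pool.Agent.Lib.helper23.DetE
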