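import Mathlib

namespace Pool.Agent.Lib.helper23.DinfA

open MeasureTheory ProbabilityTheory Filter Topology Set

noncomputable abbrev μ : Measure ℝ := volume.restrict (Icc (0 : ℝ) 1)

instance : IsProbabilityMeasure μ := ⟨by simp [μ]⟩

theorem exists_U : ∃ U : ℕ → ℝ → ℝ, iIndepFun U μ ∧ ∀ n, MeasurePreserving (U n) μ μ := by
  obtain ⟨θ, hθ, h⟩ := Measure.exists_measurable_map_eq (Measure.infinitePi fun _ : ℕ => μ)
  have hp : Measurable (projIcc (0 : ℝ) 1 zero_le_one) := continuous_projIcc.measurable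
  have h1 : μ.map (projIcc (0 : ℝ) 1 zero_le_one) = volume := by
    rw [μ, ← unitInterval.measurePreserving_coe.map_eq, Measure.map_map hp measurable_subtype_coe]
    have : projIcc (0 : ℝ) 1 zero_le_one ∘ Subtype.val = id := funext fun x => projIcc_val _ x
    rw [this, Measure.map_id]
  have h2 : μ.map (θ ∘ projIcc (0 : ℝ) 1 zero_le_one) = Measure.infinitePi fun _ : ℕ => μ := by
    rw [← Measure.map_map hθ hp, h1, h]
  have h3 : ∀ n, MeasurePreserving (fun s => θ (projIcc (0 : ℝ) 1 zero_le_one s) n) μ μ := fun n =>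
    (measurePreserving_eval_infinitePi (fun _ : ℕ => μ) n).comp ⟨hθ.comp hp, h2⟩
  refine ⟨_, (iIndepFun_iff_map_fun_eq_infinitePi_map fun n => (h3 n).measurable).2 ?_, h3⟩
  simp only [(h3 _).map_eq]
  exact h2

variable {U : ℕ → ℝ → ℝ}

theorem mem_lp (hU : ∀ n, MeasurePreserving (U n) μ μ) {σ : ℝ → ℝ} (hm : Measurable σ)
    (hb : ∀ u, |σ u| ≤ 1) (n : ℕ) (p : ENNReal) : MemLp (fun s => σ (U n s)) p μ :=
  MemLp.of_bound (hm.comp (hU n).measurable).aestronglyMeasurable 1
    (Eventually.of_forall fun _ => hb _)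

theorem int_comp (hU : ∀ n, MeasurePreserving (U n) μ μ) {σ : ℝ → ℝ} (hm : Measurable σ) (n : ℕ) :
    ∫ s, σ (U n s) ∂μ = ∫ u, σ u ∂μ := by
  rw [← integral_map (hU n).measurable.aemeasurable hm.aestronglyMeasurable, (hU n).map_eq]

theorem int_mul (hI : iIndepFun U μ) (hU : ∀ n, MeasurePreserving (U n) μ μ) {σ τ : ℝ → ℝ}
    (hm : Measurable σ) (hm' : Measurable τ) {n m : ℕ} (h : n ≠ m) :
    ∫ s, σ (U n s) * τ (U m s) ∂μ = (∫ u, σ u ∂μ) * ∫ u, τ u ∂μ := by
  rw [(hI.indepFun h).integral_fun_comp_mul_comp (hU n).measurable.aemeasurable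
    (hU m).measurable.aemeasurable hm.aestronglyMeasurable hm'.aestronglyMeasurable,
    int_comp hU hm, int_comp hU hm']

theorem weak_null (hI : iIndepFun U μ) (hU : ∀ n, MeasurePreserving (U n) μ μ) {σ : ℝ → ℝ}
    (hm : Measurable σ) (hb : ∀ u, |σ u| ≤ 1) (h0 : ∫ u, σ u ∂μ = 0) (x : Lp ℝ 1 μ →L[ℝ] ℝ) :
    Tendsto (fun n => x ((mem_lp hU hm hb n 1).toLp _)) atTop (𝓝 0) := by
  set a := fun n => x ((mem_lp hU hm hb n 1).toLp _) with ha
  set c := ‖x‖ + 1 with hc
  have c0 : 0 < c := by positivity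
  have hi : ∀ n m, Integrable (fun s => σ (U n s) * σ (U m s)) μ := fun n m =>
    (mem_lp hU hm hb n 2).integrable_mul (mem_lp hU hm hb m 2)
  have hi1 : ∀ n, Integrable (fun s => σ (U n s)) μ := fun n =>
    memLp_one_iff_integrable.1 (mem_lp hU hm hb n 1)
  have key : ∀ N, ∑ n ∈ Finset.range N, a n ^ 2 ≤ c ^ 2 := by
    intro N
    set F := Finset.range N
    have e : ∀ s, (∑ n ∈ F, a n * σ (U n s)) ^ 2 =
        ∑ n ∈ F, ∑ m ∈ F, a n * a m * (σ (U n s) * σ (U m s)) := fun s => by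
      rw [sq, Finset.sum_mul_sum]
      exact Finset.sum_congr rfl fun n _ => Finset.sum_congr rfl fun m _ => by ring
    have i2 : Integrable (fun s => (∑ n ∈ F, a n * σ (U n s)) ^ 2) μ := by
      simp only [e]
      exact integrable_finsetSum _ fun n _ => integrable_finsetSum _ fun m _ => (hi n m).const_mul _
    have h2 : ∫ s, (∑ n ∈ F, a n * σ (U n s)) ^ 2 ∂μ ≤ ∑ n ∈ F, a n ^ 2 := by
      simp only [e]
      rw [integral_finsetSum _ fun n _ => integrable_finsetSum _ fun m _ => (hi n m).const_mul _]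
      refine Finset.sum_le_sum fun n hn => ?_
      rw [integral_finsetSum _ fun m _ => (hi n m).const_mul _, Finset.sum_eq_single n]
      · rw [integral_const_mul, ← sq]
        refine mul_le_of_le_one_right (sq_nonneg _) ?_
        have := integral_mono (hi n n) (integrable_const (1 : ℝ)) fun s => by
          have := hb (U n s)
          rw [abs_le] at this
          change _ ≤ (1 : ℝ)
          nlinarith
        simpa using this
      · intro m _ hmn
        rw [integral_const_mul, int_mul hI hU hm hm hmn.symm, h0]; simp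
      · intro h; exact absurd hn h
    have h3 : ‖∑ n ∈ F, a n • (mem_lp hU hm hb n 1).toLp _‖ =
        ∫ s, |∑ n ∈ F, a n * σ (U n s)| ∂μ := by
      rw [L1.norm_eq_integral_norm]
      refine integral_congr_ae ?_
      have h4 : ∀ᵐ s ∂μ, ∀ n, (a n • (mem_lp hU hm hb n 1).toLp _ : Lp ℝ 1 μ) s =
          a n * σ (U n s) := by
        refine ae_all_iff.2 fun n => ?_
        filter_upwards [Lp.coeFn_smul (a n) ((mem_lp hU hm hb n 1).toLp _),
          (mem_lp hU hm hb n 1).coeFn_toLp] with s h1 h2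
        rw [h1, Pi.smul_apply, h2, smul_eq_mul]
      filter_upwards [Lp.coeFn_finsetSum F fun n => a n • (mem_lp hU hm hb n 1).toLp _, h4]
        with s h1 h2
      rw [h1, Finset.sum_apply, Real.norm_eq_abs]
      simp only [h2]
    have i1 : Integrable (fun s => |∑ n ∈ F, a n * σ (U n s)|) μ :=
      (integrable_finsetSum _ fun n _ => (hi1 n).const_mul _).abs
    have i3 : Integrable (fun s => (∑ n ∈ F, a n * σ (U n s)) ^ 2 + c ^ 2) μ :=
      i2.add (integrable_const _)
    have h4 := integral_mono (i1.const_mul (2 * c)) i3 fun s => by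
      change _ ≤ _ + _
      nlinarith [sq_nonneg (|∑ n ∈ F, a n * σ (U n s)| - c), sq_abs (∑ n ∈ F, a n * σ (U n s))]
    rw [integral_const_mul, integral_add i2 (integrable_const _), ← h3] at h4
    simp only [integral_const, probReal_univ, smul_eq_mul, one_mul] at h4
    have h5 := x.le_opNorm (∑ n ∈ F, a n • (mem_lp hU hm hb n 1).toLp _)
    rw [map_sum] at h5
    simp only [map_smul, smul_eq_mul] at h5
    have h6 : ∑ n ∈ F, a n ^ 2 = ∑ n ∈ F, a n * x ((mem_lp hU hm hb n 1).toLp _) :=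
      Finset.sum_congr rfl fun n _ => sq _
    rw [← h6] at h5
    have h7 := (le_abs_self _).trans h5
    have h8 := norm_nonneg (∑ n ∈ F, a n • (mem_lp hU hm hb n 1).toLp _)
    nlinarith
  have := (summable_of_sum_range_le (fun n => sq_nonneg (a n)) key).tendsto_atTop_zero
  have h2 := this.sqrt
  simp only [Real.sqrt_sq_eq_abs, Real.sqrt_zero] at h2
  exact (tendsto_zero_iff_abs_tendsto_zero _).2 h2

noncomputable def p (k : ℕ) : ℝ := 1 / (8 * ((k : ℝ) + 1) ^ 4)

theorem p_pos (k : ℕ) : 0 < p k := by unfold p; positivity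

theorem p_le (k : ℕ) : p k ≤ 1 := by
  unfold p
  have : (1 : ℝ) ≤ ((k : ℝ) + 1) ^ 4 := one_le_pow₀ (by linarith [Nat.cast_nonneg (α := ℝ) k])
  rw [div_le_one (by positivity)]; linarith

noncomputable def σ (k : ℕ) (u : ℝ) : ℝ :=
  (Ico 0 (p k / 2)).indicator 1 u - (Ico (p k / 2) (p k)).indicator 1 u

noncomputable def χ (k : ℕ) (u : ℝ) : ℝ := (Ico 0 (p k)).indicator 1 u

theorem σ_meas (k : ℕ) : Measurable (σ k) :=
  (measurable_one.indicator measurableSet_Ico).sub (measurable_one.indicator measurableSet_Ico)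

theorem χ_meas (k : ℕ) : Measurable (χ k) := measurable_one.indicator measurableSet_Ico

theorem σ_cases (k : ℕ) (u : ℝ) : (σ k u = 0 ∧ χ k u = 0) ∨ ((σ k u = 1 ∨ σ k u = -1) ∧ χ k u = 1) := by
  have := p_pos k
  simp only [σ, χ, indicator, mem_Ico, Pi.one_apply]
  split_ifs with h1 h2 h3 h4 h5 h6 h7 <;> first | (exfalso; grind) | simp

theorem σ_le (k : ℕ) (u : ℝ) : |σ k u| ≤ 1 := by
  rcases σ_cases k u with h | ⟨h | h, -⟩ <;> simp [h]

theorem χ_le (k : ℕ) (u : ℝ) : |χ k u| ≤ 1 := by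
  rcases σ_cases k u with h | h <;> simp [h]

theorem int_ind {a b : ℝ} (ha : 0 ≤ a) (hab : a ≤ b) (hb : b ≤ 1) :
    ∫ u, (Ico a b).indicator (1 : ℝ → ℝ) u ∂μ = b - a := by
  rw [integral_indicator_one measurableSet_Ico, measureReal_restrict_apply measurableSet_Ico,
    inter_eq_left.2 (show Ico a b ⊆ Icc 0 1 from fun u hu => ⟨ha.trans hu.1, hu.2.le.trans hb⟩), Real.volume_real_Ico_of_le hab]

theorem int_σ (k : ℕ) : ∫ u, σ k u ∂μ = 0 := by
  have := p_pos k
  have := p_le k
  have i : ∀ a b : ℝ, Integrable ((Ico a b).indicator (1 : ℝ → ℝ)) μ := fun a b =>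
    (integrable_const (1 : ℝ)).indicator measurableSet_Ico
  unfold σ
  rw [integral_sub (i _ _) (i _ _),
    int_ind le_rfl (by linarith) (by linarith), int_ind (by linarith) (by linarith) (by linarith)]
  ring

theorem int_χ (k : ℕ) : ∫ u, χ k u ∂μ = p k := by
  unfold χ
  rw [int_ind le_rfl (p_pos k).le (p_le k), sub_zero]

theorem sum_p (N : ℕ) : ∑ j ∈ Finset.range N, p (Nat.sqrt j) ≤ 1 / 4 := by
  have h1 : ∀ j : ℕ, p (Nat.sqrt j) ≤ 1 / 4 * (1 / (j + 1 : ℝ) - 1 / (j + 2 : ℝ)) := fun j => by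
    have h : ((j : ℝ) + 1) ≤ ((Nat.sqrt j : ℝ) + 1) ^ 2 := by
      have := Nat.lt_succ_sqrt' j
      exact_mod_cast this
    have h2 := pow_le_pow_left₀ (by positivity) h 2
    have j0 : (0 : ℝ) ≤ j := Nat.cast_nonneg j
    unfold p
    rw [div_sub_div _ _ (by positivity) (by positivity), div_mul_div_comm,
      div_le_div_iff₀ (by positivity) (by positivity)]
    nlinarith
  refine (Finset.sum_le_sum fun j _ => h1 j).trans ?_
  rw [← Finset.mul_sum]
  have := Finset.sum_range_sub' (fun j : ℕ => 1 / (j + 1 : ℝ)) N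
  simp only [Nat.cast_add, Nat.cast_one, add_assoc, one_add_one_eq_two, Nat.cast_zero] at this
  rw [this]
  have : (0 : ℝ) ≤ 1 / (N + 1) := by positivity
  norm_num at this ⊢
  linarith

theorem exists_x (hI : iIndepFun U μ) (hU : ∀ n, MeasurePreserving (U n) μ μ) (φ : ℕ → ℕ)
    (hφ : Function.Injective φ) : ∃ x : Lp ℝ 1 μ →L[ℝ] ℝ, ∀ j, p (Nat.sqrt j) / 2 ≤
      x ((mem_lp hU (σ_meas (Nat.sqrt j)) (σ_le _) (φ j) 1).toLp _) := by
  classical
  let s : ℕ → ℝ → ℝ := fun j t => σ (Nat.sqrt j) (U (φ j) t)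
  let c : ℕ → ℝ → ℝ := fun j t => χ (Nat.sqrt j) (U (φ j) t)
  have sm : ∀ j, Measurable (s j) := fun j => (σ_meas _).comp (hU _).measurable
  have cm : ∀ j, Measurable (c j) := fun j => (χ_meas _).comp (hU _).measurable
  let g : ℝ → ℝ := fun t => ∑' j, s j t * ∏ i ∈ Finset.range j, (1 - c i t)
  have gm : Measurable g := Measurable.tsum fun j =>
    (sm j).mul (Finset.measurable_prod _ fun i _ => (cm i).const_sub 1)
  have g1 : ∀ t j, c j t = 1 → (∀ i < j, c i t = 0) → g t = s j t := fun t j h1 h2 => by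
    simp only [g]
    rw [tsum_eq_single j, Finset.prod_eq_one fun i hi => by rw [h2 i (Finset.mem_range.1 hi)]; simp,
      mul_one]
    intro i hi
    rcases lt_or_gt_of_ne hi with h | h
    · rcases σ_cases (Nat.sqrt i) (U (φ i) t) with h3 | h3
      · simp only [s, h3.1, zero_mul]
      · exact absurd (h3.2.symm.trans (h2 i h)) one_ne_zero
    · rw [Finset.prod_eq_zero (Finset.mem_range.2 h) (by rw [h1, sub_self]), mul_zero]
  have c01 : ∀ j t, c j t = 0 ∨ c j t = 1 := fun j t => (σ_cases _ _).imp And.right And.right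
  have gb : ∀ t, |g t| ≤ 1 := fun t => by
    by_cases h : ∃ j, c j t = 1
    · rw [g1 t _ (Nat.find_spec h) fun i hi => (c01 i t).resolve_right (Nat.find_min h hi)]
      exact σ_le _ _
    · have : ∀ j, s j t = 0 := fun j => by
        rcases σ_cases (Nat.sqrt j) (U (φ j) t) with h3 | h3
        · exact h3.1
        · exact absurd ⟨j, h3.2⟩ h
      simp [g, this]
  have gl : MemLp g ⊤ μ := MemLp.of_bound gm.aestronglyMeasurable 1 (Eventually.of_forall gb)
  refine ⟨(ContinuousLinearMap.mul ℝ ℝ).lpPairing μ ⊤ 1 (gl.toLp g), fun j => ?_⟩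
  rw [ContinuousLinearMap.lpPairing_eq_integral]
  have e : ∫ t, (ContinuousLinearMap.mul ℝ ℝ) ((gl.toLp g) t)
      (((mem_lp hU (σ_meas (Nat.sqrt j)) (σ_le _) (φ j) 1).toLp _) t) ∂μ = ∫ t, g t * s j t ∂μ := by
    refine integral_congr_ae ?_
    filter_upwards [gl.coeFn_toLp,
      (mem_lp hU (σ_meas (Nat.sqrt j)) (σ_le _) (φ j) 1).coeFn_toLp] with t h1 h2
    rw [h1, h2]; rfl
  have ic : ∀ i, Integrable (fun t => c j t * c i t) μ := fun i =>
    (mem_lp hU (χ_meas _) (χ_le _) _ 2).integrable_mul (mem_lp hU (χ_meas _) (χ_le _) _ 2)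
  have i1 : Integrable (c j) μ := memLp_one_iff_integrable.1 (mem_lp hU (χ_meas _) (χ_le _) _ 1)
  have i2 : Integrable (fun t => 2 * ∑ i ∈ Finset.range j, c j t * c i t) μ :=
    (integrable_finsetSum _ fun i _ => ic i).const_mul 2
  have i3 : Integrable (fun t => g t * s j t) μ :=
    (gl.mono_exponent (p := 2) le_top).integrable_mul (mem_lp hU (σ_meas _) (σ_le _) _ 2)
  have h1 := integral_mono (i1.sub i2) i3 fun t => by
    change c j t - 2 * ∑ i ∈ Finset.range j, c j t * c i t ≤ g t * s j t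
    rcases σ_cases (Nat.sqrt j) (U (φ j) t) with h3 | h3
    · simp [s, c, h3.1, h3.2]
    · have hc : c j t = 1 := h3.2
      have hs : s j t = 1 ∨ s j t = -1 := h3.1
      have c0 : ∀ i, 0 ≤ c i t := fun i => by rcases c01 i t with h | h <;> simp [h]
      simp only [hc, one_mul]
      by_cases h : ∀ i < j, c i t = 0
      · have := Finset.sum_nonneg (s := Finset.range j) fun i _ => c0 i
        rw [g1 t j hc h]
        rcases hs with hs | hs <;> rw [hs] <;> linarith
      · push Not at h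
        obtain ⟨i, hi, h⟩ := h
        have := Finset.single_le_sum (f := fun i => c i t) (fun i _ => c0 i) (Finset.mem_range.2 hi)
        simp only [(c01 i t).resolve_left h] at this
        have h4 := abs_le.1 (gb t)
        rcases hs with hs | hs <;> rw [hs] <;> linarith
  rw [e]
  refine le_trans ?_ h1
  have h2 : ∫ t, (c j - fun t => 2 * ∑ i ∈ Finset.range j, c j t * c i t) t ∂μ =
      p (Nat.sqrt j) - 2 * ∑ i ∈ Finset.range j, p (Nat.sqrt j) * p (Nat.sqrt i) := by
    simp only [Pi.sub_apply]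
    rw [integral_sub i1 i2, integral_const_mul, integral_finsetSum _ fun i _ => ic i,
      int_comp hU (χ_meas _), int_χ]
    congr 2
    refine Finset.sum_congr rfl fun i hi => ?_
    rw [int_mul hI hU (χ_meas _) (χ_meas _) (hφ.ne (Finset.mem_range.1 hi).ne'), int_χ, int_χ]
  rw [h2, ← Finset.mul_sum]
  nlinarith [sum_p j, p_pos (Nat.sqrt j)]

noncomputable def κ (u : ℝ) : ℕ := ⌊1 / u⌋₊ - 1

theorem κ_meas : Measurable κ :=
  (measurable_from_top (f := fun n : ℕ => n - 1)).comp (measurable_id.const_div 1).nat_floor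

theorem κ_low (j : ℕ) : ENNReal.ofReal (1 / 6 * (1 / (j + 1 : ℝ))) ≤ μ (κ ⁻¹' {Nat.sqrt j}) := by
  set k := Nat.sqrt j with hk
  have k0 : (0 : ℝ) ≤ k := Nat.cast_nonneg k
  have h1 : Ioc (1 / (k + 2 : ℝ)) (1 / (k + 1 : ℝ)) ⊆ κ ⁻¹' {k} ∩ Icc 0 1 := fun u hu => by
    have u0 : 0 < u := lt_trans (by positivity) hu.1
    refine ⟨?_, u0.le, hu.2.trans ((div_le_one (by positivity)).2 (by linarith))⟩
    have : ⌊1 / u⌋₊ = k + 1 := by
      rw [Nat.floor_eq_iff (by positivity)]
      push_cast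
      exact ⟨(le_one_div u0 (by positivity)).1 hu.2,
        by rw [add_assoc, one_add_one_eq_two]; exact (one_div_lt (by positivity) u0).1 hu.1⟩
    change ⌊1 / u⌋₊ - 1 = k
    rw [this, Nat.add_sub_cancel]
  rw [μ, Measure.restrict_apply (κ_meas (measurableSet_singleton _))]
  refine le_trans ?_ (measure_mono h1)
  rw [Real.volume_Ioc]
  refine ENNReal.ofReal_le_ofReal ?_
  have h2 : (k : ℝ) * k ≤ j := by exact_mod_cast Nat.sqrt_le j
  have h3 : (k : ℝ) ≤ j := by exact_mod_cast Nat.sqrt_le_self j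
  rw [div_sub_div _ _ (by positivity) (by positivity), div_mul_div_comm,
    div_le_div_iff₀ (by positivity) (by positivity)]
  nlinarith

theorem main : ∃ f : ℕ → ℝ → Lp ℝ 1 μ, (∀ n, AEStronglyMeasurable (f n) μ) ∧
    (∀ n t, ‖f n t‖ ≤ 1) ∧
    (∀ x : Lp ℝ 1 μ →L[ℝ] ℝ, TendstoInMeasure μ (fun n t => x (f n t)) atTop fun _ => (0 : ℝ)) ∧
    ∀ φ : ℕ → ℕ, StrictMono φ → ∃ x : Lp ℝ 1 μ →L[ℝ] ℝ,
      ¬ ∀ᵐ t ∂μ, Tendsto (fun k => x (f (φ k) t)) atTop (𝓝 (0 : ℝ)) := by
  obtain ⟨U, hI, hU⟩ := exists_U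
  let h : ℕ → ℕ → Lp ℝ 1 μ := fun n k => (p k)⁻¹ • (mem_lp hU (σ_meas k) (σ_le k) n 1).toLp _
  have km : ∀ n, Measurable fun t => κ (U n t) := fun n => κ_meas.comp (hU n).measurable
  refine ⟨fun n t => h n (κ (U n t)), fun n =>
    ((StronglyMeasurable.of_discrete (f := h n)).comp_measurable (km n)).aestronglyMeasurable,
    fun n t => ?_, fun x => ?_, fun φ hφ => ?_⟩
  · set k := κ (U n t)
    simp only [h]
    rw [norm_smul, L1.norm_eq_integral_norm, integral_congr_ae (g := fun s => χ k (U n s)),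
      int_comp hU (χ_meas k), int_χ, Real.norm_of_nonneg (inv_pos.2 (p_pos k)).le,
      inv_mul_cancel₀ (p_pos k).ne']
    filter_upwards [(mem_lp hU (σ_meas k) (σ_le k) n 1).coeFn_toLp] with s hs
    rw [hs]
    rcases σ_cases k (U n s) with h | ⟨h | h, h'⟩ <;> simp [*]
  · rw [tendstoInMeasure_iff_norm]
    intro ε hε
    have h1 : ∀ k, Tendsto (fun n => x (h n k)) atTop (𝓝 0) := fun k => by
      have := (weak_null hI hU (σ_meas k) (σ_le k) (int_σ k) x).const_mul (p k)⁻¹
      rw [mul_zero] at this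
      simpa only [h, map_smul, smul_eq_mul] using this
    have h2 : Tendsto (fun K : ℕ => μ (κ ⁻¹' Ici K)) atTop (𝓝 0) := by
      have := tendsto_measure_iInter_atTop (μ := μ) (s := fun K : ℕ => κ ⁻¹' Ici K)
        (fun K => (κ_meas measurableSet_Ici).nullMeasurableSet)
        (fun a b hab => preimage_mono (Ici_subset_Ici.2 hab)) ⟨0, measure_ne_top _ _⟩
      rwa [show (⋂ K : ℕ, κ ⁻¹' Ici K) = ∅ from eq_empty_of_forall_notMem fun u hu => by
        have := mem_iInter.1 hu (κ u + 1)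
        simp at this, measure_empty] at this
    refine ENNReal.tendsto_nhds_zero.2 fun δ hδ => ?_
    obtain ⟨K, hK⟩ := (ENNReal.tendsto_nhds_zero.1 h2 δ hδ).exists
    have h3 : ∀ᶠ n in atTop, ∀ k ∈ Finset.range K, ‖x (h n k)‖ < ε :=
      (Finset.eventually_all _).2 fun k _ => by
        have := (h1 k).norm
        rw [norm_zero] at this
        exact this.eventually_lt_const hε
    filter_upwards [h3] with n hn
    refine le_trans ?_ hK
    rw [← (hU n).measure_preimage (κ_meas measurableSet_Ici).nullMeasurableSet]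
    refine measure_mono fun t ht => ?_
    by_contra h4
    have := hn (κ (U n t)) (Finset.mem_range.2 (not_le.1 h4))
    simp only [mem_ofPred_eq, sub_zero] at ht
    linarith
  · obtain ⟨x, hx⟩ := exists_x hI hU φ hφ.injective
    refine ⟨x, fun hae => ?_⟩
    let s : ℕ → Set ℝ := fun j => U (φ j) ⁻¹' (κ ⁻¹' {Nat.sqrt j})
    have hm : ∀ j, MeasurableSet (κ ⁻¹' {Nat.sqrt j}) := fun j => κ_meas (measurableSet_singleton _)
    have sm : ∀ j, MeasurableSet (s j) := fun j => (hU _).measurable (hm j)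
    have h1 := measure_limsup_eq_one (μ := μ) sm
      ((iIndepSet_iff_meas_biInter sm).2 fun S =>
        (hI.precomp hφ.injective).measure_inter_preimage_eq_mul S fun j _ => hm j) (by
        by_contra h2
        have h3 : ∑' j : ℕ, ENNReal.ofReal (1 / 6 * (1 / (j + 1 : ℝ))) ≠ ⊤ :=
          ne_top_of_le_ne_top h2 (ENNReal.tsum_le_tsum fun j => by
            rw [(hU _).measure_preimage (hm j).nullMeasurableSet]; exact κ_low j)
        have h4 := ENNReal.summable_toReal h3
        have e : ∀ j : ℕ, (ENNReal.ofReal (1 / 6 * (1 / (j + 1 : ℝ)))).toReal =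
            1 / 6 * (1 / (j + 1 : ℝ)) := fun j => ENNReal.toReal_ofReal (by positivity)
        simp only [e] at h4
        have h5 := (summable_mul_left_iff (by norm_num)).1 h4
        refine Real.not_summable_one_div_natCast ((summable_nat_add_iff 1).1 ?_)
        simpa using h5)
    have h2 : μ (limsup s atTop) = 0 := by
      refine measure_mono_null (fun t ht => ?_) (ae_iff.1 hae)
      intro h3
      have h4 := (mem_limsup_iff_frequently_mem.1 ht).and_eventually
        (h3.eventually_lt_const (show (0 : ℝ) < 1 / 2 by norm_num))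
      obtain ⟨j, h5, h6⟩ := h4.exists
      have h7 : κ (U (φ j) t) = Nat.sqrt j := h5
      simp only [h7, h, map_smul, smul_eq_mul] at h6
      have h8 := mul_le_mul_of_nonneg_left (hx j) (inv_pos.2 (p_pos (Nat.sqrt j))).le
      rw [← mul_div_assoc, inv_mul_cancel₀ (p_pos _).ne'] at h8
      linarith
    rw [h2] at h1
    exact zero_ne_one h1

end Pool.Agent.Lib.helper23.DinfA
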