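import Mathlib

set_option autoImplicit false

namespace Pool.Agent.Lib.helper23.Fc
open Finset

/-- real amplitudes: first component for a last step to the right, second to the left -/
def amp : ℕ → ℤ → ℝ × ℝ
  | 0, y => (if y = 1 then 1 else 0, 0)
  | n + 1, y => ((amp n (y - 1)).1 - (amp n (y - 1)).2, (amp n (y + 1)).2 + (amp n (y + 1)).1)

/-- position after the steps -/
def pos {m : ℕ} (s : Fin m → Bool) : ℤ := ∑ i, (if s i then (1:ℤ) else -1)

/-- number of turns -/
def turns {n : ℕ} (s : Fin (n + 1) → Bool) : ℕ :=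
  (Finset.univ.filter (fun i : Fin n => s i.castSucc ≠ s i.succ)).card

/-- path sum with prescribed end and last step -/
noncomputable def T (n : ℕ) (y : ℤ) (b : Bool) : ℂ :=
  ∑ s : Fin (n + 1) → Bool,
    if s 0 = true ∧ pos s = y ∧ s (Fin.last n) = b then (-Complex.I) ^ turns s else 0

lemma pos_snoc {m : ℕ} (s : Fin m → Bool) (c : Bool) :
    pos (Fin.snoc s c : Fin (m + 1) → Bool) = pos s + (if c then 1 else -1) := by
  simp [pos, Fin.sum_univ_castSucc]

lemma turns_snoc {n : ℕ} (s : Fin (n + 1) → Bool) (c : Bool) :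
    turns (Fin.snoc s c : Fin (n + 2) → Bool)
      = turns s + (if s (Fin.last n) = c then 0 else 1) := by
  simp only [turns, Finset.card_filter]
  rw [Fin.sum_univ_castSucc]
  congr 1
  · apply Finset.sum_congr rfl
    intro i _
    rw [Fin.succ_castSucc]
    simp only [Fin.snoc_castSucc]
  · rw [Fin.succ_last]
    simp only [Fin.snoc_castSucc, Fin.snoc_last]
    by_cases h : s (Fin.last n) = c <;> simp [h]

lemma T_succ (n : ℕ) (y : ℤ) (c : Bool) :
    T (n + 1) y c = T n (y - (if c then 1 else -1)) c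
      + (-Complex.I) * T n (y - (if c then 1 else -1)) (!c) := by
  unfold T
  rw [← (Fin.snocEquiv (fun _ : Fin (n + 2) => Bool)).sum_comp, Fintype.sum_prod_type,
    Finset.mul_sum, ← Finset.sum_add_distrib, Finset.sum_comm]
  apply Finset.sum_congr rfl
  intro s _
  have h0 : ∀ d : Bool, (Fin.snoc s d : Fin (n + 2) → Bool) 0 = s 0 := by
    intro d
    have : (0 : Fin (n + 2)) = Fin.castSucc 0 := rfl
    rw [this, Fin.snoc_castSucc]
  have e : ∀ d : Bool, (Fin.snocEquiv (fun _ : Fin (n + 2) => Bool)) (d, s)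
      = (Fin.snoc s d : Fin (n + 2) → Bool) := fun d => rfl
  simp only [e, h0, pos_snoc, turns_snoc, Fin.snoc_last, Fintype.sum_bool, eq_sub_iff_add_eq]
  cases c <;> cases h : s (Fin.last n) <;> simp [pow_succ, mul_comm]

lemma T_eq (n : ℕ) : ∀ y : ℤ, T n y true = ((amp n y).1 : ℂ) ∧
    T n y false = -Complex.I * ((amp n y).2 : ℂ) := by
  induction n with
  | zero =>
    intro y
    unfold T
    rw [← (Equiv.funUnique (Fin 1) Bool).symm.sum_comp, ← (Equiv.funUnique (Fin 1) Bool).symm.sum_comp]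
    simp only [Fintype.sum_bool]
    simp [amp, pos, turns, eq_comm]
    split_ifs <;> simp
  | succ n ih =>
    intro y
    constructor
    · rw [T_succ]
      simp only [if_true, Bool.not_true, (ih _).1, (ih _).2, amp]
      push_cast
      linear_combination ((amp n (y - 1)).2 : ℂ) * Complex.I_sq
    · rw [T_succ]
      simp only [Bool.false_eq_true, if_false, Bool.not_false, (ih _).1, (ih _).2, amp,
        sub_neg_eq_add]
      push_cast
      ring

lemma norm_eq (n : ℕ) (y : ℤ) :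
    ‖∑ s ∈ Finset.univ.filter
              (fun s : Fin (n+1) → Bool =>
                s 0 = true ∧ ∑ i, (if s i then (1:ℤ) else -1) = y),
            (-Complex.I) ^ ((Finset.univ.filter
              (fun i : Fin n => s i.castSucc ≠ s i.succ)).card)‖ ^ 2
      = (amp n y).1 ^ 2 + (amp n y).2 ^ 2 := by
  have e : (∑ s ∈ Finset.univ.filter
              (fun s : Fin (n+1) → Bool =>
                s 0 = true ∧ ∑ i, (if s i then (1:ℤ) else -1) = y),
            (-Complex.I) ^ ((Finset.univ.filter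
              (fun i : Fin n => s i.castSucc ≠ s i.succ)).card)) = T n y true + T n y false := by
    unfold T
    rw [Finset.sum_filter, ← Finset.sum_add_distrib]
    apply Finset.sum_congr rfl
    intro s _
    unfold pos turns
    cases h : s (Fin.last n) <;> simp
  rw [e, (T_eq n y).1, (T_eq n y).2, Complex.sq_norm, Complex.normSq_apply]
  simp
  ring

lemma rel (n : ℕ) : ∀ y : ℤ,
    ((n : ℝ) + y - 1) * (amp n (y - 2)).2 = ((n : ℝ) + y - 1) * (amp n y).2
      + 2 * ((y : ℝ) - 1) * (amp n y).1 ∧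
    ((n : ℝ) + 3 - y) * (amp n (y - 2)).1 = ((n : ℝ) + 1 - y) * (amp n y).1
      - 2 * ((y : ℝ) - 2) * (amp n (y - 2)).2 := by
  induction n with
  | zero =>
    intro y
    simp only [amp]
    constructor
    · split_ifs with h
      · simp [h]
      · simp
    · split_ifs with h1 h2 h2
      · omega
      · have : (y : ℝ) = 3 := by exact_mod_cast (by omega : y = 3)
        simp [this]
      · simp [h2]
      · simp
  | succ n ih =>
    intro y
    obtain ⟨a1, a2⟩ := ih (y + 1)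
    obtain ⟨b1, b2⟩ := ih (y - 1)
    rw [show y + 1 - 2 = y - 1 by ring] at a1 a2
    simp only [amp]
    rw [show y - 2 + 1 = y - 1 by ring, show y - 2 - 1 = y - 1 - 2 by ring]
    push_cast at a1 a2 b1 b2 ⊢
    constructor
    · linear_combination a1 + a2
    · linear_combination b2 - b1

lemma supp (n : ℕ) : ∀ y : ℤ, ((n : ℤ) + 1 < y ∨ y < -(n : ℤ) - 1 ∨ Even (y + n)) →
    amp n y = (0, 0) := by
  induction n with
  | zero =>
    intro y hy
    have : y ≠ 1 := by
      rintro rfl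
      rcases hy with h | h | h
      · omega
      · omega
      · revert h; decide
    simp [amp, this]
  | succ n ih =>
    intro y hy
    have h1 : amp n (y - 1) = (0, 0) := by
      apply ih
      rcases hy with h | h | ⟨k, h⟩
      · left; push_cast at h; omega
      · right; left; push_cast at h; omega
      · right; right; exact ⟨k - 1, by push_cast at h; omega⟩
    have h2 : amp n (y + 1) = (0, 0) := by
      apply ih
      rcases hy with h | h | ⟨k, h⟩
      · left; push_cast at h; omega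
      · right; left; push_cast at h; omega
      · right; right; exact ⟨k, by push_cast at h; omega⟩
    simp [amp, h1, h2]

lemma top (n : ℕ) : amp n (n + 1) = (1, 0) := by
  induction n with
  | zero => simp [amp]
  | succ n ih =>
    simp only [amp]
    push_cast
    rw [show (n : ℤ) + 1 + 1 - 1 = n + 1 by ring, ih, supp n _ (by left; omega)]
    simp

lemma step1 {U U' F F' a E μ K : ℝ} (hU : 0 < U) (hμ : 0 < μ) (hF : μ * U ≤ F) (ha : μ ^ 2 ≤ a)
    (h1 : a * (U' - U) = F) (h2 : F' = F + E * U') (hE : -K ≤ E) :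
    U < U' ∧ (μ - (1 + K)) * U' ≤ F' := by
  have ha0 : 0 < a := lt_of_lt_of_le (by positivity) ha
  have hF0 : 0 < F := lt_of_lt_of_le (by positivity) hF
  have hd : 0 < U' - U := by
    by_contra h
    push Not at h
    nlinarith
  refine ⟨by linarith, ?_⟩
  have h3 : (μ - 1) * U' ≤ F := by
    by_cases hm : μ ≤ 1
    · nlinarith
    · push Not at hm
      have h4 : μ ^ 2 * (U' - U) ≤ F := by nlinarith
      have h5 : μ ^ 2 * U ≤ μ * F := by nlinarith
      have h6 : μ ^ 2 * U' ≤ (μ + 1) * F := by nlinarith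
      by_contra hc
      push Not at hc
      have h7 : (μ + 1) * F < (μ + 1) * ((μ - 1) * U') := by gcongr
      nlinarith
  nlinarith

lemma iter (U F a E : ℕ → ℝ) (s T : ℕ) (μ K A : ℝ) (hK : 0 ≤ K)
    (h1 : ∀ j, s ≤ j → j < s + T → a j * (U (j + 1) - U j) = F j)
    (h2 : ∀ j, s ≤ j → j < s + T → F (j + 1) = F j + E j * U (j + 1))
    (hE : ∀ j, s ≤ j → j < s + T → -K ≤ E j) (ha : ∀ j, s ≤ j → j < s + T → A ≤ a j)
    (hμ : μ ^ 2 ≤ A) (hT : T * (1 + K) < μ) (hU : 0 < U s) (hF : μ * U s ≤ F s) :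
    ∀ i ≤ T, 0 < U (s + i) ∧ (μ - i * (1 + K)) * U (s + i) ≤ F (s + i) := by
  intro i
  induction i with
  | zero => intro _; simpa using ⟨hU, hF⟩
  | succ i ih =>
    intro hi
    obtain ⟨p1, p2⟩ := ih (by omega)
    have hi' : (i : ℝ) + 1 ≤ T := by exact_mod_cast hi
    have hpos : 0 < μ - i * (1 + K) := by nlinarith
    have hle : μ - i * (1 + K) ≤ μ := by
      have : 0 ≤ (i : ℝ) * (1 + K) := by positivity
      linarith
    have := step1 p1 hpos p2 (le_trans (by nlinarith) (hμ.trans (ha (s + i) (by omega) (by omega))))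
      (h1 (s + i) (by omega) (by omega)) (h2 (s + i) (by omega) (by omega))
      (hE (s + i) (by omega) (by omega))
    rw [← add_assoc]
    refine ⟨by linarith [this.1], ?_⟩
    push_cast
    have e : μ - (↑i + 1) * (1 + K) = μ - i * (1 + K) - (1 + K) := by ring
    rw [e]; exact this.2

/-- signed left amplitude -/
noncomputable def U (n q : ℕ) : ℝ := (-1) ^ (q + 1) * (amp n (n + 1 - 2 * q)).2

/-- signed right amplitude -/
noncomputable def V (n q : ℕ) : ℝ := (-1) ^ q * (amp n (n + 1 - 2 * q)).1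

lemma R1 (n q : ℕ) : ((n : ℝ) - q) * (U n (q + 1) + U n q) = ((n : ℝ) - 2 * q) * V n q := by
  have h := (rel n (n + 1 - 2 * q)).1
  unfold U V
  rw [show (n : ℤ) + 1 - 2 * ((q + 1 : ℕ) : ℤ) = n + 1 - 2 * q - 2 by push_cast; ring]
  push_cast at h
  simp only [pow_succ]
  linear_combination ((-1 : ℝ) ^ q / 2) * h

lemma R2 (n q : ℕ) : ((q : ℝ) + 1) * V n (q + 1) + q * V n q
    = ((n : ℝ) - 2 * q - 1) * U n (q + 1) := by
  have h := (rel n (n + 1 - 2 * q)).2
  unfold U V
  rw [show (n : ℤ) + 1 - 2 * ((q + 1 : ℕ) : ℤ) = n + 1 - 2 * q - 2 by push_cast; ring]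
  push_cast at h
  simp only [pow_succ]
  linear_combination (-(-1 : ℝ) ^ q / 2) * h

lemma U0 (n : ℕ) : U n 0 = 0 := by simp [U, top]

lemma V0 (n : ℕ) : V n 0 = 1 := by simp [V, top]

/-- flux coefficient -/
noncomputable def al (n q : ℕ) : ℝ := q * ((n : ℝ) - q) / ((n : ℝ) - 2 * q)

/-- potential -/
noncomputable def E (n q : ℕ) : ℝ := (n : ℝ) - 2 * q - 1 - 2 * al n q - 2 * al n (q + 1)

lemma flux (n q : ℕ) (h : 0 < (n : ℝ) - 2 * q - 2) :
    al n (q + 1) * (U n (q + 1 + 1) - U n (q + 1))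
      = al n q * (U n (q + 1) - U n q) + E n q * U n (q + 1) := by
  have a := R1 n q
  have b := R1 n (q + 1)
  have c := R2 n q
  have h1 : (n : ℝ) - 2 * q ≠ 0 := by linarith
  have h2 : (n : ℝ) - 2 * ((q + 1 : ℕ) : ℝ) ≠ 0 := by push_cast; linarith
  have a' : al n q * (U n (q + 1) + U n q) = q * V n q := by
    unfold al; rw [div_mul_eq_mul_div, div_eq_iff h1]; linear_combination (q : ℝ) * a
  have b' : al n (q + 1) * (U n (q + 1 + 1) + U n (q + 1)) = ((q + 1 : ℕ) : ℝ) * V n (q + 1) := by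
    unfold al; rw [div_mul_eq_mul_div, div_eq_iff h2]
    linear_combination ((q + 1 : ℕ) : ℝ) * b
  unfold E
  push_cast at b'
  linear_combination a' + b' + c

lemma E_ge (n q : ℕ) (r : ℝ) (hr : 2 * r ^ 2 = (n : ℝ) ^ 2) (h : 0 < (n : ℝ) - 2 * q - 2) :
    2 * ((n : ℝ) - 2 * q - 2) + 2 - 2 * r ^ 2 / ((n : ℝ) - 2 * q - 2) ≤ E n q := by
  set y := (n : ℝ) - 2 * q - 2 with hy
  have e1 : al n q = (2 * r ^ 2 - (y + 2) ^ 2) / (4 * (y + 2)) := by
    unfold al
    rw [hr, div_eq_div_iff (by linarith) (by linarith), hy]; ring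
  have e2 : al n (q + 1) = (2 * r ^ 2 - y ^ 2) / (4 * y) := by
    unfold al
    push_cast
    rw [hr, div_eq_div_iff (by linarith) (by linarith), hy]; ring
  have e3 : E n q = 2 * y + 2 - r ^ 2 / (y + 2) - r ^ 2 / y := by
    unfold E
    rw [e1, e2, show (n : ℝ) - 2 * q - 1 = y + 1 by rw [hy]; ring]
    field_simp; ring
  have e4 : r ^ 2 / (y + 2) ≤ r ^ 2 / y := by gcongr; linarith
  have e5 : 2 * r ^ 2 / y = r ^ 2 / y + r ^ 2 / y := by ring
  linarith

lemma al_ge (n q : ℕ) (h : 0 < (n : ℝ) - 2 * q) : (q : ℝ) ≤ al n q := by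
  unfold al
  rw [le_div_iff₀ h]
  have : (0 : ℝ) ≤ q := by positivity
  nlinarith

lemma incr (D L s0 n : ℕ) (r : ℝ) (hr : 2 * r ^ 2 = (n : ℝ) ^ 2) (hD : 4 * (D : ℝ) + 1 ≤ r)
    (hL : L = D * (1 + 12 * D) + 1) (hs : 16 * L ^ 2 ≤ s0)
    (hN : r ≤ (n : ℝ) - 2 * ((s0 : ℝ) + L) - 2) :
    ∀ j ≤ s0 + L + 1 + D, 0 ≤ U n j ∧ U n j < U n (j + 1) := by
  have hD0 : (0 : ℝ) ≤ D := by positivity
  have hr0 : 0 < r := by linarith
  have hL1 : (L : ℝ) = D * (1 + 12 * D) + 1 := by rw [hL]; push_cast; ring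
  have hL0 : (0 : ℝ) < L := by rw [hL1]; positivity
  have hs' : 16 * (L : ℝ) ^ 2 ≤ s0 := by exact_mod_cast hs
  have hy : ∀ j ≤ s0 + L + D, r - 2 * D ≤ (n : ℝ) - 2 * j - 2 := by
    intro j hj
    have : (j : ℝ) ≤ s0 + L + D := by exact_mod_cast hj
    linarith
  have hy0 : ∀ j ≤ s0 + L + D, 0 < (n : ℝ) - 2 * j - 2 := by
    intro j hj; have := hy j hj; linarith
  have hE1 : ∀ j : ℕ, r ≤ (n : ℝ) - 2 * j - 2 → 2 * ((n : ℝ) - 2 * j - 2 - r) + 2 ≤ E n j := by
    intro j hj
    have a := E_ge n j r hr (by linarith)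
    set y := (n : ℝ) - 2 * j - 2
    have : 2 * r ^ 2 / y ≤ 2 * r := by
      rw [div_le_iff₀ (by linarith)]; nlinarith
    linarith
  have hE0 : ∀ j ≤ s0 + L, 0 < E n j := by
    intro j hj
    have : (j : ℝ) ≤ s0 + L := by exact_mod_cast hj
    have := hE1 j (by linarith)
    linarith
  have hE2 : ∀ j ≤ s0 + L + D, -(12 * (D : ℝ)) ≤ E n j := by
    intro j hj
    by_cases h : r ≤ (n : ℝ) - 2 * j - 2
    · have := hE1 j h; linarith
    · have a := E_ge n j r hr (hy0 j hj)
      have b := hy j hj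
      set y := (n : ℝ) - 2 * j - 2
      push Not at h
      have : 2 * r ^ 2 / y ≤ 2 * y + 12 * D := by
        rw [div_le_iff₀ (by linarith)]; nlinarith
      linarith
  have hn0 : (0 : ℝ) < n := by have := hy0 0 (by omega); simp at this; linarith
  have hU1 : U n 1 = 1 := by
    have := R1 n 0
    simp only [U0, V0, CharP.cast_eq_zero, sub_zero, mul_zero, zero_add, add_zero, mul_one] at this
    field_simp at this
    exact this
  have hal : ∀ j ≤ s0 + L + D, (j : ℝ) + 1 ≤ al n (j + 1) := by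
    intro j hj
    have := al_ge n (j + 1) (by push_cast; have := hy0 j hj; linarith)
    push_cast at this; exact this
  have P0 : ∀ j ≤ s0 + L + 1, 0 ≤ al n j * (U n (j + 1) - U n j) ∧ 0 ≤ U n j ∧
      U n j < U n (j + 1) := by
    intro j
    induction j with
    | zero => intro _; simp [al, U0, hU1]
    | succ j ih =>
      intro hj
      obtain ⟨a, b, c⟩ := ih (by omega)
      have d := flux n j (hy0 j (by omega))
      have e := mul_pos (hE0 j (by omega)) (b.trans_lt c)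
      have f := hal j (by omega)
      have g : 0 < al n (j + 1) * (U n (j + 1 + 1) - U n (j + 1)) := by linarith
      have f' : 0 < al n (j + 1) := by have : (0 : ℝ) ≤ j := by positivity
                                       linarith
      exact ⟨g.le, (b.trans_lt c).le, by have := (mul_pos_iff_of_pos_left f').mp g; linarith⟩
  have hstart : 4 * (L : ℝ) * U n (s0 + 1) ≤ al n (s0 + 1) * (U n (s0 + 1 + 1) - U n (s0 + 1)) := by
    obtain ⟨a, b, c⟩ := P0 s0 (by omega)
    have d := flux n s0 (hy0 s0 (by omega))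
    have e := hE1 s0 (by linarith)
    have f : 4 * (L : ℝ) ≤ E n s0 := by linarith
    have := mul_le_mul_of_nonneg_right f (b.trans_lt c).le
    linarith
  have hA : ∀ j, s0 + 1 ≤ j → j ≤ s0 + L + D + 1 → 16 * (L : ℝ) ^ 2 ≤ al n j := by
    intro j h1 h2
    obtain ⟨j, rfl⟩ : ∃ j', j = j' + 1 := ⟨j - 1, by omega⟩
    have := hal j (by omega)
    have h3 : (s0 : ℝ) ≤ j := by exact_mod_cast (by omega : s0 ≤ j)
    linarith
  have I1 := iter (U n) (fun j => al n j * (U n (j + 1) - U n j)) (al n) (E n) (s0 + 1) L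
    (4 * L) 0 (16 * L ^ 2) le_rfl (fun _ _ _ => rfl)
    (fun j _ h => flux n j (hy0 j (by omega)))
    (fun j _ h => by have := hE0 j (by omega); linarith)
    (fun j h1 h2 => hA j h1 (by omega)) (by nlinarith) (by linarith)
    (by obtain ⟨_, b, c⟩ := P0 s0 (by omega); linarith) hstart L le_rfl
  have I2 := iter (U n) (fun j => al n j * (U n (j + 1) - U n j)) (al n) (E n) (s0 + 1 + L) D
    (3 * L) (12 * D) (16 * L ^ 2) (by positivity) (fun _ _ _ => rfl)
    (fun j _ h => flux n j (hy0 j (by omega)))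
    (fun j _ h => hE2 j (by omega))
    (fun j h1 h2 => hA j (by omega) (by omega)) (by nlinarith) (by nlinarith)
    I1.1 (by have := I1.2; convert this using 2; ring)
  intro j hj
  rcases le_or_gt j (s0 + L + 1) with h | h
  · exact (P0 j h).2
  · obtain ⟨i, rfl⟩ : ∃ i, j = s0 + 1 + L + i := ⟨j - (s0 + 1 + L), by omega⟩
    obtain ⟨a, b⟩ := I2 i (by omega)
    have hi : (i : ℝ) ≤ D := by exact_mod_cast (by omega : i ≤ D)
    have c : 0 < 3 * (L : ℝ) - i * (1 + 12 * D) := by nlinarith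
    have d := (mul_pos c a).trans_le b
    have e : 0 < al n (s0 + 1 + L + i) :=
      lt_of_lt_of_le (by positivity) (hA _ (by omega) (by omega))
    have := (mul_pos_iff_of_pos_left e).mp d
    exact ⟨a.le, by linarith⟩

lemma P_incr (n q : ℕ) (h : 0 < (n : ℝ) - 2 * q - 2) (h0 : 0 ≤ U n q) (h1 : U n q < U n (q + 1))
    (h2 : U n (q + 1) < U n (q + 1 + 1)) :
    V n q ^ 2 + U n q ^ 2 < V n (q + 1) ^ 2 + U n (q + 1) ^ 2 := by
  have a := R1 n q
  have b := R1 n (q + 1)
  push_cast at b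
  have hq : (0 : ℝ) ≤ q := by positivity
  have hV : 0 ≤ V n q := by
    have : 0 ≤ ((n : ℝ) - 2 * q) * V n q := by
      rw [← a]; apply mul_nonneg <;> linarith
    exact nonneg_of_mul_nonneg_right this (by linarith)
  have hVV : V n q ≤ V n (q + 1) := by
    have hp : 0 < ((n : ℝ) - 2 * q) * ((n : ℝ) - 2 * q - 2) := mul_pos (by linarith) h
    apply le_of_mul_le_mul_left _ hp
    have e1 : ((n : ℝ) - 2 * q) * ((n : ℝ) - 2 * q - 2) * V n q
        = ((n : ℝ) - 2 * q - 2) * ((n : ℝ) - q) * (U n (q + 1) + U n q) := by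
      linear_combination (-((n : ℝ) - 2 * q - 2)) * a
    have e2 : ((n : ℝ) - 2 * q) * ((n : ℝ) - 2 * q - 2) * V n (q + 1)
        = ((n : ℝ) - 2 * q) * ((n : ℝ) - q - 1) * (U n (q + 1 + 1) + U n (q + 1)) := by
      linear_combination (-((n : ℝ) - 2 * q)) * b
    rw [e1, e2]
    apply mul_le_mul (by nlinarith) (by linarith) (by linarith)
    apply mul_nonneg <;> linarith
  nlinarith

lemma sq_amp (n q : ℕ) : (amp n (n + 1 - 2 * q)).1 ^ 2 + (amp n (n + 1 - 2 * q)).2 ^ 2
    = V n q ^ 2 + U n q ^ 2 := by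
  unfold U V
  rw [mul_pow, mul_pow, ← pow_mul, ← pow_mul, mul_comm q, mul_comm (q + 1), pow_mul, pow_mul]
  simp

theorem main (C : ℝ) : ∃ (n : ℕ) (x : ℤ),
    (∀ y : ℤ, (amp n y).1 ^ 2 + (amp n y).2 ^ 2 ≤ (amp n x).1 ^ 2 + (amp n x).2 ^ 2) ∧
    ¬ |(x:ℝ) - ((n:ℝ) + 1) / Real.sqrt 2| ≤ C := by
  set D : ℕ := ⌈C⌉₊ + 3 with hD
  set L : ℕ := D * (1 + 12 * D) + 1 with hL
  set n : ℕ := 8 * (16 * L ^ 2 + L) + 16 + 8 * D with hn
  have hs2 : 0 < Real.sqrt 2 := by positivity
  have hs3 : Real.sqrt 2 ^ 2 = 2 := Real.sq_sqrt (by norm_num)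
  have hs4 : 4 / 3 ≤ Real.sqrt 2 := by nlinarith
  have hs5 : Real.sqrt 2 ≤ 2 := by nlinarith
  set r : ℝ := n / Real.sqrt 2 with hr
  have hn0 : (0 : ℝ) ≤ n := by positivity
  have hr1 : r * Real.sqrt 2 = n := by rw [hr]; field_simp
  have hr0 : 0 ≤ r := by positivity
  have hr2 : 2 * r ^ 2 = (n : ℝ) ^ 2 := by rw [← hr1, mul_pow, hs3]; ring
  have hr3 : r ≤ 3 / 4 * n := by nlinarith
  have hr4 : (n : ℝ) / 2 ≤ r := by nlinarith
  have hnr : (n : ℝ) = 8 * (16 * (L : ℝ) ^ 2 + L) + 16 + 8 * D := by rw [hn]; push_cast; ring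
  have hL0 : (0 : ℝ) ≤ 16 * (L : ℝ) ^ 2 + L := by positivity
  have hD0 : (0 : ℝ) ≤ D := by positivity
  have hz : (0 : ℝ) ≤ ((n : ℝ) - 2 - r) / 2 := by linarith
  have hN1 := Nat.floor_le hz
  have hN2 := Nat.lt_floor_add_one (((n : ℝ) - 2 - r) / 2)
  have hN3 : 16 * L ^ 2 + L ≤ ⌊((n : ℝ) - 2 - r) / 2⌋₊ := by
    apply Nat.le_floor; push_cast; linarith
  obtain ⟨s0, hs0⟩ : ∃ s0, ⌊((n : ℝ) - 2 - r) / 2⌋₊ = s0 + L :=
    ⟨⌊((n : ℝ) - 2 - r) / 2⌋₊ - L, by omega⟩
  rw [hs0] at hN1 hN2 hN3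
  push_cast at hN1 hN2
  have hinc := incr D L s0 n r hr2 (by linarith) hL (by omega) (by linarith)
  obtain ⟨q, hq, hmax⟩ := Finset.exists_max_image (Finset.range (n + 2))
    (fun q => V n q ^ 2 + U n q ^ 2) ⟨0, by simp⟩
  refine ⟨n, n + 1 - 2 * q, ?_, ?_⟩
  · intro y
    rw [sq_amp]
    by_cases hy : (n : ℤ) + 1 < y ∨ y < -(n : ℤ) - 1 ∨ Even (y + n)
    · rw [supp n y hy]; simp only [ne_eq, OfNat.ofNat_ne_zero, not_false_eq_true, zero_pow, add_zero]
      positivity
    · push Not at hy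
      obtain ⟨h1, h2, h3⟩ := hy
      obtain ⟨k, hk⟩ := Int.not_even_iff_odd.mp h3
      obtain ⟨q', hq'⟩ : ∃ q' : ℕ, (q' : ℤ) = n - k := ⟨(n - k).toNat, by omega⟩
      have e : y = n + 1 - 2 * q' := by omega
      rw [e, sq_amp]
      exact hmax q' (by simp only [Finset.mem_range]; omega)
  · intro hC
    have h1 := (abs_le.mp hC).1
    push_cast at h1
    have h2 : r ≤ ((n : ℝ) + 1) / Real.sqrt 2 := by rw [hr]; gcongr; linarith
    have h3 : C ≤ (⌈C⌉₊ : ℝ) := Nat.le_ceil C
    have h4 : (D : ℝ) = ⌈C⌉₊ + 3 := by rw [hD]; push_cast; ring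
    have h5 : (q : ℝ) < s0 + L + D + 1 := by linarith
    have h6 : q ≤ s0 + L + D := by
      have : q < s0 + L + D + 1 := by exact_mod_cast h5
      omega
    have h7 : (q : ℝ) ≤ s0 + L + D := by exact_mod_cast h6
    have h8 : 0 < (n : ℝ) - 2 * q - 2 := by linarith
    have h9 := P_incr n q h8 (hinc q (by omega)).1 (hinc q (by omega)).2
      (hinc (q + 1) (by omega)).2
    have h10 : q + 1 < n + 2 := by
      have : (q : ℝ) < n := by linarith
      have : q < n := by exact_mod_cast this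
      omega
    have := hmax (q + 1) (Finset.mem_range.mpr h10)
    linarith

end Pool.Agent.Lib.helper23.Fc
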