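import Mathlib

/-!
Cube groups of a filtered group, and closure of cubes under a loop multiplication whose
translations lie in a nilpotent group.
-/

set_option autoImplicit false

namespace Pool.Agent.Lib.Helper23.Cube

open scoped Classical commutatorElement

variable {G : Type*} [Group G]

section Basic

variable {P : Type} [SemilatticeSup P]

/-- The function equal to `g` above `S` and to `1` elsewhere. -/
noncomputable def ind (g : G) (S : P) : P → G := fun ω => if S ≤ ω then g else 1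

/-- The group generated by the `ind g S` with `S ∈ U` and `g ∈ F (r S)`. -/
def NN (F : ℕ → Subgroup G) (r : P → ℕ) (U : Set P) : Subgroup (P → G) :=
  Subgroup.closure {k | ∃ S ∈ U, ∃ g ∈ F (r S), k = ind g S}

/-- The cube group. -/
def HK (F : ℕ → Subgroup G) (r : P → ℕ) : Subgroup (P → G) := NN F r Set.univ

/-- The condition on filtrations. -/
def Good (F : ℕ → Subgroup G) : Prop :=
  Antitone F ∧ ∀ i (g h : G), g ∈ F i → ⁅h, g⁆ ∈ F (2 * i)

variable {F : ℕ → Subgroup G} {r : P → ℕ}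

theorem ind_mem {U : Set P} {S : P} (hS : S ∈ U) {g : G} (hg : g ∈ F (r S)) :
    ind g S ∈ NN F r U := Subgroup.subset_closure ⟨S, hS, g, hg, rfl⟩

theorem ind_mul (g h : G) (S : P) : ind (g * h) S = ind g S * ind h S := by
  funext ω; simp only [ind, Pi.mul_apply]; split_ifs <;> simp

theorem ind_one (S : P) : ind (1 : G) S = 1 := by
  funext ω; simp [ind]

theorem ind_inv (g : G) (S : P) : ind g⁻¹ S = (ind g S)⁻¹ := by
  funext ω; simp only [ind, Pi.inv_apply]; split_ifs <;> simp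

theorem conj_mem (hF : Good F) (hr : ∀ a b, r (a ⊔ b) ≤ r a + r b) {U : Set P}
    (hU : IsUpperSet U) (S' : P) {h : G} (hh : h ∈ F (r S')) {ν : P → G} (hν : ν ∈ NN F r U) :
    ind h S' * ν * (ind h S')⁻¹ ∈ NN F r U := by
  induction hν using Subgroup.closure_induction with
  | mem k hk =>
    obtain ⟨S, hS, g, hg, rfl⟩ := hk
    have h1 : ind h S' * ind g S * (ind h S')⁻¹ = ind ⁅h, g⁆ (S ⊔ S') * ind g S := by
      funext ω
      simp only [ind, Pi.mul_apply, Pi.inv_apply, sup_le_iff]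
      by_cases c1 : S ≤ ω <;> by_cases c2 : S' ≤ ω <;> simp [c1, c2, commutatorElement_def]
    rw [h1]
    refine Subgroup.mul_mem _ (ind_mem (hU le_sup_left hS) ?_) (ind_mem hS hg)
    have h2 := hr S S'
    rcases le_total (r S') (r S) with c | c
    · exact hF.1 (by omega) (hF.2 _ g h hg)
    · rw [← commutatorElement_inv]
      exact Subgroup.inv_mem _ (hF.1 (by omega) (hF.2 _ h g hh))
  | one => simp
  | mul a b _ _ h1 h2 =>
    have := Subgroup.mul_mem _ h1 h2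
    simpa [mul_assoc] using this
  | inv a _ h1 =>
    have := Subgroup.inv_mem _ h1
    simpa [mul_assoc] using this

theorem split (hF : Good F) (hr : ∀ a b, r (a ⊔ b) ≤ r a + r b) {U : Set P} {R : P}
    (hU' : IsUpperSet (U \ {R})) {κ : P → G} (hκ : κ ∈ NN F r U) :
    ∃ g ∈ F (r R), ∃ ν ∈ NN F r (U \ {R}), κ = ind g R * ν := by
  induction hκ using Subgroup.closure_induction with
  | mem k hk =>
    obtain ⟨S, hS, g, hg, rfl⟩ := hk
    by_cases c : S = R
    · subst c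
      exact ⟨g, hg, 1, Subgroup.one_mem _, by simp⟩
    · exact ⟨1, Subgroup.one_mem _, _, ind_mem (U := U \ {R}) ⟨hS, c⟩ hg, by simp [ind_one]⟩
  | one => exact ⟨1, Subgroup.one_mem _, 1, Subgroup.one_mem _, by simp [ind_one]⟩
  | mul a b _ _ h1 h2 =>
    obtain ⟨g, hg, ν, hν, rfl⟩ := h1
    obtain ⟨g', hg', ν', hν', rfl⟩ := h2
    refine ⟨g * g', Subgroup.mul_mem _ hg hg', _,
      Subgroup.mul_mem _ (conj_mem hF hr hU' R (Subgroup.inv_mem _ hg') hν) hν', ?_⟩
    simp [ind_mul, ind_inv, mul_assoc]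
  | inv a _ h1 =>
    obtain ⟨g, hg, ν, hν, rfl⟩ := h1
    refine ⟨g⁻¹, Subgroup.inv_mem _ hg, _, conj_mem hF hr hU' R hg (Subgroup.inv_mem _ hν), ?_⟩
    simp [ind_inv, mul_assoc]

theorem supp {U : Set P} (hU : IsUpperSet U) {ν : P → G} (hν : ν ∈ NN F r U) {ω : P}
    (hω : ω ∉ U) : ν ω = 1 := by
  induction hν using Subgroup.closure_induction with
  | mem k hk =>
    obtain ⟨S, hS, g, -, rfl⟩ := hk
    exact if_neg fun h => hω (hU h hS)
  | one => rfl
  | mul a b _ _ h1 h2 => simp [h1, h2]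
  | inv a _ h1 => simp [h1]

theorem upper_induction [Finite P] (p : Set P → Prop) (h0 : p ∅)
    (h1 : ∀ (U : Set P) (R : P), IsUpperSet U → R ∈ U → (∀ T, T < R → T ∉ U) →
      IsUpperSet (U \ {R}) → p (U \ {R}) → p U) (U : Set P) (hU : IsUpperSet U) : p U := by
  induction h : U.ncard using Nat.strong_induction_on generalizing U with
  | _ n ih =>
    rcases U.eq_empty_or_nonempty with rfl | hne
    · exact h0
    · obtain ⟨R, hR⟩ := U.toFinite.exists_minimal hne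
      have h2 : IsUpperSet (U \ {R}) :=
        hU.erase fun b hb hbR => le_antisymm hbR (hR.2 hb hbR)
      refine h1 U R hU hR.1 (fun T hT hTU => hT.not_ge (hR.2 hTU hT.le)) h2
        (ih _ ?_ _ h2 rfl)
      rw [← h]
      exact Set.ncard_sdiff_singleton_lt_of_mem hR.1

theorem uniq [Finite P] (hF : Good F) (hr : ∀ a b, r (a ⊔ b) ≤ r a + r b) (K : Subgroup G)
    (S : P) (hS : F (r S) ≤ K) {κ : P → G} (hκ : κ ∈ HK F r) (h : ∀ T, T < S → κ T ∈ K) :
    κ S ∈ K := by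
  have := upper_induction (fun U => ∀ κ ∈ NN F r U, (∀ T, T < S → κ T ∈ K) → κ S ∈ K) ?_ ?_
    Set.univ isUpperSet_univ
  · exact this κ hκ h
  · intro κ hκ _
    rw [supp isUpperSet_empty hκ (Set.notMem_empty S)]
    exact K.one_mem
  · intro U R _ _ _ hU' ih κ hκ h
    obtain ⟨g, hg, ν, hν, rfl⟩ := split hF hr hU' hκ
    have h1 : ∀ T, T ≤ S → ind g R T ∈ K := by
      intro T hT
      unfold ind
      split_ifs with c
      · rcases (c.trans hT).eq_or_lt with rfl | c'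
        · exact hS hg
        · have h2 := h R c'
          rw [Pi.mul_apply, supp hU' hν (by simp), mul_one] at h2
          simpa [ind] using h2
      · exact K.one_mem
    refine K.mul_mem (h1 S le_rfl) (ih ν hν fun T hT => ?_)
    exact (K.mul_mem_cancel_left (h1 T hT.le)).1 (h T hT)

theorem mem_of_values [Finite P] (M : Subgroup G) (hM : ∀ i, M ≤ F i) {κ : P → G}
    (hκ : ∀ ω, κ ω ∈ M) : κ ∈ HK F r := by
  have := upper_induction
    (fun U => ∀ κ : P → G, (∀ ω, κ ω ∈ M) → (∀ ω, ω ∉ U → κ ω = 1) → κ ∈ HK F r) ?_ ?_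
    Set.univ isUpperSet_univ
  · exact this κ hκ (by simp)
  · intro κ _ h
    have : κ = 1 := funext fun ω => h ω (Set.notMem_empty ω)
    rw [this]
    exact Subgroup.one_mem _
  · intro U R hU hR _ _ ih κ h1 h2
    have h3 : ind (κ R) R ∈ HK F r := ind_mem (Set.mem_univ R) (hM _ (h1 R))
    refine ((HK F r).mul_mem_cancel_left (Subgroup.inv_mem _ h3)).1 (ih _ ?_ ?_)
    · intro ω
      refine M.mul_mem (M.inv_mem ?_) (h1 ω)
      unfold ind
      split_ifs
      · exact h1 R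
      · exact M.one_mem
    · intro ω hω
      by_cases c : ω = R
      · simp [c, ind]
      · have c' : ω ∉ U := fun h => hω ⟨h, c⟩
        have c'' : ¬ R ≤ ω := fun h => c' (hU h hR)
        simp [ind, c'', h2 ω c']

theorem pullback {P' : Type} [SemilatticeSup P'] {F' : ℕ → Subgroup G} {r' : P' → ℕ}
    (f : P' → P) (hf : ∀ S g, g ∈ F (r S) → (fun ω => ind g S (f ω)) ∈ HK F' r')
    {κ : P → G} (hκ : κ ∈ HK F r) : (fun ω => κ (f ω)) ∈ HK F' r' := by
  induction hκ using Subgroup.closure_induction with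
  | mem k hk =>
    obtain ⟨S, -, g, hg, rfl⟩ := hk
    exact hf S g hg
  | one => exact Subgroup.one_mem _
  | mul a b _ _ h1 h2 => exact Subgroup.mul_mem _ h1 h2
  | inv a _ h1 => exact Subgroup.inv_mem _ h1

theorem HK_mono {F' : ℕ → Subgroup G} (h : ∀ i, F i ≤ F' i) : HK F r ≤ HK F' r :=
  Subgroup.closure_mono fun _ ⟨S, hS, g, hg, e⟩ => ⟨S, hS, g, h _ hg, e⟩

theorem decomp {F' : ℕ → Subgroup G} (M : Subgroup G) [hM : M.Normal]
    (h : ∀ i g, g ∈ F i → g ∈ F' i ∨ g ∈ M) {κ : P → G} (hκ : κ ∈ HK F r) :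
    ∃ κ' ∈ HK F' r, ∀ ω, κ ω * (κ' ω)⁻¹ ∈ M := by
  induction hκ using Subgroup.closure_induction with
  | mem k hk =>
    obtain ⟨S, -, g, hg, rfl⟩ := hk
    rcases h _ g hg with c | c
    · exact ⟨_, ind_mem (Set.mem_univ S) c, by simp⟩
    · refine ⟨1, Subgroup.one_mem _, fun ω => ?_⟩
      simp only [ind, Pi.one_apply, inv_one, mul_one]
      split_ifs
      · exact c
      · exact M.one_mem
  | one => exact ⟨1, Subgroup.one_mem _, by simp⟩
  | mul a b _ _ h1 h2 =>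
    obtain ⟨a', ha, ha'⟩ := h1
    obtain ⟨b', hb, hb'⟩ := h2
    refine ⟨a' * b', Subgroup.mul_mem _ ha hb, fun ω => ?_⟩
    have := M.mul_mem (hM.conj_mem _ (hb' ω) (a ω)) (ha' ω)
    simpa [mul_assoc] using this
  | inv a _ h1 =>
    obtain ⟨a', ha, ha'⟩ := h1
    refine ⟨a'⁻¹, Subgroup.inv_mem _ ha, fun ω => ?_⟩
    have := hM.conj_mem _ (M.inv_mem (ha' ω)) (a ω)⁻¹
    simpa [mul_assoc] using this

theorem const_mem [OrderBot P] (h0 : r ⊥ = 0) (hF : F 0 = ⊤) (g : G) :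
    (fun _ : P => g) ∈ HK F r := by
  have : (fun _ : P => g) = ind g ⊥ := by funext ω; simp [ind]
  rw [this]
  exact ind_mem (Set.mem_univ _) (by simp [h0, hF])

end Basic

section Cubes

variable {Q : Type*} [MulAction G Q] (e : Q)

/-- Cubes in `Q`. -/
def Cu {P : Type} [SemilatticeSup P] (F : ℕ → Subgroup G) (r : P → ℕ) : Set (P → Q) :=
  {x | ∃ k ∈ HK F r, ∀ ω, x ω = k ω • e}

variable {e}

theorem Cu_smul {P : Type} [SemilatticeSup P] {F : ℕ → Subgroup G} {r : P → ℕ} {k : P → G}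
    (hk : k ∈ HK F r) {x : P → Q} (hx : x ∈ Cu e F r) : (fun ω => k ω • x ω) ∈ Cu e F r := by
  obtain ⟨l, hl, hx⟩ := hx
  exact ⟨k * l, Subgroup.mul_mem _ hk hl, fun ω => by simp [hx, mul_smul]⟩

theorem Cu_approx {P : Type} [SemilatticeSup P] [Finite P] {F : ℕ → Subgroup G} {r : P → ℕ}
    (M : Subgroup G) (hM : ∀ i, M ≤ F i) {x y : P → Q} (hx : x ∈ Cu e F r)
    (h : ∀ ω, ∃ m ∈ M, y ω = m • x ω) : y ∈ Cu e F r := by
  choose m hm1 hm2 using h
  have := Cu_smul (mem_of_values (r := r) M hM hm1) hx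
  rwa [← funext hm2] at this

theorem Cu_mono {P : Type} [SemilatticeSup P] {F F' : ℕ → Subgroup G} {r : P → ℕ}
    (h : ∀ i, F i ≤ F' i) {x : P → Q} (hx : x ∈ Cu e F r) : x ∈ Cu e F' r := by
  obtain ⟨l, hl, hx⟩ := hx
  exact ⟨l, HK_mono h hl, hx⟩

/-- The elements of `G` that move the base point inside its `M`-orbit. -/
def Kk (e : Q) (M : Subgroup G) [hM : M.Normal] : Subgroup G where
  carrier := {g | ∃ m ∈ M, g • e = m • e}
  one_mem' := ⟨1, M.one_mem, rfl⟩
  mul_mem' := by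
    rintro a b ⟨m, hm, ha⟩ ⟨n, hn, hb⟩
    refine ⟨a * n * a⁻¹ * m, M.mul_mem (hM.conj_mem _ hn a) hm, ?_⟩
    simp only [mul_smul, hb, ← ha, inv_smul_smul]
  inv_mem' := by
    rintro a ⟨m, hm, ha⟩
    refine ⟨a⁻¹ * m⁻¹ * a⁻¹⁻¹, hM.conj_mem _ (M.inv_mem hm) _, ?_⟩
    simp only [mul_smul, inv_inv, ha, inv_smul_smul]

/-- The data of one step of the induction. -/
structure Step (F0 F1 F2 : ℕ → Subgroup G) (M0 M1 : Subgroup G) (u : ℕ) : Prop where
  good : Good F1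
  anti : Antitone F2
  le12 : ∀ i, F1 i ≤ F2 i
  le20 : ∀ i, F2 i ≤ F0 i
  dec : ∀ i g, g ∈ F0 i → g ∈ F1 i ∨ g ∈ M0
  m1 : ∀ i, M1 ≤ F2 i
  big : ∀ i, u < i → F1 i ≤ M1
  small : ∀ i, i ≤ u → M0 ≤ F1 i
  small2 : ∀ i, i ≤ 2 * u → M0 ≤ F2 i
  top : F1 0 = ⊤
  comm : ∀ g h : G, g ∈ M0 → ⁅h, g⁆ ∈ M1

theorem two_sided {F0 F1 F2 : ℕ → Subgroup G} {M0 M1 : Subgroup G} [M1.Normal] {u : ℕ}
    (st : Step F0 F1 F2 M0 M1 u) {P : Type} [SemilatticeSup P] [OrderBot P] [Finite P]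
    {r : P → ℕ} (h0 : r ⊥ = 0) (hr : ∀ a b, r (a ⊔ b) ≤ r a + r b)
    (β : P × P → G) (h1 : ∀ T, β T ∈ M0)
    (h2 : ∀ ω, (fun ω' => β (ω, ω') • e) ∈ Cu e F1 r)
    (h3 : ∀ ω', (fun ω => β (ω, ω') • e) ∈ Cu e F1 r) :
    (fun T => β T • e) ∈ Cu e F2 (fun T : P × P => r T.1 + r T.2) := by
  have := upper_induction (fun U : Set (P × P) => ∀ β : P × P → G, (∀ T, β T ∈ M0) →
      (∀ ω, (fun ω' => β (ω, ω') • e) ∈ Cu e F1 r) →
      (∀ ω', (fun ω => β (ω, ω') • e) ∈ Cu e F1 r) → (∀ T, T ∉ U → β T ∈ Kk e M1) →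
      (fun T => β T • e) ∈ Cu e F2 (fun T : P × P => r T.1 + r T.2)) ?_ ?_
    Set.univ isUpperSet_univ
  · exact this β h1 h2 h3 (by simp)
  · intro β _ _ _ h
    exact Cu_approx (x := fun _ => e) M1 st.m1 ⟨1, Subgroup.one_mem _, by simp⟩
      fun T => h T (Set.notMem_empty T)
  · rintro U ⟨S, S'⟩ hU hR hmin _ ih β h1 h2 h3 h4
    by_cases c : β (S, S') ∈ Kk e M1
    · refine ih β h1 h2 h3 fun T hT => ?_
      by_cases c' : T = (S, S')
      · rw [c']; exact c
      · exact h4 T fun h => hT ⟨h, c'⟩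
    have hS' : r S' ≤ u := by
      by_contra hc
      obtain ⟨κ, hκ, hκ'⟩ := h2 S
      have := uniq st.good hr (Kk e M1) S'
        (fun g hg => ⟨g, st.big _ (not_le.1 hc) hg, rfl⟩) hκ (fun T hT => by
          obtain ⟨m, hm, hm'⟩ := h4 (S, T) (hmin _ (Prod.mk_lt_mk_iff_right.2 hT))
          exact ⟨m, hm, (hκ' T).symm.trans hm'⟩)
      obtain ⟨m, hm, hm'⟩ := this
      exact c ⟨m, hm, by rw [← hm', ← hκ']⟩
    have hS : r S ≤ u := by
      by_contra hc
      obtain ⟨κ, hκ, hκ'⟩ := h3 S'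
      have := uniq st.good hr (Kk e M1) S
        (fun g hg => ⟨g, st.big _ (not_le.1 hc) hg, rfl⟩) hκ (fun T hT => by
          obtain ⟨m, hm, hm'⟩ := h4 (T, S') (hmin _ (Prod.mk_lt_mk_iff_left.2 hT))
          exact ⟨m, hm, (hκ' T).symm.trans hm'⟩)
      obtain ⟨m, hm, hm'⟩ := this
      exact c ⟨m, hm, by rw [← hm', ← hκ']⟩
    have hγ := h1 (S, S')
    have hγ' := M0.inv_mem hγ
    have h5 := ih (fun T => ind (β (S, S'))⁻¹ (S, S') T * β T) ?_ ?_ ?_ ?_
    · have h6 : ind (β (S, S')) (S, S') ∈ HK F2 (fun T : P × P => r T.1 + r T.2) :=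
        ind_mem (Set.mem_univ _) (st.small2 _ (by simp only; omega) hγ)
      have h7 := Cu_smul h6 h5
      simpa [ind_inv, mul_smul] using h7
    · intro T
      refine M0.mul_mem ?_ (h1 T)
      unfold ind
      split_ifs
      · exact hγ'
      · exact M0.one_mem
    · intro ω
      by_cases c' : S ≤ ω
      · have h6 : ind (β (S, S'))⁻¹ S' ∈ HK F1 r :=
          ind_mem (Set.mem_univ _) (st.small _ hS' hγ')
        simpa [ind, c', mul_smul] using Cu_smul h6 (h2 ω)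
      · simpa [ind, c'] using h2 ω
    · intro ω
      by_cases c' : S' ≤ ω
      · have h6 : ind (β (S, S'))⁻¹ S ∈ HK F1 r :=
          ind_mem (Set.mem_univ _) (st.small _ hS hγ')
        simpa [ind, c', mul_smul] using Cu_smul h6 (h3 ω)
      · simpa [ind, c'] using h3 ω
    · intro T hT
      by_cases c' : T = (S, S')
      · simp [c', ind]
      · have c1 : T ∉ U := fun h => hT ⟨h, c'⟩
        have c2 : ¬ (S, S') ≤ T := fun h => c1 (hU h hR)
        simpa [ind, c2] using h4 T c1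

/-- Cubes for `F` are closed under `μ`. -/
def MulClosed (e : Q) (F : ℕ → Subgroup G) (μ : Q → Q → Q) : Prop :=
  ∀ (P : Type) [SemilatticeSup P] [OrderBot P] [Finite P] (r : P → ℕ), r ⊥ = 0 →
    (∀ a b, r (a ⊔ b) ≤ r a + r b) → ∀ x ∈ Cu e F r, ∀ y ∈ Cu e F r,
      (fun ω => μ (x ω) (y ω)) ∈ Cu e F r

/-- Cubes for `F` are closed under left division for `μ`. -/
def DivClosed (e : Q) (F : ℕ → Subgroup G) (μ : Q → Q → Q) : Prop :=
  ∀ (P : Type) [SemilatticeSup P] [OrderBot P] [Finite P] (r : P → ℕ), r ⊥ = 0 →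
    (∀ a b, r (a ⊔ b) ≤ r a + r b) → ∀ x ∈ Cu e F r, ∀ z : P → Q,
      (fun ω => μ (x ω) (z ω)) ∈ Cu e F r → z ∈ Cu e F r

theorem Cu_decomp {F0 F1 : ℕ → Subgroup G} (M0 : Subgroup G) [M0.Normal]
    (dec : ∀ i g, g ∈ F0 i → g ∈ F1 i ∨ g ∈ M0) {P : Type} [SemilatticeSup P] {r : P → ℕ}
    {k : P → G} (hk : k ∈ HK F0 r) :
    ∃ k' ∈ HK F1 r, ∃ b : P → G, (∀ ω, b ω ∈ M0) ∧ k = b * k' := by
  obtain ⟨k', h1, h2⟩ := decomp M0 dec hk
  exact ⟨k', h1, k * k'⁻¹, h2, by simp⟩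

theorem mul_step {F0 F1 F2 : ℕ → Subgroup G} {M0 M1 : Subgroup G} [hM0 : M0.Normal]
    [hM1 : M1.Normal] {u : ℕ} (st : Step F0 F1 F2 M0 M1 u) {μ : Q → Q → Q}
    (hL : ∀ a, ∃ g : G, ∀ b, μ a b = g • b) (hR : ∀ b, ∃ g : G, ∀ a, μ a b = g • a)
    (ih : MulClosed e F0 μ) : MulClosed e F2 μ := by
  intro P _ _ _ r h0 hr
  have key : ∀ x ∈ Cu e F1 r, ∀ y ∈ Cu e F1 r, (fun ω => μ (x ω) (y ω)) ∈ Cu e F2 r := by
    rintro x ⟨k, hk, hx⟩ y ⟨l, hl, hy⟩
    have le10 : ∀ i, F1 i ≤ F0 i := fun i => (st.le12 i).trans (st.le20 i)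
    have hX : (fun T : P × P => k T.1) ∈ HK F1 (fun T : P × P => r T.1 + r T.2) := by
      refine pullback _ (fun S g hg => ?_) hk
      have : (fun T : P × P => ind g S T.1) = ind g (S, ⊥) := by
        funext T; simp [ind, Prod.le_def]
      rw [this]
      exact ind_mem (Set.mem_univ _) (by simpa [h0] using hg)
    have hY : (fun T : P × P => l T.2) ∈ HK F1 (fun T : P × P => r T.1 + r T.2) := by
      refine pullback _ (fun S g hg => ?_) hl
      have : (fun T : P × P => ind g S T.2) = ind g (⊥, S) := by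
        funext T; simp [ind, Prod.le_def]
      rw [this]
      exact ind_mem (Set.mem_univ _) (by simpa [h0] using hg)
    obtain ⟨m, hm, hm'⟩ := ih (P × P) (fun T : P × P => r T.1 + r T.2) (by simp [h0])
      (fun a b => by
        have h1 := hr a.1 b.1
        have h2 := hr a.2 b.2
        simp only [Prod.fst_sup, Prod.snd_sup]
        omega)
      (fun T => x T.1) ⟨_, HK_mono le10 hX, fun T => hx T.1⟩
      (fun T => y T.2) ⟨_, HK_mono le10 hY, fun T => hy T.2⟩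
    obtain ⟨m', hm1, b, hb, rfl⟩ := Cu_decomp M0 st.dec hm
    have hβ : ∀ T, ((m' T)⁻¹ * b T * m' T) • e = (m' T)⁻¹ • μ (x T.1) (y T.2) := by
      intro T
      have := hm' T
      simp only at this
      rw [this]
      simp [mul_smul]
    have h1 := two_sided (e := e) st h0 hr (fun T => (m' T)⁻¹ * b T * m' T)
      (fun T => by simpa using hM0.conj_mem _ (hb T) (m' T)⁻¹) ?_ ?_
    · have h2 := Cu_smul (HK_mono st.le12 hm1) h1
      simp only [hβ, smul_inv_smul] at h2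
      obtain ⟨n, hn, hn'⟩ := h2
      refine ⟨fun ω => n (ω, ω), pullback (fun ω => (ω, ω)) ?_ hn, fun ω => hn' (ω, ω)⟩
      rintro ⟨S, S'⟩ g hg
      have : (fun ω : P => ind g (S, S') (ω, ω)) = ind g (S ⊔ S') := by
        funext T; simp [ind]
      rw [this]
      exact ind_mem (Set.mem_univ _) (st.anti (hr S S') hg)
    · intro ω
      have h2 : (fun ω' => m' (ω, ω')) ∈ HK F1 r := by
        refine pullback (fun ω' => (ω, ω')) ?_ hm1
        rintro ⟨S, S'⟩ g hg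
        by_cases c : S ≤ ω
        · have : (fun ω' : P => ind g (S, S') (ω, ω')) = ind g S' := by
            funext T; simp [ind, c]
          rw [this]
          exact ind_mem (Set.mem_univ _) (st.good.1 (Nat.le_add_left _ _) hg)
        · have : (fun ω' : P => ind g (S, S') (ω, ω')) = 1 := by
            funext T; simp [ind, c]
          rw [this]
          exact Subgroup.one_mem _
      obtain ⟨g, hg⟩ := hL (x ω)
      have h3 := Cu_smul (Subgroup.inv_mem _ h2)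
        (Cu_smul (const_mem h0 st.top g) (x := y) ⟨l, hl, hy⟩)
      simpa only [hβ, hg, Pi.inv_apply] using h3
    · intro ω
      have h2 : (fun ω' => m' (ω', ω)) ∈ HK F1 r := by
        refine pullback (fun ω' => (ω', ω)) ?_ hm1
        rintro ⟨S, S'⟩ g hg
        by_cases c : S' ≤ ω
        · have : (fun ω' : P => ind g (S, S') (ω', ω)) = ind g S := by
            funext T; simp [ind, c]
          rw [this]
          exact ind_mem (Set.mem_univ _) (st.good.1 (Nat.le_add_right _ _) hg)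
        · have : (fun ω' : P => ind g (S, S') (ω', ω)) = 1 := by
            funext T; simp [ind, c]
          rw [this]
          exact Subgroup.one_mem _
      obtain ⟨g, hg⟩ := hR (y ω)
      have h3 := Cu_smul (Subgroup.inv_mem _ h2)
        (Cu_smul (const_mem h0 st.top g) (x := x) ⟨k, hk, hx⟩)
      simpa only [hβ, hg, Pi.inv_apply] using h3
  rintro x ⟨k, hk, hx⟩ y ⟨l, hl, hy⟩
  obtain ⟨k', hk1, b, hb, rfl⟩ := Cu_decomp M0 st.dec (HK_mono st.le20 hk)
  obtain ⟨l', hl1, c, hc, rfl⟩ := Cu_decomp M0 st.dec (HK_mono st.le20 hl)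
  have hb2 : b ∈ HK F2 r := ((HK F2 r).mul_mem_cancel_right (HK_mono st.le12 hk1)).1 hk
  have hc2 : c ∈ HK F2 r := ((HK F2 r).mul_mem_cancel_right (HK_mono st.le12 hl1)).1 hl
  have h1 := key (fun ω => k' ω • e) ⟨k', hk1, fun _ => rfl⟩ (fun ω => l' ω • e)
    ⟨l', hl1, fun _ => rfl⟩
  refine Cu_approx M1 st.m1 (Cu_smul hb2 (Cu_smul hc2 h1)) fun ω => ?_
  obtain ⟨g, hg⟩ := hR (y ω)
  obtain ⟨h, hh⟩ := hL (k' ω • e)
  refine ⟨⁅g, b ω⁆ * (b ω * ⁅h, c ω⁆ * (b ω)⁻¹), M1.mul_mem (st.comm _ _ (hb ω))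
    (hM1.conj_mem _ (st.comm _ _ (hc ω)) _), ?_⟩
  have e1 : μ (x ω) (y ω) = (⁅g, b ω⁆ * b ω) • μ (k' ω • e) (y ω) := by
    rw [hg, hg, hx]; simp [commutatorElement_def, mul_smul]
  rw [e1, hh, hh, hy]
  simp [commutatorElement_def, mul_smul]

theorem div_step {F0 F1 F2 : ℕ → Subgroup G} {M0 M1 : Subgroup G} [hM0 : M0.Normal]
    [hM1 : M1.Normal] {u : ℕ} (st : Step F0 F1 F2 M0 M1 u) {μ : Q → Q → Q}
    (hL : ∀ a, ∃ g : G, ∀ b, μ a b = g • b)
    (hm : MulClosed e F2 μ) (ih : DivClosed e F0 μ) : DivClosed e F2 μ := by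
  intro P _ _ _ r h0 hr x hx z hz
  obtain ⟨n, hn, hn'⟩ := ih P r h0 hr x (Cu_mono st.le20 hx) z (Cu_mono st.le20 hz)
  obtain ⟨n', hn1, b, hb, rfl⟩ := Cu_decomp M0 st.dec hn
  have hn2 := HK_mono st.le12 hn1
  obtain ⟨m, hm1, hm2⟩ := hm P r h0 hr x hx (fun ω => n' ω • e) ⟨n', hn2, fun _ => rfl⟩
  have h1 := Cu_smul hn2 (Cu_smul (Subgroup.inv_mem _ hm1) hz)
  refine Cu_approx M1 st.m1 h1 fun ω => ?_
  obtain ⟨g, hg⟩ := hL (x ω)
  have e1 := hm2 ω
  simp only [hg] at e1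
  refine ⟨⁅n' ω * (m ω)⁻¹ * g, b ω⁆⁻¹, M1.inv_mem (st.comm _ _ (hb ω)), ?_⟩
  have e2 : n' ω • (m ω)⁻¹ • g • n' ω • e = n' ω • e := by simp [e1]
  rw [hg, hn']
  simp [commutatorElement_def, mul_smul, e2]

/-- The filtration with thresholds `t`, cut off at level `J`. -/
def Fil (G : Type*) [Group G] (J : ℕ) (t : ℕ → ℕ) (i : ℕ) : Subgroup G :=
  ⨅ l, ⨅ (_ : l < J), ⨅ (_ : t l < i), (⊤ : Subgroup G).lowerCentralSeries (l + 1)

theorem mem_Fil {J : ℕ} {t : ℕ → ℕ} {i : ℕ} {g : G} :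
    g ∈ Fil G J t i ↔ ∀ l, l < J → t l < i → g ∈ (⊤ : Subgroup G).lowerCentralSeries (l + 1) := by
  simp only [Fil, Subgroup.mem_iInf]

theorem comm_lcs (l : ℕ) (g h : G) (hg : g ∈ (⊤ : Subgroup G).lowerCentralSeries l) :
    ⁅h, g⁆ ∈ (⊤ : Subgroup G).lowerCentralSeries (l + 1) := by
  rw [← commutatorElement_inv, Subgroup.lowerCentralSeries_succ]
  exact Subgroup.inv_mem _ (Subgroup.commutator_mem_commutator hg (Subgroup.mem_top h))

theorem Fil_good {J : ℕ} {t : ℕ → ℕ} (ht : ∀ l, l + 1 < J → 2 * t l ≤ t (l + 1)) :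
    Good (Fil G J t) := by
  constructor
  · intro i i' h g hg
    rw [mem_Fil] at hg ⊢
    exact fun l h1 h2 => hg l h1 (by omega)
  · intro i g h hg
    rw [mem_Fil] at hg ⊢
    intro l h1 h2
    apply comm_lcs
    rcases l with _ | l
    · exact Subgroup.mem_top g
    · have := ht l h1
      exact hg l (by omega) (by omega)

theorem lcs_le_Fil {J : ℕ} {t : ℕ → ℕ} (i : ℕ) :
    (⊤ : Subgroup G).lowerCentralSeries J ≤ Fil G J t i := by
  intro g hg
  rw [mem_Fil]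
  exact fun l h1 _ => Subgroup.lowerCentralSeries_antitone _ (by omega : l + 1 ≤ J) hg

theorem step (j : ℕ) : Step (Fil G j (fun l => 2 * 4 ^ l))
    (Fil G (j + 1) (fun l => if l = j then 4 ^ j else 2 * 4 ^ l))
    (Fil G (j + 1) (fun l => 2 * 4 ^ l)) ((⊤ : Subgroup G).lowerCentralSeries j)
    ((⊤ : Subgroup G).lowerCentralSeries (j + 1)) (4 ^ j) where
  good := Fil_good fun l hl => by
    have : l ≠ j := by omega
    rw [if_neg this]
    split_ifs with c
    · rw [← c, pow_succ]; omega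
    · rw [pow_succ]; omega
  anti := (Fil_good fun l _ => by rw [pow_succ]; omega).1
  le12 := fun i g hg => by
    rw [mem_Fil] at hg ⊢
    intro l h1 h2
    refine hg l h1 ?_
    split_ifs with c
    · rw [c] at h2; omega
    · exact h2
  le20 := fun i g hg => by
    rw [mem_Fil] at hg ⊢
    exact fun l h1 h2 => hg l (by omega) h2
  dec := fun i g hg => by
    rw [mem_Fil] at hg
    by_cases c : i ≤ 4 ^ j
    · left
      rw [mem_Fil]
      intro l h1 h2
      split_ifs at h2 with c'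
      · omega
      · exact hg l (by omega) h2
    · right
      rcases j with _ | j
      · exact Subgroup.mem_top g
      · refine hg j (by omega) ?_
        rw [pow_succ] at c; omega
  m1 := fun i => lcs_le_Fil i
  big := fun i hi g hg => by
    rw [mem_Fil] at hg
    exact hg j (by omega) (by simpa using hi)
  small := fun i hi g hg => by
    rw [mem_Fil]
    intro l h1 h2
    split_ifs at h2 with c
    · omega
    · exact Subgroup.lowerCentralSeries_antitone _ (by omega : l + 1 ≤ j) hg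
  small2 := fun i hi g hg => by
    rw [mem_Fil]
    intro l h1 h2
    by_cases c : l = j
    · rw [c] at h2; omega
    · exact Subgroup.lowerCentralSeries_antitone _ (by omega : l + 1 ≤ j) hg
  top := by
    rw [eq_top_iff]
    intro g _
    rw [mem_Fil]
    intro l _ h2
    omega
  comm := fun g h hg => comm_lcs j g h hg

theorem Cu_zero (htr : ∀ q : Q, ∃ g : G, q = g • e) {P : Type} [SemilatticeSup P] [Finite P]
    (r : P → ℕ) (t : ℕ → ℕ) (x : P → Q) : x ∈ Cu e (Fil G 0 t) r :=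
  Cu_approx (x := fun _ => e) _ lcs_le_Fil ⟨1, Subgroup.one_mem _, by simp⟩ fun ω => by
    obtain ⟨g, hg⟩ := htr (x ω)
    exact ⟨g, Subgroup.mem_top g, hg⟩

theorem mulClosed (htr : ∀ q : Q, ∃ g : G, q = g • e) {μ : Q → Q → Q}
    (hL : ∀ a, ∃ g : G, ∀ b, μ a b = g • b) (hR : ∀ b, ∃ g : G, ∀ a, μ a b = g • a) (j : ℕ) :
    MulClosed e (Fil G j (fun l => 2 * 4 ^ l)) μ := by
  induction j with
  | zero => intro P _ _ _ r _ _ x _ y _; exact Cu_zero htr r _ _
  | succ j ih => exact mul_step (step j) hL hR ih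

theorem divClosed (htr : ∀ q : Q, ∃ g : G, q = g • e) {μ : Q → Q → Q}
    (hL : ∀ a, ∃ g : G, ∀ b, μ a b = g • b) (hR : ∀ b, ∃ g : G, ∀ a, μ a b = g • a) (j : ℕ) :
    DivClosed e (Fil G j (fun l => 2 * 4 ^ l)) μ := by
  induction j with
  | zero => intro P _ _ _ r _ _ x _ y _; exact Cu_zero htr r _ _
  | succ j ih => exact div_step (step j) hL (mulClosed htr hL hR (j + 1)) ih

theorem edge_mem (htr : ∀ q : Q, ∃ g : G, q = g • e) {P : Type} [SemilatticeSup P] [OrderBot P]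
    {r : P → ℕ} (h0 : r ⊥ = 0) (j : ℕ) (S : P) (hS : r S ≤ 1) (a b : Q) {x : P → Q}
    (h1 : ∀ ω, S ≤ ω → x ω = b) (h2 : ∀ ω, ¬ S ≤ ω → x ω = a) :
    x ∈ Cu e (Fil G j (fun l => 2 * 4 ^ l)) r := by
  obtain ⟨g, rfl⟩ := htr a
  obtain ⟨h, rfl⟩ := htr b
  have h3 : ∀ (g : G) (i : ℕ), i ≤ 1 → g ∈ Fil G j (fun l => 2 * 4 ^ l) i := by
    intro g i hi
    rw [mem_Fil]
    intro l _ h2
    have : 0 < 4 ^ l := by positivity
    omega
  refine ⟨ind (h * g⁻¹) S * ind g ⊥, Subgroup.mul_mem _ (ind_mem (Set.mem_univ _) (h3 _ _ hS))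
    (ind_mem (Set.mem_univ _) (h3 _ _ (by omega))), fun ω => ?_⟩
  by_cases c : S ≤ ω
  · simp [ind, c, h1 ω c]
  · simp [ind, c, h2 ω c]

theorem Cu_uniq {c : ℕ} (hc : (⊤ : Subgroup G).lowerCentralSeries c = ⊥)
    {P : Type} [SemilatticeSup P] [Finite P] {r : P → ℕ} (hr : ∀ a b, r (a ⊔ b) ≤ r a + r b)
    (S : P) (hS : 2 * 4 ^ (c - 1) < r S) {x y : P → Q}
    (hx : x ∈ Cu e (Fil G c (fun l => 2 * 4 ^ l)) r)
    (hy : y ∈ Cu e (Fil G c (fun l => 2 * 4 ^ l)) r) (h : ∀ T, T < S → x T = y T) :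
    x S = y S := by
  obtain ⟨k, hk, hx⟩ := hx
  obtain ⟨l, hl, hy⟩ := hy
  have h1 := uniq (Fil_good fun l _ => by rw [pow_succ]; omega) hr (MulAction.stabilizer G e) S
    ?_ (Subgroup.mul_mem _ (Subgroup.inv_mem _ hl) hk) ?_
  · rw [MulAction.mem_stabilizer_iff, Pi.mul_apply, Pi.inv_apply, mul_smul, inv_smul_eq_iff] at h1
    rw [hx, hy, h1]
  · intro g hg
    have : g ∈ (⊤ : Subgroup G).lowerCentralSeries c := by
      rcases c with _ | c
      · exact Subgroup.mem_top g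
      · exact mem_Fil.1 hg c (by omega) hS
    rw [hc, Subgroup.mem_bot] at this
    rw [this]
    exact Subgroup.one_mem _
  · intro T hT
    rw [MulAction.mem_stabilizer_iff, Pi.mul_apply, Pi.inv_apply, mul_smul, inv_smul_eq_iff,
      ← hx, ← hy, h T hT]

end Cubes

end Pool.Agent.Lib.Helper23.Cube
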