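import Mathlib

set_option autoImplicit false

namespace Pool.Agent.Lib.helper23.Hm
open Polynomial Complex ComplexConjugate

/-- no zero in the open upper half plane -/
def St (f : ℂ[X]) : Prop := ∀ z : ℂ, 0 < z.im → f.eval z ≠ 0

/-- zero or only real complex zeros -/
def RR (p : ℝ[X]) : Prop := p = 0 ∨ ∀ z : ℂ, aeval z p = 0 → z.im = 0

lemma St.ind {P : ℂ[X] → Prop} (h0 : ∀ c : ℂ, c ≠ 0 → P (C c))
    (h1 : ∀ (r : ℂ) (g : ℂ[X]), r.im ≤ 0 → St g → P g → P ((X - C r) * g)) :
    ∀ f : ℂ[X], St f → P f := by
  intro f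
  induction' hn : f.natDegree with n ih generalizing f
  · intro hf
    have := eq_C_of_natDegree_eq_zero hn
    rw [this]
    apply h0
    intro hc
    apply hf I (by simp)
    rw [this, hc]; simp
  · intro hf
    have hdeg : f.degree ≠ 0 := by
      intro h
      have := natDegree_eq_of_degree_eq_some (h.trans (by rfl : (0 : WithBot ℕ) = ((0 : ℕ) : WithBot ℕ)))
      omega
    obtain ⟨r, hr⟩ := IsAlgClosed.exists_root f hdeg
    obtain ⟨g, hg⟩ := dvd_iff_isRoot.mpr hr
    have hf0 : f ≠ 0 := by rintro rfl; simp at hn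
    have hg0 : g ≠ 0 := by rintro rfl; simp at hg; exact hf0 hg
    have hgd : g.natDegree = n := by
      have := natDegree_mul (X_sub_C_ne_zero r) hg0
      rw [← hg, natDegree_X_sub_C] at this
      omega
    have hsg : St g := by
      intro z hz h
      apply hf z hz
      rw [hg]; simp [h]
    have hr' : r.im ≤ 0 := by
      by_contra h
      exact hf r (not_le.mp h) hr
    rw [hg]
    exact h1 r g hr' hsg (ih g hgd hsg)

lemma key {f : ℂ[X]} (hf : St f) {z : ℂ} (hz : 0 < z.im) :
    ((derivative f).eval z * conj (f.eval z)).im ≤ 0 ∧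
      (f.natDegree ≠ 0 → ((derivative f).eval z * conj (f.eval z)).im < 0) := by
  refine St.ind (P := fun f => ((derivative f).eval z * conj (f.eval z)).im ≤ 0 ∧
      (f.natDegree ≠ 0 → ((derivative f).eval z * conj (f.eval z)).im < 0)) ?_ ?_ f hf
  · intro c _; simp
  · intro r g hr hg ih
    have hgz := hg z hz
    have hpos : 0 < normSq (g.eval z) := normSq_pos.mpr hgz
    have e : ((derivative ((X - C r) * g)).eval z * conj (((X - C r) * g).eval z)).im
        = -(normSq (g.eval z) * (z.im - r.im))
          + normSq (z - r) * ((derivative g).eval z * conj (g.eval z)).im := by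
      simp only [derivative_mul, derivative_sub, derivative_X, derivative_C, sub_zero, one_mul,
        eval_add, eval_mul, eval_sub, eval_X, eval_C, map_mul, normSq_apply, mul_im, add_re, add_im,
        mul_re, conj_re, conj_im, sub_re, sub_im]
      ring
    have h2 : normSq (z - r) * ((derivative g).eval z * conj (g.eval z)).im ≤ 0 :=
      mul_nonpos_of_nonneg_of_nonpos (normSq_nonneg _) ih.1
    have h3 : 0 < normSq (g.eval z) * (z.im - r.im) := mul_pos hpos (by linarith)
    constructor
    · rw [e]; linarith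
    · intro _; rw [e]; linarith

lemma St.deriv {f : ℂ[X]} (hf : St f) : derivative f = 0 ∨ St (derivative f) := by
  by_cases h : f.natDegree = 0
  · left; exact derivative_of_natDegree_zero h
  · right
    intro z hz h0
    have := (key hf hz).2 h
    rw [h0] at this; simp at this

lemma St.add_deriv {f : ℂ[X]} (hf : St f) {w : ℂ} (hw : 0 < w.im) :
    St (f + C w * derivative f) := by
  intro z hz h0
  have h1 := (key hf hz).1
  have h2 := hf z hz
  simp only [eval_add, eval_mul, eval_C] at h0
  have h3 : f.eval z = -(w * (derivative f).eval z) := by linear_combination h0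
  have h4 : (derivative f).eval z ≠ 0 := by
    intro h; apply h2; rw [h3, h]; simp
  have h5 : 0 < normSq ((derivative f).eval z) := normSq_pos.mpr h4
  have e : ((derivative f).eval z * conj (f.eval z)).im = w.im * normSq ((derivative f).eval z) := by
    rw [h3]
    simp only [map_neg, map_mul, mul_neg, neg_im, mul_im, mul_re, conj_re, conj_im, normSq_apply]
    ring
  have := mul_pos hw h5
  linarith

/-- the raising operator -/
noncomputable def Bc (f : ℂ[X]) : ℂ[X] := X * f - C (1/2 : ℂ) * derivative f

lemma quad_le {a b c : ℝ} (h : ∀ t : ℝ, 0 < t → a + b * t + c * t ^ 2 ≤ 0) : c ≤ 0 := by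
  by_contra hc
  push Not at hc
  have := h ((|a| + |b| + 1) / c + 1) (by positivity)
  set t := (|a| + |b| + 1) / c + 1 with ht
  have ht1 : 1 ≤ t := by have : 0 ≤ (|a| + |b| + 1) / c := by positivity
                         linarith
  have hct : |a| + |b| + 1 ≤ c * t := by
    rw [ht, mul_add, mul_div_cancel₀ _ hc.ne']; linarith
  have h1 := neg_abs_le a
  have h2 := neg_abs_le b
  have h3 := abs_nonneg a
  have h4 := abs_nonneg b
  nlinarith

lemma lin_le {a b : ℝ} (h : ∀ t : ℝ, 0 < t → a + b * t ≤ 0) : b ≤ 0 := by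
  by_contra hc
  push Not at hc
  have := h ((|a| + 1) / b) (by positivity)
  rw [mul_div_cancel₀ _ hc.ne'] at this
  have h1 := neg_abs_le a
  linarith

lemma St.step {g h : ℂ[X]} (hg : St g) (hw : ∀ w : ℂ, 0 < w.im → St (g + C w * h))
    {a : ℝ} (ha : 0 < a) : St (C (a : ℂ) * g + Bc h) := by
  intro z hz h0
  have hk : ∀ w : ℂ, 0 < w.im → (((derivative g).eval z + w * (derivative h).eval z) *
      conj (g.eval z + w * h.eval z)).im ≤ 0 := by
    intro w hw'
    have := (key (hw w hw') hz).1
    simpa [derivative_add, derivative_mul] using this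
  simp only [Bc, eval_add, eval_mul, eval_C, eval_sub, eval_X] at h0
  set G := g.eval z
  set G' := (derivative g).eval z
  set H := h.eval z
  set H' := (derivative h).eval z
  have hG : G ≠ 0 := hg z hz
  by_cases hH : H = 0
  · have hre : (H' * conj G).re ≤ 0 := by
      apply lin_le (a := (G' * conj G).im)
      intro t ht
      have := hk (t * I) (by simpa using ht)
      rw [hH] at this
      simp only [mul_zero, add_zero, add_mul, add_im, mul_im, mul_re, ofReal_re, ofReal_im, I_re,
        I_im, conj_re, conj_im] at this ⊢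
      linarith
    have e : H' = 2 * a * G := by rw [hH] at h0; linear_combination (-2) * h0
    have hp : 0 < normSq G := normSq_pos.mpr hG
    have : (H' * conj G).re = 2 * a * normSq G := by
      rw [e]; simp [normSq_apply]; ring
    have := mul_pos ha hp
    linarith
  · have hp : 0 < normSq H := normSq_pos.mpr hH
    have h1 : (H' * conj H).im ≤ 0 := by
      apply quad_le (a := (G' * conj G).im) (b := (H' * conj G).re - (G' * conj H).re)
      intro t ht
      have := hk (t * I) (by simpa using ht)
      simp only [map_add, map_mul, add_mul, mul_add, add_im, mul_im, mul_re, ofReal_re, ofReal_im,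
        I_re, I_im, conj_re, conj_im] at this ⊢
      linarith
    have h2 : 0 ≤ (G * conj H).im := by
      by_contra hc
      push Not at hc
      have hw' : 0 < (-(G / H)).im := by
        rw [neg_im, div_im]
        simp only [mul_im, conj_re, conj_im] at hc
        have : G.im * H.re / normSq H - G.re * H.im / normSq H
            = (G.re * -H.im + G.im * H.re) / normSq H := by ring
        rw [this]
        have := div_neg_of_neg_of_pos hc hp
        linarith
      apply hw _ hw' z hz
      simp only [eval_add, eval_mul, eval_C]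
      change G + -(G / H) * H = 0
      field_simp
      ring
    have e : (((a : ℂ) * G + (z * H - 1 / 2 * H')) * conj H).im
        = a * (G * conj H).im + z.im * normSq H - 1 / 2 * (H' * conj H).im := by
      have : (1 / 2 : ℂ) = ((1 / 2 : ℝ) : ℂ) := by push_cast; ring
      rw [this]
      simp only [add_mul, sub_mul, add_im, sub_im, mul_im, mul_re, ofReal_re, ofReal_im,
        conj_re, conj_im, normSq_apply]
      ring
    rw [h0] at e
    simp only [zero_mul, zero_im] at e
    have := mul_pos hz hp
    have := mul_nonneg ha.le h2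
    linarith

lemma St.Bc {h : ℂ[X]} (hh : St h) : St (Bc h) := by
  intro z hz h0
  have h1 := (key hh hz).1
  have hH := hh z hz
  simp only [Hm.Bc, eval_mul, eval_C, eval_sub, eval_X] at h0
  set H := h.eval z
  set H' := (derivative h).eval z
  have hp : 0 < normSq H := normSq_pos.mpr hH
  have e : H' = 2 * z * H := by linear_combination (-2) * h0
  have : (H' * conj H).im = 2 * z.im * normSq H := by
    rw [e]; simp [normSq_apply]; ring
  have := mul_pos hz hp
  linarith

lemma St.bound {f : ℂ[X]} (hf : St f) {z0 : ℂ} (hz : 0 < z0.im) (z : ℂ) :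
    ‖f.eval z‖ ≤ (1 + ‖z - z0‖ / z0.im) ^ f.natDegree * ‖f.eval z0‖ := by
  refine St.ind (P := fun f => ‖f.eval z‖ ≤ (1 + ‖z - z0‖ / z0.im) ^ f.natDegree * ‖f.eval z0‖)
    ?_ ?_ f hf
  · intro c _; simp
  · intro r g hr hg ih
    have hg0 : g ≠ 0 := by
      rintro rfl; exact hg I (by simp) (by simp)
    rw [natDegree_mul (X_sub_C_ne_zero r) hg0, natDegree_X_sub_C]
    simp only [eval_mul, eval_sub, eval_X, eval_C, norm_mul]
    have h1 : z0.im ≤ ‖z0 - r‖ := by
      have := Complex.abs_im_le_norm (z0 - r)
      have h2 := le_abs_self (z0 - r).im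
      simp only [sub_im] at this h2
      linarith
    have h2 : ‖z - r‖ ≤ (1 + ‖z - z0‖ / z0.im) * ‖z0 - r‖ := by
      have h3 : ‖z - r‖ ≤ ‖z - z0‖ + ‖z0 - r‖ := by
        have := norm_add_le (z - z0) (z0 - r)
        simpa using this
      have h4 : ‖z - z0‖ ≤ ‖z - z0‖ / z0.im * ‖z0 - r‖ := by
        calc ‖z - z0‖ = ‖z - z0‖ / z0.im * z0.im := by field_simp
          _ ≤ _ := by gcongr
      linarith
    calc ‖z - r‖ * ‖g.eval z‖
        ≤ ((1 + ‖z - z0‖ / z0.im) * ‖z0 - r‖) *
            ((1 + ‖z - z0‖ / z0.im) ^ g.natDegree * ‖g.eval z0‖) := by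
          gcongr
      _ = _ := by ring

open Filter Topology in
lemma St.limit (F : ℕ → ℂ[X]) (f : ℂ[X]) (d : ℕ) (hF : ∀ᶠ N in atTop, F N = 0 ∨ St (F N))
    (hd : ∀ N, (F N).natDegree ≤ d)
    (hl : ∀ z, Tendsto (fun N => (F N).eval z) atTop (𝓝 (f.eval z))) : f = 0 ∨ St f := by
  by_cases h : St f
  · exact Or.inr h
  left
  simp only [St, not_forall, not_not] at h
  obtain ⟨z0, hz, h0⟩ := h
  apply Polynomial.funext
  intro z
  have hc : 1 ≤ 1 + ‖z - z0‖ / z0.im := by
    have : 0 ≤ ‖z - z0‖ / z0.im := by positivity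
    linarith
  have hb : ∀ᶠ N in atTop, ‖(F N).eval z‖ ≤ (1 + ‖z - z0‖ / z0.im) ^ d * ‖(F N).eval z0‖ := by
    filter_upwards [hF] with N hN
    rcases hN with h | h
    · simp [h]
    · refine (h.bound hz z).trans ?_
      gcongr
      exact hd N
  have t1 := (hl z).norm
  have t2 := ((hl z0).norm).const_mul ((1 + ‖z - z0‖ / z0.im) ^ d)
  have := le_of_tendsto_of_tendsto t1 t2 hb
  rw [h0] at this
  simpa using this

lemma RR_iff (p : ℝ[X]) : RR p ↔ (p.map (algebraMap ℝ ℂ) = 0 ∨ St (p.map (algebraMap ℝ ℂ))) := by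
  have hinj : p.map (algebraMap ℝ ℂ) = 0 ↔ p = 0 :=
    Polynomial.map_eq_zero_iff (algebraMap ℝ ℂ).injective
  rw [hinj]
  unfold RR St
  apply or_congr Iff.rfl
  constructor
  · intro h z hz h0
    rw [eval_map_algebraMap] at h0
    have := h z h0
    linarith
  · intro h z h0
    by_contra hne
    rcases lt_or_gt_of_ne hne with hlt | hgt
    · apply h (conj z) (by simpa using hlt)
      rw [eval_map_algebraMap]
      have := Polynomial.aeval_conj p z
      rw [this, h0]; simp
    · apply h z hgt
      rw [eval_map_algebraMap]; exact h0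

lemma RR.deriv {p : ℝ[X]} (hp : RR p) : RR (derivative p) := by
  rw [RR_iff] at hp ⊢
  rw [← derivative_map]
  rcases hp with h | h
  · left; rw [h]; simp
  · exact h.deriv

lemma RR.ind {P : ℝ[X] → Prop} (h0 : ∀ c : ℝ, P (C c))
    (h1 : ∀ (r : ℝ) (g : ℝ[X]), g ≠ 0 → RR g → P g → P ((X - C r) * g)) :
    ∀ f : ℝ[X], RR f → P f := by
  intro f
  induction' hn : f.natDegree with n ih generalizing f
  · intro _
    rw [eq_C_of_natDegree_eq_zero hn]; exact h0 _
  · intro hf
    have hf0 : f ≠ 0 := by rintro rfl; simp at hn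
    have hf1 := hf.resolve_left hf0
    have hdeg : (f.map (algebraMap ℝ ℂ)).degree ≠ 0 := by
      intro h
      rw [degree_map] at h
      have := natDegree_eq_of_degree_eq_some (h.trans (by rfl : (0 : WithBot ℕ) = ((0 : ℕ) : WithBot ℕ)))
      omega
    obtain ⟨z, hz⟩ := IsAlgClosed.exists_root _ hdeg
    rw [IsRoot, eval_map_algebraMap] at hz
    have hzi := hf1 z hz
    have hzr : z = algebraMap ℝ ℂ z.re := by
      apply Complex.ext <;> simp [hzi]
    rw [hzr, aeval_algebraMap_apply] at hz
    have hr : f.IsRoot z.re := by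
      have := (algebraMap ℝ ℂ).injective (hz.trans (map_zero _).symm)
      simpa using this
    obtain ⟨g, hg⟩ := dvd_iff_isRoot.mpr hr
    have hg0 : g ≠ 0 := by rintro rfl; simp at hg; exact hf0 hg
    have hgd : g.natDegree = n := by
      have := natDegree_mul (X_sub_C_ne_zero z.re) hg0
      rw [← hg, natDegree_X_sub_C] at this
      omega
    have hsg : RR g := by
      right
      intro w h
      apply hf1 w
      rw [hg]; simp [h]
    rw [hg]
    exact h1 _ g hg0 hsg (ih g hgd hsg)

lemma RR.lag {p : ℝ[X]} (hp : RR p) :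
    p.eval 0 * (derivative (derivative p)).eval 0 ≤ ((derivative p).eval 0) ^ 2 ∧
      (p.eval 0 ≠ 0 → p.natDegree ≠ 0 →
        p.eval 0 * (derivative (derivative p)).eval 0 < ((derivative p).eval 0) ^ 2) := by
  refine RR.ind (P := fun p =>
    p.eval 0 * (derivative (derivative p)).eval 0 ≤ ((derivative p).eval 0) ^ 2 ∧
      (p.eval 0 ≠ 0 → p.natDegree ≠ 0 →
        p.eval 0 * (derivative (derivative p)).eval 0 < ((derivative p).eval 0) ^ 2)) ?_ ?_ p hp
  · intro c; simp
  · intro r g _ _ ih
    simp only [derivative_mul, derivative_sub, derivative_X, derivative_C, sub_zero, one_mul,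
      derivative_add, eval_add, eval_mul, eval_sub, eval_X, eval_C, zero_sub]
    have h1 := mul_le_mul_of_nonneg_left ih.1 (sq_nonneg r)
    constructor
    · nlinarith [sq_nonneg (g.eval 0)]
    · intro h _
      have : g.eval 0 ≠ 0 := by intro h'; apply h; rw [h']; simp
      have := sq_pos_of_ne_zero this
      nlinarith

end Pool.Agent.Lib.helper23.Hm
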