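import Pool.Agent.Lib.helper23.HmA

set_option autoImplicit false

namespace Pool.Agent.Lib.helper23.Hm
open Polynomial Complex ComplexConjugate

lemma Bc_add (f g : ℂ[X]) : Bc (f + g) = Bc f + Bc g := by
  simp only [Bc, derivative_add]; ring

lemma Bc_C_mul (c : ℂ) (f : ℂ[X]) : Bc (C c * f) = C c * Bc f := by
  simp only [Bc, derivative_mul, derivative_C]; ring

lemma Bc_zero : Bc 0 = 0 := by simp [Bc]

lemma Bc_iter_add (j : ℕ) (f g : ℂ[X]) : Bc^[j] (f + g) = Bc^[j] f + Bc^[j] g := by
  induction j with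
  | zero => rfl
  | succ j ih => simp only [Function.iterate_succ_apply', ih, Bc_add]

lemma Bc_iter_C_mul (j : ℕ) (c : ℂ) (f : ℂ[X]) : Bc^[j] (C c * f) = C c * Bc^[j] f := by
  induction j with
  | zero => rfl
  | succ j ih => simp only [Function.iterate_succ_apply', ih, Bc_C_mul]

lemma Bc_iter_zero (j : ℕ) : Bc^[j] 0 = 0 := by
  induction j with
  | zero => rfl
  | succ j ih => simp only [Function.iterate_succ_apply', ih, Bc_zero]

lemma Bc_natDegree (f : ℂ[X]) : (Bc f).natDegree ≤ f.natDegree + 1 := by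
  unfold Bc
  refine (natDegree_sub_le _ _).trans (max_le ?_ ?_)
  · refine natDegree_mul_le.trans ?_
    have := natDegree_X_le (R := ℂ)
    omega
  · refine (natDegree_C_mul_le _ _).trans ?_
    have := natDegree_derivative_le f
    omega

lemma Bc_iter_natDegree (j : ℕ) (f : ℂ[X]) : (Bc^[j] f).natDegree ≤ f.natDegree + j := by
  induction j with
  | zero => simp
  | succ j ih =>
    rw [Function.iterate_succ_apply']
    have := Bc_natDegree (Bc^[j] f)
    omega

/-- normal ordered operator attached to a real polynomial -/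
noncomputable def Nop (p : ℝ[X]) (f : ℂ[X]) : ℂ[X] :=
  p.sum fun j a => C (a : ℂ) * Bc^[j] (derivative^[j] f)

lemma Nop_add (p q : ℝ[X]) (f : ℂ[X]) : Nop (p + q) f = Nop p f + Nop q f := by
  unfold Nop
  apply sum_add_index
  · intro i; simp
  · intro a b₁ b₂; push_cast; rw [C_add]; ring

lemma Nop_monomial (j : ℕ) (a : ℝ) (f : ℂ[X]) :
    Nop (monomial j a) f = C (a : ℂ) * Bc^[j] (derivative^[j] f) := by
  unfold Nop
  apply sum_monomial_index
  simp

lemma Nop_C_mul (a : ℝ) (p : ℝ[X]) (f : ℂ[X]) : Nop (C a * p) f = C (a : ℂ) * Nop p f := by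
  induction p using Polynomial.induction_on' with
  | add p q hp hq => rw [mul_add, Nop_add, Nop_add, hp, hq, mul_add]
  | monomial n b =>
    rw [C_mul_monomial, Nop_monomial, Nop_monomial]; push_cast; rw [C_mul]; ring

lemma Nop_X_mul (p : ℝ[X]) (f : ℂ[X]) : Nop (X * p) f = Bc (Nop p (derivative f)) := by
  induction p using Polynomial.induction_on' with
  | add p q hp hq => rw [mul_add, Nop_add, Nop_add, hp, hq, Bc_add]
  | monomial n b =>
    rw [X_mul_monomial, Nop_monomial, Nop_monomial, Bc_C_mul, Function.iterate_succ_apply',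
      Function.iterate_succ_apply]

lemma Nop_right (p : ℝ[X]) (f g : ℂ[X]) (w : ℂ) :
    Nop p (f + C w * g) = Nop p f + C w * Nop p g := by
  induction p using Polynomial.induction_on' with
  | add p q hp hq => rw [Nop_add, Nop_add, Nop_add, hp, hq]; ring
  | monomial n b =>
    rw [Nop_monomial, Nop_monomial, Nop_monomial, iterate_map_add,
      iterate_derivative_C_mul, Bc_iter_add, Bc_iter_C_mul]
    ring

lemma Nop_zero_right (p : ℝ[X]) : Nop p 0 = 0 := by
  induction p using Polynomial.induction_on' with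
  | add p q hp hq => rw [Nop_add, hp, hq]; ring
  | monomial n b => rw [Nop_monomial]; simp [Bc_iter_zero]

lemma Nop_C (c : ℝ) (f : ℂ[X]) : Nop (C c) f = C (c : ℂ) * f := by
  rw [← monomial_zero_left, Nop_monomial]; rfl

lemma Nop_neg_roots {p : ℝ[X]} (hp : RR p) :
    (∀ r : ℝ, p.eval r = 0 → r < 0) → ∀ f : ℂ[X], St f → St (Nop p f) := by
  refine RR.ind (P := fun p => (∀ r : ℝ, p.eval r = 0 → r < 0) →
    ∀ f : ℂ[X], St f → St (Nop p f)) ?_ ?_ p hp
  · intro c hc f hf
    have : c ≠ 0 := by
      rintro rfl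
      exact lt_irrefl _ (hc 0 (by simp))
    rw [Nop_C]
    intro z hz
    simp only [eval_mul, eval_C]
    exact mul_ne_zero (by exact_mod_cast this) (hf z hz)
  · intro r g _ _ ih h f hf
    have hr : r < 0 := h r (by simp)
    have ih' := ih (fun s hs => h s (by simp [hs]))
    have e : (X - C r) * g = C (-r) * g + X * g := by rw [C_neg]; ring
    rw [e, Nop_add, Nop_C_mul, Nop_X_mul]
    apply St.step (ih' f hf) _ (by linarith)
    intro w hw
    rw [← Nop_right]
    exact ih' _ (hf.add_deriv hw)

lemma Nop_pres {p : ℝ[X]} (hp : RR p) (hc : ∀ j, 0 ≤ p.coeff j) (f : ℂ[X])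
    (hf : f = 0 ∨ St f) : Nop p f = 0 ∨ St (Nop p f) := by
  by_cases hp0 : p = 0
  · left; rw [hp0]; simp [Nop]
  obtain ⟨q, hq, hq'⟩ := exists_eq_pow_rootMultiplicity_mul_and_not_dvd p hp0 0
  rw [dvd_iff_isRoot] at hq'
  simp only [map_zero, sub_zero] at hq
  have hq0 : q ≠ 0 := by rintro rfl; simp at hq'
  have hRq : RR q := by
    right
    intro z hz
    apply hp.resolve_left hp0 z
    rw [hq]; simp [hz]
  have hneg : ∀ r : ℝ, q.eval r = 0 → r < 0 := by
    intro r hr
    by_contra hcon
    have hr0 : r ≠ 0 := by rintro rfl; exact hq' hr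
    have hrp : 0 < r := lt_of_le_of_ne (not_lt.mp hcon) hr0.symm
    have h1 : p.eval r = 0 := by rw [hq]; simp [hr]
    rw [eval_eq_sum_range, Finset.sum_eq_zero_iff_of_nonneg
      (fun i _ => mul_nonneg (hc i) (pow_pos hrp i).le)] at h1
    have := h1 p.natDegree (by simp)
    rcases mul_eq_zero.mp this with h | h
    · exact hp0 (leadingCoeff_eq_zero.mp h)
    · exact (pow_pos hrp _).ne' h
  have main : ∀ m : ℕ, ∀ f : ℂ[X], (f = 0 ∨ St f) →
      (Nop (X ^ m * q) f = 0 ∨ St (Nop (X ^ m * q) f)) := by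
    intro m
    induction m with
    | zero =>
      intro f hf
      rw [pow_zero, one_mul]
      rcases hf with h | h
      · left; rw [h, Nop_zero_right]
      · right; exact Nop_neg_roots hRq hneg f h
    | succ m ih =>
      intro f hf
      rw [pow_succ', mul_assoc, Nop_X_mul]
      have : derivative f = 0 ∨ St (derivative f) := by
        rcases hf with h | h
        · left; rw [h]; simp
        · exact h.deriv
      rcases ih _ this with h | h
      · left; rw [h, Bc_zero]
      · right; exact h.Bc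
  rw [hq]
  exact main _ f hf

lemma Nop_eq_range (p : ℝ[X]) (f : ℂ[X]) (M : ℕ) (hM : f.natDegree < M) :
    Nop p f = ∑ j ∈ Finset.range M, C ((p.coeff j : ℝ) : ℂ) * Bc^[j] (derivative^[j] f) := by
  unfold Nop
  rw [sum_over_range' p (by intro n; simp) (max M (p.natDegree + 1)) (by omega)]
  symm
  apply Finset.sum_subset
  · intro j hj; simp only [Finset.mem_range] at hj ⊢; omega
  · intro j _ hj
    simp only [Finset.mem_range, not_lt] at hj
    rw [iterate_derivative_eq_zero (by omega), Bc_iter_zero, mul_zero]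

open Filter Topology in
lemma choose_div_tendsto (j : ℕ) :
    Tendsto (fun N : ℕ => (N.choose j : ℝ) / (N : ℝ) ^ j) atTop (𝓝 (1 / (j.factorial : ℝ))) := by
  have h := (isEquivalent_choose j).div
    (Asymptotics.IsEquivalent.refl (u := fun N : ℕ => (N : ℝ) ^ j) (l := atTop))
  refine h.symm.tendsto_nhds ?_
  refine tendsto_const_nhds.congr' ?_
  filter_upwards [eventually_gt_atTop 0] with N hN
  have : (N : ℝ) ≠ 0 := by positivity
  simp only [Pi.div_apply]
  field_simp

open Filter Topology in
lemma normal_pres (g : ℕ → ℝ) (hg : ∀ j, 0 ≤ g j) (P : ℕ → ℝ[X])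
    (hP : ∀ N, 0 < N → RR (P N))
    (hc : ∀ N j, (P N).coeff j = (N.choose j : ℝ) / (N : ℝ) ^ j * g j)
    (f : ℂ[X]) (hf : f = 0 ∨ St f) (M : ℕ) (hM : f.natDegree < M) :
    (∑ j ∈ Finset.range M, C ((g j / j.factorial : ℝ) : ℂ) * Bc^[j] (derivative^[j] f)) = 0 ∨
    St (∑ j ∈ Finset.range M, C ((g j / j.factorial : ℝ) : ℂ) * Bc^[j] (derivative^[j] f)) := by
  apply St.limit (fun N => Nop (P N) f) _ (f.natDegree + M)
  · filter_upwards [eventually_gt_atTop 0] with N hN
    apply Nop_pres (hP N hN) _ f hf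
    intro j; rw [hc]; have := hg j; positivity
  · intro N
    rw [Nop_eq_range _ _ M hM]
    refine natDegree_sum_le_of_forall_le _ _ ?_
    intro j hj
    simp only [Finset.mem_range] at hj
    refine (natDegree_C_mul_le _ _).trans ((Bc_iter_natDegree _ _).trans ?_)
    have := natDegree_iterate_derivative f j
    omega
  · intro z
    simp only [Nop_eq_range _ _ M hM, eval_finsetSum, eval_mul, eval_C]
    apply tendsto_finsetSum
    intro j _
    apply Tendsto.mul_const
    apply (Complex.continuous_ofReal.tendsto _).comp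
    simp only [hc]
    have := (choose_div_tendsto j).mul_const (g j)
    convert this using 2
    ring

end Pool.Agent.Lib.helper23.Hm
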