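import Pool.Agent.Lib.helper23.HmA

set_option autoImplicit false

namespace Pool.Agent.Lib.helper23.Hm
open Polynomial Complex

/-- the linear functional sending the k-th power to the k-th term of the sequence -/
noncomputable def lam (γ : ℕ → ℝ) : ℝ[X] →ₗ[ℝ] ℝ :=
  Polynomial.lsum fun k => (LinearMap.id : ℝ →ₗ[ℝ] ℝ).smulRight (γ k)

lemma lam_monomial (γ : ℕ → ℝ) (k : ℕ) (a : ℝ) : lam γ (monomial k a) = a * γ k := by
  simp [lam, lsum_apply, sum_monomial_index]

lemma lam_X_pow (γ : ℕ → ℝ) (k : ℕ) : lam γ (X ^ k) = γ k := by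
  rw [← monomial_one_right_eq_X_pow, lam_monomial, one_mul]

lemma L_C_mul (L : ℝ[X] →ₗ[ℝ] ℝ) (a : ℝ) (p : ℝ[X]) : L (C a * p) = a * L p := by
  rw [← smul_eq_C_mul, map_smul, smul_eq_mul]

/-- Jensen type polynomials -/
noncomputable def J (L : ℝ[X] →ₗ[ℝ] ℝ) (q : ℝ[X]) : ℕ → ℝ[X] → ℝ[X]
  | 0, p => C (L p)
  | N + 1, p => J L q N p + X * J L q N (q * p)

lemma J_coeff (L : ℝ[X] →ₗ[ℝ] ℝ) (q : ℝ[X]) (N : ℕ) : ∀ (p : ℝ[X]) (k : ℕ),
    (J L q N p).coeff k = (N.choose k : ℝ) * L (p * q ^ k) := by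
  induction N with
  | zero =>
    intro p k
    cases k with
    | zero => simp [J]
    | succ k => simp [J, coeff_C]
  | succ N ih =>
    intro p k
    cases k with
    | zero => simp [J, ih]
    | succ k =>
      simp only [J, coeff_add, coeff_X_mul, ih, Nat.choose_succ_succ', Nat.cast_add]
      rw [show q * p * q ^ k = p * q ^ (k + 1) by ring]
      ring

lemma J_lin (L : ℝ[X] →ₗ[ℝ] ℝ) (q : ℝ[X]) (N : ℕ) (p r : ℝ[X]) (x : ℝ) :
    J L q N (p + C x * r) = J L q N p + C x * J L q N r := by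
  ext k
  simp only [coeff_add, coeff_C_mul, J_coeff]
  rw [add_mul, map_add, mul_assoc, L_C_mul]; ring

lemma J_deriv (L : ℝ[X] →ₗ[ℝ] ℝ) (q : ℝ[X]) (N : ℕ) (p : ℝ[X]) :
    derivative (J L q (N + 1) p) = C ((N : ℝ) + 1) * J L q N (q * p) := by
  ext k
  simp only [coeff_derivative, coeff_C_mul, J_coeff]
  have h : ((N : ℝ) + 1) * (N.choose k : ℝ) = ((N + 1).choose (k + 1) : ℝ) * ((k : ℝ) + 1) := by
    exact_mod_cast Nat.add_one_mul_choose_eq N k
  rw [show q * p * q ^ k = p * q ^ (k + 1) by ring]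
  linear_combination (-(L (p * q ^ (k + 1)))) * h

lemma J_moeb (L : ℝ[X] →ₗ[ℝ] ℝ) (q : ℝ[X]) (x : ℝ) (t : ℂ) (ht : 1 + (x : ℂ) * t ≠ 0) (N : ℕ) :
    ∀ p : ℝ[X], aeval t (J L (q + C x) N p)
      = (1 + (x : ℂ) * t) ^ N * aeval (t / (1 + (x : ℂ) * t)) (J L q N p) := by
  induction N with
  | zero => intro p; simp [J]
  | succ N ih =>
    intro p
    simp only [J]
    rw [add_mul, J_lin]
    simp only [map_add, map_mul, aeval_X, aeval_C, ih, coe_algebraMap]
    field_simp
    ring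

lemma eq_zero_of_nonreal {p : ℝ[X]} (h : ∀ z : ℂ, z.im ≠ 0 → aeval z p = 0) : p = 0 := by
  rw [← Polynomial.map_eq_zero_iff (algebraMap ℝ ℂ).injective]
  apply eq_zero_of_infinite_isRoot
  have hinj : Function.Injective (fun n : ℕ => (n : ℂ) + I) := by
    intro a b hab
    simpa using hab
  refine (Set.infinite_range_of_injective hinj).mono ?_
  rintro _ ⟨n, rfl⟩
  simp only [Set.mem_setOf_eq, IsRoot, eval_map_algebraMap]
  apply h; simp

lemma J_shift {L : ℝ[X] →ₗ[ℝ] ℝ} {q : ℝ[X]} {N : ℕ} {p : ℝ[X]} (h : RR (J L q N p)) (x : ℝ) :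
    RR (J L (q + C x) N p) := by
  have h1 : ∀ t : ℂ, t.im ≠ 0 → 1 + (x : ℂ) * t ≠ 0 := by
    intro t ht h0
    have hi := congrArg Complex.im h0
    have hr := congrArg Complex.re h0
    simp at hi hr
    rcases hi with hi | hi
    · rw [hi] at hr; simp at hr
    · exact ht hi
  rcases h with h | h
  · left
    apply eq_zero_of_nonreal
    intro t ht
    rw [J_moeb L q x t (h1 t ht), h]; simp
  · right
    intro t h0
    by_contra ht
    rw [J_moeb L q x t (h1 t ht)] at h0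
    rcases mul_eq_zero.mp h0 with h2 | h2
    · exact h1 t ht (pow_eq_zero_iff'.mp h2).1
    · have h3 := h _ h2
      set u := t / (1 + (x : ℂ) * t) with hu
      have h4 : u * (1 + (x : ℂ) * t) = t := by rw [hu]; exact div_mul_cancel₀ _ (h1 t ht)
      have hi := congrArg Complex.im h4
      have hr := congrArg Complex.re h4
      simp [h3] at hi hr
      have h5 : u.re * x = 1 := by
        have : (u.re * x - 1) * t.im = 0 := by linarith
        rcases mul_eq_zero.mp this with h6 | h6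
        · linarith
        · exact absurd h6 ht
      have h6 : u.re = 0 := by
        have : u.re * (x * t.re) = t.re := by rw [← mul_assoc, h5, one_mul]
        nlinarith
      rw [h6] at h5; simp at h5

lemma RR.of_mul {a p : ℝ[X]} (ha : a ≠ 0) (h : RR (a * p)) : RR p := by
  rcases h with h | h
  · left; exact (mul_eq_zero.mp h).resolve_left ha
  · right; intro z hz; apply h z; simp [hz]

lemma RR.C_mul {p : ℝ[X]} (h : RR p) (a : ℝ) : RR (C a * p) := by
  by_cases ha : a = 0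
  · left; simp [ha]
  rcases h with h | h
  · left; simp [h]
  · right; intro z hz
    simp only [map_mul, aeval_C, mul_eq_zero] at hz
    rcases hz with hz | hz
    · exact absurd ((algebraMap ℝ ℂ).injective (hz.trans (map_zero _).symm)) ha
    · exact h z hz

lemma RR.comp {p : ℝ[X]} (h : RR p) {a : ℝ} (ha : a ≠ 0) : RR (p.comp (C a * X)) := by
  rcases h with h | h
  · left; simp [h]
  · right; intro z hz
    rw [aeval_comp] at hz
    have := h _ hz
    simpa [ha] using this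

lemma J_down {L : ℝ[X] →ₗ[ℝ] ℝ} {q : ℝ[X]} {N : ℕ} (n : ℕ) : ∀ {p : ℝ[X]},
    RR (J L q (N + n) p) → RR (J L q N (q ^ n * p)) := by
  induction n with
  | zero => intro p h; simpa using h
  | succ n ih =>
    intro p h
    have h1 := h.deriv
    rw [← add_assoc, J_deriv] at h1
    have h2 : (C ((((N + n : ℕ) : ℝ)) + 1) : ℝ[X]) ≠ 0 := by
      rw [C_ne_zero]; positivity
    have := ih (RR.of_mul h2 h1)
    rwa [← mul_assoc, ← pow_succ] at this

lemma RR.quad {p : ℝ[X]} (h : RR p) (h3 : ∀ k, 2 < k → p.coeff k = 0) :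
    4 * (p.coeff 0 * p.coeff 2) ≤ (p.coeff 1) ^ 2 := by
  by_contra hc
  push Not at hc
  set a := p.coeff 0
  set b := p.coeff 1
  set c := p.coeff 2
  have hp : p = C a + C b * X + C c * X ^ 2 := by
    ext k
    rcases k with _ | _ | _ | k
    · simp [a]
    · simp [b, coeff_X_pow]
    · simp [c, coeff_X_pow, coeff_X, coeff_C]
    · simp [coeff_X_pow, coeff_X, coeff_C, h3 (k + 3) (by omega)]
  have hc0 : c ≠ 0 := by
    intro h0; rw [h0] at hc; nlinarith [sq_nonneg b]
  rcases h with h | h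
  · apply hc0; simp [c, h]
  · have hD : 0 < 4 * (a * c) - b ^ 2 := by linarith
    have hs := Real.sqrt_pos.mpr hD
    have hs2 := Real.sq_sqrt hD.le
    set s := Real.sqrt (4 * (a * c) - b ^ 2)
    have hc1 : (c : ℂ) ≠ 0 := by exact_mod_cast hc0
    have hs3 : (s : ℂ) ^ 2 = 4 * (a * c) - b ^ 2 := by exact_mod_cast hs2
    have := h (((-b / (2 * c) : ℝ) : ℂ) + ((s / (2 * c) : ℝ) : ℂ) * I) (by
      rw [hp]
      simp only [map_add, map_mul, map_pow, aeval_C, aeval_X, coe_algebraMap]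
      push_cast
      field_simp
      linear_combination (s : ℂ) ^ 2 * I_sq - hs3)
    simp only [add_im, ofReal_im, mul_im, ofReal_re, I_im, mul_one, I_re, mul_zero, add_zero,
      zero_add, div_eq_zero_iff] at this
    rcases this with h | h
    · linarith
    · apply hc0; linarith

/-- the diagonal action on monomials -/
noncomputable def dg (γ : ℕ → ℝ) (p : ℝ[X]) : ℝ[X] :=
  ∑ n ∈ Finset.range (p.natDegree + 1), C (γ n * p.coeff n) * X ^ n

/-- classical multiplier sequence -/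
def CMS (γ : ℕ → ℝ) : Prop := ∀ p : ℝ[X], RR p → RR (dg γ p)

lemma dg_coeff (γ : ℕ → ℝ) (p : ℝ[X]) (k : ℕ) : (dg γ p).coeff k = γ k * p.coeff k := by
  simp only [dg, finsetSum_coeff, coeff_C_mul, coeff_X_pow, mul_ite, mul_one, mul_zero]
  rw [Finset.sum_ite_eq]
  split_ifs with h
  · rfl
  · simp only [Finset.mem_range, not_lt] at h
    rw [coeff_eq_zero_of_natDegree_lt (by omega), mul_zero]

lemma CMS.J {γ : ℕ → ℝ} (h : CMS γ) (N p : ℕ) : RR (J (lam γ) X N (X ^ p)) := by
  have h1 : RR ((X : ℝ[X]) ^ p * (1 + X) ^ N) := by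
    right
    intro z hz
    simp only [map_mul, map_pow, aeval_X, map_add, map_one, mul_eq_zero] at hz
    rcases hz with hz | hz
    · rw [(pow_eq_zero_iff'.mp hz).1]; simp
    · have := congrArg Complex.im (pow_eq_zero_iff'.mp hz).1
      simpa using this
  have h2 := h _ h1
  have e : dg γ ((X : ℝ[X]) ^ p * (1 + X) ^ N) = X ^ p * Hm.J (lam γ) X N (X ^ p) := by
    ext k
    rw [dg_coeff, coeff_X_pow_mul', coeff_X_pow_mul']
    split_ifs with hk
    · rw [J_coeff, coeff_one_add_X_pow, ← pow_add, lam_X_pow, Nat.add_sub_cancel' hk]; ring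
    · simp
  rw [e] at h2
  exact RR.of_mul (pow_ne_zero _ X_ne_zero) h2

lemma CMS.tur {γ : ℕ → ℝ} (h : CMS γ) (x : ℝ) (n p : ℕ) :
    lam γ (X ^ p * (X + C x) ^ n) * lam γ (X ^ (p + 2) * (X + C x) ^ n)
      ≤ (lam γ (X ^ (p + 1) * (X + C x) ^ n)) ^ 2 := by
  have h1 := J_shift (J_down n (J_shift (h.J (2 + n) p) x)) (-x)
  rw [show (X : ℝ[X]) + C x + C (-x) = X by rw [C_neg]; ring] at h1
  have h2 := h1.quad (by
    intro k hk; rw [J_coeff, Nat.choose_eq_zero_of_lt hk]; simp)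
  simp only [J_coeff] at h2
  rw [show ((X : ℝ[X]) + C x) ^ n * X ^ p * X ^ 0 = X ^ p * (X + C x) ^ n by ring,
    show ((X : ℝ[X]) + C x) ^ n * X ^ p * X ^ 1 = X ^ (p + 1) * (X + C x) ^ n by ring,
    show ((X : ℝ[X]) + C x) ^ n * X ^ p * X ^ 2 = X ^ (p + 2) * (X + C x) ^ n by ring] at h2
  norm_num at h2
  nlinarith

lemma CMS.tur0 {γ : ℕ → ℝ} (h : CMS γ) (p : ℕ) : γ p * γ (p + 2) ≤ γ (p + 1) ^ 2 := by
  have := h.tur 0 0 p
  simpa [lam_X_pow] using this

lemma CMS.two {γ : ℕ → ℝ} (h : CMS γ) (p : ℕ) : 0 ≤ γ p * γ (p + 2) := by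
  have h1 : RR ((X : ℝ[X]) ^ p * (X ^ 2 - 1)) := by
    right
    intro z hz
    simp only [map_mul, map_pow, aeval_X, map_sub, map_one, mul_eq_zero] at hz
    rcases hz with hz | hz
    · rw [(pow_eq_zero_iff'.mp hz).1]; simp
    · have : (z - 1) * (z + 1) = 0 := by linear_combination hz
      rcases mul_eq_zero.mp this with h | h
      · have := congrArg Complex.im h; simpa using this
      · have := congrArg Complex.im h; simpa using this
  have h2 := h _ h1
  have e : dg γ ((X : ℝ[X]) ^ p * (X ^ 2 - 1)) = X ^ p * (C (γ (p + 2)) * X ^ 2 - C (γ p)) := by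
    ext k
    rw [dg_coeff, coeff_X_pow_mul', coeff_X_pow_mul']
    split_ifs with hk
    · obtain ⟨i, rfl⟩ := Nat.exists_eq_add_of_le hk
      rw [Nat.add_sub_cancel_left]
      rcases i with _ | _ | _ | i <;> simp [coeff_X_pow, coeff_one, coeff_C]
    · simp
  rw [e] at h2
  have h3 := (RR.of_mul (pow_ne_zero _ X_ne_zero) h2).quad (by
    intro k hk
    rcases k with _ | _ | _ | k
    · omega
    · omega
    · omega
    · simp [coeff_X_pow, coeff_C])
  simp [coeff_X_pow, coeff_C] at h3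
  nlinarith

lemma CMS.gap {γ : ℕ → ℝ} (h : CMS γ) {i : ℕ} (hi : γ i ≠ 0) (h1 : γ (i + 1) = 0) (k : ℕ) :
    γ (i + (k + 1)) = 0 := by
  have h2 : γ (i + 2) = 0 := by
    have a := h.tur0 i
    have b := h.two i
    rw [h1] at a
    have : γ i * γ (i + 2) = 0 := by nlinarith
    exact (mul_eq_zero.mp this).resolve_left hi
  have h3 := (h.J (k + 1) i).lag.2
  simp only [← coeff_zero_eq_eval_zero, coeff_derivative, J_coeff, ← pow_add, lam_X_pow,
    zero_add, h1] at h3
  rw [show i + (1 + 1) = i + 2 by ring, h2] at h3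
  have h4 : (Hm.J (lam γ) X (k + 1) (X ^ i)).natDegree = 0 := by
    by_contra hne
    have := h3 (by simpa using hi) hne
    simp at this
  have h5 := coeff_eq_zero_of_natDegree_lt (n := k + 1) (by rw [h4]; omega :
    (Hm.J (lam γ) X (k + 1) (X ^ i)).natDegree < k + 1)
  rw [J_coeff, ← pow_add, lam_X_pow] at h5
  simpa using h5

lemma CMS.noint {γ : ℕ → ℝ} (h : CMS γ) {i : ℕ} (hi : γ i ≠ 0) (d : ℕ) :
    γ (i + d) = 0 → ∀ k, γ (i + d + k) = 0 := by
  induction d with
  | zero => intro h0; exact absurd h0 hi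
  | succ d ih =>
    intro h0 k
    by_cases h1 : γ (i + d) = 0
    · have := ih h1 (k + 1)
      rwa [show i + d + (k + 1) = i + (d + 1) + k by ring] at this
    · have := h.gap h1 (by rwa [add_assoc]) k
      rwa [show i + d + (k + 1) = i + (d + 1) + k by ring] at this

lemma CMS.par {γ : ℕ → ℝ} (h : CMS γ) (i m : ℕ) : 0 ≤ γ i * γ (i + 2 * m) := by
  induction m with
  | zero => simpa using mul_self_nonneg (γ i)
  | succ m ih =>
    have h2 := h.two (i + 2 * m)
    rw [show i + 2 * (m + 1) = i + 2 * m + 2 by ring]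
    by_cases h0 : γ (i + 2 * m) = 0
    · by_cases hi : γ i = 0
      · simp [hi]
      · rw [h.noint hi _ h0 2]; simp
    · have h3 := mul_nonneg ih h2
      have h4 : 0 < γ (i + 2 * m) ^ 2 := by positivity
      by_contra hc
      push Not at hc
      have := mul_neg_of_neg_of_pos hc h4
      nlinarith

lemma CMS.sgn {γ : ℕ → ℝ} (h : CMS γ) (r : ℕ) :
    ∃ s : ℝ, (s = 1 ∨ s = -1) ∧ ∀ m, 0 ≤ s * γ (r + 2 * m) := by
  by_cases hn : ∃ m, γ (r + 2 * m) < 0
  · obtain ⟨m, hm⟩ := hn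
    refine ⟨-1, Or.inr rfl, fun m' => ?_⟩
    rcases le_total m m' with hl | hl
    · obtain ⟨d, rfl⟩ := Nat.exists_eq_add_of_le hl
      have := h.par (r + 2 * m) d
      rw [show r + 2 * m + 2 * d = r + 2 * (m + d) by ring] at this
      nlinarith
    · obtain ⟨d, rfl⟩ := Nat.exists_eq_add_of_le hl
      have := h.par (r + 2 * m') d
      rw [show r + 2 * m' + 2 * d = r + 2 * (m' + d) by ring] at this
      nlinarith
  · push Not at hn
    exact ⟨1, Or.inl rfl, fun m => by simpa using hn m⟩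

lemma CMS.norm {γ : ℕ → ℝ} (h : CMS γ) : ∃ e s : ℝ, (e = 1 ∨ e = -1) ∧ (s = 1 ∨ s = -1) ∧
    (∀ k, 0 ≤ e * s ^ k * γ k) ∧ CMS (fun k => e * s ^ k * γ k) := by
  obtain ⟨s0, h0, h0'⟩ := h.sgn 0
  obtain ⟨s1, h1, h1'⟩ := h.sgn 1
  have hs : s0 * s1 = 1 ∨ s0 * s1 = -1 := by
    rcases h0 with rfl | rfl <;> rcases h1 with rfl | rfl <;> simp
  have hsq : (s0 * s1) ^ 2 = 1 := by rcases hs with h | h <;> rw [h] <;> norm_num
  refine ⟨s0, s0 * s1, h0, hs, ?_, ?_⟩
  · intro k
    rcases Nat.even_or_odd' k with ⟨m, rfl | rfl⟩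
    · rw [pow_mul, hsq, one_pow, mul_one]; simpa using h0' m
    · rw [pow_succ, pow_mul, hsq, one_pow, one_mul]
      have : s0 * (s0 * s1) = s1 := by rcases h0 with rfl | rfl <;> simp
      rw [this, add_comm]; exact h1' m
  · intro p hp
    have hne : s0 * s1 ≠ 0 := by rcases hs with h | h <;> rw [h] <;> norm_num
    have := (h _ (hp.comp hne)).C_mul s0
    convert this using 1
    ext k
    rw [coeff_C_mul, dg_coeff, dg_coeff, comp_C_mul_X_coeff]; ring

end Pool.Agent.Lib.helper23.Hm
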