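import Pool.Agent.Lib.helper23.HmC

set_option autoImplicit false

namespace Pool.Agent.Lib.helper23.Hm
open Polynomial

lemma seq_ratio (f : ℕ → ℝ) (s c : ℝ) (k0 : ℕ) (hs : 0 < s) (hc : 0 < c) (h0 : ∀ p, 0 ≤ f p)
    (ht : ∀ p, f p * f (p + 2) ≤ f (p + 1) ^ 2) (hl : ∀ i, c * s ^ i ≤ f (k0 + i))
    (hz : ∀ p, f (p + 1) = 0 → f p = 0) (p : ℕ) : s * f p ≤ f (p + 1) := by
  by_contra hcon
  push Not at hcon
  have hp : 0 < f p := by
    by_contra h
    have : f p = 0 := le_antisymm (not_lt.mp h) (h0 p)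
    rw [this] at hcon; linarith [h0 (p + 1)]
  have hpos : ∀ i, 0 < f (p + i) := by
    intro i
    induction i with
    | zero => exact hp
    | succ i ih =>
      rcases (h0 (p + (i + 1))).lt_or_eq with h | h
      · exact h
      · have := hz (p + i) (by rw [add_assoc]; exact h.symm)
        linarith
  set θ := f (p + 1) / f p with hθ
  have hθs : θ < s := by rw [hθ, div_lt_iff₀ hp]; exact hcon
  have hθ0 : 0 < θ := div_pos (hpos 1) hp
  have hr : ∀ i, f (p + i + 1) ≤ θ * f (p + i) := by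
    intro i
    induction i with
    | zero => rw [hθ, add_zero, div_mul_cancel₀ _ hp.ne']
    | succ i ih =>
      have a := ht (p + i)
      have b := hpos i
      have c' := hpos (i + 1)
      rw [← add_assoc] at c' ⊢
      have : f (p + i) * f (p + i + 2) ≤ f (p + i) * (θ * f (p + i + 1)) := by nlinarith
      exact le_of_mul_le_mul_left this b
  have hg : ∀ i, f (p + i) ≤ θ ^ i * f p := by
    intro i
    induction i with
    | zero => simp
    | succ i ih =>
      rw [← add_assoc]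
      calc f (p + i + 1) ≤ θ * f (p + i) := hr i
        _ ≤ θ * (θ ^ i * f p) := by gcongr
        _ = _ := by ring
  obtain ⟨i, hi⟩ := exists_pow_lt_of_lt_one (x := c * s ^ p / (θ ^ k0 * f p)) (y := θ / s)
    (by positivity) (by rw [div_lt_one hs]; exact hθs)
  have h1 := hl (p + i)
  have h2 := hg (k0 + i)
  rw [show p + (k0 + i) = k0 + (p + i) by ring] at h2
  rw [div_pow, div_lt_div_iff₀ (by positivity) (by positivity)] at hi
  rw [pow_add] at h1 h2
  nlinarith

lemma F_succ (β : ℕ → ℝ) (x : ℝ) (n p : ℕ) :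
    lam β (X ^ p * (X + C x) ^ (n + 1))
      = lam β (X ^ (p + 1) * (X + C x) ^ n) + x * lam β (X ^ p * (X + C x) ^ n) := by
  rw [← L_C_mul, ← map_add]; congr 1; ring

lemma posA {β : ℕ → ℝ} (h : CMS β) (h0 : ∀ k, 0 ≤ β k) {s : ℝ} (hs : 0 < s)
    (hr : ∀ k, s * β k ≤ β (k + 1)) {k0 : ℕ} (hk : 0 < β k0) {x : ℝ} (hx : -s < x) (n : ℕ) :
    ∀ p, s * lam β (X ^ p * (X + C x) ^ n) ≤ lam β (X ^ (p + 1) * (X + C x) ^ n) ∧
      (s + x) ^ n * β p ≤ lam β (X ^ p * (X + C x) ^ n) := by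
  have hsx : 0 < s + x := by linarith
  have hlow : ∀ i, β k0 * s ^ i ≤ β (k0 + i) := by
    intro i
    induction i with
    | zero => simp
    | succ i ih =>
      have := hr (k0 + i)
      rw [← add_assoc, pow_succ]
      nlinarith
  induction n with
  | zero => intro p; simpa [lam_X_pow] using hr p
  | succ n ih =>
    have hnn : ∀ p, 0 ≤ lam β (X ^ p * (X + C x) ^ n) := fun p =>
      (mul_nonneg (pow_pos hsx n).le (h0 p)).trans (ih p).2
    have hge : ∀ p, (s + x) * lam β (X ^ p * (X + C x) ^ n)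
        ≤ lam β (X ^ p * (X + C x) ^ (n + 1)) := by
      intro p; rw [F_succ]; linarith [(ih p).1]
    have hge2 : ∀ p, (s + x) ^ (n + 1) * β p ≤ lam β (X ^ p * (X + C x) ^ (n + 1)) := by
      intro p
      refine le_trans ?_ (hge p)
      rw [pow_succ', mul_assoc]
      exact mul_le_mul_of_nonneg_left (ih p).2 hsx.le
    intro p
    refine ⟨?_, hge2 p⟩
    apply seq_ratio (fun p => lam β (X ^ p * (X + C x) ^ (n + 1))) s ((s + x) ^ (n + 1) * β k0) k0
      hs (by positivity)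
    · intro p; exact (mul_nonneg hsx.le (hnn p)).trans (hge p)
    · intro p; exact h.tur x (n + 1) p
    · intro i
      refine le_trans ?_ (hge2 (k0 + i))
      rw [mul_assoc]
      exact mul_le_mul_of_nonneg_left (hlow i) (by positivity)
    · intro p hp
      have a := hge (p + 1)
      rw [hp] at a
      have b : lam β (X ^ (p + 1) * (X + C x) ^ n) = 0 := by
        have := hnn (p + 1)
        nlinarith
      have c := (ih p).1
      rw [b] at c
      have d : lam β (X ^ p * (X + C x) ^ n) = 0 := by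
        have := hnn p
        nlinarith
      rw [F_succ, b, d]; ring

lemma F_cont (β : ℕ → ℝ) (n : ℕ) :
    ∀ p, Continuous fun x : ℝ => lam β (X ^ p * (X + C x) ^ n) := by
  induction n with
  | zero => intro p; simpa using continuous_const
  | succ n ih =>
    intro p
    simp only [F_succ]
    exact (ih (p + 1)).add (continuous_id.mul (ih p))

open Filter Topology in
lemma posB {β : ℕ → ℝ} (h : CMS β) (h0 : ∀ k, 0 ≤ β k) {s : ℝ} (hs : 0 ≤ s)
    (hr : ∀ k, s * β k ≤ β (k + 1)) (n : ℕ) : 0 ≤ lam β ((X + C (-s)) ^ n) := by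
  rcases hs.lt_or_eq with hs | hs
  swap
  · rw [← hs]; simpa [lam_X_pow] using h0 n
  by_cases hk : ∃ k0, 0 < β k0
  · obtain ⟨k0, hk⟩ := hk
    have hc := (F_cont β n 0).tendsto (-s)
    have : 0 ≤ lam β (X ^ 0 * (X + C (-s)) ^ n) := by
      apply ge_of_tendsto (hc.mono_left (nhdsWithin_le_nhds (s := Set.Ioi (-s))))
      filter_upwards [self_mem_nhdsWithin] with x hx
      have hx' : -s < x := hx
      exact (mul_nonneg (pow_pos (by linarith) n).le (h0 0)).trans (posA h h0 hs hr hk hx' n 0).2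
    simpa using this
  · push Not at hk
    have : ∀ p : ℝ[X], lam β p = 0 := by
      intro p
      induction p using Polynomial.induction_on' with
      | add p q hp hq => rw [map_add, hp, hq, add_zero]
      | monomial k a => rw [lam_monomial, le_antisymm (hk k) (h0 k), mul_zero]
    rw [this]

/-- geometric bound along powers of `q` -/
def Bd (L : ℝ[X] →ₗ[ℝ] ℝ) (q : ℝ[X]) (e : ℝ) (p : ℝ[X]) (M : ℝ) : Prop :=
  ∀ j : ℕ, |L (p * q ^ j)| ≤ M * e ^ j

lemma Bd.mul {L : ℝ[X] →ₗ[ℝ] ℝ} {q : ℝ[X]} {e : ℝ} {p : ℝ[X]} {M : ℝ} (h : Bd L q e p M)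
    (c : ℝ) : Bd L q e (p * (q + C c)) (M * (e + |c|)) := by
  intro j
  have e1 : L (p * (q + C c) * q ^ j) = L (p * q ^ (j + 1)) + c * L (p * q ^ j) := by
    rw [← L_C_mul, ← map_add]; congr 1; ring
  rw [e1]
  refine (abs_add_le _ _).trans ?_
  rw [abs_mul]
  have a := h (j + 1)
  have b := mul_le_mul_of_nonneg_left (h j) (abs_nonneg c)
  rw [pow_succ e] at a
  linarith

lemma Bd.mul_pow {L : ℝ[X] →ₗ[ℝ] ℝ} {q : ℝ[X]} {e : ℝ} {p : ℝ[X]} {M : ℝ} (h : Bd L q e p M)
    (c : ℝ) (n : ℕ) : Bd L q e (p * (q + C c) ^ n) (M * (e + |c|) ^ n) := by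
  induction n with
  | zero => simpa using h
  | succ n ih =>
    have := ih.mul c
    rwa [mul_assoc, ← pow_succ, mul_assoc, ← pow_succ] at this

lemma geo_bound {β : ℕ → ℝ} (h : CMS β) (h0 : ∀ k, 0 ≤ β k) {θ : ℝ} (hθ : 0 < θ) {k1 : ℕ}
    (hk : 0 < β k1) (h1 : β (k1 + 1) ≤ θ * β k1) : ∃ M : ℝ, 0 < M ∧ ∀ k, β k ≤ M * θ ^ k := by
  have hr : ∀ i, β (k1 + i + 1) ≤ θ * β (k1 + i) := by
    intro i
    induction i with
    | zero => exact h1
    | succ i ih =>
      rw [← add_assoc]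
      rcases (h0 (k1 + i)).lt_or_eq with hp | hp
      · have a := h.tur0 (k1 + i)
        have b := h0 (k1 + i + 1)
        have : β (k1 + i) * β (k1 + i + 2) ≤ β (k1 + i) * (θ * β (k1 + i + 1)) := by nlinarith
        exact le_of_mul_le_mul_left this hp
      · have a := h.noint hk.ne' i hp.symm 2
        have b := h0 (k1 + i + 1)
        rw [show k1 + i + 1 + 1 = k1 + i + 2 by ring, a]; positivity
  refine ⟨∑ i ∈ Finset.range (k1 + 1), β i / θ ^ i, ?_, ?_⟩
  · apply Finset.sum_pos'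
    · intro i _; have := h0 i; positivity
    · exact ⟨k1, by simp, by positivity⟩
  have hle : ∀ k ≤ k1, β k ≤ (∑ i ∈ Finset.range (k1 + 1), β i / θ ^ i) * θ ^ k := by
    intro k hk'
    rw [← div_le_iff₀ (by positivity)]
    apply Finset.single_le_sum (f := fun i => β i / θ ^ i)
    · intro i _; have := h0 i; positivity
    · simp; omega
  intro k
  rcases le_total k k1 with hl | hl
  · exact hle k hl
  · obtain ⟨i, rfl⟩ := Nat.exists_eq_add_of_le hl
    clear hl
    induction i with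
    | zero => exact hle k1 le_rfl
    | succ i ih =>
      rw [← add_assoc]
      calc β (k1 + i + 1) ≤ θ * β (k1 + i) := hr i
        _ ≤ θ * ((∑ i ∈ Finset.range (k1 + 1), β i / θ ^ i) * θ ^ (k1 + i)) := by gcongr
        _ = _ := by ring

lemma choose_add_ge (a j L : ℕ) : L * a.choose j ≤ (a + L).choose (j + 1) := by
  induction L with
  | zero => simp
  | succ L ih =>
    rw [← add_assoc, Nat.choose_succ_succ']
    have := Nat.choose_le_choose j (Nat.le_add_right a L)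
    nlinarith

lemma choose_mul_ge (L j : ℕ) : L ^ j ≤ (L * j).choose j := by
  induction j with
  | zero => simp
  | succ j ih =>
    have := choose_add_ge (L * j) j L
    rw [mul_add, mul_one, pow_succ']
    exact (Nat.mul_le_mul_left L ih).trans this

lemma type_zero {β : ℕ → ℝ} {σ : ℝ} (hσ : 0 ≤ σ)
    (hc : ∀ j, 0 ≤ lam β ((X + C (-σ)) ^ j))
    (hb : ∀ δ : ℝ, 0 < δ → ∃ M : ℝ, 0 < M ∧ ∀ k, β k ≤ M * (σ + δ) ^ k) {e : ℝ} (he : 0 < e) :
    ∃ M : ℝ, 0 < M ∧ Bd (lam β) (X + C (-σ)) e 1 M := by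
  rcases hσ.lt_or_eq with hσ | hσ
  swap
  · obtain ⟨M, hM, h⟩ := hb e he
    refine ⟨M, hM, fun j => ?_⟩
    rw [one_mul, abs_of_nonneg (hc j), ← hσ]
    simpa [lam_X_pow, ← hσ] using h j
  obtain ⟨L, hL⟩ := exists_nat_gt (2 * σ / e)
  have hL0 : (0 : ℝ) < L := lt_trans (by positivity) hL
  obtain ⟨δ, hδ, hδ2⟩ : ∃ δ : ℝ, 0 < δ ∧ (σ + δ) ^ L ≤ 2 * σ ^ L := by
    have hc : ContinuousAt (fun d : ℝ => (σ + d) ^ L) 0 := by fun_prop
    have hlt : (σ + 0) ^ L < 2 * σ ^ L := by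
      have := pow_pos hσ L
      rw [add_zero]; linarith
    have := hc.eventually (gt_mem_nhds hlt)
    obtain ⟨d, hd, hd2⟩ := Metric.eventually_nhds_iff.mp this
    refine ⟨d / 2, by positivity, (hd2 ?_).le⟩
    rw [Real.dist_eq, sub_zero, abs_of_pos (by positivity)]; linarith
  obtain ⟨M, hM, h⟩ := hb δ hδ
  refine ⟨M, hM, fun j => ?_⟩
  rw [one_mul, abs_of_nonneg (hc j)]
  obtain ⟨L', rfl⟩ : ∃ L', L = L' + 1 := ⟨L - 1, by
    have : L ≠ 0 := by rintro rfl; simp at hL0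
    omega⟩
  set k := (L' + 1) * j with hk
  have e1 : β k = ∑ i ∈ Finset.range (k + 1),
      lam β ((X + C (-σ)) ^ i) * (σ ^ (k - i) * (k.choose i : ℝ)) := by
    rw [← lam_X_pow β k]
    conv_lhs => rw [show (X : ℝ[X]) = (X + C (-σ)) + C σ by rw [C_neg]; ring]
    rw [add_pow, map_sum]
    apply Finset.sum_congr rfl
    intro i _
    rw [mul_comm (lam β _), ← L_C_mul]
    congr 1
    simp only [map_mul, map_pow, map_natCast]; ring
  have e2 : lam β ((X + C (-σ)) ^ j) * (σ ^ (k - j) * (k.choose j : ℝ)) ≤ β k := by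
    rw [e1]
    apply Finset.single_le_sum
      (f := fun i => lam β ((X + C (-σ)) ^ i) * (σ ^ (k - i) * (k.choose i : ℝ)))
    · intro i _; have := hc i; positivity
    · simp only [Finset.mem_range, hk]; nlinarith
  have e3 : k - j = L' * j := by rw [hk, add_mul, one_mul, Nat.add_sub_cancel]
  have e4 : (((L' + 1 : ℕ) : ℝ)) ^ j ≤ (k.choose j : ℝ) := by exact_mod_cast choose_mul_ge (L' + 1) j
  have e5 : β k ≤ M * (2 * σ ^ (L' + 1)) ^ j := by
    refine (h k).trans ?_
    rw [hk, pow_mul]; gcongr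
  have e6 : 2 * σ ^ (L' + 1) ≤ e * (σ ^ L' * ((L' + 1 : ℕ) : ℝ)) := by
    rw [div_lt_iff₀ he] at hL
    have := pow_pos hσ L'
    rw [pow_succ]; nlinarith
  have e7 : (2 * σ ^ (L' + 1)) ^ j ≤ e ^ j * (σ ^ (k - j) * (((L' + 1 : ℕ) : ℝ)) ^ j) := by
    rw [e3, pow_mul, ← mul_pow, ← mul_pow]; gcongr
  have hpos : 0 < σ ^ (k - j) * (((L' + 1 : ℕ) : ℝ)) ^ j := by positivity
  apply le_of_mul_le_mul_right _ hpos
  calc lam β ((X + C (-σ)) ^ j) * (σ ^ (k - j) * (((L' + 1 : ℕ) : ℝ)) ^ j)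
      ≤ lam β ((X + C (-σ)) ^ j) * (σ ^ (k - j) * (k.choose j : ℝ)) := by
        have := hc j
        gcongr
    _ ≤ M * (2 * σ ^ (L' + 1)) ^ j := e2.trans e5
    _ ≤ M * (e ^ j * (σ ^ (k - j) * (((L' + 1 : ℕ) : ℝ)) ^ j)) := by gcongr
    _ = _ := by ring

end Pool.Agent.Lib.helper23.Hm
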