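import Pool.Agent.Lib.helper23.HmD

set_option autoImplicit false

namespace Pool.Agent.Lib.helper23.Hm
open Polynomial

lemma vanish (u : ℕ → ℕ → ℝ) (τ K A B : ℝ) (hA : 0 ≤ A) (hB : 0 ≤ B) (hAB : A + B < τ)
    (hK : 0 < K) (hrec : ∀ n j, τ * u n j = u n (j + 1) - u (n + 1) j)
    (hb : ∀ n j, |u n j| ≤ K * A ^ n * B ^ j) (j : ℕ) : u 0 j = 0 := by
  have hτ : 0 < τ := by linarith
  have h : ∀ k n j, τ ^ k * |u n j| ≤ K * A ^ n * B ^ j * (A + B) ^ k := by
    intro k
    induction k with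
    | zero => intro n j; simpa using hb n j
    | succ k ih =>
      intro n j
      have e : τ * |u n j| ≤ |u n (j + 1)| + |u (n + 1) j| := by
        rw [← abs_of_pos hτ, ← abs_mul, hrec]; exact abs_sub _ _
      have a := ih n (j + 1)
      have b := ih (n + 1) j
      have c := mul_le_mul_of_nonneg_left e (pow_pos hτ k).le
      rw [pow_succ B] at a
      rw [pow_succ A] at b
      rw [pow_succ τ, pow_succ (A + B)]
      linarith
  by_contra hne
  have hp : 0 < |u 0 j| := abs_pos.mpr hne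
  obtain ⟨k, hk⟩ := exists_pow_lt_of_lt_one (x := |u 0 j| / (K * B ^ j + 1)) (y := (A + B) / τ)
    (by positivity) (by rw [div_lt_one hτ]; exact hAB)
  rw [div_pow, div_lt_div_iff₀ (by positivity) (by positivity)] at hk
  have := h k 0 j
  have h2 : 0 ≤ (A + B) ^ k := by positivity
  simp only [pow_zero, mul_one] at this
  nlinarith

lemma two_le (x y : ℝ) (h : 0 ≤ x * y) : |x - y| ≤ |x| ∨ |x - y| ≤ |y| := by
  rcases le_total (y ^ 2) (x ^ 2) with h1 | h1
  · left; rw [← sq_le_sq]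
    by_contra hc
    push Not at hc
    have : 2 * (x * y) < y ^ 2 := by nlinarith
    nlinarith [mul_self_nonneg (x * y), sq_nonneg y, sq_nonneg x]
  · right; rw [← sq_le_sq]
    by_contra hc
    push Not at hc
    have : 2 * (x * y) < x ^ 2 := by nlinarith
    nlinarith [mul_self_nonneg (x * y), sq_nonneg y, sq_nonneg x]

lemma contra1 {β : ℕ → ℝ} (h : CMS β) (h0 : ∀ k, 0 ≤ β k) {k0 : ℕ} (hk : β (k0 + 1) < β k0)
    (hsg : ∀ n m : ℕ, m + 1 ≤ n → 0 ≤ lam β ((X - 1) ^ n * (X + 1) ^ (m + 1)) *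
      lam β ((X - 1) ^ (n + 1) * (X + 1) ^ m)) : False := by
  have hk0 : 0 < β k0 := (h0 _).trans_lt hk
  set S : Set ℝ := {r | ∃ k, 0 < β k ∧ r = β (k + 1) / β k} with hS
  have hne : S.Nonempty := ⟨_, k0, hk0, rfl⟩
  have hlb : ∀ r ∈ S, 0 ≤ r := by
    rintro r ⟨k, hk, rfl⟩; have := h0 (k + 1); positivity
  have hbd : BddBelow S := ⟨0, hlb⟩
  set σ := sInf S with hσ
  have hσ0 : 0 ≤ σ := le_csInf hne hlb
  have hr : ∀ k, σ * β k ≤ β (k + 1) := by
    intro k
    rcases (h0 k).lt_or_eq with hp | hp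
    · have : σ ≤ β (k + 1) / β k := csInf_le hbd ⟨k, hp, rfl⟩
      rwa [le_div_iff₀ hp] at this
    · rw [← hp, mul_zero]; exact h0 _
  have hσ1 : σ < 1 := by
    have := hr k0
    by_contra hc
    push Not at hc
    nlinarith
  have hb : ∀ δ : ℝ, 0 < δ → ∃ M : ℝ, 0 < M ∧ ∀ k, β k ≤ M * (σ + δ) ^ k := by
    intro δ hδ
    obtain ⟨r, ⟨k, hk, rfl⟩, hlt⟩ := exists_lt_of_csInf_lt hne (lt_add_of_pos_right σ hδ)
    rw [div_lt_iff₀ hk] at hlt
    exact geo_bound h h0 (by linarith) hk hlt.le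
  have hc := posB h h0 hσ0 hr
  set τ := 1 - σ with hτ
  have hτ0 : 0 < τ := by linarith
  have hτ1 : τ ≤ 1 := by linarith
  set q : ℝ[X] := X + C (-σ) with hq
  have q1 : (X : ℝ[X]) - 1 = q + C (-τ) := by
    rw [hq, hτ]; simp only [map_neg, map_sub, map_one]; ring
  have q2 : (X : ℝ[X]) + 1 = q + C (1 + σ) := by
    rw [hq]; simp only [map_neg, map_add, map_one]; ring
  have q3 : q = ((X : ℝ[X]) - 1) + C τ := by rw [q1, C_neg]; ring
  set e := τ ^ 2 / 4 with he
  have he0 : 0 < e := by positivity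
  obtain ⟨M, hM, hB⟩ := type_zero hσ0 hc hb he0
  have hU : ∀ n m : ℕ, |lam β ((X - 1) ^ n * (X + 1) ^ m)|
      ≤ M * (e + τ) ^ n * (e + (1 + σ)) ^ m := by
    intro n m
    have := ((hB.mul_pow (-τ) n).mul_pow (1 + σ) m) 0
    rw [← q1, ← q2, abs_neg, abs_of_pos hτ0, abs_of_pos (by linarith : 0 < 1 + σ)] at this
    simpa using this
  have hdbl : ∀ i n m : ℕ, m + i ≤ n → 2 ^ i * |lam β ((X - 1) ^ n * (X + 1) ^ m)|
      ≤ M * (e + τ) ^ n * (e + (1 + σ)) ^ (m + i) := by
    intro i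
    induction i with
    | zero => intro n m _; simpa using hU n m
    | succ i ih =>
      intro n m hnm
      have e1 : lam β ((X - 1) ^ n * (X + 1) ^ (m + 1)) - lam β ((X - 1) ^ (n + 1) * (X + 1) ^ m)
          = 2 * lam β ((X - 1) ^ n * (X + 1) ^ m) := by
        rw [← L_C_mul, ← map_sub]; congr 1
        rw [show (C (2 : ℝ) : ℝ[X]) = 2 from rfl]; ring
      have e2 := two_le _ _ (hsg n m (by omega))
      rw [e1, abs_mul, abs_two] at e2
      have p2 : (0 : ℝ) < 2 ^ i := by positivity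
      rcases e2 with e2 | e2
      · have a := ih n (m + 1) (by omega)
        have b := mul_le_mul_of_nonneg_left e2 p2.le
        rw [show m + 1 + i = m + (i + 1) by ring] at a
        rw [pow_succ (2 : ℝ)]; linarith
      · have a := ih (n + 1) m (by omega)
        have b := mul_le_mul_of_nonneg_left e2 p2.le
        have c : M * (e + τ) ^ (n + 1) * (e + (1 + σ)) ^ (m + i)
            ≤ M * (e + τ) ^ n * (e + (1 + σ)) ^ (m + (i + 1)) := by
          rw [← add_assoc m, pow_succ (e + τ), pow_succ (e + (1 + σ))]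
          have : e + τ ≤ e + (1 + σ) := by linarith
          calc M * ((e + τ) ^ n * (e + τ)) * (e + (1 + σ)) ^ (m + i)
              ≤ M * ((e + τ) ^ n * (e + (1 + σ))) * (e + (1 + σ)) ^ (m + i) := by gcongr
            _ = _ := by ring
        rw [pow_succ (2 : ℝ)]; linarith
  set θ := (e + τ) * (e + (1 + σ)) / 2 with hθ
  have hθ0 : 0 < θ := by positivity
  have hθτ : θ < τ := by
    have : σ = 1 - τ := by linarith
    rw [hθ, this, he]
    have h2 : 0 < τ ^ 2 := by positivity
    have h3 : τ ^ 2 ≤ 1 := by nlinarith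
    nlinarith
  have hB1 : Bd (lam β) (X - 1) θ 1 M := by
    intro j
    have := hdbl j j 0 (by omega)
    simp only [pow_zero, mul_one, zero_add] at this
    rw [one_mul, hθ, div_pow, mul_pow, ← mul_div_assoc, le_div_iff₀ (by positivity)]
    linarith
  set A := (θ + τ) / 2 with hA
  set B := (τ - θ) / 4 with hBd
  have hB0 : 0 < B := by rw [hBd]; linarith
  set e' := min ((τ - θ) ^ 2 / (4 * θ)) (B ^ 2 / (θ + τ)) with he'
  have he'0 : 0 < e' := by
    have : 0 < τ - θ := by linarith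
    apply lt_min <;> positivity
  have hA2 : θ * (e' + τ) ≤ A ^ 2 := by
    have : e' ≤ (τ - θ) ^ 2 / (4 * θ) := min_le_left _ _
    rw [le_div_iff₀ (by positivity)] at this
    rw [hA]; nlinarith
  have hB2 : (θ + τ) * e' ≤ B ^ 2 := by
    have : e' ≤ B ^ 2 / (θ + τ) := min_le_right _ _
    rw [le_div_iff₀ (by positivity)] at this
    linarith
  obtain ⟨M', hM', hB'⟩ := type_zero hσ0 hc hb he'0
  have hz := vanish (fun n j => lam β ((X - 1) ^ n * q ^ j)) τ (M + M') A B (by positivity) hB0.le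
    (by rw [hA, hBd]; linarith) (by positivity)
    (by
      intro n j
      rw [← L_C_mul, ← map_sub]; congr 1
      have : (C τ : ℝ[X]) = q - (X - 1) := by rw [q3]; ring
      rw [this]; ring)
    (by
      intro n j
      have a := (hB1.mul_pow τ j) n
      have b := (hB'.mul_pow (-τ) n) j
      rw [← q3, one_mul, mul_comm (q ^ j), abs_of_pos hτ0] at a
      rw [← q1, one_mul, abs_neg, abs_of_pos hτ0] at b
      apply abs_le_of_sq_le_sq' _ (by positivity) |>.2
      rw [sq]
      calc |lam β ((X - 1) ^ n * q ^ j)| * |lam β ((X - 1) ^ n * q ^ j)|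
          ≤ (M * (θ + τ) ^ j * θ ^ n) * (M' * (e' + τ) ^ n * e' ^ j) := by gcongr
        _ = (M * M') * (θ * (e' + τ)) ^ n * ((θ + τ) * e') ^ j := by
          rw [mul_pow, mul_pow]; ring
        _ ≤ (M + M') ^ 2 * (A ^ 2) ^ n * (B ^ 2) ^ j := by
          gcongr
          nlinarith
        _ = _ := by ring)
  have hall : ∀ p j : ℕ, lam β (X ^ p * q ^ j) = 0 := by
    intro p
    induction p with
    | zero => intro j; simpa using hz j
    | succ p ih =>
      intro j
      have : lam β (X ^ (p + 1) * q ^ j) = lam β (X ^ p * q ^ (j + 1)) + σ * lam β (X ^ p * q ^ j) := by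
        rw [← L_C_mul, ← map_add]; congr 1
        have : (C σ : ℝ[X]) = X - q := by rw [hq, C_neg]; ring
        rw [this]; ring
      rw [this, ih, ih]; ring
  have := hall k0 0
  rw [pow_zero, mul_one, lam_X_pow] at this
  linarith

lemma contra2 {β : ℕ → ℝ} (h : CMS β) (h0 : ∀ k, 0 ≤ β k) {k0 : ℕ} (hk : β (k0 + 1) < β k0)
    (hsg : ∀ n : ℕ, 1 ≤ n → 0 ≤ lam β ((X + 1) ^ n * (X - 1)) * lam β ((X + 1) ^ (n + 1))) :
    False := by
  have hk0 : 0 < β k0 := (h0 _).trans_lt hk
  set θ := max (β (k0 + 1) / β k0) (1 / 2) with hθ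
  have hθ0 : 0 < θ := lt_max_of_lt_right (by norm_num)
  have hθ1 : θ < 1 := max_lt (by rwa [div_lt_one hk0]) (by norm_num)
  obtain ⟨M, hM, hb⟩ := geo_bound h h0 hθ0 hk0 (by
    rw [← div_le_iff₀ hk0]; exact le_max_left _ _)
  have hB : Bd (lam β) X θ 1 M := by
    intro j; rw [one_mul, lam_X_pow, abs_of_nonneg (h0 j)]; exact hb j
  have hU : ∀ n : ℕ, lam β ((X + 1) ^ n) ≤ M * (θ + 1) ^ n := by
    intro n
    have := (hB.mul_pow 1 n) 0
    simp only [map_one, one_mul, pow_zero, mul_one, abs_one] at this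
    exact (le_abs_self _).trans this
  have hG : ∀ n p : ℕ, β (p + n) ≤ lam β (X ^ p * (X + C 1) ^ n) := by
    intro n
    induction n with
    | zero => intro p; simp [lam_X_pow]
    | succ n ih =>
      intro p
      rw [F_succ]
      have a := ih (p + 1)
      have b := (h0 _).trans (ih p)
      rw [show p + 1 + n = p + (n + 1) by ring] at a
      linarith
  have hmono : ∀ n : ℕ, lam β ((X + 1) ^ n) ≤ lam β ((X + 1) ^ (n + 1)) := by
    intro n
    have a := F_succ β 1 n 0
    have b := (h0 _).trans (hG n 1)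
    simp only [map_one, pow_zero, one_mul, zero_add] at a b
    linarith
  have hl : ∀ i : ℕ, 2 ^ i * β k0 ≤ lam β ((X + 1) ^ (k0 + 1 + i)) := by
    intro i
    induction i with
    | zero =>
      have a := hG k0 0
      have b := hmono k0
      simp only [map_one, pow_zero, one_mul, zero_add, add_zero] at a ⊢
      linarith
    | succ i ih =>
      have a := hsg (k0 + 1 + i) (by omega)
      have b := hmono (k0 + 1 + i)
      have e1 : lam β ((X + 1) ^ (k0 + 1 + i) * (X - 1))
          = lam β ((X + 1) ^ (k0 + 1 + i + 1)) - 2 * lam β ((X + 1) ^ (k0 + 1 + i)) := by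
        rw [← L_C_mul, ← map_sub]; congr 1
        rw [show (C (2 : ℝ) : ℝ[X]) = 2 from rfl]; ring
      have p1 : 0 < 2 ^ i * β k0 := by positivity
      rw [e1] at a
      have c := nonneg_of_mul_nonneg_left a (by linarith)
      rw [← add_assoc, pow_succ (2 : ℝ)]
      linarith
  obtain ⟨i, hi⟩ := exists_pow_lt_of_lt_one (x := β k0 / (M * (θ + 1) ^ (k0 + 1)))
    (y := (θ + 1) / 2) (by positivity) (by linarith)
  rw [div_pow, div_lt_div_iff₀ (by positivity) (by positivity)] at hi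
  have a := (hl i).trans (hU _)
  rw [pow_add (θ + 1)] at a
  nlinarith

end Pool.Agent.Lib.helper23.Hm
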