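import Pool.Agent.Lib.helper23.HmB
import Pool.Agent.Lib.helper23.HmE

set_option autoImplicit false

namespace Pool.Agent.Lib.helper23.Hm
open Polynomial

/-- the real raising operator -/
noncomputable def Br (f : ℝ[X]) : ℝ[X] := X * f - C (1/2 : ℝ) * derivative f

/-- monic Hermite polynomials -/
noncomputable def hb (n : ℕ) : ℝ[X] := Br^[n] 1

lemma hb_succ (n : ℕ) : hb (n + 1) = Br (hb n) := Function.iterate_succ_apply' _ _ _

lemma Br_add (f g : ℝ[X]) : Br (f + g) = Br f + Br g := by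
  simp only [Br, derivative_add]; ring

lemma Br_C_mul (c : ℝ) (f : ℝ[X]) : Br (C c * f) = C c * Br f := by
  simp only [Br, derivative_mul, derivative_C]; ring

lemma Br_iter_add (j : ℕ) (f g : ℝ[X]) : Br^[j] (f + g) = Br^[j] f + Br^[j] g := by
  induction j with
  | zero => rfl
  | succ j ih => simp only [Function.iterate_succ_apply', ih, Br_add]

lemma Br_iter_C_mul (j : ℕ) (c : ℝ) (f : ℝ[X]) : Br^[j] (C c * f) = C c * Br^[j] f := by
  induction j with
  | zero => rfl
  | succ j ih => simp only [Function.iterate_succ_apply', ih, Br_C_mul]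

lemma deriv_Br (f : ℝ[X]) : derivative (Br f) = Br (derivative f) + f := by
  simp only [Br, derivative_sub, derivative_mul, derivative_X, derivative_C]; ring

lemma deriv_hb (n : ℕ) : derivative (hb (n + 1)) = C ((n : ℝ) + 1) * hb n := by
  induction n with
  | zero => simp [hb, Br]
  | succ n ih =>
    rw [hb_succ (n + 1), deriv_Br, ih, Br_C_mul, ← hb_succ]
    push_cast
    simp only [map_add, map_one]; ring

lemma hb_coeff (n : ℕ) : (hb n).coeff n = 1 ∧ ∀ m, n < m → (hb n).coeff m = 0 := by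
  induction n with
  | zero =>
    refine ⟨by simp [hb], fun m hm => ?_⟩
    simp [hb, coeff_one]; omega
  | succ n ih =>
    rw [hb_succ]
    constructor
    · simp only [Br, coeff_sub, coeff_X_mul, coeff_C_mul, coeff_derivative, ih.1]
      rw [ih.2 _ (by omega)]; simp
    · intro m hm
      obtain ⟨m, rfl⟩ : ∃ m', m = m' + 1 := ⟨m - 1, by omega⟩
      simp only [Br, coeff_sub, coeff_X_mul, coeff_C_mul, coeff_derivative]
      rw [ih.2 _ (by omega), ih.2 _ (by omega)]; simp

lemma hb_natDegree (n : ℕ) : (hb n).natDegree ≤ n :=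
  natDegree_le_iff_coeff_eq_zero.mpr (hb_coeff n).2

lemma ext_lt (F : ℝ[X] → ℝ[X]) (hadd : ∀ f g, F (f + g) = F f + F g)
    (hC : ∀ (c : ℝ) f, F (C c * f) = C c * F f) (M : ℕ) (h : ∀ n < M, F (hb n) = 0)
    (f : ℝ[X]) (hf : f.natDegree < M) : F f = 0 := by
  have main : ∀ d, d ≤ M → ∀ f : ℝ[X], (∀ m, d ≤ m → f.coeff m = 0) → F f = 0 := by
    intro d
    induction d with
    | zero =>
      intro _ f hf
      have : f = C 0 * 0 := by ext m; simp [hf m (Nat.zero_le _)]
      rw [this, hC]; simp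
    | succ d ih =>
      intro hd f hf
      have e : f = (f - C (f.coeff d) * hb d) + C (f.coeff d) * hb d := by ring
      rw [e, hadd, hC, h d (by omega), ih (by omega)]
      · simp
      · intro m hm
        rw [coeff_sub, coeff_C_mul]
        rcases hm.lt_or_eq with hm | hm
        · rw [hf m (by omega), (hb_coeff d).2 m hm]; simp
        · rw [← hm, (hb_coeff d).1]; simp
  exact main M le_rfl f (fun m hm => coeff_eq_zero_of_natDegree_lt (by omega))

lemma normal_hb (j : ℕ) : ∀ n : ℕ,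
    Br^[j] (derivative^[j] (hb n)) = C (n.descFactorial j : ℝ) * hb n := by
  induction j with
  | zero => intro n; simp
  | succ j ih =>
    intro n
    rw [Function.iterate_succ_apply', Function.iterate_succ_apply]
    cases n with
    | zero =>
      have : derivative (hb 0) = C 0 * 0 := by simp [hb]
      rw [this, iterate_derivative_C_mul, Br_iter_C_mul, Br_C_mul]; simp
    | succ n =>
      rw [deriv_hb, iterate_derivative_C_mul, Br_iter_C_mul, ih, Br_C_mul, Br_C_mul, ← hb_succ,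
        Nat.succ_descFactorial_succ]
      push_cast
      simp only [map_mul]; ring

lemma T_normal (β : ℕ → ℝ) (T : ℝ[X] →ₗ[ℝ] ℝ[X]) (hT : ∀ n, T (hb n) = β n • hb n)
    (f : ℝ[X]) (M : ℕ) (hM : f.natDegree < M) :
    T f = ∑ j ∈ Finset.range M, C (lam β ((X + C (-1)) ^ j) / j.factorial) *
      Br^[j] (derivative^[j] f) := by
  rw [← sub_eq_zero]
  refine ext_lt (fun f => T f - ∑ j ∈ Finset.range M, C (lam β ((X + C (-1)) ^ j) / j.factorial) *
      Br^[j] (derivative^[j] f)) ?_ ?_ M ?_ f hM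
  · intro f g
    simp only [map_add, iterate_map_add, Br_iter_add, mul_add, Finset.sum_add_distrib]; ring
  · intro c f
    simp only [iterate_derivative_C_mul, Br_iter_C_mul, mul_sub, Finset.mul_sum]
    rw [← smul_eq_C_mul, map_smul, smul_eq_C_mul]
    congr 1
    apply Finset.sum_congr rfl; intro j _; ring
  · intro n hn
    simp only [normal_hb, hT, ← mul_assoc, ← C_mul, ← Finset.sum_mul, ← map_sum]
    rw [smul_eq_C_mul, sub_eq_zero]
    congr 2
    have e1 : β n = ∑ i ∈ Finset.range (n + 1), lam β ((X + C (-1)) ^ i) * (n.choose i : ℝ) := by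
      rw [← lam_X_pow β n]
      conv_lhs => rw [show (X : ℝ[X]) = (X + C (-1)) + 1 by rw [C_neg, C_1]; ring]
      rw [add_pow, map_sum]
      apply Finset.sum_congr rfl
      intro i _
      rw [mul_comm (lam β _), ← L_C_mul]
      congr 1
      simp only [map_natCast]; ring
    rw [e1]
    have e2 : ∀ j : ℕ, lam β ((X + C (-1)) ^ j) / j.factorial * (n.descFactorial j : ℝ)
        = lam β ((X + C (-1)) ^ j) * (n.choose j : ℝ) := by
      intro j
      rw [Nat.descFactorial_eq_factorial_mul_choose]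
      have : (j.factorial : ℝ) ≠ 0 := by positivity
      push_cast; field_simp
    simp only [e2]
    apply Finset.sum_subset
    · intro j hj; simp only [Finset.mem_range] at hj ⊢; omega
    · intro j _ hj
      simp only [Finset.mem_range, not_lt] at hj
      rw [Nat.choose_eq_zero_of_lt (by omega)]; simp

lemma map_Br (f : ℝ[X]) : (Br f).map (algebraMap ℝ ℂ) = Bc (f.map (algebraMap ℝ ℂ)) := by
  simp [Br, Bc, Polynomial.map_sub, Polynomial.map_mul, derivative_map]

lemma map_Br_iter (j : ℕ) (f : ℝ[X]) :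
    (Br^[j] f).map (algebraMap ℝ ℂ) = Bc^[j] (f.map (algebraMap ℝ ℂ)) := by
  induction j with
  | zero => rfl
  | succ j ih => simp only [Function.iterate_succ_apply', map_Br, ih]

lemma HPpos {β : ℕ → ℝ} (h : CMS β) (h0 : ∀ k, 0 ≤ β k) (hr : ∀ k, β k ≤ β (k + 1))
    (T : ℝ[X] →ₗ[ℝ] ℝ[X]) (hT : ∀ n, T (hb n) = β n • hb n) (f : ℝ[X]) (hf : RR f) :
    RR (T f) := by
  rw [RR_iff] at hf ⊢
  rw [T_normal β T hT f (f.natDegree + 1) (by omega)]
  have := normal_pres (fun j => lam β ((X + C (-1)) ^ j))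
    (posB h h0 zero_le_one (by simpa using hr))
    (fun N => (J (lam β) (X + C (-1)) N (X ^ 0)).comp (C (1 / (N : ℝ)) * X))
    (fun N hN => (J_shift (h.J N 0) (-1)).comp (by positivity))
    (by
      intro N j
      rw [comp_C_mul_X_coeff, J_coeff, pow_zero, one_mul, one_div, inv_pow]; ring)
    _ hf (f.natDegree + 1) (by rw [natDegree_map]; omega)
  simpa only [Polynomial.map_sum, Polynomial.map_mul, map_C, map_Br_iter, iterate_derivative_map,
    Complex.coe_algebraMap] using this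

/-- explicit coefficient polynomials -/
noncomputable def Qt (L : ℝ[X] →ₗ[ℝ] ℝ) : ℕ → ℝ[X] → ℝ[X]
  | 0, p => C (L p)
  | k + 1, p => C (1 / ((k : ℝ) + 1)) *
      (X * Qt L k ((X - 1) * p) - C (1/2 : ℝ) * derivative (Qt L k ((X + 1) * p)))

lemma Qt_sub (L : ℝ[X] →ₗ[ℝ] ℝ) (k : ℕ) : ∀ p r : ℝ[X],
    Qt L k (p - r) = Qt L k p - Qt L k r := by
  induction k with
  | zero => intro p r; simp [Qt]
  | succ k ih =>
    intro p r
    simp only [Qt]
    rw [mul_sub (X - 1), mul_sub (X + 1), ih, ih, derivative_sub]; ring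

lemma Qt_mul (L : ℝ[X] →ₗ[ℝ] ℝ) (k : ℕ) (p : ℝ[X]) : C ((k : ℝ) + 1) * Qt L (k + 1) p
    = X * Qt L k ((X - 1) * p) - C (1/2 : ℝ) * derivative (Qt L k ((X + 1) * p)) := by
  have : ((k : ℝ) + 1) * (1 / ((k : ℝ) + 1)) = 1 := by field_simp
  rw [Qt, ← mul_assoc, ← C_mul, this, C_1, one_mul]

lemma Qt_deriv (L : ℝ[X] →ₗ[ℝ] ℝ) (k : ℕ) : ∀ p : ℝ[X],
    derivative (Qt L (k + 1) p) = Qt L k ((X - 1) * p) := by
  induction k with
  | zero => intro p; simp [Qt]
  | succ k ih =>
    intro p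
    have h1 := congrArg derivative (Qt_mul L (k + 1) p)
    simp only [derivative_mul, derivative_C, derivative_sub, derivative_X, ih] at h1
    have h2 := Qt_mul L k ((X - 1) * p)
    rw [show (X + 1) * ((X - 1) * p) = (X - 1) * ((X + 1) * p) by ring] at h2
    have h3 : (C (((k + 1 : ℕ) : ℝ) + 1) : ℝ[X]) ≠ 0 := by rw [C_ne_zero]; positivity
    apply mul_left_cancel₀ h3
    push_cast at h1 ⊢
    simp only [map_add, map_one] at h1 h2 ⊢
    linear_combination h1 - h2

lemma iter_Br (f : ℝ[X]) (k : ℕ) : derivative^[k + 1] (Br f)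
    = X * derivative^[k + 1] f + C ((k : ℝ) + 1) * derivative^[k] f
      - C (1/2 : ℝ) * derivative^[k + 2] f := by
  induction k with
  | zero => simp [Br]; ring
  | succ k ih =>
    rw [Function.iterate_succ_apply', ih]
    simp only [derivative_sub, derivative_add, derivative_mul, derivative_X, derivative_C,
      Function.iterate_succ_apply']
    push_cast
    simp only [map_add, map_one]; ring

lemma U_comm (L : ℝ[X] →ₗ[ℝ] ℝ) (p f : ℝ[X]) (M : ℕ) :
    ∑ k ∈ Finset.range (M + 1), Qt L k p * derivative^[k] (Br f)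
      = Br (∑ k ∈ Finset.range M, Qt L k (X * p) * derivative^[k] f)
        + (X * Qt L M p * derivative^[M] f - C (1/2 : ℝ) * Qt L M p * derivative^[M + 1] f
          + C (1/2 : ℝ) * derivative (Qt L M p) * derivative^[M] f) := by
  induction M with
  | zero => simp [Br, Qt]; ring
  | succ M ih =>
    rw [Finset.sum_range_succ, ih, Finset.sum_range_succ, Br_add, iter_Br]
    have h1 := Qt_deriv L M p
    have h2 := Qt_mul L M p
    have h3 : Qt L M ((X - 1) * p) = Qt L M (X * p) - Qt L M p := by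
      rw [← Qt_sub]; congr 1; ring
    have h4 : Qt L M ((X + 1) * p) = Qt L M (X * p) + Qt L M p := by
      have := Qt_sub L M ((X + 1) * p) p
      rw [show (X + 1) * p - p = X * p by ring] at this
      rw [this]; ring
    rw [h3] at h1 h2
    rw [h4, derivative_add] at h2
    have h5 : Br (Qt L M (X * p) * derivative^[M] f)
        = X * (Qt L M (X * p) * derivative^[M] f) - C (1/2 : ℝ) *
          (derivative (Qt L M (X * p)) * derivative^[M] f
            + Qt L M (X * p) * derivative^[M + 1] f) := by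
      rw [Br, derivative_mul, Function.iterate_succ_apply']
    rw [h5, h1]
    linear_combination (derivative^[M] f) * h2

lemma U_hb (L : ℝ[X] →ₗ[ℝ] ℝ) (n : ℕ) : ∀ (p : ℝ[X]) (M : ℕ), n < M →
    ∑ k ∈ Finset.range M, Qt L k p * derivative^[k] (hb n) = C (L (p * X ^ n)) * hb n := by
  induction n with
  | zero =>
    intro p M hM
    rw [Finset.sum_eq_single 0]
    · simp [Qt]
    · intro k _ hk
      have : hb 0 = 1 := rfl
      rw [this, iterate_derivative_one (by omega), mul_zero]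
    · intro h; simp at h; omega
  | succ n ih =>
    intro p M hM
    obtain ⟨M, rfl⟩ : ∃ M', M = M' + 1 := ⟨M - 1, by omega⟩
    have := hb_natDegree n
    rw [hb_succ, U_comm, ih _ _ (by omega), Br_C_mul,
      iterate_derivative_eq_zero (x := M) (by omega),
      iterate_derivative_eq_zero (x := M + 1) (by omega),
      show X * p * X ^ n = p * X ^ (n + 1) by ring]
    ring

lemma Q_eq (γ : ℕ → ℝ) (T : ℝ[X] →ₗ[ℝ] ℝ[X]) (hT : ∀ n, T (hb n) = γ n • hb n)
    (Q : ℕ → ℝ[X])
    (hQ : ∀ p : ℝ[X], T p = ∑ k ∈ Finset.range (p.natDegree + 1), Q k * derivative^[k] p)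
    (n : ℕ) : Q n = Qt (lam γ) n 1 := by
  have h1 : ∀ (f : ℝ[X]) (M : ℕ), f.natDegree < M →
      T f = ∑ k ∈ Finset.range M, Qt (lam γ) k 1 * derivative^[k] f := by
    intro f M hM
    rw [← sub_eq_zero]
    refine ext_lt (fun f => T f - ∑ k ∈ Finset.range M, Qt (lam γ) k 1 * derivative^[k] f)
      ?_ ?_ M ?_ f hM
    · intro f g
      simp only [map_add, iterate_map_add, mul_add, Finset.sum_add_distrib]; ring
    · intro c f
      simp only [iterate_derivative_C_mul, mul_sub, Finset.mul_sum]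
      rw [← smul_eq_C_mul, map_smul, smul_eq_C_mul]
      congr 1
      apply Finset.sum_congr rfl; intro j _; ring
    · intro n hn
      rw [U_hb _ _ _ _ hn, hT, one_mul, lam_X_pow, smul_eq_C_mul, sub_self]
  induction n using Nat.strong_induction_on with
  | _ n ih =>
    have a := hQ (X ^ n)
    rw [h1 (X ^ n) (n + 1) (by simp), natDegree_X_pow, Finset.sum_range_succ,
      Finset.sum_range_succ,
      Finset.sum_congr rfl (fun k hk => by rw [ih k (Finset.mem_range.mp hk)] :
        ∀ k ∈ Finset.range n, Q k * derivative^[k] (X ^ n : ℝ[X])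
          = Qt (lam γ) k 1 * derivative^[k] (X ^ n : ℝ[X]))] at a
    have b := add_left_cancel a
    have c : derivative^[n] (X ^ n : ℝ[X]) ≠ 0 := by
      rw [iterate_derivative_X_pow_eq_C_mul, Nat.sub_self, pow_zero, mul_one, C_ne_zero,
        Nat.descFactorial_self]
      positivity
    exact (mul_right_cancel₀ c b).symm

lemma Qt_down (L : ℝ[X] →ₗ[ℝ] ℝ) (k i : ℕ) : ∀ p : ℝ[X], RR (Qt L (k + i) p) →
    RR (Qt L k ((X - 1) ^ i * p)) := by
  induction i with
  | zero => intro p h; simpa using h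
  | succ i ih =>
    intro p h
    have h1 := h.deriv
    rw [← add_assoc, Qt_deriv] at h1
    have := ih _ h1
    rwa [← mul_assoc, ← pow_succ] at this

lemma Qt_eval (L : ℝ[X] →ₗ[ℝ] ℝ) (k : ℕ) (p : ℝ[X]) : (Qt L (k + 2) p).eval 0
    = -(1 / (2 * ((k : ℝ) + 2))) * (Qt L k ((X - 1) * ((X + 1) * p))).eval 0 := by
  rw [Qt, Qt_deriv]
  simp only [eval_mul, eval_C, eval_sub, eval_X]
  push_cast
  have : (k : ℝ) + 1 + 1 ≠ 0 := by positivity
  have : (k : ℝ) + 2 ≠ 0 := by positivity
  field_simp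
  ring

lemma Qt_odd (L : ℝ[X] →ₗ[ℝ] ℝ) (m : ℕ) : ∀ p : ℝ[X], (Qt L (2 * m + 1) p).eval 0 = 0 := by
  induction m with
  | zero => intro p; simp [Qt]
  | succ m ih =>
    intro p
    rw [show 2 * (m + 1) + 1 = (2 * m + 1) + 2 by ring, Qt_eval, ih, mul_zero]

lemma Qt_even (L : ℝ[X] →ₗ[ℝ] ℝ) (m : ℕ) : ∃ κ : ℝ, 0 < κ ∧ ∀ p : ℝ[X],
    (Qt L (2 * m) p).eval 0 = (-1) ^ m * κ * L ((X - 1) ^ m * (X + 1) ^ m * p) := by
  induction m with
  | zero => exact ⟨1, one_pos, fun p => by simp [Qt]⟩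
  | succ m ih =>
    obtain ⟨κ, hκ, h⟩ := ih
    refine ⟨κ * (1 / (2 * (((2 * m : ℕ) : ℝ) + 2))), by positivity, fun p => ?_⟩
    rw [show 2 * (m + 1) = 2 * m + 2 by ring, Qt_eval, h,
      show (X - 1 : ℝ[X]) ^ m * (X + 1) ^ m * ((X - 1) * ((X + 1) * p))
        = (X - 1) ^ (m + 1) * (X + 1) ^ (m + 1) * p by ring]
    ring

lemma Qt_sign (L : ℝ[X] →ₗ[ℝ] ℝ) (h : ∀ k, RR (Qt L k 1)) (n m : ℕ) (hnm : m + 1 ≤ n) :
    0 ≤ L ((X - 1) ^ n * (X + 1) ^ (m + 1)) * L ((X - 1) ^ (n + 1) * (X + 1) ^ m) := by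
  obtain ⟨i, rfl⟩ := Nat.exists_eq_add_of_le hnm
  have h1 := (Qt_down L (2 * m + 1 + 1) i 1 (h _)).lag.1
  rw [Qt_deriv, Qt_deriv, Qt_odd, show 2 * m + 1 + 1 = 2 * (m + 1) by ring] at h1
  obtain ⟨κ, hκ, e1⟩ := Qt_even L m
  obtain ⟨κ', hκ', e2⟩ := Qt_even L (m + 1)
  rw [e1, e2,
    show (X - 1 : ℝ[X]) ^ (m + 1) * (X + 1) ^ (m + 1) * ((X - 1) ^ i * 1)
      = (X - 1) ^ (m + 1 + i) * (X + 1) ^ (m + 1) by ring,
    show (X - 1 : ℝ[X]) ^ m * (X + 1) ^ m * ((X - 1) * ((X - 1) * ((X - 1) ^ i * 1)))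
      = (X - 1) ^ (m + 1 + i + 1) * (X + 1) ^ m by ring] at h1
  have h2 : ((-1 : ℝ) ^ m) * (-1) ^ m = 1 := by rw [← mul_pow]; simp
  set a := L ((X - 1) ^ (m + 1 + i) * (X + 1) ^ (m + 1))
  set b := L ((X - 1) ^ (m + 1 + i + 1) * (X + 1) ^ m)
  have h3 : (-1) ^ (m + 1) * κ' * a * ((-1) ^ m * κ * b) = -(κ' * κ * (a * b)) := by
    rw [pow_succ]; linear_combination (-(κ' * κ * (a * b))) * h2
  rw [h3] at h1
  have h4 : 0 ≤ κ' * κ * (a * b) := by nlinarith
  exact nonneg_of_mul_nonneg_right h4 (by positivity)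

lemma herm_eq (n : ℕ) : ((hermite n).map (Int.castRingHom ℝ)).comp (C (Real.sqrt 2) * X)
    = C (Real.sqrt 2 ^ n) * hb n := by
  induction n with
  | zero => simp [hb]
  | succ n ih =>
    have h2 : (C (Real.sqrt 2) : ℝ[X]) * C (Real.sqrt 2) * C (1/2 : ℝ) = 1 := by
      rw [← C_mul, ← C_mul, Real.mul_self_sqrt (by norm_num)]; norm_num
    have hd := congrArg derivative ih
    rw [derivative_comp] at hd
    simp only [derivative_mul, derivative_C, derivative_X] at hd
    rw [hermite_succ, hb_succ, Polynomial.map_sub, Polynomial.map_mul, map_X, ← derivative_map,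
      sub_comp, mul_comp, X_comp, ih, pow_succ, C_mul, Br]
    linear_combination (-(C (Real.sqrt 2) * C (1/2 : ℝ))) * hd
      + ((derivative ((hermite n).map (Int.castRingHom ℝ))).comp (C (Real.sqrt 2) * X)) * h2

lemma hb_comp {s : ℝ} (hs : s * s = 1) (n : ℕ) :
    (hb n).comp (C s * X) = C (s ^ n) * hb n := by
  induction n with
  | zero => simp [hb]
  | succ n ih =>
    have h2 : (C s : ℝ[X]) * C s = 1 := by rw [← C_mul, hs, C_1]
    have hd := congrArg derivative ih
    rw [derivative_comp] at hd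
    simp only [derivative_mul, derivative_C, derivative_X] at hd
    rw [hb_succ, Br, sub_comp, mul_comp, mul_comp, X_comp, C_comp, ih, pow_succ, C_mul]
    linear_combination (-(C s * C (1/2 : ℝ))) * hd
      + (C (1/2 : ℝ) * (derivative (hb n)).comp (C s * X)) * h2

lemma lam_comp (γ : ℕ → ℝ) {e s : ℝ} (he : e * e = 1) (hs : s * s = 1) (p : ℝ[X]) :
    lam γ p = e * lam (fun k => e * s ^ k * γ k) (p.comp (C s * X)) := by
  induction p using Polynomial.induction_on' with
  | add p q hp hq => rw [add_comp, map_add, map_add, hp, hq]; ring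
  | monomial k a =>
    rw [monomial_comp, mul_pow, ← C_pow, L_C_mul, L_C_mul, lam_X_pow, lam_monomial]
    have : s ^ k * s ^ k = 1 := by rw [← mul_pow, hs, one_pow]
    linear_combination (-(a * γ k * (s ^ k * s ^ k))) * he - (a * γ k) * this

theorem main (T : ℝ[X] →ₗ[ℝ] ℝ[X]) (γ : ℕ → ℝ) (Q : ℕ → ℝ[X])
    (hT : ∀ n, T (hb n) = γ n • hb n) (hγ : CMS γ)
    (hQ : ∀ p : ℝ[X], T p = ∑ k ∈ Finset.range (p.natDegree + 1), Q k * derivative^[k] p)
    (hR : ∀ k, RR (Q k)) (p : ℝ[X]) (hp : RR p) : RR (T p) := by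
  obtain ⟨e, s, he, hs, h0, hβ⟩ := hγ.norm
  have he2 : e * e = 1 := by rcases he with rfl | rfl <;> norm_num
  have hs2 : s * s = 1 := by rcases hs with rfl | rfl <;> norm_num
  have hs0 : s ≠ 0 := by rintro rfl; simp at hs2
  by_cases hm : ∀ k, e * s ^ k * γ k ≤ e * s ^ (k + 1) * γ (k + 1)
  · have h1 := HPpos hβ h0 hm (e • (T ∘ₗ (aeval (C s * X : ℝ[X])).toLinearMap)) (by
      intro n
      simp only [LinearMap.smul_apply, LinearMap.comp_apply, AlgHom.toLinearMap_apply]
      rw [← comp_eq_aeval, hb_comp hs2, ← smul_eq_C_mul, map_smul, hT, smul_smul, smul_smul])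
      _ (hp.comp hs0)
    simp only [LinearMap.smul_apply, LinearMap.comp_apply, AlgHom.toLinearMap_apply] at h1
    have h2 : (C s * X : ℝ[X]).comp (C s * X) = X := by
      rw [mul_comp, C_comp, X_comp, ← mul_assoc, ← C_mul, hs2, C_1, one_mul]
    rw [← comp_eq_aeval, comp_assoc, h2, comp_X] at h1
    have h3 := h1.C_mul e
    rwa [smul_eq_C_mul, ← mul_assoc, ← C_mul, he2, C_1, one_mul] at h3
  · exfalso
    push Not at hm
    obtain ⟨k0, hk⟩ := hm
    have hsg := Qt_sign (lam γ) (fun k => by rw [← Q_eq γ T hT Q hQ k]; exact hR k)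
    rcases hs with rfl | rfl
    · apply contra1 hβ h0 hk
      intro n m hnm
      have := hsg n m hnm
      rw [lam_comp γ he2 hs2, lam_comp γ he2 hs2 ((X - 1) ^ (n + 1) * (X + 1) ^ m)] at this
      simp only [map_one, one_mul, comp_X] at this
      set a := lam (fun k => e * 1 ^ k * γ k) ((X - 1) ^ n * (X + 1) ^ (m + 1))
      set b := lam (fun k => e * 1 ^ k * γ k) ((X - 1) ^ (n + 1) * (X + 1) ^ m)
      have e1 : e * a * (e * b) = a * b := by linear_combination (a * b) * he2
      rwa [e1] at this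
    · apply contra2 hβ h0 hk
      intro n hn
      have := hsg n 0 (by omega)
      rw [lam_comp γ he2 hs2, lam_comp γ he2 hs2 ((X - 1) ^ (n + 1) * (X + 1) ^ 0)] at this
      have c1 : ((X - 1 : ℝ[X]) ^ n * (X + 1) ^ (0 + 1)).comp (C (-1) * X)
          = C ((-1) ^ (n + 1)) * ((X + 1) ^ n * (X - 1)) := by
        simp only [mul_comp, pow_comp, sub_comp, add_comp, X_comp, one_comp, map_pow, map_neg,
          map_one]
        rw [show (-1 * X - 1 : ℝ[X]) = -1 * (X + 1) by ring, mul_pow]; ring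
      have c2 : ((X - 1 : ℝ[X]) ^ (n + 1) * (X + 1) ^ 0).comp (C (-1) * X)
          = C ((-1) ^ (n + 1)) * (X + 1) ^ (n + 1) := by
        simp only [mul_comp, pow_comp, sub_comp, add_comp, X_comp, one_comp, map_pow, map_neg,
          map_one]
        rw [show (-1 * X - 1 : ℝ[X]) = -1 * (X + 1) by ring, mul_pow]; ring
      rw [c1, c2, L_C_mul, L_C_mul] at this
      set a := lam (fun k => e * (-1) ^ k * γ k) ((X + 1) ^ n * (X - 1))
      set b := lam (fun k => e * (-1) ^ k * γ k) ((X + 1) ^ (n + 1))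
      have h2 : ((-1 : ℝ) ^ (n + 1)) * (-1) ^ (n + 1) = 1 := by rw [← mul_pow]; simp
      have e1 : e * ((-1) ^ (n + 1) * a) * (e * ((-1) ^ (n + 1) * b)) = a * b := by
        linear_combination (a * b * ((-1) ^ (n + 1) * (-1) ^ (n + 1))) * he2 + (a * b) * h2
      rwa [e1] at this

end Pool.Agent.Lib.helper23.Hm
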