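import Mathlib

set_option autoImplicit false
open MeasureTheory Set Filter Topology

namespace Pool.Agent.Lib.helper23.Join

section
variable {Ω : Type} [MeasurableSpace Ω] (μ : Measure Ω) [IsProbabilityMeasure μ]
  {β : Type} [Fintype β] [MeasurableSpace β] [MeasurableSingletonClass β]

noncomputable def q (W : Ω → β) (A : Set Ω) (w : β) : ℝ :=
  μ.real (W ⁻¹' {w} ∩ A) / μ.real (W ⁻¹' {w})

noncomputable def md (W : Ω → β) (A : Set Ω) (x : Ω) : ℝ :=
  A.indicator (fun _ => (1:ℝ)) x - q μ W A (W x)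

noncomputable def v (W : Ω → β) (A : Set Ω) : ℝ :=
  ∑ w, μ.real (W ⁻¹' {w}) * (q μ W A w * (1 - q μ W A w))

omit [Fintype β] [MeasurableSpace β] [MeasurableSingletonClass β] in
lemma q_mem (W : Ω → β) (A : Set Ω) (w : β) : 0 ≤ q μ W A w ∧ q μ W A w ≤ 1 :=
  ⟨div_nonneg measureReal_nonneg measureReal_nonneg,
    div_le_one_of_le₀ (measureReal_mono inter_subset_left) measureReal_nonneg⟩

omit [Fintype β] [MeasurableSpace β] [MeasurableSingletonClass β] in
lemma mul_q (W : Ω → β) (A : Set Ω) (w : β) :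
    μ.real (W ⁻¹' {w}) * q μ W A w = μ.real (W ⁻¹' {w} ∩ A) := by
  by_cases h : μ.real (W ⁻¹' {w}) = 0
  · rw [h, zero_mul]
    exact (le_antisymm (h ▸ measureReal_mono inter_subset_left) measureReal_nonneg).symm
  · rw [q]; field_simp

omit [Fintype β] [MeasurableSpace β] [MeasurableSingletonClass β] in
lemma md_abs (W : Ω → β) (A : Set Ω) (x : Ω) : |md μ W A x| ≤ 1 := by
  have := q_mem μ W A (W x)
  rw [abs_le, md]
  by_cases h : x ∈ A <;> simp [h] <;> constructor <;> linarith [this.1, this.2]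

omit [IsProbabilityMeasure μ] in
lemma md_meas {W : Ω → β} (hW : Measurable W) {A : Set Ω} (hA : MeasurableSet A) :
    Measurable (md μ W A) :=
  (measurable_const.indicator hA).sub ((measurable_of_countable (q μ W A)).comp hW)

lemma int_ind {W : Ω → β} (hW : Measurable W) {A : Set Ω} (hA : MeasurableSet A) (h : β → ℝ) :
    ∫ x, A.indicator (fun _ => (1:ℝ)) x * h (W x) ∂μ = ∑ w, μ.real (W ⁻¹' {w} ∩ A) * h w := by
  classical
  have e : (fun x => A.indicator (fun _ => (1:ℝ)) x * h (W x)) =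
      fun x => ∑ w, (W ⁻¹' {w} ∩ A).indicator (fun _ => h w) x := by
    funext x
    rw [Finset.sum_eq_single (W x)]
    · by_cases hx : x ∈ A <;> simp [hx]
    · intro w _ hw
      rw [indicator_of_notMem]
      exact fun c => hw (c.1 : W x = w).symm
    · simp
  rw [e, integral_finsetSum _ fun w _ =>
    (integrable_const _).indicator ((hW (measurableSet_singleton w)).inter hA)]
  refine Finset.sum_congr rfl fun w _ => ?_
  rw [integral_indicator_const _ ((hW (measurableSet_singleton w)).inter hA), smul_eq_mul]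

lemma int_comp {W : Ω → β} (hW : Measurable W) (h : β → ℝ) :
    ∫ x, h (W x) ∂μ = ∑ w, μ.real (W ⁻¹' {w}) * h w := by
  simpa using int_ind μ hW MeasurableSet.univ h

lemma intble_ind {W : Ω → β} (hW : Measurable W) {A : Set Ω} (hA : MeasurableSet A) (h : β → ℝ) :
    Integrable (fun x => A.indicator (fun _ => (1:ℝ)) x * h (W x)) μ := by
  obtain ⟨C, hC⟩ := (Set.finite_range fun w => ‖h w‖).bddAbove
  refine Integrable.of_bound ((measurable_const.indicator hA).mul
    ((measurable_of_countable h).comp hW)).aestronglyMeasurable C (Eventually.of_forall fun x => ?_)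
  have := hC ⟨W x, rfl⟩
  by_cases hx : x ∈ A
  · simpa [hx] using this
  · simpa [hx] using (norm_nonneg _).trans this

lemma intble_comp {W : Ω → β} (hW : Measurable W) (h : β → ℝ) :
    Integrable (fun x => h (W x)) μ := by
  simpa using intble_ind μ hW MeasurableSet.univ h

lemma md_orth {W : Ω → β} (hW : Measurable W) {A : Set Ω} (hA : MeasurableSet A) {h : Ω → ℝ}
    (hh : ∀ x y, W x = W y → h x = h y) : ∫ x, md μ W A x * h x ∂μ = 0 := by
  obtain ⟨g, rfl⟩ : ∃ g : β → ℝ, h = fun x => g (W x) :=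
    ⟨Function.extend W h 0, funext fun x =>
      (Function.FactorsThrough.extend_apply (fun a b => hh a b) 0 x).symm⟩
  have e : (fun x => md μ W A x * g (W x)) = fun x =>
      A.indicator (fun _ => (1:ℝ)) x * g (W x) - (fun w => q μ W A w * g w) (W x) := by
    funext x; simp only [md]; ring
  rw [e, integral_sub (intble_ind μ hW hA g) (intble_comp μ hW (fun w => q μ W A w * g w)), int_ind μ hW hA,
    int_comp μ hW (fun w => q μ W A w * g w), sub_eq_zero]
  refine Finset.sum_congr rfl fun w _ => ?_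
  rw [← mul_q, mul_assoc]

lemma md_self {W : Ω → β} (hW : Measurable W) {A : Set Ω} (hA : MeasurableSet A) :
    ∫ x, A.indicator (fun _ => (1:ℝ)) x * md μ W A x ∂μ = v μ W A := by
  have e : (fun x => A.indicator (fun _ => (1:ℝ)) x * md μ W A x) = fun x =>
      A.indicator (fun _ => (1:ℝ)) x * (fun w => 1 - q μ W A w) (W x) := by
    funext x
    by_cases hx : x ∈ A <;> simp [md, hx]
  rw [e, int_ind μ hW hA (fun w => 1 - q μ W A w)]
  refine Finset.sum_congr rfl fun w _ => ?_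
  rw [← mul_q, mul_assoc]

lemma sq_err {W : Ω → β} (hW : Measurable W) {A : Set Ω} (hA : MeasurableSet A) (h : β → ℝ) :
    ∫ x, (A.indicator (fun _ => (1:ℝ)) x - h (W x)) ^ 2 ∂μ =
      ∑ w, μ.real (W ⁻¹' {w}) * (q μ W A w * (1 - 2 * h w) + h w ^ 2) := by
  have e : (fun x => (A.indicator (fun _ => (1:ℝ)) x - h (W x)) ^ 2) = fun x =>
      A.indicator (fun _ => (1:ℝ)) x * (fun w => 1 - 2 * h w) (W x) + (fun w => h w ^ 2) (W x) := by
    funext x
    by_cases hx : x ∈ A <;> simp [hx]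
    ring
  rw [e, integral_add (intble_ind μ hW hA (fun w => 1 - 2 * h w)) (intble_comp μ hW (fun w => h w ^ 2)),
    int_ind μ hW hA (fun w => 1 - 2 * h w), int_comp μ hW (fun w => h w ^ 2),
    ← Finset.sum_add_distrib]
  refine Finset.sum_congr rfl fun w _ => ?_
  rw [← mul_q]; ring

lemma v_mono {β' : Type} [Fintype β'] [MeasurableSpace β'] [MeasurableSingletonClass β']
    {W : Ω → β} (hW : Measurable W) {A : Set Ω} (hA : MeasurableSet A) (φ : β → β') :
    v μ W A ≤ v μ (fun x => φ (W x)) A := by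
  have hW' : Measurable fun x => φ (W x) := (measurable_of_countable φ).comp hW
  have h1 := sq_err μ hW' hA (q μ (fun x => φ (W x)) A)
  have h2 := sq_err μ hW hA (fun w => q μ (fun x => φ (W x)) A (φ w))
  have h3 : v μ (fun x => φ (W x)) A = ∑ w, μ.real ((fun x => φ (W x)) ⁻¹' {w}) *
      (q μ (fun x => φ (W x)) A w * (1 - 2 * q μ (fun x => φ (W x)) A w) +
        q μ (fun x => φ (W x)) A w ^ 2) :=
    Finset.sum_congr rfl fun w _ => by ring
  rw [h3, ← h1, h2]
  refine Finset.sum_le_sum fun w _ => mul_le_mul_of_nonneg_left ?_ measureReal_nonneg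
  nlinarith [sq_nonneg (q μ W A w - q μ (fun x => φ (W x)) A (φ w))]

omit [IsProbabilityMeasure μ] in
lemma v_inv {W : Ω → β} (hW : Measurable W) {A : Set Ω} (hA : MeasurableSet A) {T : Ω → Ω}
    (hT : MeasurePreserving T μ μ) : v μ (fun x => W (T x)) (T ⁻¹' A) = v μ W A := by
  have e1 (w : β) : μ.real ((fun x => W (T x)) ⁻¹' {w}) = μ.real (W ⁻¹' {w}) :=
    hT.measureReal_preimage (hW (measurableSet_singleton w)).nullMeasurableSet
  have e2 (w : β) : μ.real ((fun x => W (T x)) ⁻¹' {w} ∩ T ⁻¹' A) = μ.real (W ⁻¹' {w} ∩ A) :=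
    hT.measureReal_preimage ((hW (measurableSet_singleton w)).inter hA).nullMeasurableSet
  simp only [v, q, e1, e2]

omit [MeasurableSpace β] [MeasurableSingletonClass β] in
lemma v_nonneg (W : Ω → β) (A : Set Ω) : 0 ≤ v μ W A :=
  Finset.sum_nonneg fun w _ => mul_nonneg measureReal_nonneg
    (mul_nonneg (q_mem μ W A w).1 (sub_nonneg.2 (q_mem μ W A w).2))

lemma nml_le {ε : ℝ} (hε : 0 < ε) : ∃ C : ℝ, 0 ≤ C ∧ ∀ t : ℝ, 0 ≤ t → t ≤ 1 →
    Real.negMulLog t ≤ ε + C * (t * (1 - t)) := by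
  obtain ⟨δ, hδ, h⟩ := Metric.continuousAt_iff.1 (Real.continuous_negMulLog.continuousAt (x := 0)) ε hε
  refine ⟨1 / δ, by positivity, fun t h0 h1 => ?_⟩
  have hp : 0 ≤ 1 / δ * (t * (1 - t)) := mul_nonneg (by positivity) (mul_nonneg h0 (by linarith))
  by_cases c : t < δ
  · have := h (x := t) (by rwa [Real.dist_eq, sub_zero, abs_of_nonneg h0])
    rw [Real.dist_eq, Real.negMulLog_zero, sub_zero] at this
    linarith [le_abs_self (Real.negMulLog t)]
  · push Not at c
    have := Real.negMulLog_le_one_sub_self h0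
    have h2 : 1 - t ≤ 1 / δ * (t * (1 - t)) := by
      rw [div_mul_eq_mul_div, le_div_iff₀ hδ]
      nlinarith
    linarith

lemma ent_step {γ : Type} [Fintype γ] [MeasurableSpace γ] [MeasurableSingletonClass γ]
    {ε C : ℝ} (hC : ∀ t : ℝ, 0 ≤ t → t ≤ 1 → Real.negMulLog t ≤ ε + C * (t * (1 - t)))
    {W : Ω → β} (hW : Measurable W) {Z : Ω → γ} (hZ : Measurable Z) :
    ∑ w, ∑ a, Real.negMulLog (μ.real (W ⁻¹' {w} ∩ Z ⁻¹' {a})) ≤
      ∑ w, Real.negMulLog (μ.real (W ⁻¹' {w})) + Fintype.card γ * ε +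
        C * ∑ a, v μ W (Z ⁻¹' {a}) := by
  have h1 : ∑ w, μ.real (W ⁻¹' {w}) = 1 := by
    simpa using (int_comp μ hW fun _ => 1).symm
  have h2 (w : β) : ∑ a, μ.real (W ⁻¹' {w} ∩ Z ⁻¹' {a}) = μ.real (W ⁻¹' {w}) := by
    have := int_ind μ hZ (hW (measurableSet_singleton w)) fun _ => 1
    simp only [mul_one] at this
    rw [integral_indicator_const _ (hW (measurableSet_singleton w)), smul_eq_mul, mul_one] at this
    rw [this]
    exact Finset.sum_congr rfl fun a _ => by rw [inter_comm]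
  have h3 (w : β) : ∑ a, Real.negMulLog (μ.real (W ⁻¹' {w} ∩ Z ⁻¹' {a})) ≤
      Real.negMulLog (μ.real (W ⁻¹' {w})) + μ.real (W ⁻¹' {w}) * (Fintype.card γ * ε) +
        C * ∑ a, μ.real (W ⁻¹' {w}) * (q μ W (Z ⁻¹' {a}) w * (1 - q μ W (Z ⁻¹' {a}) w)) := by
    have e1 : ∑ a, q μ W (Z ⁻¹' {a}) w * Real.negMulLog (μ.real (W ⁻¹' {w})) =
        Real.negMulLog (μ.real (W ⁻¹' {w})) := by
      by_cases h : μ.real (W ⁻¹' {w}) = 0
      · simp [h]
      · rw [← Finset.sum_mul]
        simp only [q]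
        rw [← Finset.sum_div, h2, div_self h, one_mul]
    simp only [← mul_q, Real.negMulLog_mul, Finset.sum_add_distrib, e1]
    rw [add_assoc]
    refine add_le_add le_rfl ?_
    have : μ.real (W ⁻¹' {w}) * (Fintype.card γ * ε) = ∑ _a : γ, μ.real (W ⁻¹' {w}) * ε := by
      simp; ring
    rw [this, Finset.mul_sum, ← Finset.sum_add_distrib]
    refine Finset.sum_le_sum fun a _ => ?_
    have := mul_le_mul_of_nonneg_left (hC _ (q_mem μ W (Z ⁻¹' {a}) w).1 (q_mem μ W (Z ⁻¹' {a}) w).2)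
      (measureReal_nonneg (μ := μ) (s := W ⁻¹' {w}))
    linarith
  refine (Finset.sum_le_sum fun w _ => h3 w).trans (le_of_eq ?_)
  rw [Finset.sum_add_distrib, Finset.sum_add_distrib, ← Finset.sum_mul, h1, one_mul,
    ← Finset.mul_sum, Finset.sum_comm]
  rfl

end

lemma pos_lower {γ : Type} [Fintype γ] (H : ℕ → ℝ) (V : ℕ → γ → ℝ) {c : ℝ} (hc : 0 < c)
    (hH : ∀ n : ℕ, c * n ≤ H n) (hV : ∀ k a, V (k + 1) a ≤ V k a)
    (hs : ∀ ε > 0, ∃ C : ℝ, 0 ≤ C ∧ ∀ k, H (k + 1) ≤ H k + Fintype.card γ * ε + C * ∑ a, V k a) :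
    ∃ a, ∃ α > 0, ∀ k, α ≤ V k a := by
  by_contra hn
  push Not at hn
  have hm : (0:ℝ) < Fintype.card γ + 1 := by positivity
  obtain ⟨C, hC, h⟩ := hs (c / 4 / (Fintype.card γ + 1)) (by positivity)
  have hα : 0 < c / 4 / (Fintype.card γ + 1) / (C + 1) := by positivity
  choose K hK using fun a => hn a _ hα
  obtain ⟨K0, hK0⟩ := (Set.finite_range K).bddAbove
  have h1 (k : ℕ) (hk : K0 ≤ k) : H (k + 1) ≤ H k + c / 2 := by
    have a1 : ∑ a, V k a ≤ ∑ _a : γ, c / 4 / (Fintype.card γ + 1) / (C + 1) :=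
      Finset.sum_le_sum fun a _ =>
        (antitone_nat_of_succ_le (f := fun k => V k a) (fun k => hV k a)
          ((hK0 ⟨a, rfl⟩).trans hk)).trans (hK a).le
    simp only [Finset.sum_const, Finset.card_univ, nsmul_eq_mul] at a1
    have a2 : (Fintype.card γ : ℝ) * (c / 4 / (Fintype.card γ + 1)) ≤ c / 4 := by
      rw [← mul_div_assoc, div_le_iff₀ hm]; nlinarith
    have a3 : C * ((Fintype.card γ : ℝ) * (c / 4 / (Fintype.card γ + 1) / (C + 1))) ≤ c / 4 := by
      rw [← mul_div_assoc, ← mul_div_assoc, div_le_iff₀ (by positivity)]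
      have : 0 ≤ (Fintype.card γ : ℝ) * (c / 4 / (Fintype.card γ + 1)) := by positivity
      nlinarith
    have := h k
    have := mul_le_mul_of_nonneg_left a1 hC
    linarith
  have h2 (j : ℕ) : H (K0 + j) ≤ H K0 + c / 2 * j := by
    induction j with
    | zero => simp
    | succ j ih =>
      have := h1 (K0 + j) (by omega)
      rw [← add_assoc]
      push_cast
      linarith
  obtain ⟨j, hj⟩ := exists_nat_gt (H K0 / (c / 2))
  rw [div_lt_iff₀ (by positivity)] at hj
  have := hH (K0 + j)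
  have := h2 j
  have : 0 ≤ c * K0 := by positivity
  push_cast at *
  linarith

end Pool.Agent.Lib.helper23.Join
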