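import Pool.Agent.Lib.helper23.JoinA

set_option autoImplicit false
open MeasureTheory Set Filter Topology

namespace Pool.Agent.Lib.helper23.Join

abbrev X : Type := ℕ → ℕ

abbrev sh : X → X := fun x n => x (n + 1)

lemma sh_cont : Continuous sh := continuous_pi fun n => continuous_apply (n + 1)

lemma sh_iter (s : ℕ) (x : X) (i : ℕ) : sh^[s] x i = x (i + s) := by
  induction s generalizing x with
  | zero => rfl
  | succ s ih => rw [Function.iterate_succ_apply, ih]; rfl

lemma averaging (μ ν : Measure X) [IsProbabilityMeasure μ] [IsProbabilityMeasure ν]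
    (hμ : MeasurePreserving sh μ μ) (hν : MeasurePreserving sh ν ν)
    (η : ℕ → Measure (X × X)) (h1 : ∀ N, (η N).map Prod.fst = μ) (h2 : ∀ N, (η N).map Prod.snd = ν)
    {C : Set (X × X)} (hC : IsClosed C) (r : ENNReal)
    (hr : ∀ N n, n ≤ N → r ≤ η N ((Prod.map sh sh)^[n] ⁻¹' C)) :
    ∃ ξ : Measure (X × X), IsProbabilityMeasure ξ ∧ MeasurePreserving (Prod.map sh sh) ξ ξ ∧
      ξ.map Prod.fst = μ ∧ ξ.map Prod.snd = ν ∧ r ≤ ξ C := by
  have hS : Continuous (Prod.map sh sh) := sh_cont.prodMap sh_cont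
  have hSm : Measurable (Prod.map sh sh) := hS.measurable
  have hP (N : ℕ) : IsProbabilityMeasure (η N) := ⟨by
    have := congrArg (fun m : Measure X => m univ) (h1 N)
    simpa [Measure.map_apply measurable_fst] using this⟩
  let a : ℕ → Measure (X × X) := fun N =>
    ((N + 1 : ℕ) : ENNReal)⁻¹ • ∑ n ∈ Finset.range (N + 1), (η N).map (Prod.map sh sh)^[n]
  have hc (N : ℕ) (t : ENNReal) : ((N + 1 : ℕ) : ENNReal)⁻¹ * (((N + 1 : ℕ) : ENNReal) * t) = t := by
    rw [← mul_assoc, ENNReal.inv_mul_cancel (by simp) (by simp), one_mul]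
  have ha (N : ℕ) {E : Set (X × X)} (hE : MeasurableSet E) : a N E =
      ((N + 1 : ℕ) : ENNReal)⁻¹ * ∑ n ∈ Finset.range (N + 1), η N ((Prod.map sh sh)^[n] ⁻¹' E) := by
    simp only [a, Measure.smul_apply, Measure.finsetSum_apply, smul_eq_mul,
      Measure.map_apply (hSm.iterate _) hE]
  have a1 (N : ℕ) : (a N).map Prod.fst = μ := by
    ext E hE
    rw [Measure.map_apply measurable_fst hE, ha N (measurable_fst hE)]
    have (n : ℕ) : η N ((Prod.map sh sh)^[n] ⁻¹' (Prod.fst ⁻¹' E)) = μ E := by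
      rw [← (hμ.iterate n).measure_preimage hE.nullMeasurableSet, ← h1 N,
        Measure.map_apply measurable_fst (sh_cont.measurable.iterate n hE), Prod.map_iterate]
      rfl
    simp only [this, Finset.sum_const, Finset.card_range, nsmul_eq_mul, hc]
  have a2 (N : ℕ) : (a N).map Prod.snd = ν := by
    ext E hE
    rw [Measure.map_apply measurable_snd hE, ha N (measurable_snd hE)]
    have (n : ℕ) : η N ((Prod.map sh sh)^[n] ⁻¹' (Prod.snd ⁻¹' E)) = ν E := by
      rw [← (hν.iterate n).measure_preimage hE.nullMeasurableSet, ← h2 N,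
        Measure.map_apply measurable_snd (sh_cont.measurable.iterate n hE), Prod.map_iterate]
      rfl
    simp only [this, Finset.sum_const, Finset.card_range, nsmul_eq_mul, hc]
  have aP (N : ℕ) : IsProbabilityMeasure (a N) := ⟨by
    have := congrArg (fun m : Measure X => m univ) (a1 N)
    simpa [Measure.map_apply measurable_fst] using this⟩
  let P : ℕ → ProbabilityMeasure (X × X) := fun N => ⟨a N, aP N⟩
  have hK : IsCompact (closure (range P)) := by
    refine isCompact_closure_of_isTightMeasureSet (IsTightMeasureSet.prodMk ?_ ?_)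
    · refine (isTightMeasureSet_singleton (μ := μ)).subset ?_
      rintro _ ⟨_, ⟨_, ⟨N, rfl⟩, rfl⟩, rfl⟩
      exact a1 N
    · refine (isTightMeasureSet_singleton (μ := ν)).subset ?_
      rintro _ ⟨_, ⟨_, ⟨N, rfl⟩, rfl⟩, rfl⟩
      exact a2 N
  let U : Ultrafilter ℕ := Ultrafilter.of atTop
  have hU : (U : Filter ℕ) ≤ atTop := Ultrafilter.of_le _
  obtain ⟨ξ, -, hξ⟩ := hK.ultrafilter_le_nhds (U.map P) (by
    rw [Ultrafilter.coe_map, le_principal_iff, mem_map]
    exact univ_mem' fun N => subset_closure ⟨N, rfl⟩)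
  have hξ' : Tendsto P U (𝓝 ξ) := hξ
  refine ⟨ξ, inferInstance, ⟨hSm, ?_⟩, ?_, ?_, ?_⟩
  · have : IsProbabilityMeasure ((ξ : Measure (X × X)).map (Prod.map sh sh)) :=
      Measure.isProbabilityMeasure_map hSm.aemeasurable
    refine ext_of_forall_integral_eq_of_IsFiniteMeasure fun φ => ?_
    rw [integral_map hSm.aemeasurable φ.continuous.aestronglyMeasurable]
    have t1 := ProbabilityMeasure.tendsto_iff_forall_integral_tendsto.1 hξ' φ
    have t2 := ProbabilityMeasure.tendsto_iff_forall_integral_tendsto.1 hξ'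
      (φ.compContinuous ⟨_, hS⟩)
    have e (N : ℕ) (ψ : BoundedContinuousFunction (X × X) ℝ) : ∫ p, ψ p ∂(a N) =
        ((N : ℝ) + 1)⁻¹ * ∑ n ∈ Finset.range (N + 1), ∫ p, ψ ((Prod.map sh sh)^[n] p) ∂(η N) := by
      simp only [a]
      rw [integral_smul_measure, integral_finsetSum_measure fun n _ => by
        have : IsProbabilityMeasure ((η N).map (Prod.map sh sh)^[n]) :=
          Measure.isProbabilityMeasure_map (hSm.iterate n).aemeasurable
        exact ψ.integrable _]
      simp only [integral_map (hSm.iterate _).aemeasurable ψ.continuous.aestronglyMeasurable]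
      rw [smul_eq_mul, ENNReal.toReal_inv, ENNReal.toReal_natCast]
      push_cast
      rfl
    have t3 : Tendsto (fun N => ∫ p, (φ.compContinuous ⟨_, hS⟩) p ∂(a N) - ∫ p, φ p ∂(a N)) atTop
        (𝓝 0) := by
      have hb (N n : ℕ) : |∫ p, φ ((Prod.map sh sh)^[n] p) ∂(η N)| ≤ ‖φ‖ := by
        rw [← Real.norm_eq_abs]
        simpa using norm_integral_le_of_norm_le_const (μ := η N) (C := ‖φ‖)
          (f := fun p => φ ((Prod.map sh sh)^[n] p)) (Eventually.of_forall fun p => φ.norm_coe_le_norm _)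
      refine squeeze_zero_norm (a := fun N : ℕ => (2 * ‖φ‖) * (1 / ((N : ℝ) + 1))) (fun N => ?_) (by
        simpa using tendsto_one_div_add_atTop_nhds_zero_nat.const_mul (2 * ‖φ‖))
      rw [e, e, ← mul_sub, ← Finset.sum_sub_distrib]
      have : ∑ n ∈ Finset.range (N + 1), (∫ p, (φ.compContinuous ⟨_, hS⟩) ((Prod.map sh sh)^[n] p) ∂(η N)
          - ∫ p, φ ((Prod.map sh sh)^[n] p) ∂(η N)) =
          ∫ p, φ ((Prod.map sh sh)^[N + 1] p) ∂(η N) - ∫ p, φ ((Prod.map sh sh)^[0] p) ∂(η N) := by
        rw [← Finset.sum_range_sub (fun n => ∫ p, φ ((Prod.map sh sh)^[n] p) ∂(η N))]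
        refine Finset.sum_congr rfl fun n _ => ?_
        simp only [Function.iterate_succ_apply']
        rfl
      rw [this, Real.norm_eq_abs, abs_mul, abs_of_pos (by positivity), mul_comm, one_div]
      refine mul_le_mul_of_nonneg_right ?_ (by positivity)
      linarith [abs_sub (∫ p, φ ((Prod.map sh sh)^[N + 1] p) ∂(η N))
        (∫ p, φ ((Prod.map sh sh)^[0] p) ∂(η N)), hb N (N + 1), hb N 0]
    have := tendsto_nhds_unique (t2.sub t1) (t3.mono_left hU)
    exact sub_eq_zero.1 this
  · have t := ProbabilityMeasure.tendsto_map_of_tendsto_of_continuous P ξ hξ' continuous_fst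
    let m : ProbabilityMeasure X := ⟨μ, inferInstance⟩
    have e (N : ℕ) : (P N).map continuous_fst.measurable.aemeasurable = m :=
      Subtype.ext (a1 N)
    simp only [e] at t
    have := tendsto_nhds_unique t (tendsto_const_nhds (x := m))
    exact congrArg Subtype.val this
  · have t := ProbabilityMeasure.tendsto_map_of_tendsto_of_continuous P ξ hξ' continuous_snd
    let m : ProbabilityMeasure X := ⟨ν, inferInstance⟩
    have e (N : ℕ) : (P N).map continuous_snd.measurable.aemeasurable = m :=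
      Subtype.ext (a2 N)
    simp only [e] at t
    have := tendsto_nhds_unique t (tendsto_const_nhds (x := m))
    exact congrArg Subtype.val this
  · refine le_trans ?_ (ProbabilityMeasure.limsup_measure_closed_le_of_tendsto hξ' hC)
    refine le_limsup_of_frequently_le (Frequently.of_forall fun N => ?_)
    show r ≤ a N C
    rw [ha N hC.measurableSet, ← hc N r]
    refine mul_le_mul_right ?_ _
    have := Finset.sum_le_sum (s := Finset.range (N + 1)) fun n hn =>
      hr N n (Nat.lt_succ_iff.1 (Finset.mem_range.1 hn))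
    simpa using this

lemma expand (μ ν : Measure X) [IsProbabilityMeasure μ] [IsProbabilityMeasure ν]
    (M M' : ℕ → X → ℝ) (hM : ∀ s, Measurable (M s)) (hM' : ∀ s, Measurable (M' s))
    (hb : ∀ s x, |M s x| ≤ 1) (hb' : ∀ s x, |M' s x| ≤ 1) (T : Finset ℕ)
    {E E' : Set X} (hE : MeasurableSet E) (hE' : MeasurableSet E') :
    ((μ.prod ν).withDensity fun p => ENNReal.ofReal (∏ s ∈ T, (1 + M s p.1 * M' s p.2))) (E ×ˢ E') =
      ENNReal.ofReal (∑ t ∈ T.powerset,
        (∫ x, E.indicator (fun _ => (1:ℝ)) x * ∏ s ∈ t, M s x ∂μ) *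
        (∫ y, E'.indicator (fun _ => (1:ℝ)) y * ∏ s ∈ t, M' s y ∂ν)) := by
  have I (κ : Measure X) [IsProbabilityMeasure κ] (M : ℕ → X → ℝ) (hM : ∀ s, Measurable (M s))
      (hb : ∀ s x, |M s x| ≤ 1) {E : Set X} (hE : MeasurableSet E) (t : Finset ℕ) :
      Integrable (fun x => E.indicator (fun _ => (1:ℝ)) x * ∏ s ∈ t, M s x) κ := by
    refine Integrable.of_bound ((measurable_const.indicator hE).mul
      (Finset.measurable_prod _ fun s _ => hM s)).aestronglyMeasurable 1
      (Eventually.of_forall fun x => ?_)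
    have : |∏ s ∈ t, M s x| ≤ 1 := by
      rw [Finset.abs_prod]
      exact Finset.prod_le_one (fun s _ => abs_nonneg _) fun s _ => hb s x
    by_cases hx : x ∈ E
    · rwa [indicator_of_mem hx, one_mul]
    · simp [hx]
  have e (p : X × X) : (E ×ˢ E').indicator (fun p => ∏ s ∈ T, (1 + M s p.1 * M' s p.2)) p =
      ∑ t ∈ T.powerset, (E.indicator (fun _ => (1:ℝ)) p.1 * ∏ s ∈ t, M s p.1) *
        (E'.indicator (fun _ => (1:ℝ)) p.2 * ∏ s ∈ t, M' s p.2) := by
    by_cases h1 : p.1 ∈ E <;> by_cases h2 : p.2 ∈ E' <;>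
      simp [indicator, h1, h2, Finset.prod_one_add, Finset.prod_mul_distrib]
  have hi : Integrable ((E ×ˢ E').indicator fun p : X × X => ∏ s ∈ T, (1 + M s p.1 * M' s p.2))
      (μ.prod ν) := by
    rw [funext e]
    exact integrable_finsetSum _ fun t _ => (I μ M hM hb hE t).mul_prod (I ν M' hM' hb' hE' t)
  rw [withDensity_apply _ (hE.prod hE'), ← lintegral_indicator (hE.prod hE')]
  have e2 : (E ×ˢ E').indicator (fun p : X × X => ENNReal.ofReal (∏ s ∈ T, (1 + M s p.1 * M' s p.2))) =
      fun p => ENNReal.ofReal ((E ×ˢ E').indicator (fun p => ∏ s ∈ T, (1 + M s p.1 * M' s p.2)) p) := by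
    funext p
    by_cases h : p ∈ E ×ˢ E' <;> simp [h]
  rw [e2, ← ofReal_integral_eq_lintegral_ofReal hi (Eventually.of_forall fun p => ?_)]
  · congr 1
    rw [funext e, integral_finsetSum _ fun t _ => (I μ M hM hb hE t).mul_prod (I ν M' hM' hb' hE' t)]
    exact Finset.sum_congr rfl fun t _ => integral_prod_mul (L := ℝ)
      (fun x => E.indicator (fun _ => (1:ℝ)) x * ∏ s ∈ t, M s x)
      (fun y => E'.indicator (fun _ => (1:ℝ)) y * ∏ s ∈ t, M' s y)
  · refine indicator_nonneg (fun p _ => Finset.prod_nonneg fun s _ => ?_) p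
    have h1 : |M s p.1 * M' s p.2| ≤ 1 := by
      rw [abs_mul]
      exact mul_le_one₀ (hb s p.1) (abs_nonneg _) (hb' s p.2)
    linarith [neg_abs_le (M s p.1 * M' s p.2)]

end Pool.Agent.Lib.helper23.Join
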