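import Pool.Agent.Lib.helper23.JoinB

set_option autoImplicit false
open MeasureTheory Set Filter Topology

namespace Pool.Agent.Lib.helper23.Join

def W {m : ℕ} (f : ℕ → Fin m) (j k : ℕ) (x : X) : Fin k → Fin m := fun i => f (x (i + j))

def Z {m : ℕ} (f : ℕ → Fin m) (k : ℕ) (x : X) : Fin m := f (x k)

lemma Z_meas {m : ℕ} (f : ℕ → Fin m) (k : ℕ) : Measurable (Z f k) :=
  (measurable_of_countable f).comp (measurable_pi_apply k)

lemma W_meas {m : ℕ} (f : ℕ → Fin m) (j k : ℕ) : Measurable (W f j k) :=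
  measurable_pi_lambda _ fun i => Z_meas f (i + j)

noncomputable def Hn (μ : Measure X) {m : ℕ} (f : ℕ → Fin m) (n : ℕ) : ℝ :=
  ∑ w : Fin n → Fin m, Real.negMulLog (μ.real (W f 0 n ⁻¹' {w}))

lemma Hn_eq (μ : Measure X) {m : ℕ} (f : ℕ → Fin m) (n : ℕ) : Hn μ f n =
    ∑ w : Fin n → Fin m, Real.negMulLog ((μ {x : ℕ → ℕ | ∀ i : Fin n, f (x i.val) = w i}).toReal) := by
  refine Finset.sum_congr rfl fun w _ => ?_
  have : W f 0 n ⁻¹' {w} = {x : ℕ → ℕ | ∀ i : Fin n, f (x i.val) = w i} := by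
    ext x; simp [W, funext_iff]
  rw [this, Measure.real]

lemma past_lower (μ : Measure X) [IsProbabilityMeasure μ] (hμ : MeasurePreserving sh μ μ)
    {m : ℕ} (f : ℕ → Fin m) {c : ℝ} (hc : 0 < c) (hH : ∀ n : ℕ, c * n ≤ Hn μ f n) :
    ∃ a, ∃ α > 0, ∀ k, α ≤ v μ (W f 0 k) (Z f k ⁻¹' {a}) := by
  refine pos_lower (Hn μ f) (fun k a => v μ (W f 0 k) (Z f k ⁻¹' {a})) hc hH (fun k a => ?_)
    fun ε hε => ?_
  · have h1 := v_mono μ (W_meas f 0 (k + 1)) (Z_meas f (k + 1) (measurableSet_singleton a))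
      (fun w => fun i : Fin k => w i.succ)
    have h2 := v_inv μ (W_meas f 0 k) (Z_meas f k (measurableSet_singleton a)) hμ
    exact h1.trans h2.le
  · obtain ⟨C, hC, h⟩ := nml_le hε
    refine ⟨C, hC, fun k => le_trans (le_of_eq ?_) (ent_step μ h (W_meas f 0 k) (Z_meas f k))⟩
    rw [Hn, ← (Fin.snocEquiv fun _ => Fin m).sum_comp, Fintype.sum_prod_type_right]
    refine Finset.sum_congr rfl fun w _ => Finset.sum_congr rfl fun a _ => ?_
    congr 2
    ext x
    simp [W, Z, funext_iff, Fin.forall_fin_succ']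

lemma future_lower (μ : Measure X) [IsProbabilityMeasure μ] (hμ : MeasurePreserving sh μ μ)
    {m : ℕ} (f : ℕ → Fin m) {c : ℝ} (hc : 0 < c) (hH : ∀ n : ℕ, c * n ≤ Hn μ f n) :
    ∃ a, ∃ α > 0, ∀ k s, α ≤ v μ (W f (s + 1) k) (Z f s ⁻¹' {a}) := by
  have := pos_lower (Hn μ f) (fun k a => v μ (W f 1 k) (Z f 0 ⁻¹' {a})) hc hH (fun k a => ?_)
    fun ε hε => ?_
  · obtain ⟨a, α, hα, h⟩ := this
    refine ⟨a, α, hα, fun k s => (h k).trans (le_of_eq ?_)⟩
    rw [← v_inv μ (W_meas f 1 k) (Z_meas f 0 (measurableSet_singleton a)) (hμ.iterate s)]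
    congr 1
    · funext x i
      simp only [W, sh_iter]
      congr 2
      omega
    · ext x
      simp [Z, sh_iter]
  · exact v_mono μ (W_meas f 1 (k + 1)) (Z_meas f 0 (measurableSet_singleton a))
      (fun w => fun i : Fin k => w i.castSucc)
  · obtain ⟨C, hC, h⟩ := nml_le hε
    refine ⟨C, hC, fun k => ?_⟩
    have e : Hn μ f k = ∑ w, Real.negMulLog (μ.real (W f 1 k ⁻¹' {w})) :=
      Finset.sum_congr rfl fun w _ => by
        rw [← hμ.measureReal_preimage (W_meas f 0 k (measurableSet_singleton w)).nullMeasurableSet]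
        rfl
    rw [e]
    refine le_trans (le_of_eq ?_) (ent_step μ h (W_meas f 1 k) (Z_meas f 0))
    rw [Hn, ← (Fin.consEquiv fun _ => Fin m).sum_comp, Fintype.sum_prod_type_right]
    refine Finset.sum_congr rfl fun w _ => Finset.sum_congr rfl fun a _ => ?_
    congr 2
    ext x
    simp [W, Z, funext_iff, Fin.forall_fin_succ, and_comm]

noncomputable def mP (μ : Measure X) {m : ℕ} (f : ℕ → Fin m) (a : Fin m) (s : ℕ) : X → ℝ :=
  md μ (W f 0 s) (Z f s ⁻¹' {a})

noncomputable def mF (μ : Measure X) {m : ℕ} (f : ℕ → Fin m) (a : Fin m) (N s : ℕ) : X → ℝ :=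
  md μ (W f (s + 1) (N - s)) (Z f s ⁻¹' {a})

lemma zeroP (μ : Measure X) [IsProbabilityMeasure μ] {m : ℕ} (f : ℕ → Fin m) (a : Fin m)
    (t : Finset ℕ) {s : ℕ} (hs : s ∈ t) (hmax : ∀ i ∈ t, i ≤ s) {F : X → ℝ}
    (hF : ∀ x y, (∀ i < s, f (x i) = f (y i)) → F x = F y) :
    ∫ x, F x * ∏ i ∈ t, mP μ f a i x ∂μ = 0 := by
  rw [← md_orth μ (W_meas f 0 s) (Z_meas f s (measurableSet_singleton a))
    (h := fun x => F x * ∏ i ∈ t.erase s, mP μ f a i x)]
  · congr 1
    funext x
    rw [← Finset.mul_prod_erase t _ hs, mP]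
    ring
  · intro x y hxy
    have h (i : ℕ) (hi : i < s) : f (x i) = f (y i) := congrFun hxy ⟨i, hi⟩
    rw [hF x y h]
    congr 1
    refine Finset.prod_congr rfl fun i hi => ?_
    have hi' : i < s := lt_of_le_of_ne (hmax i (Finset.mem_of_mem_erase hi)) (Finset.ne_of_mem_erase hi)
    have e1 : W f 0 i x = W f 0 i y := funext fun j => h _ (by have := j.2; omega)
    simp only [mP, md, e1, indicator, mem_preimage, Z, h i hi']

lemma zeroF (μ : Measure X) [IsProbabilityMeasure μ] {m : ℕ} (f : ℕ → Fin m) (a : Fin m) (N : ℕ)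
    (t : Finset ℕ) {s : ℕ} (hs : s ∈ t) (hmin : ∀ i ∈ t, s ≤ i ∧ i ≤ N) {F : X → ℝ}
    (hF : ∀ x y, (∀ i, s < i → i ≤ N → f (x i) = f (y i)) → F x = F y) :
    ∫ x, F x * ∏ i ∈ t, mF μ f a N i x ∂μ = 0 := by
  rw [← md_orth μ (W_meas f (s + 1) (N - s)) (Z_meas f s (measurableSet_singleton a))
    (h := fun x => F x * ∏ i ∈ t.erase s, mF μ f a N i x)]
  · congr 1
    funext x
    rw [← Finset.mul_prod_erase t _ hs, mF]
    ring
  · intro x y hxy
    have h (i : ℕ) (hi : s < i) (hN : i ≤ N) : f (x i) = f (y i) := by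
      have := congrFun hxy ⟨i - (s + 1), by omega⟩
      simp only [W] at this
      rwa [Nat.sub_add_cancel hi] at this
    rw [hF x y h]
    congr 1
    refine Finset.prod_congr rfl fun i hi => ?_
    have hi0 := hmin i (Finset.mem_of_mem_erase hi)
    have hi' : s < i := lt_of_le_of_ne hi0.1 (Finset.ne_of_mem_erase hi).symm
    have e1 : W f (i + 1) (N - i) x = W f (i + 1) (N - i) y :=
      funext fun j => h _ (by omega) (by have := j.2; omega)
    simp only [mF, md, e1, indicator, mem_preimage, Z, h i hi' hi0.2]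

theorem dependent (μ ν : Measure X) [IsProbabilityMeasure μ] [IsProbabilityMeasure ν]
    (hμ : MeasurePreserving sh μ μ) (hν : MeasurePreserving sh ν ν)
    {m m' : ℕ} (f : ℕ → Fin m) (g : ℕ → Fin m') {c c' : ℝ} (hc : 0 < c) (hc' : 0 < c')
    (hH : ∀ n : ℕ, c * n ≤ Hn μ f n) (hH' : ∀ n : ℕ, c' * n ≤ Hn ν g n) :
    ∃ ξ : Measure (X × X), IsProbabilityMeasure ξ ∧ MeasurePreserving (Prod.map sh sh) ξ ξ ∧
      ξ.map Prod.fst = μ ∧ ξ.map Prod.snd = ν ∧ ∃ a b,
        μ (Z f 0 ⁻¹' {a}) * ν (Z g 0 ⁻¹' {b}) < ξ ((Z f 0 ⁻¹' {a}) ×ˢ (Z g 0 ⁻¹' {b})) := by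
  obtain ⟨a, α, hα, ha⟩ := past_lower μ hμ f hc hH
  obtain ⟨b, β, hβ, hb⟩ := future_lower ν hν g hc' hH'
  have ex (N : ℕ) {E E' : Set X} (hE : MeasurableSet E) (hE' : MeasurableSet E') :=
    expand μ ν (mP μ f a) (mF ν g b N)
      (fun s => md_meas μ (W_meas f 0 s) (Z_meas f s (measurableSet_singleton a)))
      (fun s => md_meas ν (W_meas g _ _) (Z_meas g s (measurableSet_singleton b)))
      (fun s x => md_abs μ _ _ x) (fun s x => md_abs ν _ _ x) (Finset.range (N + 1)) hE hE'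
  have hcl : IsClosed ((Z f 0 ⁻¹' {a}) ×ˢ (Z g 0 ⁻¹' {b})) :=
    ((isClosed_discrete _).preimage ((continuous_of_discreteTopology (f := f)).comp
      (continuous_apply 0))).prod ((isClosed_discrete _).preimage
      ((continuous_of_discreteTopology (f := g)).comp (continuous_apply 0)))
  have H := averaging μ ν hμ hν
    (fun N => (μ.prod ν).withDensity fun p => ENNReal.ofReal
      (∏ s ∈ Finset.range (N + 1), (1 + mP μ f a s p.1 * mF ν g b N s p.2))) (fun N => ?_) (fun N => ?_)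
    hcl (ENNReal.ofReal (μ.real (Z f 0 ⁻¹' {a}) * ν.real (Z g 0 ⁻¹' {b}) + α * β)) fun N n hn => ?_
  · obtain ⟨ξ, h1, h2, h3, h4, h5⟩ := H
    refine ⟨ξ, h1, h2, h3, h4, a, b, lt_of_lt_of_le ?_ h5⟩
    rw [← ofReal_measureReal (μ := μ), ← ofReal_measureReal (μ := ν),
      ← ENNReal.ofReal_mul measureReal_nonneg]
    have := mul_pos hα hβ
    exact (ENNReal.ofReal_lt_ofReal_iff (by positivity)).2 (by linarith)
  · ext E hE
    rw [Measure.map_apply measurable_fst hE, ← prod_univ, ex N hE MeasurableSet.univ,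
      Finset.sum_eq_single ∅]
    · simp [integral_indicator_const _ hE]
    · intro t ht hne
      have hne' := Finset.nonempty_iff_ne_empty.2 hne
      rw [zeroF ν g b N t (t.min'_mem hne') (fun i hi => ⟨t.min'_le i hi,
        Nat.lt_succ_iff.1 (Finset.mem_range.1 (Finset.mem_powerset.1 ht hi))⟩) (by simp), mul_zero]
    · simp
  · ext E hE
    rw [Measure.map_apply measurable_snd hE, ← univ_prod, ex N MeasurableSet.univ hE,
      Finset.sum_eq_single ∅]
    · simp [integral_indicator_const _ hE]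
    · intro t _ hne
      have hne' := Finset.nonempty_iff_ne_empty.2 hne
      rw [zeroP μ f a t (t.max'_mem hne') (fun i hi => t.le_max' i hi) (by simp), zero_mul]
    · simp
  · have e : (Prod.map sh sh)^[n] ⁻¹' ((Z f 0 ⁻¹' {a}) ×ˢ (Z g 0 ⁻¹' {b})) =
        (Z f n ⁻¹' {a}) ×ˢ (Z g n ⁻¹' {b}) := by
      ext p
      simp [Prod.map_iterate, Z, sh_iter]
    have mA := Z_meas f n (measurableSet_singleton a)
    have mB := Z_meas g n (measurableSet_singleton b)
    rw [e, ex N mA mB, Finset.sum_eq_add (∅ : Finset ℕ) {n} (by simp)]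
    · refine ENNReal.ofReal_le_ofReal (add_le_add (le_of_eq ?_) ?_)
      · simp only [Finset.prod_empty, mul_one, integral_indicator_const _ mA,
          integral_indicator_const _ mB, smul_eq_mul]
        rw [← (hμ.iterate n).measureReal_preimage
          (Z_meas f 0 (measurableSet_singleton a)).nullMeasurableSet,
          ← (hν.iterate n).measureReal_preimage
          (Z_meas g 0 (measurableSet_singleton b)).nullMeasurableSet]
        congr 2 <;> ext x <;> simp [Z, sh_iter]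
      · simp only [Finset.prod_singleton, mP, mF]
        rw [md_self μ (W_meas _ _ _) mA, md_self ν (W_meas _ _ _) mB]
        exact mul_le_mul (ha n) (hb _ n) hβ.le (hα.le.trans (ha n))
    · intro t ht hne
      have hne' := Finset.nonempty_iff_ne_empty.2 hne.1
      by_cases c1 : n < t.max' hne'
      · rw [zeroP μ f a t (t.max'_mem hne') (fun i hi => t.le_max' i hi), zero_mul]
        intro x y h
        simp only [indicator, mem_preimage, Z, h n c1]
      by_cases c2 : t.min' hne' < n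
      · rw [zeroF ν g b N t (t.min'_mem hne') (fun i hi => ⟨t.min'_le i hi,
          Nat.lt_succ_iff.1 (Finset.mem_range.1 (Finset.mem_powerset.1 ht hi))⟩), mul_zero]
        intro x y h
        simp only [indicator, mem_preimage, Z, h n c2 hn]
      exfalso
      refine hne.2 (Finset.eq_singleton_iff_nonempty_unique_mem.2 ⟨hne', fun i hi => ?_⟩)
      have := t.le_max' i hi
      have := t.min'_le i hi
      omega
    · simp
    · simp only [Finset.mem_powerset, Finset.singleton_subset_iff, Finset.mem_range, not_lt]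
      omega

end Pool.Agent.Lib.helper23.Join
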