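import Mathlib

set_option autoImplicit false

namespace Pool.Agent.Lib.helper23.JuA

open Finset

section interp
variable {F : Type*} [Field F]

def ev (e : Fin 3 → F) (t : F) : F := e 0 + e 1 * t + e 2 * t ^ 2

lemma interp_ex (a b c y z w : F) (hab : a ≠ b) (hac : a ≠ c) (hbc : b ≠ c) :
    ∃ e : Fin 3 → F, ev e a = y ∧ ev e b = z ∧ ev e c = w := by
  have h1 : a - b ≠ 0 := sub_ne_zero.2 hab
  have h2 : a - c ≠ 0 := sub_ne_zero.2 hac
  have h3 : b - c ≠ 0 := sub_ne_zero.2 hbc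
  set u := y / ((a - b) * (a - c)) with hu
  set v := - z / ((a - b) * (b - c)) with hv
  set s := w / ((a - c) * (b - c)) with hs
  have hy : y = u * ((a - b) * (a - c)) := by rw [hu]; field_simp
  have hz : z = - (v * ((a - b) * (b - c))) := by rw [hv]; field_simp
  have hw : w = s * ((a - c) * (b - c)) := by rw [hs]; field_simp
  refine ⟨![u * b * c + v * a * c + s * a * b, -(u * (b + c) + v * (a + c) + s * (a + b)),
    u + v + s], ?_, ?_, ?_⟩
  · rw [hy]; simp [ev]; ring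
  · rw [hz]; simp [ev]; ring
  · rw [hw]; simp [ev]; ring

lemma interp_uniq (a b c : F) (hab : a ≠ b) (hac : a ≠ c) (hbc : b ≠ c) (e f : Fin 3 → F)
    (h1 : ev e a = ev f a) (h2 : ev e b = ev f b) (h3 : ev e c = ev f c) : e = f := by
  have k1 : a - b ≠ 0 := sub_ne_zero.2 hab
  have k2 : a - c ≠ 0 := sub_ne_zero.2 hac
  have k3 : b - c ≠ 0 := sub_ne_zero.2 hbc
  simp only [ev] at h1 h2 h3
  have e1 : (e 1 - f 1) + (e 2 - f 2) * (a + b) = 0 := by
    apply mul_left_cancel₀ k1; linear_combination h1 - h2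
  have e2 : (e 1 - f 1) + (e 2 - f 2) * (a + c) = 0 := by
    apply mul_left_cancel₀ k2; linear_combination h1 - h3
  have e3 : e 2 - f 2 = 0 := by
    apply mul_left_cancel₀ k3; linear_combination e1 - e2
  have e4 : e 1 - f 1 = 0 := by linear_combination e1 - (a + b) * e3
  have e5 : e 0 - f 0 = 0 := by linear_combination h1 - a * e4 - a ^ 2 * e3
  funext i
  fin_cases i
  · exact sub_eq_zero.1 e5
  · exact sub_eq_zero.1 e4
  · exact sub_eq_zero.1 e3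

def tau (x y z : F) (a b c : Fin 3 → F) : F := ev a (y + z) + ev b (x + z) + ev c (x + y)

end interp

lemma pow_diff_inj (a b c d : ℕ) (hab : a < b) (hcd : c < d)
    (h : 2 ^ b - 2 ^ a = 2 ^ d - 2 ^ c) : a = c ∧ b = d := by
  have h1 : 2 ^ a < 2 ^ b := Nat.pow_lt_pow_right (by norm_num) hab
  have h2 : 2 ^ c < 2 ^ d := Nat.pow_lt_pow_right (by norm_num) hcd
  have key : ∀ a b c d : ℕ, a < b → c < d → 2 ^ b - 2 ^ a = 2 ^ d - 2 ^ c → ¬ b < d := by
    intro a b c d hab hcd h hbd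
    obtain ⟨k, rfl⟩ : ∃ k, d = k + 1 := ⟨d - 1, by omega⟩
    have h1 : 2 ^ b ≤ 2 ^ k := Nat.pow_le_pow_right (by norm_num) (by omega)
    have h2 : 2 ^ c ≤ 2 ^ k := Nat.pow_le_pow_right (by norm_num) (by omega)
    have h3 : 0 < 2 ^ a := by positivity
    have h4 : 2 ^ a < 2 ^ b := Nat.pow_lt_pow_right (by norm_num) hab
    rw [pow_succ] at h
    omega
  have hbd : b = d := by
    have := key a b c d hab hcd h
    have := key c d a b hcd hab h.symm
    omega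
  subst hbd
  refine ⟨?_, rfl⟩
  have : 2 ^ a = 2 ^ c := by omega
  exact Nat.pow_right_injective (le_refl 2) this

def II (V : Finset (ℕ × ℕ × ℕ)) : Finset (ℕ × ℕ) :=
  V.image (fun x : ℕ × ℕ × ℕ => (x.1, x.2.1)) ∩
            V.image (fun x : ℕ × ℕ × ℕ => (x.2.1, x.2.2)) ∩
            V.image (fun x : ℕ × ℕ × ℕ => (x.1 + x.2.1, x.2.2)) ∩
            V.image (fun x : ℕ × ℕ × ℕ => (x.1, x.2.1 + x.2.2))

/-- second stage: from increasing quadruples of codes to gap triples -/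
lemma gaps {A B : Type*} (W : Finset A) (U : Finset B) (c0 c1 c2 c3 : A → ℕ) (t0 t1 t2 : B → ℕ)
    (hW : ∀ w ∈ W, c0 w < c1 w ∧ c1 w < c2 w ∧ c2 w < c3 w)
    (hU : ∀ u ∈ U, ∀ u' ∈ U, t0 u = t0 u' → t1 u = t1 u' → t2 u = t2 u' → u = u')
    (h0 : ∀ u ∈ U, ∃ w ∈ W, c1 w = t0 u ∧ c2 w = t1 u ∧ c3 w = t2 u)
    (h1 : ∀ u ∈ U, ∃ w ∈ W, c0 w = t0 u ∧ c2 w = t1 u ∧ c3 w = t2 u)
    (h2 : ∀ u ∈ U, ∃ w ∈ W, c0 w = t0 u ∧ c1 w = t1 u ∧ c3 w = t2 u)
    (h3 : ∀ u ∈ U, ∃ w ∈ W, c0 w = t0 u ∧ c1 w = t1 u ∧ c2 w = t2 u) :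
    ∃ V : Finset (ℕ × ℕ × ℕ), (∀ x ∈ V, 0 < x.1 ∧ 0 < x.2.1 ∧ 0 < x.2.2) ∧
      V.card ≤ W.card ∧ U.card ≤ (II V).card := by
  classical
  have mono : ∀ a b : ℕ, a < b → 2 ^ a < 2 ^ b := fun a b h =>
    Nat.pow_lt_pow_right (by norm_num) h
  refine ⟨W.image (fun w => (2 ^ c1 w - 2 ^ c0 w, 2 ^ c2 w - 2 ^ c1 w, 2 ^ c3 w - 2 ^ c2 w)),
    ?_, card_image_le, ?_⟩
  · intro x hx
    obtain ⟨w, hw, rfl⟩ := mem_image.1 hx
    obtain ⟨a, b, c⟩ := hW w hw
    have := mono _ _ a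
    have := mono _ _ b
    have := mono _ _ c
    refine ⟨?_, ?_, ?_⟩ <;> simp only <;> omega
  · apply card_le_card_of_injOn (fun u => (2 ^ t1 u - 2 ^ t0 u, 2 ^ t2 u - 2 ^ t1 u))
    · intro u hu
      have hu' : u ∈ U := hu
      simp only [II, coe_inter, Set.mem_inter_iff, mem_coe, mem_image]
      refine ⟨⟨⟨?_, ?_⟩, ?_⟩, ?_⟩
      · obtain ⟨w, hw, a, b, c⟩ := h3 u hu'
        exact ⟨_, ⟨w, hw, rfl⟩, by simp only [a, b, c]⟩
      · obtain ⟨w, hw, a, b, c⟩ := h0 u hu'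
        exact ⟨_, ⟨w, hw, rfl⟩, by simp only [a, b, c]⟩
      · obtain ⟨w, hw, a, b, c⟩ := h1 u hu'
        obtain ⟨a', b', c'⟩ := hW w hw
        have := mono _ _ a'
        have := mono _ _ b'
        refine ⟨_, ⟨w, hw, rfl⟩, ?_⟩
        rw [← a, ← b, ← c]
        ext
        · simp only; omega
        · simp only
      · obtain ⟨w, hw, a, b, c⟩ := h2 u hu'
        obtain ⟨a', b', c'⟩ := hW w hw
        have := mono _ _ c'
        have := mono _ _ b'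
        refine ⟨_, ⟨w, hw, rfl⟩, ?_⟩
        rw [← a, ← b, ← c]
        ext
        · simp only
        · simp only; omega
    · intro u hu u' hu' h
      have hu1 : u ∈ U := hu
      have hu2 : u' ∈ U := hu'
      obtain ⟨w, hw, a, b, c⟩ := h3 u hu1
      obtain ⟨w', hw', a', b', c'⟩ := h3 u' hu2
      obtain ⟨p1, p2, -⟩ := hW w hw
      obtain ⟨q1, q2, -⟩ := hW w' hw'
      simp only [Prod.mk.injEq] at h
      have k1 := pow_diff_inj _ _ _ _ (by omega) (by omega) h.1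
      have k2 := pow_diff_inj _ _ _ _ (by omega) (by omega) h.2
      exact hU u hu1 u' hu2 k1.1 k1.2 k2.2

end Pool.Agent.Lib.helper23.JuA
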