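import Mathlib
import Pool.Agent.Lib.helper23.JuB

set_option autoImplicit false

namespace Pool.Agent.Lib.helper23.JuC

open Finset Pool.Agent.Lib.helper23.JuA Pool.Agent.Lib.helper23.JuB

def ext0 (K : ℕ) (g : Fin K → ℕ) : ℕ → ℕ := fun n => if h : n < K then g ⟨n, h⟩ else 0

open Classical in
noncomputable def box (K : ℕ) (lo hi : ℕ → ℕ) : Finset (ℕ → ℕ) :=
  (Fintype.piFinset (fun i : Fin K => Ioc (lo i) (hi i))).image (ext0 K)

lemma ext0_inj (K : ℕ) : Function.Injective (ext0 K) := by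
  intro g g' h
  funext i
  have := congrFun h i
  simpa [ext0, i.2] using this

lemma mem_box (K : ℕ) (lo hi : ℕ → ℕ) (g : ℕ → ℕ) :
    g ∈ box K lo hi ↔ (∀ n, n < K → lo n < g n ∧ g n ≤ hi n) ∧ ∀ n, K ≤ n → g n = 0 := by
  classical
  unfold box
  rw [mem_image]
  constructor
  · rintro ⟨f, hf, rfl⟩
    rw [Fintype.mem_piFinset] at hf
    refine ⟨fun n hn => ?_, fun n hn => ?_⟩
    · have := mem_Ioc.1 (hf ⟨n, hn⟩)
      simpa [ext0, hn] using this
    · simp [ext0, not_lt.2 hn]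
  · rintro ⟨h1, h2⟩
    refine ⟨fun i => g i, ?_, ?_⟩
    · rw [Fintype.mem_piFinset]
      intro i
      exact mem_Ioc.2 (h1 i i.2)
    · funext n
      by_cases hn : n < K
      · simp [ext0, hn]
      · simp [ext0, hn, h2 n (not_lt.1 hn)]

lemma card_box (K : ℕ) (lo hi : ℕ → ℕ) :
    (box K lo hi).card = ∏ i : Fin K, (hi i - lo i) := by
  classical
  unfold box
  rw [card_image_of_injective _ (ext0_inj K), Fintype.card_piFinset]
  simp

lemma upd_mem (K : ℕ) (lo hi : ℕ → ℕ) (g : ℕ → ℕ) (hg : g ∈ box K lo hi) (a b : ℕ)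
    (ha : a < K) (hb : b < K) (hab : hi b ≤ lo a) :
    Function.update g a (g a - g b) ∈ box K (fun _ => 0) hi ∧ g b < g a := by
  obtain ⟨h1, h2⟩ := (mem_box _ _ _ _).1 hg
  have k1 := h1 a ha
  have k2 := h1 b hb
  refine ⟨(mem_box _ _ _ _).2 ⟨fun n hn => ?_, fun n hn => ?_⟩, by omega⟩
  · by_cases h : n = a
    · subst h
      rw [Function.update_self]
      omega
    · rw [Function.update_of_ne h]
      have := h1 n hn
      omega
  · rw [Function.update_of_ne (by omega)]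
    exact h2 n hn

lemma upd_back (g : ℕ → ℕ) (a b : ℕ) (hab : b ≠ a) (h : g b < g a) :
    Function.update (Function.update g a (g a - g b)) a
      (Function.update g a (g a - g b) a + Function.update g a (g a - g b) b) = g := by
  funext n
  by_cases hn : n = a
  · subst hn
    rw [Function.update_self, Function.update_self, Function.update_of_ne hab]
    omega
  · rw [Function.update_of_ne hn, Function.update_of_ne hn]

lemma tokens (J S K : ℕ) (lo hi : ℕ → ℕ) (hK : S + 2 ^ (J + 1) < K)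
    (hlo : ∀ a b, a < b → b < K → hi b ≤ lo a) :
    ∃ V : Finset (ℕ × ℕ × ℕ), (∀ x ∈ V, 0 < x.1 ∧ 0 < x.2.1 ∧ 0 < x.2.2) ∧
      ∃ M : ℕ, 0 < M ∧ V.card ≤ (S * ((J + 1) * ∏ i : Fin K, hi i)) * M ∧
        ((S - 2 ^ J) * (J * ∏ i : Fin K, (hi i - lo i))) * M ≤ (II V).card := by
  classical
  let Vs : Finset (ℕ × ℕ × (ℕ → ℕ)) := Ioc 0 S ×ˢ (range (J + 1) ×ˢ box K (fun _ => 0) hi)
  let Is : Finset (ℕ × ℕ × (ℕ → ℕ)) := Ioc (2 ^ J) S ×ˢ (Icc 1 J ×ˢ box K lo hi)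
  have memV : ∀ (s j : ℕ) (g : ℕ → ℕ), (s, j, g) ∈ Vs ↔
      (0 < s ∧ s ≤ S) ∧ j ≤ J ∧ g ∈ box K (fun _ => 0) hi := by
    intro s j g
    simp only [Vs, mem_product, mem_Ioc, mem_range, Nat.lt_succ_iff]
  have memI : ∀ (s j : ℕ) (g : ℕ → ℕ), (s, j, g) ∈ Is ↔
      (2 ^ J < s ∧ s ≤ S) ∧ (1 ≤ j ∧ j ≤ J) ∧ g ∈ box K lo hi := by
    intro s j g
    simp only [Is, mem_product, mem_Ioc, mem_Icc]
  have pw : ∀ j, j ≤ J → 0 < 2 ^ j ∧ 2 ^ j ≤ 2 ^ J ∧ 2 ^ (j + 1) = 2 * 2 ^ j := fun j hj =>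
    ⟨by positivity, Nat.pow_le_pow_right (by norm_num) hj, by ring⟩
  have hJ1 : 2 ^ (J + 1) = 2 * 2 ^ J := by ring
  have key := lift' Vs Is
    (fun v => v.2.2 0) (fun v => v.2.2 0 + v.2.2 v.1)
    (fun v => v.2.2 0 + v.2.2 v.1 + v.2.2 (v.1 + 2 ^ v.2.1))
    (fun v => v.2.2 0 + v.2.2 v.1 + v.2.2 (v.1 + 2 ^ v.2.1) + v.2.2 (v.1 + 2 ^ (v.2.1 + 1)))
    (fun v => v.2.2 0) (fun v => v.2.2 0 + v.2.2 v.1)
    (fun v => v.2.2 0 + v.2.2 v.1 + v.2.2 (v.1 + 2 ^ v.2.1))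
    (fun v => (v.1 + 2 ^ v.2.1, v.2.1, Function.update v.2.2 0 (v.2.2 0 + v.2.2 v.1)))
    (fun v => (v.1, v.2.1 + 1,
      Function.update v.2.2 v.1 (v.2.2 v.1 + v.2.2 (v.1 + 2 ^ v.2.1))))
    (fun v => (v.1, v.2.1, Function.update v.2.2 (v.1 + 2 ^ v.2.1)
      (v.2.2 (v.1 + 2 ^ v.2.1) + v.2.2 (v.1 + 2 ^ (v.2.1 + 1)))))
    (fun v => v)
    (by
      rintro ⟨s, j, g⟩ hv
      obtain ⟨⟨hs0, hsS⟩, hj, hg⟩ := (memV s j g).1 hv
      obtain ⟨g1, -⟩ := (mem_box _ _ _ _).1 hg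
      obtain ⟨p1, p2, p3⟩ := pw j hj
      have a1 := (g1 s (by omega)).1
      have a2 := (g1 (s + 2 ^ j) (by omega)).1
      have a3 := (g1 (s + 2 ^ (j + 1)) (by omega)).1
      simp only at a1 a2 a3 ⊢
      omega)
    (by
      rintro ⟨s, j, g⟩ hi'
      obtain ⟨⟨hs0, hsS⟩, ⟨hj1, hj⟩, hg⟩ := (memI s j g).1 hi'
      obtain ⟨p1, p2, p3⟩ := pw j hj
      obtain ⟨r, rfl⟩ : ∃ r, s = r + 2 ^ j := ⟨s - 2 ^ j, by omega⟩
      obtain ⟨m1, m2⟩ := upd_mem K lo hi g hg 0 r (by omega) (by omega)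
        (hlo 0 r (by omega) (by omega))
      refine ⟨(r, j, Function.update g 0 (g 0 - g r)), (memV _ _ _).2 ⟨⟨by omega, by omega⟩, hj, m1⟩,
        ?_, ?_, ?_, ?_⟩
      · simp only
        rw [upd_back g 0 r (by omega) m2]
      · simp only
        rw [Function.update_self, Function.update_of_ne (by omega)]
        omega
      · simp only
        rw [Function.update_self, Function.update_of_ne (by omega),
          Function.update_of_ne (by omega)]
        omega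
      · simp only
        rw [Function.update_self, Function.update_of_ne (by omega),
          Function.update_of_ne (by omega), Function.update_of_ne (by omega),
          show r + 2 ^ (j + 1) = r + 2 ^ j + 2 ^ j by omega]
        omega)
    (by
      rintro ⟨s, j, g⟩ hi'
      obtain ⟨⟨hs0, hsS⟩, ⟨hj1, hj⟩, hg⟩ := (memI s j g).1 hi'
      obtain ⟨k, rfl⟩ : ∃ k, j = k + 1 := ⟨j - 1, by omega⟩
      obtain ⟨p1, p2, p3⟩ := pw k (by omega)
      obtain ⟨p1', p2', p3'⟩ := pw (k + 1) hj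
      obtain ⟨m1, m2⟩ := upd_mem K lo hi g hg s (s + 2 ^ k) (by omega) (by omega)
        (hlo _ _ (by omega) (by omega))
      refine ⟨(s, k, Function.update g s (g s - g (s + 2 ^ k))),
        (memV _ _ _).2 ⟨⟨by omega, by omega⟩, by omega, m1⟩, ?_, ?_, ?_, ?_⟩
      · simp only
        rw [upd_back g s (s + 2 ^ k) (by omega) m2]
      · simp only
        rw [Function.update_of_ne (by omega)]
      · simp only
        rw [Function.update_self, Function.update_of_ne (by omega),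
          Function.update_of_ne (by omega)]
        omega
      · simp only
        rw [Function.update_self, Function.update_of_ne (by omega),
          Function.update_of_ne (by omega), Function.update_of_ne (by omega)]
        omega)
    (by
      rintro ⟨s, j, g⟩ hi'
      obtain ⟨⟨hs0, hsS⟩, ⟨hj1, hj⟩, hg⟩ := (memI s j g).1 hi'
      obtain ⟨p1, p2, p3⟩ := pw j hj
      obtain ⟨m1, m2⟩ := upd_mem K lo hi g hg (s + 2 ^ j) (s + 2 ^ (j + 1)) (by omega) (by omega)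
        (hlo _ _ (by omega) (by omega))
      refine ⟨(s, j, Function.update g (s + 2 ^ j) (g (s + 2 ^ j) - g (s + 2 ^ (j + 1)))),
        (memV _ _ _).2 ⟨⟨by omega, by omega⟩, by omega, m1⟩, ?_, ?_, ?_, ?_⟩
      · simp only
        rw [upd_back g (s + 2 ^ j) (s + 2 ^ (j + 1)) (by omega) m2]
      · simp only
        rw [Function.update_of_ne (by omega)]
      · simp only
        rw [Function.update_of_ne (by omega), Function.update_of_ne (by omega)]
      · simp only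
        rw [Function.update_self, Function.update_of_ne (by omega),
          Function.update_of_ne (by omega), Function.update_of_ne (by omega)]
        omega)
    (by
      rintro ⟨s, j, g⟩ hi'
      obtain ⟨⟨hs0, hsS⟩, ⟨hj1, hj⟩, hg⟩ := (memI s j g).1 hi'
      obtain ⟨p1, p2, p3⟩ := pw j hj
      obtain ⟨g1, g2⟩ := (mem_box _ _ _ _).1 hg
      refine ⟨(s, j, g), (memV _ _ _).2 ⟨⟨by omega, by omega⟩, by omega,
        (mem_box _ _ _ _).2 ⟨fun n hn => ?_, g2⟩⟩, rfl, rfl, rfl, rfl⟩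
      have := g1 n hn
      omega)
  have c1 : Vs.card = S * ((J + 1) * ∏ i : Fin K, hi i) := by
    simp only [Vs, card_product, card_box, Nat.card_Ioc, card_range, Nat.sub_zero]
  have c2 : Is.card = (S - 2 ^ J) * (J * ∏ i : Fin K, (hi i - lo i)) := by
    simp only [Is, card_product, card_box, Nat.card_Ioc, Nat.card_Icc, Nat.add_sub_cancel]
  rw [c1, c2] at key
  exact key

lemma main_nat (J : ℕ) (hJ : 1 ≤ J) :
    ∃ V : Finset (ℕ × ℕ × ℕ), (∀ x ∈ V, 0 < x.1 ∧ 0 < x.2.1 ∧ 0 < x.2.2) ∧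
      ∃ A : ℝ, 0 < A ∧ (V.card : ℝ) ≤ A ∧ (1 - 1 / ((J : ℝ) + 1)) ^ 3 * A ≤ (II V).card := by
  set S := (J + 1) * 2 ^ J with hS
  set K := S + 2 ^ (J + 1) + 1 with hK
  set N := (J + 1) * K with hN
  have hKpos : 0 < K := by rw [hK]; exact Nat.succ_pos _
  have hNpos : 0 < N := by positivity
  obtain ⟨V, hV, M, hM, h1, h2⟩ := tokens J S K (fun l => N ^ (K - 1 - l))
    (fun l => N * N ^ (K - 1 - l)) (by omega) (by
      intro a b hab hb
      rw [← pow_succ']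
      exact Nat.pow_le_pow_right hNpos (by omega))
  set L := ∏ i : Fin K, N ^ (K - 1 - (i : ℕ)) with hL
  have hLpos : 0 < L := prod_pos (fun i _ => by positivity)
  have e1 : ∏ i : Fin K, N * N ^ (K - 1 - (i : ℕ)) = N ^ K * L := by
    rw [prod_mul_distrib, prod_const, card_univ, Fintype.card_fin]
  have e2 : ∏ i : Fin K, (N * N ^ (K - 1 - (i : ℕ)) - N ^ (K - 1 - (i : ℕ))) = (N - 1) ^ K * L := by
    rw [hL, show (N - 1) ^ K = ∏ _i : Fin K, (N - 1) by
      rw [prod_const, card_univ, Fintype.card_fin], ← prod_mul_distrib]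
    refine prod_congr rfl (fun i _ => ?_)
    rw [Nat.sub_mul, one_mul]
  rw [e1] at h1
  rw [e2] at h2
  have e3 : S - 2 ^ J = J * 2 ^ J := by
    rw [hS, add_mul, one_mul, Nat.add_sub_cancel]
  rw [e3] at h2
  have hSpos : 0 < S := by positivity
  refine ⟨V, hV, ((S * ((J + 1) * (N ^ K * L)) * M : ℕ) : ℝ), by positivity, by exact_mod_cast h1, ?_⟩
  refine le_trans ?_ (Nat.cast_le.2 h2)
  have hNr : (0 : ℝ) < N := by exact_mod_cast hNpos
  have hKr : (0 : ℝ) < K := by exact_mod_cast hKpos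
  have hJr : (0 : ℝ) < (J : ℝ) + 1 := by positivity
  have hNe : (N : ℝ) = ((J : ℝ) + 1) * K := by rw [hN]; push_cast; ring
  have hN1 : (1 : ℝ) ≤ N := by exact_mod_cast hNpos
  have bern : 1 + (K : ℝ) * (-(1 / (N : ℝ))) ≤ (1 + (-(1 / (N : ℝ)))) ^ K := by
    apply one_add_mul_le_pow
    have : 1 / (N : ℝ) ≤ 1 := by rw [div_le_one hNr]; exact hN1
    linarith
  have b2 : (1 - 1 / ((J : ℝ) + 1)) * (N : ℝ) ^ K ≤ ((N : ℝ) - 1) ^ K := by
    have t1 : 1 + (K : ℝ) * (-(1 / (N : ℝ))) = 1 - 1 / ((J : ℝ) + 1) := by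
      rw [hNe]; field_simp; ring
    have t2 : ((N : ℝ) - 1) ^ K = (1 + (-(1 / (N : ℝ)))) ^ K * (N : ℝ) ^ K := by
      rw [← mul_pow]; congr 1; field_simp; ring
    rw [t2, ← t1]
    exact mul_le_mul_of_nonneg_right bern (by positivity)
  have t3 : (1 - 1 / ((J : ℝ) + 1)) * ((J : ℝ) + 1) = J := by field_simp; ring
  have hSe : (S : ℝ) = ((J : ℝ) + 1) * 2 ^ J := by rw [hS]; push_cast; ring
  push_cast [Nat.cast_sub hNpos]
  rw [hSe]
  calc (1 - 1 / ((J : ℝ) + 1)) ^ 3 * (((J : ℝ) + 1) * 2 ^ J * (((J : ℝ) + 1) * ((N : ℝ) ^ K * L)) * M)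
      = ((1 - 1 / ((J : ℝ) + 1)) * ((J : ℝ) + 1)) * ((1 - 1 / ((J : ℝ) + 1)) * ((J : ℝ) + 1)) *
          (2 ^ J * L * M) * ((1 - 1 / ((J : ℝ) + 1)) * (N : ℝ) ^ K) := by ring
    _ = ((J : ℝ) * J * (2 ^ J * L * M)) * ((1 - 1 / ((J : ℝ) + 1)) * (N : ℝ) ^ K) := by rw [t3]
    _ ≤ ((J : ℝ) * J * (2 ^ J * L * M)) * ((N : ℝ) - 1) ^ K :=
        mul_le_mul_of_nonneg_left b2 (by positivity)
    _ = _ := by ring

theorem main (ε : ℝ) (hε : 0 < ε) :
    ∃ V : Finset (ℕ × ℕ × ℕ), V.Nonempty ∧ (∀ x ∈ V, 0 < x.1 ∧ 0 < x.2.1 ∧ 0 < x.2.2) ∧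
      (1 - ε) * (V.card : ℝ) ≤ ((II V).card : ℝ) := by
  obtain ⟨J0, hJ0⟩ := exists_nat_ge (3 / ε)
  obtain ⟨V, hV, A, hA, h1, h2⟩ := main_nat (J0 + 1) (by omega)
  set t : ℝ := 1 / (((J0 + 1 : ℕ) : ℝ) + 1) with ht
  have hJr : (0 : ℝ) ≤ J0 := by positivity
  have ht0 : 0 < t := by positivity
  have ht1 : t < 1 := by
    rw [ht, div_lt_one (by positivity)]; push_cast; linarith
  have ht3 : 3 * t ≤ ε := by
    rw [div_le_iff₀ hε] at hJ0
    rw [ht, mul_one_div, div_le_iff₀ (by positivity)]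
    push_cast
    nlinarith
  have hpos : (0 : ℝ) < (II V).card :=
    lt_of_lt_of_le (mul_pos (pow_pos (by linarith) 3) hA) h2
  refine ⟨V, ?_, hV, ?_⟩
  · rw [nonempty_iff_ne_empty]
    rintro rfl
    simp [II] at hpos
  · by_cases h : 1 - ε ≤ 0
    · exact le_trans (mul_nonpos_of_nonpos_of_nonneg h (by positivity)) hpos.le
    · have h' : 0 < 1 - ε := not_le.1 h
      have : 1 - ε ≤ (1 - t) ^ 3 := by nlinarith [mul_pos ht0 ht0, mul_pos (mul_pos ht0 ht0) (sub_pos.2 ht1)]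
      calc (1 - ε) * (V.card : ℝ) ≤ (1 - ε) * A := mul_le_mul_of_nonneg_left h1 h'.le
        _ ≤ (1 - t) ^ 3 * A := mul_le_mul_of_nonneg_right this hA.le
        _ ≤ _ := h2

end Pool.Agent.Lib.helper23.JuC
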