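import Mathlib
import Pool.Agent.Lib.helper23.JvA

set_option autoImplicit false

namespace Pool.Agent.Lib.helper23.JvB

open Finset Pool.Agent.Lib.helper23.JvA

lemma code_lt (m a b e f : ℕ) (hab : a < b) (he : e < m) : a * m + e < b * m + f := by
  have : (a + 1) * m ≤ b * m := Nat.mul_le_mul_right m hab
  nlinarith

lemma code_inj (m a b e f : ℕ) (he : e < m) (hf : f < m) (h : a * m + e = b * m + f) :
    a = b ∧ e = f := by
  have hab : a = b := by
    rcases lt_trichotomy a b with h1 | h1 | h1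
    · have := code_lt m a b e f h1 he; omega
    · exact h1
    · have := code_lt m b a f e h1 hf; omega
  subst hab
  exact ⟨rfl, by omega⟩

lemma lift {Ω F : Type*} [Field F] [Fintype F] (Vs Is : Finset Ω)
    (x0 x1 x2 x3 y0 y1 y2 : Ω → ℕ) (d0 d1 d2 d3 : Ω → Ω) (col : Ω → F)
    (hcol : ∀ i ∈ Is, ∀ j ∈ Is, col i = col j → i = j)
    (hlt : ∀ v ∈ Vs, x0 v < x1 v ∧ x1 v < x2 v ∧ x2 v < x3 v)
    (hne : ∀ v ∈ Vs, (x0 v : F) ≠ x1 v ∧ (x0 v : F) ≠ x2 v ∧ (x0 v : F) ≠ x3 v ∧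
      (x1 v : F) ≠ x2 v ∧ (x1 v : F) ≠ x3 v ∧ (x2 v : F) ≠ x3 v)
    (h0 : ∀ i ∈ Is, ∃ v ∈ Vs, d0 v = i ∧ x1 v = y0 i ∧ x2 v = y1 i ∧ x3 v = y2 i)
    (h1 : ∀ i ∈ Is, ∃ v ∈ Vs, d1 v = i ∧ x0 v = y0 i ∧ x2 v = y1 i ∧ x3 v = y2 i)
    (h2 : ∀ i ∈ Is, ∃ v ∈ Vs, d2 v = i ∧ x0 v = y0 i ∧ x1 v = y1 i ∧ x3 v = y2 i)
    (h3 : ∀ i ∈ Is, ∃ v ∈ Vs, d3 v = i ∧ x0 v = y0 i ∧ x1 v = y1 i ∧ x2 v = y2 i) :
    ∃ V : Finset (ℕ × ℕ × ℕ), (∀ x ∈ V, 0 < x.1 ∧ x.1 < x.2.1 ∧ x.2.1 < x.2.2) ∧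
      ∃ M : ℕ, 0 < M ∧ V.card ≤ Vs.card * M ∧ Is.card * M ≤ (II V).card := by
  classical
  set m := Fintype.card (Fin 3 → F) with hm
  let enc : (Fin 3 → F) → ℕ := fun e => (Fintype.equivFin (Fin 3 → F) e : ℕ)
  have enc_lt : ∀ e, enc e < m := fun e => (Fintype.equivFin (Fin 3 → F) e).2
  have enc_inj : ∀ e f, enc e = enc f → e = f := fun e f h =>
    (Fintype.equivFin (Fin 3 → F)).injective (Fin.ext h)
  let W : Finset (Ω × ((Fin 3 → F) × (Fin 3 → F) × (Fin 3 → F) × (Fin 3 → F))) :=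
    (Vs ×ˢ univ).filter (fun w =>
      tau (x0 w.1 : F) (x1 w.1) (x2 w.1) w.2.1 w.2.2.1 w.2.2.2.1 = col (d3 w.1) ∧
      tau (x0 w.1 : F) (x1 w.1) (x3 w.1) w.2.1 w.2.2.1 w.2.2.2.2 = col (d2 w.1) ∧
      tau (x0 w.1 : F) (x2 w.1) (x3 w.1) w.2.1 w.2.2.2.1 w.2.2.2.2 = col (d1 w.1) ∧
      tau (x1 w.1 : F) (x2 w.1) (x3 w.1) w.2.2.1 w.2.2.2.1 w.2.2.2.2 = col (d0 w.1))
  have memW : ∀ (v : Ω) (a b c d : Fin 3 → F), (v, a, b, c, d) ∈ W ↔ v ∈ Vs ∧
      tau (x0 v : F) (x1 v) (x2 v) a b c = col (d3 v) ∧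
      tau (x0 v : F) (x1 v) (x3 v) a b d = col (d2 v) ∧
      tau (x0 v : F) (x2 v) (x3 v) a c d = col (d1 v) ∧
      tau (x1 v : F) (x2 v) (x3 v) b c d = col (d0 v) := by
    intro v a b c d
    simp only [W, mem_filter, mem_product, mem_univ, and_true]
  let U : Finset (Ω × ((Fin 3 → F) × (Fin 3 → F) × F × F)) := Is ×ˢ univ
  let gam : Ω × ((Fin 3 → F) × (Fin 3 → F) × F × F) → (Fin 3 → F) := fun u =>
    ![col u.1 - ev u.2.1 ((y1 u.1 : F) + y2 u.1) - ev u.2.2.1 ((y0 u.1 : F) + y2 u.1)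
        - u.2.2.2.1 * ((y0 u.1 : F) + y1 u.1) - u.2.2.2.2 * ((y0 u.1 : F) + y1 u.1) ^ 2,
      u.2.2.2.1, u.2.2.2.2]
  have gam_tau : ∀ u, tau (y0 u.1 : F) (y1 u.1) (y2 u.1) u.2.1 u.2.2.1 (gam u) = col u.1 := by
    intro u
    simp only [tau, gam]
    rw [show ev ![col u.1 - ev u.2.1 ((y1 u.1 : F) + y2 u.1) - ev u.2.2.1 ((y0 u.1 : F) + y2 u.1)
        - u.2.2.2.1 * ((y0 u.1 : F) + y1 u.1) - u.2.2.2.2 * ((y0 u.1 : F) + y1 u.1) ^ 2,
      u.2.2.2.1, u.2.2.2.2] ((y0 u.1 : F) + y1 u.1) = (col u.1 - ev u.2.1 ((y1 u.1 : F) + y2 u.1) - ev u.2.2.1 ((y0 u.1 : F) + y2 u.1)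
        - u.2.2.2.1 * ((y0 u.1 : F) + y1 u.1) - u.2.2.2.2 * ((y0 u.1 : F) + y1 u.1) ^ 2) +
          u.2.2.2.1 * ((y0 u.1 : F) + y1 u.1) + u.2.2.2.2 * ((y0 u.1 : F) + y1 u.1) ^ 2 from rfl]
    ring
  have gam1 : ∀ u, gam u 1 = u.2.2.2.1 := fun u => rfl
  have gam2 : ∀ u, gam u 2 = u.2.2.2.2 := fun u => rfl
  obtain ⟨V, hVpos, hVW, hUV⟩ := gaps W U
    (fun w => x0 w.1 * m + enc w.2.1) (fun w => x1 w.1 * m + enc w.2.2.1)
    (fun w => x2 w.1 * m + enc w.2.2.2.1) (fun w => x3 w.1 * m + enc w.2.2.2.2)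
    (fun u => y0 u.1 * m + enc u.2.1) (fun u => y1 u.1 * m + enc u.2.2.1)
    (fun u => y2 u.1 * m + enc (gam u))
    (by
      rintro ⟨v, a, b, c, d⟩ hw
      obtain ⟨p1, p2, p3⟩ := hlt v ((memW v a b c d).1 hw).1
      exact ⟨code_lt _ _ _ _ _ p1 (enc_lt _), code_lt _ _ _ _ _ p2 (enc_lt _),
        code_lt _ _ _ _ _ p3 (enc_lt _)⟩)
    (by
      intro u hu u' hu' e0 e1 e2
      obtain ⟨a0, b0⟩ := code_inj _ _ _ _ _ (enc_lt _) (enc_lt _) e0
      obtain ⟨a1, b1⟩ := code_inj _ _ _ _ _ (enc_lt _) (enc_lt _) e1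
      obtain ⟨a2, b2⟩ := code_inj _ _ _ _ _ (enc_lt _) (enc_lt _) e2
      have c0 := enc_inj _ _ b0
      have c1 := enc_inj _ _ b1
      have c2 := enc_inj _ _ b2
      have k := gam_tau u
      have k' := gam_tau u'
      rw [a0, a1, a2, c0, c1, c2, k'] at k
      have hi : u.1 = u'.1 := hcol _ (mem_product.1 hu).1 _ (mem_product.1 hu').1 k.symm
      have g1 : u.2.2.2.1 = u'.2.2.2.1 := by rw [← gam1 u, ← gam1 u', c2]
      have g2 : u.2.2.2.2 = u'.2.2.2.2 := by rw [← gam2 u, ← gam2 u', c2]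
      exact Prod.ext hi (Prod.ext c0 (Prod.ext c1 (Prod.ext g1 g2))))
    (by
      intro u hu
      obtain ⟨v, hv, hd, e0, e1, e2⟩ := h0 u.1 (mem_product.1 hu).1
      obtain ⟨n01, n02, n03, n12, n13, n23⟩ := hne v hv
      have k := gam_tau u
      rw [← e0, ← e1, ← e2, ← hd] at k
      obtain ⟨η, q1, q2, q3⟩ := interp_ex ((x1 v : F) + x2 v) ((x1 v : F) + x3 v)
        ((x2 v : F) + x3 v)
        (col (d3 v) - ev u.2.1 ((x0 v : F) + x2 v) - ev u.2.2.1 ((x0 v : F) + x1 v))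
        (col (d2 v) - ev u.2.1 ((x0 v : F) + x3 v) - ev (gam u) ((x0 v : F) + x1 v))
        (col (d1 v) - ev u.2.2.1 ((x0 v : F) + x3 v) - ev (gam u) ((x0 v : F) + x2 v))
        (fun h => n23 (by linear_combination h)) (fun h => n13 (by linear_combination h))
        (fun h => n12 (by linear_combination h))
      refine ⟨(v, η, u.2.1, u.2.2.1, gam u), (memW _ _ _ _ _).2 ⟨hv, ?_, ?_, ?_, k⟩, ?_, ?_, ?_⟩
      · simp only [tau]; linear_combination q1
      · simp only [tau]; linear_combination q2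
      · simp only [tau]; linear_combination q3
      · simp only [e0]
      · simp only [e1]
      · simp only [e2])
    (by
      intro u hu
      obtain ⟨v, hv, hd, e0, e1, e2⟩ := h1 u.1 (mem_product.1 hu).1
      obtain ⟨n01, n02, n03, n12, n13, n23⟩ := hne v hv
      have k := gam_tau u
      rw [← e0, ← e1, ← e2, ← hd] at k
      obtain ⟨η, q1, q2, q3⟩ := interp_ex ((x0 v : F) + x2 v) ((x0 v : F) + x3 v)
        ((x2 v : F) + x3 v)
        (col (d3 v) - ev u.2.1 ((x1 v : F) + x2 v) - ev u.2.2.1 ((x0 v : F) + x1 v))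
        (col (d2 v) - ev u.2.1 ((x1 v : F) + x3 v) - ev (gam u) ((x0 v : F) + x1 v))
        (col (d0 v) - ev u.2.2.1 ((x1 v : F) + x3 v) - ev (gam u) ((x1 v : F) + x2 v))
        (fun h => n23 (by linear_combination h)) (fun h => n03 (by linear_combination h))
        (fun h => n02 (by linear_combination h))
      refine ⟨(v, u.2.1, η, u.2.2.1, gam u), (memW _ _ _ _ _).2 ⟨hv, ?_, ?_, k, ?_⟩, ?_, ?_, ?_⟩
      · simp only [tau]; linear_combination q1
      · simp only [tau]; linear_combination q2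
      · simp only [tau]; linear_combination q3
      · simp only [e0]
      · simp only [e1]
      · simp only [e2])
    (by
      intro u hu
      obtain ⟨v, hv, hd, e0, e1, e2⟩ := h2 u.1 (mem_product.1 hu).1
      obtain ⟨n01, n02, n03, n12, n13, n23⟩ := hne v hv
      have k := gam_tau u
      rw [← e0, ← e1, ← e2, ← hd] at k
      obtain ⟨η, q1, q2, q3⟩ := interp_ex ((x0 v : F) + x1 v) ((x0 v : F) + x3 v)
        ((x1 v : F) + x3 v)
        (col (d3 v) - ev u.2.1 ((x1 v : F) + x2 v) - ev u.2.2.1 ((x0 v : F) + x2 v))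
        (col (d1 v) - ev u.2.1 ((x2 v : F) + x3 v) - ev (gam u) ((x0 v : F) + x2 v))
        (col (d0 v) - ev u.2.2.1 ((x2 v : F) + x3 v) - ev (gam u) ((x1 v : F) + x2 v))
        (fun h => n13 (by linear_combination h)) (fun h => n03 (by linear_combination h))
        (fun h => n01 (by linear_combination h))
      refine ⟨(v, u.2.1, u.2.2.1, η, gam u), (memW _ _ _ _ _).2 ⟨hv, ?_, k, ?_, ?_⟩, ?_, ?_, ?_⟩
      · simp only [tau]; linear_combination q1
      · simp only [tau]; linear_combination q2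
      · simp only [tau]; linear_combination q3
      · simp only [e0]
      · simp only [e1]
      · simp only [e2])
    (by
      intro u hu
      obtain ⟨v, hv, hd, e0, e1, e2⟩ := h3 u.1 (mem_product.1 hu).1
      obtain ⟨n01, n02, n03, n12, n13, n23⟩ := hne v hv
      have k := gam_tau u
      rw [← e0, ← e1, ← e2, ← hd] at k
      obtain ⟨η, q1, q2, q3⟩ := interp_ex ((x0 v : F) + x1 v) ((x0 v : F) + x2 v)
        ((x1 v : F) + x2 v)
        (col (d2 v) - ev u.2.1 ((x1 v : F) + x3 v) - ev u.2.2.1 ((x0 v : F) + x3 v))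
        (col (d1 v) - ev u.2.1 ((x2 v : F) + x3 v) - ev (gam u) ((x0 v : F) + x3 v))
        (col (d0 v) - ev u.2.2.1 ((x2 v : F) + x3 v) - ev (gam u) ((x1 v : F) + x3 v))
        (fun h => n12 (by linear_combination h)) (fun h => n02 (by linear_combination h))
        (fun h => n01 (by linear_combination h))
      refine ⟨(v, u.2.1, u.2.2.1, gam u, η), (memW _ _ _ _ _).2 ⟨hv, k, ?_, ?_, ?_⟩, ?_, ?_, ?_⟩
      · simp only [tau]; linear_combination q1
      · simp only [tau]; linear_combination q2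
      · simp only [tau]; linear_combination q3
      · simp only [e0]
      · simp only [e1]
      · simp only [e2])
  refine ⟨V, hVpos, Fintype.card ((Fin 3 → F) × (Fin 3 → F) × F × F), Fintype.card_pos, ?_, ?_⟩
  · refine hVW.trans ?_
    have : (Vs ×ˢ (univ : Finset ((Fin 3 → F) × (Fin 3 → F) × F × F))).card =
        Vs.card * Fintype.card ((Fin 3 → F) × (Fin 3 → F) × F × F) := by
      rw [card_product, card_univ]
    rw [← this]
    apply card_le_card_of_injOn (fun w => (w.1, w.2.1, w.2.2.1, w.2.2.2.1 1, w.2.2.2.1 2))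
    · rintro ⟨v, a, b, c, d⟩ hw
      have := ((memW v a b c d).1 hw).1
      simp only [coe_product, Set.mem_prod, mem_coe, coe_univ, Set.mem_univ, and_true]
      exact this
    · rintro ⟨v, a, b, c, d⟩ hw ⟨v', a', b', c', d'⟩ hw' h
      simp only [Prod.mk.injEq] at h
      obtain ⟨rfl, rfl, rfl, h1', h2'⟩ := h
      obtain ⟨hv, p3, p2, p1, p0⟩ := (memW _ _ _ _ _).1 hw
      obtain ⟨-, q3, q2, q1, q0⟩ := (memW _ _ _ _ _).1 hw'
      obtain ⟨n01, n02, n03, n12, n13, n23⟩ := hne v hv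
      have hc0 : c 0 = c' 0 := by
        simp only [tau, ev] at p3 q3
        rw [h1', h2'] at p3
        linear_combination p3 - q3
      have hc : c = c' := by
        funext i
        fin_cases i
        · exact hc0
        · exact h1'
        · exact h2'
      subst hc
      have hd : d = d' := by
        simp only [tau] at p0 p1 p2 q0 q1 q2
        apply interp_uniq ((x0 v : F) + x1 v) ((x0 v : F) + x2 v) ((x1 v : F) + x2 v)
          (fun h => n12 (by linear_combination h)) (fun h => n02 (by linear_combination h))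
          (fun h => n01 (by linear_combination h))
        · linear_combination p2 - q2
        · linear_combination p1 - q1
        · linear_combination p0 - q0
      rw [hd]
  · refine le_trans (le_of_eq ?_) hUV
    simp only [U]
    rw [card_product, card_univ]

/-- the lifting lemma without the field -/
lemma lift' {Ω : Type*} (Vs Is : Finset Ω)
    (x0 x1 x2 x3 y0 y1 y2 : Ω → ℕ) (d0 d1 d2 d3 : Ω → Ω)
    (hlt : ∀ v ∈ Vs, x0 v < x1 v ∧ x1 v < x2 v ∧ x2 v < x3 v)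
    (h0 : ∀ i ∈ Is, ∃ v ∈ Vs, d0 v = i ∧ x1 v = y0 i ∧ x2 v = y1 i ∧ x3 v = y2 i)
    (h1 : ∀ i ∈ Is, ∃ v ∈ Vs, d1 v = i ∧ x0 v = y0 i ∧ x2 v = y1 i ∧ x3 v = y2 i)
    (h2 : ∀ i ∈ Is, ∃ v ∈ Vs, d2 v = i ∧ x0 v = y0 i ∧ x1 v = y1 i ∧ x3 v = y2 i)
    (h3 : ∀ i ∈ Is, ∃ v ∈ Vs, d3 v = i ∧ x0 v = y0 i ∧ x1 v = y1 i ∧ x2 v = y2 i) :
    ∃ V : Finset (ℕ × ℕ × ℕ), (∀ x ∈ V, 0 < x.1 ∧ x.1 < x.2.1 ∧ x.2.1 < x.2.2) ∧
      ∃ M : ℕ, 0 < M ∧ V.card ≤ Vs.card * M ∧ Is.card * M ≤ (II V).card := by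
  classical
  obtain ⟨p, hp, hpp⟩ := Nat.exists_infinite_primes (Vs.sup x3 + Is.card + 1)
  haveI : Fact p.Prime := ⟨hpp⟩
  have hcast : ∀ a b : ℕ, a < p → b < p → (a : ZMod p) = b → a = b := by
    intro a b ha hb h
    have := (ZMod.natCast_eq_natCast_iff' a b p).1 h
    rwa [Nat.mod_eq_of_lt ha, Nat.mod_eq_of_lt hb] at this
  let col : Ω → ZMod p := fun i => if h : i ∈ Is then ((Is.equivFin ⟨i, h⟩ : ℕ) : ZMod p) else 0
  refine lift (F := ZMod p) Vs Is x0 x1 x2 x3 y0 y1 y2 d0 d1 d2 d3 col ?_ hlt ?_ h0 h1 h2 h3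
  · intro i hi j hj h
    simp only [col, dif_pos hi, dif_pos hj] at h
    have l1 := (Is.equivFin ⟨i, hi⟩).2
    have l2 := (Is.equivFin ⟨j, hj⟩).2
    have := hcast _ _ (by omega) (by omega) h
    have := Is.equivFin.injective (Fin.ext this)
    exact congrArg Subtype.val this
  · intro v hv
    obtain ⟨p1, p2, p3⟩ := hlt v hv
    have : x3 v ≤ Vs.sup x3 := le_sup hv
    refine ⟨fun h => ?_, fun h => ?_, fun h => ?_, fun h => ?_, fun h => ?_, fun h => ?_⟩ <;>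
    · have := hcast _ _ (by omega) (by omega) h
      omega

end Pool.Agent.Lib.helper23.JvB
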