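import Mathlib
import Pool.Agent.Lib.helper23.JvC

set_option autoImplicit false

namespace Pool.Agent.Lib.helper23.JvD

open Finset Pool.Agent.Lib.helper23.JvA

lemma greedy (k : ℕ) : ∀ (V : Finset (ℕ × ℕ × ℕ)), V.card = k →
    (∀ x ∈ V, 0 < x.1 ∧ x.1 < x.2.1 ∧ x.2.1 < x.2.2) → ∀ (a b : ℕ) (I : Finset (ℕ × ℕ)),
    (∀ q ∈ I, ∃ x ∈ V, (x.1, x.2.1) = q) →
    (∀ q ∈ I, q = (a, b) ∨ ∃ x ∈ V, (x.2.1, x.2.2) = q) →
    ∃ l : List ℕ, (∀ y ∈ l, 0 < y) ∧ l.length + 2 * I.card ≤ 3 * V.card ∧
      ∀ x ∈ V, [x.1, x.2.1, x.2.2] <:+: a :: b :: l := by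
  classical
  induction k with
  | zero =>
    intro V hV _ a b I hA _
    rw [card_eq_zero] at hV
    subst hV
    have : I = ∅ := by
      rw [eq_empty_iff_forall_notMem]
      intro q hq
      obtain ⟨x, hx, -⟩ := hA q hq
      simp at hx
    subst this
    exact ⟨[], by simp, by simp, by simp⟩
  | succ k ih =>
    intro V hV hpos a b I hA hB
    by_cases hp : ∃ x ∈ V, (x.1, x.2.1) = (a, b)
    · obtain ⟨⟨v1, v2, c⟩, hv, e⟩ := hp
      simp only [Prod.mk.injEq] at e
      obtain ⟨rfl, rfl⟩ := e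
      have hc : (V.erase (v1, v2, c)).card = k := by rw [card_erase_of_mem hv]; omega
      obtain ⟨l, l1, l2, l3⟩ := ih (V.erase (v1, v2, c)) hc
        (fun x hx => hpos x (mem_of_mem_erase hx)) v2 c (I.erase (v1, v2))
        (by
          intro q hq
          obtain ⟨x, hx, e⟩ := hA q (mem_of_mem_erase hq)
          refine ⟨x, mem_erase.2 ⟨?_, hx⟩, e⟩
          rintro rfl
          exact (ne_of_mem_erase hq) e.symm)
        (by
          intro q hq
          rcases hB q (mem_of_mem_erase hq) with h | ⟨x, hx, e⟩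
          · exact absurd h (ne_of_mem_erase hq)
          · by_cases hxv : x = (v1, v2, c)
            · subst hxv
              exact Or.inl e.symm
            · exact Or.inr ⟨x, mem_erase.2 ⟨hxv, hx⟩, e⟩)
      refine ⟨c :: l, ?_, ?_, ?_⟩
      · intro y hy
        rcases List.mem_cons.1 hy with rfl | hy
        · have := hpos _ hv
          simp only at this
          omega
        · exact l1 y hy
      · have := pred_card_le_card_erase (s := I) (a := (v1, v2))
        rw [List.length_cons]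
        omega
      · intro x hx
        by_cases hxv : x = (v1, v2, c)
        · subst hxv
          exact ⟨[], l, by simp⟩
        · exact List.infix_cons (l3 x (mem_erase.2 ⟨hxv, hx⟩))
    · have hne : V.Nonempty := card_pos.1 (by omega)
      obtain ⟨⟨v1, v2, c⟩, hv, hmin⟩ := exists_min_image V (fun x => x.1) hne
      have hc : (V.erase (v1, v2, c)).card = k := by rw [card_erase_of_mem hv]; omega
      obtain ⟨l, l1, l2, l3⟩ := ih (V.erase (v1, v2, c)) hc
        (fun x hx => hpos x (mem_of_mem_erase hx)) v2 c I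
        (by
          intro q hq
          obtain ⟨x, hx, e⟩ := hA q hq
          refine ⟨x, mem_erase.2 ⟨?_, hx⟩, e⟩
          rintro rfl
          rcases hB q hq with h | ⟨y, hy, e'⟩
          · exact hp ⟨_, hx, e.trans h⟩
          · have h1 := hmin y hy
            have h2 := hpos y hy
            rw [← e'] at e
            simp only [Prod.mk.injEq] at e h1
            omega)
        (by
          intro q hq
          rcases hB q hq with h | ⟨x, hx, e⟩
          · obtain ⟨y, hy, e⟩ := hA q hq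
            exact absurd ⟨y, hy, e.trans h⟩ hp
          · by_cases hxv : x = (v1, v2, c)
            · subst hxv
              exact Or.inl e.symm
            · exact Or.inr ⟨x, mem_erase.2 ⟨hxv, hx⟩, e⟩)
      have hvp := hpos _ hv
      simp only at hvp
      refine ⟨v1 :: v2 :: c :: l, ?_, ?_, ?_⟩
      · intro y hy
        simp only [List.mem_cons] at hy
        rcases hy with rfl | rfl | rfl | hy
        · omega
        · omega
        · omega
        · exact l1 y hy
      · simp only [List.length_cons]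
        omega
      · intro x hx
        by_cases hxv : x = (v1, v2, c)
        · subst hxv
          exact ⟨[a, b], l, by simp⟩
        · exact List.infix_cons (List.infix_cons
            (List.infix_cons (l3 x (mem_erase.2 ⟨hxv, hx⟩))))

lemma seq_of (V : Finset (ℕ × ℕ × ℕ))
    (hpos : ∀ x ∈ V, 0 < x.1 ∧ x.1 < x.2.1 ∧ x.2.1 < x.2.2) :
    ∃ (n : ℕ) (a : ℕ → ℕ), (∀ i, 0 < a i) ∧ n + 2 * (II V).card ≤ 3 * V.card ∧
      ∀ x ∈ V, ∃ j, 1 ≤ j ∧ j + 2 ≤ n ∧ a j = x.1 ∧ a (j + 1) = x.2.1 ∧ a (j + 2) = x.2.2 := by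
  classical
  obtain ⟨l, l1, l2, l3⟩ := greedy V.card V rfl hpos 0 0 (II V)
    (by
      intro q hq
      simp only [II, mem_inter, mem_image] at hq
      exact hq.1.1.1)
    (by
      intro q hq
      simp only [II, mem_inter, mem_image] at hq
      exact Or.inr hq.1.1.2)
  refine ⟨l.length, fun i => l.getD (i - 1) 1, ?_, l2, ?_⟩
  · intro i
    by_cases h : i - 1 < l.length
    · simp only
      rw [List.getD_eq_getElem _ _ h]
      exact l1 _ (List.getElem_mem h)
    · simp only
      rw [List.getD_eq_default _ _ (not_lt.1 h)]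
      exact one_pos
  · intro x hx
    have hp := hpos x hx
    have h := l3 x hx
    have h' : [x.1, x.2.1, x.2.2] <:+: l := by
      rcases List.infix_cons_iff.1 h with h | h
      · rw [List.cons_prefix_cons] at h; omega
      · rcases List.infix_cons_iff.1 h with h | h
        · rw [List.cons_prefix_cons] at h; omega
        · exact h
    obtain ⟨s, t, rfl⟩ := h'
    refine ⟨s.length + 1, by omega, by simp; omega, ?_, ?_, ?_⟩
    · simp [List.getD_eq_getElem?_getD]
    · simp [List.getD_eq_getElem?_getD]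
    · simp [List.getD_eq_getElem?_getD, add_assoc]

theorem main (ε : ℝ) (hε : 0 < ε) :
      ∃ n : ℕ, 1 ≤ n ∧ ∃ a : ℕ → ℕ,
        (∀ i ∈ Finset.Icc 1 n, 0 < a i) ∧
        (1 - ε) * (n : ℝ) ≤
          (((((Finset.Icc 1 (n - 1)).image (fun i => (a i, a (i + 1)))) ∩
              ((Finset.Icc 1 (n - 2)).image (fun j => (a j + a (j + 1), a (j + 2))))) ∩
              ((Finset.Icc 1 (n - 2)).image (fun k => (a k, a (k + 1) + a (k + 2))))).card : ℝ) := by
  obtain ⟨V, hne, hpos, hV⟩ := Pool.Agent.Lib.helper23.JvC.main (ε / 3) (by positivity)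
  obtain ⟨n, a, ha, hn, hx⟩ := seq_of V hpos
  obtain ⟨x0, hx0⟩ := hne
  obtain ⟨j0, -, hj0, -⟩ := hx x0 hx0
  refine ⟨n, by omega, a, fun i _ => ha i, ?_⟩
  have hsub : II V ⊆ ((((Finset.Icc 1 (n - 1)).image (fun i => (a i, a (i + 1)))) ∩
              ((Finset.Icc 1 (n - 2)).image (fun j => (a j + a (j + 1), a (j + 2))))) ∩
              ((Finset.Icc 1 (n - 2)).image (fun k => (a k, a (k + 1) + a (k + 2))))) := by
    intro q hq
    simp only [II, mem_inter, mem_image] at hq
    obtain ⟨⟨⟨⟨x, hx1, e1⟩, -⟩, ⟨y, hy1, e2⟩⟩, ⟨z, hz1, e3⟩⟩ := hq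
    simp only [mem_inter, mem_image, mem_Icc]
    refine ⟨⟨?_, ?_⟩, ?_⟩
    · obtain ⟨j, j1, j2, j3, j4, j5⟩ := hx x hx1
      exact ⟨j, ⟨j1, by omega⟩, by rw [j3, j4, e1]⟩
    · obtain ⟨j, j1, j2, j3, j4, j5⟩ := hx y hy1
      exact ⟨j, ⟨j1, by omega⟩, by rw [j3, j4, j5, e2]⟩
    · obtain ⟨j, j1, j2, j3, j4, j5⟩ := hx z hz1
      exact ⟨j, ⟨j1, by omega⟩, by rw [j3, j4, j5, e3]⟩
  refine le_trans ?_ (Nat.cast_le.2 (card_le_card hsub))
  have hn' : (n : ℝ) + 2 * ((II V).card : ℝ) ≤ 3 * (V.card : ℝ) := by exact_mod_cast hn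
  have hI : (0 : ℝ) ≤ (II V).card := by positivity
  have hVc : (0 : ℝ) ≤ V.card := by positivity
  by_cases h : 1 - ε ≤ 0
  · exact le_trans (mul_nonpos_of_nonpos_of_nonneg h (by positivity)) hI
  · have h' : 0 < 1 - ε := not_le.1 h
    have k1 : (n : ℝ) ≤ (1 + 2 * (ε / 3)) * V.card := by linarith
    calc (1 - ε) * (n : ℝ) ≤ (1 - ε) * ((1 + 2 * (ε / 3)) * V.card) :=
          mul_le_mul_of_nonneg_left k1 h'.le
      _ = (1 - ε / 3) * V.card - (2 * ε ^ 2 / 3) * V.card := by ring
      _ ≤ (1 - ε / 3) * V.card := by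
          have : 0 ≤ (2 * ε ^ 2 / 3) * (V.card : ℝ) := by positivity
          linarith
      _ ≤ _ := hV

end Pool.Agent.Lib.helper23.JvD
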