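import Mathlib

namespace Pool.Agent.Lib.helper23.KsA

open Finset Filter

theorem helly {E : Type} [NormedAddCommGroup E] [NormedSpace ℝ E]
    (F : StrongDual ℝ E →ₗ[ℝ] ℝ) (hF : ∀ g, F g ≤ ‖g‖) (Φ : Finset (StrongDual ℝ E)) (η : ℝ)
    (hη : 0 < η) : ∃ x : E, ‖x‖ ≤ 1 ∧ ∀ φ ∈ Φ, |φ x - F φ| ≤ η := by
  classical
  let L : E →L[ℝ] (Φ → ℝ) := ContinuousLinearMap.pi fun φ : Φ => φ.1
  by_cases h : (fun φ : Φ => F φ.1) ∈ closure (L '' Metric.closedBall 0 1)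
  · obtain ⟨_, ⟨x, hx, rfl⟩, h1⟩ := Metric.mem_closure_iff.1 h η hη
    refine ⟨x, by simpa using hx, fun φ hφ => ?_⟩
    have := (dist_le_pi_dist _ _ (⟨φ, hφ⟩ : Φ)).trans h1.le
    rwa [Real.dist_eq, abs_sub_comm] at this
  exfalso
  obtain ⟨g, u, h1, h2⟩ := geometric_hahn_banach_closed_point
    (((convex_closedBall (0 : E) 1).linear_image L.toLinearMap).closure) isClosed_closure h
  have h3 : ∀ v : Φ → ℝ, g v = ∑ i, v i * g fun j => if i = j then 1 else 0 := fun v =>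
    LinearMap.pi_apply_eq_sum_univ g.toLinearMap v
  have h4 : g.comp L = ∑ i : Φ, (g fun j => if i = j then 1 else 0) • i.1 := by
    ext x
    rw [ContinuousLinearMap.comp_apply, h3]
    simp [L, mul_comm]
  have h5 : ∀ x : E, ‖x‖ ≤ 1 → g (L x) < u := fun x hx =>
    h1 _ (subset_closure ⟨x, by simpa using hx, rfl⟩)
  have h6 : 0 < u := by simpa using h5 0 (by simp)
  have h7 : ‖g.comp L‖ ≤ u := ContinuousLinearMap.opNorm_le_of_unit_norm h6.le fun x hx => by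
    have h8 := h5 x hx.le
    have h9 := h5 (-x) (by simp [hx])
    rw [map_neg, map_neg] at h9
    exact abs_le.2 ⟨by change -u ≤ g (L x); linarith, h8.le⟩
  have h8 : F (g.comp L) = g fun φ : Φ => F φ.1 := by
    rw [h4, h3]; simp [mul_comm]
  have h9 := hF (g.comp L)
  rw [h8] at h9
  linarith

variable {X : Type} [NormedAddCommGroup X] [NormedSpace ℝ X]

theorem exists_FG [CompleteSpace X] {Z : Type} [NormedAddCommGroup Z] [NormedSpace ℝ Z]
    (J : X →ₗᵢ[ℝ] Z) (h : ¬ Function.Surjective J) (θ : ℝ) (hθ : θ < 1) :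
    ∃ (F : Z) (G : Z →ₗ[ℝ] ℝ), ‖F‖ ≤ 1 ∧ (∀ z, G z ≤ ‖z‖) ∧ θ < G F ∧ ∀ x, G (J x) = 0 := by
  obtain ⟨F0, h0⟩ := not_forall.1 h
  obtain ⟨g, u, h1, h2⟩ := geometric_hahn_banach_closed_point
    J.toLinearMap.range.convex J.isometry.isClosedEmbedding.isClosed_range h0
  have h3 : ∀ x, g (J x) = 0 := fun x => by
    by_contra h3
    have := h1 _ ⟨(u / g (J x)) • x, rfl⟩
    simp only [LinearIsometry.coe_toLinearMap, map_smul, smul_eq_mul, div_mul_cancel₀ _ h3] at this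
    exact lt_irrefl _ this
  have h4 : 0 < u := by simpa using h1 0 ⟨0, by simp⟩
  have h5 : 0 < ‖g‖ := norm_pos_iff.2 fun h5 => by
    rw [h5] at h2; simp at h2; linarith
  have h6 : ‖‖g‖⁻¹ • g‖ = 1 := by rw [norm_smul, norm_inv, norm_norm, inv_mul_cancel₀ h5.ne']
  obtain ⟨F, h7, h8⟩ := (‖g‖⁻¹ • g).exists_lt_apply_of_lt_opNorm (hθ.trans_eq h6.symm)
  have h10 : ∀ z, (‖g‖⁻¹ • g) z ≤ ‖z‖ := fun z => by
    simpa only [h6, one_mul] using (Real.le_norm_self _).trans ((‖g‖⁻¹ • g).le_opNorm z)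
  rcases lt_abs.1 h8 with h9 | h9
  · exact ⟨F, (‖g‖⁻¹ • g).toLinearMap, h7.le, h10, h9, fun x => by simp [h3]⟩
  · exact ⟨-F, (‖g‖⁻¹ • g).toLinearMap, by simpa using h7.le, h10, by simpa using h9,
      fun x => by simp [h3]⟩

/-- James' sequence of a non-reflexive space. -/
theorem james [CompleteSpace X]
    (h : ¬ Function.Surjective (NormedSpace.inclusionInDoubleDual ℝ X)) (ε : ℝ) (hε : 0 < ε) :
    ∃ (s : ℕ → X) (f : ℕ → StrongDual ℝ X), (∀ n, ‖s n‖ ≤ 1) ∧ (∀ n, ‖f n‖ ≤ 1) ∧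
      (∀ k i, k ≤ i → |f k (s i) - 1| ≤ ε) ∧ ∀ k i, i < k → |f k (s i)| ≤ ε := by
  classical
  obtain ⟨F, G, hF, hG, h1, h2⟩ :=
    exists_FG (Z := StrongDual ℝ (StrongDual ℝ X)) (NormedSpace.inclusionInDoubleDualLi ℝ (E := X))
      (fun h' => h h') (1 - ε / 3) (by linarith)
  have h3 : G F ≤ 1 := (hG F).trans hF
  have hF' : ∀ g, F.toLinearMap g ≤ ‖g‖ := fun g => (Real.le_norm_self _).trans
    ((F.le_opNorm g).trans (mul_le_of_le_one_left (norm_nonneg _) hF))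
  obtain ⟨p, hp, hp'⟩ := exists_seq_of_forall_finset_exists
    (fun p : X × StrongDual ℝ X => ‖p.1‖ ≤ 1 ∧ ‖p.2‖ ≤ 1 ∧ |F p.2 - 1| ≤ 2 * ε / 3 ∧
      |p.2 p.1 - 1| ≤ ε) (fun p q => |p.2 q.1 - 1| ≤ ε ∧ |q.2 p.1| ≤ ε) fun S hS => by
    obtain ⟨f, h4, h5⟩ := helly G hG
      (insert F (S.image fun p => NormedSpace.inclusionInDoubleDualLi ℝ p.1)) (ε / 3) (by positivity)
    obtain ⟨x, h6, h7⟩ := helly F.toLinearMap hF' (insert f (S.image fun p => p.2)) (ε / 3) (by positivity)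
    have h8 := abs_le.1 (h5 F (mem_insert_self _ _))
    simp only [ContinuousLinearMap.coe_coe] at h7
    have h9 := abs_le.1 (h7 f (mem_insert_self _ _))
    refine ⟨(x, f), ⟨h6, h4, abs_le.2 ⟨by linarith, by linarith⟩,
      abs_le.2 ⟨by linarith, by linarith⟩⟩, fun q hq => ⟨?_, ?_⟩⟩
    · have h10 := abs_le.1 (h7 _ (mem_insert_of_mem (mem_image_of_mem _ hq)))
      have h11 := abs_le.1 (hS q hq).2.2.1
      exact abs_le.2 ⟨by linarith, by linarith⟩
    · have h10 := h5 _ (mem_insert_of_mem (mem_image_of_mem _ hq))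
      rw [h2, sub_zero] at h10
      exact le_trans h10 (by linarith)
  refine ⟨fun n => (p n).1, fun n => (p n).2, fun n => (hp n).1, fun n => (hp n).2.1,
    fun k i hki => ?_, fun k i hik => (hp' i k hik).2⟩
  rcases hki.eq_or_lt with rfl | h4
  · exact (hp k).2.2.2
  · exact (hp' k i h4).1

theorem extract {α : Type} (F : Filter α) [F.NeBot] (P : α → Prop) (R : α → α → Prop)
    (h : ∀ᶠ x in F, P x ∧ ∀ᶠ y in F, R x y) :
    ∃ x : ℕ → α, (∀ n, P (x n)) ∧ ∀ n m, n < m → R (x n) (x m) := by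
  obtain ⟨x, h1, h2⟩ := exists_seq_of_forall_finset_exists (fun x => P x ∧ ∀ᶠ y in F, R x y) R
    fun S hS => (h.and ((eventually_all_finset S).2 fun x hx => (hS x hx).2)).exists
  exact ⟨x, fun n => (h1 n).1, h2⟩

def Good (X : Type) [NormedAddCommGroup X] (d : ℝ) : Prop :=
  ∃ x : ℕ → X, (∀ n, ‖x n‖ ≤ 1) ∧ ∀ n m : ℕ, n ≠ m → d ≤ ‖x n + x m‖ ∧ d ≤ ‖x n - x m‖

theorem good (d ν : ℝ) (hν : 0 < ν) (x : ℕ → X) (h1 : ∀ n, ‖x n‖ ≤ ν)
    (h2 : ∀ n m, n < m → d * ν ≤ ‖x n + x m‖ ∧ d * ν ≤ ‖x n - x m‖) : Good X d := by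
  have h3 : ∀ y : X, ‖ν⁻¹ • y‖ = ‖y‖ / ν := fun y => by
    rw [norm_smul, norm_inv, Real.norm_of_nonneg hν.le, div_eq_inv_mul]
  refine ⟨fun n => ν⁻¹ • x n, fun n => by rw [h3, div_le_one hν]; exact h1 n, fun n m hnm => ?_⟩
  rw [← smul_add, ← smul_sub, h3, h3, le_div_iff₀ hν, le_div_iff₀ hν]
  rcases lt_or_gt_of_ne hnm with h | h
  · exact h2 n m h
  · rw [add_comm, norm_sub_rev]; exact h2 m n h

theorem main (s : ℕ → X) (f : ℕ → StrongDual ℝ X) (hs : ∀ n, ‖s n‖ ≤ 1) (hf : ∀ n, ‖f n‖ ≤ 1)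
    (h1 : ∀ k i, k ≤ i → |f k (s i) - 1| ≤ 1 / 100) (h2 : ∀ k i, i < k → |f k (s i)| ≤ 1 / 100) :
    Good X (11 / 10) := by
  by_contra H
  have hle : ∀ k y, |f k y| ≤ ‖y‖ := fun k y =>
    ((f k).le_opNorm y).trans (mul_le_of_le_one_left (norm_nonneg _) (hf k))
  have key : ∀ (w : X) (a : ℕ), (∀ k, a < k → |f k w| ≤ 1 / 100) → (∀ N, ∃ p q r, N < p ∧ N < q ∧
      p < r ∧ q < r ∧ ‖w + (s p + s q - s r)‖ ≤ 341 / 200) → False := fun w a hw h => by
    obtain ⟨t, h3, h4⟩ := exists_seq_of_forall_finset_exists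
      (fun t : ℕ × ℕ × ℕ => a < t.1 ∧ a < t.2.1 ∧ t.1 < t.2.2 ∧ t.2.1 < t.2.2 ∧
        ‖w + (s t.1 + s t.2.1 - s t.2.2)‖ ≤ 341 / 200)
      (fun t u => t.2.2 < u.1 ∧ t.2.2 < u.2.1) fun S _ => by
        obtain ⟨p, q, r, h3, h4, h5⟩ := h (max a (S.sup fun t => t.2.2))
        refine ⟨(p, q, r), ⟨(le_max_left _ _).trans_lt h3, (le_max_left _ _).trans_lt h4, h5⟩,
          fun t ht => ?_⟩
        have := (le_sup (f := fun t : ℕ × ℕ × ℕ => t.2.2) ht).trans (le_max_right a _)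
        exact ⟨this.trans_lt h3, this.trans_lt h4⟩
    refine H (good _ (341 / 200) (by norm_num) _ (fun n => (h3 n).2.2.2.2) fun n m hnm => ?_)
    obtain ⟨a1, a2, a3, a4, -⟩ := h3 n
    obtain ⟨b1, b2, b3, b4, -⟩ := h3 m
    obtain ⟨c1, c2⟩ := h4 n m hnm
    constructor
    · refine le_trans ?_ ((le_abs_self _).trans (hle (a + 1) _))
      simp only [map_add, map_sub]
      linarith [abs_le.1 (hw (a + 1) (by omega)), abs_le.1 (h1 (a + 1) (t n).1 (by omega)),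
        abs_le.1 (h1 (a + 1) (t n).2.1 (by omega)), abs_le.1 (h1 (a + 1) (t n).2.2 (by omega)),
        abs_le.1 (h1 (a + 1) (t m).1 (by omega)), abs_le.1 (h1 (a + 1) (t m).2.1 (by omega)),
        abs_le.1 (h1 (a + 1) (t m).2.2 (by omega))]
    · refine le_trans ?_ ((neg_le_abs _).trans (hle (t n).2.2 _))
      simp only [map_add, map_sub]
      linarith [abs_le.1 (h2 (t n).2.2 (t n).1 (by omega)),
        abs_le.1 (h2 (t n).2.2 (t n).2.1 (by omega)), abs_le.1 (h1 (t n).2.2 (t n).2.2 (by omega)),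
        abs_le.1 (h1 (t n).2.2 (t m).1 (by omega)), abs_le.1 (h1 (t n).2.2 (t m).2.1 (by omega)),
        abs_le.1 (h1 (t n).2.2 (t m).2.2 (by omega))]
  let U := hyperfilter ℕ
  have hU : ∀ N, ∀ᶠ a in U, N < a := fun N =>
    hyperfilter_le_cofinite (by rw [Nat.cofinite_eq_atTop]; exact eventually_gt_atTop N)
  have hB : ∀ᶠ a in U, ∀ᶠ b in U, ‖s a - s b‖ < 11 / 10 := by
    by_contra h3
    simp only [← Ultrafilter.eventually_not, not_lt] at h3
    obtain ⟨x, -, h4⟩ := extract (U : Filter ℕ) (fun _ => True) _ (by simpa using h3)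
    refine H (good _ 1 one_pos (fun n => s (x n)) (fun n => hs _) fun n m hnm =>
      ⟨le_trans ?_ ((le_abs_self _).trans (hle 0 _)), by simpa using h4 n m hnm⟩)
    simp only [map_add]
    linarith [abs_le.1 (h1 0 (x n) (by omega)), abs_le.1 (h1 0 (x m) (by omega))]
  let c : ℕ → ℕ → X := fun a b => s a + (s a - s b)
  by_cases h3 : ∀ᶠ a in U, ∀ᶠ b in U, ∀ᶠ a' in U, ∀ᶠ b' in U, 231 / 100 ≤ ‖c a b + c a' b'‖
  · by_cases h4 : ∀ᶠ a in U, ∀ᶠ b in U, ∀ᶠ a' in U, ∀ᶠ b' in U, 231 / 100 ≤ ‖c a b - c a' b'‖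
    · have : ((U : Filter ℕ).curry (U : Filter ℕ)).NeBot := ⟨fun h => by
        have : ∀ᶠ _x in (U : Filter ℕ).curry (U : Filter ℕ), False := by rw [h]; simp
        rw [eventually_curry_iff] at this
        exact this.exists.elim fun _ h => h.exists.elim fun _ h => h⟩
      obtain ⟨x, h5, h6⟩ := extract ((U : Filter ℕ).curry (U : Filter ℕ))
        (fun x => ‖s x.1 - s x.2‖ < 11 / 10)
        (fun x y => 231 / 100 ≤ ‖c x.1 x.2 + c y.1 y.2‖ ∧ 231 / 100 ≤ ‖c x.1 x.2 - c y.1 y.2‖)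
        (by simp only [eventually_and, eventually_curry_iff]; exact ⟨hB, h3, h4⟩)
      refine H (good _ (21 / 10) (by norm_num) (fun n => c (x n).1 (x n).2) (fun n => ?_)
        fun n m hnm => by norm_num; exact h6 n m hnm)
      linarith [norm_add_le (s (x n).1) (s (x n).1 - s (x n).2), hs (x n).1, h5 n]
    · simp only [← Ultrafilter.eventually_not, not_le] at h4
      obtain ⟨a, ha⟩ := h4.exists
      refine key (-s a) a (fun k hk => by simpa using h2 k a hk) fun N => ?_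
      obtain ⟨b, h5, h6, h7⟩ := (ha.and (hB.and (hU N))).exists
      obtain ⟨a', h8, h9⟩ := (h5.and (hU N)).exists
      obtain ⟨b', h10, h11, h12, h13⟩ := (h8.and (h6.and ((hU b).and (hU a')))).exists
      refine ⟨b, a', b', h7, h9, h12, h13, ?_⟩
      have h14 : (2 : ℝ) • (-s a + (s b + s a' - s b')) = (s b - s b') - (c a b - c a' b') := by
        simp only [c]; module
      have h15 := norm_sub_le (s b - s b') (c a b - c a' b')
      rw [← h14, norm_smul, Real.norm_two] at h15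
      linarith
  · simp only [← Ultrafilter.eventually_not, not_le] at h3
    refine key 0 0 (fun k _ => by simp) fun N => ?_
    obtain ⟨a, ha, h4⟩ := (h3.and (hU N)).exists
    obtain ⟨b, h5, h6⟩ := (ha.and hB).exists
    obtain ⟨a', h8, h9⟩ := (h5.and (hU N)).exists
    obtain ⟨b', h10, h11, h12, h13⟩ := (h8.and (h6.and ((hU a).and (hU a')))).exists
    refine ⟨a, a', b', h4, h9, h12, h13, ?_⟩
    have h14 : (2 : ℝ) • (0 + (s a + s a' - s b')) = (s b - s b') + (c a b + c a' b') := by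
      simp only [c]; module
    have h15 := norm_add_le (s b - s b') (c a b + c a' b')
    rw [← h14, norm_smul, Real.norm_two] at h15
    linarith

end Pool.Agent.Lib.helper23.KsA
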