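import Mathlib

/-! Loops, polynomial operations, supernilpotence and central nilpotence. -/

set_option autoImplicit false

namespace Pool.Agent.Lib.Helper23.LoopDefs

/-- A loop structure on `Q`: multiplication, left division `ldiv a b = a \ b`, right division
`rdiv b a = b / a` and a two-sided identity. -/
structure Loop (Q : Type*) where
  mul : Q → Q → Q
  ldiv : Q → Q → Q
  rdiv : Q → Q → Q
  one : Q
  one_mul : ∀ a, mul one a = a
  mul_one : ∀ a, mul a one = a
  mul_ldiv : ∀ a b, mul a (ldiv a b) = b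
  ldiv_mul : ∀ a b, ldiv a (mul a b) = b
  rdiv_mul : ∀ a b, mul (rdiv b a) a = b
  mul_rdiv : ∀ a b, rdiv (mul b a) a = b

variable {Q : Type*}

/-- Polynomial operations in the variables `ι`: term operations with constants. -/
inductive IsLoopPoly (L : Loop Q) {ι : Type} : ((ι → Q) → Q) → Prop
  | var (i : ι) : IsLoopPoly L (fun x => x i)
  | const (q : Q) : IsLoopPoly L (fun _ => q)
  | mul {f g : (ι → Q) → Q} : IsLoopPoly L f → IsLoopPoly L g → IsLoopPoly L (fun x => L.mul (f x) (g x))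
  | ldiv {f g : (ι → Q) → Q} : IsLoopPoly L f → IsLoopPoly L g → IsLoopPoly L (fun x => L.ldiv (f x) (g x))
  | rdiv {f g : (ι → Q) → Q} : IsLoopPoly L f → IsLoopPoly L g → IsLoopPoly L (fun x => L.rdiv (f x) (g x))

/-- The multiplication group. -/
def Mlt (L : Loop Q) : Subgroup (Equiv.Perm Q) :=
  Subgroup.closure {σ | ∃ a, (∀ x, σ x = L.mul a x) ∨ (∀ x, σ x = L.mul x a)}

/-- `k`-supernilpotence through absorbing polynomials: every absorbing polynomial operation of
arity greater than `k` is constant. -/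
def AbsSupernilpotent (L : Loop Q) (k : ℕ) : Prop :=
  ∀ n, k < n → ∀ p : (Fin n → Q) → Q, IsLoopPoly L p →
    (∀ u, (∃ i, u i = L.one) → p u = L.one) → ∀ u v, p u = p v

/-- `k`-supernilpotence through the term condition. The polynomial has `k` blocks of variables of
lengths `m i` and one more block of length `l`. -/
def Supernilpotent (L : Loop Q) (k : ℕ) : Prop :=
  ∀ (m : Fin k → ℕ) (l : ℕ) (p : ((Σ i : Fin k, Fin (m i)) ⊕ Fin l → Q) → Q), IsLoopPoly L p →
    ∀ (a b : (i : Fin k) → Fin (m i) → Q) (u v : Fin l → Q), (∀ i, a i ≠ b i) →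
      (∀ x : (i : Fin k) → Fin (m i) → Q, (∀ i, x i = a i ∨ x i = b i) → x ≠ b →
        p (Sum.elim (fun s => x s.1 s.2) u) = p (Sum.elim (fun s => x s.1 s.2) v)) →
      p (Sum.elim (fun s => b s.1 s.2) u) = p (Sum.elim (fun s => b s.1 s.2) v)

/-- A normal subloop: a subloop invariant under the stabiliser of `1` in `Mlt`. -/
def IsNormalSubloop (L : Loop Q) (N : Set Q) : Prop :=
  L.one ∈ N ∧ (∀ x ∈ N, ∀ y ∈ N, L.mul x y ∈ N ∧ L.ldiv x y ∈ N ∧ L.rdiv x y ∈ N) ∧
    ∀ σ ∈ Mlt L, σ L.one = L.one → ∀ x ∈ N, σ x ∈ N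

/-- `x` and `y` have the same image in `Q / N`. -/
def SameCoset (L : Loop Q) (N : Set Q) (x y : Q) : Prop := ∃ n ∈ N, x = L.mul y n

/-- The image of `a` in `Q / N` is central. -/
def CentralMod (L : Loop Q) (N : Set Q) (a : Q) : Prop :=
  ∀ x y, SameCoset L N (L.mul a x) (L.mul x a) ∧
    SameCoset L N (L.mul a (L.mul x y)) (L.mul (L.mul a x) y) ∧
    SameCoset L N (L.mul x (L.mul a y)) (L.mul (L.mul x a) y) ∧
    SameCoset L N (L.mul x (L.mul y a)) (L.mul (L.mul x y) a)

/-- There is a central series of length `k`. -/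
def HasCentralSeries (L : Loop Q) (k : ℕ) : Prop :=
  ∃ N : ℕ → Set Q, N 0 = {L.one} ∧ N k = Set.univ ∧ (∀ i ≤ k, IsNormalSubloop L (N i)) ∧
    ∀ i < k, N i ⊆ N (i + 1) ∧ ∀ a ∈ N (i + 1), CentralMod L (N i) a

end Pool.Agent.Lib.Helper23.LoopDefs
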