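import Pool.Agent.Lib.helper23.HK
import Pool.Agent.Lib.helper23.LoopDefs

/-! A loop with nilpotent multiplication group is supernilpotent. -/

set_option autoImplicit false

namespace Pool.Agent.Lib.Helper23.LoopSN

open Pool.Agent.Lib.Helper23.Cube Pool.Agent.Lib.Helper23.LoopDefs

variable {Q : Type*} (L : Loop Q)

/-- Left translation. -/
def lt (a : Q) : Equiv.Perm Q := ⟨L.mul a, L.ldiv a, L.ldiv_mul a, L.mul_ldiv a⟩

/-- Right translation. -/
def rt (a : Q) : Equiv.Perm Q :=
  ⟨fun x => L.mul x a, fun x => L.rdiv x a, L.mul_rdiv a, L.rdiv_mul a⟩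

theorem hL (a : Q) : ∃ g : Mlt L, ∀ b, L.mul a b = g • b :=
  ⟨⟨lt L a, Subgroup.subset_closure ⟨a, Or.inl fun _ => rfl⟩⟩, fun _ => rfl⟩

theorem hR (b : Q) : ∃ g : Mlt L, ∀ a, L.mul a b = g • a :=
  ⟨⟨rt L b, Subgroup.subset_closure ⟨b, Or.inr fun _ => rfl⟩⟩, fun _ => rfl⟩

theorem htr (q : Q) : ∃ g : Mlt L, q = g • L.one := by
  obtain ⟨g, hg⟩ := hL L q
  exact ⟨g, by rw [← hg, L.mul_one]⟩

theorem poly_cube {ι κ : Type} [Fintype κ] [DecidableEq κ] (c : ℕ) (β : ι → κ) (a b : ι → Q)
    {p : (ι → Q) → Q} (hp : IsLoopPoly L p) :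
    (fun ω : Finset κ => p (fun i => if β i ∈ ω then b i else a i))
      ∈ Cu L.one (Fil (Mlt L) c (fun l => 2 * 4 ^ l)) Finset.card := by
  have hsub : ∀ s t : Finset κ, (s ⊔ t).card ≤ s.card + t.card :=
    fun s t => Finset.card_union_le s t
  induction hp with
  | var i =>
    refine edge_mem (htr L) rfl c {β i} (by simp) (a i) (b i) ?_ ?_
    · intro ω hω
      simp [Finset.singleton_subset_iff.1 hω]
    · intro ω hω
      simp [mt Finset.singleton_subset_iff.2 hω]
  | const q => exact edge_mem (htr L) rfl c ⊥ (by simp) q q (fun _ _ => rfl) (fun _ _ => rfl)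
  | mul _ _ hf hg => exact mulClosed (htr L) (hL L) (hR L) c _ _ rfl hsub _ hf _ hg
  | ldiv _ _ hf hg =>
    refine divClosed (htr L) (hL L) (hR L) c _ _ rfl hsub _ hf _ ?_
    simpa only [L.mul_ldiv] using hg
  | rdiv _ _ hf hg =>
    refine divClosed (μ := fun x y => L.mul y x) (htr L) (hR L) (hL L) c _ _ rfl hsub _ hg _ ?_
    simpa only [L.rdiv_mul] using hf

theorem abs_of_nilpotent (c : ℕ) (hc : (⊤ : Subgroup (Mlt L)).lowerCentralSeries c = ⊥) :
    AbsSupernilpotent L (2 * 4 ^ (c - 1)) := by
  intro n hn p hp habs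
  have key : ∀ u, p u = L.one := by
    intro u
    have h1 := Cu_uniq hc (fun s t : Finset (Fin n) => Finset.card_union_le s t) Finset.univ
      (by simpa using hn) (poly_cube L c id (fun _ => L.one) u hp)
      (poly_cube L c id (fun _ => L.one) u (IsLoopPoly.const (L := L) L.one)) (by
        intro T hT
        obtain ⟨i, -, hi⟩ := Finset.exists_of_ssubset hT
        exact habs (fun i => if i ∈ T then u i else L.one) ⟨i, if_neg hi⟩)
    simpa using h1
  intro u v
  rw [key, key]

theorem sn_of_nilpotent (c : ℕ) (hc : (⊤ : Subgroup (Mlt L)).lowerCentralSeries c = ⊥) :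
    Supernilpotent L (2 * 4 ^ (c - 1)) := by
  intro m l p hp a b u v hab h
  have e1 : ∀ (w : Fin l → Q) (T : Finset (Option (Fin (2 * 4 ^ (c - 1))))),
      (fun i : (Σ i, Fin (m i)) ⊕ Fin l =>
        if Sum.elim (fun s => some s.1) (fun _ => none) i ∈ T
          then Sum.elim (fun s => b s.1 s.2) w i else Sum.elim (fun s => a s.1 s.2) u i)
      = Sum.elim (fun s => (if some s.1 ∈ T then b s.1 else a s.1) s.2)
          (if none ∈ T then w else u) := by
    intro w T
    funext i
    rcases i with s | j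
    · simp only [Sum.elim_inl]; split_ifs <;> rfl
    · simp only [Sum.elim_inr]; split_ifs <;> rfl
  have h1 := Cu_uniq hc
    (fun s t : Finset (Option (Fin (2 * 4 ^ (c - 1)))) => Finset.card_union_le s t) Finset.univ
    (by simp)
    (poly_cube L c (Sum.elim (fun s => some s.1) (fun _ => none))
      (Sum.elim (fun s => a s.1 s.2) u) (Sum.elim (fun s => b s.1 s.2) u) hp)
    (poly_cube L c (Sum.elim (fun s => some s.1) (fun _ => none))
      (Sum.elim (fun s => a s.1 s.2) u) (Sum.elim (fun s => b s.1 s.2) v) hp) (by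
      intro T hT
      simp only [e1]
      by_cases c1 : none ∈ T
      · simp only [c1, if_true]
        apply h (fun i => if some i ∈ T then b i else a i)
        · intro i
          split_ifs <;> simp
        · intro c2
          apply hT.ne
          rw [Finset.eq_univ_iff_forall]
          rintro (_ | i)
          · exact c1
          · by_contra c3
            have := congrFun c2 i
            rw [if_neg c3] at this
            exact hab i this
      · simp only [c1, if_false])
  simpa [e1] using h1

end Pool.Agent.Lib.Helper23.LoopSN
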