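import Mathlib

namespace Pool.Agent.Lib.helper23.LqA

def t (i j : Fin 12) : Fin 12 :=
  Fin.ofNat 12 (103573120172421842109488455781795971720164388652689831571672910570350893768099230720873706329789597250209353945880464719395122443820995664889569407176662198089695347135198787 / 16 ^ (12 * i.val + j.val) % 16)

lemma row : ∀ i j k : Fin 12, t i j = t i k → j = k := by decide +kernel
lemma col : ∀ j i k : Fin 12, t i j = t k j → i = k := by decide +kernel
lemma hom : ∀ r c : Fin 12, (Finset.univ.filter fun p : Fin 12 × Fin 12 =>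
    p.1 ≠ r ∧ p.2 ≠ c ∧ t r c = t p.1 p.2 ∧ t r p.2 = t p.1 c).card = 4 := by decide +kernel

theorem main (m : ℕ) (hm : Odd m) : ∃ (α : Type) (_ : Finite α), Nat.card α = 12 * m ∧
    ∃ L : α → α → α, ((∀ i, Function.Bijective (L i)) ∧ ∀ j, Function.Bijective fun i => L i j) ∧
      ∀ r c, {p : α × α | p.1 ≠ r ∧ p.2 ≠ c ∧ L r c = L p.1 p.2 ∧ L r p.2 = L p.1 c}.ncard = 4 := by
  have : NeZero m := ⟨by rintro rfl; simp at hm⟩
  have hu : IsUnit ((2 : ℕ) : ZMod m) := (ZMod.isUnit_iff_coprime 2 m).2 (Nat.coprime_two_left.2 hm)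
  refine ⟨Fin 12 × ZMod m, inferInstance, by simp, fun x y => (t x.1 y.1, x.2 + y.2), ⟨?_, ?_⟩, ?_⟩
  · intro i
    refine Finite.injective_iff_bijective.1 fun y z h => ?_
    exact Prod.ext (row _ _ _ (Prod.mk.inj h).1) (add_left_cancel (Prod.mk.inj h).2)
  · intro j
    refine Finite.injective_iff_bijective.1 fun y z h => ?_
    exact Prod.ext (col _ _ _ (Prod.mk.inj h).1) (add_right_cancel (Prod.mk.inj h).2)
  · rintro ⟨x, a⟩ ⟨y, b⟩
    rw [← hom x y, ← Set.ncard_coe_finset]
    symm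
    refine Set.ncard_congr (fun p _ => ((p.1, a), (p.2, b))) ?_ ?_ ?_
    · intro p hp
      simp only [Finset.coe_filter, Finset.mem_univ, true_and, Set.mem_ofPred_eq] at hp
      obtain ⟨h1, h2, h3, h4⟩ := hp
      exact ⟨fun h => h1 (Prod.mk.inj h).1, fun h => h2 (Prod.mk.inj h).1, Prod.ext h3 rfl,
        Prod.ext h4 rfl⟩
    · intro p q _ _ h
      exact Prod.ext (Prod.mk.inj (Prod.mk.inj h).1).1 (Prod.mk.inj (Prod.mk.inj h).2).1
    · rintro ⟨⟨x', a'⟩, ⟨y', b'⟩⟩ ⟨h1, h2, h3, h4⟩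
      have e1 : a + b = a' + b' := (Prod.mk.inj h3).2
      have e2 : a + b' = a' + b := (Prod.mk.inj h4).2
      have e3 : b = b' := by
        apply hu.mul_left_cancel
        push_cast
        linear_combination e1 - e2
      subst e3
      have e4 : a = a' := add_right_cancel e1
      subst e4
      refine ⟨(x', y'), ?_, rfl⟩
      simp only [Finset.coe_filter, Finset.mem_univ, true_and, Set.mem_ofPred_eq]
      exact ⟨fun h => h1 (by rw [h]), fun h => h2 (by rw [h]), (Prod.mk.inj h3).1, (Prod.mk.inj h4).1⟩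

end Pool.Agent.Lib.helper23.LqA
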