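import Mathlib

/-! Two 2-regular sequences whose nim sum is not 2-regular. -/

namespace Pool.Agent.Lib.H23Nim

/-- `2`-regular integer sequences -/
def IsRegular (a : ℕ → ℤ) : Prop :=
  (Submodule.span ℤ {f : ℕ → ℤ | ∃ e r : ℕ, r < 2 ^ e ∧ f = fun n => a (2 ^ e * n + r)}).FG

def aa (n : ℕ) : ℕ := Nat.binaryRec 1 (fun b _ x => if b then 2 * x else x) n

def bb (n : ℕ) : ℕ := Nat.binaryRec 0 (fun b _ x => if b then 1 else 2 * x) n

theorem aa0 (n : ℕ) : aa (2 * n) = aa n := by
  have : aa (Nat.bit false n) = aa n := by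
    unfold aa; rw [Nat.binaryRec_eq _ _ (by simp)]; simp
  simpa [Nat.bit] using this

theorem aa1 (n : ℕ) : aa (2 * n + 1) = 2 * aa n := by
  have : aa (Nat.bit true n) = 2 * aa n := by
    unfold aa; rw [Nat.binaryRec_eq _ _ (by simp)]; simp
  simpa [Nat.bit] using this

theorem bb0 (n : ℕ) : bb (2 * n) = 2 * bb n := by
  have : bb (Nat.bit false n) = 2 * bb n := by
    unfold bb; rw [Nat.binaryRec_eq _ _ (by simp)]; simp
  simpa [Nat.bit] using this

theorem bb1 (n : ℕ) : bb (2 * n + 1) = 1 := by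
  have : bb (Nat.bit true n) = 1 := by
    unfold bb; rw [Nat.binaryRec_eq _ _ (by simp)]; simp
  simpa [Nat.bit] using this

theorem split (e r n : ℕ) : 2 ^ (e + 1) * n + r = 2 * (2 ^ e * n + r / 2) + r % 2 := by
  have := Nat.div_add_mod r 2
  rw [pow_succ']; nlinarith

theorem aa_ker (e : ℕ) : ∀ r, r < 2 ^ e → ∃ c : ℕ, ∀ n, aa (2 ^ e * n + r) = c * aa n := by
  induction e with
  | zero => intro r hr; exact ⟨1, fun n => by simp [show r = 0 by omega]⟩
  | succ e ih =>
    intro r hr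
    obtain ⟨c, hc⟩ := ih (r / 2) (by rw [pow_succ] at hr; omega)
    rcases Nat.mod_two_eq_zero_or_one r with h | h
    · exact ⟨c, fun n => by rw [split, h, add_zero, aa0, hc]⟩
    · exact ⟨2 * c, fun n => by rw [split, h, aa1, hc, mul_assoc]⟩

theorem bb_ker (e : ℕ) : ∀ r, r < 2 ^ e → ∃ c d : ℕ, ∀ n, bb (2 ^ e * n + r) = c * bb n + d := by
  induction e with
  | zero => intro r hr; exact ⟨1, 0, fun n => by simp [show r = 0 by omega]⟩
  | succ e ih =>
    intro r hr
    obtain ⟨c, d, hc⟩ := ih (r / 2) (by rw [pow_succ] at hr; omega)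
    rcases Nat.mod_two_eq_zero_or_one r with h | h
    · exact ⟨2 * c, 2 * d, fun n => by rw [split, h, add_zero, bb0, hc]; ring⟩
    · exact ⟨0, 1, fun n => by rw [split, h, bb1]; simp⟩

theorem aa_reg : IsRegular fun n => aa n := by
  refine Submodule.FG.of_le (Submodule.fg_span_singleton fun n => (aa n : ℤ))
    (Submodule.span_le.2 ?_)
  rintro _ ⟨e, r, hr, rfl⟩
  obtain ⟨c, hc⟩ := aa_ker e r hr
  exact Submodule.mem_span_singleton.2 ⟨c, funext fun n => by simp [hc]⟩

theorem bb_reg : IsRegular fun n => bb n := by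
  refine Submodule.FG.of_le (Submodule.fg_span (Set.toFinite {fun n => (bb n : ℤ), fun _ => 1}))
    (Submodule.span_le.2 ?_)
  rintro _ ⟨e, r, hr, rfl⟩
  obtain ⟨c, d, hc⟩ := bb_ker e r hr
  exact Submodule.mem_span_pair.2 ⟨c, d, funext fun n => by simp [hc]⟩

theorem aa_pow (k n : ℕ) : aa (2 ^ k * n) = aa n := by
  induction k with
  | zero => simp
  | succ k ih => rw [pow_succ', mul_assoc, aa0, ih]

theorem bb_pow (k n : ℕ) : bb (2 ^ k * n) = 2 ^ k * bb n := by
  induction k with
  | zero => simp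
  | succ k ih => rw [pow_succ', mul_assoc, bb0, ih, mul_assoc]

def ones : ℕ → ℕ
  | 0 => 1
  | j + 1 => 2 * ones j + 1

theorem aa_ones (j : ℕ) : aa (ones j) = 2 ^ (j + 1) := by
  induction j with
  | zero => exact aa1 0
  | succ j ih => rw [ones, aa1, ih, ← pow_succ']

theorem bb_ones (j : ℕ) : bb (ones j) = 1 := by
  cases j with
  | zero => exact bb1 0
  | succ j => exact bb1 _

theorem xor_pow {j k : ℕ} (h : j ≠ k) : 2 ^ j ^^^ 2 ^ k = 2 ^ j + 2 ^ k := by
  wlog hl : j < k generalizing j k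
  · rw [Nat.xor_comm, add_comm, this h.symm (by omega)]
  apply Nat.eq_of_testBit_eq
  intro i
  rw [Nat.testBit_xor, add_comm, show 2 ^ k + 2 ^ j = 2 ^ k * 1 + 2 ^ j by simp,
    Nat.testBit_two_pow_mul_add _ (Nat.pow_lt_pow_right one_lt_two hl), Nat.testBit_two_pow,
    Nat.testBit_two_pow]
  split_ifs with c
  · simp [show k ≠ i by omega]
  · by_cases e : k = i
    · simp [e, show j ≠ i by omega]
    · have : (1 : ℕ).testBit (i - k) = false := by
        rw [Bool.eq_false_iff]
        intro h1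
        have := Nat.testBit_one_eq_true_iff_self_eq_zero.1 h1
        omega
      simp [this, e, show j ≠ i by omega]

theorem no_fg (M : Submodule ℤ (ℕ → ℤ)) (hM : M.FG)
    (h : ∀ k, (fun n => ((aa (2 ^ k * n) ^^^ bb (2 ^ k * n) : ℕ) : ℤ)) ∈ M) : False := by
  let N := M ⊔ Submodule.span ℤ {fun n => (aa n : ℤ), fun n => (bb n : ℤ)}
  have hN : N.FG := hM.sup (Submodule.fg_span (Set.toFinite _))
  have : Module.Finite ℤ N := Module.Finite.iff_fg.2 hN
  let d : ℕ → ℕ → ℤ := fun k n =>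
    aa n + 2 ^ (k + 1) * bb n - ((aa (2 ^ (k + 1) * n) ^^^ bb (2 ^ (k + 1) * n) : ℕ) : ℤ)
  have hd : ∀ k, d k ∈ N := fun k => N.sub_mem
    (Submodule.mem_sup_right (Submodule.mem_span_pair.2 ⟨1, 2 ^ (k + 1), funext fun n => by simp⟩))
    (Submodule.mem_sup_left (h (k + 1)))
  have v : ∀ k j, d k (ones j) = if j = k then 2 ^ (k + 2) else 0 := by
    intro k j
    simp only [d, aa_pow, bb_pow, aa_ones, bb_ones, mul_one]
    split_ifs with c
    · subst c; simp; ring
    · rw [xor_pow (by omega)]; simp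
  have li : LinearIndependent ℤ d := by
    rw [linearIndependent_iff']
    intro s g hg i hi
    have := congrFun hg (ones i)
    simp only [Finset.sum_apply, Pi.smul_apply, v, smul_eq_mul, mul_ite, mul_zero,
      Finset.sum_ite_eq, hi, if_true, Pi.zero_apply] at this
    simpa using this
  have li2 : LinearIndependent ℤ fun k => (⟨d k, hd k⟩ : N) :=
    LinearIndependent.of_comp N.subtype li
  exact not_finite_iff_infinite.2 inferInstance li2.finite

end Pool.Agent.Lib.H23Nim
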