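import Mathlib

namespace Pool.Agent.Lib.helper23.NullSeries

open Real Finset Filter Topology Nat

noncomputable def τ (j : ℕ) : ℝ := 2 * π / fermatNumber j
noncomputable def g (j : ℕ) : ℝ := cos ((fermatNumber j / 2 : ℕ) * τ j)
noncomputable def m (n : ℕ) : ℝ := ∑' j, (7 / 8 : ℝ) ^ j * cos (n * τ j)

theorem g_le (j : ℕ) : g j ≤ -(1 / 2) := by
  obtain ⟨k, hk⟩ := odd_fermatNumber j
  have h3 : (3 : ℝ) ≤ fermatNumber j := by exact_mod_cast three_le_fermatNumber j
  have e : (fermatNumber j / 2 : ℕ) * τ j = π - π / fermatNumber j := by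
    have : fermatNumber j / 2 = k := by omega
    rw [this, τ, hk]; push_cast; field_simp; ring
  rw [g, e, cos_pi_sub, neg_le_neg_iff, ← cos_pi_div_three]
  exact cos_le_cos_of_nonneg_of_le_pi (by positivity) (by linarith [pi_pos])
    (div_le_div_of_nonneg_left pi_pos.le (by norm_num) h3)

theorem cos_mod {n r j : ℕ} (h : n ≡ r [MOD fermatNumber j]) : cos (n * τ j) = cos (r * τ j) := by
  have k : ∀ n : ℕ, cos (n * τ j) = cos ((n % fermatNumber j : ℕ) * τ j) := fun n => by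
    have h3 : (0 : ℝ) < fermatNumber j := by exact_mod_cast (two_lt_fermatNumber j).pos
    rw [← cos_add_nat_mul_two_pi ((n % fermatNumber j : ℕ) * τ j) (n / fermatNumber j)]
    nth_rw 1 [← Nat.mod_add_div n (fermatNumber j)]
    congr 1; rw [τ]; push_cast [Nat.cast_add, Nat.cast_mul]; field_simp
  rw [k n, k r, h]

open Classical in
noncomputable def z (l : ℕ) (β : Prop) : ℕ → ℝ
  | 0 => 0
  | j + 1 => z l β j + (7 / 8) ^ j * if (if j = l then β else 0 ≤ z l β j) then g j else 1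

theorem z_step {x w K y : ℝ} (w0 : 0 < w) (K1 : 2 ≤ K) (K2 : K ≤ 4) (h : |x| ≤ K * w)
    (y1 : -1 ≤ y) (y2 : y ≤ -(1 / 2)) :
    |x + w * if 0 ≤ x then y else 1| ≤ K * (w * (7 / 8)) := by
  rw [abs_le] at h ⊢
  split_ifs <;> constructor <;> nlinarith [h.1, h.2]

theorem z_le (l : ℕ) (β : Prop) (j : ℕ) :
    |z l β j| ≤ 4 * (7 / 8) ^ j ∧ (j ≤ l → |z l β j| ≤ 2 * (7 / 8) ^ j) := by
  induction j with
  | zero => simp [z]
  | succ j ih =>
    have w0 : (0 : ℝ) < (7 / 8) ^ j := by positivity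
    have g1 : -1 ≤ g j := neg_one_le_cos _
    have g2 := g_le j
    rw [z, pow_succ]
    by_cases h : j = l
    · refine ⟨?_, fun c => by omega⟩
      have := abs_le.1 (ih.2 h.le)
      rw [abs_le]
      by_cases c : if j = l then β else 0 ≤ z l β j
      · rw [if_pos c]; constructor <;> nlinarith [this.1, this.2]
      · rw [if_neg c]; constructor <;> nlinarith [this.1, this.2]
    · simp only [if_neg h]
      exact ⟨by convert z_step w0 (by norm_num) le_rfl ih.1 g1 g2, fun c => by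
        convert z_step w0 le_rfl (by norm_num) (ih.2 (by omega)) g1 g2⟩

theorem z_eq (l : ℕ) (β β' : Prop) (j : ℕ) (h : j ≤ l) : z l β j = z l β' j := by
  induction j with
  | zero => rfl
  | succ j ih => simp only [z, ih (by omega), if_neg (show j ≠ l by omega)]

theorem sm (n : ℕ) : Summable fun j => (7 / 8 : ℝ) ^ j * cos (n * τ j) :=
  (summable_geometric_of_lt_one (r := 7 / 8) (by norm_num) (by norm_num)).of_norm_bounded fun j => by
    rw [Real.norm_eq_abs, abs_mul, abs_of_nonneg (by positivity)]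
    exact mul_le_of_le_one_right (by positivity) (abs_cos_le_one _)

open Classical in
theorem one (l N : ℕ) (β : Prop) {ε : ℝ} (e0 : 0 < ε) : ∃ n ≥ N, |m n| ≤ ε ∧ ∀ j ≤ l,
    cos (n * τ j) = if (if j = l then β else 0 ≤ z l β j) then g j else 1 := by
  obtain ⟨K, K1, K2⟩ := (((tendsto_pow_atTop_nhds_zero_of_lt_one (r := (7 / 8 : ℝ)) (by norm_num)
    (by norm_num)).eventually (ge_mem_nhds (show 0 < ε / 12 by positivity))).and
    (eventually_gt_atTop l)).exists
  obtain ⟨k, hk⟩ := chineseRemainderOfFinset (fun j => if (if j = l then β else 0 ≤ z l β j) then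
    fermatNumber j / 2 else 0) fermatNumber (range K) (fun j _ => (two_lt_fermatNumber j).pos.ne')
    fun i _ j _ h => coprime_fermatNumber_fermatNumber h
  have p : 0 < ∏ j ∈ range K, fermatNumber j := prod_pos fun j _ => (two_lt_fermatNumber j).pos
  have c : ∀ j < K, cos ((k + N * ∏ j ∈ range K, fermatNumber j : ℕ) * τ j) =
      if (if j = l then β else 0 ≤ z l β j) then g j else 1 := fun j hj => by
    rw [cos_mod ((Nat.ModEq.add (hk j (mem_range.2 hj)) ((Nat.modEq_zero_iff_dvd.2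
      ((dvd_prod_of_mem _ (mem_range.2 hj)).mul_left N)))))]
    by_cases h : if j = l then β else 0 ≤ z l β j
    · rw [if_pos h, if_pos h, add_zero, g]
    · rw [if_neg h, if_neg h]; simp
  refine ⟨_, by nlinarith, ?_, fun j hj => c j (by omega)⟩
  generalize k + N * ∏ j ∈ range K, fermatNumber j = n at c ⊢
  have s : ∀ J ≤ K, ∑ j ∈ range J, (7 / 8 : ℝ) ^ j * cos (n * τ j) = z l β J := fun J hJ => by
    induction J with
    | zero => rfl
    | succ J ih => rw [sum_range_succ, ih (by omega), c J (by omega), z]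
  have t : ‖∑' j, (7 / 8 : ℝ) ^ (j + K) * cos (n * τ (j + K))‖ ≤ (1 - 7 / 8)⁻¹ * (7 / 8) ^ K :=
    tsum_of_norm_bounded ((hasSum_geometric_of_lt_one (r := (7 / 8 : ℝ)) (by norm_num)
      (by norm_num)).mul_right _) fun j => by
        rw [Real.norm_eq_abs, abs_mul, abs_of_nonneg (by positivity), pow_add]
        exact mul_le_of_le_one_right (by positivity) (abs_cos_le_one _)
  rw [m, ← (sm n).sum_add_tsum_nat_add K, s K le_rfl]
  refine (abs_add_le _ _).trans ?_
  rw [Real.norm_eq_abs] at t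
  linarith [(z_le l β K).1]

def G (l : ℕ) (s : ℝ) : Prop := s = 0 ∨ ∃ r < l, s = τ r

theorem pair (l N : ℕ) {ε : ℝ} (e0 : 0 < ε) : ∃ n n', N ≤ n ∧ n < n' ∧ |m n| ≤ ε ∧ |m n'| ≤ ε ∧
    (∀ s, G l s → cos (n * s) = cos (n' * s)) ∧ cos (n * τ l) = g l ∧ cos (n' * τ l) = 1 := by
  obtain ⟨n, n1, n2, n3⟩ := one l N True e0
  obtain ⟨n', n4, n5, n6⟩ := one l (n + 1) False e0
  refine ⟨n, n', n1, n4, n2, n5, ?_, by simpa using n3 l le_rfl, by simpa using n6 l le_rfl⟩
  rintro _ (rfl | ⟨r, hr, rfl⟩)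
  · simp
  · simp only [n3 r hr.le, n6 r hr.le, if_neg hr.ne, z_eq l True False r hr.le]

noncomputable def P (B : ℕ → ℝ) (M : ℕ) (s : ℝ) : ℝ := 1 + ∑ n ∈ range M, B n * cos (n * s)
noncomputable def Q (B : ℕ → ℝ) (M : ℕ) : ℝ := ∑ n ∈ range M, |B n| * |m n|

def Ext (l : ℕ) (δ : ℝ) (B : ℕ → ℝ) (N : ℕ) (B' : ℕ → ℝ) : Prop :=
  (∀ n < N, B' n = B n) ∧ (∀ n ≥ N, |B' n| ≤ δ) ∧ ∀ s, G l s → ∀ M ≥ N, |P B' M s| ≤ δ

def Inv (l : ℕ) (K : ℝ) (B : ℕ → ℝ) (N : ℕ) : Prop :=
  (∀ n ≥ N, B n = 0) ∧ (∀ M, Q B M ≤ K) ∧ ∀ s, G l s → P B N s = 0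

theorem P_stab {B : ℕ → ℝ} {N M : ℕ} (h : ∀ n ≥ N, B n = 0) (hM : N ≤ M) (s : ℝ) :
    P B M s = P B N s := by
  rw [P, P, eventually_constant_sum (fun n hn => by rw [h n hn, zero_mul]) hM]

theorem P_congr {B B' : ℕ → ℝ} {M : ℕ} (h : ∀ n < M, B' n = B n) (s : ℝ) : P B' M s = P B M s := by
  rw [P, P, sum_congr rfl fun n hn => by rw [h n (mem_range.1 hn)]]

theorem Inv.ext {l : ℕ} {K δ : ℝ} {B : ℕ → ℝ} {N : ℕ} (h : Inv l K B N) (d0 : 0 ≤ δ) :
    Ext l δ B N B :=
  ⟨fun _ _ => rfl, fun n hn => by rw [h.1 n hn, abs_zero]; exact d0, fun s hs M hM => by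
    rw [P_stab h.1 hM, h.2.2 s hs, abs_zero]; exact d0⟩

theorem Ext.trans {l l' : ℕ} {δ δ' : ℝ} {B B' B'' : ℕ → ℝ} {N N' : ℕ} (h : Ext l δ B N B')
    (h' : Ext l' δ' B' N' B'') (hl : l ≤ l') (hd : δ' ≤ δ) (hN : N ≤ N') : Ext l δ B N B'' := by
  refine ⟨fun n hn => (h'.1 n (by omega)).trans (h.1 n hn), fun n hn => ?_, fun s hs M hM => ?_⟩
  · rcases lt_or_ge n N' with c | c
    · rw [h'.1 n c]; exact h.2.1 n hn
    · exact (h'.2.1 n c).trans hd
  · rcases lt_or_ge M N' with c | c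
    · rw [P_congr fun n hn => h'.1 n (by omega)]; exact h.2.2 s hs M hM
    · exact (h'.2.2 s (hs.imp id fun ⟨r, h1, h2⟩ => ⟨r, by omega, h2⟩) M c).trans hd

theorem block (l : ℕ) {δ ε : ℝ} (d0 : 0 ≤ δ) (d1 : δ ≤ 1) (e0 : 0 < ε) (R : ℕ) :
    ∀ K B N, Inv l K B N → |P B N (τ l)| ≤ R * δ →
      ∃ B' N', N ≤ N' ∧ Inv (l + 1) (K + R * (2 * ε)) B' N' ∧ Ext l δ B N B' := by
  induction R with
  | zero =>
    intro K B N h v
    refine ⟨B, N, le_rfl, ⟨h.1, by simpa using h.2.1, ?_⟩, h.ext d0⟩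
    rintro _ (rfl | ⟨r, hr, rfl⟩)
    · exact h.2.2 _ (.inl rfl)
    · rcases (Nat.lt_succ_iff.1 hr).eq_or_lt with rfl | c
      · simpa using v
      · exact h.2.2 _ (.inr ⟨r, c, rfl⟩)
  | succ R ih =>
    intro K B N h v
    obtain ⟨n, n', n1, n2, m1, m2, c1, c2, c3⟩ := pair l N e0
    have g2 := g_le l
    have R0 : (0 : ℝ) < R + 1 := by positivity
    obtain ⟨c, hc, hv⟩ : ∃ c : ℝ, |c| ≤ δ ∧ |P B N (τ l) + c * g l - c| ≤ R * δ := by
      have y : |P B N (τ l) / (R + 1)| ≤ δ := by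
        rw [abs_div, abs_of_pos R0, div_le_iff₀ R0]; push_cast at v; linarith
      refine ⟨P B N (τ l) / (R + 1) / (1 - g l), ?_, ?_⟩
      · rw [abs_div, abs_of_pos (show 0 < 1 - g l by linarith)]
        exact (_root_.div_le_self (abs_nonneg _) (by linarith)).trans y
      · have : 1 - g l ≠ 0 := by linarith
        rw [show P B N (τ l) + P B N (τ l) / (R + 1) / (1 - g l) * g l - P B N (τ l) / (R + 1) /
          (1 - g l) = R * (P B N (τ l) / (R + 1)) by field_simp; ring, abs_mul, Nat.abs_cast]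
        exact mul_le_mul_of_nonneg_left y R.cast_nonneg
    let B1 : ℕ → ℝ := fun k => B k + (if k = n then c else 0) - if k = n' then c else 0
    have p : ∀ M s, P B1 M s = P B M s + (if n < M then c * cos (n * s) else 0) -
        if n' < M then c * cos (n' * s) else 0 := fun M s => by
      simp only [P, B1, sub_mul, add_mul, ite_mul, zero_mul, sum_sub_distrib, sum_add_distrib,
        sum_ite_eq', mem_range]
      ring
    obtain ⟨B', N', h1, h2, h3⟩ := ih (K + 2 * ε) B1 (n' + 1) ⟨fun k hk => by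
      simp only [B1]; rw [h.1 k (by omega), if_neg (by omega), if_neg (by omega)]; simp,
      fun M => by
        have : Q B1 M ≤ ∑ k ∈ range M, (|B k| * |m k| + (if k = n then ε else 0) +
            if k = n' then ε else 0) := sum_le_sum fun k _ => by
          have hc1 := hc.trans d1
          simp only [B1]
          split_ifs with a b b
          · omega
          · subst a; rw [h.1 k n1]; simpa using mul_le_mul hc1 m1 (abs_nonneg _) zero_le_one
          · subst b; rw [h.1 k (by omega)]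
            simpa using mul_le_mul hc1 m2 (abs_nonneg _) zero_le_one
          · simp
        simp only [sum_add_distrib, sum_ite_eq'] at this
        have := h.2.1 M
        rw [Q] at this
        split_ifs at * <;> linarith, fun s hs => by
        rw [p, P_stab h.1 (by omega), h.2.2 s hs, if_pos (by omega), if_pos (by omega), c1 s hs]
        ring⟩ (by
        rwa [p, P_stab h.1 (by omega), if_pos (by omega), if_pos (by omega), c2, c3, mul_one])
    refine ⟨B', N', by omega, by convert h2 using 1; push_cast; ring,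
      Ext.trans ⟨fun k hk => ?_, fun k hk => ?_, fun s hs M hM => ?_⟩ h3 le_rfl le_rfl (by omega)⟩
    · simp only [B1]; rw [if_neg (by omega), if_neg (by omega)]; simp
    · simp only [B1]; rw [h.1 k hk]
      split_ifs <;> simp [hc, d0]
    · rw [p, P_stab h.1 hM, h.2.2 s hs, c1 s hs]
      have := (mul_le_of_le_one_right (abs_nonneg c) (abs_cos_le_one (n' * s))).trans hc
      split_ifs <;> simp [abs_mul, this, d0]

theorem chain {α : Type} (I : ℕ → α → Prop) (R : ℕ → α → α → Prop) (h0 : ∃ a, I 0 a)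
    (hs : ∀ n a, I n a → ∃ b, I (n + 1) b ∧ R n a b) :
    ∃ f : ℕ → α, ∀ n, I n (f n) ∧ R n (f n) (f (n + 1)) := by
  choose F h1 h2 using hs
  obtain ⟨a, ha⟩ := h0
  let f : ∀ n, {a // I n a} := fun n => n.rec ⟨a, ha⟩ fun n b => ⟨F n b.1 b.2, h1 n b.1 b.2⟩
  exact ⟨fun n => (f n).1, fun n => ⟨(f n).2, h2 n _ (f n).2⟩⟩

theorem main : ∃ B : ℕ → ℝ, B 0 = 0 ∧ Tendsto B atTop (𝓝 0) ∧ (∀ M, Q B M ≤ 1) ∧
    ∀ l s, G l s → Tendsto (fun M => P B M s) atTop (𝓝 0) := by
  obtain ⟨f, hf⟩ := chain (fun l (a : (ℕ → ℝ) × ℕ) => Inv l (1 - (1 / 2) ^ (l + 1)) a.1 a.2 ∧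
    a.1 0 = 0 ∧ l < a.2) (fun l a b => a.2 ≤ b.2 ∧ Ext l (1 / (l + 1)) a.1 a.2 b.1) (by
      obtain ⟨n, n1, n2, -⟩ := one 0 1 True one_half_pos
      refine ⟨(fun k => if k = n then -1 else 0, n + 1), ⟨fun k hk => if_neg (by omega),
        fun M => ?_, ?_⟩, if_neg (by omega), by simp⟩
      · have : Q (fun k => if k = n then -1 else 0) M = ∑ k ∈ range M, if k = n then |m k| else 0 :=
          sum_congr rfl fun k _ => by by_cases c : k = n <;> simp [c]
        rw [this, sum_ite_eq']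
        split_ifs <;> norm_num; linarith
      · rintro _ (rfl | ⟨r, hr, -⟩)
        · simp [P]
        · omega) fun l a ⟨h1, h2, h3⟩ => by
      obtain ⟨R, hR⟩ := exists_nat_ge (|P a.1 a.2 (τ l)| * (l + 1))
      have l0 : (0 : ℝ) < l + 1 := by positivity
      obtain ⟨B', N', a1, a2, a3⟩ := block l (δ := 1 / (l + 1)) (ε := (1 / 2) ^ (l + 3) / (R + 1))
        (by positivity) (by rw [div_le_one l0]; simp) (by positivity) R _ _ _ h1
        (by rwa [mul_one_div, le_div_iff₀ l0])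
      refine ⟨(B', N' + 1), ⟨⟨fun n hn => a2.1 n (by omega), fun M => (a2.2.1 M).trans ?_,
        fun s hs => (P_stab a2.1 (by omega) s).trans (a2.2.2 s hs)⟩,
        (a3.1 0 (by omega)).trans h2, by omega⟩, by omega, a3⟩
      have : (R : ℝ) * (2 * ((1 / 2) ^ (l + 3) / (R + 1))) ≤ (1 / 2) ^ (l + 2) := by
        rw [← mul_div_assoc, ← mul_div_assoc, div_le_iff₀ (by positivity), pow_succ _ (l + 2)]
        have : (0 : ℝ) < (1 / 2) ^ (l + 2) := by positivity
        linarith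
      rw [pow_succ _ (l + 1)] at this ⊢
      linarith
  have e : ∀ l l', l ≤ l' → (f l).2 ≤ (f l').2 ∧ Ext l (1 / (l + 1)) (f l).1 (f l).2 (f l').1 := by
    intro l l' h
    induction l', h using Nat.le_induction with
    | base => exact ⟨le_rfl, (hf l).1.1.ext (by positivity)⟩
    | succ k hk ih => exact ⟨ih.1.trans (hf k).2.1, ih.2.trans (hf k).2.2 hk
        (one_div_le_one_div_of_le (by positivity) (by simpa using hk)) ih.1⟩
  have a : ∀ l n, n ≤ l → (f l).1 n = (f n).1 n := fun l n h => (e n l h).2.1 n (hf n).1.2.2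
  have t : ∀ (u : ℕ → ℝ) (l0 : ℕ), (∀ l ≥ l0, ∀ M ≥ (f l).2, |u M| ≤ 1 / (l + 1)) →
      Tendsto u atTop (𝓝 0) := fun u l0 h => Metric.tendsto_atTop.2 fun ε e0 => by
    obtain ⟨l, l1, l2⟩ := ((tendsto_one_div_add_atTop_nhds_zero_nat.eventually
      (gt_mem_nhds e0)).and (eventually_ge_atTop l0)).exists
    exact ⟨(f l).2, fun M hM => by simpa using (h l l2 M hM).trans_lt l1⟩
  refine ⟨fun n => (f n).1 n, (hf 0).1.2.1, t _ 0 fun l _ M hM => (e l M ((hf l).1.2.2.le.trans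
    hM)).2.2.1 M hM, fun M => ?_, fun l s hs => t _ l fun k hk M hM => ?_⟩
  · have := (hf M).1.1.2.1 M
    rw [Q, sum_congr rfl fun n hn => by rw [a M n (mem_range.1 hn).le]] at this
    have : (0 : ℝ) < (1 / 2) ^ (M + 1) := by positivity
    rw [Q]; linarith
  · rw [← P_congr fun n hn => a M n hn.le]
    exact (e k M ((hf k).1.2.2.le.trans hM)).2.2.2 s
      (hs.imp id fun ⟨r, h1, h2⟩ => ⟨r, by omega, h2⟩) M hM

end Pool.Agent.Lib.helper23.NullSeries
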