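import Mathlib

/-! Paging with lookahead: definitions. -/

namespace Pool.Agent.Lib.H23Paging

/-- A deterministic paging algorithm: from the requests so far (the current one included), the
visible future requests and the current memory it names the page of the memory to evict. -/
structure Alg (P : Type) where
  ev : List P → List P → Finset P → P
  mem : ∀ past win C, C.Nonempty → ev past win C ∈ C

variable {P : Type} [DecidableEq P]

/-- serving the request `r` with memory `C` of size `k`, evicting `x` if necessary -/
def serve (k : ℕ) (C : Finset P) (r x : P) : Finset P :=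
  if r ∈ C then C else if C.card < k then insert r C else insert r (C.erase x)

/-- the memory of `A`, run with lookahead `i` from the contents `C₀`, after `t` requests of `σ` -/
def cache (k i : ℕ) (A : Alg P) (C₀ : Finset P) (σ : List P) (t : ℕ) : Finset P :=
  Nat.rec C₀ (fun s C => (σ[s]?).elim C fun r =>
    serve k C r (A.ev (σ.take (s + 1)) ((σ.drop (s + 1)).take i) C)) t

/-- the number of faults -/
def cost (k i : ℕ) (A : Alg P) (C₀ : Finset P) (σ : List P) : ℕ :=
  (Finset.univ.filter fun t : Fin σ.length => σ.get t ∉ cache k i A C₀ σ t).card

/-- `r(A,B)` for `A` with lookahead `i` and `B` with lookahead `l` -/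
noncomputable def ratio (k i l : ℕ) (C₀ : Finset P) (A B : Alg P) : EReal :=
  sInf {x | ∃ c : ℝ, x = c ∧ ∃ b : ℝ, ∀ σ, (cost k i A C₀ σ : ℝ) ≤ c * cost k l B C₀ σ + b}

/-- the comparative ratio of lookahead `i` against lookahead `l` -/
noncomputable def comp (k i l : ℕ) (C₀ : Finset P) : EReal :=
  ⨆ B : Alg P, ⨅ A : Alg P, ratio k i l C₀ A B

end Pool.Agent.Lib.H23Paging
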