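import Mathlib
import Pool.Agent.Lib.helper23.PagingDefs

/-! Paging with lookahead: basic facts and the bound by the memory size. -/

namespace Pool.Agent.Lib.H23Paging

variable {P : Type} [DecidableEq P] {k i l : ℕ} {A B : Alg P} {C₀ C : Finset P} {σ : List P}
  {t : ℕ} {r x : P}

theorem cache_zero : cache k i A C₀ σ 0 = C₀ := rfl

theorem cache_some (h : σ[t]? = some r) : cache k i A C₀ σ (t + 1) = serve k (cache k i A C₀ σ t) r
    (A.ev (σ.take (t + 1)) ((σ.drop (t + 1)).take i) (cache k i A C₀ σ t)) := by
  conv_lhs => unfold cache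
  simp only [h, Option.elim_some]
  rfl

theorem cache_none (h : σ[t]? = none) : cache k i A C₀ σ (t + 1) = cache k i A C₀ σ t := by
  conv_lhs => unfold cache
  simp only [h, Option.elim_none]
  rfl

theorem serve_hit (h : r ∈ C) : serve k C r x = C := if_pos h

theorem serve_free (h : r ∉ C) (h2 : C.card < k) : serve k C r x = insert r C := by
  rw [serve, if_neg h, if_pos h2]

theorem serve_full (h : r ∉ C) (h2 : ¬ C.card < k) : serve k C r x = insert r (C.erase x) := by
  rw [serve, if_neg h, if_neg h2]

theorem mem_serve : r ∈ serve k C r x := by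
  unfold serve; split_ifs with h <;> simp [h]

theorem serve_sub : serve k C r x ⊆ insert r C := by
  unfold serve; split_ifs
  · exact Finset.subset_insert _ _
  · exact subset_rfl
  · exact Finset.insert_subset_insert _ (Finset.erase_subset _ _)

theorem card_full (hk : 1 ≤ k) (h : r ∉ C) (h2 : C.card = k) (hx : x ∈ C) :
    (insert r (C.erase x)).card = k := by
  rw [Finset.card_insert_of_notMem (by simp [h]), Finset.card_erase_of_mem hx]; omega

theorem ev_mem (hk : 1 ≤ k) (h2 : ¬ C.card < k) (p w : List P) : A.ev p w C ∈ C :=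
  A.mem _ _ _ (Finset.card_pos.1 (by omega))

/-- the two memories agree or are both full -/
theorem pair_inv (hk : 1 ≤ k) (h0 : C₀.card ≤ k) (t : ℕ) :
    (cache k i A C₀ σ t = cache k l B C₀ σ t ∧ (cache k i A C₀ σ t).card < k) ∨
      ((cache k i A C₀ σ t).card = k ∧ (cache k l B C₀ σ t).card = k) := by
  induction t with
  | zero =>
    rcases h0.lt_or_eq with h | h
    · exact .inl ⟨rfl, h⟩
    · exact .inr ⟨h, h⟩
  | succ t ih =>
    rcases e : σ[t]? with _ | r
    · rwa [cache_none e, cache_none e]
    rw [cache_some e, cache_some e]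
    rcases ih with ⟨h1, h2⟩ | ⟨h1, h2⟩
    · rw [← h1]
      by_cases c : r ∈ cache k i A C₀ σ t
      · rw [serve_hit c, serve_hit c]; exact .inl ⟨rfl, h2⟩
      · rw [serve_free c h2, serve_free c h2, Finset.card_insert_of_notMem c]
        rcases (Nat.succ_le_of_lt h2).lt_or_eq with h | h
        · exact .inl ⟨rfl, h⟩
        · exact .inr ⟨h, h⟩
    · right
      constructor
      · by_cases c : r ∈ cache k i A C₀ σ t
        · rwa [serve_hit c]
        · rw [serve_full c (by omega)]
          exact card_full hk c h1 (ev_mem hk (by omega) _ _)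
      · by_cases c : r ∈ cache k l B C₀ σ t
        · rwa [serve_hit c]
        · rw [serve_full c (by omega)]
          exact card_full hk c h2 (ev_mem hk (by omega) _ _)

open Classical in
/-- faults among the first `t` requests -/
noncomputable def cst (k i : ℕ) (A : Alg P) (C₀ : Finset P) (σ : List P) (t : ℕ) : ℕ :=
  ((Finset.range t).filter fun s => ∃ r, σ[s]? = some r ∧ r ∉ cache k i A C₀ σ s).card

theorem cost_eq : cost k i A C₀ σ = cst k i A C₀ σ σ.length := by
  unfold cost cst
  refine Finset.card_bij (fun t _ => t.1) (fun t ht => ?_) (fun a _ b _ h => Fin.ext h)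
    fun s hs => ?_
  · simp only [Finset.mem_filter, Finset.mem_univ, true_and, Finset.mem_range] at ht ⊢
    exact ⟨t.2, σ.get t, by simp, ht⟩
  · simp only [Finset.mem_filter, Finset.mem_range] at hs
    obtain ⟨h1, r, h2, h3⟩ := hs
    refine ⟨⟨s, h1⟩, ?_, rfl⟩
    rw [List.getElem?_eq_getElem h1, Option.some.injEq] at h2
    simpa [h2] using h3

theorem cst_some (h : σ[t]? = some r) : cst k i A C₀ σ (t + 1) =
    cst k i A C₀ σ t + if r ∈ cache k i A C₀ σ t then 0 else 1 := by
  unfold cst
  rw [Finset.range_add_one, Finset.filter_insert]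
  by_cases c : r ∈ cache k i A C₀ σ t
  · simp [h, c]
  · rw [if_pos ⟨r, h, c⟩, if_neg c, Finset.card_insert_of_notMem (by simp)]

theorem cst_none (h : σ[t]? = none) : cst k i A C₀ σ (t + 1) = cst k i A C₀ σ t := by
  unfold cst
  rw [Finset.range_add_one, Finset.filter_insert, if_neg (by simp [h])]

theorem cache_take {n : ℕ} (t : ℕ) (h : t + l ≤ n) :
    cache k l B C₀ (σ.take n) t = cache k l B C₀ σ t := by
  induction t with
  | zero => rfl
  | succ t ih =>
    have e : (σ.take n)[t]? = σ[t]? := by rw [List.getElem?_take, if_pos (by omega)]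
    rcases e2 : σ[t]? with _ | r
    · rw [cache_none e2, cache_none (e.trans e2), ih (by omega)]
    · rw [cache_some e2, cache_some (e.trans e2), ih (by omega), List.take_take, List.drop_take,
        List.take_take, min_eq_left (by omega), min_eq_left (by omega)]

/-- recency of a page -/
def rec1 (p : List P) (x : P) : ℕ := ((Finset.range p.length).filter fun s => p[s]? = some x).sup (· + 1)

theorem rec1_le (p : List P) (x : P) : rec1 p x ≤ p.length :=
  Finset.sup_le fun s hs => by simp only [Finset.mem_filter, Finset.mem_range] at hs; omega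

theorem rec1_step (h : σ[t]? = some r) (x : P) :
    rec1 (σ.take (t + 1)) x = if x = r then t + 1 else rec1 (σ.take t) x := by
  have ht : t < σ.length := (List.getElem?_eq_some_iff.1 h).1
  unfold rec1
  rw [List.length_take, List.length_take, min_eq_left ht, min_eq_left ht.le, Finset.range_add_one,
    Finset.filter_insert, List.getElem?_take, if_pos t.lt_succ_self, h]
  have e : ((Finset.range t).filter fun s => (σ.take (t + 1))[s]? = some x) =
      (Finset.range t).filter fun s => (σ.take t)[s]? = some x := by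
    refine Finset.filter_congr fun s hs => ?_
    rw [Finset.mem_range] at hs
    rw [List.getElem?_take, List.getElem?_take, if_pos hs, if_pos (by omega)]
  rw [e]
  by_cases c : x = r
  · rw [if_pos (by rw [c]), if_pos c, Finset.sup_insert]
    refine sup_eq_left.2 (Finset.sup_le fun s hs => ?_)
    simp only [Finset.mem_filter, Finset.mem_range] at hs
    omega
  · rw [if_neg (by simpa using Ne.symm c), if_neg c]

theorem exists_lru [Nonempty P] : ∃ A : Alg P, ∀ p w C, ∀ y ∈ C, rec1 p (A.ev p w C) ≤ rec1 p y := by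
  have : ∀ (p : List P) (C : Finset P), ∃ x, (C.Nonempty → x ∈ C) ∧ ∀ y ∈ C, rec1 p x ≤ rec1 p y := by
    intro p C
    rcases C.eq_empty_or_nonempty with rfl | h
    · exact ⟨Classical.arbitrary P, by simp, by simp⟩
    · obtain ⟨x, h1, h2⟩ := C.exists_min_image (rec1 p) h
      exact ⟨x, fun _ => h1, h2⟩
  choose f h1 h2 using this
  exact ⟨⟨fun p _ C => f p C, fun p _ C => h1 p C⟩, fun p _ C => h2 p C⟩

/-- the potential for the least recently used rule -/
def pot (f : P → ℕ) (a b : Finset P) : ℕ := ∑ e ∈ a \ b, (a.filter fun y => f y ≤ f e).card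

theorem pot_B (f : P → ℕ) (a b : Finset P) (r x : P) :
    pot f a (insert r (b.erase x)) ≤ pot f a b + a.card := by
  unfold pot
  refine (Finset.sum_le_sum_of_subset (t := insert x (a \ b)) fun e he => ?_).trans ?_
  · simp only [Finset.mem_sdiff, Finset.mem_insert, Finset.mem_erase] at he ⊢
    tauto
  · by_cases c : x ∈ a \ b
    · rw [Finset.insert_eq_of_mem c]; omega
    · rw [Finset.sum_insert c, add_comm]
      exact Nat.add_le_add_left (Finset.card_filter_le _ _) _

theorem pot_hit {f g : P → ℕ} {a b : Finset P} (hr : r ∈ b) (h1 : ∀ y, y ≠ r → g y = f y)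
    (h2 : ∀ y, f y < g r) : pot g a b ≤ pot f a b := by
  refine Finset.sum_le_sum fun e he => Finset.card_le_card fun y hy => ?_
  simp only [Finset.mem_filter, Finset.mem_sdiff] at he hy ⊢
  have c : e ≠ r := fun c => he.2 (c ▸ hr)
  have c2 : y ≠ r := fun c2 => by have := h2 e; rw [c2, h1 e c] at hy; omega
  rw [h1 y c2, h1 e c] at hy
  exact hy

theorem pot_A {f g : P → ℕ} {a b : Finset P} (hr : r ∈ b) (ha : r ∉ a) (hc : b.card ≤ a.card)
    (h1 : ∀ y, y ≠ r → g y = f y) (h2 : ∀ y, f y < g r) (hx : x ∈ a) (h3 : ∀ y ∈ a, g x ≤ g y) :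
    pot g (insert r (a.erase x)) b + 1 ≤ pot f a b := by
  have ne : (a \ b).Nonempty := by
    rw [Finset.sdiff_nonempty]
    intro h
    exact ha (Finset.eq_of_subset_of_card_le h hc ▸ hr)
  have s1 : insert r (a.erase x) \ b = (a \ b).erase x := by
    ext e; simp only [Finset.mem_sdiff, Finset.mem_insert, Finset.mem_erase]
    constructor
    · rintro ⟨rfl | h, h'⟩
      · exact absurd hr h'
      · tauto
    · tauto
  have lt : ∀ e ∈ a \ b, ((insert r (a.erase x)).filter fun y => g y ≤ g e).card + 1 ≤
      (a.filter fun y => f y ≤ f e).card := by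
    intro e he
    rw [Finset.mem_sdiff] at he
    have c : e ≠ r := fun c => he.2 (c ▸ hr)
    have cx : x ≠ r := fun c => ha (c ▸ hx)
    refine Finset.card_lt_card ⟨fun y hy => ?_, fun h => ?_⟩
    · simp only [Finset.mem_filter, Finset.mem_insert, Finset.mem_erase] at hy ⊢
      have c2 : y ≠ r := fun c2 => by have := h2 e; rw [c2, h1 e c] at hy; omega
      rw [h1 y c2, h1 e c] at hy
      tauto
    · have := h (Finset.mem_filter.2 ⟨hx, by rw [← h1 x cx, ← h1 e c]; exact h3 e he.1⟩)
      simp [cx] at this
  unfold pot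
  rw [s1]
  by_cases c : x ∈ a \ b
  · rw [← Finset.add_sum_erase _ _ c, add_comm]
    refine Nat.add_le_add (le_trans (by omega) (lt x c)) (Finset.sum_le_sum fun e he => ?_)
    exact le_trans (by omega) (lt e (Finset.mem_of_mem_erase he))
  · rw [Finset.erase_eq_of_notMem c]
    exact Finset.sum_lt_sum_of_nonempty ne fun e he => Nat.lt_of_succ_le (lt e he)

theorem upper_k [Nonempty P] (hk : 1 ≤ k) (h0 : C₀.card ≤ k) (B : Alg P) : ∃ A : Alg P, ∀ σ,
    cost k i A C₀ σ ≤ k * cost k l B C₀ σ := by
  obtain ⟨A, hA⟩ := exists_lru (P := P)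
  refine ⟨A, fun σ => ?_⟩
  suffices h : ∀ t, t ≤ σ.length → cst k i A C₀ σ t +
      pot (rec1 (σ.take t)) (cache k i A C₀ σ t) (cache k l B C₀ σ t) ≤ k * cst k l B C₀ σ t by
    rw [cost_eq, cost_eq]
    exact le_trans (Nat.le_add_right _ _) (h _ le_rfl)
  intro t
  induction t with
  | zero => intro _; simp [cst, pot, cache_zero]
  | succ t ih =>
    intro ht
    replace ih := ih (by omega)
    obtain ⟨r, e⟩ : ∃ r, σ[t]? = some r := ⟨_, List.getElem?_eq_getElem ht⟩
    have h1 : ∀ y, y ≠ r → rec1 (σ.take (t + 1)) y = rec1 (σ.take t) y := fun y hy => by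
      rw [rec1_step e, if_neg hy]
    have h2 : ∀ y, rec1 (σ.take t) y < rec1 (σ.take (t + 1)) r := fun y => by
      rw [rec1_step e, if_pos rfl]
      have := rec1_le (σ.take t) y
      rw [List.length_take] at this
      omega
    have hb : r ∈ cache k l B C₀ σ (t + 1) := by rw [cache_some e]; exact mem_serve
    rw [cst_some e, cst_some e]
    rcases pair_inv (i := i) (l := l) (A := A) (B := B) (σ := σ) hk h0 t with ⟨c1, c2⟩ | ⟨c1, c2⟩
    · have : cache k i A C₀ σ (t + 1) = cache k l B C₀ σ (t + 1) := by
        rw [cache_some e, cache_some e, ← c1]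
        unfold serve
        rw [if_pos c2, if_pos c2]
      rw [this, ← c1]
      simp only [pot, sdiff_self, Finset.bot_eq_empty, Finset.sum_empty]
      split_ifs <;> nlinarith
    · have s1 : pot (rec1 (σ.take t)) (cache k i A C₀ σ t) (cache k l B C₀ σ (t + 1)) ≤
          pot (rec1 (σ.take t)) (cache k i A C₀ σ t) (cache k l B C₀ σ t) +
            k * if r ∈ cache k l B C₀ σ t then 0 else 1 := by
        rw [cache_some e]
        split_ifs with c
        · rw [serve_hit c]; omega
        · rw [serve_full c (by omega), mul_one]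
          exact (pot_B _ _ _ _ _).trans (by omega)
      have c3 : (cache k l B C₀ σ (t + 1)).card ≤ k := by
        rcases pair_inv (i := l) (l := l) (A := B) (B := B) (σ := σ) hk h0 (t + 1) with h | h <;>
          omega
      rw [mul_add, cache_some (A := A) e]
      by_cases c : r ∈ cache k i A C₀ σ t
      · rw [serve_hit c, if_pos c]
        have := pot_hit (a := cache k i A C₀ σ t) hb h1 h2
        omega
      · rw [serve_full c (by omega), if_neg c]
        have := pot_A hb c (by omega) h1 h2 (ev_mem (A := A) hk (by omega) (σ.take (t + 1))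
          ((σ.drop (t + 1)).take i)) (hA _ _ _)
        omega

end Pool.Agent.Lib.H23Paging
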