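import Mathlib
import Pool.Agent.Lib.helper23.PagingA

/-! Paging with lookahead: weighted matchings used as a potential. -/

namespace Pool.Agent.Lib.H23Paging

variable {P : Type} [DecidableEq P] {W W' : P → P → ℕ → Prop} {D E : Finset P} {Φ : ℕ}
  {d e x y : P} {w c g : ℕ}

/-- a perfect matching between `D` and `E` with admissible weights of total at most `Φ` -/
def Pot (W : P → P → ℕ → Prop) (D E : Finset P) (Φ : ℕ) : Prop :=
  ∃ M : Multiset (P × P × ℕ), M.map (·.1) = D.val ∧ M.map (·.2.1) = E.val ∧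
    (∀ p ∈ M, W p.1 p.2.1 p.2.2) ∧ (M.map (·.2.2)).sum ≤ Φ

theorem Pot.nil : Pot W ∅ ∅ 0 := ⟨0, rfl, rfl, by simp, by simp⟩

theorem Pot.mono (h : Pot W D E Φ) (hW : ∀ d ∈ D, ∀ e ∈ E, ∀ w, W d e w → W' d e w) :
    Pot W' D E Φ := by
  obtain ⟨M, h1, h2, h3, h4⟩ := h
  refine ⟨M, h1, h2, fun p hp => hW _ ?_ _ ?_ _ (h3 p hp), h4⟩
  · rw [← Finset.mem_val, ← h1]; exact Multiset.mem_map_of_mem _ hp
  · rw [← Finset.mem_val, ← h2]; exact Multiset.mem_map_of_mem _ hp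

theorem Pot.cons (h : Pot W D E Φ) (hd : d ∉ D) (he : e ∉ E) (hw : W d e w) :
    Pot W (insert d D) (insert e E) (Φ + w) := by
  obtain ⟨M, h1, h2, h3, h4⟩ := h
  refine ⟨(d, e, w) ::ₘ M, ?_, ?_, ?_, ?_⟩
  · rw [Finset.insert_val_of_notMem hd, Multiset.map_cons, h1]
  · rw [Finset.insert_val_of_notMem he, Multiset.map_cons, h2]
  · intro p hp
    rcases Multiset.mem_cons.1 hp with rfl | hp
    · exact hw
    · exact h3 p hp
  · rw [Multiset.map_cons, Multiset.sum_cons]; dsimp only; omega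

theorem Pot.ex (h : Pot W D E Φ) : (∀ d ∈ D, ∃ e ∈ E, ∃ w Φ', W d e w ∧
    Pot W (D.erase d) (E.erase e) Φ' ∧ Φ' + w ≤ Φ) ∧ ∀ e ∈ E, ∃ d ∈ D, ∃ w Φ', W d e w ∧
    Pot W (D.erase d) (E.erase e) Φ' ∧ Φ' + w ≤ Φ := by
  obtain ⟨M, h1, h2, h3, h4⟩ := h
  have key : ∀ p ∈ M, p.1 ∈ D ∧ p.2.1 ∈ E ∧ ∃ w Φ', W p.1 p.2.1 w ∧
      Pot W (D.erase p.1) (E.erase p.2.1) Φ' ∧ Φ' + w ≤ Φ := by
    intro p hp
    obtain ⟨M', rfl⟩ := Multiset.exists_cons_of_mem hp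
    rw [Multiset.map_cons] at h1 h2 h4
    refine ⟨by rw [← Finset.mem_val, ← h1]; simp, by rw [← Finset.mem_val, ← h2]; simp, _,
      (M'.map (·.2.2)).sum, h3 p hp, ⟨M', ?_, ?_, fun q hq => h3 q (Multiset.mem_cons_of_mem hq),
      le_rfl⟩, ?_⟩
    · rw [Finset.erase_val, ← h1, Multiset.erase_cons_head]
    · rw [Finset.erase_val, ← h2, Multiset.erase_cons_head]
    · rw [Multiset.sum_cons] at h4; omega
  constructor
  · intro d hd
    rw [← Finset.mem_val, ← h1, Multiset.mem_map] at hd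
    obtain ⟨p, hp, rfl⟩ := hd
    exact ⟨_, (key p hp).2.1, (key p hp).2.2⟩
  · intro e he
    rw [← Finset.mem_val, ← h2, Multiset.mem_map] at he
    obtain ⟨p, hp, rfl⟩ := he
    exact ⟨_, (key p hp).1, (key p hp).2.2⟩

theorem Pot.repl_d (h : Pot W D E Φ) (hd : d ∈ D) (hy : y ∉ D.erase d)
    (hW : ∀ d' ∈ D.erase d, ∀ e ∈ E, ∀ w, W d' e w → W' d' e w)
    (h1 : ∀ e ∈ E, ∀ w, W d e w → ∃ w', W' y e w' ∧ w' + c ≤ w + g) :
    ∃ Φ', Pot W' (insert y (D.erase d)) E Φ' ∧ Φ' + c ≤ Φ + g := by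
  obtain ⟨e, he, w, Φ', a1, a2, a3⟩ := h.ex.1 d hd
  obtain ⟨w', b1, b2⟩ := h1 e he w a1
  have := (a2.mono fun d' hd' e' he' => hW d' hd' e' (Finset.mem_of_mem_erase he')).cons hy
    (Finset.notMem_erase e E) b1
  rw [Finset.insert_erase he] at this
  exact ⟨_, this, by omega⟩

theorem Pot.repl_e (h : Pot W D E Φ) (he : e ∈ E) (hy : y ∉ E.erase e)
    (hW : ∀ d ∈ D, ∀ e' ∈ E.erase e, ∀ w, W d e' w → W' d e' w)
    (h1 : ∀ d ∈ D, ∀ w, W d e w → ∃ w', W' d y w' ∧ w' + c ≤ w + g) :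
    ∃ Φ', Pot W' D (insert y (E.erase e)) Φ' ∧ Φ' + c ≤ Φ + g := by
  obtain ⟨d, hd, w, Φ', a1, a2, a3⟩ := h.ex.2 e he
  obtain ⟨w', b1, b2⟩ := h1 d hd w a1
  have := (a2.mono fun d' hd' e' he' => hW d' (Finset.mem_of_mem_erase hd') e' he').cons
    (Finset.notMem_erase d D) hy b1
  rw [Finset.insert_erase hd] at this
  exact ⟨_, this, by omega⟩

theorem Pot.merge (h : Pot W D E Φ) (hd : d ∈ D) (hx : x ∈ E)
    (hW : ∀ d' ∈ D.erase d, ∀ e ∈ E.erase x, ∀ w, W d' e w → W' d' e w)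
    (h1 : ∀ w, W d x w → c ≤ w + g)
    (h2 : ∀ d' ∈ D.erase d, ∀ e ∈ E.erase x, ∀ w w', W d e w → W d' x w' →
      ∃ w'', W' d' e w'' ∧ w'' + c ≤ w + w' + g) :
    ∃ Φ', Pot W' (D.erase d) (E.erase x) Φ' ∧ Φ' + c ≤ Φ + g := by
  obtain ⟨e, he, w, Φ', a1, a2, a3⟩ := h.ex.1 d hd
  by_cases hc : e = x
  · subst hc
    exact ⟨Φ', a2.mono hW, by have := h1 w a1; omega⟩
  have he' : e ∈ E.erase x := Finset.mem_erase.2 ⟨hc, he⟩
  obtain ⟨d', hd', w', Φ'', b1, b2, b3⟩ := a2.ex.2 x (Finset.mem_erase.2 ⟨Ne.symm hc, hx⟩)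
  obtain ⟨w'', c1, c2⟩ := h2 d' hd' e he' w w' a1 b1
  rw [Finset.erase_right_comm (s := E)] at b2
  have := (b2.mono fun a ha b hb => hW a (Finset.mem_of_mem_erase ha) b
    (Finset.mem_of_mem_erase hb)).cons (Finset.notMem_erase _ _) (Finset.notMem_erase _ _) c1
  rw [Finset.insert_erase hd', Finset.insert_erase he'] at this
  exact ⟨_, this, by omega⟩

end Pool.Agent.Lib.H23Paging
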