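import Mathlib
import Pool.Agent.Lib.helper23.PagingB

/-! Paging with lookahead: the upper bound `l / (i + 1) + 1`. -/

namespace Pool.Agent.Lib.H23Paging

variable {P : Type} [DecidableEq P] {k i l : ℕ} {A B : Alg P} {C₀ : Finset P} {σ : List P}
  {t : ℕ} {r x d e : P} {w Φ : ℕ} {b : ℕ → Finset P} {a : Finset P}

theorem exists_alg [Nonempty P] (K : List P → List P → P → Prop) : ∃ A : Alg P, ∀ p w C,
    C.Nonempty → (A.ev p w C ∉ w ∧ ∀ e ∈ C, e ∉ w → K p w e → K p w (A.ev p w C)) ∨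
      ∀ y ∈ C, ∃ j : ℕ, w[j]? = some y ∧ ∀ j' < j, w[j']? ≠ some (A.ev p w C) := by
  have : ∀ (p w : List P) (C : Finset P), ∃ x, C.Nonempty → x ∈ C ∧
      ((x ∉ w ∧ ∀ e ∈ C, e ∉ w → K p w e → K p w x) ∨
      ∀ y ∈ C, ∃ j : ℕ, w[j]? = some y ∧ ∀ j' < j, w[j']? ≠ some x) := by
    intro p w C
    by_cases h1 : ∃ e ∈ C, e ∉ w ∧ K p w e
    · obtain ⟨e, h1, h2, h3⟩ := h1
      exact ⟨e, fun _ => ⟨h1, .inl ⟨h2, fun _ _ _ _ => h3⟩⟩⟩
    by_cases h2 : ∃ e ∈ C, e ∉ w
    · obtain ⟨e, h2, h3⟩ := h2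
      exact ⟨e, fun _ => ⟨h2, .inl ⟨h3, fun e' a1 a2 a3 => absurd ⟨e', a1, a2, a3⟩ h1⟩⟩⟩
    rcases C.eq_empty_or_nonempty with rfl | h
    · exact ⟨Classical.arbitrary P, by simp⟩
    obtain ⟨x, h3, h4⟩ := C.exists_max_image (fun y => sInf {j : ℕ | w[j]? = some y}) h
    refine ⟨x, fun _ => ⟨h3, .inr fun y hy => ⟨sInf {j : ℕ | w[j]? = some y}, ?_, fun j' hj => ?_⟩⟩⟩
    · refine Nat.sInf_mem (s := {j : ℕ | w[j]? = some y}) (List.mem_iff_getElem?.1 ?_)
      by_contra c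
      exact h2 ⟨y, hy, c⟩
    · exact Nat.notMem_of_lt_sInf (s := {j : ℕ | w[j]? = some x}) (hj.trans_le (h4 y hy))
  choose f hf using this
  exact ⟨⟨f, fun p w C h => (hf p w C h).1⟩, fun p w C h => (hf p w C h).2⟩

/-- admissible weights of a pair -/
def Wt (i l : ℕ) (σ : List P) (b : ℕ → Finset P) (t T : ℕ) (d e : P) (w : ℕ) : Prop :=
  (∃ ν, t ≤ ν ∧ ν < t + i ∧ σ[ν]? = some e ∧ ∀ s, t ≤ s → s < ν → σ[s]? ≠ some d) ∨
  ∃ κ ρ, κ ≤ T ∧ (∀ s, κ ≤ s → s ≤ T → e ∉ b s) ∧ t ≤ ρ ∧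
    (∀ s, t ≤ s → s < ρ → σ[s]? ≠ some d) ∧ 1 ≤ w ∧ κ + l ≤ ρ + w * (i + 1)

theorem Wt.fresh (he : e ∉ b (t + 1)) : Wt i l σ b t (t + 1) d e (l / (i + 1) + 1) := by
  refine .inr ⟨t + 1, t, le_rfl, fun s h1 h2 => by rwa [le_antisymm h2 h1], le_rfl,
    fun s h1 h2 => by omega, Nat.le_add_left _ _, ?_⟩
  have := Nat.lt_div_mul_add (a := l) i.succ_pos
  rw [add_mul]
  simp only [Nat.succ_eq_add_one] at this
  omega

theorem Wt.ext (h : Wt i l σ b t t d e w) (he : e ∉ b (t + 1)) : Wt i l σ b t (t + 1) d e w := by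
  rcases h with h | ⟨κ, ρ, h1, h2, h3⟩
  · exact .inl h
  refine .inr ⟨κ, ρ, by omega, fun s a1 a2 => ?_, h3⟩
  rcases a2.lt_or_eq with a2 | rfl
  · exact h2 s a1 (by omega)
  · exact he

theorem Wt.adv {T : ℕ} (h : Wt i l σ b t T d e w) (he : σ[t]? ≠ some e) :
    Wt i l σ b (t + 1) T d e w := by
  rcases h with ⟨ν, h1, h2, h3, h4⟩ | ⟨κ, ρ, h1, h2, h3, h4, h5, h6⟩
  · refine .inl ⟨ν, ?_, by omega, h3, fun s a1 => h4 s (by omega)⟩
    rcases h1.lt_or_eq with a | rfl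
    · exact a
    · exact absurd h3 he
  · exact .inr ⟨κ, max ρ (t + 1), h1, h2, by omega, fun s a1 a2 => h4 s (by omega) (by omega), h5,
      by omega⟩

theorem Wt.req {T : ℕ} (h : Wt i l σ b t T d e w) (hd : σ[t]? = some d) (he : e ≠ d) :
    ∃ κ, κ ≤ T ∧ (∀ s, κ ≤ s → s ≤ T → e ∉ b s) ∧ 1 ≤ w ∧ κ + l ≤ t + w * (i + 1) := by
  rcases h with ⟨ν, h1, h2, h3, h4⟩ | ⟨κ, ρ, h1, h2, h3, h4, h5, h6⟩
  · rcases h1.lt_or_eq with a | rfl
    · exact absurd hd (h4 t le_rfl a)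
    · rw [hd] at h3; exact absurd (Option.some.inj h3).symm he
  · refine ⟨κ, h1, h2, h5, ?_⟩
    rcases h3.lt_or_eq with a | rfl
    · exact absurd hd (h4 t le_rfl a)
    · exact h6

theorem B_step (h : Pot (Wt i l σ b t t) (b t \ a) (a \ b t) Φ) (hr : r ∉ b t) (hx : x ∈ b t)
    (hb : b (t + 1) = insert r ((b t).erase x)) : ∃ Φ',
    Pot (Wt i l σ b t (t + 1)) (b (t + 1) \ a) (a \ b (t + 1)) Φ' ∧
      Φ' + 0 ≤ Φ + (l / (i + 1) + 1) := by
  have ne : x ≠ r := fun c => hr (c ▸ hx)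
  have nb : ∀ e, e ≠ r → e ∉ b t → e ∉ b (t + 1) := fun e h1 h2 => by simp [hb, h1, h2]
  have nx : x ∉ b (t + 1) := by simp [hb, ne]
  by_cases c1 : r ∈ a <;> by_cases c2 : x ∈ a
  · have e1 : b (t + 1) \ a = b t \ a := by rw [hb]; ext y; simp; grind
    have e2 : a \ b (t + 1) = insert x ((a \ b t).erase r) := by rw [hb]; ext y; simp; grind
    rw [e1, e2]
    refine h.repl_e (by simp [c1, hr]) (by simp [hx]) (fun d _ e he w hw => hw.ext ?_)
      fun d _ w _ => ⟨_, Wt.fresh nx, by omega⟩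
    simp only [Finset.mem_erase, Finset.mem_sdiff] at he
    exact nb e he.1 he.2.2
  · have e1 : b (t + 1) \ a = (b t \ a).erase x := by rw [hb]; ext y; simp; grind
    have e2 : a \ b (t + 1) = (a \ b t).erase r := by rw [hb]; ext y; simp; grind
    rw [e1, e2]
    refine h.merge (by simp [c2, hx]) (by simp [c1, hr]) (fun d _ e he w hw => hw.ext ?_)
      (fun _ _ => Nat.zero_le _) fun d _ e he w _ _ _ => ⟨_, Wt.fresh ?_, by omega⟩
    all_goals
      simp only [Finset.mem_erase, Finset.mem_sdiff] at he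
      exact nb e he.1 he.2.2
  · have e1 : b (t + 1) \ a = insert r (b t \ a) := by rw [hb]; ext y; simp; grind
    have e2 : a \ b (t + 1) = insert x (a \ b t) := by rw [hb]; ext y; simp; grind
    rw [e1, e2]
    refine ⟨_, (h.mono fun d _ e he w hw => hw.ext ?_).cons (by simp [hr]) (by simp [hx])
      (Wt.fresh nx), le_rfl⟩
    simp only [Finset.mem_sdiff] at he
    exact nb e (fun c => c1 (c ▸ he.1)) he.2
  · have e1 : b (t + 1) \ a = insert r ((b t \ a).erase x) := by rw [hb]; ext y; simp; grind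
    have e2 : a \ b (t + 1) = a \ b t := by rw [hb]; ext y; simp; grind
    rw [e1, e2]
    refine h.repl_d (by simp [c2, hx]) (by simp [hr]) (fun d _ e he w hw => hw.ext ?_)
      fun e he w _ => ⟨_, Wt.fresh ?_, by omega⟩
    all_goals
      simp only [Finset.mem_sdiff] at he
      exact nb e (fun c => c1 (c ▸ he.1)) he.2

theorem win_get (j : ℕ) : ((σ.drop (t + 1)).take i)[j]? = if j < i then σ[t + 1 + j]? else none := by
  rw [List.getElem?_take, List.getElem?_drop]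

theorem A_step {K : P → Prop} {W : List P} (hW : W = (σ.drop (t + 1)).take i)
    (h : Pot (Wt i l σ b t (t + 1)) (b (t + 1) \ a) (a \ b (t + 1)) Φ) (hσ : σ[t]? = some r)
    (hr : r ∈ b (t + 1)) (ha : r ∉ a) (hx : x ∈ a)
    (hK : ∀ e, K e → e ∉ b (t + 1))
    (hK' : ∀ e κ, (∀ s, κ ≤ s → s ≤ t + 1 → e ∉ b s) → κ + l ≤ t + 1 + i → K e)
    (hs : (x ∉ W ∧ ∀ e ∈ a, e ∉ W → K e → K x) ∨
      ∀ y ∈ a, ∃ j : ℕ, W[j]? = some y ∧ ∀ j' < j, W[j']? ≠ some x) : ∃ Φ',
    Pot (Wt i l σ b (t + 1) (t + 1)) (b (t + 1) \ insert r (a.erase x))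
      (insert r (a.erase x) \ b (t + 1)) Φ' ∧ Φ' + 1 ≤ Φ + 0 := by
  have ne : ∀ e ∈ a, e ≠ r := fun e he c => ha (c ▸ he)
  have ne' : ∀ e ∈ a, σ[t]? ≠ some e := fun e he c => by
    rw [hσ] at c; exact ne e he (Option.some.inj c).symm
  have w1 : ∀ (j : ℕ) y, W[j]? = some y → j < i ∧ σ[t + 1 + j]? = some y := fun j y hj => by
    rw [hW, win_get] at hj
    split_ifs at hj with c
    exact ⟨c, hj⟩
  have w2 : ∀ s y, t + 1 ≤ s → s < t + 1 + i → σ[s]? = some y → W[s - (t + 1)]? = some y :=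
    fun s y a1 a2 a3 => by
      rw [hW, win_get, if_pos (by omega), ← a3]; congr 1; omega
  by_cases c : x ∈ b (t + 1)
  · have e1 : b (t + 1) \ insert r (a.erase x) = insert x ((b (t + 1) \ a).erase r) := by
      have := ne x hx
      ext y; simp; grind
    have e2 : insert r (a.erase x) \ b (t + 1) = a \ b (t + 1) := by ext y; simp; grind
    rw [e1, e2]
    refine h.repl_d (by simp [hr, ha]) (by simp [hx])
      (fun d _ e he w hw => hw.adv (ne' e (Finset.mem_sdiff.1 he).1)) fun e he w hw => ?_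
    rw [Finset.mem_sdiff] at he
    obtain ⟨κ, k1, k2, k3, k4⟩ := hw.req hσ (ne e he.1)
    rcases hs with ⟨s1, s2⟩ | hs
    · have nx : ∀ s, t + 1 ≤ s → s < t + 1 + i → σ[s]? ≠ some x := fun s a1 a2 a3 =>
        s1 (List.mem_of_getElem? (w2 s x a1 a2 a3))
      by_cases c2 : e ∈ W
      · obtain ⟨j, hj⟩ := List.mem_iff_getElem?.1 c2
        obtain ⟨j1, j2⟩ := w1 j e hj
        exact ⟨0, .inl ⟨t + 1 + j, by omega, by omega, j2, fun s a1 a2 => nx s a1 (by omega)⟩,
          by omega⟩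
      · have k5 : ¬ κ + l ≤ t + 1 + i := fun c3 => hK x (s2 e he.1 c2 (hK' e κ k2 c3)) c
        obtain ⟨v, rfl⟩ : ∃ v, w = v + 1 := ⟨w - 1, by omega⟩
        rw [add_mul] at k4
        refine ⟨v, .inr ⟨κ, t + 1 + i, k1, k2, by omega, nx, ?_, by omega⟩, by omega⟩
        rcases v with _ | v <;> omega
    · obtain ⟨j, j1, j2⟩ := hs e he.1
      obtain ⟨j3, j4⟩ := w1 j e j1
      exact ⟨0, .inl ⟨t + 1 + j, by omega, by omega, j4, fun s a1 a2 a3 =>
        j2 _ (by omega) (w2 s x a1 (by omega) a3)⟩, by omega⟩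
  · have e1 : b (t + 1) \ insert r (a.erase x) = (b (t + 1) \ a).erase r := by
      ext y; simp; grind
    have e2 : insert r (a.erase x) \ b (t + 1) = (a \ b (t + 1)).erase x := by ext y; simp; grind
    rw [e1, e2]
    refine h.merge (by simp [hr, ha]) (by simp [hx, c])
      (fun d _ e he w hw => hw.adv (ne' e (Finset.mem_sdiff.1 (Finset.mem_of_mem_erase he)).1))
      (fun w hw => ?_) fun d _ e he w w' hw hw' => ?_
    · obtain ⟨κ, -, -, k3, -⟩ := hw.req hσ (ne x hx)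
      omega
    simp only [Finset.mem_erase, Finset.mem_sdiff] at he
    obtain ⟨κ, k1, k2, k3, k4⟩ := hw.req hσ (ne e he.2.1)
    rcases hw' with ⟨ν, n1, n2, n3, n4⟩ | ⟨_, _, -, -, -, -, n, -⟩
    · have n5 : t + 1 ≤ ν := by
        rcases n1.lt_or_eq with a | rfl
        · exact a
        · exact absurd n3 (ne' x hx)
      have n6 := w2 ν x n5 (by omega) n3
      rcases hs with ⟨s1, -⟩ | hs
      · exact absurd (List.mem_of_getElem? n6) s1
      obtain ⟨j, j1, j2⟩ := hs e he.2.1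
      obtain ⟨j3, j4⟩ := w1 j e j1
      have : j ≤ ν - (t + 1) := by
        by_contra c3
        exact j2 _ (by omega) n6
      exact ⟨0, .inl ⟨t + 1 + j, by omega, by omega, j4, fun s a1 a2 => n4 s (by omega) (by omega)⟩,
        by omega⟩
    · exact ⟨w, .inr ⟨κ, t + 1, k1, k2, le_rfl, fun s a1 a2 => by omega, k3, by omega⟩, by omega⟩

theorem notMem_cache {u v : ℕ} (huv : u ≤ v) (h : e ∉ cache k l B C₀ σ u)
    (h2 : ∀ s, u ≤ s → s < v → σ[s]? ≠ some e) : e ∉ cache k l B C₀ σ v := by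
  induction v, huv using Nat.le_induction with
  | base => exact h
  | succ v hv ih =>
    replace ih := ih fun s a1 a2 => h2 s a1 (by omega)
    rcases e2 : σ[v]? with _ | r
    · rwa [cache_none e2]
    · rw [cache_some e2]
      intro c
      rcases Finset.mem_insert.1 (serve_sub c) with rfl | c
      · exact h2 v hv (by omega) e2
      · exact ih c

theorem known (hil : i < l) {σ' : List P} {κ : ℕ} (h : σ'.take (t + 1 + i) = σ.take (t + 1 + i))
    (h1 : ∀ s, κ ≤ s → s ≤ t + 1 → e ∉ cache k l B C₀ σ s) (h2 : κ + l ≤ t + 1 + i) :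
    e ∉ cache k l B C₀ σ' (t + 1) := by
  refine notMem_cache (u := κ) (by omega) ?_ fun s a1 a2 a3 => ?_
  · rw [← cache_take κ h2, h, cache_take κ h2]
    exact h1 κ le_rfl (by omega)
  · have : σ[s]? = some e := by
      have := congrArg (·[s]?) h
      simp only [List.getElem?_take, if_pos (show s < t + 1 + i by omega)] at this
      rw [← this, a3]
    refine h1 (s + 1) (by omega) (by omega) ?_
    rw [cache_some this]
    exact mem_serve

theorem upper_m [Nonempty P] (hk : 1 ≤ k) (h0 : C₀.card ≤ k) (hil : i < l) (B : Alg P) :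
    ∃ A : Alg P, ∀ σ, cost k i A C₀ σ ≤ (l / (i + 1) + 1) * cost k l B C₀ σ := by
  obtain ⟨A, hA⟩ := exists_alg (P := P) fun p w e => ∀ σ' : List P,
    σ'.take (p.length + i) = p ++ w → e ∉ cache k l B C₀ σ' p.length
  refine ⟨A, fun σ => ?_⟩
  suffices h : ∀ t, t ≤ σ.length → ∃ Φ, Pot (Wt i l σ (cache k l B C₀ σ) t t)
      (cache k l B C₀ σ t \ cache k i A C₀ σ t) (cache k i A C₀ σ t \ cache k l B C₀ σ t) Φ ∧
      cst k i A C₀ σ t + Φ ≤ (l / (i + 1) + 1) * cst k l B C₀ σ t by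
    rw [cost_eq, cost_eq]
    obtain ⟨Φ, -, h⟩ := h _ le_rfl
    omega
  intro t
  induction t with
  | zero => intro _; exact ⟨0, by simpa [cache_zero] using Pot.nil, by simp [cst]⟩
  | succ t ih =>
    intro ht
    obtain ⟨Φ, ih1, ih⟩ := ih (by omega)
    obtain ⟨r, e⟩ : ∃ r, σ[t]? = some r := ⟨_, List.getElem?_eq_getElem ht⟩
    have hb : r ∈ cache k l B C₀ σ (t + 1) := by rw [cache_some e]; exact mem_serve
    rw [cst_some e, cst_some e]
    rcases pair_inv (i := i) (l := l) (A := A) (B := B) (σ := σ) hk h0 t with ⟨c1, c2⟩ | ⟨c1, c2⟩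
    · have : cache k i A C₀ σ (t + 1) = cache k l B C₀ σ (t + 1) := by
        rw [cache_some e, cache_some e, ← c1]
        unfold serve
        rw [if_pos c2, if_pos c2]
      rw [this, ← c1]
      refine ⟨0, by simpa using Pot.nil, ?_⟩
      rw [mul_add]
      generalize l / (i + 1) = q at ih ⊢
      split_ifs <;> omega
    · obtain ⟨Φ', s1, s2⟩ : ∃ Φ', Pot (Wt i l σ (cache k l B C₀ σ) t (t + 1))
          (cache k l B C₀ σ (t + 1) \ cache k i A C₀ σ t)
          (cache k i A C₀ σ t \ cache k l B C₀ σ (t + 1)) Φ' ∧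
          Φ' + 0 ≤ Φ + (l / (i + 1) + 1) * if r ∈ cache k l B C₀ σ t then 0 else 1 := by
        split_ifs with c
        · have : cache k l B C₀ σ (t + 1) = cache k l B C₀ σ t := by rw [cache_some e, serve_hit c]
          refine ⟨Φ, ?_, by omega⟩
          rw [this]
          exact ih1.mono fun d _ e he w hw => hw.ext (this ▸ (Finset.mem_sdiff.1 he).2)
        · rw [mul_one]
          exact B_step ih1 c (ev_mem hk (by omega) _ _) (by rw [cache_some e, serve_full c (by omega)])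
      rw [mul_add, cache_some (A := A) e]
      by_cases c : r ∈ cache k i A C₀ σ t
      · rw [serve_hit c, if_pos c]
        refine ⟨Φ', s1.mono fun d _ e' he w hw => hw.adv fun c' => ?_, by omega⟩
        rw [e] at c'
        exact (Finset.mem_sdiff.1 he).2 (Option.some.inj c' ▸ hb)
      · rw [serve_full c (by omega), if_neg c]
        have hl : (σ.take (t + 1)).length = t + 1 := by rw [List.length_take]; omega
        have hx := ev_mem (A := A) hk (show ¬ (cache k i A C₀ σ t).card < k by omega)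
          (σ.take (t + 1)) ((σ.drop (t + 1)).take i)
        have hs := hA (σ.take (t + 1)) ((σ.drop (t + 1)).take i) _ ⟨_, hx⟩
        rw [hl, ← List.take_add] at hs
        obtain ⟨Φ'', s3, s4⟩ := A_step rfl s1 e hb c hx (fun e he => he σ rfl)
          (fun e κ a1 a2 σ' a3 => known hil a3 a1 a2) hs
        exact ⟨Φ'', s3, by omega⟩

end Pool.Agent.Lib.H23Paging
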