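import Mathlib
import Pool.Agent.Lib.helper23.PagingC

/-! Paging with lookahead: the lower bound and the value of the comparative ratio. -/

namespace Pool.Agent.Lib.H23Paging

variable {P : Type} [DecidableEq P] {k i l q : ℕ} {A B : Alg P} {C₀ S : Finset P} {σ : List P}
  {t N n : ℕ} {r x : P} {f : ℕ → P}

/-- `N` blocks of `i + 1` equal requests -/
def blk (i : ℕ) (f : ℕ → P) (N : ℕ) : List P := (List.range (N * (i + 1))).map fun t => f (t / (i + 1))

theorem blk_get (h : t < N * (i + 1)) : (blk i f N)[t]? = some (f (t / (i + 1))) := by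
  simp [blk, h]

theorem blk_len : (blk i f N).length = N * (i + 1) := by simp [blk]

theorem div_blk {j : ℕ} (hj : j ≤ i) : (n * (i + 1) + j) / (i + 1) = n := by
  rw [add_comm, Nat.add_mul_div_right _ _ i.succ_pos, Nat.div_eq_of_lt (by omega), zero_add]

theorem blk_get' (h : n < N) {j : ℕ} (hj : j ≤ i) : (blk i f N)[n * (i + 1) + j]? = some (f n) := by
  rw [blk_get, div_blk hj]
  have := Nat.mul_le_mul_right (i + 1) (Nat.succ_le_of_lt h)
  rw [Nat.succ_mul] at this
  omega

theorem blk_const (h : n < N) (j : ℕ) (hj : j ≤ i) :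
    cache k l B C₀ (blk i f N) (n * (i + 1) + j + 1) = cache k l B C₀ (blk i f N) (n * (i + 1) + 1) ∧
    cst k l B C₀ (blk i f N) (n * (i + 1) + j + 1) = cst k l B C₀ (blk i f N) (n * (i + 1) + 1) := by
  induction j with
  | zero => exact ⟨rfl, rfl⟩
  | succ j ih =>
    obtain ⟨h1, h2⟩ := ih (by omega)
    have e := blk_get' (f := f) h hj
    have m : f n ∈ cache k l B C₀ (blk i f N) (n * (i + 1) + (j + 1)) := by
      rw [← add_assoc, h1, cache_some (blk_get' h (Nat.zero_le i))]; exact mem_serve
    rw [cache_some e, cst_some e, serve_hit m, if_pos m]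
    exact ⟨h1, h2⟩

theorem card_le (hk : 1 ≤ k) (h0 : C₀.card ≤ k) : (cache k l B C₀ σ t).card ≤ k := by
  rcases pair_inv (i := l) (l := l) (A := B) (B := B) (σ := σ) hk h0 t with h | h <;> omega

theorem adv (hk : 1 ≤ k) (h0 : C₀.card ≤ k) (hS : S.card = k + 1) (A : Alg P) (N : ℕ) :
    ∃ f : ℕ → P, (∀ n, f n ∈ S) ∧
      ∀ n < N, f n ∉ cache k i A C₀ (blk i f N) (n * (i + 1) - i) := by
  induction N with
  | zero =>
    obtain ⟨p, hp⟩ : S.Nonempty := Finset.card_pos.1 (by omega)
    exact ⟨fun _ => p, fun _ => hp, by simp⟩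
  | succ N ih =>
    obtain ⟨f, h1, h2⟩ := ih
    obtain ⟨p, p1, p2⟩ := Finset.exists_mem_notMem_of_card_lt_card
      (s := cache k i A C₀ (blk i f N) (N * (i + 1) - i)) (t := S)
      (by have := card_le (l := i) (B := A) (σ := blk i f N) (t := N * (i + 1) - i) hk h0; omega)
    have e : (blk i (Function.update f N p) (N + 1)).take (N * (i + 1)) = blk i f N := by
      refine List.ext_getElem? fun t => ?_
      rw [List.getElem?_take]
      split_ifs with c
      · rw [blk_get c, blk_get (by rw [add_mul]; omega), Function.update_of_ne]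
        exact ((Nat.div_lt_iff_lt_mul i.succ_pos).2 c).ne
      · rw [eq_comm, List.getElem?_eq_none_iff, blk_len]; omega
    refine ⟨Function.update f N p, fun n => ?_, fun n hn => ?_⟩
    · by_cases c : n = N
      · rw [c, Function.update_self]; exact p1
      · rw [Function.update_of_ne c]; exact h1 n
    · have : cache k i A C₀ (blk i (Function.update f N p) (N + 1)) (n * (i + 1) - i) =
          cache k i A C₀ (blk i f N) (n * (i + 1) - i) := by
        rcases n with _ | n
        · simp [cache_zero]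
        rw [← e, cache_take]
        have := Nat.mul_le_mul_right (i + 1) (Nat.le_of_lt_succ hn)
        have : (n + 1) * (i + 1) = n * (i + 1) + i + 1 := by ring
        omega
      rw [this]
      by_cases c : n = N
      · rw [c, Function.update_self]; exact p2
      · rw [Function.update_of_ne c]; exact h2 n (by omega)

theorem cost_A (h : ∀ n < N, f n ∉ cache k i A C₀ (blk i f N) (n * (i + 1) - i)) :
    cost k i A C₀ (blk i f N) = N := by
  rw [cost_eq, blk_len]
  suffices ∀ n ≤ N, cst k i A C₀ (blk i f N) (n * (i + 1)) = n from this N le_rfl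
  intro n
  induction n with
  | zero => simp [cst]
  | succ n ih =>
    intro hn
    have c : f n ∉ cache k i A C₀ (blk i f N) (n * (i + 1)) := by
      have := h n hn
      rcases n with _ | n
      · simpa [cache_zero] using this
      · have e : (n + 1) * (i + 1) = n * (i + 1) + i + 1 := by ring
        rw [e, (blk_const (by omega) i le_rfl).1]
        rwa [e, show n * (i + 1) + i + 1 - i = n * (i + 1) + 1 by omega] at this
    rw [show (n + 1) * (i + 1) = n * (i + 1) + i + 1 by ring, (blk_const hn i le_rfl).2,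
      cst_some (t := n * (i + 1)) (blk_get' hn (Nat.zero_le i)), if_neg c, ih (by omega)]

theorem exists_B [Nonempty P] (i q : ℕ) : ∃ B : Alg P, ∀ p w C, q < C.card →
    ∀ j < q, w[j * (i + 1) + i]? ≠ some (B.ev p w C) := by
  have : ∀ (w : List P) (C : Finset P), ∃ x, (C.Nonempty → x ∈ C) ∧ (q < C.card →
      ∀ j < q, w[j * (i + 1) + i]? ≠ some x) := by
    intro w C
    by_cases c : q < C.card
    · obtain ⟨x, h1, h2⟩ := Finset.exists_mem_notMem_of_card_lt_card (t := C)
        (s := (Finset.range q).image fun j => w[j * (i + 1) + i]?.getD (Classical.arbitrary P))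
        (lt_of_le_of_lt (Finset.card_image_le.trans (by simp)) c)
      refine ⟨x, fun _ => h1, fun _ j hj e => h2 (Finset.mem_image.2 ⟨j, by simpa, ?_⟩)⟩
      rw [e]; rfl
    · rcases C.eq_empty_or_nonempty with rfl | ⟨x, h⟩
      · exact ⟨Classical.arbitrary P, by simp, fun h => absurd h c⟩
      · exact ⟨x, fun _ => h, fun h => absurd h c⟩
  choose g h1 h2 using this
  exact ⟨⟨fun _ w C => g w C, fun _ w C => h1 w C⟩, fun _ w C => h2 w C⟩

theorem cost_B (hk : q < k) (h0 : C₀.card ≤ k) (hS : S.card = k + 1) (h1 : C₀ ⊆ S)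
    (hq : q * (i + 1) ≤ l) (hf : ∀ n, f n ∈ S)
    (hB : ∀ p w C, q < C.card → ∀ j < q, w[j * (i + 1) + i]? ≠ some (B.ev p w C)) :
    (q + 1) * cost k l B C₀ (blk i f N) ≤ (q + 1) * k + q + N := by
  rw [cost_eq, blk_len]
  suffices ∀ n ≤ N, cache k l B C₀ (blk i f N) (n * (i + 1)) ⊆ S ∧ ∃ g ≤ q,
      (∀ j < g, n + j < N → f (n + j) ∈ cache k l B C₀ (blk i f N) (n * (i + 1))) ∧
      (q + 1) * cst k l B C₀ (blk i f N) (n * (i + 1)) ≤
        (q + 1) * (cache k l B C₀ (blk i f N) (n * (i + 1))).card + g + n by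
    obtain ⟨-, g, g1, -, g2⟩ := this N le_rfl
    have := Nat.mul_le_mul_left (q + 1)
      (card_le (l := l) (B := B) (σ := blk i f N) (t := N * (i + 1)) (by omega) h0)
    omega
  intro n
  induction n with
  | zero => exact fun _ => ⟨by simpa [cache_zero], 0, by simp, by simp, by simp [cst]⟩
  | succ n ih =>
    intro hn
    obtain ⟨s, g, g1, g2, g3⟩ := ih (by omega)
    have e := blk_get' (i := i) (f := f) hn (Nat.zero_le i)
    rw [add_zero] at e
    have cl := card_le (l := l) (B := B) (σ := blk i f N) (t := n * (i + 1)) (by omega) h0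
    rw [show (n + 1) * (i + 1) = n * (i + 1) + i + 1 by ring, (blk_const hn i le_rfl).1,
      (blk_const hn i le_rfl).2, cst_some e, cache_some e]
    refine ⟨serve_sub.trans (Finset.insert_subset (hf n) s), ?_⟩
    by_cases c : f n ∈ cache k l B C₀ (blk i f N) (n * (i + 1))
    · rw [serve_hit c, if_pos c]
      refine ⟨g - 1, by omega, fun j a1 a2 => ?_, by rw [add_zero]; omega⟩
      rw [show n + 1 + j = n + (j + 1) by ring]
      exact g2 _ (by omega) (by omega)
    have g0 : g = 0 := by
      by_contra c2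
      exact c (g2 0 (by omega) hn)
    rw [if_neg c]
    by_cases c2 : (cache k l B C₀ (blk i f N) (n * (i + 1))).card < k
    · rw [serve_free c c2, Finset.card_insert_of_notMem c]
      exact ⟨0, by omega, by simp, by rw [mul_add (q + 1), mul_add (q + 1)]; omega⟩
    rw [serve_full c c2]
    have hx := ev_mem (A := B) (by omega) c2 ((blk i f N).take (n * (i + 1) + 1))
      (((blk i f N).drop (n * (i + 1) + 1)).take l)
    have hb := hB ((blk i f N).take (n * (i + 1) + 1))
      (((blk i f N).drop (n * (i + 1) + 1)).take l) (cache k l B C₀ (blk i f N) (n * (i + 1)))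
      (by omega)
    generalize B.ev _ _ _ = x at hx hb ⊢
    refine ⟨q, le_rfl, fun j a1 a2 => ?_, ?_⟩
    · have b1 := hb j a1
      have b2 := Nat.mul_le_mul_right (i + 1) (Nat.succ_le_of_lt a1)
      rw [Nat.succ_mul] at b2
      rw [win_get, if_pos (by omega), show n * (i + 1) + 1 + (j * (i + 1) + i) =
        (n + 1 + j) * (i + 1) + 0 by ring, blk_get' a2 (Nat.zero_le i)] at b1
      have b3 : insert (f n) (cache k l B C₀ (blk i f N) (n * (i + 1))) = S :=
        Finset.eq_of_subset_of_card_le (Finset.insert_subset (hf n) s)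
          (by rw [Finset.card_insert_of_notMem c]; omega)
      have b4 := hf (n + 1 + j)
      rw [← b3] at b4
      simp only [Finset.mem_insert, Finset.mem_erase] at b4 ⊢
      exact b4.imp id fun h => ⟨fun c => b1 (by rw [c]), h⟩
    · rw [card_full (k := k) (by omega) c (by omega) hx, mul_add (q + 1)]
      rw [show (cache k l B C₀ (blk i f N) (n * (i + 1))).card = k by omega] at g3
      omega

theorem comp_eq (hk : 1 ≤ k) (h0 : C₀.card ≤ k) (hS : ∃ S : Finset P, S.card = k + 1)
    (hil : i < l) : comp k i l C₀ = ((min k (l / (i + 1) + 1) : ℕ) : ℝ) := by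
  obtain ⟨S₀, hS₀⟩ := hS
  obtain ⟨p, -⟩ : S₀.Nonempty := Finset.card_pos.1 (by omega)
  have : Nonempty P := ⟨p⟩
  apply le_antisymm
  · refine iSup_le fun B => ?_
    obtain ⟨A, hA⟩ : ∃ A : Alg P, ∀ σ,
        cost k i A C₀ σ ≤ min k (l / (i + 1) + 1) * cost k l B C₀ σ := by
      rcases le_total k (l / (i + 1) + 1) with c | c
      · rw [min_eq_left c]; exact upper_k hk h0 B
      · rw [min_eq_right c]; exact upper_m hk h0 hil B
    refine iInf_le_of_le A (sInf_le ⟨_, rfl, 0, fun σ => ?_⟩)
    rw [add_zero]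
    exact_mod_cast hA σ
  · obtain ⟨S, s1, -, s2⟩ := Finset.exists_subsuperset_card_eq (n := k + 1)
      (Finset.subset_union_left (s₁ := C₀) (s₂ := S₀)) (by omega)
      (hS₀ ▸ Finset.card_le_card Finset.subset_union_right)
    obtain ⟨q, hq⟩ : ∃ q, min k (l / (i + 1) + 1) = q + 1 :=
      Nat.exists_eq_succ_of_ne_zero (Nat.ne_of_gt (lt_min hk (Nat.succ_pos _)))
    have q1 : q < k := by have := min_le_left k (l / (i + 1) + 1); omega
    have q2 : q * (i + 1) ≤ l := by
      have := min_le_right k (l / (i + 1) + 1)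
      exact (Nat.le_div_iff_mul_le i.succ_pos).1 (by rw [hq] at this; simpa using this)
    obtain ⟨B, hB⟩ := exists_B (P := P) i q
    refine le_iSup_of_le B (le_iInf fun A => le_sInf ?_)
    rintro _ ⟨c, rfl, b, hb⟩
    rw [hq, EReal.coe_le_coe_iff]
    by_contra hc
    push_cast at hc
    rw [not_le] at hc
    obtain ⟨N, hN⟩ := exists_nat_gt (((q + 1) * |b| + |c| * ((q + 1) * k + q)) / (q + 1 - max c 0))
    obtain ⟨f, f1, f2⟩ := adv (i := i) hk h0 s2 A N
    have a1 := hb (blk i f N)
    rw [cost_A f2] at a1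
    have a2 : ((q : ℝ) + 1) * cost k l B C₀ (blk i f N) ≤ (q + 1) * k + q + N := by
      exact_mod_cast cost_B (N := N) q1 h0 s2 s1 q2 f1 hB
    have p1 : (0 : ℝ) < q + 1 := by positivity
    have p2 : max c 0 < q + 1 := max_lt hc p1
    rw [div_lt_iff₀ (by linarith)] at hN
    have p3 : (0 : ℝ) ≤ cost k l B C₀ (blk i f N) := by positivity
    have p4 : max c 0 ≤ |c| := max_le (le_abs_self c) (abs_nonneg c)
    have p5 : (0 : ℝ) ≤ (q + 1) * k + q := by positivity
    have a3 := mul_le_mul_of_nonneg_right (le_max_left c 0) p3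
    have a4 := mul_le_mul_of_nonneg_left a2 (le_max_right c 0)
    have a5 := mul_le_mul_of_nonneg_right p4 p5
    have a6 := mul_le_mul_of_nonneg_left (a1.trans (add_le_add a3 (le_abs_self b))) p1.le
    nlinarith

end Pool.Agent.Lib.H23Paging
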