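import Mathlib

namespace Pool.Agent.Lib.helper23.Polya

open MeasureTheory Metric Set Pointwise

variable {d : ℕ}

theorem tonelli {h : EuclideanSpace ℝ (Fin d) → ℝ} (hm : Measurable h) (h0 : ∀ y, 0 ≤ h y)
    (hi : Integrable h) {T : Set (EuclideanSpace ℝ (Fin d))} (hT : MeasurableSet T) {c r : ℝ}
    (c0 : 0 ≤ c) (H : ∀ x ∈ T, c ≤ ∫ y in ball x r, h y) :
    c * volume.real T ≤ volume.real (ball (0 : EuclideanSpace ℝ (Fin d)) r) * ∫ y, h y := by
  have a : ENNReal.ofReal c * volume T ≤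
      volume (ball (0 : EuclideanSpace ℝ (Fin d)) r) * ENNReal.ofReal (∫ y, h y) := calc
    _ = ∫⁻ _ in T, ENNReal.ofReal c := (setLIntegral_const _ _).symm
    _ ≤ ∫⁻ x in T, ∫⁻ y, (ball x r).indicator (fun y => ENNReal.ofReal (h y)) y :=
      setLIntegral_mono' hT fun x hx => by
        rw [lintegral_indicator measurableSet_ball, ← ofReal_integral_eq_lintegral_ofReal
          hi.integrableOn (.of_forall h0)]
        exact ENNReal.ofReal_le_ofReal (H x hx)
    _ ≤ ∫⁻ x, ∫⁻ y, (ball x r).indicator (fun y => ENNReal.ofReal (h y)) y :=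
      setLIntegral_le_lintegral _ _
    _ = ∫⁻ y, ∫⁻ x, (ball x r).indicator (fun y => ENNReal.ofReal (h y)) y := by
      refine lintegral_lintegral_swap (Measurable.aemeasurable ?_)
      exact Measurable.indicator (s := {q : EuclideanSpace ℝ (Fin d) × EuclideanSpace ℝ (Fin d) |
        dist q.2 q.1 < r}) (f := fun q => ENNReal.ofReal (h q.2)) (by fun_prop)
        (isOpen_lt (by fun_prop) continuous_const).measurableSet
    _ = ∫⁻ y, volume (ball (0 : EuclideanSpace ℝ (Fin d)) r) * ENNReal.ofReal (h y) := by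
      refine lintegral_congr fun y => ?_
      rw [← Measure.addHaar_ball_center volume y, mul_comm, ← setLIntegral_const,
        ← lintegral_indicator measurableSet_ball]
      exact lintegral_congr fun x => by simp only [indicator, mem_ball, dist_comm]
    _ = _ := by
      rw [lintegral_const_mul _ (by fun_prop), ofReal_integral_eq_lintegral_ofReal hi (.of_forall h0)]
  have := ENNReal.toReal_mono (ENNReal.mul_ne_top measure_ball_lt_top.ne ENNReal.ofReal_ne_top) a
  rwa [ENNReal.toReal_mul, ENNReal.toReal_mul, ENNReal.toReal_ofReal c0,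
    ENNReal.toReal_ofReal (integral_nonneg h0)] at this

theorem young {g a p : ℝ} (g0 : 0 ≤ g) (a0 : 0 < a) (hp : 1 ≤ p) : g ≤ a + a ^ (1 - p) * g ^ p := by
  rcases le_or_gt g a with h | h
  · have : 0 ≤ a ^ (1 - p) * g ^ p := by positivity
    linarith
  · have : g ^ (1 - p) ≤ a ^ (1 - p) := Real.rpow_le_rpow_of_nonpos a0 h.le (by linarith)
    have e : g = g ^ (1 - p) * g ^ p := by
      rw [← Real.rpow_add (a0.trans h)]; simp
    have := mul_le_mul_of_nonneg_right this (Real.rpow_nonneg g0 p)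
    linarith

theorem ion {f : EuclideanSpace ℝ (Fin d) → ℝ} (hf : Continuous f) (w : EuclideanSpace ℝ (Fin d))
    (ρ : ℝ) : IntegrableOn f (ball w ρ) :=
  (hf.continuousOn.integrableOn_compact (isCompact_closedBall w ρ)).mono_set ball_subset_closedBall

theorem mean {p : ℝ} (hp : 1 ≤ p) (hd : (d : ℝ) < p) {ψ : EuclideanSpace ℝ (Fin d) → ℝ}
    (hψ : ContDiff ℝ 1 ψ) {ρ a : ℝ} (ρ0 : 0 < ρ) (a0 : 0 < a) :
    ∫ y in ball 0 ρ, |ψ y - ψ 0| ≤ ρ * (a * volume.real (ball (0 : EuclideanSpace ℝ (Fin d)) ρ) +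
      a ^ (1 - p) * ∫ y in ball 0 ρ, ‖fderiv ℝ ψ y‖ ^ p) / (1 - d / p) := by
  have cg : Continuous fun y => ‖fderiv ℝ ψ y‖ := (hψ.continuous_fderiv one_ne_zero).norm
  have cp : Continuous fun y => ‖fderiv ℝ ψ y‖ ^ p := cg.rpow_const fun _ => .inr (by linarith)
  have p0 : 0 < p := by linarith
  have dp : -1 < -(d / p) := by rw [neg_lt_neg_iff, div_lt_one p0]; exact hd
  set M := a * volume.real (ball (0 : EuclideanSpace ℝ (Fin d)) ρ) +
      a ^ (1 - p) * ∫ y in ball 0 ρ, ‖fderiv ℝ ψ y‖ ^ p with hM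
  have I : Integrable (Function.uncurry fun (y : EuclideanSpace ℝ (Fin d)) (t : ℝ) =>
      ρ * ‖fderiv ℝ ψ (t • y)‖) ((volume.restrict (ball 0 ρ)).prod (volume.restrict (Ioc 0 1))) := by
    rw [Measure.prod_restrict]
    refine (ContinuousOn.integrableOn_compact ((isCompact_closedBall 0 ρ).prod isCompact_Icc)
      (Continuous.continuousOn ?_)).mono_set (prod_mono ball_subset_closedBall Ioc_subset_Icc_self)
    exact continuous_const.mul (cg.comp (continuous_snd.smul continuous_fst))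
  calc
    _ ≤ ∫ y in ball 0 ρ, ∫ t in Ioc (0 : ℝ) 1, ρ * ‖fderiv ℝ ψ (t • y)‖ := by
      refine setIntegral_mono_on (ion (by have := hψ.continuous; fun_prop) _ _) I.integral_prod_left
        measurableSet_ball fun y hy => ?_
      have c : Continuous fun t : ℝ => fderiv ℝ ψ (t • y) :=
        (hψ.continuous_fderiv one_ne_zero).comp (by fun_prop)
      have := intervalIntegral.integral_eq_sub_of_hasDerivAt (a := 0) (b := 1)
        (f := fun t : ℝ => ψ (t • y)) (f' := fun t => fderiv ℝ ψ (t • y) y) (fun t _ => by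
          simpa [Function.comp_def] using (hψ.differentiable one_ne_zero _).hasFDerivAt.comp_hasDerivAt t
            ((hasDerivAt_id t).smul_const y)) ((c.clm_apply continuous_const).intervalIntegrable _ _)
      rw [one_smul, zero_smul] at this
      rw [← this, ← intervalIntegral.integral_of_le zero_le_one]
      refine (intervalIntegral.abs_integral_le_integral_abs zero_le_one).trans
        (intervalIntegral.integral_mono_on zero_le_one
          ((c.clm_apply continuous_const).abs.intervalIntegrable _ _)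
          ((continuous_const.mul c.norm).intervalIntegrable _ _) fun t _ => ?_)
      rw [mul_comm]
      exact ((fderiv ℝ ψ (t • y)).le_opNorm y).trans
        (mul_le_mul_of_nonneg_left (mem_ball_zero_iff.1 hy).le (norm_nonneg _))
    _ = ∫ t in Ioc (0 : ℝ) 1, ∫ y in ball 0 ρ, ρ * ‖fderiv ℝ ψ (t • y)‖ := integral_integral_swap I
    _ ≤ ∫ t in Ioc (0 : ℝ) 1, ρ * M * t ^ (-(d / p)) := by
      refine setIntegral_mono_on I.integral_prod_right
        ((intervalIntegral.intervalIntegrable_rpow' dp).1.const_mul _) measurableSet_Ioc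
        fun t ht => ?_
      have t0 := ht.1
      have c : Continuous fun y : EuclideanSpace ℝ (Fin d) => t • y := by fun_prop
      rw [integral_const_mul, mul_assoc]
      refine mul_le_mul_of_nonneg_left ?_ ρ0.le
      refine (setIntegral_mono_on (g := fun y => a * t ^ (-(d / p)) + (a * t ^ (-(d / p))) ^ (1 - p) *
        ‖fderiv ℝ ψ (t • y)‖ ^ p) (ion (cg.comp c) _ _)
        (ion (continuous_const.add (continuous_const.mul (cp.comp c))) _ _) measurableSet_ball
        fun y _ => young (norm_nonneg _) (by positivity) hp).trans ?_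
      have c2 : Continuous fun y : EuclideanSpace ℝ (Fin d) => (a * t ^ (-(d / p))) ^ (1 - p) *
        ‖fderiv ℝ ψ (t • y)‖ ^ p := continuous_const.mul (cp.comp c)
      rw [integral_add (ion continuous_const _ _) (ion c2 _ _), integral_const_mul (_ ^ _), Measure.setIntegral_comp_smul_of_pos volume
          (fun y => ‖fderiv ℝ ψ y‖ ^ p) _ t0, Real.mul_rpow a0.le (by positivity),
        ← Real.rpow_mul t0.le, setIntegral_const, hM, add_mul, finrank_euclideanSpace_fin,
        smul_eq_mul, smul_eq_mul]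
      have e : t ^ (-(d / p) * (1 - p)) * (t ^ d)⁻¹ = t ^ (-(d / p)) := by
        rw [← Real.rpow_natCast, ← Real.rpow_neg t0.le, ← Real.rpow_add t0]
        congr 1; field_simp; ring
      have l : ∫ y in t • ball (0 : EuclideanSpace ℝ (Fin d)) ρ, ‖fderiv ℝ ψ y‖ ^ p ≤
          ∫ y in ball 0 ρ, ‖fderiv ℝ ψ y‖ ^ p := by
        refine setIntegral_mono_set (ion cp _ _) (.of_forall fun y => by positivity)
          (LE.le.eventuallyLE ?_)
        rw [_root_.smul_ball t0.ne', smul_zero]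
        exact ball_subset_ball (by rw [Real.norm_of_nonneg t0.le]; nlinarith [ht.2])
      have := mul_le_mul_of_nonneg_left l (show 0 ≤ a ^ (1 - p) * t ^ (-(d / p)) by positivity)
      rw [mul_assoc (a ^ (1 - p)), ← mul_assoc (t ^ (_ * _ : ℝ)), e]
      nlinarith
    _ = _ := by
      rw [integral_const_mul, ← intervalIntegral.integral_of_le zero_le_one, integral_rpow (.inl dp),
        Real.one_rpow, Real.zero_rpow (by linarith), sub_zero, neg_add_eq_sub, mul_one_div]

theorem loc {p : ℝ} (hp : 1 ≤ p) (hd : (d : ℝ) < p) {ψ : EuclideanSpace ℝ (Fin d) → ℝ}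
    (hψ : ContDiff ℝ 1 ψ) {ρ η : ℝ} (ρ0 : 0 < ρ) (η0 : 0 < η) (w : EuclideanSpace ℝ (Fin d)) :
    volume.real (ball (0 : EuclideanSpace ℝ (Fin d)) ρ) / 2 ≤ ∫ y in ball w ρ,
      ({y | |ψ y - ψ w| < η}.indicator 1 y + (2 * ρ / (η * (1 - d / p))) ^ p * ‖fderiv ℝ ψ y‖ ^ p) := by
  have p0 : 0 < p := by linarith
  have δ0 : 0 < 1 - d / p := by rw [sub_pos, div_lt_one p0]; exact hd
  have c := hψ.continuous
  have cp : Continuous fun y => ‖fderiv ℝ ψ y‖ ^ p :=
    (hψ.continuous_fderiv one_ne_zero).norm.rpow_const fun _ => .inr (by linarith)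
  have tr : ∀ f : EuclideanSpace ℝ (Fin d) → ℝ, ∫ y in ball 0 ρ, f (w + y) = ∫ y in ball w ρ, f y :=
    fun f => by
      rw [← (measurePreserving_add_left volume w).setIntegral_preimage_emb
        (measurableEmbedding_addLeft w) f (ball w ρ), preimage_add_ball]; simp
  have m := mean hp hd (ψ := fun y => ψ (w + y)) (hψ.comp (by fun_prop)) ρ0
    (a := η * (1 - d / p) / (2 * ρ)) (by positivity)
  simp only [fderiv_comp_add_left, add_zero] at m
  rw [tr fun y => |ψ y - ψ w|, tr fun y => ‖fderiv ℝ ψ y‖ ^ p] at m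
  have ms : MeasurableSet {y | |ψ y - ψ w| < η} :=
    (isOpen_lt (by fun_prop) continuous_const).measurableSet
  have i1 : IntegrableOn ({y | |ψ y - ψ w| < η}.indicator (1 : EuclideanSpace ℝ (Fin d) → ℝ))
    (ball w ρ) := (ion continuous_const w ρ).indicator ms
  have i2 : IntegrableOn (fun y => η⁻¹ * |ψ y - ψ w|) (ball w ρ) := ion (by fun_prop) w ρ
  have a := setIntegral_mono_on (ion (f := fun _ => (1 : ℝ)) continuous_const w ρ) (i1.add i2)
    measurableSet_ball fun y _ => by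
      by_cases h : |ψ y - ψ w| < η
      · have : 0 ≤ η⁻¹ * |ψ y - ψ w| := by positivity
        simpa [h] using this
      · simpa [h, le_inv_mul_iff₀ η0] using not_lt.1 h
  rw [integral_add' i1 i2, integral_const_mul, setIntegral_const,
    Measure.addHaar_real_ball_center, smul_eq_mul, mul_one] at a
  rw [integral_add i1 ((ion cp w ρ).const_mul _), integral_const_mul]
  have e0 : 0 ≤ ∫ y in ball w ρ, ‖fderiv ℝ ψ y‖ ^ p := integral_nonneg fun y => by positivity
  set e := ∫ y in ball w ρ, ‖fderiv ℝ ψ y‖ ^ p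
  have k : (η * (1 - d / p) / (2 * ρ)) ^ (1 - p) =
      η * (1 - d / p) / (2 * ρ) * (2 * ρ / (η * (1 - d / p))) ^ p := by
    rw [sub_eq_add_neg 1 p, Real.rpow_add (by positivity), Real.rpow_one,
      Real.rpow_neg (by positivity), ← Real.inv_rpow (by positivity), inv_div]
  rw [k] at m
  have k0 : 0 ≤ (2 * ρ / (η * (1 - d / p))) ^ p * e := by positivity
  have := mul_le_mul_of_nonneg_left m (inv_pos.2 η0).le
  have z : ∀ b q : ℝ, η⁻¹ * (ρ * (η * (1 - d / p) / (2 * ρ) * b + η * (1 - d / p) / (2 * ρ) * q * e) /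
      (1 - d / p)) = b / 2 + q * e / 2 := fun b q => by
    generalize 1 - d / p = δ at δ0
    field_simp
  rw [z] at this
  linarith

theorem core {p K : ℝ} (hp : 1 ≤ p) (hd : (d : ℝ) < p) : ∃ s > 0,
    ∀ (ψ : EuclideanSpace ℝ (Fin d) → ℝ) (Ω : Set (EuclideanSpace ℝ (Fin d))) (R m : ℝ),
      ContDiff ℝ 1 ψ → HasCompactSupport ψ → MeasurableSet Ω → volume Ω ≠ ⊤ → 0 < R → 0 < m →
      (∀ x ∈ Ω, ∃ z ∉ Ω, dist z x < 2 * R) → (∀ x ∉ Ω, ψ x = 0) →
      (∫ x, ‖fderiv ℝ ψ x‖ ^ p) * R ^ p ≤ K * m ^ p * volume.real Ω →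
      s * volume.real Ω ≤ volume.real (Ω ∩ {x | |ψ x| ≤ m / 2}) := by
  have p0 : 0 < p := by linarith
  have δ0 : 0 < 1 - d / p := by rw [sub_pos, div_lt_one p0]; exact hd
  obtain ⟨κ, ⟨k1, k2⟩, k0⟩ : ∃ κ : ℝ, (3 ^ d * (8 / (1 - d / p)) ^ p * K * κ ^ (p - d) < 1 / 4 ∧
      κ < 1) ∧ 0 < κ := by
    have : ContinuousAt (fun κ : ℝ => 3 ^ d * (8 / (1 - d / p)) ^ p * K * κ ^ (p - d)) 0 :=
      continuousAt_const.mul (Real.continuousAt_rpow_const _ _ (.inr (by linarith)))
    exact ((((this.eventually (gt_mem_nhds (by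
      beta_reduce; rw [Real.zero_rpow (by linarith)]; norm_num))).and (gt_mem_nhds zero_lt_one)).filter_mono
      (nhdsWithin_le_nhds (s := Ioi 0))).and self_mem_nhdsWithin).exists
  refine ⟨κ ^ d / 4 / (3 ^ d + 1), by positivity, fun ψ Ω R m hψ hc hΩ hf R0 m0 hz h0 hE => ?_⟩
  have c := hψ.continuous
  have cp : Continuous fun y => ‖fderiv ℝ ψ y‖ ^ p :=
    (hψ.continuous_fderiv one_ne_zero).norm.rpow_const fun _ => .inr (by linarith)
  have ip : Integrable fun y => ‖fderiv ℝ ψ y‖ ^ p := cp.integrable_of_hasCompactSupport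
    ((hc.fderiv ℝ).comp_left (g := fun L => ‖L‖ ^ p) (by simp [p0.ne']))
  set S := Ω ∩ {x | |ψ x| ≤ m / 2} with hS
  have mS : MeasurableSet S := hΩ.inter (isClosed_le (by fun_prop) continuous_const).measurableSet
  have iS : Integrable (S.indicator (1 : EuclideanSpace ℝ (Fin d) → ℝ)) :=
    (integrable_indicator_iff mS).2 (integrableOn_const (ne_top_of_le_ne_top hf
      (measure_mono inter_subset_left)))
  set C := (2 * (κ * R) / (m / 4 * (1 - d / p))) ^ p with hC
  have C0 : 0 ≤ C := by positivity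
  have n0 : ∀ y, 0 ≤ S.indicator (1 : EuclideanSpace ℝ (Fin d) → ℝ) y + C * ‖fderiv ℝ ψ y‖ ^ p :=
    fun y => add_nonneg (indicator_nonneg (fun _ _ => zero_le_one) _) (by positivity)
  have t := tonelli (h := fun y => S.indicator 1 y + C * ‖fderiv ℝ ψ y‖ ^ p)
    ((measurable_one.indicator mS).add (cp.measurable.const_mul _)) n0 (iS.add (ip.const_mul _))
    (hΩ.diff mS) (c := volume.real (ball (0 : EuclideanSpace ℝ (Fin d)) (κ * R)) / 2) (r := 3 * R)
    (by positivity) fun x hx => by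
      obtain ⟨z, z1, z2⟩ := hz x hx.1
      have hx2 : m / 2 < |ψ x| := not_le.1 fun h => hx.2 ⟨hx.1, h⟩
      obtain ⟨w, w1, w2⟩ := (convex_ball x (2 * R)).isPreconnected.intermediate_value z2
        (mem_ball_self (by positivity)) c.abs.continuousOn (show m / 4 ∈ _ from
          ⟨by simp only [h0 z z1, abs_zero]; positivity, by linarith⟩)
      refine (loc hp hd hψ (mul_pos k0 R0) (show 0 < m / 4 by positivity) w).trans
        ((setIntegral_mono_on ?_ (iS.add (ip.const_mul _)).integrableOn measurableSet_ball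
          fun y _ => ?_).trans (setIntegral_mono_set (iS.add (ip.const_mul _)).integrableOn
            (.of_forall n0) (LE.le.eventuallyLE (ball_subset_ball' ?_))))
      · exact ((ion continuous_const _ _).indicator (isOpen_lt (by fun_prop)
          continuous_const).measurableSet).add (ip.const_mul _).integrableOn
      · refine add_le_add (indicator_le_indicator_of_subset (fun u hu => ?_)
          (fun _ => zero_le_one) y) le_rfl
        have a := abs_sub_abs_le_abs_sub (ψ u) (ψ w)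
        have b := abs_sub_abs_le_abs_sub (ψ w) (ψ u)
        rw [abs_sub_comm] at b
        have hu : |ψ u - ψ w| < m / 4 := hu
        have w2 : |ψ w| = m / 4 := w2
        refine ⟨by_contra fun n => ?_, show |ψ u| ≤ m / 2 by linarith⟩
        rw [h0 u n, abs_zero] at b; rw [h0 u n] at hu; linarith
      · have := mem_ball.1 w1
        nlinarith
  have bl : ∀ r, 0 < r → volume.real (ball (0 : EuclideanSpace ℝ (Fin d)) r) =
      r ^ d * volume.real (ball (0 : EuclideanSpace ℝ (Fin d)) 1) := fun r hr => by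
    rw [measureReal_def, Measure.addHaar_ball_of_pos _ _ hr, ENNReal.toReal_mul,
      ENNReal.toReal_ofReal (by positivity), finrank_euclideanSpace_fin, measureReal_def]
  have ω0 : 0 < volume.real (ball (0 : EuclideanSpace ℝ (Fin d)) 1) :=
    ENNReal.toReal_pos (measure_ball_pos _ _ one_pos).ne' measure_ball_lt_top.ne
  rw [integral_add iS (ip.const_mul _), integral_const_mul, integral_indicator_one mS,
    bl _ (mul_pos k0 R0), bl _ (show 0 < 3 * R by positivity),
    measureReal_sdiff inter_subset_left mS hf, mul_pow, mul_pow] at t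
  set V := volume.real Ω
  set E := ∫ x, ‖fderiv ℝ ψ x‖ ^ p
  have V0 : 0 ≤ V := measureReal_nonneg
  have S0 : 0 ≤ volume.real S := measureReal_nonneg
  have t2 : κ ^ d / 2 * (V - volume.real S) ≤ 3 ^ d * (volume.real S + C * E) := by
    refine le_of_mul_le_mul_left ?_ (mul_pos (pow_pos R0 d) ω0)
    linarith
  have e : C = (8 / (1 - d / p)) ^ p * (κ ^ (p - d) * κ ^ d) * R ^ p / m ^ p := by
    rw [← Real.rpow_natCast κ, ← Real.rpow_add k0, sub_add_cancel, ← Real.mul_rpow (by positivity)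
      k0.le, ← Real.mul_rpow (by positivity) R0.le, ← Real.div_rpow (by positivity) m0.le, hC]
    congr 1; field_simp; ring
  have t3 : C * E ≤ (8 / (1 - d / p)) ^ p * (κ ^ (p - d) * κ ^ d) * (K * V) := by
    rw [e, div_mul_eq_mul_div, div_le_iff₀ (by positivity), mul_assoc, mul_assoc _ (K * V)]
    exact mul_le_mul_of_nonneg_left (by linarith) (by positivity)
  have t4 := mul_le_mul_of_nonneg_right k1.le (show 0 ≤ κ ^ d * V by positivity)
  have t5 := mul_le_mul_of_nonneg_left t3 (show (0 : ℝ) ≤ 3 ^ d by positivity)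
  have t6 := mul_le_mul_of_nonneg_right (pow_le_one₀ k0.le k2.le (n := d)) S0
  rw [div_mul_eq_mul_div, div_le_iff₀ (by positivity)]
  nlinarith

theorem conv {p : ℝ} (hp : 1 < p) : ∃ δ > 0, ∀ t : ℝ, 0 ≤ t → 1 + p * (t - 1) ≤ t ^ p ∧
    (t ≤ 1 / 2 → 1 + p * (t - 1) + δ ≤ t ^ p) := by
  have a := one_add_mul_self_lt_rpow_one_add (s := -(1 / 2)) (by norm_num) (by norm_num) hp
  rw [show (1 : ℝ) + -(1 / 2) = 1 / 2 by norm_num] at a
  refine ⟨(1 / 2) ^ p - 1 + p / 2, by linarith, fun t t0 => ⟨by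
    simpa using one_add_mul_self_le_rpow_one_add (s := t - 1) (by linarith) hp.le, fun h => ?_⟩⟩
  have b := one_add_mul_self_le_rpow_one_add (s := 2 * t - 1) (by linarith) hp.le
  have c : ((1 : ℝ) / 2) ^ p ≤ 1 / 2 := by
    simpa using Real.rpow_le_rpow_of_exponent_ge (x := 1 / 2) (by norm_num) (by norm_num) hp.le
  have e : t ^ p = (1 / 2) ^ p * (1 + (2 * t - 1)) ^ p := by
    rw [← Real.mul_rpow (by norm_num) (by linarith)]; congr 1; ring
  have c0 : (0 : ℝ) ≤ (1 / 2) ^ p := by positivity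
  have := mul_le_mul_of_nonneg_left b c0
  have := mul_le_mul_of_nonneg_left c (show 0 ≤ p * (1 - 2 * t) by nlinarith)
  nlinarith

theorem gap {p : ℝ} (hp : 1 < p) : ∃ δ > 0, ∀ (ψ : EuclideanSpace ℝ (Fin d) → ℝ)
    (Ω : Set (EuclideanSpace ℝ (Fin d))) (m : ℝ), Continuous ψ → HasCompactSupport ψ →
      MeasurableSet Ω → volume Ω ≠ ⊤ → 0 < m → (∀ x ∉ Ω, ψ x = 0) →
      ∫ x, |ψ x| = m * volume.real Ω →
      m ^ p * (volume.real Ω + δ * volume.real (Ω ∩ {x | |ψ x| ≤ m / 2})) ≤ ∫ x, |ψ x| ^ p := by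
  obtain ⟨δ, d0, hδ⟩ := conv hp
  refine ⟨δ, d0, fun ψ Ω m c hc hΩ hf m0 h0 hA => ?_⟩
  have p0 : p ≠ 0 := by linarith
  have i1 : Integrable fun x => |ψ x| := (c.integrable_of_hasCompactSupport hc).abs
  have i2 : Integrable fun x => |ψ x| ^ p :=
    (c.abs.rpow_const fun _ => .inr (by linarith)).integrable_of_hasCompactSupport
      (hc.comp_left (g := fun u => |u| ^ p) (by simp [p0]))
  have ms : MeasurableSet {x | |ψ x| ≤ m / 2} :=
    (isClosed_le (by fun_prop) continuous_const).measurableSet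
  have j0 : ∀ a : ℝ, IntegrableOn (fun _ => a) Ω := fun a => integrableOn_const hf
  have j1 : IntegrableOn (fun x => 1 - p + p / m * |ψ x|) Ω :=
    (j0 _).add (i1.const_mul _).integrableOn
  have j2 : IntegrableOn (fun x => δ * {x | |ψ x| ≤ m / 2}.indicator 1 x) Ω :=
    ((j0 1).indicator ms).const_mul _
  have a := setIntegral_mono_on (j1.add j2) (i2.div_const (m ^ p)).integrableOn hΩ fun x _ => by
    have := hδ (|ψ x| / m) (by positivity)
    rw [← Real.div_rpow (abs_nonneg _) m0.le, Pi.add_apply, div_mul_eq_mul_div, mul_div_assoc]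
    by_cases h : |ψ x| ≤ m / 2
    · have := this.2 (by rw [div_le_iff₀ m0]; linarith)
      simp only [indicator, mem_ofPred_eq, h, if_true, Pi.one_apply]; linarith
    · simp only [indicator, mem_ofPred_eq, h, if_false]; linarith [this.1]
  rw [integral_add' j1 j2, integral_add (j0 _) (i1.const_mul _).integrableOn, integral_const_mul,
    integral_const_mul, integral_indicator_one ms, setIntegral_const, integral_div,
    setIntegral_eq_integral_of_forall_compl_eq_zero fun x hx => by simp [h0 x hx],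
    setIntegral_eq_integral_of_forall_compl_eq_zero fun x hx => by simp [h0 x hx, p0], hA,
    measureReal_restrict_apply ms, inter_comm, le_div_iff₀ (by positivity), ← mul_assoc,
    div_mul_cancel₀ _ m0.ne', smul_eq_mul] at a
  linarith

theorem bump (p : ℝ) : ∃ C ≥ 0, ∀ (x : EuclideanSpace ℝ (Fin d)) (R : ℝ), 0 < R →
    ∃ φ : EuclideanSpace ℝ (Fin d) → ℝ, (ContDiff ℝ (⊤ : ℕ∞) φ ∧ HasCompactSupport φ ∧
      tsupport φ ⊆ ball x R ∧ φ ≠ 0) ∧
        (∫ x, ‖fderiv ℝ φ x‖ ^ p) / (∫ x, |φ x| ^ p) * R ^ p = C := by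
  let b : ContDiffBump (0 : EuclideanSpace ℝ (Fin d)) := ⟨1, 2, one_pos, one_lt_two⟩
  refine ⟨4 ^ p * ((∫ x, ‖fderiv ℝ b x‖ ^ p) / ∫ x, |b x| ^ p), mul_nonneg (by positivity)
    (div_nonneg (integral_nonneg fun _ => by positivity) (integral_nonneg fun _ => by positivity)),
    fun x R R0 => ?_⟩
  let φ : ContDiffBump x := ⟨R / 4, R / 2, by positivity, by linarith⟩
  have e : ⇑φ = fun y => b ((R / 4)⁻¹ • (y - x)) := by
    funext y
    rw [ContDiffBump.apply, ContDiffBump.apply]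
    congr 1
    · simp only [φ, b]; field_simp; norm_num
    · simp [φ, b]
  refine ⟨φ, ⟨φ.contDiff, φ.hasCompactSupport, by
    rw [φ.tsupport_eq]; exact closedBall_subset_ball (half_lt_self R0), fun h => by
      simpa [h] using φ.one_of_mem_closedBall (mem_closedBall_self φ.rIn_pos.le)⟩, ?_⟩
  have f : ∀ y, ‖fderiv ℝ φ y‖ ^ p = (4 / R) ^ p * ‖fderiv ℝ b ((R / 4)⁻¹ • (y - x))‖ ^ p := fun y => by
    rw [e, fderiv_comp_sub (f := fun z => b ((R / 4)⁻¹ • z)), fderiv_comp_smul, norm_smul,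
      Real.mul_rpow (norm_nonneg _) (norm_nonneg _), inv_div, Real.norm_of_nonneg (by positivity)]
  simp only [f]
  rw [integral_const_mul, e, integral_sub_right_eq_self
    (fun z => ‖fderiv ℝ b ((R / 4)⁻¹ • z)‖ ^ p), integral_sub_right_eq_self
    (fun z => |b ((R / 4)⁻¹ • z)| ^ p), Measure.integral_comp_inv_smul_of_nonneg volume
    (fun z => ‖fderiv ℝ b z‖ ^ p) (by positivity), Measure.integral_comp_inv_smul_of_nonneg volume
    (fun z => |b z| ^ p) (by positivity), smul_eq_mul, smul_eq_mul, mul_div_assoc,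
    mul_div_mul_left _ _ (by positivity), Real.div_rpow (by norm_num) R0.le]
  field_simp

theorem fin {l m V E B R C S s δ q A : ℝ} (l0 : 0 ≤ l) (mp : 0 < m) (V0 : 0 < V) (E0 : 0 ≤ E)
    (Rp : 0 < R) (s0 : 0 < s) (d0 : 0 < δ) (q0 : 0 ≤ q) (l1 : l ≤ E / B) (l2 : l * R ≤ C)
    (g1 : m * (V + δ * S) ≤ B) (g2 : E * R ≤ 2 * C * m * V → s * V ≤ S) (hA : A = m * (q * V)) :
    l * (A / E) ≤ max (1 / 2) (1 + δ * s)⁻¹ * q := by
  have k : l * (m * V) ≤ max (1 / 2) (1 + δ * s)⁻¹ * E := by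
    by_cases h : E * R ≤ 2 * C * m * V
    · have g3 : m * V * (1 + δ * s) ≤ B := by
        have := mul_le_mul_of_nonneg_left (g2 h) (mul_pos mp d0).le
        linarith
      rw [le_div_iff₀ (lt_of_lt_of_le (by positivity) g3)] at l1
      refine le_trans ?_ (mul_le_mul_of_nonneg_right (le_max_right _ _) E0)
      rw [le_inv_mul_iff₀ (by positivity)]
      linarith [mul_le_mul_of_nonneg_left g3 l0]
    · refine le_trans ?_ (mul_le_mul_of_nonneg_right (le_max_left _ _) E0)
      refine le_of_mul_le_mul_right ?_ Rp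
      linarith [mul_le_mul_of_nonneg_right l2 (mul_pos mp V0).le]
  rcases E0.eq_or_lt with e | e
  · rw [← e, div_zero, mul_zero]; positivity
  rw [← mul_div_assoc, div_le_iff₀ e, hA]
  linarith [mul_le_mul_of_nonneg_right k q0]

theorem main (hd : 1 ≤ d) {p : ℝ} (hp : (d : ℝ) < p) : ∃ c : ℝ, c < 1 ∧
    ∀ Ω : Set (EuclideanSpace ℝ (Fin d)), IsOpen Ω → Bornology.IsBounded Ω → Ω.Nonempty →
      ∀ ψ : EuclideanSpace ℝ (Fin d) → ℝ, ContDiff ℝ (⊤ : ℕ∞) ψ → HasCompactSupport ψ →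
        tsupport ψ ⊆ Ω → ψ ≠ 0 → ∀ l : ℝ, 0 ≤ l → (∀ φ : EuclideanSpace ℝ (Fin d) → ℝ,
          ContDiff ℝ (⊤ : ℕ∞) φ ∧ HasCompactSupport φ ∧ tsupport φ ⊆ Ω ∧ φ ≠ 0 →
            l ≤ (∫ x, ‖fderiv ℝ φ x‖ ^ p) / ∫ x, |φ x| ^ p) →
          l * ((∫ x, |ψ x|) ^ p / (∫ x, ‖fderiv ℝ ψ x‖ ^ p)) ≤ c * volume.real Ω ^ (p - 1) := by
  have p1 : 1 < p := lt_of_le_of_lt (by exact_mod_cast hd) hp
  obtain ⟨C, C0, hC⟩ := bump (d := d) p
  obtain ⟨s, s0, hs⟩ := core (K := 2 * C) p1.le hp
  obtain ⟨δ, d0, hδ⟩ := gap (d := d) p1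
  refine ⟨max (1 / 2) (1 + δ * s)⁻¹, max_lt (by norm_num) (inv_lt_one_of_one_lt₀ (by
    linarith [mul_pos d0 s0])), fun Ω ho hb hn ψ h1 h2 h3 h4 l l0 lb => ?_⟩
  have : Nonempty (Fin d) := ⟨⟨0, hd⟩⟩
  have ne : Ωᶜ.Nonempty := nonempty_compl.2 fun h => NormedSpace.unbounded_univ ℝ _ (h ▸ hb)
  obtain ⟨x0, -, hx⟩ := hb.isCompact_closure.exists_isMaxOn hn.closure
    (continuous_infDist_pt Ωᶜ).continuousOn
  have hx : ∀ y ∈ Ω, infDist y Ωᶜ ≤ infDist x0 Ωᶜ := fun y hy => hx (subset_closure hy)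
  obtain ⟨y, hy⟩ := hn
  have R0 : 0 < infDist x0 Ωᶜ := lt_of_lt_of_le
    ((ho.isClosed_compl.notMem_iff_infDist_pos ne).1 (not_not.2 hy)) (hx y hy)
  obtain ⟨φ, ⟨f1, f2, f3, f4⟩, f5⟩ := hC x0 _ R0
  have l2 := mul_le_mul_of_nonneg_right (lb φ ⟨f1, f2, f3.trans ball_infDist_compl_subset,
    f4⟩) (Real.rpow_nonneg R0.le p)
  rw [f5] at l2
  have hf : volume Ω ≠ ⊤ := hb.measure_lt_top.ne
  have V0 : 0 < volume.real Ω := ENNReal.toReal_pos (ho.measure_pos _ ⟨y, hy⟩).ne' hf
  have z : ∀ x ∉ Ω, ψ x = 0 := fun x hx => image_eq_zero_of_notMem_tsupport fun h => hx (h3 h)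
  have A0 : 0 < ∫ x, |ψ x| := by
    obtain ⟨u, hu⟩ := Function.ne_iff.1 h4
    exact h1.continuous.abs.integral_pos_of_hasCompactSupport_nonneg_nonzero h2.abs
      (fun _ => abs_nonneg _) (abs_ne_zero.2 hu)
  obtain ⟨m, m0, hm⟩ : ∃ m > 0, ∫ x, |ψ x| = m * volume.real Ω :=
    ⟨_, div_pos A0 V0, (div_mul_cancel₀ _ V0.ne').symm⟩
  refine fin l0 (Real.rpow_pos_of_pos m0 p) V0 (integral_nonneg fun _ => by positivity)
    (Real.rpow_pos_of_pos R0 p) s0 d0 (Real.rpow_nonneg V0.le _) (lb ψ ⟨h1, h2, h3, h4⟩) l2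
    (hδ ψ Ω m h1.continuous h2 ho.measurableSet hf m0 z hm)
    (hs ψ Ω _ m (h1.of_le (by exact_mod_cast le_top)) h2 ho.measurableSet hf R0 m0
      (fun x h => ?_) z) ?_
  · obtain ⟨z, z1, z2⟩ := (infDist_lt_iff ne).1 ((hx x h).trans_lt (lt_two_mul_self R0))
    exact ⟨z, z1, by rwa [dist_comm]⟩
  · rw [hm, Real.mul_rpow m0.le V0.le, Real.rpow_sub_one V0.ne', div_mul_cancel₀ _ V0.ne']

end Pool.Agent.Lib.helper23.Polya
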