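import Mathlib

namespace Pool.Agent.Lib.helper23.QcA

open Finset

def Pl (n c : ℕ) : Prop :=
  ∃ S : Finset (ℕ × ℕ), (∀ p ∈ S, p.1 < n ∧ p.2 < n) ∧ S.card = n * c ∧
    (∀ a : ℕ, (S.filter fun p => p.1 = a).card ≤ c) ∧
    (∀ b : ℕ, (S.filter fun p => p.2 = b).card ≤ c) ∧
    (∀ k : ℕ, (S.filter fun p => p.1 + p.2 = k).card ≤ c) ∧
    (∀ d : ℤ, (S.filter fun p => (p.1 : ℤ) - (p.2 : ℤ) = d).card ≤ c)

lemma line (n c : ℕ) (φ : ℕ → ℕ → ℕ) (L : ℕ × ℕ → Prop) [DecidablePred L] (l : ℕ → ℕ → ℕ)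
    (hl : ∀ i < n, ∀ u < c, l i u < c)
    (h : ∀ i < n, ∀ u < c, ∀ i' < n, ∀ u' < c, L (i, φ i u) → L (i', φ i' u') → l i u = l i' u' →
      i = i' ∧ u = u') :
    (((range n ×ˢ range c).image fun p => (p.1, φ p.1 p.2)).filter L).card ≤ c := by
  rw [Finset.filter_image]
  refine le_trans Finset.card_image_le ?_
  conv_rhs => rw [← Finset.card_range c]
  refine Finset.card_le_card_of_injOn (fun p => l p.1 p.2) ?_ ?_
  · intro p hp
    simp only [Finset.coe_filter, Finset.mem_product, Finset.mem_range, Set.mem_ofPred_eq] at hp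
    simpa using hl _ hp.1.1 _ hp.1.2
  · intro p hp q hq e
    simp only [Finset.coe_filter, Finset.mem_product, Finset.mem_range, Set.mem_ofPred_eq] at hp hq
    have := h _ hp.1.1 _ hp.1.2 _ hq.1.1 _ hq.1.2 hp.2 hq.2 e
    exact Prod.ext this.1 this.2

lemma mk (n c : ℕ) (φ lc ls ld : ℕ → ℕ → ℕ) (hφ : ∀ i < n, ∀ u < c, φ i u < n)
    (inj : ∀ i < n, ∀ u < c, ∀ v < c, φ i u = φ i v → u = v)
    (b1 : ∀ i < n, ∀ u < c, lc i u < c) (b2 : ∀ i < n, ∀ u < c, ls i u < c)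
    (b3 : ∀ i < n, ∀ u < c, ld i u < c)
    (h1 : ∀ i < n, ∀ u < c, ∀ i' < n, ∀ u' < c, φ i u = φ i' u' → lc i u = lc i' u' → i = i')
    (h2 : ∀ i < n, ∀ u < c, ∀ i' < n, ∀ u' < c, i + φ i u = i' + φ i' u' → ls i u = ls i' u' →
      i = i')
    (h3 : ∀ i < n, ∀ u < c, ∀ i' < n, ∀ u' < c, i + φ i' u' = i' + φ i u → ld i u = ld i' u' →
      i = i') : Pl n c := by
  refine ⟨(range n ×ˢ range c).image fun p => (p.1, φ p.1 p.2), ?_, ?_, ?_, ?_, ?_, ?_⟩
  · intro p hp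
    obtain ⟨q, hq, rfl⟩ := Finset.mem_image.1 hp
    simp only [Finset.mem_product, Finset.mem_range] at hq
    exact ⟨hq.1, hφ _ hq.1 _ hq.2⟩
  · rw [Finset.card_image_of_injOn]
    · simp
    · intro p hp q hq e
      simp only [Finset.coe_product, Finset.coe_range, Set.mem_prod, Set.mem_Iio] at hp hq
      have e1 : p.1 = q.1 := (Prod.mk.inj e).1
      have e2 : φ p.1 p.2 = φ q.1 q.2 := (Prod.mk.inj e).2
      rw [← e1] at e2
      exact Prod.ext e1 (inj _ hp.1 _ hp.2 _ hq.2 e2)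
  · intro a
    refine line n c φ _ (fun _ u => u) (fun _ _ _ h => h) ?_
    intro i _ u _ i' _ u' _ e1 e2 e3
    exact ⟨e1.trans e2.symm, e3⟩
  · intro a
    refine line n c φ _ lc b1 ?_
    intro i hi u hu i' hi' u' hu' e1 e2 e3
    dsimp only at e1 e2
    have := h1 i hi u hu i' hi' u' hu' (by omega) e3
    subst this
    exact ⟨rfl, inj _ hi _ hu _ hu' (by omega)⟩
  · intro a
    refine line n c φ _ ls b2 ?_
    intro i hi u hu i' hi' u' hu' e1 e2 e3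
    dsimp only at e1 e2
    have := h2 i hi u hu i' hi' u' hu' (by omega) e3
    subst this
    exact ⟨rfl, inj _ hi _ hu _ hu' (by omega)⟩
  · intro a
    refine line n c φ _ ld b3 ?_
    intro i hi u hu i' hi' u' hu' e1 e2 e3
    dsimp only at e1 e2
    have := h3 i hi u hu i' hi' u' hu' (by omega) e3
    subst this
    exact ⟨rfl, inj _ hi _ hu _ hu' (by omega)⟩

def wr (n x : ℕ) : ℕ := if x < n then 0 else if x < 2 * n then 1 else 2
def md (n x : ℕ) : ℕ := if x < n then x else if x < 2 * n then x - n else x - 2 * n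

def W (n x w j : ℕ) : Prop :=
  j < n ∧ ((w = 0 ∧ j = x) ∨ (w = 1 ∧ j + n = x) ∨ (w = 2 ∧ j + 2 * n = x))

lemma hW {n x : ℕ} (h : x < 3 * n) : W n x (wr n x) (md n x) := by
  unfold W wr md
  split_ifs <;> omega

/-- `τ i u` is the residue class of `j - 2 i`; labels may use the wrap count. -/
lemma mk2 (n c : ℕ) (τ lc ld : ℕ → ℕ → ℕ) (ls : ℕ → ℕ → ℕ → ℕ)
    (hτ : ∀ i < n, ∀ u < c, τ i u < n)
    (inj : ∀ i < n, ∀ u < c, ∀ v < c, τ i u = τ i v → u = v)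
    (b1 : ∀ i < n, ∀ u < c, lc i u < c)
    (b2 : ∀ i < n, ∀ u < c, ∀ w j, W n (2 * i + τ i u) w j → ls i u w < c)
    (b3 : ∀ i < n, ∀ u < c, ld i u < c)
    (h1 : ∀ i < n, ∀ u < c, ∀ i' < n, ∀ u' < c, ∀ w j w' j', W n (2 * i + τ i u) w j →
      W n (2 * i' + τ i' u') w' j' → j = j' → lc i u = lc i' u' → i = i')
    (h2 : ∀ i < n, ∀ u < c, ∀ i' < n, ∀ u' < c, ∀ w j w' j', W n (2 * i + τ i u) w j →
      W n (2 * i' + τ i' u') w' j' → i + j = i' + j' → ls i u w = ls i' u' w' → i = i')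
    (h3 : ∀ i < n, ∀ u < c, ∀ i' < n, ∀ u' < c, ∀ w j w' j', W n (2 * i + τ i u) w j →
      W n (2 * i' + τ i' u') w' j' → i + j' = i' + j → ld i u = ld i' u' → i = i') : Pl n c := by
  have hw : ∀ i < n, ∀ u < c, W n (2 * i + τ i u) (wr n (2 * i + τ i u)) (md n (2 * i + τ i u)) :=
    fun i hi u hu => hW (by have := hτ i hi u hu; omega)
  refine mk n c (fun i u => md n (2 * i + τ i u)) lc (fun i u => ls i u (wr n (2 * i + τ i u))) ld
    (fun i hi u hu => (hw i hi u hu).1) ?_ b1 (fun i hi u hu => b2 i hi u hu _ _ (hw i hi u hu)) b3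
    (fun i hi u hu i' hi' u' hu' => h1 i hi u hu i' hi' u' hu' _ _ _ _ (hw i hi u hu) (hw i' hi' u' hu'))
    (fun i hi u hu i' hi' u' hu' => h2 i hi u hu i' hi' u' hu' _ _ _ _ (hw i hi u hu) (hw i' hi' u' hu'))
    (fun i hi u hu i' hi' u' hu' => h3 i hi u hu i' hi' u' hu' _ _ _ _ (hw i hi u hu) (hw i' hi' u' hu'))
  intro i hi u hu v hv e
  have a1 := hw i hi u hu
  have a2 := hw i hi v hv
  have a3 := hτ i hi u hu
  have a4 := hτ i hi v hv
  apply inj i hi u hu v hv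
  unfold W at a1 a2
  omega

end Pool.Agent.Lib.helper23.QcA
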