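import Mathlib
import Pool.Agent.Lib.helper23.QcA

namespace Pool.Agent.Lib.helper23.QcA

lemma odd_a (n c : ℕ) (hc : c ≤ n) (h2 : n % 2 = 1) (h3 : n % 3 ≠ 0) : Pl n c := by
  refine mk2 n c (fun i u => u)
    (fun i u => u)
    (fun i u => u)
    (fun i u w => u) ?_ ?_ ?_ ?_ ?_ ?_ ?_ ?_
  · (intros; (try unfold W at *); (try dsimp only at *); (try split_ifs at *) <;> omega)
  · (intros; (try unfold W at *); (try dsimp only at *); (try split_ifs at *) <;> omega)
  · (intros; (try unfold W at *); (try dsimp only at *); (try split_ifs at *) <;> omega)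
  · (intros; (try unfold W at *); (try dsimp only at *); (try split_ifs at *) <;> omega)
  · (intros; (try unfold W at *); (try dsimp only at *); (try split_ifs at *) <;> omega)
  · (intros; (try unfold W at *); (try dsimp only at *); (try split_ifs at *) <;> omega)
  · (intros; (try unfold W at *); (try dsimp only at *); (try split_ifs at *) <;> omega)
  · (intros; (try unfold W at *); (try dsimp only at *); (try split_ifs at *) <;> omega)

lemma odd_b (n c : ℕ) (hc : c ≤ n) (h2 : n % 2 = 1) (h3 : c % 3 = 0) : Pl n c := by
  refine mk2 n c (fun i u => u)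
    (fun i u => u)
    (fun i u => u)
    (fun i u w => 3 * (u / 3) + w) ?_ ?_ ?_ ?_ ?_ ?_ ?_ ?_
  · (intros; (try unfold W at *); (try dsimp only at *); (try split_ifs at *) <;> omega)
  · (intros; (try unfold W at *); (try dsimp only at *); (try split_ifs at *) <;> omega)
  · (intros; (try unfold W at *); (try dsimp only at *); (try split_ifs at *) <;> omega)
  · (intros; (try unfold W at *); (try dsimp only at *); (try split_ifs at *) <;> omega)
  · (intros; (try unfold W at *); (try dsimp only at *); (try split_ifs at *) <;> omega)
  · (intros; (try unfold W at *); (try dsimp only at *); (try split_ifs at *) <;> omega)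
  · (intros; (try unfold W at *); (try dsimp only at *); (try split_ifs at *) <;> omega)
  · (intros; (try unfold W at *); (try dsimp only at *); (try split_ifs at *) <;> omega)

lemma odd_c (n c : ℕ) (hc : c ≤ n) (h2 : n % 2 = 1) (h4 : n % 3 = 0) (h3 : c % 3 = 2) : Pl n c := by
  refine mk2 n c (fun i u => u)
    (fun i u => u)
    (fun i u => u)
    (fun i u w => if u < 2 then w else 2 + 3 * ((u - 2) / 3) + w) ?_ ?_ ?_ ?_ ?_ ?_ ?_ ?_
  · (intros; (try unfold W at *); (try dsimp only at *); (try split_ifs at *) <;> omega)
  · (intros; (try unfold W at *); (try dsimp only at *); (try split_ifs at *) <;> omega)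
  · (intros; (try unfold W at *); (try dsimp only at *); (try split_ifs at *) <;> omega)
  · (intros; (try unfold W at *); (try dsimp only at *); (try split_ifs at *) <;> omega)
  · (intros; (try unfold W at *); (try dsimp only at *); (try split_ifs at *) <;> omega)
  · (intros; (try unfold W at *); (try dsimp only at *); (try split_ifs at *) <;> omega)
  · (intros; (try unfold W at *); (try dsimp only at *); (try split_ifs at *) <;> omega)
  · (intros; (try unfold W at *); (try dsimp only at *); (try split_ifs at *) <;> omega)

lemma ev_a (n c : ℕ) (hc : c ≤ n) (h2 : n % 2 = 0) (h5 : c % 2 = 0) (h3 : n % 3 ≠ 0) : Pl n c := by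
  refine mk2 n c (fun i u => u)
    (fun i u => 2 * (u / 2) + (if 2 * i < n then 0 else 1))
    (fun i u => u)
    (fun i u w => u) ?_ ?_ ?_ ?_ ?_ ?_ ?_ ?_
  · (intros; (try unfold W at *); (try dsimp only at *); (try split_ifs at *) <;> omega)
  · (intros; (try unfold W at *); (try dsimp only at *); (try split_ifs at *) <;> omega)
  · (intros; (try unfold W at *); (try dsimp only at *); (try split_ifs at *) <;> omega)
  · (intros; (try unfold W at *); (try dsimp only at *); (try split_ifs at *) <;> omega)
  · (intros; (try unfold W at *); (try dsimp only at *); (try split_ifs at *) <;> omega)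
  · (intros; (try unfold W at *); (try dsimp only at *); (try split_ifs at *) <;> omega)
  · (intros; (try unfold W at *); (try dsimp only at *); (try split_ifs at *) <;> omega)
  · (intros; (try unfold W at *); (try dsimp only at *); (try split_ifs at *) <;> omega)

lemma ev_b (n c : ℕ) (hc : c ≤ n) (h2 : n % 2 = 0) (h5 : c % 2 = 0) (h3 : c % 3 = 0) : Pl n c := by
  refine mk2 n c (fun i u => u)
    (fun i u => 2 * (u / 2) + (if 2 * i < n then 0 else 1))
    (fun i u => u)
    (fun i u w => 3 * (u / 3) + w) ?_ ?_ ?_ ?_ ?_ ?_ ?_ ?_
  · (intros; (try unfold W at *); (try dsimp only at *); (try split_ifs at *) <;> omega)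
  · (intros; (try unfold W at *); (try dsimp only at *); (try split_ifs at *) <;> omega)
  · (intros; (try unfold W at *); (try dsimp only at *); (try split_ifs at *) <;> omega)
  · (intros; (try unfold W at *); (try dsimp only at *); (try split_ifs at *) <;> omega)
  · (intros; (try unfold W at *); (try dsimp only at *); (try split_ifs at *) <;> omega)
  · (intros; (try unfold W at *); (try dsimp only at *); (try split_ifs at *) <;> omega)
  · (intros; (try unfold W at *); (try dsimp only at *); (try split_ifs at *) <;> omega)
  · (intros; (try unfold W at *); (try dsimp only at *); (try split_ifs at *) <;> omega)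

lemma ev_c (n c : ℕ) (hc : c ≤ n) (h2 : n % 2 = 0) (h5 : c % 2 = 0) (h4 : n % 3 = 0) (h3 : c % 3 = 2) : Pl n c := by
  refine mk2 n c (fun i u => u)
    (fun i u => 2 * (u / 2) + (if 2 * i < n then 0 else 1))
    (fun i u => u)
    (fun i u w => if u < 2 then w else 2 + 3 * ((u - 2) / 3) + w) ?_ ?_ ?_ ?_ ?_ ?_ ?_ ?_
  · (intros; (try unfold W at *); (try dsimp only at *); (try split_ifs at *) <;> omega)
  · (intros; (try unfold W at *); (try dsimp only at *); (try split_ifs at *) <;> omega)
  · (intros; (try unfold W at *); (try dsimp only at *); (try split_ifs at *) <;> omega)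
  · (intros; (try unfold W at *); (try dsimp only at *); (try split_ifs at *) <;> omega)
  · (intros; (try unfold W at *); (try dsimp only at *); (try split_ifs at *) <;> omega)
  · (intros; (try unfold W at *); (try dsimp only at *); (try split_ifs at *) <;> omega)
  · (intros; (try unfold W at *); (try dsimp only at *); (try split_ifs at *) <;> omega)
  · (intros; (try unfold W at *); (try dsimp only at *); (try split_ifs at *) <;> omega)

lemma ev_d (n c : ℕ) (hc : c ≤ n) (h2 : n % 6 = 4) (h5 : c % 2 = 1) : Pl n c := by
  refine mk2 n c (fun i u => if u = 0 then (if 2 * i < n then 1 else 0) else u + 1)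
    (fun i u => if u = 0 then 0 else 1 + 2 * ((u - 1) / 2) + (if 2 * i < n then 0 else 1))
    (fun i u => u)
    (fun i u w => u) ?_ ?_ ?_ ?_ ?_ ?_ ?_ ?_
  · (intros; (try unfold W at *); (try dsimp only at *); (try split_ifs at *) <;> omega)
  · (intros; (try unfold W at *); (try dsimp only at *); (try split_ifs at *) <;> omega)
  · (intros; (try unfold W at *); (try dsimp only at *); (try split_ifs at *) <;> omega)
  · (intros; (try unfold W at *); (try dsimp only at *); (try split_ifs at *) <;> omega)
  · (intros; (try unfold W at *); (try dsimp only at *); (try split_ifs at *) <;> omega)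
  · (intros; (try unfold W at *); (try dsimp only at *); (try split_ifs at *) <;> omega)
  · (intros; (try unfold W at *); (try dsimp only at *); (try split_ifs at *) <;> omega)
  · (intros; (try unfold W at *); (try dsimp only at *); (try split_ifs at *) <;> omega)

lemma ev_e (n c : ℕ) (hc : c ≤ n) (h2 : n % 6 = 2) (h8 : 8 ≤ n) (h5 : c % 2 = 1) : Pl n c := by
  refine mk2 n c (fun i u => if u = 0 then (if 2 * i < n then 3 else 6) else if u ≤ 3 then u - 1 else if u = 4 then 5 else if u = 5 then 4 else u + 1)
    (fun i u => if u = 0 then 0 else 1 + 2 * ((u - 1) / 2) + (if 2 * i < n then 0 else 1))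
    (fun i u => u)
    (fun i u w => u) ?_ ?_ ?_ ?_ ?_ ?_ ?_ ?_
  · (intros; (try unfold W at *); (try dsimp only at *); (try split_ifs at *) <;> omega)
  · (intros; (try unfold W at *); (try dsimp only at *); (try split_ifs at *) <;> omega)
  · (intros; (try unfold W at *); (try dsimp only at *); (try split_ifs at *) <;> omega)
  · (intros; (try unfold W at *); (try dsimp only at *); (try split_ifs at *) <;> omega)
  · (intros; (try unfold W at *); (try dsimp only at *); (try split_ifs at *) <;> omega)
  · (intros; (try unfold W at *); (try dsimp only at *); (try split_ifs at *) <;> omega)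
  · (intros; (try unfold W at *); (try dsimp only at *); (try split_ifs at *) <;> omega)
  · (intros; (try unfold W at *); (try dsimp only at *); (try split_ifs at *) <;> omega)

lemma six_1 (n c : ℕ) (hc : c ≤ n) (h2 : n % 6 = 0) (h5 : c % 6 = 1) : Pl n c := by
  refine mk2 n c (fun i u => if u = 0 then (if 2 * i < n then 1 else 0) else u + 1)
    (fun i u => if u = 0 then 0 else 1 + 2 * ((u - 1) / 2) + (if 2 * i < n then 0 else 1))
    (fun i u => u)
    (fun i u w => if u = 0 then 0 else 1 + 3 * ((u - 1) / 3) + w) ?_ ?_ ?_ ?_ ?_ ?_ ?_ ?_
  · (intros; (try unfold W at *); (try dsimp only at *); (try split_ifs at *) <;> omega)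
  · (intros; (try unfold W at *); (try dsimp only at *); (try split_ifs at *) <;> omega)
  · (intros; (try unfold W at *); (try dsimp only at *); (try split_ifs at *) <;> omega)
  · (intros; (try unfold W at *); (try dsimp only at *); (try split_ifs at *) <;> omega)
  · (intros; (try unfold W at *); (try dsimp only at *); (try split_ifs at *) <;> omega)
  · (intros; (try unfold W at *); (try dsimp only at *); (try split_ifs at *) <;> omega)
  · (intros; (try unfold W at *); (try dsimp only at *); (try split_ifs at *) <;> omega)
  · (intros; (try unfold W at *); (try dsimp only at *); (try split_ifs at *) <;> omega)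

lemma six_3 (n c : ℕ) (hc : c ≤ n) (h2 : n % 6 = 0) (h5 : c % 6 = 3) : Pl n c := by
  refine mk2 n c (fun i u => if u < 3 then (if 2 * i < n then u + 2 - 0 else u + 3 - 0) else u + 3)
    (fun i u => if u < 3 then (if 2 * i < n then 0 + (u - 0) / 2 else 0 + 1 + (u + 1 - 0) / 2) else 3 + 2 * ((u - 3) / 2) + (if 2 * i < n then 0 else 1))
    (fun i u => u)
    (fun i u w => if u < 3 then w else 3 * (u / 3) + w) ?_ ?_ ?_ ?_ ?_ ?_ ?_ ?_
  · (intros; (try unfold W at *); (try dsimp only at *); (try split_ifs at *) <;> omega)
  · (intros; (try unfold W at *); (try dsimp only at *); (try split_ifs at *) <;> omega)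
  · (intros; (try unfold W at *); (try dsimp only at *); (try split_ifs at *) <;> omega)
  · (intros; (try unfold W at *); (try dsimp only at *); (try split_ifs at *) <;> omega)
  · (intros; (try unfold W at *); (try dsimp only at *); (try split_ifs at *) <;> omega)
  · (intros; (try unfold W at *); (try dsimp only at *); (try split_ifs at *) <;> omega)
  · (intros; (try unfold W at *); (try dsimp only at *); (try split_ifs at *) <;> omega)
  · (intros; (try unfold W at *); (try dsimp only at *); (try split_ifs at *) <;> omega)

lemma six_4 (n c : ℕ) (hc : c ≤ n) (h2 : n % 6 = 0) (h5 : c % 6 = 4) : Pl n c := by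
  refine mk2 n c (fun i u => if u = 0 then (if 2 * i < n then 1 else 0) else if u < 4 then (if 2 * i < n then u + 2 - 1 else u + 3 - 1) else u + 2)
    (fun i u => if u = 0 then 0 else if u < 4 then (if 2 * i < n then 1 + (u - 1) / 2 else 1 + 1 + (u + 1 - 1) / 2) else 2 * (u / 2) + (if 2 * i < n then 0 else 1))
    (fun i u => u)
    (fun i u w => if u = 0 then 0 else if u < 4 then 1 + w else 1 + 3 * ((u - 1) / 3) + w) ?_ ?_ ?_ ?_ ?_ ?_ ?_ ?_
  · (intros; (try unfold W at *); (try dsimp only at *); (try split_ifs at *) <;> omega)
  · (intros; (try unfold W at *); (try dsimp only at *); (try split_ifs at *) <;> omega)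
  · (intros; (try unfold W at *); (try dsimp only at *); (try split_ifs at *) <;> omega)
  · (intros; (try unfold W at *); (try dsimp only at *); (try split_ifs at *) <;> omega)
  · (intros; (try unfold W at *); (try dsimp only at *); (try split_ifs at *) <;> omega)
  · (intros; (try unfold W at *); (try dsimp only at *); (try split_ifs at *) <;> omega)
  · (intros; (try unfold W at *); (try dsimp only at *); (try split_ifs at *) <;> omega)
  · (intros; (try unfold W at *); (try dsimp only at *); (try split_ifs at *) <;> omega)

lemma six_5 (n c : ℕ) (hc : c ≤ n) (h2 : n % 6 = 0) (h5 : c % 6 = 5) : Pl n c := by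
  refine mk2 n c (fun i u => if u < 2 then u else if u < 5 then (if 2 * i < n then u + 2 - 2 else u + 3 - 2) else u + 1)
    (fun i u => if u < 2 then (if 2 * i < n then 0 else 1) else if u < 5 then (if 2 * i < n then 2 + (u - 2) / 2 else 2 + 1 + (u + 1 - 2) / 2) else 1 + 2 * ((u - 1) / 2) + (if 2 * i < n then 0 else 1))
    (fun i u => u)
    (fun i u w => if u < 2 then w else if u < 5 then 2 + w else 2 + 3 * ((u - 2) / 3) + w) ?_ ?_ ?_ ?_ ?_ ?_ ?_ ?_
  · (intros; (try unfold W at *); (try dsimp only at *); (try split_ifs at *) <;> omega)
  · (intros; (try unfold W at *); (try dsimp only at *); (try split_ifs at *) <;> omega)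
  · (intros; (try unfold W at *); (try dsimp only at *); (try split_ifs at *) <;> omega)
  · (intros; (try unfold W at *); (try dsimp only at *); (try split_ifs at *) <;> omega)
  · (intros; (try unfold W at *); (try dsimp only at *); (try split_ifs at *) <;> omega)
  · (intros; (try unfold W at *); (try dsimp only at *); (try split_ifs at *) <;> omega)
  · (intros; (try unfold W at *); (try dsimp only at *); (try split_ifs at *) <;> omega)
  · (intros; (try unfold W at *); (try dsimp only at *); (try split_ifs at *) <;> omega)

lemma most (n c : ℕ) (hn : 4 ≤ n) (hc : c ≤ n) (h : ¬ (n % 6 = 3 ∧ c % 3 = 1)) : Pl n c := by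
  by_cases h2 : n % 2 = 1
  · by_cases h3 : n % 3 = 0
    · by_cases h4 : c % 3 = 0
      · exact odd_b n c hc h2 h4
      · exact odd_c n c hc h2 h3 (by omega)
    · exact odd_a n c hc h2 h3
  · by_cases h3 : n % 3 = 0
    · have h6 : n % 6 = 0 := by omega
      have : c % 6 = 0 ∨ c % 6 = 1 ∨ c % 6 = 2 ∨ c % 6 = 3 ∨ c % 6 = 4 ∨ c % 6 = 5 := by omega
      rcases this with q | q | q | q | q | q
      · exact ev_b n c hc (by omega) (by omega) (by omega)
      · exact six_1 n c hc h6 q
      · exact ev_c n c hc (by omega) (by omega) h3 (by omega)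
      · exact six_3 n c hc h6 q
      · exact six_4 n c hc h6 q
      · exact six_5 n c hc h6 q
    · by_cases h5 : c % 2 = 0
      · exact ev_a n c hc (by omega) h5 h3
      · by_cases h6 : n % 6 = 4
        · exact ev_d n c hc h6 (by omega)
        · have h7 : n % 6 = 2 := by omega
          exact ev_e n c hc h7 (by omega) (by omega)

end Pool.Agent.Lib.helper23.QcA
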