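import Mathlib
import Pool.Agent.Lib.helper23.QcA

namespace Pool.Agent.Lib.helper23.QcA

lemma three_1 (n c : ℕ) (hn : 4 ≤ n) (hc : c ≤ n) (h2 : n % 6 = 3) (h5 : c % 3 = 1) : Pl n c := by
  have h9 : 9 ≤ n := by omega
  refine mk2 n c (fun i u => if u = 0 then (if 2 * i + 3 < n then 3 else if 2 * i + 3 = n then 4
      else if i + 2 < n then 5 else 4) else if u ≤ 3 then u - 1 else u + 2)
    (fun i u => u)
    (fun i u => u)
    (fun i u w => if u = 0 then 0 else 1 + 3 * ((u - 1) / 3) + w) ?_ ?_ ?_ ?_ ?_ ?_ ?_ ?_
  · (intros; (try unfold W at *); (try dsimp only at *); (try split_ifs at *) <;> omega)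
  · (intros; (try unfold W at *); (try dsimp only at *); (try split_ifs at *) <;> omega)
  · (intros; (try unfold W at *); (try dsimp only at *); (try split_ifs at *) <;> omega)
  · (intros; (try unfold W at *); (try dsimp only at *); (try split_ifs at *) <;> omega)
  · (intros; (try unfold W at *); (try dsimp only at *); (try split_ifs at *) <;> omega)
  · (intros; (try unfold W at *); (try dsimp only at *); (try split_ifs at *) <;> omega)
  · (intros; (try unfold W at *); (try dsimp only at *); (try split_ifs at *) <;> omega)
  · (intros; (try unfold W at *); (try dsimp only at *); (try split_ifs at *) <;> omega)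

end Pool.Agent.Lib.helper23.QcA
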