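import Mathlib

namespace Pool.Agent.Lib.helper23.QgA

open Filter Topology

/-- Finite-tree property in averaged form. -/
def Avg (X : Type) [NormedAddCommGroup X] : Prop :=
  ∀ θ : ℝ, 0 < θ → ∃ n : ℕ, ∀ y : ℕ → X, (∀ j < n, ‖y j‖ ≤ 1) → ∃ a l : ℕ, 0 < l ∧ a + 2 * l ≤ n ∧
    ‖∑ j ∈ Finset.range l, y (a + l + j) - ∑ j ∈ Finset.range l, y (a + j)‖ < θ * l

theorem avg_uc (Y : Type) [NormedAddCommGroup Y] [NormedSpace ℝ Y] [UniformConvexSpace Y] :
    Avg Y := by
  intro θ hθ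
  obtain ⟨δ0, hδ0, hδ⟩ := exists_forall_closed_ball_dist_add_le_two_sub Y hθ
  set ρ := 2 - min δ0 1 with hρ
  have ρ1 : 1 ≤ ρ := by have := min_le_right δ0 1; linarith
  have ρ2 : ρ < 2 := by have := lt_min hδ0 one_pos; linarith
  have ρ3 : 2 - δ0 ≤ ρ := by have := min_le_left δ0 1; linarith
  obtain ⟨J, hJ⟩ := exists_pow_lt_of_lt_one (half_pos hθ)
    (show ρ / 2 < 1 by linarith)
  refine ⟨2 * 2 ^ J, fun y hy => ?_⟩
  by_contra hc
  push Not at hc
  have key : ∀ j a, a + 2 ^ j ≤ 2 * 2 ^ J → ‖∑ i ∈ Finset.range (2 ^ j), y (a + i)‖ ≤ ρ ^ j := by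
    intro j
    induction j with
    | zero => intro a ha; simpa using hy a (by simpa [Nat.succ_le_iff] using ha)
    | succ j ih =>
      intro a ha
      rw [pow_succ] at ha
      have h1 := ih a (by omega)
      have h2 := ih (a + 2 ^ j) (by omega)
      have h3 := hc a (2 ^ j) (by positivity) (by omega)
      have p0 : 0 < ρ ^ j := by positivity
      have p1 : ρ ^ j ≤ 2 ^ j := pow_le_pow_left₀ (by linarith) ρ2.le j
      have n1 : ∀ v : Y, ‖(ρ ^ j)⁻¹ • v‖ = ‖v‖ / ρ ^ j := fun v => by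
        rw [norm_smul, Real.norm_of_nonneg (by positivity), mul_comm, div_eq_mul_inv]
      have h4 := hδ (x := (ρ ^ j)⁻¹ • ∑ i ∈ Finset.range (2 ^ j), y (a + 2 ^ j + i))
        (by rw [n1, div_le_one p0]; exact h2)
        (y := (ρ ^ j)⁻¹ • ∑ i ∈ Finset.range (2 ^ j), y (a + i))
        (by rw [n1, div_le_one p0]; exact h1)
        (by
          rw [← smul_sub, n1, le_div_iff₀ p0]
          refine le_trans (mul_le_mul_of_nonneg_left ?_ hθ.le) h3
          exact_mod_cast p1)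
      rw [← smul_add, n1, div_le_iff₀ p0] at h4
      rw [pow_succ, mul_two, Finset.sum_range_add, add_comm, pow_succ]
      simp only [← add_assoc]
      nlinarith
  have h1 := key J 0 (by omega)
  have h2 := key J (0 + 2 ^ J) (by omega)
  have h3 := (hc 0 (2 ^ J) (by positivity) (by omega)).trans (norm_sub_le _ _)
  rw [div_pow, div_lt_iff₀ (by positivity)] at hJ
  push_cast at h3
  linarith

theorem avg_equiv {𝕜 X Y : Type} [RCLike 𝕜] [NormedAddCommGroup X] [NormedSpace 𝕜 X]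
    [NormedAddCommGroup Y] [NormedSpace 𝕜 Y] (T : X ≃L[𝕜] Y) (h : Avg Y) : Avg X := by
  intro θ hθ
  obtain ⟨K, hK, h1⟩ := (T : X →L[𝕜] Y).bound
  obtain ⟨K', hK', h2⟩ := (T.symm : Y →L[𝕜] X).bound
  obtain ⟨n, hn⟩ := h (θ / (K * K')) (by positivity)
  refine ⟨n, fun y hy => ?_⟩
  have n1 : ∀ v : Y, ‖((K⁻¹ : ℝ) : 𝕜) • v‖ = ‖v‖ / K := fun v => by
    rw [norm_smul, RCLike.norm_ofReal, abs_of_pos (by positivity), mul_comm, div_eq_mul_inv]
  obtain ⟨a, l, l0, hl, h3⟩ := hn (fun j => ((K⁻¹ : ℝ) : 𝕜) • T (y j)) fun j hj => by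
    rw [n1, div_le_one hK]
    exact (h1 _).trans (mul_le_of_le_one_right hK.le (hy j hj))
  refine ⟨a, l, l0, hl, ?_⟩
  rw [← Finset.smul_sum, ← Finset.smul_sum, ← smul_sub, n1, ← map_sum, ← map_sum, ← map_sub,
    div_lt_iff₀ hK] at h3
  have h4 := h2 (T (∑ j ∈ Finset.range l, y (a + l + j) - ∑ j ∈ Finset.range l, y (a + j)))
  rw [ContinuousLinearEquiv.coe_coe, T.symm_apply_apply] at h4
  refine h4.trans_lt ((mul_lt_mul_of_pos_left h3 hK').trans_eq ?_)
  field_simp

theorem layer {𝕜 X : Type} [RCLike 𝕜] [NormedAddCommGroup X] [NormedSpace 𝕜 X] (v : ℕ → X) (M : ℝ)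
    (hM : 0 ≤ M) (n : ℕ) : ∀ (B : Finset ℕ) (lam : ℕ → ℝ) (μ : ℝ), B.card = n → 0 ≤ μ →
      (∀ i ∈ B, 0 ≤ lam i ∧ lam i ≤ μ) →
      (∀ s, 0 < s → ‖∑ i ∈ B.filter (fun i => s ≤ lam i), v i‖ ≤ M) →
      ‖∑ i ∈ B, (lam i : 𝕜) • v i‖ ≤ μ * M := by
  induction n with
  | zero =>
    intro B lam μ hB hμ _ _
    rw [Finset.card_eq_zero.1 hB, Finset.sum_empty, norm_zero]; positivity
  | succ n ih =>
    intro B lam μ hB hμ h1 h2
    obtain ⟨i0, hi0, hmin⟩ := B.exists_min_image lam (Finset.card_pos.1 (by omega))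
    have e : ∑ i ∈ B, (lam i : 𝕜) • v i = (lam i0 : 𝕜) • ∑ i ∈ B, v i +
        ∑ i ∈ B.erase i0, ((lam i - lam i0 : ℝ) : 𝕜) • v i := by
      rw [Finset.sum_erase _ (by simp), Finset.smul_sum, ← Finset.sum_add_distrib]
      refine Finset.sum_congr rfl fun i _ => ?_
      rw [← add_smul]; congr 1; push_cast; ring
    have h3 := ih (B.erase i0) (fun i => lam i - lam i0) (μ - lam i0)
      (by rw [Finset.card_erase_of_mem hi0]; omega) (sub_nonneg.2 (h1 i0 hi0).2)
      (fun i hi => ⟨sub_nonneg.2 (hmin i (Finset.mem_of_mem_erase hi)),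
        sub_le_sub_right (h1 i (Finset.mem_of_mem_erase hi)).2 _⟩)
      (fun s hs => by
        have := h2 (s + lam i0) (by linarith [(h1 i0 hi0).1])
        refine le_of_eq_of_le ?_ this
        congr 2
        ext i
        simp only [Finset.mem_filter, Finset.mem_erase]
        constructor
        · rintro ⟨⟨_, a⟩, b⟩; exact ⟨a, by linarith⟩
        · rintro ⟨a, b⟩; exact ⟨⟨fun e => by rw [e] at b; linarith, a⟩, by linarith⟩)
    have h4 : ‖(lam i0 : 𝕜) • ∑ i ∈ B, v i‖ ≤ lam i0 * M := by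
      rw [norm_smul, RCLike.norm_ofReal, abs_of_nonneg (h1 i0 hi0).1]
      rcases (h1 i0 hi0).1.eq_or_lt with h | h
      · rw [← h]; simp
      · have := h2 _ h
        rw [Finset.filter_true_of_mem hmin] at this
        exact mul_le_mul_of_nonneg_left this h.le
    rw [e]
    refine (norm_add_le _ _).trans ?_
    linarith

theorem dyadic_sum (I : Finset ℕ) (a F : ℕ → ℝ) (B : ℝ) (hB : 0 < B) (H : ℕ → ℝ) (M : ℝ)
    (ha : ∀ i ∈ I, 0 ≤ a i ∧ a i ≤ B) (hF : ∀ i ∈ I, 0 ≤ F i) (hF0 : ∀ i ∈ I, a i = 0 → F i = 0)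
    (hH : ∀ k, ∑ i ∈ I.filter (fun i => B / 2 ^ (k + 1) < a i ∧ a i ≤ B / 2 ^ k), F i ≤ H k)
    (hM : ∀ K, ∑ k ∈ Finset.range K, H k ≤ M) : ∑ i ∈ I, F i ≤ M := by
  have ex : ∀ i, ∃ k : ℕ, i ∈ I → a i ≠ 0 → B / 2 ^ (k + 1) < a i ∧ a i ≤ B / 2 ^ k := by
    intro i
    by_cases hi : i ∈ I ∧ a i ≠ 0
    · have h0 : 0 < a i := lt_of_le_of_ne (ha i hi.1).1 hi.2.symm
      obtain ⟨k, h1, h2⟩ := exists_nat_pow_near_of_lt_one (x := a i / B) (y := 1 / 2)
        (by positivity) ((div_le_one hB).2 (ha i hi.1).2) (by norm_num) (by norm_num)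
      rw [lt_div_iff₀ hB] at h1
      rw [div_le_iff₀ hB] at h2
      refine ⟨k, fun _ _ => ⟨lt_of_eq_of_lt ?_ h1, h2.trans_eq ?_⟩⟩ <;>
        rw [one_div, inv_pow] <;> field_simp
    · exact ⟨0, fun h1 h2 => absurd ⟨h1, h2⟩ hi⟩
  choose κ hκ using ex
  rw [← Finset.sum_filter_of_ne (p := fun i => a i ≠ 0) fun i hi h h0 => h (hF0 i hi h0),
    ← Finset.sum_fiberwise_of_maps_to (g := κ) (t := Finset.range (I.sup κ + 1)) fun i hi =>
      Finset.mem_range.2 (Nat.lt_succ_of_le (Finset.le_sup (Finset.mem_filter.1 hi).1))]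
  refine le_trans (Finset.sum_le_sum fun k _ => le_trans ?_ (hH k)) (hM _)
  refine Finset.sum_le_sum_of_subset_of_nonneg (fun i hi => ?_)
    fun i hi _ => hF i (Finset.mem_filter.1 hi).1
  simp only [Finset.mem_filter] at hi ⊢
  obtain ⟨⟨h1, h2⟩, rfl⟩ := hi
  exact ⟨h1, hκ i h1 h2⟩

variable {𝕜 X : Type} [RCLike 𝕜] [NormedAddCommGroup X] [NormedSpace 𝕜 X]
  {x' : ℕ → X →L[𝕜] 𝕜} {G : ℝ → X → X} {C : ℝ}

theorem star (hU : Avg X) (hC0 : 0 < C)
    (hG : ∀ t, 0 < t → ∀ f m, x' m (G t f) = if t < ‖x' m f‖ then x' m f else 0)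
    (hC : ∀ t, 0 < t → ∀ f, ‖G t f‖ ≤ C * ‖f‖) (tot : ∀ f, (∀ m, x' m f = 0) → f = 0) :
    ∃ N : ℕ, 0 < N ∧ ∀ (f : X) (D lam : ℝ) (p q : ℕ → ℕ), 0 < D → 0 < lam →
      (∀ j < N, p j < q j) → (∀ j, j + 1 < N → q j ≤ p (j + 1)) →
      (∀ j < N, lam ≤ ‖G (D / 2 ^ q j) f - G (D / 2 ^ p j) f‖) →
      ∃ P Q, p 0 ≤ P ∧ P < Q ∧ Q ≤ q (N - 1) ∧ 2 * lam ≤ ‖G (D / 2 ^ Q) f - G (D / 2 ^ P) f‖ := by
  obtain ⟨L, hL⟩ := pow_unbounded_of_one_lt (8 * C + 1) (one_lt_two (α := ℝ))
  have L0 : 0 < L := by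
    rcases L with _ | L
    · simp at hL; linarith
    · omega
  obtain ⟨n, hn⟩ := hU (1 / 2 ^ L) (by positivity)
  refine ⟨n * (L + 1) + 1, by omega, fun f D lam p q hD hl hpq hqp hlam => ?_⟩
  by_contra hc
  push Not at hc
  set S : ℕ → X := fun i => G (D / 2 ^ i) f with hS
  have mono : ∀ k j, j + k + 1 < n * (L + 1) + 1 → q j + k ≤ p (j + k + 1) := by
    intro k
    induction k with
    | zero => intro j hj; exact hqp j hj
    | succ k ih =>
      intro j hj
      have h1 := ih j (by omega)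
      have h2 := hpq (j + k + 1) (by omega)
      have h3 := hqp (j + k + 1) (by omega)
      have : j + (k + 1) + 1 = j + k + 1 + 1 := by ring
      rw [this]; omega
  have qmono : ∀ j j', j ≤ j' → j' < n * (L + 1) + 1 → q j ≤ q j' := by
    intro j j' h h'
    rcases h.eq_or_lt with rfl | h
    · exact le_rfl
    · obtain ⟨k, rfl⟩ := Nat.exists_eq_add_of_lt h
      have := mono k j h'
      have := hpq _ h'
      omega
  let c : ℕ → ℕ := fun j => q (j * (L + 1))
  have hlt : ∀ j, j < n → j * (L + 1) < n * (L + 1) + 1 := fun j hj =>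
    Nat.lt_succ_of_le (Nat.mul_le_mul_right _ hj.le)
  have cmono : ∀ j j', j ≤ j' → j' < n → c j ≤ c j' := fun j j' h h' =>
    qmono _ _ (Nat.mul_le_mul_right _ h) (hlt _ h')
  have c0 : ∀ j, j < n → p 0 < c j := fun j hj =>
    (hpq 0 (by omega)).trans_le (qmono 0 _ (Nat.zero_le _) (hlt _ hj))
  have inc : ∀ P j, p 0 ≤ P → P ≤ c j → j < n → ‖S (c j) - S P‖ ≤ 2 * lam := fun P j h1 h2 h3 => by
    rcases h2.eq_or_lt with rfl | h2
    · rw [sub_self, norm_zero]; positivity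
    · exact (hc P (c j) h1 h2 (qmono _ _ (by have := hlt j h3; omega) (by omega))).le
  have n1 : ∀ v : X, ‖(((2 * lam)⁻¹ : ℝ) : 𝕜) • v‖ = ‖v‖ / (2 * lam) := fun v => by
    rw [norm_smul, RCLike.norm_ofReal, abs_of_pos (by positivity), mul_comm, div_eq_mul_inv]
  obtain ⟨a, l, l0, hal, h1⟩ := hn (fun j => (((2 * lam)⁻¹ : ℝ) : 𝕜) • (S (c j) - S (p 0)))
    fun j hj => by
      rw [n1, div_le_one (by positivity)]
      exact inc _ _ le_rfl (c0 j hj).le hj
  rw [← Finset.smul_sum, ← Finset.smul_sum, ← smul_sub, n1, div_lt_iff₀ (by positivity),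
    ← Finset.sum_sub_distrib] at h1
  simp only [sub_sub_sub_cancel_right] at h1
  set j0 := l / 2 ^ L with hj0
  have j0l : j0 < l := Nat.div_lt_self l0 (Nat.one_lt_two_pow (by omega))
  have j1 : (j0 : ℝ) * 2 ^ L ≤ l := by exact_mod_cast Nat.div_mul_le_self l (2 ^ L)
  have j2 : l < (j0 + 1) * 2 ^ L := by
    have := Nat.lt_div_mul_add (a := l) (b := 2 ^ L) (by positivity)
    rw [add_mul, one_mul]; exact this
  let g : X := ∑ j ∈ Finset.range l, (S (c (a + l + j)) - S (c (a + max j j0)))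
  have hg : ‖g‖ ≤ 4 * lam * l / 2 ^ L := by
    have e : g = ∑ j ∈ Finset.range l, (S (c (a + l + j)) - S (c (a + j))) -
        ∑ j ∈ Finset.range l, (S (c (a + max j j0)) - S (c (a + j))) := by
      rw [← Finset.sum_sub_distrib]
      exact Finset.sum_congr rfl fun j _ => by abel
    have h2 : ‖∑ j ∈ Finset.range l, (S (c (a + max j j0)) - S (c (a + j)))‖ ≤ j0 * (2 * lam) := by
      rw [← Finset.sum_subset (Finset.range_mono j0l.le) fun j _ hj => by
        rw [max_eq_left (by simpa using hj), sub_self]]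
      refine (norm_sum_le _ _).trans ?_
      have := Finset.sum_le_card_nsmul (Finset.range j0)
        (fun j => ‖S (c (a + max j j0)) - S (c (a + j))‖) (2 * lam) fun j hj => by
          have hj := Finset.mem_range.1 hj
          rw [max_eq_right hj.le]
          exact inc _ _ (c0 _ (by omega)).le (cmono _ _ (by omega) (by omega)) (by omega)
      rwa [Finset.card_range, nsmul_eq_mul] at this
    rw [e]
    refine (norm_sub_le _ _).trans ?_
    have h3 : (j0 : ℝ) ≤ l / 2 ^ L := (le_div_iff₀ (by positivity)).2 j1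
    have h4 := mul_le_mul_of_nonneg_right h3 (show 0 ≤ 2 * lam by positivity)
    have : 4 * lam * l / 2 ^ L = 1 / 2 ^ L * l * (2 * lam) + l / 2 ^ L * (2 * lam) := by ring
    linarith
  have τmono : ∀ i i' : ℕ, i ≤ i' → D / 2 ^ i' ≤ D / 2 ^ i := fun i i' h =>
    div_le_div_of_nonneg_left hD.le (by positivity) (pow_le_pow_right₀ one_le_two h)
  have hSc : ∀ i m, x' m (S i) = if D / 2 ^ i < ‖x' m f‖ then x' m f else 0 := fun i m =>
    hG _ (by positivity) f m
  -- the multiplicity of each coordinate in `g`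
  have hμ : ∀ m, ∃ μ : ℕ, x' m g = (μ : 𝕜) * x' m f ∧ μ ≤ l ∧
      (D / 2 ^ c (a + l - 1) < ‖x' m f‖ → μ = 0 ∨ j0 + 1 ≤ μ) ∧
      (¬ D / 2 ^ c (a + l - 1) < ‖x' m f‖ → D / 2 ^ c (a + l) < ‖x' m f‖ → μ = l) := by
    intro m
    refine ⟨((Finset.range l).filter fun j => D / 2 ^ c (a + l + j) < ‖x' m f‖ ∧
      ¬ D / 2 ^ c (a + max j j0) < ‖x' m f‖).card, ?_, ?_, fun h => ?_, fun h h' => ?_⟩
    · simp only [g, map_sum, map_sub, hSc]
      rw [Finset.card_filter, Nat.cast_sum, Finset.sum_mul]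
      refine Finset.sum_congr rfl fun j hj => ?_
      have hj := Finset.mem_range.1 hj
      have := τmono _ _ (cmono (a + max j j0) (a + l + j) (by omega) (by omega))
      by_cases h1 : D / 2 ^ c (a + max j j0) < ‖x' m f‖
      · simp [h1, this.trans_lt h1]
      · by_cases h2 : D / 2 ^ c (a + l + j) < ‖x' m f‖ <;> simp [h1, h2]
    · exact (Finset.card_filter_le _ _).trans (Finset.card_range l).le
    · by_cases h2 : D / 2 ^ c (a + j0) < ‖x' m f‖
      · left
        rw [Finset.card_eq_zero]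
        refine Finset.filter_false_of_mem fun j hj h3 => h3.2 ?_
        have hj := Finset.mem_range.1 hj
        exact (τmono _ _ (cmono _ _ (by omega) (by omega))).trans_lt h2
      · right
        rw [← Finset.card_range (j0 + 1)]
        refine Finset.card_le_card fun j hj => ?_
        have hj := Finset.mem_range.1 hj
        refine Finset.mem_filter.2 ⟨Finset.mem_range.2 (by omega),
          (τmono _ _ (cmono _ _ (by omega) (by omega))).trans_lt h, ?_⟩
        rwa [max_eq_right (by omega)]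
    · rw [Finset.filter_true_of_mem, Finset.card_range]
      intro j hj
      have hj := Finset.mem_range.1 hj
      exact ⟨(τmono _ _ (cmono _ _ (by omega) (by omega))).trans_lt h',
        fun h3 => h ((τmono _ _ (cmono _ _ (by omega) (by omega))).trans_lt h3)⟩
  set J := (a + l) * (L + 1) with hJ
  have hJ' : J < n * (L + 1) + 1 := hlt _ (by omega)
  have gap : c (a + l - 1) + L ≤ p J := by
    have e : (a + l - 1) * (L + 1) + L + 1 = J := by
      obtain ⟨b, hb⟩ : ∃ b, a + l = b + 1 := ⟨a + l - 1, by omega⟩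
      rw [hJ, hb, Nat.add_sub_cancel]; ring
    have := mono L ((a + l - 1) * (L + 1)) (by omega)
    rwa [e] at this
  have lpos : (0 : ℝ) < l := by exact_mod_cast l0
  have thr : ∀ i, c (a + l - 1) + L ≤ i → i ≤ c (a + l) → ∀ m, x' m (G (l * (D / 2 ^ i)) g) =
      if D / 2 ^ i < ‖x' m f‖ then x' m g else 0 := by
    intro i h1 h2 m
    rw [hG _ (by positivity)]
    obtain ⟨μ, e, m1, m2, m3⟩ := hμ m
    have en : ‖x' m g‖ = μ * ‖x' m f‖ := by rw [e, norm_mul, RCLike.norm_natCast]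
    by_cases h3 : D / 2 ^ i < ‖x' m f‖
    · rw [if_pos h3]
      by_cases h4 : D / 2 ^ c (a + l - 1) < ‖x' m f‖
      · rcases m2 h4 with h5 | h5
        · rw [e, h5]; simp
        · rw [if_pos]
          rw [en]
          have h6 : (l : ℝ) ≤ μ * 2 ^ L := by
            exact_mod_cast j2.le.trans (Nat.mul_le_mul_right _ h5)
          have h7 : D / 2 ^ i * 2 ^ L ≤ D / 2 ^ c (a + l - 1) := by
            refine (mul_le_mul_of_nonneg_right (τmono _ _ h1) (by positivity)).trans_eq ?_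
            rw [pow_add]; field_simp
          have h8 : (0 : ℝ) < μ := by exact_mod_cast (Nat.succ_pos j0).trans_le h5
          have h9 : (0 : ℝ) < D / 2 ^ i := by positivity
          nlinarith
      · rw [if_pos]
        rw [en, m3 h4 ((τmono _ _ h2).trans_lt h3)]
        exact mul_lt_mul_of_pos_left h3 lpos
    · rw [if_neg h3, if_neg]
      rw [en, not_lt]
      exact mul_le_mul (by exact_mod_cast m1) (not_lt.1 h3) (norm_nonneg _) lpos.le
  have hpJ := hpq J hJ'
  have fin : G (l * (D / 2 ^ q J)) g - G (l * (D / 2 ^ p J)) g = (l : 𝕜) • (S (q J) - S (p J)) := by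
    refine sub_eq_zero.1 (tot _ fun m => ?_)
    rw [map_sub, map_sub, thr (q J) (by omega) le_rfl, thr _ gap hpJ.le, map_smul, map_sub, hSc, hSc]
    obtain ⟨μ, e, -, -, m3⟩ := hμ m
    by_cases h1 : D / 2 ^ p J < ‖x' m f‖
    · simp [h1, (τmono _ _ hpJ.le).trans_lt h1]
    · by_cases h2 : D / 2 ^ q J < ‖x' m f‖
      · rw [if_pos h2, if_neg h1, if_pos h2, if_neg h1, e,
          m3 (fun h3 => h1 ((τmono _ _ (by omega)).trans_lt h3)) h2]
        simp
      · simp [h1, h2]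
  have h5 := norm_sub_le (G (l * (D / 2 ^ q J)) g) (G (l * (D / 2 ^ p J)) g)
  rw [fin, norm_smul, RCLike.norm_natCast] at h5
  have h6 := hC (l * (D / 2 ^ q J)) (by positivity) g
  have h7 := hC (l * (D / 2 ^ p J)) (by positivity) g
  have h8 := mul_le_mul_of_nonneg_left (hlam J hJ') lpos.le
  have h9 := mul_le_mul_of_nonneg_left hg hC0.le
  have h10 : l * lam ≤ 2 * (C * (4 * lam * l / 2 ^ L)) := by
    simp only [hS] at h5; linarith
  rw [← mul_div_assoc, ← mul_div_assoc, le_div_iff₀ (by positivity)] at h10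
  have : 0 < l * lam := by positivity
  nlinarith

theorem sum_pow (hU : Avg X) (hC0 : 0 < C)
    (hG : ∀ t, 0 < t → ∀ f m, x' m (G t f) = if t < ‖x' m f‖ then x' m f else 0)
    (hC : ∀ t, 0 < t → ∀ f, ‖G t f‖ ≤ C * ‖f‖) (tot : ∀ f, (∀ m, x' m f = 0) → f = 0) :
    ∃ (r : ℕ) (K : ℝ), 0 ≤ K ∧ ∀ (f : X) (D : ℝ), f ≠ 0 → 0 < D → ∀ M, ∑ i ∈ Finset.range M,
      ‖G (D / 2 ^ (i + 1)) f - G (D / 2 ^ i) f‖ ^ (r + 1) ≤ K * ‖f‖ ^ (r + 1) := by
  obtain ⟨N, N0, hN⟩ := star hU hC0 hG hC tot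
  refine ⟨N, N ^ 2 * 2 * (2 * C) ^ (N + 1), by positivity, fun f D hf hD M => ?_⟩
  set S : ℕ → X := fun i => G (D / 2 ^ i) f with hS
  have f0 : 0 < ‖f‖ := norm_pos_iff.2 hf
  have hB : ∀ P Q, ‖S Q - S P‖ ≤ 2 * C * ‖f‖ := fun P Q => by
    have h1 := hC (D / 2 ^ P) (by positivity) f
    have h2 := hC (D / 2 ^ Q) (by positivity) f
    have := norm_sub_le (S Q) (S P)
    simp only [hS] at this ⊢
    linarith
  have count : ∀ (T : Finset ℕ) (lam : ℝ), 0 < lam → (∀ i ∈ T, lam ≤ ‖S (i + 1) - S i‖) →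
      ∀ k, N ^ k ≤ T.card → 2 ^ k * lam ≤ 2 * C * ‖f‖ := by
    intro T lam hl hT
    let e : ℕ → ℕ := fun j => if h : j < T.card then T.orderEmbOfFin rfl ⟨j, h⟩ else 0
    have e1 : ∀ j, j < T.card → e j ∈ T := fun j h => by
      simp only [e, dif_pos h]; exact T.orderEmbOfFin_mem rfl _
    have e2 : ∀ j, j + 1 < T.card → e j < e (j + 1) := fun j h => by
      simp only [e, dif_pos h, dif_pos (show j < T.card by omega)]
      exact (T.orderEmbOfFin rfl).strictMono (by simp [Fin.lt_def])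
    have key : ∀ k b, ∃ P Q, b + N ^ k ≤ T.card → e b ≤ P ∧ P < Q ∧ Q ≤ e (b + N ^ k - 1) + 1 ∧
        2 ^ k * lam ≤ ‖S Q - S P‖ := by
      intro k
      induction k with
      | zero =>
        intro b
        exact ⟨e b, e b + 1, fun h => ⟨le_rfl, by omega, by simp,
          by simpa using hT _ (e1 b (by simpa [Nat.succ_le_iff] using h))⟩⟩
      | succ k ih =>
        intro b
        choose P Q h using ih
        by_cases hb : b + N ^ (k + 1) ≤ T.card
        · have kp : 0 < N ^ k := by positivity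
          have hj : ∀ j, j < N → b + j * N ^ k + N ^ k ≤ T.card := fun j hj => by
            have : (j + 1) * N ^ k ≤ N * N ^ k := Nat.mul_le_mul_right _ hj
            rw [pow_succ'] at hb
            rw [add_mul, one_mul] at this
            omega
          obtain ⟨P', Q', a1, a2, a3, a4⟩ := hN f D (2 ^ k * lam) (fun j => P (b + j * N ^ k))
            (fun j => Q (b + j * N ^ k)) hD (by positivity)
            (fun j hj' => (h _ (hj j hj')).2.1)
            (fun j hj' => by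
              have h1 := (h _ (hj j (by omega))).2.2.1
              have h2 := (h _ (hj (j + 1) hj')).1
              have h3 := hj (j + 1) hj'
              rw [add_mul, one_mul] at h2 h3 ⊢
              have h4 := e2 (b + j * N ^ k + N ^ k - 1) (by omega)
              rw [show b + j * N ^ k + N ^ k - 1 + 1 = b + (j * N ^ k + N ^ k) by omega] at h4
              omega)
            (fun j hj' => (h _ (hj j hj')).2.2.2)
          refine ⟨P', Q', fun _ => ⟨?_, a2, ?_, by rw [pow_succ]; linarith⟩⟩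
          · have := (h _ (hj 0 N0)).1
            simp only [zero_mul, add_zero] at this a1
            omega
          · have := (h _ (hj (N - 1) (by omega))).2.2.1
            have e3 : b + (N - 1) * N ^ k + N ^ k = b + N ^ (k + 1) := by
              obtain ⟨N', rfl⟩ : ∃ N', N = N' + 1 := ⟨N - 1, by omega⟩
              rw [Nat.add_sub_cancel]; ring
            rw [e3] at this
            omega
        · exact ⟨0, 0, fun h => absurd h hb⟩
    intro k hk
    obtain ⟨P, Q, h⟩ := key k 0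
    exact (h (by omega)).2.2.2.trans (hB P Q)
  have B0 : 0 < 2 * C * ‖f‖ := by positivity
  refine dyadic_sum _ (fun i => ‖S (i + 1) - S i‖) _ (2 * C * ‖f‖) B0
    (fun k => N ^ 2 * (2 * C * ‖f‖) ^ (N + 1) * (1 / 2) ^ k) _
    (fun i _ => ⟨norm_nonneg _, hB _ _⟩) (fun i _ => by positivity)
    (fun i _ h => by simp only [hS] at h; rw [h]; simp) (fun k => ?_) fun K => ?_
  · set T := (Finset.range M).filter fun i => 2 * C * ‖f‖ / 2 ^ (k + 1) < ‖S (i + 1) - S i‖ ∧
      ‖S (i + 1) - S i‖ ≤ 2 * C * ‖f‖ / 2 ^ k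
    have h1 : T.card ≤ N ^ (k + 2) := by
      by_contra h
      have := count T (2 * C * ‖f‖ / 2 ^ (k + 1)) (by positivity)
        (fun i hi => (Finset.mem_filter.1 hi).2.1.le) (k + 2) (by omega)
      have e : (2 : ℝ) ^ (k + 2) * (2 * C * ‖f‖ / 2 ^ (k + 1)) = 2 * (2 * C * ‖f‖) := by
        field_simp; ring
      linarith
    have h2 := Finset.sum_le_card_nsmul T (fun i => ‖S (i + 1) - S i‖ ^ (N + 1))
      ((2 * C * ‖f‖ / 2 ^ k) ^ (N + 1)) fun i hi =>
        pow_le_pow_left₀ (norm_nonneg _) (Finset.mem_filter.1 hi).2.2 _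
    refine h2.trans ?_
    rw [nsmul_eq_mul]
    have h3 : (T.card : ℝ) ≤ N ^ 2 * (2 ^ N) ^ k := by
      have : N ^ (k + 2) ≤ N ^ 2 * (2 ^ N) ^ k := by
        rw [add_comm, pow_add]
        exact Nat.mul_le_mul_left _ (Nat.pow_le_pow_left Nat.lt_two_pow_self.le _)
      exact_mod_cast h1.trans this
    refine (mul_le_mul_of_nonneg_right h3 (by positivity)).trans_eq ?_
    rw [div_pow, one_div, inv_pow, ← pow_mul, ← pow_mul]
    field_simp
    ring
  · rw [← Finset.mul_sum]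
    have := sum_geometric_two_le K
    have h2 := mul_le_mul_of_nonneg_left this
      (show (0 : ℝ) ≤ N ^ 2 * (2 * C * ‖f‖) ^ (N + 1) by positivity)
    refine h2.trans_eq ?_
    rw [mul_pow (2 * C)]; ring

end Pool.Agent.Lib.helper23.QgA
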