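import Mathlib

namespace Pool.Agent.Lib.helper23.ShiftA

open scoped ENNReal NNReal
open Filter Topology

variable {𝕜 : Type} [RCLike 𝕜]

theorem lp_dom {ι E F : Type} [NormedAddCommGroup E] [NormedAddCommGroup F] (p : ℝ≥0∞)
    [hp : Fact (1 ≤ p)] (e : ι ≃ ι) (f : lp (fun _ : ι => E) p) (g : ι → F) (c : ℝ) (hc : 0 ≤ c)
    (h : ∀ i, ‖g i‖ ≤ c * ‖f (e i)‖) :
    ∃ hg : Memℓp g p, ‖(⟨g, hg⟩ : lp (fun _ : ι => F) p)‖ ≤ c * ‖f‖ := by
  have hp0 : p ≠ 0 := (zero_lt_one.trans_le hp.out).ne'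
  obtain (rfl | rfl | hq) := p.trichotomy
  · exact absurd rfl hp0
  · have hb : ∀ i, ‖g i‖ ≤ c * ‖f‖ := fun i =>
      (h i).trans (mul_le_mul_of_nonneg_left (lp.norm_apply_le_norm hp0 f _) hc)
    refine ⟨memℓp_infty ⟨c * ‖f‖, ?_⟩, ?_⟩
    · rintro _ ⟨i, rfl⟩; exact hb i
    · exact lp.norm_le_of_forall_le (by positivity) hb
  · have hs : ∀ s : Finset ι, ∑ i ∈ s, ‖g i‖ ^ p.toReal ≤ (c * ‖f‖) ^ p.toReal := by
      intro s
      calc ∑ i ∈ s, ‖g i‖ ^ p.toReal ≤ ∑ i ∈ s, c ^ p.toReal * ‖f (e i)‖ ^ p.toReal := by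
            refine Finset.sum_le_sum fun i _ => ?_
            rw [← Real.mul_rpow hc (norm_nonneg _)]
            exact Real.rpow_le_rpow (norm_nonneg _) (h i) hq.le
        _ = c ^ p.toReal * ∑ i ∈ s.map e.toEmbedding, ‖f i‖ ^ p.toReal := by
            rw [Finset.mul_sum, Finset.sum_map]; rfl
        _ ≤ c ^ p.toReal * ‖f‖ ^ p.toReal :=
            mul_le_mul_of_nonneg_left (lp.sum_rpow_le_norm_rpow hq f _) (by positivity)
        _ = (c * ‖f‖) ^ p.toReal := by rw [Real.mul_rpow hc (norm_nonneg _)]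
    exact ⟨memℓp_gen' hs, lp.norm_le_of_forall_sum_le hq (by positivity) hs⟩

theorem lp_dom' {ι E F : Type} [NormedAddCommGroup E] [NormedAddCommGroup F] (p : ℝ≥0∞)
    [hp : Fact (1 ≤ p)] (e : ι ≃ ι) (f : lp (fun _ : ι => E) p) (g : lp (fun _ : ι => F) p)
    (c : ℝ) (hc : 0 ≤ c) (h : ∀ i, ‖g i‖ ≤ c * ‖f (e i)‖) : ‖g‖ ≤ c * ‖f‖ := by
  obtain ⟨_, h2⟩ := lp_dom p e f g c hc h
  exact h2

/-- The operator `x ↦ (A (x (e i)))_i` on an `lp` space. -/
noncomputable def shiftL {ι E : Type} [NormedAddCommGroup E] [NormedSpace 𝕜 E] (p : ℝ≥0∞)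
    [Fact (1 ≤ p)] (e : ι ≃ ι) (A : E →L[𝕜] E) :
    lp (fun _ : ι => E) p →L[𝕜] lp (fun _ : ι => E) p :=
  LinearMap.mkContinuous
    { toFun := fun x => ⟨fun i => A (x (e i)),
        (lp_dom p e x (fun i => A (x (e i))) ‖A‖ (norm_nonneg _) (fun i => A.le_opNorm _)).1⟩
      map_add' := fun x y => by
        ext i
        change A ((x + y) (e i)) = A (x (e i)) + A (y (e i))
        rw [lp.coeFn_add, Pi.add_apply, map_add]
      map_smul' := fun c x => by
        ext i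
        change A ((c • x) (e i)) = c • A (x (e i))
        rw [lp.coeFn_smul, Pi.smul_apply, map_smul] }
    ‖A‖ (fun x =>
      (lp_dom p e x (fun i => A (x (e i))) ‖A‖ (norm_nonneg _) (fun i => A.le_opNorm _)).2)

theorem shiftL_apply {ι E : Type} [NormedAddCommGroup E] [NormedSpace 𝕜 E] (p : ℝ≥0∞)
    [Fact (1 ≤ p)] (e : ι ≃ ι) (A : E →L[𝕜] E) (x : lp (fun _ : ι => E) p) (i : ι) :
    shiftL p e A x i = A (x (e i)) := rfl

/-- The invertible version. -/
noncomputable def shiftE {ι E : Type} [NormedAddCommGroup E] [NormedSpace 𝕜 E] (p : ℝ≥0∞)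
    [Fact (1 ≤ p)] (e : ι ≃ ι) (A : E ≃L[𝕜] E) :
    lp (fun _ : ι => E) p ≃L[𝕜] lp (fun _ : ι => E) p :=
  ContinuousLinearEquiv.equivOfInverse (shiftL p e (A : E →L[𝕜] E))
    (shiftL p e.symm (A.symm : E →L[𝕜] E))
    (fun x => by ext i; simp [shiftL_apply])
    (fun x => by ext i; simp [shiftL_apply])

theorem shiftE_apply {ι E : Type} [NormedAddCommGroup E] [NormedSpace 𝕜 E] (p : ℝ≥0∞)
    [Fact (1 ≤ p)] (e : ι ≃ ι) (A : E ≃L[𝕜] E) (x : lp (fun _ : ι => E) p) (i : ι) :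
    shiftE p e A x i = A (x (e i)) := rfl

theorem shiftE_symm_apply {ι E : Type} [NormedAddCommGroup E] [NormedSpace 𝕜 E] (p : ℝ≥0∞)
    [Fact (1 ≤ p)] (e : ι ≃ ι) (A : E ≃L[𝕜] E) (x : lp (fun _ : ι => E) p) (i : ι) :
    (shiftE p e A).symm x i = A.symm (x (e.symm i)) := rfl

theorem shiftE_iter {ι E : Type} [NormedAddCommGroup E] [NormedSpace 𝕜 E] (p : ℝ≥0∞)
    [Fact (1 ≤ p)] (e : ι ≃ ι) (A : E ≃L[𝕜] E) (k : ℕ) (x : lp (fun _ : ι => E) p) (i : ι) :
    ((shiftE p e A)^[k] x) i = A^[k] (x ((e ^ k) i)) := by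
  induction k generalizing i with
  | zero => simp
  | succ k ih =>
    rw [Function.iterate_succ_apply', shiftE_apply, ih, Function.iterate_succ_apply', pow_succ]
    rfl

theorem shiftE_symm_iter {ι E : Type} [NormedAddCommGroup E] [NormedSpace 𝕜 E] (p : ℝ≥0∞)
    [Fact (1 ≤ p)] (e : ι ≃ ι) (A : E ≃L[𝕜] E) (k : ℕ) (x : lp (fun _ : ι => E) p) (i : ι) :
    ((shiftE p e A).symm^[k] x) i = A.symm^[k] (x ((e.symm ^ k) i)) := by
  induction k generalizing i with
  | zero => simp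
  | succ k ih =>
    rw [Function.iterate_succ_apply', shiftE_symm_apply, ih, Function.iterate_succ_apply',
      pow_succ]
    rfl

/-- A (not necessarily linear) splitting into a contracting and an expanding part. -/
def NSplit {Y : Type} [NormedAddCommGroup Y] [NormedSpace 𝕜 Y] (T : Y ≃L[𝕜] Y) (C : ℝ) : Prop :=
  ∃ s : Y → Y, ∀ y k, ‖T^[k] (s y)‖ ≤ C * (1 / 2) ^ k * ‖y‖ ∧
    ‖T.symm^[k] (y - s y)‖ ≤ C * (1 / 2) ^ k * ‖y‖

theorem nsplit_shift {ι E : Type} [NormedAddCommGroup E] [NormedSpace 𝕜 E] (p : ℝ≥0∞)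
    [Fact (1 ≤ p)] (e : ι ≃ ι) (A : E ≃L[𝕜] E) (C : ℝ) (hC : 0 ≤ C) (h : NSplit A C) :
    NSplit (shiftE p e A) C := by
  obtain ⟨s, hs⟩ := h
  have h0 : ∀ y, ‖s y‖ ≤ C * ‖y‖ := fun y => by simpa using (hs y 0).1
  refine ⟨fun x => ⟨fun i => s (x i),
    (lp_dom p (Equiv.refl ι) x (fun i => s (x i)) C hC (fun i => h0 _)).1⟩, fun x k => ⟨?_, ?_⟩⟩
  · refine lp_dom' p (e ^ k) x _ _ (by positivity) fun i => ?_
    rw [shiftE_iter]
    exact (hs _ k).1
  · refine lp_dom' p (e.symm ^ k) x _ _ (by positivity) fun i => ?_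
    rw [shiftE_symm_iter, lp.coeFn_sub]
    exact (hs _ k).2

theorem shadow_of_nsplit {Y : Type} [NormedAddCommGroup Y] [NormedSpace 𝕜 Y] [CompleteSpace Y]
    (T : Y ≃L[𝕜] Y) (C : ℝ) (hC : 0 ≤ C) (h : NSplit T C) (z : ℤ → Y) (M : ℝ)
    (hM : ∀ n, ‖z n‖ ≤ M) :
    ∃ y : ℤ → Y, (∀ n, y (n + 1) - T (y n) = z n) ∧ ∀ n, ‖y n‖ ≤ 4 * C * M := by
  obtain ⟨s, hs⟩ := h
  have hM0 : 0 ≤ M := (norm_nonneg _).trans (hM 0)
  set a : ℤ → ℕ → Y := fun n k => T^[k] (s (z (n - 1 - k))) with ha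
  set b : ℤ → ℕ → Y := fun n k => T.symm^[k + 1] (z (n + k) - s (z (n + k))) with hb
  have hgeo : HasSum (fun k : ℕ => C * M * (1 / 2 : ℝ) ^ k) (C * M * 2) :=
    hasSum_geometric_two.mul_left _
  have ha1 : ∀ n k, ‖a n k‖ ≤ C * M * (1 / 2 : ℝ) ^ k := fun n k => by
    refine ((hs _ k).1).trans ?_
    have := hM (n - 1 - k)
    have h2 : 0 ≤ C * (1 / 2 : ℝ) ^ k := by positivity
    nlinarith [mul_le_mul_of_nonneg_left this h2]
  have hb1 : ∀ n k, ‖b n k‖ ≤ C * M * (1 / 2 : ℝ) ^ k := fun n k => by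
    refine ((hs _ (k + 1)).2).trans ?_
    have := hM (n + k)
    have h2 : 0 ≤ C * (1 / 2 : ℝ) ^ k := by positivity
    have h3 := mul_le_mul_of_nonneg_left this h2
    have h4 : 0 ≤ C * (1 / 2 : ℝ) ^ k * M := by positivity
    have h5 : 0 ≤ C * (1 / 2 : ℝ) ^ k * ‖z (n + k)‖ := by positivity
    rw [pow_succ]
    nlinarith
  have hsa : ∀ n, Summable (a n) := fun n => Summable.of_norm_bounded hgeo.summable (ha1 n)
  have hsb : ∀ n, Summable (b n) := fun n => Summable.of_norm_bounded hgeo.summable (hb1 n)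
  refine ⟨fun n => ∑' k, a n k - ∑' k, b n k, fun n => ?_, fun n => ?_⟩
  · have e1 : ∑' k, a (n + 1) k = s (z n) + T (∑' k, a n k) := by
      rw [(hsa (n + 1)).tsum_eq_zero_add]
      have : T (∑' k, a n k) = ∑' k, T (a n k) := (T : Y →L[𝕜] Y).map_tsum (hsa n)
      rw [this]
      congr 1
      · simp [ha]
      · refine tsum_congr fun k => ?_
        simp only [ha, Function.iterate_succ_apply']
        congr 4
        push_cast; ring
    have e2 : T (∑' k, b n k) = (z n - s (z n)) + ∑' k, b (n + 1) k := by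
      have : T (∑' k, b n k) = ∑' k, T (b n k) := (T : Y →L[𝕜] Y).map_tsum (hsb n)
      rw [this]
      have hsum : Summable fun k => T (b n k) := (T : Y →L[𝕜] Y).summable (hsb n)
      rw [hsum.tsum_eq_zero_add]
      congr 1
      · simp [hb]
      · refine tsum_congr fun k => ?_
        simp only [hb]
        rw [Function.iterate_succ_apply' _ (k + 1), T.apply_symm_apply]
        have : n + ((k + 1 : ℕ) : ℤ) = n + 1 + k := by push_cast; ring
        rw [this]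
    simp only [map_sub]
    rw [e1, e2]
    abel
  · have h1 : ‖∑' k, a n k‖ ≤ C * M * 2 := tsum_of_norm_bounded hgeo (ha1 n)
    have h2 : ‖∑' k, b n k‖ ≤ C * M * 2 := tsum_of_norm_bounded hgeo (hb1 n)
    have := norm_sub_le (∑' k, a n k) (∑' k, b n k)
    linarith

theorem signs (A : ℕ → ℕ → ℝ) (s : Finset ℕ) :
    ∃ σ : ℕ → ℝ, (∀ i, σ i = 1 ∨ σ i = -1) ∧
      ∑ i ∈ s, A i i ≤ ∑ i ∈ s, ∑ l ∈ s, σ i * σ l * A i l := by
  classical
  induction s using Finset.induction_on with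
  | empty => exact ⟨fun _ => 1, fun _ => Or.inl rfl, by simp⟩
  | insert a s ha ih =>
    obtain ⟨σ, h1, h2⟩ := ih
    set t : ℝ := ∑ l ∈ s, σ l * (A a l + A l a) with ht
    set ε : ℝ := if 0 ≤ t then 1 else -1 with hε
    have hε1 : ε = 1 ∨ ε = -1 := by rw [hε]; split_ifs <;> simp
    have hε2 : 0 ≤ ε * t := by rw [hε]; split_ifs with h <;> [simpa using h; (push Not at h; linarith)]
    have hε3 : ε * ε = 1 := by rcases hε1 with h | h <;> rw [h] <;> norm_num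
    refine ⟨Function.update σ a ε, fun i => ?_, ?_⟩
    · by_cases hi : i = a
      · subst hi; simpa using hε1
      · rw [Function.update_of_ne hi]; exact h1 i
    · have hu : ∀ l ∈ s, Function.update σ a ε l = σ l := fun l hl =>
        Function.update_of_ne (fun h : l = a => ha (h ▸ hl)) _ _
      rw [Finset.sum_insert ha, Finset.sum_insert ha, Finset.sum_insert ha, Function.update_self,
        hε3, one_mul]
      have e1 : ∑ l ∈ s, ε * Function.update σ a ε l * A a l = ∑ l ∈ s, ε * σ l * A a l :=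
        Finset.sum_congr rfl fun l hl => by rw [hu l hl]
      have e2 : ∑ i ∈ s, ∑ l ∈ insert a s, Function.update σ a ε i * Function.update σ a ε l * A i l
          = ∑ i ∈ s, σ i * ε * A i a + ∑ i ∈ s, ∑ l ∈ s, σ i * σ l * A i l := by
        rw [← Finset.sum_add_distrib]
        refine Finset.sum_congr rfl fun i hi => ?_
        rw [Finset.sum_insert ha, Function.update_self, hu i hi]
        congr 1
        exact Finset.sum_congr rfl fun l hl => by rw [hu l hl]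
      rw [e1, e2]
      have e3 : ε * t = ∑ l ∈ s, ε * σ l * A a l + ∑ i ∈ s, σ i * ε * A i a := by
        rw [ht, Finset.mul_sum, ← Finset.sum_add_distrib]
        exact Finset.sum_congr rfl fun l _ => by ring
      linarith

end Pool.Agent.Lib.helper23.ShiftA
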