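import Mathlib
import Pool.Agent.Lib.helper23.ShiftA

namespace Pool.Agent.Lib.helper23.ShiftB

open scoped ENNReal NNReal
open Filter Topology Pool.Agent.Lib.helper23.ShiftA

variable (𝕜 : Type) [RCLike 𝕜]

abbrev UV := lp (fun _ : ℤ × ℕ => 𝕜) 1 × lp (fun _ : ℤ × ℕ => 𝕜) ∞

def up : (ℤ × ℕ) ≃ (ℤ × ℕ) := Equiv.prodCongr (Equiv.addRight 1) (Equiv.refl ℕ)

theorem up_apply (j : ℤ) (i : ℕ) : up (j, i) = (j + 1, i) := rfl

theorem up_symm_apply (j : ℤ) (i : ℕ) : up.symm (j, i) = (j - 1, i) := by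
  rw [Equiv.symm_apply_eq, up_apply]; simp

noncomputable def val (q : ℤ × ℕ) : UV 𝕜 →L[𝕜] 𝕜 :=
  ((2 : 𝕜) ^ (-q.1)) • (lp.evalCLM 𝕜 (fun _ : ℤ × ℕ => 𝕜) 1 q).comp (ContinuousLinearMap.fst 𝕜 _ _) +
  ((2 : 𝕜) ^ q.1) • (lp.evalCLM 𝕜 (fun _ : ℤ × ℕ => 𝕜) ∞ q).comp (ContinuousLinearMap.snd 𝕜 _ _)

theorem val_apply (q : ℤ × ℕ) (x : UV 𝕜) :
    val 𝕜 q x = (2 : 𝕜) ^ (-q.1) * x.1 q + (2 : 𝕜) ^ q.1 * x.2 q := rfl

noncomputable def W : Submodule 𝕜 (UV 𝕜) := ⨅ q, (val 𝕜 q).ker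

theorem mem_W (x : UV 𝕜) : x ∈ W 𝕜 ↔ ∀ q, val 𝕜 q x = 0 := by
  simp [W, Submodule.mem_iInf]

instance : IsClosed (W 𝕜 : Set (UV 𝕜)) := by
  have : (W 𝕜 : Set (UV 𝕜)) = ⋂ q, (val 𝕜 q) ⁻¹' {0} := by
    ext x; simp [mem_W]
  rw [this]
  exact isClosed_iInter fun q => isClosed_singleton.preimage (val 𝕜 q).continuous

noncomputable def half : 𝕜 ≃L[𝕜] 𝕜 :=
  ContinuousLinearEquiv.equivOfInverse ((1 / 2 : 𝕜) • ContinuousLinearMap.id 𝕜 𝕜)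
    ((2 : 𝕜) • ContinuousLinearMap.id 𝕜 𝕜) (fun x => by simp) (fun x => by simp)

theorem half_apply (x : 𝕜) : half 𝕜 x = 1 / 2 * x := rfl
theorem half_symm_apply (x : 𝕜) : (half 𝕜).symm x = 2 * x := rfl

noncomputable def Tt : UV 𝕜 ≃L[𝕜] UV 𝕜 :=
  (shiftE 1 up (half 𝕜)).prodCongr (shiftE ∞ up (half 𝕜).symm)

theorem val_Tt (q : ℤ × ℕ) (x : UV 𝕜) : val 𝕜 q (Tt 𝕜 x) = val 𝕜 (up q) x := by
  obtain ⟨j, i⟩ := q
  rw [val_apply, val_apply, up_apply]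
  change (2 : 𝕜) ^ (-j) * (1 / 2 * x.1 (j + 1, i)) + (2 : 𝕜) ^ j * (2 * x.2 (j + 1, i)) = _
  have h2 : (2 : 𝕜) ≠ 0 := two_ne_zero
  simp only [neg_add, zpow_add₀ h2, zpow_one, zpow_neg]
  field_simp

theorem val_Tt_symm (q : ℤ × ℕ) (x : UV 𝕜) :
    val 𝕜 q ((Tt 𝕜).symm x) = val 𝕜 (up.symm q) x := by
  conv_rhs => rw [← (Tt 𝕜).apply_symm_apply x, val_Tt, Equiv.apply_symm_apply]

abbrev Y := UV 𝕜 ⧸ W 𝕜

noncomputable def T : Y 𝕜 ≃L[𝕜] Y 𝕜 :=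
  ContinuousLinearEquiv.equivOfInverse
    ((W 𝕜).liftQL ((W 𝕜).mkQL.comp (Tt 𝕜 : UV 𝕜 →L[𝕜] UV 𝕜)) (fun x hx => by
      change (W 𝕜).mkQ (Tt 𝕜 x) = 0
      rw [Submodule.mkQ_apply, Submodule.Quotient.mk_eq_zero, mem_W]
      intro q; rw [val_Tt]; exact (mem_W 𝕜 x).1 hx _))
    ((W 𝕜).liftQL ((W 𝕜).mkQL.comp ((Tt 𝕜).symm : UV 𝕜 →L[𝕜] UV 𝕜)) (fun x hx => by
      change (W 𝕜).mkQ ((Tt 𝕜).symm x) = 0
      rw [Submodule.mkQ_apply, Submodule.Quotient.mk_eq_zero, mem_W]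
      intro q; rw [val_Tt_symm]; exact (mem_W 𝕜 x).1 hx _))
    (fun y => by
      obtain ⟨x, rfl⟩ := (W 𝕜).mkQ_surjective y
      change (W 𝕜).mkQ ((Tt 𝕜).symm (Tt 𝕜 x)) = _
      rw [ContinuousLinearEquiv.symm_apply_apply])
    (fun y => by
      obtain ⟨x, rfl⟩ := (W 𝕜).mkQ_surjective y
      change (W 𝕜).mkQ ((Tt 𝕜) ((Tt 𝕜).symm x)) = _
      rw [ContinuousLinearEquiv.apply_symm_apply])

theorem T_mk (x : UV 𝕜) : T 𝕜 ((W 𝕜).mkQ x) = (W 𝕜).mkQ (Tt 𝕜 x) := rfl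
theorem T_symm_mk (x : UV 𝕜) : (T 𝕜).symm ((W 𝕜).mkQ x) = (W 𝕜).mkQ ((Tt 𝕜).symm x) := rfl

noncomputable def vq (q : ℤ × ℕ) : Y 𝕜 →L[𝕜] 𝕜 :=
  (W 𝕜).liftQL (val 𝕜 q) (fun x hx => (mem_W 𝕜 x).1 hx q)

theorem vq_mk (q : ℤ × ℕ) (x : UV 𝕜) : vq 𝕜 q ((W 𝕜).mkQ x) = val 𝕜 q x := rfl

theorem vq_T (q : ℤ × ℕ) (y : Y 𝕜) : vq 𝕜 q (T 𝕜 y) = vq 𝕜 (up q) y := by
  obtain ⟨x, rfl⟩ := (W 𝕜).mkQ_surjective y
  rw [T_mk, vq_mk, vq_mk, val_Tt]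

theorem vq_T_symm (q : ℤ × ℕ) (y : Y 𝕜) : vq 𝕜 q ((T 𝕜).symm y) = vq 𝕜 (up.symm q) y := by
  obtain ⟨x, rfl⟩ := (W 𝕜).mkQ_surjective y
  rw [T_symm_mk, vq_mk, vq_mk, val_Tt_symm]

theorem vq_T_iter (k : ℕ) (j : ℤ) (i : ℕ) (y : Y 𝕜) :
    vq 𝕜 (j, i) ((T 𝕜)^[k] y) = vq 𝕜 (j + k, i) y := by
  induction k generalizing j with
  | zero => simp
  | succ k ih =>
    rw [Function.iterate_succ_apply', vq_T, up_apply, ih]
    congr 3; push_cast; ring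

theorem vq_T_symm_iter (k : ℕ) (j : ℤ) (i : ℕ) (y : Y 𝕜) :
    vq 𝕜 (j, i) ((T 𝕜).symm^[k] y) = vq 𝕜 (j - k, i) y := by
  induction k generalizing j with
  | zero => simp
  | succ k ih =>
    rw [Function.iterate_succ_apply', vq_T_symm, up_symm_apply, ih]
    congr 3; push_cast; ring

theorem ext_vq (y y' : Y 𝕜) (h : ∀ q, vq 𝕜 q y = vq 𝕜 q y') : y = y' := by
  obtain ⟨x, rfl⟩ := (W 𝕜).mkQ_surjective y
  obtain ⟨x', rfl⟩ := (W 𝕜).mkQ_surjective y'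
  rw [Submodule.mkQ_apply, Submodule.mkQ_apply, Submodule.Quotient.eq, mem_W]
  intro q
  rw [map_sub, sub_eq_zero]
  exact h q

theorem norm_two_zpow (j : ℤ) : ‖(2 : 𝕜) ^ j‖ = (2 : ℝ) ^ j := by
  rw [norm_zpow]; simp

theorem sum_vq_le (j : ℤ) (s : Finset ℕ) (y : Y 𝕜) :
    ∑ i ∈ s, ‖vq 𝕜 (j, i) y‖ ≤ ((2 : ℝ) ^ (-j) + 2 ^ j * s.card) * ‖y‖ := by
  have key : ∀ x : UV 𝕜, ∑ i ∈ s, ‖val 𝕜 (j, i) x‖ ≤ ((2 : ℝ) ^ (-j) + 2 ^ j * s.card) * ‖x‖ := by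
    intro x
    have h1 : ∑ i ∈ s, ‖x.1 (j, i)‖ ≤ ‖x‖ := by
      have := lp.sum_rpow_le_norm_rpow (p := 1) (by simp) x.1
        (s.map ⟨fun i => (j, i), fun a b h => (Prod.ext_iff.1 h).2⟩)
      rw [Finset.sum_map] at this
      simp only [ENNReal.toReal_one, Real.rpow_one] at this
      exact this.trans (norm_fst_le x)
    have h2 : ∀ i, ‖x.2 (j, i)‖ ≤ ‖x‖ := fun i =>
      (lp.norm_apply_le_norm (by simp) x.2 _).trans (norm_snd_le x)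
    calc ∑ i ∈ s, ‖val 𝕜 (j, i) x‖
        ≤ ∑ i ∈ s, ((2 : ℝ) ^ (-j) * ‖x.1 (j, i)‖ + 2 ^ j * ‖x‖) := by
          refine Finset.sum_le_sum fun i _ => ?_
          rw [val_apply]
          refine (norm_add_le _ _).trans ?_
          rw [norm_mul, norm_mul, norm_two_zpow, norm_two_zpow]
          have := mul_le_mul_of_nonneg_left (h2 i) (by positivity : (0 : ℝ) ≤ 2 ^ j)
          exact add_le_add le_rfl this
      _ = (2 : ℝ) ^ (-j) * ∑ i ∈ s, ‖x.1 (j, i)‖ + 2 ^ j * s.card * ‖x‖ := by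
          rw [Finset.sum_add_distrib, Finset.mul_sum, Finset.sum_const, nsmul_eq_mul]; ring
      _ ≤ _ := by
          have := mul_le_mul_of_nonneg_left h1 (by positivity : (0 : ℝ) ≤ 2 ^ (-j))
          linarith
  set c : ℝ := (2 : ℝ) ^ (-j) + 2 ^ j * s.card with hc
  have hc0 : 0 < c := by positivity
  refine le_of_forall_pos_le_add fun ε hε => ?_
  obtain ⟨x, rfl, hx⟩ := Submodule.Quotient.norm_mk_lt y (div_pos hε hc0)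
  have := key x
  have h3 := mul_le_mul_of_nonneg_left hx.le hc0.le
  rw [mul_add, mul_div_cancel₀ _ hc0.ne'] at h3
  exact this.trans h3

noncomputable def ee (j : ℤ) (i : ℕ) : Y 𝕜 :=
  (W 𝕜).mkQ (lp.single 1 (j, i) ((2 : 𝕜) ^ j), 0)

theorem vq_ee (q : ℤ × ℕ) (j : ℤ) (i : ℕ) :
    vq 𝕜 q (ee 𝕜 j i) = if q = (j, i) then 1 else 0 := by
  rw [ee, vq_mk, val_apply]
  have h2 : (2 : 𝕜) ^ j ≠ 0 := zpow_ne_zero _ two_ne_zero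
  split_ifs with h
  · subst h; simp [h2]
  · simp [lp.single_apply, Pi.single_eq_of_ne h]

theorem norm_ee (j : ℤ) (i : ℕ) : ‖ee 𝕜 j i‖ ≤ (2 : ℝ) ^ j := by
  refine (Submodule.Quotient.norm_mk_le _ _).trans ?_
  rw [Prod.norm_mk, lp.norm_single (by simp), norm_two_zpow, norm_zero]
  exact max_le le_rfl (by positivity)

theorem norm_sum_ee (j : ℤ) (s : Finset ℕ) (σ : ℕ → 𝕜) (hσ : ∀ i, ‖σ i‖ ≤ 1) :
    ‖∑ i ∈ s, σ i • ee 𝕜 j i‖ ≤ (2 : ℝ) ^ (-j) := by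
  classical
  let g : ℤ × ℕ → 𝕜 := fun q => if q.1 = j ∧ q.2 ∈ s then (2 : 𝕜) ^ (-j) * σ q.2 else 0
  have hg : ∀ q, ‖g q‖ ≤ (2 : ℝ) ^ (-j) := fun q => by
    simp only [g]
    split_ifs
    · rw [norm_mul, norm_two_zpow]
      exact mul_le_of_le_one_right (by positivity) (hσ _)
    · rw [norm_zero]; positivity
  have hm : Memℓp g ∞ := memℓp_infty ⟨(2 : ℝ) ^ (-j), by rintro _ ⟨q, rfl⟩; exact hg q⟩
  have : ∑ i ∈ s, σ i • ee 𝕜 j i = (W 𝕜).mkQ (0, ⟨g, hm⟩) := by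
    refine ext_vq 𝕜 _ _ fun q => ?_
    obtain ⟨j', i'⟩ := q
    rw [vq_mk, val_apply, map_sum]
    simp only [map_smul, vq_ee, smul_eq_mul, Prod.mk.injEq, mul_ite, mul_one, mul_zero]
    have h2 : (2 : 𝕜) ^ j ≠ 0 := zpow_ne_zero _ two_ne_zero
    change _ = (2 : 𝕜) ^ (-j') * 0 + (2 : 𝕜) ^ j' * g (j', i')
    by_cases hj : j' = j
    · subst hj
      by_cases hi : i' ∈ s
      · simp [g, hi, h2]
      · simp [g, hi]
    · simp [g, hj]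
  rw [this]
  refine (Submodule.Quotient.norm_mk_le _ _).trans ?_
  rw [Prod.norm_mk, norm_zero]
  exact max_le (by positivity) (lp.norm_le_of_forall_le (by positivity) hg)

theorem nsplit_T : NSplit (T 𝕜) 2 := by
  have hl : ∀ y : Y 𝕜, ∃ x : UV 𝕜, (W 𝕜).mkQ x = y ∧ ‖x‖ ≤ 2 * ‖y‖ := by
    intro y
    by_cases hy : y = 0
    · exact ⟨0, by simp [hy], by simp⟩
    · obtain ⟨x, h1, h2⟩ := Submodule.Quotient.norm_mk_lt y (norm_pos_iff.2 hy)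
      exact ⟨x, h1, by linarith⟩
  choose l hl1 hl2 using hl
  have hA : ∀ (k : ℕ) (u : lp (fun _ : ℤ × ℕ => 𝕜) 1), ∃ u' : lp (fun _ : ℤ × ℕ => 𝕜) 1,
      (T 𝕜)^[k] ((W 𝕜).mkQ (u, 0)) = (W 𝕜).mkQ (u', 0) ∧ ‖u'‖ ≤ (1 / 2) ^ k * ‖u‖ := by
    intro k u
    induction k with
    | zero => exact ⟨u, rfl, by simp⟩
    | succ k ih =>
      obtain ⟨u', h1, h2⟩ := ih
      refine ⟨shiftE 1 up (half 𝕜) u', ?_, ?_⟩
      · rw [Function.iterate_succ_apply', h1, T_mk]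
        congr 1
        change (shiftE 1 up (half 𝕜) u', shiftE ∞ up (half 𝕜).symm 0) = _
        rw [map_zero]
      · have := lp_dom' 1 up u' (shiftE 1 up (half 𝕜) u') (1 / 2) (by norm_num) (fun i => by
          rw [shiftE_apply, half_apply, norm_mul]; simp)
        rw [pow_succ]; nlinarith
  have hB : ∀ (k : ℕ) (v : lp (fun _ : ℤ × ℕ => 𝕜) ∞), ∃ v' : lp (fun _ : ℤ × ℕ => 𝕜) ∞,
      (T 𝕜).symm^[k] ((W 𝕜).mkQ (0, v)) = (W 𝕜).mkQ (0, v') ∧ ‖v'‖ ≤ (1 / 2) ^ k * ‖v‖ := by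
    intro k v
    induction k with
    | zero => exact ⟨v, rfl, by simp⟩
    | succ k ih =>
      obtain ⟨v', h1, h2⟩ := ih
      refine ⟨(shiftE ∞ up (half 𝕜).symm).symm v', ?_, ?_⟩
      · rw [Function.iterate_succ_apply', h1, T_symm_mk]
        congr 1
        change ((shiftE 1 up (half 𝕜)).symm 0, (shiftE ∞ up (half 𝕜).symm).symm v') = _
        rw [map_zero]
      · have := lp_dom' ∞ up.symm v' ((shiftE ∞ up (half 𝕜).symm).symm v') (1 / 2) (by norm_num)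
          (fun i => by
            rw [shiftE_symm_apply, ContinuousLinearEquiv.symm_symm, half_apply, norm_mul]; simp)
        rw [pow_succ]; nlinarith
  refine ⟨fun y => (W 𝕜).mkQ ((l y).1, 0), fun y k => ⟨?_, ?_⟩⟩
  · obtain ⟨u', h1, h2⟩ := hA k (l y).1
    rw [h1]
    refine (Submodule.Quotient.norm_mk_le _ _).trans ?_
    rw [Prod.norm_mk, norm_zero]
    refine max_le ?_ (by positivity)
    have h3 := (norm_fst_le (l y)).trans (hl2 y)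
    have := mul_le_mul_of_nonneg_left h3 (by positivity : (0 : ℝ) ≤ (1 / 2) ^ k)
    linarith
  · obtain ⟨v', h1, h2⟩ := hB k (l y).2
    have e : y - (W 𝕜).mkQ ((l y).1, 0) = (W 𝕜).mkQ (0, (l y).2) := by
      conv_lhs => rw [← hl1 y]
      rw [hl1 y]
      nth_rewrite 1 [← hl1 y]
      rw [← map_sub]
      congr 1
      ext <;> simp
    change ‖(T 𝕜).symm^[k] (y - (W 𝕜).mkQ ((l y).1, 0))‖ ≤ _
    rw [e, h1]
    refine (Submodule.Quotient.norm_mk_le _ _).trans ?_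
    rw [Prod.norm_mk, norm_zero]
    refine max_le (by positivity) ?_
    have h3 := (norm_snd_le (l y)).trans (hl2 y)
    have := mul_le_mul_of_nonneg_left h3 (by positivity : (0 : ℝ) ≤ (1 / 2) ^ k)
    linarith

theorem no_lsplit (L : Y 𝕜 →ₗ[𝕜] Y 𝕜) (C : ℝ) (hC : 0 ≤ C)
    (h : ∀ᶠ k in atTop, ∀ y, ‖(T 𝕜)^[k] (L y)‖ ≤ C * ‖y‖ ∧
      ‖(T 𝕜).symm^[k] (y - L y)‖ ≤ C * ‖y‖) : False := by
  have h2 : ∀ᶠ k : ℕ in atTop, 4 * C < 2 ^ k :=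
    (tendsto_pow_atTop_atTop_of_one_lt (by norm_num : (1 : ℝ) < 2)).eventually_gt_atTop _
  obtain ⟨m, hm, hm2⟩ := (h.and h2).exists
  set t : ℝ := 2 ^ m with ht
  have ht0 : 0 < t := by positivity
  set s : Finset ℕ := Finset.range (16 ^ m) with hs
  have hcard : (s.card : ℝ) = t ^ 4 := by
    rw [hs, Finset.card_range, ht, ← pow_mul, mul_comm, pow_mul]; push_cast; norm_num
  set A : ℕ → ℕ → 𝕜 := fun i l => vq 𝕜 (-(m : ℤ), i) (L (ee 𝕜 (-(m : ℤ)) l)) with hA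
  have hz1 : (2 : ℝ) ^ (-(m : ℤ)) = t⁻¹ := by rw [zpow_neg, zpow_natCast]
  have hz2 : (2 : ℝ) ^ (- -(m : ℤ)) = t := by rw [neg_neg, zpow_natCast]
  have hdiag : ∀ i, 1 - 2 * C / t ≤ RCLike.re (A i i) := by
    intro i
    have a1 := (hm (ee 𝕜 (-(m : ℤ)) i)).2
    have a2 := sum_vq_le 𝕜 0 {i} ((T 𝕜).symm^[m] (ee 𝕜 (-(m : ℤ)) i - L (ee 𝕜 (-(m : ℤ)) i)))
    rw [Finset.sum_singleton, vq_T_symm_iter, zero_sub, map_sub, vq_ee] at a2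
    simp only [if_true, neg_zero, zpow_zero, Finset.card_singleton, Nat.cast_one, mul_one] at a2
    have a3 := norm_ee 𝕜 (-(m : ℤ)) i
    rw [hz1] at a3
    have a4 := mul_le_mul_of_nonneg_left a3 hC
    have a5 : RCLike.re (1 - A i i) ≤ ‖1 - A i i‖ := RCLike.re_le_norm _
    rw [map_sub, RCLike.one_re] at a5
    have a6 : ‖1 - A i i‖ ≤ 2 * C / t := by
      rw [div_eq_mul_inv]
      change ‖1 - A i i‖ ≤ _ at a2
      linarith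
    linarith
  obtain ⟨σ, hσ1, hσ2⟩ := signs (fun i l => RCLike.re (A i l)) s
  have hσ3 : ∀ i, |σ i| = 1 := fun i => by rcases hσ1 i with h | h <;> simp [h]
  set y : Y 𝕜 := ∑ l ∈ s, ((σ l : ℝ) : 𝕜) • ee 𝕜 (-(m : ℤ)) l with hy
  have b1 : ‖y‖ ≤ t := by
    rw [← hz2]
    exact norm_sum_ee 𝕜 _ s _ (fun i => by rw [RCLike.norm_ofReal, hσ3])
  have b2 := (hm y).1
  have b3 := sum_vq_le 𝕜 (-(m : ℤ) - m) s ((T 𝕜)^[m] (L y))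
  have hz3 : (2 : ℝ) ^ (-(-(m : ℤ) - m)) = t ^ 2 := by
    have : -(-(m : ℤ) - m) = ((m * 2 : ℕ) : ℤ) := by push_cast; ring
    rw [this, zpow_natCast, pow_mul]
  have hz4 : (2 : ℝ) ^ (-(m : ℤ) - m) = (t ^ 2)⁻¹ := by
    rw [← hz3, ← zpow_neg, neg_neg]
  rw [hz3, hz4, hcard] at b3
  have b4 : (t ^ 2 + (t ^ 2)⁻¹ * t ^ 4) = 2 * t ^ 2 := by field_simp; ring
  rw [b4] at b3
  have b5 : ∀ i ∈ s, ∑ l ∈ s, σ i * σ l * RCLike.re (A i l) ≤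
      ‖vq 𝕜 (-(m : ℤ) - m, i) ((T 𝕜)^[m] (L y))‖ := by
    intro i _
    rw [vq_T_iter, sub_add_cancel]
    have e : vq 𝕜 (-(m : ℤ), i) (L y) = ∑ l ∈ s, ((σ l : ℝ) : 𝕜) * A i l := by
      rw [hy, map_sum, map_sum]
      exact Finset.sum_congr rfl fun l _ => by rw [map_smul, map_smul, smul_eq_mul]
    have e2 : ∑ l ∈ s, σ i * σ l * RCLike.re (A i l) =
        σ i * RCLike.re (vq 𝕜 (-(m : ℤ), i) (L y)) := by
      rw [e, map_sum, Finset.mul_sum]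
      exact Finset.sum_congr rfl fun l _ => by rw [RCLike.re_ofReal_mul]; ring
    rw [e2]
    refine (le_abs_self _).trans ?_
    rw [abs_mul, hσ3, one_mul]
    exact RCLike.abs_re_le_norm _
  have b6 := Finset.sum_le_sum b5
  have b7 : ∑ i ∈ s, (1 - 2 * C / t) ≤ ∑ i ∈ s, RCLike.re (A i i) :=
    Finset.sum_le_sum fun i _ => hdiag i
  rw [Finset.sum_const, nsmul_eq_mul, hcard] at b7
  have b8 : ‖(T 𝕜)^[m] (L y)‖ ≤ C * t := b2.trans (mul_le_mul_of_nonneg_left b1 hC)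
  have b9 := mul_le_mul_of_nonneg_left b8 (by positivity : (0 : ℝ) ≤ 2 * t ^ 2)
  have c1 : t ^ 4 * (1 - 2 * C / t) = t ^ 4 - 2 * C * t ^ 3 := by field_simp
  have c2 : t ^ 4 - 2 * C * t ^ 3 ≤ 2 * t ^ 2 * (C * t) := by linarith
  have c3 : 0 < t ^ 3 := by positivity
  nlinarith

end Pool.Agent.Lib.helper23.ShiftB
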