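import Mathlib

/-! Three-tensors over a field, restriction, and well-foundedness of strict restriction. -/

namespace Pool.Agent.Lib.H23Tens

open Matrix Kronecker

universe u

/-- A 3-tensor over `F` of format `n1 × n2 × n3`, given by its coordinates. -/
structure Tensor3 (F : Type u) where
  n1 : ℕ
  n2 : ℕ
  n3 : ℕ
  t : Fin n1 → Fin n2 → Fin n3 → F

variable {F : Type u} [Field F]

/-- Restriction: `S = (A ⊗ B ⊗ C) T` for some linear maps (matrices) `A, B, C`. -/
def Restricts (S T : Tensor3 F) : Prop :=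
  ∃ (A : Matrix (Fin S.n1) (Fin T.n1) F) (B : Matrix (Fin S.n2) (Fin T.n2) F)
    (C : Matrix (Fin S.n3) (Fin T.n3) F),
    ∀ i j k, S.t i j k = ∑ a, ∑ b, ∑ c, A i a * B j b * C k c * T.t a b c

/-- Direct sum of tensors. -/
def dsum (S T : Tensor3 F) : Tensor3 F where
  n1 := S.n1 + T.n1
  n2 := S.n2 + T.n2
  n3 := S.n3 + T.n3
  t := fun i j k =>
    match finSumFinEquiv.symm i, finSumFinEquiv.symm j, finSumFinEquiv.symm k with
    | Sum.inl a, Sum.inl b, Sum.inl c => S.t a b c
    | Sum.inr a, Sum.inr b, Sum.inr c => T.t a b c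
    | _, _, _ => 0

/-- Kronecker product of tensors. -/
def kron (S T : Tensor3 F) : Tensor3 F where
  n1 := S.n1 * T.n1
  n2 := S.n2 * T.n2
  n3 := S.n3 * T.n3
  t := fun i j k =>
    S.t (finProdFinEquiv.symm i).1 (finProdFinEquiv.symm j).1 (finProdFinEquiv.symm k).1 *
      T.t (finProdFinEquiv.symm i).2 (finProdFinEquiv.symm j).2 (finProdFinEquiv.symm k).2

/-- The unit tensor of size `r`. -/
def unitT (F : Type u) [Field F] (r : ℕ) : Tensor3 F where
  n1 := r
  n2 := r
  n3 := r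
  t := fun i j k => if i = j ∧ j = k then 1 else 0

/-- Membership in the asymptotic spectrum: a restriction-monotone semiring homomorphism to the
nonnegative reals. -/
def InSpectrum (f : Tensor3 F → NNReal) : Prop :=
  (∀ S T, Restricts S T → f S ≤ f T) ∧ f (unitT F 0) = 0 ∧ f (unitT F 1) = 1 ∧
    (∀ S T, f (dsum S T) = f S + f T) ∧ (∀ S T, f (kron S T) = f S * f T)

def vec (T : Tensor3 F) : Fin T.n1 × Fin T.n2 × Fin T.n3 → F := fun p => T.t p.1 p.2.1 p.2.2

theorem restricts_iff (S T : Tensor3 F) : Restricts S T ↔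
    ∃ (A : Matrix (Fin S.n1) (Fin T.n1) F) (B : Matrix (Fin S.n2) (Fin T.n2) F)
      (C : Matrix (Fin S.n3) (Fin T.n3) F), vec S = (A ⊗ₖ (B ⊗ₖ C)) *ᵥ vec T := by
  unfold Restricts
  refine exists_congr fun A => exists_congr fun B => exists_congr fun C => ?_
  constructor
  · intro h
    funext ⟨i, j, k⟩
    simp [vec, h, Matrix.mulVec, dotProduct, Fintype.sum_prod_type, mul_assoc]
  · intro h i j k
    have := congrFun h (i, j, k)
    simpa [vec, Matrix.mulVec, dotProduct, Fintype.sum_prod_type, mul_assoc] using this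

theorem restricts_refl (S : Tensor3 F) : Restricts S S := by
  rw [restricts_iff]
  exact ⟨1, 1, 1, by simp⟩

theorem restricts_trans {S T U : Tensor3 F} (h1 : Restricts S T) (h2 : Restricts T U) :
    Restricts S U := by
  rw [restricts_iff] at *
  obtain ⟨A, B, C, h1⟩ := h1
  obtain ⟨A', B', C', h2⟩ := h2
  refine ⟨A * A', B * B', C * C', ?_⟩
  rw [h1, h2, Matrix.mulVec_mulVec, ← Matrix.mul_kronecker_mul, ← Matrix.mul_kronecker_mul]

theorem factor {m n : ℕ} (A : Matrix (Fin m) (Fin n) F) :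
    ∃ r ≤ n, ∃ (A1 : Matrix (Fin r) (Fin n) F) (A2 : Matrix (Fin m) (Fin r) F)
      (L : Matrix (Fin r) (Fin m) F), A = A2 * A1 ∧ L * A2 = 1 ∧
      (r = n → ∃ L' : Matrix (Fin n) (Fin m) F, L' * A = 1) := by
  set f := Matrix.toLin' A with hf
  set r := Module.finrank F (LinearMap.range f) with hr
  have hrn : r + Module.finrank F (LinearMap.ker f) = n := by
    have := LinearMap.finrank_range_add_finrank_ker f
    simpa using this
  let b := (Module.finBasis F (LinearMap.range f)).equivFun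
  let g1 : (Fin n → F) →ₗ[F] (Fin r → F) := b.toLinearMap ∘ₗ f.rangeRestrict
  let g2 : (Fin r → F) →ₗ[F] (Fin m → F) := (LinearMap.range f).subtype ∘ₗ b.symm.toLinearMap
  have hinj : LinearMap.ker g2 = ⊥ := by
    rw [LinearMap.ker_eq_bot]
    exact (Submodule.injective_subtype _).comp b.symm.injective
  obtain ⟨l, hl⟩ := g2.exists_leftInverse_of_injective hinj
  refine ⟨r, by omega, LinearMap.toMatrix' g1, LinearMap.toMatrix' g2, LinearMap.toMatrix' l,
    ?_, ?_, ?_⟩
  · rw [← LinearMap.toMatrix'_comp]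
    have : g2 ∘ₗ g1 = f := by
      ext x
      simp [g1, g2]
    rw [this, hf, LinearMap.toMatrix'_toLin']
  · rw [← LinearMap.toMatrix'_comp, hl, LinearMap.toMatrix'_id]
  · intro h
    have hk : LinearMap.ker f = ⊥ := by
      rw [← Submodule.finrank_eq_zero]; omega
    obtain ⟨l', hl'⟩ := f.exists_leftInverse_of_injective hk
    refine ⟨LinearMap.toMatrix' l', ?_⟩
    have : A = LinearMap.toMatrix' f := by rw [hf, LinearMap.toMatrix'_toLin']
    rw [this, ← LinearMap.toMatrix'_comp, hl', LinearMap.toMatrix'_id]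

def size (T : Tensor3 F) : ℕ := T.n1 + T.n2 + T.n3

theorem drop {S T : Tensor3 F} (h : Restricts S T) (hn : ¬ Restricts T S) :
    ∃ U : Tensor3 F, Restricts S U ∧ Restricts U S ∧ size U < size T := by
  rw [restricts_iff] at h
  obtain ⟨A, B, C, h⟩ := h
  obtain ⟨r1, h1, A1, A2, LA, hA, hLA, hA'⟩ := factor A
  obtain ⟨r2, h2, B1, B2, LB, hB, hLB, hB'⟩ := factor B
  obtain ⟨r3, h3, C1, C2, LC, hC, hLC, hC'⟩ := factor C
  let U : Tensor3 F := ⟨r1, r2, r3, fun i j k => ((A1 ⊗ₖ (B1 ⊗ₖ C1)) *ᵥ vec T) (i, j, k)⟩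
  have hU : vec U = (A1 ⊗ₖ (B1 ⊗ₖ C1)) *ᵥ vec T := rfl
  have hSU : vec S = (A2 ⊗ₖ (B2 ⊗ₖ C2)) *ᵥ vec U := by
    rw [hU, h, Matrix.mulVec_mulVec, ← Matrix.mul_kronecker_mul, ← Matrix.mul_kronecker_mul,
      ← hA, ← hB, ← hC]
  refine ⟨U, ?_, ?_, ?_⟩
  · rw [restricts_iff]; exact ⟨A2, B2, C2, hSU⟩
  · rw [restricts_iff]
    refine ⟨LA, LB, LC, ?_⟩
    rw [hSU, Matrix.mulVec_mulVec, ← Matrix.mul_kronecker_mul, ← Matrix.mul_kronecker_mul]
    erw [hLA, hLB, hLC]
    simp
  · by_contra hlt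
    have e1 : r1 = T.n1 := by simp only [size, U] at hlt; omega
    have e2 : r2 = T.n2 := by simp only [size, U] at hlt; omega
    have e3 : r3 = T.n3 := by simp only [size, U] at hlt; omega
    obtain ⟨L1, hL1⟩ := hA' e1
    obtain ⟨L2, hL2⟩ := hB' e2
    obtain ⟨L3, hL3⟩ := hC' e3
    apply hn
    rw [restricts_iff]
    refine ⟨L1, L2, L3, ?_⟩
    rw [h, Matrix.mulVec_mulVec, ← Matrix.mul_kronecker_mul, ← Matrix.mul_kronecker_mul,
      hL1, hL2, hL3]
    simp

/-- There is no infinite strictly descending chain for restriction. -/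
theorem no_desc (c : ℕ → Tensor3 F) (h : ∀ n, Restricts (c (n + 1)) (c n)) :
    ∃ n, Restricts (c n) (c (n + 1)) := by
  by_contra hne
  push Not at hne
  have key : ∀ N n, ∀ U : Tensor3 F, Restricts (c n) U → Restricts U (c n) → N ≤ size U := by
    intro N
    induction N with
    | zero => intros; omega
    | succ N ih =>
      intro n U h1 h2
      have a1 : Restricts (c (n + 1)) U := restricts_trans (h n) h1
      have a2 : ¬ Restricts U (c (n + 1)) := fun h3 => hne n (restricts_trans h1 h3)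
      obtain ⟨V, b1, b2, b3⟩ := drop a1 a2
      have := ih (n + 1) V b1 b2
      omega
  have := key (size (c 0) + 1) 0 (c 0) (restricts_refl _) (restricts_refl _)
  omega

end Pool.Agent.Lib.H23Tens
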