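import Mathlib

namespace Pool.Agent.Lib.helper23.TfA

open Finset

variable {X : Type} [NormedAddCommGroup X] [NormedSpace ℝ X]

noncomputable def N (e : ℕ → X) (S : Finset ℕ) (a : ℕ → ℝ) : ℝ := ‖∑ k ∈ S, a k • e k‖

def Succ (I : Finset ℕ) (E : ℕ → Finset ℕ) : Prop :=
  ∀ i ∈ I, ∀ j ∈ I, i < j → ∀ k ∈ E i, ∀ l ∈ E j, k < l

/-- The working form of the implicit equation of the Tsirelson norm. -/
structure Ts (e : ℕ → X) : Prop where
  h1 : ∀ S a k, k ∈ S → |a k| ≤ N e S a
  h2 : ∀ S a (I : Finset ℕ) (E : ℕ → Finset ℕ), (∀ i ∈ I, E i ⊆ S) → Succ I E →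
    (∀ i ∈ I, ∀ k ∈ E i, I.card ≤ k + 1) → ∑ i ∈ I, N e (E i) a ≤ 2 * N e S a
  h3 : ∀ S a M, 0 ≤ M → (∀ k ∈ S, |a k| ≤ M) → (∀ (n : ℕ) (E : ℕ → Finset ℕ),
    (∀ i ∈ range n, E i ⊂ S ∨ E i = ∅) → Succ (range n) E → (∀ i ∈ range n, ∀ k ∈ E i, n ≤ k + 1) →
    ∑ i ∈ range n, N e (E i) a ≤ 2 * M) → N e S a ≤ M

theorem N_nonneg (e : ℕ → X) (S : Finset ℕ) (a : ℕ → ℝ) : 0 ≤ N e S a := norm_nonneg _

theorem N_empty (e : ℕ → X) (a : ℕ → ℝ) : N e ∅ a = 0 := by simp [N]

theorem N_split (e : ℕ → X) (S : Finset ℕ) (a : ℕ → ℝ) (p : ℕ → Prop) [DecidablePred p] :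
    N e S a ≤ N e (S.filter p) a + N e (S.filter fun k => ¬ p k) a := by
  unfold N
  rw [← sum_filter_add_sum_filter_not S p]
  exact norm_add_le _ _

theorem N_smul (e : ℕ → X) (S : Finset ℕ) (a : ℕ → ℝ) (c : ℝ) (hc : 0 ≤ c) :
    N e S (fun k => c * a k) = c * N e S a := by
  unfold N
  simp only [mul_smul, ← smul_sum, norm_smul, Real.norm_eq_abs, abs_of_nonneg hc]

variable {e : ℕ → X}

theorem Ts.single (h : Ts e) (k : ℕ) (a : ℕ → ℝ) : N e {k} a ≤ |a k| := by
  refine h.h3 _ _ _ (abs_nonneg _) (by simp) fun n E hE _ _ => ?_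
  rw [sum_eq_zero fun i hi => ?_]
  · positivity
  · rcases hE i hi with h1 | h1
    · rw [ssubset_singleton_iff.1 h1, N_empty]
    · rw [h1, N_empty]

theorem Ts.norm_e (h : Ts e) (k : ℕ) : ‖e k‖ ≤ 1 := by
  simpa [N] using h.single k fun _ => 1

theorem N_le_l1 {u : ℕ → X} (hu : ∀ k, ‖u k‖ ≤ 1) (S : Finset ℕ) (a : ℕ → ℝ) :
    N u S a ≤ ∑ k ∈ S, |a k| := by
  refine (norm_sum_le _ _).trans (sum_le_sum fun k _ => ?_)
  rw [norm_smul, Real.norm_eq_abs]
  exact mul_le_of_le_one_right (abs_nonneg _) (hu k)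

/-- Unconditionality and monotonicity under right spreads. -/
theorem Ts.mono (h : Ts e) (φ : ℕ → ℕ) (hφ : StrictMono φ) (a b : ℕ → ℝ) (S : Finset ℕ) :
    ∀ S' : Finset ℕ, (∀ k ∈ S, φ k ∈ S' ∧ |a k| ≤ |b (φ k)|) → N e S a ≤ N e S' b := by
  induction S using Finset.strongInduction with
  | H S ih =>
    intro S' hS
    refine h.h3 _ _ _ (N_nonneg _ _ _) (fun k hk => (hS k hk).2.trans (h.h1 _ _ _ (hS k hk).1))
      fun n E hE h1 h2 => ?_
    have hs : ∀ i ∈ range n, E i ⊆ S := fun i hi => by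
      rcases hE i hi with h3 | h3
      · exact h3.subset
      · rw [h3]; exact empty_subset _
    refine le_trans (sum_le_sum fun i hi => ?_)
      (h.h2 S' b (range n) (fun i => (E i).image φ) (fun i hi l hl => ?_) ?_ ?_)
    · rcases hE i hi with h3 | h3
      · exact ih _ h3 _ fun k hk => ⟨mem_image_of_mem _ hk, (hS k (h3.subset hk)).2⟩
      · rw [h3, N_empty]; exact N_nonneg _ _ _
    · obtain ⟨k, hk, rfl⟩ := mem_image.1 hl
      exact (hS k (hs i hi hk)).1
    · intro i hi j hj hij k hk l hl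
      obtain ⟨k, hk', rfl⟩ := mem_image.1 hk
      obtain ⟨l, hl', rfl⟩ := mem_image.1 hl
      exact hφ (h1 i hi j hj hij k hk' l hl')
    · intro i hi k hk
      obtain ⟨k, hk', rfl⟩ := mem_image.1 hk
      have := h2 i hi k hk'
      have := hφ.le_apply (x := k)
      rw [card_range]; omega

theorem Ts.sub (h : Ts e) (a : ℕ → ℝ) {S S' : Finset ℕ} (hS : S ⊆ S') : N e S a ≤ N e S' a :=
  h.mono id strictMono_id a a S S' fun _ hk => ⟨hS hk, le_rfl⟩

theorem Ts.l1 (h : Ts e) (a : ℕ → ℝ) (S : Finset ℕ) (hS : ∀ k ∈ S, S.card ≤ k + 1) :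
    ∑ k ∈ S, |a k| ≤ 2 * N e S a := by
  refine le_trans (sum_le_sum fun k _ => h.h1 {k} a k (mem_singleton_self k))
    (h.h2 S a S (fun k => {k}) (by simp) ?_ ?_)
  · intro i _ j _ hij k hk l hl
    rw [mem_singleton] at hk hl; omega
  · intro i hi k hk
    rw [mem_singleton] at hk; rw [hk]; exact hS i hi

/-- Growth functions along which the norm is uniformly equivalent to the `ℓ₁` norm. -/
def Gr (e : ℕ → X) (Ψ : ℕ → ℕ) : Prop :=
  ∃ K : ℝ, 1 ≤ K ∧ ∀ p (S : Finset ℕ) (a : ℕ → ℝ), (∀ k ∈ S, p ≤ k ∧ k < Ψ p) →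
    ∑ k ∈ S, |a k| ≤ K * N e S a

theorem Gr.le {Ψ Φ : ℕ → ℕ} (h : Gr e Ψ) (hΦ : ∀ p, Φ p ≤ Ψ p) : Gr e Φ := by
  obtain ⟨K, hK, h⟩ := h
  exact ⟨K, hK, fun p S a hS => h p S a fun k hk => ⟨(hS k hk).1, (hS k hk).2.trans_le (hΦ p)⟩⟩

theorem Ts.gr_base (h : Ts e) : Gr e fun p => 2 * p + 1 := by
  refine ⟨2, by norm_num, fun p S a hS => h.l1 a S fun k hk => ?_⟩
  have : S ⊆ Ico p (2 * p + 1) := fun l hl => mem_Ico.2 (hS l hl)
  have h1 := card_le_card this
  rw [Nat.card_Ico] at h1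
  have := (hS k hk).1
  omega

theorem Ts.gr_comp (h : Ts e) {Ψ Φ : ℕ → ℕ} (h1 : Gr e Ψ) (h2 : Gr e Φ) :
    Gr e fun p => Φ (Ψ p) := by
  obtain ⟨K, hK, h1⟩ := h1
  obtain ⟨L, hL, h2⟩ := h2
  refine ⟨K + L, by linarith, fun p S a hS => ?_⟩
  rw [← sum_filter_add_sum_filter_not S fun k => k < Ψ p]
  have h3 := h1 p (S.filter fun k => k < Ψ p) a fun k hk =>
    ⟨(hS k (mem_filter.1 hk).1).1, (mem_filter.1 hk).2⟩
  have h4 := h2 (Ψ p) (S.filter fun k => ¬ k < Ψ p) a fun k hk =>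
    ⟨not_lt.1 (mem_filter.1 hk).2, (hS k (mem_filter.1 hk).1).2⟩
  have h5 := h.sub a (filter_subset (fun k => k < Ψ p) S)
  have h6 := h.sub a (filter_subset (fun k => ¬ k < Ψ p) S)
  nlinarith

theorem sum_pieces (d : ℕ → ℕ) (hd : Monotone d) (f : ℕ → ℝ) (m : ℕ) :
    ∀ S : Finset ℕ, (∀ k ∈ S, d 0 ≤ k ∧ k < d m) →
      ∑ k ∈ S, f k = ∑ j ∈ range m, ∑ k ∈ S.filter (fun k => d j ≤ k ∧ k < d (j + 1)), f k := by
  induction m with
  | zero =>
    intro S hS
    rw [sum_range_zero, sum_eq_zero fun k hk => ?_]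
    have := hS k hk; omega
  | succ m ih =>
    intro S hS
    rw [sum_range_succ, ← sum_filter_add_sum_filter_not S fun k => k < d m,
      ih _ fun k hk => ⟨(hS k (mem_filter.1 hk).1).1, (mem_filter.1 hk).2⟩]
    congr 1
    · refine sum_congr rfl fun j hj => sum_congr ?_ fun _ _ => rfl
      have := hd (show j + 1 ≤ m from mem_range.1 hj)
      ext k; simp only [mem_filter]
      constructor
      · rintro ⟨⟨h1, _⟩, h2⟩; exact ⟨h1, h2⟩
      · rintro ⟨h1, h2⟩; exact ⟨⟨h1, by omega⟩, h2⟩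
    · refine sum_congr ?_ fun _ _ => rfl
      ext k; simp only [mem_filter]
      constructor
      · rintro ⟨h1, h2⟩; exact ⟨h1, by omega, (hS k h1).2⟩
      · rintro ⟨h1, h2⟩; exact ⟨h1, by omega⟩

theorem Ts.gr_exp (h : Ts e) : Gr e fun p => 2 ^ p := by
  refine ⟨4, by norm_num, fun p S a hS => ?_⟩
  have hd : Monotone fun j => 2 ^ j * (p + 1) - 1 := fun i j hij => by
    have := Nat.mul_le_mul_right (p + 1) (Nat.pow_le_pow_right (show 0 < 2 by norm_num) hij)
    simp only; omega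
  rw [sum_pieces _ hd _ (p + 1) S fun k hk => ?_]
  · have h1 := h.h2 S a (range (p + 1))
      (fun j => S.filter fun k => 2 ^ j * (p + 1) - 1 ≤ k ∧ k < 2 ^ (j + 1) * (p + 1) - 1)
      (fun i _ => filter_subset _ _) (fun i _ j _ hij k hk l hl => ?_) fun i _ k hk => ?_
    · refine le_trans (sum_le_sum fun j _ => h.l1 a _ fun k hk => ?_) ?_
      · have : S.filter (fun k => 2 ^ j * (p + 1) - 1 ≤ k ∧ k < 2 ^ (j + 1) * (p + 1) - 1) ⊆
            Ico (2 ^ j * (p + 1) - 1) (2 ^ (j + 1) * (p + 1) - 1) :=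
          fun l hl => mem_Ico.2 (mem_filter.1 hl).2
        have h1 := card_le_card this
        rw [Nat.card_Ico] at h1
        have h2 := (mem_filter.1 hk).2.1
        have h3 : 2 ^ (j + 1) * (p + 1) = 2 * (2 ^ j * (p + 1)) := by ring
        have h4 : 0 < 2 ^ j * (p + 1) := by positivity
        omega
      · rw [← mul_sum]; linarith
    · have := hd (show i + 1 ≤ j from hij)
      have h1 := (mem_filter.1 hk).2.2
      have h2 := (mem_filter.1 hl).2.1
      simp only at this; omega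
    · have := (hS k (mem_filter.1 hk).1).1
      rw [card_range]; omega
  · have h1 := hS k hk
    have h2 : 2 ^ (p + 1) * (p + 1) = 2 * 2 ^ p + 2 ^ (p + 1) * p := by ring
    have h3 : 0 < 2 ^ p := by positivity
    simp only at h1 ⊢
    omega

theorem Ts.gr_add (h : Ts e) (c : ℕ) : Gr e fun p => p + c := by
  induction c with
  | zero => exact h.gr_base.le fun p => by omega
  | succ c ih => exact (h.gr_comp ih h.gr_base).le fun p => by omega

theorem Ts.gr_main (h : Ts e) (c : ℕ) : Gr e fun p => 2 ^ (2 * (p + c) ^ 2) := by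
  refine (h.gr_comp (h.gr_comp (h.gr_comp (h.gr_add c) h.gr_base) h.gr_exp) h.gr_exp).le
    fun p => Nat.pow_le_pow_right (by norm_num) ?_
  have h1 : p + c ≤ 2 ^ (p + c) := Nat.lt_two_pow_self.le
  calc 2 * (p + c) ^ 2 ≤ 2 * (2 ^ (p + c)) ^ 2 := by gcongr
    _ = 2 ^ (2 * (p + c) + 1) := by ring

theorem exists_cut (e : ℕ → X) (S : Finset ℕ) (a : ℕ → ℝ) : ∃ t, ∀ s,
    N e (S.filter fun k => k < s) a + N e (S.filter fun k => ¬ k < s) a ≤
      N e (S.filter fun k => k < t) a + N e (S.filter fun k => ¬ k < t) a := by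
  obtain ⟨t, -, ht⟩ := exists_max_image (range (S.sup id + 2))
    (fun t => N e (S.filter fun k => k < t) a + N e (S.filter fun k => ¬ k < t) a) (by simp)
  refine ⟨t, fun s => le_of_eq_of_le ?_ (ht (min s (S.sup id + 1)) (mem_range.2 (by omega)))⟩
  have : ∀ k ∈ S, k < s ↔ k < min s (S.sup id + 1) := fun k hk => by
    have : k ≤ S.sup id := le_sup (f := id) hk
    omega
  rw [filter_congr this, filter_congr fun k hk => (this k hk).not]

theorem sum_range_two (f : ℕ → ℝ) (r : ℕ) :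
    ∑ l ∈ range (2 * r), f l = ∑ j ∈ range r, (f (2 * j) + f (2 * j + 1)) := by
  induction r with
  | zero => simp
  | succ r ih => rw [mul_add, mul_one, sum_range_succ, sum_range_succ, ih, sum_range_succ]; ring

theorem Ts.h3' (h : Ts e) (n : ℕ → ℕ) (hn : StrictMono n) (S : Finset ℕ) (a : ℕ → ℝ) (M : ℝ)
    (hM : 0 ≤ M) (h1 : ∀ k ∈ S, |a k| ≤ M) (h2 : ∀ (r : ℕ) (E : ℕ → Finset ℕ),
      (∀ i ∈ range r, E i ⊂ S ∨ E i = ∅) → Succ (range r) E →
      (∀ i ∈ range r, ∀ k ∈ E i, r ≤ n k + 1) →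
      ∑ i ∈ range r, N (fun k => e (n k)) (E i) a ≤ 2 * M) : N (fun k => e (n k)) S a ≤ M := by
  have key : ∀ S : Finset ℕ,
      N (fun k => e (n k)) S a = N e (S.image n) (Function.extend n a 0) := fun S => by
    unfold N
    rw [sum_image fun _ _ _ _ h => hn.injective h]
    simp only [hn.injective.extend_apply]
  rw [key]
  refine h.h3 _ _ _ hM (fun k hk => ?_) fun r F hF h3 h4 => ?_
  · obtain ⟨k, hk', rfl⟩ := mem_image.1 hk
    rw [hn.injective.extend_apply]; exact h1 k hk'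
  · have h5 : ∀ i ∈ range r, (S.filter fun k => n k ∈ F i).image n = F i := fun i hi => by
      ext l
      simp only [mem_image, mem_filter]
      constructor
      · rintro ⟨k, hk, rfl⟩; exact hk.2
      · intro hl
        rcases hF i hi with h6 | h6
        · obtain ⟨k, hk, rfl⟩ := mem_image.1 (h6.subset hl)
          exact ⟨k, ⟨hk, hl⟩, rfl⟩
        · rw [h6] at hl; simp at hl
    refine le_of_eq_of_le (sum_congr rfl fun i hi => by rw [key, h5 i hi])
      (h2 r (fun i => S.filter fun k => n k ∈ F i) (fun i hi => ?_)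
        (fun i hi j hj hij k hk l hl => hn.lt_iff_lt.1
          (h3 i hi j hj hij _ (mem_filter.1 hk).2 _ (mem_filter.1 hl).2))
        fun i hi k hk => h4 i hi _ (mem_filter.1 hk).2)
    rcases hF i hi with h6 | h6
    · refine Or.inl (Finset.ssubset_iff_subset_ne.2 ⟨filter_subset _ _, fun h7 => h6.ne ?_⟩)
      rw [← h5 i hi, h7]
    · right; simp [h6]

/-- Subsequences of controlled growth are dominated by the basis. -/
theorem Ts.spread (h : Ts e) (n Ψ : ℕ → ℕ) (hn : StrictMono n) (hΨ : Gr e Ψ)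
    (hnΨ : ∀ q, 2 * (n q + 1) ≤ Ψ q) :
    ∃ C : ℝ, ∀ S a, N (fun k => e (n k)) S a ≤ C * N e S a := by
  obtain ⟨K, hK, hΨ⟩ := hΨ
  suffices H : ∀ (a : ℕ → ℝ) (S : Finset ℕ) (M : ℝ), (∀ s,
      N e (S.filter fun k => k < s) a + N e (S.filter fun k => ¬ k < s) a ≤ M) →
      N (fun k => e (n k)) S a ≤ K * M by
    refine ⟨2 * K, fun S a => le_of_le_of_eq (H a S (2 * N e S a) fun s => ?_) (by ring)⟩
    have h5 := h.sub a (filter_subset (fun k => k < s) S)
    have h6 := h.sub a (filter_subset (fun k => ¬ k < s) S)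
    linarith
  intro a S
  induction S using Finset.strongInduction with
  | H S ih =>
    intro M hM
    have hM0 : N e S a ≤ M := by simpa [N_empty] using hM 0
    have hM1 : 0 ≤ M := (N_nonneg _ _ _).trans hM0
    refine h.h3' n hn S a _ (by positivity)
      (fun k hk => (h.h1 S a k hk).trans (by nlinarith)) fun r E hE h1 h2 => ?_
    have hs : ∀ i ∈ range r, E i ⊆ S := fun i hi => by
      rcases hE i hi with h3 | h3
      · exact h3.subset
      · rw [h3]; exact empty_subset _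
    by_cases h0 : ((range r).biUnion E).Nonempty
    swap
    · rw [sum_eq_zero fun i hi => ?_]
      · positivity
      · have : E i = ∅ := by
          by_contra h3
          obtain ⟨k, hk⟩ := nonempty_iff_ne_empty.2 h3
          exact h0 ⟨k, mem_biUnion.2 ⟨i, hi, hk⟩⟩
        rw [this, N_empty]
    obtain ⟨q, hq, hq'⟩ := exists_min_image _ id h0
    obtain ⟨i0, hi0, hq⟩ := mem_biUnion.1 hq
    have hr := h2 i0 hi0 q hq
    set t := 2 * (n q + 1) with ht
    choose τ hτ using fun j => exists_cut e ((E j).filter fun k => ¬ k < t) a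
    let G : ℕ → Finset ℕ := fun l =>
      if l % 2 = 0 then ((E (l / 2)).filter fun k => ¬ k < t).filter fun k => k < τ (l / 2)
      else ((E (l / 2)).filter fun k => ¬ k < t).filter fun k => ¬ k < τ (l / 2)
    have hG : ∀ l k, k ∈ G l → k ∈ E (l / 2) ∧ t ≤ k ∧ (l % 2 = 0 ↔ k < τ (l / 2)) := by
      intro l k hk
      simp only [G] at hk
      split_ifs at hk with h3 <;> simp only [mem_filter] at hk
      · exact ⟨hk.1.1, by omega, by tauto⟩
      · exact ⟨hk.1.1, by omega, by tauto⟩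
    have h3 := h.h2 (S.filter fun k => ¬ k < t) a (range (2 * r)) G
      (fun l hl k hk => mem_filter.2 ⟨hs (l / 2) (mem_range.2 (by
        have := mem_range.1 hl; omega)) (hG l k hk).1, by have := (hG l k hk).2.1; omega⟩)
      (fun i hi j hj hij k hk l hl => by
        have := mem_range.1 hi
        have := mem_range.1 hj
        obtain ⟨h3, -, h4⟩ := hG i k hk
        obtain ⟨h5, -, h6⟩ := hG j l hl
        by_cases h7 : i / 2 = j / 2
        · rw [h7] at h4; omega
        · exact h1 (i / 2) (mem_range.2 (by omega)) (j / 2) (mem_range.2 (by omega)) (by omega)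
            k h3 l h5)
      fun l _ k hk => by have := (hG l k hk).2.1; rw [card_range]; omega
    rw [sum_range_two] at h3
    have h4 : ∀ j ∈ range r, N (fun k => e (n k)) (E j) a ≤
        ∑ k ∈ (E j).filter (fun k => k < t), |a k| + K * (N e (G (2 * j)) a + N e (G (2 * j + 1)) a) := by
      intro j hj
      refine (N_split _ _ _ fun k => k < t).trans
        (add_le_add (N_le_l1 (fun k => h.norm_e _) _ _) ?_)
      have h5 : G (2 * j) = ((E j).filter fun k => ¬ k < t).filter fun k => k < τ j := by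
        simp only [G]; rw [if_pos (by omega), show 2 * j / 2 = j by omega]
      have h6 : G (2 * j + 1) = ((E j).filter fun k => ¬ k < t).filter fun k => ¬ k < τ j := by
        simp only [G]; rw [if_neg (by omega), show (2 * j + 1) / 2 = j by omega]
      rw [h5, h6]
      rcases hE j hj with h7 | h7
      · exact ih _ (lt_of_le_of_lt (filter_subset _ _) h7) _ (hτ j)
      · simp [h7, N_empty]
    have h5 : ∑ j ∈ range r, ∑ k ∈ (E j).filter (fun k => k < t), |a k| ≤
        K * N e (S.filter fun k => k < t) a := by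
      rw [← sum_biUnion fun i hi j hj hij => ?_]
      · refine (hΨ q _ a fun k hk => ?_).trans (mul_le_mul_of_nonneg_left (h.sub a fun k hk => ?_)
          (by linarith))
        · obtain ⟨j, hj, hk⟩ := mem_biUnion.1 hk
          exact ⟨hq' k (mem_biUnion.2 ⟨j, hj, (mem_filter.1 hk).1⟩),
            (mem_filter.1 hk).2.trans_le (hnΨ q)⟩
        · obtain ⟨j, hj, hk⟩ := mem_biUnion.1 hk
          exact mem_filter.2 ⟨hs j hj (mem_filter.1 hk).1, (mem_filter.1 hk).2⟩
      · refine disjoint_left.2 fun k hk hk' => ?_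
        rcases lt_or_gt_of_ne hij with h5 | h5
        · exact lt_irrefl _ (h1 i hi j hj h5 k (mem_filter.1 hk).1 k (mem_filter.1 hk').1)
        · exact lt_irrefl _ (h1 j hj i hi h5 k (mem_filter.1 hk').1 k (mem_filter.1 hk).1)
    refine (sum_le_sum h4).trans ?_
    rw [sum_add_distrib, ← mul_sum]
    have h6 := hM t
    have h7 := N_nonneg e (S.filter fun k => k < t) a
    nlinarith

end Pool.Agent.Lib.helper23.TfA
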