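import Mathlib
import Pool.Agent.Lib.helper23.TfA

namespace Pool.Agent.Lib.helper23.TfB

open Finset Pool.Agent.Lib.helper23.TfA

theorem step (a : ℕ → ℕ → ℝ) (ε : ℝ) (hε : 0 < ε) (u i : ℕ) (ha : ∀ k l, |a k l| ≤ ε * u)
    (J : Finset ℕ) (hb : ∀ l, (J.filter fun k => ε < |a k l|).card ≤ 2 * u + 1)
    (hJ : (2 * u + 1) ^ i * ((2 * i + 1) * (2 * u + 1)) < J.card) (prev : ℕ → ℕ × ℕ) :
    ∃ y : ℕ × ℕ, (y.1 ∈ J ∧ y.2 ∈ J ∧ |a y.1 y.2| ≤ ε) ∧ ∀ l < i,
      |a (prev l).1 y.1 - a (prev l).1 y.2| ≤ ε ∧ |a y.1 (prev l).1| ≤ ε ∧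
        |a y.1 (prev l).2| ≤ ε := by
  let f : ℕ → Fin i → ℤ := fun k l => ⌊a (prev l).1 k / ε⌋
  obtain ⟨z, -, hz⟩ := exists_lt_card_fiber_of_mul_lt_card_of_maps_to (s := J) (f := f)
    (t := Fintype.piFinset fun _ => Icc (-(u : ℤ)) u) (n := (2 * i + 1) * (2 * u + 1))
    (fun k _ => Fintype.mem_piFinset.2 fun l => by
      have h1 := abs_le.1 (ha (prev l).1 k)
      refine mem_Icc.2 ⟨Int.le_floor.2 ?_, ?_⟩
      · push_cast; rw [le_div_iff₀ hε]; linarith [h1.1]
      · refine Int.cast_le (R := ℝ).1 ((Int.floor_le _).trans ?_)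
        push_cast; rw [div_le_iff₀ hε]; linarith [h1.2])
    (by
      rw [Fintype.card_piFinset]
      simp only [Int.card_Icc, prod_const, card_univ, Fintype.card_fin]
      rw [show ((u : ℤ) + 1 - -(u : ℤ)).toNat = 2 * u + 1 by omega]
      exact hJ)
  obtain ⟨n', hn'⟩ := card_pos.1 (lt_of_le_of_lt (Nat.zero_le _) hz)
  let L : Finset ℕ := insert n' ((range i).image (fun l => (prev l).1) ∪
    (range i).image fun l => (prev l).2)
  have hL : L.card ≤ 2 * i + 1 := by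
    refine (card_insert_le _ _).trans (Nat.succ_le_succ ((card_union_le _ _).trans ?_))
    have h1 := card_image_le (s := range i) (f := fun l => (prev l).1)
    have h2 := card_image_le (s := range i) (f := fun l => (prev l).2)
    rw [card_range] at h1 h2
    omega
  have hB : (L.biUnion fun l => J.filter fun k => ε < |a k l|).card ≤ (2 * i + 1) * (2 * u + 1) :=
    (card_biUnion_le_card_mul _ _ _ fun l _ => hb l).trans (Nat.mul_le_mul_right _ hL)
  obtain ⟨n, hn, hn2⟩ := exists_mem_notMem_of_card_lt_card (hB.trans_lt hz)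
  rw [mem_filter] at hn hn'
  have h3 : ∀ l ∈ L, |a n l| ≤ ε := fun l hl => by
    by_contra h
    exact hn2 (mem_biUnion.2 ⟨l, hl, mem_filter.2 ⟨hn.1, not_le.1 h⟩⟩)
  refine ⟨(n, n'), ⟨hn.1, hn'.1, h3 _ (mem_insert_self _ _)⟩, fun l hl => ⟨?_, h3 _ ?_, h3 _ ?_⟩⟩
  · have h4 := Int.abs_sub_lt_one_of_floor_eq_floor (congrFun (hn.2.trans hn'.2.symm) ⟨l, hl⟩)
    rw [← sub_div, abs_div, abs_of_pos hε, div_lt_one hε] at h4
    exact h4.le
  · exact mem_insert_of_mem (mem_union_left _ (mem_image_of_mem _ (mem_range.2 hl)))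
  · exact mem_insert_of_mem (mem_union_right _ (mem_image_of_mem _ (mem_range.2 hl)))

noncomputable def sqn {α : Type} (g : ℕ → (ℕ → α) → α) (d : α) (i : ℕ) : α :=
  g i fun l => if _h : l < i then sqn g d l else d

theorem rec_choice {α : Type} (d : α) (P : ℕ → α → Prop) (r : ℕ → α → α → Prop)
    (h : ∀ (i : ℕ) (prev : ℕ → α), ∃ y, P i y ∧ ∀ l < i, r i (prev l) y) :
    ∃ f : ℕ → α, ∀ i, P i (f i) ∧ ∀ l < i, r i (f l) (f i) := by
  choose g hg using h
  refine ⟨sqn g d, fun i => ?_⟩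
  have := hg i fun l => if _h : l < i then sqn g d l else d
  have h0 : sqn g d i = g i fun l => if _h : l < i then sqn g d l else d := by rw [sqn]
  rw [← h0] at this
  exact ⟨this.1, fun l hl => by simpa [hl] using this.2 l hl⟩

theorem sizes (c i : ℕ) (hc : 2 ≤ c) :
    2 * (c * 4 ^ i) + 1 ≤ 2 ^ (2 * (i + c) ^ 2) ∧
    (2 * (c * 4 ^ i) + 1) ^ i * ((2 * i + 1) * (2 * (c * 4 ^ i) + 1)) ≤ 2 ^ (2 * (i + c) ^ 2) ∧
    4 * 2 ^ (2 * (i + c) ^ 2) ≤ 2 ^ (2 * (i + 1 + c) ^ 2) := by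
  have h0 : ∀ n : ℕ, 2 * n + 1 ≤ 4 ^ n := fun n => by
    induction n with
    | zero => simp
    | succ n ih => rw [pow_succ]; omega
  have h1 : 2 * (c * 4 ^ i) + 1 ≤ 4 ^ (i + c) := by
    have := h0 c
    have : 1 ≤ 4 ^ i := Nat.one_le_pow _ _ (by norm_num)
    rw [pow_add]; nlinarith
  have h2 : 2 * i + 1 ≤ 4 ^ (i + c) := (h0 i).trans (Nat.pow_le_pow_right (by norm_num) (by omega))
  have h3 : ∀ m ≤ i + c, (4 ^ (i + c)) ^ m ≤ 2 ^ (2 * (i + c) ^ 2) := fun m hm => by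
    rw [show 4 = 2 ^ 2 by norm_num, ← pow_mul, ← pow_mul]
    exact Nat.pow_le_pow_right (by norm_num) (by nlinarith)
  refine ⟨h1.trans ?_, le_trans ?_ (h3 (i + 2) (by omega)), ?_⟩
  · simpa using h3 1 (by omega)
  · rw [pow_add _ i 2, pow_two]; gcongr
  · rw [show 4 = 2 ^ 2 by norm_num, ← pow_add]
    exact Nat.pow_le_pow_right (by norm_num) (by nlinarith)

variable {X : Type} [NormedAddCommGroup X] [NormedSpace ℝ X] {e : ℕ → X} {e' : ℕ → X →L[ℝ] ℝ}

theorem span_rep {x : X} (hx : x ∈ Submodule.span ℝ (Set.range e)) :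
    ∃ (S : Finset ℕ) (a : ℕ → ℝ), x = ∑ k ∈ S, a k • e k := by
  obtain ⟨c, rfl⟩ := Finsupp.mem_span_range_iff_exists_finsupp.1 hx
  exact ⟨c.support, c, rfl⟩

theorem dense_ind (hd : Dense (Submodule.span ℝ (Set.range e) : Set X)) (f g : X → ℝ)
    (hf : Continuous f) (hg : Continuous g)
    (h : ∀ (S : Finset ℕ) (a : ℕ → ℝ), f (∑ k ∈ S, a k • e k) ≤ g (∑ k ∈ S, a k • e k)) (y : X) :
    f y ≤ g y :=
  hd.induction (P := fun y => f y ≤ g y) (fun x hx => by
    obtain ⟨S, a, rfl⟩ := span_rep hx; exact h S a) (isClosed_le hf hg) y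

theorem e'_sum (hbi : ∀ j k, e' j (e k) = if j = k then 1 else 0) (S : Finset ℕ) (a : ℕ → ℝ)
    (j : ℕ) : e' j (∑ k ∈ S, a k • e k) = if j ∈ S then a j else 0 := by
  simp only [map_sum, map_smul, hbi, smul_eq_mul, mul_ite, mul_one, mul_zero]
  rw [sum_ite_eq]

theorem proj_eq (hbi : ∀ j k, e' j (e k) = if j = k then 1 else 0) (S T : Finset ℕ) (a : ℕ → ℝ) :
    ∑ k ∈ T, e' k (∑ k ∈ S, a k • e k) • e k = ∑ k ∈ T ∩ S, a k • e k := by
  simp only [e'_sum hbi, ite_smul, zero_smul]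
  rw [← sum_filter, filter_mem_eq_inter]

section
variable (h : Ts e) (hbi : ∀ j k, e' j (e k) = if j = k then 1 else 0)
  (hd : Dense (Submodule.span ℝ (Set.range e) : Set X))
include h hbi hd

theorem coef_le (j : ℕ) (y : X) : |e' j y| ≤ ‖y‖ := by
  refine dense_ind hd (fun y => |e' j y|) _ (by fun_prop) continuous_norm (fun S a => ?_) y
  simp only [e'_sum hbi]
  split_ifs with h1
  · exact h.h1 S a j h1
  · simp

theorem l1_le (T : Finset ℕ) (hT : ∀ k ∈ T, T.card ≤ k + 1) (y : X) :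
    ∑ k ∈ T, |e' k y| ≤ 2 * ‖y‖ := by
  refine dense_ind hd (fun y => ∑ k ∈ T, |e' k y|) (fun y => 2 * ‖y‖) (by fun_prop) (by fun_prop)
    (fun S a => ?_) y
  simp only [e'_sum hbi, apply_ite abs, abs_zero]
  rw [← sum_filter, filter_mem_eq_inter]
  refine (h.l1 a _ fun k hk => (card_le_card inter_subset_left).trans
    (hT k (mem_inter.1 hk).1)).trans ?_
  have := h.sub a (inter_subset_right (s₁ := T) (s₂ := S))
  unfold N at this ⊢
  linarith

theorem proj_le (T : Finset ℕ) (y : X) : ‖∑ k ∈ T, e' k y • e k‖ ≤ ‖y‖ := by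
  refine dense_ind hd (fun y => ‖∑ k ∈ T, e' k y • e k‖) _ (by fun_prop) continuous_norm
    (fun S a => ?_) y
  simp only [proj_eq hbi]
  exact h.sub a inter_subset_right

theorem norm_le_of_coef (y : X) (B : ℝ) (hB : ∀ T : Finset ℕ, ∑ k ∈ T, |e' k y| ≤ B) :
    ‖y‖ ≤ B := by
  refine le_of_forall_pos_le_add fun ε hε => ?_
  obtain ⟨z, hz, hz'⟩ := hd.exists_dist_lt y (half_pos hε)
  obtain ⟨S, a, rfl⟩ := span_rep hz
  set z := ∑ k ∈ S, a k • e k with hz2
  rw [dist_eq_norm] at hz'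
  have h1 := proj_le h hbi hd S (y - z)
  have h2 : y = (y - z) + (∑ k ∈ S, e' k y • e k - ∑ k ∈ S, e' k (y - z) • e k) := by
    simp only [map_sub, sub_smul, sum_sub_distrib]
    rw [hz2, proj_eq hbi, inter_self]; abel
  have h3 := (N_le_l1 h.norm_e S fun k => e' k y).trans (hB S)
  have h4 := norm_sub_le (∑ k ∈ S, e' k y • e k) (∑ k ∈ S, e' k (y - z) • e k)
  have h5 := norm_add_le (y - z) (∑ k ∈ S, e' k y • e k - ∑ k ∈ S, e' k (y - z) • e k)
  rw [← h2] at h5
  unfold N at h3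
  linarith

theorem bad_le (y : X) (ε : ℝ) (m : ℕ) (hm : 2 * ‖y‖ < ε * m) (J : Finset ℕ)
    (hJ : ∀ k ∈ J, m ≤ k) : (J.filter fun k => ε < |e' k y|).card ≤ m := by
  by_contra h1
  obtain ⟨T, hT, rfl⟩ := exists_subset_card_eq (not_le.1 h1).le
  have h2 := l1_le h hbi hd T (fun k hk => (hJ k (mem_filter.1 (hT hk)).1).trans (by omega)) y
  have h3 := card_nsmul_le_sum T (fun k => |e' k y|) ε fun k hk => (mem_filter.1 (hT hk)).2.le
  rw [nsmul_eq_mul] at h3
  linarith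

end

theorem exists_ext [CompleteSpace X] (hd : Dense (Submodule.span ℝ (Set.range e) : Set X))
    (u : ℕ → X) (C : ℝ) (h : ∀ S a, N u S a ≤ C * N e S a) :
    ∃ U : X →L[ℝ] X, ∀ k, U (e k) = u k := by
  have h1 : DenseRange (Finsupp.linearCombination ℝ e) := by
    rw [DenseRange, ← LinearMap.coe_range, Finsupp.range_linearCombination]; exact hd
  refine ⟨(Finsupp.linearCombination ℝ u).extendOfNorm (Finsupp.linearCombination ℝ e), fun k => ?_⟩
  have := LinearMap.extendOfNorm_eq (f := Finsupp.linearCombination ℝ u) h1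
    ⟨C, fun x => h x.support x⟩ (Finsupp.single k 1)
  simpa using this

theorem geo (T : Finset ℕ) : ∑ k ∈ T, (1 / 2 : ℝ) ^ k ≤ 2 :=
  (summable_geometric_two.sum_le_tsum T fun _ _ => by positivity).trans_eq tsum_geometric_two

theorem main [CompleteSpace X] (h : Ts e) (hbi : ∀ j k, e' j (e k) = if j = k then 1 else 0)
    (hd : Dense (Submodule.span ℝ (Set.range e) : Set X)) (A : X →L[ℝ] X) (δ : ℝ) (hδ : 0 < δ)
    (hA : ∀ k, δ ≤ |e' k (A (e k))|) :
    ∃ R S : X →L[ℝ] X, S ∘L A ∘L R = ContinuousLinearMap.id ℝ X := by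
  set η := δ / 32 with hη
  have hη0 : 0 < η := by positivity
  obtain ⟨c, hc⟩ := exists_nat_ge (‖A‖ / η + 2)
  have hA0 : 0 ≤ ‖A‖ / η := by positivity
  have hc2 : 2 ≤ c := by exact_mod_cast (show (2 : ℝ) ≤ c by linarith)
  have hAc : ‖A‖ ≤ η * c := by
    have : ‖A‖ / η ≤ c := by linarith
    rwa [div_le_iff₀' hη0] at this
  have hAe : ∀ l, ‖A (e l)‖ ≤ η * c := fun l =>
    ((A.le_opNorm _).trans (mul_le_of_le_one_right (norm_nonneg _) (h.norm_e l))).trans hAc
  let s : ℕ → ℕ := fun i => 2 ^ (2 * (i + c) ^ 2)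
  have hs : ∀ i, 4 * s i ≤ s (i + 1) := fun i => (sizes c i hc2).2.2
  have hs0 : ∀ i, 0 < s i := fun i => by positivity
  have hε : ∀ i : ℕ, η / 4 ^ i * ((c * 4 ^ i : ℕ) : ℝ) = η * c := fun i => by
    push_cast; field_simp
  obtain ⟨f, hf⟩ := rec_choice (0, 0)
    (fun i y => y.1 ∈ Ico (s i) (s (i + 1)) ∧ y.2 ∈ Ico (s i) (s (i + 1)) ∧
      |e' y.1 (A (e y.2))| ≤ η / 4 ^ i)
    (fun i p y => |e' p.1 (A (e y.1)) - e' p.1 (A (e y.2))| ≤ η / 4 ^ i ∧
      |e' y.1 (A (e p.1))| ≤ η / 4 ^ i ∧ |e' y.1 (A (e p.2))| ≤ η / 4 ^ i)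
    fun i prev => step (fun k l => e' k (A (e l))) (η / 4 ^ i) (by positivity) (c * 4 ^ i) i
      (fun k l => by rw [hε]; exact (coef_le h hbi hd _ _).trans (hAe l)) _
      (fun l => bad_le h hbi hd _ _ _ (by
        have := hε i
        have := hAe l
        have : 0 < η / 4 ^ i := by positivity
        rw [Nat.cast_add, Nat.cast_mul, Nat.cast_one, Nat.cast_ofNat]
        nlinarith) _ fun k hk => (sizes c i hc2).1.trans (mem_Ico.1 hk).1)
      (by
        have h1 := (sizes c i hc2).2.1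
        have := hs i
        have := hs0 i
        rw [Nat.card_Ico]
        change _ ≤ s i at h1
        exact h1.trans_lt (show s i < s (i + 1) - s i by omega)) prev
  have sp : ∀ n : ℕ → ℕ, (∀ i, n i ∈ Ico (s i) (s (i + 1))) → StrictMono n ∧
      ∃ C : ℝ, ∀ S a, N (fun k => e (n k)) S a ≤ C * N e S a := fun n hn => by
    have h1 : StrictMono n := strictMono_nat_of_lt_succ fun i =>
      (mem_Ico.1 (hn i)).2.trans_le (mem_Ico.1 (hn (i + 1))).1
    refine ⟨h1, h.spread n _ h1 (h.gr_main (c + 2)) fun q => ?_⟩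
    have h2 := (mem_Ico.1 (hn q)).2
    have h3 := hs (q + 1)
    have h4 : s (q + 1 + 1) = 2 ^ (2 * (q + (c + 2)) ^ 2) := by simp only [s]; congr 3; omega
    omega
  set n : ℕ → ℕ := fun i => (f i).1 with hn
  set n' : ℕ → ℕ := fun i => (f i).2 with hn'
  obtain ⟨m1, C1, hC1⟩ := sp n fun i => (hf i).1.1
  obtain ⟨-, C2, hC2⟩ := sp n' fun i => (hf i).1.2.1
  obtain ⟨R, hR⟩ := exists_ext hd (fun k => e (n k) - e (n' k)) (C1 + C2) fun S a => by
    have h1 := hC1 S a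
    have h2 := hC2 S a
    unfold N at h1 h2 ⊢
    simp only [smul_sub, sum_sub_distrib]
    refine (norm_sub_le _ _).trans ?_
    linarith
  let d : ℕ → ℝ := fun l => e' (n l) (A (e (n l))) - e' (n l) (A (e (n' l)))
  have hd1 : ∀ l, δ / 2 ≤ |d l| := fun l => by
    have h1 := hA (n l)
    have h2 : |e' (n l) (A (e (n' l)))| ≤ η / 4 ^ l := (hf l).1.2.2
    have h3 : η / 4 ^ l ≤ η := div_le_self hη0.le (one_le_pow₀ (by norm_num))
    have h4 := abs_sub_abs_le_abs_sub (e' (n l) (A (e (n l)))) (e' (n l) (A (e (n' l))))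
    simp only [d]
    linarith
  have hd0 : ∀ l, d l ≠ 0 := fun l h0 => by
    have := hd1 l
    rw [h0, abs_zero] at this; linarith
  have hd2 : ∀ l (x : ℝ), |x * (d l)⁻¹| ≤ 2 / δ * |x| := fun l x => by
    rw [abs_mul, mul_comm, abs_inv]
    refine mul_le_mul_of_nonneg_right ?_ (abs_nonneg _)
    rw [← inv_div]
    exact inv_anti₀ (by positivity) (hd1 l)
  obtain ⟨S1, hS1⟩ := exists_ext hd (Function.extend n (fun l => (d l)⁻¹ • e l) 0) (2 / δ)
    fun S a => by
      rw [← N_smul _ _ _ _ (by positivity)]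
      refine le_of_eq_of_le ?_ (h.mono n m1 (fun l => a (n l) * (d l)⁻¹) _
        (S.preimage n m1.injective.injOn) S fun k hk => ⟨mem_preimage.1 hk, ?_⟩)
      · unfold N
        rw [← sum_preimage n S m1.injective.injOn _ fun k _ hk => by
          rw [Function.extend_apply' _ _ _ hk]; simp]
        simp only [m1.injective.extend_apply, smul_smul]
      · rw [abs_mul (2 / δ), abs_of_pos (by positivity : 0 < 2 / δ)]
        exact hd2 _ _
  have hS2 : ∀ l y, e' l (S1 y) = e' (n l) y * (d l)⁻¹ := fun l y => by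
    have : (e' l).comp S1 = (d l)⁻¹ • e' (n l) := by
      refine ContinuousLinearMap.ext_on hd ?_
      rintro _ ⟨k, rfl⟩
      simp only [ContinuousLinearMap.comp_apply, hS1, smul_apply, hbi, smul_eq_mul]
      by_cases hk : ∃ j, n j = k
      · obtain ⟨j, rfl⟩ := hk
        simp only [m1.injective.extend_apply, map_smul, hbi, smul_eq_mul, m1.injective.eq_iff]
        split_ifs with h1
        · rw [h1]
        · simp
      · rw [Function.extend_apply' _ _ _ hk, if_neg fun h1 => hk ⟨l, h1⟩]; simp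
    have := congrArg (fun T : X →L[ℝ] ℝ => T y) this
    simp only [ContinuousLinearMap.comp_apply, smul_apply, smul_eq_mul] at this
    rw [this, mul_comm]
  set E : X →L[ℝ] X := 1 - S1 * A * R with hE
  have hE1 : ∀ l i, |e' l (E (e i))| ≤ 1 / 8 * ((1 / 2) ^ l * (1 / 2) ^ i) := fun l i => by
    have h1 : e' l (E (e i)) = (if l = i then 1 else 0) -
        (e' (n l) (A (e (n i))) - e' (n l) (A (e (n' i)))) * (d l)⁻¹ := by
      simp only [hE, sub_apply, ContinuousLinearMap.mul_def, ContinuousLinearMap.comp_apply,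
        ContinuousLinearMap.one_def, ContinuousLinearMap.id_apply, map_sub, hbi, hR, hS2]
      ring
    have h2 : ∀ a b : ℕ, a < b → η / 4 ^ b ≤ η * ((1 / 2) ^ a * (1 / 2) ^ b) := fun a b hab => by
      have h3 : (1 / 2 : ℝ) ^ b ≤ (1 / 2) ^ a :=
        pow_le_pow_of_le_one (by norm_num) (by norm_num) hab.le
      have h4 : η / 4 ^ b = η * ((1 / 2) ^ b * (1 / 2) ^ b) := by
        rw [← mul_pow, div_eq_mul_inv, ← inv_pow]; norm_num
      rw [h4]; gcongr
    have h3 : ∀ x y : ℝ, |x| ≤ 2 * (η * y) → |x * (d l)⁻¹| ≤ 1 / 8 * y := fun x y hx => by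
      refine (hd2 l x).trans ((mul_le_mul_of_nonneg_left hx (by positivity)).trans_eq ?_)
      rw [hη]; field_simp; ring
    rw [h1]
    rcases lt_trichotomy l i with h4 | h4 | h4
    · rw [if_neg h4.ne, zero_sub, abs_neg]
      refine h3 _ _ ((((hf i).2 l h4).1.trans (h2 l i h4)).trans ?_)
      have : 0 ≤ η * ((1 / 2) ^ l * (1 / 2) ^ i) := by positivity
      linarith
    · subst h4
      rw [if_pos rfl, mul_inv_cancel₀ (hd0 l), sub_self, abs_zero]; positivity
    · rw [if_neg h4.ne', zero_sub, abs_neg]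
      refine h3 _ _ ((abs_sub _ _).trans ?_)
      have h5 := ((hf l).2 i h4).2.1.trans (h2 i l h4)
      have h6 := ((hf l).2 i h4).2.2.trans (h2 i l h4)
      rw [mul_comm ((1 / 2 : ℝ) ^ l)]
      exact (add_le_add h5 h6).trans_eq (by ring)
  have hE2 : ∀ i, ‖E (e i)‖ ≤ 1 / 4 * (1 / 2) ^ i := fun i =>
    norm_le_of_coef h hbi hd _ _ fun T => by
      refine (sum_le_sum fun l _ => hE1 l i).trans ?_
      rw [← mul_sum, ← sum_mul]
      have := geo T
      have : (0 : ℝ) ≤ (1 / 2) ^ i := by positivity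
      nlinarith
  have hE3 : ‖E‖ < 1 := by
    refine lt_of_le_of_lt (E.opNorm_le_bound (M := 1 / 2) (by norm_num) fun y => ?_) (by norm_num)
    refine dense_ind hd (fun y => ‖E y‖) (fun y => 1 / 2 * ‖y‖) (by fun_prop) (by fun_prop)
      (fun S a => ?_) y
    simp only [map_sum, map_smul]
    refine (norm_sum_le _ _).trans ((sum_le_sum (g := fun k => N e S a * (1 / 4 * (1 / 2) ^ k))
      fun k hk => ?_).trans ?_)
    · rw [norm_smul]
      exact mul_le_mul (h.h1 S a k hk) (hE2 k) (norm_nonneg _) (N_nonneg _ _ _)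
    · rw [← mul_sum, ← mul_sum]
      have := geo S
      have := N_nonneg e S a
      unfold N at *
      nlinarith
  refine ⟨R, ((Units.oneSub E hE3)⁻¹ : (X →L[ℝ] X)ˣ) * S1, ?_⟩
  have := (Units.oneSub E hE3).inv_mul
  rw [Units.val_oneSub, show 1 - E = S1 * A * R by rw [hE, sub_sub_cancel]] at this
  rw [← ContinuousLinearMap.one_def, ← this]
  rfl

end Pool.Agent.Lib.helper23.TfB
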