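import Mathlib
import Pool.Agent.Lib.helper23.TfB
import Pool.Agent.Lib.helper23.TmA

namespace Pool.Agent.Lib.helper23.TmB

open Finset Pool.Agent.Lib.helper23.TfA Pool.Agent.Lib.helper23.TmA
open Pool.Agent.Lib.helper23.TfB hiding coef_le l1_le proj_le norm_le_of_coef bad_le main

variable {X : Type} [NormedAddCommGroup X] [NormedSpace ℝ X] {e : ℕ → X} {e' : ℕ → X →L[ℝ] ℝ}

section
variable (h : Tm e) (hbi : ∀ j k, e' j (e k) = if j = k then 1 else 0)
  (hd : Dense (Submodule.span ℝ (Set.range e) : Set X))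
include h hbi hd

theorem coef_le (j : ℕ) (y : X) : |e' j y| ≤ ‖y‖ := by
  refine dense_ind hd (fun y => |e' j y|) _ (by fun_prop) continuous_norm (fun S a => ?_) y
  simp only [e'_sum hbi]
  split_ifs with h1
  · exact h.h1 S a j h1
  · simp

theorem l1_le (T : Finset ℕ) (hT : ∀ k ∈ T, T.card ≤ k + 1) (y : X) :
    ∑ k ∈ T, |e' k y| ≤ 2 * ‖y‖ := by
  refine dense_ind hd (fun y => ∑ k ∈ T, |e' k y|) (fun y => 2 * ‖y‖) (by fun_prop) (by fun_prop)
    (fun S a => ?_) y
  simp only [e'_sum hbi, apply_ite abs, abs_zero]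
  rw [← sum_filter, filter_mem_eq_inter]
  refine (h.l1 a _ fun k hk => (card_le_card inter_subset_left).trans
    (hT k (mem_inter.1 hk).1)).trans ?_
  have := h.sub a (inter_subset_right (s₁ := T) (s₂ := S))
  unfold N at this ⊢
  linarith

theorem proj_le (T : Finset ℕ) (y : X) : ‖∑ k ∈ T, e' k y • e k‖ ≤ ‖y‖ := by
  refine dense_ind hd (fun y => ‖∑ k ∈ T, e' k y • e k‖) _ (by fun_prop) continuous_norm
    (fun S a => ?_) y
  simp only [proj_eq hbi]
  exact h.sub a inter_subset_right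

theorem norm_le_of_coef (y : X) (B : ℝ) (hB : ∀ T : Finset ℕ, ∑ k ∈ T, |e' k y| ≤ B) :
    ‖y‖ ≤ B := by
  refine le_of_forall_pos_le_add fun ε hε => ?_
  obtain ⟨z, hz, hz'⟩ := hd.exists_dist_lt y (half_pos hε)
  obtain ⟨S, a, rfl⟩ := span_rep hz
  set z := ∑ k ∈ S, a k • e k with hz2
  rw [dist_eq_norm] at hz'
  have h1 := proj_le h hbi hd S (y - z)
  have h2 : y = (y - z) + (∑ k ∈ S, e' k y • e k - ∑ k ∈ S, e' k (y - z) • e k) := by
    simp only [map_sub, sub_smul, sum_sub_distrib]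
    rw [hz2, proj_eq hbi, inter_self]; abel
  have h3 := (N_le_l1 h.norm_e S fun k => e' k y).trans (hB S)
  have h4 := norm_sub_le (∑ k ∈ S, e' k y • e k) (∑ k ∈ S, e' k (y - z) • e k)
  have h5 := norm_add_le (y - z) (∑ k ∈ S, e' k y • e k - ∑ k ∈ S, e' k (y - z) • e k)
  rw [← h2] at h5
  unfold N at h3
  linarith

theorem bad_le (y : X) (ε : ℝ) (m : ℕ) (hm : 2 * ‖y‖ < ε * m) (J : Finset ℕ)
    (hJ : ∀ k ∈ J, m ≤ k) : (J.filter fun k => ε < |e' k y|).card ≤ m := by
  by_contra h1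
  obtain ⟨T, hT, rfl⟩ := exists_subset_card_eq (not_le.1 h1).le
  have h2 := l1_le h hbi hd T (fun k hk => (hJ k (mem_filter.1 (hT hk)).1).trans (by omega)) y
  have h3 := card_nsmul_le_sum T (fun k => |e' k y|) ε fun k hk => (mem_filter.1 (hT hk)).2.le
  rw [nsmul_eq_mul] at h3
  linarith

end

theorem main [CompleteSpace X] (h : Tm e) (hbi : ∀ j k, e' j (e k) = if j = k then 1 else 0)
    (hd : Dense (Submodule.span ℝ (Set.range e) : Set X)) (A : X →L[ℝ] X) (δ : ℝ) (hδ : 0 < δ)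
    (hA : ∀ k, δ ≤ |e' k (A (e k))|) :
    ∃ R S : X →L[ℝ] X, S ∘L A ∘L R = ContinuousLinearMap.id ℝ X := by
  set η := δ / 32 with hη
  have hη0 : 0 < η := by positivity
  obtain ⟨c, hc⟩ := exists_nat_ge (‖A‖ / η + 2)
  have hA0 : 0 ≤ ‖A‖ / η := by positivity
  have hc2 : 2 ≤ c := by exact_mod_cast (show (2 : ℝ) ≤ c by linarith)
  have hAc : ‖A‖ ≤ η * c := by
    have : ‖A‖ / η ≤ c := by linarith
    rwa [div_le_iff₀' hη0] at this
  have hAe : ∀ l, ‖A (e l)‖ ≤ η * c := fun l =>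
    ((A.le_opNorm _).trans (mul_le_of_le_one_right (norm_nonneg _) (h.norm_e l))).trans hAc
  let s : ℕ → ℕ := fun i => 2 ^ (2 * (i + c) ^ 2)
  have hs : ∀ i, 4 * s i ≤ s (i + 1) := fun i => (sizes c i hc2).2.2
  have hs0 : ∀ i, 0 < s i := fun i => by positivity
  have hε : ∀ i : ℕ, η / 4 ^ i * ((c * 4 ^ i : ℕ) : ℝ) = η * c := fun i => by
    push_cast; field_simp
  obtain ⟨f, hf⟩ := rec_choice (0, 0)
    (fun i y => y.1 ∈ Ico (s i) (s (i + 1)) ∧ y.2 ∈ Ico (s i) (s (i + 1)) ∧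
      |e' y.1 (A (e y.2))| ≤ η / 4 ^ i)
    (fun i p y => |e' p.1 (A (e y.1)) - e' p.1 (A (e y.2))| ≤ η / 4 ^ i ∧
      |e' y.1 (A (e p.1))| ≤ η / 4 ^ i ∧ |e' y.1 (A (e p.2))| ≤ η / 4 ^ i)
    fun i prev => step (fun k l => e' k (A (e l))) (η / 4 ^ i) (by positivity) (c * 4 ^ i) i
      (fun k l => by rw [hε]; exact (coef_le h hbi hd _ _).trans (hAe l)) _
      (fun l => bad_le h hbi hd _ _ _ (by
        have := hε i
        have := hAe l
        have : 0 < η / 4 ^ i := by positivity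
        rw [Nat.cast_add, Nat.cast_mul, Nat.cast_one, Nat.cast_ofNat]
        nlinarith) _ fun k hk => (sizes c i hc2).1.trans (mem_Ico.1 hk).1)
      (by
        have h1 := (sizes c i hc2).2.1
        have := hs i
        have := hs0 i
        rw [Nat.card_Ico]
        change _ ≤ s i at h1
        exact h1.trans_lt (show s i < s (i + 1) - s i by omega)) prev
  have sp : ∀ n : ℕ → ℕ, (∀ i, n i ∈ Ico (s i) (s (i + 1))) → StrictMono n ∧
      ∃ C : ℝ, ∀ S a, N (fun k => e (n k)) S a ≤ C * N e S a := fun n hn => by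
    have h1 : StrictMono n := strictMono_nat_of_lt_succ fun i =>
      (mem_Ico.1 (hn i)).2.trans_le (mem_Ico.1 (hn (i + 1))).1
    refine ⟨h1, h.spread n _ h1 (h.gr_main (c + 2)) fun q => ?_⟩
    have h2 := (mem_Ico.1 (hn q)).2
    have h3 := hs (q + 1)
    have h4 : s (q + 1 + 1) = 2 ^ (2 * (q + (c + 2)) ^ 2) := by simp only [s]; congr 3; omega
    omega
  set n : ℕ → ℕ := fun i => (f i).1 with hn
  set n' : ℕ → ℕ := fun i => (f i).2 with hn'
  obtain ⟨m1, C1, hC1⟩ := sp n fun i => (hf i).1.1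
  obtain ⟨-, C2, hC2⟩ := sp n' fun i => (hf i).1.2.1
  obtain ⟨R, hR⟩ := exists_ext hd (fun k => e (n k) - e (n' k)) (C1 + C2) fun S a => by
    have h1 := hC1 S a
    have h2 := hC2 S a
    unfold N at h1 h2 ⊢
    simp only [smul_sub, sum_sub_distrib]
    refine (norm_sub_le _ _).trans ?_
    linarith
  let d : ℕ → ℝ := fun l => e' (n l) (A (e (n l))) - e' (n l) (A (e (n' l)))
  have hd1 : ∀ l, δ / 2 ≤ |d l| := fun l => by
    have h1 := hA (n l)
    have h2 : |e' (n l) (A (e (n' l)))| ≤ η / 4 ^ l := (hf l).1.2.2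
    have h3 : η / 4 ^ l ≤ η := div_le_self hη0.le (one_le_pow₀ (by norm_num))
    have h4 := abs_sub_abs_le_abs_sub (e' (n l) (A (e (n l)))) (e' (n l) (A (e (n' l))))
    simp only [d]
    linarith
  have hd0 : ∀ l, d l ≠ 0 := fun l h0 => by
    have := hd1 l
    rw [h0, abs_zero] at this; linarith
  have hd2 : ∀ l (x : ℝ), |x * (d l)⁻¹| ≤ 2 / δ * |x| := fun l x => by
    rw [abs_mul, mul_comm, abs_inv]
    refine mul_le_mul_of_nonneg_right ?_ (abs_nonneg _)
    rw [← inv_div]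
    exact inv_anti₀ (by positivity) (hd1 l)
  obtain ⟨S1, hS1⟩ := exists_ext hd (Function.extend n (fun l => (d l)⁻¹ • e l) 0) (2 / δ)
    fun S a => by
      rw [← N_smul _ _ _ _ (by positivity)]
      refine le_of_eq_of_le ?_ (h.mono n m1 (fun l => a (n l) * (d l)⁻¹) _
        (S.preimage n m1.injective.injOn) S fun k hk => ⟨mem_preimage.1 hk, ?_⟩)
      · unfold N
        rw [← sum_preimage n S m1.injective.injOn _ fun k _ hk => by
          rw [Function.extend_apply' _ _ _ hk]; simp]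
        simp only [m1.injective.extend_apply, smul_smul]
      · rw [abs_mul (2 / δ), abs_of_pos (by positivity : 0 < 2 / δ)]
        exact hd2 _ _
  have hS2 : ∀ l y, e' l (S1 y) = e' (n l) y * (d l)⁻¹ := fun l y => by
    have : (e' l).comp S1 = (d l)⁻¹ • e' (n l) := by
      refine ContinuousLinearMap.ext_on hd ?_
      rintro _ ⟨k, rfl⟩
      simp only [ContinuousLinearMap.comp_apply, hS1, smul_apply, hbi, smul_eq_mul]
      by_cases hk : ∃ j, n j = k
      · obtain ⟨j, rfl⟩ := hk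
        simp only [m1.injective.extend_apply, map_smul, hbi, smul_eq_mul, m1.injective.eq_iff]
        split_ifs with h1
        · rw [h1]
        · simp
      · rw [Function.extend_apply' _ _ _ hk, if_neg fun h1 => hk ⟨l, h1⟩]; simp
    have := congrArg (fun T : X →L[ℝ] ℝ => T y) this
    simp only [ContinuousLinearMap.comp_apply, smul_apply, smul_eq_mul] at this
    rw [this, mul_comm]
  set E : X →L[ℝ] X := 1 - S1 * A * R with hE
  have hE1 : ∀ l i, |e' l (E (e i))| ≤ 1 / 8 * ((1 / 2) ^ l * (1 / 2) ^ i) := fun l i => by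
    have h1 : e' l (E (e i)) = (if l = i then 1 else 0) -
        (e' (n l) (A (e (n i))) - e' (n l) (A (e (n' i)))) * (d l)⁻¹ := by
      simp only [hE, sub_apply, ContinuousLinearMap.mul_def, ContinuousLinearMap.comp_apply,
        ContinuousLinearMap.one_def, ContinuousLinearMap.id_apply, map_sub, hbi, hR, hS2]
      ring
    have h2 : ∀ a b : ℕ, a < b → η / 4 ^ b ≤ η * ((1 / 2) ^ a * (1 / 2) ^ b) := fun a b hab => by
      have h3 : (1 / 2 : ℝ) ^ b ≤ (1 / 2) ^ a :=
        pow_le_pow_of_le_one (by norm_num) (by norm_num) hab.le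
      have h4 : η / 4 ^ b = η * ((1 / 2) ^ b * (1 / 2) ^ b) := by
        rw [← mul_pow, div_eq_mul_inv, ← inv_pow]; norm_num
      rw [h4]; gcongr
    have h3 : ∀ x y : ℝ, |x| ≤ 2 * (η * y) → |x * (d l)⁻¹| ≤ 1 / 8 * y := fun x y hx => by
      refine (hd2 l x).trans ((mul_le_mul_of_nonneg_left hx (by positivity)).trans_eq ?_)
      rw [hη]; field_simp; ring
    rw [h1]
    rcases lt_trichotomy l i with h4 | h4 | h4
    · rw [if_neg h4.ne, zero_sub, abs_neg]
      refine h3 _ _ ((((hf i).2 l h4).1.trans (h2 l i h4)).trans ?_)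
      have : 0 ≤ η * ((1 / 2) ^ l * (1 / 2) ^ i) := by positivity
      linarith
    · subst h4
      rw [if_pos rfl, mul_inv_cancel₀ (hd0 l), sub_self, abs_zero]; positivity
    · rw [if_neg h4.ne', zero_sub, abs_neg]
      refine h3 _ _ ((abs_sub _ _).trans ?_)
      have h5 := ((hf l).2 i h4).2.1.trans (h2 i l h4)
      have h6 := ((hf l).2 i h4).2.2.trans (h2 i l h4)
      rw [mul_comm ((1 / 2 : ℝ) ^ l)]
      exact (add_le_add h5 h6).trans_eq (by ring)
  have hE2 : ∀ i, ‖E (e i)‖ ≤ 1 / 4 * (1 / 2) ^ i := fun i =>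
    norm_le_of_coef h hbi hd _ _ fun T => by
      refine (sum_le_sum fun l _ => hE1 l i).trans ?_
      rw [← mul_sum, ← sum_mul]
      have := geo T
      have : (0 : ℝ) ≤ (1 / 2) ^ i := by positivity
      nlinarith
  have hE3 : ‖E‖ < 1 := by
    refine lt_of_le_of_lt (E.opNorm_le_bound (M := 1 / 2) (by norm_num) fun y => ?_) (by norm_num)
    refine dense_ind hd (fun y => ‖E y‖) (fun y => 1 / 2 * ‖y‖) (by fun_prop) (by fun_prop)
      (fun S a => ?_) y
    simp only [map_sum, map_smul]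
    refine (norm_sum_le _ _).trans ((sum_le_sum (g := fun k => N e S a * (1 / 4 * (1 / 2) ^ k))
      fun k hk => ?_).trans ?_)
    · rw [norm_smul]
      exact mul_le_mul (h.h1 S a k hk) (hE2 k) (norm_nonneg _) (N_nonneg _ _ _)
    · rw [← mul_sum, ← mul_sum]
      have := geo S
      have := N_nonneg e S a
      unfold N at *
      nlinarith
  refine ⟨R, ((Units.oneSub E hE3)⁻¹ : (X →L[ℝ] X)ˣ) * S1, ?_⟩
  have := (Units.oneSub E hE3).inv_mul
  rw [Units.val_oneSub, show 1 - E = S1 * A * R by rw [hE, sub_sub_cancel]] at this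
  rw [← ContinuousLinearMap.one_def, ← this]
  rfl

end Pool.Agent.Lib.helper23.TmB
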