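import Mathlib
import Pool.Agent.Lib.helper23.TmB

namespace Pool.Agent.Lib.helper23.TmC

open Finset Filter Topology Pool.Agent.Lib.helper23.TfA Pool.Agent.Lib.helper23.TmA
open Pool.Agent.Lib.helper23.TmB
open Pool.Agent.Lib.helper23.TfB hiding coef_le l1_le proj_le norm_le_of_coef bad_le main

theorem exists_space (Φ : Set (ℕ → ℝ)) (hΦ : ∀ n, ∃ M, ∀ c ∈ Φ, ‖c n‖ ≤ M) :
    ∃ (X : Type) (_ : NormedAddCommGroup X) (_ : NormedSpace ℝ X) (_ : CompleteSpace X)
      (x : ℕ → X) (ev : Φ → X →L[ℝ] ℝ), Dense (Submodule.span ℝ (Set.range x) : Set X) ∧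
      (∀ c n, ev c (x n) = c.1 n) ∧ (∀ c y, |ev c y| ≤ ‖y‖) ∧
      ∀ y M, 0 ≤ M → (∀ c, |ev c y| ≤ M) → ‖y‖ ≤ M := by
  let Y := lp (fun _ : Φ => ℝ) ⊤
  let x : ℕ → Y := fun n => ⟨fun c => c.1 n, memℓp_infty (by
    obtain ⟨M, hM⟩ := hΦ n
    exact ⟨M, by rintro _ ⟨c, rfl⟩; exact hM c.1 c.2⟩)⟩
  let T : Submodule ℝ Y := (Submodule.span ℝ (Set.range x)).topologicalClosure
  let e : ℕ → T := fun n =>
    ⟨x n, Submodule.le_topologicalClosure _ (Submodule.subset_span ⟨n, rfl⟩)⟩
  refine ⟨T, inferInstance, inferInstance,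
    (Submodule.isClosed_topologicalClosure _).completeSpace_coe, e,
    fun c => (lp.evalCLM ℝ (fun _ : Φ => ℝ) ⊤ c).comp T.subtypeL, ?_, fun _ _ => rfl,
    fun c y => lp.norm_apply_le_norm (by simp) y.1 c, fun y M hM h => lp.norm_le_of_forall_le hM h⟩
  refine Subtype.dense_iff.2 ?_
  have h := Submodule.map_span T.subtype (Set.range e)
  rw [← Set.range_comp] at h
  exact subset_rfl.trans
    (congrArg closure (congrArg (fun s : Submodule ℝ Y => (s : Set Y)) h)).ge

/-- The norming set of the modified Tsirelson space. -/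
inductive K : (ℕ → ℝ) → Prop
  | base (n : ℕ) (s : ℝ) (hs : |s| ≤ 1) : K (Pi.single n s)
  | comb (I : Finset ℕ) (E : ℕ → Finset ℕ) (f : ℕ → ℕ → ℝ) (hE : Disj I E)
      (hI : ∀ i ∈ I, ∀ k ∈ E i, I.card ≤ k + 1) (hf : ∀ j, K (f j))
      (hs : ∀ j k, k ∉ E j → f j k = 0) : K (fun k => 1 / 2 * ∑ j ∈ I, f j k)

theorem disj_eq {I : Finset ℕ} {E : ℕ → Finset ℕ} (h : Disj I E) {i j k : ℕ} (hi : i ∈ I)
    (hj : j ∈ I) (h1 : k ∈ E i) (h2 : k ∈ E j) : i = j := by
  rcases lt_trichotomy i j with h3 | h3 | h3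
  · exact absurd rfl (h i hi j hj h3 k h1 k h2)
  · exact h3
  · exact absurd rfl (h j hj i hi h3 k h2 k h1)

theorem K.le {f : ℕ → ℝ} (h : K f) (k : ℕ) : |f k| ≤ 1 := by
  induction h with
  | base n s hs => rw [Pi.single_apply]; split_ifs <;> simp [hs]
  | comb I E f hE hI hf hs ih =>
    have : |∑ j ∈ I, f j k| ≤ 1 := by
      by_cases h2 : ∃ j ∈ I, k ∈ E j
      · obtain ⟨j, hj, h3⟩ := h2
        rw [sum_eq_single j (fun i hi hij => hs i k fun h4 => hij (disj_eq hE hi hj h4 h3))
          fun h => absurd hj h]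
        exact ih j
      · rw [sum_eq_zero fun j hj => hs j k fun h => h2 ⟨j, hj, h⟩]; simp
    simp only [abs_mul]
    rw [abs_of_pos (by norm_num : (0 : ℝ) < 1 / 2)]
    linarith

theorem K.mul {f : ℕ → ℝ} (h : K f) (m : ℕ → ℝ) (hm : ∀ k, |m k| ≤ 1) : K fun k => m k * f k := by
  induction h with
  | base n s hs =>
    have : (fun k => m k * (Pi.single n s : ℕ → ℝ) k) = Pi.single n (m n * s) := by
      funext k
      simp only [Pi.single_apply]
      split_ifs with h
      · rw [h]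
      · simp
    rw [this]
    exact K.base _ _ (by rw [abs_mul]; exact mul_le_one₀ (hm n) (abs_nonneg _) hs)
  | comb I E f hE hI hf hs ih =>
    have := K.comb I E (fun j k => m k * f j k) hE hI ih fun j k h => by rw [hs j k h, mul_zero]
    convert this using 2 with k
    rw [← mul_sum]; ring

theorem exists_tm : ∃ (X : Type) (_ : NormedAddCommGroup X) (_ : NormedSpace ℝ X)
    (_ : CompleteSpace X) (e : ℕ → X) (e' : ℕ → X →L[ℝ] ℝ), Tm e ∧
      (∀ j k, e' j (e k) = if j = k then 1 else 0) ∧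
      Dense (Submodule.span ℝ (Set.range e) : Set X) := by
  obtain ⟨X, i1, i2, i3, e, ev, hd, h1, h2, h3⟩ :=
    exists_space {f | K f} fun n => ⟨1, fun f hf => K.le hf n⟩
  have h4 : ∀ c (S : Finset ℕ) (a : ℕ → ℝ), ev c (∑ k ∈ S, a k • e k) = ∑ k ∈ S, a k * c.1 k :=
    fun c S a => by simp only [map_sum, map_smul, h1, smul_eq_mul]
  have h5 : ∀ f, K f → ∀ S a, |∑ k ∈ S, a k * f k| ≤ N e S a := fun f hf S a => by
    rw [← h4 ⟨f, hf⟩]; exact h2 _ _
  refine ⟨X, i1, i2, i3, e, fun k => ev ⟨_, K.base k 1 (by simp)⟩, ⟨fun S a k hk => ?_,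
    fun S a I E h6 h7 h8 => ?_, fun S a M hM h6 h7 => ?_⟩, fun j k => ?_, hd⟩
  · have := h5 _ (K.base k 1 (by simp)) S a
    simpa [Pi.single_apply, hk] using this
  · refine le_of_forall_pos_le_add fun ε hε => ?_
    have ex : ∀ i, ∃ f, K f ∧ (∀ k, k ∉ E i → f k = 0) ∧
        N e (E i) a ≤ ∑ k ∈ E i, a k * f k + ε / (I.card + 1) := fun i => by
      by_cases h9 : N e (E i) a ≤ ε / (I.card + 1)
      · exact ⟨_, K.base 0 0 (by simp), by simp, by simpa using h9⟩
      obtain ⟨f, hf⟩ : ∃ f, N e (E i) a - ε / (I.card + 1) < |ev f (∑ k ∈ E i, a k • e k)| := by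
        by_contra h10
        have := h3 _ _ (by linarith) fun f => not_lt.1 fun h => h10 ⟨f, h⟩
        have : 0 < ε / (I.card + 1) := by positivity
        unfold N at *; linarith
      rw [h4] at hf
      obtain ⟨s, hs, hs'⟩ : ∃ s : ℝ, |s| ≤ 1 ∧ |∑ k ∈ E i, a k * f.1 k| =
          s * ∑ k ∈ E i, a k * f.1 k := by
        rcases abs_choice (∑ k ∈ E i, a k * f.1 k) with h | h
        · exact ⟨1, by simp, by simp [h]⟩
        · exact ⟨-1, by simp, by simp [h]⟩
      refine ⟨_, K.mul f.2 (fun k => if k ∈ E i then s else 0) fun k => by split_ifs <;> simp [hs],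
        fun k hk => by simp [hk], ?_⟩
      rw [sum_congr rfl (g := fun k => s * (a k * f.1 k)) fun k hk => by rw [if_pos hk]; ring,
        ← mul_sum]
      linarith
    choose f hf hf1 hf2 using ex
    have h9 := (le_abs_self _).trans (h5 _ (K.comb I E f h7 h8 hf hf1) S a)
    have h10 : ∑ k ∈ S, a k * (1 / 2 * ∑ j ∈ I, f j k) = 1 / 2 * ∑ j ∈ I, ∑ k ∈ E j, a k * f j k := by
      rw [sum_congr rfl fun j hj => sum_subset (h6 j hj) fun k _ hk => by rw [hf1 j k hk, mul_zero],
        sum_comm, mul_sum]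
      exact sum_congr rfl fun k _ => by rw [← mul_sum]; ring
    refine (sum_le_sum fun i _ => hf2 i).trans ?_
    rw [sum_add_distrib, sum_const, nsmul_eq_mul]
    have h11 : I.card * (ε / (I.card + 1)) ≤ ε := by
      rw [mul_div_assoc', div_le_iff₀ (by positivity)]; nlinarith
    linarith
  · have key : N e S a ≤ max M (N e S a / 2) := by
      refine h3 _ _ (hM.trans (le_max_left _ _)) ?_
      rintro ⟨f, hf⟩
      rw [h4]
      cases hf with
      | base n s hs =>
        refine le_trans ?_ (le_max_left _ _)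
        simp only [Pi.single_apply, mul_ite, mul_zero, sum_ite_eq']
        split_ifs with h8
        · rw [abs_mul]; exact (mul_le_of_le_one_right (abs_nonneg _) hs).trans (h6 n h8)
        · simpa using hM
      | comb I E f hE hI hf hs =>
        have h8 : |∑ k ∈ S, a k * (1 / 2 * ∑ j ∈ I, f j k)| ≤ 1 / 2 * ∑ j ∈ I, N e (E j ∩ S) a := by
          have : ∑ k ∈ S, a k * (1 / 2 * ∑ j ∈ I, f j k) =
              1 / 2 * ∑ j ∈ I, ∑ k ∈ E j ∩ S, a k * f j k := by
            rw [sum_congr rfl fun j hj => sum_subset inter_subset_right fun k hk hk' => by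
              rw [hs j k fun h => hk' (mem_inter.2 ⟨h, hk⟩), mul_zero], sum_comm, mul_sum]
            exact sum_congr rfl fun k _ => by rw [← mul_sum]; ring
          rw [this, abs_mul, abs_of_pos (by norm_num : (0 : ℝ) < 1 / 2)]
          gcongr
          exact (abs_sum_le_sum_abs _ _).trans (sum_le_sum fun j _ => h5 _ (hf j) _ _)
        refine h8.trans ?_
        by_cases h9 : ∃ i ∈ I, S ⊆ E i
        · obtain ⟨i, hi, h9⟩ := h9
          rw [sum_eq_single i (fun j hj hji => ?_) fun h => absurd hi h, inter_eq_right.2 h9]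
          · exact le_trans (by linarith) (le_max_right _ _)
          · rw [eq_empty_of_forall_notMem fun k hk => hji
              (disj_eq hE hj hi (mem_inter.1 hk).1 (h9 (mem_inter.1 hk).2)), N_empty]
        · have h10 := h7 I.card
            (fun i => if hi : i < I.card then E (I.orderEmbOfFin rfl ⟨i, hi⟩) ∩ S else ∅)
            (fun i hi => ?_) (fun i hi j hj hij k hk l hl => ?_) fun i hi k hk => ?_
          · rw [← Fin.sum_univ_eq_sum_range (fun i => N e (if hi : i < I.card then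
              E (I.orderEmbOfFin rfl ⟨i, hi⟩) ∩ S else ∅) a)] at h10
            simp only [Fin.is_lt, dif_pos, Fin.eta] at h10
            have h11 : ∑ i, N e (E (I.orderEmbOfFin rfl i) ∩ S) a = ∑ i ∈ I, N e (E i ∩ S) a := by
              rw [← sum_coe_sort I]
              exact Fintype.sum_equiv (I.orderIsoOfFin rfl).toEquiv _ _ fun i => rfl
            exact le_trans (by linarith) (le_max_left _ _)
          · rw [dif_pos (mem_range.1 hi)]
            exact Or.inl (Finset.ssubset_iff_subset_ne.2 ⟨inter_subset_right,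
              fun h11 => h9 ⟨_, I.orderEmbOfFin_mem rfl _, inter_eq_right.1 h11⟩⟩)
          · simp only [dif_pos (mem_range.1 hi)] at hk
            simp only [dif_pos (mem_range.1 hj)] at hl
            exact hE _ (I.orderEmbOfFin_mem rfl _) _ (I.orderEmbOfFin_mem rfl _)
              ((I.orderEmbOfFin rfl).strictMono (by exact hij)) k (mem_inter.1 hk).1 l
              (mem_inter.1 hl).1
          · simp only [dif_pos (mem_range.1 hi)] at hk
            exact hI _ (I.orderEmbOfFin_mem rfl _) k (mem_inter.1 hk).1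
    rcases le_max_iff.1 key with h8 | h8
    · exact h8
    · linarith
  · simp only [h1, Pi.single_apply, eq_comm]

variable {X : Type} [NormedAddCommGroup X] [NormedSpace ℝ X] {e : ℕ → X} {e' : ℕ → X →L[ℝ] ℝ}

theorem tendsto_P (h : Tm e) (hbi : ∀ j k, e' j (e k) = if j = k then 1 else 0)
    (hd : Dense (Submodule.span ℝ (Set.range e) : Set X)) (y : X) :
    Tendsto (fun n => ∑ k ∈ range n, e' k y • e k) atTop (𝓝 y) := by
  refine Metric.tendsto_atTop.2 fun ε hε => ?_
  obtain ⟨z, hz, hz'⟩ := hd.exists_dist_lt y (half_pos hε)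
  obtain ⟨S, a, rfl⟩ := span_rep hz
  obtain ⟨M, hM⟩ := S.exists_nat_subset_range
  refine ⟨M, fun n hn => ?_⟩
  set z := ∑ k ∈ S, a k • e k with hz2
  rw [dist_eq_norm] at hz' ⊢
  have h1 := proj_le h hbi hd (range n) (y - z)
  have h2 : ∑ k ∈ range n, e' k y • e k - y = ∑ k ∈ range n, e' k (y - z) • e k - (y - z) := by
    simp only [map_sub, sub_smul, sum_sub_distrib]
    rw [hz2, proj_eq hbi, inter_eq_right.2 (hM.trans (range_mono hn))]; abel
  rw [h2]
  linarith [norm_sub_le (∑ k ∈ range n, e' k (y - z) • e k) (y - z)]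

end Pool.Agent.Lib.helper23.TmC
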