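import Mathlib
import Pool.Agent.Lib.helper23.TmC

namespace Pool.Agent.Lib.helper23.TmD

open Finset Filter Topology Pool.Agent.Lib.helper23.TfA Pool.Agent.Lib.helper23.TmA
open Pool.Agent.Lib.helper23.TmB Pool.Agent.Lib.helper23.TmC
open Pool.Agent.Lib.helper23.TfB hiding coef_le l1_le proj_le norm_le_of_coef bad_le main

variable {X : Type} [NormedAddCommGroup X] [NormedSpace ℝ X] {e : ℕ → X} {e' : ℕ → X →L[ℝ] ℝ}

theorem N_congr {S : Finset ℕ} {a b : ℕ → ℝ} (h : ∀ k ∈ S, a k = b k) : N e S a = N e S b := by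
  unfold N
  rw [sum_congr rfl fun k hk => by rw [h k hk]]

theorem sum_disj {m : ℕ} {E : ℕ → Finset ℕ} (hE : Disj (range m) E) {S : Finset ℕ}
    (hS : ∀ j ∈ range m, E j ⊆ S) {a : ℕ → ℝ} (ha : ∀ k, 0 ≤ a k) :
    ∑ j ∈ range m, ∑ k ∈ E j, a k ≤ ∑ k ∈ S, a k := by
  rw [← sum_biUnion fun i hi j hj hij =>
    disjoint_left.2 fun k hk hk' => hij (disj_eq hE hi hj hk hk')]
  exact sum_le_sum_of_subset_of_nonneg (biUnion_subset.2 hS) fun k _ _ => ha k

def P (e : ℕ → X) (θ : ℝ) : Prop :=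
  ∀ ε : ℝ, 0 < ε → ∀ n, ∃ (S : Finset ℕ) (a : ℕ → ℝ), (∀ k ∈ S, n ≤ k) ∧ (∀ k, 0 ≤ a k) ∧
    ∑ k ∈ S, a k = 1 ∧ ∀ E ⊆ S, N e E a ≤ ε + θ * ∑ k ∈ E, a k

theorem P_step (h : Tm e) (θ : ℝ) (hθ : 0 ≤ θ) (hP : P e θ) : P e (θ / 2) := by
  intro ε hε n
  have hl : ∀ (E : Finset ℕ) (a : ℕ → ℝ), (∀ k, 0 ≤ a k) → N e E a ≤ ∑ k ∈ E, a k :=
    fun E a ha => (N_le_l1 h.norm_e E a).trans_eq (sum_congr rfl fun k _ => abs_of_nonneg (ha k))
  have Q : ∀ r : ℕ, ∃ (S : Finset ℕ) (a : ℕ → ℝ), (∀ k ∈ S, n ≤ k) ∧ (∀ k, 0 ≤ a k) ∧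
      (∀ k ∈ S, a k ≤ 1) ∧ ∑ k ∈ S, a k = r ∧ ∀ (m : ℕ) (E : ℕ → Finset ℕ),
      (∀ j ∈ range m, E j ⊆ S) → Disj (range m) E → (∀ j ∈ range m, ∀ k ∈ E j, m ≤ k + 1) →
      ∑ j ∈ range m, N e (E j) a ≤ 1 + r * ε + θ * ∑ j ∈ range m, ∑ k ∈ E j, a k := by
    intro r
    induction r with
    | zero =>
      refine ⟨∅, 0, by simp, by simp, by simp, by simp, fun m E h1 _ _ => ?_⟩
      simp [N]
    | succ r ih =>
      obtain ⟨S, a, h1, h2, h3, h4, h5⟩ := ih
      obtain ⟨L, hL⟩ := S.exists_nat_subset_range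
      obtain ⟨S', a', g1, g2, g3, g4⟩ := hP (ε / (L + 1)) (by positivity) (n + L)
      have hd : ∀ k ∈ S', k ∉ S := fun k hk hk' => by
        have := mem_range.1 (hL hk'); have := g1 k hk; omega
      let b : ℕ → ℝ := fun k => if k ∈ S then a k else a' k
      have hb : ∀ k, 0 ≤ b k := fun k => by simp only [b]; split_ifs; exacts [h2 k, g2 k]
      refine ⟨S ∪ S', b, fun k hk => ?_, hb, fun k hk => ?_, ?_, fun m E e1 e2 e3 => ?_⟩
      · rcases mem_union.1 hk with h6 | h6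
        · exact h1 k h6
        · have := g1 k h6; omega
      · simp only [b]; split_ifs with h6
        · exact h3 k h6
        · rw [← g3]
          exact single_le_sum (fun k _ => g2 k) ((mem_union.1 hk).resolve_left h6)
      · rw [sum_union (disjoint_right.2 hd), sum_congr rfl fun k hk => if_pos hk,
          sum_congr rfl fun k hk => if_neg (hd k hk), h4, g3]
        push_cast; ring
      · have e4 : ∀ j ∈ range m, (E j).filter (fun k => k ∉ S) ⊆ S' := fun j hj k hk =>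
          (mem_union.1 (e1 j hj (mem_filter.1 hk).1)).resolve_left (mem_filter.1 hk).2
        have e5 : 0 ≤ ∑ j ∈ range m, ∑ k ∈ E j, b k :=
          sum_nonneg fun j _ => sum_nonneg fun k _ => hb k
        by_cases h6 : ∃ j ∈ range m, ∃ k ∈ E j, k ∈ S
        · obtain ⟨j0, hj0, k0, hk0, hk1⟩ := h6
          have h7 : m ≤ L := by
            have := e3 j0 hj0 k0 hk0; have := mem_range.1 (hL hk1); omega
          have h8 := h5 m (fun j => (E j).filter fun k => k ∈ S)
            (fun j _ k hk => (mem_filter.1 hk).2)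
            (fun i hi j hj hij k hk l hl => e2 i hi j hj hij k (mem_filter.1 hk).1 l
              (mem_filter.1 hl).1) fun j hj k hk => e3 j hj k (mem_filter.1 hk).1
          have h9 : ∀ j ∈ range m, N e (E j) b ≤ N e ((E j).filter fun k => k ∈ S) a +
              (ε / (L + 1) + θ * ∑ k ∈ (E j).filter (fun k => k ∉ S), a' k) := fun j hj => by
            refine (N_split e _ _ fun k => k ∈ S).trans (add_le_add (le_of_eq ?_)
              (le_of_eq_of_le ?_ (g4 _ (e4 j hj))))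
            · exact N_congr fun k hk => if_pos (mem_filter.1 hk).2
            · exact N_congr fun k hk => if_neg (mem_filter.1 hk).2
          have h10 : ∑ j ∈ range m, ∑ k ∈ E j, b k =
              ∑ j ∈ range m, ∑ k ∈ (E j).filter (fun k => k ∈ S), a k +
                ∑ j ∈ range m, ∑ k ∈ (E j).filter (fun k => k ∉ S), a' k := by
            rw [← sum_add_distrib]
            exact sum_congr rfl fun j _ => sum_ite _ _
          refine (sum_le_sum h9).trans ?_
          rw [sum_add_distrib, sum_add_distrib, ← mul_sum, sum_const, card_range, nsmul_eq_mul, h10]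
          have h11 : m * (ε / (L + 1)) ≤ ε := by
            rw [mul_div_assoc', div_le_iff₀ (by positivity)]
            have : (m : ℝ) ≤ L := by exact_mod_cast h7
            nlinarith
          push_cast
          nlinarith
        · have h7 : ∀ j ∈ range m, E j ⊆ S' := fun j hj k hk =>
            (mem_union.1 (e1 j hj hk)).resolve_left fun h7 => h6 ⟨j, hj, k, hk, h7⟩
          have h8 := sum_disj e2 h7 g2
          have h9 : ∑ j ∈ range m, N e (E j) b ≤ ∑ j ∈ range m, ∑ k ∈ E j, a' k :=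
            sum_le_sum fun j hj => le_of_eq_of_le
              (N_congr fun k hk => if_neg (hd k (h7 j hj hk))) (hl _ _ g2)
          have : 0 ≤ ((r + 1 : ℕ) : ℝ) * ε := by positivity
          have := mul_nonneg hθ e5
          linarith
  obtain ⟨r, hr⟩ := exists_nat_gt (1 / ε)
  have hr0 : (0 : ℝ) < r := lt_trans (by positivity) hr
  have hr1 : (r : ℝ)⁻¹ ≤ ε := by
    rw [div_lt_iff₀ hε] at hr
    rw [inv_le_iff_one_le_mul₀ hr0]; linarith
  obtain ⟨S, a, h1, h2, h3, h4, h5⟩ := Q r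
  have hi : (0 : ℝ) ≤ (r : ℝ)⁻¹ := by positivity
  refine ⟨S, fun k => (r : ℝ)⁻¹ * a k, h1, fun k => mul_nonneg hi (h2 k), ?_, fun E hE => ?_⟩
  · rw [← mul_sum, h4, inv_mul_cancel₀ hr0.ne']
  · have h6 : 0 ≤ θ / 2 * ∑ k ∈ E, (r : ℝ)⁻¹ * a k :=
      mul_nonneg (by positivity) (sum_nonneg fun k _ => mul_nonneg hi (h2 k))
    refine h.h3 _ _ _ (by linarith) (fun k hk => ?_) fun m F e1 e2 e3 => ?_
    · rw [abs_of_nonneg (mul_nonneg hi (h2 k))]
      have := mul_le_mul_of_nonneg_left (h3 k (hE hk)) hi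
      linarith
    · have e4 : ∀ j ∈ range m, F j ⊆ E := fun j hj => by
        rcases e1 j hj with h7 | h7
        · exact h7.subset
        · rw [h7]; exact empty_subset _
      have h7 := h5 m F (fun j hj => (e4 j hj).trans hE) e2 e3
      have h8 := mul_le_mul_of_nonneg_left (sum_disj e2 e4 h2) hθ
      simp only [N_smul _ _ _ _ hi]
      rw [← mul_sum, ← mul_sum]
      have h9 := mul_le_mul_of_nonneg_left (h7.trans (add_le_add_right h8 _)) hi
      have h10 : (r : ℝ)⁻¹ * (r * ε) = ε := by field_simp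
      nlinarith

theorem not_l1 (h : Tm e) (D : ℝ) : ¬ ∀ (M : ℕ) (a : ℕ → ℝ),
    ∑ k ∈ range M, |a k| ≤ D * N e (range M) a := by
  intro hD
  have hP : ∀ d : ℕ, P e ((1 / 2) ^ d) := fun d => by
    induction d with
    | zero =>
      refine fun ε hε n => ⟨{n}, fun _ => 1, by simp, by simp, by simp, fun E _ => ?_⟩
      have := N_le_l1 h.norm_e E fun _ => (1 : ℝ)
      simp only [abs_one] at this
      rw [pow_zero]; linarith
    | succ d ih =>
      have := P_step h _ (by positivity) ih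
      rwa [pow_succ, mul_one_div]
  obtain ⟨d, hd⟩ := exists_pow_lt_of_lt_one (show 0 < 1 / (2 * (|D| + 1)) by positivity)
    (show (1 / 2 : ℝ) < 1 by norm_num)
  obtain ⟨S, a, -, h2, h3, h4⟩ := hP d (1 / (2 * (|D| + 1))) (by positivity) 0
  obtain ⟨M, hM⟩ := S.exists_nat_subset_range
  have h5 := hD M fun k => if k ∈ S then a k else 0
  have h6 : N e (range M) (fun k => if k ∈ S then a k else 0) = N e S a := by
    unfold N
    simp only [ite_smul, zero_smul]
    rw [← sum_filter, filter_mem_eq_inter, inter_eq_right.2 hM]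
  simp only [apply_ite abs, abs_zero] at h5
  rw [h6, ← sum_filter, filter_mem_eq_inter, inter_eq_right.2 hM,
    sum_congr rfl fun k _ => abs_of_nonneg (h2 k), h3] at h5
  have h7 := h4 S subset_rfl
  rw [h3] at h7
  have h8 := N_nonneg e S a
  have h9 := le_abs_self D
  have h10 : 1 / (2 * (|D| + 1)) * (2 * (|D| + 1)) = 1 := by field_simp
  have h11 := abs_nonneg D
  nlinarith

/-- A derandomized Khintchine inequality. -/
theorem khin0 (S : Finset ℕ) (t : ℕ → ℕ → ℝ) (β : ℕ → ℝ) (hβ : ∀ k, 0 ≤ β k) (n : ℕ) :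
    ∀ α : ℕ → ℝ, ∃ ε : ℕ → ℝ, (∀ i, |ε i| ≤ 1) ∧
      ∑ k ∈ S, (α k * ∑ i ∈ range n, t k i ^ 2 - 3 * β k * (∑ i ∈ range n, t k i ^ 2) ^ 2) ≤
      ∑ k ∈ S, (α k * (∑ i ∈ range n, ε i * t k i) ^ 2 -
        β k * (∑ i ∈ range n, ε i * t k i) ^ 4) := by
  induction n with
  | zero => exact fun α => ⟨0, by simp, by simp⟩
  | succ n ih =>
    intro α
    obtain ⟨ε, h1, h2⟩ := ih fun k => α k - 6 * β k * t k n ^ 2
    let F : ℝ → ℝ := fun s => ∑ k ∈ S, (α k * (∑ i ∈ range n, ε i * t k i + s * t k n) ^ 2 -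
        β k * (∑ i ∈ range n, ε i * t k i + s * t k n) ^ 4)
    have h3 : 2 * ∑ k ∈ S, (α k * ∑ i ∈ range (n + 1), t k i ^ 2 -
        3 * β k * (∑ i ∈ range (n + 1), t k i ^ 2) ^ 2) ≤ F 1 + F (-1) := by
      have h4 := add_le_add h2 (le_refl (∑ k ∈ S, (α k * t k n ^ 2 - β k * t k n ^ 4)))
      rw [← sum_add_distrib, ← sum_add_distrib] at h4
      refine le_trans ?_ ((mul_le_mul_of_nonneg_left h4 (by norm_num : (0 : ℝ) ≤ 2)).trans_eq ?_)
      · refine mul_le_mul_of_nonneg_left (sum_le_sum fun k _ => ?_) (by norm_num)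
        rw [sum_range_succ]
        have := mul_nonneg (hβ k) (by positivity : 0 ≤ t k n ^ 4)
        nlinarith
      · simp only [F]
        rw [← sum_add_distrib, mul_sum]
        exact sum_congr rfl fun k _ => by ring
    obtain ⟨s, hs, h4⟩ : ∃ s : ℝ, |s| ≤ 1 ∧ F 1 + F (-1) ≤ 2 * F s := by
      rcases le_total (F 1) (F (-1)) with h | h
      · exact ⟨-1, by simp, by linarith⟩
      · exact ⟨1, by simp, by linarith⟩
    refine ⟨fun i => if i = n then s else ε i,
      fun i => by dsimp only; split_ifs; exacts [hs, h1 i],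
      le_trans (by linarith : _ ≤ F s) (le_of_eq (sum_congr rfl fun k _ => ?_))⟩
    have h5 : ∑ i ∈ range (n + 1), (if i = n then s else ε i) * t k i =
        ∑ i ∈ range n, ε i * t k i + s * t k n := by
      rw [sum_range_succ, if_pos rfl,
        sum_congr rfl fun i hi => by rw [if_neg (mem_range.1 hi).ne]]
    simp only [h5]

theorem khin (S : Finset ℕ) (t : ℕ → ℕ → ℝ) (γ : ℕ → ℝ) (hγ : ∀ k, 0 ≤ γ k) (n : ℕ) :
    ∃ ε : ℕ → ℝ, (∀ i, |ε i| ≤ 1) ∧ ∑ k ∈ S, γ k * √(∑ i ∈ range n, t k i ^ 2) ≤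
      2 * ∑ k ∈ S, γ k * |∑ i ∈ range n, ε i * t k i| := by
  let σ : ℕ → ℝ := fun k => √(∑ i ∈ range n, t k i ^ 2)
  have hσ : ∀ k, ∑ i ∈ range n, t k i ^ 2 = σ k ^ 2 := fun k =>
    (Real.sq_sqrt (sum_nonneg fun i _ => sq_nonneg _)).symm
  have hσ0 : ∀ k, 0 ≤ σ k := fun k => Real.sqrt_nonneg _
  obtain ⟨ε, h1, h2⟩ := khin0 S t (fun k => γ k / (6 * σ k ^ 3))
    (fun k => by have := hγ k; have := hσ0 k; positivity) n fun k => γ k / σ k
  refine ⟨ε, h1, le_trans (le_of_eq ?_) ((mul_le_mul_of_nonneg_left h2 (by norm_num)).trans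
    (mul_le_mul_of_nonneg_left (sum_le_sum fun k _ => ?_) (by norm_num)))⟩
  · rw [mul_sum]
    refine sum_congr rfl fun k _ => ?_
    change γ k * σ k = _
    rw [hσ]
    rcases (hσ0 k).eq_or_lt with h | h
    · simp [← h]
    · field_simp; ring
  · set x := ∑ i ∈ range n, ε i * t k i
    rcases (hσ0 k).eq_or_lt with h | h
    · simp only [← h]; have := hγ k; simp; positivity
    · have h3 : x ^ 2 = |x| ^ 2 := (sq_abs x).symm
      have h4 : x ^ 4 = |x| ^ 4 := by rw [show 4 = 2 * 2 by rfl, pow_mul, pow_mul, sq_abs]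
      rw [h3, h4]
      have h5 := abs_nonneg x
      set y := |x|
      have h6 : 6 * σ k ^ 2 * y - y ^ 3 ≤ 6 * σ k ^ 3 := by
        nlinarith [mul_nonneg h5 (sq_nonneg (y - 3 / 2 * σ k)),
          mul_nonneg h.le (sq_nonneg (y - 3 / 2 * σ k)), pow_pos h 3]
      have h7 : γ k / σ k * y ^ 2 - γ k / (6 * σ k ^ 3) * y ^ 4 =
          γ k * y * ((6 * σ k ^ 2 * y - y ^ 3) / (6 * σ k ^ 3)) := by field_simp
      rw [h7]
      exact mul_le_of_le_one_right (mul_nonneg (hγ k) h5) ((div_le_one (by positivity)).2 h6)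

end Pool.Agent.Lib.helper23.TmD
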