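import Mathlib
import Pool.Agent.Lib.helper23.TmD

namespace Pool.Agent.Lib.helper23.TmE

open Finset Filter Topology Pool.Agent.Lib.helper23.TfA Pool.Agent.Lib.helper23.TmA
open Pool.Agent.Lib.helper23.TmB Pool.Agent.Lib.helper23.TmC Pool.Agent.Lib.helper23.TmD
open Pool.Agent.Lib.helper23.TfB hiding coef_le l1_le proj_le norm_le_of_coef bad_le main

variable {X : Type} [NormedAddCommGroup X] [NormedSpace ℝ X] {e : ℕ → X} {e' : ℕ → X →L[ℝ] ℝ}

theorem classes (h : Tm e) (ψ : ℕ → X →L[ℝ] ℝ) (B : ℝ) (hB0 : 0 ≤ B) (I : Finset ℕ)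
    (hB : ∀ w ∈ I, ∀ y, |ψ w y| ≤ B * ‖y‖) (c : ℕ → ℕ) (hc : ∀ k, c k ∈ I) (S : Finset ℕ)
    (hS : ∀ k ∈ S, I.card ≤ k) (y : ℕ → ℝ) :
    ∑ k ∈ S, |ψ (c k) (e k)| * |y k| ≤ 2 * B * N e S y := by
  rw [← sum_fiberwise_of_maps_to (fun k _ => hc k)]
  have h1 := h.h2 S y I (fun j => S.filter fun k => c k = j) (fun _ _ => filter_subset _ _)
    (fun i _ j _ hij k hk l hl h0 => hij.ne (by
      rw [← (mem_filter.1 hk).2, ← (mem_filter.1 hl).2, h0]))
    fun i _ k hk => (hS k (mem_filter.1 hk).1).trans (by omega)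
  refine (sum_le_sum (g := fun j => B * N e (S.filter fun k => c k = j) y) fun j hj => ?_).trans ?_
  · let b : ℕ → ℝ := fun k => if 0 ≤ ψ j (e k) then |y k| else -|y k|
    have h2 : ∑ k ∈ S.filter (fun k => c k = j), |ψ (c k) (e k)| * |y k| =
        ψ j (∑ k ∈ S.filter (fun k => c k = j), b k • e k) := by
      rw [map_sum]
      refine sum_congr rfl fun k hk => ?_
      rw [(mem_filter.1 hk).2, map_smul, smul_eq_mul]
      simp only [b]
      split_ifs with h2
      · rw [abs_of_nonneg h2]; ring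
      · rw [abs_of_neg (not_le.1 h2)]; ring
    rw [h2]
    refine ((le_abs_self _).trans (hB j hj _)).trans (mul_le_mul_of_nonneg_left
      (h.mono id strictMono_id b y _ _ fun k hk => ⟨hk, ?_⟩) hB0)
    simp only [b, id]
    split_ifs <;> simp
  · rw [← mul_sum]
    nlinarith

theorem cs (M : ℕ) (t G : ℕ → ℝ) (μ g : ℝ) (hμ : 0 < μ) (hg0 : 0 ≤ g)
    (hg : ∀ i ∈ range M, |G i| ≤ g) : ∑ i ∈ range M, t i * G i ≤
      ((∑ i ∈ range M, |G i|) / μ + μ * g) / 2 * √(∑ i ∈ range M, t i ^ 2) := by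
  have h1 : 0 ≤ ∑ i ∈ range M, |G i| := sum_nonneg fun _ _ => abs_nonneg _
  refine (Real.sum_mul_le_sqrt_mul_sqrt _ _ _).trans ?_
  rw [mul_comm]
  refine mul_le_mul_of_nonneg_right (Real.sqrt_le_iff.2 ⟨by positivity, ?_⟩) (Real.sqrt_nonneg _)
  have h2 : ∑ i ∈ range M, G i ^ 2 ≤ (∑ i ∈ range M, |G i|) * g := by
    rw [sum_mul]
    exact sum_le_sum fun i hi => by
      rw [← sq_abs, sq]; exact mul_le_mul_of_nonneg_left (hg i hi) (abs_nonneg _)
  have h3 : (∑ i ∈ range M, |G i|) * g = (∑ i ∈ range M, |G i|) / μ * (μ * g) := by field_simp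
  nlinarith [sq_nonneg ((∑ i ∈ range M, |G i|) / μ - μ * g)]

theorem pairs (h : Tm e) : ∃ C : ℝ, 0 ≤ C ∧ ∀ (M : ℕ) (a p q : ℕ → ℝ), (∀ i, |p i| ≤ |a i|) →
    (∀ i, |q i| ≤ |a i|) →
    ‖∑ i ∈ range M, (p i • e (2 * i) + q i • e (2 * i + 1))‖ ≤ C * N e (range M) a := by
  have hG := h.gr_comp (h.gr_comp h.gr_base h.gr_base) h.gr_base
  obtain ⟨C1, h1⟩ := h.spread (fun i => 2 * i) _ (fun i j hij => by simp only; omega) hG
    fun q => by omega
  obtain ⟨C2, h2⟩ := h.spread (fun i => 2 * i + 1) _ (fun i j hij => by simp only; omega) hG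
    fun q => by omega
  refine ⟨|C1| + |C2|, by positivity, fun M a p q hp hq => ?_⟩
  have h3 := h.mono id strictMono_id p a (range M) _ fun k hk => ⟨hk, hp k⟩
  have h4 := h.mono id strictMono_id q a (range M) _ fun k hk => ⟨hk, hq k⟩
  have h5 := (h1 (range M) p).trans (mul_le_mul (le_abs_self C1) h3 (N_nonneg _ _ _) (abs_nonneg _))
  have h6 := (h2 (range M) q).trans (mul_le_mul (le_abs_self C2) h4 (N_nonneg _ _ _) (abs_nonneg _))
  rw [sum_add_distrib, add_mul]
  exact (norm_add_le _ _).trans (add_le_add h5 h6)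

theorem kerpair (u v : ℝ) : ∃ (p q : ℝ), |p| ≤ 1 ∧ |q| ≤ 1 ∧ (p = 1 ∨ q = 1) ∧ p * u + q * v = 0 := by
  have key : ∀ u v : ℝ, |u| ≤ |v| → |-u / v| ≤ 1 ∧ u + -u / v * v = 0 := fun u v h => by
    rcases eq_or_ne v 0 with rfl | hv
    · simpa using h
    · rw [abs_div, abs_neg]
      exact ⟨(div_le_one (abs_pos.2 hv)).2 h, by field_simp; ring⟩
  rcases le_total |u| |v| with h | h
  · exact ⟨1, _, by simp, (key u v h).1, Or.inl rfl, by linarith [(key u v h).2]⟩
  · exact ⟨_, 1, (key v u h).1, by simp, Or.inr rfl, by linarith [(key v u h).2]⟩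

theorem lower (h : Tm e) (hbi : ∀ j k, e' j (e k) = if j = k then 1 else 0)
    (hd : Dense (Submodule.span ℝ (Set.range e) : Set X)) : ∃ C : ℝ, 0 ≤ C ∧
    ∀ (M : ℕ) (R S : X →L[ℝ] X) (φ : X →L[ℝ] ℝ), (∀ x, φ (R x) = 0 →
      S (R x - ∑ k ∈ range (2 ^ M), e' k (R x) • e k) = x) → ∀ μ : ℝ, 0 < μ →
      (∀ a : ℕ → ℝ, ∑ i ∈ range M, |a i| ≤ μ ^ 2 * N e (range M) a) →
      ∀ a : ℕ → ℝ, ∑ i ∈ range M, |a i| ≤ C * (‖R‖ * ‖S‖) * μ * N e (range M) a := by
  obtain ⟨C, hC, hC'⟩ := pairs h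
  refine ⟨8 * C, by positivity, fun M R S φ H μ hμ hl a => ?_⟩
  rcases M.eq_zero_or_pos with rfl | hM
  · simp [N]
  choose p q hp hq hpq h0 using fun i => kerpair (φ (R (e (2 * i)))) (φ (R (e (2 * i + 1))))
  let b : ℕ → X := fun i => p i • e (2 * i) + q i • e (2 * i + 1)
  let j : ℕ → ℕ := fun i => if p i = 1 then 2 * i else 2 * i + 1
  have hj : ∀ i, j i = 2 * i ∨ j i = 2 * i + 1 := fun i => by
    simp only [j]; split_ifs <;> simp
  have hjm : StrictMono j := fun i l hil => by have := hj i; have := hj l; omega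
  let g : ℕ → X →L[ℝ] ℝ := fun i => (e' (j i)).comp S
  have h1 : ∀ i, g i (R (b i) - ∑ k ∈ range (2 ^ M), e' k (R (b i)) • e k) = 1 := fun i => by
    change e' (j i) (S _) = 1
    rw [H _ (by simpa [b] using h0 i)]
    simp only [b, j, map_add, map_smul, hbi]
    split_ifs with h1 <;> first | omega | simpa [h1] using hpq i
  obtain ⟨L, hL, hL'⟩ : ∃ L, 2 ^ M ≤ L ∧ ∀ i ∈ range M, 1 / 2 ≤
      g i (∑ k ∈ range L, e' k (R (b i)) • e k - ∑ k ∈ range (2 ^ M), e' k (R (b i)) • e k) := by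
    refine ((eventually_ge_atTop _).and ((eventually_all_finset _).2 fun i _ => ?_)).exists
    have := ((g i).continuous.tendsto _).comp
      ((tendsto_P h hbi hd (R (b i))).sub_const (∑ k ∈ range (2 ^ M), e' k (R (b i)) • e k))
    rw [h1] at this
    exact this.eventually_const_le (by norm_num)
  choose m hm hm' using fun k => exists_max_image (range M) (fun i => |g i (e k)|)
    ⟨0, mem_range.2 hM⟩
  let γ : ℕ → ℝ := fun k => ((∑ i ∈ range M, |g i (e k)|) / μ + μ * |g (m k) (e k)|) / 2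
  obtain ⟨ε, hε, hk⟩ := khin (Ico (2 ^ M) L) (fun k i => |a i| * e' k (R (b i))) γ
    (fun k => by have := sum_nonneg fun i (_ : i ∈ range M) => abs_nonneg (g i (e k)); positivity) M
  set y := R (∑ i ∈ range M, (ε i * |a i|) • b i) with hy
  have hy1 : ∀ k, ∑ i ∈ range M, ε i * (|a i| * e' k (R (b i))) = e' k y := fun k => by
    simp only [hy, map_sum, map_smul, smul_eq_mul, mul_assoc]
  have hy2 : ‖y‖ ≤ ‖R‖ * (C * N e (range M) a) := by
    refine (R.le_opNorm _).trans (mul_le_mul_of_nonneg_left (le_of_eq_of_le ?_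
      (hC' M a (fun i => ε i * |a i| * p i) (fun i => ε i * |a i| * q i) (fun i => ?_)
        fun i => ?_)) (norm_nonneg _))
    · simp only [b, smul_add, smul_smul]
    · rw [abs_mul, abs_mul, abs_abs, mul_right_comm]
      exact mul_le_of_le_one_left (abs_nonneg _) (mul_le_one₀ (hε i) (abs_nonneg _) (hp i))
    · rw [abs_mul, abs_mul, abs_abs, mul_right_comm]
      exact mul_le_of_le_one_left (abs_nonneg _) (mul_le_one₀ (hε i) (abs_nonneg _) (hq i))
  simp only [hy1] at hk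
  have h2 : ∑ i ∈ range M, |a i| ≤
      2 * ∑ k ∈ Ico (2 ^ M) L, γ k * √(∑ i ∈ range M, (|a i| * e' k (R (b i))) ^ 2) := by
    refine le_trans ?_ (mul_le_mul_of_nonneg_left (sum_le_sum fun k _ =>
      cs M _ (fun i => g i (e k)) μ _ hμ (abs_nonneg _) (hm' k)) (by norm_num))
    rw [sum_comm, mul_sum]
    refine sum_le_sum fun i hi => ?_
    have := hL' i hi
    rw [← sum_Ico_eq_sub _ hL, map_sum] at this
    simp only [map_smul, smul_eq_mul] at this
    simp only [mul_assoc]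
    rw [← mul_sum]
    nlinarith [abs_nonneg (a i)]
  have hN : N e (Ico (2 ^ M) L) (fun k => e' k y) ≤ ‖y‖ := proj_le h hbi hd _ y
  have h3 := classes h g ‖S‖ (norm_nonneg _) (range M)
    (fun i _ x => (coef_le h hbi hd _ _).trans (S.le_opNorm x)) m hm (Ico (2 ^ M) L)
    (fun k hk => by
      rw [card_range]; exact Nat.lt_two_pow_self.le.trans (mem_Ico.1 hk).1) fun k => e' k y
  have h4 := classes h (fun w => ∑ i ∈ range M,
      (if i ∈ (Denumerable.eqv (Finset ℕ)).symm w then (1 : ℝ) else -1) • g i) (μ ^ 2 * ‖S‖)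
    (by positivity) ((range M).powerset.image (Denumerable.eqv _)) (fun w _ x => ?_)
    (fun k => Denumerable.eqv _ ((range M).filter fun i => 0 ≤ g i (e k)))
    (fun k => mem_image_of_mem _ (mem_powerset.2 (filter_subset _ _))) (Ico (2 ^ M) L)
    (fun k hk => card_image_le.trans (by
      rw [card_powerset, card_range]; exact (mem_Ico.1 hk).1)) fun k => e' k y
  · have h5 : ∀ k, |(∑ i ∈ range M, (if i ∈ (Denumerable.eqv (Finset ℕ)).symm
        (Denumerable.eqv _ ((range M).filter fun i => 0 ≤ g i (e k))) then (1 : ℝ) else -1) • g i) (e k)| =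
        ∑ i ∈ range M, |g i (e k)| := fun k => by
      rw [Equiv.symm_apply_apply, _root_.sum_apply,
        ← abs_of_nonneg (sum_nonneg fun i _ => abs_nonneg (g i (e k)))]
      congr 1
      refine sum_congr rfl fun i hi => ?_
      simp only [mem_filter, hi, true_and, smul_apply, smul_eq_mul]
      split_ifs with h5
      · rw [abs_of_nonneg h5, one_mul]
      · rw [abs_of_neg (not_le.1 h5), neg_one_mul]
    simp only [h5] at h4
    have h6 : ∑ k ∈ Ico (2 ^ M) L, γ k * |e' k y| =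
        (∑ k ∈ Ico (2 ^ M) L, (∑ i ∈ range M, |g i (e k)|) * |e' k y|) / μ / 2 +
          μ * (∑ k ∈ Ico (2 ^ M) L, |g (m k) (e k)| * |e' k y|) / 2 := by
      rw [sum_div, sum_div, mul_sum, sum_div, ← sum_add_distrib]
      exact sum_congr rfl fun k _ => by simp only [γ]; ring
    have h7 : (∑ k ∈ Ico (2 ^ M) L, (∑ i ∈ range M, |g i (e k)|) * |e' k y|) / μ ≤
        2 * μ * ‖S‖ * N e (Ico (2 ^ M) L) fun k => e' k y := by
      rw [div_le_iff₀ hμ]; linarith
    have h8 := mul_le_mul_of_nonneg_left h3 hμ.le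
    have h9 := mul_le_mul_of_nonneg_left (hN.trans hy2) (mul_nonneg hμ.le (norm_nonneg S))
    nlinarith
  · rw [_root_.sum_apply]
    refine (abs_sum_le_sum_abs _ _).trans (le_of_eq_of_le (sum_congr rfl fun i _ => ?_)
      ((hl fun i => g i x).trans ?_))
    · simp only [smul_apply, smul_eq_mul]
      split_ifs <;> simp
    · rw [mul_assoc]
      refine mul_le_mul_of_nonneg_left ((h.mono j hjm _ (fun k => e' k (S x)) _ (range (2 * M))
        fun k hk => ⟨?_, le_rfl⟩).trans ((proj_le h hbi hd _ _).trans (S.le_opNorm x)))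
        (by positivity)
      have := hj k; have := mem_range.1 hk
      exact mem_range.2 (by omega)

theorem not_unif (h : Tm e) (hbi : ∀ j k, e' j (e k) = if j = k then 1 else 0)
    (hd : Dense (Submodule.span ℝ (Set.range e) : Set X)) (K : ℝ) : ∃ T : X →L[ℝ] X,
    (∀ k, e' k (T (e k)) = 1) ∧ ∀ R S : X →L[ℝ] X, S ∘L T ∘L R = ContinuousLinearMap.id ℝ X →
      K < ‖R‖ * ‖S‖ := by
  by_contra H
  push Not at H
  obtain ⟨C, hC, hl⟩ := lower h hbi hd
  refine not_l1 h ((C * K) ^ 2 + 1) fun M => ?_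
  let φ : X →L[ℝ] ℝ := ∑ k ∈ range (2 ^ M), e' k
  let u : X := ∑ k ∈ range (2 ^ M), (1 : ℝ) • e k
  obtain ⟨R, S, h1, h2⟩ := H (ContinuousLinearMap.id ℝ X -
      ∑ k ∈ range (2 ^ M), (e' k).smulRight (e k) + φ.smulRight u) fun k => by
    simp only [φ, u, add_apply, sub_apply,
      _root_.sum_apply, ContinuousLinearMap.smulRight_apply,
      ContinuousLinearMap.id_apply, map_add, map_sub, map_smul, e'_sum hbi, hbi, sum_ite_eq']
    split_ifs <;> simp
  have h3 := hl M R S φ fun x hx => by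
    have := congrArg (fun T : X →L[ℝ] X => T x) h1
    simpa only [ContinuousLinearMap.comp_apply, add_apply,
      sub_apply, _root_.sum_apply,
      ContinuousLinearMap.smulRight_apply, ContinuousLinearMap.id_apply, hx, zero_smul,
      add_zero] using this
  let A : Set ℝ := {l | 1 ≤ l ∧ ∀ a : ℕ → ℝ, ∑ i ∈ range M, |a i| ≤ l * N e (range M) a}
  have hA : IsClosed A := by
    refine (isClosed_le continuous_const continuous_id).inter ?_
    change IsClosed {l : ℝ | ∀ a : ℕ → ℝ, _}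
    rw [Set.ofPred_forall]
    exact isClosed_iInter fun a => isClosed_le continuous_const (by fun_prop)
  have hA1 : A.Nonempty := ⟨M + 1, by linarith [Nat.cast_nonneg (α := ℝ) M], fun a => by
    have h4 := sum_le_card_nsmul (range M) (fun i => |a i|) _ fun i hi => h.h1 _ a i hi
    rw [card_range, nsmul_eq_mul] at h4
    nlinarith [N_nonneg e (range M) a]⟩
  have hA2 : BddBelow A := ⟨1, fun l hl => hl.1⟩
  obtain ⟨h4, h5⟩ := hA.csInf_mem hA1 hA2
  set l := sInf A with hl'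
  have h6 : √l ^ 2 = l := Real.sq_sqrt (by linarith)
  have h7 : 0 < √l := Real.sqrt_pos.2 (by linarith)
  have h8 := h3 √l h7 (by rw [h6]; exact h5)
  have h9 : l ≤ max 1 (C * K * √l) := csInf_le hA2 ⟨le_max_left _ _, fun a => (h8 a).trans
    (mul_le_mul_of_nonneg_right (le_trans (by gcongr) (le_max_right _ _)) (N_nonneg _ _ _))⟩
  refine fun a => (h5 a).trans (mul_le_mul_of_nonneg_right ?_ (N_nonneg _ _ _))
  rcases le_max_iff.1 h9 with h10 | h10
  · nlinarith [sq_nonneg (C * K)]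
  · have : √l ≤ C * K := le_of_mul_le_mul_right (by nlinarith) h7
    nlinarith

end Pool.Agent.Lib.helper23.TmE
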