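import Mathlib

namespace Pool.Agent.Lib.helper23.TsA

open Filter Topology

/-- The norming set of Tsirelson's space. -/
inductive K : (ℕ → ℝ) → Prop
  | base (n : ℕ) (s : ℝ) (hs : |s| ≤ 1) : K (Pi.single n s)
  | comb (I : Finset ℕ) (d : ℕ → ℕ) (f : ℕ → ℕ → ℝ) (hd : Monotone d) (hI : ∀ j ∈ I, I.card ≤ d j)
      (hf : ∀ j, K (f j)) (hs : ∀ j k, f j k ≠ 0 → d j ≤ k ∧ k < d (j + 1)) :
      K (fun k => 1 / 2 * ∑ j ∈ I, f j k)

theorem abs_sum_le (I : Finset ℕ) (a : ℕ → ℝ) (M : ℝ) (hM : 0 ≤ M) (h : ∀ j, |a j| ≤ M)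
    (h1 : ∀ i ∈ I, ∀ j ∈ I, i < j → a i ≠ 0 → a j ≠ 0 → False) : |∑ j ∈ I, a j| ≤ M := by
  by_cases h2 : ∃ j ∈ I, a j ≠ 0
  · obtain ⟨j, hj, h3⟩ := h2
    rw [Finset.sum_eq_single j (fun i hi hij => ?_) fun h => absurd hj h]
    · exact h j
    · by_contra h4
      rcases lt_or_gt_of_ne hij with h5 | h5
      · exact h1 i hi j hj h5 h4 h3
      · exact h1 j hj i hi h5 h3 h4
  · push Not at h2
    rw [Finset.sum_eq_zero h2, abs_zero]; exact hM

theorem K.le {f : ℕ → ℝ} (h : K f) (k : ℕ) : |f k| ≤ 1 := by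
  induction h with
  | base n s hs => rw [Pi.single_apply]; split_ifs <;> simp [hs]
  | comb I d f hd hI hf hs ih =>
    have := abs_sum_le I (fun j => f j k) 1 zero_le_one ih fun i _ j _ hij h1 h2 => by
      have := hd (Nat.succ_le_of_lt hij)
      have := hs i k h1
      have := hs j k h2
      simp only [Nat.succ_eq_add_one] at *
      omega
    simp only [abs_mul]
    rw [abs_of_pos (by norm_num : (0 : ℝ) < 1 / 2)]
    linarith

theorem K.supp {f : ℕ → ℝ} (h : K f) : ∃ M, ∀ k, M ≤ k → f k = 0 := by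
  cases h with
  | base n s hs => exact ⟨n + 1, fun k hk => Pi.single_eq_of_ne (by omega) _⟩
  | comb I d f hd hI hf hs =>
    refine ⟨d (I.sup id + 1), fun k hk => ?_⟩
    simp only
    rw [Finset.sum_eq_zero, mul_zero]
    intro j hj
    by_contra h
    have h1 : j ≤ I.sup id := Finset.le_sup (f := id) hj
    have := hd (Nat.succ_le_succ h1)
    have := hs j k h
    simp only [Nat.succ_eq_add_one] at *
    omega

theorem K.mul {f : ℕ → ℝ} (h : K f) (m : ℕ → ℝ) (hm : ∀ k, |m k| ≤ 1) : K fun k => m k * f k := by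
  induction h with
  | base n s hs =>
    have : (fun k => m k * (Pi.single n s : ℕ → ℝ) k) = Pi.single n (m n * s) := by
      funext k
      simp only [Pi.single_apply]
      split_ifs with h
      · rw [h]
      · simp
    rw [this]
    exact K.base _ _ (by rw [abs_mul]; exact mul_le_one₀ (hm n) (abs_nonneg _) hs)
  | comb I d f hd hI hf hs ih =>
    have := K.comb I d (fun j k => m k * f j k) hd hI ih
      fun j k h => hs j k (right_ne_zero_of_mul h)
    convert this using 2 with k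
    rw [← Finset.mul_sum]; ring

noncomputable abbrev Y := lp (fun _ : {f // K f} => ℝ) ⊤

noncomputable def x (n : ℕ) : Y :=
  ⟨fun f => f.1 n, memℓp_infty ⟨1, by rintro _ ⟨f, rfl⟩; exact f.2.le n⟩⟩

noncomputable def T : Submodule ℝ Y := (Submodule.span ℝ (Set.range x)).topologicalClosure

instance : CompleteSpace T := (Submodule.isClosed_topologicalClosure _).completeSpace_coe

noncomputable def e (n : ℕ) : T :=
  ⟨x n, Submodule.le_topologicalClosure _ (Submodule.subset_span ⟨n, rfl⟩)⟩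

noncomputable def ev (f : {f // K f}) : T →L[ℝ] ℝ :=
  (lp.evalCLM ℝ (fun _ : {f // K f} => ℝ) ⊤ f).comp T.subtypeL

noncomputable def e' (n : ℕ) : T →L[ℝ] ℝ := ev ⟨Pi.single n 1, K.base n 1 (by simp)⟩

theorem ev_e (f : {f // K f}) (n : ℕ) : ev f (e n) = f.1 n := rfl

theorem e'_e (i j : ℕ) : e' i (e j) = if i = j then 1 else 0 := by
  rw [e', ev_e]; simp only [Pi.single_apply, eq_comm]

theorem ev_le (f : {f // K f}) (y : T) : |ev f y| ≤ ‖y‖ := lp.norm_apply_le_norm (by simp) y.1 f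

theorem norm_le (y : T) (M : ℝ) (hM : 0 ≤ M) (h : ∀ f, |ev f y| ≤ M) : ‖y‖ ≤ M :=
  lp.norm_le_of_forall_le hM h

theorem dense_e : Dense ((Submodule.span ℝ (Set.range e) : Submodule ℝ T) : Set T) := by
  refine Subtype.dense_iff.2 ?_
  have h := Submodule.map_span T.subtype (Set.range e)
  rw [← Set.range_comp] at h
  exact subset_rfl.trans
    (congrArg closure (congrArg (fun s : Submodule ℝ Y => (s : Set Y)) h)).ge

theorem ev_eq (f : {f // K f}) (S : Finset ℕ) (hS : ∀ k, k ∉ S → f.1 k = 0) (y : T) :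
    ev f y = ∑ k ∈ S, f.1 k * e' k y := by
  have : ev f = ∑ k ∈ S, f.1 k • e' k := by
    refine ContinuousLinearMap.ext_on dense_e ?_
    rintro _ ⟨n, rfl⟩
    simp only [sum_apply, smul_apply, e'_e, ev_e, smul_eq_mul, mul_ite, mul_one, mul_zero]
    rw [Finset.sum_ite_eq']
    split_ifs with h
    · rfl
    · exact hS n h
  rw [this]
  simp only [sum_apply, smul_apply, smul_eq_mul]

noncomputable def P (A : Finset ℕ) : T →L[ℝ] T := ∑ n ∈ A, (e' n).smulRight (e n)

theorem P_apply (A : Finset ℕ) (y : T) : P A y = ∑ n ∈ A, e' n y • e n := by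
  simp only [P, sum_apply, ContinuousLinearMap.smulRight_apply]

theorem e'_sum (A : Finset ℕ) (a : ℕ → ℝ) (j : ℕ) :
    e' j (∑ n ∈ A, a n • e n) = if j ∈ A then a j else 0 := by
  simp only [map_sum, map_smul, e'_e, smul_eq_mul, mul_ite, mul_one, mul_zero]
  rw [Finset.sum_ite_eq]

theorem e'_P (A : Finset ℕ) (y : T) (j : ℕ) : e' j (P A y) = if j ∈ A then e' j y else 0 := by
  rw [P_apply, e'_sum A fun n => e' n y]

/-- Unconditionality. -/
theorem norm_mono (y z : T) (m : ℕ → ℝ) (hm : ∀ k, |m k| ≤ 1) (h : ∀ k, e' k z = m k * e' k y) :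
    ‖z‖ ≤ ‖y‖ := by
  refine norm_le z _ (norm_nonneg _) fun f => ?_
  obtain ⟨M, hM⟩ := f.2.supp
  have hM' : ∀ k, k ∉ Finset.range M → f.1 k = 0 := fun k hk => hM k (by simpa using hk)
  have h1 := ev_le ⟨_, f.2.mul m hm⟩ y
  rw [ev_eq _ (Finset.range M) fun k hk => by simp only [hM' k hk, mul_zero]] at h1
  rw [ev_eq f _ hM']
  refine le_of_eq_of_le (congrArg _ (Finset.sum_congr rfl fun k _ => ?_)) h1
  simp only [h]; ring

theorem P_le (A : Finset ℕ) (y : T) : ‖P A y‖ ≤ ‖y‖ :=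
  norm_mono y _ (fun k => if k ∈ A then 1 else 0) (fun k => by split_ifs <;> simp)
    fun k => by rw [e'_P]; split_ifs <;> simp

theorem sub_P_le (A : Finset ℕ) (y : T) : ‖y - P A y‖ ≤ ‖y‖ :=
  norm_mono y _ (fun k => if k ∈ A then 0 else 1) (fun k => by split_ifs <;> simp)
    fun k => by rw [map_sub, e'_P]; split_ifs <;> simp

theorem total (y : T) (h : ∀ k, e' k y = 0) : y = 0 :=
  norm_le_zero_iff.1 ((norm_mono 0 y (fun _ => 0) (by simp) (by simpa using h)).trans_eq norm_zero)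

theorem tendsto_P (y : T) : Tendsto (fun N => P (Finset.range N) y) atTop (𝓝 y) := by
  refine Metric.tendsto_atTop.2 fun ε hε => ?_
  obtain ⟨z, hz, hz'⟩ := Metric.mem_closure_iff.1 (dense_e y) ε hε
  obtain ⟨c, rfl⟩ := Finsupp.mem_span_range_iff_exists_finsupp.1 hz
  refine ⟨c.support.sup id + 1, fun N hN => ?_⟩
  have h1 : P (Finset.range N) (c.sum fun i a => a • e i) = c.sum fun i a => a • e i := by
    refine sub_eq_zero.1 (total _ fun k => ?_)
    rw [map_sub, e'_P, Finsupp.sum, e'_sum]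
    by_cases h : k ∈ c.support
    · have : k ≤ c.support.sup id := Finset.le_sup (f := id) h
      rw [if_pos (Finset.mem_range.2 (by omega)), sub_self]
    · simp [h]
  have h2 := sub_P_le (Finset.range N) (y - c.sum fun i a => a • e i)
  rw [map_sub, h1, sub_sub_sub_cancel_right] at h2
  rw [dist_comm, dist_eq_norm]
  exact h2.trans_lt (by rwa [← dist_eq_norm])

theorem lower (I : Finset ℕ) (d : ℕ → ℕ) (hd : Monotone d) (hI : ∀ j ∈ I, I.card ≤ d j) (y : T)
    (δ : ℝ) (hδ : 0 ≤ δ) (h : ∀ j ∈ I, δ < ‖P (Finset.Ico (d j) (d (j + 1))) y‖) :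
    I.card * δ ≤ 2 * ‖y‖ := by
  have ex : ∀ j, ∃ f : {f // K f}, (∀ k, f.1 k ≠ 0 → d j ≤ k ∧ k < d (j + 1)) ∧
      (j ∈ I → δ ≤ ev f y) := by
    intro j
    by_cases hj : j ∈ I
    · obtain ⟨f, hf⟩ : ∃ f, δ < |ev f (P (Finset.Ico (d j) (d (j + 1))) y)| := by
        by_contra h1
        push Not at h1
        exact absurd (norm_le _ δ hδ h1) (not_le.2 (h j hj))
      set A := Finset.Ico (d j) (d (j + 1))
      set s : ℝ := if 0 ≤ ev f (P A y) then 1 else -1 with hs
      refine ⟨⟨_, f.2.mul (fun k => if k ∈ A then s else 0) fun k => ?_⟩, fun k hk => ?_, fun _ => ?_⟩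
      · simp only [hs]; split_ifs <;> simp
      · by_contra h1
        exact hk (by simp only; rw [if_neg fun h2 => h1 (Finset.mem_Ico.1 h2), zero_mul])
      · rw [ev_eq _ A fun k hk => by simp only [if_neg hk, zero_mul]]
        have e1 : ∑ k ∈ A, (if k ∈ A then s else 0) * f.1 k * e' k y = s * ev f (P A y) := by
          rw [P_apply, map_sum, Finset.mul_sum]
          refine Finset.sum_congr rfl fun k hk => ?_
          rw [if_pos hk, map_smul, ev_e, smul_eq_mul]; ring
        simp only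
        rw [e1, hs]
        split_ifs with h1
        · rw [abs_of_nonneg h1] at hf; linarith
        · rw [abs_of_neg (not_le.1 h1)] at hf; linarith
    · exact ⟨⟨_, K.base 0 0 (by simp)⟩, fun k hk => absurd (by simp) hk, fun h => absurd h hj⟩
  choose f h1 h2 using ex
  set S := Finset.range (d (I.sup id + 1))
  have hS : ∀ j ∈ I, ∀ k, k ∉ S → (f j).1 k = 0 := fun j hj k hk => by
    by_contra h3
    have h4 : j ≤ I.sup id := Finset.le_sup (f := id) hj
    exact hk (Finset.mem_range.2 ((h1 j k h3).2.trans_le (hd (Nat.succ_le_succ h4))))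
  have h3 := ev_le ⟨_, K.comb I d (fun j => (f j).1) hd hI (fun j => (f j).2) h1⟩ y
  rw [ev_eq _ S fun k hk => by
    simp only; rw [Finset.sum_eq_zero fun j hj => hS j hj k hk, mul_zero]] at h3
  have e1 : ∑ k ∈ S, 1 / 2 * (∑ j ∈ I, (f j).1 k) * e' k y = 1 / 2 * ∑ j ∈ I, ev (f j) y := by
    rw [Finset.sum_congr rfl fun j hj => ev_eq (f j) S (hS j hj) y, Finset.sum_comm, Finset.mul_sum]
    refine Finset.sum_congr rfl fun k _ => ?_
    rw [mul_assoc, Finset.sum_mul]
  simp only at h3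
  rw [e1] at h3
  have h4 := Finset.card_nsmul_le_sum I (fun j => ev (f j) y) δ h2
  rw [nsmul_eq_mul] at h4
  linarith [le_abs_self (1 / 2 * ∑ j ∈ I, ev (f j) y)]

theorem count (d : ℕ → ℕ) (hd : StrictMono d) (y : T) (δ : ℝ) (hδ : 0 ≤ δ) (A : Finset ℕ)
    (h : ∀ j ∈ A, δ < ‖P (Finset.Ico (d j) (d (j + 1))) y‖) : A.card * δ ≤ 4 * ‖y‖ + δ := by
  have h1 : A.card / 2 ≤ (A \ Finset.range (A.card / 2)).card := by
    have := Finset.le_card_sdiff (Finset.range (A.card / 2)) A
    rw [Finset.card_range] at this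
    omega
  obtain ⟨I, hI, h2⟩ := Finset.exists_subset_card_eq h1
  have h3 := lower I d hd.monotone (fun j hj => by
    have := (Finset.mem_sdiff.1 (hI hj)).2
    have := hd.id_le j
    simp only [Finset.mem_range, id] at *
    omega) y δ hδ fun j hj => h j (Finset.mem_sdiff.1 (hI hj)).1
  have h4 : (A.card : ℝ) ≤ 2 * I.card + 1 := by
    have : A.card ≤ 2 * I.card + 1 := by omega
    exact_mod_cast this
  nlinarith

theorem upper (d : ℕ → ℕ) (hd : Monotone d) (u : ℕ → T) (hu : ∀ j, ‖u j‖ ≤ 1)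
    (hs : ∀ j k, e' k (u j) ≠ 0 → d j ≤ k ∧ k < d (j + 1)) (r : ℕ) (hr : 0 < r) (h : 2 * d 1 ≤ r) :
    ‖u 0 + (r : ℝ)⁻¹ • ∑ j ∈ Finset.range r, u (j + 1)‖ ≤ 7 / 4 := by
  have r0 : (0 : ℝ) < r := by exact_mod_cast hr
  have b1 : ∀ f j, |ev f (u j)| ≤ 1 := fun f j => (ev_le f _).trans (hu j)
  have avg : ∀ f, |(r : ℝ)⁻¹ * ∑ j ∈ Finset.range r, ev f (u (j + 1))| ≤ 1 := fun f => by
    rw [abs_mul, abs_of_pos (inv_pos.2 r0), inv_mul_le_iff₀ r0, mul_one]
    refine (Finset.abs_sum_le_sum_abs _ _).trans ?_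
    simpa using Finset.sum_le_card_nsmul (Finset.range r) _ 1 fun j _ => b1 f (j + 1)
  have meet : ∀ f j, ev f (u j) ≠ 0 → ∃ k, f.1 k ≠ 0 ∧ d j ≤ k ∧ k < d (j + 1) := fun f j h1 => by
    obtain ⟨M, hM⟩ := f.2.supp
    rw [ev_eq f (Finset.range M) fun k hk => hM k (by simpa using hk)] at h1
    obtain ⟨k, -, hk⟩ := Finset.exists_ne_zero_of_sum_ne_zero h1
    exact ⟨k, left_ne_zero_of_mul hk, hs j k (right_ne_zero_of_mul hk)⟩
  refine norm_le _ _ (by norm_num) fun f => ?_
  rw [map_add, map_smul, map_sum, smul_eq_mul]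
  by_cases h0 : ev f (u 0) = 0
  · rw [h0, zero_add]; linarith [avg f]
  obtain ⟨k0, k1, -, k2⟩ := meet f 0 h0
  refine (abs_add_le _ _).trans ?_
  suffices |(r : ℝ)⁻¹ * ∑ j ∈ Finset.range r, ev f (u (j + 1))| ≤ 3 / 4 by linarith [b1 f 0]
  obtain ⟨f, hf⟩ := f
  cases hf with
  | base n s hs' =>
    rw [Finset.sum_eq_zero, mul_zero, abs_zero]
    · norm_num
    · intro j _
      by_contra h1
      obtain ⟨k, k3, k4, -⟩ := meet _ _ h1
      have e1 : k0 = n := by by_contra h2; exact k1 (Pi.single_eq_of_ne h2 _)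
      have e2 : k = n := by by_contra h2; exact k3 (Pi.single_eq_of_ne h2 _)
      have := hd (show 0 + 1 ≤ j + 1 by omega)
      omega
  | comb I c g hc hI hg hs' =>
    obtain ⟨i0, hi0, k3⟩ := Finset.exists_ne_zero_of_sum_ne_zero (right_ne_zero_of_mul k1)
    have hcard : 2 * I.card ≤ r := by
      have := hI i0 hi0
      have := hs' i0 k0 k3
      simp only [zero_add] at k2
      omega
    set F : {f // K f} := ⟨_, K.comb I c g hc hI hg hs'⟩ with hF
    have eF : ∀ y, ev F y = 1 / 2 * ∑ i ∈ I, ev ⟨g i, hg i⟩ y := fun y => by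
      have : ev F = (1 / 2 : ℝ) • ∑ i ∈ I, ev ⟨g i, hg i⟩ := by
        refine ContinuousLinearMap.ext_on dense_e ?_
        rintro _ ⟨n, rfl⟩
        simp only [sum_apply, smul_apply, ev_e, smul_eq_mul, hF]
      rw [this]
      simp only [sum_apply, smul_apply, smul_eq_mul]
    let bad := (Finset.range r).filter fun j => ∃ i ∈ I, d (j + 1) < c i ∧ c i < d (j + 2)
    have hbad : bad.card ≤ I.card := by
      have : ∀ j, ∃ i, j ∈ bad → i ∈ I ∧ d (j + 1) < c i ∧ c i < d (j + 2) := fun j => by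
        by_cases hj : j ∈ bad
        · obtain ⟨i, hi⟩ := (Finset.mem_filter.1 hj).2; exact ⟨i, fun _ => hi⟩
        · exact ⟨0, fun h => absurd h hj⟩
      choose ι hι using this
      refine Finset.card_le_card_of_injOn ι (fun j hj => (hι j hj).1) fun a ha b hb hab => ?_
      have h1 := (hι a ha).2
      have h2 := (hι b hb).2
      rw [hab] at h1
      by_contra h3
      rcases lt_or_gt_of_ne h3 with h4 | h4
      · have := hd (show a + 2 ≤ b + 1 by omega); omega
      · have := hd (show b + 2 ≤ a + 1 by omega); omega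
    have h1 : ∀ j ∈ Finset.range r,
        |ev F (u (j + 1))| ≤ 1 / 2 + if j ∈ bad then 1 / 2 else 0 := fun j hj => by
      split_ifs with h2
      · linarith [b1 F (j + 1)]
      · have := abs_sum_le I (fun i => ev ⟨g i, hg i⟩ (u (j + 1))) 1 zero_le_one (fun i => b1 _ _)
          fun i _ i' hi' hii h3 h4 => by
            obtain ⟨k, a1, a2, a3⟩ := meet _ _ h3
            obtain ⟨k', a4, a5, a6⟩ := meet _ _ h4
            have a7 := hs' i k a1
            have a8 := hs' i' k' a4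
            have a9 := hc (show i + 1 ≤ i' by omega)
            exact h2 (Finset.mem_filter.2 ⟨hj, i', hi', by omega, a8.1.trans_lt a6⟩)
        rw [eF, abs_mul, abs_of_pos (by norm_num : (0 : ℝ) < 1 / 2)]
        linarith
    rw [abs_mul, abs_of_pos (inv_pos.2 r0), inv_mul_le_iff₀ r0]
    refine (Finset.abs_sum_le_sum_abs _ _).trans ((Finset.sum_le_sum h1).trans ?_)
    rw [Finset.sum_add_distrib, Finset.sum_ite_mem,
      Finset.inter_eq_right.2 (Finset.filter_subset _ _)]
    simp only [Finset.sum_const, Finset.card_range, nsmul_eq_mul]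
    have : 2 * (bad.card : ℝ) ≤ r := by exact_mod_cast (show 2 * bad.card ≤ r by omega)
    linarith

theorem shrinking (φ : T →L[ℝ] ℝ) :
    Tendsto (fun N => ‖φ - φ.comp (P (Finset.range N))‖) atTop (𝓝 0) := by
  set D := fun N => ‖φ - φ.comp (P (Finset.range N))‖ with hD
  have D0 : ∀ N, 0 ≤ D N := fun N => ContinuousLinearMap.opNorm_nonneg _
  have h1 : ∀ N (y : T), (∀ k < N, e' k y = 0) → |φ y| ≤ D N * ‖y‖ := fun N y hy => by
    have := (φ - φ.comp (P (Finset.range N))).le_opNorm y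
    rwa [sub_apply, ContinuousLinearMap.comp_apply, total (P _ y) fun k => by
      rw [e'_P]; split_ifs with h
      · exact hy k (Finset.mem_range.1 h)
      · rfl, map_zero, sub_zero] at this
  have h2 : Antitone D := fun M N hMN =>
    ContinuousLinearMap.opNorm_le_bound _ (D0 M) fun y => by
      rw [sub_apply, ContinuousLinearMap.comp_apply, ← map_sub]
      refine (h1 M _ fun k hk => ?_).trans (mul_le_mul_of_nonneg_left (sub_P_le _ y) (D0 M))
      rw [map_sub, e'_P, if_pos (Finset.mem_range.2 (hk.trans_le hMN)), sub_self]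
  have bdd : BddBelow (Set.range D) := ⟨0, by rintro _ ⟨N, rfl⟩; exact D0 N⟩
  have h3 := tendsto_atTop_ciInf h2 bdd
  set δ := ⨅ N, D N
  suffices δ = 0 by rwa [this] at h3
  by_contra h4
  have δ0 : 0 < δ := lt_of_le_of_ne (le_ciInf D0) (Ne.symm h4)
  have ex : ∀ N, ∃ (M : ℕ) (u : T), N ≤ M ∧ ‖u‖ ≤ 1 ∧ (∀ k, e' k u ≠ 0 → N ≤ k ∧ k < M) ∧
      15 / 16 * δ < φ u := by
    intro N
    obtain ⟨y, hy, h5⟩ := (φ - φ.comp (P (Finset.range N))).exists_lt_apply_of_lt_opNorm
      (show 15 / 16 * δ < _ from lt_of_lt_of_le (by linarith) (ciInf_le bdd N))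
    rw [sub_apply, ContinuousLinearMap.comp_apply, ← map_sub] at h5
    set z := y - P (Finset.range N) y with hz
    obtain ⟨M, h6, h7⟩ := ((((φ.continuous.tendsto z).comp (tendsto_P z)).norm.eventually_const_lt
      h5).and (eventually_ge_atTop N)).exists
    have h8 : ‖P (Finset.range M) z‖ ≤ 1 := (P_le _ _).trans ((sub_P_le _ _).trans hy.le)
    have h9 : ∀ k, e' k (P (Finset.range M) z) ≠ 0 → N ≤ k ∧ k < M := fun k hk => by
      rw [e'_P, hz, map_sub, e'_P] at hk
      by_cases a : k < M <;> by_cases b : k < N <;> simp_all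
    rcases lt_abs.1 h6 with h | h
    · exact ⟨M, _, h7, h8, h9, h⟩
    · exact ⟨M, -P (Finset.range M) z, h7, by rwa [norm_neg],
        fun k hk => h9 k (by simpa using hk), by rwa [map_neg]⟩
  choose M u a1 a2 a3 a4 using ex
  obtain ⟨N, hN⟩ := (h3.eventually_lt_const (show δ < 17 / 16 * δ by linarith)).exists
  let d : ℕ → ℕ := fun j => M^[j] N
  have ds : ∀ j, d (j + 1) = M (d j) := fun j => Function.iterate_succ_apply' _ _ _
  have hd : Monotone d := monotone_nat_of_le_succ fun j => by rw [ds]; exact a1 _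
  have h5 := upper d hd (fun j => u (d j)) (fun j => a2 _) (fun j k hk => by
    rw [ds]; exact a3 _ k hk) (2 * d 1 + 1) (by omega) (by omega)
  set r := 2 * d 1 + 1
  have r0 : (0 : ℝ) < r := by positivity
  have z : ∀ j k, k < N → e' k (u (d j)) = 0 := fun j k hk => by
    by_contra h
    have := (a3 _ k h).1
    have : N ≤ d j := hd (Nat.zero_le j)
    omega
  have h6 := h1 N (u (d 0) + (r : ℝ)⁻¹ • ∑ j ∈ Finset.range r, u (d (j + 1))) fun k hk => by
    rw [map_add, map_smul, map_sum, z _ k hk, Finset.sum_eq_zero fun j _ => z _ k hk]; simp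
  rw [map_add, map_smul, map_sum, smul_eq_mul] at h6
  have h7 : 15 / 16 * δ ≤ (r : ℝ)⁻¹ * ∑ j ∈ Finset.range r, φ (u (d (j + 1))) := by
    rw [le_inv_mul_iff₀ r0]
    simpa using Finset.card_nsmul_le_sum (Finset.range r) _ _ fun j _ => (a4 (d (j + 1))).le
  have h8 := (le_abs_self _).trans (h6.trans (mul_le_mul hN.le h5 (norm_nonneg _) (by positivity)))
  linarith [a4 (d 0)]

end Pool.Agent.Lib.helper23.TsA
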