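import Mathlib
import Pool.Agent.Lib.helper23.QgA

namespace Pool.Agent.Lib.helper23.TsB

open Filter Topology MeasureTheory

variable {E : Type} [NormedAddCommGroup E] [NormedSpace ℝ E]

structure Good (e : ℕ → E) (e' : ℕ → E →L[ℝ] ℝ) (P : Finset ℕ → E →L[ℝ] E) : Prop where
  bi : ∀ i j, e' i (e j) = if i = j then 1 else 0
  P_eq : ∀ A, P A = ∑ n ∈ A, (e' n).smulRight (e n)
  e'_le : ∀ n y, |e' n y| ≤ ‖y‖
  P_le : ∀ A y, ‖P A y‖ ≤ ‖y‖
  total : ∀ y, (∀ k, e' k y = 0) → y = 0
  tend : ∀ y, Tendsto (fun N => P (Finset.range N) y) atTop (𝓝 y)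
  count : ∀ d : ℕ → ℕ, StrictMono d → ∀ (y : E) (δ : ℝ), 0 ≤ δ → ∀ A : Finset ℕ,
    (∀ j ∈ A, δ < ‖P (Finset.Ico (d j) (d (j + 1))) y‖) → A.card * δ ≤ 4 * ‖y‖ + δ
  shr : ∀ φ : E →L[ℝ] ℝ, Tendsto (fun N => ‖φ - φ.comp (P (Finset.range N))‖) atTop (𝓝 0)

variable {e : ℕ → E} {e' : ℕ → E →L[ℝ] ℝ} {P : Finset ℕ → E →L[ℝ] E}

theorem Good.P_apply (h : Good e e' P) (A : Finset ℕ) (y : E) :
    P A y = ∑ n ∈ A, e' n y • e n := by
  simp only [h.P_eq, sum_apply, ContinuousLinearMap.smulRight_apply]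

theorem Good.e'_sum (h : Good e e' P) (A : Finset ℕ) (a : ℕ → ℝ) (j : ℕ) :
    e' j (∑ n ∈ A, a n • e n) = if j ∈ A then a j else 0 := by
  simp only [map_sum, map_smul, h.bi, smul_eq_mul, mul_ite, mul_one, mul_zero]
  rw [Finset.sum_ite_eq]

theorem Good.e'_P (h : Good e e' P) (A : Finset ℕ) (y : E) (j : ℕ) :
    e' j (P A y) = if j ∈ A then e' j y else 0 := by
  rw [h.P_apply, h.e'_sum A fun n => e' n y]

theorem Good.reflexive [CompleteSpace E] (H : Good e e' P) :
    Function.Surjective (NormedSpace.inclusionInDoubleDual ℝ E) := by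
  intro Φ
  let s : ℕ → E := fun N => ∑ n ∈ Finset.range N, Φ (e' n) • e n
  have e1 : ∀ N (φ : E →L[ℝ] ℝ), Φ (φ.comp (P (Finset.range N))) = φ (s N) := fun N φ => by
    simp only [s, H.P_eq, ContinuousLinearMap.comp_finsetSum, map_sum, map_smul, smul_eq_mul]
    refine Finset.sum_congr rfl fun n _ => ?_
    rw [mul_comm, ← smul_eq_mul, ← map_smul]
    congr 1
    ext y
    simp [mul_comm]
  have h1 : ∀ N, ‖s N‖ ≤ ‖Φ‖ := fun N => by
    obtain ⟨g, g1, g2⟩ := exists_dual_vector'' ℝ (s N)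
    rw [← e1] at g2
    have h2 : ‖g.comp (P (Finset.range N))‖ ≤ 1 :=
      ContinuousLinearMap.opNorm_le_bound _ zero_le_one fun y =>
        (g.le_of_opNorm_le g1 _).trans (mul_le_mul_of_nonneg_left (H.P_le _ y) zero_le_one)
    have h3 := (Φ.le_opNorm _).trans (mul_le_of_le_one_right (norm_nonneg _) h2)
    rw [g2] at h3
    simpa using h3
  have h2 : CauchySeq s := by
    refine Metric.cauchySeq_iff'.2 fun ε hε => ?_
    by_contra h
    push Not at h
    choose M a1 a2 using h
    let d : ℕ → ℕ := fun j => M^[j] 0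
    have ds : ∀ j, d (j + 1) = M (d j) := fun j => Function.iterate_succ_apply' _ _ _
    have hd : StrictMono d := strictMono_nat_of_lt_succ fun j => by
      rw [ds]
      refine lt_of_le_of_ne (a1 _) fun h => ?_
      have := a2 (d j)
      rw [← h, dist_self] at this
      linarith
    obtain ⟨J, hJ⟩ := exists_nat_gt ((4 * ‖Φ‖ + ε / 2) / (ε / 2))
    have := H.count d hd (s (d J)) (ε / 2) (by positivity) (Finset.range J) fun j hj => by
      have e1 : P (Finset.Ico (d j) (d (j + 1))) (s (d J)) = s (d (j + 1)) - s (d j) := by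
        refine sub_eq_zero.1 (H.total _ fun k => ?_)
        have b1 := hd.monotone (Nat.succ_le_of_lt (Finset.mem_range.1 hj))
        have b2 := hd (Nat.lt_succ_self j)
        simp only [map_sub, H.e'_P, s, H.e'_sum, Finset.mem_Ico, Finset.mem_range,
          Nat.succ_eq_add_one] at *
        split_ifs <;> first | omega | simp
      rw [e1, ← dist_eq_norm, ds]
      linarith [a2 (d j)]
    rw [Finset.card_range] at this
    rw [div_lt_iff₀ (by positivity)] at hJ
    linarith [h1 (d J)]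
  obtain ⟨y, hy⟩ := cauchySeq_tendsto_of_complete h2
  refine ⟨y, ContinuousLinearMap.ext fun φ => ?_⟩
  have h3 : Tendsto (fun N => φ.comp (P (Finset.range N))) atTop (𝓝 φ) :=
    tendsto_iff_norm_sub_tendsto_zero.2 ((H.shr φ).congr fun N => norm_sub_rev _ _)
  exact tendsto_nhds_unique ((φ.continuous.tendsto y).comp hy)
    (((Φ.continuous.tendsto φ).comp h3).congr fun N => e1 N φ)

theorem dual_reflexive (h : Function.Surjective (NormedSpace.inclusionInDoubleDual ℝ E)) :
    Function.Surjective (NormedSpace.inclusionInDoubleDual ℝ (StrongDual ℝ E)) := by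
  intro Ψ
  refine ⟨Ψ.comp (NormedSpace.inclusionInDoubleDual ℝ E), ContinuousLinearMap.ext fun Φ => ?_⟩
  obtain ⟨y, rfl⟩ := h Φ
  rfl

theorem Good.infinite (H : Good e e' P) : ¬ FiniteDimensional ℝ (StrongDual ℝ E) := by
  intro h
  refine Module.Finite.not_linearIndependent_of_infinite (R := ℝ) (M := StrongDual ℝ E) e' ?_
  refine LinearIndependent.of_pairwise_dual_eq_zero_one e'
    (fun n => (NormedSpace.inclusionInDoubleDual ℝ E (e n)).toLinearMap) (fun i j hij => ?_)
    fun i => ?_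
  · change e' j (e i) = 0
    rw [H.bi, if_neg hij.symm]
  · change e' i (e i) = 1
    rw [H.bi, if_pos rfl]

theorem bc {Ω : Type} [MeasurableSpace Ω] (μ : Measure Ω) [IsFiniteMeasure μ] (s : ℕ → Set Ω)
    (M : ℝ) (h : ∀ J, ∑ j ∈ Finset.range J, μ.real (s j) ≤ M) : ∀ᵐ t ∂μ, ∀ᶠ j in atTop, t ∉ s j := by
  refine ae_eventually_notMem ?_
  have := ENNReal.ofReal_tsum_of_nonneg (fun j => measureReal_nonneg (μ := μ) (s := s j))
    (summable_of_sum_range_le (fun j => measureReal_nonneg) h)
  simp only [ofReal_measureReal (measure_ne_top _ _)] at this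
  rw [← this]
  exact ENNReal.ofReal_ne_top

theorem two_pow_sum (r : ℝ) (hr : 0 ≤ r) (K : ℕ) :
    ∑ k ∈ Finset.range K, (if (2 : ℝ) ^ k ≤ r then (2 : ℝ) ^ k else 0) ≤ 2 * r := by
  induction K with
  | zero => simp [hr]
  | succ K ih =>
    rw [Finset.sum_range_succ]
    split_ifs with h
    · have h1 : ∑ k ∈ Finset.range K, (if (2 : ℝ) ^ k ≤ r then (2 : ℝ) ^ k else 0) ≤
          ∑ k ∈ Finset.range K, (2 : ℝ) ^ k :=
        Finset.sum_le_sum fun k _ => by split_ifs <;> first | rfl | positivity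
      rw [geom_sum_eq (by norm_num)] at h1
      linarith
    · linarith

theorem Good.d1 (H : Good e e' P) {Ω : Type} [MeasurableSpace Ω] (μ : Measure Ω)
    [IsProbabilityMeasure μ] (f : ℕ → Ω → E →L[ℝ] ℝ) (hm : ∀ n, StronglyMeasurable (f n)) (C : ℝ)
    (hi : ∀ n, Integrable (f n) μ) (hC : ∀ n, ∫ t, ‖f n t‖ ∂μ ≤ C)
    (h0 : ∀ i, TendstoInMeasure μ (fun n t => f n t (e i)) atTop fun _ => (0 : ℝ)) :
    ∃ g : ℕ → ℕ, StrictMono g ∧ ∀ y, ∀ᵐ t ∂μ, Tendsto (fun k => f (g k) t y) atTop (𝓝 0) := by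
  have C0 : 0 ≤ C := (integral_nonneg fun _ => norm_nonneg _).trans (hC 0)
  let F : ℕ → ℕ → ℝ := fun n k => μ.real {t | (2 : ℝ) ^ k ≤ ‖f n t‖}
  have ms : ∀ n (c : ℝ), MeasurableSet {t | c ≤ ‖f n t‖} := fun n c =>
    measurableSet_le measurable_const (hm n).norm.measurable
  have hF : ∀ n K, ∑ k ∈ Finset.range K, 2 ^ k * F n k ≤ 2 * C := fun n K => by
    have i1 : ∀ k, Integrable ({t | (2 : ℝ) ^ k ≤ ‖f n t‖}.indicator fun _ => (2 : ℝ) ^ k) μ :=
      fun k => (integrable_const _).indicator (ms n _)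
    have := integral_mono (integrable_finsetSum (Finset.range K) fun k _ => i1 k)
      ((hi n).norm.const_mul 2) fun t => by
        refine le_of_eq_of_le ?_ (two_pow_sum ‖f n t‖ (norm_nonneg _) K)
        simp only [Set.indicator, Set.mem_ofPred_eq]
    rw [integral_finsetSum _ fun k _ => i1 k, integral_const_mul] at this
    simp only [integral_indicator_const _ (ms n _), smul_eq_mul] at this
    simp only [F, mul_comm ((2 : ℝ) ^ _)]
    linarith [hC n]
  obtain ⟨G, -, ψ, hψ, hG⟩ := (isCompact_univ_pi fun _ : ℕ => isCompact_Icc (a := (0 : ℝ))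
    (b := 1)).tendsto_subseq (x := F) fun n k _ => ⟨measureReal_nonneg, measureReal_le_one⟩
  have hGk : ∀ k, Tendsto (fun n => F (ψ n) k) atTop (𝓝 (G k)) := fun k => tendsto_pi_nhds.1 hG k
  have G0 : ∀ k, 0 ≤ G k := fun k => ge_of_tendsto' (hGk k) fun n => measureReal_nonneg
  have hG2 : ∀ K, ∑ k ∈ Finset.range K, 2 ^ k * G k ≤ 2 * C := fun K =>
    le_of_tendsto' (tendsto_finsetSum _ fun k _ => (hGk k).const_mul _) fun n => hF _ K
  have step : ∀ j n M : ℕ, ∃ n' M' : ℕ, n < n' ∧ M < M' ∧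
      μ.real {t | (1 / 2 : ℝ) ^ j ≤ ∑ i ∈ Finset.range M, |f (ψ n') t (e i)|} ≤ (1 / 2) ^ j ∧
      (∀ k ≤ j, F (ψ n') k ≤ G k + (1 / 2) ^ j) ∧
      μ.real {t | (1 / 2 : ℝ) ^ j ≤ ‖f (ψ n') t - (f (ψ n') t).comp (P (Finset.range M'))‖} ≤
        (1 / 2) ^ j := by
    intro j n M
    have ε0 : (0 : ℝ) < (1 / 2) ^ j := by positivity
    set ε : ℝ := (1 / 2) ^ j
    have a1 : ∀ᶠ n' in atTop,
        μ.real {t | ε ≤ ∑ i ∈ Finset.range M, |f (ψ n') t (e i)|} ≤ ε := by
      have b1 : ∀ i, Tendsto (fun n' => μ.real {t | ε / (M + 1) ≤ |f (ψ n') t (e i)|}) atTop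
          (𝓝 0) := fun i => by
        have := (tendstoInMeasure_iff_measureReal_norm.1 (h0 i) (ε / (M + 1))
          (by positivity)).comp hψ.tendsto_atTop
        simpa [Function.comp_def] using this
      have b2 := tendsto_finsetSum (Finset.range M) fun i _ => b1 i
      rw [Finset.sum_const_zero] at b2
      filter_upwards [b2.eventually_le_const ε0] with n' hn'
      refine le_trans (le_trans (measureReal_mono ?_ (measure_ne_top _ _))
        (measureReal_biUnion_finset_le _ _)) hn'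
      intro t ht
      by_contra h1
      simp only [Set.mem_iUnion, Set.mem_ofPred_eq, not_exists, not_le] at h1 ht
      have := Finset.sum_le_card_nsmul (Finset.range M) _ _ fun i hi => (h1 i hi).le
      rw [Finset.card_range, nsmul_eq_mul] at this
      have h2 : (M : ℝ) * (ε / (M + 1)) < ε := by
        rw [← mul_div_assoc, div_lt_iff₀ (by positivity)]; nlinarith
      linarith
    have a2 : ∀ᶠ n' in atTop, ∀ k ∈ Finset.range (j + 1), F (ψ n') k ≤ G k + ε :=
      (Finset.eventually_all _).2 fun k _ => (hGk k).eventually_le_const (by linarith)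
    obtain ⟨n', ⟨b1, b2⟩, b3⟩ := ((a1.and a2).and (eventually_gt_atTop n)).exists
    have a3 := tendstoInMeasure_of_tendsto_ae (μ := μ)
      (f := fun M' t => ‖f (ψ n') t - (f (ψ n') t).comp (P (Finset.range M'))‖)
      (g := fun _ => (0 : ℝ))
      (fun M' => (((continuous_id.sub (continuous_id.clm_comp continuous_const)).norm
        ).comp_stronglyMeasurable (hm _)).aestronglyMeasurable)
      (Eventually.of_forall fun t => H.shr _)
    have a4 := tendstoInMeasure_iff_measureReal_norm.1 a3 ε ε0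
    simp only [sub_zero, norm_norm] at a4
    obtain ⟨M', b4, b5⟩ := ((a4.eventually_le_const ε0).and (eventually_gt_atTop M)).exists
    exact ⟨n', M', b3, b5, b1, fun k hk => b2 k (Finset.mem_range.2 (by omega)), b4⟩
  choose nn MM s1 s2 s3 s4 s5 using step
  let q : ℕ → ℕ × ℕ := fun j => Nat.rec (0, 0) (fun j p => (nn j p.1 p.2, MM j p.1 p.2)) j
  let g : ℕ → ℕ := fun j => ψ (q (j + 1)).1
  let d : ℕ → ℕ := fun j => (q j).2
  have hd : StrictMono d := strictMono_nat_of_lt_succ fun j => s2 j _ _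
  refine ⟨g, hψ.comp (strictMono_nat_of_lt_succ fun j => s1 (j + 1) _ _), fun y => ?_⟩
  have geo : ∀ J, ∑ j ∈ Finset.range J, (1 / 2 : ℝ) ^ j ≤ 2 := sum_geometric_two_le
  have c1 := bc μ (fun j => {t | (1 / 2 : ℝ) ^ j ≤ ∑ i ∈ Finset.range (d j), |f (g j) t (e i)|}) 2
    fun J => (Finset.sum_le_sum fun j _ => s3 j _ _).trans (geo J)
  have c3 := bc μ (fun j => {t | (1 / 2 : ℝ) ^ j ≤
      ‖f (g j) t - (f (g j) t).comp (P (Finset.range (d (j + 1))))‖}) 2
    fun J => (Finset.sum_le_sum fun j _ => s5 j _ _).trans (geo J)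
  let b : ℕ → ℝ := fun j => ‖P (Finset.Ico (d j) (d (j + 1))) y‖
  have eQ : ∀ j, P (Finset.Ico (d j) (d (j + 1))) y =
      P (Finset.range (d (j + 1))) y - P (Finset.range (d j)) y := fun j => by
    simp only [H.P_apply]
    rw [Finset.sum_Ico_eq_sub _ (hd (Nat.lt_succ_self j)).le]
  have hb : Tendsto b atTop (𝓝 0) := by
    have h1 := (H.tend y).comp hd.tendsto_atTop
    have := ((h1.comp (tendsto_add_atTop_nat 1)).sub h1).norm
    rw [sub_self, norm_zero] at this
    exact this.congr fun j => by simp only [b, eQ, Function.comp]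
  have c2 : ∀ ε : ℝ, 0 < ε → ∀ᵐ t ∂μ, ∀ᶠ j in atTop, ‖f (g j) t‖ * b j < ε := by
    intro ε hε
    let a : ℕ → ℝ := fun j => if b j ≤ ε then b j else 0
    have a0 : ∀ j, 0 ≤ a j ∧ a j ≤ ε ∧ a j ≤ b j := fun j => by
      have : 0 ≤ b j := norm_nonneg _
      simp only [a]; split_ifs with h
      · exact ⟨this, h, le_rfl⟩
      · exact ⟨le_rfl, hε.le, this⟩
    let S : ℕ → Set Ω := fun j => {t | ε ≤ ‖f (g j) t‖ * a j}
    have h1 := bc μ S ((8 * ‖y‖ / ε + 1) * (2 * C) + (1 + 2 * C) * 2) fun J => by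
      have h2 := QgA.dyadic_sum (Finset.range J) a
        (fun j => max (μ.real (S j) - (1 + 2 * C) * (1 / 2) ^ j) 0) ε hε
        (fun k => (8 * ‖y‖ / ε + 1) * (2 ^ k * G k)) ((8 * ‖y‖ / ε + 1) * (2 * C))
        (fun j _ => ⟨(a0 j).1, (a0 j).2.1⟩) (fun j _ => le_max_right _ _)
        (fun j _ h => by
          have : S j = ∅ := Set.eq_empty_of_forall_notMem fun t ht => by
            simp only [S, h, mul_zero, Set.mem_ofPred_eq] at ht; linarith
          rw [this, measureReal_empty, zero_sub, max_eq_right (neg_nonpos.2 (by positivity))])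
        (fun k => by
          set A := (Finset.range J).filter fun i => ε / 2 ^ (k + 1) < a i ∧ a i ≤ ε / 2 ^ k
          have h3 := H.count d hd y (ε / 2 ^ (k + 1)) (by positivity) A fun j hj =>
            (Finset.mem_filter.1 hj).2.1.trans_le (a0 j).2.2
          have h4 := Finset.sum_le_card_nsmul A
            (fun j => max (μ.real (S j) - (1 + 2 * C) * (1 / 2) ^ j) 0) (G k) fun j hj => by
              refine max_le ?_ (G0 k)
              have h5 : μ.real (S j) ≤ F (g j) k := measureReal_mono fun t ht => by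
                have h6 := le_trans ht (mul_le_mul_of_nonneg_left (Finset.mem_filter.1 hj).2.2
                  (norm_nonneg (f (g j) t)))
                rw [← mul_div_assoc, le_div_iff₀ (by positivity), mul_comm] at h6
                exact le_of_mul_le_mul_right h6 hε
              have p0 : (0 : ℝ) < (1 / 2) ^ j := by positivity
              rcases le_or_gt k j with h6 | h6
              · have h7 : F (g j) k ≤ G k + (1 / 2) ^ j := s4 j _ _ k h6
                nlinarith
              · have h7 := (Finset.single_le_sum (f := fun k => 2 ^ k * F (g j) k)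
                  (fun _ _ => mul_nonneg (by positivity) measureReal_nonneg)
                  (Finset.self_mem_range_succ k)).trans (hF (g j) (k + 1))
                have h8 : (2 : ℝ) ^ j ≤ 2 ^ k := pow_le_pow_right₀ one_le_two h6.le
                have h9 : 0 ≤ F (g j) k := measureReal_nonneg
                have h10 : F (g j) k ≤ 2 * C * (1 / 2) ^ j := by
                  rw [one_div, inv_pow, ← div_eq_mul_inv, le_div_iff₀ (by positivity)]
                  nlinarith
                linarith [G0 k]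
          refine h4.trans ?_
          rw [nsmul_eq_mul, ← mul_assoc]
          refine mul_le_mul_of_nonneg_right ?_ (G0 k)
          have p1 : (1 : ℝ) ≤ 2 ^ k := one_le_pow₀ one_le_two
          have p2 : (0 : ℝ) < ε / 2 ^ (k + 1) := by positivity
          refine le_of_mul_le_mul_right (h3.trans ?_) p2
          have : (8 * ‖y‖ / ε + 1) * 2 ^ k * (ε / 2 ^ (k + 1)) =
              4 * ‖y‖ + 2 ^ k * (ε / 2 ^ (k + 1)) := by
            rw [pow_succ]; field_simp; ring
          rw [this]
          nlinarith)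
        (fun K => by
          rw [← Finset.mul_sum]
          exact mul_le_mul_of_nonneg_left (hG2 K) (by positivity))
      have h3 := (Finset.sum_le_sum fun j _ => le_max_left _ _).trans h2
      rw [Finset.sum_sub_distrib, ← Finset.mul_sum] at h3
      have := mul_le_mul_of_nonneg_left (geo J) (show 0 ≤ 1 + 2 * C by positivity)
      linarith
    filter_upwards [h1] with t ht
    filter_upwards [ht, hb.eventually_le_const hε] with j h2 h3
    simpa only [S, a, if_pos h3, Set.mem_ofPred_eq, not_le] using h2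
  have c4 := ae_all_iff.2 fun m : ℕ => c2 (1 / ((m : ℝ) + 1)) (by positivity)
  filter_upwards [c1, c3, c4] with t h1 h3 h4
  have h5 : Tendsto (fun j => ‖f (g j) t‖ * b j) atTop (𝓝 0) := by
    refine tendsto_order.2 ⟨fun a ha => Eventually.of_forall fun j =>
      ha.trans_le (mul_nonneg (norm_nonneg _) (norm_nonneg _)), fun a ha => ?_⟩
    obtain ⟨m, hm⟩ := exists_nat_one_div_lt ha
    exact (h4 m).mono fun j hj => hj.trans hm
  have h6 := (((tendsto_pow_atTop_nhds_zero_of_lt_one (r := (1 / 2 : ℝ)) (by norm_num)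
    (by norm_num)).mul_const ‖y‖).const_mul 2).add h5
  simp only [zero_mul, mul_zero, add_zero] at h6
  refine squeeze_zero_norm' ?_ h6
  filter_upwards [h1, h3] with j h7 h8
  simp only [not_le] at h7 h8
  have e1 : f (g j) t y = f (g j) t (P (Finset.range (d j)) y) +
      f (g j) t (P (Finset.Ico (d j) (d (j + 1))) y) +
      (f (g j) t - (f (g j) t).comp (P (Finset.range (d (j + 1))))) y := by
    rw [eQ, map_sub, sub_apply, ContinuousLinearMap.comp_apply]; ring
  have b1 : ‖f (g j) t (P (Finset.range (d j)) y)‖ ≤ (1 / 2) ^ j * ‖y‖ := by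
    rw [H.P_apply, map_sum]
    refine (norm_sum_le _ _).trans (le_trans ?_ (mul_le_mul_of_nonneg_right h7.le (norm_nonneg y)))
    rw [Finset.sum_mul]
    refine Finset.sum_le_sum fun i _ => ?_
    rw [map_smul, norm_smul, mul_comm]
    exact mul_le_mul_of_nonneg_left (H.e'_le i y) (abs_nonneg _)
  have b2 := (f (g j) t).le_opNorm (P (Finset.Ico (d j) (d (j + 1))) y)
  have b3 := (f (g j) t - (f (g j) t).comp (P (Finset.range (d (j + 1))))).le_of_opNorm_le h8.le y
  rw [e1]
  refine norm_add₃_le.trans ?_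
  linarith

theorem Good.main [CompleteSpace E] (H : Good e e' P) :
    ∃ (X : Type) (_ : NormedAddCommGroup X) (_ : NormedSpace ℝ X) (_ : CompleteSpace X),
      Function.Surjective (NormedSpace.inclusionInDoubleDual ℝ X) ∧
      ¬ FiniteDimensional ℝ X ∧
      ∀ f : ℕ → ℝ → X,
        (∀ n, StronglyMeasurable (f n)) →
        (∃ C : NNReal, ∀ n, eLpNorm (f n) 1 (volume.restrict (Set.Icc (0 : ℝ) 1)) ≤ (C : ENNReal)) →
        (∀ φ : StrongDual ℝ X,
          TendstoInMeasure (volume.restrict (Set.Icc (0 : ℝ) 1))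
            (fun n t => φ (f n t)) atTop (fun _ => (0 : ℝ))) →
        ∃ g : ℕ → ℕ, StrictMono g ∧
          ∀ φ : StrongDual ℝ X,
            ∀ᵐ t ∂(volume.restrict (Set.Icc (0 : ℝ) 1)),
              Tendsto (fun k => φ (f (g k) t)) atTop (𝓝 0) := by
  refine ⟨StrongDual ℝ E, inferInstance, inferInstance, inferInstance, dual_reflexive H.reflexive,
    H.infinite, fun f hm ⟨C, hC⟩ h0 => ?_⟩
  have : IsProbabilityMeasure (volume.restrict (Set.Icc (0 : ℝ) 1)) := ⟨by simp⟩
  have hi : ∀ n, Integrable (f n) (volume.restrict (Set.Icc (0 : ℝ) 1)) := fun n =>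
    memLp_one_iff_integrable.1 ⟨(hm n).aestronglyMeasurable, (hC n).trans_lt ENNReal.coe_lt_top⟩
  obtain ⟨g, hg, h⟩ := H.d1 _ f hm C hi (fun n => by
    rw [integral_norm_eq_lintegral_enorm (hm n).aestronglyMeasurable,
      ← eLpNorm_one_eq_lintegral_enorm]
    exact ENNReal.toReal_le_coe_of_le_coe (hC n))
    fun i => h0 (NormedSpace.inclusionInDoubleDual ℝ E (e i))
  refine ⟨g, hg, fun φ => ?_⟩
  obtain ⟨y, rfl⟩ := H.reflexive φ
  exact h y

end Pool.Agent.Lib.helper23.TsB
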