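import Mathlib
import Pool.Agent.Lib.helper23.DetA

namespace Pool.Agent.Lib.helper23.UdA

open Filter Topology MeasureTheory Pool.Agent.Lib.helper23.DetA

def UD (u : ℕ → ℝ) : Prop :=
  ∀ a b : ℝ, 0 ≤ a → a ≤ b → b ≤ 1 → Tendsto (fun N : ℕ =>
    (((Finset.range N).filter (fun n => a ≤ Int.fract (u n) ∧ Int.fract (u n) < b)).card : ℝ)
      / (N : ℝ)) atTop (𝓝 (b - a))

def CLB (u : ℕ → ℝ) : Prop :=
  ∀ a b : ℚ, 0 ≤ a → a ≤ b → b ≤ 1 → ∀ ε : ℝ, 0 < ε → ∀ᶠ N : ℕ in atTop,
    ((b : ℝ) - a - ε) * N ≤ (((Finset.range N).filter (fun n =>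
      ‖((u n - (a + b) / 2 : ℝ) : AddCircle (1 : ℝ))‖ ≤ ((b : ℝ) - a) / 2)).card : ℝ)

theorem clb_of_weyl (u : ℕ → ℝ) (hu : Weyl u) : CLB u := by
  intro a b ha hab hb ε hε
  have ha' : (0 : ℝ) ≤ a := by exact_mod_cast ha
  have hb' : (b : ℝ) ≤ 1 := by exact_mod_cast hb
  set ρ : ℝ := ((b : ℝ) - a) / 2 with hρ
  set c : ℝ := (a + b) / 2 with hc
  set δ : ℝ := ε / 4 with hδ
  have hδ0 : 0 < δ := by positivity
  let g : AddCircle (1 : ℝ) → ℝ := fun t => max 0 (min 1 ((ρ - dist t (c : AddCircle (1 : ℝ))) / δ))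
  have hg : Continuous g := by fun_prop
  have hgi : Integrable g AddCircle.haarAddCircle :=
    hg.integrable_of_hasCompactSupport (HasCompactSupport.of_compactSpace _)
  have h1 := weyl_cont u hu ⟨fun t => (g t : ℂ), Complex.continuous_ofReal.comp hg⟩
  have h2 : Tendsto (fun N : ℕ => (N : ℝ)⁻¹ * ∑ n ∈ Finset.range N, g (u n)) atTop
      (𝓝 (∫ t, g t ∂AddCircle.haarAddCircle)) := by
    have := (Complex.continuous_re.tendsto _).comp h1
    simp only [ContinuousMap.coe_mk, integral_complex_ofReal, Complex.ofReal_re] at this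
    refine this.congr fun N => ?_
    simp [Function.comp]
  have h3 : (b : ℝ) - a - ε / 2 ≤ ∫ t, g t ∂AddCircle.haarAddCircle := by
    have hm : MeasurableSet (Metric.closedBall (c : AddCircle (1 : ℝ)) (ρ - δ)) :=
      Metric.isClosed_closedBall.measurableSet
    have hle : (Metric.closedBall (c : AddCircle (1 : ℝ)) (ρ - δ)).indicator
        (1 : AddCircle (1 : ℝ) → ℝ) ≤ g := by
      intro t
      by_cases ht : t ∈ Metric.closedBall (c : AddCircle (1 : ℝ)) (ρ - δ)
      · rw [Set.indicator_of_mem ht]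
        refine le_max_of_le_right (le_min le_rfl ?_)
        rw [Metric.mem_closedBall] at ht
        change 1 ≤ _
        rw [le_div_iff₀ hδ0]; linarith
      · rw [Set.indicator_of_notMem ht]; exact le_max_left _ _
    have := integral_mono ((integrable_const (1 : ℝ)).indicator hm) hgi hle
    refine le_trans ?_ this
    change _ ≤ ∫ t, (Metric.closedBall (c : AddCircle (1 : ℝ)) (ρ - δ)).indicator
      (1 : AddCircle (1 : ℝ) → ℝ) t ∂AddCircle.haarAddCircle
    rw [integral_indicator_one hm]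
    have hv := AddCircle.volume_closedBall (T := 1) (x := (c : AddCircle (1 : ℝ))) (ρ - δ)
    rw [AddCircle.volume_eq_smul_haarAddCircle, ENNReal.ofReal_one, one_smul] at hv
    rw [Measure.real, hv, ENNReal.toReal_ofReal']
    refine le_max_of_le_left (le_min (by linarith) (le_of_eq ?_))
    rw [hρ, hδ]; ring
  have h4 : ∀ n, g (u n) ≤ if ‖((u n - c : ℝ) : AddCircle (1 : ℝ))‖ ≤ ρ then 1 else 0 := by
    intro n
    split_ifs with h
    · exact max_le zero_le_one (min_le_left _ _)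
    · refine max_le le_rfl ((min_le_right _ _).trans ?_)
      refine div_nonpos_of_nonpos_of_nonneg ?_ hδ0.le
      rw [dist_eq_norm, ← AddCircle.coe_sub]
      push Not at h
      linarith
  filter_upwards [h2.eventually (lt_mem_nhds (by linarith :
    (b : ℝ) - a - ε < ∫ t, g t ∂AddCircle.haarAddCircle)), eventually_gt_atTop 0] with N hN hN0
  have hN' : (0 : ℝ) < N := by exact_mod_cast hN0
  rw [← div_eq_inv_mul, lt_div_iff₀ hN'] at hN
  refine hN.le.trans ((Finset.sum_le_sum fun n _ => h4 n).trans (le_of_eq ?_))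
  rw [Finset.sum_boole]

theorem clb_of_ud (u : ℕ → ℝ) (hu : UD u) : CLB u := by
  intro a b ha hab hb ε hε
  have h := hu a b (by exact_mod_cast ha) (by exact_mod_cast hab) (by exact_mod_cast hb)
  filter_upwards [h.eventually (lt_mem_nhds (by linarith : (b : ℝ) - a - ε < b - a)),
    eventually_gt_atTop 0] with N hN hN0
  have hN' : (0 : ℝ) < N := by exact_mod_cast hN0
  rw [lt_div_iff₀ hN'] at hN
  refine hN.le.trans ?_
  refine Nat.cast_le.2 (Finset.card_le_card fun n hn => ?_)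
  rw [Finset.mem_filter] at hn ⊢
  refine ⟨hn.1, ?_⟩
  rw [UnitAddCircle.norm_eq]
  refine (round_le _ ⌊u n⌋).trans ?_
  have := hn.2
  rw [Int.fract] at this
  rw [abs_le]
  constructor <;> linarith [this.1, this.2]

theorem lb_of_clb (u : ℕ → ℝ) (hu : CLB u) (s t : ℝ) (hs : 0 ≤ s) (ht : t ≤ 1)
    (ε : ℝ) (hε : 0 < ε) : ∀ᶠ N : ℕ in atTop, (t - s - ε) * N ≤
      (((Finset.range N).filter (fun n => s ≤ Int.fract (u n) ∧ Int.fract (u n) < t)).card : ℝ) := by
  by_cases h : t - s - ε ≤ 0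
  · exact Eventually.of_forall fun N =>
      (mul_nonpos_of_nonpos_of_nonneg h (Nat.cast_nonneg N)).trans (Nat.cast_nonneg _)
  push Not at h
  obtain ⟨a, ha1, ha2⟩ := exists_rat_btwn (by linarith : s < s + ε / 3)
  obtain ⟨b, hb1, hb2⟩ := exists_rat_btwn (by linarith : t - ε / 3 < t)
  have h1 := hu a b (by exact_mod_cast (by linarith : (0 : ℝ) ≤ a))
    (by exact_mod_cast (by linarith : (a : ℝ) ≤ b)) (by exact_mod_cast (by linarith : (b : ℝ) ≤ 1))
    (ε / 3) (by positivity)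
  filter_upwards [h1] with N hN
  refine le_trans (mul_le_mul_of_nonneg_right (by linarith) (Nat.cast_nonneg N)) (hN.trans ?_)
  refine Nat.cast_le.2 (Finset.card_le_card fun n hn => ?_)
  rw [Finset.mem_filter] at hn ⊢
  refine ⟨hn.1, ?_⟩
  have := hn.2
  rw [UnitAddCircle.norm_eq, abs_le] at this
  set z := round (u n - ((a : ℝ) + b) / 2)
  have e : Int.fract (u n) = u n - z := by
    rw [Int.fract_eq_iff]
    exact ⟨by linarith [this.1], by linarith [this.2], z, by ring⟩
  rw [e]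
  constructor <;> linarith [this.1, this.2]

theorem ud_of_clb (u : ℕ → ℝ) (hu : CLB u) : UD u := by
  intro s t hs hst ht
  rw [Metric.tendsto_nhds]
  intro ε hε
  filter_upwards [lb_of_clb u hu s t hs ht (ε / 3) (by positivity),
    lb_of_clb u hu 0 s le_rfl (hst.trans ht) (ε / 3) (by positivity),
    lb_of_clb u hu t 1 (hs.trans hst) le_rfl (ε / 3) (by positivity),
    eventually_gt_atTop 0] with N h1 h2 h3 hN0
  have hN' : (0 : ℝ) < N := by exact_mod_cast hN0
  have hsum : ((Finset.range N).filter (fun n => s ≤ Int.fract (u n) ∧ Int.fract (u n) < t)).card +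
      (((Finset.range N).filter (fun n => 0 ≤ Int.fract (u n) ∧ Int.fract (u n) < s)).card +
      ((Finset.range N).filter (fun n => t ≤ Int.fract (u n) ∧ Int.fract (u n) < 1)).card) ≤ N := by
    rw [← Finset.card_union_of_disjoint, ← Finset.card_union_of_disjoint]
    · refine (Finset.card_le_card ?_).trans (Finset.card_range N).le
      exact Finset.union_subset (Finset.filter_subset _ _)
        (Finset.union_subset (Finset.filter_subset _ _) (Finset.filter_subset _ _))
    · rw [Finset.disjoint_union_right]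
      constructor <;> refine Finset.disjoint_filter.2 fun n _ h h' => ?_ <;>
        linarith [h.1, h.2, h'.1, h'.2]
    · refine Finset.disjoint_filter.2 fun n _ h h' => ?_
      linarith [h.1, h.2, h'.1, h'.2]
  have hsum' := (Nat.cast_le (α := ℝ)).2 hsum
  push_cast at hsum'
  rw [Real.dist_eq, abs_lt, lt_sub_iff_add_lt, lt_div_iff₀ hN', sub_lt_iff_lt_add, div_lt_iff₀ hN']
  constructor <;> nlinarith

theorem pi03 {Ξ : Type*} [TopologicalSpace Ξ] (x : Ξ → ℕ → ℝ) (hx : ∀ n, Continuous fun ξ => x ξ n) :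
    ∃ F : ℕ → ℕ → Set Ξ, (∀ i j, IsClosed (F i j)) ∧ {ξ | UD (x ξ)} = ⋂ i, ⋃ j, F i j := by
  obtain ⟨e, he⟩ := exists_surjective_nat (ℚ × ℚ × ℕ)
  let C : ℚ × ℚ × ℕ → ℕ → Set Ξ := fun q N => {ξ | ((q.2.1 : ℝ) - q.1 - 1 / ((q.2.2 : ℝ) + 1)) * N ≤
    (((Finset.range N).filter (fun n => ‖((x ξ n - (q.1 + q.2.1) / 2 : ℝ) : AddCircle (1 : ℝ))‖ ≤
      ((q.2.1 : ℝ) - q.1) / 2)).card : ℝ)}
  have hC : ∀ q N, IsClosed (C q N) := by
    intro q N
    have e1 : C q N = ⋃ S ∈ (Finset.range N).powerset.filter (fun S =>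
        ((q.2.1 : ℝ) - q.1 - 1 / ((q.2.2 : ℝ) + 1)) * N ≤ (S.card : ℝ)), ⋂ n ∈ S,
        {ξ | ‖((x ξ n - (q.1 + q.2.1) / 2 : ℝ) : AddCircle (1 : ℝ))‖ ≤ ((q.2.1 : ℝ) - q.1) / 2} := by
      ext ξ
      simp only [C, Set.mem_ofPred_eq, Set.mem_iUnion, Set.mem_iInter, Finset.mem_filter,
        Finset.mem_powerset]
      constructor
      · intro h
        exact ⟨_, ⟨Finset.filter_subset _ _, h⟩, fun n hn => (Finset.mem_filter.1 hn).2⟩
      · rintro ⟨S, ⟨h1, h2⟩, h3⟩
        exact h2.trans (Nat.cast_le.2 (Finset.card_le_card fun n hn =>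
          Finset.mem_filter.2 ⟨h1 hn, h3 n hn⟩))
    rw [e1]
    refine isClosed_biUnion_finset fun S _ => isClosed_biInter fun n _ => ?_
    exact isClosed_le (((AddCircle.continuous_mk' 1).comp ((hx n).sub continuous_const)).norm)
      continuous_const
  refine ⟨fun i j => {ξ | 0 ≤ (e i).1 → (e i).1 ≤ (e i).2.1 → (e i).2.1 ≤ 1 →
    ξ ∈ ⋂ N ≥ j, C (e i) N}, fun i j => ?_, ?_⟩
  · by_cases h : 0 ≤ (e i).1 ∧ (e i).1 ≤ (e i).2.1 ∧ (e i).2.1 ≤ 1
    · simp only [h.1, h.2.1, h.2.2, forall_true_left]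
      exact isClosed_biInter fun N _ => hC _ N
    · convert isClosed_univ
      exact Set.eq_univ_of_forall fun ξ h1 h2 h3 => absurd ⟨h1, h2, h3⟩ h
  · ext ξ
    simp only [Set.mem_ofPred_eq, Set.mem_iInter, Set.mem_iUnion]
    constructor
    · intro h i
      by_cases h' : 0 ≤ (e i).1 ∧ (e i).1 ≤ (e i).2.1 ∧ (e i).2.1 ≤ 1
      · obtain ⟨j, hj⟩ := eventually_atTop.1 (clb_of_ud _ h _ _ h'.1 h'.2.1 h'.2.2
          (1 / (((e i).2.2 : ℝ) + 1)) (by positivity))
        exact ⟨j, fun _ _ _ => hj⟩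
      · exact ⟨0, fun h1 h2 h3 => absurd ⟨h1, h2, h3⟩ h'⟩
    · intro h
      refine ud_of_clb _ fun a b ha hab hb ε hε => ?_
      obtain ⟨k, hk⟩ := exists_nat_one_div_lt hε
      obtain ⟨i, hi⟩ := he (a, b, k)
      obtain ⟨j, hj⟩ := h i
      rw [hi] at hj
      filter_upwards [eventually_ge_atTop j] with N hN
      exact le_trans (mul_le_mul_of_nonneg_right (by simp only; linarith) (Nat.cast_nonneg N))
        (hj ha hab hb N hN)

theorem reduce {Y : Type*} [TopologicalSpace Y]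
    (hY : ∀ G : Set Y, IsClosed G → ∃ C : ℕ → Set Y, (∀ k, IsClopen (C k)) ∧ G = ⋂ k, C k)
    (G : ℕ → ℕ → Set Y) (hG : ∀ i j, IsClosed (G i j)) :
    ∃ x : Y → ℕ → ℕ, Continuous x ∧ ∀ y, y ∈ ⋂ i, ⋃ j, G i j ↔ Tendsto (x y) atTop atTop := by
  classical
  choose C hC1 hC2 using fun i j => hY _ (hG i j)
  have ex1 : ∀ i n y, ∃ j, j = n ∨ ∀ k ≤ n, y ∈ C i j k := fun i n y => ⟨n, Or.inl rfl⟩
  let g : ℕ → ℕ → Y → ℕ := fun i n y => Nat.find (ex1 i n y)
  have ex2 : ∀ n y, ∃ i, i = n ∨ g i n y ≠ g i (n + 1) y := fun n y => ⟨n, Or.inl rfl⟩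
  have gle : ∀ i n y, g i n y ≤ n := fun i n y => Nat.find_min' _ (Or.inl rfl)
  have gc : ∀ i n y, ∀ᶠ y' in 𝓝 y, g i n y' = g i n y := by
    intro i n y
    have : ∀ᶠ y' in 𝓝 y, ∀ j ∈ Finset.range (n + 1), ∀ k ∈ Finset.range (n + 1),
        (y' ∈ C i j k ↔ y ∈ C i j k) := by
      refine (Finset.eventually_all _).2 fun j _ => (Finset.eventually_all _).2 fun k _ => ?_
      by_cases h : y ∈ C i j k
      · filter_upwards [(hC1 i j k).isOpen.mem_nhds h] with y' h' using by simp [h, h']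
      · filter_upwards [(hC1 i j k).compl.isOpen.mem_nhds h] with y' h'
        exact ⟨fun h2 => absurd h2 h', fun h2 => absurd h2 h⟩
    filter_upwards [this] with y' h
    have h1 : ∀ j ≤ n, (j = n ∨ ∀ k ≤ n, y' ∈ C i j k) ↔ (j = n ∨ ∀ k ≤ n, y ∈ C i j k) :=
      fun j hj => or_congr Iff.rfl (forall₂_congr fun k hk =>
        h j (Finset.mem_range.2 (by omega)) k (Finset.mem_range.2 (by omega)))
    exact le_antisymm (Nat.find_min' _ ((h1 _ (gle i n y)).2 (Nat.find_spec (ex1 i n y))))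
      (Nat.find_min' _ ((h1 _ (gle i n y')).1 (Nat.find_spec (ex1 i n y'))))
  have gmono : ∀ i y, Monotone fun n => g i n y := by
    intro i y
    refine monotone_nat_of_le_succ fun n => ?_
    rcases Nat.find_spec (ex1 i (n + 1) y) with h | h
    · exact (gle i n y).trans (by change _ ≤ Nat.find _; omega)
    · exact Nat.find_min' _ (Or.inr fun k hk => h k (by omega))
  refine ⟨fun y n => Nat.find (ex2 n y), continuous_pi fun n => ?_, fun y => ?_⟩
  · refine continuous_iff_continuousAt.2 fun y => ?_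
    refine (continuousAt_const (y := Nat.find (ex2 n y))).congr ?_
    have : ∀ᶠ y' in 𝓝 y, ∀ i ∈ Finset.range (n + 1), g i n y' = g i n y ∧
        g i (n + 1) y' = g i (n + 1) y :=
      (Finset.eventually_all _).2 fun i _ => (gc i n y).and (gc i (n + 1) y)
    filter_upwards [this] with y' h
    have h1 : ∀ i ≤ n, (i = n ∨ g i n y' ≠ g i (n + 1) y') ↔ (i = n ∨ g i n y ≠ g i (n + 1) y) :=
      fun i hi => by
        rw [(h i (Finset.mem_range.2 (by omega))).1, (h i (Finset.mem_range.2 (by omega))).2]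
    exact le_antisymm
      (Nat.find_min' _ ((h1 _ (Nat.find_min' _ (Or.inl rfl))).1 (Nat.find_spec (ex2 n y'))))
      (Nat.find_min' _ ((h1 _ (Nat.find_min' _ (Or.inl rfl))).2 (Nat.find_spec (ex2 n y))))
  · simp only [Set.mem_iInter, Set.mem_iUnion]
    constructor
    · intro h
      have hev : ∀ i, ∀ᶠ n in atTop, g i n y = g i (n + 1) y := by
        intro i
        obtain ⟨j, hj⟩ := h i
        rw [hC2] at hj
        have hb : ∀ n, g i n y ≤ j := fun n =>
          Nat.find_min' _ (Or.inr fun k _ => Set.mem_iInter.1 hj k)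
        obtain ⟨b, n0, hn0⟩ := converges_of_monotone_of_bounded (gmono i y) hb
        filter_upwards [eventually_ge_atTop n0] with n hn
        rw [hn0 n hn, hn0 (n + 1) (by omega)]
      refine tendsto_atTop.2 fun M => ?_
      filter_upwards [(Finset.eventually_all (Finset.range M)).2 fun i _ => hev i,
        eventually_ge_atTop M] with n h1 h2
      by_contra hc
      push Not at hc
      rcases Nat.find_spec (ex2 n y) with h3 | h3
      · omega
      · exact h3 (h1 _ (Finset.mem_range.2 hc))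
    · intro h i
      obtain ⟨n0, hn0⟩ := eventually_atTop.1 (h.eventually_gt_atTop i)
      have hconst : ∀ n, n0 ≤ n → g i n y = g i n0 y := by
        intro n hn
        induction n, hn using Nat.le_induction with
        | base => rfl
        | succ n hn ih =>
          have := Nat.find_min (ex2 n y) (hn0 n hn)
          push Not at this
          rw [← this.2, ih]
      refine ⟨g i n0 y, ?_⟩
      rw [hC2]
      refine Set.mem_iInter.2 fun k => ?_
      have h1 := hconst (n0 + k + 1) (by omega)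
      rcases Nat.find_spec (ex1 i (n0 + k + 1) y) with h2 | h2
      · have := gle i n0 y
        change g i (n0 + k + 1) y = _ at h2
        omega
      · rw [← h1]; exact h2 k (by omega)

theorem closed_clopen {Y : Type*} [TopologicalSpace Y] [SecondCountableTopology Y]
    (hY : TopologicalSpace.IsTopologicalBasis {s : Set Y | IsClopen s})
    (G : Set Y) (hG : IsClosed G) : ∃ C : ℕ → Set Y, (∀ k, IsClopen (C k)) ∧ G = ⋂ k, C k := by
  obtain ⟨T, hT1, hT2, hT3⟩ := TopologicalSpace.isOpen_sUnion_countable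
    {s : Set Y | IsClopen s ∧ s ⊆ Gᶜ} (fun s hs => hs.1.isOpen)
  obtain ⟨f, hf⟩ := (hT1.insert ∅).exists_eq_range (Set.insert_nonempty _ _)
  have hf' : ∀ k, IsClopen (f k) ∧ f k ⊆ Gᶜ := by
    intro k
    have : f k ∈ insert ∅ T := hf ▸ Set.mem_range_self k
    rcases this with h | h
    · rw [h]; exact ⟨isClopen_empty, Set.empty_subset _⟩
    · exact hT2 h
  refine ⟨fun k => (f k)ᶜ, fun k => (hf' k).1.compl, ?_⟩
  ext y
  simp only [Set.mem_iInter, Set.mem_compl_iff]
  refine ⟨fun h k hk => (hf' k).2 hk h, fun h => ?_⟩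
  by_contra hy
  obtain ⟨s, hs1, hs2, hs3⟩ := hY.exists_subset_of_mem_open hy hG.isOpen_compl
  have : y ∈ ⋃₀ T := hT3 ▸ ⟨s, ⟨hs1, hs3⟩, hs2⟩
  obtain ⟨t, ht1, ht2⟩ := this
  obtain ⟨k, hk⟩ : t ∈ Set.range f := hf ▸ Set.mem_insert_of_mem _ ht1
  exact h k (hk ▸ ht2)

end Pool.Agent.Lib.helper23.UdA
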