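import Mathlib
import Pool.Agent.Lib.helper23.UdA

namespace Pool.Agent.Lib.helper23.UdB

open Filter Topology MeasureTheory Pool.Agent.Lib.helper23.DetA Pool.Agent.Lib.helper23.UdA

theorem conj_ee (x : ℝ) : (starRingEnd ℂ) (ee x) = ee (-x) := by
  unfold ee
  rw [← Complex.exp_conj, map_mul, Complex.conj_I, Complex.conj_ofReal]; congr 1
  push_cast; ring

theorem int_ee (φ l : ℝ) (hl : l ≠ 0) : ‖∫ t in (0 : ℝ)..1, ee (φ + l * t)‖ ≤ 1 / |l| := by
  have hc : (Complex.I * (2 * Real.pi * l : ℝ)) ≠ 0 :=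
    mul_ne_zero Complex.I_ne_zero (by exact_mod_cast mul_ne_zero (by positivity) hl)
  have e : ∀ t : ℝ, ee (φ + l * t) = ee φ * Complex.exp ((Complex.I * (2 * Real.pi * l : ℝ)) * t) := by
    intro t
    rw [ee_add]; congr 1
    unfold ee; congr 1; push_cast; ring
  simp only [e]
  rw [intervalIntegral.integral_const_mul, integral_exp_mul_complex hc, norm_mul, norm_ee, one_mul,
    norm_div, norm_mul, Complex.norm_I, one_mul, Complex.norm_real, Real.norm_eq_abs, abs_mul,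
    abs_of_pos (by positivity : 0 < 2 * Real.pi)]
  have h1 : ‖Complex.exp (Complex.I * (2 * Real.pi * l : ℝ) * (1 : ℝ)) -
      Complex.exp (Complex.I * (2 * Real.pi * l : ℝ) * (0 : ℝ))‖ ≤ 2 := by
    refine (norm_sub_le _ _).trans ?_
    simp only [Complex.ofReal_one, mul_one, Complex.ofReal_zero, mul_zero, Complex.exp_zero,
      norm_one, Complex.norm_exp_I_mul_ofReal]
    norm_num
  have h2 := abs_pos.2 hl
  rw [div_le_div_iff₀ (by positivity) h2]
  nlinarith [Real.pi_gt_three]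

theorem l2_bound (φ l : ℕ → ℝ) (v : ℕ) (c : ℝ)
    (hne : ∀ n N, v ≤ n → n < N → l N - l n ≠ 0)
    (h : ∀ N, ∑ n ∈ Finset.Ico v N, 1 / |l N - l n| ≤ c) (hc : 0 ≤ c) (N : ℕ) :
    ∫ t in (0 : ℝ)..1, ‖∑ n ∈ Finset.Ico v N, ee (φ n + l n * t)‖ ^ 2 ≤ N * (1 + 2 * c) := by
  have ce := continuous_ee
  induction N with
  | zero => simp
  | succ N ih =>
    by_cases hv : v ≤ N
    swap
    · rw [Finset.Ico_eq_empty (by omega)]
      simp only [Finset.sum_empty, norm_zero, ne_eq, OfNat.ofNat_ne_zero, not_false_eq_true,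
        zero_pow, intervalIntegral.integral_zero]
      positivity
    have e : ∀ t : ℝ, ‖∑ n ∈ Finset.Ico v (N + 1), ee (φ n + l n * t)‖ ^ 2 =
        ‖∑ n ∈ Finset.Ico v N, ee (φ n + l n * t)‖ ^ 2 + 1 +
        2 * (∑ n ∈ Finset.Ico v N, ee ((φ n - φ N) + (l n - l N) * t)).re := by
      intro t
      rw [Finset.sum_Ico_succ_top hv, Complex.sq_norm, Complex.normSq_add, Complex.sq_norm,
        ← Complex.sq_norm (ee _), norm_ee, one_pow, conj_ee, Finset.sum_mul]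
      congr 3
      refine Finset.sum_congr rfl fun n _ => ?_
      rw [← ee_add]; congr 1; ring
    simp only [e]
    have i1 : IntervalIntegrable (fun t : ℝ => ‖∑ n ∈ Finset.Ico v N, ee (φ n + l n * t)‖ ^ 2)
      volume 0 1 := Continuous.intervalIntegrable (by fun_prop) _ _
    have i2 : IntervalIntegrable (fun t : ℝ =>
      ∑ n ∈ Finset.Ico v N, ee ((φ n - φ N) + (l n - l N) * t)) volume 0 1 :=
      Continuous.intervalIntegrable (by fun_prop) _ _
    have i3 : IntervalIntegrable (fun t : ℝ =>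
      2 * (∑ n ∈ Finset.Ico v N, ee ((φ n - φ N) + (l n - l N) * t)).re) volume 0 1 :=
      Continuous.intervalIntegrable (by fun_prop) _ _
    rw [intervalIntegral.integral_add (i1.add intervalIntegrable_const) i3,
      intervalIntegral.integral_add i1 intervalIntegrable_const,
      intervalIntegral.integral_const_mul]
    have e2 : ∫ t in (0 : ℝ)..1, (∑ n ∈ Finset.Ico v N, ee ((φ n - φ N) + (l n - l N) * t)).re =
        (∫ t in (0 : ℝ)..1, ∑ n ∈ Finset.Ico v N, ee ((φ n - φ N) + (l n - l N) * t)).re :=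
      (Complex.reCLM.intervalIntegral_comp_comm i2)
    have h3 : (∫ t in (0 : ℝ)..1, ∑ n ∈ Finset.Ico v N,
        ee ((φ n - φ N) + (l n - l N) * t)).re ≤ c := by
      refine (Complex.re_le_norm _).trans ?_
      rw [intervalIntegral.integral_finsetSum fun n _ =>
        Continuous.intervalIntegrable (by fun_prop) _ _]
      refine (norm_sum_le _ _).trans ((Finset.sum_le_sum fun n hn => ?_).trans (h N))
      rw [Finset.mem_Ico] at hn
      rw [abs_sub_comm]
      exact int_ee _ _ fun h0 => hne n N hn.1 hn.2 (by linarith)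
    rw [e2]
    simp only [intervalIntegral.integral_const, sub_zero, smul_eq_mul, mul_one]
    push_cast
    linarith

theorem geom_le (B : ℝ) (hB : 1 < B) (N : ℕ) :
    ∑ n ∈ Finset.range N, B ^ n ≤ B ^ N / (B - 1) := by
  rw [geom_sum_eq hB.ne' N]
  exact div_le_div_of_nonneg_right (by linarith) (by linarith)

theorem lac_gap (β : ℝ) (hβ : 1 < |β|) (κ : ℝ) (v : ℕ) (hv : 1 / 2 ≤ |κ| * |β| ^ v) (n N : ℕ)
    (h1 : v ≤ n) (h2 : n < N) :
    (|β| - 1) / (2 * |β|) * (|β| ^ N / |β| ^ n) ≤ |κ * β ^ N - κ * β ^ n| := by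
  set B := |β| with hB
  have hB0 : 0 < B := by linarith
  obtain ⟨M, rfl⟩ : ∃ M, N = M + 1 := ⟨N - 1, by omega⟩
  have a1 : B ^ (M + 1) - B ^ n ≤ |β ^ (M + 1) - β ^ n| := by
    rw [hB, ← abs_pow, ← abs_pow]; exact abs_sub_abs_le_abs_sub _ _
  have a2 : B ^ n ≤ B ^ M := pow_le_pow_right₀ hβ.le (by omega)
  have a3 : B ^ v ≤ B ^ n := pow_le_pow_right₀ hβ.le h1
  have a4 : 1 / 2 ≤ |κ| * B ^ n := hv.trans (mul_le_mul_of_nonneg_left a3 (abs_nonneg _))
  have a5 : (0 : ℝ) < B ^ n := by positivity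
  have a6 : (0 : ℝ) < B ^ M := by positivity
  rw [← mul_sub, abs_mul]
  have a7 : B ^ M * (B - 1) ≤ |β ^ (M + 1) - β ^ n| := by rw [pow_succ] at a1; linarith
  have a8 : 1 / (2 * B ^ n) ≤ |κ| := by rw [div_le_iff₀ (by positivity)]; linarith
  refine le_trans (le_of_eq ?_) (mul_le_mul a8 a7 (by nlinarith) (abs_nonneg _))
  rw [pow_succ]; field_simp

theorem lac_sum (β : ℝ) (hβ : 1 < |β|) (κ : ℝ) (v : ℕ) (hv : 1 / 2 ≤ |κ| * |β| ^ v) (N : ℕ) :
    ∑ n ∈ Finset.Ico v N, 1 / |κ * β ^ N - κ * β ^ n| ≤ 2 * |β| / (|β| - 1) ^ 2 := by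
  set B := |β| with hB
  have hB0 : 0 < B := by linarith
  have hB1 : 0 < B - 1 := by linarith
  calc ∑ n ∈ Finset.Ico v N, 1 / |κ * β ^ N - κ * β ^ n|
      ≤ ∑ n ∈ Finset.Ico v N, 2 * B / (B - 1) / B ^ N * B ^ n := by
        refine Finset.sum_le_sum fun n hn => ?_
        rw [Finset.mem_Ico] at hn
        refine (one_div_le_one_div_of_le (by positivity)
          (lac_gap β hβ κ v hv n N hn.1 hn.2)).trans (le_of_eq ?_)
        rw [← hB]; field_simp
    _ ≤ ∑ n ∈ Finset.range N, 2 * B / (B - 1) / B ^ N * B ^ n :=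
        Finset.sum_le_sum_of_subset_of_nonneg (fun n hn => Finset.mem_range.2 (Finset.mem_Ico.1 hn).2)
          fun _ _ _ => by positivity
    _ ≤ 2 * B / (B - 1) / B ^ N * (B ^ N / (B - 1)) := by
        rw [← Finset.mul_sum]
        exact mul_le_mul_of_nonneg_left (geom_le B hβ N) (by positivity)
    _ = _ := by field_simp

noncomputable def tm (A β : ℝ) (k : ℕ) : ℕ := ⌈k * (Real.log A / Real.log |β|)⌉₊

theorem le_tm (A β : ℝ) (hA : 1 < A) (hβ : 1 < |β|) (k : ℕ) : A ^ k ≤ |β| ^ tm A β k := by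
  have h1 := Real.log_pos hβ
  rw [← Real.log_le_log_iff (by positivity) (by positivity), Real.log_pow, Real.log_pow]
  have := Nat.le_ceil (k * (Real.log A / Real.log |β|))
  rw [← mul_div_assoc, div_le_iff₀ h1] at this
  rw [tm, ← mul_div_assoc]
  exact this

theorem tm_le (A β : ℝ) (hA : 1 < A) (hβ : 1 < |β|) (k : ℕ) : |β| ^ tm A β k ≤ |β| * A ^ k := by
  have h1 := Real.log_pos hβ
  have h2 := Real.log_pos hA
  rw [← Real.log_le_log_iff (by positivity) (by positivity), Real.log_mul (by positivity)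
    (by positivity), Real.log_pow, Real.log_pow]
  have := (Nat.ceil_lt_add_one (by positivity : 0 ≤ k * (Real.log A / Real.log |β|))).le
  have h3 := mul_le_mul_of_nonneg_right this h1.le
  rw [add_mul, mul_assoc, div_mul_cancel₀ _ h1.ne'] at h3
  rw [tm]; linarith

theorem tm_top (A β : ℝ) (hA : 1 < A) (hβ : 1 < |β|) : Tendsto (tm A β) atTop atTop :=
  tendsto_nat_ceil_atTop.comp (tendsto_natCast_atTop_atTop.atTop_mul_const
    (div_pos (Real.log_pos hA) (Real.log_pos hβ)))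

theorem exists_le_int (F : ℝ → ℝ) (hF : Continuous F) :
    ∃ t ∈ Set.Icc (0 : ℝ) 1, F t ≤ ∫ x in (0 : ℝ)..1, F x := by
  obtain ⟨t, ht, hm⟩ := isCompact_Icc.exists_isMinOn (Set.nonempty_Icc.2 zero_le_one)
    (hF.continuousOn (s := Set.Icc (0 : ℝ) 1))
  refine ⟨t, ht, ?_⟩
  have := intervalIntegral.integral_mono_on zero_le_one (intervalIntegrable_const (μ := volume)
    (c := F t)) (hF.intervalIntegrable 0 1) fun x hx => hm hx
  simpa using this

theorem rand_step (β : ℕ → ℝ) (hβ : ∀ i, 1 < |β i|) (A : ℝ) (hA : 1 < A) (s : ℕ) :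
    ∃ K0 : ℕ, ∀ k, K0 ≤ k → ∀ (a : ℝ) (J : ℕ), ∃ a', a ≤ a' ∧ a' ≤ a + 1 / A ^ k / 2 ∧
      ∀ i ≤ s, ∀ h : ℤ, h ≠ 0 → h.natAbs ≤ s → ∀ N, tm A (β i) k ≤ N → N ≤ J →
        ‖∑ n ∈ Finset.Ico (tm A (β i) k) N, ee (h * (a' * β i ^ n))‖ ≤ 2 / ((s : ℝ) + 1) * N := by
  have ce := continuous_ee
  set ε : ℝ := 1 / ((s : ℝ) + 1) with hε
  have hε0 : 0 < ε := by positivity
  let c : ℕ → ℝ := fun i => 2 * |β i| / (|β i| - 1) ^ 2
  have hc : ∀ i, 0 ≤ c i := fun i => by positivity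
  let I : Finset (ℕ × ℤ) := Finset.range (s + 1) ×ˢ (Finset.Icc (-(s : ℤ)) s).erase 0
  set T : ℝ := ∑ q ∈ I, (1 + 2 * c q.1) with hT
  have hT0 : 0 ≤ T := Finset.sum_nonneg fun q _ => by have := hc q.1; positivity
  obtain ⟨J0, hJ0⟩ := exists_nat_ge (T / ε ^ 2 + 2 / ε + 1)
  have hx1 : 0 ≤ T / ε ^ 2 := by positivity
  have hx2 : 0 ≤ 2 / ε := by positivity
  have hJ1 : (1 : ℝ) ≤ J0 := by linarith
  have hJ2 : T / J0 ≤ ε ^ 2 := by
    rw [div_le_iff₀ (by linarith), mul_comm, ← div_le_iff₀ (by positivity)]; linarith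
  have hJ3 : 2 ≤ ε * J0 := by rw [mul_comm, ← div_le_iff₀ hε0]; linarith
  obtain ⟨K0, hK0⟩ := eventually_atTop.1 ((Finset.eventually_all (Finset.range (s + 1))).2
    fun i _ => (tm_top A (β i) hA (hβ i)).eventually_ge_atTop (J0 ^ 2))
  refine ⟨K0, fun k hk a J => ?_⟩
  set δ : ℝ := 1 / A ^ k / 2 with hδ
  have hδ0 : 0 < δ := by positivity
  let S : ℕ × ℤ → ℕ → ℝ → ℂ := fun q N t =>
    ∑ n ∈ Finset.Ico (tm A (β q.1) k) N, ee (q.2 * a * β q.1 ^ n + q.2 * δ * β q.1 ^ n * t)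
  let F : ℝ → ℝ := fun t => ∑ q ∈ I, ∑ j ∈ Finset.Ioc J0 (J0 + J), ‖S q (j ^ 2) t‖ ^ 2 / (j : ℝ) ^ 4
  have hSc : ∀ q N, Continuous (S q N) := fun q N => by simp only [S]; fun_prop
  have hFc : ∀ q (j : ℕ), Continuous fun t => ‖S q (j ^ 2) t‖ ^ 2 / (j : ℝ) ^ 4 := fun q j =>
    ((hSc q _).norm.pow 2).div_const _
  obtain ⟨t, ht, hF⟩ := exists_le_int F
    (continuous_finsetSum _ fun q _ => continuous_finsetSum _ fun j _ => hFc q j)
  have hint : ∫ x in (0 : ℝ)..1, F x ≤ ε ^ 2 := by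
    simp only [F]
    rw [intervalIntegral.integral_finsetSum fun q _ =>
      (continuous_finsetSum _ fun j _ => hFc q j).intervalIntegrable _ _]
    refine le_trans (Finset.sum_le_sum (g := fun q => (1 + 2 * c q.1) / J0) fun q hq => ?_) ?_
    · rw [intervalIntegral.integral_finsetSum fun j _ => (hFc q j).intervalIntegrable _ _]
      have hq2 : q.2 ≠ 0 := Finset.ne_of_mem_erase (Finset.mem_product.1 hq).2
      have hv : 1 / 2 ≤ |q.2 * δ| * |β q.1| ^ tm A (β q.1) k := by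
        have h1 := le_tm A (β q.1) hA (hβ _) k
        have h2 : (1 : ℝ) ≤ |(q.2 : ℝ)| := by exact_mod_cast Int.one_le_abs hq2
        have h3 : δ * A ^ k = 1 / 2 := by rw [hδ]; field_simp
        rw [abs_mul, abs_of_pos hδ0, ← h3]
        exact mul_le_mul (le_mul_of_one_le_left hδ0.le h2) h1 (by positivity) (by positivity)
      have hl := l2_bound (fun n => q.2 * a * β q.1 ^ n) (fun n => q.2 * δ * β q.1 ^ n)
        (tm A (β q.1) k) (c q.1) (fun n N h1 h2 => by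
          have := lac_gap (β q.1) (hβ _) (q.2 * δ) _ hv n N h1 h2
          have h3 := hβ q.1
          have h4 : 0 < (|β q.1| - 1) / (2 * |β q.1|) * (|β q.1| ^ N / |β q.1| ^ n) := by
            have : 0 < |β q.1| - 1 := by linarith
            positivity
          exact abs_pos.1 (h4.trans_le this)) (lac_sum _ (hβ _) _ _ hv) (hc _)
      refine le_trans (Finset.sum_le_sum (g := fun j : ℕ => (1 + 2 * c q.1) * ((j : ℝ) ^ 2)⁻¹)
        fun j hj => ?_) ?_
      · have hj0 : (0 : ℝ) < j := by exact_mod_cast (by have := (Finset.mem_Ioc.1 hj).1; omega)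
        rw [intervalIntegral.integral_div, div_le_iff₀ (by positivity)]
        refine (hl (j ^ 2)).trans (le_of_eq ?_)
        push_cast; field_simp
      · rw [← Finset.mul_sum, div_eq_mul_inv]
        refine mul_le_mul_of_nonneg_left ((sum_Ioc_inv_sq_le_sub (α := ℝ)
          (by exact_mod_cast (by linarith : (0 : ℝ) < J0).ne') (by omega)).trans ?_)
          (by have := hc q.1; positivity)
        exact sub_le_self _ (by positivity)
    · rw [← Finset.sum_div]; exact hJ2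
  refine ⟨a + δ * t, by nlinarith [ht.1], by nlinarith [ht.2], fun i hi h hh hhs N hN1 hN2 => ?_⟩
  have hq : (i, h) ∈ I := by
    simp only [I, Finset.mem_product, Finset.mem_range, Finset.mem_erase, Finset.mem_Icc]
    omega
  have eS : ∀ M, ∑ n ∈ Finset.Ico (tm A (β i) k) M, ee (h * ((a + δ * t) * β i ^ n)) =
      S (i, h) M t := fun M => Finset.sum_congr rfl fun n _ => by congr 1; ring
  have hv := hK0 k hk i (Finset.mem_range.2 (by omega))
  set v := tm A (β i) k with hv'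
  set j := Nat.sqrt N with hj
  have j1 : j ^ 2 ≤ N := Nat.sqrt_le' N
  have j2 : N < (j + 1) ^ 2 := Nat.lt_succ_sqrt' N
  have j3 : J0 ≤ j := Nat.le_sqrt'.2 (hv.trans hN1)
  have j1' : (j : ℝ) ^ 2 ≤ N := by exact_mod_cast j1
  have j3' : (J0 : ℝ) ≤ j := by exact_mod_cast j3
  have j4 : 2 * (j : ℝ) ≤ ε * N := by
    have : ε * J0 ≤ ε * j := mul_le_mul_of_nonneg_left j3' hε0.le
    have : ε * j ^ 2 ≤ ε * N := mul_le_mul_of_nonneg_left j1' hε0.le
    nlinarith
  have tail : ∀ w, j ^ 2 ≤ w → ‖∑ n ∈ Finset.Ico w N, ee (h * ((a + δ * t) * β i ^ n))‖ ≤ 2 * j := by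
    intro w hw
    refine (norm_sum_le _ _).trans ?_
    simp only [norm_ee, Finset.sum_const, Nat.card_Ico, nsmul_eq_mul, mul_one]
    have : N - w ≤ 2 * j := by
      have : (j + 1) ^ 2 = j ^ 2 + 2 * j + 1 := by ring
      omega
    exact_mod_cast this
  have e2 : 2 / ((s : ℝ) + 1) * N = ε * N + ε * N := by rw [hε]; ring
  rw [e2]
  by_cases hjv : j ^ 2 ≤ v
  · have := tail v hjv
    have : 0 ≤ ε * N := by positivity
    linarith
  · push Not at hjv
    rw [← Finset.sum_Ico_consecutive _ hjv.le j1, eS]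
    have hjm : j ∈ Finset.Ioc J0 (J0 + J) := by
      rw [Finset.mem_Ioc]
      have := Nat.sqrt_le_self N
      refine ⟨?_, by omega⟩
      exact lt_of_pow_lt_pow_left₀ 2 (Nat.zero_le _) (hv.trans_lt hjv)
    have b1 : ‖S (i, h) (j ^ 2) t‖ ^ 2 / (j : ℝ) ^ 4 ≤ ε ^ 2 := by
      refine le_trans ?_ (hF.trans hint)
      refine le_trans ?_ (Finset.single_le_sum (f := fun q => ∑ j ∈ Finset.Ioc J0 (J0 + J),
        ‖S q (j ^ 2) t‖ ^ 2 / (j : ℝ) ^ 4) (fun q _ => Finset.sum_nonneg fun _ _ => by positivity) hq)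
      exact Finset.single_le_sum (f := fun j : ℕ => ‖S (i, h) (j ^ 2) t‖ ^ 2 / (j : ℝ) ^ 4)
        (fun _ _ => by positivity) hjm
    have b2 : ‖S (i, h) (j ^ 2) t‖ ≤ ε * j ^ 2 := by
      have hj0 : (0 : ℝ) < j := by linarith
      rw [div_le_iff₀ (by positivity)] at b1
      refine le_of_sq_le_sq (by linarith [show (ε * (j : ℝ) ^ 2) ^ 2 = ε ^ 2 * j ^ 4 by ring])
        (by positivity)
    have b3 := mul_le_mul_of_nonneg_left j1' hε0.le
    linarith [norm_add_le (S (i, h) (j ^ 2) t)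
      (∑ n ∈ Finset.Ico (j ^ 2) N, ee (h * ((a + δ * t) * β i ^ n))), tail _ le_rfl]

theorem vary (β A : ℝ) (hβ : 1 < |β|) (hA : 1 < A) (k : ℕ) (h : ℤ) (ξ a : ℝ)
    (hξ : |ξ - a| ≤ 1 / A ^ k) (v N : ℕ) (hN : N ≤ tm A β k) :
    ‖∑ n ∈ Finset.Ico v N, ee (h * (ξ * β ^ n))‖ ≤ ‖∑ n ∈ Finset.Ico v N, ee (h * (a * β ^ n))‖ +
      2 * Real.pi * |(h : ℝ)| * (|β| / (|β| - 1)) := by
  have h0 : 0 < |β| - 1 := by linarith
  rw [← sub_le_iff_le_add']
  refine (norm_sub_norm_le _ _).trans ?_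
  rw [← Finset.sum_sub_distrib]
  refine (norm_sum_le _ _).trans ?_
  calc ∑ n ∈ Finset.Ico v N, ‖ee (h * (ξ * β ^ n)) - ee (h * (a * β ^ n))‖
      ≤ ∑ n ∈ Finset.Ico v N, 2 * Real.pi * |(h : ℝ)| * (1 / A ^ k) * |β| ^ n := by
        refine Finset.sum_le_sum fun n _ => (ee_lip _ _).trans ?_
        rw [← mul_sub, ← sub_mul, abs_mul, abs_mul, abs_pow]
        calc 2 * Real.pi * (|(h : ℝ)| * (|ξ - a| * |β| ^ n))
            ≤ 2 * Real.pi * (|(h : ℝ)| * (1 / A ^ k * |β| ^ n)) := by gcongr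
          _ = _ := by ring
    _ ≤ ∑ n ∈ Finset.range (tm A β k), 2 * Real.pi * |(h : ℝ)| * (1 / A ^ k) * |β| ^ n :=
        Finset.sum_le_sum_of_subset_of_nonneg
          (fun n hn => Finset.mem_range.2 ((Finset.mem_Ico.1 hn).2.trans_le hN))
          fun _ _ _ => by positivity
    _ ≤ 2 * Real.pi * |(h : ℝ)| * (1 / A ^ k) * (|β| * A ^ k / (|β| - 1)) := by
        rw [← Finset.mul_sum]
        refine mul_le_mul_of_nonneg_left ((geom_le _ hβ _).trans ?_) (by positivity)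
        exact div_le_div_of_nonneg_right (tm_le A β hA hβ k) h0.le
    _ = _ := by field_simp

theorem glue (z : ℕ → ℂ) (u : ℕ → ℕ) (hu : Tendsto u atTop atTop)
    (h2 : ∀ᶠ s in atTop, 2 * u s ≤ u (s + 1))
    (h : ∀ ε : ℝ, 0 < ε → ∀ᶠ s in atTop, ∀ N, u s ≤ N → N ≤ u (s + 1) →
      ‖∑ n ∈ Finset.Ico (u s) N, z n‖ ≤ ε * N) :
    Tendsto (fun N : ℕ => (N : ℝ)⁻¹ • ∑ n ∈ Finset.range N, z n) atTop (𝓝 0) := by
  classical
  rw [NormedAddGroup.tendsto_nhds_zero]
  intro ε hε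
  obtain ⟨s0, hs0⟩ := eventually_atTop.1 ((h (ε / 4) (by positivity)).and h2)
  set K := ‖∑ n ∈ Finset.range (u s0), z n‖ with hK
  have h3 : ∀ s, s0 ≤ s → ‖∑ n ∈ Finset.range (u s), z n‖ ≤ K + 2 * (ε / 4) * u s := by
    intro s hs
    induction s, hs using Nat.le_induction with
    | base => exact le_add_of_nonneg_right (by positivity)
    | succ s hs ih =>
      obtain ⟨a1, a2⟩ := hs0 s hs
      rw [← Finset.sum_range_add_sum_Ico _ (by omega : u s ≤ u (s + 1))]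
      have a3 := a1 _ (by omega) le_rfl
      have a4 : 2 * (u s : ℝ) ≤ u (s + 1) := by exact_mod_cast a2
      have a5 := mul_le_mul_of_nonneg_left a4 (by positivity : 0 ≤ ε / 4)
      linarith [norm_add_le (∑ n ∈ Finset.range (u s), z n) (∑ n ∈ Finset.Ico (u s) (u (s + 1)), z n)]
  obtain ⟨N0, hN0⟩ := exists_nat_gt (K / (ε / 4))
  filter_upwards [eventually_ge_atTop (u s0), eventually_gt_atTop N0] with N hN1 hN2
  have ex : ∃ t, N < u (s0 + t + 1) := by
    obtain ⟨t, ht⟩ := eventually_atTop.1 (hu.eventually_gt_atTop N)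
    exact ⟨t, ht _ (by omega)⟩
  have b1 := Nat.find_spec ex
  have b2 : u (s0 + Nat.find ex) ≤ N := by
    rcases Nat.eq_zero_or_eq_succ_pred (Nat.find ex) with h0 | h0
    · rw [h0]; exact hN1
    · have := Nat.find_min ex (m := (Nat.find ex).pred) (by omega)
      rw [h0]; exact not_lt.1 this
  set s := s0 + Nat.find ex
  have b3 := (hs0 s (by omega)).1 N b2 b1.le
  have b4 := h3 s (by omega)
  have b5 : (u s : ℝ) ≤ N := by exact_mod_cast b2
  have b6 : (N0 : ℝ) < N := by exact_mod_cast hN2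
  have hN' : (0 : ℝ) < N := lt_of_le_of_lt (Nat.cast_nonneg _) b6
  rw [div_lt_iff₀ (by positivity)] at hN0
  rw [norm_smul, Real.norm_eq_abs, abs_of_nonneg (by positivity), inv_mul_lt_iff₀ hN',
    ← Finset.sum_range_add_sum_Ico _ b2]
  have b7 := norm_add_le (∑ n ∈ Finset.range (u s), z n) (∑ n ∈ Finset.Ico (u s) N, z n)
  nlinarith

end Pool.Agent.Lib.helper23.UdB
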