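import Mathlib
import Pool.Agent.Lib.helper23.UdB

namespace Pool.Agent.Lib.helper23.UdC

open Filter Topology MeasureTheory Pool.Agent.Lib.helper23.DetA Pool.Agent.Lib.helper23.UdA
  Pool.Agent.Lib.helper23.UdB

theorem exists_p (A : ℝ) (hA : 1 < A) : ∃ p : ℕ, Even p ∧ 1 ≤ p ∧ 8 * (p : ℝ) ≤ A ^ p := by
  have h := tendsto_pow_const_div_const_pow_of_one_lt 1 hA
  obtain ⟨n, hn⟩ := eventually_atTop.1 (h.eventually (ge_mem_nhds (by norm_num : (0 : ℝ) < 1 / 8)))
  refine ⟨2 * (n + 1), even_two_mul _, by omega, ?_⟩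
  have := hn (2 * (n + 1)) (by omega)
  rw [div_le_iff₀ (by positivity), pow_one] at this
  linarith

theorem bias_one (α : ℝ) (hα : 1 < |α|) (p : ℕ) (hp : Even p) (hp1 : 1 ≤ p)
    (hp2 : 8 * (p : ℝ) ≤ |α| ^ p) (k : ℕ) (hk : Even k) (a : ℝ) :
    ∃ a', a ≤ a' ∧ a' + 1 / |α| ^ (k + 2 * p) ≤ a + 1 / |α| ^ k ∧
      ∀ ξ, a' ≤ ξ → ξ ≤ a' + 1 / |α| ^ (k + 2 * p) →
        Int.fract (ξ * α ^ (k + p)) ≤ 1 / (8 * (p : ℝ)) := by
  set A := |α| with hA
  have hA0 : 0 < A := by linarith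
  have hp' : (1 : ℝ) ≤ p := by exact_mod_cast hp1
  have e : α ^ (k + p) = A ^ (k + p) := ((hk.add hp).pow_abs α).symm
  have hl : 0 < A ^ (k + p) := by positivity
  have h1 : 1 / A ^ (k + p) ≤ 1 / A ^ k / 2 := by
    rw [div_div, pow_add]
    exact one_div_le_one_div_of_le (by positivity)
      (mul_le_mul_of_nonneg_left (by linarith) (by positivity))
  have h2 : 1 / A ^ (k + 2 * p) ≤ 1 / A ^ (k + p) :=
    one_div_le_one_div_of_le hl (pow_le_pow_right₀ hα.le (by omega))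
  refine ⟨⌈a * A ^ (k + p)⌉ / A ^ (k + p), ?_, ?_, fun ξ h3 h4 => ?_⟩
  · rw [le_div_iff₀ hl]; exact Int.le_ceil _
  · have : (⌈a * A ^ (k + p)⌉ : ℝ) / A ^ (k + p) ≤ a + 1 / A ^ (k + p) := by
      rw [div_le_iff₀ hl, add_mul, one_div_mul_cancel hl.ne']
      exact (Int.ceil_lt_add_one _).le
    linarith
  · rw [e]
    set z := ⌈a * A ^ (k + p)⌉
    rw [div_le_iff₀ hl] at h3
    have h5 := mul_le_mul_of_nonneg_right h4 hl.le
    have e2 : 1 / A ^ (k + 2 * p) * A ^ (k + p) = 1 / A ^ p := by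
      rw [two_mul, ← add_assoc, pow_add _ _ p]; field_simp
    rw [add_mul, div_mul_cancel₀ _ hl.ne', e2] at h5
    have h6 : 1 / A ^ p ≤ 1 / (8 * (p : ℝ)) := one_div_le_one_div_of_le (by positivity) hp2
    have h7 : 1 / (8 * (p : ℝ)) < 1 := by rw [div_lt_one (by positivity)]; linarith
    have e3 : Int.fract (ξ * A ^ (k + p)) = ξ * A ^ (k + p) - z := by
      rw [Int.fract_eq_iff]
      exact ⟨by linarith, by linarith, z, by ring⟩
    rw [e3]; linarith

theorem bias (α : ℝ) (hα : 1 < |α|) (p : ℕ) (hp : Even p) (hp1 : 1 ≤ p)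
    (hp2 : 8 * (p : ℝ) ≤ |α| ^ p) (k : ℕ) (hk : Even k) (a : ℝ) (l : ℕ) :
    ∃ a', a ≤ a' ∧ a' + 1 / |α| ^ (k + 2 * p * l) ≤ a + 1 / |α| ^ k ∧
      ∀ ξ, a' ≤ ξ → ξ ≤ a' + 1 / |α| ^ (k + 2 * p * l) → ∀ j < l,
        Int.fract (ξ * α ^ (k + 2 * p * j + p)) ≤ 1 / (8 * (p : ℝ)) := by
  induction l with
  | zero => exact ⟨a, le_rfl, by simp, fun _ _ _ j hj => absurd hj (by omega)⟩
  | succ l ih =>
    obtain ⟨a1, h1, h2, h3⟩ := ih
    obtain ⟨a2, g1, g2, g3⟩ := bias_one α hα p hp hp1 hp2 (k + 2 * p * l)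
      (hk.add ((even_two_mul p).mul_right l)) a1
    have e : k + 2 * p * (l + 1) = k + 2 * p * l + 2 * p := by ring
    rw [e]
    refine ⟨a2, h1.trans g1, g2.trans h2, fun ξ b1 b2 j hj => ?_⟩
    rcases Nat.lt_succ_iff_lt_or_eq.1 hj with h | rfl
    · exact h3 ξ (g1.trans b1) (b2.trans g2) j h
    · exact g3 ξ b1 b2

def k1 (p m k : ℕ) : ℕ := k + 2 * p * (k / (m + 1) + 1)

theorem stage (β : ℕ → ℝ) (hβ : ∀ i, 1 < |β i|) (p : ℕ) (hp : Even p) (hp1 : 1 ≤ p)
    (hp2 : 8 * (p : ℝ) ≤ |β 0| ^ p) :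
    ∃ (K0 : ℕ → ℕ) (nx : ℕ → ℕ → ℝ → ℕ → ℝ), ∀ s m a k, Even k → K0 s ≤ k →
      a ≤ nx s m a k ∧ nx s m a k + 1 / |β 0| ^ (2 * (2 * k1 p m k + K0 (s + 1))) ≤
        a + 1 / |β 0| ^ k ∧
      ∀ ξ, nx s m a k ≤ ξ → ξ ≤ nx s m a k + 1 / |β 0| ^ (2 * (2 * k1 p m k + K0 (s + 1))) →
        (∀ j < k / (m + 1) + 1, Int.fract (ξ * β 0 ^ (k + 2 * p * j + p)) ≤ 1 / (8 * (p : ℝ))) ∧
        ∀ i ≤ s, ∀ h : ℤ, h ≠ 0 → h.natAbs ≤ s → ∀ N, tm |β 0| (β i) (k1 p m k) ≤ N →
          N ≤ tm |β 0| (β i) (2 * (2 * k1 p m k + K0 (s + 1))) →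
          ‖∑ n ∈ Finset.Ico (tm |β 0| (β i) (k1 p m k)) N, ee (h * (ξ * β i ^ n))‖ ≤
            2 / ((s : ℝ) + 1) * N + 2 * Real.pi * |(h : ℝ)| * (|β i| / (|β i| - 1)) := by
  choose K0 hK0 using rand_step β hβ |β 0| (hβ 0)
  refine ⟨K0, ?_⟩
  have key : ∀ s m a k, ∃ a'', Even k → K0 s ≤ k →
      a ≤ a'' ∧ a'' + 1 / |β 0| ^ (2 * (2 * k1 p m k + K0 (s + 1))) ≤ a + 1 / |β 0| ^ k ∧
      ∀ ξ, a'' ≤ ξ → ξ ≤ a'' + 1 / |β 0| ^ (2 * (2 * k1 p m k + K0 (s + 1))) →
        (∀ j < k / (m + 1) + 1, Int.fract (ξ * β 0 ^ (k + 2 * p * j + p)) ≤ 1 / (8 * (p : ℝ))) ∧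
        ∀ i ≤ s, ∀ h : ℤ, h ≠ 0 → h.natAbs ≤ s → ∀ N, tm |β 0| (β i) (k1 p m k) ≤ N →
          N ≤ tm |β 0| (β i) (2 * (2 * k1 p m k + K0 (s + 1))) →
          ‖∑ n ∈ Finset.Ico (tm |β 0| (β i) (k1 p m k)) N, ee (h * (ξ * β i ^ n))‖ ≤
            2 / ((s : ℝ) + 1) * N + 2 * Real.pi * |(h : ℝ)| * (|β i| / (|β i| - 1)) := by
    intro s m a k
    by_cases hk : Even k ∧ K0 s ≤ k
    swap
    · exact ⟨0, fun h1 h2 => absurd ⟨h1, h2⟩ hk⟩
    obtain ⟨a1, b1, b2, b3⟩ := bias (β 0) (hβ 0) p hp hp1 hp2 k hk.1 a (k / (m + 1) + 1)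
    change a1 + 1 / |β 0| ^ k1 p m k ≤ _ at b2
    set k2 := 2 * (2 * k1 p m k + K0 (s + 1)) with hk2
    have hkk : k + 2 * p ≤ k1 p m k := by
      unfold k1; rw [mul_add, mul_one]; omega
    obtain ⟨a2, c1, c2, c3⟩ := hK0 s (k1 p m k) (by omega) a1
      ((Finset.range (s + 1)).sup fun i => tm |β 0| (β i) k2)
    have hA0 : 0 < |β 0| := by linarith [hβ 0]
    have hp' : (1 : ℝ) ≤ p := by exact_mod_cast hp1
    have d1 : 1 / |β 0| ^ k2 ≤ 1 / |β 0| ^ k1 p m k / 2 := by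
      rw [div_div]
      refine one_div_le_one_div_of_le (by positivity) ?_
      refine le_trans ?_ (pow_le_pow_right₀ (hβ 0).le (by omega : k1 p m k + p ≤ k2))
      rw [pow_add]
      exact mul_le_mul_of_nonneg_left (by linarith) (by positivity)
    refine ⟨a2, fun _ _ => ⟨b1.trans c1, by linarith, fun ξ e1 e2 => ⟨b3 ξ (c1.trans e1) ?_, ?_⟩⟩⟩
    · change ξ ≤ a1 + 1 / |β 0| ^ k1 p m k
      linarith
    · intro i hi h hh hhs N hN1 hN2
      refine (vary (β i) |β 0| (hβ i) (hβ 0) k2 h ξ a2 (by rw [abs_le]; constructor <;> linarith)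
        _ N hN2).trans (add_le_add (c3 i hi h hh hhs N hN1 (hN2.trans ?_)) le_rfl)
      exact Finset.le_sup (f := fun i => tm |β 0| (β i) k2) (Finset.mem_range.2 (by omega))
  choose nx hnx using key
  exact ⟨nx, hnx⟩

theorem hard (β : ℕ → ℝ) (hβ : ∀ i, 1 < |β i|) :
    ∃ f : (ℕ → ℕ) → ℝ, Continuous f ∧
      (∀ x, Tendsto x atTop atTop → ∀ i, UD fun n => f x * β i ^ n) ∧
      (∀ x, ¬ Tendsto x atTop atTop → ¬ UD fun n => f x * β 0 ^ n) := by
  obtain ⟨p, hp, hp1, hp2⟩ := exists_p |β 0| (hβ 0)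
  obtain ⟨K0, nx, hnx⟩ := stage β hβ p hp hp1 hp2
  set A := |β 0| with hA
  have hA1 : 1 < A := hβ 0
  have hA0 : 0 < A := by linarith
  have hp' : (1 : ℝ) ≤ p := by exact_mod_cast hp1
  let st : (ℕ → ℕ) → ℕ → ℝ × ℕ := fun x s => Nat.rec (0, 2 * K0 0)
    (fun s q => (nx s (x s) q.1 q.2, 2 * (2 * k1 p (x s) q.2 + K0 (s + 1)))) s
  have st1 : ∀ x s, (st x (s + 1)).1 = nx s (x s) (st x s).1 (st x s).2 := fun _ _ => rfl
  have st2 : ∀ x s, (st x (s + 1)).2 = 2 * (2 * k1 p (x s) (st x s).2 + K0 (s + 1)) :=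
    fun _ _ => rfl
  have inv : ∀ x s, Even (st x s).2 ∧ K0 s ≤ (st x s).2 := by
    intro x s
    cases s with
    | zero => exact ⟨even_two_mul _, by change K0 0 ≤ 2 * K0 0; omega⟩
    | succ s => rw [st2]; exact ⟨even_two_mul _, by omega⟩
  have spec := fun x s => hnx s (x s) (st x s).1 (st x s).2 (inv x s).1 (inv x s).2
  simp only [← st1, ← st2] at spec
  have hk1 : ∀ m k, k + 2 * p ≤ k1 p m k := fun m k => by
    unfold k1; rw [mul_add, mul_one]; omega
  have grow : ∀ x s, 4 * (st x s).2 + 1 ≤ (st x (s + 1)).2 := fun x s => by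
    rw [st2]; have := hk1 (x s) (st x s).2; omega
  have kge : ∀ x s, s ≤ (st x s).2 := by
    intro x s
    induction s with
    | zero => omega
    | succ s ih => have := grow x s; omega
  have ktop : ∀ x, Tendsto (fun s => (st x s).2) atTop atTop := fun x =>
    tendsto_atTop_mono (kge x) tendsto_id
  have mono : ∀ x, Monotone fun s => (st x s).1 := fun x =>
    monotone_nat_of_le_succ fun s => (spec x s).1
  have anti : ∀ x, Antitone fun s => (st x s).1 + 1 / A ^ (st x s).2 := fun x =>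
    antitone_nat_of_succ_le fun s => (spec x s).2.1
  have nest : ∀ x s t, (st x t).1 ≤ (st x s).1 + 1 / A ^ (st x s).2 := by
    intro x s t
    have h1 : (0 : ℝ) ≤ 1 / A ^ (st x (max s t)).2 := by positivity
    have h2 := mono x (le_max_right s t)
    have h3 := anti x (le_max_left s t)
    simp only at h2 h3
    linarith
  let f : (ℕ → ℕ) → ℝ := fun x => ⨆ s, (st x s).1
  have f1 : ∀ x s, (st x s).1 ≤ f x := fun x s =>
    le_ciSup (f := fun s => (st x s).1) ⟨_, by rintro _ ⟨t, rfl⟩; exact nest x 0 t⟩ s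
  have f2 : ∀ x s, f x ≤ (st x s).1 + 1 / A ^ (st x s).2 := fun x s => ciSup_le (nest x s)
  have loc : ∀ x x' s, (∀ t < s, x' t = x t) → st x' s = st x s := by
    intro x x' s h
    induction s with
    | zero => rfl
    | succ s ih =>
      have := ih fun t ht => h t (by omega)
      refine Prod.ext ?_ ?_
      · rw [st1, st1, this, h s (by omega)]
      · rw [st2, st2, this, h s (by omega)]
  have good := fun x s => (spec x s).2.2 (f x) (f1 x (s + 1)) (f2 x (s + 1))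
  refine ⟨f, continuous_iff_continuousAt.2 fun x => ?_, fun x hx i => ?_, fun x hx hU => ?_⟩
  · rw [ContinuousAt, Metric.tendsto_nhds]
    intro ε hε
    obtain ⟨s, hs⟩ := pow_unbounded_of_one_lt (1 / ε) hA1
    have : ∀ᶠ x' in 𝓝 x, ∀ t ∈ Finset.range s, x' t = x t :=
      (Finset.eventually_all _).2 fun t _ =>
        ((continuous_apply t).continuousAt (x := x)).eventually
          ((isOpen_discrete {x t}).mem_nhds rfl)
    filter_upwards [this] with x' hx'
    have e := loc x x' s fun t ht => hx' t (Finset.mem_range.2 ht)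
    have a1 := f1 x s
    have a2 := f2 x s
    have a3 := f1 x' s
    have a4 := f2 x' s
    rw [e] at a3 a4
    have a5 : 1 / A ^ (st x s).2 < ε := by
      rw [div_lt_iff₀ (by positivity), mul_comm, ← div_lt_iff₀ hε]
      exact hs.trans_le (pow_le_pow_right₀ hA1.le (kge x s))
    rw [Real.dist_eq, abs_lt]
    constructor <;> linarith
  · refine ud_of_clb _ (clb_of_weyl _ fun h hh => ?_)
    set γ := Real.log A / Real.log |β i| with hγ
    have hγ0 : 0 < γ := div_pos (Real.log_pos hA1) (Real.log_pos (hβ i))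
    have utop : Tendsto (fun s => tm A (β i) (st x s).2) atTop atTop :=
      (tm_top A (β i) hA1 (hβ i)).comp (ktop x)
    have t1 : ∀ k : ℕ, k * γ ≤ tm A (β i) k := fun k => Nat.le_ceil _
    have t2 : ∀ k : ℕ, (tm A (β i) k : ℝ) ≤ k * γ + 1 := fun k =>
      (Nat.ceil_lt_add_one (by positivity)).le
    refine glue (fun n => ee (h * (f x * β i ^ n))) (fun s => tm A (β i) (st x s).2) utop ?_ ?_
    · filter_upwards [utop.eventually_ge_atTop 2] with s hs
      have a1 : (2 : ℝ) ≤ tm A (β i) (st x s).2 := by exact_mod_cast hs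
      have a2 := t2 (st x s).2
      have a3 := t1 (st x (s + 1)).2
      have a4 : 4 * ((st x s).2 : ℝ) ≤ (st x (s + 1)).2 := by
        exact_mod_cast (by have := grow x s; omega : 4 * (st x s).2 ≤ (st x (s + 1)).2)
      have a5 := mul_le_mul_of_nonneg_right a4 hγ0.le
      have : 2 * (tm A (β i) (st x s).2 : ℝ) ≤ tm A (β i) (st x (s + 1)).2 := by linarith
      exact_mod_cast this
    · intro ε hε
      set K := 2 * Real.pi * |(h : ℝ)| * (|β i| / (|β i| - 1)) with hK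
      have hK0 : 0 ≤ K := by
        have : 0 < |β i| - 1 := by linarith [hβ i]
        positivity
      obtain ⟨M, hM⟩ := exists_nat_ge (2 * (p : ℝ) / (ε / 3))
      obtain ⟨M', hM'⟩ := exists_nat_ge ((2 * p * γ + 1 + K) / (ε / 3))
      obtain ⟨M'', hM''⟩ := exists_nat_ge (2 / (ε / 3))
      filter_upwards [hx.eventually_ge_atTop M, utop.eventually_ge_atTop M',
        eventually_ge_atTop M'', eventually_ge_atTop i, eventually_ge_atTop h.natAbs]
        with s s1 s2 s3 s4 s5 N hN1 hN2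
      set k := (st x s).2
      set u := tm A (β i) k
      set v := tm A (β i) (k1 p (x s) k) with hv
      have hN1' : (u : ℝ) ≤ N := by exact_mod_cast hN1
      have c1 : 2 * (p : ℝ) / ((x s : ℝ) + 1) ≤ ε / 3 := by
        have : (M : ℝ) ≤ x s := by exact_mod_cast s1
        rw [div_le_iff₀ (by positivity)] at hM ⊢
        nlinarith
      have c2 : 2 * p * γ + 1 + K ≤ ε / 3 * N := by
        have : (M' : ℝ) ≤ u := by exact_mod_cast s2
        rw [div_le_iff₀ (by positivity)] at hM'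
        nlinarith
      have c3 : 2 / ((s : ℝ) + 1) ≤ ε / 3 := by
        have : (M'' : ℝ) ≤ s := by exact_mod_cast s3
        rw [div_le_iff₀ (by positivity)] at hM'' ⊢
        nlinarith
      have c4 : (v : ℝ) - u ≤ ε / 3 * N + (2 * p * γ + 1) := by
        have d1 := t2 (k1 p (x s) k)
        have d2 := t1 k
        have d3 : ((k / (x s + 1) : ℕ) : ℝ) ≤ k / ((x s : ℝ) + 1) := by
          have := @Nat.cast_div_le ℝ _ _ _ k (x s + 1)
          simpa using this
        have d4 : (k1 p (x s) k : ℝ) = k + 2 * p * (((k / (x s + 1) : ℕ) : ℝ) + 1) := by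
          unfold k1; push_cast; ring
        have d5 : 2 * p * ((k / (x s + 1) : ℕ) : ℝ) * γ ≤ ε / 3 * N := by
          calc 2 * p * ((k / (x s + 1) : ℕ) : ℝ) * γ ≤ 2 * p * (k / ((x s : ℝ) + 1)) * γ := by gcongr
            _ = 2 * (p : ℝ) / ((x s : ℝ) + 1) * (k * γ) := by ring
            _ ≤ ε / 3 * N := mul_le_mul c1 (d2.trans hN1') (by positivity) (by positivity)
        rw [d4] at d1
        linarith
      have triv : ∀ w, u ≤ w → w ≤ v →
          ‖∑ n ∈ Finset.Ico u w, ee (h * (f x * β i ^ n))‖ ≤ (v : ℝ) - u := by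
        intro w h1 h2
        refine (norm_sum_le _ _).trans ?_
        simp only [norm_ee, Finset.sum_const, Nat.card_Ico, nsmul_eq_mul, mul_one]
        rw [Nat.cast_sub h1]
        have : (w : ℝ) ≤ v := by exact_mod_cast h2
        linarith
      have hεN : 0 ≤ ε / 3 * N := by positivity
      by_cases hNv : N ≤ v
      · linarith [triv N hN1 hNv]
      · have huv : u ≤ v := Nat.ceil_mono (mul_le_mul_of_nonneg_right
          (by exact_mod_cast (by have := hk1 (x s) k; omega : k ≤ k1 p (x s) k)) hγ0.le)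
        rw [← Finset.sum_Ico_consecutive _ huv (by omega : v ≤ N)]
        have e1 := (good x s).2 i s4 h hh s5 N (not_le.1 hNv).le hN2
        have e2 := mul_le_mul_of_nonneg_right c3 (Nat.cast_nonneg N)
        linarith [norm_add_le (∑ n ∈ Finset.Ico u v, ee (h * (f x * β i ^ n)))
          (∑ n ∈ Finset.Ico v N, ee (h * (f x * β i ^ n))), triv v huv le_rfl]
  · rw [tendsto_atTop] at hx
    push Not at hx
    obtain ⟨M, hM⟩ := hx
    set b : ℝ := 1 / (4 * (p : ℝ)) with hb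
    have hb0 : 0 < b := by positivity
    have hb1 : b ≤ 1 := by rw [hb, div_le_one (by positivity)]; linarith
    have hU' := hU 0 b le_rfl hb0.le hb1
    set ε : ℝ := 1 / (4 * ((M : ℝ) + p)) with hε
    have hε0 : 0 < ε := by positivity
    obtain ⟨N0, hN0⟩ := Metric.tendsto_atTop.1 hU' ε hε0
    obtain ⟨s, s1, s2⟩ := (hM.and_eventually ((ktop x).eventually_ge_atTop (N0 + 1))).exists
    set k := (st x s).2
    set l := k / (x s + 1) + 1 with hl
    let P : ℕ → Prop := fun n => 0 ≤ Int.fract (f x * β 0 ^ n) ∧ Int.fract (f x * β 0 ^ n) < b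
    have hcnt : ((Finset.range k).filter P).card + l ≤
        ((Finset.range (k + 2 * p * l)).filter P).card := by
      have inj : Function.Injective fun j => k + 2 * p * j + p := fun j j' e => by
        simp only at e
        exact Nat.eq_of_mul_eq_mul_left (by omega : 0 < 2 * p) (by omega)
      have e0 : l = ((Finset.range l).image fun j => k + 2 * p * j + p).card := by
        rw [Finset.card_image_of_injective _ inj, Finset.card_range]
      conv_lhs => rw [e0]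
      rw [← Finset.card_union_of_disjoint]
      · refine Finset.card_le_card (Finset.union_subset ?_ ?_)
        · exact Finset.filter_subset_filter _ (Finset.range_mono (by omega))
        · intro n hn
          obtain ⟨j, hj, rfl⟩ := Finset.mem_image.1 hn
          rw [Finset.mem_range] at hj
          refine Finset.mem_filter.2 ⟨Finset.mem_range.2 ?_, Int.fract_nonneg _,
            ((good x s).1 j hj).trans_lt ?_⟩
          · have : 2 * p * (j + 1) ≤ 2 * p * l := Nat.mul_le_mul_left _ hj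
            rw [mul_add, mul_one] at this
            omega
          · exact one_div_lt_one_div_of_lt (by positivity) (by linarith)
      · refine Finset.disjoint_left.2 fun n hn hn' => ?_
        obtain ⟨j, _, rfl⟩ := Finset.mem_image.1 hn'
        have := Finset.mem_range.1 (Finset.mem_filter.1 hn).1
        omega
    have a1 := hN0 k (by omega)
    have a2 := hN0 (k + 2 * p * l) (by omega)
    have hk0 : (0 : ℝ) < k := by exact_mod_cast (by omega : 0 < k)
    rw [Real.dist_eq, abs_lt, sub_zero] at a1 a2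
    have a3 := a1.1
    have a4 := a2.2
    rw [lt_sub_iff_add_lt, lt_div_iff₀ hk0] at a3
    rw [sub_lt_iff_lt_add, div_lt_iff₀ (by positivity)] at a4
    have a5 := (Nat.cast_le (α := ℝ)).2 hcnt
    push_cast at a4 a5
    have a6 : k ≤ M * l := by
      have := Nat.lt_mul_div_succ k (by omega : 0 < x s + 1)
      exact this.le.trans (Nat.mul_le_mul_right _ (by omega))
    have a6' : (k : ℝ) ≤ M * l := by exact_mod_cast a6
    have a7 : b * (2 * p * l) = l / 2 := by rw [hb]; field_simp; ring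
    have a8 : ε * (2 * (M * l) + 2 * p * l) = l / 2 := by rw [hε]; field_simp; ring
    have a9 := mul_le_mul_of_nonneg_left a6' hε0.le
    nlinarith

theorem hard' {Y : Type*} [TopologicalSpace Y]
    (hY : ∀ G : Set Y, IsClosed G → ∃ C : ℕ → Set Y, (∀ k, IsClopen (C k)) ∧ G = ⋂ k, C k)
    (G : ℕ → ℕ → Set Y) (hG : ∀ i j, IsClosed (G i j)) (β : ℕ → ℝ) (hβ : ∀ i, 1 < |β i|) :
    ∃ f : Y → ℝ, Continuous f ∧
      (∀ y ∈ ⋂ i, ⋃ j, G i j, ∀ i, UD fun n => f y * β i ^ n) ∧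
      (∀ y, (UD fun n => f y * β 0 ^ n) → y ∈ ⋂ i, ⋃ j, G i j) := by
  obtain ⟨x, h1, h2⟩ := reduce hY G hG
  obtain ⟨f, f1, f2, f3⟩ := hard β hβ
  exact ⟨f ∘ x, f1.comp h1, fun y hy => f2 _ ((h2 y).1 hy),
    fun y hy => (h2 y).2 (by_contra fun h => f3 _ h hy)⟩

theorem baire (G : Set (ℕ → ℕ)) (hG : IsClosed G) :
    ∃ C : ℕ → Set (ℕ → ℕ), (∀ k, IsClopen (C k)) ∧ G = ⋂ k, C k := by
  refine closed_clopen (TopologicalSpace.isTopologicalBasis_of_isOpen_of_nhds
    (fun s hs => hs.isOpen) fun x U hx hU => ?_) G hG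
  obtain ⟨_, ⟨y, n, rfl⟩, h1, h2⟩ :=
    (PiNat.isTopologicalBasis_cylinders fun _ => ℕ).exists_subset_of_mem_open hx hU
  refine ⟨_, ⟨?_, PiNat.isOpen_cylinder _ y n⟩, h1, h2⟩
  rw [PiNat.cylinder_eq_pi]
  exact isClosed_set_pi fun _ _ => isClosed_singleton

end Pool.Agent.Lib.helper23.UdC
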