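import Mathlib

namespace Pool.Agent.Lib.helper23.WhA

open Finset

variable (p : ℕ → ℕ → ℂ) (b : ℕ → ℕ)

noncomputable def D (c : ℕ → ℂ) (k i : ℕ) : ℂ := ∑ s ∈ range k, p k s * c (i + s)

noncomputable def A (k : ℕ) : ℝ := 1 + ∑ s ∈ range k, ‖p k s‖

noncomputable def Pr (K : ℕ) : ℝ := ∏ l ∈ range K, A p l

theorem one_le_A (k : ℕ) : 1 ≤ A p k := le_add_of_nonneg_right (by positivity)

theorem Pr_mono : Monotone (Pr p) := fun _ _ h =>
  prod_le_prod_of_subset_of_one_le (range_mono h) (fun i _ => zero_le_one.trans (one_le_A p i))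
    fun i _ _ => one_le_A p i

theorem one_le_Pr (K : ℕ) : 1 ≤ Pr p K := by simpa [Pr] using Pr_mono p (Nat.zero_le K)

theorem Pr_succ (K : ℕ) : Pr p (K + 1) = Pr p K * A p K := prod_range_succ _ _

theorem norm_D_le (c : ℕ → ℂ) (k i : ℕ) (M : ℝ) (hM : 0 ≤ M) (h : ∀ s < k, ‖c (i + s)‖ ≤ M) :
    ‖D p c k i‖ ≤ M * A p k := by
  refine (norm_sum_le_of_le _ (n := fun s => M * ‖p k s‖) fun s hs => ?_).trans ?_
  · rw [norm_mul, mul_comm]
    exact mul_le_mul_of_nonneg_right (h s (mem_range.1 hs)) (norm_nonneg _)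
  · rw [← mul_sum, A]; nlinarith

structure Good : Prop where
  hk : ∀ k, k < b k
  hs : ∀ k, 10 * b k ≤ b (k + 1)
  hz : ∀ k, 2 * Pr p (k + 2) ^ 2 * 2 ^ (k + 1) ≤ 2 ^ b k

theorem exists_good : ∃ b, Good p b := by
  let Z : ℕ → ℕ := fun k => ⌈2 * Pr p (k + 2) ^ 2 * 2 ^ (k + 1)⌉₊
  let b : ℕ → ℕ := fun k => Nat.rec (Z 0 + 1) (fun k x => 10 * x + Z (k + 1)) k
  have h0 : b 0 = Z 0 + 1 := rfl
  have h1 : ∀ k, b (k + 1) = 10 * b k + Z (k + 1) := fun _ => rfl
  refine ⟨b, fun k => ?_, fun k => by rw [h1]; omega, fun k => (Nat.le_ceil _).trans ?_⟩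
  · induction k with
    | zero => omega
    | succ k ih => rw [h1]; omega
  · have h2 : Z k ≤ b k := by
      cases k with
      | zero => omega
      | succ k => rw [h1]; omega
    change ((Z k : ℕ) : ℝ) ≤ _
    exact_mod_cast h2.trans Nat.lt_two_pow_self.le

noncomputable def sqn (g : ℕ → (ℕ → ℂ) → ℂ) (i : ℕ) : ℂ :=
  g i fun l => if _h : l < i then sqn g l else 0

def r (m k : ℕ) : ℕ := 8 * b k + if 2 * b k < m then m else 0

def Reg (m k0 k t : ℕ) : Prop :=
  r b m k ≤ t ∧ t ≤ r b m k + 3 * b k ∧ ¬ (2 * b k < m ∧ k = k0)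

def Sol (m k0 : ℕ) (c : ℕ → ℂ) : Prop :=
  c m = 1 ∧ (∀ k t, Reg b m k0 k t → c t = D p c k (t - 8 * b k)) ∧
    ∀ t, t ≠ m → (∀ k, ¬ Reg b m k0 k t) → c t = 0

def Gro (σ : ℕ → ℂ) : Prop := ∀ K t, t < 8 * b K → ‖σ t‖ ≤ Pr p (K + 1)

def Mem (ρ : ℕ → ℝ) (c : ℕ → ℂ) : Prop :=
  ∀ i, ‖c i‖ ≤ 2 * 2 ^ i ∧ ∀ K, ∑ k ∈ range K, ‖c (8 * b k + i) - D p c k i‖ / ρ k ≤ 2 * 2 ^ i

variable {p b} (h : Good p b)
include h

theorem Good.lt {k l : ℕ} (hkl : k < l) : 10 * b k ≤ b l := by
  induction l, hkl using Nat.le_induction with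
  | base => exact h.hs k
  | succ l _ ih => have := h.hs l; omega

theorem Good.r_lt {m k l : ℕ} (hkl : k < l) : r b m k + 3 * b k < r b m l := by
  have := h.lt hkl
  have := h.hk k
  unfold r; split_ifs <;> omega

theorem Good.lt_r (m k : ℕ) : m < r b m k := by
  have := h.hk k
  unfold r; split_ifs <;> omega

theorem Good.uniq {m k l t : ℕ} (h1 : r b m k ≤ t ∧ t ≤ r b m k + 3 * b k)
    (h2 : r b m l ≤ t ∧ t ≤ r b m l + 3 * b l) : k = l := by
  rcases lt_trichotomy k l with h3 | h3 | h3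
  · have := h.r_lt (m := m) h3; omega
  · exact h3
  · have := h.r_lt (m := m) h3; omega

theorem Good.exists_sol (m k0 : ℕ) : ∃ c, Sol p b m k0 c := by
  classical
  let g : ℕ → (ℕ → ℂ) → ℂ := fun t σ => if t = m then 1 else
    if h : ∃ k, Reg b m k0 k t then D p σ h.choose (t - 8 * b h.choose) else 0
  have h0 : ∀ t, sqn g t = g t fun l => if _h : l < t then sqn g l else 0 := fun t => by rw [sqn]
  refine ⟨sqn g, by rw [h0]; simp [g], fun k t h1 => ?_, fun t h1 h2 => ?_⟩
  · have h2 : ∃ k, Reg b m k0 k t := ⟨k, h1⟩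
    have h3 : h2.choose = k := h.uniq ⟨h2.choose_spec.1, h2.choose_spec.2.1⟩ ⟨h1.1, h1.2.1⟩
    have h4 := h.lt_r m k
    have h5 := h1.1
    rw [h0]
    simp only [g]
    rw [if_neg (by omega), dif_pos h2, h3]
    refine sum_congr rfl fun s hs => ?_
    have := mem_range.1 hs
    have := h.hk k
    beta_reduce
    rw [dif_pos (by unfold r at h5; omega)]
  · rw [h0]
    simp only [g]
    rw [if_neg h1, dif_neg (not_exists.2 h2)]

theorem Good.grow {m k0 : ℕ} {c : ℕ → ℂ} (hc : Sol p b m k0 c) (K : ℕ) :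
    ∀ t, t < r b m K → ‖c t‖ ≤ Pr p K := by
  induction K using Nat.strong_induction_on with
  | _ K ih =>
    intro t ht
    by_cases h1 : t = m
    · rw [h1, hc.1, norm_one]; exact one_le_Pr p K
    by_cases h2 : ∃ k, Reg b m k0 k t
    · obtain ⟨k, hk⟩ := h2
      have h3 : k < K := by
        by_contra h3
        rcases (not_lt.1 h3).eq_or_lt with h4 | h4
        · subst h4; have := hk.1; omega
        · have := h.r_lt (m := m) h4; have := hk.1; omega
      rw [hc.2.1 k t hk]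
      refine (norm_D_le p c k _ _ (zero_le_one.trans (one_le_Pr p k)) fun s hs =>
        ih k h3 _ ?_).trans ((Pr_succ p k).symm.trans_le (Pr_mono p h3))
      have h4 := hk.2.1
      have := h.hk k
      unfold r at h4 ⊢
      omega
    · rw [hc.2.2 t h1 (not_exists.1 h2), norm_zero]; exact zero_le_one.trans (one_le_Pr p K)

theorem Good.gro1 {m k0 : ℕ} {c : ℕ → ℂ} (hc : Sol p b m k0 c) : Gro p b c := fun K t ht =>
  (h.grow hc K t (by unfold r; omega)).trans (Pr_mono p (Nat.le_succ K))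

theorem Good.gro2 {m k0 : ℕ} {c : ℕ → ℂ} (hc : Sol p b m k0 c) : Gro p b fun j => c (m + j) :=
  fun K t ht => h.grow hc (K + 1) _ (by have := h.hs K; unfold r; split_ifs <;> omega)

theorem Good.locate {k t : ℕ} (ht : 8 * b k ≤ t) :
    ∃ K, k ≤ K ∧ 8 * b K ≤ t ∧ t < 8 * b (K + 1) := by
  classical
  have h0 : ∃ K, t < 8 * b (K + 1) := ⟨t, by have := h.hk (t + 1); omega⟩
  have h1 := Nat.find_spec h0
  have h2 : k ≤ Nat.find h0 := by
    by_contra h2
    rcases (Nat.succ_le_of_lt (not_le.1 h2)).eq_or_lt with h3 | h3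
    · rw [Nat.succ_eq_add_one] at h3; rw [h3] at h1; omega
    · have := h.lt h3; simp only [Nat.succ_eq_add_one] at this; omega
  refine ⟨_, h2, ?_, h1⟩
  rcases h2.eq_or_lt with h3 | h3
  · rw [← h3]; exact ht
  · have := Nat.find_min h0 (show Nat.find h0 - 1 < Nat.find h0 by omega)
    rw [show Nat.find h0 - 1 + 1 = Nat.find h0 by omega] at this
    omega

theorem Good.Pr_le {k i : ℕ} (hi : b k ≤ i) : Pr p (k + 2) ≤ 2 ^ i := by
  have h1 := h.hz k
  have h2 := one_le_Pr p (k + 2)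
  have h3 : (1 : ℝ) ≤ 2 ^ (k + 1) := one_le_pow₀ (by norm_num)
  have h4 : (2 : ℝ) ^ b k ≤ 2 ^ i := pow_le_pow_right₀ (by norm_num) hi
  nlinarith [mul_le_mul_of_nonneg_left h3 (sq_nonneg (Pr p (k + 2)))]

theorem Good.pt {σ : ℕ → ℂ} (hσ : Gro p b σ) (t : ℕ) : ‖σ t‖ ≤ 2 * 2 ^ t := by
  have h0 : (1 : ℝ) ≤ 2 ^ t := one_le_pow₀ (by norm_num)
  by_cases h1 : t < 8 * b 0
  · have := hσ 0 t h1
    simp only [Pr, A, zero_add, range_one, prod_singleton, range_zero, sum_empty, add_zero] at this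
    linarith
  · obtain ⟨K, -, h2, h3⟩ := h.locate (not_lt.1 h1)
    have := (hσ _ t h3).trans (h.Pr_le (show b K ≤ t by omega))
    linarith

theorem Good.far {σ : ℕ → ℂ} (hσ : Gro p b σ) {k i : ℕ} (hi : b k ≤ i) :
    ‖σ (8 * b k + i) - D p σ k i‖ ≤ 2 ^ i / 2 ^ (k + 1) := by
  obtain ⟨K, h1, h2, h3⟩ := h.locate (Nat.le_add_right (8 * b k) i)
  have h4 : b K ≤ i := by
    rcases h1.eq_or_lt with h4 | h4
    · rw [← h4]; exact hi
    · have := h.lt h4; omega
  have h5 := one_le_Pr p (K + 2)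
  have h6 := norm_D_le p σ k i _ (zero_le_one.trans h5) fun s hs =>
    hσ (K + 1) _ (by have := h.hk k; omega)
  have h7 : A p k ≤ Pr p (K + 2) := by
    refine le_trans ?_ (Pr_mono p (show k + 1 ≤ K + 2 by omega))
    rw [Pr_succ]
    exact le_mul_of_one_le_left (zero_le_one.trans (one_le_A p k)) (one_le_Pr p k)
  have h8 := hσ _ _ h3
  have h9 := h.hz K
  have h10 : (2 : ℝ) ^ b K ≤ 2 ^ i := pow_le_pow_right₀ (by norm_num) h4
  have h11 : (2 : ℝ) ^ (k + 1) ≤ 2 ^ (K + 1) := pow_le_pow_right₀ (by norm_num) (by omega)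
  rw [le_div_iff₀ (by positivity)]
  refine le_trans (mul_le_mul ((norm_sub_le _ _).trans ?_) h11 (by positivity) (by positivity))
    (h9.trans h10)
  nlinarith

omit h in
theorem sum_le_two (f : ℕ → ℝ) (W : ℝ) (hW : 0 ≤ W) (κ : ℕ)
    (hf : ∀ k, f k ≤ W / 2 ^ (k + 1) + if k = κ then W else 0) (K : ℕ) :
    ∑ k ∈ range K, f k ≤ 2 * W := by
  refine (sum_le_sum fun k _ => hf k).trans ?_
  rw [sum_add_distrib, sum_ite_eq']
  have h1 : ∀ K : ℕ, ∑ k ∈ range K, W / 2 ^ (k + 1) = W - W / 2 ^ K := fun K => by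
    induction K with
    | zero => simp
    | succ K ih => rw [sum_range_succ, ih]; field_simp; ring
  have h2 : 0 ≤ W / 2 ^ K := by positivity
  rw [h1]; split_ifs <;> linarith

theorem Good.mem {σ : ℕ → ℂ} (hσ : Gro p b σ) {ρ : ℕ → ℝ} (hρ : ∀ k, 1 ≤ ρ k) (κ : ℕ)
    (h1 : ∀ k i, i ≤ b k → ‖σ (8 * b k + i) - D p σ k i‖ ≤ if k = κ then 2 ^ i * ρ k else 0) :
    Mem p b ρ σ := by
  refine fun i => ⟨h.pt hσ i, sum_le_two _ _ (by positivity) κ fun k => ?_⟩
  have h0 : 0 < ρ k := zero_lt_one.trans_le (hρ k)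
  rcases le_total i (b k) with h2 | h2
  · have h3 : (0 : ℝ) ≤ 2 ^ i / 2 ^ (k + 1) := by positivity
    refine le_trans ?_ (le_add_of_nonneg_left h3)
    rw [div_le_iff₀ h0]
    simpa only [ite_mul, zero_mul] using h1 k i h2
  · refine ((div_le_self (norm_nonneg _) (hρ k)).trans (h.far hσ h2)).trans
      (le_add_of_nonneg_right ?_)
    split_ifs <;> positivity

theorem Good.mem_e {e : ℕ → ℂ} (he : Sol p b 0 0 e) {ρ : ℕ → ℝ} (hρ : ∀ k, 1 ≤ ρ k) :
    Mem p b ρ e := by
  refine h.mem (h.gro1 he) hρ 0 fun k i hi => ?_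
  have := hρ k
  rw [he.2.1 k _ (by unfold Reg r; simp; omega), Nat.add_sub_cancel_left, sub_self, norm_zero]
  split_ifs <;> positivity

theorem Good.main {e : ℕ → ℂ} (he : Sol p b 0 0 e) {ρ : ℕ → ℝ} (hρ : ∀ k, 1 ≤ ρ k)
    (hρ2 : ∀ k j, j ≤ b k → ‖D p e k j‖ ≤ 2 ^ j * ρ k) (m : ℕ) :
    ∃ c, c m = 1 ∧ Mem p b ρ c ∧ Mem p b ρ fun j => c (m + j) := by
  classical
  have hL : ∃ L, m ≤ 9 * b L := ⟨m, by have := h.hk m; omega⟩
  set L := Nat.find hL with hL0
  have hL1 : m ≤ 9 * b L := Nat.find_spec hL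
  have hk : ∃ k, 8 * b L ≤ m + 11 * b k := ⟨L, by omega⟩
  set k0 := Nat.find hk with hk0
  obtain ⟨c, hc⟩ := h.exists_sol m k0
  have h0 : ∀ t < m, c t = 0 := fun t ht =>
    hc.2.2 t ht.ne fun k hk => by have := h.lt_r m k; have := hk.1; omega
  refine ⟨c, hc.1, h.mem (h.gro1 hc) hρ L fun k i hi => ?_, h.mem (h.gro2 hc) hρ k0 fun k i hi => ?_⟩
  · have hρ0 := hρ k
    have hkk := h.hk k
    have h2i : (1 : ℝ) ≤ 2 ^ i := one_le_pow₀ (by norm_num)
    by_cases h1 : 2 * b k < m
    · rw [D, sum_eq_zero fun s hs => by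
        rw [h0 _ (by have := mem_range.1 hs; omega), mul_zero], sub_zero]
      by_cases h2 : 8 * b k + i < m
      · rw [h0 _ h2, norm_zero]; split_ifs <;> positivity
      have h3 : k = L := by
        refine le_antisymm ?_ (Nat.find_min' hL (by omega))
        by_contra h3
        have := h.lt (not_le.1 h3)
        omega
      rw [if_pos h3]
      refine le_trans ?_ (le_mul_of_one_le_right (by positivity) hρ0)
      subst h3
      by_cases h4 : 8 * b L + i = m
      · rw [h4, hc.1, norm_one]; exact h2i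
      by_cases h5 : ∃ l, Reg b m k0 l (8 * b L + i)
      · obtain ⟨l, h5, h6, h7⟩ := h5
        have h8 : l < L := by
          by_contra h8
          rcases (not_lt.1 h8).eq_or_lt with h9 | h9
          · rw [← h9] at h5; unfold r at h5; rw [if_pos h1] at h5; omega
          · have := h.lt h9; unfold r at h5; omega
        have h9 := h.lt h8
        have h10 : 2 * b l < m := by omega
        unfold r at h5 h6
        rw [if_pos h10] at h5 h6
        have h11 : k0 < l := lt_of_le_of_ne (Nat.find_min' hk (by omega)) fun h11 =>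
          h7 ⟨h10, h11.symm⟩
        have h12 : 8 * b L ≤ m + 11 * b k0 := Nat.find_spec hk
        have h13 := h.lt h11
        refine (h.grow hc (l + 2) _ ?_).trans (h.Pr_le (by omega))
        have := h.r_lt (m := m) (show l < l + 2 by omega)
        rw [r, if_pos h10] at this
        omega
      · rw [hc.2.2 _ h4 (not_exists.1 h5), norm_zero]; positivity
    · rw [hc.2.1 k _ (by unfold Reg r; simp [h1]; omega), Nat.add_sub_cancel_left, sub_self,
        norm_zero]
      split_ifs <;> positivity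
  · have hρ0 := hρ k
    have hkk := h.hk k
    have hD : ∀ l j, D p (fun j => c (m + j)) l j = D p c l (m + j) := fun l j => by
      simp only [D, add_assoc]
    by_cases h1 : 2 * b k < m ∧ k = k0
    · rw [if_pos h1.2]
      have h2 : c (m + (8 * b k + i)) = 0 := hc.2.2 _ (by omega) fun l hl => by
        have := h.uniq (k := k) (by unfold r; rw [if_pos h1.1]; omega) ⟨hl.1, hl.2.1⟩
        exact hl.2.2 (this ▸ h1)
      have h3 : ∀ j, j < 8 * b k → c (m + j) = e j := fun j => by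
        induction j using Nat.strong_induction_on with
        | _ j ih =>
          intro hj
          by_cases h3 : j = 0
          · rw [h3, add_zero, hc.1, he.1]
          have h4 : ∀ l, Reg b m k0 l (m + j) ↔ Reg b 0 0 l j := fun l => by
            rcases lt_trichotomy l k with h4 | h4 | h4
            · have := h.lt h4
              unfold Reg r
              rw [if_pos (by omega), if_neg (by omega)]
              omega
            · subst h4
              unfold Reg r
              rw [if_pos h1.1, if_neg (by omega)]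
              omega
            · have := h.lt h4
              unfold Reg r
              split_ifs <;> omega
          by_cases h5 : ∃ l, Reg b 0 0 l j
          · obtain ⟨l, hl⟩ := h5
            have h6 := hl.1
            have := h.hk l
            unfold r at h6
            rw [hc.2.1 l _ ((h4 l).2 hl), he.2.1 l _ hl]
            refine sum_congr rfl fun s hs => ?_
            have := mem_range.1 hs
            rw [← ih (j - 8 * b l + s) (by omega) (by omega)]
            congr 2; omega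
          · rw [hc.2.2 _ (by omega) fun l hl => h5 ⟨l, (h4 l).1 hl⟩, he.2.2 _ h3 (not_exists.1 h5)]
      simp only [h2, zero_sub, norm_neg]
      refine le_of_eq_of_le (congrArg _ (sum_congr rfl fun s hs => ?_)) (hρ2 k i hi)
      beta_reduce
      rw [h3 (i + s) (by have := mem_range.1 hs; omega)]
    · rw [hD, hc.2.1 k (m + (8 * b k + i)) ⟨by unfold r; split_ifs <;> omega,
        by unfold r; split_ifs <;> omega, h1⟩, show m + (8 * b k + i) - 8 * b k = m + i by omega,
        sub_self, norm_zero]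
      split_ifs <;> positivity

omit h in
theorem Mem.shift {ρ : ℕ → ℝ} {c : ℕ → ℂ} (hc : Mem p b ρ c) (j : ℕ) :
    Mem p b ρ fun t => c (j + t) / 2 ^ j := by
  intro i
  have h0 : (0 : ℝ) < 2 ^ j := by positivity
  have h1 : (2 : ℝ) * 2 ^ (j + i) / 2 ^ j = 2 * 2 ^ i := by rw [pow_add]; field_simp
  refine ⟨?_, fun K => ?_⟩
  · simp only [norm_div, norm_pow, Complex.norm_two]
    rw [← h1]; gcongr; exact (hc _).1
  · rw [← h1]
    refine le_of_eq_of_le ?_ (div_le_div_of_nonneg_right ((hc (j + i)).2 K) h0.le)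
    rw [sum_div]
    refine sum_congr rfl fun k _ => ?_
    simp only [D, ← mul_div_assoc, ← sum_div, ← sub_div, norm_div, norm_pow, Complex.norm_two,
      add_assoc, add_left_comm j]
    ring

end Pool.Agent.Lib.helper23.WhA
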