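import Mathlib
import Pool.Agent.Lib.helper23.WhA

namespace Pool.Agent.Lib.helper23.WhB

open Finset Filter Topology Pool.Agent.Lib.helper23.WhA

theorem exists_p : ∃ p : ℕ → ℕ → ℂ, ∀ (d : ℕ) (a : ℕ → ℂ) (ε : ℝ), 0 < ε → ∀ N, ∃ k, N ≤ k ∧ d ≤ k ∧
    (∀ s < d, ‖p k s - a s‖ ≤ ε) ∧ ∀ s, d ≤ s → p k s = 0 := by
  refine ⟨fun k s => if h : s < k.unpair.1.unpair.1 then
    TopologicalSpace.denseSeq (Fin k.unpair.1.unpair.1 → ℂ) k.unpair.1.unpair.2 ⟨s, h⟩ else 0,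
    fun d a ε hε N => ?_⟩
  obtain ⟨r, hr⟩ := (TopologicalSpace.denseRange_denseSeq (Fin d → ℂ)).exists_dist_lt
    (fun s => a s) hε
  refine ⟨Nat.pair (Nat.pair d r) N, Nat.right_le_pair _ _,
    (Nat.left_le_pair _ _).trans (Nat.left_le_pair _ _), fun s hs => ?_, fun s hs => ?_⟩
  · have key : ∀ x : ℕ × ℕ, x = (d, r) → ‖(if h : s < x.1 then
        TopologicalSpace.denseSeq (Fin x.1 → ℂ) x.2 ⟨s, h⟩ else 0) - a s‖ ≤ ε := by
      rintro _ rfl
      rw [dif_pos hs, ← dist_eq_norm, dist_comm]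
      exact (dist_le_pi_dist (fun s : Fin d => a s) _ ⟨s, hs⟩).trans hr.le
    exact key _ (by simp)
  · exact dif_neg (by simpa using hs)

/-- A Banach space spanned by `x n` and normed by the sequences in `Φ`. -/
theorem exists_space (Φ : Set (ℕ → ℂ)) (hΦ : ∀ n, ∃ M, ∀ c ∈ Φ, ‖c n‖ ≤ M) :
    ∃ (X : Type) (_ : NormedAddCommGroup X) (_ : NormedSpace ℂ X) (_ : CompleteSpace X)
      (x : ℕ → X) (ev : Φ → X →L[ℂ] ℂ), Dense (Submodule.span ℂ (Set.range x) : Set X) ∧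
      (∀ c n, ev c (x n) = c.1 n) ∧ (∀ c y, ‖ev c y‖ ≤ ‖y‖) ∧
      ∀ y M, 0 ≤ M → (∀ c, ‖ev c y‖ ≤ M) → ‖y‖ ≤ M := by
  let Y := lp (fun _ : Φ => ℂ) ⊤
  let x : ℕ → Y := fun n => ⟨fun c => c.1 n, memℓp_infty (by
    obtain ⟨M, hM⟩ := hΦ n
    exact ⟨M, by rintro _ ⟨c, rfl⟩; exact hM c.1 c.2⟩)⟩
  let T : Submodule ℂ Y := (Submodule.span ℂ (Set.range x)).topologicalClosure
  let e : ℕ → T := fun n =>
    ⟨x n, Submodule.le_topologicalClosure _ (Submodule.subset_span ⟨n, rfl⟩)⟩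
  refine ⟨T, inferInstance, inferInstance,
    (Submodule.isClosed_topologicalClosure _).completeSpace_coe, e,
    fun c => (lp.evalCLM ℂ (fun _ : Φ => ℂ) ⊤ c).comp T.subtypeL, ?_, fun _ _ => rfl,
    fun c y => lp.norm_apply_le_norm (by simp) y.1 c, fun y M hM h => lp.norm_le_of_forall_le hM h⟩
  refine Subtype.dense_iff.2 ?_
  have h := Submodule.map_span T.subtype (Set.range e)
  rw [← Set.range_comp] at h
  exact subset_rfl.trans
    (congrArg closure (congrArg (fun s : Submodule ℂ Y => (s : Set Y)) h)).ge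

variable {X : Type} [NormedAddCommGroup X] [NormedSpace ℂ X] {x : ℕ → X}

theorem exists_ext [CompleteSpace X] (hd : Dense (Submodule.span ℂ (Set.range x) : Set X))
    (u : ℕ → X) (C : ℝ)
    (h : ∀ (S : Finset ℕ) (a : ℕ → ℂ), ‖∑ k ∈ S, a k • u k‖ ≤ C * ‖∑ k ∈ S, a k • x k‖) :
    ∃ U : X →L[ℂ] X, ∀ k, U (x k) = u k := by
  have h1 : DenseRange (Finsupp.linearCombination ℂ x) := by
    rw [DenseRange, ← LinearMap.coe_range, Finsupp.range_linearCombination]; exact hd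
  refine ⟨(Finsupp.linearCombination ℂ u).extendOfNorm (Finsupp.linearCombination ℂ x), fun k => ?_⟩
  have := LinearMap.extendOfNorm_eq (f := Finsupp.linearCombination ℂ u) h1
    ⟨C, fun y => h y.support y⟩ (Finsupp.single k 1)
  simpa using this

theorem approx {p : ℕ → ℕ → ℂ} (hp : ∀ (d : ℕ) (a : ℕ → ℂ) (ε : ℝ), 0 < ε → ∀ N, ∃ k, N ≤ k ∧
    d ≤ k ∧ (∀ s < d, ‖p k s - a s‖ ≤ ε) ∧ ∀ s, d ≤ s → p k s = 0)
    (hd : Dense (Submodule.span ℂ (Set.range x) : Set X)) (y : X) (ε : ℝ) (hε : 0 < ε) (N : ℕ) :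
    ∃ k, N ≤ k ∧ ‖∑ s ∈ range k, p k s • x s - y‖ ≤ ε := by
  obtain ⟨z, hz, hz'⟩ := hd.exists_dist_lt y (half_pos hε)
  obtain ⟨a, rfl⟩ := Finsupp.mem_span_range_iff_exists_finsupp.1 hz
  obtain ⟨d, hd⟩ := a.support.exists_nat_subset_range
  rw [Finsupp.sum_of_support_subset _ hd _ (by simp), dist_comm, dist_eq_norm] at hz'
  set B := ∑ s ∈ range d, ‖x s‖ with hB
  have hB0 : 0 ≤ B := by positivity
  obtain ⟨k, h1, h2, h3, h4⟩ := hp d a (ε / 2 / (B + 1)) (by positivity) N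
  refine ⟨k, h1, ?_⟩
  rw [← sum_subset (range_mono h2) fun s _ hs => by rw [h4 s (by simpa using hs), zero_smul]]
  have h5 : ‖∑ s ∈ range d, p k s • x s - ∑ s ∈ range d, a s • x s‖ ≤ ε / 2 := by
    rw [← sum_sub_distrib]
    refine (norm_sum_le_of_le _ (n := fun s => ε / 2 / (B + 1) * ‖x s‖) fun s hs => ?_).trans ?_
    · rw [← sub_smul, norm_smul]
      exact mul_le_mul_of_nonneg_right (h3 s (mem_range.1 hs)) (norm_nonneg _)
    · rw [← mul_sum, ← hB, div_mul_eq_mul_div, div_le_iff₀ (by positivity)]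
      nlinarith
  linarith [norm_sub_le_norm_sub_add_norm_sub (∑ s ∈ range d, p k s • x s)
    (∑ s ∈ range d, a s • x s) y]

theorem weak_null (u : ℕ → X) (C : ℝ) (h : ∀ (K : ℕ) (ε : ℕ → ℂ), (∀ k, ‖ε k‖ = 1) →
    ‖∑ k ∈ range K, ε k • u k‖ ≤ C) (f : X →L[ℂ] ℂ) : Tendsto (fun k => f (u k)) atTop (𝓝 0) := by
  choose ε hε hε' using fun k => Complex.exists_norm_eq_mul_self (f (u k))
  refine tendsto_zero_iff_norm_tendsto_zero.2 (summable_of_sum_range_le (c := ‖f‖ * C)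
    (fun _ => norm_nonneg _) fun K => ?_).tendsto_atTop_zero
  have h1 : ((∑ k ∈ range K, ‖f (u k)‖ : ℝ) : ℂ) = f (∑ k ∈ range K, ε k • u k) := by
    simp only [map_sum, map_smul, smul_eq_mul, ← hε']; push_cast; rfl
  refine (Real.le_norm_self _).trans ?_
  rw [← Complex.norm_real, h1]
  exact (f.le_opNorm _).trans (mul_le_mul_of_nonneg_left (h K ε hε) (norm_nonneg _))

end Pool.Agent.Lib.helper23.WhB
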