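import Mathlib
import Pool.Agent.Lib.helper23.WhB

namespace Pool.Agent.Lib.helper23.WhC

open Finset Filter Topology Pool.Agent.Lib.helper23.WhA Pool.Agent.Lib.helper23.WhB

theorem exists_op : ∃ (B : Type) (_ : NormedAddCommGroup B) (_ : NormedSpace ℂ B)
    (_ : CompleteSpace B) (T : B →L[ℂ] B),
    (∃ x : B, ∀ y : B, ∃ n : ℕ → ℕ, ∀ φ : B →L[ℂ] ℂ,
      Tendsto (fun k => φ ((T ^ n k) x)) atTop (𝓝 (φ y))) ∧
    ¬ ∃ x : B, Dense (Set.range fun n : ℕ => (T ^ n) x) := by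
  obtain ⟨p, hp⟩ := exists_p
  obtain ⟨b, h⟩ := exists_good p
  obtain ⟨e, he⟩ := h.exists_sol 0 0
  let ρ : ℕ → ℝ := fun k =>
    1 + (range (b k + 1)).sup' nonempty_range_add_one fun j => ‖D p e k j‖ / 2 ^ j
  have hρ0 : ∀ k j, j ≤ b k → 1 + ‖D p e k j‖ / 2 ^ j ≤ ρ k := fun k j hj =>
    add_le_add_right (le_sup' (fun j => ‖D p e k j‖ / 2 ^ j) (mem_range.2 (by omega))) 1
  have hρ : ∀ k, 1 ≤ ρ k := fun k =>
    le_trans (le_add_of_nonneg_right (by positivity)) (hρ0 k 0 (Nat.zero_le _))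
  have hρ2 : ∀ k j, j ≤ b k → ‖D p e k j‖ ≤ 2 ^ j * ρ k := fun k j hj => by
    rw [← div_le_iff₀' (by positivity)]; linarith [hρ0 k j hj]
  obtain ⟨X, i1, i2, i3, x, ev, hd, h1, h2, h3⟩ :=
    exists_space {c | Mem p b ρ c} fun n => ⟨_, fun c hc => (hc n).1⟩
  have h4 : ∀ c (S : Finset ℕ) (a : ℕ → ℂ), ev c (∑ k ∈ S, a k • x k) = ∑ k ∈ S, a k * c.1 k :=
    fun c S a => by simp only [map_sum, map_smul, h1, smul_eq_mul]
  obtain ⟨T, hT⟩ := exists_ext hd (fun n => x (n + 1)) 2 fun S a =>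
    h3 _ _ (by positivity) fun c => by
      have h5 := h2 ⟨_, Mem.shift c.2 1⟩ (∑ k ∈ S, a k • x k)
      simp only [h4, ← mul_div_assoc, ← sum_div, norm_div, pow_one, Complex.norm_two,
        add_comm 1] at h5
      simp only [map_sum, map_smul, h1, smul_eq_mul]
      linarith
  have hT2 : ∀ m n, (T ^ m) (x n) = x (m + n) := fun m n => by
    induction m with
    | zero => simp
    | succ m ih => rw [pow_succ', mul_apply_eq_comp, ih, hT]; congr 1; omega
  refine ⟨X, i1, i2, i3, T, ⟨x 0, fun y => ?_⟩, ?_⟩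
  · choose k hk hk' using fun j : ℕ => approx hp hd y (1 / (j + 1)) (by positivity) j
    let P : ℕ → X := fun k => ∑ s ∈ range k, p k s • x s
    have h5 : ∀ k, ρ k ≤ 1 + ‖P k‖ := fun k => by
      refine add_le_add_right (sup'_le _ _ fun j _ => ?_) 1
      refine le_of_eq_of_le ?_ (h2 ⟨_, (h.mem_e he hρ).shift j⟩ (P k))
      simp only [P, h4, ← mul_div_assoc, ← sum_div, norm_div, norm_pow, Complex.norm_two, D]
    have h6 : Tendsto (fun j => P (k j)) atTop (𝓝 y) :=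
      tendsto_iff_norm_sub_tendsto_zero.2 (squeeze_zero (fun _ => norm_nonneg _) hk'
        tendsto_one_div_add_atTop_nhds_zero_nat)
    refine ⟨fun j => 8 * b (k j), fun f => ?_⟩
    have h7 := (weak_null (fun k => ((ρ k)⁻¹ : ℂ) • (x (8 * b k) - P k)) 2 (fun K ε hε =>
      h3 _ _ (by norm_num) fun c => by
        have := (c.2 0).2 K
        simp only [map_sum, map_smul, map_sub, h1, P, smul_eq_mul]
        refine (norm_sum_le _ _).trans (le_of_eq_of_le (sum_congr rfl fun k _ => ?_)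
          (this.trans_eq (by norm_num)))
        rw [norm_mul, hε, one_mul, norm_mul, norm_inv, Complex.norm_real,
          Real.norm_of_nonneg (zero_le_one.trans (hρ k)), div_eq_inv_mul]
        simp [D]) f).comp (tendsto_atTop_mono hk tendsto_id)
    have h8 : Tendsto (fun j => f (x (8 * b (k j)) - P (k j))) atTop (𝓝 0) := by
      refine squeeze_zero_norm (fun j => ?_) (by simpa using h7.norm.const_mul (2 + ‖y‖ + 1))
      have h9 := hρ (k j)
      have h10 := h5 (k j)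
      have h11 : ‖P (k j)‖ ≤ 1 + ‖y‖ := by
        have h12 : (1 : ℝ) / (j + 1) ≤ 1 := by
          rw [div_le_one (by positivity)]; linarith [Nat.cast_nonneg (α := ℝ) j]
        linarith [norm_sub_norm_le (P (k j)) y, hk' j]
      rw [abs_of_nonneg (by linarith), ← map_sub, ← mul_assoc]
      refine le_mul_of_one_le_left (norm_nonneg _) ?_
      rw [← div_eq_mul_inv, one_le_div (by linarith)]
      linarith
    have := h8.add ((f.continuous.tendsto y).comp h6)
    simpa [hT2] using this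
  · rintro ⟨z, hz⟩
    have h5 : ev ⟨e, h.mem_e he hρ⟩ (x 0) = 1 := (h1 _ _).trans he.1
    have : Nontrivial X := ⟨x 0, 0, fun h0 => by rw [h0, map_zero] at h5; exact zero_ne_one h5⟩
    obtain ⟨_, ⟨n, rfl⟩, hn⟩ := hz.exists_dist_lt (x 0) one_half_pos
    obtain ⟨_, ⟨⟨l, rfl⟩, hl⟩, hl'⟩ := (hz.sdiff_finite
      (Set.toFinite ((fun n : ℕ => (T ^ n) z) '' (range n : Finset ℕ)))).exists_dist_lt 0 one_half_pos
    have hnl : n ≤ l := not_lt.1 fun h0 => hl ⟨l, by simpa using h0, rfl⟩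
    obtain ⟨m, rfl⟩ := Nat.exists_eq_add_of_le' hnl
    obtain ⟨c, hc, hc1, hc2⟩ := h.main he hρ hρ2 m
    have h6 : (ev ⟨c, hc1⟩).comp (T ^ m) = ev ⟨_, hc2⟩ := by
      refine ContinuousLinearMap.ext_on hd ?_
      rintro _ ⟨k, rfl⟩
      rw [ContinuousLinearMap.comp_apply, hT2, h1, h1]
    have h7 := h2 ⟨_, hc2⟩ (x 0 - (T ^ n) z)
    have h8 := h2 ⟨c, hc1⟩ ((T ^ (m + n)) z)
    rw [pow_add, mul_apply_eq_comp, ← ContinuousLinearMap.comp_apply, h6] at h8
    rw [map_sub, h1] at h7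
    simp only [add_zero, hc] at h7
    rw [dist_eq_norm] at hn
    beta_reduce at hn hl'
    rw [dist_comm, dist_zero_right, pow_add, mul_apply_eq_comp] at hl'
    have h9 := norm_sub_norm_le 1 (ev ⟨_, hc2⟩ ((T ^ n) z))
    rw [norm_one] at h9
    linarith

end Pool.Agent.Lib.helper23.WhC
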