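import Mathlib

/-! A Poisson bracket on polynomials in eight variables and the centraliser of five elements. -/

namespace Pool.Agent.Lib.H23Zc

open MvPolynomial

/-- the bracket of the semidirect product, in coordinates -/
def br0 {R : Type} [CommRing R] (v w : Fin 8 → R) : Fin 8 → R :=
  ![-2 * (v 2 * w 0 - v 0 * w 2), 2 * (v 2 * w 1 - v 1 * w 2), v 1 * w 0 - v 0 * w 1, 0,
    (v 2 + 3 * v 3) * w 4 + v 1 * w 5 - (w 2 + 3 * w 3) * v 4 - w 1 * v 5,
    (3 * v 3 - v 2) * w 5 + v 0 * w 4 - (3 * w 3 - w 2) * v 5 - w 0 * v 4,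
    -(v 2 + 3 * v 3) * w 6 - v 0 * w 7 + (w 2 + 3 * w 3) * v 6 + w 0 * v 7,
    (v 2 - 3 * v 3) * w 7 - v 1 * w 6 - (w 2 - 3 * w 3) * v 7 + w 1 * v 6]

variable {k : Type} [Field k]

noncomputable def pb (F G : MvPolynomial (Fin 8) k) : MvPolynomial (Fin 8) k :=
  ∑ m, X m * br0 (fun i => pderiv i F) (fun i => pderiv i G) m

theorem pb_skew (F G : MvPolynomial (Fin 8) k) : pb F G = -pb G F := by
  simp [pb, br0, Fin.sum_univ_eight]; ring

theorem pb_mul (F G H : MvPolynomial (Fin 8) k) : pb F (G * H) = pb F G * H + G * pb F H := by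
  simp [pb, br0, Fin.sum_univ_eight]; ring

theorem pb_add (F G H : MvPolynomial (Fin 8) k) : pb F (G + H) = pb F G + pb F H := by
  simp [pb, br0, Fin.sum_univ_eight]; ring

theorem pb_C (F : MvPolynomial (Fin 8) k) (c : k) : pb F (C c) = 0 := by
  simp [pb, br0, Fin.sum_univ_eight]

theorem pb_smul (F G : MvPolynomial (Fin 8) k) (c : k) : pb F (c • G) = c • pb F G := by
  rw [smul_eq_C_mul, smul_eq_C_mul, pb_mul, pb_C]; ring

theorem d2 (i : Fin 8) : pderiv i (2 : MvPolynomial (Fin 8) k) = 0 := by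
  rw [show (2 : MvPolynomial (Fin 8) k) = C 2 from rfl, pderiv_C]

/-- the five generators -/
noncomputable def gen (k : Type) [Field k] : Fin 5 → MvPolynomial (Fin 8) k :=
  ![X 3, X 4 * X 7, X 4 * X 6, X 5 * X 7,
    2 * (X 4 * X 7) * X 0 + ((X 4 * X 6 - X 5 * X 7) * X 2 + 2 * (X 5 * X 6) * X 1)]

/-- the centraliser of a set -/
def cent (s : Set (MvPolynomial (Fin 8) k)) : Subalgebra k (MvPolynomial (Fin 8) k) where
  carrier := {F | ∀ g ∈ s, pb g F = 0}
  mul_mem' ha hb g hg := by rw [pb_mul, ha g hg, hb g hg]; ring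
  add_mem' ha hb g hg := by rw [pb_add, ha g hg, hb g hg]; ring
  algebraMap_mem' c g _ := pb_C g c

theorem gen_mem (i : Fin 5) : gen k i ∈ cent (Set.range (gen k)) := by
  rintro _ ⟨j, rfl⟩
  fin_cases i <;> fin_cases j <;> simp [gen, pb, br0, Fin.sum_univ_eight, d2] <;> ring

theorem v_mem : X 5 * X 6 ∈ cent (Set.range (gen k)) := by
  rintro _ ⟨j, rfl⟩
  fin_cases j <;> simp [gen, pb, br0, Fin.sum_univ_eight, d2] <;> ring

theorem pb0 (F : MvPolynomial (Fin 8) k) : pb (gen k 0) F =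
    3 * (X 4 * pderiv 4 F + X 5 * pderiv 5 F - X 6 * pderiv 6 F - X 7 * pderiv 7 F) := by
  simp [gen, pb, br0, Fin.sum_univ_eight]; ring

theorem pb1 (F : MvPolynomial (Fin 8) k) : pb (gen k 1) F =
    -2 * (X 4 * X 7) * pderiv 2 F + (X 4 * X 6 - X 5 * X 7) * pderiv 0 F := by
  simp [gen, pb, br0, Fin.sum_univ_eight]; ring

theorem pb2 (F : MvPolynomial (Fin 8) k) : pb (gen k 2) F =
    (X 4 * X 7) * pderiv 1 F - (X 5 * X 6) * pderiv 0 F := by
  simp [gen, pb, br0, Fin.sum_univ_eight]; ring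

/-- elements that lie in the algebra of the generators after multiplication by a power of `u` -/
def sat (k : Type) [Field k] : Subalgebra k (MvPolynomial (Fin 8) k) where
  carrier := {F | ∃ N : ℕ, gen k 1 ^ N * F ∈ Algebra.adjoin k (Set.range (gen k))}
  mul_mem' := fun ⟨N, h⟩ ⟨M, h'⟩ => ⟨N + M, by convert mul_mem h h' using 1; ring⟩
  add_mem' := fun ⟨N, h⟩ ⟨M, h'⟩ => ⟨N + M, by
    have u := Algebra.subset_adjoin (R := k) (Set.mem_range_self (f := gen k) 1)
    convert add_mem (mul_mem (pow_mem u M) h) (mul_mem (pow_mem u N) h') using 1; ring⟩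
  algebraMap_mem' c := ⟨0, by rw [pow_zero, one_mul]; exact Subalgebra.algebraMap_mem _ c⟩

theorem gen_sat (i : Fin 5) : gen k i ∈ sat k :=
  ⟨0, by simpa using Algebra.subset_adjoin (Set.mem_range_self i)⟩

theorem u_ne : gen k 1 ≠ 0 := by simp [gen]

theorem pb_pow {g u : MvPolynomial (Fin 8) k} (h : pb g u = 0) (N : ℕ) (F) :
    pb g (u ^ N * F) = u ^ N * pb g F := by
  induction N with
  | zero => simp
  | succ N ih => rw [pow_succ', mul_assoc, pb_mul, h, ih]; ring

theorem sat_le {s : Set (MvPolynomial (Fin 8) k)} (h : ∀ i, gen k i ∈ cent s) : sat k ≤ cent s := by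
  rintro F ⟨N, hN⟩ g hg
  have := (Algebra.adjoin_le (S := cent s) (by rintro _ ⟨i, rfl⟩; exact h i) hN) g hg
  rw [pb_pow (h 1 g hg)] at this
  exact (mul_eq_zero.1 this).resolve_left (pow_ne_zero _ u_ne)

theorem co_d (F : MvPolynomial (Fin 8) k) (i : Fin 7) (n : ℕ) :
    (finSuccEquiv k 7 (pderiv i.succ F)).coeff n = pderiv i ((finSuccEquiv k 7 F).coeff n) := by
  ext m
  rw [finSuccEquiv_coeff_coeff, coeff_pderiv, coeff_pderiv, finSuccEquiv_coeff_coeff,
    Finsupp.cons_succ]
  congr 2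
  ext j
  refine Fin.cases ?_ (fun j => ?_) j <;> simp [Finsupp.single_apply, (Fin.succ_ne_zero _)]

theorem co_0 (F : MvPolynomial (Fin 8) k) (n : ℕ) (h : (finSuccEquiv k 7 F).coeff (n + 1) = 0) :
    (finSuccEquiv k 7 (pderiv 0 F)).coeff n = 0 := by
  ext m
  have := congrArg (coeff m) h
  rw [finSuccEquiv_coeff_coeff] at this ⊢
  rw [coeff_pderiv, show Finsupp.cons n m + Finsupp.single 0 1 = Finsupp.cons (n + 1) m by
    ext j; refine Fin.cases ?_ (fun j => ?_) j <;> simp, this]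
  simp

theorem coeff_euler (c : MvPolynomial (Fin 7) k) (i : Fin 7) (m : Fin 7 →₀ ℕ) :
    coeff m (X i * pderiv i c) = m i * coeff m c := by
  induction c using MvPolynomial.induction_on' with
  | monomial u a =>
    rw [X_mul_pderiv_monomial, coeff_smul, coeff_monomial]
    split_ifs with h <;> simp [h]
  | add p q hp hq => simp [mul_add, hp, hq]

theorem top_sat [CharZero k] (c : MvPolynomial (Fin 7) k) (h0 : pderiv 0 c = 0) (h1 : pderiv 1 c = 0)
    (h2 : X 3 * pderiv 3 c + X 4 * pderiv 4 c = X 5 * pderiv 5 c + X 6 * pderiv 6 c) :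
    rename Fin.succ c ∈ sat k := by
  rw [c.as_sum, map_sum]
  refine Subalgebra.sum_mem _ fun m hm => ?_
  rw [mem_support_iff] at hm
  have a0 := coeff_euler c 0 m
  have a1 := coeff_euler c 1 m
  have a2 := congrArg (coeff m) h2
  simp only [h0, h1, mul_zero, coeff_zero, zero_eq_mul, hm, or_false, Nat.cast_eq_zero] at a0 a1
  rw [coeff_add, coeff_add, coeff_euler, coeff_euler, coeff_euler, coeff_euler, ← add_mul, ← add_mul,
    mul_left_inj' hm] at a2
  have a3 : m 3 + m 4 = m 5 + m 6 := by exact_mod_cast a2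
  have g := fun i => Algebra.subset_adjoin (R := k) (Set.mem_range_self (f := gen k) i)
  refine ⟨m 4, ?_⟩
  convert mul_mem (Subalgebra.algebraMap_mem _ (coeff m c)) (mul_mem (pow_mem (g 0) (m 2))
    (mul_mem (pow_mem (g 1) (m 6)) (mul_mem (pow_mem (g 2) (m 5)) (pow_mem (g 3) (m 4))))) using 1
  rw [monomial_eq, Finsupp.prod_fintype _ _ (by simp), Fin.prod_univ_seven, a0, a1]
  simp only [gen, map_mul, map_pow, rename_X, rename_C, algebraMap_eq]
  simp only [Matrix.cons_val, Matrix.cons_val_zero, Matrix.cons_val_one, mul_pow]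
  have : (X 4 : MvPolynomial (Fin 8) k) ^ m 3 * X 4 ^ m 4 = X 4 ^ m 5 * X 4 ^ m 6 := by
    rw [← pow_add, ← pow_add, a3]
  simp only [Fin.reduceSucc]
  linear_combination (C (coeff m c) * X 3 ^ m 2 * X 5 ^ m 4 * X 6 ^ m 5 * X 7 ^ m 6 * X 7 ^ m 4) * this

theorem psi_rename (c : MvPolynomial (Fin 7) k) :
    finSuccEquiv k 7 (rename Fin.succ c) = Polynomial.C c := by
  induction c using MvPolynomial.induction_on with
  | C a => rw [rename_C, ← algebraMap_eq, AlgEquiv.commutes]; rfl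
  | add p q hp hq => simp only [map_add, hp, hq]
  | mul_X p i hp => simp only [map_mul, hp, rename_X, finSuccEquiv_X_succ]

theorem cent_le [CharZero k] : cent (Set.range (gen k)) ≤ sat k := by
  suffices h : ∀ N : ℕ, ∀ F ∈ cent (Set.range (gen k)),
      (∀ m, N ≤ m → (finSuccEquiv k 7 F).coeff m = 0) → F ∈ sat k from fun F hF =>
    h _ F hF fun m hm => Polynomial.coeff_eq_zero_of_natDegree_lt (Nat.lt_of_succ_le hm)
  have x : ∀ i : Fin 7, finSuccEquiv k 7 (X i.succ) = Polynomial.C (X i) := fun i =>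
    finSuccEquiv_X_succ
  have x4 : finSuccEquiv k 7 (X 4) = _ := x 3
  have x5 : finSuccEquiv k 7 (X 5) = _ := x 4
  have x6 : finSuccEquiv k 7 (X 6) = _ := x 5
  have x7 : finSuccEquiv k 7 (X 7) = _ := x 6
  have n2 : (2 : MvPolynomial (Fin 7) k) ≠ 0 := two_ne_zero
  have n3 : (3 : MvPolynomial (Fin 8) k) ≠ 0 := by norm_num
  intro N
  induction N with
  | zero =>
    intro F _ h
    rw [(map_eq_zero_iff _ (finSuccEquiv k 7).injective).1
      (Polynomial.ext fun m => h m (Nat.zero_le _))]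
    exact zero_mem _
  | succ N ih =>
    intro F hF h
    have d0 := co_0 F N (h _ le_rfl)
    have e0 := congrArg (fun G => (finSuccEquiv k 7 G).coeff N)
      (sub_eq_zero.1 ((mul_eq_zero.1 ((pb0 F).symm.trans (hF _ ⟨0, rfl⟩))).resolve_left n3))
    have e1 := congrArg (fun G => (finSuccEquiv k 7 G).coeff N) ((pb1 F).symm.trans (hF _ ⟨1, rfl⟩))
    have e2 := congrArg (fun G => (finSuccEquiv k 7 G).coeff N) ((pb2 F).symm.trans (hF _ ⟨2, rfl⟩))
    have c1 : (finSuccEquiv k 7 (pderiv 1 F)).coeff N = _ := co_d F 0 N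
    have c2 : (finSuccEquiv k 7 (pderiv 2 F)).coeff N = _ := co_d F 1 N
    have c4 : (finSuccEquiv k 7 (pderiv 4 F)).coeff N = _ := co_d F 3 N
    have c5 : (finSuccEquiv k 7 (pderiv 5 F)).coeff N = _ := co_d F 4 N
    have c6 : (finSuccEquiv k 7 (pderiv 6 F)).coeff N = _ := co_d F 5 N
    have c7 : (finSuccEquiv k 7 (pderiv 7 F)).coeff N = _ := co_d F 6 N
    simp only [map_add, map_sub, map_mul, map_neg, map_ofNat, x4, x5, x6, x7, sub_mul, mul_assoc,
      neg_mul, Polynomial.coeff_add, Polynomial.coeff_sub, Polynomial.coeff_neg,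
      Polynomial.coeff_C_mul, Polynomial.coeff_ofNat_mul, c1, c2, c4, c5, c6, c7, d0, map_zero,
      Polynomial.coeff_zero, mul_zero, sub_zero, add_zero, neg_eq_zero, mul_eq_zero, X_ne_zero,
      false_or, n2] at e0 e1 e2
    have hc := top_sat _ e2 e1 (by linear_combination e0)
    have m1 := mul_mem hc (pow_mem (gen_sat (k := k) 4) N)
    have m2 : (2 * gen k 1) ^ N * F - _ ∈ sat k := ih _ (sub_mem
      (mul_mem (pow_mem (mul_mem (ofNat_mem _ 2) (gen_mem 1)) N) hF) (sat_le gen_mem m1)) <| by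
      intro m hm
      have g1 : finSuccEquiv k 7 (2 * gen k 1) = Polynomial.C (2 * (X 3 * X 6)) := by
        simp [gen, x4, x7, map_ofNat]
      have g4 : finSuccEquiv k 7 (gen k 4) = Polynomial.C (2 * (X 3 * X 6)) * Polynomial.X +
          Polynomial.C ((X 3 * X 5 - X 4 * X 6) * X 1 + 2 * (X 4 * X 5) * X 0) := by
        simp [gen, x4, x5, x6, x7, map_ofNat, finSuccEquiv_X_zero, show finSuccEquiv k 7 (X 1) = _ from x 0,
          show finSuccEquiv k 7 (X 2) = _ from x 1]
      have dg : (finSuccEquiv k 7 (gen k 4)).natDegree ≤ 1 := g4 ▸ Polynomial.natDegree_linear_le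
      rw [map_sub, map_mul, map_mul, map_pow, map_pow, g1, psi_rename, ← map_pow,
        Polynomial.coeff_sub, Polynomial.coeff_C_mul, Polynomial.coeff_C_mul]
      rcases hm.lt_or_eq with hm | rfl
      · rw [h m hm, Polynomial.coeff_eq_zero_of_natDegree_lt
          ((Polynomial.natDegree_pow_le_of_le N dg).trans_lt (by omega))]
        simp
      · have := Polynomial.coeff_pow_of_natDegree_le (m := N) dg
        rw [mul_one] at this
        rw [this, g4]
        simp [mul_comm]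
    obtain ⟨M, hM⟩ := add_mem m2 m1
    refine ⟨M + N, ?_⟩
    convert Subalgebra.smul_mem _ hM ((2 : k) ^ N)⁻¹ using 1
    have : (C ((2 : k) ^ N)⁻¹ : MvPolynomial (Fin 8) k) * 2 ^ N = 1 := by
      rw [show (2 : MvPolynomial (Fin 8) k) = C 2 from rfl, ← map_pow, ← map_mul,
        inv_mul_cancel₀ (pow_ne_zero _ two_ne_zero), map_one]
    rw [smul_eq_C_mul, sub_add_cancel, mul_pow]
    linear_combination (-(gen k 1 ^ M * gen k 1 ^ N * F)) * this

theorem cent_comm [CharZero k] {F G : MvPolynomial (Fin 8) k} (hF : F ∈ cent (Set.range (gen k)))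
    (hG : G ∈ cent (Set.range (gen k))) : pb F G = 0 :=
  sat_le (s := {F}) (fun i g hg => by rw [hg, pb_skew, hF _ ⟨i, rfl⟩, neg_zero]) (cent_le hG) F rfl

theorem gen_indep [CharZero k] : AlgebraicIndependent k (gen k) := by
  let T : Fin 5 → FractionRing (MvPolynomial (Fin 5) k) := fun i =>
    algebraMap (MvPolynomial (Fin 5) k) _ (X i)
  have hT : AlgebraicIndependent k T := (algebraicIndependent_X (Fin 5) k).map'
    (f := IsScalarTower.toAlgHom k _ _) (IsFractionRing.injective _ _)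
  have n : T 1 ≠ 0 := by simp [T]
  refine AlgebraicIndependent.of_comp (aeval ![T 4 / (2 * T 1), 0, 0, T 0, 1, T 3 / T 1, T 2, T 1]) ?_
  convert hT using 1
  ext i
  fin_cases i <;> simp [gen, map_ofNat] <;> field_simp

theorem cent_trdeg [CharZero k] : Algebra.trdeg k (cent (Set.range (gen k))) = 5 := by
  let v : Fin 5 → cent (Set.range (gen k)) := fun i => ⟨gen k i, gen_mem i⟩
  have hv : AlgebraicIndependent k v := AlgebraicIndependent.of_comp (Subalgebra.val _) gen_indep
  have : IsTranscendenceBasis k v := hv.isTranscendenceBasis_iff_isAlgebraic.2 ⟨fun F => by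
    obtain ⟨N, hN⟩ := cent_le F.2
    have e : (Algebra.adjoin k (Set.range v)).map (Subalgebra.val _) =
        Algebra.adjoin k (Set.range (gen k)) := by
      rw [AlgHom.map_adjoin, ← Set.range_comp]; rfl
    rw [← e] at hN
    obtain ⟨G, g1, g2⟩ := hN
    have u : v 1 ^ N ∈ Algebra.adjoin k (Set.range v) :=
      pow_mem (Algebra.subset_adjoin (Set.mem_range_self 1)) N
    refine IsAlgebraic.of_mul (y := v 1 ^ N) (mem_nonZeroDivisors_of_ne_zero (pow_ne_zero _
      fun c => u_ne (k := k) (congrArg Subtype.val c))) (isAlgebraic_algebraMap (⟨_, u⟩ : Algebra.adjoin k _)) ?_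
    rw [show v 1 ^ N * F = G from Subtype.ext g2.symm]
    exact isAlgebraic_algebraMap (⟨_, g1⟩ : Algebra.adjoin k _)⟩
  simpa using this.lift_cardinalMk_eq_trdeg.symm

theorem cent_not_ufd [CharZero k] : ¬ UniqueFactorizationMonoid (cent (Set.range (gen k))) := by
  intro _
  have key : ∀ a b : cent (Set.range (gen k)), X 4 * X 7 = a.1 * b.1 → X 4 ∣ a.1 → IsUnit b := by
    rintro a b h ⟨c, hc⟩
    rw [hc, mul_assoc, mul_right_inj' (X_ne_zero _)] at h
    rcases X_prime.irreducible.isUnit_or_isUnit h with h2 | h2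
    · obtain ⟨r, r1, rfl⟩ := isUnit_iff_eq_C_of_isReduced.1 h2
      have := a.2 _ ⟨0, rfl⟩
      rw [pb0, hc] at this
      simp [r1.ne_zero] at this
    · obtain ⟨r, r1, r2⟩ := isUnit_iff_eq_C_of_isReduced.1 h2
      rw [show b = algebraMap k _ r from Subtype.ext r2]
      exact r1.map _
  have irr : Irreducible (⟨gen k 1, gen_mem 1⟩ : cent (Set.range (gen k))) := by
    refine ⟨fun h => ?_, fun a b h => ?_⟩
    · have : IsUnit (X 4 * X 7 : MvPolynomial (Fin 8) k) := h.map (Subalgebra.val _)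
      exact X_prime.not_isUnit (isUnit_of_mul_isUnit_left this)
    · have h : X 4 * X 7 = a.1 * b.1 := congrArg Subtype.val h
      rcases (X_prime (i := 4)).dvd_or_dvd (h ▸ dvd_mul_right _ _) with c | c
      · exact .inr (key a b h c)
      · exact .inl (key b a (h.trans (mul_comm _ _)) c)
  rcases (UniqueFactorizationMonoid.irreducible_iff_prime.1 irr).dvd_or_dvd
    (a := ⟨_, gen_mem 2⟩) (b := ⟨_, gen_mem 3⟩) ⟨⟨_, v_mem⟩, Subtype.ext
      (show (X 4 * X 6) * (X 5 * X 7) = (X 4 * X 7) * (X 5 * X 6) by ring)⟩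
    with ⟨c, h⟩ | ⟨c, h⟩
  · have := congrArg (eval (fun i => if i = 7 then 0 else 1))
      (show X 4 * X 6 = X 4 * X 7 * c.1 from congrArg Subtype.val h)
    simp at this
  · have := congrArg (eval (fun i => if i = 4 then 0 else 1))
      (show X 5 * X 7 = X 4 * X 7 * c.1 from congrArg Subtype.val h)
    simp at this

end Pool.Agent.Lib.H23Zc
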