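import Mathlib
import Pool.Agent.Lib.helper23.ZcA

/-! The Lie algebra sl3 in coordinates, coadjoint stabilisers of its contraction. -/

namespace Pool.Agent.Lib.H23Zc

open MvPolynomial

variable {k : Type} [Field k]

/-- the bracket of two odd parts -/
def br1 (v w : Fin 8 → k) : Fin 8 → k :=
  ![2 * (v 5 * w 6 - v 6 * w 5), 2 * (v 4 * w 7 - v 7 * w 4),
    (v 4 * w 6 - v 6 * w 4) - (v 5 * w 7 - v 7 * w 5),
    (v 4 * w 6 - v 6 * w 4) + (v 5 * w 7 - v 7 * w 5), 0, 0, 0, 0]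

def br (v w : Fin 8 → k) : Fin 8 → k := br0 v w + br1 v w

/-- the underlying space -/
def G (k : Type) : Type := Fin 8 → k

instance : AddCommGroup (G k) := inferInstanceAs (AddCommGroup (Fin 8 → k))
instance : Module k (G k) := inferInstanceAs (Module k (Fin 8 → k))
instance : Module.Finite k (G k) := inferInstanceAs (Module.Finite k (Fin 8 → k))

instance : LieRing (G k) where
  bracket := br
  add_lie (x y z : Fin 8 → k) := show br (x + y) z = br x z + br y z by
    ext i; fin_cases i <;> simp [br, br0, br1] <;> ring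
  lie_add (x y z : Fin 8 → k) := show br x (y + z) = br x y + br x z by
    ext i; fin_cases i <;> simp [br, br0, br1] <;> ring
  lie_self (x : Fin 8 → k) := show br x x = 0 by
    ext i; fin_cases i <;> simp [br, br0, br1] <;> ring
  leibniz_lie (x y z : Fin 8 → k) := show br x (br y z) = br (br x y) z + br y (br x z) by
    ext i; fin_cases i <;> simp [br, br0, br1] <;> ring

instance : LieAlgebra k (G k) where
  lie_smul c (x y : Fin 8 → k) := show br x (c • y) = c • br x y by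
    ext i; fin_cases i <;> simp [br, br0, br1] <;> ring

def bs (i : Fin 8) : G k := (Pi.single i 1 : Fin 8 → k)

theorem simple [CharZero k] : LieAlgebra.IsSimple k (G k) where
  non_abelian h := by
    have := congrFun (show br (bs (k := k) 1) (bs 0) = 0 from h.trivial (bs 1) (bs 0)) 2
    simp [br, br0, br1, bs] at this
  eq_bot_or_eq_top I := by
    have st : ∀ (i j : Fin 8) (c : k) (v : G k), v ∈ I → c ≠ 0 → br (bs i) v = Pi.single j c →
        bs j ∈ I := fun i j c v hv hc h => (I.toSubmodule.smul_mem_iff hc).1 (by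
      have e : (c • bs j : G k) = ⁅bs (k := k) i, v⁆ := (show c • (Pi.single j 1 : Fin 8 → k) = _ by
        rw [← Pi.single_smul, smul_eq_mul, mul_one]).trans h.symm
      exact e ▸ I.lie_mem hv)
    have s04 : bs 0 ∈ I → bs 5 ∈ I := fun h => st 4 5 (-1) _ h (by norm_num) (by
      ext i; fin_cases i <;> simp [br, br0, br1, bs])
    have s54 : bs 5 ∈ I → bs 4 ∈ I := fun h => st 1 4 1 _ h (by norm_num) (by
      ext i; fin_cases i <;> simp [br, br0, br1, bs])
    have s41 : bs 4 ∈ I → bs 1 ∈ I := fun h => st 7 1 (-2) _ h (by norm_num) (by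
      ext i; fin_cases i <;> simp [br, br0, br1, bs])
    have s17 : bs 1 ∈ I → bs 7 ∈ I := fun h => st 6 7 1 _ h (by norm_num) (by
      ext i; fin_cases i <;> simp [br, br0, br1, bs])
    have s76 : bs 7 ∈ I → bs 6 ∈ I := fun h => st 0 6 (-1) _ h (by norm_num) (by
      ext i; fin_cases i <;> simp [br, br0, br1, bs])
    have s60 : bs 6 ∈ I → bs 0 ∈ I := fun h => st 5 0 2 _ h (by norm_num) (by
      ext i; fin_cases i <;> simp [br, br0, br1, bs])
    have top : bs 0 ∈ I → I = ⊤ := fun h0 => by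
      have h5 := s04 h0
      have h4 := s54 h5
      have h1 := s41 h4
      have h7 := s17 h1
      have h6 := s76 h7
      have h2 : bs 2 ∈ I := st 1 2 1 _ h0 (by norm_num) (by
        ext i; fin_cases i <;> simp [br, br0, br1, bs])
      have h3 : bs 3 ∈ I := by
        have := sub_mem (I.lie_mem (x := bs 4) h6) h2
        have e : ∀ x y : Fin 8 → k, x = Pi.single 3 1 + y → x - y = Pi.single 3 1 := fun x y h => by
          rw [h, add_sub_cancel_right]
        rwa [show ⁅bs (k := k) 4, bs (k := k) 6⁆ - bs (k := k) 2 = bs 3 from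
          e (br (bs 4) (bs 6)) (Pi.single 2 1) (by
            ext i; fin_cases i <;> simp [br, br0, br1, bs])] at this
      refine eq_top_iff.2 fun (v : Fin 8 → k) _ => ?_
      rw [pi_eq_sum_univ' v]
      refine I.toSubmodule.sum_mem fun i _ => I.toSubmodule.smul_mem _ ?_
      fin_cases i <;> assumption
    by_contra hc
    rw [not_or] at hc
    obtain ⟨v : Fin 8 → k, hv, hv0⟩ := I.toSubmodule.exists_mem_ne_zero_of_ne_bot
      (fun h => hc.1 (LieSubmodule.toSubmodule_injective h))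
    have n0 : bs 0 ∉ I := fun h => hc.2 (top h)
    have n6 : bs 6 ∉ I := fun h => n0 (s60 h)
    have n7 : bs 7 ∉ I := fun h => n6 (s76 h)
    have n1 : bs 1 ∉ I := fun h => n7 (s17 h)
    have n4 : bs 4 ∉ I := fun h => n1 (s41 h)
    have n5 : bs 5 ∉ I := fun h => n4 (s54 h)
    have d : ∀ (j : Fin 8) (c : k), bs j ∉ I → br (bs j) (br (bs j) v) = Pi.single j c → c = 0 :=
      fun j c hj h => by_contra fun hc => hj (st j j c _ (I.lie_mem (x := bs j) hv) hc h)
    have v1 := d 0 (-2 * v 1) n0 (by ext i; fin_cases i <;> simp [br, br0, br1, bs] <;> ring)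
    have v0 := d 1 (-2 * v 0) n1 (by ext i; fin_cases i <;> simp [br, br0, br1, bs] <;> ring)
    have v6 := d 4 (-4 * v 6) n4 (by ext i; fin_cases i <;> simp [br, br0, br1, bs] <;> ring)
    have v7 := d 5 (-4 * v 7) n5 (by ext i; fin_cases i <;> simp [br, br0, br1, bs] <;> ring)
    have v4 := d 6 (-4 * v 4) n6 (by ext i; fin_cases i <;> simp [br, br0, br1, bs] <;> ring)
    have v5 := d 7 (-4 * v 5) n7 (by ext i; fin_cases i <;> simp [br, br0, br1, bs] <;> ring)
    simp only [mul_eq_zero, neg_eq_zero, OfNat.ofNat_ne_zero, false_or] at v0 v1 v4 v5 v6 v7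
    have v2 : -2 * v 2 = 0 := by_contra fun hc => n1 (st 1 1 _ v hv hc (by
      ext i; fin_cases i <;> simp [br, br0, br1, bs, v0, v5, v6]))
    simp only [mul_eq_zero, neg_eq_zero, OfNat.ofNat_ne_zero, false_or] at v2
    have v3 : -3 * v 3 = 0 := by_contra fun hc => n4 (st 4 4 _ v hv hc (by
      ext i; fin_cases i <;> simp [br, br0, br1, bs, v0, v2, v6, v7]))
    simp only [mul_eq_zero, neg_eq_zero, OfNat.ofNat_ne_zero, false_or] at v3
    exact hv0 (funext fun i => by fin_cases i <;> assumption)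

/-- the sign pattern of the involution -/
def sg (v : Fin 8 → k) : Fin 8 → k := ![v 0, v 1, v 2, v 3, -v 4, -v 5, -v 6, -v 7]

/-- the involution -/
def inv (k : Type) [Field k] : G k →ₗ⁅k⁆ G k where
  toFun := sg
  map_add' (x y : Fin 8 → k) := show sg (x + y) = sg x + sg y by
    ext i; fin_cases i <;> simp [sg] <;> ring
  map_smul' c (x : Fin 8 → k) := show sg (c • x) = c • sg x by
    ext i; fin_cases i <;> simp [sg]
  map_lie' {x y : Fin 8 → k} := show sg (br x y) = br (sg x) (sg y) by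
    ext i; fin_cases i <;> simp [sg, br, br0, br1] <;> ring

/-- the stabiliser of a point -/
def St (a : Fin 8 → k) : Submodule k (Fin 8 → k) where
  carrier := {w | ∀ y, ∑ m, a m * br0 w y m = 0}
  add_mem' {v w} h1 h2 y := by
    have := h1 y; have := h2 y
    simp [br0, Fin.sum_univ_eight] at *; grind
  zero_mem' y := by simp [br0, Fin.sum_univ_eight]
  smul_mem' c w h y := by
    have := h y
    simp [br0, Fin.sum_univ_eight] at *; grind

theorem two_le_of (a v w : Fin 8 → k) (hv : v ∈ St a) (hw : w ∈ St a) (i j : Fin 8)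
    (h1 : v i ≠ 0) (h2 : w i = 0) (h3 : w j ≠ 0) : 2 ≤ Module.finrank k (St a) := by
  have : LinearIndependent k ![(⟨v, hv⟩ : St a), ⟨w, hw⟩] := by
    rw [LinearIndependent.pair_iff]
    intro s t h
    have a1 : s * v i + t * w i = 0 := congrFun (congrArg Subtype.val h) i
    have a2 : s * v j + t * w j = 0 := congrFun (congrArg Subtype.val h) j
    grind
  simpa using this.fintype_card_le_finrank

theorem two_le [CharZero k] (a : Fin 8 → k) : 2 ≤ Module.finrank k (St a) := by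
  by_cases c1 : a 6 = 0 ∧ a 7 = 0
  · refine two_le_of a (Pi.single 6 1) (Pi.single 7 1) (fun y => ?_) (fun y => ?_) 6 7 (by simp)
      (by simp) (by simp) <;> simp [br0, Fin.sum_univ_eight, c1.1, c1.2]
  by_cases c2 : a 4 = 0 ∧ a 5 = 0
  · refine two_le_of a (Pi.single 4 1) (Pi.single 5 1) (fun y => ?_) (fun y => ?_) 4 5 (by simp)
      (by simp) (by simp) <;> simp [br0, Fin.sum_univ_eight, c2.1, c2.2]
  have hw : ![0, 0, 0, 0, a 6, a 7, a 4, a 5] ∈ St a := fun y => by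
    simp [br0, Fin.sum_univ_eight]; ring
  have hv : ![6 * a 4 * a 7, 6 * a 5 * a 6, 3 * (a 4 * a 6 - a 5 * a 7), -(a 4 * a 6 + a 5 * a 7),
      (3 * a 2 - a 3) * a 6 + 6 * a 0 * a 7, -(3 * a 2 + a 3) * a 7 + 6 * a 1 * a 6,
      (3 * a 2 - a 3) * a 4 + 6 * a 1 * a 5, -(3 * a 2 + a 3) * a 5 + 6 * a 0 * a 4] ∈ St a :=
    fun y => by simp [br0, Fin.sum_univ_eight]; ring
  obtain ⟨j, hj⟩ : ∃ j, (![0, 0, 0, 0, a 6, a 7, a 4, a 5] : Fin 8 → k) j ≠ 0 := by
    by_cases c : a 6 = 0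
    · exact ⟨5, fun h => c1 ⟨c, h⟩⟩
    · exact ⟨4, c⟩
  by_cases d0 : 6 * a 4 * a 7 = 0
  · by_cases d1 : 6 * a 5 * a 6 = 0
    · by_cases d2 : 3 * (a 4 * a 6 - a 5 * a 7) = 0
      · exact two_le_of a _ _ hv hw 3 j (show -(a 4 * a 6 + a 5 * a 7) ≠ 0 by grind) rfl hj
      · exact two_le_of a _ _ hv hw 2 j d2 rfl hj
    · exact two_le_of a _ _ hv hw 1 j d1 rfl hj
  · exact two_le_of a _ _ hv hw 0 j d0 rfl hj

theorem le_two_of (a : Fin 8 → k) (f g : (Fin 8 → k) →ₗ[k] k)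
    (h : ∀ w ∈ St a, f w = 0 → g w = 0 → w = 0) : Module.finrank k (St a) ≤ 2 := by
  have := LinearMap.finrank_le_finrank_of_injective (f := (f.prod g).domRestrict (St a))
    ((injective_iff_map_eq_zero _).2 fun w hw => Subtype.ext
      (h w.1 w.2 (congrArg Prod.fst hw) (congrArg Prod.snd hw)))
  simpa using this

theorem eqs {a w : Fin 8 → k} (h : w ∈ St a) :
    -2 * w 2 * a 0 + w 1 * a 2 - w 4 * a 5 + w 7 * a 6 = 0 ∧
    2 * w 2 * a 1 - w 0 * a 2 - w 5 * a 4 + w 6 * a 7 = 0 ∧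
    2 * w 0 * a 0 - 2 * w 1 * a 1 - w 4 * a 4 + w 5 * a 5 + w 6 * a 6 - w 7 * a 7 = 0 ∧
    3 * (w 4 * a 4 + w 5 * a 5 - w 6 * a 6 - w 7 * a 7) = 0 ∧
    (w 2 + 3 * w 3) * a 4 + w 0 * a 5 = 0 ∧ (3 * w 3 - w 2) * a 5 + w 1 * a 4 = 0 ∧
    (w 2 + 3 * w 3) * a 6 + w 1 * a 7 = 0 ∧ (3 * w 3 - w 2) * a 7 + w 0 * a 6 = 0 := by
  have h0 := h (Pi.single 0 1)
  have h1 := h (Pi.single 1 1)
  have h2 := h (Pi.single 2 1)
  have h3 := h (Pi.single 3 1)
  have h4 := h (Pi.single 4 1)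
  have h5 := h (Pi.single 5 1)
  have h6 := h (Pi.single 6 1)
  have h7 := h (Pi.single 7 1)
  simp [br0, Fin.sum_univ_eight] at h0 h1 h2 h3 h4 h5 h6 h7
  refine ⟨?_, ?_, ?_, ?_, ?_, ?_, ?_, ?_⟩ <;> grind

theorem le_two [CharZero k] (a : Fin 8 → k)
    (h1 : a 6 ≠ 0 ∨ a 7 ≠ 0 ∨ a 4 * a 5 * a 2 - a 4 ^ 2 * a 0 + a 5 ^ 2 * a 1 ≠ 0)
    (h2 : a 4 ≠ 0 ∨ a 5 ≠ 0 ∨ a 6 * a 7 * a 2 + a 7 ^ 2 * a 0 - a 6 ^ 2 * a 1 ≠ 0) :
    Module.finrank k (St a) ≤ 2 := by
  have fin : ∀ w : Fin 8 → k, w 0 = 0 ∧ w 1 = 0 ∧ w 2 = 0 ∧ w 3 = 0 ∧ w 4 = 0 ∧ w 5 = 0 ∧ w 6 = 0 ∧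
      w 7 = 0 → w = 0 := fun w ⟨_, _, _, _, _, _, _, _⟩ => funext fun i => by
    fin_cases i <;> assumption
  by_cases c1 : a 6 = 0 ∧ a 7 = 0
  · refine le_two_of a (.proj 6) (.proj 7) fun w hw (w6 : w 6 = 0) (w7 : w 7 = 0) => fin w ?_
    obtain ⟨e0, e1, e2, e3, e4, e5, e6, e7⟩ := eqs hw
    simp only [c1.1, c1.2, ne_eq, not_true_eq_false, false_or] at h1
    simp only [c1.1, c1.2, w6, w7, mul_zero, add_zero, sub_zero] at e0 e1 e2 e3
    have w0 : w 0 = 0 := by grind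
    have w1 : w 1 = 0 := by grind
    grind
  by_cases c2 : a 4 = 0 ∧ a 5 = 0
  · refine le_two_of a (.proj 4) (.proj 5) fun w hw (w4 : w 4 = 0) (w5 : w 5 = 0) => fin w ?_
    obtain ⟨e0, e1, e2, e3, e4, e5, e6, e7⟩ := eqs hw
    simp only [c2.1, c2.2, ne_eq, not_true_eq_false, false_or] at h2
    simp only [c2.1, c2.2, w4, w5, mul_zero, add_zero, sub_zero] at e0 e1 e2 e3
    have w0 : w 0 = 0 := by grind
    have w1 : w 1 = 0 := by grind
    grind
  by_cases d4 : a 4 = 0 <;> by_cases d6 : a 6 = 0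
  · refine le_two_of a (.proj 2 + (3 : k) • .proj 3) (.proj 5)
      fun w hw (w1 : w 2 + 3 * w 3 = 0) (w2 : w 5 = 0) => fin w ?_
    obtain ⟨e0, e1, e2, e3, e4, e5, e6, e7⟩ := eqs hw
    grind
  · refine le_two_of a (.proj 1) (.proj 4) fun w hw (w1 : w 1 = 0) (w2 : w 4 = 0) => fin w ?_
    obtain ⟨e0, e1, e2, e3, e4, e5, e6, e7⟩ := eqs hw
    grind
  · refine le_two_of a (.proj 0) (.proj 5) fun w hw (w1 : w 0 = 0) (w2 : w 5 = 0) => fin w ?_
    obtain ⟨e0, e1, e2, e3, e4, e5, e6, e7⟩ := eqs hw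
    grind
  · refine le_two_of a ((3 : k) • .proj 3 - .proj 2) (.proj 4)
      fun w hw (w1 : 3 * w 3 - w 2 = 0) (w2 : w 4 = 0) => fin w ?_
    obtain ⟨e0, e1, e2, e3, e4, e5, e6, e7⟩ := eqs hw
    grind

theorem three_le (p : Ideal (MvPolynomial (Fin 8) k)) [p.IsPrime] (i j : Fin 8) (hij : j ≠ i)
    (q : MvPolynomial (Fin 8) k) (hi : X i ∈ p) (hj : X j ∈ p) (hq : q ∈ p)
    (h : aeval (fun m => if m = i ∨ m = j then 0 else X m : Fin 8 → MvPolynomial (Fin 8) k) q ≠ 0) :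
    3 ≤ p.height := by
  let f1 : MvPolynomial (Fin 8) k →ₐ[k] MvPolynomial (Fin 8) k :=
    aeval fun m => if m = i then 0 else X m
  let f2 : MvPolynomial (Fin 8) k →ₐ[k] MvPolynomial (Fin 8) k :=
    aeval fun m => if m = i ∨ m = j then 0 else X m
  have := RingHom.ker_isPrime f1
  have := RingHom.ker_isPrime f2
  have l1 : ⊥ < RingHom.ker f1 := bot_lt_iff_ne_bot.2 fun c => X_ne_zero (R := k) i
    (Ideal.mem_bot.1 (c ▸ show f1 (X i) = 0 by simp [f1]))
  have l2 : RingHom.ker f1 < RingHom.ker f2 := by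
    have e : f2.comp f1 = f2 := by
      ext1 m; by_cases c : m = i <;> simp [f1, f2, c]
    refine ⟨fun F (hF : f1 F = 0) => show f2 F = 0 by rw [← e, AlgHom.comp_apply, hF, map_zero],
      fun c => ?_⟩
    have : f1 (X j) = 0 := c (show f2 (X j) = 0 by simp [f2])
    simp [f1, hij] at this
  have l3 : RingHom.ker f2 < p := by
    have e : ∀ F, F - f2 F ∈ p := fun F => by
      induction F using MvPolynomial.induction_on with
      | C a => simp [f2]
      | add F G h1 h2 => convert add_mem h1 h2 using 1; rw [map_add]; ring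
      | mul_X F m h1 =>
        have : X m - f2 (X m) ∈ p := by
          simp only [f2, aeval_X]
          split_ifs with c
          · rcases c with rfl | rfl <;> simpa
          · simp
        convert add_mem (p.mul_mem_right (X m) h1) (p.mul_mem_left (f2 F) this) using 1
        rw [map_mul]; ring
    exact ⟨fun F (hF : f2 F = 0) => by simpa [hF] using e F, fun c => h (c hq)⟩
  have a1 := Ideal.height_add_one_le_of_lt_of_isPrime l1
  have a2 := Ideal.height_add_one_le_of_lt_of_isPrime l2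
  have a3 := Ideal.height_add_one_le_of_lt_of_isPrime l3
  rw [Ideal.height_bot] at a1
  calc (3 : ℕ∞) = 0 + 1 + 1 + 1 := by norm_num
    _ ≤ _ := le_trans (by gcongr; exact le_trans (by gcongr) a2) a3

theorem height_ge [CharZero k] (I : Ideal (MvPolynomial (Fin 8) k))
    (h : ∀ F, (∀ a, Module.finrank k (St a) ≠ 2 → eval a F = 0) → F ∈ I) : 3 ≤ I.height := by
  rw [Ideal.height_eq_inf_minimalPrimes]
  refine le_iInf₂ fun p hp => ?_
  have := hp.1.1
  by_cases c : X 6 ∈ p ∧ X 7 ∈ p ∧ X 4 * X 5 * X 2 - X 4 ^ 2 * X 0 + X 5 ^ 2 * X 1 ∈ p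
  · refine three_le p 6 7 (by decide) _ c.1 c.2.1 c.2.2 fun e => ?_
    simpa using congrArg (eval fun m => if m = 5 ∨ m = 1 then 1 else 0) e
  have key : ∀ F, (∀ a, eval a F ≠ 0 → a 4 ≠ 0 ∨ a 5 ≠ 0 ∨
      a 6 * a 7 * a 2 + a 7 ^ 2 * a 0 - a 6 ^ 2 * a 1 ≠ 0) → F ∈ p := by
    intro F hF
    by_contra n
    have : ∀ H, (∀ a, eval a H ≠ 0 → a 6 ≠ 0 ∨ a 7 ≠ 0 ∨
        a 4 * a 5 * a 2 - a 4 ^ 2 * a 0 + a 5 ^ 2 * a 1 ≠ 0) → H ∈ p := fun H hH =>
      (Ideal.IsPrime.mem_or_mem ‹_› (hp.1.2 (h (F * H) fun a ha => by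
        by_contra e
        rw [map_mul, mul_eq_zero, not_or] at e
        exact ha (le_antisymm (le_two a (hH a e.2) (hF a e.1)) (two_le a))))).resolve_left n
    exact c ⟨this _ fun a ha => .inl (by simpa using ha), this _ fun a ha => .inr (.inl
      (by simpa using ha)), this _ fun a ha => .inr (.inr (by simpa using ha))⟩
  refine three_le p 4 5 (by decide) (X 6 * X 7 * X 2 + X 7 ^ 2 * X 0 - X 6 ^ 2 * X 1)
    (key _ fun a ha => .inl (by simpa using ha)) (key _ fun a ha => .inr (.inl (by simpa using ha)))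
    (key _ fun a ha => .inr (.inr (by simpa using ha))) fun e => ?_
  simpa using congrArg (eval fun m => if m = 7 ∨ m = 0 then 1 else 0) e

end Pool.Agent.Lib.H23Zc
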